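import Mathlib

/-! Property (S) for Banach algebras (definitions). -/

namespace Pool.Agent.H41.PropS

/-- The Jacobson radical of a (not necessarily unital) complex algebra `A`:
the elements of `A` lying in the Jacobson radical of the unitization. -/
def rad (A : Type) [NonUnitalRing A] [Module ℂ A] [IsScalarTower ℂ A A] [SMulCommClass ℂ A A] :
    Set A :=
  {a | (a : Unitization ℂ A) ∈ Ring.jacobson (Unitization ℂ A)}

/-- `A²`: the linear span of the products. -/
def Sq (A : Type) [NonUnitalRing A] [Module ℂ A] : Set A :=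
  (Submodule.span ℂ (Set.range fun p : A × A => p.1 * p.2) : Submodule ℂ A)

/-- Property (S) of `A`. -/
def HasS (A : Type) [NonUnitalNormedRing A] [Module ℂ A] : Prop :=
  ∃ C : ℝ, 0 < C ∧ ∀ x ∈ Sq A, ∃ l : List (A × A),
    x = (l.map fun p => p.1 * p.2).sum ∧ (l.map fun p => ‖p.1‖ * ‖p.2‖).sum ≤ C * ‖x‖

/-- Property (S) of the quotient `A / R`, written on representatives: the class of `x` has
quotient norm `infDist x R`, and `(A/R)²` consists of the classes of elements of `A²`. -/
def QuotHasS (A : Type) [NonUnitalNormedRing A] [Module ℂ A] (R : Set A) : Prop :=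
  ∃ C : ℝ, 0 < C ∧ ∀ x ∈ Sq A, ∃ l : List (A × A),
    x - (l.map fun p => p.1 * p.2).sum ∈ R ∧
      (l.map fun p => Metric.infDist p.1 R * Metric.infDist p.2 R).sum ≤ C * Metric.infDist x R

end Pool.Agent.H41.PropS
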