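import Mathlib

set_option autoImplicit false

namespace Pool.Agent.H41.Att
open Complex ComplexConjugate

abbrev V := ℂ × ℂ

/-- quaternion product in complex coordinates -/
noncomputable def qm (p q : V) : V :=
  (p.1 * q.1 - p.2 * conj q.2, p.1 * q.2 + p.2 * conj q.1)

noncomputable def nsq (p : V) : ℝ := normSq p.1 + normSq p.2

lemma nsq_qm (p q : V) : nsq (qm p q) = nsq p * nsq q := by
  simp [nsq, qm, normSq_apply]; ring

lemma nsq_eq_zero {p : V} : nsq p = 0 ↔ p = 0 := by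
  constructor
  · intro h
    have h1 := normSq_nonneg p.1
    have h2 := normSq_nonneg p.2
    unfold nsq at h
    have a : normSq p.1 = 0 := by linarith
    have b : normSq p.2 = 0 := by linarith
    exact Prod.ext (normSq_eq_zero.1 a) (normSq_eq_zero.1 b)
  · rintro rfl; simp [nsq]

lemma qm_ne {p q : V} (hp : p ≠ 0) (hq : q ≠ 0) : qm p q ≠ 0 := by
  intro h
  have := nsq_qm p q
  rw [h, nsq_eq_zero.2 rfl] at this
  rcases mul_eq_zero.1 this.symm with h | h
  · exact hp (nsq_eq_zero.1 h)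
  · exact hq (nsq_eq_zero.1 h)

noncomputable def mm (q : V) (s : ℝ) : V :=
  (conj q.1 ^ 2 - s * (q.2 * conj q.2),
    ((1 - s) - s * (q.1 + conj q.1) + I * (s * (1 - s))) * q.2)

noncomputable def KK (q : V) (s : ℝ) : V :=
  qm (qm q (qm (qm ((s : ℂ), (1 - s) * I) q) ((s : ℂ), -((1 - s) * I)))) (mm q s)

lemma mm_ne {q : V} (hq : q ≠ 0) (s : ℝ) : mm q s ≠ 0 := by
  intro h
  have h1 : conj q.1 ^ 2 - s * (q.2 * conj q.2) = 0 := congrArg Prod.fst h
  have h2 : ((1 - s) - s * (q.1 + conj q.1) + I * (s * (1 - s))) * q.2 = 0 := congrArg Prod.snd h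
  by_cases hz : q.2 = 0
  · rw [hz] at h1
    simp at h1
    exact hq (Prod.ext h1 hz)
  · have h3 := (mul_eq_zero.1 h2).resolve_right hz
    have a := congrArg Complex.re h3
    have b := congrArg Complex.im h3
    have c := congrArg Complex.re h1
    simp [pow_two] at a b c
    have hn : 0 < q.2.re * q.2.re + q.2.im * q.2.im := by
      have := normSq_pos.2 hz
      rwa [normSq_apply] at this
    rcases b with b | b
    · rw [b] at a; norm_num at a
    · have hs : s = 1 := by linarith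
      rw [hs] at a c
      have : q.1.re = 0 := by linarith
      rw [this] at c
      nlinarith [mul_self_nonneg q.1.im]

lemma KK_ne {q : V} (hq : q ≠ 0) (s : ℝ) : KK q s ≠ 0 := by
  have e1 : (((s : ℂ), (1 - s) * I) : V) ≠ 0 := by
    intro h
    have a : (s : ℂ) = 0 := congrArg Prod.fst h
    have b : (1 - (s : ℂ)) * I = 0 := congrArg Prod.snd h
    rw [a] at b; simp at b
  have e2 : (((s : ℂ), -((1 - s) * I)) : V) ≠ 0 := by
    intro h
    have a : (s : ℂ) = 0 := congrArg Prod.fst h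
    have b : -((1 - (s : ℂ)) * I) = 0 := congrArg Prod.snd h
    rw [a] at b; simp at b
  exact qm_ne (qm_ne hq (qm_ne (qm_ne e1 hq) e2)) (mm_ne hq s)

lemma KK_one (q : V) : KK q 1 = (nsq q ^ 2 : ℝ) • ((1, 0) : V) := by
  have h : ((nsq q : ℝ) : ℂ) = q.1 * conj q.1 + q.2 * conj q.2 := by
    simp [nsq, mul_conj]
  refine Prod.ext ?_ ?_
  · simp [KK, qm, mm, h]; ring
  · simp [KK, qm, mm]; ring

lemma KK_zero (q : V) : KK q 0 =
    ((q.1 * conj q.1 + q.2 ^ 2) * conj q.1 ^ 2 - q.1 * (q.2 - conj q.2) * conj q.2,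
     (q.1 * conj q.1 + q.2 ^ 2) * q.2 + q.1 * (q.2 - conj q.2) * q.1 ^ 2) := by
  refine Prod.ext ?_ ?_
  · simp [KK, qm, mm]
    linear_combination (-(q.1 * conj q.1 ^ 3) - q.2 ^ 2 * conj q.1 ^ 2
      + q.1 * q.2 * conj q.2 - q.1 * conj q.2 ^ 2) * I_mul_I
  · simp [KK, qm, mm]
    linear_combination (-(q.1 * conj q.1 * q.2) - q.2 ^ 3
      - q.1 ^ 3 * q.2 + q.1 ^ 3 * conj q.2) * I_mul_I

noncomputable def ze : ℂ := ⟨-1/2, Real.sqrt 3 / 2⟩

lemma ze_mul : ze * conj ze = 1 := by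
  have : Real.sqrt 3 * Real.sqrt 3 = 3 := Real.mul_self_sqrt (by norm_num)
  apply Complex.ext <;> simp [ze] <;> nlinarith

lemma ze_sq : conj ze ^ 2 = ze := by
  have : Real.sqrt 3 * Real.sqrt 3 = 3 := Real.mul_self_sqrt (by norm_num)
  apply Complex.ext <;> simp [ze, pow_two] <;> nlinarith

lemma ze_cube : ze ^ 3 = 1 := by
  have h1 := ze_mul
  have h2 := ze_sq
  have : ze ^ 3 = (ze * conj ze) ^ 2 := by rw [mul_pow, h2]; ring
  rw [this, h1]; simp

lemma ze_norm : ‖ze‖ = 1 := by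
  have h := ze_mul
  rw [mul_conj, normSq_eq_norm_sq] at h
  have h' : ‖ze‖ ^ 2 = 1 := by exact_mod_cast h
  nlinarith [norm_nonneg ze]

lemma ze_ne : ze ≠ 1 := by
  intro h
  have := congrArg Complex.re h
  simp [ze] at this
  norm_num at this

/-- the order six isometry -/
noncomputable def gV (q : V) : V := (ze * q.1, -q.2)

lemma gV_norm (q : V) : ‖gV q‖ = ‖q‖ := by
  simp [gV, Prod.norm_def, ze_norm]

lemma gV_sub (p q : V) : gV p - gV q = gV (p - q) := by
  refine Prod.ext ?_ ?_ <;> simp [gV] <;> ring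

lemma gV_smul (c : ℝ) (q : V) : gV (c • q) = c • gV q := by
  refine Prod.ext ?_ ?_ <;> simp [gV] <;> ring

lemma gV_fix {q : V} (h : gV q = q) : q = 0 := by
  have a : ze * q.1 = q.1 := congrArg Prod.fst h
  have b : -q.2 = q.2 := congrArg Prod.snd h
  refine Prod.ext ?_ ?_
  · by_contra hq
    exact ze_ne (mul_right_cancel₀ hq (by rw [a]; simp))
  · have : (2 : ℂ) * q.2 = 0 := by linear_combination -b
    simpa using this

lemma KK_equiv (q : V) : KK (gV q) 0 = gV (KK q 0) := by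
  rw [KK_zero, KK_zero]
  have h1 := ze_mul
  have h2 := ze_sq
  have h3 := ze_cube
  refine Prod.ext ?_ ?_
  · simp [gV]
    linear_combination (q.1 * conj q.1 ^ 3 * conj ze ^ 2) * h1
      + (q.1 * conj q.1 ^ 3 + q.2 ^ 2 * conj q.1 ^ 2) * h2
  · simp [gV]
    linear_combination (-(q.1 * conj q.1 * q.2)) * h1
      + (-(q.1 ^ 3 * (q.2 - conj q.2))) * h3

lemma KK_cont : Continuous fun x : V × ℝ => KK x.1 x.2 := by
  unfold KK qm mm
  fun_prop

abbrev P := Metric.sphere (0 : V) 1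

lemma P_norm (y : P) : ‖(y : V)‖ = 1 := by simpa using y.2

lemma P_ne (y : P) : (y : V) ≠ 0 := by
  intro h
  have := P_norm y
  rw [h] at this; simp at this

noncomputable def HH (y : P) (s : ℝ) : P :=
  ⟨‖KK y s‖⁻¹ • KK y s, by
    have := KK_ne (P_ne y) s
    simp [norm_smul, this]⟩

noncomputable def y0 : P := ⟨(1, 0), by simp [Prod.norm_def]⟩

noncomputable def gP (y : P) : P := ⟨gV y, by simp [gV_norm, P_norm]⟩

lemma HH_cont : Continuous fun x : P × ℝ => HH x.1 x.2 := by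
  refine Continuous.subtype_mk ?_ _
  have h0 : Continuous fun x : P × ℝ => ((x.1 : V), x.2) := by fun_prop
  have h : Continuous fun x : P × ℝ => KK x.1 x.2 := by
    simpa only [Function.comp_def] using KK_cont.comp h0
  exact (h.norm.inv₀ fun x => norm_ne_zero_iff.2 (KK_ne (P_ne x.1) x.2)).smul h

lemma HH_one (y : P) : HH y 1 = y0 := by
  apply Subtype.ext
  have hn : nsq (y : V) ≠ 0 := fun h => P_ne y (nsq_eq_zero.1 h)
  have hp : 0 < nsq (y : V) ^ 2 := by positivity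
  change ‖KK y 1‖⁻¹ • KK y 1 = ((1, 0) : V)
  rw [KK_one, norm_smul, smul_smul]
  have : ‖((1, 0) : V)‖ = 1 := by simp [Prod.norm_def]
  rw [this, Real.norm_of_nonneg hp.le, mul_one, inv_mul_cancel₀ hp.ne', one_smul]

lemma HH_equiv (y : P) : HH (gP y) 0 = gP (HH y 0) := by
  apply Subtype.ext
  change ‖KK (gV y) 0‖⁻¹ • KK (gV y) 0 = gV (‖KK y 0‖⁻¹ • KK y 0)
  rw [KK_equiv, gV_norm, gV_smul]

end Pool.Agent.H41.Att
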