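import Pool.Agent.H41.Att1

set_option autoImplicit false

namespace Pool.Agent.H41.Att
open Filter Topology Set Metric ZeroAtInfty

section C0
variable {F : Type} [NormedAddCommGroup F]

def mk0 (u : ℕ → F) (h : Tendsto u atTop (𝓝 0)) : C₀(ℕ, F) :=
  ⟨⟨u, continuous_of_discreteTopology⟩, by
    rw [cocompact_eq_cofinite, Nat.cofinite_eq_atTop]; exact h⟩

@[simp] lemma mk0_apply (u : ℕ → F) (h : Tendsto u atTop (𝓝 0)) (n : ℕ) : mk0 u h n = u n := rfl

lemma c0_tendsto (x : C₀(ℕ, F)) : Tendsto x atTop (𝓝 0) := by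
  have := x.zero_at_infty'
  rw [cocompact_eq_cofinite, Nat.cofinite_eq_atTop] at this
  exact this

lemma c0_dist_le (x y : C₀(ℕ, F)) {c : ℝ} (hc : 0 ≤ c) (h : ∀ n, dist (x n) (y n) ≤ c) :
    dist x y ≤ c := by
  rw [← ZeroAtInftyContinuousMap.dist_toBCF_eq_dist]
  exact (BoundedContinuousFunction.dist_le hc).2 h

lemma c0_coord (x y : C₀(ℕ, F)) (n : ℕ) : dist (x n) (y n) ≤ dist x y := by
  rw [← ZeroAtInftyContinuousMap.dist_toBCF_eq_dist]
  exact BoundedContinuousFunction.dist_coe_le_dist (f := x.toBCF) (g := y.toBCF) n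

lemma c0_eval_cont (n : ℕ) : Continuous fun x : C₀(ℕ, F) => x n :=
  (LipschitzWith.of_dist_le_mul (K := 1) fun x y => by simpa using c0_coord x y n).continuous

lemma c0_cont {T : Type} [TopologicalSpace T] (Φ : T → C₀(ℕ, F))
    (h1 : ∀ n, Continuous fun x => Φ x n)
    (h2 : ∀ x0 : T, ∀ ε > 0, ∃ N : ℕ, ∀ᶠ x in 𝓝 x0, ∀ n, N ≤ n → ‖Φ x n‖ ≤ ε) :
    Continuous Φ := by
  refine continuous_iff_continuousAt.2 fun x0 => Metric.tendsto_nhds.2 fun ε hε => ?_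
  obtain ⟨N, hN⟩ := h2 x0 (ε / 4) (by positivity)
  have h0 := hN.self_of_nhds
  have h3 : ∀ᶠ x in 𝓝 x0, ∀ n ∈ Finset.range N, dist (Φ x n) (Φ x0 n) < ε / 2 :=
    (Finset.range N).eventually_all.2 fun n _ =>
      Metric.tendsto_nhds.1 (h1 n).continuousAt (ε / 2) (by positivity)
  filter_upwards [hN, h3] with x hx hx3
  refine lt_of_le_of_lt (c0_dist_le _ _ (c := ε / 2) (by positivity) fun n => ?_) (by linarith)
  by_cases hn : n < N
  · exact (hx3 n (Finset.mem_range.2 hn)).le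
  · have a := hx n (not_lt.1 hn)
    have b := h0 n (not_lt.1 hn)
    have := dist_le_norm_add_norm (Φ x n) (Φ x0 n)
    linarith

end C0

noncomputable def cl (x : ℝ) : ℝ := max 0 (min 1 x)

lemma cl_nonneg (x : ℝ) : 0 ≤ cl x := le_max_left _ _
lemma cl_le_one (x : ℝ) : cl x ≤ 1 := max_le zero_le_one (min_le_left _ _)
lemma cl_zero {x : ℝ} (h : x ≤ 0) : cl x = 0 := max_eq_left ((min_le_right _ _).trans h)
lemma cl_one {x : ℝ} (h : 1 ≤ x) : cl x = 1 := by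
  unfold cl; rw [min_eq_left h]; exact max_eq_right zero_le_one
@[fun_prop] lemma cl_cont : Continuous cl := by unfold cl; fun_prop

lemma exists_slow (η : ℕ → ℝ) (hη : ∀ j, 0 < η j) :
    ∃ a : ℝ → ℝ, Continuous a ∧ Monotone a ∧ (∀ t, 0 ≤ a t) ∧
      ∀ j0 : ℕ, ∃ t0 : ℝ, 0 < t0 ∧ ∀ t, t0 ≤ t → ∃ j : ℕ, j0 ≤ j ∧ (j : ℝ) - 3 ≤ a t ∧
        a (t + 1) ≤ j ∧ a (t + 1) - a t ≤ η j ∧ 1 / t ≤ η j := by
  obtain ⟨M, M0, MS⟩ : ∃ M : ℕ → ℝ, M 0 = 1 + 1 / η 4 ∧
      ∀ l, M (l + 1) = 2 * M l + 1 / η (l + 5) :=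
    ⟨fun l => Nat.rec (1 + 1 / η 4) (fun l m => 2 * m + 1 / η (l + 5)) l, rfl, fun l => rfl⟩
  have hp : ∀ j, 0 < 1 / η j := fun j => one_div_pos.2 (hη j)
  have M1 : ∀ l, 1 ≤ M l := by
    intro l
    induction l with
    | zero => rw [M0]; linarith [hp 4]
    | succ l ih => rw [MS]; linarith [hp (l + 5)]
  have Mη : ∀ l, 1 / η (l + 4) ≤ M l := by
    intro l
    cases l with
    | zero => rw [M0]; simp
    | succ l => rw [MS]; have := M1 l; have : l + 1 + 4 = l + 5 := rfl; rw [this]; linarith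
  have M2 : ∀ l, 2 * M l ≤ M (l + 1) := fun l => by rw [MS]; linarith [hp (l + 5)]
  have Mm : Monotone M := monotone_nat_of_le_succ fun l => by linarith [M2 l, M1 l]
  have Mp : ∀ l, 0 < M l := fun l => by linarith [M1 l]
  let φ : ℝ → ℕ → ℝ := fun t l => l + max t 0 / M l
  have φ0 : ∀ (t : ℝ) (l : ℕ), (l : ℝ) ≤ φ t l := fun t l => by
    have : 0 ≤ max t 0 / M l := div_nonneg (le_max_right _ _) (Mp l).le
    simp only [φ]; linarith
  have bdd : ∀ t, BddBelow (range (φ t)) := fun t =>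
    ⟨0, by rintro _ ⟨l, rfl⟩; exact (Nat.cast_nonneg l).trans (φ0 t l)⟩
  have hmin : ∀ t, ∃ l, (∀ k, φ t l ≤ φ t k) ∧ ⨅ k, φ t k = φ t l := by
    intro t
    have : Tendsto (φ t) cofinite atTop := by
      rw [Nat.cofinite_eq_atTop]
      exact tendsto_atTop_mono (φ0 t) tendsto_natCast_atTop_atTop
    obtain ⟨l, hl⟩ := this.exists_forall_le
    exact ⟨l, hl, le_antisymm (ciInf_le (bdd t) l) (le_ciInf hl)⟩
  refine ⟨fun t => ⨅ l, φ t l, ?_, ?_, ?_, ?_⟩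
  · refine (LipschitzWith.of_le_add fun x y => ?_).continuous
    obtain ⟨l, -, hl⟩ := hmin y
    rw [hl]
    refine (ciInf_le (bdd x) l).trans ?_
    have h1 : max x 0 ≤ max y 0 + dist x y := by
      have := le_abs_self (x - y)
      rw [Real.dist_eq]
      refine max_le ?_ (by positivity)
      linarith [le_max_left y 0]
    have h2 : dist x y / M l ≤ dist x y := div_le_self dist_nonneg (M1 l)
    have h3 : max x 0 / M l ≤ (max y 0 + dist x y) / M l :=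
      div_le_div_of_nonneg_right h1 (Mp l).le
    rw [add_div] at h3
    simp only [φ]; linarith
  · intro x y hxy
    refine ciInf_mono (bdd x) fun l => ?_
    have : max x 0 / M l ≤ max y 0 / M l :=
      div_le_div_of_nonneg_right (max_le_max hxy le_rfl) (Mp l).le
    simp only [φ]; linarith
  · intro t
    exact le_ciInf fun l => (Nat.cast_nonneg l).trans (φ0 t l)
  · intro j0
    refine ⟨2 * M j0 + 1, by linarith [Mp j0], fun t ht => ?_⟩
    have tp : 0 < t := by linarith [Mp j0]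
    obtain ⟨l, hl, hl2⟩ := hmin t
    have e : ∀ k, φ t k = k + t / M k := fun k => by simp only [φ]; rw [max_eq_left tp.le]
    have h1 : t / M l ≤ 2 := by
      have a := hl (l + 1)
      rw [e, e] at a
      have b : t / M (l + 1) ≤ t / (2 * M l) :=
        div_le_div_of_nonneg_left tp.le (by linarith [Mp l]) (M2 l)
      have c : t / (2 * M l) = t / M l / 2 := by rw [div_div, mul_comm]
      push_cast at a
      linarith
    have h2 : j0 < l := by
      by_contra hc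
      have := Mm (not_lt.1 hc)
      rw [div_le_iff₀ (Mp l)] at h1
      linarith
    obtain ⟨m, rfl⟩ : ∃ m, l = m + 1 := ⟨l - 1, by omega⟩
    have h3 : M m ≤ t := by
      have a := hl m
      rw [e, e] at a
      have b : 0 ≤ t / M (m + 1) := div_nonneg tp.le (Mp _).le
      push_cast at a
      have c : 1 ≤ t / M m := by linarith
      rwa [le_div_iff₀ (Mp m), one_mul] at c
    have h4 : 1 / M m ≤ η (m + 4) := by
      rw [one_div_le (Mp m) (hη _)]; exact Mη m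
    have h5 : ⨅ k, φ (t + 1) k ≤ φ t (m + 1) + 1 / M (m + 1) := by
      refine (ciInf_le (bdd _) (m + 1)).trans (le_of_eq ?_)
      rw [e]; simp only [φ]; rw [max_eq_left (by linarith), add_div]; ring
    have h6 : 1 / M (m + 1) ≤ 1 / M m := one_div_le_one_div_of_le (Mp m) (Mm (Nat.le_succ m))
    have h7 : 1 / M (m + 1) ≤ 1 := by rw [div_le_one (Mp _)]; exact M1 _
    refine ⟨m + 4, by omega, ?_, ?_, ?_, ?_⟩
    · simp only; rw [hl2]; have := φ0 t (m + 1); push_cast at this ⊢; linarith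
    · simp only; rw [e] at h5; push_cast at h5 ⊢; linarith
    · simp only; rw [hl2]; linarith
    · exact (one_div_le_one_div_of_le (Mp m) h3).trans h4

section path
variable {E : Type} [NormedAddCommGroup E]

structure Shape (B A : Set E) (G : E → ℝ → ℝ → E) : Prop where
  cont : Continuous fun x : E × ℝ × ℝ => G x.1 x.2.1 x.2.2
  mem : ∀ v ∈ B, ∀ J u, G v J u ∈ B
  zero : ∀ v J, G v J 0 = v
  near : ∀ ε > 0, ∃ J0 : ℝ, (∀ a ∈ A, ∀ J u, J0 ≤ J → infDist (G a J u) A ≤ ε) ∧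
    ∀ v ∈ B, ∀ J u, 0 ≤ J → 3 ≤ u → J0 + 3 ≤ J + u → infDist (G v J u) A ≤ ε

structure Slow (B A : Set E) (p : E → ℝ → ℝ → E) : Prop where
  cont : Continuous fun x : E × ℝ × ℝ => p x.1 x.2.1 x.2.2
  mem : ∀ v ∈ B, ∀ τ t, p v τ t ∈ B
  zero : ∀ v τ, p v τ 0 = v
  p1 : ∀ ε > 0, ∃ τ0 : ℝ, 0 < τ0 ∧ ∀ v ∈ B, ∀ τ, τ0 ≤ τ → infDist v A ≤ 1 / τ →
    ∀ t t', 0 ≤ t → t ≤ t' → t' ≤ t + 1 →
      infDist (p v τ t) A ≤ ε ∧ dist (p v τ t') (p v τ t) ≤ ε
  p2 : ∀ ε > 0, ∀ τ0 : ℝ, ∃ t0 : ℝ, ∀ v ∈ B, ∀ τ, 0 ≤ τ → τ ≤ τ0 → ∀ t, t0 ≤ t →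
      infDist (p v τ t) A ≤ ε ∧ dist (p v τ (t + 1)) (p v τ t) ≤ ε

lemma exists_path {B A : Set E} {G : E → ℝ → ℝ → E} (hB : IsCompact B) (hA : IsCompact A)
    (hne : A.Nonempty) (hAB : A ⊆ B) (h : Shape B A G) : ∃ p, Slow B A p := by
  have hu : ∀ j : ℕ, ∃ η > 0, ∀ v ∈ B, ∀ v' ∈ B, ∀ J u u' : ℝ, J ∈ Icc (0 : ℝ) j →
      u ∈ Icc (0 : ℝ) j → u' ∈ Icc (0 : ℝ) j → dist v v' ≤ η → dist u u' ≤ η →
      dist (G v J u) (G v' J u') ≤ 1 / ((j : ℝ) + 1) := by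
    intro j
    have hc : IsCompact (B ×ˢ Icc (0 : ℝ) j ×ˢ Icc (0 : ℝ) j) :=
      hB.prod (isCompact_Icc.prod isCompact_Icc)
    obtain ⟨η, hη, H⟩ := Metric.uniformContinuousOn_iff_le.1
      (hc.uniformContinuousOn_of_continuous h.cont.continuousOn) (1 / ((j : ℝ) + 1))
      (by positivity)
    refine ⟨η, hη, fun v hv v' hv' J u u' hJ hu hu' d1 d2 => ?_⟩
    refine H (v, J, u) ⟨hv, hJ, hu⟩ (v', J, u') ⟨hv', hJ, hu'⟩ ?_
    simp only [Prod.dist_eq, dist_self]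
    exact max_le d1 (max_le hη.le d2)
  choose η hη hU using hu
  obtain ⟨a, ac, am, a0, ha⟩ := exists_slow η hη
  have small : ∀ ε > 0, ∀ R : ℝ, ∃ j0 : ℕ, R ≤ j0 ∧ ∀ j : ℕ, j0 ≤ j → 1 / ((j : ℝ) + 1) ≤ ε := by
    intro ε hε R
    obtain ⟨n, hn⟩ := exists_nat_one_div_lt hε
    refine ⟨max n ⌈R⌉₊, (Nat.le_ceil R).trans (by exact_mod_cast le_max_right _ _),
      fun j hj => le_trans ?_ hn.le⟩
    exact Nat.one_div_le_one_div ((le_max_left _ _).trans hj)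
  -- steps
  have step : ∀ ε > 0, ∃ s0 : ℝ, ∀ v ∈ B, ∀ τ t t', 0 ≤ t → t ≤ t' → t' ≤ t + 1 → s0 ≤ τ + t →
      dist (G v (a τ) (a (τ + t') - a τ)) (G v (a τ) (a (τ + t) - a τ)) ≤ ε := by
    intro ε hε
    obtain ⟨j0, -, hj0⟩ := small ε hε 0
    obtain ⟨s0, -, hs0⟩ := ha j0
    refine ⟨s0, fun v hv τ t t' h0 h1 h2 h3 => ?_⟩
    obtain ⟨j, hj, -, b1, b2, -⟩ := hs0 _ h3
    have m1 : a τ ≤ a (τ + t) := am (by linarith)
    have m2 : a (τ + t) ≤ a (τ + t') := am (by linarith)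
    have m3 : a (τ + t') ≤ a (τ + t + 1) := am (by linarith)
    have m0 := a0 τ
    refine (hU j v hv v hv _ _ _ ⟨m0, by linarith⟩ ⟨by linarith, by linarith⟩
      ⟨by linarith, by linarith⟩ (by simpa using (hη j).le) ?_).trans (hj0 j hj)
    rw [Real.dist_eq, abs_of_nonneg (by linarith)]
    linarith
  refine ⟨fun v τ t => G v (a τ) (a (τ + t) - a τ), ?_, fun v hv τ t => h.mem v hv _ _,
    fun v τ => by simp [h.zero], ?_, ?_⟩
  · have h0 : Continuous fun x : E × ℝ × ℝ => (x.1, a x.2.1, a (x.2.1 + x.2.2) - a x.2.1) := by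
      fun_prop
    simpa only [Function.comp_def] using h.cont.comp h0
  · intro ε hε
    obtain ⟨s0, hs0⟩ := step ε hε
    obtain ⟨J0, n1, n2⟩ := h.near (ε / 2) (by positivity)
    obtain ⟨j0, hR, hj0⟩ := small (ε / 2) (by positivity) (max (J0 + 3) 3)
    obtain ⟨t0, t0p, ht0⟩ := ha j0
    refine ⟨max t0 s0, lt_max_of_lt_left t0p, fun v hv τ hτ hD t t' h0 h1 h2 =>
      ⟨?_, hs0 v hv τ t t' h0 h1 h2 (by linarith [le_max_right t0 s0])⟩⟩
    obtain ⟨j, hj, b0, b1, -, b3⟩ := ht0 τ ((le_max_left _ _).trans hτ)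
    have hj' : (j0 : ℝ) ≤ j := by exact_mod_cast hj
    have r1 := le_max_left (J0 + 3) 3
    have r2 := le_max_right (J0 + 3) 3
    have m1 : a τ ≤ a (τ + t) := am (by linarith)
    have m2 : a τ ≤ a (τ + 1) := am (by linarith)
    by_cases hu : 3 ≤ a (τ + t) - a τ
    · exact (n2 v hv _ _ (a0 τ) hu (by linarith)).trans (by linarith)
    · obtain ⟨b, hb, e⟩ := hA.exists_infDist_eq_dist hne v
      have d1 := hU j v hv b (hAB hb) (a τ) (a (τ + t) - a τ) (a (τ + t) - a τ)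
        ⟨a0 τ, by linarith⟩ ⟨by linarith, by linarith⟩ ⟨by linarith, by linarith⟩
        (by linarith) (by simpa using (hη j).le)
      have d2 := n1 b hb (a τ) (a (τ + t) - a τ) (by linarith)
      have d3 := infDist_le_infDist_add_dist (s := A) (x := G v (a τ) (a (τ + t) - a τ))
        (y := G b (a τ) (a (τ + t) - a τ))
      have d4 := hj0 j hj
      linarith
  · intro ε hε τ0
    obtain ⟨s0, hs0⟩ := step ε hε
    obtain ⟨J0, -, n2⟩ := h.near ε hε
    obtain ⟨j0, hR, -⟩ := small ε hε (max (J0 + 6) (a τ0 + 6))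
    obtain ⟨t0, t0p, ht0⟩ := ha j0
    refine ⟨max t0 s0, fun v hv τ h0 hτ t ht => ⟨?_, ?_⟩⟩
    · obtain ⟨j, hj, b0, -⟩ := ht0 t ((le_max_left _ _).trans ht)
      have hj' : (j0 : ℝ) ≤ j := by exact_mod_cast hj
      have r1 := le_max_left (J0 + 6) (a τ0 + 6)
      have r2 := le_max_right (J0 + 6) (a τ0 + 6)
      have m1 : a t ≤ a (τ + t) := am (by linarith)
      have m2 : a τ ≤ a τ0 := am hτ
      exact n2 v hv _ _ (a0 τ) (by linarith) (by linarith)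
    · exact hs0 v hv τ t (t + 1) (by linarith [le_max_left t0 s0]) (by linarith) le_rfl
        (by linarith [le_max_right t0 s0])

end path

end Pool.Agent.H41.Att
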