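import Pool.Agent.H41.Att2

set_option autoImplicit false

namespace Pool.Agent.H41.Att
open Filter Topology Set Metric ZeroAtInfty

structure Data (E : Type) [NormedAddCommGroup E] [NormedSpace ℝ E] where
  B : Set E
  A : Set E
  pr : E → E
  g : E → E
  p : E → ℝ → ℝ → E
  hB : IsCompact B
  hconv : Convex ℝ B
  hA : IsCompact A
  hne : A.Nonempty
  hAB : A ⊆ B
  pr_cont : Continuous pr
  pr_mem : ∀ v, pr v ∈ B
  pr_id : ∀ v ∈ B, pr v = v
  g_lip : ∀ v w, dist (g v) (g w) ≤ dist v w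
  gB : MapsTo g B B
  gA : MapsTo g A A
  gfix : ∀ a ∈ A, g a ≠ a
  slow : Slow B A p

variable {E : Type} [NormedAddCommGroup E] [NormedSpace ℝ E]

noncomputable def ip (w : ℕ → E) (T : ℝ) : ℕ → E
  | 0 => w 0
  | n + 1 => ip w T n + cl (T - n) • (w (n + 1) - ip w T n)

lemma ip_mem {B : Set E} (hB : Convex ℝ B) {w : ℕ → E} (hw : ∀ n, w n ∈ B) (T : ℝ) (n : ℕ) :
    ip w T n ∈ B := by
  induction n with
  | zero => exact hw 0
  | succ n ih => exact hB.add_smul_sub_mem ih (hw _) ⟨cl_nonneg _, cl_le_one _⟩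

lemma ip_ge (w : ℕ → E) {T : ℝ} {n : ℕ} (h : (n : ℝ) ≤ T) : ip w T n = w n := by
  cases n with
  | zero => rfl
  | succ n =>
    push_cast at h
    rw [ip, cl_one (by linarith)]; simp

lemma ip_stab (w : ℕ → E) {T : ℝ} {m n : ℕ} (h : T ≤ m) (hmn : m ≤ n) : ip w T n = ip w T m := by
  induction n, hmn using Nat.le_induction with
  | base => rfl
  | succ n hn ih =>
    have : (m : ℝ) ≤ n := by exact_mod_cast hn
    rw [ip, cl_zero (by linarith), ih]; simp

lemma ip_dist (w : ℕ → E) {T : ℝ} {m : ℕ} (h : (m : ℝ) ≤ T) :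
    dist (ip w T (m + 1)) (w m) ≤ dist (w (m + 1)) (w m) := by
  rw [ip, ip_ge w h, dist_eq_norm, dist_eq_norm, add_sub_cancel_left, norm_smul,
    Real.norm_of_nonneg (cl_nonneg _)]
  exact mul_le_of_le_one_left (norm_nonneg _) (cl_le_one _)

lemma ip_cont {Z : Type} [TopologicalSpace Z] {w : Z → ℕ → E} {T : Z → ℝ} {x0 : Z}
    (hw : ∀ n, ContinuousAt (fun x => w x n) x0) (hT : ContinuousAt T x0) (n : ℕ) :
    ContinuousAt (fun x => ip (w x) (T x) n) x0 := by
  induction n with
  | zero => exact hw 0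
  | succ n ih =>
    simp only [ip]
    exact ih.add ((cl_cont.continuousAt.comp (hT.sub continuousAt_const)).smul ((hw _).sub ih))

namespace Data
variable (d : Data E)

noncomputable def q (w : ℕ → E) (n : ℕ) : ℝ := infDist (w n) d.A + dist (w (n + 1)) (w n)

lemma q_nonneg (w : ℕ → E) (n : ℕ) : 0 ≤ d.q w n := add_nonneg infDist_nonneg dist_nonneg

noncomputable def ws (x : C₀(ℕ, E × ℝ)) (n : ℕ) : E := d.pr ((2 : ℝ) ^ n • (x n).1)

lemma ws_cont (n : ℕ) : Continuous fun x => d.ws x n :=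
  d.pr_cont.comp ((continuous_fst.comp (c0_eval_cont n)).const_smul _)

noncomputable def tm (x : C₀(ℕ, E × ℝ)) (n : ℕ) : ℝ :=
  Real.exp (-n) * min |d.q (d.ws x) n - (x n).2| 1

noncomputable def rho (x : C₀(ℕ, E × ℝ)) : ℝ := ∑' n, d.tm x n

lemma tm_nonneg (x : C₀(ℕ, E × ℝ)) (n : ℕ) : 0 ≤ d.tm x n := by unfold tm; positivity

lemma tm_le (n : ℕ) (x : C₀(ℕ, E × ℝ)) : ‖d.tm x n‖ ≤ Real.exp (-n) := by
  rw [Real.norm_of_nonneg (d.tm_nonneg x n)]
  exact mul_le_of_le_one_right (Real.exp_pos _).le (min_le_right _ _)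

lemma rho_cont : Continuous d.rho := by
  refine continuous_tsum (fun n => ?_) Real.summable_exp_neg_nat d.tm_le
  have h1 := d.ws_cont n
  have h2 := d.ws_cont (n + 1)
  have h3 : Continuous fun x : C₀(ℕ, E × ℝ) => (x n).2 := continuous_snd.comp (c0_eval_cont n)
  have h4 : Continuous fun x => infDist (d.ws x n) d.A := (continuous_infDist_pt _).comp h1
  exact continuous_const.mul ((((h4.add (h2.dist h1)).sub h3).abs).min continuous_const)

lemma rho_nonneg (x : C₀(ℕ, E × ℝ)) : 0 ≤ d.rho x := tsum_nonneg (d.tm_nonneg x)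

lemma tm_le_rho (x : C₀(ℕ, E × ℝ)) (n : ℕ) : d.tm x n ≤ d.rho x :=
  (Summable.of_norm_bounded Real.summable_exp_neg_nat (fun n => d.tm_le n x)).le_tsum n
    fun m _ => d.tm_nonneg x m

lemma close (x : C₀(ℕ, E × ℝ)) (n : ℕ) {δ : ℝ} (h0 : 0 < δ) (h1 : δ < 1)
    (a : d.rho x ≤ Real.exp (-2 * n)) (b : d.rho x ≤ δ ^ 2) :
    |d.q (d.ws x) n - (x n).2| ≤ δ := by
  have c := d.tm_le_rho x n
  have c0 := d.tm_nonneg x n
  have r0 := d.rho_nonneg x
  unfold tm at c c0
  set μ := min |d.q (d.ws x) n - (x n).2| 1 with hμ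
  have e : Real.exp (-2 * n) = Real.exp (-n) ^ 2 := by
    rw [← Real.exp_nat_mul]; congr 1; push_cast; ring
  have ep := Real.exp_pos (-(n : ℝ))
  have h2 : (Real.exp (-n) * μ) ^ 2 ≤ (Real.exp (-n) * δ) ^ 2 := by
    calc (Real.exp (-n) * μ) ^ 2 ≤ d.rho x * d.rho x := by
          rw [pow_two]; exact mul_le_mul c c c0 r0
      _ ≤ Real.exp (-2 * n) * δ ^ 2 := mul_le_mul a b r0 (Real.exp_pos _).le
      _ = _ := by rw [e]; ring
  have h3 : Real.exp (-n) * μ ≤ Real.exp (-n) * δ :=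
    (pow_le_pow_iff_left₀ c0 (by positivity) two_ne_zero).1 h2
  have h4 : μ ≤ δ := le_of_mul_le_mul_left h3 ep
  rcases min_le_iff.1 h4 with h | h
  · exact h
  · linarith

noncomputable def TT (x : C₀(ℕ, E × ℝ)) : ℝ := -Real.log (d.rho x) / 2

lemma le_TT {x : C₀(ℕ, E × ℝ)} (h : 0 < d.rho x) (s : ℝ) :
    s ≤ d.TT x ↔ d.rho x ≤ Real.exp (-2 * s) := by
  rw [← Real.log_le_iff_le_exp h, TT]
  constructor <;> intro h <;> linarith

noncomputable def pp (v : E) (ρ t : ℝ) : E := d.p v (1 / max (infDist v d.A) ρ) t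

noncomputable def r (x : C₀(ℕ, E × ℝ)) (n : ℕ) : E :=
  if d.rho x = 0 then d.ws x n else
    d.pp (ip (d.ws x) (d.TT x) n) (d.rho x) (max (n - d.TT x) 0)

lemma r_mem (x : C₀(ℕ, E × ℝ)) (n : ℕ) : d.r x n ∈ d.B := by
  unfold r
  split_ifs
  · exact d.pr_mem _
  · exact d.slow.mem _ (ip_mem d.hconv (fun n => d.pr_mem _) _ _) _ _

lemma r_pos {x : C₀(ℕ, E × ℝ)} (h : 0 < d.rho x) (n : ℕ) :
    d.r x n = d.pp (ip (d.ws x) (d.TT x) n) (d.rho x) (max (n - d.TT x) 0) := by
  rw [r, if_neg h.ne']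

lemma r_eq {x : C₀(ℕ, E × ℝ)} {n : ℕ} (h : d.rho x ≤ Real.exp (-2 * n)) : d.r x n = d.ws x n := by
  rcases (d.rho_nonneg x).eq_or_lt with h0 | h0
  · rw [r, if_pos h0.symm]
  · have := (d.le_TT h0 n).2 h
    rw [d.r_pos h0, max_eq_right (by linarith), pp, d.slow.zero, ip_ge _ this]

lemma r_cont (n : ℕ) : Continuous fun x => d.r x n := by
  refine continuous_iff_continuousAt.2 fun x0 => ?_
  rcases (d.rho_nonneg x0).eq_or_lt with h0 | h0
  · have : ∀ᶠ x in 𝓝 x0, d.rho x < Real.exp (-2 * n) :=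
      d.rho_cont.continuousAt.eventually_lt continuousAt_const (by rw [← h0]; exact Real.exp_pos _)
    refine (d.ws_cont n).continuousAt.congr ?_
    filter_upwards [this] with x hx using (d.r_eq hx.le).symm
  · have h1 : ∀ᶠ x in 𝓝 x0, 0 < d.rho x :=
      continuousAt_const.eventually_lt d.rho_cont.continuousAt h0
    have hT : ContinuousAt d.TT x0 :=
      ((d.rho_cont.continuousAt.log h0.ne').neg).div_const 2
    have hi := ip_cont (fun n => (d.ws_cont n).continuousAt) hT n
    have hτ : ContinuousAt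
        (fun x => 1 / max (infDist (ip (d.ws x) (d.TT x) n) d.A) (d.rho x)) x0 :=
      continuousAt_const.div
        (((continuous_infDist_pt _).continuousAt.comp hi).max d.rho_cont.continuousAt)
        (lt_max_of_lt_right h0).ne'
    have ht : ContinuousAt (fun x => max (n - d.TT x) 0) x0 :=
      (continuousAt_const.sub hT).max continuousAt_const
    have h2 := d.slow.cont.continuousAt.comp (hi.prodMk (hτ.prodMk ht))
    refine ContinuousAt.congr h2 ?_
    filter_upwards [h1] with x hx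
    rw [d.r_pos hx]; rfl

lemma tails (x0 : C₀(ℕ, E × ℝ)) {ε : ℝ} (hε : 0 < ε) :
    ∃ N : ℕ, ∀ᶠ x in 𝓝 x0, ∀ n, N ≤ n → d.q (d.r x) n ≤ ε := by
  rcases (d.rho_nonneg x0).eq_or_lt with h0 | h0
  · obtain ⟨τ0, τp, hτ0⟩ := d.slow.p1 (ε / 2) (by positivity)
    obtain ⟨δ, δp, δ1, δ2, δ3⟩ : ∃ δ : ℝ, 0 < δ ∧ δ < 1 ∧ 3 * δ ≤ ε / 2 ∧ 3 * δ ≤ 1 / τ0 := by
      refine ⟨min (1 / 2) (min (ε / 6) (1 / τ0 / 3)), by positivity, ?_, ?_, ?_⟩
      · linarith [min_le_left (1 / 2 : ℝ) (min (ε / 6) (1 / τ0 / 3))]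
      · linarith [min_le_right (1 / 2 : ℝ) (min (ε / 6) (1 / τ0 / 3)),
          min_le_left (ε / 6) (1 / τ0 / 3)]
      · linarith [min_le_right (1 / 2 : ℝ) (min (ε / 6) (1 / τ0 / 3)),
          min_le_right (ε / 6) (1 / τ0 / 3)]
    obtain ⟨N, hN⟩ := Metric.tendsto_atTop.1 (c0_tendsto x0) δ δp
    have e1 : ∀ᶠ x in 𝓝 x0, d.rho x < Real.exp (-2 * N) :=
      d.rho_cont.continuousAt.eventually_lt continuousAt_const (by rw [← h0]; exact Real.exp_pos _)
    have e2 : ∀ᶠ x in 𝓝 x0, d.rho x < δ ^ 2 :=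
      d.rho_cont.continuousAt.eventually_lt continuousAt_const (by rw [← h0]; positivity)
    refine ⟨N, ?_⟩
    filter_upwards [e1, e2, ball_mem_nhds x0 δp] with x a1 a2 a3 n hn
    have key : ∀ m : ℕ, N ≤ m → d.rho x ≤ Real.exp (-2 * m) → d.q (d.ws x) m ≤ 3 * δ := by
      intro m hm h
      have b1 := (abs_le.1 (d.close x m δp δ1 h a2.le)).2
      have b2 := (c0_coord x x0 m).trans (mem_ball.1 a3).le
      have b3 := hN m hm
      have b4 := dist_triangle (x m) (x0 m) 0
      have b5 : (x m).2 ≤ dist (x m) 0 := by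
        rw [dist_zero_right]; exact (le_abs_self _).trans (norm_snd_le (x m))
      linarith
    by_cases h1 : d.rho x ≤ Real.exp (-2 * (n + 1 : ℕ))
    · have h2 : d.rho x ≤ Real.exp (-2 * n) :=
        h1.trans (Real.exp_le_exp.2 (by push_cast; linarith))
      have := key n hn h2
      unfold q at this ⊢
      rw [d.r_eq h1, d.r_eq h2]; linarith
    · have rp : 0 < d.rho x := (Real.exp_pos _).trans (not_le.1 h1)
      have t1 : d.TT x < n + 1 := by
        rw [← d.le_TT rp] at h1; push_cast at h1; linarith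
      have t2 : (N : ℝ) ≤ d.TT x := (d.le_TT rp N).2 a1.le
      have t0 : 0 ≤ d.TT x := (Nat.cast_nonneg N).trans t2
      set m := ⌊d.TT x⌋₊ with hm
      have m1 : (m : ℝ) ≤ d.TT x := Nat.floor_le t0
      have m2 : d.TT x < m + 1 := Nat.lt_floor_add_one _
      have m3 : N ≤ m := Nat.le_floor t2
      have m4 : m ≤ n := by
        have : (m : ℝ) < n + 1 := by linarith
        have : m < n + 1 := by exact_mod_cast this
        omega
      have k1 := key m m3 ((d.le_TT rp m).1 m1)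
      set v := ip (d.ws x) (d.TT x) (m + 1) with hv
      have vB : v ∈ d.B := ip_mem d.hconv (fun n => d.pr_mem _) _ _
      have v1 : dist v (d.ws x m) ≤ dist (d.ws x (m + 1)) (d.ws x m) := ip_dist _ m1
      have v2 : infDist v d.A ≤ 3 * δ := by
        have := infDist_le_infDist_add_dist (s := d.A) (x := v) (y := d.ws x m)
        unfold q at k1; linarith
      have lp : 0 < max (infDist v d.A) (d.rho x) := lt_max_of_lt_right rp
      have l1 : max (infDist v d.A) (d.rho x) ≤ 1 / τ0 :=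
        max_le (by linarith) (by nlinarith)
      have P := hτ0 v vB (1 / max (infDist v d.A) (d.rho x))
        ((le_one_div τp lp).2 l1) (by rw [one_div_one_div]; exact le_max_left _ _)
      have s1 : ∀ k, m + 1 ≤ k → ip (d.ws x) (d.TT x) k = v := fun k hk =>
        ip_stab _ (by push_cast; linarith) hk
      have r1 : d.r x (n + 1) = d.pp v (d.rho x) (n + 1 - d.TT x) := by
        rw [d.r_pos rp, s1 _ (by omega), max_eq_left (by push_cast; linarith)]; push_cast; rfl
      rcases m4.eq_or_lt with m5 | m5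
      · have r2 : d.r x n = d.ws x m := by
          rw [← m5]; exact d.r_eq ((d.le_TT rp m).1 m1)
        have m6 : (m : ℝ) = n := by rw [m5]
        have := (P 0 (n + 1 - d.TT x) le_rfl (by linarith) (by linarith)).2
        rw [d.slow.zero] at this
        have tr := dist_triangle (d.pp v (d.rho x) (n + 1 - d.TT x)) v (d.ws x m)
        unfold q at k1 ⊢
        rw [r1, r2]
        unfold pp at tr ⊢
        linarith
      · have m6 : (m : ℝ) + 1 ≤ n := by exact_mod_cast m5
        have r2 : d.r x n = d.pp v (d.rho x) (n - d.TT x) := by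
          rw [d.r_pos rp, s1 _ (by omega), max_eq_left (by linarith)]
        have := P (n - d.TT x) (n + 1 - d.TT x) (by linarith) (by linarith) (by linarith)
        unfold q
        rw [r1, r2]
        unfold pp
        linarith [this.1, this.2]
  · have h1 : ∀ᶠ x in 𝓝 x0, d.rho x0 / 2 < d.rho x :=
      continuousAt_const.eventually_lt d.rho_cont.continuousAt (by linarith)
    obtain ⟨t0, ht0⟩ := d.slow.p2 (ε / 2) (by positivity) (1 / (d.rho x0 / 2))
    set T0 := -Real.log (d.rho x0 / 2) / 2 with hT0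
    refine ⟨⌈T0 + max t0 0⌉₊, ?_⟩
    filter_upwards [h1] with x hx n hn
    have rp : 0 < d.rho x := by linarith
    have t1 : d.TT x ≤ T0 := by
      have := Real.log_le_log (by linarith) hx.le
      unfold TT; linarith
    have n1 : T0 + max t0 0 ≤ n := Nat.ceil_le.1 hn
    have n2 := le_max_left t0 0
    have n3 := le_max_right t0 0
    set v := ip (d.ws x) (d.TT x) n with hv
    have vB : v ∈ d.B := ip_mem d.hconv (fun n => d.pr_mem _) _ _
    have r1 : d.r x (n + 1) = d.pp v (d.rho x) (n - d.TT x + 1) := by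
      rw [d.r_pos rp, ip_stab _ (by linarith) (Nat.le_succ n),
        max_eq_left (by push_cast; linarith)]
      congr 1; push_cast; ring
    have r2 : d.r x n = d.pp v (d.rho x) (n - d.TT x) := by
      rw [d.r_pos rp, max_eq_left (by linarith)]
    have lp : 0 < max (infDist v d.A) (d.rho x) := lt_max_of_lt_right rp
    have := ht0 v vB (1 / max (infDist v d.A) (d.rho x)) (by positivity)
      (one_div_le_one_div_of_le (by linarith) (hx.le.trans (le_max_right _ _)))
      (n - d.TT x) (by linarith)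
    unfold q
    rw [r1, r2]
    unfold pp
    linarith [this.1, this.2]

end Data

end Pool.Agent.H41.Att
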