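import Pool.Agent.H41.Att3

set_option autoImplicit false

namespace Pool.Agent.H41.Att
open Filter Topology Set Metric ZeroAtInfty

variable {E : Type} [NormedAddCommGroup E] [NormedSpace ℝ E]

namespace Data
variable (d : Data E)

def W : Type := {w : ℕ → E // (∀ n, w n ∈ d.B) ∧ Tendsto (d.q w) atTop (𝓝 0)}

lemma exists_bound : ∃ C : ℝ, 0 ≤ C ∧ ∀ v ∈ d.B, ‖v‖ ≤ C := by
  obtain ⟨C, hC⟩ := d.hB.isBounded.exists_norm_le
  exact ⟨max C 0, le_max_right _ _, fun v hv => (hC v hv).trans (le_max_left _ _)⟩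

lemma half_tendsto : Tendsto (fun n : ℕ => (1 / 2 : ℝ) ^ n) atTop (𝓝 0) :=
  tendsto_pow_atTop_nhds_zero_of_lt_one (by norm_num) (by norm_num)

noncomputable def i (w : d.W) : C₀(ℕ, E × ℝ) :=
  mk0 (fun n => ((1 / 2 : ℝ) ^ n • w.1 n, d.q w.1 n)) (by
    obtain ⟨C, -, hC⟩ := d.exists_bound
    refine Tendsto.prodMk_nhds ?_ w.2.2
    refine squeeze_zero_norm (a := fun n => (1 / 2 : ℝ) ^ n * C) (fun n => ?_) ?_
    · rw [norm_smul, Real.norm_of_nonneg (by positivity)]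
      exact mul_le_mul_of_nonneg_left (hC _ (w.2.1 n)) (by positivity)
    · simpa using half_tendsto.mul_const C)

lemma i_apply (w : d.W) (n : ℕ) : d.i w n = ((1 / 2 : ℝ) ^ n • w.1 n, d.q w.1 n) := rfl

lemma D_g (v : E) : infDist (d.g v) d.A ≤ infDist v d.A := by
  obtain ⟨a, ha, e⟩ := d.hA.exists_infDist_eq_dist d.hne v
  rw [e]
  exact (infDist_le_dist_of_mem (d.gA ha)).trans (d.g_lip _ _)

lemma q_shift (w : ℕ → E) (n : ℕ) : d.q (fun k => d.g (w (k + 1))) n ≤ d.q w (n + 1) :=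
  add_le_add (d.D_g _) (d.g_lip _ _)

noncomputable def sh (w : d.W) : d.W :=
  ⟨fun n => d.g (w.1 (n + 1)), fun n => d.gB (w.2.1 _),
    squeeze_zero (fun n => d.q_nonneg _ n) (d.q_shift w.1)
      (w.2.2.comp (tendsto_add_atTop_nat 1))⟩

noncomputable def rr (x : C₀(ℕ, E × ℝ)) : d.W :=
  ⟨d.r x, d.r_mem x, by
    refine Metric.tendsto_atTop.2 fun ε hε => ?_
    obtain ⟨N, hN⟩ := d.tails x (half_pos hε)
    refine ⟨N, fun n hn => ?_⟩
    rw [Real.dist_eq, sub_zero, abs_of_nonneg (d.q_nonneg _ _)]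
    linarith [hN.self_of_nhds n hn]⟩

lemma rr_i (w : d.W) : d.rr (d.i w) = w := by
  have h1 : d.ws (d.i w) = w.1 := by
    funext n
    rw [ws, i_apply, smul_smul, ← mul_pow]
    norm_num
    exact d.pr_id _ (w.2.1 n)
  have h2 : d.rho (d.i w) = 0 := by
    have : d.tm (d.i w) = fun _ => 0 := by
      funext n
      rw [tm, h1, i_apply]; simp
    rw [rho, this, tsum_zero]
  apply Subtype.ext
  funext n
  change d.r (d.i w) n = _
  rw [r, if_pos h2, h1]

noncomputable def f (x : C₀(ℕ, E × ℝ)) : C₀(ℕ, E × ℝ) := d.i (d.sh (d.rr x))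

lemma g_cont : Continuous d.g :=
  (LipschitzWith.of_dist_le_mul (K := 1) fun x y => by simpa using d.g_lip x y).continuous

lemma f_cont : Continuous d.f := by
  refine c0_cont _ (fun n => ?_) fun x0 ε hε => ?_
  · have h1 : ∀ k, Continuous fun x => d.g (d.r x k) := fun k => d.g_cont.comp (d.r_cont k)
    change Continuous fun x => ((1 / 2 : ℝ) ^ n • d.g (d.r x (n + 1)),
      infDist (d.g (d.r x (n + 1))) d.A + dist (d.g (d.r x (n + 1 + 1))) (d.g (d.r x (n + 1))))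
    exact ((h1 _).const_smul _).prodMk
      (((continuous_infDist_pt _).comp (h1 _)).add ((h1 _).dist (h1 _)))
  · obtain ⟨C, C0, hC⟩ := d.exists_bound
    obtain ⟨N, hN⟩ := d.tails x0 hε
    have ht : Tendsto (fun n : ℕ => (1 / 2 : ℝ) ^ n * C) atTop (𝓝 0) := by
      simpa using half_tendsto.mul_const C
    obtain ⟨N', hN'⟩ := eventually_atTop.1 (ht.eventually (ge_mem_nhds hε))
    refine ⟨max N N', ?_⟩
    filter_upwards [hN] with x hx n hn
    rw [f, i_apply, Prod.norm_def]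
    refine max_le ?_ ?_
    · rw [norm_smul, Real.norm_of_nonneg (by positivity)]
      exact (mul_le_mul_of_nonneg_left (hC _ ((d.sh _).2.1 n)) (by positivity)).trans
        (hN' n ((le_max_right _ _).trans hn))
    · rw [Real.norm_of_nonneg (d.q_nonneg _ _)]
      exact (d.q_shift _ n).trans (hx _ (by omega))

lemma f_iter (m : ℕ) (x : C₀(ℕ, E × ℝ)) : d.f^[m + 1] x = d.i (d.sh^[m + 1] (d.rr x)) := by
  induction m with
  | zero => rfl
  | succ m ih =>
    rw [Function.iterate_succ_apply', ih, f, rr_i, ← Function.iterate_succ_apply' d.sh]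

lemma q_iter (m : ℕ) (w : d.W) (n : ℕ) : d.q (d.sh^[m] w).1 n ≤ d.q w.1 (n + m) := by
  induction m generalizing n with
  | zero => exact le_rfl
  | succ m ih =>
    rw [Function.iterate_succ_apply']
    refine (d.q_shift _ n).trans ((ih (n + 1)).trans (le_of_eq ?_))
    congr 1; omega

noncomputable def cst (a : d.A) : d.W :=
  ⟨fun _ => a, fun _ => d.hAB a.2, by
    have : d.q (fun _ => (a : E)) = fun _ => 0 := by
      funext n; simp [q, infDist_zero_of_mem a.2]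
    rw [this]; exact tendsto_const_nhds⟩

lemma q_cst (a : d.A) (n : ℕ) : d.q (d.cst a).1 n = 0 := by
  simp [cst, q, infDist_zero_of_mem a.2]

lemma dist_cst (w : d.W) (a : d.A) {ε : ℝ} (hε : 0 ≤ ε) (h0 : dist (w.1 0) a ≤ ε)
    (h : ∀ n, d.q w.1 n ≤ ε) : dist (d.i w) (d.i (d.cst a)) ≤ ε := by
  have h1 : ∀ n : ℕ, dist (w.1 n) a ≤ (n + 1) * ε := by
    intro n
    induction n with
    | zero => simpa using h0
    | succ n ih =>
      have := dist_triangle (w.1 (n + 1)) (w.1 n) a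
      have h2 := h n
      have h3 : 0 ≤ infDist (w.1 n) d.A := infDist_nonneg
      unfold q at h2
      push_cast; linarith
  refine c0_dist_le _ _ hε fun n => ?_
  rw [i_apply, i_apply, Prod.dist_eq]
  refine max_le ?_ ?_
  · change dist ((1 / 2 : ℝ) ^ n • w.1 n) ((1 / 2 : ℝ) ^ n • (a : E)) ≤ ε
    rw [dist_smul₀, Real.norm_of_nonneg (by positivity)]
    have h2 : ((n : ℝ) + 1) ≤ 2 ^ n := by exact_mod_cast Nat.lt_two_pow_self
    calc (1 / 2 : ℝ) ^ n * dist (w.1 n) a ≤ (1 / 2) ^ n * (2 ^ n * ε) :=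
          mul_le_mul_of_nonneg_left ((h1 n).trans (mul_le_mul_of_nonneg_right h2 hε))
            (by positivity)
      _ = ε := by rw [← mul_assoc, ← mul_pow]; norm_num
  · rw [q_cst, Real.dist_eq, sub_zero, abs_of_nonneg (d.q_nonneg _ _)]
    exact h n

lemma cst_cont : Continuous fun a : d.A => d.i (d.cst a) := by
  refine (LipschitzWith.of_dist_le_mul (K := 1) fun a b => ?_).continuous
  simp only [NNReal.coe_one, one_mul]
  exact d.dist_cst _ b dist_nonneg le_rfl fun n => by rw [q_cst]; exact dist_nonneg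

theorem main : ∃ A : Set C₀(ℕ, E × ℝ), IsCompact A ∧
    (∀ K : Set C₀(ℕ, E × ℝ), IsCompact K → ∀ U ∈ nhdsSet A,
      ∃ N : ℕ, ∀ n : ℕ, N ≤ n → d.f^[n] '' K ⊆ U) ∧ ∀ x ∈ A, d.f x ≠ x := by
  haveI : CompactSpace d.A := isCompact_iff_compactSpace.1 d.hA
  have hc : IsCompact (range fun a : d.A => d.i (d.cst a)) := isCompact_range d.cst_cont
  refine ⟨_, hc, fun K hK U hU => ?_, ?_⟩
  · obtain ⟨ε, hε, hs⟩ := (hasBasis_nhdsSet_cthickening hc).mem_iff.1 hU
    have : ∃ N : ℕ, ∀ x ∈ K, ∀ n, N ≤ n → d.q (d.r x) n ≤ ε := by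
      refine hK.induction_on (p := fun s => ∃ N : ℕ, ∀ x ∈ s, ∀ n, N ≤ n → d.q (d.r x) n ≤ ε)
        ⟨0, by simp⟩ ?_ ?_ ?_
      · rintro s t hst ⟨N, hN⟩
        exact ⟨N, fun x hx => hN x (hst hx)⟩
      · rintro s t ⟨N, hN⟩ ⟨M, hM⟩
        refine ⟨max N M, fun x hx n hn => ?_⟩
        rcases hx with hx | hx
        · exact hN x hx n ((le_max_left _ _).trans hn)
        · exact hM x hx n ((le_max_right _ _).trans hn)
      · intro x _
        obtain ⟨N, hN⟩ := d.tails x hε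
        exact ⟨_, mem_nhdsWithin_of_mem_nhds hN, N, fun y hy => hy⟩
    obtain ⟨N, hN⟩ := this
    refine ⟨N + 1, fun n hn => ?_⟩
    rintro _ ⟨x, hx, rfl⟩
    obtain ⟨m, rfl⟩ : ∃ m, n = m + 1 := ⟨n - 1, by omega⟩
    rw [f_iter]
    set w := d.sh^[m + 1] (d.rr x) with hw
    have hq : ∀ k, d.q w.1 k ≤ ε := fun k => (d.q_iter _ _ k).trans (hN x hx _ (by omega))
    obtain ⟨a, ha, e⟩ := d.hA.exists_infDist_eq_dist d.hne (w.1 0)
    have h0 : dist (w.1 0) a ≤ ε := by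
      have := hq 0
      unfold q at this
      linarith [dist_nonneg (x := w.1 (0 + 1)) (y := w.1 0)]
    exact hs (mem_cthickening_of_dist_le _ _ _ _ ⟨⟨a, ha⟩, rfl⟩
      (d.dist_cst w ⟨a, ha⟩ hε.le h0 hq))
  · rintro _ ⟨a, rfl⟩ h
    rw [f, rr_i] at h
    have := congrArg (fun x : C₀(ℕ, E × ℝ) => (x 0).1) h
    simp only [i_apply, pow_zero, one_smul] at this
    exact d.gfix a a.2 this

end Data

end Pool.Agent.H41.Att
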