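import Pool.Agent.H41.Att4

set_option autoImplicit false

namespace Pool.Agent.H41.Att
open Filter Topology Set Metric ZeroAtInfty

/-! ### chains -/

noncomputable def ch (s : ℕ → ℝ) (y : ℕ → P) : ℕ → ℕ → P
  | 0, k => y k
  | d + 1, k => HH (ch s y d (k + 1)) (s (k + 1))

lemma ch_stab {s : ℕ → ℝ} {y : ℕ → P} {N : ℕ}
    (h : ∀ j, N ≤ j → HH (y (j + 1)) (s (j + 1)) = y j) (d k : ℕ) (hk : N ≤ k + d) :
    ch s y (d + 1) k = ch s y d k := by
  induction d generalizing k with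
  | zero => exact h k hk
  | succ d ih => rw [ch, ih (k + 1) (by omega), ← ch]

lemma ch_stab' {s : ℕ → ℝ} {y : ℕ → P} {N : ℕ}
    (h : ∀ j, N ≤ j → HH (y (j + 1)) (s (j + 1)) = y j) {d d' : ℕ} (k : ℕ) (hk : N ≤ k + d)
    (hd : d ≤ d') : ch s y d' k = ch s y d k := by
  induction d', hd using Nat.le_induction with
  | base => rfl
  | succ n hn ih => rw [ch_stab h n k (by omega), ih]

lemma HH_comp {T : Type} [TopologicalSpace T] {y : T → P} {s : T → ℝ} (hy : Continuous y)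
    (hs : Continuous s) : Continuous fun x => HH (y x) (s x) := by
  simpa only [Function.comp_def] using HH_cont.comp (hy.prodMk hs)

lemma ch_cont {T : Type} [TopologicalSpace T] {s : T → ℕ → ℝ} {y : T → ℕ → P}
    (hs : ∀ k, Continuous fun x => s x k) (hy : ∀ k, Continuous fun x => y x k) (d k : ℕ) :
    Continuous fun x => ch (s x) (y x) d k := by
  induction d generalizing k with
  | zero => exact hy k
  | succ d ih => exact HH_comp (ih (k + 1)) (hs (k + 1))

lemma exists_chain {T : Type} [TopologicalSpace T] (s : T → ℕ → ℝ) (y : T → ℕ → P) (R : T → ℝ)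
    (hs : ∀ k, Continuous fun x => s x k) (hy : ∀ k, Continuous fun x => y x k)
    (hR : Continuous R)
    (h : ∀ x (j : ℕ), R x ≤ j → HH (y x (j + 1)) (s x (j + 1)) = y x j) :
    ∃ Z : T → ℕ → P, Continuous Z ∧ (∀ x k, Z x k = HH (Z x (k + 1)) (s x (k + 1))) ∧
      ∀ x (k : ℕ), R x ≤ k → Z x k = y x k := by
  have h' : ∀ x j, ⌈R x⌉₊ ≤ j → HH (y x (j + 1)) (s x (j + 1)) = y x j :=
    fun x j hj => h x j (Nat.ceil_le.1 hj)
  refine ⟨fun x k => ch (s x) (y x) ⌈R x⌉₊ k, continuous_pi fun k => ?_, fun x k => ?_,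
    fun x k hk => ?_⟩
  · refine continuous_iff_continuousAt.2 fun x0 => ?_
    have e : ∀ᶠ x in 𝓝 x0, R x < (⌈R x0⌉₊ + 1 : ℕ) :=
      hR.continuousAt.eventually_lt continuousAt_const
        (by push_cast; linarith [Nat.le_ceil (R x0)])
    refine (ch_cont hs hy (⌈R x0⌉₊ + 1) k).continuousAt.congr ?_
    filter_upwards [e] with x hx
    exact ch_stab' (h' x) k (by omega) (Nat.ceil_le.2 hx.le)
  · exact (ch_stab (h' x) _ k (by omega)).symm
  · exact ch_stab' (h' x) (d := 0) k (Nat.ceil_le.2 hk) (Nat.zero_le _)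

lemma chain_unique {Z Z' : ℕ → P} {s s' : ℕ → ℝ} (hZ : ∀ k, Z k = HH (Z (k + 1)) (s (k + 1)))
    (hZ' : ∀ k, Z' k = HH (Z' (k + 1)) (s' (k + 1))) (m : ℕ) (hm : Z m = Z' m)
    (hs : ∀ k, k ≤ m → s k = s' k) (k : ℕ) (hk : k ≤ m) : Z k = Z' k := by
  obtain ⟨d, hd⟩ : ∃ d, k + d = m := ⟨m - k, by omega⟩
  induction d generalizing k with
  | zero => rw [← hd] at hm; exact hm
  | succ d ih => rw [hZ k, hZ' k, ih (k + 1) (by omega) (by omega), hs (k + 1) (by omega)]

def Lj (j : ℕ) : Set (ℕ → P) := {y | ∀ k < j, y k = HH (y (k + 1)) 0}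

def LL : Set (ℕ → P) := {y | ∀ k, y k = HH (y (k + 1)) 0}

lemma rel_closed (k : ℕ) : IsClosed {y : ℕ → P | y k = HH (y (k + 1)) 0} :=
  isClosed_eq (continuous_apply k) (HH_comp (continuous_apply _) continuous_const)

lemma Lj_closed (j : ℕ) : IsClosed (Lj j) := by
  have : Lj j = ⋂ k, ⋂ _ : k < j, {y : ℕ → P | y k = HH (y (k + 1)) 0} := by
    ext y; simp [Lj]
  rw [this]
  exact isClosed_iInter fun k => isClosed_iInter fun _ => rel_closed k

lemma LL_eq : LL = ⋂ j, Lj j := by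
  ext y
  simp only [LL, Lj, Set.mem_ofPred_eq, mem_iInter]
  exact ⟨fun h j k _ => h k, fun h k => h (k + 1) k (Nat.lt_succ_self k)⟩

lemma LL_compact : IsCompact LL := by
  rw [LL_eq]; exact (isClosed_iInter Lj_closed).isCompact

lemma Lj_anti : Antitone Lj := fun _ _ hij _ hy k hk => hy k (hk.trans_le hij)

noncomputable def sU (J t : ℝ) (k : ℕ) : ℝ := t * min (cl (k - J)) (cl (J + 3 - k))

noncomputable def sG (J : ℝ) (k : ℕ) : ℝ := cl (k - J)

lemma exists_UG : ∃ (U : LL × ℝ × ℝ → ℕ → P) (Γ : ℝ → ℕ → P), Continuous U ∧ Continuous Γ ∧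
    (∀ a J, U (a, J, 0) = a) ∧ (∀ a J t (j : ℕ), (j : ℝ) ≤ J → U (a, J, t) ∈ Lj j) ∧
    (∀ J (j : ℕ), (j : ℝ) ≤ J → Γ J ∈ Lj j) ∧
    ∀ a J (k : ℕ), (k : ℝ) ≤ J → U (a, J, 1) k = Γ J k := by
  obtain ⟨U, Uc, U1, U2⟩ := exists_chain (T := LL × ℝ × ℝ)
    (fun x => sU x.2.1 x.2.2) (fun x => x.1)
    (fun x => x.2.1 + 3) (fun k => by unfold sU; fun_prop)
    (fun k => (continuous_apply k).comp (continuous_subtype_val.comp continuous_fst))
    (by fun_prop) (by
      intro x j hj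
      rw [sU, cl_zero (x := x.2.1 + 3 - _) (by push_cast; linarith), min_eq_right (cl_nonneg _),
        mul_zero]
      exact (x.1.2 j).symm)
  obtain ⟨Γ, Γc, Γ1, -⟩ := exists_chain (T := ℝ) sG (fun _ _ => y0)
    (fun J => J) (fun k => by unfold sG; fun_prop) (fun k => continuous_const) continuous_id (by
      intro x j hj
      rw [sG, cl_one (by push_cast; linarith), HH_one])
  refine ⟨U, Γ, Uc, Γc, fun a J => ?_, fun a J t j hj k hk => ?_, fun J j hj k hk => ?_,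
    fun a J k hk => ?_⟩
  · funext k
    have h1 := U2 (a, J, 0) (max k ⌈J + 3⌉₊) (Nat.ceil_le.1 (le_max_right _ _))
    exact chain_unique (Z' := a.1) (s := sU J 0) (s' := fun _ => 0) (U1 (a, J, 0))
      (fun k => a.2 k) (max k ⌈J + 3⌉₊) h1 (fun k _ => by simp [sU]) k (le_max_left _ _)
  · have : (k : ℝ) + 1 ≤ j := by exact_mod_cast hk
    have h := U1 (a, J, t) k
    rw [sU, cl_zero (by push_cast; linarith), min_eq_left (cl_nonneg _), mul_zero] at h
    exact h
  · have : (k : ℝ) + 1 ≤ j := by exact_mod_cast hk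
    have h := Γ1 J k
    rw [sG, cl_zero (by push_cast; linarith)] at h
    exact h
  · have J0 : 0 ≤ J := (Nat.cast_nonneg k).trans hk
    have m1 := Nat.floor_le J0
    have m2 := Nat.lt_floor_add_one J
    refine chain_unique (s := sU J 1) (s' := sG J) (U1 (a, J, 1)) (Γ1 J) (⌊J⌋₊ + 1) ?_
      (fun i hi => ?_) k ?_
    · rw [U1, Γ1, sU, sG, cl_one (by push_cast; linarith), cl_one (by push_cast; linarith)]
      simp [HH_one]
    · have : (i : ℝ) ≤ ⌊J⌋₊ + 1 := by exact_mod_cast hi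
      rw [sU, sG, cl_one (x := J + 3 - i) (by linarith), min_eq_left (cl_le_one _), one_mul]
    · exact (Nat.le_floor hk).trans (Nat.le_succ _)

lemma LL_nonempty : LL.Nonempty := by
  obtain ⟨-, Γ, -, -, -, -, h, -⟩ := exists_UG
  rw [LL_eq]
  exact IsCompact.nonempty_iInter_of_sequence_nonempty_isCompact_isClosed Lj
    (fun i => Lj_anti (Nat.le_succ i)) (fun i => ⟨Γ i, h i i le_rfl⟩) (Lj_closed 0).isCompact
    Lj_closed

end Pool.Agent.H41.Att
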