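import Pool.Agent.H41.Att5

set_option autoImplicit false

namespace Pool.Agent.H41.Att
open Filter Topology Set Metric ZeroAtInfty

abbrev EE := C₀(ℕ, V)

noncomputable def proj (y : V) : V := (max 1 ‖y‖)⁻¹ • y

lemma proj_norm (y : V) : ‖proj y‖ ≤ 1 := by
  have : 0 < max 1 ‖y‖ := lt_max_of_lt_left one_pos
  rw [proj, norm_smul, Real.norm_of_nonneg (by positivity), inv_mul_le_iff₀ this, mul_one]
  exact le_max_right _ _

lemma proj_id {y : V} (h : ‖y‖ ≤ 1) : proj y = y := by
  rw [proj, max_eq_left h]; simp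

lemma proj_cont : Continuous proj :=
  ((continuous_const.max continuous_norm).inv₀
    fun _ => (lt_max_of_lt_left one_pos).ne').smul continuous_id

lemma th_norm (y : V) (k : ℕ) : ‖(1 / 2 : ℝ) ^ k • proj y‖ ≤ (1 / 2) ^ k := by
  rw [norm_smul, Real.norm_of_nonneg (by positivity)]
  exact mul_le_of_le_one_right (by positivity) (proj_norm y)

noncomputable def Th (y : ℕ → V) : EE :=
  mk0 (fun k => (1 / 2 : ℝ) ^ k • proj (y k))
    (squeeze_zero_norm (fun k => th_norm (y k) k) Data.half_tendsto)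

lemma Th_apply (y : ℕ → V) (k : ℕ) : Th y k = (1 / 2 : ℝ) ^ k • proj (y k) := rfl

lemma Th_cont : Continuous Th := by
  refine c0_cont _ (fun n => (proj_cont.comp (continuous_apply n)).const_smul ((1 / 2 : ℝ) ^ n)) fun y ε hε => ?_
  obtain ⟨N, hN⟩ := eventually_atTop.1 (Data.half_tendsto.eventually (ge_mem_nhds hε))
  exact ⟨N, Eventually.of_forall fun x n hn => (th_norm _ n).trans (hN n hn)⟩

def BB : Set EE := {v | ∀ k, ‖v k‖ ≤ (1 / 2 : ℝ) ^ k}

lemma Th_mem (y : ℕ → V) : Th y ∈ BB := fun k => th_norm _ k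

lemma up_norm {v : EE} (hv : v ∈ BB) (k : ℕ) : ‖(2 : ℝ) ^ k • v k‖ ≤ 1 := by
  rw [norm_smul, Real.norm_of_nonneg (by positivity)]
  calc (2 : ℝ) ^ k * ‖v k‖ ≤ 2 ^ k * (1 / 2) ^ k :=
        mul_le_mul_of_nonneg_left (hv k) (by positivity)
    _ = 1 := by rw [← mul_pow]; norm_num

lemma Th_up {v : EE} (hv : v ∈ BB) : Th (fun k => (2 : ℝ) ^ k • v k) = v := by
  refine ZeroAtInftyContinuousMap.ext fun k => ?_
  rw [Th_apply, proj_id (up_norm hv k), smul_smul, ← mul_pow]
  norm_num

lemma BB_compact : IsCompact BB := by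
  have : BB = Th '' (Set.pi univ fun _ => closedBall (0 : V) 1) := by
    refine Subset.antisymm (fun v hv => ⟨_, fun k _ => ?_, Th_up hv⟩) ?_
    · exact mem_closedBall_zero_iff.2 (up_norm hv k)
    · rintro _ ⟨y, -, rfl⟩; exact Th_mem y
  rw [this]
  exact (isCompact_univ_pi fun _ => isCompact_closedBall _ _).image Th_cont

lemma BB_convex : Convex ℝ BB := by
  intro x hx y hy a b ha hb hab k
  change ‖a • x k + b • y k‖ ≤ _
  calc ‖a • x k + b • y k‖ ≤ a * ‖x k‖ + b * ‖y k‖ := by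
        refine (norm_add_le _ _).trans ?_
        rw [norm_smul, norm_smul, Real.norm_of_nonneg ha, Real.norm_of_nonneg hb]
    _ ≤ a * (1 / 2) ^ k + b * (1 / 2) ^ k :=
        add_le_add (mul_le_mul_of_nonneg_left (hx k) ha) (mul_le_mul_of_nonneg_left (hy k) hb)
    _ = _ := by rw [← add_mul, hab, one_mul]

noncomputable def TP (y : ℕ → P) : EE := Th fun k => (y k : V)

lemma TP_apply (y : ℕ → P) (k : ℕ) : TP y k = (1 / 2 : ℝ) ^ k • (y k : V) := by
  rw [TP, Th_apply, proj_id (P_norm _).le]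

lemma TP_cont : Continuous TP :=
  Th_cont.comp (continuous_pi fun k => continuous_subtype_val.comp (continuous_apply k))

lemma TP_inj : Function.Injective TP := by
  intro y z h
  funext k
  have := congrArg (fun v : EE => v k) h
  simp only [TP_apply] at this
  exact Subtype.ext (smul_right_injective V (by positivity) this)

def AA : Set EE := TP '' LL

lemma AA_compact : IsCompact AA := LL_compact.image TP_cont

lemma near1 {ε : ℝ} (hε : 0 < ε) : ∃ j, ∀ y ∈ Lj j, infDist (TP y) AA ≤ ε := by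
  have hc : Continuous fun y => infDist (TP y) AA := (continuous_infDist_pt _).comp TP_cont
  obtain ⟨j, hj⟩ := exists_subset_nhds_of_isCompact' (V := Lj) Lj_anti.directed_ge
    (fun i => (Lj_closed i).isCompact) Lj_closed (U := {y | infDist (TP y) AA < ε}) (by
      intro y hy
      rw [← LL_eq] at hy
      refine (isOpen_lt hc continuous_const).mem_nhds ?_
      change infDist (TP y) AA < ε
      rwa [infDist_zero_of_mem (s := AA) (mem_image_of_mem TP hy)])
  exact ⟨j, fun y hy => le_of_lt (hj hy)⟩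

lemma near2 {ε : ℝ} (hε : 0 < ε) : ∃ j : ℕ, ∀ v ∈ BB, ∀ y ∈ Lj j, (∀ k ≤ j, v k = TP y k) →
    infDist v AA ≤ ε := by
  obtain ⟨j, hj⟩ := near1 (half_pos hε)
  obtain ⟨N, hN⟩ := eventually_atTop.1
    (Data.half_tendsto.eventually (ge_mem_nhds (show 0 < ε / 4 by positivity)))
  refine ⟨max j N, fun v hv y hy h => ?_⟩
  have h1 := hj y (Lj_anti (le_max_left _ _) hy)
  have h2 : dist v (TP y) ≤ ε / 2 := by
    refine c0_dist_le _ _ (by positivity) fun k => ?_
    by_cases hk : k ≤ max j N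
    · rw [h k hk, dist_self]; positivity
    · have a := hN k ((le_max_right _ _).trans (not_le.1 hk).le)
      have b := hv k
      have c : ‖TP y k‖ ≤ _ := Th_mem _ k
      have := dist_le_norm_add_norm (v k) (TP y k)
      linarith
  linarith [infDist_le_infDist_add_dist (s := AA) (x := v) (y := TP y)]

noncomputable def gE (v : EE) : EE :=
  mk0 (fun k => gV (v k)) (by
    rw [tendsto_zero_iff_norm_tendsto_zero]
    simp only [gV_norm]
    exact tendsto_zero_iff_norm_tendsto_zero.1 (c0_tendsto v))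

lemma gE_apply (v : EE) (k : ℕ) : gE v k = gV (v k) := rfl

lemma gE_TP (y : ℕ → P) : gE (TP y) = TP fun k => gP (y k) := by
  refine ZeroAtInftyContinuousMap.ext fun k => ?_
  rw [gE_apply, TP_apply, TP_apply, gV_smul]; rfl

noncomputable def mix (c : ℝ) (x y : EE) : EE := x + c • (y - x)

lemma mix_self (c : ℝ) (x : EE) : mix c x x = x := by simp [mix]
lemma mix_zero (x y : EE) : mix 0 x y = x := by simp [mix]
lemma mix_one (x y : EE) : mix 1 x y = y := by simp [mix]
lemma mix_mem {x y : EE} (hx : x ∈ BB) (hy : y ∈ BB) (u : ℝ) : mix (cl u) x y ∈ BB :=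
  BB_convex.add_smul_sub_mem hx hy ⟨cl_nonneg _, cl_le_one _⟩
lemma mix_apply (c : ℝ) (x y : EE) (k : ℕ) (h : x k = y k) : mix c x y k = y k := by
  change x k + c • (y k - x k) = y k
  rw [h]; simp

lemma exists_shape : ∃ G, Shape BB AA G := by
  obtain ⟨U, Γ, Uc, Γc, U0, UL, ΓL, U1⟩ := exists_UG
  have : CompactSpace LL := isCompact_iff_compactSpace.1 LL_compact
  have e1 : IsClosedEmbedding fun a : LL => TP a :=
    (TP_cont.comp continuous_subtype_val).isClosedEmbedding
      (TP_inj.comp Subtype.val_injective)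
  have e2 := e1.prodMap (IsClosedEmbedding.id (X := ℝ × ℝ))
  obtain ⟨G', hG'⟩ := ContinuousMap.exists_extension' e2
    (⟨fun x k => (U x k : V), continuous_pi fun k =>
      continuous_subtype_val.comp ((continuous_apply k).comp Uc)⟩ : C(LL × ℝ × ℝ, ℕ → V))
  have hG : ∀ (a : LL) (J t : ℝ), Th (G' (TP a, J, t)) = TP (U (a, J, t)) := fun a J t =>
    congrArg Th (congrFun hG' (a, J, t))
  have mG : ∀ v ∈ BB, ∀ J u : ℝ, mix (cl (u - 2)) (mix (cl u) v (Th (G' (v, J, cl (u - 1)))))
      (TP (Γ (J + max (u - 3) 0))) ∈ BB :=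
    fun v hv J u => mix_mem (mix_mem hv (Th_mem _) _) (Th_mem _) _
  refine ⟨fun v J u => mix (cl (u - 2)) (mix (cl u) v (Th (G' (v, J, cl (u - 1)))))
    (TP (Γ (J + max (u - 3) 0))), ?_, mG, fun v J => ?_, fun ε hε => ?_⟩
  · have h1 : Continuous fun x : EE × ℝ × ℝ => Th (G' (x.1, x.2.1, cl (x.2.2 - 1))) :=
      Th_cont.comp (G'.continuous.comp (by fun_prop))
    have h2 : Continuous fun x : EE × ℝ × ℝ => TP (Γ (x.2.1 + max (x.2.2 - 3) 0)) :=
      TP_cont.comp (Γc.comp (by fun_prop))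
    have h3 : Continuous fun x : EE × ℝ × ℝ => cl x.2.2 := by fun_prop
    have h4 : Continuous fun x : EE × ℝ × ℝ => cl (x.2.2 - 2) := by fun_prop
    have h5 := continuous_fst.add (h3.smul (h1.sub continuous_fst))
    exact h5.add (h4.smul (h2.sub h5))
  · rw [cl_zero (by norm_num), cl_zero le_rfl, mix_zero, mix_zero]
  · obtain ⟨j, hj⟩ := near2 hε
    have late : ∀ v ∈ BB, ∀ J u : ℝ, 3 ≤ u → (j : ℝ) + 3 ≤ J + u →
        infDist (mix (cl (u - 2)) (mix (cl u) v (Th (G' (v, J, cl (u - 1)))))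
          (TP (Γ (J + max (u - 3) 0)))) AA ≤ ε := by
      intro v hv J u h1 h2
      rw [cl_one (by linarith), mix_one, max_eq_left (by linarith)]
      exact hj _ (Th_mem _) _ (ΓL _ j (by linarith)) fun k _ => rfl
    refine ⟨j, ?_, fun v hv J u _ h1 h2 => late v hv J u h1 h2⟩
    rintro _ ⟨y, hy, rfl⟩ J u hJ
    by_cases h3 : 3 ≤ u
    · exact late _ (Th_mem _) J u h3 (by linarith)
    have hm := mG (TP y) (Th_mem _) J u
    have e := hG ⟨y, hy⟩ J (cl (u - 1))
    simp only at e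
    rw [e, max_eq_right (by linarith), add_zero] at hm ⊢
    by_cases h1 : u ≤ 1
    · rw [cl_zero (by linarith), mix_zero, cl_zero (x := u - 1) (by linarith), U0, mix_self,
        infDist_zero_of_mem (s := AA) (mem_image_of_mem TP hy)]
      exact hε.le
    rw [cl_one (x := u) (by linarith), mix_one] at hm ⊢
    by_cases h2 : u ≤ 2
    · rw [cl_zero (by linarith), mix_zero]
      exact hj _ (Th_mem _) _ (UL _ _ _ j hJ) fun k _ => rfl
    · rw [cl_one (x := u - 1) (by linarith)] at hm ⊢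
      refine hj _ hm _ (ΓL J j hJ) fun k hk => mix_apply _ _ _ _ ?_
      have : (k : ℝ) ≤ j := by exact_mod_cast hk
      rw [TP_apply, TP_apply, U1 _ _ _ (this.trans hJ)]

lemma AA_sub : AA ⊆ BB := by rintro _ ⟨y, -, rfl⟩; exact Th_mem _

lemma exists_data : Nonempty (Data EE) := by
  obtain ⟨G, hG⟩ := exists_shape
  obtain ⟨p, hp⟩ := exists_path BB_compact AA_compact (LL_nonempty.image _) AA_sub hG
  refine ⟨⟨BB, AA, fun v => Th fun k => (2 : ℝ) ^ k • v k, gE, p, BB_compact, BB_convex,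
    AA_compact, LL_nonempty.image _, AA_sub, ?_, fun v => Th_mem _, fun v hv => Th_up hv,
    fun v w => ?_, fun v hv k => ?_, ?_, ?_, hp⟩⟩
  · exact Th_cont.comp (continuous_pi fun k => (c0_eval_cont k).const_smul ((2 : ℝ) ^ k))
  · refine c0_dist_le _ _ dist_nonneg fun k => ?_
    rw [gE_apply, gE_apply, dist_eq_norm, gV_sub, gV_norm, ← dist_eq_norm]
    exact c0_coord v w k
  · rw [gE_apply, gV_norm]; exact hv k
  · rintro _ ⟨y, hy, rfl⟩
    rw [gE_TP]
    refine mem_image_of_mem TP fun k => ?_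
    rw [HH_equiv, ← hy k]
  · rintro _ ⟨y, -, rfl⟩ h
    rw [gE_TP] at h
    have := congrArg Subtype.val (congrFun (TP_inj h) 0)
    exact P_ne _ (gV_fix this)

end Pool.Agent.H41.Att
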