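import Pool.Agent.H41.Db4

set_option autoImplicit false
open MeasureTheory Complex Set Filter Topology
open scoped ComplexConjugate

namespace Pool.Agent.H41.Bd
open Pool.Agent.H41.Db

abbrev Y := X × X

instance instProbY : IsProbabilityMeasure (volume : Measure Y) :=
  inferInstanceAs (IsProbabilityMeasure ((volume : Measure X).prod volume))

noncomputable def e2 (j : ℤ × ℤ) (x : Y) : ℂ := ee j.1 x.1 * ee j.2 x.2

@[fun_prop] theorem e2_cont (j : ℤ × ℤ) : Continuous (e2 j) := by unfold e2; fun_prop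

theorem e2_add (i j : ℤ × ℤ) (x : Y) : e2 (i + j) x = e2 i x * e2 j x := by
  simp only [e2, Prod.fst_add, Prod.snd_add, ee_add]; ring

theorem e2_zero (x : Y) : e2 0 x = 1 := by simp [e2, ee_zero]

theorem e2_neg (j : ℤ × ℤ) (x : Y) : e2 (-j) x = conj (e2 j x) := by
  simp [e2, ee_neg]

theorem norm_e2 (j : ℤ × ℤ) (x : Y) : ‖e2 j x‖ = 1 := by simp [e2, norm_ee]

theorem intg {E : Type*} [NormedAddCommGroup E] {g : Y → E} (hg : Continuous g) :
    Integrable g := hg.integrable_of_hasCompactSupport (HasCompactSupport.of_compactSpace g)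

theorem int_add {E : Type*} [NormedAddCommGroup E] [NormedSpace ℝ E] {f g : Y → E}
    (hf : Continuous f) (hg : Continuous g) : ∫ x, (f x + g x) = (∫ x, f x) + ∫ x, g x :=
  integral_add (intg hf) (intg hg)

theorem int_sub {E : Type*} [NormedAddCommGroup E] [NormedSpace ℝ E] {f g : Y → E}
    (hf : Continuous f) (hg : Continuous g) : ∫ x, (f x - g x) = (∫ x, f x) - ∫ x, g x :=
  integral_sub (intg hf) (intg hg)

theorem int_mono {f g : Y → ℝ} (hf : Continuous f) (hg : Continuous g) (h : ∀ x, f x ≤ g x) :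
    ∫ x, f x ≤ ∫ x, g x := integral_mono (intg hf) (intg hg) h

theorem int_e2 (j : ℤ × ℤ) : ∫ x, e2 j x = if j = 0 then 1 else 0 := by
  have := integral_prod_mul (μ := (volume : Measure X)) (ν := (volume : Measure X))
    (ee j.1) (ee j.2)
  rw [int_ee, int_ee] at this
  refine this.trans ?_
  obtain ⟨a, b⟩ := j
  by_cases ha : a = 0 <;> by_cases hb : b = 0 <;> simp [ha, hb]

noncomputable def TQ (S : Set (ℤ × ℤ)) : Submodule ℂ (Y → ℂ) := Submodule.span ℂ (e2 '' S)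

noncomputable def cf (g : Y → ℂ) (j : ℤ × ℤ) : ℂ := ∫ x, g x * e2 (-j) x

theorem TQ_ind {S : Set (ℤ × ℤ)} {p : (Y → ℂ) → Prop} (h1 : ∀ j ∈ S, p (e2 j)) (h0 : p fun _ => 0)
    (ha : ∀ f g, f ∈ TQ S → g ∈ TQ S → p f → p g → p fun x => f x + g x)
    (hs : ∀ (c : ℂ) f, f ∈ TQ S → p f → p fun x => c * f x) {g : Y → ℂ} (hg : g ∈ TQ S) : p g := by
  induction hg using Submodule.span_induction with
  | mem x hx => obtain ⟨j, hj, rfl⟩ := hx; exact h1 j hj
  | zero => exact h0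
  | add x y hx hy ihx ihy => exact ha x y hx hy ihx ihy
  | smul a x hx ih => exact hs a x hx ih

theorem e2_mem {S : Set (ℤ × ℤ)} {j : ℤ × ℤ} (h : j ∈ S) : e2 j ∈ TQ S :=
  Submodule.subset_span ⟨j, h, rfl⟩

theorem TQ_cont {S : Set (ℤ × ℤ)} {g : Y → ℂ} (hg : g ∈ TQ S) : Continuous g :=
  TQ_ind (p := fun g => Continuous g) (fun j _ => e2_cont j) continuous_const
    (fun _ _ _ _ hf hg => hf.add hg) (fun _ _ _ hf => continuous_const.mul hf) hg

theorem TQ_mono {S T : Set (ℤ × ℤ)} (h : S ⊆ T) {g : Y → ℂ} (hg : g ∈ TQ S) : g ∈ TQ T :=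
  Submodule.span_mono (image_mono h) hg

theorem TQ_zero (S : Set (ℤ × ℤ)) : (fun _ : Y => (0 : ℂ)) ∈ TQ S := (TQ S).zero_mem

theorem TQ_add {S : Set (ℤ × ℤ)} {f g : Y → ℂ} (hf : f ∈ TQ S) (hg : g ∈ TQ S) :
    (fun x => f x + g x) ∈ TQ S := Submodule.add_mem _ hf hg

theorem TQ_sub {S : Set (ℤ × ℤ)} {f g : Y → ℂ} (hf : f ∈ TQ S) (hg : g ∈ TQ S) :
    (fun x => f x - g x) ∈ TQ S := Submodule.sub_mem _ hf hg

theorem TQ_cmul {S : Set (ℤ × ℤ)} (c : ℂ) {f : Y → ℂ} (hf : f ∈ TQ S) :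
    (fun x => c * f x) ∈ TQ S := Submodule.smul_mem _ c hf

theorem TQ_const {S : Set (ℤ × ℤ)} (h : (0 : ℤ × ℤ) ∈ S) (c : ℂ) : (fun _ : Y => c) ∈ TQ S := by
  have := TQ_cmul c (e2_mem h)
  simpa [e2_zero] using this

theorem TQ_sum {S : Set (ℤ × ℤ)} {ι : Type*} (s : Finset ι) {f : ι → Y → ℂ}
    (h : ∀ i ∈ s, f i ∈ TQ S) : (fun x => ∑ i ∈ s, f i x) ∈ TQ S := by
  have : (fun x => ∑ i ∈ s, f i x) = ∑ i ∈ s, f i := by funext x; simp
  rw [this]; exact Submodule.sum_mem _ h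

theorem TQ_mul {S T U : Set (ℤ × ℤ)} (h : ∀ s ∈ S, ∀ t ∈ T, s + t ∈ U) {f g : Y → ℂ}
    (hf : f ∈ TQ S) (hg : g ∈ TQ T) : (fun x => f x * g x) ∈ TQ U := by
  refine TQ_ind (p := fun f => (fun x => f x * g x) ∈ TQ U) ?_ ?_ ?_ ?_ hf
  · intro i hi
    refine TQ_ind (p := fun g => (fun x => e2 i x * g x) ∈ TQ U) ?_ ?_ ?_ ?_ hg
    · intro j hj
      have : (fun x => e2 i x * e2 j x) = e2 (i + j) := by funext x; rw [e2_add]
      rw [this]; exact e2_mem (h i hi j hj)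
    · simp only [mul_zero]; exact TQ_zero _
    · intro f g _ _ h1 h2
      simpa [mul_add] using TQ_add h1 h2
    · intro c f _ h1
      simpa [mul_left_comm] using TQ_cmul c h1
  · simp only [zero_mul]; exact TQ_zero _
  · intro f g _ _ h1 h2
    simpa [add_mul] using TQ_add h1 h2
  · intro c f _ h1
    simpa [mul_assoc] using TQ_cmul c h1

theorem TQ_conj {f : Y → ℂ} (hf : f ∈ TQ univ) : (fun x => conj (f x)) ∈ TQ univ := by
  refine TQ_ind (p := fun f => (fun x => conj (f x)) ∈ TQ univ) ?_ ?_ ?_ ?_ hf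
  · intro i _
    have : (fun x => conj (e2 i x)) = e2 (-i) := by funext x; rw [e2_neg]
    rw [this]; exact e2_mem trivial
  · simp only [map_zero]; exact TQ_zero _
  · intro f g _ _ h1 h2
    simpa using TQ_add h1 h2
  · intro c f _ h1
    simpa using TQ_cmul (conj c) h1

theorem TQ_re {f : Y → ℂ} (hf : f ∈ TQ univ) : (fun x => (((f x).re : ℝ) : ℂ)) ∈ TQ univ := by
  have h1 := TQ_cmul (1 / 2) (TQ_add hf (TQ_conj hf))
  convert h1 using 2 with x
  rw [Complex.re_eq_add_conj]; ring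

/-- the lacunary variable -/
def vr (σ : ℤ) (n : ℕ) (x : Y) : X := n • (x.1 + σ • x.2)

@[fun_prop] theorem vr_cont (σ : ℤ) (n : ℕ) : Continuous (vr σ n) := by unfold vr; fun_prop

theorem ee_vr (s σ : ℤ) (n : ℕ) (x : Y) : ee s (vr σ n x) = e2 (s * n, s * n * σ) x := by
  simp only [vr, ee_nsmul, e2]
  simp only [ee, fourier_apply, smul_add, smul_smul, AddCircle.toCircle_add, Circle.coe_mul]

theorem TQ_vr {S : Set ℤ} {T : Set (ℤ × ℤ)} (σ : ℤ) (n : ℕ)
    (h : ∀ s ∈ S, (s * n, s * n * σ) ∈ T) {f : X → ℂ} (hf : f ∈ TP S) :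
    (fun x => f (vr σ n x)) ∈ TQ T := by
  refine TP_ind (p := fun f => (fun x => f (vr σ n x)) ∈ TQ T) ?_ ?_ ?_ ?_ hf
  · intro i hi
    have : (fun x => ee i (vr σ n x)) = e2 (i * n, i * n * σ) := by funext x; rw [ee_vr]
    rw [this]; exact e2_mem (h i hi)
  · exact TQ_zero _
  · intro f g _ _ h1 h2
    simpa using TQ_add h1 h2
  · intro c f _ h1
    simpa using TQ_cmul c h1

theorem cf_add {f g : Y → ℂ} (hf : Continuous f) (hg : Continuous g) (j : ℤ × ℤ) :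
    cf (fun x => f x + g x) j = cf f j + cf g j := by
  simp only [cf, add_mul]
  exact int_add (by fun_prop) (by fun_prop)

theorem cf_sub {f g : Y → ℂ} (hf : Continuous f) (hg : Continuous g) (j : ℤ × ℤ) :
    cf (fun x => f x - g x) j = cf f j - cf g j := by
  simp only [cf, sub_mul]
  exact int_sub (by fun_prop) (by fun_prop)

theorem cf_cmul (c : ℂ) (f : Y → ℂ) (j : ℤ × ℤ) : cf (fun x => c * f x) j = c * cf f j := by
  simp only [cf, mul_assoc]
  exact integral_const_mul _ _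

theorem cf_e2 (i j : ℤ × ℤ) : cf (e2 i) j = if i = j then 1 else 0 := by
  simp only [cf, ← e2_add, int_e2]
  congr 1
  apply propext; rw [← sub_eq_add_neg, sub_eq_zero]

theorem cf_e2_mul (i j : ℤ × ℤ) (f : Y → ℂ) : cf (fun x => e2 i x * f x) j = cf f (j - i) := by
  simp only [cf]
  congr 1; funext x
  rw [neg_sub, sub_eq_add_neg, e2_add]; ring

theorem cf_zero {S : Set (ℤ × ℤ)} {f : Y → ℂ} (hf : f ∈ TQ S) {j : ℤ × ℤ} (hj : j ∉ S) :
    cf f j = 0 := by
  refine TQ_ind (p := fun f => cf f j = 0) ?_ ?_ ?_ ?_ hf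
  · intro i hi
    rw [cf_e2, if_neg]; rintro rfl; exact hj hi
  · simp [cf]
  · intro f g hf hg h1 h2
    rw [cf_add (TQ_cont hf) (TQ_cont hg) j, h1, h2, add_zero]
  · intro c f _ h1
    rw [cf_cmul, h1, mul_zero]

theorem cf0 (f : Y → ℂ) : cf f 0 = ∫ x, f x := by simp [cf, e2_zero]

theorem cf_one (j : ℤ × ℤ) : cf (fun _ => 1) j = if j = 0 then 1 else 0 := by
  have : (fun _ : Y => (1 : ℂ)) = e2 0 := by funext x; rw [e2_zero]
  rw [this, cf_e2]; simp [eq_comm]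

theorem norm_cf_le (f : Y → ℂ) (j : ℤ × ℤ) : ‖cf f j‖ ≤ ∫ x, ‖f x‖ := by
  refine (norm_integral_le_integral_norm _).trans (le_of_eq ?_)
  simp [norm_e2]

def box (D : ℕ) : Set (ℤ × ℤ) := {j | |j.1| ≤ D ∧ |j.2| ≤ D}

theorem TQ_bdd {S : Set (ℤ × ℤ)} {f : Y → ℂ} (hf : f ∈ TQ S) : ∃ D : ℕ, f ∈ TQ (S ∩ box D) := by
  refine TQ_ind (p := fun f => ∃ D : ℕ, f ∈ TQ (S ∩ box D)) ?_ ?_ ?_ ?_ hf
  · intro i hi
    exact ⟨i.1.natAbs + i.2.natAbs, e2_mem ⟨hi, by
      simp only [box, mem_ofPred_eq, abs_le]; omega⟩⟩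
  · exact ⟨0, TQ_zero _⟩
  · rintro f g _ _ ⟨a, h1⟩ ⟨b, h2⟩
    refine ⟨a + b, TQ_add (TQ_mono ?_ h1) (TQ_mono ?_ h2)⟩ <;>
    · rintro s ⟨h, h', h''⟩
      exact ⟨h, by constructor <;> push_cast <;> omega⟩
  · rintro c f _ ⟨a, h1⟩
    exact ⟨a, TQ_cmul _ h1⟩

theorem dense2 {f : Y → ℂ} (hf : Continuous f) {ε : ℝ} (hε : 0 < ε) :
    ∃ g ∈ TQ univ, ∀ x, ‖f x - g x‖ ≤ ε := by
  let F : C(UnitAddTorus (Fin 2), ℂ) := ⟨fun y => f (y 0, y 1), by fun_prop⟩
  have h1 : F ∈ (Submodule.span ℂ (range <| UnitAddTorus.mFourier (d := Fin 2))).topologicalClosure := by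
    rw [UnitAddTorus.span_mFourier_closure_eq_top]; trivial
  obtain ⟨g, hg, hd⟩ := Metric.mem_closure_iff.1 h1 ε hε
  refine ⟨fun x => g ![x.1, x.2], ?_, fun x => ?_⟩
  · clear hd
    induction hg using Submodule.span_induction with
    | mem x hx =>
      obtain ⟨j, rfl⟩ := hx
      convert e2_mem (S := univ) (j := (j 0, j 1)) trivial using 2 with x
      simp [UnitAddTorus.mFourier, e2, ee]
    | zero => exact TQ_zero _
    | add x y _ _ ihx ihy => exact TQ_add ihx ihy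
    | smul a x _ ih => exact TQ_cmul a ih
  · have := ContinuousMap.dist_apply_le_dist (f := F) (g := g) ![x.1, x.2]
    rw [dist_eq_norm] at this
    exact this.trans hd.le

theorem bdd {g : Y → ℝ} (hg : Continuous g) : ∃ B, 0 ≤ B ∧ ∀ x, |g x| ≤ B := by
  obtain ⟨B, hB⟩ := isCompact_univ.exists_bound_of_continuousOn hg.continuousOn
  exact ⟨B, (norm_nonneg _).trans (hB 0 trivial), fun x => hB x trivial⟩

theorem fej_TQ (σ : ℤ) {f : Y → ℂ} {g : X → ℂ} (hf : f ∈ TQ univ) (hg : g ∈ TP univ) :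
    ∀ᶠ n : ℕ in atTop, ∫ x, f x * g (vr σ n x) = (∫ x, f x) * ∫ x, g x := by
  obtain ⟨D, hD⟩ := TQ_bdd hf
  filter_upwards [eventually_gt_atTop D] with n hn
  have hfc := TQ_cont hf
  refine TP_ind (p := fun g => ∫ x, f x * g (vr σ n x) = (∫ x, f x) * ∫ x, g x) ?_ ?_ ?_ ?_ hg
  · intro j _
    by_cases h : j = 0
    · subst h; simp [ee_zero]
    · rw [int_ee, if_neg h, mul_zero]
      have : -(j * n, j * n * σ) ∉ univ ∩ box D := by
        rintro ⟨-, h1, -⟩
        obtain ⟨h1, h2⟩ := abs_le.1 h1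
        simp only [Prod.fst_neg] at h1 h2
        rcases lt_or_gt_of_ne h with h | h <;> nlinarith
      have h2 := cf_zero hD this
      simpa only [cf, ee_vr, neg_neg] using h2
  · simp
  · intro a b ha hb h1 h2
    have ha' := TP_cont ha
    have hb' := TP_cont hb
    simp only [Pi.add_apply, mul_add]
    rw [int_add, Db.int_add ha' hb', h1, h2]
    · ring
    all_goals fun_prop
  · intro c a _ h1
    simp only [Pi.smul_apply, smul_eq_mul, mul_left_comm _ c]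
    rw [integral_const_mul, integral_const_mul, h1]; ring

theorem dense2_re {f : Y → ℝ} (hf : Continuous f) {ε : ℝ} (hε : 0 < ε) :
    ∃ g : Y → ℝ, (fun x => (g x : ℂ)) ∈ TQ univ ∧ ∀ x, |f x - g x| ≤ ε := by
  obtain ⟨g, hg, h⟩ := dense2 (f := fun x => (f x : ℂ)) (by fun_prop) hε
  refine ⟨fun x => (g x).re, TQ_re hg, fun x => ?_⟩
  refine le_trans ?_ (h x)
  have := abs_re_le_norm ((f x : ℂ) - g x)
  simpa using this

theorem re_cont {S : Set (ℤ × ℤ)} {g : Y → ℝ} (hg : (fun x => (g x : ℂ)) ∈ TQ S) :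
    Continuous g := by
  have := Complex.continuous_re.comp (TQ_cont hg)
  simpa [Function.comp_def] using this

theorem abs_int_le {f : Y → ℝ} {c : ℝ} (h : ∀ x, |f x| ≤ c) : |∫ x, f x| ≤ c := by
  have := norm_integral_le_of_norm_le_const (μ := (volume : Measure Y)) (f := f) (C := c)
    (Eventually.of_forall h)
  simpa using this

theorem fej (σ : ℤ) {f : Y → ℝ} {g : X → ℝ} (hf : Continuous f) (hg : Continuous g) {ε : ℝ}
    (hε : 0 < ε) :
    ∀ᶠ n : ℕ in atTop, ∫ x, f x * g (vr σ n x) ≤ (∫ x, f x) * (∫ x, g x) + ε := by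
  obtain ⟨A, hA0, hA⟩ := bdd hf
  obtain ⟨B, hB0, hB⟩ := Db.bdd hg
  obtain ⟨δ, hδ, hδ1, hδ2⟩ : ∃ δ : ℝ, 0 < δ ∧ δ ≤ 1 ∧ 2 * δ * (A + B + 1) ≤ ε := by
    refine ⟨min 1 (ε / (2 * (A + B + 1))), by positivity, min_le_left _ _, ?_⟩
    have := min_le_right 1 (ε / (2 * (A + B + 1)))
    rw [le_div_iff₀ (by positivity)] at this
    linarith
  obtain ⟨f', hf', hf''⟩ := dense2_re hf hδ
  obtain ⟨g', hg', hg''⟩ := dense_re hg hδ
  have cf := re_cont hf'
  have cg := Db.re_cont hg'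
  filter_upwards [fej_TQ σ hf' hg'] with n hn
  have hn' : ∫ x, f' x * g' (vr σ n x) = (∫ x, f' x) * ∫ x, g' x := by
    have : ((∫ x, f' x * g' (vr σ n x) : ℝ) : ℂ) = (((∫ x, f' x) * ∫ x, g' x : ℝ) : ℂ) := by
      rw [← integral_complex_ofReal]; push_cast
      rw [← integral_complex_ofReal, ← integral_complex_ofReal]
      exact hn
    exact_mod_cast this
  have key : ∀ a a' b b' : ℝ, |a| ≤ A → |b| ≤ B → |a - a'| ≤ δ → |b - b'| ≤ δ →
      |a * b - a' * b'| ≤ δ * (A + B + 1) := by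
    intro a a' b b' h1 h2 h3 h4
    have : a * b - a' * b' = a * (b - b') + (a - a') * b - (a - a') * (b - b') := by ring
    rw [this]
    refine (abs_sub _ _).trans ?_
    refine (add_le_add_left (abs_add_le _ _) _).trans ?_
    rw [abs_mul, abs_mul, abs_mul]
    have e1 := mul_le_mul h1 h4 (abs_nonneg _) hA0
    have e2 := mul_le_mul h3 h2 (abs_nonneg _) hδ.le
    have e3 := mul_le_mul h3 (h4.trans hδ1) (abs_nonneg _) hδ.le
    nlinarith
  have e1 : |(∫ x, f x * g (vr σ n x)) - ∫ x, f' x * g' (vr σ n x)| ≤ δ * (A + B + 1) := by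
    rw [← int_sub]
    · exact abs_int_le fun x => key _ _ _ _ (hA x) (hB _) (hf'' x) (hg'' _)
    all_goals fun_prop
  have e2 : |(∫ x, f x) * (∫ x, g x) - (∫ x, f' x) * ∫ x, g' x| ≤ δ * (A + B + 1) := by
    refine key _ _ _ _ (abs_int_le hA) (Db.abs_int_le hB) ?_ ?_
    · rw [← int_sub hf cf]; exact abs_int_le hf''
    · rw [← Db.int_sub hg cg]; exact Db.abs_int_le hg''
  rw [hn'] at e1
  have := (abs_le.1 e1).2
  have := (abs_le.1 e2).1
  linarith

theorem cutoff {E U : Set Y} (hE : IsClosed E) (hU : IsOpen U) (h : E ⊆ U) {p : ℝ}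
    (hp : 0 < p) (hp1 : p ≤ 1) :
    ∃ χ : Y → ℝ, (fun x => (χ x : ℂ)) ∈ TQ univ ∧ (∀ x, 0 ≤ χ x ∧ χ x ≤ 1) ∧
      (∀ x ∈ E, 1 - p ≤ χ x) ∧ ∀ x ∉ U, χ x ≤ p := by
  obtain ⟨φ, h0, h1, h01⟩ := exists_continuous_zero_one_of_isClosed hU.isClosed_compl hE
    (disjoint_compl_left_iff_subset.2 h)
  obtain ⟨χ, hχ, hd⟩ := dense2_re (f := fun x => p / 2 + (1 - p) * φ x) (by fun_prop)
    (ε := p / 2) (by positivity)
  refine ⟨χ, hχ, fun x => ?_, fun x hx => ?_, fun x hx => ?_⟩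
  · have := abs_le.1 (hd x)
    have h3 := h01 x
    have h4 : 0 ≤ (1 - p) * φ x := mul_nonneg (by linarith) h3.1
    have h5 : (1 - p) * φ x ≤ (1 - p) := mul_le_of_le_one_right (by linarith) h3.2
    constructor <;> linarith
  · have := abs_le.1 (hd x)
    have h5 : φ x = 1 := h1 hx
    simp only [h5] at this
    linarith
  · have := abs_le.1 (hd x)
    have h5 : φ x = 0 := h0 hx
    simp only [h5] at this
    linarith

theorem nbhd {E : Set Y} (hE : IsClosed E) {η : ℝ} (hη : 0 < η) :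
    ∃ U, IsOpen U ∧ E ⊆ U ∧ volume.real (U \ E) ≤ η := by
  obtain ⟨U, h1, h2, -, h4⟩ := hE.measurableSet.exists_isOpen_sdiff_lt (μ := volume)
    (measure_ne_top _ _) (ε := ENNReal.ofReal η) (by simpa using hη)
  exact ⟨U, h2, h1, ENNReal.toReal_le_of_le_ofReal hη.le h4.le⟩

noncomputable def ind (S : Set Y) (x : Y) : ℝ := S.indicator (fun _ => (1 : ℝ)) x

theorem ind_mem {S : Set Y} {x : Y} (h : x ∈ S) : ind S x = 1 := indicator_of_mem h _
theorem ind_not {S : Set Y} {x : Y} (h : x ∉ S) : ind S x = 0 := indicator_of_notMem h _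
theorem ind_nonneg (S : Set Y) (x : Y) : 0 ≤ ind S x := by
  by_cases h : x ∈ S
  · rw [ind_mem h]; exact zero_le_one
  · rw [ind_not h]
theorem ind_intg {S : Set Y} (h : MeasurableSet S) : Integrable (ind S) :=
  (integrable_const (1 : ℝ)).indicator h
theorem int_ind {S : Set Y} (h : MeasurableSet S) : ∫ x, ind S x = volume.real S :=
  integral_indicator_one h

theorem le4 {u f g h k : Y → ℝ} (hu : ∀ x, 0 ≤ u x) (hf : Integrable f) (hg : Integrable g)
    (hh : Integrable h) (hk : Integrable k) (H : ∀ x, u x ≤ f x + g x + h x + k x) :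
    ∫ x, u x ≤ (∫ x, f x) + (∫ x, g x) + (∫ x, h x) + ∫ x, k x := by
  rw [← integral_add hf hg, ← integral_add (f := fun x => f x + g x) (hf.add hg) hh,
    ← integral_add (f := fun x => f x + g x + h x) ((hf.add hg).add hh) hk]
  exact integral_mono_of_nonneg (Eventually.of_forall hu) (((hf.add hg).add hh).add hk)
    (Eventually.of_forall H)

theorem int_chi {E U : Set Y} (mE : MeasurableSet E) (mU : MeasurableSet U) {χ : Y → ℝ} {p : ℝ}
    (hp : 0 ≤ p) (h01 : ∀ x, 0 ≤ χ x ∧ χ x ≤ 1) (hU : ∀ x ∉ U, χ x ≤ p) :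
    ∫ x, χ x ≤ p + volume.real E + volume.real (U \ E) := by
  have := le4 (u := χ) (fun x => (h01 x).1) (integrable_const p) (ind_intg mE)
    (ind_intg (mU.diff mE)) (integrable_const 0) fun x => by
      have h1 := ind_nonneg E x
      have h2 := ind_nonneg (U \ E) x
      have h3 := h01 x
      by_cases hx : x ∈ E
      · rw [ind_mem hx]; linarith
      · by_cases hx' : x ∈ U
        · rw [ind_mem (S := U \ E) ⟨hx', hx⟩]; linarith
        · linarith [hU x hx']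
  rw [int_ind mE, int_ind (mU.diff mE)] at this
  simpa using this

theorem meas_next {E : Set Y} {A : Set X} (hE : IsClosed E) (hA : IsClosed A) {χ : Y → ℝ}
    (kχ : Continuous χ) {h : X → ℝ} (kh : Continuous h) {p : ℝ} (hp : 0 ≤ p) (σ : ℤ) (n : ℕ)
    (h01 : ∀ x, 0 ≤ χ x) (χE : ∀ x ∈ E, 1 - p ≤ χ x) (h0 : ∀ x, 0 ≤ h x) (h1 : ∀ x ∈ A, 1 ≤ h x) :
    volume.real (E ∩ {x | vr σ n x ∈ A}) ≤ p + ∫ x, χ x * h (vr σ n x) := by
  have mE' : MeasurableSet (E ∩ {x | vr σ n x ∈ A}) :=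
    (hE.inter (hA.preimage (vr_cont σ n))).measurableSet
  have : ∫ x, ind (E ∩ {x | vr σ n x ∈ A}) x ≤ ∫ x, (p + χ x * h (vr σ n x)) := by
    refine integral_mono (ind_intg mE') (intg (by fun_prop)) fun x => ?_
    beta_reduce
    by_cases hx : x ∈ E ∩ {x | vr σ n x ∈ A}
    · rw [ind_mem hx]
      have h2 := h1 _ hx.2
      have h3 := χE x hx.1
      nlinarith [h01 x]
    · rw [ind_not hx]
      have := mul_nonneg (h01 x) (h0 (vr σ n x))
      linarith
  rw [int_ind mE', int_add continuous_const (by fun_prop)] at this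
  simpa using this

end Pool.Agent.H41.Bd
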