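import Pool.Agent.H41.Bd9

set_option autoImplicit false
open MeasureTheory Complex Set Filter Topology Metric
open scoped ComplexConjugate

namespace Pool.Agent.H41.Bd
open Pool.Agent.H41.Db

noncomputable def FS (h : ℕ → ℕ → ℂ) (z : ℂ × ℂ) : ℂ :=
  ∑' p : ℕ × ℕ, h p.1 p.2 * (z.1 ^ p.1 * z.2 ^ p.2)

theorem FS_diff {h : ℕ → ℕ → ℂ} {C : ℝ} (hC : ∀ m n, ‖h m n‖ ≤ C) :
    DifferentiableOn ℂ (FS h) (ball 0 1) := by
  intro z hz
  have C0 : 0 ≤ C := (norm_nonneg _).trans (hC 0 0)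
  rw [mem_ball, dist_zero_right] at hz
  set ρ := (1 + ‖z‖) / 2 with hρ
  have ρ0 : 0 < ρ := by positivity
  have ρ1 : ρ < 1 := by linarith
  have s1 : Summable fun m : ℕ => ρ ^ m := summable_geometric_of_lt_one ρ0.le ρ1
  have s2 : Summable fun m : ℕ => (m : ℝ) * ρ ^ (m - 1) := by
    rw [← summable_nat_add_iff 1]
    have := (summable_pow_mul_geometric_of_norm_lt_one 1 (r := ρ) (by
      rwa [Real.norm_of_nonneg ρ0.le])).add s1
    refine this.congr fun m => ?_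
    simp; ring
  have := hasFDerivAt_tsum_of_isPreconnected (𝕜 := ℂ) (s := ball (0 : ℂ × ℂ) ρ) (x₀ := 0) (x := z)
    (f := fun (p : ℕ × ℕ) z => h p.1 p.2 * (z.1 ^ p.1 * z.2 ^ p.2))
    (f' := fun (p : ℕ × ℕ) z => h p.1 p.2 • (z.1 ^ p.1 • ((p.2 • z.2 ^ (p.2 - 1)) •
      ContinuousLinearMap.snd ℂ ℂ ℂ) + z.2 ^ p.2 • ((p.1 • z.1 ^ (p.1 - 1)) •
      ContinuousLinearMap.fst ℂ ℂ ℂ)))
    (u := fun p => C * (ρ ^ p.1 * (p.2 * ρ ^ (p.2 - 1)) + p.1 * ρ ^ (p.1 - 1) * ρ ^ p.2))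
    (((s1.mul_of_nonneg s2 (fun _ => by positivity) fun _ => by positivity).add
      (s2.mul_of_nonneg s1 (fun _ => by positivity) fun _ => by positivity)).mul_left C)
    isOpen_ball (convex_ball _ _).isPreconnected
    (fun p y _ => ((hasFDerivAt_fst.pow p.1).mul (hasFDerivAt_snd.pow p.2)).const_mul _)
    (fun p y hy => by
      rw [mem_ball, dist_zero_right] at hy
      have h1 : ‖y.1‖ ≤ ρ := (norm_fst_le y).trans hy.le
      have h2 : ‖y.2‖ ≤ ρ := (norm_snd_le y).trans hy.le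
      rw [norm_smul]
      refine mul_le_mul (hC _ _) ((norm_add_le _ _).trans ?_) (norm_nonneg _) C0
      simp only [norm_smul, ContinuousLinearMap.norm_fst, ContinuousLinearMap.norm_snd, mul_one,
        nsmul_eq_mul, norm_mul, norm_pow, Complex.norm_natCast]
      rw [mul_comm (‖y.2‖ ^ p.2)]
      gcongr)
    (mem_ball_self ρ0) (summable_of_ne_finset_zero (s := {(0, 0)}) fun p hp => by
      obtain ⟨m, n⟩ := p
      simp only [Finset.mem_singleton, Prod.mk.injEq, not_and_or] at hp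
      rcases hp with hp | hp <;> simp [hp])
    (by rw [mem_ball, dist_zero_right]; linarith)
  exact this.differentiableAt.differentiableWithinAt

theorem AN_series {c : ℕ × ℕ → ℂ} (hc : Summable fun p => ‖c p‖) :
    AN (fun x => ∑' p, c p * e2 ((p.1 : ℤ), (p.2 : ℤ)) x) ∧
      ∀ m n, co (fun x => ∑' p, c p * e2 ((p.1 : ℤ), (p.2 : ℤ)) x) m n = c (m, n) := by
  have k : Continuous fun x => ∑' p, c p * e2 ((p.1 : ℤ), (p.2 : ℤ)) x :=
    continuous_tsum (fun j => by fun_prop) hc fun j x => by simp [norm_e2]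
  have h := Metric.tendstoUniformly_iff.1 (tendstoUniformly_tsum
    (f := fun (p : ℕ × ℕ) x => c p * e2 ((p.1 : ℤ), (p.2 : ℤ)) x) hc fun j x => by simp [norm_e2])
  simp only [dist_eq_norm] at h
  refine ⟨⟨k, fun ε hε => ?_⟩, fun m n => ?_⟩
  · obtain ⟨F, hF⟩ := (h ε hε).exists
    exact ⟨_, pol_mem F c, fun x => (hF x).le⟩
  · rw [← sub_eq_zero, ← norm_le_zero_iff]
    refine le_of_forall_pos_le_add fun ε hε => ?_
    obtain ⟨F, hF, hF'⟩ := ((h ε hε).and (eventually_ge_atTop {(m, n)})).exists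
    have := norm_cf_le' (f := fun x => (∑' p, c p * e2 ((p.1 : ℤ), (p.2 : ℤ)) x) - pol F c x)
      (fun x => (hF x).le) ((m : ℤ), (n : ℤ))
    rw [cf_sub k (TQ_cont (pol_mem F c)), ← co, ← co, co_pol,
      if_pos (hF' (Finset.mem_singleton_self _))] at this
    linarith

noncomputable def sc (r : ℝ) (c : ℕ → ℕ → ℂ) (m n : ℕ) : ℂ := c m n * (r : ℂ) ^ (m + n)

theorem FS_tor {h : ℕ → ℕ → ℂ} {C : ℝ} (hC : ∀ m n, ‖h m n‖ ≤ C) {r : ℝ} (r0 : 0 ≤ r)
    (r1 : r < 1) : AN (fun x => FS h (tor r x)) ∧ co (fun x => FS h (tor r x)) = sc r h := by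
  have s1 : Summable fun m : ℕ => r ^ m := summable_geometric_of_lt_one r0 r1
  have := AN_series (c := fun p => sc r h p.1 p.2) (Summable.of_nonneg_of_le
    (fun _ => norm_nonneg _) (fun p => by
      rw [sc, norm_mul, norm_pow, Complex.norm_real, Real.norm_of_nonneg r0, pow_add]
      exact mul_le_mul_of_nonneg_right (hC _ _) (by positivity))
    ((s1.mul_of_nonneg s1 (fun _ => by positivity) fun _ => by positivity).mul_left C))
  simp only [FS, mono_tor, ← mul_assoc]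
  exact ⟨this.1, funext fun m => funext fun n => this.2 m n⟩

theorem conv_sc (r : ℝ) (a b : ℕ → ℕ → ℂ) : conv (sc r a) (sc r b) = sc r (conv a b) := by
  funext m n
  simp only [conv, sc, Finset.sum_mul]
  refine Finset.sum_congr rfl fun i hi => Finset.sum_congr rfl fun j hj => ?_
  rw [Finset.mem_range] at hi hj
  rw [show m + n = (i + j) + (m - i + (n - j)) by omega, pow_add]; ring

theorem sc_dl (r : ℝ) (c : ℕ → ℕ → ℂ) (m n : ℕ) :
    sc r c m n - dl m n = sc r (fun m n => c m n - dl m n) m n := by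
  simp only [sc, dl, sub_mul]
  split_ifs with h
  · simp [h.1, h.2]
  · simp

theorem AN.mul {f g : Y → ℂ} (hf : AN f) (hg : AN g) : AN fun x => f x * g x := by
  have kf := hf.1
  have kg := hg.1
  refine ⟨by fun_prop, fun ε hε => ?_⟩
  obtain ⟨A, A0, hA⟩ := bdd (g := fun x => ‖g x‖) (by fun_prop)
  obtain ⟨δ, δ1, δ0⟩ := ((small (ε / 2) A (by positivity)).and self_mem_nhdsWithin).exists
  replace δ0 : 0 < δ := δ0
  obtain ⟨p, hp, h⟩ := hf.2 δ δ0
  obtain ⟨q, hq, h'⟩ := (hg.mul_sub hp).2 (ε / 2) (by positivity)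
  refine ⟨_, TQ_add hq (TQ_const zero_NN 1), fun x => ?_⟩
  have e : f x * g x - (q x + 1) = (f x - p x) * g x + (p x * g x - 1 - q x) := by ring
  rw [e]
  refine (norm_add_le _ _).trans ?_
  rw [norm_mul]
  have := mul_le_mul (h x) ((le_abs_self _).trans (hA x)) (norm_nonneg _) δ0.le
  linarith [h' x]

theorem pars_le {g : Y → ℂ} (hg : AN g) {d : ℕ → ℕ → ℂ} {r : ℝ} (r0 : 0 ≤ r) (r1 : r ≤ 1)
    (h : ∀ m n, co g m n = sc r d m n) (hs : Summable fun p : ℕ × ℕ => ‖d p.1 p.2‖ ^ 2) :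
    ∫ x, ‖g x‖ ^ 2 ≤ ∑' p : ℕ × ℕ, ‖d p.1 p.2‖ ^ 2 := by
  refine le_of_forall_pos_le_add fun ε hε => ?_
  obtain ⟨F, hF⟩ := parseval hg hε
  refine hF.trans (add_le_add_left ((Finset.sum_le_sum fun p _ => ?_).trans
    (hs.sum_le_tsum F fun p _ => by positivity)) _)
  rw [h, sc, norm_mul, norm_pow, Complex.norm_real, Real.norm_of_nonneg r0]
  exact pow_le_pow_left₀ (by positivity)
    (mul_le_of_le_one_right (norm_nonneg _) (pow_le_one₀ r0 r1)) 2

noncomputable def ev (P : MvPolynomial (Fin 2) ℂ) (z : ℂ × ℂ) : ℂ :=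
  MvPolynomial.eval ![z.1, z.2] P

theorem ev_mono (q : ℕ × ℕ) (c : ℂ) (z : ℂ × ℂ) :
    ev (MvPolynomial.monomial (EQ.symm q) c) z = c * (z.1 ^ q.1 * z.2 ^ q.2) := by
  rw [ev, MvPolynomial.eval_monomial, Finsupp.prod_fintype _ _ (by simp), Fin.prod_univ_two]
  rfl

theorem ev_of (F : Finset (ℕ × ℕ)) (c : ℕ × ℕ → ℂ) : ∃ P, ∀ z, ev P z = PZ F c z :=
  ⟨∑ q ∈ F, MvPolynomial.monomial (EQ.symm q) (c q), fun z => by
    simp only [PZ, ← ev_mono]; simp only [ev, map_sum]⟩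

theorem ev_rep (P : MvPolynomial (Fin 2) ℂ) : ∃ (F : Finset (ℕ × ℕ)) (c : ℕ → ℕ → ℂ),
    (∀ z, ev P z = PZ F (fun q => c q.1 q.2) z) ∧ ∀ m n, (m, n) ∉ F → c m n = 0 := by
  refine ⟨P.support.map EQ.toEmbedding, fun m n => P.coeff (EQ.symm (m, n)), fun z => ?_,
    fun m n h => ?_⟩
  · simp only [PZ, ← ev_mono, Finset.sum_map, Equiv.coe_toEmbedding, Prod.mk.eta,
      Equiv.symm_apply_apply]
    simp only [ev, ← map_sum]
    rw [← MvPolynomial.as_sum]
  · simpa [Finset.mem_map_equiv] using h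

theorem co_PZ {F : Finset (ℕ × ℕ)} {c : ℕ → ℕ → ℂ} (hc : ∀ m n, (m, n) ∉ F → c m n = 0) (r : ℝ) :
    (fun x => PZ F (fun q => c q.1 q.2) (tor r x)) ∈ TQ NN ∧
      co (fun x => PZ F (fun q => c q.1 q.2) (tor r x)) = sc r c := by
  simp only [PZ_tor]
  refine ⟨pol_mem _ _, ?_⟩
  funext m n
  refine (co_pol _ _ m n).trans ?_
  split_ifs with h
  · rfl
  · simp [sc, hc m n h]

theorem summ_conv {F : Finset (ℕ × ℕ)} {c h : ℕ → ℕ → ℂ} (hc : ∀ m n, (m, n) ∉ F → c m n = 0)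
    (hs : Summable fun p : ℕ × ℕ => ‖h p.1 p.2‖ ^ 2) :
    Summable fun p : ℕ × ℕ => ‖conv c h p.1 p.2 - dl p.1 p.2‖ ^ 2 := by
  have hC : ∀ m n, ‖h m n‖ ≤ √(∑' p : ℕ × ℕ, ‖h p.1 p.2‖ ^ 2) := fun m n =>
    Real.le_sqrt_of_sq_le (hs.le_tsum (m, n) fun _ _ => by positivity)
  set B := ∑ p ∈ F, ‖c p.1 p.2‖
  set M := ∑' p : ℕ × ℕ, ‖h p.1 p.2‖ ^ 2
  refine summable_of_sum_le (c := 2 * (B ^ 2 * M) + 2) (fun p => by positivity) fun F' => ?_
  have lim : Tendsto (fun r : ℝ => ∑ p ∈ F', ‖sc r (fun m n => conv c h m n - dl m n) p.1 p.2‖ ^ 2)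
      (𝓝[<] 1) (𝓝 (∑ p ∈ F', ‖sc (1 : ℝ) (fun m n => conv c h m n - dl m n) p.1 p.2‖ ^ 2)) :=
    (Continuous.tendsto (by unfold sc; fun_prop) 1).mono_left nhdsWithin_le_nhds
  simp only [sc, ofReal_one, one_pow, mul_one] at lim
  refine le_of_tendsto lim ?_
  filter_upwards [Ioo_mem_nhdsLT (show (0 : ℝ) < 1 by norm_num)] with r hr
  obtain ⟨a1, a2⟩ := FS_tor hC hr.1.le hr.2
  obtain ⟨b1, b2⟩ := co_PZ hc r
  have h1 := bessel (a1.mul_sub b1).1 F'
  simp only [co_D a1 b1, a2, b2, conv_sc, sc_dl] at h1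
  have h2 := int_mul_le (TQ_cont b1) a1.1 (B := B) fun x => by
    refine (norm_sum_le _ _).trans (Finset.sum_le_sum fun p _ => ?_)
    rw [mono_tor, norm_mul, norm_mul, norm_e2, norm_pow, Complex.norm_real,
      Real.norm_of_nonneg hr.1.le, mul_one]
    exact mul_le_of_le_one_right (norm_nonneg _) (pow_le_one₀ hr.1.le hr.2.le)
  have h3 := mul_le_mul_of_nonneg_left
    (pars_le a1 hr.1.le hr.2.le (fun m n => by rw [a2]) hs) (sq_nonneg B)
  have k1 := a1.1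
  have k2 := TQ_cont b1
  have h4 : ∫ x, ‖PZ F (fun q => c q.1 q.2) (tor r x) * FS h (tor r x) - 1‖ ^ 2 ≤
      ∫ x, (2 * ‖PZ F (fun q => c q.1 q.2) (tor r x) * FS h (tor r x)‖ ^ 2 + 2) :=
    int_mono (((k2.mul k1).sub continuous_const).norm.pow 2)
      ((continuous_const.mul ((k2.mul k1).norm.pow 2)).add continuous_const) fun x => by
      have := pow_le_pow_left₀ (norm_nonneg _)
        (norm_sub_le (PZ F (fun q => c q.1 q.2) (tor r x) * FS h (tor r x)) 1) 2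
      rw [norm_one] at this
      nlinarith [sq_nonneg (‖PZ F (fun q => c q.1 q.2) (tor r x) * FS h (tor r x)‖ - 1)]
  rw [int_add (by exact continuous_const.mul ((k2.mul k1).norm.pow 2)) continuous_const,
    integral_const_mul] at h4
  simp only [integral_const, probReal_univ, smul_eq_mul, one_mul] at h4
  simp only [sc] at h1
  linarith

end Pool.Agent.H41.Bd
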