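import Pool.Agent.H41.Bd10

set_option autoImplicit false
open MeasureTheory Complex Set Filter Topology Metric
open scoped ComplexConjugate

namespace Pool.Agent.H41.Bd
open Pool.Agent.H41.Db

theorem PZ_bd (F : Finset (ℕ × ℕ)) (c : ℕ × ℕ → ℂ) {r : ℝ} (r0 : 0 ≤ r) (r1 : r ≤ 1) (x : Y) :
    ‖PZ F c (tor r x)‖ ≤ ∑ p ∈ F, ‖c p‖ := by
  refine (norm_sum_le _ _).trans (Finset.sum_le_sum fun p _ => ?_)
  rw [mono_tor, norm_mul, norm_mul, norm_e2, norm_pow, Complex.norm_real,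
    Real.norm_of_nonneg r0, mul_one]
  exact mul_le_of_le_one_right (norm_nonneg _) (pow_le_one₀ r0 r1)

theorem main4 : ∃ f : ℂ × ℂ → ℂ, DifferentiableOn ℂ f (ball 0 1) ∧
    (∃ K, ∀ r ∈ Ioo (0 : ℝ) 1, ∫ x, ‖f (tor r x)‖ ^ 2 ≤ K) ∧
    (∀ g : ℂ × ℂ → ℂ, DifferentiableOn ℂ g (ball 0 1) → ∀ K,
      (∀ r ∈ Ioo (0 : ℝ) 1, ∫ x, ‖g (tor r x)‖ ≤ K) → ∀ ε : ℝ, 0 < ε → ∃ P, ∀ r ∈ Ioo (0 : ℝ) 1,
        ∫ x, ‖ev P (tor r x) * f (tor r x) - g (tor r x)‖ ≤ ε) ∧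
    ∀ P, ∃ r ∈ Ioo (0 : ℝ) 1, 1 / 200 ≤ ∫ x, ‖ev P (tor r x) * f (tor r x) - 1‖ ^ 2 := by
  obtain ⟨h, a, s1, s2, e, cyc, nc⟩ := main2
  have hC : ∀ m n, ‖h m n‖ ≤ √(∑' p : ℕ × ℕ, ‖h p.1 p.2‖ ^ 2) := fun m n =>
    Real.le_sqrt_of_sq_le (s1.le_tsum (m, n) fun _ _ => by positivity)
  have dF := FS_diff hC
  have e' : conv h h = a := funext fun m => funext fun n => e m n
  have key : ∀ r ∈ Ioo (0 : ℝ) 1, AN (fun x => FS h (tor r x) * FS h (tor r x)) ∧
      co (fun x => FS h (tor r x) * FS h (tor r x)) = sc r a := fun r hr => by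
    obtain ⟨a1, a2⟩ := FS_tor hC hr.1.le hr.2
    refine ⟨a1.mul a1, ?_⟩
    funext m n
    rw [co_mul a1 a1, a2, conv_sc, e']
  refine ⟨fun z => FS h z * FS h z, dF.mul dF, ⟨_, fun r hr => pars_le (key r hr).1 hr.1.le hr.2.le
    (fun m n => by rw [(key r hr).2]) s2⟩, fun g dg K hK ε hε => ?_, fun P => ?_⟩
  · obtain ⟨F, c, hc⟩ := density dg hK (show 0 < ε / 2 by positivity)
    set B := ∑ p ∈ F, ‖c p‖
    have B0 : 0 ≤ B := by positivity
    obtain ⟨δ, ⟨δ1, δ2⟩, δ0⟩ := (((small (ε / 2) (5 * B) (by positivity)).and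
      (small 1 1 one_pos)).and self_mem_nhdsWithin).exists
    replace δ0 : 0 < δ := δ0
    obtain ⟨F', c', hc', H⟩ := cyc (δ ^ 2) (by positivity)
    obtain ⟨Q, hQ⟩ := ev_of F c
    obtain ⟨p, hp⟩ := ev_of F' fun q => c' q.1 q.2
    refine ⟨Q * (p * p), fun r hr => ?_⟩
    obtain ⟨a1, a2⟩ := FS_tor hC hr.1.le hr.2
    obtain ⟨b1, b2⟩ := co_PZ hc' r
    have AD := a1.mul_sub b1
    have h1 := (pars_le AD hr.1.le hr.2.le (d := fun m n => conv c' h m n - dl m n)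
      (fun m n => by rw [co_D a1 b1, a2, b2, conv_sc, sc_dl]) (summ_conv hc' s1)).trans H.le
    set D := fun x => PZ F' (fun q => c' q.1 q.2) (tor r x) * FS h (tor r x) - 1 with hD
    have kD : Continuous D := AD.1
    have h2 := mink (f := D) (g := fun _ => 2) kD continuous_const δ0 two_pos h1 (by simp)
    have h3 := l1_le (f := fun x => D x + 2) (g := D) (by fun_prop) kD δ0
    have h4 : ∫ x, ‖(D x + 2) * D x‖ ≤ 5 * δ := by
      have h5 := mul_le_mul_of_nonneg_left h1 (inv_pos.2 δ0).le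
      have h6 := mul_le_mul_of_nonneg_left (h2.trans (show (δ + 2) ^ 2 ≤ 9 by nlinarith)) δ0.le
      have h7 : δ⁻¹ * δ ^ 2 = δ := by field_simp
      linarith
    have k1 := cont_tor dg hr.1.le hr.2
    have k3 := cont_tor (PZ_diff F c).differentiableOn hr.1.le hr.2
    have e1 : ∀ x, ev (Q * (p * p)) (tor r x) * (FS h (tor r x) * FS h (tor r x)) - g (tor r x) =
        PZ F c (tor r x) * ((D x + 2) * D x) - (g (tor r x) - PZ F c (tor r x)) := fun x => by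
      rw [hD]
      simp only [← hQ, ← hp, ev, map_mul]; ring
    simp only [e1]
    have k4 : Continuous fun x => (D x + 2) * D x := by fun_prop
    have h5 : ∫ x, ‖PZ F c (tor r x) * ((D x + 2) * D x) - (g (tor r x) - PZ F c (tor r x))‖ ≤
        ∫ x, (B * ‖(D x + 2) * D x‖ + ‖g (tor r x) - PZ F c (tor r x)‖) :=
      int_mono ((k3.mul k4).sub (k1.sub k3)).norm
        ((continuous_const.mul k4.norm).add (k1.sub k3).norm) fun x => by
        refine (norm_sub_le _ _).trans (add_le_add_left ?_ _)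
        rw [norm_mul]
        exact mul_le_mul_of_nonneg_right (PZ_bd F c hr.1.le hr.2.le x) (norm_nonneg _)
    rw [int_add (by exact continuous_const.mul k4.norm) (by exact (k1.sub k3).norm),
      integral_const_mul] at h5
    have h6 := mul_le_mul_of_nonneg_left h4 B0
    linarith [hc r hr]
  · obtain ⟨F, c, hP, hc⟩ := ev_rep P
    by_contra hlt
    push Not at hlt
    have h1 := nc c (F.sup fun p => p.1 + p.2 + 1) fun i j hij => hc i j fun hm => by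
      have := Finset.le_sup (f := fun p : ℕ × ℕ => p.1 + p.2 + 1) hm
      simp only at this
      omega
    have h2 : ∑' p : ℕ × ℕ, ‖conv c a p.1 p.2 - dl p.1 p.2‖ ^ 2 ≤ 1 / 200 := by
      refine Real.tsum_le_of_sum_le (fun p => by positivity) fun F' => ?_
      have lim : Tendsto (fun r : ℝ => ∑ p ∈ F',
          ‖sc r (fun m n => conv c a m n - dl m n) p.1 p.2‖ ^ 2) (𝓝[<] 1)
          (𝓝 (∑ p ∈ F', ‖sc (1 : ℝ) (fun m n => conv c a m n - dl m n) p.1 p.2‖ ^ 2)) :=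
        (Continuous.tendsto (by unfold sc; fun_prop) 1).mono_left nhdsWithin_le_nhds
      simp only [sc, ofReal_one, one_pow, mul_one] at lim
      refine le_of_tendsto lim ?_
      filter_upwards [Ioo_mem_nhdsLT (show (0 : ℝ) < 1 by norm_num)] with r hr
      obtain ⟨a1, a2⟩ := key r hr
      obtain ⟨b1, b2⟩ := co_PZ hc r
      have h1 := bessel (a1.mul_sub b1).1 F'
      simp only [co_D a1 b1, a2, b2, conv_sc, sc_dl] at h1
      have h3 := hlt r hr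
      simp only [hP] at h3
      simp only [sc] at h1
      linarith
    linarith

noncomputable def th (t : ℝ) : X := ((t / (2 * Real.pi) : ℝ) : X)

@[fun_prop] theorem th_cont : Continuous th :=
  (AddCircle.continuous_mk' 1).comp (continuous_id.div_const _)

theorem int_th (f : X → ℝ) : ∫ t in Icc 0 (2 * Real.pi), f (th t) = 2 * Real.pi * ∫ x, f x := by
  have hp : (0 : ℝ) < 2 * Real.pi := by positivity
  rw [integral_Icc_eq_integral_Ioc, ← intervalIntegral.integral_of_le hp.le]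
  have := intervalIntegral.integral_comp_div (a := 0) (b := 2 * Real.pi) (fun t : ℝ => f (t : X))
    hp.ne'
  rw [zero_div, div_self hp.ne'] at this
  refine this.trans ?_
  rw [← UnitAddCircle.intervalIntegral_preimage 0, zero_add, smul_eq_mul]

theorem lint {F : Y → ℝ} (hF : Continuous F) (h0 : ∀ x, 0 ≤ F x) :
    ∫⁻ x in Icc (0 : ℝ) (2 * Real.pi) ×ˢ Icc (0 : ℝ) (2 * Real.pi),
      ENNReal.ofReal (F (th x.1, th x.2)) = ENNReal.ofReal ((2 * Real.pi) ^ 2 * ∫ x, F x) := by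
  have h1 : IntegrableOn (fun x : ℝ × ℝ => F (th x.1, th x.2))
      (Icc (0 : ℝ) (2 * Real.pi) ×ˢ Icc (0 : ℝ) (2 * Real.pi)) :=
    ContinuousOn.integrableOn_compact (isCompact_Icc.prod isCompact_Icc)
      (Continuous.continuousOn (by fun_prop))
  rw [← ofReal_integral_eq_lintegral_ofReal h1 (Eventually.of_forall fun x => h0 _)]
  congr 1
  refine (setIntegral_prod _ h1).trans ?_
  simp only
  have : ∀ t : ℝ, ∫ u in Icc 0 (2 * Real.pi), F (th t, th u) =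
      2 * Real.pi * ∫ y, F (th t, y) := fun t => int_th fun y => F (th t, y)
  simp only [this]
  rw [integral_const_mul, int_th fun x => ∫ y, F (x, y), ← mul_assoc, ← sq]
  congr 1
  exact (integral_prod F (intg hF)).symm

noncomputable def NI (q : ℝ) (G : ℂ × ℂ → ℂ) : ENNReal :=
  ⨆ r ∈ Set.Ioo (0:ℝ) 1,
    ∫⁻ x in Set.Icc (0:ℝ) (2 * Real.pi) ×ˢ Set.Icc (0:ℝ) (2 * Real.pi),
      (‖G ((r:ℂ) * Complex.exp ((x.1:ℂ) * Complex.I),
           (r:ℂ) * Complex.exp ((x.2:ℂ) * Complex.I))‖ₑ) ^ q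

theorem NI_eq (n : ℕ) {G : ℂ × ℂ → ℂ} (hG : DifferentiableOn ℂ G (ball 0 1)) :
    NI n G = ⨆ r ∈ Set.Ioo (0:ℝ) 1,
      ENNReal.ofReal ((2 * Real.pi) ^ 2 * ∫ x, ‖G (tor r x)‖ ^ n) := by
  refine iSup_congr fun r => iSup_congr fun hr => ?_
  rw [← lint (by exact (cont_tor hG hr.1.le hr.2).norm.pow n) (fun x => by positivity)]
  congr 1; funext x
  simp only [tor, th, ee_theta]
  rw [ENNReal.rpow_natCast, ENNReal.ofReal_pow (norm_nonneg _), ofReal_norm]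

theorem ev_diff (P : MvPolynomial (Fin 2) ℂ) : Differentiable ℂ (ev P) := by
  obtain ⟨F, c, h, -⟩ := ev_rep P
  rw [funext h]; exact PZ_diff _ _

theorem main5 : ∃ f : ℂ × ℂ → ℂ, DifferentiableOn ℂ f (ball 0 1) ∧ NI 2 f < ⊤ ∧
    (∀ g : ℂ × ℂ → ℂ, DifferentiableOn ℂ g (ball 0 1) → NI 1 g < ⊤ →
      ∀ ε : ENNReal, 0 < ε → ∃ P, NI 1 (fun z => ev P z * f z - g z) < ε) ∧
    ¬ (∀ g : ℂ × ℂ → ℂ, DifferentiableOn ℂ g (ball 0 1) → NI 2 g < ⊤ →
      ∀ ε : ENNReal, 0 < ε → ∃ P, NI 2 (fun z => ev P z * f z - g z) < ε) := by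
  obtain ⟨f, df, ⟨K, hK⟩, cyc, nc⟩ := main4
  have hp : (0 : ℝ) < (2 * Real.pi) ^ 2 := by positivity
  have n1 := @NI_eq 1
  have n2 := @NI_eq 2
  simp only [Nat.cast_one, pow_one, Nat.cast_ofNat] at n1 n2
  refine ⟨f, df, ?_, fun g dg hg ε hε => ?_, fun H => ?_⟩
  · rw [n2 df]
    exact lt_of_le_of_lt (iSup₂_le fun r hr => ENNReal.ofReal_le_ofReal
      (mul_le_mul_of_nonneg_left (hK r hr) hp.le)) ENNReal.ofReal_lt_top
  · obtain ⟨δ, -, δ0, δ1⟩ := ENNReal.lt_iff_exists_real_btwn.1 hε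
    rw [ENNReal.ofReal_pos] at δ0
    obtain ⟨P, hP⟩ := cyc g dg ((NI 1 g).toReal / (2 * Real.pi) ^ 2) (fun r hr => by
      rw [le_div_iff₀' hp, ← ENNReal.ofReal_le_iff_le_toReal hg.ne, n1 dg]
      exact le_iSup₂ (f := fun r (_ : r ∈ Set.Ioo (0:ℝ) 1) =>
        ENNReal.ofReal ((2 * Real.pi) ^ 2 * ∫ x, ‖g (tor r x)‖)) r hr)
      (δ / (2 * Real.pi) ^ 2) (by positivity)
    refine ⟨P, ?_⟩
    rw [n1 (by exact ((ev_diff P).differentiableOn.mul df).sub dg)]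
    exact lt_of_le_of_lt (iSup₂_le fun r hr => ENNReal.ofReal_le_ofReal
      ((le_div_iff₀' hp).1 (hP r hr))) δ1
  · obtain ⟨P, hP⟩ := H (fun _ => 1) (by fun_prop) (by
      rw [n2 (by fun_prop)]
      exact lt_of_le_of_lt (iSup₂_le fun r hr => ENNReal.ofReal_le_ofReal
        (show _ ≤ (2 * Real.pi) ^ 2 by simp)) ENNReal.ofReal_lt_top)
      (ENNReal.ofReal ((2 * Real.pi) ^ 2 * (1 / 200))) (ENNReal.ofReal_pos.2 (by positivity))
    obtain ⟨r, hr, h⟩ := nc P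
    rw [n2 (by exact ((ev_diff P).differentiableOn.mul df).sub_const 1)] at hP
    exact hP.not_ge (le_iSup₂_of_le r hr (ENNReal.ofReal_le_ofReal
      (mul_le_mul_of_nonneg_left h hp.le)))

end Pool.Agent.H41.Bd
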