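import Pool.Agent.H41.Bd1

set_option autoImplicit false
open MeasureTheory Complex Set Filter Topology
open scoped ComplexConjugate

namespace Pool.Agent.H41.Bd
open Pool.Agent.H41.Db

def NN : Set (ℤ × ℤ) := {j | 0 ≤ j.1 ∧ 0 ≤ j.2}
def SP : Set (ℤ × ℤ) := {j | 0 < j.1 ∧ 0 < j.2}
def MX : Set (ℤ × ℤ) := {j | (0 < j.1 ∧ j.2 < 0) ∨ (j.1 < 0 ∧ 0 < j.2)}

theorem specA {f : Y → ℂ} (hf : f ∈ TQ univ) {y : X → ℂ} (hy : y ∈ TP {0}ᶜ) :
    ∀ᶠ n : ℕ in atTop, (fun x => f x * y (vr (-1) n x)) ∈ TQ MX := by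
  obtain ⟨D, hD⟩ := TQ_bdd hf
  filter_upwards [eventually_gt_atTop D] with n hn
  refine TQ_mul ?_ hD (TQ_vr (T := {j | ∃ s : ℤ, s ≠ 0 ∧ j = (s * n, s * n * (-1))}) (-1) n
    (fun s hs => ⟨s, hs, rfl⟩) hy)
  rintro i ⟨-, h1, h2⟩ _ ⟨s, hs, rfl⟩
  have hn' : (D : ℤ) < n := by exact_mod_cast hn
  obtain ⟨h1, h1'⟩ := abs_le.1 h1
  obtain ⟨h2, h2'⟩ := abs_le.1 h2
  simp only [MX, mem_ofPred_eq, Prod.fst_add, Prod.snd_add]
  rcases lt_or_gt_of_ne hs with h | h
  · right; constructor <;> nlinarith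
  · left; constructor <;> nlinarith

theorem specB {f : Y → ℂ} (hf : f ∈ TQ univ) {y : X → ℂ} (hy : y ∈ TP (Ici 1)) :
    ∀ᶠ n : ℕ in atTop, (fun x => f x * y (vr 1 n x)) ∈ TQ SP := by
  obtain ⟨D, hD⟩ := TQ_bdd hf
  filter_upwards [eventually_gt_atTop D] with n hn
  refine TQ_mul ?_ hD (TQ_vr (T := {j | ∃ s : ℤ, 1 ≤ s ∧ j = (s * n, s * n * 1)}) 1 n
    (fun s hs => ⟨s, hs, rfl⟩) hy)
  rintro i ⟨-, h1, h2⟩ _ ⟨s, hs, rfl⟩
  have hn' : (D : ℤ) < n := by exact_mod_cast hn
  obtain ⟨h1, h1'⟩ := abs_le.1 h1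
  obtain ⟨h2, h2'⟩ := abs_le.1 h2
  simp only [SP, mem_ofPred_eq, Prod.fst_add, Prod.snd_add]
  constructor <;> nlinarith

noncomputable def trap (a a' : ℝ) (x : X) : ℝ :=
  (max (a' - ‖x‖) 0 - max (a - ‖x‖) 0) / (a' - a)

@[fun_prop] theorem trap_cont (a a' : ℝ) : Continuous (trap a a') := by unfold trap; fun_prop

theorem trap01 {a a' : ℝ} (h : a < a') (x : X) : 0 ≤ trap a a' x ∧ trap a a' x ≤ 1 := by
  unfold trap
  have h0 : 0 < a' - a := by linarith
  rw [div_le_one h0, le_div_iff₀ h0]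
  simp only [max_def]; split_ifs <;> constructor <;> linarith

theorem trap1 {a a' : ℝ} (h : a < a') {x : X} (hx : ‖x‖ ≤ a) : trap a a' x = 1 := by
  unfold trap
  have h0 : 0 < a' - a := by linarith
  rw [max_eq_left (by linarith), max_eq_left (by linarith), div_eq_one_iff_eq h0.ne']; ring

theorem trap0 {a a' : ℝ} (h : a < a') {x : X} (hx : a' ≤ ‖x‖) : trap a a' x = 0 := by
  unfold trap
  rw [max_eq_right (by linarith), max_eq_right (by linarith)]; simp

theorem int_trap {a a' : ℝ} (h0 : 0 < a) (h : a < a') (h1 : a' ≤ 1 / 2) :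
    ∫ x, trap a a' x = a + a' := by
  have e : ∀ x, trap a a' x = (a' - a)⁻¹ * (a' ^ 2 * RR a' x - a ^ 2 * RR a x) := by
    intro x
    have : a' ≠ 0 := by linarith
    have : a' - a ≠ 0 := by linarith
    unfold trap RR; field_simp
  simp only [e]
  rw [integral_const_mul, Db.int_sub (by fun_prop) (by fun_prop), integral_const_mul,
    integral_const_mul, int_RR h0 (by linarith), int_RR (by linarith) h1]
  have : a' - a ≠ 0 := by linarith
  field_simp; ring

theorem anal {q : X → ℝ} (hq : Continuous q) {ε : ℝ} (hε : 0 < ε) :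
    ∃ g ∈ TP (Ici 1), ∀ x, |q x - (∫ x, q x) - (g x).re| ≤ ε := by
  obtain ⟨q', hq', hd⟩ := dense_re hq (ε := ε / 2) (by positivity)
  obtain ⟨g, hg, hre⟩ := completion hq'
  have cq := Db.re_cont hq'
  refine ⟨g, hg, fun x => ?_⟩
  have e1 : (g x).re = q' x - ∫ x, q' x := by
    rw [hre, integral_complex_ofReal]; simp
  have e2 : |(∫ x, q x) - ∫ x, q' x| ≤ ε / 2 := by
    rw [← Db.int_sub hq cq]; exact Db.abs_int_le hd
  have := abs_le.1 e2
  have := abs_le.1 (hd x)
  rw [e1, abs_le]; constructor <;> linarith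

structure St where
  ψ : Y → ℝ
  u : Y → ℂ
  E : Set Y

structure Good (s : St) (b e c l Z : ℝ) : Prop where
  ψT : (fun x => (s.ψ x : ℂ) - 1) ∈ TQ MX
  uT : s.u ∈ TQ SP
  Ecl : IsClosed s.E
  b0 : 0 ≤ b
  hb : ∀ x ∈ s.E, |s.ψ x| ≤ b
  he : volume.real s.E ≤ e
  hc : ∀ x ∈ s.E, |(s.u x).re - c| ≤ l
  hZ : ∫ x, s.Eᶜ.indicator (fun x => s.ψ x ^ 2 * Real.exp (-2 * (s.u x).re)) x ≤ Z

theorem Good.mono {s : St} {b e c l Z b' e' l' Z' : ℝ} (h : Good s b e c l Z) (h1 : b ≤ b')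
    (h2 : e ≤ e') (h3 : l ≤ l') (h4 : Z ≤ Z') : Good s b' e' c l' Z' :=
  { h with
    b0 := h.b0.trans h1
    hb := fun x hx => (h.hb x hx).trans h1
    he := h.he.trans h2
    hc := fun x hx => (h.hc x hx).trans h3
    hZ := h.hZ.trans h4 }

theorem Good.ψU {s : St} {b e c l Z : ℝ} (h : Good s b e c l Z) :
    (fun x => (s.ψ x : ℂ)) ∈ TQ univ := by
  have := TQ_add (TQ_mono (subset_univ _) h.ψT) (TQ_const (S := univ) trivial 1)
  simpa using this

theorem stepA {s : St} {b e c l Z : ℝ} (hs : Good s b e c l Z) {a ε : ℝ} (ha : 0 < a)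
    (ha1 : a ≤ 1 / 4) (hε : 0 < ε) :
    ∃ t, Good t (b * (1 / (21 / 10 * a) + ε)) ((e + ε) * (23 / 10 * a) + ε) c l (Z + ε) ∧
      t.u = s.u := by
  have ψU := hs.ψU
  obtain ⟨ψ, u, E⟩ := s
  obtain ⟨ψT, uT, Ecl, b0, hb, he, hc, hZ⟩ := hs
  simp only at *
  have kψ := re_cont ψU
  have ku := TQ_cont uT
  set M := 1 / (21 / 10 * a) with hM
  have M0 : 0 < M := by positivity
  obtain ⟨BW, BW0, hBW⟩ := bdd (g := fun x => Real.exp (-2 * (u x).re)) (by fun_prop)
  obtain ⟨Bψ, Bψ0, hBψ⟩ := bdd (g := fun x => ψ x ^ 2) (by fun_prop)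
  replace hBW : ∀ x, Real.exp (-2 * (u x).re) ≤ BW := fun x => (le_abs_self _).trans (hBW x)
  replace hBψ : ∀ x, ψ x ^ 2 ≤ Bψ := fun x => (le_abs_self _).trans (hBψ x)
  have hε4 : 0 < ε / 4 := by positivity
  obtain ⟨p, ⟨⟨⟨⟨p1, p2⟩, p3⟩, p4⟩, p0⟩⟩ := (((((small (ε / 4) 1 hε4).and
    (small (1 / 2) 1 (by norm_num))).and (small (ε / 4) (2 * (Bψ * BW)) hε4)).and
    (small2 (ε / 4) (M + 1) 0 (Bψ * BW) hε4)).and self_mem_nhdsWithin).exists
  replace p0 : 0 < p := p0
  rw [mul_one] at p1 p2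
  set C' := (M + 2) ^ 2 * (Bψ * BW) with hC'
  have C'0 : 0 ≤ C' := by positivity
  obtain ⟨η, ⟨⟨η1, η2⟩, η0⟩⟩ := (((small (ε / 4) 1 hε4).and
    (small (ε / 4) C' hε4)).and self_mem_nhdsWithin).exists
  replace η0 : 0 < η := η0
  rw [mul_one] at η1
  obtain ⟨U, hU, hEU, hμ⟩ := nbhd Ecl η0
  have mE := Ecl.measurableSet
  have mUE : MeasurableSet (U \ E) := hU.measurableSet.diff mE
  obtain ⟨χ, χT, χ01, χE, χU⟩ := cutoff Ecl hU hEU p0 (by linarith)
  have kχ := re_cont χT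
  have t1 : a < 11 / 10 * a := by linarith
  have t2 : 11 / 10 * a < 12 / 10 * a := by linarith
  obtain ⟨g, gT, hg⟩ := anal (q := fun x => M * trap a (11 / 10 * a) x) (by fun_prop) p0
  have kg := TP_cont gT
  rw [integral_const_mul, int_trap ha t1 (by linarith),
    show M * (a + 11 / 10 * a) = 1 by rw [hM]; field_simp; norm_num] at hg
  have gb : ∀ y, |1 + (g y).re| ≤ M + p := fun y => by
    have h1 := abs_le.1 (hg y)
    have h2 := trap01 t1 y
    have h3 := mul_nonneg M0.le h2.1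
    have h4 := mul_le_of_le_one_right M0.le h2.2
    rw [abs_le]; constructor <;> linarith
  have g0 : ∀ y, ¬ ‖y‖ ≤ 11 / 10 * a → |1 + (g y).re| ≤ p := fun y hy => by
    have h1 := abs_le.1 (hg y)
    rw [trap0 t1 (not_le.1 hy).le] at h1
    rw [abs_le]; constructor <;> linarith
  obtain ⟨n, sp, fj⟩ := ((specA (TQ_mul (U := univ) (fun _ _ _ _ => trivial) ψU χT)
    (TP_re (T := {0}ᶜ) (fun s hs => by
      simp only [mem_Ici, mem_compl_iff, mem_singleton_iff] at *; omega) gT)).and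
    (fej (-1) kχ (trap_cont (11 / 10 * a) (12 / 10 * a)) hε4)).exists
  rw [int_trap (by linarith) t2 (by linarith)] at fj
  have Acl : IsClosed {y : X | ‖y‖ ≤ 11 / 10 * a} := isClosed_le continuous_norm continuous_const
  set ψ' : Y → ℝ := fun x => ψ x * (1 + χ x * (g (vr (-1) n x)).re) with hψ'
  set E' : Set Y := E ∩ {x | vr (-1) n x ∈ {y : X | ‖y‖ ≤ 11 / 10 * a}} with hE'
  have E'cl : IsClosed E' := Ecl.inter (Acl.preimage (vr_cont _ n))
  have mix : ∀ x r, |1 + (g (vr (-1) n x)).re| ≤ r →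
      |1 + χ x * (g (vr (-1) n x)).re| ≤ (1 - χ x) + χ x * r := fun x r hr => by
    have h1 := χ01 x
    have h2 := abs_le.1 hr
    have h3 := mul_le_mul_of_nonneg_left h2.1 h1.1
    have h4 := mul_le_mul_of_nonneg_left h2.2 h1.1
    rw [abs_le]; constructor <;> linarith
  have sq : ∀ x r, |1 + χ x * (g (vr (-1) n x)).re| ≤ r →
      ψ' x ^ 2 * Real.exp (-2 * (u x).re) ≤ r ^ 2 * (ψ x ^ 2 * Real.exp (-2 * (u x).re)) := by
    intro x r hr
    have h1 : (1 + χ x * (g (vr (-1) n x)).re) ^ 2 ≤ r ^ 2 := by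
      rw [← sq_abs]; exact pow_le_pow_left₀ (abs_nonneg _) hr 2
    simp only [hψ', mul_pow]
    have := mul_le_mul_of_nonneg_left h1
      (mul_nonneg (sq_nonneg (ψ x)) (Real.exp_pos (-2 * (u x).re)).le)
    linarith
  refine ⟨⟨ψ', u, E'⟩, ⟨?_, uT, E'cl, by positivity, fun x hx => ?_, ?_,
    fun x hx => hc x hx.1, ?_⟩, rfl⟩
  · convert TQ_add ψT sp using 2 with x
    simp only [hψ']; push_cast; ring
  · simp only [hψ']
    rw [abs_mul]
    refine mul_le_mul (hb x hx.1) ((mix x _ (gb _)).trans ?_) (abs_nonneg _) b0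
    have h1 := χ01 x
    have h2 := χE x hx.1
    have h3 := mul_le_of_le_one_left (show 0 ≤ M + p by positivity) h1.2
    linarith
  · have h1 := meas_next Ecl Acl kχ (trap_cont (11 / 10 * a) (12 / 10 * a)) p0.le (-1) n
      (fun x => (χ01 x).1) χE (fun y => (trap01 t2 y).1) (fun y hy => (trap1 t2 hy).ge)
    have h2 := int_chi mE hU.measurableSet p0.le χ01 χU
    have h3 : (∫ x, χ x) * (11 / 10 * a + 12 / 10 * a) ≤ (e + ε) * (23 / 10 * a) := by
      rw [show 11 / 10 * a + 12 / 10 * a = 23 / 10 * a by ring]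
      exact mul_le_mul_of_nonneg_right (by linarith) (by positivity)
    simp only
    linarith
  · have kΦ : Continuous fun x => ψ x ^ 2 * Real.exp (-2 * (u x).re) := by fun_prop
    have := le4 (u := E'ᶜ.indicator fun x => ψ' x ^ 2 * Real.exp (-2 * (u x).re))
      (fun x => indicator_nonneg (fun _ _ => by positivity) x) ((intg kΦ).indicator mE.compl)
      (integrable_const (ε / 4)) ((ind_intg mUE).const_mul C') (integrable_const (ε / 4))
      fun x => by
        have h1 := χ01 x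
        have Φ0 : 0 ≤ ψ x ^ 2 * Real.exp (-2 * (u x).re) := by positivity
        have Φ1 : ψ x ^ 2 * Real.exp (-2 * (u x).re) ≤ Bψ * BW :=
          mul_le_mul (hBψ x) (hBW x) (Real.exp_pos _).le Bψ0
        have h2 := mul_nonneg C'0 (ind_nonneg (U \ E) x)
        by_cases hx : x ∈ E
        · rw [indicator_of_notMem (s := Eᶜ) (fun h => h hx)]
          by_cases hx' : x ∈ E'
          · rw [indicator_of_notMem (s := E'ᶜ) (fun h => h hx')]; linarith
          · rw [indicator_of_mem (s := E'ᶜ) hx']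
            have h3 := χE x hx
            have h4 := sq x (2 * p) ((mix x _ (g0 _ fun h => hx' ⟨hx, h⟩)).trans (by
              have := mul_le_of_le_one_left p0.le h1.2
              linarith))
            have h5 : (2 * p) ^ 2 ≤ 2 * p := by nlinarith only [p0, p2]
            have h6 := mul_le_mul h5 Φ1 Φ0 (by positivity)
            linarith
        · rw [indicator_of_mem (s := Eᶜ) hx, indicator_of_mem (s := E'ᶜ) (fun h => hx h.1)]
          by_cases hx' : x ∈ U
          · rw [ind_mem (S := U \ E) ⟨hx', hx⟩]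
            have h4 := sq x (M + 2) ((mix x _ (gb _)).trans (by
              have := mul_le_of_le_one_left (show 0 ≤ M + p by positivity) h1.2
              linarith))
            have h6 := mul_le_mul_of_nonneg_left Φ1 (sq_nonneg (M + 2))
            linarith
          · have h4 := sq x (1 + p * (M + 1)) ((mix x _ (gb _)).trans (by
              have := mul_le_mul (χU x hx') (show M + p ≤ M + 1 by linarith) (by positivity) p0.le
              linarith))
            have h5 : 0 ≤ (1 + p * (M + 1)) ^ 2 - 1 := by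
              have : 0 ≤ p * (M + 1) := by positivity
              nlinarith only [this]
            have h6 := mul_le_mul_of_nonneg_left Φ1 h5
            simp only [mul_zero, add_zero, mul_one] at p4
            linarith
    rw [integral_const_mul, int_ind mUE] at this
    simp only [integral_const, probReal_univ, smul_eq_mul, one_mul] at this
    have h9 := mul_le_mul_of_nonneg_left hμ C'0
    simp only
    linarith

end Pool.Agent.H41.Bd
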