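import Pool.Agent.H41.Bd2

set_option autoImplicit false
open MeasureTheory Complex Set Filter Topology
open scoped ComplexConjugate

namespace Pool.Agent.H41.Bd
open Pool.Agent.H41.Db

theorem link {E U : Set Y} (mE : MeasurableSet E) (mU : MeasurableSet U) {v w : Y → ℂ}
    {α ρ B δ : ℝ} (hρ : 0 ≤ ρ) (hδ : 0 ≤ δ) (hδ1 : δ ≤ 1) (hE : ∀ x ∈ E, 2 * (v x).re ≤ α)
    (hw : ∀ x, (w x).re ≤ ρ) (hB : ∀ x, Real.exp (2 * (v x).re) ≤ B)
    (hU : ∀ x ∉ U, ‖w x‖ ≤ δ) :
    ∫ x, ‖exp (v x + w x) - exp (v x)‖ ^ 2 ≤ volume.real E * (4 * Real.exp (α + 2 * ρ)) +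
      volume.real (U \ E) * (4 * B * Real.exp (2 * ρ)) + δ * (4 * B) := by
  have B0 : 0 ≤ B := (Real.exp_pos _).le.trans (hB 0)
  have := le4 (u := fun x => ‖exp (v x + w x) - exp (v x)‖ ^ 2) (fun x => by positivity)
    ((ind_intg mE).const_mul (4 * Real.exp (α + 2 * ρ)))
    ((ind_intg (mU.diff mE)).const_mul (4 * B * Real.exp (2 * ρ)))
    (integrable_const (δ * (4 * B))) (integrable_const 0) fun x => by
      have e1 : ‖exp (v x + w x) - exp (v x)‖ ^ 2 =
          Real.exp (2 * (v x).re) * ‖exp (w x) - 1‖ ^ 2 := by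
        rw [Complex.exp_add, ← mul_sub_one, norm_mul, mul_pow, Complex.norm_exp, ← Real.exp_nat_mul]
        norm_num
      have e2 : ‖exp (w x) - 1‖ ^ 2 ≤ 4 * Real.exp (2 * ρ) := by
        have h1 : ‖exp (w x) - 1‖ ≤ 2 * Real.exp ρ := by
          refine (norm_sub_le _ _).trans ?_
          rw [Complex.norm_exp, norm_one]
          have := Real.exp_le_exp.2 (hw x)
          have := Real.one_le_exp hρ
          linarith
        have h2 := pow_le_pow_left₀ (norm_nonneg _) h1 2
        rw [mul_pow, ← Real.exp_nat_mul] at h2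
        norm_num at h2 ⊢
        exact h2
      have h1 := mul_nonneg (show 0 ≤ 4 * Real.exp (α + 2 * ρ) by positivity) (ind_nonneg E x)
      have h2 := mul_nonneg (show 0 ≤ 4 * B * Real.exp (2 * ρ) by positivity) (ind_nonneg (U \ E) x)
      have h3 : 0 ≤ δ * (4 * B) := by positivity
      rw [e1]
      by_cases hx : x ∈ E
      · rw [ind_mem hx]
        have := mul_le_mul (Real.exp_le_exp.2 (hE x hx)) e2 (by positivity) (Real.exp_pos _).le
        rw [Real.exp_add]
        linarith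
      · by_cases hx' : x ∈ U
        · rw [ind_mem (S := U \ E) ⟨hx', hx⟩]
          have := mul_le_mul (hB x) e2 (by positivity) B0
          linarith
        · have h4 := Complex.norm_exp_sub_one_le ((hU x hx').trans hδ1)
          have h5 : ‖exp (w x) - 1‖ ≤ 2 * δ := by linarith [hU x hx']
          have h6 := pow_le_pow_left₀ (norm_nonneg _) h5 2
          have h7 : (2 * δ) ^ 2 ≤ 4 * δ := by nlinarith only [hδ, hδ1]
          have := mul_le_mul (hB x) (h6.trans h7) (by positivity) B0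
          linarith
  rw [integral_const_mul, integral_const_mul, int_ind mE, int_ind (mU.diff mE)] at this
  simp only [integral_const, probReal_univ, smul_eq_mul, one_mul] at this
  linarith

theorem small3 (ε a c : ℝ) (hε : 0 < ε) :
    ∀ᶠ p in 𝓝[>] (0 : ℝ), (Real.exp (p * a) - 1) * c ≤ ε := by
  have : Tendsto (fun p : ℝ => (Real.exp (p * a) - 1) * c) (𝓝 0)
      (𝓝 ((Real.exp (0 * a) - 1) * c)) := Continuous.tendsto (by fun_prop) 0
  simp only [zero_mul, Real.exp_zero, sub_self] at this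
  exact (this.eventually (eventually_le_nhds hε)).filter_mono nhdsWithin_le_nhds

theorem blockB {t γ p : ℝ} (ht : 0 ≤ t) (γ0 : 0 < γ) (γ1 : γ ≤ 1 / 12) (p0 : 0 < p) :
    ∃ g ∈ TP (Ici 1), ∃ t', 0 ≤ t' ∧ t' ≤ t / 2 ∧
      (∀ y, -(t / 2) - p ≤ (g y).re ∧ (g y).re ≤ t + p) ∧
      (∀ y, ‖y‖ ≤ 1 / 3 → |(g y).re + t'| ≤ p) ∧ ∀ y, 1 / 3 + γ ≤ ‖y‖ → t - p ≤ (g y).re := by
  have t1 : (1 / 3 : ℝ) < 1 / 3 + γ := by linarith
  set k := t / (2 / 3 + γ) with hk
  have hk' : k * (2 / 3 + γ) = t := by rw [hk]; field_simp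
  have k0 : 0 ≤ k := by positivity
  have k1 : t ≤ k := by nlinarith
  have k2 : k ≤ 3 / 2 * t := by nlinarith
  obtain ⟨g, gT, hg⟩ := anal (q := fun x => t - k * trap (1 / 3) (1 / 3 + γ) x) (by fun_prop) p0
  rw [Db.int_sub (by fun_prop) (by fun_prop), integral_const_mul,
    int_trap (by norm_num) t1 (by linarith)] at hg
  simp only [integral_const, probReal_univ, smul_eq_mul, one_mul] at hg
  rw [show t - k * (1 / 3 + (1 / 3 + γ)) = 0 by linarith] at hg
  refine ⟨g, gT, k - t, by linarith, by linarith, fun y => ?_, fun y hy => ?_, fun y hy => ?_⟩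
  · have h1 := abs_le.1 (hg y)
    have h2 := trap01 t1 y
    have h3 := mul_nonneg k0 h2.1
    have h4 := mul_le_of_le_one_right k0 h2.2
    constructor <;> linarith
  · have h1 := abs_le.1 (hg y)
    rw [trap1 t1 hy] at h1
    rw [abs_le]; constructor <;> linarith
  · have h1 := abs_le.1 (hg y)
    rw [trap0 t1 hy] at h1
    linarith

theorem stepB {s : St} {b e c l Z : ℝ} (hs : Good s b e c l Z) {t ε : ℝ} (ht : 0 ≤ t)
    (hε : 0 < ε) :
    ∃ s' c', Good s' b ((e + ε) * (2 / 3 + ε) + ε) c' (l + ε)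
        (Z + ε + e * (b ^ 2 * Real.exp (-2 * c + 2 * l) * Real.exp (-2 * t + 1))) ∧
      ∫ x, ‖exp (s'.u x) - exp (s.u x)‖ ^ 2 ≤
        ε + e * (4 * Real.exp (2 * c + 2 * l + 2 * t + 2)) ∧
      ∫ x, ‖exp (-s'.u x) - exp (-s.u x)‖ ^ 2 ≤
        ε + e * (4 * Real.exp (-2 * c + 2 * l + t + 2)) := by
  have ψU := hs.ψU
  obtain ⟨ψ, u, E⟩ := s
  obtain ⟨ψT, uT, Ecl, b0, hb, he, hc, hZ⟩ := hs
  simp only at *
  have kψ := re_cont ψU
  have ku := TQ_cont uT
  obtain ⟨B1, B10, hB1⟩ := bdd (g := fun x => Real.exp (2 * (u x).re)) (by fun_prop)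
  obtain ⟨B2, B20, hB2⟩ := bdd (g := fun x => Real.exp (2 * (-u x).re)) (by fun_prop)
  obtain ⟨BΦ, BΦ0, hBΦ⟩ := bdd (g := fun x => ψ x ^ 2 * Real.exp (-2 * (u x).re)) (by fun_prop)
  replace hB1 : ∀ x, Real.exp (2 * (u x).re) ≤ B1 := fun x => (le_abs_self _).trans (hB1 x)
  replace hB2 : ∀ x, Real.exp (2 * (-u x).re) ≤ B2 := fun x => (le_abs_self _).trans (hB2 x)
  replace hBΦ : ∀ x, ψ x ^ 2 * Real.exp (-2 * (u x).re) ≤ BΦ :=
    fun x => (le_abs_self _).trans (hBΦ x)
  have hε4 : 0 < ε / 4 := by positivity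
  set C' := BΦ * Real.exp (t + 2) with hC'
  have C'0 : 0 ≤ C' := by positivity
  obtain ⟨γ, ⟨⟨⟨γ1, γ2⟩, γ3⟩, γ0⟩⟩ := ((((small ε 1 hε).and
    (small (1 / 12) 1 (by norm_num))).and (small (ε / 4) (4 * C') hε4)).and
    self_mem_nhdsWithin).exists
  replace γ0 : 0 < γ := γ0
  rw [mul_one] at γ1 γ2
  obtain ⟨p, ⟨⟨p1, p2⟩, p0⟩⟩ := (((small (ε / 4) 1 hε4).and
    (small (1 / 4) 1 (by norm_num))).and self_mem_nhdsWithin).exists
  replace p0 : 0 < p := p0
  rw [mul_one] at p1 p2
  obtain ⟨g, gT, t', t'0, t'1, gb, g1, g2⟩ := blockB ht γ0 γ2 p0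
  have kg := TP_cont gT
  obtain ⟨G, G0, hG⟩ := Db.bdd (g := fun y => ‖g y‖) (by fun_prop)
  replace hG : ∀ y, ‖g y‖ ≤ G := fun y => (le_abs_self _).trans (hG y)
  obtain ⟨η, ⟨⟨⟨⟨η1, η2⟩, η3⟩, η4⟩, η0⟩⟩ := (((((small (ε / 4) 1 hε4).and
    (small (ε / 4) C' hε4)).and (small (ε / 4) (4 * B1 * Real.exp (2 * (t + 1))) hε4)).and
    (small (ε / 4) (4 * B2 * Real.exp (2 * (t / 2 + 1))) hε4)).and self_mem_nhdsWithin).exists
  replace η0 : 0 < η := η0
  rw [mul_one] at η1
  obtain ⟨U, hU, hEU, hμ⟩ := nbhd Ecl η0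
  have mE := Ecl.measurableSet
  have mU := hU.measurableSet
  have mUE : MeasurableSet (U \ E) := mU.diff mE
  obtain ⟨r, ⟨⟨⟨⟨⟨⟨⟨⟨r1, r2⟩, r3⟩, r4⟩, r5⟩, r6⟩, r7⟩, r8⟩, r0⟩⟩ :=
    (((((((((small (ε / 4) 1 hε4).and
    (small 1 1 (by norm_num))).and (small (ε / 4) t hε4)).and (small (1 / 4) t (by norm_num))).and
    (small 1 G (by norm_num))).and (small (ε / 4) (G * (4 * B1)) hε4)).and
    (small (ε / 4) (G * (4 * B2)) hε4)).and (small3 (ε / 4) (t + 2) BΦ hε4)).and
    self_mem_nhdsWithin).exists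
  replace r0 : 0 < r := r0
  rw [mul_one] at r1 r2
  obtain ⟨χ, χT, χ01, χE, χU⟩ := cutoff Ecl hU hEU r0 r2
  have kχ := re_cont χT
  have t1 : (1 / 3 : ℝ) < 1 / 3 + γ := by linarith
  have t2 : (1 / 3 : ℝ) + γ < 1 / 3 + 2 * γ := by linarith
  have t3 : (1 / 3 : ℝ) - γ < 1 / 3 := by linarith
  obtain ⟨δ, ⟨δ1, δ0⟩⟩ := ((small (ε / 4) C' hε4).and self_mem_nhdsWithin).exists
  replace δ0 : 0 < δ := δ0
  set k : X → ℝ := fun y => trap (1 / 3 + γ) (1 / 3 + 2 * γ) y - trap (1 / 3 - γ) (1 / 3) y with hk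
  have kk : Continuous k := by fun_prop
  have k0 : ∀ y, 0 ≤ k y := fun y => by
    simp only [hk]
    rcases le_total ‖y‖ (1 / 3 + γ) with h | h
    · rw [trap1 t2 h]; linarith [trap01 t3 y]
    · rw [trap0 t3 (by linarith)]; linarith [trap01 t2 y]
  have k1 : ∀ y, 1 / 3 ≤ ‖y‖ → ‖y‖ ≤ 1 / 3 + γ → k y = 1 := fun y h h' => by
    simp only [hk]
    rw [trap1 t2 h', trap0 t3 h, sub_zero]
  obtain ⟨n, ⟨sp, fj⟩, fk⟩ := (((specB χT gT).and
    (fej 1 kχ (trap_cont (1 / 3) (1 / 3 + γ)) hε4)).and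
    (fej 1 (f := fun _ => 1) continuous_const kk δ0)).exists
  rw [int_trap (by norm_num) t1 (by linarith)] at fj
  rw [show ∫ x, k x = 4 * γ by
    rw [hk, Db.int_sub (by fun_prop) (by fun_prop), int_trap (by linarith) t2 (by linarith),
      int_trap (by linarith) t3 (by norm_num)]; ring] at fk
  simp only [integral_const, probReal_univ, smul_eq_mul, one_mul] at fk
  have Acl : IsClosed {y : X | ‖y‖ ≤ 1 / 3} := isClosed_le continuous_norm continuous_const
  set w : Y → ℂ := fun x => (χ x : ℂ) * g (vr 1 n x) with hw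
  have wre : ∀ x, (w x).re = χ x * (g (vr 1 n x)).re := fun x => by simp [hw]
  have wn : ∀ x ∉ U, ‖w x‖ ≤ r * G := fun x hx => by
    simp only [hw, norm_mul, Complex.norm_real, Real.norm_eq_abs, abs_of_nonneg (χ01 x).1]
    exact mul_le_mul (χU x hx) (hG _) (norm_nonneg _) r0.le
  have w1 : ∀ x, -(χ x * (t / 2 + 1)) ≤ (w x).re ∧ (w x).re ≤ χ x * (t + 1) := fun x => by
    rw [wre]
    have h1 := χ01 x
    have h2 := gb (vr 1 n x)
    constructor
    · have := mul_le_mul_of_nonneg_left (show -(t / 2 + 1) ≤ (g (vr 1 n x)).re by linarith) h1.1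
      linarith
    · exact mul_le_mul_of_nonneg_left (by linarith) h1.1
  have w2 : ∀ x, -(t / 2 + 1) ≤ (w x).re ∧ (w x).re ≤ t + 1 := fun x => by
    have h1 := χ01 x
    have h2 := w1 x
    have h3 := mul_le_of_le_one_left (show 0 ≤ t / 2 + 1 by linarith) h1.2
    have h4 := mul_le_of_le_one_left (show 0 ≤ t + 1 by linarith) h1.2
    constructor <;> linarith
  set E' : Set Y := E ∩ {x | vr 1 n x ∈ {y : X | ‖y‖ ≤ 1 / 3}} with hE'
  have E'cl : IsClosed E' := Ecl.inter (Acl.preimage (vr_cont _ n))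
  refine ⟨⟨ψ, fun x => u x + w x, E'⟩, c - t', ⟨ψT, TQ_add uT sp, E'cl, b0,
    fun x hx => hb x hx.1, ?_, fun x hx => ?_, ?_⟩, ?_, ?_⟩
  · have h1 := meas_next Ecl Acl kχ (trap_cont (1 / 3) (1 / 3 + γ)) r0.le 1 n
      (fun x => (χ01 x).1) χE (fun y => (trap01 t1 y).1) (fun y hy => (trap1 t1 hy).ge)
    have h2 := int_chi mE mU r0.le χ01 χU
    have e0 : 0 ≤ e := measureReal_nonneg.trans he
    have h3 : (∫ x, χ x) * (1 / 3 + (1 / 3 + γ)) ≤ (e + ε) * (2 / 3 + ε) :=
      mul_le_mul (by linarith) (by linarith) (by linarith) (by linarith)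
    simp only
    linarith
  · have h1 := abs_le.1 (hc x hx.1)
    have h2 := abs_le.1 (g1 _ hx.2)
    have h3 := χ01 x
    have h4 := χE x hx.1
    have h5 := mul_le_mul_of_nonneg_left h2.1 h3.1
    have h6 := mul_le_mul_of_nonneg_left h2.2 h3.1
    have h7 := mul_le_of_le_one_left p0.le h3.2
    have h8 := mul_le_mul (show 1 - χ x ≤ r by linarith) (show t' ≤ t by linarith) t'0 r0.le
    have h9 := mul_nonneg (show 0 ≤ 1 - χ x by linarith) t'0
    simp only [Complex.add_re, wre]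
    rw [abs_le]; constructor <;> linarith
  · have kΦ : Continuous fun x => ψ x ^ 2 * Real.exp (-2 * (u x).re) := by fun_prop
    set W := b ^ 2 * Real.exp (-2 * c + 2 * l) * Real.exp (-2 * t + 1) with hW
    have W0 : 0 ≤ W := by positivity
    have := le4 (u := E'ᶜ.indicator fun x => ψ x ^ 2 * Real.exp (-2 * (u x + w x).re))
      (fun x => indicator_nonneg (fun _ _ => by positivity) x) ((intg kΦ).indicator mE.compl)
      ((ind_intg mE).const_mul W) ((ind_intg mUE).const_mul C')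
      (intg (g := fun x => ε / 4 + C' * k (vr 1 n x)) (by fun_prop))
      fun x => by
        have h1 := χ01 x
        have Φ0 : 0 ≤ ψ x ^ 2 * Real.exp (-2 * (u x).re) := by positivity
        have Φ1 := hBΦ x
        have h2 := mul_nonneg C'0 (ind_nonneg (U \ E) x)
        have h3 := mul_nonneg W0 (ind_nonneg E x)
        have h4 := mul_nonneg C'0 (k0 (vr 1 n x))
        have e1 : ψ x ^ 2 * Real.exp (-2 * (u x + w x).re) =
            ψ x ^ 2 * Real.exp (-2 * (u x).re) * Real.exp (-2 * (w x).re) := by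
          rw [Complex.add_re, mul_add, Real.exp_add, mul_assoc]
        have e2 : ψ x ^ 2 * Real.exp (-2 * (u x + w x).re) ≤ C' := by
          rw [e1]
          exact mul_le_mul Φ1 (Real.exp_le_exp.2 (by linarith [w2 x])) (Real.exp_pos _).le BΦ0
        by_cases hx : x ∈ E
        · rw [indicator_of_notMem (s := Eᶜ) (fun h => h hx)]
          by_cases hx' : x ∈ E'
          · rw [indicator_of_notMem (s := E'ᶜ) (fun h => h hx')]; linarith
          · rw [indicator_of_mem (s := E'ᶜ) hx']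
            have h5 : 1 / 3 < ‖vr 1 n x‖ := not_le.1 fun h => hx' ⟨hx, h⟩
            rcases le_total ‖vr 1 n x‖ (1 / 3 + γ) with h | h
            · rw [k1 _ h5.le h]; linarith
            · rw [ind_mem hx, e1]
              have h6 := g2 _ h
              have h7 := χE x hx
              have h8 := mul_le_mul_of_nonneg_left h6 h1.1
              have h9 := mul_le_of_le_one_left p0.le h1.2
              have h10 := mul_le_mul_of_nonneg_right h7 ht
              have h11 : Real.exp (-2 * (w x).re) ≤ Real.exp (-2 * t + 1) := by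
                rw [wre]; exact Real.exp_le_exp.2 (by linarith)
              have h12 : ψ x ^ 2 ≤ b ^ 2 := by
                rw [← sq_abs]; exact pow_le_pow_left₀ (abs_nonneg _) (hb x hx) 2
              have h13 : Real.exp (-2 * (u x).re) ≤ Real.exp (-2 * c + 2 * l) :=
                Real.exp_le_exp.2 (by linarith [abs_le.1 (hc x hx)])
              have := mul_le_mul (mul_le_mul h12 h13 (Real.exp_pos _).le (sq_nonneg b)) h11
                (Real.exp_pos _).le (by positivity)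
              linarith
        · rw [indicator_of_mem (s := Eᶜ) hx, indicator_of_mem (s := E'ᶜ) (fun h => hx h.1)]
          by_cases hx' : x ∈ U
          · rw [ind_mem (S := U \ E) ⟨hx', hx⟩]; linarith
          · rw [e1]
            have h5 := mul_le_mul_of_nonneg_right (χU x hx') (show 0 ≤ t / 2 + 1 by linarith)
            have h6 : Real.exp (-2 * (w x).re) ≤ Real.exp (r * (t + 2)) :=
              Real.exp_le_exp.2 (by linarith [w1 x])
            have h7 := Real.one_le_exp (show 0 ≤ r * (t + 2) by positivity)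
            have h8 := mul_le_mul_of_nonneg_left h6 Φ0
            have h9 := mul_le_mul_of_nonneg_left Φ1 (sub_nonneg.2 h7)
            linarith
    rw [integral_const_mul, integral_const_mul, int_ind mUE, int_ind mE,
      int_add (by fun_prop) (by fun_prop), integral_const_mul] at this
    simp only [integral_const, probReal_univ, smul_eq_mul, one_mul] at this
    have h9 := mul_le_mul_of_nonneg_left hμ C'0
    have h10 := mul_le_mul_of_nonneg_left he W0
    have h11 := mul_le_mul_of_nonneg_left fk C'0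
    simp only
    linarith
  · have := link mE mU (v := u) (w := w) (α := 2 * c + 2 * l) (ρ := t + 1) (by linarith)
      (by positivity) r5 (fun x hx => by linarith [abs_le.1 (hc x hx)]) (fun x => (w2 x).2) hB1 wn
    have h1 := mul_le_mul_of_nonneg_right he
      (show 0 ≤ 4 * Real.exp (2 * c + 2 * l + 2 * (t + 1)) by positivity)
    have h2 := mul_le_mul_of_nonneg_right hμ
      (show 0 ≤ 4 * B1 * Real.exp (2 * (t + 1)) by positivity)
    rw [show 2 * c + 2 * l + 2 * t + 2 = 2 * c + 2 * l + 2 * (t + 1) by ring]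
    simp only
    linarith
  · have := link mE mU (v := fun x => -u x) (w := fun x => -w x) (α := -2 * c + 2 * l)
      (ρ := t / 2 + 1) (by linarith) (by positivity) r5
      (fun x hx => by rw [Complex.neg_re]; linarith [abs_le.1 (hc x hx)])
      (fun x => by rw [Complex.neg_re]; linarith [w2 x]) hB2
      (fun x hx => by rw [norm_neg]; exact wn x hx)
    have h1 := mul_le_mul_of_nonneg_right he
      (show 0 ≤ 4 * Real.exp (-2 * c + 2 * l + 2 * (t / 2 + 1)) by positivity)
    have h2 := mul_le_mul_of_nonneg_right hμ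
      (show 0 ≤ 4 * B2 * Real.exp (2 * (t / 2 + 1)) by positivity)
    rw [show -2 * c + 2 * l + t + 2 = -2 * c + 2 * l + 2 * (t / 2 + 1) by ring]
    simp only [neg_add]
    linarith

end Pool.Agent.H41.Bd
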