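import Pool.Agent.H41.Bd3

set_option autoImplicit false
open MeasureTheory Complex Set Filter Topology
open scoped ComplexConjugate

namespace Pool.Agent.H41.Bd
open Pool.Agent.H41.Db

theorem stage {s : St} {b e c l Z : ℝ} (hs : Good s b e c l Z) (b0 : 0 < b) (e0 : 0 < e)
    (l1 : l ≤ 1) {σ lam : ℝ} (σ0 : 0 < σ) (lam0 : 0 < lam) :
    ∃ s' b' e' c', 0 < b' ∧ 0 < e' ∧ b' * e' ≤ 84 / 100 * (b * e) ∧
      Good s' b' e' c' (l + lam) (Z + σ) ∧
      ∫ x, ‖exp (s'.u x) - exp (s.u x)‖ ^ 2 ≤ 37 * Real.exp 7 * ((b * e) ^ 2 / σ) ∧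
      ∫ x, ‖exp (-s'.u x) - exp (-s.u x)‖ ^ 2 ≤ 37 * Real.exp 7 * ((b * e) ^ 2 / σ) := by
  set T := (b * e) ^ 2 / σ with hT
  have T0 : 0 < T := by positivity
  obtain ⟨C, C0, hC⟩ : ∃ C : ℝ, 0 < C ∧ C ^ 2 = 9 / 5 * e * b ^ 2 * Real.exp (-2 * c + 3) / σ :=
    ⟨_, Real.sqrt_pos.2 (by positivity), Real.sq_sqrt (by positivity)⟩
  obtain ⟨r, ⟨⟨⟨r1, r2⟩, r3⟩, r0⟩⟩ := ((((small (1 / 2) 1 (by norm_num)).and
    (small (2 / 5 * C) 1 (by positivity))).and
    (small T (48 / 5 * e * Real.exp (-2 * c + 4) * (1 + C)) T0)).and self_mem_nhdsWithin).exists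
  replace r0 : 0 < r := r0
  rw [mul_one] at r1 r2
  have a0 : 0 < r ^ 2 := by positivity
  have a1 : r ^ 2 ≤ 1 / 4 := by nlinarith
  obtain ⟨ε, ⟨⟨⟨ε1, ε2⟩, ε3⟩, ε0⟩⟩ := ((((small (1 / (42 * r ^ 2)) 1 (by positivity)).and
    (small (1 / 10 * r ^ 2 * e) (23 / 10 * r ^ 2 + 1) (by positivity))).and
    (small (σ / 3) 1 (by positivity))).and self_mem_nhdsWithin).exists
  replace ε0 : 0 < ε := ε0
  rw [mul_one] at ε1 ε3
  obtain ⟨t, ht, htu⟩ := stepA hs a0 a1 ε0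
  have ht' : Good t (b / (2 * r ^ 2)) (12 / 5 * r ^ 2 * e) c l (Z + σ / 3) := by
    refine ht.mono ?_ (by linarith) le_rfl (by linarith)
    rw [div_eq_mul_one_div b]
    refine mul_le_mul_of_nonneg_left ?_ b0.le
    have : 1 / (2 * r ^ 2) = 1 / (21 / 10 * r ^ 2) + 1 / (42 * r ^ 2) := by field_simp; norm_num
    linarith
  set e1 := 12 / 5 * r ^ 2 * e with he1
  have e10 : 0 < e1 := by positivity
  obtain ⟨δ, ⟨⟨⟨⟨⟨δ1, δ2⟩, δ3⟩, δ4⟩, δ5⟩, δ0⟩⟩ := ((((((small 1 1 (by positivity)).and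
    (small (1 / 30 * e1) (e1 + 3) (by positivity))).and
    (small (σ / 3) 1 (by positivity))).and (small lam 1 lam0)).and (small T 1 T0)).and
    self_mem_nhdsWithin).exists
  replace δ0 : 0 < δ := δ0
  rw [mul_one] at δ1 δ3 δ4 δ5
  have q1 : 1 ≤ 1 + C / r := by have := div_pos C0 r0; linarith
  obtain ⟨s', c', g, k1, k2⟩ := stepB ht' (Real.log_nonneg q1) δ0
  have x1 : Real.exp (Real.log (1 + C / r)) = (r + C) / r := by
    rw [Real.exp_log (by linarith)]; field_simp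
  set τ := Real.log (1 + C / r)
  have x2 : Real.exp (2 * τ) = (r + C) ^ 2 / r ^ 2 := by
    rw [← div_pow, ← x1, ← Real.exp_nat_mul]; norm_num
  have x7 : 1 ≤ Real.exp 7 := Real.one_le_exp (by norm_num)
  rw [htu] at k1 k2
  refine ⟨s', b / (2 * r ^ 2), 7 / 10 * e1, c', by positivity, by positivity,
    le_of_eq (by rw [he1]; field_simp; norm_num), g.mono le_rfl (by nlinarith) (by linarith) ?_,
    k1.trans ?_, k2.trans ?_⟩
  · have h1 : Real.exp (-2 * c + 2 * l) * Real.exp (-2 * τ + 1) ≤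
        Real.exp (-2 * c + 3) * (r ^ 2 / C ^ 2) := by
      have h2 : Real.exp (-(2 * τ)) ≤ r ^ 2 / C ^ 2 := by
        rw [Real.exp_neg, x2, inv_div]
        exact div_le_div_of_nonneg_left a0.le (by positivity) (by nlinarith)
      refine le_trans ?_ (mul_le_mul_of_nonneg_left h2 (Real.exp_pos _).le)
      rw [← Real.exp_add, ← Real.exp_add]
      exact Real.exp_le_exp.2 (by linarith)
    have h3 := mul_le_mul_of_nonneg_left h1 (show 0 ≤ e1 * (b / (2 * r ^ 2)) ^ 2 by positivity)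
    have h4 : e1 * (b / (2 * r ^ 2)) ^ 2 * (Real.exp (-2 * c + 3) * (r ^ 2 / C ^ 2)) = σ / 3 := by
      rw [hC, he1]; field_simp; norm_num
    linarith
  · have h1 : Real.exp (2 * c + 2 * l + 2 * τ + 2) ≤
        Real.exp (2 * c + 4) * (2 * C ^ 2 / r ^ 2) := by
      have h2 : Real.exp (2 * τ) ≤ 2 * C ^ 2 / r ^ 2 := by
        rw [x2]
        exact div_le_div_of_nonneg_right (by nlinarith) a0.le
      refine le_trans ?_ (mul_le_mul_of_nonneg_left h2 (Real.exp_pos _).le)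
      rw [← Real.exp_add]
      exact Real.exp_le_exp.2 (by linarith)
    have h3 := mul_le_mul_of_nonneg_left h1 (show 0 ≤ e1 * 4 by positivity)
    have h4 : e1 * 4 * (Real.exp (2 * c + 4) * (2 * C ^ 2 / r ^ 2)) =
        864 / 25 * Real.exp 7 * T := by
      rw [hC, he1, hT, show (7 : ℝ) = (2 * c + 4) + (-2 * c + 3) by ring, Real.exp_add (2 * c + 4)]
      field_simp; norm_num
    nlinarith
  · have h1 : Real.exp (-2 * c + 2 * l + τ + 2) ≤
        Real.exp (-2 * c + 4) * ((1 + C) / r) := by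
      have h2 : Real.exp τ ≤ (1 + C) / r := by
        rw [x1]
        exact div_le_div_of_nonneg_right (by linarith) r0.le
      refine le_trans ?_ (mul_le_mul_of_nonneg_left h2 (Real.exp_pos _).le)
      rw [← Real.exp_add]
      exact Real.exp_le_exp.2 (by linarith)
    have h3 := mul_le_mul_of_nonneg_left h1 (show 0 ≤ e1 * 4 by positivity)
    have h4 : e1 * 4 * (Real.exp (-2 * c + 4) * ((1 + C) / r)) =
        r * (48 / 5 * e * Real.exp (-2 * c + 4) * (1 + C)) := by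
      rw [he1]; field_simp; norm_num
    nlinarith

theorem mink {f g : Y → ℂ} (hf : Continuous f) (hg : Continuous g) {a b : ℝ} (ha : 0 < a)
    (hb : 0 < b) (h1 : ∫ x, ‖f x‖ ^ 2 ≤ a ^ 2) (h2 : ∫ x, ‖g x‖ ^ 2 ≤ b ^ 2) :
    ∫ x, ‖f x + g x‖ ^ 2 ≤ (a + b) ^ 2 := by
  have : ∫ x, ‖f x + g x‖ ^ 2 ≤ ∫ x, ((1 + b / a) * ‖f x‖ ^ 2 + (1 + a / b) * ‖g x‖ ^ 2) := by
    refine int_mono (by fun_prop) (by fun_prop) fun x => ?_
    have h3 := pow_le_pow_left₀ (norm_nonneg _) (norm_add_le (f x) (g x)) 2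
    have h4 : (1 + b / a) * ‖f x‖ ^ 2 + (1 + a / b) * ‖g x‖ ^ 2 - (‖f x‖ + ‖g x‖) ^ 2 =
        (b * ‖f x‖ - a * ‖g x‖) ^ 2 / (a * b) := by field_simp; ring
    have h5 : 0 ≤ (b * ‖f x‖ - a * ‖g x‖) ^ 2 / (a * b) := by positivity
    linarith
  rw [int_add (by fun_prop) (by fun_prop), integral_const_mul, integral_const_mul] at this
  have h3 := mul_le_mul_of_nonneg_left h1 (show 0 ≤ 1 + b / a by positivity)
  have h4 := mul_le_mul_of_nonneg_left h2 (show 0 ≤ 1 + a / b by positivity)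
  have h5 : (1 + b / a) * a ^ 2 + (1 + a / b) * b ^ 2 = (a + b) ^ 2 := by field_simp; ring
  linarith

theorem chain {F : ℕ → Y → ℂ} (hF : ∀ k, Continuous (F k)) {G : ℝ} (G0 : 0 < G)
    (h : ∀ k, ∫ x, ‖F (k + 1) x - F k x‖ ^ 2 ≤ (G * (19 / 20) ^ k) ^ 2) {k l : ℕ} (hkl : k ≤ l) :
    ∫ x, ‖F l x - F k x‖ ^ 2 ≤ (21 * G * (19 / 20) ^ k) ^ 2 := by
  have key : ∀ i, ∫ x, ‖F (k + i) x - F k x‖ ^ 2 ≤
      (21 * G * (19 / 20) ^ k - 20 * G * (19 / 20) ^ (k + i)) ^ 2 := by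
    intro i
    induction i with
    | zero => simp; positivity
    | succ i ih =>
      have h1 : (19 / 20 : ℝ) ^ (k + i) ≤ (19 / 20) ^ k :=
        pow_le_pow_of_le_one (by norm_num) (by norm_num) (by omega)
      have h2 : (0 : ℝ) < (19 / 20) ^ k := by positivity
      have := mink ((hF _).sub (hF _)) ((hF _).sub (hF _)) (by nlinarith) (by positivity) ih (h (k + i))
      convert this using 2
      · funext x; congr 2; simp only [Pi.sub_apply, ← add_assoc]; ring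
      · rw [← add_assoc, pow_succ]; ring
  obtain ⟨i, rfl⟩ := Nat.exists_eq_add_of_le hkl
  refine (key i).trans (pow_le_pow_left₀ ?_ ?_ 2)
  · have h1 : (19 / 20 : ℝ) ^ (k + i) ≤ (19 / 20) ^ k :=
      pow_le_pow_of_le_one (by norm_num) (by norm_num) (by omega)
    have h2 : (0 : ℝ) < (19 / 20) ^ k := by positivity
    nlinarith
  · have : (0 : ℝ) < 20 * G * (19 / 20) ^ (k + i) := by positivity
    linarith

theorem core {s : St} {b e c l : ℝ} (hs : Good s b e c l (1 / 4)) {P : Y → ℂ} (hP : P ∈ TQ NN)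
    {B a : ℝ} (hB : ∀ x, ‖P x‖ ≤ B) (ha : 0 < a)
    (h : ∫ x, ‖P x * exp (s.u x) - 1‖ ^ 2 ≤ a ^ 2) : ‖cf P 0‖ ≤ (a + 1) / 2 + B * (b * e) := by
  have ψU := hs.ψU
  obtain ⟨ψ, u, E⟩ := s
  obtain ⟨ψT, uT, Ecl, b0, hb, he, hc, hZ⟩ := hs
  simp only at *
  have kψ := re_cont ψU
  have ku := TQ_cont uT
  have kP := TQ_cont hP
  have B0 : 0 ≤ B := (norm_nonneg _).trans (hB 0)
  have mE := Ecl.measurableSet
  have e1 : cf P 0 = ∫ x, P x * ψ x := by
    have h1 := cf_zero (TQ_mul (U := {0}ᶜ) (fun i hi j hj h0 => by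
      have h0' : i + j = 0 := h0
      have h2 := congrArg Prod.fst h0'
      have h3 := congrArg Prod.snd h0'
      simp only [NN, MX, mem_ofPred_eq, Prod.fst_add, Prod.snd_add, Prod.fst_zero,
        Prod.snd_zero] at *
      omega) hP ψT) (j := 0) (by simp)
    simp only [cf0, mul_sub, mul_one] at h1 ⊢
    rw [int_sub (by fun_prop) kP] at h1
    linear_combination -h1
  have e2 : ∫ x, ‖P x * exp (u x)‖ ^ 2 ≤ (a + 1) ^ 2 := by
    have := mink (f := fun x => P x * exp (u x) - 1) (g := fun _ => 1) (by fun_prop) (by fun_prop)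
      ha one_pos h (by simp)
    simpa only [sub_add_cancel] using this
  have kΦ : Continuous fun x => ψ x ^ 2 * Real.exp (-2 * (u x).re) := by fun_prop
  have := le4 (u := fun x => ‖P x * ψ x‖) (fun x => norm_nonneg _)
    ((ind_intg mE).const_mul (B * b))
    (intg (g := fun x => 1 / (4 * (a + 1)) * ‖P x * exp (u x)‖ ^ 2) (by fun_prop))
    (((intg kΦ).indicator mE.compl).const_mul (a + 1)) (integrable_const 0) fun x => by
      have h1 := mul_nonneg (mul_nonneg B0 b0) (ind_nonneg E x)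
      have h2 : 0 ≤ 1 / (4 * (a + 1)) * ‖P x * exp (u x)‖ ^ 2 := by positivity
      rw [norm_mul, Complex.norm_real, Real.norm_eq_abs]
      by_cases hx : x ∈ E
      · rw [ind_mem hx, indicator_of_notMem (s := Eᶜ) (fun h => h hx)]
        have := mul_le_mul (hB x) (hb x hx) (abs_nonneg _) B0
        linarith
      · rw [indicator_of_mem (s := Eᶜ) hx, norm_mul, Complex.norm_exp]
        have h3 : Real.exp (-2 * (u x).re) = (Real.exp (u x).re ^ 2)⁻¹ := by
          rw [← Real.exp_nat_mul, ← Real.exp_neg]; norm_num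
        rw [h3, ← sq_abs (ψ x)]
        have h4 := Real.exp_pos (u x).re
        set R := Real.exp (u x).re
        have h5 : 1 / (4 * (a + 1)) * (‖P x‖ * R) ^ 2 + (a + 1) * (|ψ x| ^ 2 * (R ^ 2)⁻¹) -
            ‖P x‖ * |ψ x| = (‖P x‖ * R ^ 2 - 2 * (a + 1) * |ψ x|) ^ 2 / (4 * (a + 1) * R ^ 2) := by
          field_simp; ring
        have h6 : 0 ≤ (‖P x‖ * R ^ 2 - 2 * (a + 1) * |ψ x|) ^ 2 / (4 * (a + 1) * R ^ 2) := by
          positivity
        linarith
  rw [integral_const_mul, integral_const_mul, integral_const_mul, int_ind mE] at this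
  simp only [integral_const, probReal_univ, smul_eq_mul, one_mul] at this
  have h1 := mul_le_mul_of_nonneg_left he (mul_nonneg B0 b0)
  have h2 := mul_le_mul_of_nonneg_left e2 (show 0 ≤ 1 / (4 * (a + 1)) by positivity)
  have h3 := mul_le_mul_of_nonneg_left hZ (show 0 ≤ a + 1 by positivity)
  have h4 : 1 / (4 * (a + 1)) * (a + 1) ^ 2 = (a + 1) / 4 := by field_simp
  rw [e1]
  refine (norm_integral_le_integral_norm _).trans ?_
  linarith

theorem constr : ∃ (u : ℕ → Y → ℂ) (G : ℝ), 0 < G ∧ (∀ k, u k ∈ TQ SP) ∧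
    (∀ k l, k ≤ l → ∫ x, ‖exp (u l x) - exp (u k x)‖ ^ 2 ≤ (G * (19 / 20) ^ k) ^ 2) ∧
    (∀ l, ∫ x, ‖exp (u l x)‖ ^ 2 ≤ G ^ 2) ∧ (∀ l, ∫ x, ‖exp (-u l x)‖ ^ 2 ≤ G ^ 2) ∧
    ∀ P ∈ TQ NN, ∀ ε : ℝ, 0 < ε → ∀ᶠ l in atTop, ∀ a, 0 < a →
      ∫ x, ‖P x * exp (u l x) - 1‖ ^ 2 ≤ a ^ 2 → ‖cf P 0‖ ≤ (a + 1) / 2 + ε := by
  let Q : ℕ → St → Prop := fun k s => ∃ b e c, 0 < b ∧ 0 < e ∧ b * e ≤ (84 / 100) ^ k ∧
    Good s b e c (1 - 1 / 2 ^ k) (1 / 4 * (1 - (9 / 10) ^ k))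
  obtain ⟨G, G0, hG⟩ : ∃ G : ℝ, 0 < G ∧ G ^ 2 = 37 * Real.exp 7 * 40 :=
    ⟨_, Real.sqrt_pos.2 (by positivity), Real.sq_sqrt (by positivity)⟩
  let s0 : St := ⟨fun _ => 1, fun _ => 0, univ⟩
  have h0 : Q 0 s0 := ⟨1, 1, 0, one_pos, one_pos, by norm_num,
    ⟨by simpa [s0] using TQ_zero MX, TQ_zero _, isClosed_univ, zero_le_one, by simp [s0],
      by simp [s0], by simp [s0], by simp [s0]⟩⟩
  have hs : ∀ k s, Q k s → ∃ s', Q (k + 1) s' ∧
      ∫ x, ‖exp (s'.u x) - exp (s.u x)‖ ^ 2 ≤ (G * (19 / 20) ^ k) ^ 2 ∧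
      ∫ x, ‖exp (-s'.u x) - exp (-s.u x)‖ ^ 2 ≤ (G * (19 / 20) ^ k) ^ 2 := by
    rintro k s ⟨b, e, c, b0, e0, hbe, g⟩
    obtain ⟨s', b', e', c', b'0, e'0, h1, g', k1, k2⟩ := stage g b0 e0
      (by have : (0 : ℝ) < 1 / 2 ^ k := by positivity
          linarith) (σ := (9 / 10) ^ k / 40) (lam := 1 / 2 ^ (k + 1)) (by positivity) (by positivity)
    have h2 : 37 * Real.exp 7 * ((b * e) ^ 2 / ((9 / 10) ^ k / 40)) ≤ (G * (19 / 20) ^ k) ^ 2 := by
      rw [mul_pow G, hG, mul_assoc (37 * Real.exp 7)]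
      refine mul_le_mul_of_nonneg_left ?_ (by positivity)
      rw [div_le_iff₀ (by positivity)]
      refine (pow_le_pow_left₀ (by positivity) hbe 2).trans ?_
      rw [← pow_mul, ← pow_mul, mul_comm k 2, pow_mul, pow_mul,
        show ∀ x y : ℝ, 40 * x * (y / 40) = x * y from fun x y => by ring, ← mul_pow]
      exact pow_le_pow_left₀ (by norm_num) (by norm_num) k
    refine ⟨s', ⟨b', e', c', b'0, e'0, by rw [pow_succ]; linarith,
      g'.mono le_rfl le_rfl (le_of_eq ?_) (le_of_eq ?_)⟩, k1.trans h2, k2.trans h2⟩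
    · rw [pow_succ]; field_simp; ring
    · rw [pow_succ]; ring
  choose f hf using hs
  let s : (k : ℕ) → {t // Q k t} := fun k => Nat.rec (motive := fun k => {t // Q k t}) ⟨s0, h0⟩
    (fun k t => ⟨f k t.1 t.2, (hf k t.1 t.2).1⟩) k
  have uT : ∀ k, (s k).1.u ∈ TQ SP := fun k => by
    obtain ⟨b, e, c, -, -, -, g⟩ := (s k).2
    exact g.uT
  have ku : ∀ k, Continuous (s k).1.u := fun k => TQ_cont (uT k)
  have c1 := fun k l (h : k ≤ l) => chain (F := fun k x => exp ((s k).1.u x))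
    (fun k => by have := ku k; fun_prop) G0 (fun k => (hf k (s k).1 (s k).2).2.1) h
  have c2 := fun k l (h : k ≤ l) => chain (F := fun k x => exp (-(s k).1.u x))
    (fun k => by have := ku k; fun_prop) G0 (fun k => (hf k (s k).1 (s k).2).2.2) h
  have u0 : ∀ x, (s 0).1.u x = 0 := fun _ => rfl
  refine ⟨fun k => (s k).1.u, 21 * G + 1, by positivity, uT, fun k l h => (c1 k l h).trans ?_,
    fun l => ?_, fun l => ?_, fun P hP ε hε => ?_⟩
  · gcongr; linarith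
  · have h1 := c1 0 l (Nat.zero_le _)
    have := ku l
    simp only [u0, Complex.exp_zero, pow_zero, mul_one] at h1
    have := mink (g := fun _ => 1) (by fun_prop) (by fun_prop) (by positivity) one_pos h1 (by simp)
    simpa only [sub_add_cancel] using this
  · have h1 := c2 0 l (Nat.zero_le _)
    have := ku l
    simp only [u0, neg_zero, Complex.exp_zero, pow_zero, mul_one] at h1
    have := mink (g := fun _ => 1) (by fun_prop) (by fun_prop) (by positivity) one_pos h1 (by simp)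
    simpa only [sub_add_cancel] using this
  · have kP := TQ_cont hP
    obtain ⟨B, B0, hB⟩ := bdd (g := fun x => ‖P x‖) (by fun_prop)
    have ht : Tendsto (fun l : ℕ => B * (84 / 100 : ℝ) ^ l) atTop (𝓝 (B * 0)) :=
      (tendsto_pow_atTop_nhds_zero_of_lt_one (by norm_num) (by norm_num)).const_mul B
    rw [mul_zero] at ht
    filter_upwards [ht.eventually (eventually_le_nhds hε)] with l hl a ha h
    obtain ⟨b, e, c, -, -, hbe, g⟩ := (s l).2
    have := core (g.mono le_rfl le_rfl le_rfl (by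
      have : (0 : ℝ) < (9 / 10) ^ l := by positivity
      linarith)) hP (fun x => (le_abs_self _).trans (hB x)) ha h
    have := mul_le_mul_of_nonneg_left hbe B0
    linarith

end Pool.Agent.H41.Bd
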