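import Pool.Agent.H41.Bd4

set_option autoImplicit false
open MeasureTheory Complex Set Filter Topology
open scoped ComplexConjugate

namespace Pool.Agent.H41.Bd
open Pool.Agent.H41.Db

def AN (f : Y → ℂ) : Prop :=
  Continuous f ∧ ∀ ε : ℝ, 0 < ε → ∃ g ∈ TQ NN, ∀ x, ‖f x - g x‖ ≤ ε

noncomputable def co (f : Y → ℂ) (m n : ℕ) : ℂ := cf f ((m : ℤ), (n : ℤ))

noncomputable def conv (a b : ℕ → ℕ → ℂ) (m n : ℕ) : ℂ :=
  ∑ i ∈ Finset.range (m + 1), ∑ j ∈ Finset.range (n + 1), a i j * b (m - i) (n - j)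

theorem SP_NN : SP ⊆ NN := fun _ h => ⟨h.1.le, h.2.le⟩
theorem zero_NN : (0 : ℤ × ℤ) ∈ NN := ⟨le_rfl, le_rfl⟩
theorem NN_add : ∀ s ∈ NN, ∀ t ∈ NN, s + t ∈ NN :=
  fun _ hs _ ht => ⟨add_nonneg hs.1 ht.1, add_nonneg hs.2 ht.2⟩

theorem exp_apx {u : Y → ℂ} (hu : u ∈ TQ SP) {ε : ℝ} (hε : 0 < ε) :
    ∃ g ∈ TQ SP, ∀ x, ‖exp (u x) - 1 - g x‖ ≤ ε := by
  have ku := TQ_cont hu
  obtain ⟨B, B0, hB⟩ := bdd (g := fun x => ‖u x‖) (by fun_prop)
  replace hB : ∀ x, ‖u x‖ ≤ B := fun x => (le_abs_self _).trans (hB x)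
  have hp : ∀ m : ℕ, (fun x => u x ^ (m + 1)) ∈ TQ SP := by
    intro m
    induction m with
    | zero => simpa using hu
    | succ m ih =>
      simp only [pow_succ _ (m + 1)]
      exact TQ_mul (S := SP) (T := SP) (U := SP)
        (fun _ hs _ ht => ⟨add_pos hs.1 ht.1, add_pos hs.2 ht.2⟩) ih hu
  have h1 := (FloorSemiring.tendsto_pow_div_factorial_atTop B).eventually
    (eventually_le_nhds (show (0 : ℝ) < ε / 2 by positivity))
  obtain ⟨n, ⟨h2, h3⟩, h4⟩ := ((h1.and (tendsto_natCast_atTop_atTop.eventually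
    (eventually_ge_atTop (2 * B)))).and (eventually_ge_atTop 1)).exists
  obtain ⟨n, rfl⟩ := Nat.exists_eq_add_of_le' h4
  refine ⟨fun x => ∑ m ∈ Finset.range n, (((m + 1).factorial : ℂ))⁻¹ * u x ^ (m + 1),
    TQ_sum _ fun m _ => TQ_cmul _ (hp m), fun x => ?_⟩
  have h5 := Complex.exp_bound' (x := u x) (n := n + 1) (by
    rw [div_le_iff₀ (by positivity)]
    push_cast at h3 ⊢
    linarith [hB x])
  rw [Finset.sum_range_succ'] at h5
  have h6 : ‖u x‖ ^ (n + 1) / (n + 1).factorial ≤ B ^ (n + 1) / (n + 1).factorial := by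
    gcongr; exact hB x
  refine le_trans (le_of_eq ?_) (h5.trans (by linarith))
  congr 1
  simp only [div_eq_inv_mul]
  simp
  ring

theorem AN_exp {u : Y → ℂ} (hu : u ∈ TQ SP) : AN fun x => exp (u x) := by
  have ku := TQ_cont hu
  refine ⟨by fun_prop, fun ε hε => ?_⟩
  obtain ⟨g, hg, h⟩ := exp_apx hu hε
  exact ⟨_, TQ_add (TQ_const zero_NN 1) (TQ_mono SP_NN hg), fun x => by
    simpa only [sub_sub] using h x⟩

theorem norm_cf_le' {f : Y → ℂ} {ε : ℝ} (h : ∀ x, ‖f x‖ ≤ ε) (j : ℤ × ℤ) : ‖cf f j‖ ≤ ε := by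
  have := norm_integral_le_of_norm_le_const (μ := (volume : Measure Y))
    (f := fun x => f x * e2 (-j) x) (C := ε)
    (Eventually.of_forall fun x => by rw [norm_mul, norm_e2, mul_one]; exact h x)
  simpa [cf] using this

theorem cf_exp {u : Y → ℂ} (hu : u ∈ TQ SP) : cf (fun x => exp (u x)) 0 = 1 := by
  have ku := TQ_cont hu
  rw [← sub_eq_zero, ← norm_le_zero_iff]
  refine le_of_forall_pos_le_add fun ε hε => ?_
  obtain ⟨g, hg, h⟩ := exp_apx hu hε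
  have kg := TQ_cont hg
  have := norm_cf_le' h 0
  rw [cf_sub (by fun_prop) kg, cf_sub (by fun_prop) (by fun_prop), cf_one,
    cf_zero hg (by simp [SP])] at this
  simpa using this

theorem AN.cf_zero {f : Y → ℂ} (hf : AN f) {j : ℤ × ℤ} (hj : j ∉ NN) : cf f j = 0 := by
  rw [← norm_le_zero_iff]
  refine le_of_forall_pos_le_add fun ε hε => ?_
  obtain ⟨g, hg, h⟩ := hf.2 ε hε
  have := norm_cf_le' h j
  rw [cf_sub hf.1 (TQ_cont hg), Bd.cf_zero hg hj] at this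
  simpa using this

theorem AN.mul_sub {f P : Y → ℂ} (hf : AN f) (hP : P ∈ TQ NN) : AN fun x => P x * f x - 1 := by
  have kP := TQ_cont hP
  have kf := hf.1
  refine ⟨by fun_prop, fun ε hε => ?_⟩
  obtain ⟨B, B0, hB⟩ := bdd (g := fun x => ‖P x‖) (by fun_prop)
  obtain ⟨δ, δ1, δ0⟩ := ((small ε B hε).and self_mem_nhdsWithin).exists
  replace δ0 : 0 < δ := δ0
  obtain ⟨g, hg, h⟩ := hf.2 δ δ0
  refine ⟨_, TQ_sub (TQ_mul NN_add hP hg) (TQ_const zero_NN 1), fun x => ?_⟩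
  rw [sub_sub_sub_cancel_right, ← _root_.mul_sub, norm_mul]
  have := mul_le_mul ((le_abs_self _).trans (hB x)) (h x) (norm_nonneg _) B0
  linarith

theorem co_mul_TQ {f g : Y → ℂ} (hf : f ∈ TQ NN) (hg : AN g) (m n : ℕ) :
    co (fun x => f x * g x) m n = conv (co f) (co g) m n := by
  have kg := hg.1
  refine TQ_ind (p := fun f => co (fun x => f x * g x) m n = conv (co f) (co g) m n)
    ?_ ?_ ?_ ?_ hf
  · rintro ⟨i, j⟩ ⟨hi, hj⟩
    obtain ⟨i, rfl⟩ := Int.eq_ofNat_of_zero_le hi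
    obtain ⟨j, rfl⟩ := Int.eq_ofNat_of_zero_le hj
    simp only [co, conv, cf_e2_mul, cf_e2, Prod.mk.injEq, Nat.cast_inj, ite_and, ite_mul, one_mul,
      zero_mul, Finset.sum_ite_irrel, Finset.sum_const_zero, Finset.sum_ite_eq, Finset.mem_range]
    split_ifs with h1 h2
    · congr 1
      rw [Nat.cast_sub (by omega), Nat.cast_sub (by omega)]; rfl
    · exact hg.cf_zero (by simp only [NN, mem_ofPred_eq, Prod.fst_sub, Prod.snd_sub]; omega)
    · exact hg.cf_zero (by simp only [NN, mem_ofPred_eq, Prod.fst_sub, Prod.snd_sub]; omega)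
  · simp [co, conv, cf]
  · intro f f' hf hf' h1 h2
    have k1 := TQ_cont hf
    have k2 := TQ_cont hf'
    simp only [co, conv, add_mul, cf_add k1 k2, Finset.sum_add_distrib] at *
    rw [cf_add (by fun_prop) (by fun_prop), h1, h2]
  · intro c f _ h1
    simp only [co, conv, mul_assoc, cf_cmul, ← Finset.mul_sum] at *
    rw [h1]

theorem half_pow (c : ℝ) : Tendsto (fun k : ℕ => c / 2 ^ k) atTop (𝓝 0) :=
  tendsto_const_nhds.div_atTop (tendsto_pow_atTop_atTop_of_one_lt (by norm_num))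

theorem conv_lim {ι : Type*} {L : Filter ι} {A B : ι → ℕ → ℕ → ℂ} {a b : ℕ → ℕ → ℂ}
    (h1 : ∀ m n, Tendsto (fun l => A l m n) L (𝓝 (a m n)))
    (h2 : ∀ m n, Tendsto (fun l => B l m n) L (𝓝 (b m n))) (m n : ℕ) :
    Tendsto (fun l => conv (A l) (B l) m n) L (𝓝 (conv a b m n)) :=
  tendsto_finsetSum _ fun _ _ => tendsto_finsetSum _ fun _ _ => (h1 _ _).mul (h2 _ _)

theorem co_mul {f g : Y → ℂ} (hf : AN f) (hg : AN g) (m n : ℕ) :
    co (fun x => f x * g x) m n = conv (co f) (co g) m n := by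
  have kf := hf.1
  have kg := hg.1
  choose q hq hq' using fun k : ℕ => hf.2 (1 / 2 ^ k) (by positivity)
  have lim : ∀ h : Y → ℂ, Continuous h → ∀ m n,
      Tendsto (fun k => co (fun x => q k x * h x) m n) atTop (𝓝 (co (fun x => f x * h x) m n)) := by
    intro h kh m n
    obtain ⟨B, B0, hB⟩ := bdd (g := fun x => ‖h x‖) (by fun_prop)
    rw [tendsto_iff_norm_sub_tendsto_zero]
    refine squeeze_zero (fun _ => norm_nonneg _) (fun k => ?_) (half_pow B)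
    have := TQ_cont (hq k)
    rw [norm_sub_rev, co, co, ← cf_sub (by fun_prop) (by fun_prop)]
    refine norm_cf_le' (fun x => ?_) _
    rw [← sub_mul, norm_mul, div_eq_mul_one_div, mul_comm B]
    exact mul_le_mul (hq' k x) ((le_abs_self _).trans (hB x)) (norm_nonneg _) (by positivity)
  have l1 := lim g kg m n
  have l2 := lim (fun _ => 1) (by fun_prop)
  simp only [mul_one] at l2
  have l3 := conv_lim (A := fun k => co (q k)) (B := fun _ => co g) (a := co f) (b := co g) l2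
    (fun _ _ => tendsto_const_nhds) m n
  exact tendsto_nhds_unique (l1.congr fun k => co_mul_TQ (hq k) hg m n) l3

theorem one_step {h : Y → ℂ} (kh : Continuous h) (c : ℂ) (j : ℤ × ℤ) :
    ∫ x, ‖h x - c * e2 j x‖ ^ 2 = (∫ x, ‖h x‖ ^ 2) + ‖c - cf h j‖ ^ 2 - ‖cf h j‖ ^ 2 := by
  have e1 : ∀ x, ‖h x - c * e2 j x‖ ^ 2 =
      (‖h x‖ ^ 2 + ‖c‖ ^ 2) - 2 * (conj c * (h x * e2 (-j) x)).re := by
    intro x
    have h1 : ‖c * e2 j x‖ = ‖c‖ := by rw [norm_mul, norm_e2, mul_one]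
    rw [← h1, e2_neg]
    simp only [Complex.sq_norm, Complex.normSq_sub, map_mul]
    congr 3; ring
  simp only [e1]
  rw [int_sub (by fun_prop) (by fun_prop), int_add (by fun_prop) (by fun_prop), integral_const_mul]
  have e2' : ∫ x, (conj c * (h x * e2 (-j) x)).re = (conj c * cf h j).re := by
    rw [cf, ← integral_const_mul]
    exact integral_re (𝕜 := ℂ) (intg (g := fun x => conj c * (h x * e2 (-j) x)) (by fun_prop))
  rw [e2']
  simp only [integral_const, probReal_univ, smul_eq_mul, one_mul, Complex.sq_norm,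
    Complex.normSq_sub]
  have : (c * conj (cf h j)).re = (conj c * cf h j).re := by simp
  rw [this]; ring

noncomputable def pol (F : Finset (ℕ × ℕ)) (c : ℕ × ℕ → ℂ) (x : Y) : ℂ :=
  ∑ p ∈ F, c p * e2 ((p.1 : ℤ), (p.2 : ℤ)) x

theorem pol_mem (F : Finset (ℕ × ℕ)) (c : ℕ × ℕ → ℂ) : pol F c ∈ TQ NN :=
  TQ_sum F fun p _ => TQ_cmul _ (e2_mem ⟨Int.natCast_nonneg p.1, Int.natCast_nonneg p.2⟩)

theorem co_pol (F : Finset (ℕ × ℕ)) (c : ℕ × ℕ → ℂ) (m n : ℕ) :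
    co (pol F c) m n = if (m, n) ∈ F then c (m, n) else 0 := by
  classical
  induction F using Finset.induction_on with
  | empty => simp [co, cf, pol]
  | insert p F hp ih =>
    have : pol (insert p F) c = fun x => c p * e2 ((p.1 : ℤ), (p.2 : ℤ)) x + pol F c x := by
      funext x; simp [pol, Finset.sum_insert hp]
    rw [this, co, cf_add (by fun_prop) (TQ_cont (pol_mem F c)), cf_cmul, cf_e2, ← co, ih]
    by_cases h : p = (m, n)
    · subst h; simp [hp]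
    · have h' : ¬ ((p.1 : ℤ), (p.2 : ℤ)) = ((m : ℤ), (n : ℤ)) := fun h'' => h (by
        simp only [Prod.mk.injEq, Nat.cast_inj] at h''; exact Prod.ext h''.1 h''.2)
      simp [h', Ne.symm h]

theorem pol_rep {q : Y → ℂ} (hq : q ∈ TQ NN) : ∃ F c, q = pol F c := by
  have : e2 '' NN = range fun p : ℕ × ℕ => e2 ((p.1 : ℤ), (p.2 : ℤ)) := by
    ext f; constructor
    · rintro ⟨⟨i, j⟩, ⟨hi, hj⟩, rfl⟩
      obtain ⟨i, rfl⟩ := Int.eq_ofNat_of_zero_le hi
      obtain ⟨j, rfl⟩ := Int.eq_ofNat_of_zero_le hj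
      exact ⟨(i, j), rfl⟩
    · rintro ⟨p, rfl⟩
      exact ⟨_, ⟨Int.natCast_nonneg p.1, Int.natCast_nonneg p.2⟩, rfl⟩
  rw [TQ, this, Finsupp.mem_span_range_iff_exists_finsupp] at hq
  obtain ⟨c, rfl⟩ := hq
  exact ⟨c.support, c, by funext x; simp [pol, Finsupp.sum]⟩

theorem pyth {g : Y → ℂ} (kg : Continuous g) (F : Finset (ℕ × ℕ)) (c : ℕ × ℕ → ℂ) :
    ∫ x, ‖g x - pol F c x‖ ^ 2 = (∫ x, ‖g x‖ ^ 2) + ∑ p ∈ F, ‖c p - co g p.1 p.2‖ ^ 2 -
      ∑ p ∈ F, ‖co g p.1 p.2‖ ^ 2 := by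
  classical
  induction F using Finset.induction_on with
  | empty => simp [pol]
  | insert p F hp ih =>
    have kF := TQ_cont (pol_mem F c)
    have : ∀ x, g x - pol (insert p F) c x =
        (g x - pol F c x) - c p * e2 ((p.1 : ℤ), (p.2 : ℤ)) x := by
      intro x; simp only [pol, Finset.sum_insert hp]; ring
    simp only [this]
    rw [one_step (by fun_prop), ih, cf_sub kg kF, ← co, ← co, co_pol, if_neg hp,
      Finset.sum_insert hp, Finset.sum_insert hp, sub_zero]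
    ring

theorem bessel {g : Y → ℂ} (kg : Continuous g) (F : Finset (ℕ × ℕ)) :
    ∑ p ∈ F, ‖co g p.1 p.2‖ ^ 2 ≤ ∫ x, ‖g x‖ ^ 2 := by
  have := pyth kg F fun p => co g p.1 p.2
  have h : 0 ≤ ∫ x, ‖g x - pol F (fun p => co g p.1 p.2) x‖ ^ 2 :=
    integral_nonneg fun x => by positivity
  simp at this
  linarith

theorem parseval {g : Y → ℂ} (hg : AN g) {ε : ℝ} (hε : 0 < ε) :
    ∃ F : Finset (ℕ × ℕ), ∫ x, ‖g x‖ ^ 2 ≤ ∑ p ∈ F, ‖co g p.1 p.2‖ ^ 2 + ε := by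
  obtain ⟨q, hq, h⟩ := hg.2 _ (Real.sqrt_pos.2 hε)
  obtain ⟨F, c, rfl⟩ := pol_rep hq
  refine ⟨F, ?_⟩
  have h1 := pyth hg.1 F c
  have h2 : 0 ≤ ∑ p ∈ F, ‖c p - co g p.1 p.2‖ ^ 2 := by positivity
  have h3 := abs_int_le (f := fun x => ‖g x - pol F c x‖ ^ 2) (c := ε) fun x => by
    rw [abs_of_nonneg (by positivity), ← Real.sq_sqrt hε.le]
    exact pow_le_pow_left₀ (norm_nonneg _) (h x) 2
  have := (abs_le.1 h3).2
  linarith

theorem ulim {F : ℕ → Y → ℂ} (kF : ∀ l, Continuous (F l)) {M : ℝ}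
    (h : ∀ l, ∫ x, ‖F l x‖ ^ 2 ≤ M) :
    ∃ a : ℕ → ℕ → ℂ, ∀ m n, Tendsto (fun l => co (F l) m n) (hyperfilter ℕ) (𝓝 (a m n)) := by
  have : ∀ m n, ∃ a, Tendsto (fun l => co (F l) m n) (hyperfilter ℕ) (𝓝 a) := by
    intro m n
    obtain ⟨a, -, ha⟩ := (isCompact_closedBall (0 : ℂ) (√M)).ultrafilter_le_nhds
      ((hyperfilter ℕ).map fun l => co (F l) m n) (by
        rw [le_principal_iff, Ultrafilter.coe_map, mem_map]
        refine univ_mem' fun l => ?_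
        have := (bessel (kF l) {(m, n)}).trans (h l)
        simpa using Real.le_sqrt_of_sq_le (by simpa using this))
    exact ⟨a, ha⟩
  choose a ha using this
  exact ⟨a, ha⟩

theorem fatou2 {D : ℕ → Y → ℂ} (kD : ∀ l, Continuous (D l)) {d : ℕ → ℕ → ℂ} {M : ℝ}
    (h1 : ∀ m n, Tendsto (fun l => co (D l) m n) (hyperfilter ℕ) (𝓝 (d m n)))
    (h2 : ∀ᶠ l in atTop, ∫ x, ‖D l x‖ ^ 2 ≤ M) (F : Finset (ℕ × ℕ)) :
    ∑ p ∈ F, ‖d p.1 p.2‖ ^ 2 ≤ M :=
  le_of_tendsto (tendsto_finsetSum F fun p _ => ((h1 p.1 p.2).norm.pow 2))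
    ((h2.filter_mono Nat.hyperfilter_le_atTop).mono fun l hl => (bessel (kD l) F).trans hl)

end Pool.Agent.H41.Bd
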