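import Pool.Agent.H41.Bd5

set_option autoImplicit false
open MeasureTheory Complex Set Filter Topology
open scoped ComplexConjugate

namespace Pool.Agent.H41.Bd
open Pool.Agent.H41.Db

noncomputable def dl (m n : ℕ) : ℂ := if m = 0 ∧ n = 0 then 1 else 0

theorem co_one (m n : ℕ) : co (fun _ => 1) m n = dl m n := by
  simp [co, cf_one, dl]

theorem co_D {f P : Y → ℂ} (hf : AN f) (hP : P ∈ TQ NN) (m n : ℕ) :
    co (fun x => P x * f x - 1) m n = conv (co P) (co f) m n - dl m n := by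
  have := TQ_cont hP
  have := hf.1
  rw [← co_mul_TQ hP hf, ← co_one, co, cf_sub (by fun_prop) (by fun_prop)]; rfl

theorem int_mul_le {P g : Y → ℂ} (kP : Continuous P) (kg : Continuous g) {B : ℝ}
    (hB : ∀ x, ‖P x‖ ≤ B) : ∫ x, ‖P x * g x‖ ^ 2 ≤ B ^ 2 * ∫ x, ‖g x‖ ^ 2 := by
  rw [← integral_const_mul]
  refine int_mono (by fun_prop) (by fun_prop) fun x => ?_
  rw [norm_mul, mul_pow]
  exact mul_le_mul_of_nonneg_right (pow_le_pow_left₀ (norm_nonneg _) (hB x) 2) (by positivity)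

theorem geo_small (c : ℝ) {ε : ℝ} (hε : 0 < ε) : ∀ᶠ k : ℕ in atTop, c * (19 / 20) ^ k ≤ ε := by
  have ht : Tendsto (fun l : ℕ => c * (19 / 20 : ℝ) ^ l) atTop (𝓝 (c * 0)) :=
    (tendsto_pow_atTop_nhds_zero_of_lt_one (by norm_num) (by norm_num)).const_mul c
  rw [mul_zero] at ht
  exact ht.eventually (eventually_le_nhds hε)

theorem noncyc {u : ℕ → Y → ℂ} {G : ℝ} (G0 : 0 < G) (uT : ∀ k, u k ∈ TQ SP)
    (hC : ∀ k l, k ≤ l → ∫ x, ‖exp (u l x) - exp (u k x)‖ ^ 2 ≤ (G * (19 / 20) ^ k) ^ 2)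
    (hcore : ∀ P ∈ TQ NN, ∀ ε : ℝ, 0 < ε → ∀ᶠ l in atTop, ∀ a, 0 < a →
      ∫ x, ‖P x * exp (u l x) - 1‖ ^ 2 ≤ a ^ 2 → ‖cf P 0‖ ≤ (a + 1) / 2 + ε)
    {a : ℕ → ℕ → ℂ}
    (ha : ∀ m n, Tendsto (fun l => co (fun x => exp (u l x)) m n) (hyperfilter ℕ) (𝓝 (a m n)))
    {P : Y → ℂ} (hP : P ∈ TQ NN) :
    1 / 100 ≤ ∑' p : ℕ × ℕ, ‖conv (co P) a p.1 p.2 - dl p.1 p.2‖ ^ 2 := by
  have ku : ∀ k, Continuous (u k) := fun k => TQ_cont (uT k)
  have kP := TQ_cont hP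
  obtain ⟨B, B0, hB⟩ := bdd (g := fun x => ‖P x‖) (by fun_prop)
  replace hB : ∀ x, ‖P x‖ ≤ B := fun x => (le_abs_self _).trans (hB x)
  set d : ℕ → ℕ → ℂ := fun m n => conv (co P) a m n - dl m n with hd
  set D : ℕ → Y → ℂ := fun l x => P x * exp (u l x) - 1 with hD
  have DA : ∀ l, AN (D l) := fun l => (AN_exp (uT l)).mul_sub hP
  have h1 : ∀ m n, Tendsto (fun l => co (D l) m n) (hyperfilter ℕ) (𝓝 (d m n)) := by
    intro m n
    have := (conv_lim (A := fun _ => co P) (B := fun l => co fun x => exp (u l x))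
      (a := co P) (b := a) (fun _ _ => tendsto_const_nhds) ha m n).sub_const (dl m n)
    exact this.congr fun l => (co_D (AN_exp (uT l)) hP m n).symm
  have h2 : ∀ k (F : Finset (ℕ × ℕ)), ∑ p ∈ F, ‖d p.1 p.2 - co (D k) p.1 p.2‖ ^ 2 ≤
      (B * G * (19 / 20) ^ k) ^ 2 := by
    intro k
    refine fatou2 (D := fun l x => D l x - D k x) (d := fun m n => d m n - co (D k) m n)
      (fun l => (DA l).1.sub (DA k).1) (fun m n => ?_) ?_
    · exact ((h1 m n).sub_const _).congr fun l => (cf_sub (DA l).1 (DA k).1 _).symm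
    · filter_upwards [eventually_ge_atTop k] with l hl
      have := ku l
      have := ku k
      have h3 := int_mul_le (g := fun x => exp (u l x) - exp (u k x)) kP (by fun_prop) hB
      have h4 := mul_le_mul_of_nonneg_left (hC k l hl) (sq_nonneg B)
      simp only [hD, sub_sub_sub_cancel_right, ← mul_sub]
      rw [mul_assoc, mul_pow B]
      linarith
  have tri : ∀ x y : ℂ, ‖x + y‖ ^ 2 ≤ 2 * ‖x‖ ^ 2 + 2 * ‖y‖ ^ 2 := fun x y => by
    have := pow_le_pow_left₀ (norm_nonneg _) (norm_add_le x y) 2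
    nlinarith [sq_nonneg (‖x‖ - ‖y‖)]
  have hs : Summable fun p : ℕ × ℕ => ‖d p.1 p.2‖ ^ 2 := by
    refine summable_of_sum_le (c := 2 * (B * G * (19 / 20) ^ 0) ^ 2 + 2 * ∫ x, ‖D 0 x‖ ^ 2)
      (fun p => by positivity) fun F => ?_
    have h3 := h2 0 F
    have h4 := bessel (DA 0).1 F
    have h5 : ∑ p ∈ F, ‖d p.1 p.2‖ ^ 2 ≤ ∑ p ∈ F, (2 * ‖d p.1 p.2 - co (D 0) p.1 p.2‖ ^ 2 +
        2 * ‖co (D 0) p.1 p.2‖ ^ 2) := Finset.sum_le_sum fun p _ => by
      simpa using tri (d p.1 p.2 - co (D 0) p.1 p.2) (co (D 0) p.1 p.2)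
    rw [Finset.sum_add_distrib, ← Finset.mul_sum, ← Finset.mul_sum] at h5
    linarith
  by_contra hlt
  push Not at hlt
  obtain ⟨k, k1, k2⟩ := ((hcore P hP (1 / 10) (by norm_num)).and
    (geo_small (B * G) (show (0 : ℝ) < 1 / 20 by norm_num))).exists
  obtain ⟨F, hF⟩ := parseval (DA k) (show (0 : ℝ) < 1 / 100 by norm_num)
  have h3 := (h2 k F).trans (pow_le_pow_left₀ (by positivity) k2 2)
  have h4 : ∑ p ∈ F, ‖d p.1 p.2‖ ^ 2 ≤ ∑' p : ℕ × ℕ, ‖d p.1 p.2‖ ^ 2 :=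
    hs.sum_le_tsum F fun p _ => by positivity
  have h5 : ∑ p ∈ F, ‖co (D k) p.1 p.2‖ ^ 2 ≤ ∑ p ∈ F, (2 * ‖d p.1 p.2‖ ^ 2 +
      2 * ‖d p.1 p.2 - co (D k) p.1 p.2‖ ^ 2) := Finset.sum_le_sum fun p _ => by
    have := tri (d p.1 p.2) (co (D k) p.1 p.2 - d p.1 p.2)
    rw [norm_sub_rev (co (D k) p.1 p.2)] at this
    simpa using this
  rw [Finset.sum_add_distrib, ← Finset.mul_sum, ← Finset.mul_sum] at h5
  have h6 : ∫ x, ‖D k x‖ ^ 2 ≤ (1 / 5) ^ 2 := by linarith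
  have h7 := k1 (1 / 5) (by norm_num) h6
  have h8 := (bessel (DA k).1 {(0, 0)}).trans h6
  rw [Finset.sum_singleton, co_D (AN_exp (uT k)) hP] at h8
  have h9 : co (fun x => exp (u k x)) 0 0 = 1 := cf_exp (uT k)
  have h10 : co P 0 0 = cf P 0 := rfl
  simp only [conv, dl, zero_add, Finset.range_one, Finset.sum_singleton, Nat.sub_zero, h9, h10,
    and_self, if_true, mul_one] at h8
  have h11 := abs_le_of_sq_le_sq h8 (by norm_num)
  rw [abs_norm] at h11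
  have h12 := norm_sub_norm_le 1 (cf P 0)
  rw [norm_sub_rev, norm_one] at h12
  linarith

theorem co_box (c : ℕ → ℕ → ℂ) (N : ℕ) (h : ∀ i j : ℕ, N ≤ i ∨ N ≤ j → c i j = 0) :
    ∃ P ∈ TQ NN, co P = c := by
  refine ⟨_, pol_mem (Finset.range N ×ˢ Finset.range N) fun p => c p.1 p.2, ?_⟩
  funext m n
  rw [co_pol]
  split_ifs with h1
  · rfl
  · refine (h m n ?_).symm
    simp only [Finset.mem_product, Finset.mem_range] at h1
    omega

theorem main1 : ∃ a b : ℕ → ℕ → ℂ,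
    Summable (fun p : ℕ × ℕ => ‖a p.1 p.2‖ ^ 2) ∧ Summable (fun p : ℕ × ℕ => ‖b p.1 p.2‖ ^ 2) ∧
    (∀ m n : ℕ, conv a b m n = dl m n) ∧ ∃ ε : ℝ, 0 < ε ∧
      ∀ c : ℕ → ℕ → ℂ, ∀ N : ℕ, (∀ i j : ℕ, N ≤ i ∨ N ≤ j → c i j = 0) →
        ε ≤ ∑' p : ℕ × ℕ, ‖conv c a p.1 p.2 - dl p.1 p.2‖ ^ 2 := by
  obtain ⟨u, G, G0, uT, hC, h1, h2, hcore⟩ := constr
  have uT' : ∀ k, (fun x => -u k x) ∈ TQ SP := fun k => (TQ SP).neg_mem (uT k)
  have k1 := fun l => (AN_exp (uT l)).1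
  have k2 := fun l => (AN_exp (uT' l)).1
  obtain ⟨a, ha⟩ := ulim k1 h1
  obtain ⟨b, hb⟩ := ulim k2 h2
  refine ⟨a, b, summable_of_sum_le (fun p => by positivity)
    (fatou2 k1 ha (Eventually.of_forall h1)), summable_of_sum_le (fun p => by positivity)
    (fatou2 k2 hb (Eventually.of_forall h2)), fun m n => ?_, 1 / 100, by norm_num,
    fun c N h => ?_⟩
  · refine tendsto_nhds_unique (conv_lim ha hb m n) (tendsto_const_nhds.congr fun l => ?_)
    rw [← co_mul (AN_exp (uT l)) (AN_exp (uT' l)), ← co_one]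
    simp [← Complex.exp_add]
  · obtain ⟨P, hP, rfl⟩ := co_box c N h
    exact noncyc G0 uT hC hcore ha hP

theorem l1_le {f g : Y → ℂ} (kf : Continuous f) (kg : Continuous g) {s : ℝ} (hs : 0 < s) :
    ∫ x, ‖f x * g x‖ ≤ (s * (∫ x, ‖f x‖ ^ 2) + s⁻¹ * ∫ x, ‖g x‖ ^ 2) / 2 := by
  rw [← integral_const_mul, ← integral_const_mul, ← int_add (by fun_prop) (by fun_prop),
    ← integral_div]
  refine int_mono (by fun_prop) (by fun_prop) fun x => ?_
  have h1 : (s * ‖f x‖ ^ 2 + s⁻¹ * ‖g x‖ ^ 2) / 2 - ‖f x‖ * ‖g x‖ =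
      (s * ‖f x‖ - ‖g x‖) ^ 2 / (2 * s) := by field_simp; ring
  have h2 : 0 ≤ (s * ‖f x‖ - ‖g x‖) ^ 2 / (2 * s) := by positivity
  rw [norm_mul]; linarith

theorem l1_exp {u : ℕ → Y → ℂ} {G : ℝ} (uT : ∀ k, u k ∈ TQ SP)
    (hC : ∀ k l, k ≤ l → ∫ x, ‖exp (u l x) - exp (u k x)‖ ^ 2 ≤ (G * (19 / 20) ^ k) ^ 2)
    (h2 : ∀ l, ∫ x, ‖exp (-u l x)‖ ^ 2 ≤ G ^ 2) {k l : ℕ} (hkl : k ≤ l) :
    ∫ x, ‖exp (u l x - u k x) - 1‖ ≤ G ^ 2 * (19 / 20) ^ k := by
  have := TQ_cont (uT k)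
  have := TQ_cont (uT l)
  have s0 : (0 : ℝ) < (19 / 20) ^ k := by positivity
  have h3 := l1_le (f := fun x => exp (-u k x)) (g := fun x => exp (u l x) - exp (u k x))
    (by fun_prop) (by fun_prop) s0
  have h4 := mul_le_mul_of_nonneg_left (h2 k) s0.le
  have h5 := mul_le_mul_of_nonneg_left (hC k l hkl) (inv_pos.2 s0).le
  have h6 : ((19 / 20 : ℝ) ^ k)⁻¹ * (G * (19 / 20) ^ k) ^ 2 = (19 / 20) ^ k * G ^ 2 := by
    field_simp
  simp only [mul_sub, ← Complex.exp_add, neg_add_cancel, Complex.exp_zero, neg_add_eq_sub] at h3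
  linarith

theorem main2 : ∃ h a : ℕ → ℕ → ℂ,
    Summable (fun p : ℕ × ℕ => ‖h p.1 p.2‖ ^ 2) ∧ Summable (fun p : ℕ × ℕ => ‖a p.1 p.2‖ ^ 2) ∧
    (∀ m n : ℕ, conv h h m n = a m n) ∧
    (∀ ε : ℝ, 0 < ε → ∃ (F : Finset (ℕ × ℕ)) (c : ℕ → ℕ → ℂ), (∀ m n, (m, n) ∉ F → c m n = 0) ∧
      ∑' p : ℕ × ℕ, ‖conv c h p.1 p.2 - dl p.1 p.2‖ ^ 2 < ε) ∧
    ∀ c : ℕ → ℕ → ℂ, ∀ N : ℕ, (∀ i j : ℕ, N ≤ i ∨ N ≤ j → c i j = 0) →
        1 / 100 ≤ ∑' p : ℕ × ℕ, ‖conv c a p.1 p.2 - dl p.1 p.2‖ ^ 2 := by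
  obtain ⟨u, G, G0, uT, hC, h1, h2, hcore⟩ := constr
  have ku : ∀ k, Continuous (u k) := fun k => TQ_cont (uT k)
  have uT' : ∀ k, (fun x => 1 / 2 * u k x) ∈ TQ SP := fun k => TQ_cmul _ (uT k)
  have k1 := fun l => (AN_exp (uT l)).1
  have k2 := fun l => (AN_exp (uT' l)).1
  have sq : ∀ z : ℂ, ‖exp (1 / 2 * z)‖ ^ 2 = ‖exp z‖ := fun z => by
    rw [← norm_pow, ← Complex.exp_nat_mul]; congr 2; push_cast; ring
  have h3 : ∀ l, ∫ x, ‖exp (1 / 2 * u l x)‖ ^ 2 ≤ (1 + G) ^ 2 := fun l => by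
    have := l1_le (f := fun _ => 1) continuous_const (k1 l) one_pos
    simp only [sq]
    simp only [one_mul, norm_one, one_pow, integral_const, probReal_univ, smul_eq_mul, inv_one] at this
    have := h1 l
    nlinarith
  obtain ⟨a, ha⟩ := ulim k1 h1
  obtain ⟨h, hh⟩ := ulim k2 h3
  refine ⟨h, a, summable_of_sum_le (fun p => by positivity)
    (fatou2 k2 hh (Eventually.of_forall h3)), summable_of_sum_le (fun p => by positivity)
    (fatou2 k1 ha (Eventually.of_forall h1)), fun m n => ?_, fun ε hε => ?_, fun c N hc => ?_⟩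
  · refine tendsto_nhds_unique (conv_lim hh hh m n) ((ha m n).congr fun l => ?_)
    rw [← co_mul (AN_exp (uT' l)) (AN_exp (uT' l))]
    simp only [← Complex.exp_add]
    congr 1; funext x; congr 1; ring
  · obtain ⟨δ, ⟨δ1, δ2⟩, δ0⟩ := (((small (ε / 2) ((1 + G + 1) ^ 2) (by positivity)).and
      (small 1 1 one_pos)).and self_mem_nhdsWithin).exists
    replace δ0 : 0 < δ := δ0
    obtain ⟨k, hk⟩ := (geo_small (G ^ 2) (show 0 < δ ^ 2 by positivity)).exists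
    obtain ⟨P, hP, hP'⟩ := (AN_exp (u := fun x => -(1 / 2 * u k x))
      ((TQ SP).neg_mem (uT' k))).2 δ δ0
    have kP := TQ_cont hP
    obtain ⟨F, c, rfl⟩ := pol_rep hP
    refine ⟨F, co (pol F c), fun m n hmn => by rw [co_pol, if_neg hmn], ?_⟩
    refine lt_of_le_of_lt (Real.tsum_le_of_sum_le (c := (δ * (1 + G) + δ) ^ 2)
      (fun p => by positivity) (fatou2 (D := fun l x => pol F c x * exp (1 / 2 * u l x) - 1)
      (d := fun m n => conv (co (pol F c)) h m n - dl m n)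
      (fun l => by have := k2 l; fun_prop) (fun m n => ?_) ?_)) ?_
    · have := (conv_lim (A := fun _ => co (pol F c)) (B := fun l => co fun x => exp (1 / 2 * u l x))
        (a := co (pol F c)) (b := h) (fun _ _ => tendsto_const_nhds) hh m n).sub_const (dl m n)
      exact this.congr fun l => (co_D (AN_exp (uT' l)) hP m n).symm
    · filter_upwards [eventually_ge_atTop k] with l hl
      have := ku l
      have := ku k
      have h4 := int_mul_le (P := fun x => pol F c x - exp (-(1 / 2 * u k x)))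
        (g := fun x => exp (1 / 2 * u l x)) (by fun_prop) (by fun_prop)
        (fun x => by rw [norm_sub_rev]; exact hP' x)
      have h5 := mul_le_mul_of_nonneg_left (h3 l) (sq_nonneg δ)
      have wT := TQ_cmul (1 / 2) (TQ_sub (uT l) (uT k))
      have h6 := one_step (AN_exp wT).1 1 0
      rw [cf_exp wT] at h6
      simp only [sq, e2_zero, mul_one, sub_self, norm_zero, norm_one] at h6
      have h7 : ∫ x, ‖exp (u l x - u k x)‖ ≤ ∫ x, (‖exp (u l x - u k x) - 1‖ + 1) :=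
        int_mono (by fun_prop) (by fun_prop) fun x => by
          simpa using norm_add_le (exp (u l x - u k x) - 1) 1
      rw [int_add (by fun_prop) (by fun_prop)] at h7
      simp only [integral_const, probReal_univ, smul_eq_mul, one_mul] at h7
      have h8 := l1_exp uT hC h2 hl
      have := mink (f := fun x => (pol F c x - exp (-(1 / 2 * u k x))) * exp (1 / 2 * u l x))
        (g := fun x => exp (1 / 2 * (u l x - u k x)) - 1) (a := δ * (1 + G)) (b := δ)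
        (by fun_prop) (by fun_prop) (by positivity) δ0 (by rw [mul_pow]; linarith) (by linarith)
      convert this using 5 with x
      rw [sub_mul, ← Complex.exp_add, show -(1 / 2 * u k x) + 1 / 2 * u l x =
        1 / 2 * (u l x - u k x) by ring]
      ring
    · have : (δ * (1 + G) + δ) ^ 2 = δ * (δ * (1 + G + 1) ^ 2) := by ring
      rw [this]
      have := mul_le_mul_of_nonneg_left δ1 δ0.le
      nlinarith
  · obtain ⟨P, hP, rfl⟩ := co_box c N hc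
    exact noncyc G0 uT hC hcore ha hP

end Pool.Agent.H41.Bd
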