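import Pool.Agent.H41.Bd6

set_option autoImplicit false
open MeasureTheory Complex Set Filter Topology

namespace Pool.Agent.H41.Bd

noncomputable def EQ : (Fin 2 →₀ ℕ) ≃ ℕ × ℕ :=
  Finsupp.equivFunOnFinite.trans (finTwoArrowEquiv ℕ)

theorem EQ_apply (d : Fin 2 →₀ ℕ) : EQ d = (d 0, d 1) := rfl
theorem EQ_symm0 (p : ℕ × ℕ) : EQ.symm p 0 = p.1 := rfl
theorem EQ_symm1 (p : ℕ × ℕ) : EQ.symm p 1 = p.2 := rfl

noncomputable def cc (f : MvPowerSeries (Fin 2) ℂ) (m n : ℕ) : ℂ :=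
  MvPowerSeries.coeff (R := ℂ) (EQ.symm (m, n)) f

noncomputable def ps (a : ℕ → ℕ → ℂ) : MvPowerSeries (Fin 2) ℂ := fun d => a (d 0) (d 1)

theorem cc_ps (a : ℕ → ℕ → ℂ) : cc (ps a) = a := rfl

theorem cc_mul (f g : MvPowerSeries (Fin 2) ℂ) (m n : ℕ) :
    cc (f * g) m n = conv (cc f) (cc g) m n := by
  classical
  rw [cc, MvPowerSeries.coeff_mul, conv, ← Finset.sum_product']
  refine Finset.sum_nbij' (fun p => (p.1 0, p.1 1))
    (fun q => (EQ.symm (q.1, q.2), EQ.symm (m - q.1, n - q.2))) ?_ ?_ ?_ ?_ ?_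
  · intro p hp
    rw [Finset.HasAntidiagonal.mem_antidiagonal] at hp
    have h0 := congrArg (· 0) hp
    have h1 := congrArg (· 1) hp
    simp only [Finsupp.add_apply, EQ_symm0, EQ_symm1] at h0 h1
    simp only [Finset.mem_product, Finset.mem_range]; omega
  · intro q hq
    simp only [Finset.mem_product, Finset.mem_range] at hq
    rw [Finset.HasAntidiagonal.mem_antidiagonal]
    apply EQ.injective
    simp only [EQ_apply, Finsupp.add_apply, EQ_symm0, EQ_symm1, Prod.mk.injEq]; omega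
  · intro p hp
    rw [Finset.HasAntidiagonal.mem_antidiagonal] at hp
    have h0 := congrArg (· 0) hp
    have h1 := congrArg (· 1) hp
    simp only [Finsupp.add_apply, EQ_symm0, EQ_symm1] at h0 h1
    refine Prod.ext ?_ ?_ <;> apply EQ.injective <;>
      simp only [EQ_apply, EQ_symm0, EQ_symm1, Prod.mk.injEq, true_and]
    omega
  · intro q _; rfl
  · intro p hp
    rw [Finset.HasAntidiagonal.mem_antidiagonal] at hp
    have h0 := congrArg (· 0) hp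
    have h1 := congrArg (· 1) hp
    simp only [Finsupp.add_apply, EQ_symm0, EQ_symm1] at h0 h1
    have e1 : p.1 = EQ.symm (p.1 0, p.1 1) := (EQ.symm_apply_apply p.1).symm
    have e2 : p.2 = EQ.symm (m - p.1 0, n - p.1 1) := by
      apply EQ.injective
      simp only [EQ_apply, EQ_symm0, EQ_symm1, Prod.mk.injEq]; omega
    simp only [cc]
    rw [← e1, ← e2]

theorem cc_sub_one (f : MvPowerSeries (Fin 2) ℂ) (m n : ℕ) :
    cc (f - 1) m n = cc f m n - dl m n := by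
  classical
  simp only [cc, map_sub, MvPowerSeries.coeff_one, dl]
  congr 2
  apply propext
  rw [← EQ.apply_eq_iff_eq, Equiv.apply_symm_apply, EQ_apply]
  simp

theorem tsum_cc (f : MvPowerSeries (Fin 2) ℂ) :
    ∑' d : Fin 2 →₀ ℕ, ‖MvPowerSeries.coeff (R := ℂ) d f‖ ^ 2 =
      ∑' p : ℕ × ℕ, ‖cc f p.1 p.2‖ ^ 2 :=
  (EQ.symm.tsum_eq fun d => ‖MvPowerSeries.coeff (R := ℂ) d f‖ ^ 2).symm

theorem summable_cc (f : MvPowerSeries (Fin 2) ℂ) (h : Summable fun p : ℕ × ℕ => ‖cc f p.1 p.2‖ ^ 2) :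
    Summable fun d : Fin 2 →₀ ℕ => ‖MvPowerSeries.coeff (R := ℂ) d f‖ ^ 2 :=
  (EQ.symm.summable_iff (f := fun d => ‖MvPowerSeries.coeff (R := ℂ) d f‖ ^ 2)).1 h

theorem poly_of (F : Finset (ℕ × ℕ)) (c : ℕ → ℕ → ℂ) (h : ∀ m n, (m, n) ∉ F → c m n = 0) :
    ∃ p : MvPolynomial (Fin 2) ℂ, cc (p : MvPowerSeries (Fin 2) ℂ) = c := by
  classical
  refine ⟨∑ q ∈ F, MvPolynomial.monomial (EQ.symm q) (c q.1 q.2), ?_⟩
  funext m n
  simp only [cc, MvPolynomial.coeff_coe, MvPolynomial.coeff_sum, MvPolynomial.coeff_monomial,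
    EQ.symm.apply_eq_iff_eq, Finset.sum_ite_eq']
  split_ifs with h1
  · rfl
  · exact (h m n h1).symm

theorem poly_box (p : MvPolynomial (Fin 2) ℂ) :
    ∃ N, ∀ i j : ℕ, N ≤ i ∨ N ≤ j → cc (p : MvPowerSeries (Fin 2) ℂ) i j = 0 := by
  refine ⟨p.totalDegree + 1, fun i j h => ?_⟩
  simp only [cc, MvPolynomial.coeff_coe]
  apply MvPolynomial.coeff_eq_zero_of_totalDegree_lt
  have h0 := Finsupp.le_degree 0 (EQ.symm (i, j))
  have h1 := Finsupp.le_degree 1 (EQ.symm (i, j))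
  rw [EQ_symm0] at h0
  rw [EQ_symm1] at h1
  rw [← Finsupp.degree_apply]
  simp only at h0 h1
  omega

theorem main3 : ∃ f g : MvPowerSeries (Fin 2) ℂ,
      Summable (fun d : Fin 2 →₀ ℕ => ‖MvPowerSeries.coeff (R := ℂ) d f‖ ^ 2) ∧
      Summable (fun d : Fin 2 →₀ ℕ => ‖MvPowerSeries.coeff (R := ℂ) d g‖ ^ 2) ∧
      Summable (fun d : Fin 2 →₀ ℕ => ‖MvPowerSeries.coeff (R := ℂ) d (f * g)‖ ^ 2) ∧
      (∀ ε : ℝ, 0 < ε → ∃ p : MvPolynomial (Fin 2) ℂ,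
        ∑' d : Fin 2 →₀ ℕ,
          ‖MvPowerSeries.coeff (R := ℂ) d ((p : MvPowerSeries (Fin 2) ℂ) * f - 1)‖ ^ 2 < ε) ∧
      (∀ ε : ℝ, 0 < ε → ∃ p : MvPolynomial (Fin 2) ℂ,
        ∑' d : Fin 2 →₀ ℕ,
          ‖MvPowerSeries.coeff (R := ℂ) d ((p : MvPowerSeries (Fin 2) ℂ) * g - 1)‖ ^ 2 < ε) ∧
      ¬ (∀ ε : ℝ, 0 < ε → ∃ p : MvPolynomial (Fin 2) ℂ,
        ∑' d : Fin 2 →₀ ℕ,
          ‖MvPowerSeries.coeff (R := ℂ) d ((p : MvPowerSeries (Fin 2) ℂ) * (f * g) - 1)‖ ^ 2 < ε) := by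
  obtain ⟨h, a, s1, s2, e, cyc, nc⟩ := main2
  have e' : cc (ps h * ps h) = a := by
    funext m n; rw [cc_mul, cc_ps, e]
  have cyc' : ∀ ε : ℝ, 0 < ε → ∃ p : MvPolynomial (Fin 2) ℂ, ∑' d : Fin 2 →₀ ℕ,
      ‖MvPowerSeries.coeff (R := ℂ) d ((p : MvPowerSeries (Fin 2) ℂ) * ps h - 1)‖ ^ 2 < ε := by
    intro ε hε
    obtain ⟨F, c, hc, H⟩ := cyc ε hε
    obtain ⟨p, rfl⟩ := poly_of F c hc
    refine ⟨p, ?_⟩
    simpa only [tsum_cc, cc_sub_one, cc_mul, cc_ps] using H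
  refine ⟨ps h, ps h, summable_cc _ s1, summable_cc _ s1, summable_cc _ (by rw [e']; exact s2),
    cyc', cyc', fun H => ?_⟩
  obtain ⟨p, hp⟩ := H (1 / 100) (by norm_num)
  obtain ⟨N, hN⟩ := poly_box p
  have := nc _ N hN
  rw [tsum_cc] at hp
  simp only [cc_sub_one, cc_mul (p : MvPowerSeries (Fin 2) ℂ), e'] at hp
  linarith

end Pool.Agent.H41.Bd
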