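import Pool.Agent.H41.Db2

set_option autoImplicit false
open MeasureTheory Complex Set Filter Topology Metric
open scoped ComplexConjugate

namespace Pool.Agent.H41.Db

theorem ee_mem_ball (x : X) : ee 1 x ∈ closedBall (0 : ℂ) 1 := by simp [norm_ee]

theorem ee_mul_conj (x : X) : ee 1 x * conj (ee 1 x) = 1 := by
  rw [← ee_neg, ← ee_add]; simp [ee_zero]

theorem den_ne {z y : ℂ} (hz : ‖z‖ < 1) (hy : ‖y‖ ≤ 1) : 1 - z * y ≠ 0 := by
  intro h
  have h1 : z * y = 1 := by linear_combination -h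
  have h2 : ‖z * y‖ < 1 := by
    rw [norm_mul]
    exact lt_of_le_of_lt (mul_le_of_le_one_right (norm_nonneg _) hy) hz
  rw [h1] at h2; simp at h2

theorem den_ne' {z : ℂ} (hz : z ∈ ball (0 : ℂ) 1) (x : X) : 1 - z * conj (ee 1 x) ≠ 0 :=
  den_ne (by simpa using hz) (by simp [norm_ee])

theorem cauchy {h : ℂ → ℂ} (hd : DifferentiableOn ℂ h (closedBall 0 1)) {z : ℂ}
    (hz : z ∈ ball (0 : ℂ) 1) : ∫ x, h (ee 1 x) / (1 - z * conj (ee 1 x)) = h z := by
  have h1 := hd.circleIntegral_sub_inv_smul hz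
  rw [← UnitAddCircle.intervalIntegral_preimage 0, zero_add]
  have hp : (2 * Real.pi) ≠ 0 := by positivity
  have h2 := intervalIntegral.integral_comp_mul_left (a := 0) (b := 1)
    (fun θ : ℝ => deriv (circleMap 0 1) θ • (circleMap 0 1 θ - z)⁻¹ • h (circleMap 0 1 θ)) hp
  rw [mul_zero, mul_one] at h2
  unfold circleIntegral at h1
  rw [h1] at h2
  have h3 : ∀ t : ℝ, deriv (circleMap 0 1) (2 * Real.pi * t) •
      (circleMap 0 1 (2 * Real.pi * t) - z)⁻¹ • h (circleMap 0 1 (2 * Real.pi * t)) =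
      I * (h (ee 1 (t : X)) / (1 - z * conj (ee 1 (t : X)))) := by
    intro t
    have e : circleMap 0 1 (2 * Real.pi * t) = ee 1 (t : X) := by
      rw [ee_coe, circleMap]; push_cast; simp; congr 1; ring
    rw [deriv_circleMap, e]
    have e1 := ee_mul_conj (t : X)
    have e2 := den_ne' hz (t : X)
    have e3 : ee 1 (t : X) - z = ee 1 (t : X) * (1 - z * conj (ee 1 (t : X))) := by
      linear_combination z * e1
    have e4 : ee 1 (t : X) ≠ 0 := by
      intro h0; rw [h0] at e1; simp at e1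
    rw [e3, smul_eq_mul, smul_eq_mul]
    field_simp
  simp only [h3] at h2
  rw [intervalIntegral.integral_const_mul] at h2
  apply mul_left_cancel₀ I_ne_zero
  rw [h2, smul_eq_mul, real_smul]
  have : (Real.pi : ℂ) ≠ 0 := by exact_mod_cast Real.pi_ne_zero
  push_cast
  field_simp

variable {n : ℕ}

noncomputable def vv (z a : Fin n → ℂ) (x : X) : ℂ := ∑ j, a j / (1 - z j * conj (ee 1 x))

noncomputable def uu (z a : Fin n → ℂ) (y : ℂ) : ℂ := ∑ j, conj (a j) / (1 - conj (z j) * y)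

noncomputable def QQ (b : ℂ → ℂ) (z a : Fin n → ℂ) : ℝ :=
  (∑ i, ∑ j, conj (a i) * a j * ((1 - conj (b (z i)) * b (z j)) / (1 - conj (z i) * z j))).re

theorem uu_ee (z a : Fin n → ℂ) (x : X) : uu z a (ee 1 x) = conj (vv z a x) := by
  simp [uu, vv]

theorem uu_diff {z : Fin n → ℂ} (hz : ∀ i, z i ∈ ball (0 : ℂ) 1) (a : Fin n → ℂ) :
    DifferentiableOn ℂ (uu z a) (closedBall 0 1) := by
  unfold uu
  refine DifferentiableOn.fun_sum fun j _ => DifferentiableOn.div (by fun_prop) (by fun_prop) ?_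
  intro y hy
  exact den_ne (by simpa using hz j) (by simpa using hy)

theorem cont_den {z : ℂ} (hz : z ∈ ball (0 : ℂ) 1) {g : X → ℂ} (hg : Continuous g) :
    Continuous fun x => g x / (1 - z * conj (ee 1 x)) :=
  hg.div (by fun_prop) (den_ne' hz)

theorem vv_cont {z : Fin n → ℂ} (hz : ∀ i, z i ∈ ball (0 : ℂ) 1) (a : Fin n → ℂ) :
    Continuous (vv z a) :=
  continuous_finsetSum _ fun j _ => cont_den (hz j) continuous_const

theorem cont_comp {h : ℂ → ℂ} (hd : DifferentiableOn ℂ h (closedBall 0 1)) :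
    Continuous fun x => h (ee 1 x) :=
  hd.continuousOn.comp_continuous (ee_cont 1) ee_mem_ball

theorem int_vv {z : Fin n → ℂ} (hz : ∀ i, z i ∈ ball (0 : ℂ) 1) (a : Fin n → ℂ) {g : X → ℂ}
    (hg : Continuous g) :
    ∫ x, vv z a x * g x = ∑ j, a j * ∫ x, g x / (1 - z j * conj (ee 1 x)) := by
  simp only [← integral_const_mul]
  rw [← integral_finsetSum _ fun j _ => (intg (cont_den (hz j) hg)).const_mul _]
  congr 1; funext x
  rw [vv, Finset.sum_mul]
  exact Finset.sum_congr rfl fun j _ => by ring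

theorem pair {z : Fin n → ℂ} (hz : ∀ i, z i ∈ ball (0 : ℂ) 1) (a : Fin n → ℂ) {h : ℂ → ℂ}
    (hd : DifferentiableOn ℂ h (closedBall 0 1)) :
    ∫ x, vv z a x * h (ee 1 x) = ∑ j, a j * h (z j) := by
  rw [int_vv hz a (cont_comp hd)]
  exact Finset.sum_congr rfl fun j _ => by rw [cauchy hd (hz j)]

theorem int_normsq (g : X → ℂ) : ∫ x, g x * conj (g x) = ((∫ x, ‖g x‖ ^ 2 : ℝ) : ℂ) := by
  rw [← integral_complex_ofReal]
  congr 1; funext x
  rw [mul_conj, normSq_eq_norm_sq]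

theorem gram {z : Fin n → ℂ} (hz : ∀ i, z i ∈ ball (0 : ℂ) 1) (a : Fin n → ℂ) :
    ∑ j, a j * uu z a (z j) = ((∫ x, ‖vv z a x‖ ^ 2 : ℝ) : ℂ) := by
  rw [← pair hz a (uu_diff hz a), ← int_normsq]
  simp only [uu_ee]

theorem QQ_eq (b : ℂ → ℂ) {z : Fin n → ℂ} (hz : ∀ i, z i ∈ ball (0 : ℂ) 1) (a : Fin n → ℂ) :
    QQ b z a = (∫ x, ‖vv z a x‖ ^ 2) - ∫ x, ‖vv z (fun j => a j * b (z j)) x‖ ^ 2 := by
  have h : (∑ i, ∑ j, conj (a i) * a j * ((1 - conj (b (z i)) * b (z j)) /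
      (1 - conj (z i) * z j))) = (((∫ x, ‖vv z a x‖ ^ 2) -
        ∫ x, ‖vv z (fun j => a j * b (z j)) x‖ ^ 2 : ℝ) : ℂ) := by
    rw [ofReal_sub, ← gram hz, ← gram hz, Finset.sum_comm, ← Finset.sum_sub_distrib]
    refine Finset.sum_congr rfl fun j _ => ?_
    simp only [uu, Finset.mul_sum, ← Finset.sum_sub_distrib, map_mul]
    exact Finset.sum_congr rfl fun i _ => by ring
  rw [QQ, h, ofReal_re]

theorem amgm {f g : X → ℂ} (hf : Continuous f) (hg : Continuous g) :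
    2 * (∫ x, f x * conj (g x)).re ≤ (∫ x, ‖f x‖ ^ 2) + ∫ x, ‖g x‖ ^ 2 := by
  have h1 := (re_le_norm _).trans (norm_integral_le_integral_norm (μ := volume)
    fun x => f x * conj (g x))
  have h2 : ∫ x, 2 * ‖f x * conj (g x)‖ ≤ ∫ x, (‖f x‖ ^ 2 + ‖g x‖ ^ 2) := by
    refine int_mono (by fun_prop) (by fun_prop) fun x => ?_
    rw [norm_mul, RCLike.norm_conj]
    nlinarith [sq_nonneg (‖f x‖ - ‖g x‖)]
  rw [integral_const_mul, int_add (by fun_prop) (by fun_prop)] at h2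
  linarith

theorem QQ_lower {b : ℂ → ℂ} (hb : DifferentiableOn ℂ b (closedBall 0 1)) {z : Fin n → ℂ}
    (hz : ∀ i, z i ∈ ball (0 : ℂ) 1) (a : Fin n → ℂ) :
    ∫ x, ‖vv z a x‖ ^ 2 * (1 - ‖b (ee 1 x)‖ ^ 2) ≤ QQ b z a := by
  have k1 := vv_cont hz a
  have k2 := vv_cont hz fun j => a j * b (z j)
  have k3 := cont_comp hb
  have h1 := gram hz fun j => a j * b (z j)
  have h2 := pair hz a (h := fun y => b y * uu z (fun j => a j * b (z j)) y)
    (hb.mul (uu_diff hz _))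
  simp only [← mul_assoc, uu_ee] at h2
  rw [h1] at h2
  have h3 := amgm (f := fun x => vv z a x * b (ee 1 x)) (k1.mul k3) k2
  rw [h2, ofReal_re] at h3
  rw [QQ_eq b hz]
  simp only [mul_sub, mul_one]
  rw [int_sub (g := fun x => ‖vv z a x‖ ^ 2 * ‖b (ee 1 x)‖ ^ 2) (by fun_prop)
    ((k1.norm.pow 2).mul (k3.norm.pow 2))]
  simp only [norm_mul, mul_pow] at h3
  linarith

theorem QQ_upper {b c : ℂ → ℂ} (hc : DifferentiableOn ℂ c (closedBall 0 1))
    (hbc : ∀ y, b y * c y = 1) {z : Fin n → ℂ}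
    (hz : ∀ i, z i ∈ ball (0 : ℂ) 1) (a : Fin n → ℂ) :
    QQ b z a ≤ ∫ x, ‖vv z a x‖ ^ 2 * (‖c (ee 1 x)‖ ^ 2 - 1) := by
  have k1 := vv_cont hz a
  have k2 := vv_cont hz fun j => a j * b (z j)
  have k3 := cont_comp hc
  have h1 := gram hz a
  have h2 := pair hz (fun j => a j * b (z j)) (h := fun y => c y * uu z a y)
    (hc.mul (uu_diff hz _))
  have h4 : ∑ j, a j * b (z j) * (c (z j) * uu z a (z j)) = ∑ j, a j * uu z a (z j) :=
    Finset.sum_congr rfl fun j _ => by linear_combination a j * uu z a (z j) * hbc (z j)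
  rw [h4, h1] at h2
  have h3 := amgm (g := fun x => conj (c (ee 1 x)) * vv z a x) k2 ((continuous_conj.comp k3).mul k1)
  simp only [map_mul, conj_conj] at h3
  simp only [uu_ee] at h2
  rw [h2, ofReal_re] at h3
  rw [QQ_eq b hz]
  simp only [mul_sub, mul_one]
  rw [int_sub (f := fun x => ‖vv z a x‖ ^ 2 * ‖c (ee 1 x)‖ ^ 2)
    ((k1.norm.pow 2).mul (k3.norm.pow 2)) (by fun_prop)]
  simp only [norm_mul, mul_pow, RCLike.norm_conj, mul_comm (‖c _‖ ^ 2)] at h3
  linarith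

theorem TP_poly {g : X → ℂ} (hg : g ∈ TP (Ici 0)) :
    ∃ p : ℂ → ℂ, Differentiable ℂ p ∧ ∀ x, p (ee 1 x) = g x := by
  refine TP_ind (p := fun g => ∃ p : ℂ → ℂ, Differentiable ℂ p ∧ ∀ x, p (ee 1 x) = g x)
    ?_ ?_ ?_ ?_ hg
  · intro j hj
    lift j to ℕ using hj
    exact ⟨fun y => y ^ j, by fun_prop, fun x => (ee_pow j x).symm⟩
  · exact ⟨fun _ => 0, by fun_prop, fun _ => rfl⟩
  · rintro f g _ _ ⟨p, hp, h1⟩ ⟨q, hq, h2⟩
    exact ⟨fun y => p y + q y, by fun_prop, fun x => by simp [h1, h2]⟩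
  · rintro c f _ ⟨p, hp, h1⟩
    exact ⟨fun y => c * p y, by fun_prop, fun x => by simp [h1]⟩

theorem ee_theta (θ : ℝ) : ee 1 ((θ / (2 * Real.pi) : ℝ) : X) = Complex.exp (θ * I) := by
  rw [ee_coe]; congr 1
  have : (Real.pi : ℂ) ≠ 0 := by exact_mod_cast Real.pi_ne_zero
  push_cast; field_simp

theorem maxmod {p : ℂ → ℂ} (hp : Differentiable ℂ p) {C : ℝ} (h : ∀ x, ‖p (ee 1 x)‖ ≤ C)
    {z : ℂ} (hz : z ∈ closedBall (0 : ℂ) 1) : ‖p z‖ ≤ C := by
  refine norm_le_of_forall_mem_frontier_norm_le (U := ball 0 1) isBounded_ball hp.diffContOnCl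
    (fun y hy => ?_) (by rwa [closure_ball _ one_ne_zero])
  rw [frontier_ball _ one_ne_zero] at hy
  have h1 : ‖y‖ = 1 := by simpa using hy
  have h2 := norm_mul_exp_arg_mul_I y
  rw [h1, ← ee_theta] at h2
  rw [← h2]; simpa using h _

theorem moments {K : ℕ} (hK : 0 < K) {u : X → ℂ} (hu : u ∈ TP (Ico 0 (K : ℤ))) :
    ∃ z a : Fin K → ℂ, (∀ i, z i ∈ ball (0 : ℂ) 1) ∧ (∀ x, ‖vv z a x‖ ≤ 2 * ‖u x‖) ∧
      ∀ l < K, ∑ j, a j * z j ^ l = conj (coef u l) := by
  have hω := isPrimitiveRoot_exp K hK.ne'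
  set ω := exp (2 * Real.pi * I / K)
  have nω : ‖ω‖ = 1 := hω.norm'_eq_one hK.ne'
  let z : Fin K → ℂ := fun j => ω ^ (j : ℕ) / 2
  have zi : Function.Injective z := fun i j h => by
    have : ω ^ (i : ℕ) = ω ^ (j : ℕ) := by simpa [z] using h
    exact Fin.ext (hω.pow_inj i.2 j.2 this)
  have hU : IsUnit (Matrix.vandermonde z) :=
    (Matrix.isUnit_iff_isUnit_det _).2 (Ne.isUnit (Matrix.det_vandermonde_ne_zero_iff.2 zi))
  obtain ⟨a, ha⟩ := Matrix.vecMul_surjective_iff_isUnit.2 hU fun l => conj (coef u (l : ℕ))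
  have hz : ∀ i, z i ∈ ball (0 : ℂ) 1 := fun i => by simp [z, nω]; norm_num
  have hm : ∀ l < K, ∑ j, a j * z j ^ l = conj (coef u l) := fun l hl => by
    have := congrFun ha ⟨l, hl⟩
    simpa [Matrix.vecMul, dotProduct, Matrix.vandermonde_apply] using this
  refine ⟨z, a, hz, fun x => ?_, hm⟩
  set y := conj (ee 1 x) with hy
  have ny : ‖y‖ = 1 := by simp [hy, norm_ee]
  have h1 : vv z a x * (1 - (y / 2) ^ K) = conj (u x) := by
    rw [TP_expand hu x, map_sum, vv, Finset.sum_mul]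
    have : ∀ j, a j / (1 - z j * y) * (1 - (y / 2) ^ K) =
        ∑ l ∈ Finset.range K, a j * z j ^ l * y ^ l := by
      intro j
      have e1 : (y / 2) ^ K = (z j * y) ^ K := by
        simp only [z, mul_pow, div_pow]
        rw [← pow_mul, mul_comm (j : ℕ) K, pow_mul, hω.pow_eq_one, one_pow]; ring
      have e2 := den_ne' (hz j) x
      rw [e1, ← mul_neg_geom_sum, ← mul_assoc, div_mul_cancel₀ _ e2, Finset.mul_sum]
      exact Finset.sum_congr rfl fun l _ => by ring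
    rw [Finset.sum_congr rfl fun j _ => this j, Finset.sum_comm]
    refine Finset.sum_congr rfl fun l hl => ?_
    rw [← Finset.sum_mul, hm l (Finset.mem_range.1 hl), map_mul, ee_pow, map_pow]
  have h2 : 1 / 2 ≤ ‖1 - (y / 2) ^ K‖ := by
    have h3 : ‖(y / 2) ^ K‖ ≤ 1 / 2 := by
      rw [norm_pow, norm_div, ny]
      simpa using pow_le_of_le_one (a := (1 / 2 : ℝ)) (by norm_num) (by norm_num) hK.ne'
    have := norm_sub_norm_le (1 : ℂ) ((y / 2) ^ K)
    rw [norm_one] at this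
    linarith
  have h4 := congrArg norm h1
  rw [norm_mul, RCLike.norm_conj] at h4
  nlinarith [norm_nonneg (vv z a x)]

end Pool.Agent.H41.Db
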