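import Pool.Agent.H41.Db5
import Pool.Agent.H41.Db6

set_option autoImplicit false
open MeasureTheory Complex Set Filter Topology Metric
open scoped ComplexConjugate

namespace Pool.Agent.H41.Db

theorem taylor {α : ℕ → ℂ} (h : ∀ k, ‖α k‖ ≤ 1) (k : ℕ) :
    iteratedDeriv k (fun z : ℂ => ∑' j, α j * z ^ j) 0 / (k.factorial : ℂ) = α k := by
  have hr : (0 : ENNReal) < (FormalMultilinearSeries.ofScalars ℂ α).radius := by
    refine lt_of_lt_of_le (by norm_num : (0 : ENNReal) < ((1 : NNReal) : ENNReal))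
      (FormalMultilinearSeries.le_radius_of_bound _ 1 fun n => ?_)
    rw [FormalMultilinearSeries.ofScalars_norm]; simpa using h n
  have h1 := ((FormalMultilinearSeries.ofScalars ℂ α).hasFPowerSeriesOnBall hr).factorial_smul 1 k
  have h2 : (FormalMultilinearSeries.ofScalars ℂ α).sum = fun z : ℂ => ∑' j, α j * z ^ j := by
    funext z
    exact FormalMultilinearSeries.ofScalars_sum_eq α z
  rw [h2, FormalMultilinearSeries.ofScalars_apply_eq, ← iteratedDeriv_eq_iteratedFDeriv] at h1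
  rw [← h1]
  have : (k.factorial : ℂ) ≠ 0 := by exact_mod_cast k.factorial_ne_zero
  simp only [one_pow, smul_eq_mul, mul_one, nsmul_eq_mul]
  field_simp

theorem ctrans {g : X → ℂ} (hg : Continuous g) {z : ℂ} (hz : z ∈ ball (0 : ℂ) 1) :
    ∫ x, g x / (1 - z * conj (ee 1 x)) = ∑' j : ℕ, coef g j * z ^ j := by
  have hz' : ‖z‖ < 1 := by simpa using hz
  have h := hasSum_integral_of_summable_integral_norm (μ := (volume : Measure X))
    (F := fun (j : ℕ) x => g x * (z * conj (ee 1 x)) ^ j) (fun j => intg (by fun_prop)) (by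
      simp only [norm_mul, norm_pow, RCLike.norm_conj, norm_ee, mul_one, integral_mul_const]
      exact (summable_geometric_of_lt_one (norm_nonneg _) hz').mul_left _)
  have e1 : ∀ j : ℕ, ∫ x, g x * (z * conj (ee 1 x)) ^ j = coef g j * z ^ j := by
    intro j
    rw [coef, ← integral_mul_const]
    congr 1; funext x
    rw [ee_neg, ee_pow, map_pow]; ring
  have e2 : ∀ x, ∑' j : ℕ, g x * (z * conj (ee 1 x)) ^ j = g x / (1 - z * conj (ee 1 x)) := by
    intro x
    rw [tsum_mul_left, tsum_geometric_of_norm_lt_one (by simpa [norm_ee] using hz'), div_eq_mul_inv]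
  simp only [e1, e2] at h
  exact h.tsum_eq.symm

theorem cs {v : X → ℂ} {ψ W : X → ℝ} (hv : Continuous v) (hψ : Continuous ψ) (hW : Continuous W)
    (W0 : ∀ x, 0 < W x) {C : ℝ} (hC : 0 < C) (h : ∫ x, ψ x ^ 2 / W x ≤ C) :
    ‖∫ x, v x * ψ x‖ ^ 2 ≤ C * ∫ x, ‖v x‖ ^ 2 * W x := by
  set y := ‖∫ x, v x * ψ x‖ with hy
  have Q0 : 0 ≤ ∫ x, ‖v x‖ ^ 2 * W x := integral_nonneg fun x => mul_nonneg (sq_nonneg _) (W0 x).le
  have y0 : 0 ≤ y := norm_nonneg _
  rcases y0.eq_or_lt with h0 | h0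
  · rw [← h0]; simpa using mul_nonneg hC.le Q0
  have kΦ : Continuous fun x => ψ x ^ 2 / W x := (hψ.pow 2).div hW fun x => (W0 x).ne'
  have h1 : y ≤ ∫ x, ‖v x * ψ x‖ := norm_integral_le_integral_norm _
  have h2 : ∫ x, 2 * ‖v x * ψ x‖ ≤
      ∫ x, (y / C * (ψ x ^ 2 / W x) + C / y * (‖v x‖ ^ 2 * W x)) := by
    refine int_mono (by fun_prop) (by fun_prop) fun x => ?_
    rw [norm_mul, Complex.norm_real, Real.norm_eq_abs, ← sq_abs (ψ x)]
    have := W0 x
    have y1 := h0.ne'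
    have e : y / C * (|ψ x| ^ 2 / W x) + C / y * (‖v x‖ ^ 2 * W x) - 2 * (‖v x‖ * |ψ x|) =
        (y * |ψ x| - C * ‖v x‖ * W x) ^ 2 / (y * C * W x) := by field_simp; ring
    have : 0 ≤ (y * |ψ x| - C * ‖v x‖ * W x) ^ 2 / (y * C * W x) := by positivity
    linarith
  rw [int_add (by fun_prop) (by fun_prop), integral_const_mul, integral_const_mul,
    integral_const_mul] at h2
  have h3 : y / C * ∫ x, ψ x ^ 2 / W x ≤ y := by
    refine (mul_le_mul_of_nonneg_left h (by positivity)).trans (le_of_eq ?_)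
    field_simp
  have h4 : y ≤ C / y * ∫ x, ‖v x‖ ^ 2 * W x := by linarith
  rw [div_mul_eq_mul_div, le_div_iff₀ h0] at h4
  nlinarith

theorem damp {E : Set X} (hE : IsClosed E) {e τ δ : ℝ} (he : 0 < e) (hμ : volume.real E ≤ e)
    (hτ : 0 ≤ τ) (hδ : 0 < δ) (h : 4 * (τ * e) ≤ δ) :
    ∃ η : X → ℂ, (fun x => η x - 1) ∈ TP (Ici 1) ∧ (∀ x, ‖η x‖ ^ 2 ≤ Real.exp (2 * δ)) ∧
      ∀ x ∈ E, ‖η x‖ ^ 2 ≤ Real.exp (-2 * τ + 2 * δ) := by
  obtain ⟨U, hU, hEU, hm⟩ := nbhd hE he
  obtain ⟨φ, kφ, φ01, φ1, φ0⟩ := urys hE hU hEU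
  have mE := hE.measurableSet
  have mUE : MeasurableSet (U \ E) := hU.measurableSet.diff mE
  have iφ : ∫ x, φ x ≤ 2 * e := by
    have : ∫ x, φ x ≤ (∫ _ : X, (0 : ℝ)) + (∫ x, ind E x) + ∫ x, ind (U \ E) x := by
      refine le3 (intg kφ) (integrable_const _) (ind_intg mE) (ind_intg mUE) fun x => ?_
      have h1 := ind_nonneg E x
      have h2 := ind_nonneg (U \ E) x
      have h3 := φ01 x
      by_cases hx : x ∈ E
      · rw [ind_mem hx]; linarith
      · by_cases hx' : x ∈ U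
        · rw [ind_mem (S := U \ E) ⟨hx', hx⟩]; linarith
        · linarith [φ0 x hx']
    rw [int_ind mE, int_ind mUE] at this
    simp only [integral_zero] at this
    linarith
  obtain ⟨η, h1, h2⟩ := outer (q := fun x => -2 * τ * φ x) (by fun_prop) hδ
  rw [integral_const_mul] at h2
  have h3 := mul_le_mul_of_nonneg_left iφ hτ
  refine ⟨η, h1, fun x => (h2 x).trans (Real.exp_le_exp.2 ?_),
    fun x hx => (h2 x).trans (Real.exp_le_exp.2 ?_)⟩
  · have := mul_nonneg hτ (φ01 x).1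
    linarith
  · rw [φ1 x hx]; linarith

theorem l1 {η : X → ℂ} (h : (fun x => η x - 1) ∈ TP (Ici 1)) {κ s : ℝ} (hs : 0 < s)
    (hκ : ∀ x, ‖η x‖ ^ 2 ≤ 1 + κ) : ∫ x, ‖η x - 1‖ ≤ s + κ / s := by
  have k := TP_cont h
  have k' : Continuous η := (k.add (continuous_const (y := (1 : ℂ)))).congr fun x => by simp
  have h1 : ∫ x, ‖η x - 1‖ ≤ ∫ x, ((s + κ / s) - 2 / s * (η x - 1).re) := by
    refine int_mono (by fun_prop) (by fun_prop) fun x => ?_
    have e1 : ‖η x - 1‖ ^ 2 = ‖η x‖ ^ 2 - 1 - 2 * (η x - 1).re := by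
      rw [Complex.sq_norm, Complex.sq_norm, normSq_apply, normSq_apply]; simp; ring
    have e2 : ‖η x - 1‖ ≤ s + ‖η x - 1‖ ^ 2 / s := by
      rw [← sub_le_iff_le_add', le_div_iff₀ hs]
      nlinarith [sq_nonneg (‖η x - 1‖ - s), mul_nonneg (norm_nonneg (η x - 1)) hs.le]
    have e3 : ‖η x - 1‖ ^ 2 / s ≤ (κ - 2 * (η x - 1).re) / s := by
      gcongr; linarith [hκ x]
    have e4 : (κ - 2 * (η x - 1).re) / s = κ / s - 2 / s * (η x - 1).re := by ring
    linarith
  rw [int_sub continuous_const (by fun_prop), integral_const_mul, int_re_TP h (by simp)] at h1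
  simpa using h1

theorem ae_theta {P : X → Prop} (h : ∀ᵐ x, P x) :
    ∀ᵐ θ : ℝ, P ((θ / (2 * Real.pi) : ℝ) : X) := by
  have h1 : ∀ᵐ t : ℝ, P (t : X) := by
    rw [← Measure.restrict_univ (μ := (volume : Measure ℝ)), ← iUnion_Ioc_intCast ℝ,
      ae_restrict_iUnion_iff]
    intro n
    exact (UnitAddCircle.measurePreserving_mk (n : ℝ)).quasiMeasurePreserving.ae h
  have hp : (2 * Real.pi)⁻¹ ≠ 0 := by positivity
  have h2 : Measure.QuasiMeasurePreserving (fun θ : ℝ => θ * (2 * Real.pi)⁻¹) volume volume :=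
    ⟨by fun_prop, by rw [Real.map_volume_mul_right hp]; exact Measure.smul_absolutelyContinuous⟩
  exact h2.ae h1

theorem int_theta {g : X → ℝ} (h : Integrable g) :
    IntegrableOn (fun θ : ℝ => g ((θ / (2 * Real.pi) : ℝ) : X)) (Icc 0 (2 * Real.pi)) := by
  have h1 : IntegrableOn (fun t : ℝ => g (t : X)) (Ioc 0 (0 + 1)) :=
    (UnitAddCircle.measurePreserving_mk 0).integrable_comp_of_integrable h
  have h2 : IntervalIntegrable (fun t : ℝ => g (t : X)) volume 0 1 := by
    rw [intervalIntegrable_iff_integrableOn_Ioc_of_le zero_le_one]; simpa using h1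
  have h3 := h2.comp_mul_right (c := (2 * Real.pi)⁻¹)
  simp only [zero_div, div_inv_eq_mul, one_mul, zero_mul] at h3
  rw [intervalIntegrable_iff_integrableOn_Icc_of_le (by positivity)] at h3
  exact h3

theorem fatou {W : ℕ → X → ℝ} {V : X → ℝ} (kW : ∀ k, Continuous (W k)) (kV : Continuous V)
    (W0 : ∀ k x, 0 < W k x) (W1 : ∀ k x, W k x ≤ 1 / 2)
    (hl : ∀ x, Tendsto (fun k => W k x) atTop (𝓝 (V x))) {L : ℝ}
    (hL : ∀ k, ∫ x, -Real.log (W k x) ≤ L) :
    (∀ᵐ x, 0 < V x) ∧ Integrable fun x => Real.log (1 - Real.exp (-V x)) := by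
  have V0 : ∀ x, 0 ≤ V x := fun x => ge_of_tendsto' (hl x) fun k => (W0 k x).le
  have V1 : ∀ x, V x ≤ 1 / 2 := fun x => le_of_tendsto' (hl x) fun k => W1 k x
  have kl : ∀ k, Continuous fun x => -Real.log (W k x) := fun k =>
    ((kW k).log fun x => (W0 k x).ne').neg
  have mg : ∀ k, Measurable fun x => ENNReal.ofReal (-Real.log (W k x)) := fun k =>
    (kl k).measurable.ennreal_ofReal
  have h1 := lintegral_liminf_le (μ := (volume : Measure X)) (u := atTop) mg
  have h2 : liminf (fun k => ∫⁻ x, ENNReal.ofReal (-Real.log (W k x))) atTop ≤ ENNReal.ofReal L := by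
    refine liminf_le_of_frequently_le' (Frequently.of_forall fun k => ?_)
    rw [← ofReal_integral_eq_lintegral_ofReal (intg (kl k)) (Eventually.of_forall fun x =>
      neg_nonneg.2 (Real.log_nonpos (W0 k x).le (by linarith [W1 k x])))]
    exact ENNReal.ofReal_le_ofReal (hL k)
  have h3 := (h1.trans h2).trans_lt ENNReal.ofReal_lt_top
  have h4 := ae_lt_top (Measurable.liminf mg) h3.ne
  have pos : ∀ᵐ x, 0 < V x := by
    filter_upwards [h4] with x hx
    refine (V0 x).lt_of_ne fun h0 => hx.ne ?_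
    have t1 : Tendsto (fun k => W k x) atTop (𝓝[>] 0) :=
      tendsto_nhdsWithin_iff.2 ⟨h0 ▸ hl x, Eventually.of_forall fun k => W0 k x⟩
    have t2 := tendsto_neg_atBot_atTop.comp (Real.tendsto_log_nhdsGT_zero.comp t1)
    exact (ENNReal.tendsto_ofReal_atTop.comp t2).liminf_eq
  refine ⟨pos, ?_⟩
  have i1 : Integrable fun x => -Real.log (V x) := by
    refine ⟨(kV.measurable.log.neg).aestronglyMeasurable, ?_⟩
    rw [hasFiniteIntegral_iff_ofReal (Eventually.of_forall fun x =>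
      neg_nonneg.2 (Real.log_nonpos (V0 x) (by linarith [V1 x])))]
    refine lt_of_le_of_lt (lintegral_mono_ae ?_) h3
    filter_upwards [pos] with x hx
    exact (ENNReal.tendsto_ofReal ((hl x).log hx.ne').neg).liminf_eq.ge
  refine (i1.add (integrable_const 1)).mono' ?_ ?_
  · exact (Measurable.log (by fun_prop)).aestronglyMeasurable
  · filter_upwards [pos] with x hx
    have a1 : Real.exp (-V x) ≤ 1 - V x / 2 := by
      rw [Real.exp_neg, inv_le_iff_one_le_mul₀ (Real.exp_pos _)]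
      have := Real.add_one_le_exp (V x)
      have := V1 x
      nlinarith
    have a2 := Real.exp_pos (-V x)
    have a3 := Real.log_le_log (by positivity : 0 < V x / 2) (by linarith : V x / 2 ≤ 1 - Real.exp (-V x))
    have a4 := Real.log_nonpos (by linarith : 0 ≤ 1 - Real.exp (-V x)) (by linarith)
    rw [Real.log_div hx.ne' two_ne_zero] at a3
    have a5 := Real.log_le_sub_one_of_pos two_pos
    rw [Real.norm_eq_abs, abs_of_nonpos a4]
    simp only [Pi.add_apply]
    linarith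

end Pool.Agent.H41.Db
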