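import Pool.Agent.H41.Bd7
import Pool.Agent.H41.Db7

set_option autoImplicit false
open MeasureTheory Complex Set Filter Topology Metric
open scoped ComplexConjugate

namespace Pool.Agent.H41.Bd
open Pool.Agent.H41.Db

theorem expand {φ : ℂ → ℂ} (hφ : DifferentiableOn ℂ φ (ball 0 1)) {r : ℝ} (r0 : 0 ≤ r)
    (r1 : r < 1) : ∃ c : ℕ → ℂ, Summable (fun j => ‖c j‖ * r ^ j) ∧
      ∀ w : ℂ, ‖w‖ ≤ r → φ w = ∑' j, c j * w ^ j := by
  set R := (1 + r) / 2 with hR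
  have R0 : 0 < R := by positivity
  have R1 : R < 1 := by linarith
  have R2 : r < R := by linarith
  have hd : DifferentiableOn ℂ (fun z => φ (R * z)) (closedBall 0 1) :=
    hφ.comp (by fun_prop) fun z hz => by
      simp only [mem_closedBall, mem_ball, dist_zero_right, norm_mul, Complex.norm_real,
        Real.norm_eq_abs, abs_of_pos R0] at *
      nlinarith [norm_nonneg z]
  refine ⟨fun j => coef (fun x => φ (R * ee 1 x)) j / R ^ j, ?_, fun w hw => ?_⟩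
  · refine Summable.of_nonneg_of_le (fun j => by positivity) (fun j => ?_)
      ((summable_geometric_of_lt_one (by positivity) ((div_lt_one R0).2 R2)).mul_left
        (∫ x, ‖φ (R * ee 1 x)‖))
    rw [norm_div, norm_pow, Complex.norm_real, Real.norm_eq_abs, abs_of_pos R0, div_pow r R,
      div_mul_eq_mul_div, mul_div_assoc]
    exact mul_le_mul_of_nonneg_right (norm_coef_le _ _) (by positivity)
  · have hz : w / R ∈ ball (0 : ℂ) 1 := by
      simp only [mem_ball, dist_zero_right, norm_div, Complex.norm_real,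
        Real.norm_eq_abs, abs_of_pos R0, div_lt_one R0]
      linarith
    have h1 := cauchy hd hz
    rw [ctrans (cont_comp hd) hz] at h1
    have : (R : ℂ) ≠ 0 := by exact_mod_cast R0.ne'
    rw [mul_div_cancel₀ _ this] at h1
    rw [← h1]
    congr 1; funext j
    rw [div_pow]; ring

theorem ser_int {c : ℕ → ℂ} (hc : Summable fun j => ‖c j‖) {h : X → ℂ} (kh : Continuous h) :
    HasSum (fun j : ℕ => c j * ∫ x, ee j x * h x) (∫ x, (∑' j : ℕ, c j * ee j x) * h x) := by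
  have := hasSum_integral_of_summable_integral_norm (μ := (volume : Measure X))
    (F := fun (j : ℕ) x => c j * (ee j x * h x)) (fun j => Db.intg (by fun_prop)) (by
      simp only [norm_mul, norm_ee, one_mul, integral_const_mul]
      exact hc.mul_right _)
  simp only [integral_const_mul] at this
  simpa only [← mul_assoc, tsum_mul_right] using this

theorem pars1 {c : ℕ → ℂ} (hc : Summable fun j => ‖c j‖) :
    HasSum (fun j => ‖c j‖ ^ 2) (∫ x, ‖∑' j : ℕ, c j * ee j x‖ ^ 2) := by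
  have kS : Continuous fun x => ∑' j : ℕ, c j * ee j x :=
    continuous_tsum (fun j => by fun_prop) hc fun j x => by simp [norm_ee]
  have h1 : ∀ i : ℕ, ∫ x, (∑' j : ℕ, c j * ee j x) * ee (-i) x = c i := fun i => by
    refine (ser_int hc (ee_cont _)).unique ?_
    convert hasSum_ite_eq i (c i) using 2 with j
    simp only [← ee_add, int_ee]
    by_cases h : j = i
    · subst h; simp
    · rw [if_neg h, if_neg (by omega), mul_zero]
  have h2 := ser_int hc (h := fun x => conj (∑' j : ℕ, c j * ee j x)) (by fun_prop)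
  rw [int_normsq] at h2
  have h3 : ∀ i : ℕ, ∫ x, ee i x * conj (∑' j : ℕ, c j * ee j x) = conj (c i) := fun i => by
    rw [← h1 i, ← integral_conj]
    congr 1; funext x
    rw [map_mul, ee_neg, conj_conj, mul_comm]
  simp only [h3, mul_conj, normSq_eq_norm_sq] at h2
  exact_mod_cast h2

theorem L2 {φ : ℂ → ℂ} (hφ : DifferentiableOn ℂ φ (ball 0 1)) {s r : ℝ} (s0 : 0 ≤ s)
    (sr : s ≤ r) (r1 : r < 1) :
    (∫ x, ‖φ (r * ee 1 x) - φ (s * ee 1 x)‖ ^ 2) + ∫ x, ‖φ (s * ee 1 x)‖ ^ 2 ≤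
      ∫ x, ‖φ (r * ee 1 x)‖ ^ 2 := by
  have r0 := s0.trans sr
  obtain ⟨c, hc, h⟩ := expand hφ r0 r1
  have e : ∀ t : ℝ, 0 ≤ t → t ≤ r → (Summable fun j => ‖c j * (t : ℂ) ^ j‖) ∧
      ∀ x, φ (t * ee 1 x) = ∑' j : ℕ, c j * (t : ℂ) ^ j * ee j x := fun t t0 tr => by
    refine ⟨Summable.of_nonneg_of_le (fun j => norm_nonneg _) (fun j => ?_) hc, fun x => ?_⟩
    · rw [norm_mul, norm_pow, Complex.norm_real, Real.norm_eq_abs, abs_of_nonneg t0]
      gcongr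
    · rw [h _ (by simpa [norm_ee, abs_of_nonneg t0] using tr)]
      simp only [mul_pow, ee_pow, mul_assoc]
  obtain ⟨a1, a2⟩ := e r r0 le_rfl
  obtain ⟨b1, b2⟩ := e s s0 sr
  have d1 : Summable fun j => ‖c j * (r : ℂ) ^ j - c j * (s : ℂ) ^ j‖ :=
    Summable.of_nonneg_of_le (fun j => norm_nonneg _) (fun j => norm_sub_le _ _) (a1.add b1)
  have d2 : ∀ x, φ (r * ee 1 x) - φ (s * ee 1 x) =
      ∑' j : ℕ, (c j * (r : ℂ) ^ j - c j * (s : ℂ) ^ j) * ee j x := fun x => by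
    rw [a2, b2, ← Summable.tsum_sub (Summable.of_norm (by simpa only [norm_mul, norm_ee, mul_one] using a1))
      (Summable.of_norm (by simpa only [norm_mul, norm_ee, mul_one] using b1))]
    simp only [sub_mul]
  simp only [d2]
  simp only [a2, b2]
  refine hasSum_le (fun j => ?_) ((pars1 d1).add (pars1 b1)) (pars1 a1)
  have h1 : s ^ j ≤ r ^ j := pow_le_pow_left₀ s0 sr j
  have h2 : 0 ≤ s ^ j := by positivity
  rw [← mul_sub, norm_mul, norm_mul, norm_mul, ← ofReal_pow, ← ofReal_pow, ← ofReal_sub,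
    Complex.norm_real, Complex.norm_real, Complex.norm_real, Real.norm_of_nonneg h2,
    Real.norm_of_nonneg (h2.trans h1), Real.norm_of_nonneg (sub_nonneg.2 h1)]
  have := mul_nonneg (sq_nonneg ‖c j‖) (mul_nonneg h2 (sub_nonneg.2 h1))
  nlinarith

theorem cont_circ {φ : ℂ → ℂ} (hφ : DifferentiableOn ℂ φ (ball 0 1)) {r : ℝ} (r0 : 0 ≤ r)
    (r1 : r < 1) : Continuous fun x => φ (r * ee 1 x) :=
  hφ.continuousOn.comp_continuous (by fun_prop) fun x => by
    simpa [norm_ee, abs_of_nonneg r0] using r1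

theorem fact {H : ℂ → ℂ} (hH : DifferentiableOn ℂ H (ball 0 1)) {r : ℝ} (r0 : 0 < r)
    (r1 : r < 1) {κ : ℝ} (hκ : 0 < κ) :
    ∃ φ ψ : ℂ → ℂ, DifferentiableOn ℂ φ (ball 0 1) ∧ DifferentiableOn ℂ ψ (ball 0 1) ∧
      (∀ z, H z = φ z * ψ z) ∧ (∫ x, ‖φ (r * ee 1 x)‖ ^ 2) + ∫ x, ‖ψ (r * ee 1 x)‖ ^ 2 ≤
        2 * (∫ x, ‖H (r * ee 1 x)‖) + κ := by
  have kH := cont_circ hH r0.le r1
  set M := ∫ x, ‖H (r * ee 1 x)‖ with hM
  obtain ⟨η, ⟨⟨η1, η2⟩, η3⟩, η0⟩ := ((((small3 (κ / 2) 1 (2 * M + 1) (by positivity)).and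
    (small (κ / 2) 1 (by positivity))).and (small 1 1 one_pos)).and self_mem_nhdsWithin).exists
  replace η0 : 0 < η := η0
  rw [mul_one] at η1 η2 η3
  obtain ⟨g, gT, hg⟩ := anal (q := fun x => Real.log (‖H (r * ee 1 x)‖ + η))
    ((kH.norm.add continuous_const).log fun x => (add_pos_of_nonneg_of_pos (norm_nonneg _) η0).ne') η0
  set m := ∫ x, Real.log (‖H (r * ee 1 x)‖ + η)
  obtain ⟨V, hV, hV'⟩ := TP_poly (TP_add (TP_mono (fun j (hj : 1 ≤ j) => show 0 ≤ j by omega) gT)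
    (const_mem (S := Ici 0) (by simp) m))
  have r' : (r : ℂ) ≠ 0 := by exact_mod_cast r0.ne'
  have dφ : DifferentiableOn ℂ (fun z => H z * exp (-(V (z / r) / 2))) (ball 0 1) :=
    hH.mul (Differentiable.differentiableOn (by fun_prop))
  have dψ : DifferentiableOn ℂ (fun z => exp (V (z / r) / 2)) (ball 0 1) :=
    Differentiable.differentiableOn (by fun_prop)
  refine ⟨_, _, dφ, dψ, fun z => by rw [mul_assoc, ← Complex.exp_add]; simp, ?_⟩
  have k1 := cont_circ dφ r0.le r1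
  have k2 := cont_circ dψ r0.le r1
  rw [← Db.int_add (by exact k1.norm.pow 2) (by exact k2.norm.pow 2)]
  have : ∫ x, Real.exp η * (2 * ‖H (r * ee 1 x)‖ + η) = Real.exp η * (2 * M + η) := by
    rw [integral_const_mul, Db.int_add (by exact continuous_const.mul kH.norm) (by fun_prop), integral_const_mul]
    simp [hM]
  have M0 : 0 ≤ M := integral_nonneg fun x => norm_nonneg _
  refine (Db.int_mono (g := fun x => Real.exp η * (2 * ‖H (r * ee 1 x)‖ + η))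
    (by exact (k1.norm.pow 2).add (k2.norm.pow 2))
    (by exact continuous_const.mul ((continuous_const.mul kH.norm).add continuous_const)) fun x => ?_).trans (by rw [this]; nlinarith [Real.one_le_exp η0.le])
  rw [mul_div_cancel_left₀ _ r', hV', norm_mul, Complex.norm_exp, Complex.norm_exp, mul_pow,
    ← Real.exp_nat_mul, ← Real.exp_nat_mul]
  have h1 := abs_le.1 (hg x)
  set N := ‖H (r * ee 1 x)‖
  have N0 : 0 ≤ N := norm_nonneg _
  have h2 : Real.exp (((2 : ℕ) : ℝ) * ((g x + m) / 2).re) ≤ Real.exp η * (N + η) := by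
    rw [← Real.exp_log (show 0 < N + η by positivity), ← Real.exp_add]
    refine Real.exp_le_exp.2 ?_
    simp; linarith
  have h3 : Real.exp (((2 : ℕ) : ℝ) * (-((g x + m) / 2)).re) ≤ Real.exp η * (N + η)⁻¹ := by
    rw [← Real.exp_log (show 0 < N + η by positivity), ← Real.exp_neg, ← Real.exp_add]
    refine Real.exp_le_exp.2 ?_
    simp; linarith
  have h4 : N ^ 2 * (N + η)⁻¹ ≤ N := by
    rw [← div_eq_mul_inv, div_le_iff₀ (by positivity)]; nlinarith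
  have h5 := mul_le_mul_of_nonneg_left h3 (sq_nonneg N)
  have h6 := mul_le_mul_of_nonneg_left h4 (Real.exp_pos η).le
  nlinarith

theorem l1_le1 {f g : X → ℂ} (kf : Continuous f) (kg : Continuous g) {s : ℝ} (hs : 0 < s) :
    ∫ x, ‖f x * g x‖ ≤ (s * (∫ x, ‖f x‖ ^ 2) + s⁻¹ * ∫ x, ‖g x‖ ^ 2) / 2 := by
  rw [← integral_const_mul, ← integral_const_mul, ← Db.int_add (by fun_prop) (by fun_prop),
    ← integral_div]
  refine Db.int_mono (by fun_prop) (by fun_prop) fun x => ?_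
  have h1 : (s * ‖f x‖ ^ 2 + s⁻¹ * ‖g x‖ ^ 2) / 2 - ‖f x‖ * ‖g x‖ =
      (s * ‖f x‖ - ‖g x‖) ^ 2 / (2 * s) := by field_simp; ring
  have h2 : 0 ≤ (s * ‖f x‖ - ‖g x‖) ^ 2 / (2 * s) := by positivity
  rw [norm_mul]; linarith

theorem L1 {H : ℂ → ℂ} (hH : DifferentiableOn ℂ H (ball 0 1)) {s r : ℝ} (s0 : 0 ≤ s)
    (sr : s ≤ r) (r0 : 0 < r) (r1 : r < 1) {lam : ℝ} (hl : 0 < lam) :
    ∫ x, ‖H (s * ee 1 x)‖ ≤ ∫ x, ‖H (r * ee 1 x)‖ ∧
    ∫ x, ‖H (r * ee 1 x) - H (s * ee 1 x)‖ ≤ lam * (∫ x, ‖H (r * ee 1 x)‖) +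
      lam⁻¹ * ((∫ x, ‖H (r * ee 1 x)‖) - ∫ x, ‖H (s * ee 1 x)‖) := by
  have key : ∀ κ : ℝ, 0 < κ → ∫ x, ‖H (s * ee 1 x)‖ ≤ (∫ x, ‖H (r * ee 1 x)‖) + κ ∧
      ∫ x, ‖H (r * ee 1 x) - H (s * ee 1 x)‖ ≤ lam * (∫ x, ‖H (r * ee 1 x)‖) +
      lam⁻¹ * ((∫ x, ‖H (r * ee 1 x)‖) - ∫ x, ‖H (s * ee 1 x)‖) + κ * (lam + lam⁻¹) := by
    intro κ hκ
    obtain ⟨φ, ψ, dφ, dψ, e, h⟩ := fact hH r0 r1 hκ
    have s1 := sr.trans_lt r1
    have k1 := cont_circ dφ r0.le r1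
    have k2 := cont_circ dψ r0.le r1
    have k3 := cont_circ dφ s0 s1
    have k4 := cont_circ dψ s0 s1
    have h1 := L2 dφ s0 sr r1
    have h2 := L2 dψ s0 sr r1
    have h3 := l1_le1 k3 k4 one_pos
    have h4 := l1_le1 k2 (k1.sub k3) hl
    have h5 := l1_le1 k3 (k2.sub k4) hl
    simp only [Pi.sub_apply] at h4 h5
    have h6 : ∫ x, ‖H (r * ee 1 x) - H (s * ee 1 x)‖ ≤
        ∫ x, (‖ψ (r * ee 1 x) * (φ (r * ee 1 x) - φ (s * ee 1 x))‖ +
          ‖φ (s * ee 1 x) * (ψ (r * ee 1 x) - ψ (s * ee 1 x))‖) := by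
      simp only [e]
      refine Db.int_mono ((k1.mul k2).sub (k3.mul k4)).norm
        ((k2.mul (k1.sub k3)).norm.add (k3.mul (k2.sub k4)).norm) fun x => ?_
      refine le_trans (le_of_eq ?_) (norm_add_le _ _)
      congr 1; ring
    rw [Db.int_add (by exact (k2.mul (k1.sub k3)).norm) (by exact (k3.mul (k2.sub k4)).norm)] at h6
    simp only [← e, inv_one, one_mul] at h3
    have p1 : 0 ≤ ∫ x, ‖φ (r * ee 1 x) - φ (s * ee 1 x)‖ ^ 2 := integral_nonneg fun x => by positivity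
    have p2 : 0 ≤ ∫ x, ‖ψ (r * ee 1 x) - ψ (s * ee 1 x)‖ ^ 2 := integral_nonneg fun x => by positivity
    have l' := inv_pos.2 hl
    refine ⟨by linarith, ?_⟩
    have q1 := mul_le_mul_of_nonneg_left (show (∫ x, ‖ψ (r * ee 1 x)‖ ^ 2) +
      (∫ x, ‖φ (s * ee 1 x)‖ ^ 2) ≤ 2 * (∫ x, ‖H (r * ee 1 x)‖) + κ by linarith) hl.le
    have q2 := mul_le_mul_of_nonneg_left (show (∫ x, ‖φ (r * ee 1 x) - φ (s * ee 1 x)‖ ^ 2) +
      (∫ x, ‖ψ (r * ee 1 x) - ψ (s * ee 1 x)‖ ^ 2) ≤ 2 * (∫ x, ‖H (r * ee 1 x)‖) + κ -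
      2 * ∫ x, ‖H (s * ee 1 x)‖ by linarith) l'.le
    have q3 := mul_pos hκ hl
    have q4 := mul_pos hκ l'
    linarith
  refine ⟨le_of_forall_pos_le_add fun κ hκ => (key κ hκ).1, le_of_forall_pos_le_add fun ε hε => ?_⟩
  obtain ⟨κ, κ1, κ0⟩ := ((small ε (lam + lam⁻¹) hε).and self_mem_nhdsWithin).exists
  linarith [(key κ κ0).2]

end Pool.Agent.H41.Bd
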