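import Pool.Agent.H41.Bd8

set_option autoImplicit false
open MeasureTheory Complex Set Filter Topology Metric
open scoped ComplexConjugate

namespace Pool.Agent.H41.Bd
open Pool.Agent.H41.Db

noncomputable def tor (r : ℝ) (x : Y) : ℂ × ℂ := ((r : ℂ) * ee 1 x.1, (r : ℂ) * ee 1 x.2)

@[fun_prop] theorem tor_cont (r : ℝ) : Continuous (tor r) := by unfold tor; fun_prop

theorem norm_tor {r : ℝ} (r0 : 0 ≤ r) (x : Y) : ‖tor r x‖ = r := by
  simp [tor, norm_ee, abs_of_nonneg r0]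

theorem cont_tor {G : ℂ × ℂ → ℂ} (hG : DifferentiableOn ℂ G (ball 0 1)) {r : ℝ} (r0 : 0 ≤ r)
    (r1 : r < 1) : Continuous fun x => G (tor r x) :=
  hG.continuousOn.comp_continuous (by fun_prop) fun x => by
    rw [mem_ball, dist_zero_right, norm_tor r0]; exact r1

theorem shear {F : Y → ℝ} (hF : Continuous F) :
    Integrable (fun x : Y => ∫ t : X, F (x + (t, t))) ∧ ∫ x, ∫ t : X, F (x + (t, t)) = ∫ x, F x := by
  have h1 : Integrable (Function.uncurry fun (x : Y) (t : X) => F (x + (t, t)))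
      ((volume : Measure Y).prod volume) :=
    Continuous.integrable_of_hasCompactSupport (by fun_prop) (HasCompactSupport.of_compactSpace _)
  refine ⟨h1.integral_prod_left, ?_⟩
  rw [integral_integral_swap h1]
  have : ∀ t : X, ∫ x, F (x + (t, t)) = ∫ x, F x := fun t =>
    integral_add_right_eq_self (μ := (volume : Measure X).prod volume) F (t, t)
  simp [this]

theorem ee_one_add (x t : X) : ee 1 (x + t) = ee 1 t * ee 1 x := by
  simp only [ee, fourier_apply, smul_add, AddCircle.toCircle_add, Circle.coe_mul]; ring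

theorem L1' {G : ℂ × ℂ → ℂ} (hG : DifferentiableOn ℂ G (ball 0 1)) {s r : ℝ} (s0 : 0 ≤ s)
    (sr : s ≤ r) (r0 : 0 < r) (r1 : r < 1) {lam : ℝ} (hl : 0 < lam) :
    ∫ x, ‖G (tor s x)‖ ≤ ∫ x, ‖G (tor r x)‖ ∧
    ∫ x, ‖G (tor r x) - G (tor s x)‖ ≤ lam * (∫ x, ‖G (tor r x)‖) +
      lam⁻¹ * ((∫ x, ‖G (tor r x)‖) - ∫ x, ‖G (tor s x)‖) := by
  have k1 := cont_tor hG r0.le r1
  have k2 := cont_tor hG s0 (sr.trans_lt r1)
  obtain ⟨i1, e1⟩ := shear k1.norm
  obtain ⟨i2, e2⟩ := shear k2.norm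
  obtain ⟨i3, e3⟩ := shear (F := fun x => ‖G (tor r x) - G (tor s x)‖) (k1.sub k2).norm
  have key := fun x : Y => L1 (H := fun z => G (z * ee 1 x.1, z * ee 1 x.2))
    (hG.comp (by fun_prop) fun z hz => by simpa [norm_ee] using hz) s0 sr r0 r1 hl
  have e : ∀ (t : ℝ) (x : Y) (y : X), ((t : ℂ) * ee 1 y * ee 1 x.1, (t : ℂ) * ee 1 y * ee 1 x.2) =
      tor t (x + (y, y)) := fun t x y => by simp [tor, ee_one_add, mul_assoc]
  simp only [e] at key
  rw [← e1, ← e2, ← e3]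
  refine ⟨integral_mono i2 i1 fun x => (key x).1, ?_⟩
  rw [← integral_sub i1 i2, ← integral_const_mul, ← integral_const_mul,
    ← integral_add (i1.const_mul _) (by exact (i1.sub i2).const_mul _)]
  exact integral_mono i3 ((i1.const_mul _).add ((i1.sub i2).const_mul _)) fun x => (key x).2

theorem vanish1 {φ : ℂ → ℂ} (hφ : DifferentiableOn ℂ φ (ball 0 1)) {r : ℝ} (r0 : 0 ≤ r)
    (r1 : r < 1) {j : ℤ} (hj : j < 0) : ∫ x, φ (r * ee 1 x) * ee (-j) x = 0 := by
  obtain ⟨k, hk⟩ : ∃ k : ℕ, -j = (k + 1 : ℕ) := ⟨(-j - 1).toNat, by omega⟩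
  have hd : DifferentiableOn ℂ (fun z => φ (r * z) * z ^ (k + 1)) (closedBall 0 1) :=
    (hφ.comp (by fun_prop) fun z hz => by
      simp only [mem_closedBall, mem_ball, dist_zero_right, norm_mul, Complex.norm_real,
        Real.norm_eq_abs, abs_of_nonneg r0] at *
      nlinarith [norm_nonneg z]).mul (by fun_prop)
  have := cauchy hd (z := 0) (by simp)
  rw [hk]
  simpa [← ee_pow] using this

theorem vanish {G : ℂ × ℂ → ℂ} (hG : DifferentiableOn ℂ G (ball 0 1)) {r : ℝ} (r0 : 0 ≤ r)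
    (r1 : r < 1) {j : ℤ × ℤ} (hj : j ∉ NN) : cf (fun x => G (tor r x)) j = 0 := by
  have k1 := cont_tor hG r0 r1
  have h1 : Integrable (fun x : Y => G (tor r x) * e2 (-j) x) ((volume : Measure X).prod volume) :=
    intg (k1.mul (e2_cont _))
  have hn : ∀ y : X, ‖(r : ℂ) * ee 1 y‖ < 1 := fun y => by
    simpa [norm_ee, abs_of_nonneg r0] using r1
  simp only [NN, mem_ofPred_eq, not_and_or, not_le] at hj
  rcases hj with hj | hj
  · refine (integral_prod_symm _ h1).trans ?_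
    have : ∀ y : X, ∫ x : X, G (tor r (x, y)) * e2 (-j) (x, y) = 0 := fun y => by
      have := vanish1 (φ := fun z => G (z, r * ee 1 y)) (hG.comp (by fun_prop) fun z hz => by
        simp only [mem_ball, dist_zero_right, Prod.norm_mk] at *
        exact max_lt hz (hn y)) r0 r1 hj
      simp only [tor, e2, Prod.fst_neg, Prod.snd_neg, ← mul_assoc]
      rw [integral_mul_const, this, zero_mul]
    simp [this]
  · refine (integral_prod _ h1).trans ?_
    have : ∀ y : X, ∫ x : X, G (tor r (y, x)) * e2 (-j) (y, x) = 0 := fun y => by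
      have := vanish1 (φ := fun z => G (r * ee 1 y, z)) (hG.comp (by fun_prop) fun z hz => by
        simp only [mem_ball, dist_zero_right, Prod.norm_mk] at *
        exact max_lt (hn y) hz) r0 r1 hj
      simp only [tor, e2, Prod.fst_neg, Prod.snd_neg, mul_left_comm _ (ee (-j.1) y)]
      rw [integral_const_mul, this, mul_zero]
    simp [this]

theorem split {q : Y → ℂ} (hq : q ∈ TQ univ) :
    ∃ a ∈ TQ NN, ∃ b ∈ TQ NNᶜ, ∀ x, q x = a x + b x := by
  refine TQ_ind (p := fun q => ∃ a ∈ TQ NN, ∃ b ∈ TQ NNᶜ, ∀ x, q x = a x + b x) ?_ ?_ ?_ ?_ hq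
  · intro j _
    by_cases h : j ∈ NN
    · exact ⟨_, e2_mem h, _, TQ_zero _, by simp⟩
    · exact ⟨_, TQ_zero _, _, e2_mem h, by simp⟩
  · exact ⟨_, TQ_zero _, _, TQ_zero _, by simp⟩
  · rintro f g - - ⟨a, ha, b, hb, h⟩ ⟨a', ha', b', hb', h'⟩
    exact ⟨_, TQ_add ha ha', _, TQ_add hb hb', fun x => by simp only [h, h']; ring⟩
  · rintro c f - ⟨a, ha, b, hb, h⟩
    exact ⟨_, TQ_cmul c ha, _, TQ_cmul c hb, fun x => by simp only [h]; ring⟩

theorem orth {h b : Y → ℂ} (kh : Continuous h) (h0 : ∀ j ∉ NN, cf h j = 0) (hb : b ∈ TQ NNᶜ) :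
    ∫ x, h x * conj (b x) = 0 := by
  refine TQ_ind (p := fun b => ∫ x, h x * conj (b x) = 0) ?_ ?_ ?_ ?_ hb
  · intro j hj
    simpa only [cf, e2_neg] using h0 j hj
  · simp
  · intro f g hf hg h1 h2
    have := TQ_cont hf
    have := TQ_cont hg
    simp only [map_add, mul_add]
    rw [int_add (by fun_prop) (by fun_prop), h1, h2, add_zero]
  · intro c f _ h1
    simp only [map_mul, mul_left_comm _ (conj c)]
    rw [integral_const_mul, h1, mul_zero]

theorem approx {g : Y → ℂ} (kg : Continuous g) (h0 : ∀ j ∉ NN, cf g j = 0) {ε : ℝ} (hε : 0 < ε) :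
    ∃ F c, ∫ x, ‖g x - pol F c x‖ ≤ ε := by
  obtain ⟨q, hq, hd⟩ := dense2 kg hε
  obtain ⟨a, ha, b, hb, e⟩ := split hq
  have ka := TQ_cont ha
  have kb := TQ_cont hb
  have h1 := orth (h := fun x => g x - a x) (by fun_prop)
    (fun j hj => by rw [cf_sub kg ka, h0 j hj, cf_zero ha hj, sub_zero]) hb
  have h2 : ∫ x, ‖g x - a x‖ ^ 2 ≤ ∫ x, (ε ^ 2 + 2 * ((g x - a x) * conj (b x)).re) := by
    refine int_mono (by fun_prop) (by fun_prop) fun x => ?_
    have h3 := pow_le_pow_left₀ (norm_nonneg _) (hd x) 2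
    rw [e, ← sub_sub, Complex.sq_norm, Complex.normSq_sub] at h3
    rw [Complex.sq_norm]
    linarith [Complex.normSq_nonneg (b x)]
  rw [int_add (by fun_prop) (by fun_prop), integral_const_mul] at h2
  have h3 : ∫ x, ((g x - a x) * conj (b x)).re = (∫ x, (g x - a x) * conj (b x)).re :=
    integral_re (𝕜 := ℂ) (intg (g := fun x => (g x - a x) * conj (b x)) (by fun_prop))
  rw [h3, h1] at h2
  obtain ⟨F, c, rfl⟩ := pol_rep ha
  refine ⟨F, c, ?_⟩
  have h4 := l1_le (f := fun _ => 1) (g := fun x => g x - pol F c x) (by fun_prop) (by fun_prop) hε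
  simp only [one_mul, norm_one, one_pow, integral_const, probReal_univ, smul_eq_mul, zero_re,
    mul_zero, add_zero, mul_one] at h2 h4
  have h5 := mul_le_mul_of_nonneg_left h2 (inv_pos.2 hε).le
  have h6 : ε⁻¹ * ε ^ 2 = ε := by field_simp
  linarith

noncomputable def PZ (F : Finset (ℕ × ℕ)) (c : ℕ × ℕ → ℂ) (z : ℂ × ℂ) : ℂ :=
  ∑ p ∈ F, c p * (z.1 ^ p.1 * z.2 ^ p.2)

@[fun_prop] theorem PZ_diff (F : Finset (ℕ × ℕ)) (c : ℕ × ℕ → ℂ) : Differentiable ℂ (PZ F c) := by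
  unfold PZ; fun_prop

theorem mono_tor (r : ℝ) (p : ℕ × ℕ) (x : Y) : (tor r x).1 ^ p.1 * (tor r x).2 ^ p.2 =
    (r : ℂ) ^ (p.1 + p.2) * e2 ((p.1 : ℤ), (p.2 : ℤ)) x := by
  simp only [tor, e2, ee_pow, mul_pow, pow_add]; ring

theorem PZ_tor (F : Finset (ℕ × ℕ)) (c : ℕ × ℕ → ℂ) (r : ℝ) (x : Y) :
    PZ F c (tor r x) = pol F (fun p => c p * (r : ℂ) ^ (p.1 + p.2)) x := by
  simp only [PZ, pol, mono_tor, mul_assoc]

theorem density {g : ℂ × ℂ → ℂ} (hg : DifferentiableOn ℂ g (ball 0 1)) {K : ℝ}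
    (hK : ∀ r ∈ Ioo (0 : ℝ) 1, ∫ x, ‖g (tor r x)‖ ≤ K) {ε : ℝ} (hε : 0 < ε) :
    ∃ F c, ∀ r ∈ Ioo (0 : ℝ) 1, ∫ x, ‖g (tor r x) - PZ F c (tor r x)‖ ≤ ε := by
  obtain ⟨lam, l1, l0⟩ := ((small (ε / 3) K (by positivity)).and self_mem_nhdsWithin).exists
  replace l0 : 0 < lam := l0
  set M : ℝ → ℝ := fun r => ∫ x, ‖g (tor r x)‖ with hM
  have hb : BddAbove (M '' Ioo 0 1) := ⟨K, by rintro _ ⟨r, hr, rfl⟩; exact hK r hr⟩
  obtain ⟨_, ⟨s0, hs0, rfl⟩, h1⟩ := exists_lt_of_lt_csSup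
    (show (M '' Ioo 0 1).Nonempty from ⟨_, 1 / 2, by norm_num, rfl⟩)
    (show sSup (M '' Ioo 0 1) - lam * (ε / 3) < _ from sub_lt_self _ (by positivity))
  set s := (1 + s0) / 2 with hs
  have s1 : 0 < s := by have := hs0.1; positivity
  have s2 : s < 1 := by linarith [hs0.2]
  have s3 : s0 < s := by linarith [hs0.2]
  have s' : (s : ℂ) ≠ 0 := by exact_mod_cast s1.ne'
  obtain ⟨F, c, hc⟩ := approx (cont_tor hg s1.le s2) (fun j hj => vanish hg s1.le s2 hj)
    (show 0 < ε / 3 by positivity)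
  refine ⟨F, c, fun r hr => ?_⟩
  have e1 : ∀ t x, (s : ℂ) • tor t x = tor (s * t) x := fun t x => by simp [tor, mul_assoc]
  have e2 : ∀ t x, (s : ℂ)⁻¹ • tor (s * t) x = tor t x := fun t x => by
    rw [← e1, smul_smul, inv_mul_cancel₀ s', one_smul]
  have d1 : DifferentiableOn ℂ (fun z => g z - g ((s : ℂ) • z)) (ball 0 1) :=
    hg.sub (hg.comp (by fun_prop) fun z hz => by
      simp only [mem_ball, dist_zero_right, norm_smul, Complex.norm_real,
        Real.norm_eq_abs, abs_of_pos s1] at *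
      nlinarith [norm_nonneg z])
  have d2 : DifferentiableOn ℂ (fun z => g z - PZ F c ((s : ℂ)⁻¹ • z)) (ball 0 1) :=
    hg.sub (Differentiable.differentiableOn (by fun_prop))
  obtain ⟨R, R1, R2, R3⟩ : ∃ R, r ≤ R ∧ s0 ≤ s * R ∧ R < 1 :=
    ⟨max r (s0 / s), le_max_left _ _, by
      rw [← div_le_iff₀' s1]; exact le_max_right _ _, max_lt hr.2 ((div_lt_one s1).2 s3)⟩
  have R0 := hr.1.trans_le R1
  have sR : s * R ≤ R := mul_le_of_le_one_left R0.le s2.le
  have h2 := (L1' d1 hr.1.le R1 R0 R3 l0).1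
  have h3 := (L1' hg (by positivity) sR R0 R3 l0).2
  have h4 := (L1' hg hs0.1.le R2 (by positivity) (sR.trans_lt R3) l0).1
  have h5 : M R ≤ sSup (M '' Ioo 0 1) := le_csSup hb ⟨R, ⟨R0, R3⟩, rfl⟩
  have h6 := (L1' d2 (s := s * r) (by have := hr.1; positivity)
    (mul_le_of_le_one_right s1.le hr.2.le) s1 s2 l0).1
  have e3 : ∀ x, PZ F c ((s : ℂ)⁻¹ • tor s x) = pol F c x := fun x => by
    have := e2 1 x
    rw [mul_one] at this
    rw [this, PZ_tor]; simp
  simp only [e1, e2, e3] at h2 h6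
  have h7 := mul_le_mul_of_nonneg_left (hK R ⟨R0, R3⟩) l0.le
  have h8 := mul_le_mul_of_nonneg_left (show M R - M (s * R) ≤ lam * (ε / 3) by
    simp only [hM] at *; linarith) (inv_pos.2 l0).le
  rw [← mul_assoc, inv_mul_cancel₀ l0.ne', one_mul] at h8
  have k1 := cont_tor hg hr.1.le hr.2
  have k2 := cont_tor hg (r := s * r) (by have := hr.1; positivity) (by nlinarith [hr.1, hr.2])
  have k3 := cont_tor (PZ_diff F c).differentiableOn hr.1.le hr.2
  have h9 : ∫ x, ‖g (tor r x) - PZ F c (tor r x)‖ ≤ ∫ x, (‖g (tor r x) - g (tor (s * r) x)‖ +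
      ‖g (tor (s * r) x) - PZ F c (tor r x)‖) :=
    int_mono (k1.sub k3).norm ((k1.sub k2).norm.add (k2.sub k3).norm) fun x =>
      norm_sub_le_norm_sub_add_norm_sub _ _ _
  rw [int_add (by exact (k1.sub k2).norm) (by exact (k2.sub k3).norm)] at h9
  simp only [hM] at h8
  linarith

end Pool.Agent.H41.Bd
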