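import Pool.Agent.H41.RbDefs

set_option autoImplicit false

namespace Pool.Agent.H41.Rb

open Filter MeasureTheory Set

lemma squares_finite (f : ℝ → ℝ) (hf : Continuous f) (N : ℕ) (hN : 0 < N) :
    (squares f N).Finite := by
  obtain ⟨M, hM⟩ := (isCompact_Icc (a := (0:ℝ)) (b := 1)).exists_bound_of_continuousOn hf.continuousOn
  obtain ⟨K, hK⟩ := exists_nat_ge ((N : ℝ) * (|M| + 1) + 1)
  have hN' : (0 : ℝ) < N := by exact_mod_cast hN
  refine ((Set.finite_Icc (-(K:ℤ)) K).prod (Set.finite_Icc (-(K:ℤ)) K)).subset ?_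
  rintro ⟨i, j⟩ ⟨x, hx, ⟨h1, h2⟩, ⟨h3, h4⟩⟩
  simp only at h1 h2 h3 h4
  rw [div_le_iff₀ hN'] at h1 h3
  rw [le_div_iff₀ hN'] at h2 h4
  have hb := hM x hx
  rw [Real.norm_eq_abs, abs_le] at hb
  have hM1 := le_abs_self M
  have hM0 := abs_nonneg M
  have a1 : (i : ℝ) ≤ K := by nlinarith [hx.1, hx.2]
  have a2 : -(K : ℝ) ≤ i := by nlinarith [hx.1, hx.2]
  have a3 : (j : ℝ) ≤ K := by nlinarith [hb.1, hb.2]
  have a4 : -(K : ℝ) ≤ j := by nlinarith [hb.1, hb.2]
  refine ⟨⟨?_, ?_⟩, ⟨?_, ?_⟩⟩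
  · exact_mod_cast a2
  · exact_mod_cast a1
  · exact_mod_cast a4
  · exact_mod_cast a3

/-- column count -/
noncomputable def col (f : ℝ → ℝ) (N : ℕ) (i : ℤ) : ℕ := {j : ℤ | (i, j) ∈ squares f N}.ncard

lemma col_finite (f : ℝ → ℝ) (hf : Continuous f) (N : ℕ) (hN : 0 < N) (i : ℤ) :
    {j : ℤ | (i, j) ∈ squares f N}.Finite := by
  refine ((squares_finite f hf N hN).image Prod.snd).subset ?_
  intro j hj
  exact ⟨(i, j), hj, rfl⟩

lemma osc_le (f : ℝ → ℝ) (hf : Continuous f) (N : ℕ) (hN : 0 < N) (i : ℕ) (hi : i < N)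
    (x y : ℝ) (hx : x ∈ Icc ((i : ℝ) / N) (((i : ℝ) + 1) / N))
    (hy : y ∈ Icc ((i : ℝ) / N) (((i : ℝ) + 1) / N)) :
    f y - f x ≤ (col f N i : ℝ) / N := by
  have hN' : (0 : ℝ) < N := by exact_mod_cast hN
  have hsub : Icc ((i : ℝ) / N) (((i : ℝ) + 1) / N) ⊆ Icc (0:ℝ) 1 := by
    apply Icc_subset_Icc
    · positivity
    · rw [div_le_one hN']
      have : i + 1 ≤ N := hi
      exact_mod_cast this
  by_cases hxy : f y ≤ f x
  · have : (0:ℝ) ≤ (col f N i : ℝ) / N := by positivity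
    linarith
  push Not at hxy
  have hS : ((Finset.Icc ⌊(N:ℝ) * f x⌋ ⌊(N:ℝ) * f y⌋ : Finset ℤ) : Set ℤ) ⊆
      {j : ℤ | ((i:ℤ), j) ∈ squares f N} := by
    intro j hj
    simp only [Finset.coe_Icc, mem_Icc] at hj
    have h1 : (N:ℝ) * f x < j + 1 := by
      have := Int.lt_floor_add_one ((N:ℝ) * f x)
      have h2 : ((⌊(N:ℝ) * f x⌋ : ℤ) : ℝ) ≤ j := by exact_mod_cast hj.1
      linarith
    have h2 : (j:ℝ) ≤ N * f y := by
      have := Int.floor_le ((N:ℝ) * f y)
      have h2 : (j:ℝ) ≤ ((⌊(N:ℝ) * f y⌋ : ℤ) : ℝ) := by exact_mod_cast hj.2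
      linarith
    have hw : max (f x) ((j:ℝ) / N) ∈ Icc (f x) (f y) := by
      refine ⟨le_max_left _ _, max_le hxy.le ?_⟩
      rw [div_le_iff₀ hN']; linarith
    obtain ⟨z, hz, hfz⟩ := isPreconnected_Icc.intermediate_value hx hy hf.continuousOn hw
    refine ⟨z, hsub hz, ?_, ?_⟩
    · simpa using hz
    · simp only [hfz]
      refine ⟨le_max_right _ _, max_le ?_ ?_⟩
      · rw [le_div_iff₀ hN']; linarith
      · gcongr; linarith
  have hc := Set.ncard_le_ncard hS (col_finite f hf N hN i)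
  rw [Set.ncard_coe_finset, Int.card_Icc] at hc
  have h3 : ⌊(N:ℝ) * f y⌋ + 1 - ⌊(N:ℝ) * f x⌋ ≤ (col f N i : ℤ) := by
    unfold col; omega
  have h4 : ((⌊(N:ℝ) * f y⌋ : ℤ) : ℝ) + 1 - ((⌊(N:ℝ) * f x⌋ : ℤ) : ℝ) ≤ (col f N i : ℝ) := by
    exact_mod_cast h3
  have h5 := Int.lt_floor_add_one ((N:ℝ) * f y)
  have h6 := Int.floor_le ((N:ℝ) * f x)
  rw [le_div_iff₀ hN']
  nlinarith

lemma sum_col_le (f : ℝ → ℝ) (hf : Continuous f) (N : ℕ) (hN : 0 < N) :
    ∑ i ∈ Finset.range N, col f N i ≤ A f N := by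
  classical
  have hfin := squares_finite f hf N hN
  unfold A
  rw [Set.ncard_eq_toFinset_card _ hfin]
  set T := hfin.toFinset
  have h1 : ∀ i : ℕ, col f N i = (T.filter (fun p => p.1 = (i:ℤ))).card := by
    intro i
    unfold col
    rw [← Set.ncard_coe_finset]
    rw [← Set.ncard_image_of_injective _ (f := fun j : ℤ => ((i:ℤ), j))
      (fun a b h => by simpa using h)]
    congr 1
    ext ⟨a, b⟩
    simp only [mem_image, mem_ofPred_eq, Prod.mk.injEq, Finset.coe_filter, T,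
      Set.Finite.mem_toFinset]
    constructor
    · rintro ⟨j, hj, rfl, rfl⟩; exact ⟨hj, rfl⟩
    · rintro ⟨h, rfl⟩; exact ⟨b, h, rfl, rfl⟩
  simp_rw [h1]
  rw [← Finset.card_biUnion]
  · apply Finset.card_le_card
    intro p hp
    simp only [Finset.mem_biUnion, Finset.mem_filter] at hp
    obtain ⟨i, -, h, -⟩ := hp
    exact h
  · intro a _ b _ hab
    simp only [Function.onFun]
    rw [Finset.disjoint_left]
    intro p hp hq
    simp only [Finset.mem_filter] at hp hq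
    apply hab
    have := hp.2.symm.trans hq.2
    exact_mod_cast this

noncomputable def ex (k : ℤ) (x : ℝ) : ℂ := Complex.exp (-(2 * Real.pi * Complex.I * k * x))

lemma ex_cont (k : ℤ) : Continuous (ex k) := by unfold ex; fun_prop

lemma ex_norm (k : ℤ) (x : ℝ) : ‖ex k x‖ = 1 := by
  unfold ex
  rw [Complex.norm_exp]
  simp

lemma int_ex (k : ℤ) (hk : k ≠ 0) (a b : ℝ) (m : ℤ) (h : (k : ℝ) * b = k * a + m) :
    ∫ x in a..b, ex k x = 0 := by
  have hc : -(2 * Real.pi * Complex.I * k : ℂ) ≠ 0 := by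
    simp [hk, Real.pi_ne_zero]
  have := integral_exp_mul_complex (a := a) (b := b) hc
  have e1 : (fun x : ℝ => ex k x) = fun x : ℝ => Complex.exp (-(2 * Real.pi * Complex.I * k) * x) := by
    funext x; unfold ex; congr 1; ring
  rw [e1, this]
  have h' : (k : ℂ) * b = k * a + m := by exact_mod_cast h
  have : Complex.exp (-(2 * Real.pi * Complex.I * k) * b) =
      Complex.exp (-(2 * Real.pi * Complex.I * k) * a) := by
    rw [Complex.exp_eq_exp_iff_exists_int]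
    refine ⟨-m, ?_⟩
    push_cast
    linear_combination (-(2 * Real.pi * Complex.I)) * h'
  rw [this]; simp

lemma coef_le (f : ℝ → ℝ) (hf : Continuous f) (N : ℕ) (hN : 0 < N) :
    ‖coef f N‖ ≤ (A f N : ℝ) / (N:ℝ) ^ 2 := by
  have hN' : (0 : ℝ) < N := by exact_mod_cast hN
  have hc : Continuous fun x : ℝ => (f x : ℂ) * ex N x :=
    (Complex.continuous_ofReal.comp hf).mul (ex_cont _)
  have h1 := intervalIntegral.sum_integral_adjacent_intervals (μ := volume)
    (f := fun x : ℝ => (f x : ℂ) * ex N x) (a := fun i : ℕ => (i:ℝ) / N) (n := N)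
    (fun k _ => hc.intervalIntegrable _ _)
  have h2 : coef f N = ∑ i ∈ Finset.range N,
      ∫ x in ((i:ℝ) / N)..(((i + 1 : ℕ) : ℝ) / N), (f x : ℂ) * ex N x := by
    rw [h1]; simp [coef, ex, hN'.ne']
  have h3 : ∀ i ∈ Finset.range N,
      ‖∫ x in ((i:ℝ) / N)..(((i + 1 : ℕ) : ℝ) / N), (f x : ℂ) * ex N x‖ ≤
        (col f N i : ℝ) / (N:ℝ) ^ 2 := by
    intro i hi
    have hi' := Finset.mem_range.1 hi
    have hz : ∫ x in ((i:ℝ) / N)..(((i + 1 : ℕ) : ℝ) / N), ex N x = 0 := by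
      apply int_ex _ (by exact_mod_cast hN.ne') _ _ 1
      push_cast; field_simp
    have hle : (i:ℝ) / N ≤ ((i + 1 : ℕ) : ℝ) / N := by
      gcongr; omega
    have h4 : ∫ x in ((i:ℝ) / N)..(((i + 1 : ℕ) : ℝ) / N), (f x : ℂ) * ex N x =
        ∫ x in ((i:ℝ) / N)..(((i + 1 : ℕ) : ℝ) / N), ((f x - f (i / N) : ℝ) : ℂ) * ex N x := by
      have : (fun x : ℝ => ((f x - f (i / N) : ℝ) : ℂ) * ex N x) =
          fun x : ℝ => (f x : ℂ) * ex N x - (f (i / N) : ℂ) * ex N x := by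
        funext x; push_cast; ring
      have hc2 : Continuous fun x : ℝ => (f (i / N) : ℂ) * ex N x :=
        continuous_const.mul (ex_cont _)
      rw [this, intervalIntegral.integral_sub (hc.intervalIntegrable _ _)
        (hc2.intervalIntegrable _ _),
        intervalIntegral.integral_const_mul, hz]
      simp
    rw [h4]
    refine (intervalIntegral.norm_integral_le_of_norm_le_const (C := (col f N i : ℝ) / N) ?_).trans ?_
    · intro x hx
      rw [uIoc_of_le hle] at hx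
      have hx' : x ∈ Icc ((i : ℝ) / N) (((i : ℝ) + 1) / N) := by
        refine ⟨hx.1.le, ?_⟩
        have := hx.2; push_cast at this; exact this
      have h0 : (i:ℝ) / N ∈ Icc ((i : ℝ) / N) (((i : ℝ) + 1) / N) := by
        refine ⟨le_rfl, ?_⟩
        gcongr; linarith
      rw [norm_mul, ex_norm, mul_one, Complex.norm_real, Real.norm_eq_abs, abs_le]
      have a1 := osc_le f hf N hN i hi' _ _ hx' h0
      have a2 := osc_le f hf N hN i hi' _ _ h0 hx'
      constructor <;> linarith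
    · have : ((i + 1 : ℕ) : ℝ) / N - (i:ℝ) / N = 1 / N := by push_cast; ring
      rw [this, abs_of_pos (by positivity)]
      apply le_of_eq; field_simp
  rw [h2]
  refine (norm_sum_le _ _).trans ((Finset.sum_le_sum h3).trans ?_)
  rw [← Finset.sum_div]
  gcongr
  exact_mod_cast sum_col_le f hf N hN

end Pool.Agent.H41.Rb
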