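import Pool.Agent.H41.TcDefs
import Pool.Agent.H41.Rb1

set_option autoImplicit false

namespace Pool.Agent.H41.Tc

open MeasureTheory Set Filter Topology
open scoped InnerProductSpace ComplexConjugate
open Pool.Agent.H41.Rb (ex ex_cont ex_norm int_ex)

instance : IsProbabilityMeasure μ01 := ⟨by simp⟩

lemma ae01 : ∀ᵐ x ∂μ01, x ∈ Icc (0:ℝ) 1 := ae_restrict_mem measurableSet_Icc

lemma K_bd {y u : ℝ} (hy : 0 ≤ y) (hu : 0 ≤ u) : ‖(K y u : ℂ)‖ ≤ 1 := by
  rw [Complex.norm_real, Real.norm_eq_abs]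
  unfold K
  have hx : 0 ≤ u / y := by positivity
  rw [abs_of_nonneg (div_nonneg (Int.fract_nonneg _) hx)]
  apply div_le_one_of_le₀ _ hx
  have : (0:ℝ) ≤ (⌊u / y⌋ : ℤ) := by exact_mod_cast Int.floor_nonneg.2 hx
  unfold Int.fract; linarith

lemma K_meas : Measurable fun p : ℝ × ℝ => (K p.1 p.2 : ℂ) := by
  unfold K
  apply Complex.measurable_ofReal.comp
  have : Measurable fun p : ℝ × ℝ => p.2 / p.1 := measurable_snd.div measurable_fst
  exact (measurable_fract.comp this).div this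

noncomputable def Tf (h : H) (y : ℝ) : ℂ := ∫ u, (K y u : ℂ) * h u ∂μ01

lemma int_h (h : H) : Integrable (h : ℝ → ℂ) μ01 := (Lp.memLp h).integrable (by norm_num)

lemma int_K (h : H) {y : ℝ} (hy : 0 ≤ y) : Integrable (fun u => (K y u : ℂ) * h u) μ01 := by
  refine (int_h h).bdd_mul (c := 1) ?_ ?_
  · exact (K_meas.comp (measurable_prodMk_left (x := y))).aestronglyMeasurable
  · filter_upwards [ae01] with u hu using K_bd hy hu.1

lemma l1_le (h : H) : ∫ u, ‖h u‖ ∂μ01 ≤ ‖h‖ := by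
  rw [integral_norm_eq_lintegral_enorm (Lp.aestronglyMeasurable h), ← eLpNorm_one_eq_lintegral_enorm,
    Lp.norm_def]
  exact ENNReal.toReal_mono (Lp.eLpNorm_ne_top h)
    (eLpNorm_le_eLpNorm_of_exponent_le (by norm_num) (Lp.aestronglyMeasurable h))

lemma Tf_bd (h : H) {y : ℝ} (hy : 0 ≤ y) : ‖Tf h y‖ ≤ ‖h‖ := by
  refine le_trans ?_ (l1_le h)
  apply norm_integral_le_of_norm_le (int_h h).norm
  filter_upwards [ae01] with u hu
  rw [norm_mul]
  exact mul_le_of_le_one_left (norm_nonneg _) (K_bd hy hu.1)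

lemma Tf_mem (h : H) : MemLp (Tf h) 2 μ01 := by
  apply MemLp.of_bound _ ‖h‖
  · filter_upwards [ae01] with y hy using Tf_bd h hy.1
  · apply StronglyMeasurable.aestronglyMeasurable
    apply StronglyMeasurable.integral_prod_right (f := fun y u => (K y u : ℂ) * h u)
    exact K_meas.stronglyMeasurable.mul ((Lp.stronglyMeasurable h).comp_measurable measurable_snd)

noncomputable def Tlin : H →ₗ[ℂ] H where
  toFun h := (Tf_mem h).toLp _
  map_add' f g := by
    apply Lp.ext
    filter_upwards [(Tf_mem (f + g)).coeFn_toLp, (Tf_mem f).coeFn_toLp, (Tf_mem g).coeFn_toLp,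
      Lp.coeFn_add ((Tf_mem f).toLp _) ((Tf_mem g).toLp _), ae01] with y h1 h2 h3 h4 hy
    rw [h1, h4, Pi.add_apply, h2, h3]
    unfold Tf
    rw [← integral_add (int_K f hy.1) (int_K g hy.1)]
    apply integral_congr_ae
    filter_upwards [Lp.coeFn_add f g] with u hu
    rw [hu, Pi.add_apply, mul_add]
  map_smul' c f := by
    apply Lp.ext
    filter_upwards [(Tf_mem (c • f)).coeFn_toLp, (Tf_mem f).coeFn_toLp,
      Lp.coeFn_smul c ((Tf_mem f).toLp _)] with y h1 h2 h4
    simp only [RingHom.id_apply]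
    rw [h1, h4, Pi.smul_apply, h2]
    unfold Tf
    rw [smul_eq_mul, ← integral_const_mul]
    apply integral_congr_ae
    filter_upwards [Lp.coeFn_smul c f] with u hu
    rw [hu, Pi.smul_apply, smul_eq_mul]; ring

theorem exists_T : ∃ T : H →L[ℂ] H, IsT T := by
  refine ⟨Tlin.mkContinuous 1 fun h => ?_, fun h => (Tf_mem h).coeFn_toLp⟩
  have := Lp.norm_le_of_ae_bound (f := Tlin h) (C := ‖h‖) (norm_nonneg _) (by
    filter_upwards [(Tf_mem h).coeFn_toLp, ae01] with y h1 hy
    have : Tlin h y = Tf h y := h1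
    rw [this]; exact Tf_bd h hy.1)
  simpa [measureUnivNNReal] using this

/-- the window -/
abbrev J : Set ℝ := Icc (3 / 4 : ℝ) 1

lemma memJ (f : ℝ → ℂ) (hf : Continuous f) : MemLp (J.indicator f) 2 μ01 := by
  obtain ⟨M, hM⟩ := (isCompact_Icc (a := (0:ℝ)) (b := 1)).exists_bound_of_continuousOn hf.continuousOn
  apply MemLp.indicator measurableSet_Icc
  apply MemLp.of_bound hf.aestronglyMeasurable M
  filter_upwards [ae01] with y hy using hM y hy

noncomputable def el (f : ℝ → ℂ) (hf : Continuous f) : H := (memJ f hf).toLp _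

lemma el_ae (f : ℝ → ℂ) (hf : Continuous f) : (el f hf : ℝ → ℂ) =ᵐ[μ01] J.indicator f :=
  (memJ f hf).coeFn_toLp

lemma int_ind (g : ℝ → ℂ) : ∫ x, J.indicator g x ∂μ01 = ∫ x in (3 / 4 : ℝ)..1, g x := by
  rw [integral_indicator measurableSet_Icc, Measure.restrict_restrict measurableSet_Icc,
    inter_eq_left.2 (Icc_subset_Icc (by norm_num) le_rfl), integral_Icc_eq_integral_Ioc,
    intervalIntegral.integral_of_le (by norm_num)]

lemma inner_el (f : ℝ → ℂ) (hf : Continuous f) (v : H) (g : ℝ → ℂ)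
    (hv : ∀ᵐ x ∂μ01, x ∈ Ioc (3 / 4 : ℝ) 1 → v x = g x) :
    ⟪el f hf, v⟫_ℂ = ∫ x in (3 / 4 : ℝ)..1, conj (f x) * g x := by
  rw [L2.inner_def, ← int_ind]
  apply integral_congr_ae
  have h34 : ∀ᵐ x ∂μ01, x ≠ (3 / 4 : ℝ) := ae_restrict_of_ae (Measure.ae_ne volume _)
  filter_upwards [el_ae f hf, hv, h34] with x h1 h2 h3
  rw [h1]
  by_cases hx : x ∈ J
  · rw [indicator_of_mem hx, indicator_of_mem hx, h2 ⟨lt_of_le_of_ne hx.1 h3.symm, hx.2⟩]
    simp [mul_comm]
  · rw [indicator_of_notMem hx, indicator_of_notMem hx]; simp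

lemma el_add (f g : ℝ → ℂ) (hf : Continuous f) (hg : Continuous g) :
    el (fun x => f x + g x) (hf.add hg) = el f hf + el g hg := by
  apply Lp.ext
  filter_upwards [el_ae f hf, el_ae g hg, el_ae _ (hf.add hg), Lp.coeFn_add (el f hf) (el g hg)]
    with x h1 h2 h3 h4
  rw [h4, Pi.add_apply, h1, h2]
  refine h3.trans ?_
  by_cases hx : x ∈ J
  · simp only [indicator_of_mem hx, Pi.add_apply]
  · simp only [indicator_of_notMem hx, add_zero]

lemma ex_mul (a b : ℤ) (x : ℝ) : ex a x * ex b x = ex (a + b) x := by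
  unfold ex; rw [← Complex.exp_add]; congr 1; push_cast; ring

lemma ex_conj (a : ℤ) (x : ℝ) : conj (ex a x) = ex (-a) x := by
  unfold ex; rw [← Complex.exp_conj]; congr 1; simp [map_ofNat]

lemma int_ex4 (n : ℤ) : ∫ x in (3 / 4 : ℝ)..1, ex (4 * n) x = if n = 0 then 1 / 4 else 0 := by
  split_ifs with h
  · subst h; simp [ex]; norm_num
  · apply int_ex _ (by omega) _ _ n; push_cast; ring

noncomputable def E (n : ℤ) (x : ℝ) : ℂ := 2 * ex (4 * n) x

lemma E_cont (n : ℤ) : Continuous (E n) := continuous_const.mul (ex_cont _)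

lemma E_on : Orthonormal ℂ (fun n : ℤ => el (E n) (E_cont n)) := by
  rw [orthonormal_iff_ite]
  intro i j
  rw [inner_el _ _ _ (E j)]
  · have : ∀ x, conj (E i x) * E j x = 4 * ex (4 * (j - i)) x := by
      intro x
      unfold E
      rw [map_mul, ex_conj, show 4 * (j - i) = -(4 * i) + 4 * j by ring, ← ex_mul]
      simp only [map_ofNat]; ring
    simp_rw [this]
    rw [intervalIntegral.integral_const_mul, int_ex4]
    by_cases h : i = j
    · simp [h]
    · rw [if_neg (by omega), if_neg h]; simp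
  · filter_upwards [el_ae (E j) (E_cont j)] with x hx h
    rw [hx, indicator_of_mem (Ioc_subset_Icc_self h)]

lemma bessel (w : ℝ → ℂ) (hw : Continuous w) (C : ℝ) (hC0 : 0 ≤ C) (hC : ∀ x ∈ J, ‖w x‖ ≤ C)
    (σ : ℕ → ℤ) (hσ : Function.Injective σ) (v : H) (s : Finset ℕ) :
    ∑ k ∈ s, ‖⟪el (fun x => w x * E (σ k) x) (hw.mul (E_cont _)), v⟫_ℂ‖ ^ 2 ≤ (C * ‖v‖) ^ 2 := by
  have hb : ∀ x, ‖J.indicator (fun x => conj (w x) * v x) x‖ ≤ C * ‖v x‖ := by
    intro x
    by_cases hx : x ∈ J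
    · rw [indicator_of_mem hx, norm_mul, Complex.norm_conj]
      exact mul_le_mul_of_nonneg_right (hC x hx) (norm_nonneg _)
    · rw [indicator_of_notMem hx, norm_zero]; positivity
  have hm : MemLp (J.indicator (fun x => conj (w x) * v x)) 2 μ01 := by
    refine (Lp.memLp v).of_le_mul (c := C) ?_ (Eventually.of_forall hb)
    apply AEStronglyMeasurable.indicator _ measurableSet_Icc
    exact (Complex.continuous_conj.comp hw).aestronglyMeasurable.mul (Lp.aestronglyMeasurable v)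
  have hn : ‖hm.toLp _‖ ≤ C * ‖v‖ := by
    apply Lp.norm_le_mul_norm_of_ae_le_mul
    filter_upwards [hm.coeFn_toLp] with x hx
    rw [hx]; exact hb x
  have h1 : ∀ k, ⟪el (fun x => w x * E (σ k) x) (hw.mul (E_cont _)), v⟫_ℂ =
      ⟪el (E (σ k)) (E_cont _), hm.toLp _⟫_ℂ := by
    intro k
    rw [inner_el _ _ v v (Eventually.of_forall fun _ _ => rfl),
      inner_el _ _ _ (fun x => conj (w x) * v x)]
    · congr 1; funext x; rw [map_mul]; ring
    · filter_upwards [hm.coeFn_toLp] with x hx h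
      rw [hx, indicator_of_mem (Ioc_subset_Icc_self h)]
  simp_rw [h1]
  refine ((E_on.comp σ hσ).sum_inner_products_le (hm.toLp _)).trans ?_
  gcongr

end Pool.Agent.H41.Tc
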