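import Pool.Agent.H41.BhDefs
import Pool.Agent.H41.Tc1

set_option autoImplicit false

namespace Pool.Agent.H41.Bh

open Metric Filter Topology MeasureTheory Set
open scoped ComplexConjugate
open Pool.Agent.H41.Rb (ex ex_cont ex_norm int_ex)
open Pool.Agent.H41.Tc (ex_mul ex_conj)

variable {c u v : ℕ → ℂ} {F U V : ℂ → ℂ}

lemma Rep.summ (h : Rep c F) {ρ : ℝ} (h0 : 0 ≤ ρ) (h1 : ρ < 1) :
    Summable fun n => ‖c n‖ * ρ ^ n := by
  have hm : ((ρ : ℝ) : ℂ) ∈ ball (0:ℂ) 1 := by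
    rw [mem_ball_zero_iff, Complex.norm_real, Real.norm_of_nonneg h0]; exact h1
  have := (h _ hm).summable.norm
  simpa [norm_mul, norm_pow, abs_of_nonneg h0] using this

lemma Rep.diff (h : Rep c F) : DifferentiableOn ℂ F (ball 0 1) ∧
    Rep (fun n => ((n : ℂ) + 1) * c (n + 1)) (deriv F) := by
  have key : ∀ z ∈ ball (0:ℂ) 1, DifferentiableAt ℂ F z ∧
      HasSum (fun n : ℕ => ((n : ℂ) + 1) * c (n + 1) * z ^ n) (deriv F z) := by
    intro z hz
    rw [mem_ball_zero_iff] at hz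
    set ρ := (1 + ‖z‖) / 2 with hρ
    have hρ0 : 0 ≤ ρ := by positivity
    have hρ1 : ρ < 1 := by linarith
    have hzρ : z ∈ ball (0:ℂ) ρ := by rw [mem_ball_zero_iff]; linarith
    have hb : ∀ (n : ℕ) (w : ℂ), w ∈ ball (0:ℂ) ρ → ‖c n * w ^ n‖ ≤ ‖c n‖ * ρ ^ n := by
      intro n w hw
      rw [norm_mul, norm_pow]
      have := (mem_ball_zero_iff.1 hw).le
      gcongr
    have hd : ∀ n : ℕ, DifferentiableOn ℂ (fun w : ℂ => c n * w ^ n) (ball 0 ρ) := fun n => by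
      fun_prop
    have he : F =ᶠ[𝓝 z] fun w => ∑' n, c n * w ^ n := by
      filter_upwards [isOpen_ball.mem_nhds hzρ] with w hw
      exact (h w (ball_subset_ball hρ1.le hw)).tsum_eq.symm
    have h1 := Complex.differentiableOn_tsum_of_summable_norm (h.summ hρ0 hρ1) hd isOpen_ball hb
    have h2 := Complex.hasSum_deriv_of_summable_norm (h.summ hρ0 hρ1) hd isOpen_ball hb hzρ
    refine ⟨(h1.differentiableAt (isOpen_ball.mem_nhds hzρ)).congr_of_eventuallyEq he, ?_⟩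
    rw [he.deriv_eq]
    have h3 := (hasSum_nat_add_iff' 1).2 h2
    simp only [Finset.range_one, Finset.sum_singleton, pow_zero, mul_one, deriv_const', sub_zero] at h3
    refine h3.congr_fun fun n => ?_
    rw [deriv_const_mul_field, deriv_fun_pow (by fun_prop)]
    simp; ring
  exact ⟨fun z hz => (key z hz).1.differentiableWithinAt, fun z hz => (key z hz).2⟩

lemma exists_rep (h : DifferentiableOn ℂ F (ball 0 1)) : ∃ c, Rep c F := by
  refine ⟨fun n => (n.factorial : ℂ)⁻¹ * iteratedDeriv n F 0, fun z hz => ?_⟩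
  refine (Complex.hasSum_taylorSeries_on_ball h hz).congr_fun fun n => ?_
  simp only [smul_eq_mul, sub_zero]; ring

lemma circ_mem {ρ : ℝ} (h0 : 0 ≤ ρ) (h1 : ρ < 1) (x : ℝ) : (ρ : ℂ) * ex (-1) x ∈ ball (0:ℂ) 1 := by
  rw [mem_ball_zero_iff, norm_mul, ex_norm, Complex.norm_real, Real.norm_of_nonneg h0]; linarith

lemma ex_pow (n : ℕ) (x : ℝ) : ex (-1) x ^ n = ex (-(n:ℤ)) x := by
  unfold ex; rw [← Complex.exp_nat_mul]; congr 1; push_cast; ring

lemma circ_cont (h : DifferentiableOn ℂ F (ball 0 1)) {ρ : ℝ} (h0 : 0 ≤ ρ) (h1 : ρ < 1) :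
    Continuous fun x : ℝ => F (ρ * ex (-1) x) :=
  h.continuousOn.comp_continuous (continuous_const.mul (ex_cont _)) (circ_mem h0 h1)

lemma Rep.ti (h : Rep c F) {ρ : ℝ} (h0 : 0 ≤ ρ) (h1 : ρ < 1) (G : ℝ → ℂ) (hG : Continuous G) :
    HasSum (fun n : ℕ => c n * ρ ^ n * ∫ x in (0:ℝ)..1, ex (-(n:ℤ)) x * G x)
      (∫ x in (0:ℝ)..1, F (ρ * ex (-1) x) * G x) := by
  simp_rw [← intervalIntegral.integral_const_mul]
  apply intervalIntegral.hasSum_integral_of_dominated_convergence (fun n x => ‖c n‖ * ρ ^ n * ‖G x‖)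
  · intro n
    exact (continuous_const.mul ((ex_cont _).mul hG)).aestronglyMeasurable
  · intro n
    refine Eventually.of_forall fun x _ => ?_
    simp [norm_mul, norm_pow, ex_norm, abs_of_nonneg h0]
  · exact Eventually.of_forall fun x _ => (h.summ h0 h1).mul_right _
  · simp_rw [tsum_mul_right]
    exact (continuous_const.mul hG.norm).intervalIntegrable _ _
  · refine Eventually.of_forall fun x _ => ?_
    refine ((h _ (circ_mem h0 h1 x)).mul_right (G x)).congr_fun fun n => ?_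
    rw [mul_pow, ex_pow]; ring

lemma Rep.pars (h : Rep c F) {ρ : ℝ} (h0 : 0 ≤ ρ) (h1 : ρ < 1) :
    HasSum (fun n : ℕ => ‖c n‖ ^ 2 * (ρ ^ 2) ^ n) (∫ x in (0:ℝ)..1, ‖F (ρ * ex (-1) x)‖ ^ 2) := by
  have hc := circ_cont h.diff.1 h0 h1
  have h2 : ∀ m : ℕ, ∫ x in (0:ℝ)..1, F (ρ * ex (-1) x) * ex m x = c m * ρ ^ m := by
    intro m
    refine (h.ti h0 h1 (ex m) (ex_cont _)).unique ?_
    convert hasSum_single m (fun n hn => ?_) using 1
    · simp [ex_mul]; simp [ex]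
    · simp_rw [ex_mul]
      rw [int_ex _ (by omega) 0 1 (-(n:ℤ) + m) (by simp), mul_zero]
  have h3 := h.ti h0 h1 (fun x => conj (F (ρ * ex (-1) x))) (Complex.continuous_conj.comp hc)
  have h4 : ∀ m : ℕ, ∫ x in (0:ℝ)..1, ex (-(m:ℤ)) x * conj (F (ρ * ex (-1) x)) =
      conj (c m * ρ ^ m) := by
    intro m
    rw [← h2, intervalIntegral.integral_of_le zero_le_one, intervalIntegral.integral_of_le zero_le_one,
      ← integral_conj]
    congr 1; funext x
    rw [map_mul, ex_conj, mul_comm]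
  simp_rw [h4, Complex.mul_conj'] at h3
  rw [← Complex.hasSum_ofReal, ← intervalIntegral.integral_ofReal]
  push_cast
  refine h3.congr_fun fun n => ?_
  rw [norm_mul, norm_pow, Complex.norm_real, Real.norm_of_nonneg h0]
  push_cast; ring

lemma Rep.uniq (h : Rep u U) (h' : Rep v V) (he : ∀ z ∈ ball (0:ℂ) 1, U z = V z) : u = v := by
  have h1 : Rep (fun n => u n - v n) (fun _ => 0) := by
    intro z hz
    have := (h z hz).sub (h' z hz)
    rw [he z hz, sub_self] at this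
    exact this.congr_fun fun n => by ring
  have h2 := h1.pars (ρ := 1 / 2) (by norm_num) (by norm_num)
  simp only [norm_zero, ne_eq, OfNat.ofNat_ne_zero, not_false_eq_true, zero_pow,
    intervalIntegral.integral_zero] at h2
  funext n
  have h3 := le_hasSum h2 n (fun _ _ => by positivity)
  have h4 : (0:ℝ) < ((1 / 2 : ℝ) ^ 2) ^ n := by positivity
  have h5 : ‖u n - v n‖ ^ 2 ≤ 0 := by
    by_contra hc; push Not at hc; nlinarith [mul_pos hc h4]
  have h6 : ‖u n - v n‖ = 0 := by nlinarith [norm_nonneg (u n - v n)]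
  exact sub_eq_zero.1 (norm_eq_zero.1 h6)

lemma Rep.mul (h : Rep u U) (h' : Rep v V) :
    Rep (fun n => ∑ p ∈ Finset.HasAntidiagonal.antidiagonal n, u p.1 * v p.2) (fun z => U z * V z) := by
  intro z hz
  have s1 := (h z hz).summable.norm
  have s2 := (h' z hz).summable.norm
  have h1 := (summable_norm_sum_mul_antidiagonal_of_summable_norm s1 s2).of_norm.hasSum
  rw [← tsum_mul_tsum_eq_tsum_sum_antidiagonal_of_summable_norm s1 s2, (h z hz).tsum_eq,
    (h' z hz).tsum_eq] at h1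
  refine h1.congr_fun fun n => ?_
  rw [Finset.sum_mul]
  apply Finset.sum_congr rfl
  intro p hp
  rw [← Finset.HasAntidiagonal.mem_antidiagonal.1 hp]; ring

lemma Rep.shift (h : Rep c F) : ∃ G, Rep (fun n => c (n + 1)) G ∧
    ∀ z ∈ ball (0:ℂ) 1, F z = c 0 + z * G z := by
  have hs : ∀ z ∈ ball (0:ℂ) 1, Summable fun n => c (n + 1) * z ^ n := by
    intro z hz
    refine Summable.of_norm_bounded (h.diff.2 z hz).summable.norm fun n => ?_
    rw [mul_assoc, norm_mul ((n:ℂ) + 1)]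
    apply le_mul_of_one_le_left (norm_nonneg _)
    have : ((n:ℂ) + 1) = ((n + 1 : ℕ) : ℂ) := by push_cast; ring
    rw [this, Complex.norm_natCast]; exact_mod_cast Nat.le_add_left 1 n
  refine ⟨fun z => ∑' n, c (n + 1) * z ^ n, fun z hz => (hs z hz).hasSum, fun z hz => ?_⟩
  have h1 := (hasSum_nat_add_iff' 1).2 (h z hz)
  have h2 := (hs z hz).hasSum.mul_left z
  have h3 := h1.unique (h2.congr_fun fun n => by ring)
  simp only [Finset.range_one, Finset.sum_singleton, pow_zero, mul_one] at h3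
  rw [← h3]; ring

lemma exists_omega {G H : ℂ → ℂ} (hG : DifferentiableOn ℂ G (ball 0 1))
    (hH : DifferentiableOn ℂ H (ball 0 1)) {k : ℝ} (hk : 0 ≤ k)
    (hb : ∀ z ∈ ball (0:ℂ) 1, ‖G z‖ ≤ k * ‖H z‖) :
    ∃ ω : ℂ → ℂ, DifferentiableOn ℂ ω (ball 0 1) ∧ (∀ z ∈ ball (0:ℂ) 1, ‖ω z‖ ≤ k) ∧
      ∀ z ∈ ball (0:ℂ) 1, G z = ω z * H z := by
  have hz0 : ∀ z ∈ ball (0:ℂ) 1, H z = 0 → G z = 0 := fun z hz h => by
    have := hb z hz; rw [h] at this; simpa using this
  by_cases h0 : EqOn H 0 (ball 0 1)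
  · exact ⟨fun _ => 0, differentiableOn_const _, fun _ _ => by simpa using hk,
      fun z hz => by rw [hz0 z hz (h0 hz)]; simp⟩
  have hq : ∀ z ∈ ball (0:ℂ) 1, ‖G z / H z‖ ≤ k := fun z hz => by
    rw [norm_div]; exact div_le_of_le_mul₀ (norm_nonneg _) hk (hb z hz)
  set q : ℂ → ℂ := fun z => G z / H z with hqd
  have hreg : ∀ z ∈ ball (0:ℂ) 1, H z ≠ 0 → DifferentiableAt ℂ q z := fun z hz h =>
    (hG.differentiableAt (isOpen_ball.mem_nhds hz)).div (hH.differentiableAt (isOpen_ball.mem_nhds hz)) h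
  have hlim : ∀ z ∈ ball (0:ℂ) 1, H z ≠ 0 → limUnder (𝓝[≠] z) q = q z := fun z hz h =>
    ((hreg z hz h).continuousAt.tendsto.mono_left nhdsWithin_le_nhds).limUnder_eq
  have key : ∀ z ∈ ball (0:ℂ) 1, DifferentiableAt ℂ (fun w => limUnder (𝓝[≠] w) q) z ∧
      ‖limUnder (𝓝[≠] z) q‖ ≤ k := by
    intro z hz
    have h1 : ∀ᶠ w in 𝓝[≠] z, H w ≠ 0 := by
      by_contra hc
      exact h0 ((hH.analyticOnNhd isOpen_ball).eqOn_zero_of_preconnected_of_frequently_eq_zero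
        (convex_ball _ _).isPreconnected hz (show ∃ᶠ w in 𝓝[≠] z, H w = 0 from hc))
    rw [eventually_nhdsWithin_iff] at h1
    have hs : {w | w ∈ ball (0:ℂ) 1 ∧ (w ∈ ({z}ᶜ : Set ℂ) → H w ≠ 0)} ∈ 𝓝 z :=
      inter_mem (isOpen_ball.mem_nhds hz) h1
    have h2 := Complex.differentiableOn_update_limUnder_of_bddAbove hs
      (f := q) (fun w hw => (hreg w hw.1.1 (hw.1.2 hw.2)).differentiableWithinAt)
      ⟨k, by rintro _ ⟨w, hw, rfl⟩; exact hq w hw.1.1⟩
    have h3 := h2.differentiableAt hs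
    have h4 : (fun w => limUnder (𝓝[≠] w) q) =ᶠ[𝓝 z] Function.update q z (limUnder (𝓝[≠] z) q) := by
      filter_upwards [hs] with w hw
      by_cases hwz : w = z
      · subst hwz; simp
      · rw [Function.update_of_ne hwz, hlim w hw.1 (hw.2 hwz)]
    refine ⟨h3.congr_of_eventuallyEq h4, ?_⟩
    have h5 := continuousAt_update_same.1 h3.continuousAt
    refine le_of_tendsto h5.norm ?_
    filter_upwards [mem_nhdsWithin_of_mem_nhds (isOpen_ball.mem_nhds hz)] with w hw using hq w hw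
  refine ⟨fun w => limUnder (𝓝[≠] w) q, fun z hz => (key z hz).1.differentiableWithinAt,
    fun z hz => (key z hz).2, fun z hz => ?_⟩
  by_cases h : H z = 0
  · rw [hz0 z hz h, h, mul_zero]
  · show G z = limUnder (𝓝[≠] z) q * H z
    rw [hlim z hz h]; simp only [hqd]; field_simp

lemma abel (d w : ℕ → ℝ) (hd : ∀ N, 0 ≤ ∑ n ∈ Finset.range N, d n) (hw : Antitone w)
    (hw0 : ∀ n, 0 ≤ w n) (N : ℕ) : 0 ≤ ∑ n ∈ Finset.range N, w n * d n := by
  have : ∀ N, w N * ∑ n ∈ Finset.range N, d n ≤ ∑ n ∈ Finset.range N, w n * d n := by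
    intro N
    induction N with
    | zero => simp
    | succ N ih =>
      have h1 := mul_le_mul_of_nonneg_right (hw (Nat.le_succ N)) (hd (N + 1))
      rw [Finset.sum_range_succ] at h1
      rw [Finset.sum_range_succ, Finset.sum_range_succ]
      nlinarith
  exact (mul_nonneg (hw0 N) (hd N)).trans (this N)

lemma rog0 (hu : Rep u U) (hv : Rep v V) {k : ℝ} (hk : 0 ≤ k)
    (hb : ∀ z ∈ ball (0:ℂ) 1, ‖U z‖ ≤ k * ‖V z‖) (N : ℕ) :
    ∑ n ∈ Finset.range N, ‖u n‖ ^ 2 ≤ k ^ 2 * ∑ n ∈ Finset.range N, ‖v n‖ ^ 2 := by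
  obtain ⟨ω, h1, h2, h3⟩ := exists_omega hu.diff.1 hv.diff.1 hk hb
  obtain ⟨w, hw⟩ := exists_rep h1
  have h4 := hu.uniq (hw.mul hv) h3
  have hv' : Rep (fun n => if n < N then v n else 0) (fun z => ∑ n ∈ Finset.range N, v n * z ^ n) := by
    intro z _
    have e : ∑ n ∈ Finset.range N, v n * z ^ n =
        ∑ n ∈ Finset.range N, (if n < N then v n else 0) * z ^ n :=
      Finset.sum_congr rfl fun n hn => by rw [if_pos (Finset.mem_range.1 hn)]
    show HasSum _ (∑ n ∈ Finset.range N, v n * z ^ n)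
    rw [e]
    exact hasSum_sum_of_ne_finset_zero (fun n hn => by
        have : ¬ n < N := by simpa using hn
        simp [this])
  have h5 : ∀ ρ : ℝ, 0 ≤ ρ → ρ < 1 → ∑ n ∈ Finset.range N, ‖u n‖ ^ 2 * (ρ ^ 2) ^ n ≤
      k ^ 2 * ∑ n ∈ Finset.range N, ‖v n‖ ^ 2 * (ρ ^ 2) ^ n := by
    intro ρ h0 hρ
    have p1 := sum_le_hasSum (Finset.range N) (fun _ _ => by positivity) ((hw.mul hv').pars h0 hρ)
    have p2 := (hv'.pars h0 hρ).unique (hasSum_sum_of_ne_finset_zero (s := Finset.range N)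
      (fun n hn => by rw [if_neg (by simpa using hn)]; simp))
    have p3 : ∑ n ∈ Finset.range N, ‖(if n < N then v n else 0)‖ ^ 2 * (ρ ^ 2) ^ n =
        ∑ n ∈ Finset.range N, ‖v n‖ ^ 2 * (ρ ^ 2) ^ n :=
      Finset.sum_congr rfl fun n hn => by rw [if_pos (Finset.mem_range.1 hn)]
    rw [← p3, ← p2, ← intervalIntegral.integral_const_mul]
    refine le_trans (le_of_eq ?_) (p1.trans ?_)
    · apply Finset.sum_congr rfl
      intro n hn
      rw [h4]
      congr 3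
      apply Finset.sum_congr rfl
      intro p hp
      have := Finset.HasAntidiagonal.mem_antidiagonal.1 hp
      have := Finset.mem_range.1 hn
      rw [if_pos (by omega)]
    · apply intervalIntegral.integral_mono_on zero_le_one
      · exact ((circ_cont (hw.mul hv').diff.1 h0 hρ).norm.pow 2).intervalIntegrable _ _
      · exact (continuous_const.mul ((circ_cont hv'.diff.1 h0 hρ).norm.pow 2)).intervalIntegrable _ _
      · intro x _
        rw [norm_mul, mul_pow]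
        have := h2 _ (circ_mem h0 hρ x)
        gcongr
  have c1 : Continuous fun ρ : ℝ => ∑ n ∈ Finset.range N, ‖u n‖ ^ 2 * (ρ ^ 2) ^ n := by fun_prop
  have c2 : Continuous fun ρ : ℝ => k ^ 2 * ∑ n ∈ Finset.range N, ‖v n‖ ^ 2 * (ρ ^ 2) ^ n := by
    fun_prop
  have := le_of_tendsto_of_tendsto (b := 𝓝[<] (1:ℝ))
    ((c1.tendsto 1).mono_left nhdsWithin_le_nhds) ((c2.tendsto 1).mono_left nhdsWithin_le_nhds)
    (by filter_upwards [Ioo_mem_nhdsLT zero_lt_one] with ρ hρ using h5 ρ hρ.1.le hρ.2)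
  simpa using this

lemma rog (hu : Rep u U) (hv : Rep v V) {k : ℝ} (hk : 0 ≤ k)
    (hb : ∀ z ∈ ball (0:ℂ) 1, ‖U z‖ ≤ k * ‖V z‖) (w : ℕ → ℝ) (hw : Antitone w)
    (hw0 : ∀ n, 0 ≤ w n) (N : ℕ) :
    ∑ n ∈ Finset.range N, w n * ‖u n‖ ^ 2 ≤ k ^ 2 * ∑ n ∈ Finset.range N, w n * ‖v n‖ ^ 2 := by
  have := abel (fun n => k ^ 2 * ‖v n‖ ^ 2 - ‖u n‖ ^ 2) w (fun M => by
    rw [Finset.sum_sub_distrib, ← Finset.mul_sum]; linarith [rog0 hu hv hk hb M]) hw hw0 N
  rw [Finset.mul_sum, ← sub_nonneg, ← Finset.sum_sub_distrib]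
  exact this.trans_eq (Finset.sum_congr rfl fun n _ => by ring)

end Pool.Agent.H41.Bh
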