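import Pool.Agent.H41.Bh1

set_option autoImplicit false

namespace Pool.Agent.H41.Bh

open Metric Filter Topology Set
open scoped ComplexConjugate

noncomputable def phi (r x : ℝ) : ℝ := x + (1 - x ^ 2) * r / (1 - x * r)

lemma geo_le {t : ℝ} (h0 : 0 ≤ t) (h1 : t < 1) (N : ℕ) :
    ∑ n ∈ Finset.range N, t ^ n ≤ 1 / (1 - t) := by
  rw [one_div]
  exact sum_le_hasSum _ (fun _ _ => by positivity) (hasSum_geometric_of_lt_one h0 h1)

/-- the real-variable core -/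
lemma core (c e : ℕ → ℝ) (hc0 : 0 ≤ c 0) (hc1 : c 0 < 1) (r m : ℝ) (r0 : 0 < r) (r1 : r ^ 2 ≤ 1 / 2)
    (hm : ∀ x, 0 ≤ x → x < 1 → phi r x ≤ m) (hm1 : 1 / (1 - r / 8) ≤ m)
    (hS : ∀ t, 0 ≤ t → t ≤ 1 → ∀ N, ∑ n ∈ Finset.range N, t ^ n * c (n + 1) ^ 2 ≤
      (1 - c 0 ^ 2) ^ 2 / (1 - c 0 ^ 2 * t))
    (hR : ∀ w : ℕ → ℝ, Antitone w → (∀ n, 0 ≤ w n) → ∀ N,
      ∑ n ∈ Finset.range N, w n * (((n:ℝ) + 1) * e n) ^ 2 ≤
        ∑ n ∈ Finset.range N, w n * (((n:ℝ) + 1) * c n) ^ 2) (N : ℕ) :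
    ∑ n ∈ Finset.range (N + 1), e n * r ^ n ≤ m := by
  have r2 : r < 3 / 4 := by nlinarith
  obtain ⟨x, x1, x2, x3⟩ : ∃ x : ℝ, r ≤ x ∧ x ≤ 1 - r / 8 ∧
      c 0 ^ 2 / x + r * (1 - c 0 ^ 2) ^ 2 / ((1 - x ^ 2) * (1 - c 0 ^ 2 * (r / x))) ≤ m := by
    set a := c 0
    by_cases h1 : a < r
    · refine ⟨r, le_rfl, by linarith, le_trans ?_ (hm r r0.le (by linarith))⟩
      have ha2 : a ^ 2 ≤ r ^ 2 := by nlinarith
      have p1 : 0 < 1 - a ^ 2 := by nlinarith
      have p2 : 0 < 1 - r ^ 2 := by nlinarith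
      have e1 : phi r r = 2 * r := by
        unfold phi; rw [show 1 - r * r = 1 - r ^ 2 by ring]; field_simp; ring
      rw [div_self r0.ne', mul_one, e1]
      have e2 : a ^ 2 / r + r * (1 - a ^ 2) ^ 2 / ((1 - r ^ 2) * (1 - a ^ 2)) =
          (a ^ 2 * (1 - r ^ 2) + r ^ 2 * (1 - a ^ 2)) / (r * (1 - r ^ 2)) := by field_simp
      rw [e2, div_le_iff₀ (by positivity)]
      nlinarith [mul_nonneg (sub_nonneg.2 ha2) (show 0 ≤ 1 - 2 * r ^ 2 by linarith)]
    push Not at h1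
    by_cases h2 : a ≤ 1 - r / 8
    · refine ⟨a, h1, h2, le_trans (le_of_eq ?_) (hm a hc0 hc1)⟩
      have p0 : 0 < a := by linarith
      have p1 : 0 < 1 - a ^ 2 := by nlinarith
      have p2 : 0 < 1 - a * r := by nlinarith
      unfold phi
      rw [show a ^ 2 * (r / a) = a * r by field_simp]
      field_simp
    · push Not at h2
      set x := 1 - r / 8 with hx
      have p0 : 0 < x := by linarith
      have px : x < 1 := by linarith
      have prx : r ≤ x := by linarith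
      have p1 : 0 < 1 - x ^ 2 := by nlinarith
      have p2 : 0 < 1 - x * r := by nlinarith
      have p3 : x ^ 2 ≤ a ^ 2 := by nlinarith
      have p4 : a ^ 2 < 1 := by nlinarith
      have q1 : r / x ≤ 1 := (div_le_one p0).2 prx
      have q0 : 0 ≤ r / x := by positivity
      have p5 : 0 < 1 - a ^ 2 * (r / x) := by nlinarith [sq_nonneg a]
      refine ⟨x, prx, le_rfl, ?_⟩
      have s1 : r * (1 - a ^ 2) ^ 2 / ((1 - x ^ 2) * (1 - a ^ 2 * (r / x))) ≤
          (1 - a ^ 2) * r / (1 - x * r) := by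
        rw [div_le_div_iff₀ (by positivity) p2]
        have e : x * r = x ^ 2 * (r / x) := by field_simp
        have : (1 - a ^ 2) * (1 - x * r) ≤ (1 - x ^ 2) * (1 - a ^ 2 * (r / x)) := by
          rw [e]; nlinarith [mul_nonneg (sub_nonneg.2 p3) (sub_nonneg.2 q1)]
        have h5 : 0 ≤ r * (1 - a ^ 2) := by nlinarith
        nlinarith [mul_le_mul_of_nonneg_left this h5]
      have s2 := hm x p0.le px
      have s3 : a ^ 2 / x + (1 - a ^ 2) * r / (1 - x * r) =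
          ((1 - a ^ 2) / (1 - x ^ 2)) * phi r x + (1 - (1 - a ^ 2) / (1 - x ^ 2)) * (1 / x) := by
        unfold phi; field_simp; ring
      have l0 : 0 ≤ (1 - a ^ 2) / (1 - x ^ 2) := div_nonneg (by linarith) p1.le
      have l1 : (1 - a ^ 2) / (1 - x ^ 2) ≤ 1 := (div_le_one p1).2 (by linarith)
      nlinarith [mul_le_mul_of_nonneg_left s2 l0, mul_le_mul_of_nonneg_left hm1 (sub_nonneg.2 l1)]
  have p0 : 0 < x := by linarith
  have px : x < 1 := by linarith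
  have p1 : 0 < 1 - x ^ 2 := by nlinarith
  have p2 : 0 < 1 - x * r := by nlinarith
  have q1 : r / x ≤ 1 := (div_le_one p0).2 x1
  let A : ℕ → ℝ := fun n => Nat.casesOn n x fun n => (1 - x ^ 2) * x ^ n
  have A0 : ∀ n, 0 < A n := by
    intro n; cases n with
    | zero => exact p0
    | succ n => show 0 < (1 - x ^ 2) * x ^ n; positivity
  let w : ℕ → ℝ := fun n => r ^ n / (((n:ℝ) + 1) ^ 2 * A n)
  have w0 : ∀ n, 0 ≤ w n := fun n => by have := A0 n; positivity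
  have wa : Antitone w := by
    apply antitone_nat_of_succ_le
    intro n
    have a1 := A0 n
    have a2 := A0 (n + 1)
    simp only [w]
    rw [div_le_div_iff₀ (by positivity) (by positivity)]
    cases n with
    | zero =>
      simp only [A]
      norm_num
      nlinarith
    | succ n =>
      simp only [A]
      push_cast
      have h1 : ((n:ℝ) + 1 + 1) ^ 2 ≤ ((n:ℝ) + 1 + 1 + 1) ^ 2 := by gcongr; linarith
      calc r ^ (n + 1 + 1) * (((n:ℝ) + 1 + 1) ^ 2 * ((1 - x ^ 2) * x ^ n))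
          = r ^ (n + 1) * (((n:ℝ) + 1 + 1) ^ 2 * ((1 - x ^ 2) * (x ^ n * r))) := by ring
        _ ≤ r ^ (n + 1) * (((n:ℝ) + 1 + 1 + 1) ^ 2 * ((1 - x ^ 2) * (x ^ n * x))) := by gcongr
        _ = _ := by ring
  have t1 : ∀ n, e n * r ^ n ≤ (w n * (((n:ℝ) + 1) * e n) ^ 2 + A n * r ^ n) / 2 := by
    intro n
    have a1 := A0 n
    have : w n * (((n:ℝ) + 1) * e n) ^ 2 = r ^ n * (e n ^ 2 / A n) := by
      simp only [w]; field_simp
    rw [this]
    have h2 : 2 * e n ≤ e n ^ 2 / A n + A n := by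
      rw [div_add' _ _ _ a1.ne', le_div_iff₀ a1]; nlinarith [sq_nonneg (e n - A n)]
    nlinarith [mul_le_mul_of_nonneg_left h2 (pow_pos r0 n).le]
  have t2 : ∑ n ∈ Finset.range (N + 1), A n * r ^ n ≤ m := by
    refine le_trans ?_ (hm x p0.le px)
    rw [Finset.sum_range_succ']
    have : ∑ n ∈ Finset.range N, A (n + 1) * r ^ (n + 1) =
        (1 - x ^ 2) * r * ∑ n ∈ Finset.range N, (x * r) ^ n := by
      rw [Finset.mul_sum]
      apply Finset.sum_congr rfl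
      intro n _
      simp only [A]; ring
    rw [this]
    have h3 := mul_le_mul_of_nonneg_left (geo_le (t := x * r) (by positivity) (by linarith) N)
      (show 0 ≤ (1 - x ^ 2) * r by positivity)
    unfold phi
    have h5 : A 0 * r ^ 0 = x := by rw [pow_zero, mul_one]; rfl
    rw [mul_one_div] at h3
    rw [h5]
    linarith
  have t3 : ∑ n ∈ Finset.range (N + 1), w n * (((n:ℝ) + 1) * c n) ^ 2 ≤ m := by
    refine le_trans ?_ x3
    rw [Finset.sum_range_succ']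
    have : ∑ n ∈ Finset.range N, w (n + 1) * ((((n + 1 : ℕ) : ℝ) + 1) * c (n + 1)) ^ 2 =
        r / (1 - x ^ 2) * ∑ n ∈ Finset.range N, (r / x) ^ n * c (n + 1) ^ 2 := by
      rw [Finset.mul_sum]
      apply Finset.sum_congr rfl
      intro n _
      simp only [w, A]; rw [div_pow]; field_simp; ring
    rw [this]
    have h3 := mul_le_mul_of_nonneg_left (hS (r / x) (by positivity) q1 N)
      (show 0 ≤ r / (1 - x ^ 2) by positivity)
    rw [div_mul_div_comm] at h3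
    have h4 : w 0 * ((((0:ℕ):ℝ) + 1) * c 0) ^ 2 = c 0 ^ 2 / x := by
      have h5 : A 0 = x := rfl
      simp only [w, h5]; simp; field_simp
    rw [h4]; linarith
  have t4 := hR w wa w0 (N + 1)
  have t5 := Finset.sum_le_sum (s := Finset.range (N + 1)) fun n _ => t1 n
  rw [← Finset.sum_div, Finset.sum_add_distrib] at t5
  linarith

lemma mob {u c : ℂ} (hu : ‖u‖ ≤ 1) (hc : ‖c‖ ≤ 1) : ‖u - c‖ ≤ ‖1 - conj c * u‖ := by
  apply (sq_le_sq₀ (norm_nonneg _) (norm_nonneg _)).1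
  have h1 : ‖u‖ ^ 2 ≤ 1 := by nlinarith [norm_nonneg u]
  have h2 : ‖c‖ ^ 2 ≤ 1 := by nlinarith [norm_nonneg c]
  rw [Complex.sq_norm, Complex.normSq_apply] at h1 h2
  rw [Complex.sq_norm, Complex.sq_norm, Complex.normSq_apply, Complex.normSq_apply]
  simp
  nlinarith [mul_nonneg (sub_nonneg.2 h1) (sub_nonneg.2 h2)]

lemma ext0 {F G : ℂ → ℂ} (hF : DifferentiableOn ℂ F (ball 0 1)) (hG : DifferentiableOn ℂ G (ball 0 1))
    (h : ∀ z ∈ ball (0:ℂ) 1, ‖z * F z‖ ≤ ‖z‖ * ‖G z‖) : ∀ z ∈ ball (0:ℂ) 1, ‖F z‖ ≤ ‖G z‖ := by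
  have h1 : ∀ z ∈ ball (0:ℂ) 1, z ≠ 0 → ‖F z‖ ≤ ‖G z‖ := fun z hz h0 => by
    have := h z hz
    rw [norm_mul] at this
    exact le_of_mul_le_mul_left this (norm_pos_iff.2 h0)
  intro z hz
  by_cases h0 : z = 0
  · subst h0
    have hn := isOpen_ball.mem_nhds hz
    refine le_of_tendsto_of_tendsto (b := 𝓝[≠] (0:ℂ))
      (((hF.differentiableAt hn).continuousAt.tendsto.mono_left nhdsWithin_le_nhds).norm)
      (((hG.differentiableAt hn).continuousAt.tendsto.mono_left nhdsWithin_le_nhds).norm) ?_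
    filter_upwards [mem_nhdsWithin_of_mem_nhds hn, self_mem_nhdsWithin] with w hw hw0
    exact h1 w hw hw0
  · exact h1 z hz h0

lemma schur {c : ℕ → ℂ} {B : ℂ → ℂ} (hB : Rep c B) (hb : ∀ z ∈ ball (0:ℂ) 1, ‖B z‖ ≤ 1)
    (h0 : ‖c 0‖ < 1) (t : ℝ) (t0 : 0 ≤ t) (t1 : t ≤ 1) (N : ℕ) :
    ∑ n ∈ Finset.range N, t ^ n * ‖c (n + 1)‖ ^ 2 ≤ (1 - ‖c 0‖ ^ 2) ^ 2 / (1 - ‖c 0‖ ^ 2 * t) := by
  obtain ⟨B1, h1, h2⟩ := hB.shift
  have hv : Rep (fun n => (if n = 0 then 1 else 0) - conj (c 0) * c n)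
      (fun z => 1 - conj (c 0) * B z) := by
    intro z hz
    have s1 : HasSum (fun n : ℕ => (if n = 0 then (1:ℂ) else 0) * z ^ n) 1 := by
      convert hasSum_single 0 (fun n hn => ?_) using 1
      · simp
      · simp [hn]
    exact (s1.sub ((hB z hz).mul_left (conj (c 0)))).congr_fun fun n => by ring
  have hne : ∀ z ∈ ball (0:ℂ) 1, 1 - conj (c 0) * B z ≠ 0 := by
    intro z hz h
    have : ‖conj (c 0) * B z‖ < 1 := by
      rw [norm_mul, Complex.norm_conj]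
      nlinarith [hb z hz, norm_nonneg (c 0), norm_nonneg (B z)]
    rw [← sub_eq_zero.1 h] at this
    simp at this
  have hB0 : B 0 = c 0 := by rw [h2 0 (by simp)]; simp
  have hW : ∀ z ∈ ball (0:ℂ) 1, ‖(B z - c 0) / (1 - conj (c 0) * B z)‖ ≤ ‖z‖ := by
    intro z hz
    apply Complex.norm_le_norm_of_mapsTo_ball (R := 1)
      (f := fun z => (B z - c 0) / (1 - conj (c 0) * B z))
    · exact (hB.diff.1.sub_const _).div hv.diff.1 hne
    · intro w hw
      rw [mem_closedBall_zero_iff, norm_div]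
      exact div_le_one_of_le₀ (mob (hb w hw) h0.le) (norm_nonneg _)
    · simp [hB0]
    · exact mem_ball_zero_iff.1 hz
  have h3 := ext0 h1.diff.1 hv.diff.1 (fun z hz => by
    have := hW z hz
    rw [norm_div, div_le_iff₀ (norm_pos_iff.2 (hne z hz))] at this
    rwa [show z * B1 z = B z - c 0 by rw [h2 z hz]; ring])
  have h4 := rog h1 hv zero_le_one (fun z hz => by rw [one_mul]; exact h3 z hz) (fun n => t ^ n)
    (fun a b hab => pow_le_pow_of_le_one t0 t1 hab) (fun n => by positivity) (N + 1)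
  rw [Finset.sum_range_succ, Finset.sum_range_succ'] at h4
  have e1 : ‖(if (0:ℕ) = 0 then (1:ℂ) else 0) - conj (c 0) * c 0‖ = 1 - ‖c 0‖ ^ 2 := by
    rw [if_pos rfl, Complex.conj_mul', ← Complex.ofReal_pow, ← Complex.ofReal_one,
      ← Complex.ofReal_sub, Complex.norm_real, Real.norm_of_nonneg]
    nlinarith [norm_nonneg (c 0)]
  have e2 : ∑ n ∈ Finset.range N, t ^ (n + 1) *
      ‖(if n + 1 = 0 then (1:ℂ) else 0) - conj (c 0) * c (n + 1)‖ ^ 2 =
      ‖c 0‖ ^ 2 * t * ∑ n ∈ Finset.range N, t ^ n * ‖c (n + 1)‖ ^ 2 := by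
    rw [Finset.mul_sum]
    apply Finset.sum_congr rfl
    intro n _
    rw [if_neg (by omega), zero_sub, norm_neg, norm_mul, Complex.norm_conj]; ring
  rw [e1, e2] at h4
  have p : 0 < 1 - ‖c 0‖ ^ 2 * t := by nlinarith [norm_nonneg (c 0), sq_nonneg ‖c 0‖]
  rw [le_div_iff₀ p]
  have : 0 ≤ t ^ N * ‖c (N + 1)‖ ^ 2 := by positivity
  nlinarith

end Pool.Agent.H41.Bh
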