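import Pool.Agent.H41.Bh2

set_option autoImplicit false

namespace Pool.Agent.H41.Bh

open Metric Filter Topology Set
open scoped ComplexConjugate

lemma rK_facts {K : ℝ} (hK : 1 < K) : ∃ μ : ℝ, 1 / 2 < μ ∧ μ < 1 ∧ (1 + (K - 1) / (K + 1)) * μ = 1 ∧
    0 < rK K ∧ rK K ^ 2 = (-μ ^ 2 + 6 * μ - 1) / 8 := by
  have hK0 : 0 < K := by linarith
  have h1 : 1 / 2 < (K + 1) / (2 * K) := by rw [lt_div_iff₀ (by positivity)]; linarith
  have h2 : (K + 1) / (2 * K) < 1 := by rw [div_lt_one (by positivity)]; linarith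
  have h3 : 7 / 2 - 1 / (2 * K ^ 2) + 5 / K =
      2 * (-((K + 1) / (2 * K)) ^ 2 + 6 * ((K + 1) / (2 * K)) - 1) := by field_simp; ring
  have h4 : 0 < 7 / 2 - 1 / (2 * K ^ 2) + 5 / K := by rw [h3]; nlinarith
  refine ⟨(K + 1) / (2 * K), h1, h2, by field_simp; ring, ?_, ?_⟩
  · unfold rK; have := Real.sqrt_pos.2 h4; positivity
  · unfold rK; rw [mul_pow, Real.sq_sqrt h4.le, h3]; ring

lemma phi_le {μ r : ℝ} (r0 : 0 < r) (r1 : r < 1) (hr : r ^ 2 = (-μ ^ 2 + 6 * μ - 1) / 8) (x : ℝ)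
    (_x0 : 0 ≤ x) (x1 : x < 1) : phi r x ≤ μ / r := by
  have p : 0 < 1 - x * r := by nlinarith
  unfold phi
  rw [add_div' _ _ _ p.ne', div_le_div_iff₀ p r0]
  nlinarith [sq_nonneg (r * x - (1 + μ) / 4)]

lemma upper1 {K : ℝ} (hK : 1 < K) {a b : ℕ → ℂ} {h g : ℂ → ℂ} (ha : Rep a h) (hb : Rep b g)
    (a0 : a 0 = 0) (b0 : b 0 = 0) {s : ℝ} (s1 : s < 1) (hs : ∀ z ∈ ball (0:ℂ) 1, ‖h z‖ ≤ s)
    (hd : ∀ z ∈ ball (0:ℂ) 1, ‖deriv g z‖ ≤ (K - 1) / (K + 1) * ‖deriv h z‖) (N : ℕ) :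
    ∑ n ∈ Finset.range N, (‖a n‖ + ‖b n‖) * rK K ^ n ≤ 1 := by
  obtain ⟨μ, m0, m1, m2, r0, r2⟩ := rK_facts hK
  set r := rK K
  set k := (K - 1) / (K + 1) with hk
  have k0 : 0 < k := div_pos (by linarith) (by linarith)
  have r1 : r ^ 2 ≤ 1 / 2 := by nlinarith
  have r3 : r < 3 / 4 := by nlinarith
  obtain ⟨B, hB, hB2⟩ := ha.shift
  have s0 : 0 ≤ s := (norm_nonneg _).trans (hs 0 (by simp))
  have hBs : ∀ z ∈ ball (0:ℂ) 1, ‖B z‖ ≤ ‖(fun _ : ℂ => (s : ℂ)) z‖ := by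
    apply ext0 hB.diff.1 (differentiableOn_const _)
    intro z hz
    have h0 : h 0 = 0 := by rw [hB2 0 (by simp), a0]; simp
    have := Complex.dist_le_div_mul_dist_of_mapsTo_ball (R₂ := s) ha.diff.1 (fun w hw => by
      rw [h0, mem_closedBall_zero_iff]; exact hs w hw) hz
    rw [h0, dist_zero_right, dist_zero_right, hB2 z hz, a0, zero_add] at this
    rw [Complex.norm_real, Real.norm_of_nonneg s0]; linarith
  simp only [Complex.norm_real, Real.norm_of_nonneg s0] at hBs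
  have hc1 : ‖a (0 + 1)‖ < 1 := by
    have h1 := (hB 0 (by simp)).unique (hasSum_single 0 (fun n hn => by simp [hn]))
    have h2 := hBs 0 (by simp)
    rw [h1] at h2
    simp only [pow_zero, mul_one] at h2
    linarith
  have hS := schur hB (fun z hz => (hBs z hz).trans s1.le) hc1
  have hm1 : 1 / (1 - r / 8) ≤ μ / r := by
    rw [div_le_div_iff₀ (by linarith) r0]
    have : r * (1 + μ / 8) ≤ μ := by
      apply (sq_le_sq₀ (by positivity) (by linarith)).1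
      rw [mul_pow, r2]
      nlinarith [mul_pos (sub_pos.2 m0) (sub_pos.2 m1), sq_nonneg μ, sq_nonneg (μ - 1 / 2),
        mul_pos (sub_pos.2 m0) (sub_pos.2 m0)]
    linarith
  have nn : ∀ (n : ℕ) (z : ℂ), ‖((n : ℂ) + 1) * z‖ = ((n : ℝ) + 1) * ‖z‖ := by
    intro n z
    have : ((n:ℂ) + 1) = ((n + 1 : ℕ) : ℂ) := by push_cast; ring
    rw [norm_mul, this, Complex.norm_natCast]; push_cast; ring
  have c1 := core (fun n => ‖a (n + 1)‖) (fun n => ‖a (n + 1)‖) (norm_nonneg _) hc1 r (μ / r) r0 r1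
    (phi_le r0 (by linarith) r2) hm1 hS (fun _ _ _ _ => le_rfl)
  have c2 := core (fun n => ‖a (n + 1)‖) (fun n => ‖b (n + 1)‖ / k) (norm_nonneg _) hc1 r (μ / r) r0 r1
    (phi_le r0 (by linarith) r2) hm1 hS (fun w hw hw0 M => by
      have := rog hb.diff.2 ha.diff.2 k0.le hd w hw hw0 M
      simp only [nn] at this
      have e : ∑ n ∈ Finset.range M, w n * (((n:ℝ) + 1) * (‖b (n + 1)‖ / k)) ^ 2 =
          (∑ n ∈ Finset.range M, w n * (((n:ℝ) + 1) * ‖b (n + 1)‖) ^ 2) / k ^ 2 := by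
        rw [Finset.sum_div]
        exact Finset.sum_congr rfl fun n _ => by field_simp
      rw [e, div_le_iff₀ (by positivity)]; linarith)
  refine le_trans (Finset.sum_le_sum_of_subset_of_nonneg
    (Finset.range_subset_range.2 (show N ≤ N + 1 + 1 by omega)) (fun _ _ _ => by positivity)) ?_
  rw [Finset.sum_range_succ', a0, b0]
  have e : ∑ n ∈ Finset.range (N + 1), (‖a (n + 1)‖ + ‖b (n + 1)‖) * r ^ (n + 1) =
      r * ∑ n ∈ Finset.range (N + 1), ‖a (n + 1)‖ * r ^ n +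
      k * r * ∑ n ∈ Finset.range (N + 1), ‖b (n + 1)‖ / k * r ^ n := by
    rw [Finset.mul_sum, Finset.mul_sum, ← Finset.sum_add_distrib]
    exact Finset.sum_congr rfl fun n _ => by field_simp; ring
  rw [e]
  have d1 := mul_le_mul_of_nonneg_left (c1 N) r0.le
  have d2 := mul_le_mul_of_nonneg_left (c2 N) (show 0 ≤ k * r by positivity)
  have d3 : r * (μ / r) = μ := by field_simp
  rw [mul_assoc k r (μ / r), d3] at d2
  rw [d3] at d1
  simp only [norm_zero, add_zero, zero_mul]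
  nlinarith

theorem upper {K : ℝ} (hK : 1 < K) {a b : ℕ → ℂ} {h g : ℂ → ℂ} (H : InF K a b h g) {r : ℝ}
    (r0 : 0 ≤ r) (r1 : r ≤ rK K) : Bohr a b h r := by
  obtain ⟨ha, hb, a0, b0, hbd, hd⟩ := H
  intro N
  have hS : ∀ z ∈ ball (0:ℂ) 1, ‖h z‖ ≤ supNorm h := fun z hz => le_csSup hbd ⟨z, hz, rfl⟩
  have S0 : 0 ≤ supNorm h := (norm_nonneg _).trans (hS 0 (by simp))
  refine le_trans (Finset.sum_le_sum fun n _ => mul_le_mul_of_nonneg_left
    (pow_le_pow_left₀ r0 r1 n) (by positivity)) ?_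
  apply le_of_forall_pos_le_add
  intro ε hε
  set M := supNorm h + ε with hM
  have M0 : 0 < M := by linarith
  have nM : ‖((M⁻¹ : ℝ) : ℂ)‖ = M⁻¹ := by rw [Complex.norm_real, Real.norm_of_nonneg (by positivity)]
  have sc : ∀ {c : ℕ → ℂ} {F : ℂ → ℂ}, Rep c F →
      Rep (fun n => ((M⁻¹ : ℝ) : ℂ) * c n) (fun z => ((M⁻¹ : ℝ) : ℂ) * F z) := fun hc z hz =>
    ((hc z hz).mul_left _).congr_fun fun n => by ring
  have := upper1 hK (sc ha) (sc hb) (by simp [a0]) (by simp [b0]) (s := M⁻¹ * supNorm h)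
    (by rw [inv_mul_lt_iff₀ M0]; linarith)
    (fun z hz => by rw [norm_mul, nM]; exact mul_le_mul_of_nonneg_left (hS z hz) (by positivity))
    (fun z hz => by
      rw [deriv_const_mul_field, deriv_const_mul_field, norm_mul, norm_mul, nM]
      have := mul_le_mul_of_nonneg_left (hd z hz) (show 0 ≤ M⁻¹ by positivity)
      linarith) N
  simp only [norm_mul, nM, ← mul_add, mul_assoc, ← Finset.mul_sum] at this
  rwa [inv_mul_le_iff₀ M0, mul_one] at this

theorem sharp {K : ℝ} (hK : 1 < K) {ρ : ℝ} (hρ : rK K < ρ) :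
    ∃ a b h g, InF K a b h g ∧ ¬ Bohr a b h ρ := by
  obtain ⟨μ, m0, m1, m2, r0, r2⟩ := rK_facts hK
  set r := rK K
  set k := (K - 1) / (K + 1) with hk
  have k0 : 0 < k := div_pos (by linarith) (by linarith)
  have r3 : r < 3 / 4 := by nlinarith
  set x := (1 + μ) / (4 * r) with hx
  have x0 : 0 < x := by positivity
  have x1 : x < 1 := by
    rw [hx, div_lt_one (by positivity)]
    apply lt_of_pow_lt_pow_left₀ 2 (by positivity)
    nlinarith
  have xr : x * r = (1 + μ) / 4 := by rw [hx]; field_simp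
  let a : ℕ → ℂ := fun n => Nat.casesOn n 0 fun n => Nat.casesOn n (-x) fun n => (1 - x ^ 2) * x ^ n
  let h : ℂ → ℂ := fun z => z * ((z - x) / (1 - conj (x : ℂ) * z))
  have nx : ‖(x : ℂ)‖ = x := by rw [Complex.norm_real, Real.norm_of_nonneg x0.le]
  have hxz : ∀ z ∈ ball (0:ℂ) 1, ‖(x : ℂ) * z‖ < 1 := fun z hz => by
    rw [norm_mul, nx]; nlinarith [mem_ball_zero_iff.1 hz, norm_nonneg z]
  have ha : Rep a h := by
    intro z hz
    have h1 := (hasSum_geometric_of_norm_lt_one (hxz z hz)).mul_left ((1 - (x:ℂ) ^ 2) * z ^ 2)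
    have hne : 1 - (x : ℂ) * z ≠ 0 := by
      intro h0
      have := hxz z hz
      rw [← sub_eq_zero.1 h0] at this; simp at this
    rw [← hasSum_nat_add_iff' 2]
    have e : h z - ∑ i ∈ Finset.range 2, a i * z ^ i = (1 - (x:ℂ) ^ 2) * z ^ 2 * (1 - x * z)⁻¹ := by
      have e0 : a 0 = 0 := rfl
      have e1 : a 1 = -(x : ℂ) := rfl
      simp only [h, Complex.conj_ofReal, Finset.sum_range_succ, Finset.range_zero,
        Finset.sum_empty, e0, e1]
      rw [div_eq_mul_inv]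
      linear_combination (-(x:ℂ) * z) * mul_inv_cancel₀ hne
    rw [e]
    refine h1.congr_fun fun n => ?_
    have e2 : a (n + 2) = (1 - (x:ℂ) ^ 2) * x ^ n := rfl
    rw [e2]; ring
  have hb1 : ∀ z ∈ ball (0:ℂ) 1, ‖h z‖ ≤ 1 := by
    intro z hz
    have hz' := (mem_ball_zero_iff.1 hz).le
    simp only [h]
    rw [norm_mul, norm_div]
    exact mul_le_one₀ hz' (by positivity)
      (div_le_one_of_le₀ (mob hz' (by rw [nx]; exact x1.le)) (norm_nonneg _))
  have nk : ‖(k : ℂ)‖ = k := by rw [Complex.norm_real, Real.norm_of_nonneg k0.le]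
  refine ⟨a, fun n => k * a n, h, fun z => k * h z, ⟨ha, fun z hz =>
    ((ha z hz).mul_left _).congr_fun fun n => by ring, rfl, by simp [a],
    ⟨1, by rintro _ ⟨z, hz, rfl⟩; exact hb1 z hz⟩, fun z _ => by
      rw [deriv_const_mul_field, norm_mul, nk]⟩, fun hB => ?_⟩
  have hS : supNorm h ≤ 1 := csSup_le ((nonempty_ball.2 one_pos).image _)
    (by rintro _ ⟨z, hz, rfl⟩; exact hb1 z hz)
  have p1 : 0 < 1 - x ^ 2 := by nlinarith
  have na : ∀ n : ℕ, ‖a (n + 2)‖ = (1 - x ^ 2) * x ^ n := by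
    intro n
    have : a (n + 2) = (((1 - x ^ 2) * x ^ n : ℝ) : ℂ) := by simp only [a]; push_cast; rfl
    rw [this, Complex.norm_real, Real.norm_of_nonneg (by positivity)]
  have n1 : ‖a 1‖ = x := by
    have : a 1 = -(x : ℂ) := rfl
    rw [this, norm_neg, nx]
  have n0 : ‖a 0‖ = 0 := by simp [a]
  have h2 : ∀ N, (1 + k) * (x * ρ + (1 - x ^ 2) * r ^ 2 * ∑ n ∈ Finset.range N, (x * r) ^ n) ≤ 1 := by
    intro N
    have h3 := (hB (N + 1 + 1)).trans hS
    rw [Finset.sum_range_succ', Finset.sum_range_succ'] at h3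
    simp only [norm_mul, nk, zero_add, n0, n1, add_assoc, show 1 + 1 = 2 from rfl, na] at h3
    have h4 : (1 + k) * ((1 - x ^ 2) * r ^ 2 * ∑ n ∈ Finset.range N, (x * r) ^ n) ≤
        ∑ n ∈ Finset.range N, ((1 - x ^ 2) * x ^ n + k * ((1 - x ^ 2) * x ^ n)) * ρ ^ (n + 2) := by
      rw [Finset.mul_sum, Finset.mul_sum]
      apply Finset.sum_le_sum
      intro n _
      calc (1 + k) * ((1 - x ^ 2) * r ^ 2 * (x * r) ^ n)
          = ((1 - x ^ 2) * x ^ n + k * ((1 - x ^ 2) * x ^ n)) * r ^ (n + 2) := by ring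
        _ ≤ _ := by gcongr
    nlinarith
  have p2 : x * r < 1 := by rw [xr]; linarith
  have h5 := (hasSum_geometric_of_lt_one (r := x * r) (by positivity) p2).tendsto_sum_nat
  have h6 := le_of_tendsto' (((h5.const_mul ((1 - x ^ 2) * r ^ 2)).const_add (x * ρ)).const_mul
    (1 + k)) h2
  have h7 : (1 - x ^ 2) * r ^ 2 * (1 - x * r)⁻¹ = μ - x * r := by
    have : (1 - x ^ 2) * r ^ 2 = r ^ 2 - (x * r) ^ 2 := by ring
    rw [this, mul_inv_eq_iff_eq_mul₀ (by linarith), xr, r2]; ring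
  rw [h7] at h6
  nlinarith [mul_pos (show 0 < 1 + k by linarith) (mul_pos x0 (sub_pos.2 hρ))]

end Pool.Agent.H41.Bh
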