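import Mathlib

set_option autoImplicit false

namespace Pool.Agent.H41.Bh

open Metric

/-- `F(z) = ∑ₙ cₙ zⁿ` for every `z` in the open unit disc. -/
def Rep (c : ℕ → ℂ) (F : ℂ → ℂ) : Prop :=
  ∀ z ∈ ball (0 : ℂ) 1, HasSum (fun n => c n * z ^ n) (F z)

/-- `‖h‖_∞ = sup_{|z|<1} |h(z)|`. -/
noncomputable def supNorm (h : ℂ → ℂ) : ℝ := sSup ((fun z => ‖h z‖) '' ball (0 : ℂ) 1)

/-- `f = h + conj g` belongs to `𝓕_K`, where `h = ∑_{n≥1} aₙ zⁿ` is bounded, `g = ∑_{n≥1} bₙ zⁿ`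
and `|g'| ≤ k |h'|` on the disc, `k = (K-1)/(K+1)`. -/
def InF (K : ℝ) (a b : ℕ → ℂ) (h g : ℂ → ℂ) : Prop :=
  Rep a h ∧ Rep b g ∧ a 0 = 0 ∧ b 0 = 0 ∧ BddAbove ((fun z => ‖h z‖) '' ball (0 : ℂ) 1) ∧
    ∀ z ∈ ball (0 : ℂ) 1, ‖deriv g z‖ ≤ (K - 1) / (K + 1) * ‖deriv h z‖

/-- The Bohr inequality `∑ₙ (|aₙ| + |bₙ|) rⁿ ≤ ‖h‖_∞`, written for all partial sums of this series
of non-negative terms. -/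
def Bohr (a b : ℕ → ℂ) (h : ℂ → ℂ) (r : ℝ) : Prop :=
  ∀ N : ℕ, ∑ n ∈ Finset.range N, (‖a n‖ + ‖b n‖) * r ^ n ≤ supNorm h

/-- `r_K = (1/4) √(7/2 - 1/(2K²) + 5/K)`. -/
noncomputable def rK (K : ℝ) : ℝ := 1 / 4 * Real.sqrt (7 / 2 - 1 / (2 * K ^ 2) + 5 / K)

end Pool.Agent.H41.Bh
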