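import Pool.Agent.H41.BoseDefs

namespace Pool.Agent.H41.Bose

open MeasureTheory Set
open scoped ENNReal NNReal

theorem lint_affine {F : R3 → ℝ≥0∞} (hF : Measurable F) (b : R3) {c : ℝ} (hc : 0 < c) :
    ∫⁻ x, F (b + c • x) = ENNReal.ofReal (c⁻¹ ^ 3) * ∫⁻ x, F x := by
  have h1 : Measurable fun y => F (b + y) := hF.comp (measurable_const_add b)
  have := lintegral_map (μ := (volume : Measure R3)) h1 (measurable_const_smul c)
  rw [← this, Measure.map_addHaar_smul _ hc.ne', lintegral_smul_measure,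
    lintegral_add_left_eq_self F b]
  simp only [Module.finrank_fintype_fun_eq_card, Fintype.card_fin, smul_eq_mul, inv_pow]
  rw [abs_of_pos (by positivity)]

theorem cs_weight {ν : Measure ℝ} {w D : ℝ → ℝ≥0∞} (hw : Measurable w) (hD : Measurable D)
    (h0 : ∀ t, w t ≠ 0) (h1 : ∀ t, w t ≠ ⊤) :
    (∫⁻ t, D t ∂ν) ^ 2 ≤ (∫⁻ t, (w t)⁻¹ ∂ν) * ∫⁻ t, w t * D t ^ 2 ∂ν := by
  have h := ENNReal.lintegral_mul_le_Lp_mul_Lq ν Real.HolderConjugate.two_two
    (f := fun t => w t ^ (-1 / 2 : ℝ)) (g := fun t => w t ^ (1 / 2 : ℝ) * D t)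
    (by fun_prop) (by fun_prop)
  have e1 : ∀ t, w t ^ (-1 / 2 : ℝ) * (w t ^ (1 / 2 : ℝ) * D t) = D t := fun t => by
    rw [← mul_assoc, ← ENNReal.rpow_add _ _ (h0 t) (h1 t)]; norm_num
  have e2 : ∀ t, (w t ^ (-1 / 2 : ℝ)) ^ (2 : ℝ) = (w t)⁻¹ := fun t => by
    rw [← ENNReal.rpow_mul]; norm_num [ENNReal.rpow_neg_one]
  have e3 : ∀ t, (w t ^ (1 / 2 : ℝ) * D t) ^ (2 : ℝ) = w t * D t ^ 2 := fun t => by
    rw [ENNReal.mul_rpow_of_nonneg _ _ (by norm_num), ← ENNReal.rpow_mul]; norm_num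
  simp only [Pi.mul_apply, e1, e2, e3] at h
  refine (pow_le_pow_left' h 2).trans (le_of_eq ?_)
  rw [mul_pow, ← ENNReal.rpow_natCast, ← ENNReal.rpow_natCast, ← ENNReal.rpow_mul,
    ← ENNReal.rpow_mul]
  norm_num

theorem split_bound (F : ℝ → ℝ≥0∞) {τ : ℝ} (hτ : 0 < τ) (c1 c2 : ℝ≥0∞)
    (h1 : ∀ t, 0 ≤ t → t ≤ τ ^ 2 → F t ≤ c1)
    (h2 : ∀ t, τ ^ 2 < t → F t ≤ c2 * ENNReal.ofReal (t ^ (-3 / 2 : ℝ))) :
    ∫⁻ t in Icc 0 1, F t ≤ c1 * ENNReal.ofReal (τ ^ 2) + c2 * ENNReal.ofReal (2 / τ) := by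
  have hs : Icc (0 : ℝ) 1 ⊆ Icc 0 (τ ^ 2) ∪ Ioi (τ ^ 2) := fun t ht => by
    rcases le_or_gt t (τ ^ 2) with h | h
    exacts [Or.inl ⟨ht.1, h⟩, Or.inr h]
  refine (lintegral_mono_set hs).trans ((lintegral_union_le _ _ _).trans (add_le_add ?_ ?_))
  · refine (setLIntegral_mono' measurableSet_Icc fun t ht => h1 t ht.1 ht.2).trans ?_
    simp
  · refine (setLIntegral_mono' measurableSet_Ioi fun t ht => h2 t ht).trans (le_of_eq ?_)
    rw [lintegral_const_mul _ (by fun_prop), ← ofReal_integral_eq_lintegral_ofReal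
      (integrableOn_Ioi_rpow_of_lt (by norm_num) (by positivity)),
      integral_Ioi_rpow_of_lt (by norm_num) (by positivity)]
    · congr 2
      rw [← Real.rpow_natCast, ← Real.rpow_mul hτ.le]
      norm_num [Real.rpow_neg_one]
      ring
    · filter_upwards [self_mem_ae_restrict measurableSet_Ioi] with t ht
      exact Real.rpow_nonneg (le_trans (by positivity) (le_of_lt ht)) _

theorem enorm_sq_le (x y : ℂ) : ‖x‖ₑ ^ 2 ≤ 2 * ‖y‖ₑ ^ 2 + 2 * ‖x - y‖ₑ ^ 2 := by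
  simp only [enorm_eq_nnnorm]
  norm_cast
  rw [← NNReal.coe_le_coe]
  push_cast
  have := norm_add_le y (x - y)
  rw [add_sub_cancel] at this
  nlinarith [norm_nonneg x, sq_nonneg (‖y‖ - ‖x - y‖), norm_nonneg y, norm_nonneg (x - y)]

theorem local_bound {Q : Set R3} (hQ : Convex ℝ Q) (hQm : MeasurableSet Q) {s a : ℝ≥0}
    (hvol : volume Q ≤ s ^ 3) (hdiam : ∀ p ∈ Q, ∀ q ∈ Q, ‖q - p‖ₑ ≤ s) (ha : 0 < a)
    (has : 2 * a ≤ s) {g : R3 → ℂ} (hg : Measurable g) {D : R3 → ℝ≥0∞} (hD : Measurable D)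
    (hgD : ∀ p q, ‖g q - g p‖ₑ ≤ ‖q - p‖ₑ * ∫⁻ t in Icc (0 : ℝ) 1, D (p + t • (q - p)))
    {μ : R3 → ℝ≥0∞} (hμ : Measurable μ) {M m : ℝ≥0∞} (hM : ∀ p, μ p ≤ M)
    (hsupp : ∀ p, μ p ≠ 0 → p ∈ Q) (hm : ∫⁻ p, μ p ≤ a * m) :
    (∫⁻ p, μ p) * ∫⁻ q, Q.indicator 1 q * ‖g q‖ₑ ^ 2 ≤ s ^ 3 * (2 * (∫⁻ p, μ p * ‖g p‖ₑ ^ 2) +
      (48 * M * a ^ 2 + 12 * m) * ∫⁻ q, Q.indicator 1 q * D q ^ 2) := by
  obtain ⟨χ, hχ⟩ : ∃ χ : R3 → ℝ≥0∞, χ = Q.indicator 1 := ⟨_, rfl⟩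
  have hχm : Measurable χ := hχ ▸ measurable_one.indicator hQm
  have hχv : ∫⁻ q, χ q ≤ s ^ 3 := by rw [hχ, lintegral_indicator_one hQm]; exact hvol
  rw [← hχ]
  have hs : (0 : ℝ) < s := by
    have : (0 : ℝ) < a := ha
    have : 2 * (a : ℝ) ≤ s := by exact_mod_cast has
    linarith
  have ha' : (0 : ℝ) < a := ha
  obtain ⟨τ, hτ, hτ2⟩ : ∃ τ : ℝ, 0 < τ ∧ τ ^ 2 = a / s :=
    ⟨√(a / s), by positivity, Real.sq_sqrt (by positivity)⟩
  have hτ3 : τ ^ 2 ≤ 1 / 2 := by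
    rw [hτ2, div_le_div_iff₀ hs (by norm_num)]
    have : 2 * (a : ℝ) ≤ s := by exact_mod_cast has
    linarith
  obtain ⟨w, hw⟩ : ∃ w : ℝ → ℝ≥0∞, ∀ t, w t =
    ENNReal.ofReal (if t ≤ τ ^ 2 then τ ^ 3 else t ^ (3 / 2 : ℝ)) := ⟨_, fun _ => rfl⟩
  have hwm : Measurable w := by
    rw [funext hw]
    exact ENNReal.measurable_ofReal.comp
      (Measurable.ite measurableSet_Iic measurable_const (by fun_prop))
  have hw0 : ∀ t, w t ≠ 0 := fun t => by
    rw [hw, ne_eq, ENNReal.ofReal_eq_zero, not_le]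
    split_ifs with h
    · positivity
    · exact Real.rpow_pos_of_pos (lt_trans (by positivity) (not_le.mp h)) _
  have hI1 : ∫⁻ t in Icc 0 1, (w t)⁻¹ ≤ ENNReal.ofReal (3 / τ) := by
    refine (split_bound _ hτ (ENNReal.ofReal (τ ^ 3)⁻¹) 1 (fun t _ h => ?_) fun t h => ?_).trans
      (le_of_eq ?_)
    · rw [hw, if_pos h, ENNReal.ofReal_inv_of_pos (by positivity)]
    · have ht : 0 < t := lt_trans (by positivity) h
      rw [hw, if_neg (not_le.mpr h), ← ENNReal.ofReal_inv_of_pos (by positivity), one_mul,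
        ← Real.rpow_neg ht.le]
      norm_num
    · rw [one_mul, ← ENNReal.ofReal_mul (by positivity),
        ← ENNReal.ofReal_add (by positivity) (by positivity)]
      congr 1; field_simp; ring
  obtain ⟨G, hG⟩ : ∃ G : R3 → ℝ≥0∞, G = fun q => χ q * D q ^ 2 := ⟨_, rfl⟩
  have hGm : Measurable G := by rw [hG]; fun_prop
  have hpt : ∀ p q, μ p * (χ q * ‖g q‖ₑ ^ 2) ≤ 2 * (μ p * ‖g p‖ₑ ^ 2 * χ q) +
      2 * s ^ 2 * ENNReal.ofReal (3 / τ) *
        ∫⁻ t in Icc (0 : ℝ) 1, w t * (μ p * χ q * G (p + t • (q - p))) := by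
    intro p q
    by_cases hp : μ p = 0
    · simp [hp]
    by_cases hq : q ∈ Q
    swap
    · simp [hχ, hq]
    have e : χ q = 1 := by simp [hχ, hq]
    have h1 : ‖g q - g p‖ₑ ^ 2 ≤ s ^ 2 * ENNReal.ofReal (3 / τ) *
        ∫⁻ t in Icc (0 : ℝ) 1, w t * G (p + t • (q - p)) := by
      refine (pow_le_pow_left' (hgD p q) 2).trans ?_
      rw [mul_pow, mul_assoc]
      refine mul_le_mul' (pow_le_pow_left' (hdiam p (hsupp p hp) q hq) 2)
        ((cs_weight hwm (by fun_prop) hw0 fun t => by rw [hw]; exact ENNReal.ofReal_ne_top).trans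
          (mul_le_mul' hI1 (setLIntegral_mono' measurableSet_Icc fun t ht => le_of_eq ?_)))
      have : p + t • (q - p) ∈ Q := hQ.add_smul_sub_mem (hsupp p hp) hq ht
      simp [hG, hχ, this]
    have h2 : ∫⁻ t in Icc (0 : ℝ) 1, w t * (μ p * χ q * G (p + t • (q - p))) =
        μ p * ∫⁻ t in Icc (0 : ℝ) 1, w t * G (p + t • (q - p)) := by
      rw [← lintegral_const_mul _ (by fun_prop), e]
      exact lintegral_congr fun t => by ring
    rw [h2, e]
    calc μ p * (1 * ‖g q‖ₑ ^ 2) ≤ μ p * (2 * ‖g p‖ₑ ^ 2 + 2 * (s ^ 2 * ENNReal.ofReal (3 / τ) *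
        ∫⁻ t in Icc (0 : ℝ) 1, w t * G (p + t • (q - p)))) := by
          rw [one_mul]; gcongr
          exact (enorm_sq_le _ (g p)).trans (by gcongr)
      _ = _ := by ring
  have hJ : ∫⁻ z : R3 × R3, ∫⁻ t in Icc (0 : ℝ) 1, w t * (μ z.1 * χ z.2 * G (z.1 + t • (z.2 - z.1)))
      ≤ ENNReal.ofReal (τ ^ 3) * (8 * M * s ^ 3 * ∫⁻ q, G q) * ENNReal.ofReal (τ ^ 2) +
        (a * m * ∫⁻ q, G q) * ENNReal.ofReal (2 / τ) := by
    rw [lintegral_lintegral_swap (by fun_prop)]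
    refine split_bound _ hτ _ _ (fun t h0 h => ?_) fun t h => ?_
    · rw [lintegral_const_mul _ (by fun_prop), hw, if_pos h, Measure.volume_eq_prod,
        lintegral_prod_symm _ (by fun_prop)]
      gcongr
      calc _ ≤ ∫⁻ q, χ q * (8 * M * ∫⁻ q, G q) := by
            refine lintegral_mono fun q => ?_
            calc _ ≤ ∫⁻ p, χ q * M * G (t • q + (1 - t) • p) := by
                  refine lintegral_mono fun p => ?_
                  rw [show p + t • (q - p) = t • q + (1 - t) • p by module, mul_comm (μ p)]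
                  gcongr; exact hM p
              _ ≤ _ := by
                  rw [lintegral_const_mul _ (by fun_prop), lint_affine hGm _ (by linarith),
                    mul_assoc, ← mul_assoc M, mul_comm M]
                  gcongr
                  rw [← ENNReal.ofReal_ofNat]
                  refine ENNReal.ofReal_le_ofReal ?_
                  have : (1 - t)⁻¹ ≤ 2 := by
                    rw [inv_le_comm₀ (by linarith) (by norm_num)]; linarith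
                  calc (1 - t)⁻¹ ^ 3 ≤ 2 ^ 3 :=
                        pow_le_pow_left₀ (inv_nonneg.mpr (by linarith)) this 3
                    _ = 8 := by norm_num
        _ ≤ _ := by
            rw [lintegral_mul_const _ hχm]
            calc _ ≤ s ^ 3 * (8 * M * ∫⁻ q, G q) := by gcongr
              _ = _ := by ring
    · have ht : 0 < t := lt_trans (by positivity) h
      rw [lintegral_const_mul _ (by fun_prop), hw, if_neg (not_le.mpr h), Measure.volume_eq_prod,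
        lintegral_prod _ (by fun_prop)]
      calc _ ≤ ENNReal.ofReal (t ^ (3 / 2 : ℝ)) *
            ∫⁻ p, μ p * (ENNReal.ofReal (t⁻¹ ^ 3) * ∫⁻ q, G q) := by
            gcongr with p
            rw [← lint_affine hGm ((1 - t) • p) ht, ← lintegral_const_mul _ (by fun_prop)]
            refine lintegral_mono fun q => ?_
            rw [show p + t • (q - p) = (1 - t) • p + t • q by module]
            have : χ q ≤ 1 := by rw [hχ]; exact indicator_le_self' (by simp) q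
            calc _ ≤ μ p * 1 * G ((1 - t) • p + t • q) := by gcongr
              _ = _ := by rw [mul_one]
        _ ≤ ENNReal.ofReal (t ^ (3 / 2 : ℝ)) * (a * m * (ENNReal.ofReal (t⁻¹ ^ 3) * ∫⁻ q, G q)) := by
            rw [lintegral_mul_const _ hμ]; gcongr
        _ = a * m * (∫⁻ q, G q) * (ENNReal.ofReal (t ^ (3 / 2 : ℝ)) * ENNReal.ofReal (t⁻¹ ^ 3)) := by
            ring
        _ = _ := by
            rw [← ENNReal.ofReal_mul (by positivity), inv_pow, ← Real.rpow_natCast,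
              ← Real.rpow_neg ht.le, ← Real.rpow_add ht]
            norm_num
  have c1 : (s : ℝ≥0∞) ^ 2 * (ENNReal.ofReal (3 / τ) * ENNReal.ofReal (τ ^ 3) *
      ENNReal.ofReal (τ ^ 2)) = 3 * a ^ 2 := by
    rw [← ENNReal.ofReal_mul (by positivity), ← ENNReal.ofReal_mul (by positivity),
      ← ENNReal.ofReal_coe_nnreal, ← ENNReal.ofReal_coe_nnreal (p := a),
      ← ENNReal.ofReal_pow hs.le, ← ENNReal.ofReal_pow ha'.le, ← ENNReal.ofReal_ofNat,
      ← ENNReal.ofReal_mul (by positivity), ← ENNReal.ofReal_mul (by positivity)]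
    congr 1
    have : (a : ℝ) = s * τ ^ 2 := by rw [hτ2]; field_simp
    rw [this]; field_simp
  have c2 : (s : ℝ≥0∞) ^ 2 * (ENNReal.ofReal (3 / τ) * ENNReal.ofReal (2 / τ) * a) = 6 * s ^ 3 := by
    rw [← ENNReal.ofReal_mul (by positivity),
      ← ENNReal.ofReal_coe_nnreal, ← ENNReal.ofReal_coe_nnreal (p := a),
      ← ENNReal.ofReal_pow hs.le, ← ENNReal.ofReal_pow hs.le, ← ENNReal.ofReal_ofNat,
      ← ENNReal.ofReal_mul (by positivity), ← ENNReal.ofReal_mul (by positivity),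
      ← ENNReal.ofReal_mul (by positivity)]
    congr 1
    have : (a : ℝ) = s * τ ^ 2 := by rw [hτ2]; field_simp
    rw [this]; field_simp; norm_num
  calc _ = ∫⁻ z : R3 × R3, μ z.1 * (χ z.2 * ‖g z.2‖ₑ ^ 2) := by
        exact (lintegral_prod_mul (g := fun q => χ q * ‖g q‖ₑ ^ 2) hμ.aemeasurable
          (by fun_prop)).symm
    _ ≤ _ := lintegral_mono fun z => hpt z.1 z.2
    _ = 2 * ((∫⁻ p, μ p * ‖g p‖ₑ ^ 2) * ∫⁻ q, χ q) + 2 * s ^ 2 * ENNReal.ofReal (3 / τ) *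
        ∫⁻ z : R3 × R3, ∫⁻ t in Icc (0 : ℝ) 1,
          w t * (μ z.1 * χ z.2 * G (z.1 + t • (z.2 - z.1))) := by
        rw [lintegral_add_left (by fun_prop), lintegral_const_mul _ (by fun_prop),
          lintegral_const_mul' _ _ (by finiteness)]
        congr 2
        exact lintegral_prod_mul (f := fun p => μ p * ‖g p‖ₑ ^ 2) (by fun_prop) hχm.aemeasurable
    _ ≤ 2 * ((∫⁻ p, μ p * ‖g p‖ₑ ^ 2) * s ^ 3) + 2 * s ^ 2 * ENNReal.ofReal (3 / τ) *
        (ENNReal.ofReal (τ ^ 3) * (8 * M * s ^ 3 * ∫⁻ q, G q) * ENNReal.ofReal (τ ^ 2) +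
        (a * m * ∫⁻ q, G q) * ENNReal.ofReal (2 / τ)) := by gcongr
    _ = 2 * ((∫⁻ p, μ p * ‖g p‖ₑ ^ 2) * s ^ 3) + (16 * M * s ^ 3 * ∫⁻ q, G q) *
        ((s : ℝ≥0∞) ^ 2 * (ENNReal.ofReal (3 / τ) * ENNReal.ofReal (τ ^ 3) *
        ENNReal.ofReal (τ ^ 2))) + (2 * m * ∫⁻ q, G q) *
        ((s : ℝ≥0∞) ^ 2 * (ENNReal.ofReal (3 / τ) * ENNReal.ofReal (2 / τ) * a)) := by ring
    _ = _ := by rw [c1, c2, hG]; ring

end Pool.Agent.H41.Bose
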