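import Pool.Agent.H41.Bose1

namespace Pool.Agent.H41.Bose

open MeasureTheory Set Function
open scoped ENNReal NNReal

noncomputable def DD {N : ℕ} (Ψ : Cfg N → ℂ) (i : Fin N) (x : Cfg N) : ℝ≥0∞ :=
  ∑ k, ‖fderiv ℝ Ψ x (Pi.single i (Pi.single k 1))‖ₑ

section
variable {N : ℕ} {Ψ : Cfg N → ℂ}

theorem DD_meas (hΨ : ContDiff ℝ 1 Ψ) (i : Fin N) : Measurable (DD Ψ i) := by
  have := hΨ.continuous_fderiv one_ne_zero
  unfold DD
  fun_prop

theorem upper_grad (hΨ : ContDiff ℝ 1 Ψ) (i : Fin N) (x : Cfg N) (p q : R3) :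
    ‖Ψ (update x i q) - Ψ (update x i p)‖ₑ ≤
      ‖q - p‖ₑ * ∫⁻ t in Icc (0 : ℝ) 1, DD Ψ i (update x i (p + t • (q - p))) := by
  have e : ∀ t : ℝ, update x i (p + t • (q - p)) =
      update x i p + t • (Pi.single i (q - p) : Cfg N) := by
    intro t; funext l
    by_cases h : l = i
    · subst h; simp
    · simp [h]
  have h := enorm_sub_le_lintegral_deriv_of_contDiffOn_Icc
    (f := fun t : ℝ => Ψ (update x i p + t • (Pi.single i (q - p) : Cfg N))) (a := 0) (b := 1)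
    (ContDiff.contDiffOn (by fun_prop)) zero_le_one
  rw [← e 1, ← e 0, one_smul, zero_smul, add_zero, add_sub_cancel] at h
  refine h.trans ?_
  rw [← lintegral_const_mul' _ _ enorm_ne_top]
  refine lintegral_mono fun t => ?_
  simp only [e]
  have h1 : HasDerivAt (fun t : ℝ => update x i p + t • (Pi.single i (q - p) : Cfg N))
      (Pi.single i (q - p)) t := by
    simpa using ((hasDerivAt_id t).smul_const (Pi.single i (q - p) : Cfg N)).const_add (update x i p)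
  have h2 := ((hΨ.differentiable one_ne_zero _).hasFDerivAt.comp_hasDerivAt t h1).deriv
  rw [show (fun t : ℝ => Ψ (update x i p + t • (Pi.single i (q - p) : Cfg N))) =
    Ψ ∘ fun t : ℝ => update x i p + t • (Pi.single i (q - p) : Cfg N) from rfl, h2]
  have h3 : (Pi.single i (q - p) : Cfg N) =
      ∑ k, (q - p) k • (Pi.single i (Pi.single k 1) : Cfg N) := by
    funext l k
    by_cases h : l = i
    · subst h; simp [Finset.sum_apply, Pi.single_apply]
    · simp [h, Finset.sum_apply]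
  rw [DD, Finset.mul_sum]
  conv_lhs => arg 1; arg 2; rw [h3]
  rw [map_sum]
  refine (enorm_sum_le _ _).trans (Finset.sum_le_sum fun k _ => ?_)
  rw [map_smul, enorm_smul]
  gcongr
  simpa [enorm_eq_nnnorm] using nnnorm_le_pi_nnnorm (q - p) k

theorem lift (hΨ : ContDiff ℝ 1 Ψ) (i : Fin N) {Q : Set R3} (hQ : Convex ℝ Q)
    (hQm : MeasurableSet Q) {s a : ℝ≥0}
    (hvol : volume Q ≤ s ^ 3) (hdiam : ∀ p ∈ Q, ∀ q ∈ Q, ‖q - p‖ₑ ≤ s) (ha : 0 < a)
    (has : 2 * a ≤ s) {ω μ m0 : Cfg N → ℝ≥0∞} (hω : Measurable ω) (hμ : Measurable μ)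
    (hm0 : Measurable m0) (hωi : ∀ x y, ω (update x i y) = ω x)
    (hm0i : ∀ x y, m0 (update x i y) ≤ ∫⁻ y, μ (update x i y)) {M m : ℝ≥0∞} (hM : ∀ x, μ x ≤ M)
    (hsupp : ∀ x, ω x ≠ 0 → μ x ≠ 0 → x i ∈ Q) (hm : ∀ x, ∫⁻ y, μ (update x i y) ≤ a * m) :
    ∫⁻ x, ω x * m0 x * (Q.indicator 1 (x i) * ‖Ψ x‖ₑ ^ 2) ≤
      s ^ 3 * (2 * (∫⁻ x, ω x * (μ x * ‖Ψ x‖ₑ ^ 2)) +
      (48 * M * a ^ 2 + 12 * m) * ∫⁻ x, ω x * (Q.indicator 1 (x i) * DD Ψ i x ^ 2)) := by
  have hc := hΨ.continuous.measurable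
  have hD := DD_meas hΨ i
  have hχ : Measurable (Q.indicator (1 : R3 → ℝ≥0∞)) := measurable_one.indicator hQm
  rw [← lintegral_const_mul _ (by fun_prop), ← lintegral_const_mul _ (by fun_prop),
    ← lintegral_add_left (by fun_prop), ← lintegral_const_mul _ (by fun_prop)]
  refine lintegral_le_of_lmarginal_le {i} (by fun_prop) (by fun_prop) fun x => ?_
  simp only [lmarginal_singleton, hωi, update_self]
  by_cases h0 : ω x = 0
  · simp [h0]
  have hu : Measurable (update x i) := measurable_update x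
  have h := local_bound hQ hQm hvol hdiam ha has (g := fun y => Ψ (update x i y)) (by fun_prop)
    (D := fun y => DD Ψ i (update x i y)) (by fun_prop) (upper_grad hΨ i x)
    (μ := fun y => μ (update x i y)) (by fun_prop) (fun _ => hM _)
    (fun p hp => by simpa using hsupp _ (by rwa [hωi]) hp) (hm x)
  rw [lintegral_const_mul _ (by fun_prop), lintegral_add_left (by fun_prop),
    lintegral_const_mul _ (by fun_prop), lintegral_const_mul _ (by fun_prop),
    lintegral_const_mul _ (by fun_prop), lintegral_const_mul _ (by fun_prop)]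
  calc _ ≤ ∫⁻ y, ω x * (∫⁻ y, μ (update x i y)) * (Q.indicator 1 y * ‖Ψ (update x i y)‖ₑ ^ 2) := by
        gcongr with y; exact hm0i x y
    _ = ω x * ((∫⁻ y, μ (update x i y)) * ∫⁻ y, Q.indicator 1 y * ‖Ψ (update x i y)‖ₑ ^ 2) := by
        rw [lintegral_const_mul _ (by fun_prop), mul_assoc]
    _ ≤ _ := (mul_le_mul_right h _).trans (le_of_eq (by ring))

end

def cube (q : R3) (s : ℝ) : Set R3 := Set.pi univ fun k => Ico (q k) (q k + s)

theorem cube_convex (q : R3) (s : ℝ) : Convex ℝ (cube q s) :=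
  convex_pi fun _ _ => convex_Ico _ _

theorem cube_meas (q : R3) (s : ℝ) : MeasurableSet (cube q s) :=
  MeasurableSet.univ_pi fun _ => measurableSet_Ico

theorem cube_vol (q : R3) (s : ℝ≥0) : volume (cube q s) = s ^ 3 := by
  simp [cube, Real.volume_pi_Ico]

theorem cube_diam (q : R3) (s : ℝ≥0) : ∀ p ∈ cube q s, ∀ p' ∈ cube q s, ‖p' - p‖ₑ ≤ s := by
  intro p hp p' hp'
  rw [enorm_eq_nnnorm, ENNReal.coe_le_coe, ← NNReal.coe_le_coe, coe_nnnorm]
  refine (pi_norm_le_iff_of_nonneg s.2).mpr fun k => ?_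
  have h1 := hp k trivial
  have h2 := hp' k trivial
  simp only [mem_Ico] at h1 h2
  rw [Pi.sub_apply, Real.norm_eq_abs, abs_le]
  change -(s : ℝ) ≤ _ ∧ _ ≤ (s : ℝ)
  exact ⟨by linarith [h1.2, h2.1], by linarith [h1.1, h2.2]⟩

theorem cube_inner {q x y : R3} {s s' r : ℝ} (hs : s' + 2 * r ≤ s)
    (hx : x ∈ cube (fun k => q k + r) s') (hy : ‖x - y‖ ≤ r) : y ∈ cube q s := by
  intro k _
  have h1 := hx k trivial
  have h2 := abs_le.mp ((norm_le_pi_norm (x - y) k).trans hy)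
  simp only [Pi.sub_apply, mem_Ico] at h1 h2 ⊢
  exact ⟨by linarith, by linarith⟩

theorem three_body {N : ℕ} {Ψ : Cfg N → ℂ} (hΨ : ContDiff ℝ 1 Ψ) {i j k : Fin N} (hij : i ≠ j)
    (hik : i ≠ k) (hjk : j ≠ k) (q : R3) {s a R M0 I0 : ℝ≥0} (ha : 0 < a) (hR : 1 ≤ R)
    (has : 4 * R * a ≤ s) {U : R3 → R3 → ℝ≥0∞} (hU : Measurable fun p : R3 × R3 => U p.1 p.2)
    {Mu : ℝ≥0∞} (hUM : ∀ u w, U u w ≤ Mu) (hMu : Mu * a ^ 2 ≤ M0)
    (hUs : ∀ u w, U u w ≠ 0 → ‖u‖ ≤ R * a ∧ ‖w‖ ≤ R * a) (hI : ∫⁻ u, ∫⁻ w, U u w = a ^ 4 * I0)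
    {ω : Cfg N → ℝ≥0∞} (hω : Measurable ω) (hωi : ∀ x y, ω (update x i y) = ω x)
    (hωj : ∀ x y, ω (update x j y) = ω x) (hωk : ∀ x y, ω (update x k y) = ω x) :
    a ^ 4 * I0 * ∫⁻ x, ω x * (cube q s).indicator 1 (x i) * (cube q s).indicator 1 (x j) *
      (cube q s).indicator 1 (x k) * ‖Ψ x‖ₑ ^ 2 ≤
    (64 + 1536 * M0 + 9216 * R ^ 3 * M0 + 480 * I0) * s ^ 6 *
      ∫⁻ x, ω x * (cube q s).indicator 1 (x i) * (cube q s).indicator 1 (x j) *
      (cube q s).indicator 1 (x k) *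
        (DD Ψ i x ^ 2 + DD Ψ j x ^ 2 + DD Ψ k x ^ 2 + U (x i - x j) (x i - x k) * ‖Ψ x‖ₑ ^ 2) := by
  obtain ⟨h, rfl⟩ : ∃ h : ℝ≥0, s = 2 * h := ⟨s / 2, by ring⟩
  have hc := hΨ.continuous.measurable
  have hRa : a ≤ R * a := le_mul_of_one_le_left zero_le hR
  have h2a : 2 * a ≤ h := by nlinarith
  have hh : 0 < h := lt_of_lt_of_le (by positivity) h2a
  obtain ⟨Q, hQ⟩ : ∃ Q, Q = cube q (2 * h : ℝ≥0) := ⟨_, rfl⟩
  obtain ⟨P, hP⟩ : ∃ P, P = cube (fun k => q k + R * a) h := ⟨_, rfl⟩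
  rw [← hQ]
  have hin : ∀ {x y : R3}, x ∈ P → ‖x - y‖ ≤ R * a → y ∈ Q := fun hx hy => by
    rw [hQ]; rw [hP] at hx
    refine cube_inner ?_ hx hy
    have : (4 * R * a : ℝ) ≤ 2 * h := by exact_mod_cast has
    push_cast; linarith
  have hPQ : ∀ {x : R3}, x ∈ P → x ∈ Q := fun hx => hin hx (by simp; positivity)
  have hQm : MeasurableSet Q := hQ ▸ cube_meas _ _
  have hχ : Measurable (Q.indicator (1 : R3 → ℝ≥0∞)) := measurable_one.indicator hQm
  have hπ : Measurable (P.indicator (1 : R3 → ℝ≥0∞)) :=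
    measurable_one.indicator (hP ▸ cube_meas _ _)
  have hU' : ∀ {α : Type} [MeasurableSpace α] {f g : α → R3}, Measurable f → Measurable g →
      Measurable fun x => U (f x) (g x) := fun hf hg => hU.comp (hf.prodMk hg)
  obtain ⟨m1, hm1⟩ : ∃ m1 : R3 → ℝ≥0∞, m1 = fun u => ∫⁻ w, U u w := ⟨_, rfl⟩
  have hm1m : Measurable m1 := hm1 ▸ hU.lintegral_prod_right'
  have hm1s : ∀ u, m1 u ≠ 0 → ‖u‖ ≤ R * a := fun u hu => by
    by_contra hc
    refine hu ?_
    have : ∀ w, U u w = 0 := fun w => by_contra fun h => hc (hUs u w h).1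
    simp [hm1, this]
  have hm1b : ∀ u, m1 u ≤ a * (8 * R ^ 3 * M0) := fun u => by
    calc m1 u ≤ ∫⁻ w, (Metric.closedBall (0 : R3) (R * a)).indicator (fun _ => Mu) w := by
          rw [hm1]
          refine lintegral_mono fun w => ?_
          by_cases h : U u w = 0
          · simp [h]
          · rw [indicator_of_mem (by simpa using (hUs u w h).2)]; exact hUM u w
      _ = a * (8 * R ^ 3 * (Mu * a ^ 2)) := by
          rw [lintegral_indicator_const Metric.isClosed_closedBall.measurableSet,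
            Real.volume_pi_closedBall _ (by positivity), Fintype.card_fin,
            show (2 * (R * a) : ℝ) ^ 3 = ((2 * (R * a)) ^ 3 : ℝ≥0) by push_cast; rfl,
            ENNReal.ofReal_coe_nnreal]
          push_cast; ring
      _ ≤ _ := by gcongr
  obtain ⟨E, hE⟩ : ∃ E, E = ∫⁻ x, ω x * Q.indicator 1 (x i) * Q.indicator 1 (x j) *
    Q.indicator 1 (x k) * (DD Ψ i x ^ 2 + DD Ψ j x ^ 2 + DD Ψ k x ^ 2 +
      U (x i - x j) (x i - x k) * ‖Ψ x‖ₑ ^ 2) := ⟨_, rfl⟩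
  rw [← hE]
  have q1 : Convex ℝ Q := hQ ▸ cube_convex _ _
  have q2 : volume Q ≤ (2 * h : ℝ≥0) ^ 3 := hQ ▸ (cube_vol _ _).le
  have q3 : ∀ p ∈ Q, ∀ q ∈ Q, ‖q - p‖ₑ ≤ (2 * h : ℝ≥0) := hQ ▸ cube_diam _ _
  have q4 : 2 * a ≤ 2 * h := by nlinarith
  have S1 := lift hΨ k q1 hQm q2 q3 ha q4 (ω := fun x => ω x * P.indicator 1 (x i) * Q.indicator 1 (x j))
    (μ := fun x => U (x i - x j) (x i - x k)) (m0 := fun x => m1 (x i - x j)) (by fun_prop)
    (hU' (by fun_prop) (by fun_prop)) (by fun_prop)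
    (fun x y => by simp [hωk, hik, hjk]) (fun x y => by
      simp only [update_of_ne hik, update_of_ne hjk, update_self]
      rw [lintegral_sub_left_eq_self (U (x i - x j)), hm1]) (fun x => hUM _ _)
    (fun x h1 h2 => hin (by by_contra h; simp [h] at h1) (hUs _ _ h2).2)
    (m := 8 * R ^ 3 * M0) (fun x => by
      simp only [update_of_ne hik, update_of_ne hjk, update_self]
      rw [lintegral_sub_left_eq_self (U (x i - x j))]
      simpa [hm1] using hm1b (x i - x j))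
  have S2 := lift hΨ j q1 hQm q2 q3 ha q4 (ω := fun x => ω x * P.indicator 1 (x i) * Q.indicator 1 (x k))
    (μ := fun x => m1 (x i - x j)) (m0 := fun _ => a ^ 4 * I0) (by fun_prop)
    (by fun_prop) (by fun_prop)
    (fun x y => by simp [hωj, hij, hjk.symm]) (fun x y => by
      simp only [update_of_ne hij, update_self]
      rw [lintegral_sub_left_eq_self m1, hm1, hI]) (fun x => hm1b _)
    (fun x h1 h2 => hin (by by_contra h; simp [h] at h1) (hm1s _ h2))
    (m := a ^ 3 * I0) (fun x => by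
      simp only [update_of_ne hij, update_self]
      rw [lintegral_sub_left_eq_self m1, hm1, hI]
      exact le_of_eq (by ring))
  have hPv : ∫⁻ y, P.indicator (1 : R3 → ℝ≥0∞) y = h ^ 3 := by
    rw [lintegral_indicator_one (hP ▸ cube_meas _ _), hP, cube_vol]
  have S3 := lift hΨ i q1 hQm q2 q3 hh le_rfl
    (ω := fun x => ω x * Q.indicator 1 (x j) * Q.indicator 1 (x k))
    (μ := fun x => P.indicator 1 (x i)) (m0 := fun _ => h ^ 3) (by fun_prop)
    (by fun_prop) (by fun_prop)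
    (fun x y => by simp [hωi, hij.symm, hik.symm]) (fun x y => by
      simp only [update_self]; rw [hPv]) (M := 1) (fun x => indicator_le_self' (by simp) _)
    (fun x h1 h2 => hPQ (by by_contra h; simp [h] at h2))
    (m := h ^ 2) (fun x => by
      simp only [update_self]; rw [hPv]; exact le_of_eq (by ring))
  obtain ⟨X3, hX3⟩ : ∃ X, X = ∫⁻ x, ω x * Q.indicator 1 (x i) * Q.indicator 1 (x j) *
    Q.indicator 1 (x k) * ‖Ψ x‖ₑ ^ 2 := ⟨_, rfl⟩
  obtain ⟨X2, hX2⟩ : ∃ X, X = ∫⁻ x, ω x * Q.indicator 1 (x j) * Q.indicator 1 (x k) *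
    (P.indicator 1 (x i) * ‖Ψ x‖ₑ ^ 2) := ⟨_, rfl⟩
  obtain ⟨X1, hX1⟩ : ∃ X, X = ∫⁻ x, ω x * P.indicator 1 (x i) * Q.indicator 1 (x k) *
    (m1 (x i - x j) * ‖Ψ x‖ₑ ^ 2) := ⟨_, rfl⟩
  rw [← hX3]
  have hE' : ∀ F G : Cfg N → ℝ≥0∞, (∀ x, F x ≤ ω x * Q.indicator 1 (x i) * Q.indicator 1 (x j) *
      Q.indicator 1 (x k) * G x) → (∀ x, G x ≤ DD Ψ i x ^ 2 + DD Ψ j x ^ 2 + DD Ψ k x ^ 2 +
      U (x i - x j) (x i - x k) * ‖Ψ x‖ₑ ^ 2) → ∫⁻ x, F x ≤ E := fun F G h1 h2 =>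
    hE ▸ lintegral_mono fun x => (h1 x).trans (mul_le_mul_right (h2 x) _)
  have T3 : X3 ≤ 8 * (2 * X2 + 60 * h ^ 2 * E) := by
    rw [← ENNReal.mul_le_mul_iff_right (a := h ^ 3) (by simp [hh.ne']) (by finiteness)]
    calc _ = _ := by
          rw [hX3, ← lintegral_const_mul _ (by fun_prop)]; exact lintegral_congr fun x => by ring
      _ ≤ _ := S3
      _ ≤ ((2 * h : ℝ≥0) : ℝ≥0∞) ^ 3 * (2 * X2 + (48 * 1 * h ^ 2 + 12 * h ^ 2) * E) := by
          rw [← hX2]
          refine mul_le_mul_right (add_le_add_right (mul_le_mul_right (hE' _ (fun x => DD Ψ i x ^ 2)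
            (fun x => le_of_eq (by ring)) fun x => ?_) _) _) _
          exact le_add_right (le_add_right le_self_add)
      _ = _ := by push_cast; ring
  have T2 : a ^ 4 * I0 * X2 ≤ 8 * h ^ 3 * (2 * X1 + a ^ 3 * (384 * R ^ 3 * M0 + 12 * I0) * E) := by
    calc _ = _ := by
          rw [hX2, ← lintegral_const_mul _ (by fun_prop)]; exact lintegral_congr fun x => by ring
      _ ≤ _ := S2
      _ ≤ ((2 * h : ℝ≥0) : ℝ≥0∞) ^ 3 * (2 * X1 +
            (48 * (a * (8 * R ^ 3 * M0)) * a ^ 2 + 12 * (a ^ 3 * I0)) * E) := by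
          rw [← hX1]
          refine mul_le_mul_right (add_le_add_right (mul_le_mul_right (hE' _ _
            (fun x => ?_) fun x => le_add_right (le_add_right le_add_self)) _) _) _
          by_cases h1 : x i ∈ P
          · by_cases h2 : x j ∈ Q <;> simp [h1, h2, hPQ h1]
          · simp [h1]
      _ = _ := by push_cast; ring
  have T1 : X1 ≤ 8 * h ^ 3 * (2 * E + (48 * M0 + 96 * R ^ 3 * M0) * E) := by
    calc _ ≤ _ := by
          rw [hX1]
          refine lintegral_mono fun x => ?_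
          by_cases h1 : x i ∈ P
          · by_cases h2 : m1 (x i - x j) = 0
            · simp [h2]
            · simp only [indicator_of_mem (hin h1 (hm1s _ h2)), Pi.one_apply]
              exact le_of_eq (by ring)
          · simp [h1]
      _ ≤ _ := S1
      _ ≤ ((2 * h : ℝ≥0) : ℝ≥0∞) ^ 3 * (2 * E + (48 * M0 + 12 * (8 * R ^ 3 * M0)) * E) := by
          rw [mul_assoc 48 Mu]
          refine mul_le_mul_right (add_le_add (mul_le_mul_right (hE' _ _
            (fun x => ?_) fun x => le_add_self) _) (mul_le_mul' (by gcongr) (hE' _ _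
            (fun x => ?_) fun x => le_add_right le_add_self))) _
          · by_cases h1 : x i ∈ P
            · by_cases h2 : U (x i - x j) (x i - x k) = 0
              · simp [h2]
              · simp [h1, hPQ h1, hin h1 (hUs _ _ h2).2]
            · simp [h1]
          · by_cases h1 : x i ∈ P
            · by_cases h2 : x k ∈ Q <;> simp [h1, h2, hPQ h1]
            · simp [h1]
      _ = _ := by push_cast; ring
  have hah : (a : ℝ≥0∞) ≤ h := by exact_mod_cast (by nlinarith : a ≤ h)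
  calc (a : ℝ≥0∞) ^ 4 * I0 * X3 ≤ a ^ 4 * I0 * (8 * (2 * X2 + 60 * h ^ 2 * E)) := by gcongr
    _ = 16 * (a ^ 4 * I0 * X2) + 480 * I0 * h ^ 2 * a ^ 4 * E := by ring
    _ ≤ 16 * (8 * h ^ 3 * (2 * (8 * h ^ 3 * (2 * E + (48 * M0 + 96 * R ^ 3 * M0) * E)) +
          h ^ 3 * (384 * R ^ 3 * M0 + 12 * I0) * E)) + 480 * I0 * h ^ 2 * h ^ 4 * E := by
        exact add_le_add (mul_le_mul_right (T2.trans (by gcongr)) _) (by gcongr)
    _ = (64 * 64 + 64 * 1536 * M0 + 245760 * R ^ 3 * M0 + 2016 * I0) * h ^ 6 * E := by ring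
    _ ≤ (64 * 64 + 64 * 1536 * M0 + 64 * 9216 * R ^ 3 * M0 + 64 * 480 * I0) * h ^ 6 * E := by
        gcongr <;> norm_num
    _ = _ := by push_cast; ring

end Pool.Agent.H41.Bose
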