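import Pool.Agent.H41.Bose2

namespace Pool.Agent.H41.Bose

open MeasureTheory Set Function
open scoped ENNReal NNReal

abbrev Z3 : Type := Fin 3 → ℤ

noncomputable def cell (s : ℝ) (x : R3) : Z3 := fun k => ⌊x k / s⌋

theorem mem_cube_iff {s : ℝ} (hs : 0 < s) (b : Z3) (x : R3) :
    x ∈ cube (fun k => b k * s) s ↔ cell s x = b := by
  simp only [cube, mem_pi, mem_univ, true_imp_iff, mem_Ico, cell, funext_iff, Int.floor_eq_iff,
    le_div_iff₀ hs, div_lt_iff₀ hs, add_mul, one_mul]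

theorem cfg_meas {N : ℕ} (s : ℝ) {α : Type} [MeasurableSpace α] (F : (Fin N → Z3) → α) :
    Measurable fun x : Cfg N => F fun l => cell s (x l) :=
  (measurable_of_countable F).comp (measurable_pi_lambda _ fun _ => measurable_pi_lambda _
    fun _ => Int.measurable_floor.comp (by fun_prop))

section
variable {N : ℕ}

def cnt (c : Fin N → Z3) (i : Fin N) : ℕ := (Finset.univ.filter fun l => c l = c i).card

def good (c : Fin N → Z3) : ℕ := (Finset.univ.filter fun i => 3 ≤ cnt c i).card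

noncomputable def Lam (c : Fin N → Z3) (i j k : Fin N) : ℝ≥0∞ :=
  if (i ≠ j ∧ i ≠ k ∧ j ≠ k) ∧ c j = c i ∧ c k = c i then ((cnt c i : ℝ≥0∞) ^ 2)⁻¹ else 0

theorem Lam_swap (c : Fin N → Z3) (i j k : Fin N) : Lam c i j k = Lam c j i k := by
  unfold Lam
  refine if_ctx_congr (by grind) (fun h => ?_) fun _ => rfl
  simp only [cnt, h.2.1]

theorem Lam_swap' (c : Fin N → Z3) (i j k : Fin N) : Lam c i j k = Lam c i k j := by
  unfold Lam
  exact if_congr (by grind) rfl rfl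

theorem Lam_up (c : Fin N → Z3) (i : Fin N) : ∑ j, ∑ k, Lam c i j k ≤ 1 := by
  calc _ ≤ ∑ j, ∑ k, if c j = c i then if c k = c i then ((cnt c i : ℝ≥0∞) ^ 2)⁻¹ else 0 else 0 := by
        refine Finset.sum_le_sum fun j _ => Finset.sum_le_sum fun k _ => ?_
        unfold Lam
        split_ifs <;> simp_all
    _ = (cnt c i : ℝ≥0∞) ^ 2 * ((cnt c i : ℝ≥0∞) ^ 2)⁻¹ := by
        simp only [Finset.sum_ite_irrel, Finset.sum_const_zero, ← Finset.sum_filter,
          Finset.sum_const, nsmul_eq_mul, cnt]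
        ring
    _ ≤ 1 := ENNReal.mul_inv_le_one _

theorem Lam_low (c : Fin N → Z3) (i : Fin N) (h : 3 ≤ cnt c i) :
    1 ≤ 9 * ∑ j, ∑ k, Lam c i j k := by
  obtain ⟨S, hS⟩ : ∃ S, S = (Finset.univ.filter fun l => c l = c i).erase i := ⟨_, rfl⟩
  obtain ⟨n, hn⟩ : ∃ n, cnt c i = n + 2 := ⟨cnt c i - 2, by omega⟩
  have h1 : S.card = n + 1 := by
    rw [hS, Finset.card_erase_of_mem (by simp)]; unfold cnt at hn; omega
  have h2 : ∑ j ∈ S, ∑ _k ∈ S.erase j, ((cnt c i : ℝ≥0∞) ^ 2)⁻¹ ≤ ∑ j, ∑ k, Lam c i j k := by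
    refine le_trans (Finset.sum_le_sum fun j hj => ?_)
      (Finset.sum_le_sum_of_subset (Finset.subset_univ S))
    refine le_trans (Finset.sum_le_sum fun k hk => ?_)
      (Finset.sum_le_sum_of_subset (Finset.subset_univ (S.erase j)))
    rw [Lam, if_pos]
    simp only [hS, Finset.mem_erase, Finset.mem_filter, Finset.mem_univ, true_and] at hj hk
    grind
  refine le_trans ?_ (mul_le_mul_right h2 9)
  rw [Finset.sum_congr rfl fun j hj => by
    rw [Finset.sum_const, Finset.card_erase_of_mem hj, h1, Nat.add_sub_cancel]]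
  rw [Finset.sum_const, h1, nsmul_eq_mul, nsmul_eq_mul, ← mul_assoc, ← mul_assoc,
    ← div_eq_mul_inv, ENNReal.le_div_iff_mul_le (Or.inl (by simp [hn])) (Or.inl (by simp)), hn]
  norm_cast
  nlinarith [show 1 ≤ n by omega]

theorem sum_six (F : Fin N → Fin N → Fin N → ℝ≥0∞) (h1 : ∀ i j k, F i j k = F j i k)
    (h2 : ∀ i j k, F i j k = F i k j) :
    (∑ i, ∑ j, ∑ k, if i ≠ j ∧ i ≠ k ∧ j ≠ k then F i j k else 0) ≤
      6 * ∑ i, ∑ j, ∑ k, if i < j ∧ j < k then F i j k else 0 := by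
  obtain ⟨G, hG⟩ : ∃ G : Fin N → Fin N → Fin N → ℝ≥0∞,
    ∀ i j k, G i j k = if i < j ∧ j < k then F i j k else 0 := ⟨_, fun _ _ _ => rfl⟩
  simp only [← hG]
  have s1 : ∀ G : Fin N → Fin N → Fin N → ℝ≥0∞,
      ∑ i, ∑ j, ∑ k, G i k j = ∑ i, ∑ j, ∑ k, G i j k := fun G =>
    Finset.sum_congr rfl fun _ _ => Finset.sum_comm
  have s2 : ∀ G : Fin N → Fin N → Fin N → ℝ≥0∞,
      ∑ i, ∑ j, ∑ k, G j i k = ∑ i, ∑ j, ∑ k, G i j k := fun G => Finset.sum_comm
  calc _ ≤ ∑ i, ∑ j, ∑ k, (G i j k + G i k j + G j i k + G j k i + G k i j + G k j i) := by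
        refine Finset.sum_le_sum fun i _ => Finset.sum_le_sum fun j _ =>
          Finset.sum_le_sum fun k _ => ?_
        split_ifs with h
        swap
        · exact zero_le
        have e1 : F i k j = F i j k := h2 _ _ _
        have e2 : F j i k = F i j k := h1 _ _ _
        have e3 : F j k i = F i j k := by rw [h2, h1]
        have e4 : F k i j = F i j k := by rw [h1, h2]
        have e5 : F k j i = F i j k := by rw [h1, e3]
        simp only [hG, e1, e2, e3, e4, e5]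
        obtain ⟨a, b, c⟩ := h
        rcases lt_or_gt_of_ne a with a | a <;> rcases lt_or_gt_of_ne b with b | b <;>
          rcases lt_or_gt_of_ne c with c | c <;> first | omega | simp [a, b, c, a.not_gt, b.not_gt, c.not_gt]
    _ = _ := by
        simp only [Finset.sum_add_distrib]
        have t1 : ∑ i, ∑ j, ∑ k, G j k i = ∑ i, ∑ j, ∑ k, G i j k :=
          (s2 fun i j k => G i k j).trans (s1 G)
        have t2 : ∑ i, ∑ j, ∑ k, G k i j = ∑ i, ∑ j, ∑ k, G i j k :=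
          (s1 fun i j k => G j i k).trans (s2 G)
        have t3 : ∑ i, ∑ j, ∑ k, G k j i = ∑ i, ∑ j, ∑ k, G i j k :=
          (s2 fun i j k => G k i j).trans t2
        rw [s1 G, s2 G, t1, t2, t3]
        ring

theorem DD_sq (Ψ : Cfg N → ℂ) (x : Cfg N) : ∑ i, DD Ψ i x ^ 2 ≤ 3 * ENNReal.ofReal (kin Ψ x) := by
  rw [kin, ENNReal.ofReal_sum_of_nonneg fun _ _ => by positivity, Finset.mul_sum]
  refine Finset.sum_le_sum fun i _ => ?_
  simp only [DD, ← ofReal_norm]
  rw [← ENNReal.ofReal_sum_of_nonneg fun _ _ => by positivity,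
    ← ENNReal.ofReal_pow (by positivity), ← ENNReal.ofReal_ofNat,
    ← ENNReal.ofReal_mul (by positivity)]
  have := sq_sum_le_card_mul_sum_sq (s := Finset.univ)
    (f := fun k : Fin 3 => ‖fderiv ℝ Ψ x (Pi.single i (Pi.single k 1))‖)
  rw [Finset.card_univ, Fintype.card_fin] at this
  exact ENNReal.ofReal_le_ofReal this

theorem one_scale {Ψ : Cfg N → ℂ} (hΨ : ContDiff ℝ 1 Ψ) {s a R M0 I0 : ℝ≥0} (ha : 0 < a)
    (hR : 1 ≤ R) (has : 4 * R * a ≤ s) {U : R3 → R3 → ℝ≥0∞}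
    (hU : Measurable fun p : R3 × R3 => U p.1 p.2)
    {Mu : ℝ≥0∞} (hUM : ∀ u w, U u w ≤ Mu) (hMu : Mu * a ^ 2 ≤ M0)
    (hUs : ∀ u w, U u w ≠ 0 → ‖u‖ ≤ R * a ∧ ‖w‖ ≤ R * a) (hI : ∫⁻ u, ∫⁻ w, U u w = a ^ 4 * I0)
    (hU1 : ∀ u w, U u w = U w u) (hU2 : ∀ x y z, U (x - y) (x - z) = U (y - x) (y - z)) :
    a ^ 4 * I0 * ∫⁻ x, good (fun l => cell s (x l)) * ‖Ψ x‖ₑ ^ 2 ≤
      81 * (64 + 1536 * M0 + 9216 * R ^ 3 * M0 + 480 * I0) * s ^ 6 *
      ∫⁻ x, (ENNReal.ofReal (kin Ψ x) + (∑ i, ∑ j, ∑ k,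
        if i < j ∧ j < k then U (x i - x j) (x i - x k) else 0) * ‖Ψ x‖ₑ ^ 2) := by
  obtain ⟨C, hC⟩ : ∃ C : ℝ≥0∞, C = 64 + 1536 * M0 + 9216 * R ^ 3 * M0 + 480 * I0 := ⟨_, rfl⟩
  have hs : (0 : ℝ) < s := by
    have : 0 < s := lt_of_lt_of_le (by positivity) has
    exact_mod_cast this
  have hc := hΨ.continuous.measurable
  have hD := DD_meas hΨ
  have hL : ∀ i j k : Fin N, Measurable fun x : Cfg N => Lam (fun l => cell s (x l)) i j k :=
    fun i j k => cfg_meas s fun c => Lam c i j k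
  have hU' : ∀ i j k : Fin N, Measurable fun x : Cfg N => U (x i - x j) (x i - x k) :=
    fun i j k => hU.comp (f := fun x : Cfg N => (x i - x j, x i - x k)) (by fun_prop)
  have key : ∀ i j k : Fin N, a ^ 4 * I0 * ∫⁻ x, Lam (fun l => cell s (x l)) i j k * ‖Ψ x‖ₑ ^ 2 ≤
      C * s ^ 6 * ∫⁻ x, Lam (fun l => cell s (x l)) i j k * (DD Ψ i x ^ 2 + DD Ψ j x ^ 2 +
        DD Ψ k x ^ 2 + U (x i - x j) (x i - x k) * ‖Ψ x‖ₑ ^ 2) := by
    intro i j k
    by_cases hd : i ≠ j ∧ i ≠ k ∧ j ≠ k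
    swap
    · simp [Lam, hd]
    obtain ⟨ω, hω⟩ : ∃ ω : Z3 → Cfg N → ℝ≥0∞, ∀ b x, ω b x = (((Finset.univ.filter fun l =>
      l = i ∨ l = j ∨ l = k ∨ cell s (x l) = b).card : ℝ≥0∞) ^ 2)⁻¹ := ⟨_, fun _ _ => rfl⟩
    have hωm : ∀ b, Measurable (ω b) := fun b => by
      rw [funext (hω b)]
      exact cfg_meas s fun c => (((Finset.univ.filter fun l =>
        l = i ∨ l = j ∨ l = k ∨ c l = b).card : ℝ≥0∞) ^ 2)⁻¹
    have hωu : ∀ l', l' = i ∨ l' = j ∨ l' = k → ∀ b x y, ω b (update x l' y) = ω b x := by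
      intro l' hl b x y
      rw [hω, hω]
      congr 4
      refine Finset.filter_congr fun l _ => ?_
      by_cases h : l = l'
      · grind
      · rw [update_of_ne h]
    have hχ : ∀ b : Z3, Measurable ((cube (fun k => b k * s) s).indicator (1 : R3 → ℝ≥0∞)) :=
      fun b => measurable_one.indicator (cube_meas _ _)
    have hsum : ∀ F : Cfg N → ℝ≥0∞, Measurable F →
        ∫⁻ x, Lam (fun l => cell s (x l)) i j k * F x = ∑' b : Z3, ∫⁻ x, ω b x *
          (cube (fun k => b k * s) s).indicator 1 (x i) *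
          (cube (fun k => b k * s) s).indicator 1 (x j) *
          (cube (fun k => b k * s) s).indicator 1 (x k) * F x := by
      intro F hF
      rw [← lintegral_tsum fun b => by have := hωm b; have := hχ b; fun_prop]
      refine lintegral_congr fun x => ?_
      rw [tsum_eq_single (cell s (x i)) fun b hb => by
        simp [mem_cube_iff hs, hb.symm]]
      congr 1
      unfold Lam
      split_ifs with h
      · simp only [mem_cube_iff hs, h.2.1, h.2.2, indicator_of_mem, Pi.one_apply, mul_one, hω, cnt]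
        congr 4
        refine Finset.filter_congr fun l _ => ?_
        grind
      · have : cell s (x j) ≠ cell s (x i) ∨ cell s (x k) ≠ cell s (x i) := by grind
        rcases this with h | h <;> simp [mem_cube_iff hs, h]
    rw [hsum _ (by fun_prop), hsum _ (by have := hU' i j k; fun_prop), ← ENNReal.tsum_mul_left,
      ← ENNReal.tsum_mul_left, hC]
    exact ENNReal.tsum_le_tsum fun b => three_body hΨ hd.1 hd.2.1 hd.2.2 _ ha hR has hU hUM hMu hUs
      hI (hωm b) (hωu i (by simp) b) (hωu j (by simp) b) (hωu k (by simp) b)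
  have hsum : ∀ F : Fin N → Fin N → Fin N → Cfg N → ℝ≥0∞, (∀ i j k, Measurable (F i j k)) →
      ∫⁻ x, ∑ i, ∑ j, ∑ k, F i j k x = ∑ i, ∑ j, ∑ k, ∫⁻ x, F i j k x := by
    intro F hF
    rw [lintegral_finsetSum _ fun i _ => by fun_prop]
    refine Finset.sum_congr rfl fun i _ => ?_
    rw [lintegral_finsetSum _ fun i _ => by fun_prop]
    exact Finset.sum_congr rfl fun j _ => lintegral_finsetSum _ fun i _ => hF _ _ _
  rw [← hC]
  calc _ ≤ a ^ 4 * I0 * ∫⁻ x, 9 * ∑ i, ∑ j, ∑ k, Lam (fun l => cell s (x l)) i j k * ‖Ψ x‖ₑ ^ 2 := by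
        refine mul_le_mul_right (lintegral_mono fun x => ?_) _
        simp only [← Finset.sum_mul, ← mul_assoc]
        gcongr
        rw [good, Finset.card_filter, Finset.mul_sum]
        push_cast
        refine Finset.sum_le_sum fun i _ => ?_
        split_ifs with h
        exacts [Lam_low _ i h, zero_le]
    _ = 9 * ∑ i, ∑ j, ∑ k, a ^ 4 * I0 * ∫⁻ x, Lam (fun l => cell s (x l)) i j k * ‖Ψ x‖ₑ ^ 2 := by
        rw [lintegral_const_mul' _ _ (by simp), hsum _ fun i j k => by have := hL i j k; fun_prop]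
        simp only [← Finset.mul_sum]; ring
    _ ≤ 9 * ∑ i, ∑ j, ∑ k, C * s ^ 6 * ∫⁻ x, Lam (fun l => cell s (x l)) i j k * (DD Ψ i x ^ 2 +
        DD Ψ j x ^ 2 + DD Ψ k x ^ 2 + U (x i - x j) (x i - x k) * ‖Ψ x‖ₑ ^ 2) := by
        exact mul_le_mul_right (Finset.sum_le_sum fun i _ => Finset.sum_le_sum fun j _ =>
          Finset.sum_le_sum fun k _ => key i j k) _
    _ = 9 * C * s ^ 6 * ∫⁻ x, ∑ i, ∑ j, ∑ k, Lam (fun l => cell s (x l)) i j k * (DD Ψ i x ^ 2 +
        DD Ψ j x ^ 2 + DD Ψ k x ^ 2 + U (x i - x j) (x i - x k) * ‖Ψ x‖ₑ ^ 2) := by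
        rw [hsum _ fun i j k => by have := hL i j k; have := hU' i j k; fun_prop]
        simp only [← Finset.mul_sum]; ring
    _ ≤ 9 * C * s ^ 6 * ∫⁻ x, 9 * (ENNReal.ofReal (kin Ψ x) + (∑ i, ∑ j, ∑ k,
        if i < j ∧ j < k then U (x i - x j) (x i - x k) else 0) * ‖Ψ x‖ₑ ^ 2) := by
        refine mul_le_mul_right (lintegral_mono fun x => ?_) _
        obtain ⟨c, hc⟩ : ∃ c : Fin N → Z3, c = fun l => cell s (x l) := ⟨_, rfl⟩
        simp only [← hc, mul_add, Finset.sum_add_distrib]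
        have h1 : ∑ i, ∑ j, ∑ k, Lam c i j k * DD Ψ i x ^ 2 ≤ 3 * ENNReal.ofReal (kin Ψ x) := by
          refine le_trans (Finset.sum_le_sum fun i _ => ?_) (DD_sq Ψ x)
          simp only [← Finset.sum_mul]
          exact mul_le_of_le_one_left' (Lam_up c i)
        have h2 : ∑ i, ∑ j, ∑ k, Lam c i j k * DD Ψ j x ^ 2 =
            ∑ i, ∑ j, ∑ k, Lam c i j k * DD Ψ i x ^ 2 := by
          rw [Finset.sum_comm]; simp only [Lam_swap c]
        have h3 : ∑ i, ∑ j, ∑ k, Lam c i j k * DD Ψ k x ^ 2 =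
            ∑ i, ∑ j, ∑ k, Lam c i j k * DD Ψ j x ^ 2 := by
          refine Finset.sum_congr rfl fun i _ => ?_
          rw [Finset.sum_comm]; simp only [Lam_swap' c i]
        have h4 : ∑ i, ∑ j, ∑ k, Lam c i j k * (U (x i - x j) (x i - x k) * ‖Ψ x‖ₑ ^ 2) ≤
            9 * ((∑ i, ∑ j, ∑ k, if i < j ∧ j < k then U (x i - x j) (x i - x k) else 0) *
              ‖Ψ x‖ₑ ^ 2) := by
          simp only [← mul_assoc, ← Finset.sum_mul]
          gcongr
          refine le_trans ?_ ((sum_six (fun i j k => U (x i - x j) (x i - x k))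
            (fun _ _ _ => hU2 _ _ _) fun _ _ _ => hU1 _ _).trans (by gcongr; norm_num))
          refine Finset.sum_le_sum fun i _ => Finset.sum_le_sum fun j _ =>
            Finset.sum_le_sum fun k _ => ?_
          split_ifs with h
          · refine mul_le_of_le_one_left' (le_trans ?_ (Lam_up c i))
            exact (Finset.single_le_sum (fun _ _ => zero_le) (Finset.mem_univ k)).trans
              (Finset.single_le_sum (f := fun j => ∑ k, Lam c i j k) (fun _ _ => zero_le)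
                (Finset.mem_univ j))
          · simp [Lam, h]
        rw [h3, h2]
        exact (add_le_add (add_le_add (add_le_add h1 h1) h1) h4).trans (le_of_eq (by ring))
    _ = _ := by rw [lintegral_const_mul' _ _ (by simp)]; ring

end

end Pool.Agent.H41.Bose
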