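import Pool.Agent.H41.Bose3

namespace Pool.Agent.H41.Bose

open Finset

section
variable {N : ℕ}

theorem cnt_le (c : Fin N → Z3) (S : Finset (Fin N)) (T : Finset Z3) (n : ℕ)
    (h : ∀ i ∈ S, c i ∈ T ∧ cnt c i ≤ n) : S.card ≤ n * T.card := by
  refine Finset.card_le_mul_card_image_of_maps_to (fun i hi => (h i hi).1) n fun b _ => ?_
  rcases (S.filter fun a => c a = b).eq_empty_or_nonempty with h0 | ⟨i, hi⟩
  · simp [h0]
  · obtain ⟨h1, rfl⟩ := Finset.mem_filter.mp hi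
    exact (Finset.card_le_card (Finset.filter_subset_filter _ (subset_univ _))).trans (h i h1).2

theorem pair_count (b : Fin N → Z3) (P : Fin N → Fin N → Prop) [∀ i j, Decidable (P i j)]
    (h1 : ∀ i j, P i j → P j i) (h2 : ∀ i j k, P i j → b j k ≤ b i k + 1) :
    ∑ i, ∑ j, (if P i j then 1 else 0) ≤ 54 * ∑ i, cnt b i := by
  have key : ∀ i, ∑ j, (if P i j ∧ cnt b j ≤ cnt b i then 1 else 0) ≤ 27 * cnt b i := by
    intro i
    rw [← Finset.card_filter]
    refine (cnt_le b _ (Fintype.piFinset fun k => Icc (b i k - 1) (b i k + 1)) (cnt b i)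
      fun j hj => ?_).trans (le_of_eq ?_)
    · obtain ⟨-, h3, h4⟩ := Finset.mem_filter.mp hj
      refine ⟨Fintype.mem_piFinset.mpr fun k => Finset.mem_Icc.mpr ⟨?_, h2 _ _ k h3⟩, h4⟩
      have := h2 _ _ k (h1 _ _ h3); omega
    · have : ∀ z : ℤ, (z + 1 + 1 - (z - 1)).toNat = 3 := fun z => by omega
      simp [this, mul_comm]
  calc _ ≤ ∑ i, ∑ j, ((if P i j ∧ cnt b j ≤ cnt b i then 1 else 0) +
        (if P j i ∧ cnt b i ≤ cnt b j then 1 else 0)) := by
        refine Finset.sum_le_sum fun i _ => Finset.sum_le_sum fun j _ => ?_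
        have := h1 i j
        split_ifs <;> grind
    _ = 2 * ∑ i, ∑ j, (if P i j ∧ cnt b j ≤ cnt b i then 1 else 0) := by
        simp only [Finset.sum_add_distrib]
        rw [Finset.sum_comm (f := fun i j => if P j i ∧ cnt b i ≤ cnt b j then 1 else 0), two_mul]
    _ ≤ 2 * ∑ i, 27 * cnt b i := Nat.mul_le_mul_left _ (Finset.sum_le_sum fun i _ => key i)
    _ = _ := by rw [← Finset.mul_sum]; ring

noncomputable def th (J j : ℕ) : ℝ := (1 / 2) ^ j / 4 + if j = J then 1 / 2 else 0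

theorem th_nonneg (J j : ℕ) : 0 ≤ th J j := by unfold th; split_ifs <;> positivity

theorem th_sum (J : ℕ) : ∑ j ∈ range (J + 1), th J j ≤ 1 := by
  have := sum_geometric_two_le (J + 1)
  simp only [th, Finset.sum_add_distrib, ← Finset.sum_div, Finset.sum_ite_eq', self_mem_range_succ,
    if_true]
  linarith

theorem fiber_ineq {κ ε M n : ℝ} (hκ : 0 ≤ κ) (hε : 0 < ε) (hM : 0 < M) (hn : 0 ≤ n) {J : ℕ}
    (hJ : κ / M * n ≤ ε * 64 ^ J / 4) (G : ℕ → ℝ) (hG : ∀ j, 0 ≤ G j)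
    (hG' : ∀ j ≤ J, n - 2 * M * 8 ^ j ≤ G j) :
    κ / M * n * n ≤ (4 * κ + 32 * κ * (256 * κ / ε) ^ 2) * n +
      ∑ j ∈ range (J + 1), th J j * ε * 64 ^ j * G j := by
  have h0 : ∀ j ∈ range (J + 1), 0 ≤ th J j * ε * 64 ^ j * G j := fun j _ => by
    have := th_nonneg J j; have := hG j; positivity
  have hc : 0 ≤ 32 * κ * (256 * κ / ε) ^ 2 * n := by positivity
  have hc' : 0 ≤ 4 * κ * n := by positivity
  obtain ⟨y, rfl⟩ : ∃ y, n = M * y := ⟨n / M, by field_simp⟩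
  have hy : 0 ≤ y := nonneg_of_mul_nonneg_right hn hM
  have e : κ / M * (M * y) = κ * y := by field_simp
  rw [e] at hJ ⊢
  rcases lt_or_ge y 4 with h | h
  · have := Finset.sum_nonneg h0
    nlinarith [mul_nonneg hκ hn]
  obtain ⟨j, h1, h2⟩ := exists_nat_pow_near (x := y / 4) (y := 8) (by linarith) (by norm_num)
  have hG2 : ∀ i ≤ J, i ≤ j → M * y / 2 ≤ G i := fun i hi hij => by
    have h3 : (8 : ℝ) ^ i ≤ 8 ^ j := pow_le_pow_right₀ (by norm_num) hij
    have := hG' i hi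
    nlinarith
  rcases le_or_gt J j with h3 | h3
  · have h4 := Finset.single_le_sum h0 (self_mem_range_succ J)
    have h5 : 1 / 2 * ε * 64 ^ J * (M * y / 2) ≤ th J J * ε * 64 ^ J * G J := by
      have := th_nonneg J J
      gcongr
      · rw [th, if_pos rfl]; exact le_add_of_nonneg_left (by positivity)
      · exact hG2 J le_rfl h3
    nlinarith
  · have h4 := Finset.single_le_sum h0 (mem_range.mpr (by omega : j < J + 1))
    have h5 : (1 / 2) ^ j / 4 * ε * 64 ^ j * (M * y / 2) ≤ th J j * ε * 64 ^ j * G j := by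
      have := th_nonneg J j
      gcongr
      · rw [th, if_neg h3.ne, add_zero]
      · exact hG2 j h3.le le_rfl
    obtain ⟨u, hu⟩ : ∃ u : ℝ, u = 2 ^ j := ⟨_, rfl⟩
    have hu1 : 1 ≤ u := hu ▸ one_le_pow₀ (by norm_num)
    have e1 : (8 : ℝ) ^ j = u ^ 3 := by rw [hu, ← pow_mul, mul_comm, pow_mul]; norm_num
    have e2 : (1 / 2 : ℝ) ^ j / 4 * ε * 64 ^ j = ε * u ^ 5 / 4 := by
      have : (1 / 2 : ℝ) ^ j * 64 ^ j = u ^ 5 := by
        rw [hu, ← pow_mul, mul_comm j, pow_mul, ← mul_pow]; norm_num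
      rw [← this]; ring
    rw [e2] at h5
    rw [pow_succ, e1] at h2
    have h6 : κ * y ≤ ε * u ^ 5 / 8 + 32 * κ * (256 * κ / ε) ^ 2 := by
      have h7 : κ * y ≤ 32 * κ * u ^ 3 := by nlinarith
      rcases le_or_gt (256 * κ / ε) (u ^ 2) with h8 | h8
      · rw [div_le_iff₀ hε] at h8
        have : 0 ≤ 32 * κ * (256 * κ / ε) ^ 2 := by positivity
        nlinarith [mul_le_mul_of_nonneg_right h8 (by positivity : 0 ≤ u ^ 3)]
      · have h9 : u ^ 3 ≤ (256 * κ / ε) ^ 2 :=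
          (pow_le_pow_right₀ hu1 (by norm_num : 3 ≤ 2 * 2)).trans
            (by rw [pow_mul]; exact pow_le_pow_left₀ (by positivity) h8.le 2)
        have : 0 ≤ ε * u ^ 5 / 8 := by positivity
        nlinarith
    nlinarith [mul_le_mul_of_nonneg_right h6 hn]

theorem multi {κ ε : ℝ} (hκ : 0 ≤ κ) (hε : 0 < ε) {m J : ℕ} (hm : 0 < m)
    (hJ : κ / m ^ 3 * N ≤ ε * 64 ^ J / 4) (b : Fin N → Z3) (c : ℕ → Fin N → Z3)
    (h : ∀ j i k, (m * 2 ^ j : ℕ) * b i k ≤ c j i k ∧ c j i k < (m * 2 ^ j : ℕ) * (b i k + 1)) :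
    κ / m ^ 3 * ∑ i, (cnt b i : ℝ) ≤ (4 * κ + 32 * κ * (256 * κ / ε) ^ 2) * N +
      ∑ j ∈ range (J + 1), th J j * ε * 64 ^ j * good (c j) := by
  have hM : (0 : ℝ) < m ^ 3 := by positivity
  have hf : ∀ F : Fin N → ℝ, ∑ i, F i = ∑ z ∈ univ.image b, ∑ i ∈ univ.filter (b · = z), F i :=
    fun F => (Finset.sum_fiberwise_of_maps_to (fun i hi => mem_image_of_mem b hi) F).symm
  have h1 : ∀ j, (good (c j) : ℝ) = ∑ i, if 3 ≤ cnt (c j) i then 1 else 0 := fun j => by
    rw [good, Finset.card_filter]; push_cast; rfl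
  have h2 : (N : ℝ) = ∑ _i : Fin N, (1 : ℝ) := by simp
  conv_rhs => rw [h2]
  simp only [h1, hf, Finset.mul_sum (univ.image b)]
  rw [Finset.sum_comm (s := range (J + 1)), ← Finset.sum_add_distrib]
  refine Finset.sum_le_sum fun z _ => ?_
  obtain ⟨S, hS⟩ : ∃ S, S = univ.filter (b · = z) := ⟨_, rfl⟩
  have h3 : ∑ i ∈ S, (cnt b i : ℝ) = S.card * S.card := by
    rw [Finset.sum_congr rfl (g := fun _ => (S.card : ℝ)), Finset.sum_const, nsmul_eq_mul]
    intro i hi
    rw [hS] at hi ⊢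
    rw [cnt, (Finset.mem_filter.mp hi).2]
  rw [← hS, h3, ← mul_assoc, Finset.sum_const, nsmul_eq_mul, mul_one]
  refine fiber_ineq hκ hε hM (Nat.cast_nonneg _) (le_trans ?_ hJ) _
    (fun j => Finset.sum_nonneg fun _ _ => by split_ifs <;> norm_num) fun j _ => ?_
  · gcongr; simpa using S.card_le_univ
  · have h4 := cnt_le (c j) (S.filter fun i => ¬ 3 ≤ cnt (c j) i) (Fintype.piFinset fun k =>
      Ico ((m * 2 ^ j : ℕ) * z k) ((m * 2 ^ j : ℕ) * (z k + 1))) 2 fun i hi => by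
        obtain ⟨h5, h6⟩ := Finset.mem_filter.mp hi
        rw [hS] at h5
        rw [← (Finset.mem_filter.mp h5).2]
        exact ⟨Fintype.mem_piFinset.mpr fun k => Finset.mem_Ico.mpr (h j i k), by omega⟩
    have h5 : ∀ (a : ℕ) (z : ℤ), (a * (z + 1) - a * z).toNat = a := fun a z => by
      rw [show (a : ℤ) * (z + 1) - a * z = a by ring]; simp
    simp only [Fintype.card_piFinset, Int.card_Ico, h5, Finset.prod_const, card_univ,
      Fintype.card_fin] at h4
    have h6 := Finset.card_filter_add_card_filter_not (s := S) fun i => 3 ≤ cnt (c j) i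
    have h7 : (S.card : ℝ) ≤ (S.filter fun i => 3 ≤ cnt (c j) i).card + 2 * (m * 2 ^ j) ^ 3 := by
      exact_mod_cast (by omega : S.card ≤ (S.filter fun i => 3 ≤ cnt (c j) i).card +
        2 * (m * 2 ^ j) ^ 3)
    rw [Finset.card_filter, mul_pow, ← pow_mul, mul_comm j, pow_mul] at h7
    push_cast at h7
    norm_num at h7 ⊢
    linarith

end

theorem cell_close {l : ℝ} (hl : 0 < l) {x y : R3} (h : ‖x - y‖ ≤ l) (k : Fin 3) :
    cell l y k ≤ cell l x k + 1 := by
  have h2 := abs_le.mp ((norm_le_pi_norm (x - y) k).trans h)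
  unfold cell
  rw [← Int.floor_add_one]
  refine Int.floor_mono ?_
  rw [div_add_one hl.ne']
  simp only [Pi.sub_apply] at h2
  gcongr; linarith

theorem cell_nest {s : ℝ} (hs : 0 < s) {M : ℕ} (hM : 0 < M) (x : R3) (k : Fin 3) :
    M * cell (M * s) x k ≤ cell s x k ∧ cell s x k < M * (cell (M * s) x k + 1) := by
  unfold cell
  have hM' : (0 : ℝ) < M := by exact_mod_cast hM
  have h1 := Int.floor_le (x k / (M * s))
  have h2 := Int.lt_floor_add_one (x k / (M * s))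
  have e : x k / s = M * (x k / (M * s)) := by field_simp
  rw [Int.le_floor, Int.floor_lt, e]
  push_cast
  exact ⟨by gcongr, by gcongr⟩

end Pool.Agent.H41.Bose
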