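import Pool.Agent.H41.Bose4

namespace Pool.Agent.H41.Bose

open MeasureTheory Set Filter
open scoped ENNReal NNReal

noncomputable def pair (β : ℝ) (W : R3 → ℝ) (N : ℕ) (x : Cfg N) : ℝ :=
  ∑ i, ∑ j, if i < j then (N : ℝ) ^ (3 * β - 1) * W ((N : ℝ) ^ β • (x i - x j)) else 0

noncomputable def trip (V : R3 → R3 → ℝ) (N : ℕ) (x : Cfg N) : ℝ :=
  ∑ i, ∑ j, ∑ k, if i < j ∧ j < k then
    N * V ((N : ℝ) ^ (1 / 2 : ℝ) • (x i - x j)) ((N : ℝ) ^ (1 / 2 : ℝ) • (x i - x k)) else 0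

variable {V : R3 → R3 → ℝ} {W : R3 → ℝ}

theorem Admissible.mass (h : Admissible V W) :
    ∃ I : ℝ≥0, 0 < I ∧ ∫⁻ u, ∫⁻ w, ENNReal.ofReal (V u w) = I := by
  have hm : Measurable fun p : R3 × R3 => ENNReal.ofReal (V p.1 p.2) := h.measV.ennreal_ofReal
  have e : ∫⁻ u, ∫⁻ w, ENNReal.ofReal (V u w) = ∫⁻ p : R3 × R3, ENNReal.ofReal (V p.1 p.2) :=
    (lintegral_prod _ hm.aemeasurable).symm
  obtain ⟨M, hM⟩ := h.bddV
  obtain ⟨r, hr⟩ := h.suppV
  have h1 : ∫⁻ p : R3 × R3, ENNReal.ofReal (V p.1 p.2) ≠ ⊤ := by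
    refine ne_top_of_le_ne_top ?_ (lintegral_mono
      (g := (Metric.closedBall (0 : R3 × R3) r).indicator fun _ => ENNReal.ofReal M) fun p => ?_)
    · rw [lintegral_indicator_const Metric.isClosed_closedBall.measurableSet]
      exact ENNReal.mul_ne_top ENNReal.ofReal_ne_top measure_closedBall_lt_top.ne
    · by_cases hp : V p.1 p.2 = 0
      · simp [hp]
      · rw [indicator_of_mem (by simpa [Prod.norm_def] using hr _ _ hp)]
        exact ENNReal.ofReal_le_ofReal (hM _ _)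
  refine ⟨_, ?_, e.trans (ENNReal.coe_toNNReal h1).symm⟩
  refine ENNReal.toNNReal_pos (fun h0 => h.neV ?_) h1
  filter_upwards [(lintegral_eq_zero_iff hm).mp h0] with p hp
  exact le_antisymm (by simpa using hp) (h.nonnegV _ _)

theorem scale_bound (h : Admissible V W) {R M0 I0 : ℝ≥0} (hR : 1 ≤ R) (hM : ∀ x y, V x y ≤ M0)
    (hs : ∀ x y, V x y ≠ 0 → ‖x‖ ≤ R ∧ ‖y‖ ≤ R)
    (hI : ∫⁻ u, ∫⁻ w, ENNReal.ofReal (V u w) = I0) {N : ℕ} {u : ℝ≥0} (hu : 0 < u)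
    (hN : (N : ℝ) = u ^ 6) {t : ℝ≥0} (ht : 0 < t) (htu : 4 * R * t ≤ u) {Ψ : Cfg N → ℂ}
    (hΨ : ContDiff ℝ 1 Ψ) :
    t ^ 6 * I0 * ∫⁻ x, good (fun l => cell (1 / (u ^ 2 * t)) (x l)) * ‖Ψ x‖ₑ ^ 2 ≤
      81 * (64 + 1536 * M0 + 9216 * R ^ 3 * M0 + 480 * I0) *
      ∫⁻ x, (ENNReal.ofReal (kin Ψ x) + ENNReal.ofReal (trip V N x) * ‖Ψ x‖ₑ ^ 2) := by
  have hu' : (0 : ℝ) < u := hu
  have hA : (N : ℝ) ^ (1 / 2 : ℝ) = u ^ 3 := by
    rw [hN, ← Real.rpow_natCast, ← Real.rpow_mul hu'.le, ← Real.rpow_natCast]; norm_num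
  have hm : Measurable fun p : R3 × R3 => ENNReal.ofReal (V p.1 p.2) := h.measV.ennreal_ofReal
  have key := one_scale hΨ (s := 1 / (u ^ 2 * t)) (a := 1 / u ^ 3) (M0 := M0) (I0 := I0)
    (by positivity) hR (by
      rw [mul_one_div, div_le_div_iff₀ (by positivity) (by positivity)]
      calc 4 * R * (u ^ 2 * t) = u ^ 2 * (4 * R * t) := by ring
        _ ≤ u ^ 2 * u := by gcongr
        _ = _ := by ring)
    (U := fun x y => u ^ 6 * ENNReal.ofReal (V ((u : ℝ) ^ 3 • x) ((u : ℝ) ^ 3 • y)))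
    ((hm.comp (f := fun p : R3 × R3 => ((u : ℝ) ^ 3 • p.1, (u : ℝ) ^ 3 • p.2))
      (by fun_prop)).const_mul _) (Mu := u ^ 6 * M0)
    (fun x y => mul_le_mul_right (ENNReal.ofReal_le_of_le_toReal (hM _ _)) _)
    (by norm_cast; apply le_of_eq; field_simp)
    (fun x y hxy => by
      have := hs _ _ fun h0 => hxy (by rw [h0]; simp)
      rw [norm_smul, norm_smul, Real.norm_of_nonneg (by positivity)] at this
      push_cast
      rw [mul_one_div, le_div_iff₀ (by positivity), le_div_iff₀ (by positivity)]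
      exact ⟨by linarith, by linarith⟩)
    (by
      have h1 : ∀ x, ∫⁻ y, ENNReal.ofReal (V x ((u : ℝ) ^ 3 • y)) =
          ENNReal.ofReal (((u : ℝ) ^ 3)⁻¹ ^ 3) * ∫⁻ y, ENNReal.ofReal (V x y) := fun x => by
        simpa using lint_affine (F := fun y => ENNReal.ofReal (V x y))
          (hm.comp measurable_prodMk_left) 0 (c := (u : ℝ) ^ 3) (by positivity)
      have h2 := lint_affine (F := fun x => ∫⁻ y, ENNReal.ofReal (V x y))
        hm.lintegral_prod_right' 0 (c := (u : ℝ) ^ 3) (by positivity)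
      simp only [zero_add] at h2
      simp only [lintegral_const_mul' _ _ (show (u : ℝ≥0∞) ^ 6 ≠ ⊤ by finiteness), h1,
        lintegral_const_mul' _ _ ENNReal.ofReal_ne_top, h2, hI]
      rw [show ((u : ℝ) ^ 3)⁻¹ ^ 3 = (((u ^ 3)⁻¹ ^ 3 : ℝ≥0) : ℝ) by push_cast; rfl,
        ENNReal.ofReal_coe_nnreal]
      norm_cast; field_simp)
    (fun x y => by rw [h.swapV]) (fun x y z => by simp only [smul_sub, (h.symV _ _ _).1])
  have e1 : ∀ x : Cfg N, ENNReal.ofReal (trip V N x) = ∑ i, ∑ j, ∑ k, if i < j ∧ j < k then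
      u ^ 6 * ENNReal.ofReal (V ((u : ℝ) ^ 3 • (x i - x j)) ((u : ℝ) ^ 3 • (x i - x k)))
      else 0 := by
    intro x
    have h0 : ∀ i j k : Fin N, 0 ≤ if i < j ∧ j < k then N * V ((N : ℝ) ^ (1 / 2 : ℝ) • (x i - x j))
        ((N : ℝ) ^ (1 / 2 : ℝ) • (x i - x k)) else 0 := fun i j k => by
      have := h.nonnegV
      split_ifs
      exacts [mul_nonneg (Nat.cast_nonneg _) (this _ _), le_rfl]
    rw [trip, ENNReal.ofReal_sum_of_nonneg fun _ _ => Finset.sum_nonneg fun _ _ =>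
      Finset.sum_nonneg fun _ _ => h0 _ _ _]
    refine Finset.sum_congr rfl fun i _ => ?_
    rw [ENNReal.ofReal_sum_of_nonneg fun _ _ => Finset.sum_nonneg fun _ _ => h0 _ _ _]
    refine Finset.sum_congr rfl fun j _ => ?_
    rw [ENNReal.ofReal_sum_of_nonneg fun _ _ => h0 _ _ _]
    refine Finset.sum_congr rfl fun k _ => ?_
    split_ifs
    · rw [hA, ENNReal.ofReal_mul (Nat.cast_nonneg _), hN, ENNReal.ofReal_pow hu'.le,
        ENNReal.ofReal_coe_nnreal]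
    · simp
  simp only [e1]
  rw [← ENNReal.mul_le_mul_iff_right (a := ((1 / (u ^ 2 * t) : ℝ≥0) : ℝ≥0∞) ^ 6)
    (by simp [hu.ne', ht.ne']) (by finiteness)]
  have e2 : ((1 / (u ^ 2 * t) : ℝ≥0) : ℝ≥0∞) ^ 6 * t ^ 6 = ((1 / u ^ 3 : ℝ≥0) : ℝ≥0∞) ^ 4 := by
    norm_cast; field_simp
  push_cast at key ⊢ e2
  calc _ = _ := by rw [← e2]; ring
    _ ≤ _ := key
    _ = _ := by ring

theorem pair_le (h : Admissible V W) {β w : ℝ} (hw : ∀ x, -w ≤ W x) {N : ℕ} (x : Cfg N)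
    (P : Fin N → Fin N → Prop) [∀ i j, Decidable (P i j)]
    (hP : ∀ i j, W ((N : ℝ) ^ β • (x i - x j)) ≠ 0 → P i j) :
    -pair β W N x ≤ (N : ℝ) ^ (3 * β - 1) * w * (∑ i, ∑ j, if P i j then 1 else 0 : ℕ) := by
  have hw0 : 0 ≤ w := by linarith [hw 0, h.nonposW 0]
  have hp : 0 ≤ (N : ℝ) ^ (3 * β - 1) := by positivity
  push_cast
  simp only [pair, ← Finset.sum_neg_distrib, Finset.mul_sum]
  refine Finset.sum_le_sum fun i _ => Finset.sum_le_sum fun j _ => ?_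
  have := hP i j
  split_ifs with h1 h2 h2
  · nlinarith [hw ((N : ℝ) ^ β • (x i - x j))]
  · rw [not_not.mp fun h => h2 (this h)]; simp
  · simp; positivity
  · simp

theorem stab_lint (h : Admissible V W) {β : ℝ} (hβ : β < 1 / 3) :
    ∃ C : ℝ, 0 < C ∧ ∀ N : ℕ, 1 ≤ N → ∀ Ψ : Cfg N → ℂ, ContDiff ℝ 1 Ψ →
      ∫⁻ x, ENNReal.ofReal (-pair β W N x) * ‖Ψ x‖ₑ ^ 2 ≤
        ENNReal.ofReal (C * N) * (∫⁻ x, ‖Ψ x‖ₑ ^ 2) +
        ∫⁻ x, (ENNReal.ofReal (kin Ψ x) + ENNReal.ofReal (trip V N x) * ‖Ψ x‖ₑ ^ 2) := by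
  obtain ⟨I0, hI0, hI⟩ := h.mass
  obtain ⟨M, hM⟩ := h.bddV
  obtain ⟨r1, hr1⟩ := h.suppV
  obtain ⟨r2, hr2⟩ := h.suppW
  obtain ⟨w, hw⟩ := h.bddW
  have hw0 : 0 ≤ w := by linarith [hw 0, h.nonposW 0]
  lift M to ℝ≥0 using (h.nonnegV 0 0).trans (hM 0 0)
  obtain ⟨R, hR, hR1, hR2⟩ : ∃ R : ℝ≥0, 1 ≤ R ∧ r1 ≤ R ∧ r2 ≤ R :=
    ⟨⟨max 1 (max r1 r2), by positivity⟩, le_max_left (1 : ℝ) _,
      le_max_of_le_right (le_max_left _ _), le_max_of_le_right (le_max_right _ _)⟩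
  have hR' : (1 : ℝ) ≤ R := hR
  obtain ⟨D, hD⟩ : ∃ D : ℝ≥0, D = 81 * (64 + 1536 * M + 9216 * R ^ 3 * M + 480 * I0) := ⟨_, rfl⟩
  have hD0 : 0 < D := by rw [hD]; positivity
  obtain ⟨ε, hε⟩ : ∃ ε : ℝ≥0, ε = I0 / D := ⟨_, rfl⟩
  have hε0 : (0 : ℝ) < ε := by rw [hε]; positivity
  obtain ⟨κ, hκ⟩ : ∃ κ : ℝ, κ = 432 * w * R ^ 3 := ⟨_, rfl⟩
  have hκ0 : 0 ≤ κ := by rw [hκ]; positivity
  obtain ⟨N0, hN0⟩ := eventually_atTop.mp
    ((((tendsto_rpow_atTop (y := 1 / 6) (by norm_num)).comp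
      tendsto_natCast_atTop_atTop).eventually_ge_atTop (4 * R)).and
    (((tendsto_rpow_atTop (y := 1 - 3 * β) (by linarith)).comp
      tendsto_natCast_atTop_atTop).eventually_ge_atTop (4 * κ * (8 * R) ^ 6 / ε)))
  obtain ⟨C0, hC0⟩ : ∃ C0 : ℝ, C0 = 4 * κ + 32 * κ * (256 * κ / ε) ^ 2 := ⟨_, rfl⟩
  have hC0' : 0 ≤ C0 := by rw [hC0]; positivity
  refine ⟨C0 + w * N0 + 1, by positivity, fun N hN Ψ hΨ => ?_⟩
  have hN1 : (1 : ℝ) ≤ N := by exact_mod_cast hN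
  have hc := hΨ.continuous.measurable
  rcases lt_or_ge N N0 with hlt | hge
  · refine le_add_right ?_
    rw [← lintegral_const_mul _ (by fun_prop)]
    refine lintegral_mono fun x => mul_le_mul_left (ENNReal.ofReal_le_ofReal ?_) _
    refine (pair_le h hw x (fun _ _ => True) fun _ _ _ => trivial).trans ?_
    have h1 : (N : ℝ) ^ (3 * β - 1) ≤ 1 := Real.rpow_le_one_of_one_le_of_nonpos hN1 (by linarith)
    have h2 : (N : ℝ) ≤ N0 := by exact_mod_cast hlt.le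
    simp only [if_true, Finset.sum_const, Finset.card_univ, Fintype.card_fin, smul_eq_mul, mul_one]
    push_cast
    calc _ ≤ 1 * w * (N0 * N) := by gcongr
      _ ≤ _ := by nlinarith
  obtain ⟨h1, h2⟩ := hN0 N hge
  simp only [Function.comp_apply] at h1 h2
  obtain ⟨u, hu⟩ : ∃ u : ℝ≥0, (u : ℝ) = (N : ℝ) ^ (1 / 6 : ℝ) := ⟨⟨_, by positivity⟩, rfl⟩
  obtain ⟨v, hv⟩ : ∃ v : ℝ, v = (N : ℝ) ^ (1 / 3 - β) := ⟨_, rfl⟩
  have hN' : (0 : ℝ) < N := by linarith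
  have hu0 : (0 : ℝ) < u := by rw [hu]; positivity
  have hv1 : 1 ≤ v := hv ▸ Real.one_le_rpow hN1 (by linarith)
  have e1 : (N : ℝ) = u ^ 6 := by
    rw [hu, ← Real.rpow_natCast, ← Real.rpow_mul hN'.le]; norm_num
  have e2 : (N : ℝ) ^ (1 - 3 * β) = v ^ 3 := by
    rw [hv, ← Real.rpow_natCast, ← Real.rpow_mul hN'.le]; congr 1; push_cast; ring
  have e3 : (N : ℝ) ^ (3 * β - 1) = 1 / v ^ 3 := by
    rw [← e2, one_div, ← Real.rpow_neg hN'.le]; congr 1; ring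
  have e4 : (N : ℝ) ^ β * v = u ^ 2 := by
    rw [hu, hv, ← Real.rpow_natCast, ← Real.rpow_mul hN'.le, ← Real.rpow_add hN']
    congr 1; push_cast; ring
  rw [← hu] at h1
  rw [e2, div_le_iff₀ hε0] at h2
  obtain ⟨m, hm1, hm2⟩ : ∃ m : ℕ, R * v ≤ m ∧ (m : ℝ) ≤ 2 * R * v :=
    ⟨⌈R * v⌉₊, Nat.le_ceil _, (Nat.ceil_lt_add_one (by positivity)).le.trans (by nlinarith)⟩
  have hmv : v ≤ m := by nlinarith
  have hm0 : (0 : ℝ) < m := by linarith
  obtain ⟨J, hJ1, hJ2⟩ := exists_nat_pow_near (x := u / (4 * R : ℝ)) (y := 2)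
    (by rw [le_div_iff₀ (by positivity)]; linarith) (by norm_num)
  have hJ : κ / m ^ 3 * N ≤ ε * 64 ^ J / 4 := by
    have h3 : (u : ℝ) ≤ 8 * R * 2 ^ J := by
      rw [div_lt_iff₀ (by positivity), pow_succ] at hJ2; linarith
    have h4 : (N : ℝ) ≤ (8 * R) ^ 6 * 64 ^ J := by
      rw [e1, show (64 : ℝ) = 2 ^ 6 by norm_num, ← pow_mul, mul_comm 6, pow_mul, ← mul_pow]
      gcongr
    rw [div_mul_eq_mul_div, div_le_div_iff₀ (by positivity) (by positivity)]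
    calc κ * N * 4 ≤ κ * ((8 * R) ^ 6 * 64 ^ J) * 4 := by gcongr
      _ = 4 * κ * (8 * R) ^ 6 * 64 ^ J := by ring
      _ ≤ v ^ 3 * ε * 64 ^ J := by gcongr
      _ ≤ m ^ 3 * ε * 64 ^ J := by gcongr
      _ = _ := by ring
  have hpt : ∀ x : Cfg N, -pair β W N x ≤ C0 * N + ∑ j ∈ Finset.range (J + 1),
      th J j * ε * 64 ^ j * good fun l => cell (1 / (u ^ 2 * (2 ^ j : ℝ≥0))) (x l) := by
    intro x
    classical
    have h3 := pair_le h hw (β := β) x (fun i j => ‖x i - x j‖ ≤ m / u ^ 2) fun i j hij => by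
      have := (hr2 _ hij).trans hR2
      rw [norm_smul, Real.norm_of_nonneg (by positivity)] at this
      rw [le_div_iff₀ (by positivity), ← e4]
      nlinarith [mul_le_mul_of_nonneg_right this (by linarith : 0 ≤ v)]
    have h4 := pair_count (fun i => cell (m / u ^ 2) (x i)) (fun i j => ‖x i - x j‖ ≤ m / u ^ 2)
      (fun i j hij => by rwa [norm_sub_rev]) fun i j k hij => cell_close (by positivity) hij k
    refine le_trans ?_ (hC0 ▸ multi hκ0 hε0 (by exact_mod_cast hm0) hJ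
      (fun i => cell (m / u ^ 2) (x i)) _ fun j i k => ?_)
    · refine h3.trans ((mul_le_mul_of_nonneg_left (Nat.cast_le.mpr h4) (by positivity)).trans ?_)
      push_cast
      rw [← mul_assoc]
      gcongr
      rw [e3, hκ, le_div_iff₀ (by positivity), one_div_mul_eq_div, div_mul_eq_mul_div,
        div_mul_eq_mul_div, div_le_iff₀ (by positivity)]
      calc w * 54 * m ^ 3 ≤ w * 54 * (2 * R * v) ^ 3 := by gcongr
        _ = _ := by ring
    · have := cell_nest (s := 1 / (u ^ 2 * (2 ^ j : ℝ≥0))) (by positivity) (M := m * 2 ^ j)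
        (by have : 0 < m := by exact_mod_cast hm0
            positivity) (x i) k
      rwa [show ((m * 2 ^ j : ℕ) : ℝ) * (1 / (u ^ 2 * (2 ^ j : ℝ≥0))) = m / u ^ 2 by
        push_cast; field_simp] at this
  obtain ⟨E, hE⟩ : ∃ E, E = ∫⁻ x, (ENNReal.ofReal (kin Ψ x) +
    ENNReal.ofReal (trip V N x) * ‖Ψ x‖ₑ ^ 2) := ⟨_, rfl⟩
  have hg : ∀ s : ℝ, Measurable fun x : Cfg N => (good (fun l => cell s (x l)) : ℝ≥0∞) :=
    fun s => cfg_meas s fun c => (good c : ℝ≥0∞)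
  have hsc : ∀ j ∈ Finset.range (J + 1), ENNReal.ofReal (th J j * ε * 64 ^ j) *
      ∫⁻ x, good (fun l => cell (1 / (u ^ 2 * (2 ^ j : ℝ≥0))) (x l)) * ‖Ψ x‖ₑ ^ 2 ≤
        ENNReal.ofReal (th J j) * E := by
    intro j hj
    have h3 := scale_bound h hR hM (fun x y hxy => ⟨(hr1 x y hxy).1.trans hR1,
      (hr1 x y hxy).2.trans hR1⟩) hI hu0 e1 (t := 2 ^ j) (by positivity) (by
        have : (2 : ℝ) ^ j ≤ 2 ^ J := pow_le_pow_right₀ (by norm_num)
          (Nat.lt_succ_iff.mp (Finset.mem_range.mp hj))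
        rw [le_div_iff₀ (by positivity)] at hJ1
        rw [← NNReal.coe_le_coe]; push_cast; nlinarith) hΨ
    rw [← hE] at h3
    rw [mul_assoc (th J j), ENNReal.ofReal_mul (th_nonneg J j), mul_assoc]
    refine mul_le_mul_right ?_ _
    rw [← ENNReal.mul_le_mul_iff_right (a := D) (by simp [hD0.ne']) (by finiteness)]
    calc _ = _ := by
          rw [← mul_assoc, show (ε : ℝ) * 64 ^ j = ((ε * 64 ^ j : ℝ≥0) : ℝ) by push_cast; rfl,
            ENNReal.ofReal_coe_nnreal]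
          congr 1
          norm_cast
          rw [hε, ← pow_mul, mul_comm j, pow_mul]
          field_simp; norm_num
      _ ≤ _ := h3
      _ = _ := by rw [hD]; push_cast; rfl
  rw [← hE]
  calc _ ≤ ∫⁻ x, (ENNReal.ofReal ((C0 + w * N0 + 1) * N) * ‖Ψ x‖ₑ ^ 2 +
        ∑ j ∈ Finset.range (J + 1), ENNReal.ofReal (th J j * ε * 64 ^ j) *
        (good (fun l => cell (1 / (u ^ 2 * (2 ^ j : ℝ≥0))) (x l)) * ‖Ψ x‖ₑ ^ 2)) := by
        refine lintegral_mono fun x => ?_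
        simp only [← mul_assoc, ← Finset.sum_mul, ← add_mul]
        refine mul_le_mul_left ((ENNReal.ofReal_le_ofReal (hpt x)).trans
          (ENNReal.ofReal_add_le.trans (add_le_add (ENNReal.ofReal_le_ofReal ?_) ?_))) _
        · nlinarith [mul_nonneg hw0 (Nat.cast_nonneg N0)]
        · rw [ENNReal.ofReal_sum_of_nonneg fun j _ => by have := th_nonneg J j; positivity]
          refine Finset.sum_le_sum fun j _ => ?_
          rw [ENNReal.ofReal_mul (by have := th_nonneg J j; positivity), ENNReal.ofReal_natCast]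
    _ ≤ _ := by
        rw [lintegral_add_left (by fun_prop), lintegral_const_mul _ (by fun_prop),
          lintegral_finsetSum _ fun j _ => by
            have := hg (1 / (u ^ 2 * (2 ^ j : ℝ≥0))); fun_prop]
        refine add_le_add_right ((Finset.sum_le_sum fun j hj => ?_).trans
          (b := ∑ j ∈ Finset.range (J + 1), ENNReal.ofReal (th J j) * E) ?_) _
        · rw [lintegral_const_mul' _ _ ENNReal.ofReal_ne_top]; exact hsc j hj
        · rw [← Finset.sum_mul, ← ENNReal.ofReal_sum_of_nonneg fun j _ => th_nonneg J j]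
          exact mul_le_of_le_one_left' (ENNReal.ofReal_le_one.mpr (th_sum J))

end Pool.Agent.H41.Bose
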