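import Pool.Agent.H41.Bose5

namespace Pool.Agent.H41.Bose

open MeasureTheory Set Filter
open scoped ENNReal NNReal

theorem sq_int {N : ℕ} {Ψ : Cfg N → ℂ} (h1 : Continuous Ψ) (h2 : HasCompactSupport Ψ) :
    Integrable fun x => ‖Ψ x‖ ^ 2 :=
  Continuous.integrable_of_hasCompactSupport (by fun_prop)
    (h2.comp_left (g := fun z : ℂ => ‖z‖ ^ 2) (by simp))

theorem stable {Vext : R3 → ℝ} (hT : Trap Vext) {V : R3 → R3 → ℝ} {W : R3 → ℝ}
    (h : Admissible V W) {β : ℝ} (hβ : β < 1 / 3) : Stable β Vext V W := by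
  obtain ⟨C, hC, H⟩ := stab_lint h hβ
  refine ⟨C, hC, fun N hN Ψ hΨ hc _ => ?_⟩
  have hA := sq_int hΨ.continuous hc
  have hA0 : 0 ≤ C * N * ∫ x, ‖Ψ x‖ ^ 2 :=
    mul_nonneg (by positivity) (integral_nonneg fun _ => by positivity)
  by_cases hF : Integrable fun x => kin Ψ x + pot β Vext V W N x * ‖Ψ x‖ ^ 2
  swap
  · rw [integral_undef hF]; linarith
  obtain ⟨w, hw⟩ := h.bddW
  have hn : ∀ x, 0 ≤ -pair β W N x := fun x => neg_nonneg.mpr
    (Finset.sum_nonpos fun i _ => Finset.sum_nonpos fun j _ => by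
      split_ifs
      exacts [mul_nonpos_of_nonneg_of_nonpos (by positivity) (h.nonposW _), le_rfl])
  have hm : Measurable (pair β W N) := Finset.measurable_sum _ fun i _ =>
    Finset.measurable_sum _ fun j _ => by
      have := h.measW
      split_ifs <;> fun_prop
  have hP : Integrable fun x => -pair β W N x * ‖Ψ x‖ ^ 2 :=
    hA.bdd_mul hm.neg.aestronglyMeasurable (Eventually.of_forall fun x => by
      rw [Real.norm_of_nonneg (hn x)]
      exact pair_le h hw x (fun _ _ => True) fun _ _ _ => trivial)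
  have hk : ∀ x, 0 ≤ kin Ψ x := fun x => by unfold kin; positivity
  have ht : ∀ x, 0 ≤ trip V N x := fun x => Finset.sum_nonneg fun _ _ =>
    Finset.sum_nonneg fun _ _ => Finset.sum_nonneg fun _ _ => by
      split_ifs
      exacts [mul_nonneg (by positivity) (h.nonnegV _ _), le_rfl]
  have hG : ∀ x, kin Ψ x + trip V N x * ‖Ψ x‖ ^ 2 ≤
      kin Ψ x + pot β Vext V W N x * ‖Ψ x‖ ^ 2 + -pair β W N x * ‖Ψ x‖ ^ 2 := fun x => by
    obtain ⟨c, α, hc, -, h1⟩ := hT.2.2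
    have h2 : 0 ≤ ∑ i, Vext (x i) := Finset.sum_nonneg fun i _ => le_trans (by positivity) (h1 _)
    have e : pot β Vext V W N x = ∑ i, Vext (x i) + pair β W N x + trip V N x := rfl
    rw [e]
    nlinarith [mul_nonneg h2 (sq_nonneg ‖Ψ x‖)]
  have hG0 : ∀ x, 0 ≤ kin Ψ x + pot β Vext V W N x * ‖Ψ x‖ ^ 2 + -pair β W N x * ‖Ψ x‖ ^ 2 :=
    fun x => le_trans (by have := hk x; have := ht x; positivity) (hG x)
  have e : ∀ x, ‖Ψ x‖ₑ ^ 2 = ENNReal.ofReal (‖Ψ x‖ ^ 2) := fun x => by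
    rw [ENNReal.ofReal_pow (norm_nonneg _), ofReal_norm]
  have h1 : ENNReal.ofReal (∫ x, -pair β W N x * ‖Ψ x‖ ^ 2) ≤
      ENNReal.ofReal (C * N * (∫ x, ‖Ψ x‖ ^ 2) + ∫ x, (kin Ψ x + pot β Vext V W N x * ‖Ψ x‖ ^ 2 +
        -pair β W N x * ‖Ψ x‖ ^ 2)) := by
    rw [ENNReal.ofReal_add hA0 (integral_nonneg hG0), ENNReal.ofReal_mul (by positivity),
      ofReal_integral_eq_lintegral_ofReal hP (Eventually.of_forall fun x => by
        have := hn x; positivity),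
      ofReal_integral_eq_lintegral_ofReal hA (Eventually.of_forall fun x => by positivity),
      ofReal_integral_eq_lintegral_ofReal (hF.fun_add hP) (Eventually.of_forall hG0)]
    have h2 := H N hN Ψ (hΨ.of_le (by exact_mod_cast le_top))
    simp only [e] at h2
    simp only [ENNReal.ofReal_mul (hn _)]
    refine h2.trans (add_le_add_right (lintegral_mono fun x => ?_) _)
    rw [← ENNReal.ofReal_mul (ht x), ← ENNReal.ofReal_add (hk x) (by have := ht x; positivity)]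
    exact ENNReal.ofReal_le_ofReal (hG x)
  rw [ENNReal.ofReal_le_ofReal_iff (add_nonneg hA0 (integral_nonneg hG0)), integral_add hF hP] at h1
  linarith

noncomputable def V0 (u w : R3) : ℝ :=
  if 2 ≤ ‖u‖ + ‖w‖ + ‖u - w‖ ∧ ‖u‖ + ‖w‖ + ‖u - w‖ ≤ 3 then 1 else 0

noncomputable def W0 (c : ℝ) (u : R3) : ℝ := if ‖u‖ ≤ 1 then -c else 0

theorem adm0 {c : ℝ} (hc : 0 ≤ c) : Admissible V0 (W0 c) where
  measV := Measurable.ite (measurableSet_Icc (a := (2 : ℝ)) (b := 3).preimage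
    (f := fun p : R3 × R3 => ‖p.1‖ + ‖p.2‖ + ‖p.1 - p.2‖) (by fun_prop))
    measurable_const measurable_const
  nonnegV x y := by unfold V0; split_ifs <;> norm_num
  bddV := ⟨1, fun x y => by unfold V0; split_ifs <;> norm_num⟩
  suppV := ⟨3, fun x y h => by
    have := (ite_ne_right_iff.mp h).1.2
    exact ⟨by linarith [norm_nonneg y, norm_nonneg (x - y)],
      by linarith [norm_nonneg x, norm_nonneg (x - y)]⟩⟩
  neV h := by
    have ho : IsOpen {p : R3 × R3 | 2 < ‖p.1‖ + ‖p.2‖ + ‖p.1 - p.2‖ ∧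
        ‖p.1‖ + ‖p.2‖ + ‖p.1 - p.2‖ < 3} :=
      (isOpen_Ioo (a := (2 : ℝ)) (b := 3)).preimage
        (f := fun p : R3 × R3 => ‖p.1‖ + ‖p.2‖ + ‖p.1 - p.2‖) (by fun_prop)
    refine ho.measure_ne_zero volume ⟨(fun _ => 5 / 4, 0), by
      simp [pi_norm_const]; norm_num⟩ (measure_mono_null (fun p hp => ?_) h)
    simp only [mem_compl_iff, mem_ofPred_eq, V0, if_pos (And.intro hp.1.le hp.2.le)]
    norm_num
  swapV x y := by simp only [V0, norm_sub_rev x, add_comm ‖x‖]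
  symV x y z := by
    have e : ∀ x y z : R3, ‖x - y‖ + ‖x - z‖ + ‖x - y - (x - z)‖ = ‖x - y‖ + ‖x - z‖ + ‖y - z‖ :=
      fun x y z => by rw [sub_sub_sub_cancel_left, norm_sub_rev z]
    have e1 : ‖y - x‖ + ‖y - z‖ + ‖x - z‖ = ‖x - y‖ + ‖x - z‖ + ‖y - z‖ := by
      rw [norm_sub_rev y x]; ring
    have e2 : ‖z - y‖ + ‖z - x‖ + ‖y - x‖ = ‖x - y‖ + ‖x - z‖ + ‖y - z‖ := by
      rw [norm_sub_rev y x, norm_sub_rev z x, norm_sub_rev z y]; ring
    simp only [V0, e, e1, e2, and_self]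
  measW := Measurable.ite (measurableSet_le (by fun_prop) (by fun_prop))
    measurable_const measurable_const
  nonposW x := by unfold W0; split_ifs <;> linarith
  evenW x := by simp [W0]
  bddW := ⟨c, fun x => by unfold W0; split_ifs <;> linarith⟩
  suppW := ⟨1, fun x h => (ite_ne_right_iff.mp h).1⟩

theorem int_prod {N : ℕ} (f : Fin N × Fin 3 → ℝ → ℝ) :
    ∫ x : Cfg N, ∏ p, f p (x p.1 p.2) = ∏ p, ∫ t, f p t := by
  simp only [Fintype.prod_prod_type]
  rw [integral_fintype_prod_volume_eq_prod fun i (y : R3) => ∏ k, f (i, k) (y k)]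
  exact Finset.prod_congr rfl fun i _ => integral_fintype_prod_volume_eq_prod _

theorem trial {N : ℕ} {ψ : ℝ → ℝ} (hψ : ContDiff ℝ (⊤ : ℕ∞) ψ) {r κ : ℝ}
    (hs : ∀ t, ψ t ≠ 0 → |t| ≤ r) (hr : 0 ≤ r) (hA : 0 < ∫ t, ψ t ^ 2)
    (hκ : ∫ t, deriv ψ t ^ 2 = κ * ∫ t, ψ t ^ 2) :
    ∃ Ψ : Cfg N → ℂ, ContDiff ℝ (⊤ : ℕ∞) Ψ ∧ HasCompactSupport Ψ ∧
      (∀ (σ : Equiv.Perm (Fin N)) (x : Cfg N), Ψ (x ∘ σ) = Ψ x) ∧ (∀ x, Ψ x ≠ 0 → ‖x‖ ≤ r) ∧
      0 < ∫ x, ‖Ψ x‖ ^ 2 ∧ Integrable (kin Ψ) ∧ ∫ x, kin Ψ x = 3 * N * κ * ∫ x, ‖Ψ x‖ ^ 2 := by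
  obtain ⟨Ψ, hΨ⟩ : ∃ Ψ : Cfg N → ℂ, Ψ = fun x => ((∏ p : Fin N × Fin 3, ψ (x p.1 p.2) : ℝ) : ℂ) :=
    ⟨_, rfl⟩
  have h1 : ContDiff ℝ (⊤ : ℕ∞) Ψ := by
    rw [hΨ]
    exact Complex.ofRealCLM.contDiff.comp (contDiff_prod fun p _ => hψ.comp (by fun_prop))
  have h2 : ∀ x, Ψ x ≠ 0 → ‖x‖ ≤ r := fun x hx => by
    simp only [hΨ, ne_eq, Complex.ofReal_eq_zero] at hx
    exact (pi_norm_le_iff_of_nonneg hr).mpr fun i => (pi_norm_le_iff_of_nonneg hr).mpr fun k =>
      hs _ (Finset.prod_ne_zero_iff.mp hx (i, k) (Finset.mem_univ _))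
  have h3 : HasCompactSupport Ψ := HasCompactSupport.intro (isCompact_closedBall 0 r)
    fun x hx => by_contra fun h => hx (by simpa using h2 x h)
  have h4 : ∫ x, ‖Ψ x‖ ^ 2 = ∏ _p : Fin N × Fin 3, ∫ t, ψ t ^ 2 := by
    rw [← int_prod]
    simp only [hΨ, Complex.norm_real, Real.norm_eq_abs, sq_abs, Finset.prod_pow]
  have h5 : ∀ i k, Integrable fun x => ‖fderiv ℝ Ψ x (Pi.single i (Pi.single k 1))‖ ^ 2 := by
    intro i k
    have := h1.continuous_fderiv (by simp)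
    exact Continuous.integrable_of_hasCompactSupport (by fun_prop) ((h3.fderiv ℝ).comp_left
      (g := fun L : Cfg N →L[ℝ] ℂ => ‖L (Pi.single i (Pi.single k 1))‖ ^ 2) (by simp))
  have h6 : ∀ i k x, fderiv ℝ Ψ x (Pi.single i (Pi.single k 1)) = ((deriv ψ (x i k) *
      ∏ p ∈ Finset.univ.erase (i, k), ψ (x p.1 p.2) : ℝ) : ℂ) := by
    intro i k x
    have d1 : HasDerivAt (fun t : ℝ => x + t • (Pi.single i (Pi.single k 1) : Cfg N))
        (Pi.single i (Pi.single k 1)) 0 := by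
      simpa using ((hasDerivAt_id (0 : ℝ)).smul_const
        (Pi.single i (Pi.single k 1) : Cfg N)).const_add x
    have d2 := (h1.differentiable (by simp) _).hasFDerivAt.comp_hasDerivAt 0 d1
    rw [zero_smul, add_zero] at d2
    have d3 : HasDerivAt (fun t : ℝ => ψ (x i k + t)) (deriv ψ (x i k)) 0 := by
      have := (hψ.differentiable (by simp) (x i k + 0)).hasDerivAt.comp_const_add (x i k) 0
      rwa [add_zero] at this
    refine d2.unique (((d3.mul_const _).ofReal_comp).congr_of_eventuallyEq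
      (Eventually.of_forall fun t => ?_))
    simp only [hΨ, Function.comp_apply]
    rw [← Finset.mul_prod_erase _ _ (Finset.mem_univ (i, k))]
    congr 2
    · simp
    · refine Finset.prod_congr rfl fun p hp => ?_
      have hp := (Finset.mem_erase.mp hp).1
      by_cases h : p.1 = i
      · have : p.2 ≠ k := fun h' => hp (Prod.ext h h')
        simp [h, this]
      · simp [h]
  have h7 : ∀ i k, ∫ x, ‖fderiv ℝ Ψ x (Pi.single i (Pi.single k 1))‖ ^ 2 = κ * ∫ x, ‖Ψ x‖ ^ 2 := by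
    intro i k
    have := int_prod (N := N) fun p t => if p = (i, k) then deriv ψ t ^ 2 else ψ t ^ 2
    simp only [← Finset.mul_prod_erase _ _ (Finset.mem_univ (i, k)), if_true] at this
    rw [Finset.prod_congr rfl fun p hp => by simp only [(Finset.mem_erase.mp hp).1, if_false]; rfl,
      hκ, mul_assoc, Finset.mul_prod_erase _ (fun _ => ∫ t, ψ t ^ 2) (Finset.mem_univ (i, k)),
      ← h4] at this
    rw [← this]
    refine integral_congr_ae (Eventually.of_forall fun x => ?_)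
    simp only [h6, Complex.norm_real, Real.norm_eq_abs, sq_abs, mul_pow, ← Finset.prod_pow]
    congr 1
    exact Finset.prod_congr rfl fun p hp => by rw [if_neg (Finset.mem_erase.mp hp).1]
  refine ⟨Ψ, h1, h3, fun σ x => ?_, h2, h4 ▸ Finset.prod_pos fun _ _ => hA,
    integrable_finsetSum _ fun i _ => integrable_finsetSum _ fun k _ => h5 i k, ?_⟩
  · simp only [hΨ, Fintype.prod_prod_type, Function.comp_apply]
    rw [Equiv.prod_comp σ fun i => ∏ k, ψ (x i k)]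
  · unfold kin
    rw [integral_finsetSum _ fun i _ => integrable_finsetSum _ fun k _ => h5 i k]
    simp only [integral_finsetSum _ fun k _ => h5 _ k, h7]
    simp; ring

theorem pairs_count (N : ℕ) :
    2 * (∑ i : Fin N, ∑ j : Fin N, if i < j then (1 : ℝ) else 0) + N = N * N := by
  have h : ∑ i : Fin N, ∑ j : Fin N, ((if i < j then (1 : ℝ) else 0) + (if j < i then 1 else 0) +
      if i = j then 1 else 0) = ∑ i : Fin N, ∑ j : Fin N, 1 :=
    Finset.sum_congr rfl fun i _ => Finset.sum_congr rfl fun j _ => by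
      rcases lt_trichotomy i j with h | h | h
      · simp [h, h.ne, h.not_gt]
      · simp [h]
      · simp [h, h.ne', h.not_gt]
  simp only [Finset.sum_add_distrib] at h
  rw [Finset.sum_comm (f := fun i j : Fin N => if j < i then (1 : ℝ) else 0)] at h
  simp only [Finset.sum_ite_eq, Finset.mem_univ, if_true, Finset.sum_const, Finset.card_univ,
    Fintype.card_fin, nsmul_eq_mul, mul_one] at h
  linarith

theorem unstable {Vext : R3 → ℝ} (hT : Trap Vext) {β : ℝ} (hβ : 1 / 3 ≤ β) :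
    ∃ c, 0 ≤ c ∧ ¬ Stable β Vext V0 (W0 c) := by
  let φ : ContDiffBump (0 : ℝ) := ⟨1 / 2, 1, by norm_num, by norm_num⟩
  have hφ : ContDiff ℝ (⊤ : ℕ∞) φ := φ.contDiff
  have hA : 0 < ∫ t, φ t ^ 2 := Continuous.integral_pos_of_hasCompactSupport_nonneg_nonzero
    (x := 0) (by fun_prop) (φ.hasCompactSupport.comp_left (g := fun z : ℝ => z ^ 2) (by simp))
    (fun _ => sq_nonneg _) (by rw [φ.one_of_mem_closedBall (by simp [φ])]; simp)
  obtain ⟨κ, hκ0, hκ⟩ : ∃ κ : ℝ, 0 ≤ κ ∧ ∫ t, deriv φ t ^ 2 = κ * ∫ t, φ t ^ 2 :=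
    ⟨(∫ t, deriv φ t ^ 2) / ∫ t, φ t ^ 2,
      div_nonneg (integral_nonneg fun _ => sq_nonneg _) hA.le, by field_simp⟩
  refine ⟨4 * (48 * κ + 1), by positivity, fun ⟨C, hC, H⟩ => ?_⟩
  obtain ⟨K, hK⟩ := hT.2.1 1
  have hK0 : 0 ≤ K := (abs_nonneg _).trans (hK 0 (by simp))
  obtain ⟨N, hN⟩ := exists_nat_gt (C + K + 2)
  have hN1 : (1 : ℝ) ≤ N := by linarith
  obtain ⟨T, hT1, hT2, hT3, hT4⟩ : ∃ T : ℝ, (N : ℝ) ^ β ≤ T ∧ (N : ℝ) ^ (1 / 2 : ℝ) ≤ T ∧
      N ≤ T ^ 2 ∧ T ^ 2 ≤ (N : ℝ) ^ (3 * β - 1) * N := by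
    have e : ((N : ℝ) ^ max β (1 / 2)) ^ 2 = (N : ℝ) ^ (max β (1 / 2) * 2) := by
      rw [Real.rpow_mul (by linarith)]; simp
    refine ⟨(N : ℝ) ^ max β (1 / 2), Real.rpow_le_rpow_of_exponent_le hN1 (le_max_left _ _),
      Real.rpow_le_rpow_of_exponent_le hN1 (le_max_right _ _), ?_, ?_⟩
    · rw [e]
      exact (Real.rpow_one _).ge.trans (Real.rpow_le_rpow_of_exponent_le hN1
        (by linarith [le_max_right β (1 / 2)]))
    · rw [e, ← Real.rpow_add_one (by linarith)]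
      refine Real.rpow_le_rpow_of_exponent_le hN1 ?_
      rcases max_cases β (1 / 2) with h | h <;> linarith [h.1]
  have hT5 : 1 ≤ T := (Real.one_le_rpow hN1 (by norm_num)).trans hT2
  obtain ⟨r, hr⟩ : ∃ r : ℝ, r = 1 / (4 * T) := ⟨_, rfl⟩
  have hr0 : 0 < r := by rw [hr]; positivity
  have hrT : T * r = 1 / 4 := by rw [hr]; field_simp
  have i1 : ∫ t, φ (t / r) ^ 2 = r * ∫ t, φ t ^ 2 := by
    rw [Measure.integral_comp_div (fun t => φ t ^ 2), abs_of_pos hr0, smul_eq_mul]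
  obtain ⟨Ψ, h1, h2, h3, h4, h5, h6, h7⟩ := trial (N := N) (ψ := fun t => φ (t / r))
    (hφ.comp (by fun_prop)) (r := r) (κ := 16 * T ^ 2 * κ) (fun t ht => by
      have : t / r ∈ Function.support φ := ht
      rw [φ.support_eq, mem_ball_zero_iff, Real.norm_eq_abs, abs_div, abs_of_pos hr0,
        div_lt_iff₀ hr0] at this
      simpa [φ] using this.le) hr0.le (by rw [i1]; positivity) (by
      have : ∀ t, deriv (fun t => φ (t / r)) t = deriv φ (t / r) * (4 * T) := fun t => by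
        have := ((hφ.differentiable (by simp) (t / r)).hasDerivAt.comp t
          ((hasDerivAt_id t).div_const r)).deriv
        rw [show 4 * T = 1 / r by rw [hr]; simp]; exact this
      simp only [this, mul_pow]
      rw [integral_mul_const, Measure.integral_comp_div (fun t => deriv φ t ^ 2), abs_of_pos hr0,
        smul_eq_mul, i1, hκ]
      ring)
  obtain ⟨P, hP⟩ : ∃ P : ℝ, P = (N : ℝ) ^ (3 * β - 1) * (4 * (48 * κ + 1)) *
    ∑ i : Fin N, ∑ j : Fin N, if i < j then (1 : ℝ) else 0 := ⟨_, rfl⟩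
  have hx : ∀ x : Cfg N, Ψ x ≠ 0 → ∀ i, ‖x i‖ ≤ r := fun x hx i =>
    (norm_le_pi_norm x i).trans (h4 x hx)
  have hd : ∀ x : Cfg N, Ψ x ≠ 0 → ∀ s : ℝ, 0 ≤ s → s ≤ T → ∀ i j, ‖s • (x i - x j)‖ ≤ 1 / 2 := by
    intro x h s h0 hs i j
    rw [norm_smul, Real.norm_of_nonneg h0]
    calc _ ≤ T * (r + r) := by gcongr; exact (norm_sub_le _ _).trans (add_le_add (hx x h i) (hx x h j))
      _ = _ := by linarith
  have hpot : ∀ x, pot β Vext V0 (W0 (4 * (48 * κ + 1))) N x * ‖Ψ x‖ ^ 2 =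
      (∑ i, Vext (x i) - P) * ‖Ψ x‖ ^ 2 := by
    intro x
    by_cases h : Ψ x = 0
    · simp [h]
    have e1 : ∀ i j, W0 (4 * (48 * κ + 1)) ((N : ℝ) ^ β • (x i - x j)) = -(4 * (48 * κ + 1)) :=
      fun i j => if_pos ((hd x h _ (by positivity) hT1 i j).trans (by norm_num))
    have e2 : ∀ i j k, V0 ((N : ℝ) ^ (1 / 2 : ℝ) • (x i - x j))
        ((N : ℝ) ^ (1 / 2 : ℝ) • (x i - x k)) = 0 := fun i j k => if_neg fun h' => by
      have := hd x h _ (by positivity) hT2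
      rw [← smul_sub, sub_sub_sub_cancel_left] at h'
      linarith [h'.1, this i j, this i k, this k j]
    simp only [pot, e1, e2]
    simp only [hP, Finset.mul_sum, mul_zero, ite_self, Finset.sum_const_zero, add_zero,
      sub_eq_add_neg, ← Finset.sum_neg_distrib]
    simp only [mul_ite, mul_one, mul_zero, mul_neg, apply_ite (Neg.neg : ℝ → ℝ), neg_zero]
  have hS : ∀ x, |∑ i, Vext (x i)| * ‖Ψ x‖ ^ 2 ≤ N * K * ‖Ψ x‖ ^ 2 := fun x => by
    by_cases h : Ψ x = 0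
    · simp [h]
    gcongr
    refine (Finset.abs_sum_le_sum_abs _ _).trans ((Finset.sum_le_card_nsmul _ _ K fun i _ =>
      hK _ ((hx x h i).trans (by nlinarith))).trans (by simp))
  have hA' := sq_int h1.continuous h2
  have hV : Integrable fun x : Cfg N => (∑ i, Vext (x i)) * ‖Ψ x‖ ^ 2 := by
    have := hT.1
    have := h1.continuous.measurable
    refine (hA'.const_mul (N * K)).mono' (Measurable.aestronglyMeasurable (by fun_prop))
      (Eventually.of_forall fun x => ?_)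
    rw [norm_mul, Real.norm_eq_abs, Real.norm_of_nonneg (by positivity)]; exact hS x
  have h8 := H N (by exact_mod_cast hN1) Ψ h1 h2 h3
  simp only [hpot, sub_mul] at h8
  rw [integral_add h6 (by exact hV.sub (hA'.const_mul P)), integral_sub hV (hA'.const_mul P), h7,
    integral_const_mul] at h8
  have h9 : ∫ x : Cfg N, (∑ i, Vext (x i)) * ‖Ψ x‖ ^ 2 ≤ N * K * ∫ x, ‖Ψ x‖ ^ 2 := by
    rw [← integral_const_mul]
    exact integral_mono hV (hA'.const_mul _) fun x =>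
      le_trans (mul_le_mul_of_nonneg_right (le_abs_self _) (by positivity)) (hS x)
  have h10 : (48 * κ + 1) * T ^ 2 * N ≤ P := by
    have h11 : N * N / 4 ≤ ∑ i : Fin N, ∑ j : Fin N, if i < j then (1 : ℝ) else 0 := by
      nlinarith [pairs_count N]
    calc _ ≤ (48 * κ + 1) * ((N : ℝ) ^ (3 * β - 1) * N) * N := by gcongr
      _ = (N : ℝ) ^ (3 * β - 1) * (4 * (48 * κ + 1)) * (N * N / 4) := by ring
      _ ≤ P := by rw [hP]; gcongr
  have h12 : 0 ≤ (C * N + 3 * N * (16 * T ^ 2 * κ) + N * K - P) * ∫ x, ‖Ψ x‖ ^ 2 := by linarith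
  have h13 := nonneg_of_mul_nonneg_left h12 h5
  nlinarith

theorem main {Vext : R3 → ℝ} (hT : Trap Vext) (β : ℝ) :
    (∀ V W, Admissible V W → Stable β Vext V W) ↔ β < 1 / 3 := by
  refine ⟨fun h => not_le.mp fun hβ => ?_, fun hβ V W h => stable hT h hβ⟩
  obtain ⟨c, hc, h1⟩ := unstable hT hβ
  exact h1 (h _ _ (adm0 hc))

end Pool.Agent.H41.Bose
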