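import Mathlib

/-! Bosons with attractive pair and repulsive three-body interactions (definitions). -/

namespace Pool.Agent.H41.Bose

open MeasureTheory

/-- Position of one particle. -/
abbrev R3 : Type := Fin 3 → ℝ

/-- Configurations of `N` particles. -/
abbrev Cfg (N : ℕ) : Type := Fin N → R3

/-- Trap: measurable, locally bounded, and at least `c |x|^α`. -/
def Trap (Vext : R3 → ℝ) : Prop :=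
  Measurable Vext ∧ (∀ r : ℝ, ∃ K : ℝ, ∀ x, ‖x‖ ≤ r → |Vext x| ≤ K) ∧
    ∃ c α : ℝ, 0 < c ∧ 0 < α ∧ ∀ x, c * ‖x‖ ^ α ≤ Vext x

/-- Admissible pairs `(V, W)`. -/
structure Admissible (V : R3 → R3 → ℝ) (W : R3 → ℝ) : Prop where
  measV : Measurable fun p : R3 × R3 => V p.1 p.2
  nonnegV : ∀ x y, 0 ≤ V x y
  bddV : ∃ M : ℝ, ∀ x y, V x y ≤ M
  suppV : ∃ r : ℝ, ∀ x y, V x y ≠ 0 → ‖x‖ ≤ r ∧ ‖y‖ ≤ r
  neV : ¬ ∀ᵐ p : R3 × R3, V p.1 p.2 = 0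
  swapV : ∀ x y, V x y = V y x
  symV : ∀ x y z, V (x - y) (x - z) = V (y - x) (y - z) ∧ V (y - x) (y - z) = V (z - y) (z - x)
  measW : Measurable W
  nonposW : ∀ x, W x ≤ 0
  evenW : ∀ x, W (-x) = W x
  bddW : ∃ M : ℝ, ∀ x, -M ≤ W x
  suppW : ∃ r : ℝ, ∀ x, W x ≠ 0 → ‖x‖ ≤ r

/-- Kinetic energy density `∑ᵢ |∇ᵢ Ψ|²`. -/
noncomputable def kin {N : ℕ} (Ψ : Cfg N → ℂ) (x : Cfg N) : ℝ :=
  ∑ i, ∑ k, ‖fderiv ℝ Ψ x (Pi.single i (Pi.single k 1))‖ ^ 2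

/-- The potential of `H_N^Comb`. -/
noncomputable def pot (β : ℝ) (Vext : R3 → ℝ) (V : R3 → R3 → ℝ) (W : R3 → ℝ) (N : ℕ)
    (x : Cfg N) : ℝ :=
  ∑ i, Vext (x i) +
  (∑ i, ∑ j, if i < j then (N : ℝ) ^ (3 * β - 1) * W ((N : ℝ) ^ β • (x i - x j)) else 0) +
  ∑ i, ∑ j, ∑ k, if i < j ∧ j < k then
    N * V ((N : ℝ) ^ (1 / 2 : ℝ) • (x i - x j)) ((N : ℝ) ^ (1 / 2 : ℝ) • (x i - x k)) else 0

/-- Stability of the second kind: `⟨Ψ, H_N Ψ⟩ ≥ - C N ‖Ψ‖²` on smooth compactly supported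
symmetric functions, with `C` independent of `N`. -/
def Stable (β : ℝ) (Vext : R3 → ℝ) (V : R3 → R3 → ℝ) (W : R3 → ℝ) : Prop :=
  ∃ C : ℝ, 0 < C ∧ ∀ N : ℕ, 1 ≤ N → ∀ Ψ : Cfg N → ℂ, ContDiff ℝ (⊤ : ℕ∞) Ψ →
    HasCompactSupport Ψ → (∀ (σ : Equiv.Perm (Fin N)) (x : Cfg N), Ψ (x ∘ σ) = Ψ x) →
      -(C * N) * ∫ x, ‖Ψ x‖ ^ 2 ≤ ∫ x, (kin Ψ x + pot β Vext V W N x * ‖Ψ x‖ ^ 2)

end Pool.Agent.H41.Bose
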