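import Pool.Agent.H41.BrwDefs

set_option autoImplicit false

namespace Pool.Agent.H41.Brw

open MeasureTheory ProbabilityTheory Finset Filter
open scoped ENNReal Topology

abbrev F := FreeGroup Bool

instance : MeasurableSpace F := ⊤
instance : DiscreteMeasurableSpace F := ⟨fun _ => trivial⟩

noncomputable def nu : PMF Bool := PMF.ofFintype (fun b => if b then 1 / 10 else 9 / 10) (by
  rw [Fintype.sum_bool]; simp only [if_true, Bool.false_eq_true, if_false]
  rw [← ENNReal.add_div]; norm_num; exact ENNReal.div_self (by norm_num) (by norm_num))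

noncomputable def mu : PMF F := nu.map FreeGroup.of

lemma mu_supp (g : F) : g ∈ mu.support ↔ ∃ b, g = FreeGroup.of b := by
  rw [mu, PMF.mem_support_map_iff]
  constructor
  · rintro ⟨b, -, rfl⟩; exact ⟨b, rfl⟩
  · rintro ⟨b, rfl⟩
    refine ⟨b, ?_, rfl⟩
    cases b <;> simp [nu]

def ev : List Bool → F
  | [] => 1
  | b :: w => ev w * FreeGroup.of b

lemma ev_eq (w : List Bool) : ev w = FreeGroup.mk (w.reverse.map fun b => (b, true)) := by
  induction w with
  | nil => rfl
  | cons b w ih => rw [ev, ih, FreeGroup.of, FreeGroup.mul_mk]; simp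

lemma ev_inj : Function.Injective ev := by
  have h : ∀ w : List Bool, FreeGroup.reduce (w.map fun b => (b, true)) = w.map fun b => (b, true) := by
    intro w
    induction w with
    | nil => rfl
    | cons b w ih =>
      rw [List.map_cons, FreeGroup.reduce.cons, ih]
      cases w <;> simp
  intro v w e
  have := congrArg FreeGroup.toWord e
  rw [ev_eq, ev_eq, FreeGroup.toWord_mk, FreeGroup.toWord_mk, h, h] at this
  exact List.reverse_injective (List.map_injective_iff.2 (fun a b h => (Prod.mk.inj h).1) this)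

def Wd : ℕ → Finset (List Bool)
  | 0 => {[]}
  | n + 1 => (univ ×ˢ Wd n).map ⟨fun q => q.1 :: q.2, fun _ _ h => by
      simp only [List.cons.injEq] at h; exact Prod.ext h.1 h.2⟩

lemma mem_Wd {n : ℕ} {w : List Bool} : w ∈ Wd n ↔ w.length = n := by
  induction n generalizing w with
  | zero => simp [Wd]
  | succ n ih =>
    constructor
    · intro h
      obtain ⟨⟨b, v⟩, h1, rfl⟩ := mem_map.1 h
      show (b :: v).length = n + 1
      simp [ih.1 (mem_product.1 h1).2]
    · intro h
      cases w with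
      | nil => simp at h
      | cons b v => exact mem_map.2 ⟨(b, v), mem_product.2 ⟨mem_univ _, ih.2 (by simpa using h)⟩, rfl⟩

def wt : List Bool → ℝ
  | [] => 1
  | b :: w => (if b then 3 else 1) * wt w

lemma wt_pos (w : List Bool) : 0 < wt w := by
  induction w with
  | nil => simp [wt]
  | cons b w ih => unfold wt; split_ifs <;> positivity

lemma sum_Wd (n : ℕ) : ∑ w ∈ Wd n, (wt w)⁻¹ = (4 / 3) ^ n := by
  induction n with
  | zero => simp [Wd, wt]
  | succ n ih =>
    rw [Wd, sum_map, sum_product]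
    change ∑ x : Bool, ∑ y ∈ Wd n, (wt (x :: y))⁻¹ = _
    simp only [wt, mul_inv, ← mul_sum, ih, Fintype.sum_bool]
    simp; ring

lemma card_Wd (n : ℕ) : (Wd n).card = 2 ^ n := by
  induction n with
  | zero => simp [Wd]
  | succ n ih => rw [Wd, card_map, card_product, ih]; simp; ring

lemma renyi_zero (ν : F → ℝ) (S : Finset F) (h : ∀ g, 0 < ν g ↔ g ∈ S) :
    renyi 0 ν = Real.log S.card := by
  unfold renyi
  rw [tsum_eq_sum (s := S) (fun g hg => if_neg (by rwa [h])),
    sum_congr rfl (fun g hg => if_pos (by rwa [h]))]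
  simp

lemma conv_supp (n : ℕ) (g : F) : g ∈ (convPow mu n).support ↔ g ∈ (Wd n).image ev := by
  induction n generalizing g with
  | zero => simp [convPow, Wd, ev]
  | succ n ih =>
    simp only [convPow, PMF.mem_support_bind_iff, PMF.mem_support_map_iff, mu_supp, ih, mem_image,
      mem_Wd]
    constructor
    · rintro ⟨_, ⟨w, hw, rfl⟩, _, ⟨b, rfl⟩, rfl⟩
      exact ⟨b :: w, by simp [hw], rfl⟩
    · rintro ⟨w, hw, rfl⟩
      cases w with
      | nil => simp at hw
      | cons b v => exact ⟨_, ⟨v, by simpa using hw, rfl⟩, _, ⟨b, rfl⟩, rfl⟩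

lemma h0 : Tendsto (fun n : ℕ => renyi 0 (fun g => (convPow mu n g).toReal) / n) atTop
    (𝓝 (Real.log 2)) := by
  refine tendsto_const_nhds.congr' ?_
  filter_upwards [eventually_gt_atTop 0] with n hn
  rw [renyi_zero _ ((Wd n).image ev) (fun g => by
    rw [← conv_supp, PMF.mem_support_iff, ENNReal.toReal_pos_iff, pos_iff_ne_zero]
    exact and_iff_left (PMF.apply_lt_top _ _)), card_image_of_injective _ ev_inj, card_Wd]
  have : (n : ℝ) ≠ 0 := by positivity
  push_cast; rw [Real.log_pow]; field_simp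

def T : List ℕ → Finset (List ℕ)
  | [] => ∅
  | i :: v => insert (i :: v) (T v)

lemma T_len {v u : List ℕ} (h : u ∈ T v) : u.length ≤ v.length := by
  induction v with
  | nil => simp [T] at h
  | cons i v ih =>
    rcases mem_insert.1 h with rfl | h
    · rfl
    · exact (ih h).trans (by simp)

lemma T_not (i : ℕ) (v : List ℕ) : i :: v ∉ T v := fun h => by simpa using T_len h

noncomputable def cc (g : F) : ℝ≥0∞ := if g = FreeGroup.of true then 3 else 1

abbrev g2 : ℕ → Finset (List ℕ) := gen fun _ => 2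

lemma g2_len {n : ℕ} {v : List ℕ} (h : v ∈ g2 n) : v.length = n := by
  induction n generalizing v with
  | zero => simpa [gen] using h
  | succ n ih =>
    simp only [gen, mem_biUnion, mem_image] at h
    obtain ⟨u, hu, i, -, rfl⟩ := h
    simp [ih hu]

lemma g2_card (n : ℕ) : (g2 n).card ≤ 2 ^ n := by
  induction n with
  | zero => simp [gen]
  | succ n ih =>
    refine (card_biUnion_le_card_mul _ _ 2 fun v _ => card_image_le.trans (by simp)).trans ?_
    rw [pow_succ]; gcongr

lemma g2_ne (n : ℕ) : (g2 n).Nonempty := by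
  induction n with
  | zero => simp [gen]
  | succ n ih =>
    obtain ⟨v, hv⟩ := ih
    exact ⟨0 :: v, mem_biUnion.2 ⟨v, hv, mem_image.2 ⟨0, by simp, rfl⟩⟩⟩

noncomputable def Y (n : ℕ) (ζ : List ℕ → F) : ℝ≥0∞ := ∑ v ∈ g2 n, ∏ u ∈ T v, cc (ζ u)

lemma Y_meas (n : ℕ) : Measurable (Y n) :=
  Finset.measurable_sum _ fun _ _ => Finset.measurable_prod _ fun u _ =>
    (Measurable.of_discrete (f := cc)).comp (measurable_pi_apply u)

lemma int_cc : ∫⁻ g, cc g ∂mu.toMeasure = ENNReal.ofReal (6 / 5) := by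
  rw [mu, ← PMF.toMeasure_map _ _ Measurable.of_discrete,
    lintegral_map Measurable.of_discrete Measurable.of_discrete, lintegral_fintype,
    Fintype.sum_bool, PMF.toMeasure_apply_singleton _ _ (MeasurableSet.singleton _),
    PMF.toMeasure_apply_singleton _ _ (MeasurableSet.singleton _)]
  have : FreeGroup.of false ≠ (FreeGroup.of true : F) := fun h => by simpa using FreeGroup.of_injective h
  simp only [cc, nu, this, if_true, if_false, PMF.ofFintype_apply, Bool.false_eq_true]
  rw [← ENNReal.toReal_eq_toReal_iff' (by finiteness) (by simp), ENNReal.toReal_add (by finiteness)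
    (by finiteness)]
  simp; norm_num

lemma int_Y (n : ℕ) : ∫⁻ ζ, Y n ζ ∂(Measure.infinitePi fun _ => mu.toMeasure) ≤
    ENNReal.ofReal ((12 / 5) ^ n) := by
  have h1 : ∀ v : List ℕ, ∫⁻ ζ, ∏ u ∈ T v, cc (ζ u) ∂(Measure.infinitePi fun _ => mu.toMeasure) =
      ENNReal.ofReal (6 / 5) ^ v.length := by
    intro v
    have key := lintegral_prod_eq_prod_lintegral_of_indepFun
      (μ := Measure.infinitePi fun _ : List ℕ => mu.toMeasure) (T v)
      (fun u (ζ : List ℕ → F) => cc (ζ u))
      (iIndepFun_infinitePi (X := fun _ => cc) fun _ => Measurable.of_discrete)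
      (fun u => (Measurable.of_discrete (f := cc)).comp (measurable_pi_apply u))
    refine key.trans ?_
    have : ∀ u : List ℕ, ∫⁻ ζ : List ℕ → F, cc (ζ u) ∂(Measure.infinitePi fun _ => mu.toMeasure) =
        ENNReal.ofReal (6 / 5) := fun u => by
      rw [← int_cc]
      exact (measurePreserving_eval_infinitePi (fun _ : List ℕ => mu.toMeasure) u).lintegral_comp
        Measurable.of_discrete
    simp only [this, prod_const]
    congr 1
    clear key
    induction v with
    | nil => rfl
    | cons i v ih => rw [T, card_insert_of_notMem (T_not i v), ih]; rfl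
  unfold Y
  have hm : ∀ v : List ℕ, Measurable fun ζ : List ℕ → F => ∏ u ∈ T v, cc (ζ u) := fun v =>
    Finset.measurable_prod _ fun u _ =>
      (Measurable.of_discrete (f := cc)).comp (measurable_pi_apply u)
  rw [lintegral_finsetSum _ fun v _ => hm v]
  rw [sum_congr rfl fun v hv => (h1 v).trans (by rw [g2_len hv]), sum_const, nsmul_eq_mul,
    show (12 / 5 : ℝ) = 2 * (6 / 5) by norm_num, mul_pow, ENNReal.ofReal_mul (by positivity),
    ENNReal.ofReal_pow (by norm_num), ENNReal.ofReal_pow (by norm_num)]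
  gcongr
  rw [ENNReal.ofReal_ofNat]
  exact_mod_cast g2_card n

lemma ae_Y : ∀ᵐ ζ ∂(Measure.infinitePi fun _ : List ℕ => mu.toMeasure), ∀ᶠ n in atTop,
    Y n ζ < ENNReal.ofReal ((5 / 2) ^ n) := by
  have := ae_eventually_notMem (μ := Measure.infinitePi fun _ : List ℕ => mu.toMeasure)
    (s := fun n => {ζ | ENNReal.ofReal ((5 / 2) ^ n) ≤ Y n ζ}) (by
      refine ne_top_of_le_ne_top (b := ∑' n : ℕ, ENNReal.ofReal (24 / 25) ^ n) ?_
        (ENNReal.tsum_le_tsum fun n => ?_)
      · rw [ENNReal.tsum_geometric]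
        exact ENNReal.inv_ne_top.2 (tsub_pos_of_lt (ENNReal.ofReal_lt_one.2 (by norm_num))).ne'
      · refine (meas_ge_le_lintegral_div (Y_meas n).aemeasurable (by simp) (by simp)).trans ?_
        refine ENNReal.div_le_of_le_mul ((int_Y n).trans (le_of_eq ?_))
        rw [← ENNReal.ofReal_pow (by norm_num), ← ENNReal.ofReal_mul (by positivity), ← mul_pow]
        norm_num)
  filter_upwards [this] with ζ h
  filter_upwards [h] with n hn
  exact not_le.1 hn

open Classical in
noncomputable def wd (ζ : List ℕ → F) : List ℕ → List Bool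
  | [] => []
  | i :: v => decide (ζ (i :: v) = FreeGroup.of true) :: wd ζ v

lemma wd_spec {ζ : List ℕ → F} (h : ∀ u, ζ u ∈ mu.support) (v : List ℕ) :
    pos ζ v = ev (wd ζ v) ∧ (wd ζ v).length = v.length ∧
      ∏ u ∈ T v, cc (ζ u) = ENNReal.ofReal (wt (wd ζ v)) := by
  induction v with
  | nil => simp [pos, wd, ev, T, wt]
  | cons i v ih =>
    obtain ⟨b, hb⟩ := (mu_supp _).1 (h (i :: v))
    have hne : FreeGroup.of false ≠ (FreeGroup.of true : F) :=
      fun h => by simpa using FreeGroup.of_injective h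
    rw [T, prod_insert (T_not i v), ih.2.2, pos, wd, ev, ih.1, wt, cc, hb]
    cases b <;> simp [hne, ih.2.1]

lemma count {ζ : List ℕ → F} (h : ∀ u, ζ u ∈ mu.support) (n : ℕ)
    (hY : Y n ζ < ENNReal.ofReal ((5 / 2) ^ n)) :
    (((g2 n).image (pos ζ)).card : ℝ) ≤ 2 * (15 / 8) ^ n := by
  classical
  have hY' : ∑ v ∈ g2 n, wt (wd ζ v) ≤ (5 / 2) ^ n := by
    unfold Y at hY
    rw [sum_congr rfl fun v _ => (wd_spec h v).2.2,
      ← ENNReal.ofReal_sum_of_nonneg fun v _ => (wt_pos _).le] at hY
    exact ((ENNReal.ofReal_lt_ofReal_iff (by positivity)).1 hY).le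
  set τ : ℝ := (4 / 3) ^ n with hτ
  have τ0 : 0 < τ := by positivity
  have sub : (g2 n).image (pos ζ) ⊆ ((Wd n).filter fun w => wt w ≤ τ).image ev ∪
      ((g2 n).filter fun v => τ < wt (wd ζ v)).image (pos ζ) := by
    intro g hg
    obtain ⟨v, hv, rfl⟩ := mem_image.1 hg
    by_cases hc : wt (wd ζ v) ≤ τ
    · exact mem_union_left _ (mem_image.2 ⟨wd ζ v, mem_filter.2
        ⟨mem_Wd.2 ((wd_spec h v).2.1.trans (g2_len hv)), hc⟩, (wd_spec h v).1.symm⟩)
    · exact mem_union_right _ (mem_image_of_mem _ (mem_filter.2 ⟨hv, not_le.1 hc⟩))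
  have c0 := (card_le_card sub).trans ((card_union_le _ _).trans
    (add_le_add card_image_le card_image_le))
  have c1 : (((Wd n).filter fun w => wt w ≤ τ).card : ℝ) ≤ τ * τ := by
    rw [card_filter]; push_cast
    calc _ ≤ ∑ w ∈ Wd n, τ * (wt w)⁻¹ := sum_le_sum fun w _ => by
          have := wt_pos w
          split_ifs with hw
          · rw [← div_eq_mul_inv, le_div_iff₀ this]; linarith
          · positivity
      _ = _ := by rw [← mul_sum, sum_Wd]
  have c2 : (((g2 n).filter fun v => τ < wt (wd ζ v)).card : ℝ) ≤ τ⁻¹ * (5 / 2) ^ n := by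
    rw [card_filter]; push_cast
    calc _ ≤ ∑ v ∈ g2 n, τ⁻¹ * wt (wd ζ v) := sum_le_sum fun v _ => by
          have := wt_pos (wd ζ v)
          split_ifs with hw
          · rw [← div_eq_inv_mul, le_div_iff₀ τ0]; linarith
          · positivity
      _ ≤ _ := by rw [← mul_sum]; gcongr
  have e1 : τ * τ ≤ (15 / 8) ^ n := by
    rw [hτ, ← mul_pow]; gcongr; norm_num
  have e2 : τ⁻¹ * (5 / 2) ^ n = (15 / 8) ^ n := by
    rw [hτ, ← inv_pow, ← mul_pow]; norm_num
  have c0' : (((g2 n).image (pos ζ)).card : ℝ) ≤ ((Wd n).filter fun w => wt w ≤ τ).card +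
      ((g2 n).filter fun v => τ < wt (wd ζ v)).card := by exact_mod_cast c0
  linarith

theorem main : ∀ᵐ ω ∂(law (PMF.pure 2) mu), ∀ᶠ n : ℕ in atTop,
    renyi 0 (emp ω n) / n ≤ Real.log (19 / 10) := by
  classical
  have a1 : ∀ᵐ ξ ∂(Measure.infinitePi fun _ : List ℕ => (PMF.pure 2 : PMF ℕ).toMeasure),
      ∀ u, ξ u = 2 := ae_all_iff.2 fun u =>
    (measurePreserving_eval_infinitePi (fun _ : List ℕ => (PMF.pure 2 : PMF ℕ).toMeasure)
      u).quasiMeasurePreserving.ae (p := fun k => k = 2) (by rw [PMF.toMeasure_pure]; simp)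
  have a2 : ∀ᵐ ζ ∂(Measure.infinitePi fun _ : List ℕ => mu.toMeasure),
      ∀ u, ζ u ∈ mu.support := ae_all_iff.2 fun u =>
    (measurePreserving_eval_infinitePi (fun _ : List ℕ => mu.toMeasure)
      u).quasiMeasurePreserving.ae (p := fun k => k ∈ mu.support) (by
        rw [ae_iff, PMF.toMeasure_apply_eq_zero_iff _ MeasurableSet.of_discrete]
        exact Set.disjoint_left.2 fun a ha hb => hb ha)
  have lim : ∀ᶠ n : ℕ in atTop, 2 * (15 / 8 : ℝ) ^ n ≤ (19 / 10) ^ n := by
    filter_upwards [(tendsto_pow_atTop_atTop_of_one_lt (r := (76 / 75 : ℝ))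
      (by norm_num)).eventually_ge_atTop 2] with n hn
    rw [show (19 / 10 : ℝ) = 76 / 75 * (15 / 8) by norm_num, mul_pow]; gcongr
  unfold law
  filter_upwards [Measure.quasiMeasurePreserving_fst.ae a1, Measure.quasiMeasurePreserving_snd.ae a2,
    Measure.quasiMeasurePreserving_snd.ae ae_Y] with ω h1 h2 h3
  filter_upwards [h3, lim, eventually_gt_atTop 0] with n hn hl hn0
  have e : ω.1 = fun _ => 2 := funext h1
  have hc : (0 : ℝ) < (g2 n).card := by exact_mod_cast (g2_ne n).card_pos
  rw [renyi_zero _ ((g2 n).image (pos ω.2)) (fun g => by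
    unfold emp
    rw [e, div_pos_iff_of_pos_right hc, Nat.cast_pos, card_pos, mem_image]
    constructor
    · rintro ⟨v, hv⟩
      simp only [mem_filter] at hv
      exact ⟨v, hv.1, hv.2⟩
    · rintro ⟨v, h1, h2⟩
      exact ⟨v, by simp only [mem_filter]; exact ⟨h1, h2⟩⟩)]
  rw [div_le_iff₀ (by positivity), mul_comm, ← Real.log_pow]
  refine Real.log_le_log ?_ ((count h2 n hn).trans hl)
  exact_mod_cast ((g2_ne n).image _).card_pos

end Pool.Agent.H41.Brw
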