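import Mathlib

set_option autoImplicit false

namespace Pool.Agent.H41.Brw

open MeasureTheory

/-- Generation `n` of the Galton–Watson tree with offspring numbers `ξ` (Ulam–Harris labels; the
children of `v` are `i :: v` with `i < ξ v`). -/
def gen (ξ : List ℕ → ℕ) : ℕ → Finset (List ℕ)
  | 0 => {[]}
  | n + 1 => (gen ξ n).biUnion fun v => (Finset.range (ξ v)).image fun i => i :: v

variable {G : Type} [Group G]

/-- Position `X_v = ζ_{v₁} ⋯ ζ_{vₙ}`. -/
def pos (ζ : List ℕ → G) : List ℕ → G
  | [] => 1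
  | i :: v => pos ζ v * ζ (i :: v)

open Classical in
/-- Empirical distribution of generation `n`. -/
noncomputable def emp (ω : (List ℕ → ℕ) × (List ℕ → G)) (n : ℕ) (x : G) : ℝ :=
  (((gen ω.1 n).filter fun v => pos ω.2 v = x).card : ℝ) / (gen ω.1 n).card

/-- Convolution powers. -/
noncomputable def convPow (μ : PMF G) : ℕ → PMF G
  | 0 => PMF.pure 1
  | n + 1 => (convPow μ n).bind fun y => μ.map (y * ·)

/-- Rényi entropy of order `α ≠ 1`. -/
noncomputable def renyi (α : ℝ) (ν : G → ℝ) : ℝ :=
  1 / (1 - α) * Real.log (∑' g, if 0 < ν g then ν g ^ α else 0)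

/-- i.i.d. offspring numbers with law `π`, independent of i.i.d. increments with law `μ`. -/
noncomputable def law [MeasurableSpace G] (π : PMF ℕ) (μ : PMF G) :
    Measure ((List ℕ → ℕ) × (List ℕ → G)) :=
  (Measure.infinitePi fun _ => π.toMeasure).prod (Measure.infinitePi fun _ => μ.toMeasure)

end Pool.Agent.H41.Brw
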