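import Pool.Agent.H41.BsDefs
import Pool.Agent.H41.Bd11

set_option autoImplicit false
open MeasureTheory Complex Set Filter Topology Metric
open scoped ComplexConjugate

namespace Pool.Agent.H41.Bs
open Pool.Agent.H41.Db Pool.Agent.H41.Bd

theorem pt_eq (s : X) : pt s = ee 1 s := rfl

noncomputable def S (w : ℂ) : ℂ := exp ((w + 1) / (w - 1))
noncomputable def φ (w : ℂ) : ℂ := (1 - w) ^ 2 * S w
noncomputable def G (w : ℂ) : ℂ := 2 * log (1 - w) + (w + 1) / (w - 1)
noncomputable def mid (z : ℂ × ℂ) : ℂ := (z.1 + z.2) / 2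
noncomputable def ff (z : ℂ × ℂ) : ℂ := φ (mid z)

theorem norm_mid (z : ℂ × ℂ) : ‖mid z‖ ≤ ‖z‖ := by
  rw [mid, norm_div]
  have := norm_add_le z.1 z.2
  have := norm_fst_le z
  have := norm_snd_le z
  simp only [Complex.norm_ofNat]; linarith

theorem re_frac {w : ℂ} (_h : w ≠ 1) : ((w + 1) / (w - 1)).re = (‖w‖ ^ 2 - 1) / ‖w - 1‖ ^ 2 := by
  rw [Complex.div_re, Complex.sq_norm, Complex.sq_norm, ← add_div]
  congr 1; simp [normSq_apply]; ring

theorem norm_S {w : ℂ} (h : ‖w‖ ≤ 1) : ‖S w‖ ≤ 1 := by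
  by_cases h1 : w = 1
  · simp [S, h1]
  rw [S, Complex.norm_exp, re_frac h1, Real.exp_le_one_iff]
  exact div_nonpos_of_nonpos_of_nonneg (by nlinarith [norm_nonneg w]) (by positivity)

theorem norm_S_one {w : ℂ} (h : ‖w‖ = 1) : ‖S w‖ = 1 := by
  by_cases h1 : w = 1
  · simp [S, h1]
  rw [S, Complex.norm_exp, re_frac h1, h]; simp

theorem φ_ne {w : ℂ} (h : w ≠ 1) : φ w ≠ 0 :=
  mul_ne_zero (pow_ne_zero _ (sub_ne_zero.2 h.symm)) (Complex.exp_ne_zero _)

theorem log_φ {w : ℂ} (h : w ≠ 1) : Real.log ‖φ w‖ = (G w).re := by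
  have h1 : ‖1 - w‖ ≠ 0 := norm_ne_zero_iff.2 (sub_ne_zero.2 h.symm)
  rw [φ, norm_mul, norm_pow, S, Complex.norm_exp, Real.log_mul (pow_ne_zero _ h1) (Real.exp_ne_zero _),
    Real.log_exp, Real.log_pow, G]
  simp [Complex.log_re]

theorem slit {w : ℂ} (h : ‖w‖ ≤ 1) (h1 : w ≠ 1) : 1 - w ∈ slitPlane := by
  left
  have h2 := Complex.re_le_norm w
  rcases (h2.trans h).eq_or_lt with h3 | h3
  · exfalso
    have h4 := Complex.sq_norm w
    rw [normSq_apply, h3] at h4
    have h5 : w.im = 0 := by nlinarith [norm_nonneg w]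
    exact h1 (Complex.ext (by simp [h3]) (by simp [h5]))
  · simp; linarith

theorem G_diff {w : ℂ} (h : ‖w‖ ≤ 1) (h1 : w ≠ 1) : DifferentiableAt ℂ G w := by
  have h2 := slit h h1
  have h3 : w - 1 ≠ 0 := sub_ne_zero.2 h1
  unfold G
  refine DifferentiableAt.add (DifferentiableAt.const_mul ?_ _) (by fun_prop (disch := assumption))
  exact DifferentiableAt.clog (by fun_prop) h2

theorem φ_deriv {w : ℂ} (h1 : w ≠ 1) : HasDerivAt φ (-2 * (1 - w) * S w - 2 * S w) w := by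
  have h3 : w - 1 ≠ 0 := sub_ne_zero.2 h1
  have a1 : HasDerivAt (fun w : ℂ => (w + 1) / (w - 1)) ((1 * (w - 1) - (w + 1) * 1) / (w - 1) ^ 2) w :=
    ((hasDerivAt_id w).add_const 1).div ((hasDerivAt_id w).sub_const 1) h3
  have a2 := (((hasDerivAt_id w).const_sub 1).pow 2).mul a1.cexp
  convert! a2 using 1
  simp only [S, id, Pi.pow_apply]
  field_simp
  ring

theorem ne_one {w : ℂ} (h : ‖w‖ < 1) : w ≠ 1 := by rintro rfl; simp at h

theorem φ_diff : DifferentiableOn ℂ φ (ball 0 1) := fun w hw =>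
  (φ_deriv (ne_one (by simpa using hw))).differentiableAt.differentiableWithinAt

theorem norm_dφ {w : ℂ} (h : ‖w‖ < 1) : ‖deriv φ w‖ ≤ 6 := by
  rw [(φ_deriv (ne_one h)).deriv]
  have h1 := norm_S h.le
  have h2 : ‖1 - w‖ ≤ 2 := (norm_sub_le _ _).trans (by simp; linarith)
  refine (norm_sub_le _ _).trans ?_
  simp only [norm_mul, norm_neg, Complex.norm_ofNat]
  have := mul_le_mul h2 h1 (norm_nonneg _) (by norm_num)
  linarith

theorem h2_bound {c : ℕ → ℂ} {g : ℂ → ℂ} (hg : ∀ z, ‖z‖ < 1 → HasSum (fun n => c n * z ^ n) (g z))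
    {r : ℝ} (r0 : 0 ≤ r) (r1 : r < 1) :
    HasSum (fun n => ‖c n‖ ^ 2 * (r ^ n) ^ 2) (∫ x, ‖g (r * ee 1 x)‖ ^ 2) := by
  have h1 : Summable fun n => ‖c n * (r : ℂ) ^ n‖ :=
    (hg r (by simpa [abs_of_nonneg r0] using r1)).summable.norm
  have h2 := pars1 h1
  have h3 : ∀ x, ∑' j : ℕ, c j * (r : ℂ) ^ j * ee j x = g (r * ee 1 x) := fun x => by
    rw [← (hg _ (by simpa [norm_ee, abs_of_nonneg r0] using r1)).tsum_eq]
    simp only [mul_pow, ee_pow, mul_assoc]
  simp only [h3] at h2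
  simpa only [norm_mul, norm_pow, Complex.norm_real, Real.norm_of_nonneg r0, mul_pow] using h2

theorem coefs : ∃ c : ℕ → ℂ, (∀ z, ‖z‖ < 1 → HasSum (fun n => c n * z ^ n) (φ z)) ∧
    Summable fun n : ℕ => ((n : ℝ) + 1) ^ 2 * ‖c n‖ ^ 2 := by
  have hT : ∀ g : ℂ → ℂ, DifferentiableOn ℂ g (ball 0 1) → ∀ z : ℂ, ‖z‖ < 1 →
      HasSum (fun n : ℕ => (iteratedDeriv n g 0 / n.factorial) * z ^ n) (g z) := fun g hg z hz => by
    have := Complex.hasSum_taylorSeries_on_ball hg (z := z) (by simpa using hz)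
    convert! this using 2 with n
    simp only [smul_eq_mul, sub_zero]; ring
  refine ⟨_, hT φ φ_diff, ?_⟩
  have h1 := hT (deriv φ) (φ_diff.deriv isOpen_ball)
  rw [← summable_nat_add_iff 1]
  refine Summable.of_nonneg_of_le (fun n => by positivity) (fun n => ?_)
    ((summable_of_sum_le (f := fun n : ℕ => ‖iteratedDeriv n (deriv φ) 0 / n.factorial‖ ^ 2)
      (c := 36) (fun n => by positivity) fun F => ?_).mul_left 4)
  · have e : iteratedDeriv n (deriv φ) 0 / n.factorial =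
        ((n + 1 : ℕ) : ℂ) * (iteratedDeriv (n + 1) φ 0 / (n + 1).factorial) := by
      rw [iteratedDeriv_succ', Nat.factorial_succ]
      have : ((n + 1 : ℕ) : ℂ) ≠ 0 := by exact_mod_cast Nat.succ_ne_zero n
      have : ((n.factorial : ℕ) : ℂ) ≠ 0 := by exact_mod_cast n.factorial_ne_zero
      rw [Nat.cast_mul]; field_simp
    rw [e, norm_mul, mul_pow, ← mul_assoc, Complex.norm_natCast]
    refine mul_le_mul_of_nonneg_right ?_ (by positivity)
    push_cast
    have : (0 : ℝ) ≤ n := by positivity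
    nlinarith
  · have lim : Tendsto (fun r : ℝ => ∑ n ∈ F, ‖iteratedDeriv n (deriv φ) 0 / n.factorial‖ ^ 2 *
        (r ^ n) ^ 2) (𝓝[<] 1) (𝓝 (∑ n ∈ F, ‖iteratedDeriv n (deriv φ) 0 / n.factorial‖ ^ 2 *
        ((1 : ℝ) ^ n) ^ 2)) :=
      (Continuous.tendsto (by fun_prop) 1).mono_left nhdsWithin_le_nhds
    simp only [one_pow, mul_one] at lim
    refine le_of_tendsto lim ?_
    filter_upwards [Ioo_mem_nhdsLT (show (0 : ℝ) < 1 by norm_num)] with r hr
    refine (sum_le_hasSum F (fun _ _ => by positivity) (h2_bound h1 hr.1.le hr.2)).trans ?_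
    refine (le_abs_self _).trans (Db.abs_int_le fun x => ?_)
    rw [abs_of_nonneg (by positivity)]
    have := norm_dφ (w := r * ee 1 x) (by simpa [norm_ee, abs_of_pos hr.1] using hr.2)
    nlinarith [norm_nonneg (deriv φ (r * ee 1 x))]

open Finset.HasAntidiagonal in
theorem summ_anti {f : ℕ × ℕ → ℝ} (h0 : ∀ p, 0 ≤ f p) {u : ℕ → ℝ} (hu : Summable u)
    (h : ∀ n, ∑ p ∈ antidiagonal n, f p ≤ u n) : Summable f := by
  rw [← Finset.HasAntidiagonal.sigmaAntidiagonalEquivProd.summable_iff,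
    summable_sigma_of_nonneg fun _ => by exact h0 _]
  refine ⟨fun n => (hasSum_fintype _).summable, Summable.of_nonneg_of_le
    (fun n => tsum_nonneg fun _ => h0 _) (fun n => ?_) hu⟩
  rw [tsum_fintype]
  exact (Finset.sum_coe_sort (antidiagonal n) f).trans_le (h n)

open Finset.HasAntidiagonal in
theorem has_anti {E : Type*} [NormedAddCommGroup E] {f : ℕ × ℕ → E} {s : E} (h : HasSum f s) :
    HasSum (fun n => ∑ p ∈ antidiagonal n, f p) s :=
  (Finset.HasAntidiagonal.sigmaAntidiagonalEquivProd.hasSum_iff.2 h).sigma fun n => by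
    rw [← Finset.sum_coe_sort (antidiagonal n) f]; exact hasSum_fintype _

open Finset.HasAntidiagonal in
theorem binom {R : Type*} [Field R] (x y : R) (n : ℕ) : ((x + y) / 2) ^ n =
    ∑ p ∈ antidiagonal n, (n.choose p.1 : R) / 2 ^ n * (x ^ p.1 * y ^ p.2) := by
  rw [div_pow, (Commute.all x y).add_pow', Finset.sum_div]
  exact Finset.sum_congr rfl fun p _ => by rw [nsmul_eq_mul]; ring

open Finset.HasAntidiagonal in
theorem inD : InD ff := by
  obtain ⟨c, hc, hs⟩ := coefs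
  refine ⟨fun p => c (p.1 + p.2) * (((p.1 + p.2).choose p.1 : ℂ) / 2 ^ (p.1 + p.2)),
    fun z hz => ?_, ?_⟩
  · have hm : (‖z.1‖ + ‖z.2‖) / 2 < 1 := by linarith [hz.1, hz.2]
    have h1 : Summable fun n => ‖c n * (((‖z.1‖ + ‖z.2‖) / 2 : ℝ) : ℂ) ^ n‖ :=
      (hc _ (by rwa [Complex.norm_real, Real.norm_of_nonneg (by positivity)])).summable.norm
    have h2 : Summable fun p : ℕ × ℕ => c (p.1 + p.2) *
        (((p.1 + p.2).choose p.1 : ℂ) / 2 ^ (p.1 + p.2)) * (z.1 ^ p.1 * z.2 ^ p.2) := by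
      refine Summable.of_norm (summ_anti (fun _ => norm_nonneg _) h1 fun n => le_of_eq ?_)
      rw [norm_mul, norm_pow, Complex.norm_real, Real.norm_of_nonneg (by positivity), binom,
        Finset.mul_sum]
      refine Finset.sum_congr rfl fun p hp => ?_
      rw [mem_antidiagonal.1 hp]
      simp [mul_assoc]
    have h3 := has_anti h2.hasSum
    have h4 := hc (mid z) ((norm_mid z).trans_lt (max_lt hz.1 hz.2))
    rw [ff, h4.unique (by
      convert! h3 using 2 with n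
      rw [mid, binom, Finset.mul_sum]
      refine Finset.sum_congr rfl fun p hp => ?_
      rw [mem_antidiagonal.1 hp, mul_assoc])]
    exact h2.hasSum
  · rw [wt, ← ENNReal.ofReal_tsum_of_nonneg (fun _ => by positivity)]
    · exact ENNReal.ofReal_lt_top
    refine summ_anti (fun _ => by positivity) hs fun n => ?_
    have h1 := binom (1 : ℝ) 1 n
    simp only [one_pow, mul_one, add_self_div_two] at h1
    refine le_trans (Finset.sum_le_sum (g := fun p => ((n : ℝ) + 1) ^ 2 * ‖c n‖ ^ 2 *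
      ((n.choose p.1 : ℝ) / 2 ^ n)) fun p hp => ?_) (by rw [← Finset.mul_sum, ← h1, mul_one])
    have e := mem_antidiagonal.1 hp
    have h2 : (n.choose p.1 : ℝ) / 2 ^ n ≤ 1 := by
      rw [h1]
      exact Finset.single_le_sum (f := fun p : ℕ × ℕ => (n.choose p.1 : ℝ) / 2 ^ n)
        (fun _ _ => by positivity) hp
    have h3 : (0 : ℝ) ≤ (n.choose p.1 : ℝ) / 2 ^ n := by positivity
    rw [e, norm_mul, norm_div, norm_pow, Complex.norm_natCast, Complex.norm_ofNat, mul_pow,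
      ← mul_assoc]
    have h4 : ((p.1 : ℝ) + 1) * ((p.2 : ℝ) + 1) ≤ ((n : ℝ) + 1) ^ 2 := by
      rw [← e]; push_cast
      have : (0 : ℝ) ≤ p.1 := by positivity
      have : (0 : ℝ) ≤ p.2 := by positivity
      nlinarith
    exact mul_le_mul (mul_le_mul_of_nonneg_right h4 (by positivity)) (by nlinarith) (by positivity)
      (by positivity)

end Pool.Agent.H41.Bs
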