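import Pool.Agent.H41.Bs1

set_option autoImplicit false
open MeasureTheory Complex Set Filter Topology Metric
open scoped ComplexConjugate

namespace Pool.Agent.H41.Bs
open Pool.Agent.H41.Db Pool.Agent.H41.Bd

theorem poisson_eq {z : ℂ} (hz : ‖z‖ < 1) (x : X) : ((poisson z x : ℝ) : ℂ) =
    1 / (1 - z * conj (ee 1 x)) + conj z * ee 1 x / (1 - conj z * ee 1 x) := by
  have h1 := den_ne' (z := z) (by simpa using hz) x
  have h2 : 1 - conj z * ee 1 x ≠ 0 := den_ne (by simpa using hz) (by simp [norm_ee])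
  have h3 := ee_mul_conj x
  have h4 : ((‖ee 1 x - z‖ ^ 2 : ℝ) : ℂ) = (1 - z * conj (ee 1 x)) * (1 - conj z * ee 1 x) := by
    rw [← normSq_eq_norm_sq, ← mul_conj, map_sub]
    linear_combination (1 - z * conj z) * h3
  have h5 : ((‖z‖ ^ 2 : ℝ) : ℂ) = z * conj z := by rw [← normSq_eq_norm_sq, ← mul_conj]
  rw [poisson, pt_eq, ofReal_div, h4, ofReal_sub, h5]
  field_simp
  push_cast
  linear_combination (z * conj z) * h3

theorem poisson_cont {z : ℂ} (hz : ‖z‖ < 1) : Continuous (poisson z) := by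
  unfold poisson
  refine continuous_const.div (by simp only [pt_eq]; fun_prop) fun x => pow_ne_zero _ ?_
  rw [norm_ne_zero_iff, sub_ne_zero]
  intro h
  rw [← h, pt_eq, norm_ee] at hz
  exact lt_irrefl _ hz

theorem poisson_nonneg {z : ℂ} (hz : ‖z‖ < 1) (x : X) : 0 ≤ poisson z x :=
  div_nonneg (by nlinarith [norm_nonneg z]) (by positivity)

theorem pois1 {h : ℂ → ℂ} (hd : DifferentiableOn ℂ h (closedBall 0 1)) {z : ℂ} (hz : ‖z‖ < 1) :
    ∫ x, h (ee 1 x) * (poisson z x : ℝ) = h z := by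
  have h1 := cauchy hd (z := z) (by simpa using hz)
  have hd' : DifferentiableOn ℂ (fun y => h y * (conj z * y / (1 - conj z * y))) (closedBall 0 1) :=
    hd.mul (DifferentiableOn.div (by fun_prop) (by fun_prop) fun y hy =>
      den_ne (by simpa using hz) (by simpa using hy))
  have h2 := cauchy hd' (z := 0) (by simp)
  simp only [zero_mul, sub_zero, div_one, mul_zero, zero_div] at h2
  simp only [poisson_eq hz, mul_add, mul_one_div]
  rw [Db.int_add _ (cont_comp hd'), h1, h2, add_zero]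
  exact (cont_comp hd).div (by fun_prop) fun x => den_ne' (by simpa using hz) x

theorem pois2 {H : ℂ × ℂ → ℂ} (hd : DifferentiableOn ℂ H (closedBall 0 1)) {z : ℂ × ℂ}
    (hz : z ∈ bidisk) :
    ∫ x : Y, H (ee 1 x.1, ee 1 x.2) * ((poisson z.1 x.1 * poisson z.2 x.2 : ℝ) : ℂ) = H z := by
  have k1 := poisson_cont hz.1
  have k2 := poisson_cont hz.2
  have k3 : Continuous fun x : Y => H (ee 1 x.1, ee 1 x.2) :=
    hd.continuousOn.comp_continuous (by fun_prop) fun x => by simp [norm_ee]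
  refine (integral_prod _ (Bd.intg (k3.mul (by fun_prop)))).trans ?_
  have : ∀ y : X, ∫ x : X, H (ee 1 y, ee 1 x) * ((poisson z.1 y * poisson z.2 x : ℝ) : ℂ) =
      H (ee 1 y, z.2) * (poisson z.1 y : ℝ) := fun y => by
    have := pois1 (h := fun w => H (ee 1 y, w)) (hd.comp (by fun_prop) fun w hw => by
      simpa [norm_ee] using hw) hz.2
    rw [← this, ← integral_mul_const]
    congr 1; funext x; push_cast; ring
  simp only [Pi.mul_apply, this]
  exact pois1 (h := fun w => H (w, z.2)) (hd.comp (by fun_prop) fun w hw => by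
    simp only [mem_closedBall, dist_zero_right, Prod.norm_mk] at *
    exact max_le hw hz.2.le) hz.1

theorem ee_low {t : ℝ} (ht : |t| ≤ 1 / 2) : 4 * |t| ≤ ‖1 - ee 1 (t : X)‖ := by
  have e : ee 1 (t : X) = exp (I * (2 * Real.pi * t : ℝ)) := by
    rw [ee_coe]; congr 1; push_cast; ring
  rw [e, norm_sub_rev, Complex.norm_exp_I_mul_ofReal_sub_one, norm_mul, Real.norm_eq_abs,
    Real.norm_eq_abs, show 2 * Real.pi * t / 2 = Real.pi * t by ring]
  have h1 : |Real.pi * t| = Real.pi * |t| := by rw [abs_mul, abs_of_pos Real.pi_pos]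
  have h2 := Real.mul_abs_le_abs_sin (x := Real.pi * t) (by rw [h1]; nlinarith [Real.pi_pos])
  rw [h1, ← mul_assoc, div_mul_cancel₀ _ Real.pi_ne_zero] at h2
  rw [abs_two]; linarith

theorem ee_inj {s : X} (h : ee 1 s = 1) : s = 0 := by
  obtain ⟨t, ht, rfl⟩ : ∃ t ∈ Ioc (-(1 / 2 : ℝ)) (-(1 / 2) + 1), (t : X) = s :=
    ⟨_, (AddCircle.equivIoc 1 (-(1 / 2)) s).2, (AddCircle.equivIoc 1 (-(1 / 2))).symm_apply_apply s⟩
  have := ee_low (t := t) (abs_le.2 ⟨ht.1.le, by linarith [ht.2]⟩)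
  rw [h, sub_self, norm_zero] at this
  have h0 : t = 0 := abs_eq_zero.1 (le_antisymm (by linarith) (abs_nonneg _))
  simp [h0]

noncomputable def kk (s : X) : ℝ := ‖1 - ee 1 s‖ ^ (-(2 / 3 : ℝ))

theorem kk_meas : Measurable kk := by
  unfold kk
  exact (Continuous.measurable (by fun_prop)).pow_const _

theorem kk_int : Integrable kk := by
  rw [← (UnitAddCircle.measurePreserving_mk (-(1 / 2))).integrable_comp kk_meas.aestronglyMeasurable]
  have h1 : IntegrableOn (fun t : ℝ => ‖t‖ ^ (-(2 / 3 : ℝ))) (ball 0 1) :=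
    integrableOn_ball_of_norm_le_rpow (C := 1) (α := 2 / 3) (by simp) (by simp; norm_num)
      (Eventually.of_forall fun t => by rw [one_mul, Real.norm_of_nonneg (by positivity)])
      (measurable_norm.pow_const _).aestronglyMeasurable
  refine Integrable.mono' (h1.mono_set fun t ht => ?_)
    (kk_meas.comp AddCircle.measurable_mk').aestronglyMeasurable ?_
  · rw [mem_ball, dist_zero_right, Real.norm_eq_abs, abs_lt]
    constructor <;> linarith [ht.1, ht.2]
  · filter_upwards [ae_restrict_mem measurableSet_Ioc] with t ht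
    have h2 := ee_low (t := t) (abs_le.2 ⟨ht.1.le, by linarith [ht.2]⟩)
    simp only [Function.comp, kk]
    rw [Real.norm_of_nonneg (by positivity)]
    by_cases h0 : t = 0
    · subst h0; simp [ee]
    · exact Real.rpow_le_rpow_of_nonpos (norm_pos_iff.2 h0)
        (by rw [Real.norm_eq_abs]; linarith [abs_nonneg t]) (by norm_num)

theorem ae_ne : ∀ᵐ s : X, s ≠ 0 := by
  rw [ae_iff]
  have := AddCircle.volume_closedBall (T := 1) (x := (0 : X)) 0
  simpa using this

noncomputable def ww (x : Y) : ℂ := mid (ee 1 x.1, ee 1 x.2)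

theorem norm_ww (x : Y) : ‖ww x‖ ≤ 1 := (norm_mid _).trans (by simp [norm_ee])

theorem ww_low (x : Y) : ‖1 - ee 1 x.1‖ ^ 2 ≤ 4 * ‖1 - ww x‖ ∧ ‖1 - ee 1 x.2‖ ^ 2 ≤ 4 * ‖1 - ww x‖ ∧
    ‖1 - ee 1 (x.1 + x.2)‖ ≤ 4 * ‖1 - ww x‖ := by
  have e : ∀ s : X, ‖1 - ee 1 s‖ ^ 2 = 2 - 2 * (ee 1 s).re := fun s => by
    have := Complex.sq_norm (ee 1 s)
    rw [norm_ee, normSq_apply] at this
    rw [Complex.sq_norm, normSq_apply]; simp; linarith
  have h1 := Complex.re_le_norm (1 - ww x)
  have h2 : (1 - ww x).re = 1 - ((ee 1 x.1).re + (ee 1 x.2).re) / 2 := by simp [ww, mid]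
  have h3 := e x.1
  have h4 := e x.2
  have h5 : 1 - ee 1 (x.1 + x.2) = 2 * (1 - ww x) - (1 - ee 1 x.1) * (1 - ee 1 x.2) := by
    rw [ee_one_add, ww, mid]; ring
  have h6 := norm_sub_le (2 * (1 - ww x)) ((1 - ee 1 x.1) * (1 - ee 1 x.2))
  rw [← h5, norm_mul, norm_mul, Complex.norm_ofNat] at h6
  refine ⟨by nlinarith [sq_nonneg ‖1 - ee 1 x.2‖], by nlinarith [sq_nonneg ‖1 - ee 1 x.1‖], ?_⟩
  nlinarith [sq_nonneg (‖1 - ee 1 x.1‖ - ‖1 - ee 1 x.2‖)]

theorem ww_ne {x : Y} (hx : x ≠ 0) : ww x ≠ 1 := fun h => hx <| by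
  have := ww_low x
  rw [h, sub_self, norm_zero, mul_zero] at this
  have h1 := pow_eq_zero_iff (two_ne_zero) |>.1 (le_antisymm this.1 (by positivity))
  have h2 := pow_eq_zero_iff (two_ne_zero) |>.1 (le_antisymm this.2.1 (by positivity))
  rw [norm_eq_zero, sub_eq_zero] at h1 h2
  exact Prod.ext (ee_inj h1.symm) (ee_inj h2.symm)

theorem inv_int : Integrable fun x : Y => ‖1 - ww x‖⁻¹ := by
  have mp : MeasurePreserving (fun z : Y => (z.1, z.1 + z.2)) ((volume : Measure X).prod volume)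
      ((volume : Measure X).prod volume) := measurePreserving_prod_add _ _
  have h1 := mp.integrable_comp_of_integrable (kk_int.mul_prod kk_int)
  have h2 := mp.quasiMeasurePreserving.ae
    ((Measure.quasiMeasurePreserving_fst.ae ae_ne).and (Measure.quasiMeasurePreserving_snd.ae ae_ne))
  refine Integrable.mono' (h1.const_mul 4) (Measurable.aestronglyMeasurable
    (Continuous.measurable (by unfold ww mid; fun_prop)).inv) ?_
  filter_upwards [h2] with x hx
  obtain ⟨a1, -, a2⟩ := ww_low x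
  have p1 : 0 < ‖1 - ee 1 x.1‖ := norm_pos_iff.2 (sub_ne_zero.2 fun h => hx.1 (ee_inj h.symm))
  have p2 : 0 < ‖1 - ee 1 (x.1 + x.2)‖ := norm_pos_iff.2 (sub_ne_zero.2 fun h => hx.2 (ee_inj h.symm))
  simp only [Function.comp, kk]
  rw [Real.norm_of_nonneg (by positivity), ← Real.mul_rpow p1.le p2.le, Real.rpow_neg (by positivity)]
  set a := ‖1 - ee 1 x.1‖
  set b := ‖1 - ee 1 (x.1 + x.2)‖
  set D := ‖1 - ww x‖
  have D0 : 0 < D := by linarith
  have h3 : (a * b) ^ (2 / 3 : ℝ) ≤ 4 * D := by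
    rw [← pow_le_pow_iff_left₀ (by positivity) (by positivity) three_ne_zero, ← Real.rpow_natCast,
      ← Real.rpow_mul (by positivity)]
    norm_num
    have := mul_le_mul a1 (pow_le_pow_left₀ p2.le a2 2) (by positivity) (by positivity)
    nlinarith
  rw [← div_eq_mul_inv, le_div_iff₀ (by positivity), inv_mul_le_iff₀ D0]
  linarith

theorem G_bd {w : ℂ} (h : ‖w‖ ≤ 1) (h1 : w ≠ 1) : |(G w).re| ≤ 2 + 4 * ‖1 - w‖⁻¹ := by
  have p : 0 < ‖1 - w‖ := norm_pos_iff.2 (sub_ne_zero.2 h1.symm)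
  have h2 : ‖1 - w‖ ≤ 2 := (norm_sub_le _ _).trans (by simp; linarith)
  have h3 : |((w + 1) / (w - 1)).re| ≤ 2 * ‖1 - w‖⁻¹ := by
    refine (Complex.abs_re_le_norm _).trans ?_
    rw [norm_div, norm_sub_rev, div_eq_mul_inv]
    exact mul_le_mul_of_nonneg_right ((norm_add_le _ _).trans (by simp; linarith)) (by positivity)
  have h4 := Real.log_le_sub_one_of_pos p
  have h5 := Real.one_sub_inv_le_log_of_pos p
  have h6 : (G w).re = 2 * Real.log ‖1 - w‖ + ((w + 1) / (w - 1)).re := by simp [G, Complex.log_re]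
  have h7 := abs_le.1 h3
  have := inv_pos.2 p
  rw [h6, abs_le]; constructor <;> linarith

theorem mid_rad (r : ℝ) (x : Y) : mid ((r : ℂ) * pt x.1, (r : ℂ) * pt x.2) = r * ww x := by
  simp only [mid, ww, pt_eq]; ring

theorem rad_lim {g : ℂ → ℂ} {w : ℂ} (h : ContinuousAt g w) :
    Tendsto (fun r : ℝ => g (r * w)) (𝓝[<] 1) (𝓝 (g w)) := by
  refine h.tendsto.comp ?_
  have : Tendsto (fun r : ℝ => (r : ℂ) * w) (𝓝 1) (𝓝 (((1 : ℝ) : ℂ) * w)) :=
    Continuous.tendsto (by fun_prop) 1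
  simpa using this.mono_left nhdsWithin_le_nhds

theorem radLim {x : Y} (hx : x ≠ 0) : RadLim ff x (φ (ww x)) := by
  simp only [RadLim, ff, mid_rad]
  exact rad_lim (φ_deriv (ww_ne hx)).continuousAt

theorem ae_ne2 : ∀ᵐ x : Y, x ≠ 0 := by
  filter_upwards [(Measure.quasiMeasurePreserving_fst (μ := (volume : Measure X))
    (ν := (volume : Measure X))).ae ae_ne] with x hx h
  exact hx (by rw [h]; rfl)

theorem outer : Outer ff := by
  have mz : ∀ z ∈ bidisk, ‖mid z‖ < 1 := fun z hz => (norm_mid z).trans_lt (max_lt hz.1 hz.2)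
  refine ⟨fun z hz => φ_ne (ne_one (mz z hz)), fun x => φ (ww x),
    ae_ne2.mono fun x hx => ⟨radLim hx, φ_ne (ww_ne hx)⟩, fun z hz => ?_⟩
  have k1 := poisson_cont hz.1
  have k2 := poisson_cont hz.2
  have kP : Continuous fun x : Y => poisson z.1 x.1 * poisson z.2 x.2 := by fun_prop
  have P0 : ∀ x : Y, 0 ≤ poisson z.1 x.1 * poisson z.2 x.2 := fun x =>
    mul_nonneg (poisson_nonneg hz.1 _) (poisson_nonneg hz.2 _)
  obtain ⟨B, B0, hB⟩ := Bd.bdd kP
  have kw : Continuous ww := by unfold ww mid; fun_prop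
  have iB : Integrable fun x : Y => (2 + 8 * ‖1 - ww x‖⁻¹) * B :=
    ((integrable_const 2).add (inv_int.const_mul 8)).mul_const B
  have dG : ∀ r ∈ Ioo (0 : ℝ) 1, DifferentiableOn ℂ (fun y => G (r * mid y)) (closedBall 0 1) :=
    fun r hr y hy => by
      have h1 : ‖(r : ℂ) * mid y‖ < 1 := by
        rw [norm_mul, Complex.norm_real, Real.norm_of_nonneg hr.1.le]
        have := (norm_mid y).trans (show ‖y‖ ≤ 1 by simpa using hy)
        nlinarith [hr.1, hr.2, norm_nonneg (mid y)]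
      exact ((G_diff h1.le (ne_one h1)).comp (f := fun y => (r : ℂ) * mid y) y
        (by unfold mid; fun_prop)).differentiableWithinAt
  have kG : ∀ r ∈ Ioo (0 : ℝ) 1, Continuous fun x : Y => G (r * ww x) := fun r hr =>
    (dG r hr).continuousOn.comp_continuous (f := fun x : Y => (ee 1 x.1, ee 1 x.2)) (by fun_prop)
      fun x => by simp [norm_ee]
  have hl : ∀ᵐ x : Y, Tendsto (fun r : ℝ => (G (r * ww x)).re * (poisson z.1 x.1 * poisson z.2 x.2))
      (𝓝[<] 1) (𝓝 (Real.log ‖φ (ww x)‖ * (poisson z.1 x.1 * poisson z.2 x.2))) := by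
    filter_upwards [ae_ne2] with x hx
    rw [log_φ (ww_ne hx)]
    exact ((Complex.continuous_re.tendsto _).comp
      (rad_lim (G_diff (norm_ww x) (ww_ne hx)).continuousAt)).mul_const _
  have hb : ∀ᶠ r : ℝ in 𝓝[<] 1, ∀ᵐ x : Y,
      ‖(G (r * ww x)).re * (poisson z.1 x.1 * poisson z.2 x.2)‖ ≤ (2 + 8 * ‖1 - ww x‖⁻¹) * B := by
    filter_upwards [Ioo_mem_nhdsLT (show (0 : ℝ) < 1 by norm_num)] with r hr
    filter_upwards [ae_ne2] with x hx
    have h0 := norm_ww x
    have h1 : ‖(r : ℂ) * ww x‖ ≤ r := by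
      rw [norm_mul, Complex.norm_real, Real.norm_of_nonneg hr.1.le]
      exact mul_le_of_le_one_right hr.1.le h0
    have h2 := G_bd (h1.trans hr.2.le) (ne_one (h1.trans_lt hr.2))
    have h3 : 1 - r ≤ ‖1 - r * ww x‖ := by
      have := norm_sub_norm_le 1 (r * ww x)
      rw [norm_one] at this; linarith
    have h4 : ‖1 - ww x‖ ≤ ‖1 - r * ww x‖ * 2 := by
      have e : 1 - ww x = (1 - r * ww x) - ((1 - r : ℝ) : ℂ) * ww x := by push_cast; ring
      have := norm_sub_le (1 - r * ww x) (((1 - r : ℝ) : ℂ) * ww x)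
      rw [← e, norm_mul, Complex.norm_real, Real.norm_of_nonneg (by linarith [hr.2])] at this
      nlinarith [hr.2]
    have p : 0 < ‖1 - ww x‖ := norm_pos_iff.2 (sub_ne_zero.2 (ww_ne hx).symm)
    have h5 : ‖1 - r * ww x‖⁻¹ ≤ 2 * ‖1 - ww x‖⁻¹ := by
      rw [← div_eq_mul_inv, le_div_iff₀ p, inv_mul_le_iff₀ (by linarith)]; exact h4
    rw [norm_mul, Real.norm_eq_abs, Real.norm_eq_abs]
    exact mul_le_mul (by linarith) (hB x) (abs_nonneg _) (by positivity)
  have hm : ∀ᶠ r : ℝ in 𝓝[<] 1, AEStronglyMeasurable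
      (fun x : Y => (G (r * ww x)).re * (poisson z.1 x.1 * poisson z.2 x.2)) := by
    filter_upwards [Ioo_mem_nhdsLT (show (0 : ℝ) < 1 by norm_num)] with r hr
    exact ((Complex.continuous_re.comp (kG r hr)).mul kP).aestronglyMeasurable
  have h1 := tendsto_integral_filter_of_dominated_convergence _ hm hb iB hl
  refine ⟨?_, ?_⟩
  · refine Integrable.mono' iB (Measurable.aestronglyMeasurable (Measurable.mul
      (Measurable.log (Measurable.norm ?_)) kP.measurable)) ?_
    · have := kw.measurable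
      unfold φ S; fun_prop
    · filter_upwards [ae_ne2] with x hx
      rw [log_φ (ww_ne hx), norm_mul, Real.norm_eq_abs, Real.norm_eq_abs]
      have := G_bd (norm_ww x) (ww_ne hx)
      have h0 : 0 ≤ ‖1 - ww x‖⁻¹ := by positivity
      exact mul_le_mul (by linarith) (hB x) (abs_nonneg _) (by positivity)
  · rw [ff, log_φ (ne_one (mz z hz))]
    refine tendsto_nhds_unique ((Complex.continuous_re.tendsto _).comp
      (rad_lim (G_diff (mz z hz).le (ne_one (mz z hz))).continuousAt)) (h1.congr' ?_)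
    filter_upwards [Ioo_mem_nhdsLT (show (0 : ℝ) < 1 by norm_num)] with r hr
    have h2 := pois2 (dG r hr) hz
    simp only [Function.comp]
    rw [← h2]
    refine Eq.trans ?_ (integral_re (𝕜 := ℂ) (Bd.intg (g := fun x : Y => G (r * ww x) *
      ((poisson z.1 x.1 * poisson z.2 x.2 : ℝ) : ℂ)) ((kG r hr).mul (by fun_prop))))
    congr 1; funext x
    simp only [RCLike.re_to_complex, re_mul_ofReal, ww]

theorem zero_sub : {x | RadLim ff x 0} ⊆ {0} := fun x hx => by
  by_contra h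
  exact φ_ne (ww_ne h) (tendsto_nhds_unique (radLim h) hx)

theorem capZero : CapZero {x | RadLim ff x 0} := fun μ hμ h => by
  have h1 : ∀ᵐ x ∂μ, x = 0 := by
    rw [ae_iff]
    exact measure_mono_null (fun x hx hx' => hx (zero_sub hx')) h
  rw [energy, lintegral_congr_ae (g := fun _ => ⊤)]
  · simp
  filter_upwards [h1] with x hx
  rw [lintegral_congr_ae (g := fun _ => ⊤)]
  · simp
  filter_upwards [h1] with y hy
  simp [lk, hx, hy]

open Finset.HasAntidiagonal in
theorem noncyc : ¬ Cyclic ff := fun H => by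
  obtain ⟨P, d, hd, hw⟩ := H (ENNReal.ofReal (1 / 16)) (ENNReal.ofReal_pos.2 (by norm_num))
  set w : ℕ × ℕ → ℝ := fun p => ((p.1 : ℝ) + 1) * ((p.2 : ℝ) + 1) * ‖d p‖ ^ 2 with hw'
  have w0 : ∀ p, 0 ≤ w p := fun p => by positivity
  have h1 : ∀ F : Finset (ℕ × ℕ), ∑ p ∈ F, w p ≤ 1 / 16 := fun F => by
    rw [← ENNReal.ofReal_le_ofReal_iff (by norm_num), ENNReal.ofReal_sum_of_nonneg fun p _ => w0 p]
    exact (ENNReal.sum_le_tsum F).trans hw.le
  have h2 := has_anti (summable_of_sum_le w0 h1).hasSum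
  have h3 := Real.tsum_le_of_sum_le w0 h1
  set q : ℂ → ℂ := fun z => ev P (z, z) with hq
  have dq : Differentiable ℂ q := (ev_diff P).comp (by fun_prop)
  have h4 : ∀ z : ℂ, ‖z‖ < 1 →
      HasSum (fun n => (∑ p ∈ antidiagonal n, d p) * z ^ n) (q z * φ z - 1) := fun z hz => by
    have := has_anti (hd (z, z) ⟨hz, hz⟩)
    simp only [ff, mid, add_self_div_two] at this
    convert! this using 2 with n
    rw [Finset.sum_mul]
    refine Finset.sum_congr rfl fun p hp => ?_
    rw [← pow_add, mem_antidiagonal.1 hp]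
  have h5 : ∀ r : ℝ, 0 ≤ r → r < 1 → ∫ x, ‖q (r * ee 1 x) * φ (r * ee 1 x) - 1‖ ^ 2 ≤ 1 / 16 := by
    intro r r0 r1
    refine (hasSum_le (fun n => ?_) (h2_bound (g := fun z => q z * φ z - 1) h4 r0 r1) h2).trans h3
    refine (mul_le_of_le_one_right (by positivity) (pow_le_one₀ (by positivity)
      (pow_le_one₀ r0 r1.le))).trans ?_
    refine (pow_le_pow_left₀ (norm_nonneg _) (norm_sum_le _ _) 2).trans
      (sq_sum_le_card_mul_sum_sq.trans ?_)
    rw [Finset.Nat.card_antidiagonal, Finset.mul_sum]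
    refine Finset.sum_le_sum fun p hp => mul_le_mul_of_nonneg_right ?_ (by positivity)
    rw [← mem_antidiagonal.1 hp]; push_cast
    have : (0 : ℝ) ≤ (p.1 : ℝ) * p.2 := by positivity
    linarith
  have h6 := h5 0 le_rfl one_pos
  simp only [ofReal_zero, zero_mul, integral_const, probReal_univ, smul_eq_mul, one_mul] at h6
  have h7 : ‖φ 0‖ = Real.exp (-1) := by simp [φ, S, Complex.norm_exp]
  have h8 : ‖q 0 * φ 0 - 1‖ ≤ 1 / 4 := by nlinarith [norm_nonneg (q 0 * φ 0 - 1)]
  have h9 := norm_sub_norm_le 1 (q 0 * φ 0)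
  rw [norm_sub_rev, norm_one, norm_mul, h7] at h9
  have h10 : Real.exp (-1) ≤ 1 / 2 := by
    rw [Real.exp_neg, inv_le_comm₀ (Real.exp_pos _) (by norm_num)]
    linarith [Real.add_one_le_exp 1]
  have h11 := mul_le_mul_of_nonneg_left h10 (norm_nonneg (q 0))
  obtain ⟨B, hB⟩ := (isCompact_closedBall (0 : ℂ) 1).exists_bound_of_continuousOn
    dq.continuous.continuousOn
  have kq : ∀ r ∈ Ioo (0 : ℝ) 1, Continuous fun x => q (r * ee 1 x) * φ (r * ee 1 x) := fun r hr =>
    cont_circ (dq.differentiableOn.mul φ_diff) hr.1.le hr.2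
  have h12 := tendsto_integral_filter_of_dominated_convergence (μ := (volume : Measure X))
    (l := 𝓝[<] (1 : ℝ)) (F := fun (r : ℝ) x => ‖q (r * ee 1 x) * φ (r * ee 1 x)‖)
    (f := fun x => ‖q (ee 1 x) * (1 - ee 1 x) ^ 2‖) (fun _ => B * 4) (by
      filter_upwards [Ioo_mem_nhdsLT (show (0 : ℝ) < 1 by norm_num)] with r hr
      exact (kq r hr).norm.aestronglyMeasurable) (by
      filter_upwards [Ioo_mem_nhdsLT (show (0 : ℝ) < 1 by norm_num)] with r hr
      refine Eventually.of_forall fun x => ?_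
      have a1 : ‖(r : ℂ) * ee 1 x‖ ≤ 1 := by simpa [norm_ee, abs_of_pos hr.1] using hr.2.le
      have a2 := hB _ (mem_closedBall_zero_iff.2 a1)
      have a3 : ‖1 - r * ee 1 x‖ ≤ 2 := (norm_sub_le _ _).trans (by rw [norm_one]; linarith)
      rw [norm_norm, norm_mul, φ, norm_mul, norm_pow]
      refine mul_le_mul a2 ((mul_le_of_le_one_right (by positivity) (norm_S a1)).trans ?_)
        (by positivity) ((norm_nonneg _).trans a2)
      nlinarith [norm_nonneg (1 - r * ee 1 x)]) (integrable_const _) (by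
      filter_upwards [ae_ne] with x hx
      have := (rad_lim (g := fun z => q z * φ z) (dq.continuous.continuousAt.mul
        (φ_deriv fun h => hx (ee_inj h)).continuousAt)).norm
      convert this using 2
      simp only [φ, norm_mul, norm_S_one (norm_ee 1 x), mul_one])
  have h13 : ∫ x, ‖q (ee 1 x) * (1 - ee 1 x) ^ 2‖ ≤ 5 / 4 := by
    refine le_of_tendsto h12 ?_
    filter_upwards [Ioo_mem_nhdsLT (show (0 : ℝ) < 1 by norm_num)] with r hr
    have k := kq r hr
    have a1 := l1_le1 (f := fun _ => 1) (g := fun x => q (r * ee 1 x) * φ (r * ee 1 x) - 1)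
      continuous_const (k.sub continuous_const) (show (0 : ℝ) < 1 / 4 by norm_num)
    have a2 : ∫ x, ‖q (r * ee 1 x) * φ (r * ee 1 x)‖ ≤
        ∫ x, (‖q (r * ee 1 x) * φ (r * ee 1 x) - 1‖ + 1) :=
      Db.int_mono k.norm ((k.sub continuous_const).norm.add continuous_const) fun x => by
        simpa using norm_add_le (q (r * ee 1 x) * φ (r * ee 1 x) - 1) 1
    rw [Db.int_add (by exact (k.sub continuous_const).norm) continuous_const] at a2
    simp only [one_mul, norm_one, one_pow, integral_const, probReal_univ, smul_eq_mul] at a1 a2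
    linarith [h5 r hr.1.le hr.2]
  have h14 := cauchy (h := fun z => q z * (1 - z) ^ 2)
    (Differentiable.differentiableOn (by fun_prop)) (z := 0) (by simp)
  have h15 := norm_integral_le_integral_norm (μ := (volume : Measure X))
    fun x => q (ee 1 x) * (1 - ee 1 x) ^ 2
  simp only [zero_mul, sub_zero, div_one, one_pow, mul_one] at h14
  rw [h14] at h15
  linarith

end Pool.Agent.H41.Bs
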