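import Mathlib

set_option autoImplicit false
open MeasureTheory Filter Topology
open scoped ENNReal

namespace Pool.Agent.H41.Bs

/-- The torus `T²`, as pairs of points of `ℝ/ℤ`; `volume` is normalised Haar measure. -/
abbrev Tor := UnitAddCircle × UnitAddCircle

/-- The point `exp(2πis)` of the unit circle. -/
noncomputable def pt (s : UnitAddCircle) : ℂ := fourier 1 s

/-- The open bidisk. -/
def bidisk : Set (ℂ × ℂ) := {z | ‖z.1‖ < 1 ∧ ‖z.2‖ < 1}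

/-- `f` is the sum of the power series with coefficients `a` on the bidisk. -/
def Rep (a : ℕ × ℕ → ℂ) (f : ℂ × ℂ → ℂ) : Prop :=
  ∀ z ∈ bidisk, HasSum (fun p : ℕ × ℕ => a p * (z.1 ^ p.1 * z.2 ^ p.2)) (f z)

/-- The squared Dirichlet norm `∑ (k+1)(l+1)|a_{k,l}|²`. -/
noncomputable def wt (a : ℕ × ℕ → ℂ) : ℝ≥0∞ :=
  ∑' p : ℕ × ℕ, ENNReal.ofReal (((p.1 : ℝ) + 1) * ((p.2 : ℝ) + 1) * ‖a p‖ ^ 2)

/-- `f` lies in the Dirichlet space of the bidisk. -/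
def InD (f : ℂ × ℂ → ℂ) : Prop := ∃ a, Rep a f ∧ wt a < ⊤

/-- `f` is cyclic: `P f - 1` has arbitrarily small Dirichlet norm, `P` a polynomial. -/
def Cyclic (f : ℂ × ℂ → ℂ) : Prop :=
  ∀ ε : ℝ≥0∞, 0 < ε → ∃ (P : MvPolynomial (Fin 2) ℂ) (d : ℕ × ℕ → ℂ),
    Rep d (fun z => MvPolynomial.eval ![z.1, z.2] P * f z - 1) ∧ wt d < ε

/-- The radial limit of `f` at the point `x` of the torus exists and equals `w`. -/
def RadLim (f : ℂ × ℂ → ℂ) (x : Tor) (w : ℂ) : Prop :=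
  Tendsto (fun r : ℝ => f ((r : ℂ) * pt x.1, (r : ℂ) * pt x.2)) (𝓝[<] 1) (𝓝 w)

/-- The Poisson kernel of the disk. -/
noncomputable def poisson (z : ℂ) (s : UnitAddCircle) : ℝ := (1 - ‖z‖ ^ 2) / ‖pt s - z‖ ^ 2

/-- `f` is outer: `log |f|` is the Poisson integral of `log |f*|`. -/
def Outer (f : ℂ × ℂ → ℂ) : Prop :=
  (∀ z ∈ bidisk, f z ≠ 0) ∧ ∃ g : Tor → ℂ, (∀ᵐ x, RadLim f x (g x) ∧ g x ≠ 0) ∧
    ∀ z ∈ bidisk, Integrable (fun x => Real.log ‖g x‖ * (poisson z.1 x.1 * poisson z.2 x.2)) ∧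
      Real.log ‖f z‖ = ∫ x, Real.log ‖g x‖ * (poisson z.1 x.1 * poisson z.2 x.2)

/-- The kernel `log (e / |e^{iθ} - e^{iϑ}|)`, infinite on the diagonal. -/
noncomputable def lk (s t : UnitAddCircle) : ℝ≥0∞ :=
  if pt s = pt t then ⊤ else ENNReal.ofReal (Real.log (Real.exp 1 / ‖pt s - pt t‖))

/-- The logarithmic energy of a measure on the torus. -/
noncomputable def energy (μ : Measure Tor) : ℝ≥0∞ :=
  ∫⁻ x, ∫⁻ y, lk x.1 y.1 * lk x.2 y.2 ∂μ ∂μ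

/-- `E` has logarithmic capacity zero: it carries no probability measure of finite energy. -/
def CapZero (E : Set Tor) : Prop :=
  ∀ μ : Measure Tor, IsProbabilityMeasure μ → μ Eᶜ = 0 → energy μ = ⊤

end Pool.Agent.H41.Bs
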