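import Pool.Agent.H41.TFDefs

namespace Pool.Agent.H41.TF

open MeasureTheory

/-- The TFW energy of an atom with nuclear charge `z` at the origin; `g = ∇ρ^{1/2}`. -/
noncomputable def energyTFW (p A γ z : ℝ) (ρ : E3 → ℝ) (g : E3 → E3 →L[ℝ] ℝ) : ℝ :=
  A * (∫ x, ‖g x‖ ^ 2) + γ / p * (∫ x, ρ x ^ p) - (∫ x, z / ‖x‖ * ρ x) + D ρ

end Pool.Agent.H41.TF
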