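import Pool.Agent.H41.FA3
import Pool.Agent.H41.CVDefs

namespace Pool.Agent.H41.TF

open MeasureTheory Filter Real Set Metric
open scoped Topology

noncomputable def ww (x : E3) : ℝ := max (1 / ‖x‖ - 1) 0

noncomputable def ex (t : ℝ) (x : E3) : ℝ :=
  3 / 5 * t ^ (5 / 3 : ℝ) - (1 / ‖x‖ - 1) * t + 2 / 5 * ww x ^ (5 / 2 : ℝ)

theorem ww_int : Integrable fun x => ww x ^ (5 / 2 : ℝ) := by
  refine (integrableOn_iff_integrable_of_support_subset (s := ball 0 1) fun x hx => ?_).mp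
    (integrableOn_ball_of_norm_le_rpow (C := 1) (α := 5 / 2) (by simp) (by norm_num)
      (Eventually.of_forall fun x => ?_) (Measurable.aestronglyMeasurable (by unfold ww; fun_prop)))
  · by_contra h
    rw [mem_ball_zero_iff, not_lt] at h
    exact hx (by simp only [ww, max_eq_right (sub_nonpos.mpr ((div_le_one
      (show 0 < ‖x‖ by linarith)).mpr h))]; simp)
  · rw [ww, norm_of_nonneg (rpow_nonneg (le_max_right _ _) _), one_mul, rpow_neg (norm_nonneg _),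
      ← inv_rpow (norm_nonneg _)]
    exact rpow_le_rpow (le_max_right _ _) (max_le (by simp) (by positivity)) (by norm_num)

theorem ex_ge {t : ℝ} (ht : 0 ≤ t) (x : E3) : ∃ u v : ℝ, 0 ≤ u ∧ 0 ≤ v ∧ √t ^ 2 = u ^ 3 ∧
    ww x = v ^ 2 ∧ (u - v) ^ 2 * (3 * u ^ 3 + 2 * v ^ 3) / 5 ≤ ex t x := by
  have w0 : 0 ≤ ww x := le_max_right _ _
  obtain ⟨u, hu⟩ : ∃ u, u = t ^ (1 / 3 : ℝ) := ⟨_, rfl⟩
  obtain ⟨v, hv⟩ : ∃ v, v = ww x ^ (1 / 2 : ℝ) := ⟨_, rfl⟩
  have u0 : 0 ≤ u := hu ▸ rpow_nonneg ht _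
  have v0 : 0 ≤ v := hv ▸ rpow_nonneg w0 _
  have e1 : t = u ^ 3 := by rw [hu, ← rpow_natCast, ← rpow_mul ht]; norm_num
  have e2 : t ^ (5 / 3 : ℝ) = u ^ 5 := by rw [hu, ← rpow_natCast, ← rpow_mul ht]; norm_num
  have e3 : ww x = v ^ 2 := by rw [hv, ← rpow_natCast, ← rpow_mul w0]; norm_num
  have e4 : ww x ^ (5 / 2 : ℝ) = v ^ 5 := by rw [hv, ← rpow_natCast, ← rpow_mul w0]; norm_num
  refine ⟨u, v, u0, v0, by rw [sq_sqrt ht, e1], e3, ?_⟩
  have h := mul_le_mul_of_nonneg_right ((le_max_left (1 / ‖x‖ - 1) 0).trans_eq e3) ht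
  rw [ex, e2, e4]
  nth_rewrite 2 [e1] at h
  nlinarith [mul_nonneg (sq_nonneg (u - v)) (by positivity : 0 ≤ 6 * u ^ 2 * v + 4 * u * v ^ 2)]

theorem ex_nonneg {t : ℝ} (ht : 0 ≤ t) (x : E3) : 0 ≤ ex t x := by
  obtain ⟨u, v, _, _, -, -, h⟩ := ex_ge ht x
  exact le_trans (by positivity) h

theorem ex_int {ρ : E3 → ℝ} {g : E3 → E3 →L[ℝ] ℝ} (h : Adm (5 / 3) ρ g) (a S : ℝ) :
    Integrable (fun x => ex (ρ x) x) ∧ energyTFW (5 / 3) (S * a) S S ρ g =
      S * (a * (∫ x, ‖g x‖ ^ 2) + (∫ x, ex (ρ x) x) - (∫ x, ρ x) -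
        2 / 5 * ∫ x, ww x ^ (5 / 2 : ℝ)) + D ρ := by
  have i1 := (ints h).1
  obtain ⟨a1, a2, a3, -⟩ := h
  have i3 : Integrable fun x => ρ x ^ (5 / 3 : ℝ) := by
    have := a3.integrable_norm_rpow (by simp) (by simp)
    simpa only [norm_of_nonneg (a1 _), ENNReal.toReal_ofReal (by norm_num : (0 : ℝ) ≤ 5 / 3)]
      using this
  have e : ∀ x, ex (ρ x) x = 3 / 5 * ρ x ^ (5 / 3 : ℝ) - (ρ x / ‖x‖ - ρ x) +
      2 / 5 * ww x ^ (5 / 2 : ℝ) := fun x => by rw [ex]; ring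
  have e' : ∀ x, S / ‖x‖ * ρ x = S * (ρ x / ‖x‖) := fun x => by ring
  have i4 : Integrable fun x => ρ x / ‖x‖ - ρ x := i1.sub a2
  have i5 : Integrable fun x => 3 / 5 * ρ x ^ (5 / 3 : ℝ) - (ρ x / ‖x‖ - ρ x) :=
    (i3.const_mul _).sub i4
  simp only [e, energyTFW, e']
  refine ⟨i5.add (ww_int.const_mul _), ?_⟩
  rw [integral_add i5 (ww_int.const_mul _), integral_sub (i3.const_mul _) i4, integral_sub i1 a2]
  simp only [integral_const_mul]
  ring

theorem gap : ∃ c : ℝ, 0 < c ∧ ∀ ρ g, Adm (5 / 3) ρ g →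
    (∀ x, √(ρ ((0.95 : ℝ) • x)) ≤ (√(ρ ((0.9 : ℝ) • x)) + √(ρ x)) / 2) →
    c ≤ ∫ x, ex (ρ x) x := by
  obtain ⟨y, hy⟩ := exists_norm_eq E3 (c := 1.002) (by norm_num)
  have hv : 0 < volume.real (ball y 0.002) :=
    ENNReal.toReal_pos (measure_ball_pos _ _ (by norm_num)).ne' measure_ball_lt_top.ne
  refine ⟨volume.real (ball y 0.002) * (1 / 10 ^ 11) / 4, by positivity, fun ρ g h H => ?_⟩
  have i := (ex_int h 0 0).1
  have n := fun x => ex_nonneg (h.1 x) x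
  have i1 := i.comp_smul (R := 0.9) (by norm_num)
  have i2 := i.comp_smul (R := 0.95) (by norm_num)
  have h1 := integral_mono ((integrable_indicator_iff measurableSet_ball).mpr (integrableOn_const
    (C := (1 / 10 ^ 11 : ℝ)) (s := ball y 0.002) measure_ball_lt_top.ne)) ((i1.add i2).add i)
    fun x => indicator_apply_le' (fun hx => by
      have b := abs_lt.mp ((abs_norm_sub_norm_le x y).trans_lt (mem_ball_iff_norm.mp hx))
      rw [hy] at b
      have h0 : 0 < ‖x‖ := by linarith [b.1]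
      obtain ⟨u1, v1, a1, b1, c1, d1, e1⟩ := ex_ge (h.1 ((0.9 : ℝ) • x)) ((0.9 : ℝ) • x)
      obtain ⟨u2, v2, a2, b2, c2, d2, e2⟩ := ex_ge (h.1 ((0.95 : ℝ) • x)) ((0.95 : ℝ) • x)
      obtain ⟨u3, v3, a3, b3, c3, d3, e3⟩ := ex_ge (h.1 x) x
      have n1 := n ((0.9 : ℝ) • x)
      have n2 := n ((0.95 : ℝ) • x)
      have n3 := n x
      simp only [Pi.add_apply]
      have f1 : v1 ≤ 0.334 := by
        refine pow_le_pow_iff_left₀ b1 (by norm_num) two_ne_zero |>.mp (d1 ▸ max_le ?_ (by norm_num))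
        rw [norm_smul, norm_of_nonneg (by norm_num), sub_le_iff_le_add, div_le_iff₀ (by positivity)]
        nlinarith [b.1]
      have f2 : 0.22 ≤ v2 := by
        refine pow_le_pow_iff_left₀ (by norm_num) b2 two_ne_zero |>.mp (d2 ▸ le_max_of_le_left ?_)
        rw [norm_smul, norm_of_nonneg (by norm_num), le_sub_iff_add_le, le_div_iff₀ (by positivity)]
        nlinarith [b.2]
      have f3 : v3 = 0 := by
        rw [ww, max_eq_right (sub_nonpos.mpr ((div_le_one h0).mpr (by linarith [b.1])))] at d3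
        exact pow_eq_zero_iff two_ne_zero |>.mp d3.symm
      rcases le_total 0.34 u1 with g1 | g1
      · have k1 := pow_le_pow_left₀ (by norm_num) (show 0.006 ≤ u1 - v1 by linarith) 2
        have k2 := pow_le_pow_left₀ (by norm_num) g1 3
        nlinarith [mul_le_mul k1 k2 (by norm_num) (sq_nonneg _), mul_nonneg (sq_nonneg (u1 - v1))
          (pow_nonneg b1 3)]
      rcases le_total 0.01 u3 with g3 | g3
      · have k2 := pow_le_pow_left₀ (by norm_num) g3 5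
        rw [f3] at e3
        nlinarith
      have k1 : √(ρ ((0.9 : ℝ) • x)) ≤ 0.1983 := by
        refine pow_le_pow_iff_left₀ (sqrt_nonneg _) (by norm_num) two_ne_zero |>.mp ?_
        nlinarith [pow_le_pow_left₀ a1 g1 3]
      have k3 : √(ρ x) ≤ 0.001 := by
        refine pow_le_pow_iff_left₀ (sqrt_nonneg _) (by norm_num) two_ne_zero |>.mp ?_
        nlinarith [pow_le_pow_left₀ a3 g3 3]
      have k2 : u2 ≤ 0.215 := by
        refine pow_le_pow_iff_left₀ a2 (by norm_num) three_ne_zero |>.mp ?_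
        nlinarith [pow_le_pow_left₀ (sqrt_nonneg _) (show √(ρ ((0.95 : ℝ) • x)) ≤ 0.09965 by
          linarith [H x]) 2]
      have k4 := pow_le_pow_left₀ (by norm_num) (show 0.005 ≤ v2 - u2 by linarith) 2
      have k5 := pow_le_pow_left₀ (by norm_num) f2 3
      nlinarith [mul_le_mul k4 k5 (by norm_num) (sq_nonneg _), mul_nonneg (sq_nonneg (u2 - v2))
        (pow_nonneg a2 3)]) fun _ => add_nonneg (add_nonneg (n _) (n _)) (n _)
  rw [integral_indicator_const _ measurableSet_ball, integral_add' (i1.add i2) i,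
    integral_add' i1 i2, Measure.integral_comp_smul volume fun x => ex (ρ x) x,
    Measure.integral_comp_smul volume fun x => ex (ρ x) x] at h1
  have : 0 ≤ ∫ x, ex (ρ x) x := integral_nonneg n
  norm_num at h1 ⊢
  linarith

theorem near {c : ℝ} (hc : 0 < c) : ∃ ρ g, Adm (5 / 3) ρ g ∧ 0 < ∫ x, ρ x ∧
    ∫ x, ex (ρ x) x < c := by
  obtain ⟨H, hH⟩ : ∃ H : ℝ → ℝ → ℝ, ∀ ε r, H ε r = (1 / (r + ε ^ 2) - 1 / (1 + ε ^ 2) + ε ^ 2) ^
    (3 / 4 : ℝ) - (ε ^ 2) ^ (3 / 4 : ℝ) := ⟨_, fun _ _ => rfl⟩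
  have b0 : ∀ ε r : ℝ, 0 < r + ε ^ 2 → r ≤ 1 → 0 ≤ 1 / (r + ε ^ 2) - 1 / (1 + ε ^ 2) :=
    fun ε r h0 h1 => sub_nonneg.mpr (one_div_le_one_div_of_le h0 (by linarith))
  have b1 : ∀ ε r : ℝ, 0 < r + ε ^ 2 → r ≤ 1 → 0 ≤ H ε r := fun ε r h0 h1 => hH ε r ▸
    sub_nonneg.mpr (rpow_le_rpow (sq_nonneg _) (by linarith [b0 ε r h0 h1]) (by norm_num))
  have b2 : ∀ (ε : ℝ) (x : E3), x ≠ 0 → H ε (min ‖x‖ 1) ^ 2 ≤ ww x ^ (3 / 2 : ℝ) := fun ε x hx => by
    have h0 := lt_min (norm_pos_iff.mpr hx) one_pos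
    have h1 : 0 < min ‖x‖ 1 + ε ^ 2 := by positivity
    refine (pow_le_pow_left₀ (b1 _ _ h1 (min_le_right _ _)) (b := ww x ^ (3 / 4 : ℝ)) ?_ 2).trans_eq
      (by rw [← rpow_natCast, ← rpow_mul (show 0 ≤ ww x from le_max_right _ _)]; norm_num)
    rw [hH, sub_le_iff_le_add]
    refine (rpow_add_le_add_rpow (b0 _ _ h1 (min_le_right _ _)) (sq_nonneg _) (by norm_num)
      (by norm_num)).trans (add_le_add_left (rpow_le_rpow (b0 _ _ h1 (min_le_right _ _)) ?_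
        (by norm_num)) _)
    rcases le_total ‖x‖ 1 with h | h
    · rw [min_eq_left h] at h0 ⊢
      refine le_max_of_le_left ?_
      rw [div_sub_div _ _ (by positivity) (by positivity), div_sub_one h0.ne']
      refine div_le_div₀ (by linarith) (by linarith) h0 (by nlinarith [sq_nonneg ε, sq_nonneg (ε ^ 2)])
    · simp [min_eq_right h, ww]
  have h2 : ContinuousAt (fun ε : ℝ => ∫ x : E3, ex (H ε (min ‖x‖ 1) ^ 2) x) 0 := by
    refine continuousAt_of_dominated (bound := fun x => ww x ^ (5 / 2 : ℝ))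
      (Eventually.of_forall fun ε => Measurable.aestronglyMeasurable (by
        simp only [hH, ex, ww]; fun_prop)) (Eventually.of_forall fun ε => ?_) ww_int ?_ <;>
      filter_upwards [Measure.ae_ne volume 0] with x hx
    · rw [norm_of_nonneg (ex_nonneg (sq_nonneg _) _), ex]
      have h3 := rpow_le_rpow (sq_nonneg _) (b2 ε x hx) (by norm_num : (0 : ℝ) ≤ 5 / 3)
      rw [← rpow_mul (show 0 ≤ ww x from le_max_right _ _),
        show (3 / 2 * (5 / 3) : ℝ) = 5 / 2 by norm_num] at h3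
      have h4 : 0 ≤ (1 / ‖x‖ - 1) * H ε (min ‖x‖ 1) ^ 2 := by
        rcases le_total ‖x‖ 1 with h | h
        · exact mul_nonneg (sub_nonneg.mpr (one_le_one_div (norm_pos_iff.mpr hx) h)) (sq_nonneg _)
        · simp [min_eq_right h, hH]
      linarith
    · have h0 := lt_min (norm_pos_iff.mpr hx) one_pos
      simp only [hH, ex]
      fun_prop (disch := first | positivity | exact Or.inr (by norm_num))
  have h3 : ∫ x : E3, ex (H 0 (min ‖x‖ 1) ^ 2) x = 0 := by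
    refine integral_eq_zero_of_ae ((Measure.ae_ne volume 0).mono fun x hx => ?_)
    have w0 : 0 ≤ ww x := le_max_right _ _
    have e : H 0 (min ‖x‖ 1) = ww x ^ (3 / 4 : ℝ) ∧ (1 / ‖x‖ - 1) * ww x ^ (3 / 2 : ℝ) =
        ww x * ww x ^ (3 / 2 : ℝ) := by
      have h0 := norm_pos_iff.mpr hx
      rcases le_total ‖x‖ 1 with h | h
      · rw [ww, max_eq_left (sub_nonneg.mpr (one_le_one_div h0 h)), min_eq_left h]; simp [hH]
      · rw [ww, max_eq_right (sub_nonpos.mpr ((div_le_one h0).mpr h)), min_eq_right h]; simp [hH]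
    simp only [ex, e.1, Pi.zero_apply]
    rw [← rpow_natCast, ← rpow_mul w0, ← rpow_mul w0, show (3 / 4 * (2 : ℕ) : ℝ) = 3 / 2 by norm_num,
      e.2, ← rpow_one_add' w0 (by norm_num)]
    norm_num; ring
  obtain ⟨ε, h5, h6⟩ := (((h2.eventually_lt continuousAt_const (h3.trans_lt hc)).filter_mono
    nhdsWithin_le_nhds).and (self_mem_nhdsWithin (s := Ioi 0))).exists
  replace h6 : 0 < ε := h6
  obtain ⟨L, hL⟩ := ContDiffOn.exists_lipschitzOnWith (f := H ε) (s := Icc 0 1) (n := 1) (by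
    rw [funext (hH ε)]
    refine (ContDiffOn.rpow_const_of_ne (fun r hr => ?_) fun r hr => ?_).sub contDiffOn_const <;>
      have : 0 < r + ε ^ 2 := add_pos_of_nonneg_of_pos hr.1 (by positivity)
    · exact ContDiffAt.contDiffWithinAt (by fun_prop (disch := positivity))
    · exact (add_pos_of_nonneg_of_pos (b0 _ _ this hr.2) (by positivity)).ne')
    one_ne_zero (convex_Icc _ _) isCompact_Icc
  have lip : LipschitzWith (L * 1) fun x : E3 => H ε (min ‖x‖ 1) := lipschitzOnWith_univ.mp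
    (hL.comp (lipschitzWith_one_norm.min_const 1).lipschitzOnWith fun x _ =>
      ⟨le_min (norm_nonneg _) zero_le_one, min_le_right _ _⟩)
  have cs : HasCompactSupport fun x : E3 => H ε (min ‖x‖ 1) :=
    HasCompactSupport.intro (isCompact_closedBall 0 1) fun x hx => by
      rw [mem_closedBall_zero_iff, not_le] at hx
      simp [min_eq_right hx.le, hH]
  have m2 := (cs.fderiv ℝ).memLp_of_bound (μ := volume) (p := 2)
    (measurable_fderiv ℝ _).aestronglyMeasurable _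
    (Eventually.of_forall fun x => norm_fderiv_le_of_lipschitz ℝ lip)
  have c1 := lip.continuous.pow 2
  have c3 : HasCompactSupport fun x : E3 => H ε (min ‖x‖ 1) ^ 2 :=
    cs.comp_left (g := fun t => t ^ 2) (by simp)
  refine ⟨fun x => H ε (min ‖x‖ 1) ^ 2, _, ⟨fun x => sq_nonneg _, c1.integrable_of_hasCompactSupport
    c3, c1.memLp_of_hasCompactSupport c3, m2, ?_⟩, c1.integral_pos_of_hasCompactSupport_nonneg_nonzero
      c3 (fun x => sq_nonneg _) (x := 0) (pow_pos ?_ 2).ne', h5⟩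
  · simp only [fun x : E3 => sqrt_sq (b1 ε (min ‖x‖ 1) (by positivity) (min_le_right _ _))]
    exact lip_weak lip lip.ae_differentiableAt m2
  · rw [hH]
    refine sub_pos.mpr (rpow_lt_rpow (sq_nonneg _) (lt_add_of_pos_left _ (sub_pos.mpr
      (one_div_lt_one_div_of_lt (by positivity) (by simp)))) (by norm_num))

theorem notconv : ∃ A γ z l : ℝ, 0 < A ∧ 0 < γ ∧ 0 < z ∧ 0 < l ∧ ∃ ρ₀ g₀, Adm (5 / 3) ρ₀ g₀ ∧
    ∫ x, ρ₀ x ≤ l ∧ ∀ ρ g, Adm (5 / 3) ρ g → ∫ x, ρ x ≤ l →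
      (∀ x, √(ρ ((0.95 : ℝ) • x)) ≤ (√(ρ ((0.9 : ℝ) • x)) + √(ρ x)) / 2) →
      energyTFW (5 / 3) A γ z ρ₀ g₀ < energyTFW (5 / 3) A γ z ρ g := by
  obtain ⟨c, hc, h1⟩ := gap
  obtain ⟨σ, k, a1, a2, a3⟩ := near (half_pos hc)
  obtain ⟨K, -, h2⟩ := key
  obtain ⟨M, -, h3⟩ := h2 1 1 one_pos one_pos
  have T0 : 0 ≤ ∫ x, ‖k x‖ ^ 2 := integral_nonneg fun x => by positivity
  have D0 := (h3 _ σ k a1).2.1
  obtain ⟨a, ha, b1⟩ : ∃ a, 0 < a ∧ a * ∫ x, ‖k x‖ ^ 2 ≤ c / 4 :=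
    ⟨c / 4 / ((∫ x, ‖k x‖ ^ 2) + 1), by positivity, by
      rw [div_mul_eq_mul_div, div_le_iff₀ (by positivity)]; nlinarith⟩
  obtain ⟨S, hS, b2⟩ : ∃ S, 0 < S ∧ D σ ≤ S * (c / 4) :=
    ⟨(D σ + 1) / (c / 4), by positivity, by rw [div_mul_cancel₀ _ (by positivity)]; linarith⟩
  refine ⟨S * a, S, S, _, by positivity, hS, hS, a2, σ, k, a1, le_rfl, fun ρ g b3 b4 b5 => ?_⟩
  have b6 : 0 ≤ a * ∫ x, ‖g x‖ ^ 2 := mul_nonneg ha.le (integral_nonneg fun x => by positivity)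
  rw [(ex_int a1 a S).2, (ex_int b3 a S).2]
  nlinarith [h1 ρ g b3 b5, (h3 _ ρ g b3).2.1]

end Pool.Agent.H41.TF
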