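import Pool.Agent.H41.CgDefs

set_option autoImplicit false

namespace Pool.Agent.H41.Cg

open Finset

/-- The action of a finitely supported family of weights on a coefficient sequence. -/
def act (φ : ℕ →₀ ℝ) (a : ℕ → ℝ) : ℝ := ∑ n ∈ φ.support, φ n * a n

section space

variable (Φ : Set (ℕ →₀ ℝ))

abbrev EE : Type := lp (fun _ : Φ => ℝ) ⊤

noncomputable def ev (φ : Φ) : EE Φ →L[ℝ] ℝ :=
  LinearMap.mkContinuous
    { toFun := fun f => f φ
      map_add' := fun f g => by simp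
      map_smul' := fun c f => by simp } 1
    (fun f => by
      change ‖f φ‖ ≤ 1 * ‖f‖
      rw [one_mul]
      exact lp.norm_apply_le_norm (by simp) f φ)

theorem ev_apply (φ : Φ) (f : EE Φ) : ev Φ φ f = f φ := rfl

noncomputable def vec (h2 : ∀ φ ∈ Φ, ∀ n, |φ n| ≤ 1) (n : ℕ) : EE Φ :=
  ⟨fun φ => φ.1 n, memℓp_infty ⟨1, by
    rintro _ ⟨φ, rfl⟩
    simpa using h2 φ.1 φ.2 n⟩⟩

theorem vec_apply (h2 : ∀ φ ∈ Φ, ∀ n, |φ n| ≤ 1) (n : ℕ) (φ : Φ) : vec Φ h2 n φ = φ.1 n := rfl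

theorem exists_space (h1 : ∀ n, Finsupp.single n (1 : ℝ) ∈ Φ) (h2 : ∀ φ ∈ Φ, ∀ n, |φ n| ≤ 1) :
    ∃ (X : Type) (_ : NormedAddCommGroup X) (_ : NormedSpace ℝ X) (_ : CompleteSpace X)
      (x : ℕ → X) (xs : ℕ → X →L[ℝ] ℝ), IsMBasis x xs ∧ (∀ n, ‖x n‖ ≤ 1) ∧
      (∀ φ ∈ Φ, ∀ f, |act φ fun n => xs n f| ≤ ‖f‖) ∧
      (∀ f M, 0 ≤ M → (∀ φ ∈ Φ, |act φ fun n => xs n f| ≤ M) → ‖f‖ ≤ M) := by
  let S : Submodule ℝ (EE Φ) := Submodule.span ℝ (Set.range (vec Φ h2))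
  let T : Submodule ℝ (EE Φ) := S.topologicalClosure
  have hT : IsClosed (T : Set (EE Φ)) := S.isClosed_topologicalClosure
  let x : ℕ → T := fun n => ⟨vec Φ h2 n, S.le_topologicalClosure (Submodule.subset_span ⟨n, rfl⟩)⟩
  let xs : ℕ → T →L[ℝ] ℝ := fun n => (ev Φ ⟨Finsupp.single n 1, h1 n⟩).comp T.subtypeL
  have hxs : ∀ n (f : T), xs n f = (f : EE Φ) ⟨Finsupp.single n 1, h1 n⟩ := fun n f => rfl
  have key : ∀ (φ : Φ) (f : T), (f : EE Φ) φ = act φ.1 fun n => xs n f := by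
    intro φ f
    let G : EE Φ →L[ℝ] ℝ :=
      ev Φ φ - ∑ n ∈ φ.1.support, φ.1 n • ev Φ ⟨Finsupp.single n 1, h1 n⟩
    have hS : S ≤ LinearMap.ker (G : EE Φ →ₗ[ℝ] ℝ) := by
      apply Submodule.span_le.2
      rintro _ ⟨j, rfl⟩
      simp only [SetLike.mem_coe, LinearMap.mem_ker, ContinuousLinearMap.coe_coe, G,
        sub_apply, _root_.sum_apply,
        smul_apply, ev_apply, vec_apply, smul_eq_mul, Finsupp.single_apply]
      simp only [mul_ite, mul_one, mul_zero, Finset.sum_ite_eq', Finsupp.mem_support_iff]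
      by_cases h : φ.1 j = 0 <;> simp [h]
    have hTk : T ≤ LinearMap.ker (G : EE Φ →ₗ[ℝ] ℝ) :=
      Submodule.topologicalClosure_minimal S hS G.isClosed_ker
    have h0 := hTk f.2
    simp only [LinearMap.mem_ker, ContinuousLinearMap.coe_coe, G,
      sub_apply, _root_.sum_apply,
      smul_apply, ev_apply, smul_eq_mul] at h0
    simp only [act, hxs]
    linarith
  have hx1 : ∀ n, ‖x n‖ ≤ 1 := by
    intro n
    change ‖vec Φ h2 n‖ ≤ 1
    exact lp.norm_le_of_forall_le zero_le_one fun φ => by simpa [vec_apply] using h2 φ.1 φ.2 n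
  have hle : ∀ φ ∈ Φ, ∀ f : T, |act φ fun n => xs n f| ≤ ‖f‖ := by
    intro φ hφ f
    rw [← key ⟨φ, hφ⟩ f]
    simpa using lp.norm_apply_le_norm (by simp) (f : EE Φ) ⟨φ, hφ⟩
  have hup : ∀ (f : T) M, 0 ≤ M → (∀ φ ∈ Φ, |act φ fun n => xs n f| ≤ M) → ‖f‖ ≤ M := by
    intro f M hM h
    change ‖(f : EE Φ)‖ ≤ M
    exact lp.norm_le_of_forall_le hM fun φ => by
      rw [key φ f]; simpa using h φ.1 φ.2
  refine ⟨T, inferInstance, inferInstance, hT.completeSpace_coe, x, xs, ⟨?_, ?_, ?_, ?_⟩,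
    hx1, hle, hup⟩
  · intro i j
    rw [hxs]
    change (Finsupp.single i (1 : ℝ)) j = _
    simp [Finsupp.single_apply]
  · intro f
    rw [closure_subtype]
    have : ((↑) : T → EE Φ) '' (Submodule.span ℝ (Set.range x) : Set T) = (S : Set (EE Φ)) := by
      have h := Submodule.map_span T.subtype (Set.range x)
      have h' : T.subtype '' Set.range x = Set.range (vec Φ h2) := by
        rw [← Set.range_comp]; rfl
      rw [h'] at h
      have := congrArg (fun U : Submodule ℝ (EE Φ) => (U : Set (EE Φ))) h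
      simpa using this
    rw [this]
    exact f.2
  · intro f hf
    apply norm_le_zero_iff.1
    exact hup f 0 le_rfl fun φ _ => by simp [act, hf]
  · refine ⟨1, fun n => ⟨hx1 n, ?_⟩⟩
    apply ContinuousLinearMap.opNorm_le_bound _ zero_le_one
    intro f
    have := hle _ (h1 n) f
    simpa [act, Finsupp.support_single] using this

end space

end Pool.Agent.H41.Cg
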