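import Pool.Agent.H41.Cg1

set_option autoImplicit false

namespace Pool.Agent.H41.Cg

open Finset

/-- The weight `w` on the block `[s, s + l)`. -/
noncomputable def blk (s l : ℕ) (w : ℝ) : ℕ →₀ ℝ :=
  Finsupp.onFinset (Ico s (s + l)) (fun n => if n ∈ Ico s (s + l) then w else 0)
    (fun n h => by by_contra h'; simp [h'] at h)

theorem blk_apply (s l : ℕ) (w : ℝ) (n : ℕ) :
    blk s l w n = if n ∈ Ico s (s + l) then w else 0 := rfl

theorem act_eq_of_supp (φ : ℕ →₀ ℝ) (a : ℕ → ℝ) (D : Finset ℕ) (h : ∀ n ∉ D, φ n * a n = 0) :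
    act φ a = ∑ n ∈ D, φ n * a n := by
  unfold act
  rw [Finset.sum_subset (s₁ := φ.support) (s₂ := φ.support ∪ D) subset_union_left,
    Finset.sum_subset (s₁ := D) (s₂ := φ.support ∪ D) subset_union_right]
  · intro n _ hn; exact h n hn
  · intro n _ hn; simp [Finsupp.notMem_support_iff.1 hn]

theorem act_blk (s l : ℕ) (w : ℝ) (a : ℕ → ℝ) :
    act (blk s l w) a = w * ∑ n ∈ Ico s (s + l), a n := by
  rw [act_eq_of_supp _ _ (Ico s (s + l)), Finset.mul_sum]
  · exact Finset.sum_congr rfl fun n hn => by rw [blk_apply, if_pos hn]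
  · intro n hn; rw [blk_apply, if_neg hn, zero_mul]

theorem act_add (φ : ℕ →₀ ℝ) (a b : ℕ → ℝ) :
    act φ (fun n => a n + b n) = act φ a + act φ b := by
  simp [act, mul_add, Finset.sum_add_distrib]

theorem act_le (φ : ℕ →₀ ℝ) (u : ℕ → ℝ) (D : Finset ℕ) (c : ℝ) (h0 : ∀ n ∉ D, u n = 0)
    (hc : ∀ n ∈ D, |u n| ≤ c) : |act φ u| ≤ c * ∑ n ∈ D, |φ n| := by
  rw [act_eq_of_supp φ u D fun n hn => by rw [h0 n hn, mul_zero], Finset.mul_sum]
  refine (Finset.abs_sum_le_sum_abs _ _).trans (Finset.sum_le_sum fun n hn => ?_)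
  rw [abs_mul, mul_comm]
  exact mul_le_mul_of_nonneg_right (hc n hn) (abs_nonneg _)

/-- The structure of the norming family at one scale. -/
structure Level (Φ : Set (ℕ →₀ ℝ)) (s q r : ℕ) : Prop where
  r_pos : 1 ≤ r
  r_le : r ≤ q
  s_le : s ≤ q ^ 2
  single : ∀ n, Finsupp.single n (1 : ℝ) ∈ Φ
  le_one : ∀ φ ∈ Φ, ∀ n, |φ n| ≤ 1
  far : ∀ φ : ℕ →₀ ℝ, (∀ n ∈ φ.support, s + 2 * q ^ 3 ≤ n) → φ.support.card ≤ q ^ 3 →
    (∀ n, |φ n| ≤ 1 / (q : ℝ)) → φ ∈ Φ
  blk_mem : blk s (2 * q ^ 3) (1 / r) ∈ Φ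
  cases : ∀ φ ∈ Φ, φ = blk s (2 * q ^ 3) (1 / r) ∨
    ((∀ D : Finset ℕ, D.card ≤ 2 * q ^ 3 → ∑ n ∈ D, |φ n| ≤ 2 * (q : ℝ) ^ 2) ∧
      ∀ D ⊆ Ico s (s + 2 * q ^ 3), ∑ n ∈ D, |φ n| ≤ r)

variable {X : Type} [NormedAddCommGroup X] [NormedSpace ℝ X] {x : ℕ → X} {xs : ℕ → X →L[ℝ] ℝ}

theorem coef (hb : ∀ i j, xs i (x j) = if i = j then 1 else 0) (A : Finset ℕ) (c : ℕ → ℝ)
    (i : ℕ) : xs i (comb x A c) = if i ∈ A then c i else 0 := by
  simp [comb, map_sum, hb]

theorem lower {Φ : Set (ℕ →₀ ℝ)} {s q r : ℕ} (hL : Level Φ s q r)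
    (hb : ∀ i j, xs i (x j) = if i = j then 1 else 0)
    (hle : ∀ φ ∈ Φ, ∀ f, |act φ fun n => xs n f| ≤ ‖f‖)
    (hup : ∀ f M, 0 ≤ M → (∀ φ ∈ Φ, |act φ fun n => xs n f| ≤ M) → ‖f‖ ≤ M) (C : ℝ) (hC : 0 ≤ C)
    (h : GB norm x (fun n => xs n) (q ^ 3) C ∨ LamB norm x (fun n => xs n) (q ^ 3) C) :
    (q : ℝ) ^ 3 ≤ C * r ^ 2 := by
  have hr : (1 : ℝ) ≤ r := by exact_mod_cast hL.r_pos
  have hq : 1 ≤ q := hL.r_pos.trans hL.r_le
  have hq3 : 1 ≤ q ^ 3 := Nat.one_le_pow _ _ hq
  set I := Ico s (s + 2 * q ^ 3) with hI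
  set A := Ico s (s + q ^ 3) with hA
  set f : X := comb x I fun n => if n < s + q ^ 3 then (1 : ℝ) else -1 with hf
  have hcf : ∀ n, xs n f = if n ∈ I then (if n < s + q ^ 3 then (1 : ℝ) else -1) else 0 :=
    fun n => coef hb _ _ n
  have hAI : A ⊆ I := Finset.Ico_subset_Ico le_rfl (by omega)
  have hcA : ∀ n ∈ A, xs n f = 1 := by
    intro n hn
    rw [hcf, if_pos (hAI hn), if_pos (Finset.mem_Ico.1 hn).2]
  have hc1 : ∀ n, |xs n f| ≤ 1 := by
    intro n; rw [hcf]; split_ifs <;> simp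
  have hcard : A.card = q ^ 3 := by simp [hA]
  have hG : Greedy (fun n => ⇑(xs n)) A f := by
    intro n hn k _
    simp only [hcA n hn, Real.norm_eq_abs, abs_one]
    exact hc1 k
  have hfn : ‖f‖ ≤ r := by
    apply hup f r (by positivity)
    intro φ hφ
    rcases hL.cases φ hφ with rfl | ⟨_, h2⟩
    · rw [act_blk]
      have : ∑ n ∈ Ico s (s + 2 * q ^ 3), xs n f = 0 := by
        rw [← Finset.sum_Ico_consecutive _ (show s ≤ s + q ^ 3 by omega)
          (show s + q ^ 3 ≤ s + 2 * q ^ 3 by omega)]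
        have e2 : ∑ n ∈ Ico (s + q ^ 3) (s + 2 * q ^ 3), xs n f
            = ∑ n ∈ Ico (s + q ^ 3) (s + 2 * q ^ 3), (-1 : ℝ) := by
          refine Finset.sum_congr rfl fun n hn => ?_
          have := Finset.mem_Ico.1 hn
          rw [hcf, if_pos (Finset.mem_Ico.2 ⟨by omega, this.2⟩), if_neg (by omega)]
        rw [Finset.sum_congr rfl hcA, e2]
        simp only [Finset.sum_const, Nat.card_Ico]
        rw [show s + 2 * q ^ 3 - (s + q ^ 3) = q ^ 3 by omega, hcard]
        simp
      rw [this]; simp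
    · have := act_le φ (fun n => xs n f) I 1 (fun n hn => by rw [hcf, if_neg hn])
        fun n _ => hc1 n
      linarith [h2 I le_rfl]
  have h1A : (q : ℝ) ^ 3 / r ≤ ‖comb x A fun _ => (1 : ℝ)‖ := by
    have := hle _ hL.blk_mem (comb x A fun _ => (1 : ℝ))
    rw [act_blk] at this
    simp only [coef hb] at this
    rw [← Finset.sum_filter, Finset.filter_mem_eq_inter, Finset.inter_eq_right.2 hAI] at this
    simp only [Finset.sum_const, hcard, nsmul_eq_mul, mul_one] at this
    refine le_trans (le_of_eq ?_) ((le_abs_self _).trans this)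
    push_cast; ring
  have hmain : ‖comb x A fun _ => (1 : ℝ)‖ ≤ C * ‖f‖ := by
    rcases h with h | h
    · have := h f A hG hcard.le
      have e : (comb x A fun n => xs n f) = comb x A fun _ => (1 : ℝ) :=
        Finset.sum_congr rfl fun n hn => by simp only [hcA n hn]
      simpa only [e] using this
    · have := h f A A (fun _ => 1) 1 (by simp) hG rfl hcard.le
        ⟨⟨s, by simp [hA]; omega, by simp [hcA s (by simp [hA]; omega)]⟩, by
          rintro _ ⟨n, hn, rfl⟩
          simp [hcA n hn]⟩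
      simpa using this
  have h3 : (q : ℝ) ^ 3 / r ≤ C * r := h1A.trans (hmain.trans (by gcongr))
  rw [div_le_iff₀ (by positivity)] at h3
  nlinarith

theorem cheb {Φ : Set (ℕ →₀ ℝ)} {s q r : ℕ} (hL : Level Φ s q r)
    (hb : ∀ i j, xs i (x j) = if i = j then 1 else 0)
    (hle : ∀ φ ∈ Φ, ∀ f, |act φ fun n => xs n f| ≤ ‖f‖)
    (hup : ∀ f M, 0 ≤ M → (∀ φ ∈ Φ, |act φ fun n => xs n f| ≤ M) → ‖f‖ ≤ M) :
    ChB norm x (fun n => xs n) (q ^ 3) (7 * (q : ℝ) ^ 2) := by
  classical
  intro f A hT hcard B b hB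
  have hr : (1 : ℝ) ≤ r := by exact_mod_cast hL.r_pos
  have hq : 1 ≤ q := hL.r_pos.trans hL.r_le
  have hq' : (1 : ℝ) ≤ q := by exact_mod_cast hq
  have hrq : (r : ℝ) ≤ q := by exact_mod_cast hL.r_le
  have hq2 : (1 : ℝ) ≤ (q : ℝ) ^ 2 := one_le_pow₀ hq'
  set I := Ico s (s + 2 * q ^ 3) with hI
  have hIc : I.card = 2 * q ^ 3 := by simp [hI]
  set g := f - comb x B b with hg
  set σ := ‖g‖ with hσ
  have hσ0 : 0 ≤ σ := norm_nonneg _
  have hG : ∀ n ∈ A, ∀ k ∉ A, |xs k f| ≤ |xs n f| := by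
    intro n hn k hk
    rcases hT n hn k hk with h | h
    · exact le_of_lt h
    · exact le_of_eq h.1
  have hβ : ∀ n, |xs n g| ≤ σ := by
    intro n
    have := hle _ (hL.single n) g
    simpa [act, Finsupp.support_single] using this
  have hoff : ∀ n ∉ B, xs n g = xs n f := by
    intro n hn
    rw [hg, map_sub, coef hb, if_neg hn, sub_zero]
  have hcd : (B \ A).card ≤ (A \ B).card := by
    have h1 := Finset.card_sdiff_add_card_inter A B
    have h2 := Finset.card_sdiff_add_card_inter B A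
    rw [Finset.inter_comm] at h2
    omega
  have ha : ∀ n ∉ A, |xs n f| ≤ σ := by
    intro n hn
    by_cases hnB : n ∈ B
    · have : 0 < (A \ B).card :=
        lt_of_lt_of_le (Finset.card_pos.2 ⟨n, Finset.mem_sdiff.2 ⟨hnB, hn⟩⟩) hcd
      obtain ⟨j, hj⟩ := Finset.card_pos.1 this
      obtain ⟨hjA, hjB⟩ := Finset.mem_sdiff.1 hj
      exact (hG j hjA n hn).trans (by rw [← hoff j hjB]; exact hβ j)
    · rw [← hoff n hnB]; exact hβ n
  have red : ∀ h : ℕ → ℝ, (∀ n ∉ A, h n = xs n f) →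
      (∀ φ ∈ Φ, |act φ h| ≤ 7 * (q : ℝ) ^ 2 * σ) →
      (⨅ c : ℕ → ℝ, ‖f - comb x A c‖) ≤ 7 * (q : ℝ) ^ 2 * σ := by
    intro h h1 h2
    refine ciInf_le_of_le ⟨0, by rintro _ ⟨c, rfl⟩; exact norm_nonneg _⟩
      (fun n => xs n f - h n) ?_
    apply hup _ _ (by positivity)
    intro φ hφ
    have e : (fun n => xs n (f - comb x A fun n => xs n f - h n)) = h := by
      funext n
      rw [map_sub, coef hb]
      split_ifs with hn
      · ring
      · rw [h1 n hn, sub_zero]
    rw [e]; exact h2 φ hφ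
  have main : ∀ d : ℝ, |d| ≤ 2 * q * σ →
      |∑ n ∈ I \ A, xs n f + ((I ∩ A).card : ℝ) * d| ≤ 2 * (q : ℝ) ^ 2 * σ →
      (⨅ c : ℕ → ℝ, ‖f - comb x A c‖) ≤ 7 * (q : ℝ) ^ 2 * σ := by
    intro d hd hs
    apply red (fun n => if n ∈ A then (if n ∈ I then d else 0) else xs n f)
      (fun n hn => by rw [if_neg hn])
    intro φ hφ
    rcases hL.cases φ hφ with rfl | ⟨h1, h2⟩
    · rw [act_blk, ← hI]
      have e : ∑ n ∈ I, (if n ∈ A then (if n ∈ I then d else 0) else xs n f)
          = ∑ n ∈ I \ A, xs n f + ((I ∩ A).card : ℝ) * d := by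
        rw [← Finset.sum_sdiff (Finset.inter_subset_left : I ∩ A ⊆ I), Finset.sdiff_inter_self_left]
        congr 1
        · exact Finset.sum_congr rfl fun n hn => by rw [if_neg (Finset.mem_sdiff.1 hn).2]
        · rw [Finset.sum_congr rfl (g := fun _ => d) fun n hn => by
            rw [if_pos (Finset.mem_inter.1 hn).2, if_pos (Finset.mem_inter.1 hn).1]]
          simp
      rw [e, abs_mul]
      have : |1 / (r : ℝ)| ≤ 1 := by
        rw [abs_of_nonneg (by positivity)]; exact (div_le_one (by positivity)).2 hr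
      calc _ ≤ 1 * (2 * (q : ℝ) ^ 2 * σ) := by gcongr
        _ ≤ _ := by nlinarith [mul_nonneg (sq_nonneg (q : ℝ)) hσ0]
    · have e : (fun n => if n ∈ A then (if n ∈ I then d else 0) else xs n f)
          = fun n => (xs n g + ((if n ∈ A then 0 else xs n f) - xs n g))
            + (if n ∈ I ∩ A then d else 0) := by
        funext n
        by_cases h1 : n ∈ A <;> by_cases h2 : n ∈ I <;> simp [h1, h2]
      rw [e, act_add, act_add]
      have b1 := hle φ hφ g
      have b2 := act_le φ (fun n => (if n ∈ A then 0 else xs n f) - xs n g) (A ∪ B) (2 * σ)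
        (fun n hn => by
          rw [Finset.mem_union, not_or] at hn
          simp only [if_neg hn.1, hoff n hn.2, sub_self])
        (fun n _ => by
          have := hβ n
          split_ifs with hn
          · rw [zero_sub, abs_neg]; linarith
          · exact (abs_sub _ _).trans (by linarith [ha n hn]))
      have b3 := act_le φ (fun n => if n ∈ I ∩ A then d else 0) (I ∩ A) (2 * q * σ)
        (fun n hn => by simp only [if_neg hn]) (fun n hn => by simpa only [if_pos hn] using hd)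
      have c2 := h1 (A ∪ B) ((Finset.card_union_le _ _).trans (by omega))
      have c3 := (h2 (I ∩ A) Finset.inter_subset_left).trans hrq
      have b2' := b2.trans (mul_le_mul_of_nonneg_left c2 (by positivity))
      have b3' := b3.trans (mul_le_mul_of_nonneg_left c3 (by positivity))
      refine (abs_add_le _ _).trans ((add_le_add_left (abs_add_le _ _) _).trans ?_)
      nlinarith [mul_le_mul_of_nonneg_right hq2 hσ0]
  by_cases h1 : (B \ A).card ≤ 3 * q ^ 2
  · apply red (fun n => if n ∈ A then xs n g else xs n f) (fun n hn => by rw [if_neg hn])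
    intro φ hφ
    have e : (fun n => if n ∈ A then xs n g else xs n f)
        = fun n => xs n g + (if n ∈ A then 0 else xs n f - xs n g) := by
      funext n
      by_cases h1 : n ∈ A <;> simp [h1]
    rw [e, act_add]
    have b1 := hle φ hφ g
    have b2 := act_le φ (fun n => if n ∈ A then 0 else xs n f - xs n g) (B \ A) (2 * σ)
      (fun n hn => by
        split_ifs with hA
        · rfl
        · rw [hoff n fun h => hn (Finset.mem_sdiff.2 ⟨h, hA⟩), sub_self])
      (fun n hn => by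
        have hn' := (Finset.mem_sdiff.1 hn).2
        rw [if_neg hn']
        exact (abs_sub _ _).trans (by linarith [ha n hn', hβ n]))
    have c2 : ∑ n ∈ B \ A, |φ n| ≤ 3 * (q : ℝ) ^ 2 := by
      refine (Finset.sum_le_card_nsmul _ _ 1 fun n _ => hL.le_one φ hφ n).trans ?_
      rw [nsmul_eq_mul, mul_one]
      exact_mod_cast h1
    have b2' := b2.trans (mul_le_mul_of_nonneg_left c2 (by positivity))
    refine (abs_add_le _ _).trans ?_
    nlinarith [mul_le_mul_of_nonneg_right hq2 hσ0]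
  · set R := (A \ B).filter fun n => s + 2 * q ^ 3 ≤ n with hR
    have hsub : A \ B ⊆ range s ∪ (I ∩ A) ∪ R := by
      intro n hn
      have hnA := (Finset.mem_sdiff.1 hn).1
      simp only [Finset.mem_union, Finset.mem_range, Finset.mem_inter, hI, Finset.mem_Ico, hR,
        Finset.mem_filter, hn, hnA, and_true, true_and]
      omega
    have hc := (Finset.card_le_card hsub).trans ((Finset.card_union_le _ _).trans
      (Nat.add_le_add_right (Finset.card_union_le _ _) _))
    rw [Finset.card_range] at hc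
    have hs := hL.s_le
    have hsum : ∀ t : ℝ, 0 ≤ t → (∀ n ∉ A, |xs n f| ≤ t) →
        |∑ n ∈ I \ A, xs n f| ≤ 2 * (q : ℝ) ^ 3 * t := by
      intro t ht h
      refine (Finset.abs_sum_le_sum_abs _ _).trans ((Finset.sum_le_card_nsmul _ _ t
        fun n hn => h n (Finset.mem_sdiff.1 hn).2).trans ?_)
      rw [nsmul_eq_mul]
      gcongr
      have : (I \ A).card ≤ 2 * q ^ 3 := hIc ▸ Finset.card_le_card Finset.sdiff_subset
      exact_mod_cast this
    by_cases h2 : q ^ 2 ≤ (I ∩ A).card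
    · have h2' : (q : ℝ) ^ 2 ≤ (I ∩ A).card := by exact_mod_cast h2
      have hpos : (0 : ℝ) < (I ∩ A).card := by linarith
      apply main (-(∑ n ∈ I \ A, xs n f) / (I ∩ A).card)
      · rw [abs_div, abs_neg, abs_of_pos hpos, div_le_iff₀ hpos]
        refine (hsum σ hσ0 ha).trans ?_
        calc 2 * (q : ℝ) ^ 3 * σ = 2 * q * σ * (q : ℝ) ^ 2 := by ring
          _ ≤ _ := by gcongr
      · rw [mul_div_cancel₀ _ hpos.ne', add_neg_cancel, abs_zero]; positivity
    · have h3 : q ^ 2 ≤ R.card := by omega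
      have h3' : (q : ℝ) ^ 2 ≤ R.card := by exact_mod_cast h3
      let φ : ℕ →₀ ℝ := Finsupp.onFinset R
        (fun n => if n ∈ R then (if 0 ≤ xs n g then 1 / (q : ℝ) else -(1 / q)) else 0)
        (fun n h => by by_contra h'; simp [h'] at h)
      have hφa : ∀ n, φ n =
          if n ∈ R then (if 0 ≤ xs n g then 1 / (q : ℝ) else -(1 / q)) else 0 := fun n => rfl
      have hφs : φ.support ⊆ R := Finsupp.support_onFinset_subset
      have hRA : R ⊆ A := (Finset.filter_subset _ _).trans Finset.sdiff_subset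
      have hφ : φ ∈ Φ := by
        apply hL.far
        · intro n hn; exact (Finset.mem_filter.1 (hφs hn)).2
        · exact (Finset.card_le_card (hφs.trans hRA)).trans hcard.le
        · intro n
          rw [hφa]
          split_ifs <;> simp
      have hact : act φ (fun n => xs n g) = ∑ n ∈ R, |xs n g| / q := by
        rw [act_eq_of_supp _ _ R fun n hn => by rw [hφa, if_neg hn, zero_mul]]
        refine Finset.sum_congr rfl fun n hn => ?_
        rw [hφa, if_pos hn]
        split_ifs with h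
        · rw [abs_of_nonneg h]; ring
        · rw [abs_of_neg (not_le.1 h)]; ring
      have ht : ∀ k ∉ A, |xs k f| ≤ σ / q := by
        intro k hk
        have e1 := (le_abs_self _).trans (hle φ hφ g)
        rw [hact] at e1
        have e2 : R.card • (|xs k f| / q) ≤ ∑ n ∈ R, |xs n g| / q := by
          apply Finset.card_nsmul_le_sum
          intro n hn
          have hn' := Finset.mem_sdiff.1 (Finset.mem_filter.1 hn).1
          rw [hoff n hn'.2]
          exact div_le_div_of_nonneg_right (hG n hn'.1 k hk) (by positivity)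
        rw [nsmul_eq_mul] at e2
        have e3 : (q : ℝ) ^ 2 * (|xs k f| / q) ≤ σ :=
          le_trans (by gcongr) (e2.trans e1)
        rw [le_div_iff₀ (by positivity)]
        calc |xs k f| * q = (q : ℝ) ^ 2 * (|xs k f| / q) := by field_simp
          _ ≤ σ := e3
      apply main 0
      · rw [abs_zero]; positivity
      · rw [mul_zero, add_zero]
        refine (hsum _ (by positivity) ht).trans (le_of_eq ?_)
        field_simp

end Pool.Agent.H41.Cg
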