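import Pool.Agent.H41.Cg2

set_option autoImplicit false

namespace Pool.Agent.H41.Cg

open Finset
open scoped NNReal ENNReal

def ss : ℕ → ℕ
  | 0 => 0
  | k + 1 => ss k + 2 * ((ss k + 1) ^ 3) ^ 3

def qq (k : ℕ) : ℕ := (ss k + 1) ^ 3

theorem ss_succ (k : ℕ) : ss (k + 1) = ss k + 2 * qq k ^ 3 := rfl

theorem qq_pos (k : ℕ) : 1 ≤ qq k := Nat.one_le_pow _ _ (Nat.succ_pos _)

theorem ss_strictMono : StrictMono ss := strictMono_nat_of_lt_succ fun k => by
  have := Nat.one_le_pow 3 _ (qq_pos k)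
  rw [ss_succ]; omega

theorem qq_mono : Monotone qq := fun _ _ h =>
  Nat.pow_le_pow_left (Nat.succ_le_succ (ss_strictMono.monotone h)) 3

theorem r_le_qq (k : ℕ) : ss k + 1 ≤ qq k := Nat.le_self_pow (by norm_num) _

theorem qq_sq_le (k : ℕ) : qq k ^ 2 ≤ qq k ^ 3 := Nat.pow_le_pow_right (qq_pos k) (by norm_num)

theorem qq_le_sq (k : ℕ) : qq k ≤ qq k ^ 2 := Nat.le_self_pow (by norm_num) _

/-- The norming family using the scales in `J`. -/
def Fam (J : Set ℕ) : Set (ℕ →₀ ℝ) :=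
  {φ | (∃ n, φ = Finsupp.single n 1) ∨
    (∃ i ∈ J, (∀ n ∈ φ.support, ss (i + 1) ≤ n) ∧ φ.support.card ≤ qq i ^ 3 ∧
      ∀ n, |φ n| ≤ 1 / (qq i : ℝ)) ∨
    ∃ j ∈ J, φ = blk (ss j) (2 * qq j ^ 3) (1 / ((ss j + 1 : ℕ) : ℝ))}

theorem sum_le_supp (φ : ℕ →₀ ℝ) (D E : Finset ℕ) (hE : φ.support ⊆ E) (c : ℝ) (hc0 : 0 ≤ c)
    (hc : ∀ n, |φ n| ≤ c) : ∑ n ∈ D, |φ n| ≤ E.card * c := by
  have : ∑ n ∈ D, |φ n| = ∑ n ∈ D ∩ E, |φ n| := by
    symm
    apply Finset.sum_subset Finset.inter_subset_left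
    intro n hn hn'
    have : n ∉ φ.support := fun h => hn' (Finset.mem_inter.2 ⟨hn, hE h⟩)
    simp [Finsupp.notMem_support_iff.1 this]
  rw [this]
  refine (Finset.sum_le_card_nsmul _ _ c fun n _ => hc n).trans ?_
  rw [nsmul_eq_mul]
  gcongr
  exact Finset.inter_subset_right

theorem sum_le_card (φ : ℕ →₀ ℝ) (D : Finset ℕ) (c : ℝ)
    (hc : ∀ n, |φ n| ≤ c) : ∑ n ∈ D, |φ n| ≤ D.card * c := by
  refine (Finset.sum_le_card_nsmul _ _ c fun n _ => hc n).trans ?_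
  rw [nsmul_eq_mul]

theorem sum_single (n : ℕ) (D : Finset ℕ) : ∑ j ∈ D, |Finsupp.single n (1 : ℝ) j| ≤ 1 := by
  have := sum_le_supp (Finsupp.single n (1 : ℝ)) D {n} Finsupp.support_single_subset 1 zero_le_one
    fun j => by rw [Finsupp.single_apply]; split_ifs <;> simp
  simpa using this

theorem blk_abs (s l r : ℕ) (n : ℕ) : |blk s l (1 / (r : ℝ)) n| ≤ 1 / (r : ℝ) := by
  rw [blk_apply]; split_ifs <;> simp

theorem inv_le_one' (r : ℕ) (hr : 1 ≤ r) : 1 / (r : ℝ) ≤ 1 := by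
  have : (1 : ℝ) ≤ r := by exact_mod_cast hr
  exact (div_le_one (by positivity)).2 this

theorem blk_supp (s l : ℕ) (w : ℝ) : (blk s l w).support ⊆ Ico s (s + l) :=
  Finsupp.support_onFinset_subset

theorem fam_le_one (J : Set ℕ) : ∀ φ ∈ Fam J, ∀ n, |φ n| ≤ 1 := by
  rintro φ (⟨j, rfl⟩ | ⟨i, _, _, _, h⟩ | ⟨j, _, rfl⟩) n
  · rw [Finsupp.single_apply]; split_ifs <;> simp
  · exact (h n).trans (inv_le_one' _ (qq_pos i))
  · exact (blk_abs _ _ _ _).trans (inv_le_one' _ (by omega))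

theorem far_bound (φ : ℕ →₀ ℝ) (D : Finset ℕ) (q r : ℕ) (hq : 1 ≤ q) (hqr : q ≤ r)
    (hD : D.card ≤ 2 * q ^ 3) (h : ∀ n, |φ n| ≤ 1 / (r : ℝ)) :
    ∑ n ∈ D, |φ n| ≤ 2 * (q : ℝ) ^ 2 := by
  have hq' : (1 : ℝ) ≤ q := by exact_mod_cast hq
  have hqr' : (q : ℝ) ≤ r := by exact_mod_cast hqr
  have hD' : (D.card : ℝ) ≤ 2 * (q : ℝ) ^ 3 := by exact_mod_cast hD
  calc _ ≤ D.card * (1 / (r : ℝ)) := sum_le_card φ D _ h
    _ ≤ (2 * (q : ℝ) ^ 3) * (1 / (q : ℝ)) := by gcongr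
    _ = _ := by field_simp

theorem level (J : Set ℕ) (k : ℕ) (hk : k ∈ J) : Level (Fam J) (ss k) (qq k) (ss k + 1) where
  r_pos := by omega
  r_le := r_le_qq k
  s_le := by have := r_le_qq k; have := qq_le_sq k; omega
  single := fun n => Or.inl ⟨n, rfl⟩
  le_one := fam_le_one J
  far := fun φ h1 h2 h3 => Or.inr (Or.inl ⟨k, hk, h1, h2, h3⟩)
  blk_mem := Or.inr (Or.inr ⟨k, hk, rfl⟩)
  cases := by
    have hq : (1 : ℝ) ≤ qq k := by exact_mod_cast qq_pos k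
    have hq2 : (1 : ℝ) ≤ (qq k : ℝ) ^ 2 := one_le_pow₀ hq
    rintro φ (⟨j, rfl⟩ | ⟨i, _, h1, h2, h3⟩ | ⟨j, _, rfl⟩)
    · refine Or.inr ⟨fun D _ => (sum_single _ _).trans (by linarith),
        fun D _ => (sum_single _ _).trans ?_⟩
      exact_mod_cast Nat.succ_pos _
    · have hqi : (1 : ℝ) ≤ qq i := by exact_mod_cast qq_pos i
      have hb : ∀ D : Finset ℕ, ∑ n ∈ D, |φ n| ≤ (qq i : ℝ) ^ 2 := by
        intro D
        have h2' : (φ.support.card : ℝ) ≤ (qq i : ℝ) ^ 3 := by exact_mod_cast h2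
        calc _ ≤ φ.support.card * (1 / (qq i : ℝ)) :=
              sum_le_supp φ D _ le_rfl _ (by positivity) h3
          _ ≤ (qq i : ℝ) ^ 3 * (1 / (qq i : ℝ)) := by gcongr
          _ = _ := by field_simp
      refine Or.inr ⟨fun D hD => ?_, fun D hD => ?_⟩
      · rcases le_total i k with h | h
        · have : (qq i : ℝ) ≤ qq k := by exact_mod_cast qq_mono h
          have : (qq i : ℝ) ^ 2 ≤ (qq k : ℝ) ^ 2 := by gcongr
          linarith [hb D]
        · exact far_bound φ D _ _ (qq_pos k) (qq_mono h) hD h3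
      · rcases lt_or_ge i k with h | h
        · refine (hb D).trans ?_
          have e1 := ss_strictMono.monotone (show i + 1 ≤ k from h)
          have e2 := ss_succ i
          have e3 := qq_sq_le i
          have : qq i ^ 2 ≤ ss k + 1 := by omega
          exact_mod_cast this
        · rw [Finset.sum_eq_zero]
          · positivity
          · intro n hn
            have e0 := (Finset.mem_Ico.1 (hD hn)).2
            have e1 := ss_strictMono.monotone (show k + 1 ≤ i + 1 by omega)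
            have e2 := ss_succ k
            have : n ∉ φ.support := fun h => by have := h1 n h; omega
            simp [Finsupp.notMem_support_iff.1 this]
    · rcases lt_trichotomy j k with h | rfl | h
      · have e1 := ss_strictMono.monotone (show j + 1 ≤ k from h)
        have e2 := ss_succ j
        refine Or.inr ⟨fun D _ => ?_, fun D hD => ?_⟩
        · refine (sum_le_supp _ D _ (blk_supp _ _ _) 1 zero_le_one fun n =>
            (blk_abs _ _ _ _).trans (inv_le_one' _ (by omega))).trans ?_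
          have e3 := r_le_qq k
          have e4 := qq_le_sq k
          have : (Ico (ss j) (ss j + 2 * qq j ^ 3)).card ≤ 2 * qq k ^ 2 := by
            rw [Nat.card_Ico]; omega
          rw [mul_one]
          exact_mod_cast this
        · rw [Finset.sum_eq_zero]
          · positivity
          · intro n hn
            have e0 := (Finset.mem_Ico.1 (hD hn)).1
            rw [blk_apply, if_neg (by rw [Finset.mem_Ico]; omega), abs_zero]
      · exact Or.inl rfl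
      · have e1 := ss_strictMono.monotone (show k + 1 ≤ j from h)
        have e2 := ss_succ k
        have e3 := qq_sq_le k
        have e4 := qq_le_sq k
        refine Or.inr ⟨fun D hD => ?_, fun D hD => ?_⟩
        · exact far_bound _ D _ (ss j + 1) (qq_pos k) (by omega) hD (blk_abs _ _ _)
        · rw [Finset.sum_eq_zero]
          · positivity
          · intro n hn
            have e0 := (Finset.mem_Ico.1 (hD hn)).2
            rw [blk_apply, if_neg (by rw [Finset.mem_Ico]; omega), abs_zero]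

theorem least_le {P : ℝ → Prop} {L : ℝ≥0} (h : P L) : least P ≤ L := iInf₂_le L h

theorem le_least {P : ℝ → Prop} {T : ℝ≥0} (h : ∀ C : ℝ≥0, P C → T ≤ C) : (T : ℝ≥0∞) ≤ least P :=
  le_iInf₂ fun C hC => ENNReal.coe_le_coe.2 (h C hC)

variable {X : Type} [NormedAddCommGroup X] [NormedSpace ℝ X] {x : ℕ → X} {xs : ℕ → X →L[ℝ] ℝ}

theorem gap {J : Set ℕ} (hb : ∀ i j, xs i (x j) = if i = j then 1 else 0)
    (hle : ∀ φ ∈ Fam J, ∀ f, |act φ fun n => xs n f| ≤ ‖f‖)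
    (hup : ∀ f M, 0 ≤ M → (∀ φ ∈ Fam J, |act φ fun n => xs n f| ≤ M) → ‖f‖ ≤ M)
    (C : ℝ≥0) (k : ℕ) (hk : k ∈ J) (hC : 7 * (C : ℝ) ≤ k) :
    C * Lch norm x (fun n => xs n) (qq k ^ 3) <
      min (gm norm x (fun n => xs n) (qq k ^ 3)) (lam norm x (fun n => xs n) (qq k ^ 3)) := by
  have hL := level J k hk
  have h1 : Lch norm x (fun n => xs n) (qq k ^ 3) ≤ ((7 * (qq k : ℝ≥0) ^ 2 : ℝ≥0) : ℝ≥0∞) :=
    least_le (by simpa using cheb hL hb hle hup)
  have hr : (k : ℝ) < ((ss k + 1 : ℕ) : ℝ) := by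
    have := ss_strictMono.le_apply (x := k)
    exact_mod_cast Nat.lt_succ_of_le this
  have hq : (qq k : ℝ) = ((ss k + 1 : ℕ) : ℝ) ^ 3 := by simp [qq]
  set r : ℝ := ((ss k + 1 : ℕ) : ℝ) with hrdef
  have hr0 : 0 < r := lt_of_le_of_lt (Nat.cast_nonneg k) hr
  have h2 : ∀ D : ℝ≥0, (qq k : ℝ) ^ 3 ≤ D * r ^ 2 →
      ((ss k + 1 : ℕ) : ℝ≥0) * (qq k : ℝ≥0) ^ 2 ≤ D := by
    intro D hD
    rw [← NNReal.coe_le_coe]
    push_cast
    have : r * (qq k : ℝ) ^ 2 ≤ D := by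
      apply le_of_mul_le_mul_right _ (pow_pos hr0 2)
      refine le_trans (le_of_eq ?_) hD
      rw [hq]; ring
    simpa [hrdef] using this
  have h3 : C * (7 * (qq k : ℝ≥0) ^ 2) < ((ss k + 1 : ℕ) : ℝ≥0) * (qq k : ℝ≥0) ^ 2 := by
    rw [← NNReal.coe_lt_coe]
    have hq0 : (0 : ℝ) < (qq k : ℝ) ^ 2 := by rw [hq]; positivity
    have : (C : ℝ) * (7 * (qq k : ℝ) ^ 2) < r * (qq k : ℝ) ^ 2 := by nlinarith
    simpa [hrdef] using this
  calc (C : ℝ≥0∞) * _ ≤ C * ((7 * (qq k : ℝ≥0) ^ 2 : ℝ≥0) : ℝ≥0∞) := by gcongr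
    _ < ((((ss k + 1 : ℕ) : ℝ≥0) * (qq k : ℝ≥0) ^ 2 : ℝ≥0) : ℝ≥0∞) := by
        rw [← ENNReal.coe_mul]; exact ENNReal.coe_lt_coe.2 h3
    _ ≤ _ := le_min
        (le_least fun D hD => h2 D (lower hL hb hle hup D D.2 (Or.inl hD)))
        (le_least fun D hD => h2 D (lower hL hb hle hup D D.2 (Or.inr hD)))

theorem q1_no : ∃ (X : Type) (_ : NormedAddCommGroup X) (_ : NormedSpace ℝ X)
    (_ : CompleteSpace X) (x : ℕ → X) (xs : ℕ → X →L[ℝ] ℝ), IsMBasis x xs ∧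
    ∀ C : ℝ≥0, ∃ m : ℕ, 1 ≤ m ∧ C * Lch norm x (fun n => xs n) m <
      min (gm norm x (fun n => xs n) m) (lam norm x (fun n => xs n) m) := by
  obtain ⟨X, i1, i2, i3, x, xs, hM, -, hle, hup⟩ :=
    exists_space (Fam Set.univ) (fun n => Or.inl ⟨n, rfl⟩) (fam_le_one _)
  refine ⟨X, i1, i2, i3, x, xs, hM, fun C => ?_⟩
  exact ⟨_, Nat.one_le_pow _ _ (qq_pos _),
    gap hM.biorth hle hup C ⌈7 * (C : ℝ)⌉₊ trivial (Nat.le_ceil _)⟩

theorem q2_uniform_no (C : ℝ≥0) : ∃ (X : Type) (_ : NormedAddCommGroup X) (_ : NormedSpace ℝ X)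
    (_ : CompleteSpace X) (x : ℕ → X) (xs : ℕ → X →L[ℝ] ℝ), IsSchauder x xs ∧
    ∃ m : ℕ, 1 ≤ m ∧ C * Lch norm x (fun n => xs n) m <
      min (gm norm x (fun n => xs n) m) (lam norm x (fun n => xs n) m) := by
  set k := ⌈7 * (C : ℝ)⌉₊
  obtain ⟨X, i1, i2, i3, x, xs, hM, -, hle, hup⟩ :=
    exists_space (Fam {k}) (fun n => Or.inl ⟨n, rfl⟩) (fam_le_one _)
  refine ⟨X, i1, i2, i3, x, xs, ⟨hM, 2 * (qq k : ℝ) ^ 3, fun n f => ?_⟩, _,
    Nat.one_le_pow _ _ (qq_pos _), gap hM.biorth hle hup C k rfl (Nat.le_ceil _)⟩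
  have hq : (1 : ℝ) ≤ (qq k : ℝ) ^ 3 := one_le_pow₀ (by exact_mod_cast qq_pos k)
  apply hup _ _ (by positivity)
  intro φ hφ
  have hc : ∀ j, |xs j f| ≤ ‖f‖ := fun j => by
    simpa [act, Finsupp.support_single] using hle _ (Or.inl ⟨j, rfl⟩) f
  have h1 := act_le φ (fun j => xs j (comb x (range n) fun i => xs i f)) (range n) ‖f‖
    (fun j hj => by rw [coef hM.biorth, if_neg hj])
    (fun j hj => by rw [coef hM.biorth, if_pos hj]; exact hc j)
  refine h1.trans ?_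
  rw [mul_comm]
  gcongr
  have h0 := fam_le_one _ φ hφ
  rcases hφ with ⟨j, rfl⟩ | ⟨i, rfl, _, h2, _⟩ | ⟨j, rfl, rfl⟩
  · linarith [sum_single j (range n)]
  · have h2' : (φ.support.card : ℝ) ≤ (qq k : ℝ) ^ 3 := by exact_mod_cast h2
    linarith [sum_le_supp φ (range n) _ le_rfl 1 zero_le_one h0]
  · have := sum_le_supp _ (range n) _ (blk_supp _ _ _) 1 zero_le_one h0
    simpa using this

end Pool.Agent.H41.Cg
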