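import Pool.Agent.H41.Cg3

set_option autoImplicit false

namespace Pool.Agent.H41.Cg

open Finset
open scoped NNReal ENNReal

variable {𝕜 X : Type} [RCLike 𝕜] [AddCommGroup X] [Module 𝕜 X]

/-- Working hypotheses: quasi-norm with modulus `κ`, bounded system, bounded interval
projections. -/
structure Hyp (N : X → ℝ) (x : ℕ → X) (xs : ℕ → X →ₗ[𝕜] 𝕜) (κ M K : ℝ) : Prop where
  nonneg : ∀ f, 0 ≤ N f
  smul : ∀ (c : 𝕜) (f : X), N (c • f) = ‖c‖ * N f
  tri : ∀ f g, N (f + g) ≤ κ * (N f + N g)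
  one_le : 1 ≤ κ
  M_pos : 0 ≤ M
  K_pos : 0 < K
  biorth : ∀ i j, xs i (x j) = if i = j then 1 else 0
  bdd : ∀ n, N (x n) ≤ M
  dual_bdd : ∀ n f, ‖xs n f‖ ≤ M * N f
  proj : ∀ a b f, N (comb x (Ico a b) fun i => xs i f) ≤ K * N f

variable {N : X → ℝ} {x : ℕ → X} {xs : ℕ → X →ₗ[𝕜] 𝕜} {κ M K : ℝ}

theorem Hyp.coef (H : Hyp N x xs κ M K) (A : Finset ℕ) (c : ℕ → 𝕜) (i : ℕ) :
    xs i (comb x A c) = if i ∈ A then c i else 0 := by
  simp [comb, map_sum, H.biorth]

theorem Hyp.neg (H : Hyp N x xs κ M K) (f : X) : N (-f) = N f := by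
  have := H.smul (-1) f
  simpa using this

theorem Hyp.sub (H : Hyp N x xs κ M K) (f g : X) : N (f - g) ≤ κ * (N f + N g) := by
  rw [sub_eq_add_neg, ← H.neg g]; exact H.tri _ _

theorem comb_congr {A : Finset ℕ} {c d : ℕ → 𝕜} (h : ∀ n ∈ A, c n = d n) :
    comb x A c = comb x A d := Finset.sum_congr rfl fun n hn => by rw [h n hn]

theorem comb_union {A B : Finset ℕ} (h : Disjoint A B) (c : ℕ → 𝕜) :
    comb x (A ∪ B) c = comb x A c + comb x B c := Finset.sum_union h

theorem comb_smul (A : Finset ℕ) (t : 𝕜) (c : ℕ → 𝕜) :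
    comb x A (fun n => t * c n) = t • comb x A c := by
  simp [comb, Finset.smul_sum, mul_smul]

theorem comb_ite {E I : Finset ℕ} (h : E ⊆ I) (c : ℕ → 𝕜) :
    comb x I (fun n => if n ∈ E then c n else 0) = comb x E c := by
  unfold comb
  rw [← Finset.sum_subset h fun n _ hn => by simp [hn]]
  exact Finset.sum_congr rfl fun n hn => by simp [hn]

theorem Hyp.key (H : Hyp N x xs κ M K) {m : ℕ} {L : ℝ} (hL0 : 0 ≤ L)
    (hL : ChB N x (fun n => xs n) m L) (a b : ℕ) (g : X) (S B : Finset ℕ) (c : ℕ → 𝕜)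
    (hS : Disjoint S (Ico a b)) (hm : S.card ≤ m) (hB : B.card ≤ S.card)
    (hG : Greedy (fun n => ⇑(xs n)) S g) :
    N (comb x (Ico a b) fun i => xs i g) ≤ K * κ * L * N (g - comb x B c) := by
  classical
  have hK := H.K_pos
  have hκ : 0 < κ := lt_of_lt_of_le one_pos H.one_le
  obtain ⟨e, he⟩ : ∃ e, ∀ k ∈ S ∪ B ∪ range b, k < e :=
    ⟨(S ∪ B ∪ range b).sup id + 1, fun k hk => Nat.lt_succ_of_le (Finset.le_sup (f := id) hk)⟩
  set D := Ico e (e + (m - S.card)) with hD
  have hDe : ∀ k ∈ D, e ≤ k := fun k hk => (Finset.mem_Ico.1 hk).1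
  have hDc : D.card = m - S.card := by simp [hD]
  have hSD : Disjoint S D := Finset.disjoint_left.2 fun k h1 h2 => by
    have := he k (by simp [h1]); have := hDe k h2; omega
  have hBD : Disjoint B D := Finset.disjoint_left.2 fun k h1 h2 => by
    have := he k (by simp [h1]); have := hDe k h2; omega
  set u : ℕ → 𝕜 := fun n => if xs n g = 0 then 1 else xs n g with hu
  set T : ℝ := M * N g + 1 with hT
  set d : ℕ → 𝕜 := fun n => (T : 𝕜) - xs n g with hd
  have hη : ∀ η : ℝ, 0 < η → N (comb x (Ico a b) fun i => xs i g) ≤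
      K * κ * L * N (g - comb x B c) + η * (K * κ * L * N (comb x S u)) := by
    intro η hη
    set g' := g + (η : 𝕜) • comb x S u + comb x D d with hg'
    have hc : ∀ n, xs n g' =
        xs n g + η * (if n ∈ S then u n else 0) + (if n ∈ D then d n else 0) := by
      intro n; simp only [hg', map_add, map_smul, H.coef, smul_eq_mul]
    have hout : ∀ k ∉ S ∪ D, xs k g' = xs k g := by
      intro k hk
      rw [Finset.mem_union, not_or] at hk
      rw [hc, if_neg hk.1, if_neg hk.2]; simp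
    have hTGA : TGA (fun n => ⇑(xs n)) (S ∪ D) g' := by
      intro n hn k hk
      left
      change ‖xs k g'‖ < ‖xs n g'‖
      rw [hout k hk]
      rcases Finset.mem_union.1 hn with hn | hn
      · have h1 : ‖xs k g‖ ≤ ‖xs n g‖ := hG n hn k fun h => hk (Finset.mem_union_left _ h)
        refine lt_of_le_of_lt h1 ?_
        rw [hc, if_pos hn, if_neg (Finset.disjoint_left.1 hSD hn), add_zero]
        by_cases h0 : xs n g = 0
        · simp [hu, h0, hη.ne']
        · have : xs n g + η * u n = ((1 + η : ℝ) : 𝕜) * xs n g := by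
            simp only [hu, if_neg h0]; push_cast; ring
          rw [this, norm_mul, RCLike.norm_ofReal, abs_of_pos (by linarith)]
          nlinarith [norm_pos_iff.2 h0]
      · rw [hc, if_pos hn, if_neg (Finset.disjoint_right.1 hSD hn)]
        have : xs n g + η * 0 + d n = (T : 𝕜) := by simp [hd]
        rw [this, RCLike.norm_ofReal]
        have := H.dual_bdd k g
        exact lt_of_lt_of_le (by linarith) (le_abs_self T)
    have h1 := hL g' (S ∪ D) hTGA (by rw [Finset.card_union_of_disjoint hSD]; omega) (B ∪ D)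
      (fun n => if n ∈ D then d n else c n) (by rw [Finset.card_union_of_disjoint hBD]; omega)
    have e1 : g' - comb x (B ∪ D) (fun n => if n ∈ D then d n else c n)
        = (g - comb x B c) + (η : 𝕜) • comb x S u := by
      rw [comb_union hBD, comb_congr (A := B) (d := c) fun n hn => by
        rw [if_neg (Finset.disjoint_left.1 hBD hn)],
        comb_congr (A := D) (d := d) fun n hn => by rw [if_pos hn], hg']
      abel
    have h2 : N (comb x (Ico a b) fun i => xs i g) / K ≤ ⨅ c' : ℕ → 𝕜, N (g' - comb x (S ∪ D) c') := by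
      apply le_ciInf
      intro c'
      rw [div_le_iff₀ hK, mul_comm]
      refine le_trans (le_of_eq ?_) (H.proj a b _)
      congr 1
      refine comb_congr fun n hn => ?_
      have hn' : n ∉ S ∪ D := by
        rw [Finset.mem_union, not_or]
        refine ⟨Finset.disjoint_right.1 hS hn, fun h => ?_⟩
        have := he n (by simp [(Finset.mem_Ico.1 hn).2]); have := hDe n h; omega
      rw [map_sub, H.coef, if_neg hn', sub_zero, hout n hn']
    have h3 := h2.trans h1
    rw [e1, div_le_iff₀ hK] at h3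
    have h4 := H.tri (g - comb x B c) ((η : 𝕜) • comb x S u)
    rw [H.smul, RCLike.norm_ofReal, abs_of_pos hη] at h4
    calc _ ≤ _ := h3
      _ ≤ L * (κ * (N (g - comb x B c) + η * N (comb x S u))) * K := by gcongr
      _ = _ := by ring
  apply le_of_forall_pos_le_add
  intro δ hδ
  set Z := K * κ * L * N (comb x S u) with hZ
  have hZ0 : 0 ≤ Z := by have := H.nonneg (comb x S u); positivity
  refine (hη (δ / (Z + 1)) (by positivity)).trans (add_le_add_right ?_ _)
  rw [div_mul_eq_mul_div, div_le_iff₀ (by positivity)]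
  nlinarith

theorem Hyp.one_le_L (H : Hyp N x xs κ M K) {m : ℕ} {L : ℝ} (hL0 : 0 ≤ L)
    (hL : ChB N x (fun n => xs n) m L) : 1 ≤ K * κ * L := by
  have h := H.key hL0 hL 0 1 (x 0) ∅ ∅ 0 (by simp) (by simp) le_rfl (by intro n hn; simp at hn)
  have h1 := H.dual_bdd 0 (x 0)
  simp only [comb, Nat.Ico_zero_eq_range, Finset.range_one, Finset.sum_singleton, H.biorth,
    if_true, one_smul, Finset.sum_empty, sub_zero, norm_one] at h h1
  have h0 : 0 < N (x 0) := lt_of_le_of_ne (H.nonneg _) fun h0 => by rw [← h0] at h1; linarith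
  exact le_of_mul_le_mul_right (by linarith) h0

theorem Hyp.gl (H : Hyp N x xs κ M K) {m : ℕ} {L : ℝ} (hL0 : 0 ≤ L)
    (hL : ChB N x (fun n => xs n) m L) (f : X) (A : Finset ℕ)
    (hG : Greedy (fun n => ⇑(xs n)) A f) (hm : A.card ≤ m) (a b : ℕ)
    (h2 : 2 * (A ∩ Ico a b).card ≤ A.card) :
    N (comb x (A ∩ Ico a b) fun n => xs n f) ≤ κ * (1 + K) * (K * κ * L) * N f := by
  set E := A ∩ Ico a b with hE
  set g := f - comb x E fun n => xs n f with hg
  have hc : ∀ n, xs n g = xs n f - if n ∈ E then xs n f else 0 := by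
    intro n; rw [hg, map_sub, H.coef]
  have hcd : (A \ Ico a b).card + E.card = A.card := Finset.card_sdiff_add_card_inter A (Ico a b)
  have hEI : E ⊆ Ico a b := Finset.inter_subset_right
  have h := H.key hL0 hL a b g (A \ Ico a b) E (fun n => -1 * xs n f) Finset.sdiff_disjoint
    ((Finset.card_le_card Finset.sdiff_subset).trans hm) (by omega) (by
      intro n hn k hk
      obtain ⟨hnA, hnI⟩ := Finset.mem_sdiff.1 hn
      change ‖xs k g‖ ≤ ‖xs n g‖
      rw [hc n, if_neg (fun h => hnI (Finset.mem_inter.1 h).2), sub_zero, hc k]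
      split_ifs with hkE
      · simp
      · rw [sub_zero]
        exact hG n hnA k fun hkA => hk (Finset.mem_sdiff.2
          ⟨hkA, fun hkI => hkE (Finset.mem_inter.2 ⟨hkA, hkI⟩)⟩))
  have e1 : g - comb x E (fun n => -1 * xs n f) = f := by
    rw [comb_smul, hg]; simp
  have e2 : (comb x E fun n => xs n f) =
      (comb x (Ico a b) fun i => xs i f) - comb x (Ico a b) fun i => xs i g := by
    rw [← comb_ite hEI]
    simp only [comb, ← Finset.sum_sub_distrib, ← sub_smul, hc, sub_sub_cancel]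
  rw [e1] at h
  have h1 := H.one_le_L hL0 hL
  have h3 := H.proj a b f
  have hf := H.nonneg f
  have hK := H.K_pos.le
  have hκ : 0 ≤ κ := zero_le_one.trans H.one_le
  rw [e2]
  refine (H.sub _ _).trans ?_
  have h4 : K * N f ≤ K * (K * κ * L) * N f := by
    rw [mul_assoc]; gcongr; exact le_mul_of_one_le_left hf h1
  calc _ ≤ κ * (K * (K * κ * L) * N f + K * κ * L * N f) := by gcongr; exact h3.trans h4
    _ = _ := by ring

theorem Hyp.ll1 (H : Hyp N x xs κ M K) {m : ℕ} {L : ℝ} (hL0 : 0 ≤ L)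
    (hL : ChB N x (fun n => xs n) m L) (f : X) (B : Finset ℕ) (ε : ℕ → 𝕜) (t : ℝ) (ht0 : 0 ≤ t)
    (hG : Greedy (fun n => ⇑(xs n)) B f) (hm : B.card ≤ m) (ht : ∀ n ∈ B, t ≤ ‖xs n f‖)
    (a b : ℕ) (E : Finset ℕ) (hε : ∀ n ∈ E, ‖ε n‖ = 1) (hE : E ⊆ Ico a b)
    (h2 : E.card ≤ (B \ Ico a b).card) :
    t * N (comb x E ε) ≤ κ * (1 + K) * (K * κ * L) * N f := by
  set h := f - comb x (Ico a b) fun n => xs n f with hh
  set g := h + comb x E fun n => (t : 𝕜) * ε n with hg
  have hc : ∀ n, xs n g = (xs n f - if n ∈ Ico a b then xs n f else 0)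
      + if n ∈ E then (t : 𝕜) * ε n else 0 := by
    intro n; rw [hg, map_add, hh, map_sub, H.coef, H.coef]
  have h0 := H.key hL0 hL a b g (B \ Ico a b) E (fun n => (t : 𝕜) * ε n) Finset.sdiff_disjoint
    ((Finset.card_le_card Finset.sdiff_subset).trans hm) h2 (by
      intro n hn k hk
      obtain ⟨hnB, hnI⟩ := Finset.mem_sdiff.1 hn
      change ‖xs k g‖ ≤ ‖xs n g‖
      rw [hc n, if_neg hnI, if_neg (fun h => hnI (hE h)), sub_zero, add_zero, hc k]
      by_cases hkI : k ∈ Ico a b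
      · rw [if_pos hkI, sub_self, zero_add]
        split_ifs with hkE
        · rw [norm_mul, hε k hkE, RCLike.norm_ofReal, abs_of_nonneg ht0, mul_one]
          exact ht n hnB
        · simp
      · rw [if_neg hkI, if_neg (fun h => hkI (hE h)), sub_zero, add_zero]
        exact hG n hnB k fun hkB => hk (Finset.mem_sdiff.2 ⟨hkB, hkI⟩))
  have e2 : (comb x (Ico a b) fun i => xs i g) = (t : 𝕜) • comb x E ε := by
    rw [← comb_smul, ← comb_ite hE]
    exact comb_congr fun n hn => by rw [hc, if_pos hn, sub_self, zero_add]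
  rw [e2, H.smul, RCLike.norm_ofReal, abs_of_nonneg ht0, hg, add_sub_cancel_right] at h0
  have h1 := H.one_le_L hL0 hL
  have h3 := H.proj a b f
  have hκ : 0 ≤ κ := zero_le_one.trans H.one_le
  have h4 : N h ≤ κ * (N f + K * N f) := (H.sub _ _).trans (by gcongr)
  calc _ ≤ _ := h0
    _ ≤ K * κ * L * (κ * (N f + K * N f)) := by gcongr
    _ = _ := by ring

theorem Hyp.ll (H : Hyp N x xs κ M K) {m : ℕ} {L : ℝ} (hL0 : 0 ≤ L)
    (hL : ChB N x (fun n => xs n) m L) (f : X) (B : Finset ℕ) (ε : ℕ → 𝕜) (t : ℝ) (ht0 : 0 ≤ t)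
    (hG : Greedy (fun n => ⇑(xs n)) B f) (hm : B.card ≤ m) (ht : ∀ n ∈ B, t ≤ ‖xs n f‖)
    (a b : ℕ) (E : Finset ℕ) (hε : ∀ n ∈ E, ‖ε n‖ = 1) (hE : E ⊆ Ico a b)
    (hEB : E.card ≤ B.card) (h2 : 2 * (B ∩ Ico a b).card ≤ B.card) :
    t * N (comb x E ε) ≤ 2 * κ * (κ * (1 + K) * (K * κ * L)) * N f := by
  have hcd := Finset.card_sdiff_add_card_inter B (Ico a b)
  obtain ⟨F, hFE, hF⟩ := Finset.exists_subset_card_eq
    (show min E.card (B \ Ico a b).card ≤ E.card from min_le_left _ _)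
  have hcd2 := Finset.card_sdiff_add_card_eq_card hFE
  have h3 := H.ll1 hL0 hL f B ε t ht0 hG hm ht a b F (fun n hn => hε n (hFE hn))
    (hFE.trans hE) (by omega)
  have h4 := H.ll1 hL0 hL f B ε t ht0 hG hm ht a b (E \ F)
    (fun n hn => hε n (Finset.sdiff_subset hn)) (Finset.sdiff_subset.trans hE) (by omega)
  have e : comb x E ε = comb x (E \ F) ε + comb x F ε := (Finset.sum_sdiff hFE).symm
  have hκ : 0 ≤ κ := zero_le_one.trans H.one_le
  calc _ ≤ t * (κ * (N (comb x (E \ F) ε) + N (comb x F ε))) := by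
        rw [e]; gcongr; exact H.tri _ _
    _ = κ * (t * N (comb x (E \ F) ε) + t * N (comb x F ε)) := by ring
    _ ≤ κ * (κ * (1 + K) * (K * κ * L) * N f + κ * (1 + K) * (K * κ * L) * N f) := by gcongr
    _ = _ := by ring

theorem median (A B : Finset ℕ) : ∃ n b : ℕ, (∀ k ∈ A, k < b) ∧
    2 * (B ∩ Ico 0 n).card ≤ B.card ∧ 2 * (B ∩ Ico (n + 1) b).card ≤ B.card := by
  classical
  obtain ⟨b, hb⟩ : ∃ e, ∀ k ∈ A ∪ B, k < e :=
    ⟨(A ∪ B).sup id + 1, fun k hk => Nat.lt_succ_of_le (Finset.le_sup (f := id) hk)⟩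
  have hex : ∃ n, B.card ≤ 2 * (B ∩ Ico 0 (n + 1)).card := ⟨b, by
    rw [Finset.inter_eq_left.2 fun k hk => by
      have := hb k (by simp [hk]); simp; omega]
    omega⟩
  refine ⟨Nat.find hex, b, fun k hk => hb k (by simp [hk]), ?_, ?_⟩
  · rcases h : Nat.find hex with _ | n
    · simp
    · have := Nat.find_min hex (show n < Nat.find hex by omega)
      omega
  · have h1 := Nat.find_spec hex
    have h2 : (B ∩ Ico 0 (Nat.find hex + 1)).card + (B ∩ Ico (Nat.find hex + 1) b).card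
        ≤ B.card := by
      rw [← Finset.card_union_of_disjoint]
      · exact Finset.card_le_card
          (Finset.union_subset Finset.inter_subset_left Finset.inter_subset_left)
      · refine Finset.disjoint_left.2 fun k h1 h2 => ?_
        simp only [Finset.mem_inter, Finset.mem_Ico] at h1 h2
        omega
    omega

theorem Hyp.split3 (H : Hyp N x xs κ M K) (A : Finset ℕ) (c : ℕ → 𝕜) (n b : ℕ)
    (hb : ∀ k ∈ A, k < b) (t Z : ℝ) (ht : 0 ≤ t) (h1 : t * N (comb x (A ∩ Ico 0 n) c) ≤ Z)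
    (h2 : t * N (comb x (A ∩ {n}) c) ≤ Z) (h3 : t * N (comb x (A ∩ Ico (n + 1) b) c) ≤ Z) :
    t * N (comb x A c) ≤ 3 * κ ^ 2 * Z := by
  have e : comb x A c = comb x (A ∩ Ico 0 n) c + comb x (A ∩ {n}) c
      + comb x (A ∩ Ico (n + 1) b) c := by
    rw [← comb_union, ← comb_union]
    · congr 1
      ext k
      simp only [Finset.mem_union, Finset.mem_inter, Finset.mem_Ico, Finset.mem_singleton]
      constructor
      · intro hk
        have := hb k hk
        simp only [hk, true_and]; omega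
      · tauto
    · refine Finset.disjoint_left.2 fun k h1 h2 => ?_
      simp only [Finset.mem_union, Finset.mem_inter, Finset.mem_Ico,
        Finset.mem_singleton] at h1 h2
      omega
    · refine Finset.disjoint_left.2 fun k h1 h2 => ?_
      simp only [Finset.mem_inter, Finset.mem_Ico, Finset.mem_singleton] at h1 h2
      omega
  have hκ1 := H.one_le
  have hκ : 0 ≤ κ := zero_le_one.trans hκ1
  have hZ : 0 ≤ Z := le_trans (mul_nonneg ht (H.nonneg _)) h1
  calc _ ≤ t * (κ * (κ * (N (comb x (A ∩ Ico 0 n) c) + N (comb x (A ∩ {n}) c))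
        + N (comb x (A ∩ Ico (n + 1) b) c))) := by
        rw [e]; gcongr
        refine (H.tri _ _).trans ?_
        gcongr
        exact H.tri _ _
    _ = κ * (κ * (t * N (comb x (A ∩ Ico 0 n) c) + t * N (comb x (A ∩ {n}) c))
        + t * N (comb x (A ∩ Ico (n + 1) b) c)) := by ring
    _ ≤ κ * (κ * (Z + Z) + κ * Z) :=
        mul_le_mul_of_nonneg_left (add_le_add
          (mul_le_mul_of_nonneg_left (add_le_add h1 h2) hκ)
          (h3.trans (le_mul_of_one_le_left hZ hκ1))) hκ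
    _ = _ := by ring

theorem Hyp.single (H : Hyp N x xs κ M K) (A : Finset ℕ) (c : ℕ → 𝕜) (n : ℕ) (s : ℝ)
    (hs0 : 0 ≤ s) (hs : n ∈ A → ‖c n‖ ≤ s) : N (comb x (A ∩ {n}) c) ≤ s * M := by
  by_cases hn : n ∈ A
  · rw [Finset.inter_eq_right.2 (by simpa using hn)]
    simp only [comb, Finset.sum_singleton, H.smul]
    exact mul_le_mul (hs hn) (H.bdd n) (H.nonneg _) hs0
  · rw [Finset.inter_singleton_of_notMem hn]
    have := H.smul 0 0
    simp only [comb, Finset.sum_empty]
    simp only [smul_zero, norm_zero, zero_mul] at this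
    rw [this]; exact mul_nonneg hs0 H.M_pos

theorem Hyp.both (H : Hyp N x xs κ M K) {m : ℕ} {L : ℝ} (hL0 : 0 ≤ L)
    (hL : ChB N x (fun n => xs n) m L) :
    GB N x (fun n => xs n) m (3 * κ ^ 2 * (2 * κ * (κ * (1 + K)) + M ^ 2) * (K * κ) * L) ∧
    LamB N x (fun n => xs n) m (3 * κ ^ 2 * (2 * κ * (κ * (1 + K)) + M ^ 2) * (K * κ) * L) := by
  have h1 := H.one_le_L hL0 hL
  have hκ1 := H.one_le
  have hκ : 0 ≤ κ := zero_le_one.trans hκ1
  have hK := H.K_pos.le
  have hM := H.M_pos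
  set Λ := K * κ * L with hΛ
  have hΛ0 : 0 ≤ Λ := zero_le_one.trans h1
  have hW : 0 ≤ κ * (1 + K) * Λ := by positivity
  have eq : ∀ f, 3 * κ ^ 2 * (2 * κ * (κ * (1 + K)) + M ^ 2) * (K * κ) * L * N f
      = 3 * κ ^ 2 * (2 * κ * (κ * (1 + K) * Λ) * N f + M ^ 2 * Λ * N f) := by
    intro f; rw [hΛ]; ring
  have hs : ∀ f, M * N f * M ≤ 2 * κ * (κ * (1 + K) * Λ) * N f + M ^ 2 * Λ * N f := by
    intro f
    have hf := H.nonneg f
    have e1 : 0 ≤ 2 * κ * (κ * (1 + K) * Λ) * N f := by positivity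
    have e2 : M ^ 2 * 1 * N f ≤ M ^ 2 * Λ * N f := by gcongr
    nlinarith
  have hs2 : ∀ f, 0 ≤ M ^ 2 * Λ * N f := fun f => by have := H.nonneg f; positivity
  constructor
  · intro f A hG hm
    obtain ⟨n, b, hb, m1, m2⟩ := median A A
    have hf := H.nonneg f
    have hw : κ * (1 + K) * Λ * N f ≤ 2 * κ * (κ * (1 + K) * Λ) * N f + M ^ 2 * Λ * N f := by
      have : 1 * (κ * (1 + K) * Λ) * N f ≤ 2 * κ * (κ * (1 + K) * Λ) * N f := by
        gcongr; linarith
      linarith [hs2 f]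
    have := H.split3 A (fun n => xs n f) n b hb 1
      (2 * κ * (κ * (1 + K) * Λ) * N f + M ^ 2 * Λ * N f) zero_le_one
      (by rw [one_mul]; exact (H.gl hL0 hL f A hG hm 0 n m1).trans hw)
      (by rw [one_mul]
          exact (H.single A _ n (M * N f) (by positivity) fun _ => H.dual_bdd n f).trans (hs f))
      (by rw [one_mul]; exact (H.gl hL0 hL f A hG hm (n + 1) b m2).trans hw)
    rw [eq]; simpa using this
  · intro f A B ε t hε hG hc hm ht
    obtain ⟨n, b, hb, m1, m2⟩ := median A B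
    have hf := H.nonneg f
    obtain ⟨⟨j, _, hj⟩, ht2⟩ := ht
    have ht0 : 0 ≤ t := hj ▸ norm_nonneg _
    have htM : t ≤ M * N f := hj ▸ H.dual_bdd j f
    have ht3 : ∀ k ∈ B, t ≤ ‖xs k f‖ := fun k hk => ht2 ⟨k, hk, rfl⟩
    have hI : ∀ a b, 2 * (B ∩ Ico a b).card ≤ B.card → t * N (comb x (A ∩ Ico a b) ε) ≤
        2 * κ * (κ * (1 + K) * Λ) * N f + M ^ 2 * Λ * N f := by
      intro a b h
      have := H.ll hL0 hL f B ε t ht0 hG (by omega) ht3 a b (A ∩ Ico a b)
        (fun k hk => hε k (Finset.mem_inter.1 hk).1) Finset.inter_subset_right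
        (hc ▸ Finset.card_le_card Finset.inter_subset_left) h
      linarith [hs2 f]
    rw [eq]
    refine H.split3 A ε n b hb t _ ht0 (hI 0 n m1) (le_trans ?_ (hs f)) (hI (n + 1) b m2)
    have := H.single A ε n 1 zero_le_one fun h => (hε n h).le
    rw [one_mul] at this
    exact mul_le_mul htM this (H.nonneg _) (by positivity)

theorem IsPNorm.quasi {p : ℝ} (hp : 0 < p) (h : IsPNorm 𝕜 p N) (f g : X) :
    N (f + g) ≤ (2 : ℝ) ^ (1 / p) * (N f + N g) := by
  have hf := h.nonneg f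
  have hg := h.nonneg g
  have h1 : N (f + g) ^ p ≤ ((2 : ℝ) ^ (1 / p) * (N f + N g)) ^ p := by
    rw [Real.mul_rpow (by positivity) (by positivity), ← Real.rpow_mul (by norm_num),
      one_div_mul_cancel hp.ne', Real.rpow_one]
    have e1 : N f ^ p ≤ (N f + N g) ^ p := Real.rpow_le_rpow hf (by linarith) hp.le
    have e2 : N g ^ p ≤ (N f + N g) ^ p := Real.rpow_le_rpow hg (by linarith) hp.le
    linarith [h.tri f g]
  exact (Real.rpow_le_rpow_iff (h.nonneg _) (by positivity) hp).1 h1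

theorem q2_basis (𝕜 : Type) [RCLike 𝕜] (p M K : ℝ) (hp : 0 < p) : ∃ C : ℝ≥0,
    ∀ (X : Type) [AddCommGroup X] [Module 𝕜 X] (N : X → ℝ) (x : ℕ → X) (xs : ℕ → X →ₗ[𝕜] 𝕜),
      IsPNorm 𝕜 p N → IsBddSystem N x xs M K → ∀ m : ℕ,
      max (gm N x (fun n => xs n) m) (lam N x (fun n => xs n) m) ≤
        C * Lch N x (fun n => xs n) m := by
  set κ : ℝ := (2 : ℝ) ^ (1 / p) with hκ
  have hκ1 : 1 ≤ κ := Real.one_le_rpow (by norm_num) (by positivity)
  set K' : ℝ := 2 * κ * (|K| + 1) with hK'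
  have hK'0 : 0 < K' := by positivity
  set C : ℝ := 3 * κ ^ 2 * (2 * κ * (κ * (1 + K')) + |M| ^ 2) * (K' * κ) with hC
  have hC0 : 0 < C := by positivity
  obtain ⟨C', hC'⟩ : ∃ C' : ℝ≥0, (C' : ℝ) = C := ⟨⟨C, hC0.le⟩, rfl⟩
  refine ⟨C', fun X _ _ N x xs hN hS m => ?_⟩
  have hq := hN.quasi hp
  have hneg : ∀ f, N (-f) = N f := fun f => by simpa using hN.smul (-1) f
  have hP : ∀ n f, N (comb x (range n) fun i => xs i f) ≤ (|K| + 1) * N f := fun n f =>
    (hS.proj n f).trans (mul_le_mul_of_nonneg_right (by linarith [le_abs_self K]) (hN.nonneg f))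
  have H : Hyp N x xs κ |M| K' :=
    { nonneg := hN.nonneg, smul := hN.smul, tri := hq, one_le := hκ1, M_pos := abs_nonneg _
      K_pos := hK'0, biorth := hS.biorth
      bdd := fun n => (hS.bdd n).trans (le_abs_self _)
      dual_bdd := fun n f => (hS.dual_bdd n f).trans
        (mul_le_mul_of_nonneg_right (le_abs_self _) (hN.nonneg f))
      proj := fun a b f => by
        rcases le_total a b with h | h
        · have e : (comb x (Ico a b) fun i => xs i f) =
              (comb x (range b) fun i => xs i f) + -(comb x (range a) fun i => xs i f) := by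
            rw [← sub_eq_add_neg]; exact Finset.sum_Ico_eq_sub _ h
          rw [e]
          refine (hq _ _).trans ?_
          rw [hneg]
          calc _ ≤ κ * ((|K| + 1) * N f + (|K| + 1) * N f) := by gcongr <;> exact hP _ _
            _ = _ := by rw [hK']; ring
        · rw [Finset.Ico_eq_empty_of_le h]
          have := hN.smul 0 0
          simp only [smul_zero, norm_zero, zero_mul] at this
          simp only [comb, Finset.sum_empty, this]
          exact mul_nonneg hK'0.le (hN.nonneg f) }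
  have hne : (C' : ℝ≥0∞) ≠ 0 :=
    ENNReal.coe_ne_zero.2 fun h => hC0.ne' (by rw [← hC', h]; rfl)
  unfold Lch least
  rw [ENNReal.mul_iInf_of_ne hne ENNReal.coe_ne_top]
  refine le_iInf fun L => ?_
  rw [ENNReal.mul_iInf_of_ne hne ENNReal.coe_ne_top]
  refine le_iInf fun hL => ?_
  rw [← ENNReal.coe_mul]
  obtain ⟨h1, h2⟩ := H.both L.2 hL
  exact max_le (least_le (by rw [NNReal.coe_mul, hC']; exact h1))
    (least_le (by rw [NNReal.coe_mul, hC']; exact h2))

end Pool.Agent.H41.Cg
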