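import Mathlib

set_option autoImplicit false

namespace Pool.Agent.H41.Cg

open scoped NNReal ENNReal

section general

variable {𝕜 X : Type} [RCLike 𝕜] [AddCommGroup X] [Module 𝕜 X]

/-- The finite combination `∑_{n ∈ A} c_n x_n`. -/
def comb (x : ℕ → X) (A : Finset ℕ) (c : ℕ → 𝕜) : X := ∑ n ∈ A, c n • x n

/-- `A` is a greedy set of `f` (`xs n` is the `n`-th coordinate functional). -/
def Greedy (xs : ℕ → X → 𝕜) (A : Finset ℕ) (f : X) : Prop :=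
  ∀ n ∈ A, ∀ k ∉ A, ‖xs k f‖ ≤ ‖xs n f‖

/-- `A` is the greedy set of `f` of its size picked by the thresholding greedy algorithm
(ties broken by the natural order of `ℕ`). -/
def TGA (xs : ℕ → X → 𝕜) (A : Finset ℕ) (f : X) : Prop :=
  ∀ n ∈ A, ∀ k ∉ A, ‖xs k f‖ < ‖xs n f‖ ∨ (‖xs k f‖ = ‖xs n f‖ ∧ n < k)

/-- `C` is admissible in the definition of `g_m`. -/
def GB (N : X → ℝ) (x : ℕ → X) (xs : ℕ → X → 𝕜) (m : ℕ) (C : ℝ) : Prop :=
  ∀ (f : X) (A : Finset ℕ), Greedy xs A f → A.card ≤ m →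
    N (comb x A fun n => xs n f) ≤ C * N f

/-- `C` is admissible in the definition of `λ_m`; `t` is `min_{n ∈ B} |x_n^*(f)|`. -/
def LamB (N : X → ℝ) (x : ℕ → X) (xs : ℕ → X → 𝕜) (m : ℕ) (C : ℝ) : Prop :=
  ∀ (f : X) (A B : Finset ℕ) (ε : ℕ → 𝕜) (t : ℝ), (∀ n ∈ A, ‖ε n‖ = 1) → Greedy xs B f →
    B.card = A.card → A.card ≤ m → IsLeast ((fun n => ‖xs n f‖) '' (B : Set ℕ)) t →
    t * N (comb x A ε) ≤ C * N f

/-- `L` is admissible in the definition of `L_m^ch`: the error of the Chebyshev thresholding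
greedy algorithm (best approximation from the span of `x_n`, `n ∈ A_m(f)`) is at most `L` times
the distance from `f` to any vector supported on at most `m` indices. -/
def ChB (N : X → ℝ) (x : ℕ → X) (xs : ℕ → X → 𝕜) (m : ℕ) (L : ℝ) : Prop :=
  ∀ (f : X) (A : Finset ℕ), TGA xs A f → A.card = m → ∀ (B : Finset ℕ) (b : ℕ → 𝕜),
    B.card ≤ m → (⨅ c : ℕ → 𝕜, N (f - comb x A c)) ≤ L * N (f - comb x B b)

/-- The least admissible constant (`∞` if there is none). -/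
noncomputable def least (P : ℝ → Prop) : ℝ≥0∞ := ⨅ (C : ℝ≥0) (_ : P C), (C : ℝ≥0∞)

/-- The quasi-greedy parameter `g_m`. -/
noncomputable def gm (N : X → ℝ) (x : ℕ → X) (xs : ℕ → X → 𝕜) (m : ℕ) : ℝ≥0∞ :=
  least (GB N x xs m)

/-- The squeeze symmetry parameter `λ_m`. -/
noncomputable def lam (N : X → ℝ) (x : ℕ → X) (xs : ℕ → X → 𝕜) (m : ℕ) : ℝ≥0∞ :=
  least (LamB N x xs m)

/-- The Chebyshev Lebesgue parameter `L_m^ch`. -/
noncomputable def Lch (N : X → ℝ) (x : ℕ → X) (xs : ℕ → X → 𝕜) (m : ℕ) : ℝ≥0∞ :=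
  least (ChB N x xs m)

/-- `N` is a `p`-norm on `X`. -/
structure IsPNorm (𝕜 : Type) [RCLike 𝕜] [Module 𝕜 X] (p : ℝ) (N : X → ℝ) : Prop where
  nonneg : ∀ f, 0 ≤ N f
  eq_zero : ∀ f, N f = 0 → f = 0
  smul : ∀ (c : 𝕜) (f : X), N (c • f) = ‖c‖ * N f
  tri : ∀ f g, N (f + g) ^ p ≤ N f ^ p + N g ^ p

/-- A biorthogonal system with `N(x_n) ≤ M`, `‖x_n^*‖ ≤ M` and the initial sum projections
bounded by `K`. -/
structure IsBddSystem (N : X → ℝ) (x : ℕ → X) (xs : ℕ → X →ₗ[𝕜] 𝕜) (M K : ℝ) : Prop where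
  biorth : ∀ i j, xs i (x j) = if i = j then 1 else 0
  bdd : ∀ n, N (x n) ≤ M
  dual_bdd : ∀ n f, ‖xs n f‖ ≤ M * N f
  proj : ∀ n f, N (comb x (Finset.range n) fun i => xs i f) ≤ K * N f

end general

section banach

variable {X : Type} [NormedAddCommGroup X] [NormedSpace ℝ X]

/-- A Markushevich basis with `(x_n)` and `(x_n^*)` bounded. -/
structure IsMBasis (x : ℕ → X) (xs : ℕ → X →L[ℝ] ℝ) : Prop where
  biorth : ∀ i j, xs i (x j) = if i = j then 1 else 0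
  dense : Dense (Submodule.span ℝ (Set.range x) : Set X)
  total : ∀ f, (∀ n, xs n f = 0) → f = 0
  bdd : ∃ M : ℝ, ∀ n, ‖x n‖ ≤ M ∧ ‖xs n‖ ≤ M

/-- A Schauder basis: a Markushevich basis with uniformly bounded initial sum projections. -/
def IsSchauder (x : ℕ → X) (xs : ℕ → X →L[ℝ] ℝ) : Prop :=
  IsMBasis x xs ∧ ∃ K : ℝ, ∀ n f, ‖comb x (Finset.range n) fun i => xs i f‖ ≤ K * ‖f‖

end banach

end Pool.Agent.H41.Cg
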