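import Mathlib

set_option autoImplicit false

namespace Pool.Agent.H41.Color40

/-- colour of a difference modulo 41: the discrete logarithm to base 6, modulo 4 -/
def tbl (d : ℕ) : ℕ := (842836299184567883585760 / 4 ^ d) % 4

/-- colour of a pair of natural numbers below 41 -/
def cn (x y : ℕ) : ℕ := tbl ((x + 41 - y) % 41)

/-- the colouring of the 40 points 0..39 of the field with 41 elements -/
def col (x y : Fin 40) : Fin 4 := ⟨cn x.val y.val, Nat.mod_lt _ (by norm_num)⟩

def allB (n : ℕ) (p : ℕ → Bool) : Bool := Nat.rec true (fun i r => p i && r) n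

theorem allB_spec (n : ℕ) (p : ℕ → Bool) (h : allB n p = true) : ∀ i < n, p i = true := by
  induction n with
  | zero => intro i hi; omega
  | succ n ih =>
    have h' : (p n && allB n p) = true := h
    rw [Bool.and_eq_true] at h'
    intro i hi
    rcases Nat.lt_succ_iff_lt_or_eq.mp hi with h1 | h1
    · exact ih h'.2 i h1
    · rw [h1]; exact h'.1

/-- bitmask of the colour pairs seen from the edge x y through the points below n -/
def mask (x y n : ℕ) : ℕ :=
  Nat.rec 0 (fun z r => cond (Nat.beq z x || Nat.beq z y) r (r ||| 2 ^ (4 * cn x z + cn z y))) n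

theorem mask_spec (x y n b : ℕ) : (mask x y n).testBit b = true ↔
    ∃ z < n, z ≠ x ∧ z ≠ y ∧ 4 * cn x z + cn z y = b := by
  induction n with
  | zero => simp [mask]
  | succ n ih =>
    have h : mask x y (n+1) = cond (Nat.beq n x || Nat.beq n y) (mask x y n)
      (mask x y n ||| 2 ^ (4 * cn x n + cn n y)) := rfl
    rw [h]
    by_cases h1 : n = x ∨ n = y
    · have : (Nat.beq n x || Nat.beq n y) = true := by
        rcases h1 with h1 | h1 <;> simp [h1]
      rw [this, cond_true, ih]
      constructor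
      · rintro ⟨z, hz, h2⟩; exact ⟨z, by omega, h2⟩
      · rintro ⟨z, hz, h2, h3, h4⟩
        exact ⟨z, by omega, h2, h3, h4⟩
    · have : (Nat.beq n x || Nat.beq n y) = false := by
        push Not at h1
        simp [h1.1, h1.2, Bool.eq_false_iff]
      rw [this, cond_false, Nat.testBit_or, Bool.or_eq_true, ih, Nat.testBit_two_pow]
      push Not at h1
      constructor
      · rintro (⟨z, hz, h2⟩ | h2)
        · exact ⟨z, by omega, h2⟩
        · exact ⟨n, by omega, h1.1, h1.2, by simpa using h2⟩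
      · rintro ⟨z, hz, h2, h3, h4⟩
        by_cases hzn : z = n
        · right; subst hzn; simpa using h4
        · left; exact ⟨z, by omega, h2, h3, h4⟩

theorem check : allB 40 (fun x => allB 40 (fun y =>
    Nat.beq (cn x y) (cn y x) &&
      (Nat.beq x y || Nat.beq (mask x y 40) (65535 - 2 ^ (5 * cn x y))))) = true := by
  decide +kernel

theorem cn_lt (x y : ℕ) : cn x y < 4 := Nat.mod_lt _ (by norm_num)

theorem fact (x y : Fin 40) : cn x y = cn y x ∧ (x ≠ y → mask x y 40 = 65535 - 2 ^ (5 * cn x y)) := by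
  have h := allB_spec _ _ (allB_spec _ _ check x x.2) y y.2
  simp only [Bool.and_eq_true, Bool.or_eq_true, Nat.beq_eq] at h
  refine ⟨h.1, fun hxy => ?_⟩
  rcases h.2 with h2 | h2
  · exact absurd (Fin.ext h2) hxy
  · exact h2

theorem bits : ∀ i < 4, ∀ j < 4, ∀ k < 4,
    ((65535 - 2 ^ (5 * i)).testBit (4 * j + k) = true ↔ ¬ (j = i ∧ k = i)) := by
  decide +kernel

theorem col_symm : ∀ x y, col x y = col y x := fun x y => Fin.ext (fact x y).1

theorem col_used : ∀ i : Fin 4, ∃ x y, x ≠ y ∧ col x y = i := by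
  intro i
  fin_cases i
  · exact ⟨1, 0, by decide, by decide +kernel⟩
  · exact ⟨6, 0, by decide, by decide +kernel⟩
  · exact ⟨2, 0, by decide, by decide +kernel⟩
  · exact ⟨3, 0, by decide, by decide +kernel⟩

theorem col_tri : ∀ x y z, x ≠ y → y ≠ z → x ≠ z → ¬ (col x y = col y z ∧ col y z = col x z) := by
  rintro x y z hxy hyz hxz ⟨h1, h2⟩
  have e1 : cn x y = cn y z := congrArg Fin.val h1
  have e2 : cn y z = cn x z := congrArg Fin.val h2
  have h3 : (mask x z 40).testBit (4 * cn x y + cn y z) = true :=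
    (mask_spec _ _ _ _).2 ⟨y, y.2, fun h => hxy (Fin.ext h.symm), fun h => hyz (Fin.ext h), rfl⟩
  rw [(fact x z).2 hxz, bits _ (cn_lt _ _) _ (cn_lt _ _) _ (cn_lt _ _)] at h3
  exact h3 ⟨by omega, by omega⟩

theorem col_wit : ∀ x y, x ≠ y → ∀ j k : Fin 4, ¬ (j = col x y ∧ k = col x y) →
    ∃ z, z ≠ x ∧ z ≠ y ∧ col x z = j ∧ col z y = k := by
  intro x y hxy j k hjk
  have h3 : (mask x y 40).testBit (4 * j + k) = true := by
    rw [(fact x y).2 hxy, bits _ (cn_lt _ _) _ j.2 _ k.2]
    rintro ⟨h1, h2⟩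
    exact hjk ⟨Fin.ext h1, Fin.ext h2⟩
  obtain ⟨z, hz, h1, h2, h4⟩ := (mask_spec _ _ _ _).1 h3
  have a := cn_lt x z
  have b := cn_lt z y
  have c := k.2
  refine ⟨⟨z, hz⟩, fun h => h1 (congrArg Fin.val h), fun h => h2 (congrArg Fin.val h),
    Fin.ext ?_, Fin.ext ?_⟩
  · show cn x z = j
    omega
  · show cn z y = k
    omega

theorem not_primePow : ¬ IsPrimePow 40 := by decide +kernel

theorem no_field (F : Type) [Field F] [Fintype F] (e : Fin 40 ≃ F) : False := by
  have h : Fintype.card F = 40 := by rw [← Fintype.card_congr e]; simp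
  have h2 := FiniteField.isPrimePow_card F
  rw [h] at h2
  exact not_primePow h2

end Pool.Agent.H41.Color40
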