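import Pool.Agent.H41.Att5

set_option autoImplicit false

namespace Pool.Agent.H41.Ctr
open Set Topology Filter Function Metric Pool.Agent.H41.Att unitInterval

lemma exists_eta : ∃ η : ℕ → ℝ, (∀ n, 0 < η n) ∧ ∀ n (y : P) (s s' : ℝ), s ∈ Icc (0 : ℝ) 1 →
    s' ∈ Icc (0 : ℝ) 1 → dist s s' ≤ η n → dist (HH y s) (HH y s') ≤ 1 / ((n : ℝ) + 1) := by
  have h : ∀ n : ℕ, ∃ η > 0, ∀ (y : P) (s s' : ℝ), s ∈ Icc (0 : ℝ) 1 →
      s' ∈ Icc (0 : ℝ) 1 → dist s s' ≤ η → dist (HH y s) (HH y s') ≤ 1 / ((n : ℝ) + 1) := by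
    intro n
    have hc : IsCompact ((univ : Set P) ×ˢ Icc (0 : ℝ) 1) := isCompact_univ.prod isCompact_Icc
    obtain ⟨η, hη, H⟩ := Metric.uniformContinuousOn_iff_le.1
      (hc.uniformContinuousOn_of_continuous HH_cont.continuousOn) (1 / ((n : ℝ) + 1))
      (by positivity)
    refine ⟨η, hη, fun y s s' h1 h2 h3 => H (y, s) ⟨trivial, h1⟩ (y, s') ⟨trivial, h2⟩ ?_⟩
    rw [Prod.dist_eq, dist_self]
    exact max_le hη.le h3
  choose η h1 h2 using h
  exact ⟨η, h1, h2⟩

def Good (η : ℕ → ℝ) (γ : I → P) : Prop :=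
  ∀ n t t', dist t t' ≤ η n → dist (γ t) (γ t') ≤ 1 / ((n : ℝ) + 1)

lemma good_equi {η : ℕ → ℝ} (hη : ∀ n, 0 < η n) {ι : Type} (F : ι → I → P)
    (h : ∀ i, Good η (F i)) : Equicontinuous F := by
  refine (Metric.uniformEquicontinuous_iff.2 fun ε hε => ?_).equicontinuous
  obtain ⟨n, hn⟩ := exists_nat_one_div_lt hε
  exact ⟨η n, hη n, fun x y hxy i => (h i n x y hxy.le).trans_lt hn⟩

lemma good_compact {η : ℕ → ℝ} (hη : ∀ n, 0 < η n) : IsCompact {γ : C(I, P) | Good η γ} := by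
  refine ArzelaAscoli.isCompact_of_equicontinuous _ ?_ (good_equi hη _ fun γ => γ.2)
  have : ContinuousMap.toFun '' {γ : C(I, P) | Good η γ} = {γ : I → P | Good η γ} := by
    refine Subset.antisymm (by rintro _ ⟨γ, h, rfl⟩; exact h) fun γ h => ?_
    exact ⟨⟨γ, (good_equi hη (fun _ : Unit => γ) fun _ => h).continuous ()⟩, h, rfl⟩
  rw [this]
  refine IsClosed.isCompact ?_
  simp only [Good, Set.ofPred_forall]
  exact isClosed_iInter fun n => isClosed_iInter fun t => isClosed_iInter fun t' =>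
    isClosed_iInter fun _ =>
      isClosed_le ((continuous_apply t).dist (continuous_apply t')) continuous_const

def MM (η : ℕ → ℝ) : Set (ℕ → C(I, P)) :=
  {γ | (∀ k, Good η (γ k)) ∧ ∀ k, γ k 0 = HH (γ (k + 1) 1) 0}

lemma ev_cont (k : ℕ) (t : I) : Continuous fun γ : ℕ → C(I, P) => γ k t :=
  (continuous_eval_const t).comp (continuous_apply k)

lemma MM_compact {η : ℕ → ℝ} (hη : ∀ n, 0 < η n) : IsCompact (MM η) := by
  have : MM η = (Set.pi univ fun _ => {γ : C(I, P) | Good η γ}) ∩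
      ⋂ k, {γ : ℕ → C(I, P) | γ k 0 = HH (γ (k + 1) 1) 0} := by
    ext γ; simp [MM]
  rw [this]
  exact (isCompact_univ_pi fun _ => good_compact hη).inter_right (isClosed_iInter fun k =>
    isClosed_eq (ev_cont k 0) (HH_comp (ev_cont _ 1) continuous_const))

noncomputable def th (k : ℕ) (T : ℝ) : I := ⟨cl (k + 1 - T), cl_nonneg _, cl_le_one _⟩

lemma th_cont (k : ℕ) : Continuous (th k) := Continuous.subtype_mk (by fun_prop) _

lemma th_one {k : ℕ} {T : ℝ} (h : T ≤ k) : th k T = 1 := Subtype.ext (cl_one (by linarith))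

lemma th_zero {k : ℕ} {T : ℝ} (h : (k : ℝ) + 1 ≤ T) : th k T = 0 :=
  Subtype.ext (cl_zero (by linarith))

noncomputable def be (γ : ℕ → C(I, P)) (T : ℝ) (k : ℕ) : P :=
  if T ≤ k + 1 then γ k (th k T) else HH (γ (k + 1) (th (k + 1) T)) (cl (T - (k + 1)))

noncomputable def tr (γ : ℕ → C(I, P)) (T : ℝ) (k : ℕ) (ξ : I) : P :=
  if T ≤ k + 1 then γ k (min ξ (th k T)) else HH (be γ T (k + 1)) (cl (T - (k + 1)) * ξ)

section
variable {η : ℕ → ℝ} {Z : Type} [TopologicalSpace Z] {γ : Z → MM η} {T : Z → ℝ}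

lemma ev2 (hγ : Continuous γ) (k : ℕ) {t : Z → I} (ht : Continuous t) :
    Continuous fun z => (γ z).1 k (t z) :=
  continuous_eval.comp
    ((((continuous_apply k).comp continuous_subtype_val).comp hγ).prodMk ht)

lemma be_cont (hγ : Continuous γ) (hT : Continuous T) (k : ℕ) :
    Continuous fun z => be (γ z).1 (T z) k := by
  refine Continuous.if_le (ev2 hγ k ((th_cont k).comp hT))
    (HH_comp (ev2 hγ _ ((th_cont _).comp hT)) (by fun_prop)) hT continuous_const fun z hz => ?_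
  rw [th_zero hz.ge, th_one (by push_cast; exact hz.le), cl_zero (by linarith), (γ z).2.2 k]

lemma be_of_le (γ : ℕ → C(I, P)) {T : ℝ} {k : ℕ} (h : T ≤ k) : be γ T k = γ k 1 := by
  rw [be, if_pos (by linarith), th_one h]

lemma tr_cont (hγ : Continuous γ) (hT : Continuous T) (k : ℕ) {ξ : Z → I} (hξ : Continuous ξ) :
    Continuous fun z => tr (γ z).1 (T z) k (ξ z) := by
  refine Continuous.if_le (ev2 hγ k (hξ.min ((th_cont k).comp hT)))
    (HH_comp (be_cont hγ hT _) (by fun_prop)) hT continuous_const fun z hz => ?_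
  rw [th_zero hz.ge, be_of_le _ (by push_cast; exact hz.le), cl_zero (by linarith), zero_mul,
    min_eq_right unitInterval.nonneg', (γ z).2.2 k]

end

lemma tr_one (γ : ℕ → C(I, P)) (T : ℝ) (k : ℕ) : tr γ T k 1 = be γ T k := by
  rw [tr, be.eq_1 γ T k]
  by_cases h : T ≤ k + 1
  · rw [if_pos h, if_pos h, min_eq_right unitInterval.le_one']
  · rw [if_neg h, if_neg h, Icc.coe_one, mul_one]
    by_cases h2 : T ≤ (k + 1 : ℕ) + 1
    · rw [be, if_pos h2]
    · push_cast at h2
      rw [cl_one (by linarith), HH_one, HH_one]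

lemma tr_late (γ : ℕ → C(I, P)) {T : ℝ} {k : ℕ} (h : (k : ℝ) + 3 ≤ T) (ξ : I) :
    tr γ T k ξ = HH y0 ξ := by
  rw [tr, if_neg (by linarith), be, if_neg (by push_cast; linarith),
    cl_one (by push_cast; linarith), cl_one (by linarith), HH_one, one_mul]

section main
variable {η : ℕ → ℝ} (hη : ∀ n (y : P) (s s' : ℝ), s ∈ Icc (0 : ℝ) 1 →
    s' ∈ Icc (0 : ℝ) 1 → dist s s' ≤ η n → dist (HH y s) (HH y s') ≤ 1 / ((n : ℝ) + 1))
include hη

lemma good_H (y : P) {c : ℝ} (h0 : 0 ≤ c) (h1 : c ≤ 1) : Good η fun ξ : I => HH y (c * ξ) := by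
  intro n t t' h
  refine hη n y _ _ ⟨mul_nonneg h0 t.2.1, mul_le_one₀ h1 t.2.1 t.2.2⟩
    ⟨mul_nonneg h0 t'.2.1, mul_le_one₀ h1 t'.2.1 t'.2.2⟩ (le_trans ?_ h)
  rw [Subtype.dist_eq, Real.dist_eq, Real.dist_eq, ← mul_sub, abs_mul, abs_of_nonneg h0]
  exact mul_le_of_le_one_left (abs_nonneg _) h1

noncomputable def TR (γ : MM η) (T : ℝ) : MM η :=
  ⟨fun k => ⟨tr γ.1 T k, tr_cont (γ := fun _ => γ) continuous_const continuous_const k
    continuous_id⟩, fun k => by
    change Good η (tr γ.1 T k)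
    unfold tr
    split_ifs with h
    · intro n t t' ht
      refine γ.2.1 k n _ _ (le_trans ?_ ht)
      rw [Subtype.dist_eq, Subtype.dist_eq, Real.dist_eq, Real.dist_eq]
      exact abs_min_sub_min_le_max _ _ _ _ |>.trans (by simp)
    · exact good_H hη _ (cl_nonneg _) (cl_le_one _), fun k => by
    change tr γ.1 T k 0 = HH (tr γ.1 T (k + 1) 1) 0
    rw [tr_one, tr]
    split_ifs with h
    · rw [min_eq_left unitInterval.nonneg', be_of_le _ (by push_cast; exact h), γ.2.2 k]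
    · simp⟩

noncomputable def Gam : MM η :=
  ⟨fun _ => ⟨fun ξ => HH y0 ξ, HH_comp continuous_const continuous_subtype_val⟩,
    fun _ => by simpa using good_H hη y0 zero_le_one le_rfl, fun k => by
    change HH y0 (0 : I) = HH (HH y0 (1 : I)) 0
    simp [HH_one]⟩

lemma MM_contr : ContractibleSpace (MM η) := by
  rw [contractible_iff_id_nullhomotopic]
  refine ⟨Gam hη, ⟨⟨⟨fun x => if x.1 = 1 then Gam hη else TR hη x.2 (x.1 / (1 - x.1)), ?_⟩,
    fun γ => ?_, fun γ => by simp⟩⟩⟩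
  · refine continuous_induced_rng.2 (continuous_pi fun k => ?_)
    have key : ∀ x : I × MM η,
        (if x.1 = 1 then Gam hη else TR hη x.2 (x.1 / (1 - x.1))).1 k =
          (TR hη x.2 (x.1 / max (1 - (x.1 : ℝ)) (1 / ((k : ℝ) + 4)))).1 k := by
      intro x
      have kp : (0 : ℝ) < k + 4 := by positivity
      have x0 := x.1.2.1
      have x1 := x.1.2.2
      by_cases h : 1 / ((k : ℝ) + 4) ≤ 1 - x.1
      · have : x.1 ≠ 1 := fun e => by
          rw [e, Icc.coe_one, sub_self] at h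
          exact absurd h (not_le.2 (by positivity))
        rw [if_neg this, max_eq_left h]
      · rw [max_eq_right (not_le.1 h).le]
        have h1 : (k : ℝ) + 3 ≤ x.1 / (1 / (k + 4)) := by
          rw [div_div_eq_mul_div, div_one]
          rw [not_le, lt_div_iff₀ kp] at h
          nlinarith
        refine ContinuousMap.ext fun ξ => ?_
        split_ifs with h2
        · exact (tr_late _ h1 ξ).symm
        · have h3 : 0 < 1 - (x.1 : ℝ) := sub_pos.2 (lt_of_le_of_ne x1 fun e => h2 (Subtype.ext e))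
          have h4 : (x.1 : ℝ) / (1 / (k + 4)) ≤ x.1 / (1 - x.1) :=
            div_le_div_of_nonneg_left x0 h3 (not_le.1 h).le
          exact (tr_late _ (h1.trans h4) ξ).trans (tr_late _ h1 ξ).symm
    simp only [comp_def, key]
    refine ContinuousMap.continuous_of_continuous_uncurry _ ?_
    refine tr_cont (γ := fun z : (I × MM η) × I => z.1.2)
      (T := fun z => (z.1.1 : ℝ) / max (1 - (z.1.1 : ℝ)) (1 / ((k : ℝ) + 4))) (by fun_prop) ?_ k continuous_snd
    exact Continuous.div (by fun_prop) (by fun_prop)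
      fun z => (lt_max_of_lt_right (by positivity)).ne'
  · apply Subtype.ext
    funext k
    refine ContinuousMap.ext fun ξ => ?_
    simp only [ContinuousMap.coe_mk, zero_ne_one, if_false, Icc.coe_zero, zero_div,
      ContinuousMap.id_apply]
    change tr γ.1 0 k ξ = _
    rw [tr, if_pos (by positivity), th_one (by positivity), min_eq_left unitInterval.le_one']

end main

lemma gP_dist (a b : P) : dist (gP a) (gP b) = dist a b := by
  rw [Subtype.dist_eq, Subtype.dist_eq, dist_eq_norm, dist_eq_norm]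
  change ‖gV a - gV b‖ = _
  rw [gV_sub, gV_norm]

lemma gP_cont : Continuous gP := (Isometry.of_dist_eq gP_dist).continuous

lemma gP_six (a : P) : gP (gP (gP (gP (gP (gP a))))) = a := by
  have h1 := ze_cube
  refine Subtype.ext (Prod.ext ?_ ?_)
  · simp only [gP, gV]; linear_combination ((a : V).1 * (ze ^ 3 + 1)) * h1
  · simp [gP, gV]

noncomputable def gM {η : ℕ → ℝ} (γ : MM η) : MM η :=
  ⟨fun k => (⟨gP, gP_cont⟩ : C(P, P)).comp (γ.1 k), fun k n t t' h => by
    change dist (gP _) (gP _) ≤ _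
    rw [gP_dist]; exact γ.2.1 k n t t' h, fun k => by
    change gP (γ.1 k 0) = HH (gP (γ.1 (k + 1) 1)) 0
    rw [HH_equiv, γ.2.2 k]⟩

lemma gM_cont {η : ℕ → ℝ} : Continuous (gM (η := η)) :=
  continuous_induced_rng.2 (continuous_pi fun k =>
    (ContinuousMap.continuous_postcomp _).comp ((continuous_apply k).comp continuous_subtype_val))

lemma gM_six {η : ℕ → ℝ} (γ : MM η) : gM (gM (gM (gM (gM (gM γ))))) = γ := by
  apply Subtype.ext
  funext k
  refine ContinuousMap.ext fun ξ => ?_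
  exact gP_six _

theorem main : ∃ (M : Type) (_ : MetricSpace M) (_ : CompactSpace M) (_ : ConnectedSpace M)
    (_ : ContractibleSpace M) (f : M ≃ₜ M), (⇑f)^[6] = id ∧ ∀ x, f x ≠ x := by
  obtain ⟨η, h1, h2⟩ := exists_eta
  have hc : CompactSpace (MM η) := isCompact_iff_compactSpace.1 (MM_compact h1)
  have hk := MM_contr h2
  refine ⟨MM η, TopologicalSpace.metrizableSpaceMetric _, hc, inferInstance, hk,
    ⟨⟨gM, fun γ => gM (gM (gM (gM (gM γ)))), gM_six, gM_six⟩, gM_cont,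
      gM_cont.comp (gM_cont.comp (gM_cont.comp (gM_cont.comp gM_cont)))⟩, funext gM_six,
    fun γ h => ?_⟩
  have : gP (γ.1 0 0) = γ.1 0 0 := congrArg (fun x : MM η => x.1 0 0) h
  exact P_ne _ (gV_fix (congrArg Subtype.val this))

end Pool.Agent.H41.Ctr
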