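import Mathlib

set_option autoImplicit false
open MeasureTheory Complex Set Filter Topology
open scoped ComplexConjugate

namespace Pool.Agent.H41.Db

abbrev X := UnitAddCircle

instance instProb : IsProbabilityMeasure (volume : Measure X) := ⟨UnitAddCircle.measure_univ⟩

noncomputable def ee (j : ℤ) (x : X) : ℂ := fourier j x

@[fun_prop] theorem ee_cont (j : ℤ) : Continuous (ee j) := (fourier j).continuous

theorem ee_add (i j : ℤ) (x : X) : ee (i + j) x = ee i x * ee j x := fourier_add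

theorem ee_zero (x : X) : ee 0 x = 1 := fourier_zero

theorem ee_neg (j : ℤ) (x : X) : ee (-j) x = conj (ee j x) := fourier_neg

theorem norm_ee (j : ℤ) (x : X) : ‖ee j x‖ = 1 := by
  simp only [ee, fourier_apply]; exact Circle.norm_coe _

theorem ee_nsmul (j : ℤ) (n : ℕ) (x : X) : ee j (n • x) = ee (j * n) x := by
  simp only [ee, fourier_apply]
  rw [← natCast_zsmul, smul_smul]

theorem ee_pow (l : ℕ) (x : X) : ee l x = ee 1 x ^ l := by
  induction l with
  | zero => simp [ee_zero]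
  | succ l ih => rw [pow_succ, ← ih, ← ee_add]; push_cast; rfl

theorem ee_coe (j : ℤ) (t : ℝ) : ee j (t : X) = Complex.exp (2 * Real.pi * I * j * t) := by
  simp only [ee, fourier_coe_apply]; simp

theorem intg {E : Type*} [NormedAddCommGroup E] {g : X → E} (hg : Continuous g) :
    Integrable g := hg.integrable_of_hasCompactSupport (HasCompactSupport.of_compactSpace g)

theorem int_add {E : Type*} [NormedAddCommGroup E] [NormedSpace ℝ E] {f g : X → E}
    (hf : Continuous f) (hg : Continuous g) : ∫ x, (f x + g x) = (∫ x, f x) + ∫ x, g x :=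
  integral_add (intg hf) (intg hg)

theorem int_sub {E : Type*} [NormedAddCommGroup E] [NormedSpace ℝ E] {f g : X → E}
    (hf : Continuous f) (hg : Continuous g) : ∫ x, (f x - g x) = (∫ x, f x) - ∫ x, g x :=
  integral_sub (intg hf) (intg hg)

theorem int_mono {f g : X → ℝ} (hf : Continuous f) (hg : Continuous g) (h : ∀ x, f x ≤ g x) :
    ∫ x, f x ≤ ∫ x, g x := integral_mono (intg hf) (intg hg) h

theorem int_ee (j : ℤ) : ∫ x, ee j x = if j = 0 then 1 else 0 := by
  split_ifs with h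
  · subst h; simp [ee_zero]
  · exact integral_eq_zero_of_add_right_eq_neg (μ := (volume : Measure X))
      (fourier_add_half_inv_index h one_pos)

noncomputable def TP (S : Set ℤ) : Submodule ℂ (X → ℂ) := Submodule.span ℂ (ee '' S)

noncomputable def coef (g : X → ℂ) (j : ℤ) : ℂ := ∫ x, g x * ee (-j) x

theorem TP_ind {S : Set ℤ} {p : (X → ℂ) → Prop} (h1 : ∀ j ∈ S, p (ee j)) (h0 : p 0)
    (ha : ∀ f g, f ∈ TP S → g ∈ TP S → p f → p g → p (f + g))
    (hs : ∀ (c : ℂ) f, f ∈ TP S → p f → p (c • f)) {g : X → ℂ} (hg : g ∈ TP S) : p g := by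
  induction hg using Submodule.span_induction with
  | mem x hx => obtain ⟨j, hj, rfl⟩ := hx; exact h1 j hj
  | zero => exact h0
  | add x y hx hy ihx ihy => exact ha x y hx hy ihx ihy
  | smul a x hx ih => exact hs a x hx ih

theorem ee_mem {S : Set ℤ} {j : ℤ} (h : j ∈ S) : ee j ∈ TP S :=
  Submodule.subset_span ⟨j, h, rfl⟩

theorem TP_cont {S : Set ℤ} {g : X → ℂ} (hg : g ∈ TP S) : Continuous g :=
  TP_ind (p := fun g => Continuous g) (fun j _ => ee_cont j) continuous_zero
    (fun _ _ _ _ hf hg => hf.add hg) (fun c _ _ hf => hf.const_smul c) hg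

theorem TP_mono {S T : Set ℤ} (h : S ⊆ T) {g : X → ℂ} (hg : g ∈ TP S) : g ∈ TP T :=
  Submodule.span_mono (image_mono h) hg

theorem one_mem {S : Set ℤ} (h : (0 : ℤ) ∈ S) : (fun _ : X => (1 : ℂ)) ∈ TP S := by
  have : (fun _ : X => (1 : ℂ)) = ee 0 := by funext x; simp [ee_zero]
  rw [this]; exact ee_mem h

theorem const_mem {S : Set ℤ} (h : (0 : ℤ) ∈ S) (c : ℂ) : (fun _ : X => c) ∈ TP S := by
  have : (fun _ : X => c) = c • (fun _ : X => (1 : ℂ)) := by funext x; simp
  rw [this]; exact Submodule.smul_mem _ _ (one_mem h)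

theorem TP_add {S : Set ℤ} {f g : X → ℂ} (hf : f ∈ TP S) (hg : g ∈ TP S) :
    (fun x => f x + g x) ∈ TP S := Submodule.add_mem _ hf hg

theorem TP_sub {S : Set ℤ} {f g : X → ℂ} (hf : f ∈ TP S) (hg : g ∈ TP S) :
    (fun x => f x - g x) ∈ TP S := Submodule.sub_mem _ hf hg

theorem TP_cmul {S : Set ℤ} (c : ℂ) {f : X → ℂ} (hf : f ∈ TP S) :
    (fun x => c * f x) ∈ TP S := Submodule.smul_mem _ c hf

theorem TP_mul {S T U : Set ℤ} (h : ∀ s ∈ S, ∀ t ∈ T, s + t ∈ U) {f g : X → ℂ}
    (hf : f ∈ TP S) (hg : g ∈ TP T) : (fun x => f x * g x) ∈ TP U := by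
  refine TP_ind (p := fun f => (fun x => f x * g x) ∈ TP U) ?_ ?_ ?_ ?_ hf
  · intro i hi
    refine TP_ind (p := fun g => (fun x => ee i x * g x) ∈ TP U) ?_ ?_ ?_ ?_ hg
    · intro j hj
      have : (fun x => ee i x * ee j x) = ee (i + j) := by funext x; rw [ee_add]
      rw [this]; exact ee_mem (h i hi j hj)
    · simp only [Pi.zero_apply, mul_zero, zero_mul]; exact (TP U).zero_mem
    · intro f g _ _ h1 h2
      have := TP_add h1 h2
      simpa [mul_add] using this
    · intro c f _ h1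
      have := TP_cmul c h1
      simpa [mul_left_comm] using this
  · simp only [Pi.zero_apply, mul_zero, zero_mul]; exact (TP U).zero_mem
  · intro f g _ _ h1 h2
    have := TP_add h1 h2
    simpa [add_mul] using this
  · intro c f _ h1
    have := TP_cmul c h1
    simpa [mul_assoc] using this

theorem TP_conj {S T : Set ℤ} (h : ∀ s ∈ S, -s ∈ T) {f : X → ℂ} (hf : f ∈ TP S) :
    (fun x => conj (f x)) ∈ TP T := by
  refine TP_ind (p := fun f => (fun x => conj (f x)) ∈ TP T) ?_ ?_ ?_ ?_ hf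
  · intro i hi
    have : (fun x => conj (ee i x)) = ee (-i) := by funext x; rw [ee_neg]
    rw [this]; exact ee_mem (h i hi)
  · simp only [Pi.zero_apply, map_zero]; exact (TP T).zero_mem
  · intro f g _ _ h1 h2
    simpa using TP_add h1 h2
  · intro c f _ h1
    simpa using TP_cmul (conj c) h1

theorem TP_re {S T : Set ℤ} (h : ∀ s ∈ S, s ∈ T ∧ -s ∈ T) {f : X → ℂ} (hf : f ∈ TP S) :
    (fun x => (((f x).re : ℝ) : ℂ)) ∈ TP T := by
  have h1 := TP_cmul (1 / 2) (TP_add (TP_mono (fun s hs => (h s hs).1) hf)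
    (TP_conj (fun s hs => (h s hs).2) hf))
  convert h1 using 2 with x
  rw [Complex.re_eq_add_conj]; ring

theorem TP_dil {S T : Set ℤ} (n : ℕ) (h : ∀ s ∈ S, s * n ∈ T) {f : X → ℂ} (hf : f ∈ TP S) :
    (fun x => f (n • x)) ∈ TP T := by
  refine TP_ind (p := fun f => (fun x => f (n • x)) ∈ TP T) ?_ ?_ ?_ ?_ hf
  · intro i hi
    have : (fun x => ee i (n • x)) = ee (i * n) := by funext x; rw [ee_nsmul]
    rw [this]; exact ee_mem (h i hi)
  · exact (TP T).zero_mem
  · intro f g _ _ h1 h2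
    simpa using TP_add h1 h2
  · intro c f _ h1
    simpa using TP_cmul c h1

theorem coef_add {f g : X → ℂ} (hf : Continuous f) (hg : Continuous g) (j : ℤ) :
    coef (fun x => f x + g x) j = coef f j + coef g j := by
  simp only [coef, add_mul]
  exact integral_add (intg (hf.mul (ee_cont _))) (intg (hg.mul (ee_cont _)))

theorem coef_cmul (c : ℂ) (f : X → ℂ) (j : ℤ) :
    coef (fun x => c * f x) j = c * coef f j := by
  simp only [coef, mul_assoc]
  exact integral_const_mul _ _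

theorem coef_ee (i j : ℤ) : coef (ee i) j = if i = j then 1 else 0 := by
  simp only [coef, ← ee_add, int_ee]
  congr 1
  apply propext; omega

theorem coef_zero {S : Set ℤ} {f : X → ℂ} (hf : f ∈ TP S) {j : ℤ} (hj : j ∉ S) :
    coef f j = 0 := by
  refine TP_ind (p := fun f => coef f j = 0) ?_ ?_ ?_ ?_ hf
  · intro i hi
    rw [coef_ee, if_neg]; rintro rfl; exact hj hi
  · simp [coef]
  · intro f g hf hg h1 h2
    have := coef_add (TP_cont hf) (TP_cont hg) j
    rw [h1, h2, add_zero] at this; exact this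
  · intro c f _ h1
    have := coef_cmul c f j
    rw [h1, mul_zero] at this; exact this

theorem coef_eq {S : Set ℤ} {f g : X → ℂ} (hg : Continuous g)
    (hf : (fun x => f x - g x) ∈ TP S) {j : ℤ} (hj : j ∉ S) : coef f j = coef g j := by
  have h1 := coef_add (TP_cont hf) hg j
  rw [coef_zero hf hj] at h1
  simpa using h1

theorem coef_one : coef (fun _ => 1) 0 = 1 := by simp [coef, ee_zero]

theorem coef0 (f : X → ℂ) : coef f 0 = ∫ x, f x := by simp [coef, ee_zero]

theorem norm_coef_le (f : X → ℂ) (j : ℤ) : ‖coef f j‖ ≤ ∫ x, ‖f x‖ := by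
  refine (norm_integral_le_integral_norm _).trans (le_of_eq ?_)
  simp [norm_ee]

theorem TP_bdd {S : Set ℤ} {f : X → ℂ} (hf : f ∈ TP S) :
    ∃ D : ℕ, f ∈ TP (S ∩ Icc (-(D : ℤ)) D) := by
  refine TP_ind (p := fun f => ∃ D : ℕ, f ∈ TP (S ∩ Icc (-(D : ℤ)) D)) ?_ ?_ ?_ ?_ hf
  · intro i hi
    exact ⟨i.natAbs, ee_mem ⟨hi, by constructor <;> omega⟩⟩
  · exact ⟨0, (TP _).zero_mem⟩
  · rintro f g _ _ ⟨a, h1⟩ ⟨b, h2⟩
    refine ⟨a + b, Submodule.add_mem _ (TP_mono ?_ h1) (TP_mono ?_ h2)⟩ <;>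
    · rintro s ⟨h, h', h''⟩
      exact ⟨h, by constructor <;> push_cast <;> omega⟩
  · rintro c f _ ⟨a, h1⟩
    exact ⟨a, Submodule.smul_mem _ _ h1⟩

theorem TP_expand {K : ℕ} {f : X → ℂ} (hf : f ∈ TP (Ico 0 (K : ℤ))) (x : X) :
    f x = ∑ l ∈ Finset.range K, coef f l * ee l x := by
  refine TP_ind (p := fun f => f x = ∑ l ∈ Finset.range K, coef f l * ee l x) ?_ ?_ ?_ ?_ hf
  · rintro i ⟨h0, h1⟩
    lift i to ℕ using h0
    rw [Finset.sum_eq_single i]
    · simp [coef_ee]
    · intro b _ hb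
      rw [coef_ee, if_neg (by omega)]; simp
    · intro h; exact absurd (Finset.mem_range.2 (by omega)) h
  · simp [coef]
  · intro f g hf hg h1 h2
    have := coef_add (TP_cont hf) (TP_cont hg)
    have h3 : f + g = fun x => f x + g x := rfl
    rw [h3]
    simp only [this, add_mul, Finset.sum_add_distrib, ← h1, ← h2]
  · intro c f _ h1
    have h3 : c • f = fun x => c * f x := rfl
    rw [h3]
    simp only [coef_cmul, mul_assoc, ← Finset.mul_sum, ← h1]

theorem dense {f : X → ℂ} (hf : Continuous f) {ε : ℝ} (hε : 0 < ε) :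
    ∃ g ∈ TP univ, ∀ x, ‖f x - g x‖ ≤ ε := by
  have h1 : (⟨f, hf⟩ : C(X, ℂ)) ∈ (Submodule.span ℂ (range <| @fourier 1)).topologicalClosure := by
    rw [span_fourier_closure_eq_top]; trivial
  have h2 : (⟨f, hf⟩ : C(X, ℂ)) ∈ closure
      ((Submodule.span ℂ (range <| @fourier 1) : Submodule ℂ C(X, ℂ)) : Set C(X, ℂ)) := h1
  obtain ⟨g, hg, hd⟩ := Metric.mem_closure_iff.1 h2 ε hε
  refine ⟨g, ?_, fun x => ?_⟩
  · clear hd
    induction hg using Submodule.span_induction with
    | mem x hx => obtain ⟨j, rfl⟩ := hx; exact ee_mem (mem_univ j)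
    | zero => exact (TP _).zero_mem
    | add x y _ _ ihx ihy => exact Submodule.add_mem _ ihx ihy
    | smul a x _ ih => exact Submodule.smul_mem _ a ih
  · have := ContinuousMap.dist_apply_le_dist (f := (⟨f, hf⟩ : C(X, ℂ))) (g := g) x
    rw [dist_eq_norm] at this
    exact this.trans hd.le

theorem bdd {g : X → ℝ} (hg : Continuous g) : ∃ B, 0 ≤ B ∧ ∀ x, |g x| ≤ B := by
  obtain ⟨B, hB⟩ := isCompact_univ.exists_bound_of_continuousOn hg.continuousOn
  exact ⟨B, (norm_nonneg _).trans (hB 0 trivial), fun x => hB x trivial⟩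

@[fun_prop] theorem cont_dil (n : ℕ) : Continuous fun x : X => n • x := continuous_const_smul n

/-- exact factorisation for trigonometric polynomials -/
theorem fej_TP {f g : X → ℂ} (hf : f ∈ TP univ) (hg : g ∈ TP univ) :
    ∀ᶠ n : ℕ in atTop, ∫ x, f x * g (n • x) = (∫ x, f x) * ∫ x, g x := by
  obtain ⟨D, hD⟩ := TP_bdd hf
  filter_upwards [eventually_gt_atTop D] with n hn
  have hfc := TP_cont hf
  refine TP_ind (p := fun g => ∫ x, f x * g (n • x) = (∫ x, f x) * ∫ x, g x) ?_ ?_ ?_ ?_ hg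
  · intro j _
    by_cases h : j = 0
    · subst h; simp [ee_zero]
    · rw [int_ee, if_neg h, mul_zero]
      have : -(j * n) ∉ univ ∩ Icc (-(D : ℤ)) D := by
        rintro ⟨-, h1, h2⟩
        rcases lt_or_gt_of_ne h with h | h <;> nlinarith
      have h2 := coef_zero hD this
      simpa [coef, ee_nsmul] using h2
  · simp
  · intro a b ha hb h1 h2
    have ha' := TP_cont ha
    have hb' := TP_cont hb
    simp only [Pi.add_apply, mul_add]
    rw [int_add, int_add ha' hb', h1, h2]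
    · ring
    all_goals fun_prop
  · intro c a _ h1
    simp only [Pi.smul_apply, smul_eq_mul, mul_left_comm _ c]
    rw [integral_const_mul, integral_const_mul, h1]; ring

theorem dense_re {f : X → ℝ} (hf : Continuous f) {ε : ℝ} (hε : 0 < ε) :
    ∃ g : X → ℝ, (fun x => (g x : ℂ)) ∈ TP univ ∧ ∀ x, |f x - g x| ≤ ε := by
  obtain ⟨g, hg, h⟩ := dense (f := fun x => (f x : ℂ)) (by fun_prop) hε
  refine ⟨fun x => (g x).re, TP_re (fun s _ => ⟨trivial, trivial⟩) hg, fun x => ?_⟩
  refine le_trans ?_ (h x)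
  have := abs_re_le_norm ((f x : ℂ) - g x)
  simpa using this

theorem re_cont {S : Set ℤ} {g : X → ℝ} (hg : (fun x => (g x : ℂ)) ∈ TP S) : Continuous g := by
  have := Complex.continuous_re.comp (TP_cont hg)
  simpa [Function.comp_def] using this

theorem abs_int_le {f : X → ℝ} {c : ℝ} (h : ∀ x, |f x| ≤ c) : |∫ x, f x| ≤ c := by
  have := norm_integral_le_of_norm_le_const (μ := (volume : Measure X)) (f := f) (C := c)
    (Eventually.of_forall h)
  simpa using this

/-- Fejer lemma -/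
theorem fej {f g : X → ℝ} (hf : Continuous f) (hg : Continuous g) {ε : ℝ} (hε : 0 < ε) :
    ∀ᶠ n : ℕ in atTop, ∫ x, f x * g (n • x) ≤ (∫ x, f x) * (∫ x, g x) + ε := by
  obtain ⟨A, hA0, hA⟩ := bdd hf
  obtain ⟨B, hB0, hB⟩ := bdd hg
  obtain ⟨δ, hδ, hδ1, hδ2⟩ : ∃ δ : ℝ, 0 < δ ∧ δ ≤ 1 ∧ 2 * δ * (A + B + 1) ≤ ε := by
    refine ⟨min 1 (ε / (2 * (A + B + 1))), by positivity, min_le_left _ _, ?_⟩
    have := min_le_right 1 (ε / (2 * (A + B + 1)))
    rw [le_div_iff₀ (by positivity)] at this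
    linarith
  obtain ⟨f', hf', hf''⟩ := dense_re hf hδ
  obtain ⟨g', hg', hg''⟩ := dense_re hg hδ
  have cf := re_cont hf'
  have cg := re_cont hg'
  filter_upwards [fej_TP hf' hg'] with n hn
  have hn' : ∫ x, f' x * g' (n • x) = (∫ x, f' x) * ∫ x, g' x := by
    have : ((∫ x, f' x * g' (n • x) : ℝ) : ℂ) = (((∫ x, f' x) * ∫ x, g' x : ℝ) : ℂ) := by
      rw [← integral_complex_ofReal]; push_cast
      rw [← integral_complex_ofReal, ← integral_complex_ofReal]
      exact hn
    exact_mod_cast this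
  have key : ∀ a a' b b' : ℝ, |a| ≤ A → |b| ≤ B → |a - a'| ≤ δ → |b - b'| ≤ δ →
      |a * b - a' * b'| ≤ δ * (A + B + 1) := by
    intro a a' b b' h1 h2 h3 h4
    have : a * b - a' * b' = a * (b - b') + (a - a') * b - (a - a') * (b - b') := by ring
    rw [this]
    refine (abs_sub _ _).trans ?_
    refine (add_le_add_left (abs_add_le _ _) _).trans ?_
    rw [abs_mul, abs_mul, abs_mul]
    have e1 := mul_le_mul h1 h4 (abs_nonneg _) hA0
    have e2 := mul_le_mul h3 h2 (abs_nonneg _) hδ.le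
    have e3 := mul_le_mul h3 (h4.trans hδ1) (abs_nonneg _) hδ.le
    nlinarith
  have e1 : |(∫ x, f x * g (n • x)) - ∫ x, f' x * g' (n • x)| ≤ δ * (A + B + 1) := by
    rw [← int_sub]
    · exact abs_int_le fun x => key _ _ _ _ (hA x) (hB _) (hf'' x) (hg'' _)
    all_goals fun_prop
  have e2 : |(∫ x, f x) * (∫ x, g x) - (∫ x, f' x) * ∫ x, g' x| ≤ δ * (A + B + 1) := by
    refine key _ _ _ _ (abs_int_le hA) (abs_int_le hB) ?_ ?_
    · rw [← integral_sub (intg hf) (intg cf)]; exact abs_int_le hf''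
    · rw [← integral_sub (intg hg) (intg cg)]; exact abs_int_le hg''
  rw [hn'] at e1
  have := (abs_le.1 e1).2
  have := (abs_le.1 e2).1
  linarith

end Pool.Agent.H41.Db
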