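import Pool.Agent.H41.Db1

set_option autoImplicit false
open MeasureTheory Complex Set Filter Topology
open scoped ComplexConjugate

namespace Pool.Agent.H41.Db

theorem completion {f : X → ℂ} (hf : f ∈ TP univ) :
    ∃ g ∈ TP (Ici 1), ∀ x, (g x).re = (f x).re - (∫ x, f x).re := by
  have key : ∀ c : ℂ, ∃ g ∈ TP (Ici 1), ∀ x, (g x).re = (c * f x).re - (c * ∫ x, f x).re := by
    refine TP_ind (p := fun f => ∀ c : ℂ, ∃ g ∈ TP (Ici 1), ∀ x,
      (g x).re = (c * f x).re - (c * ∫ x, f x).re) ?_ ?_ ?_ ?_ hf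
    · intro j _ c
      rcases lt_trichotomy j 0 with h | h | h
      · refine ⟨fun x => conj c * ee (-j) x, TP_cmul _ (ee_mem (by simp; omega)), fun x => ?_⟩
        beta_reduce
        rw [int_ee, if_neg h.ne, ee_neg, ← map_mul, conj_re]; simp
      · subst h
        exact ⟨0, (TP _).zero_mem, fun x => by simp [ee_zero]⟩
      · refine ⟨fun x => c * ee j x, TP_cmul _ (ee_mem (by simp; omega)), fun x => ?_⟩
        rw [int_ee, if_neg h.ne']; simp
    · intro c
      exact ⟨0, (TP _).zero_mem, fun x => by simp⟩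
    · intro a b ha hb h1 h2 c
      obtain ⟨g1, hg1, e1⟩ := h1 c
      obtain ⟨g2, hg2, e2⟩ := h2 c
      refine ⟨fun x => g1 x + g2 x, TP_add hg1 hg2, fun x => ?_⟩
      simp only [Pi.add_apply]
      rw [int_add (TP_cont ha) (TP_cont hb)]
      simp only [mul_add, add_re, e1, e2]; ring
    · intro d a _ h1 c
      obtain ⟨g1, hg1, e1⟩ := h1 (c * d)
      refine ⟨g1, hg1, fun x => ?_⟩
      simp only [Pi.smul_apply, smul_eq_mul]
      rw [integral_const_mul, e1, mul_assoc, mul_assoc]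
  simpa using key 1

theorem pow_mem {y : X → ℂ} (hy : y ∈ TP (Ici 1)) (N : ℕ) :
    (fun x => (1 + y x) ^ N - 1) ∈ TP (Ici 1) := by
  induction N with
  | zero => simp only [pow_zero, sub_self]; exact (TP _).zero_mem
  | succ N ih =>
    have := TP_add (TP_add ih hy) (TP_mul (U := Ici 1)
      (fun s hs t ht => by simp only [mem_Ici] at *; omega) ih hy)
    convert this using 2 with x
    ring

theorem norm_one_add_sq (y : ℂ) : ‖1 + y‖ ^ 2 ≤ Real.exp (2 * y.re + ‖y‖ ^ 2) := by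
  refine le_trans (le_of_eq ?_) (Real.add_one_le_exp _)
  rw [Complex.sq_norm, Complex.sq_norm, normSq_apply, normSq_apply]
  simp; ring

/-- polynomial approximation of an outer function -/
theorem outer {q : X → ℝ} (hq : Continuous q) {ε : ℝ} (hε : 0 < ε) :
    ∃ η : X → ℂ, (fun x => η x - 1) ∈ TP (Ici 1) ∧
      ∀ x, ‖η x‖ ^ 2 ≤ Real.exp (q x - (∫ x, q x) + ε) := by
  obtain ⟨q', hq', hd⟩ := dense_re hq (ε := ε / 3) (by positivity)
  obtain ⟨g, hg, hre⟩ := completion hq'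
  have cq := re_cont hq'
  obtain ⟨B, hB0, hB⟩ := bdd (g := fun x => ‖g x‖) (TP_cont hg).norm
  obtain ⟨N, hN⟩ := exists_nat_gt (B ^ 2 / ε + 1)
  have hN0 : (0 : ℝ) < N := lt_trans (by positivity) hN
  have hN1 : B ^ 2 ≤ N * ε := by
    have : B ^ 2 / ε ≤ N := by linarith
    rwa [div_le_iff₀ hε] at this
  refine ⟨fun x => (1 + (1 / (2 * N) : ℝ) * g x) ^ N, pow_mem (TP_cmul _ hg) N, fun x => ?_⟩
  have h1 := norm_one_add_sq ((1 / (2 * N) : ℝ) * g x)
  rw [norm_pow, ← pow_mul, mul_comm N 2, pow_mul]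
  refine (pow_le_pow_left₀ (by positivity) h1 N).trans ?_
  rw [← Real.exp_nat_mul]
  apply Real.exp_le_exp.2
  have e1 : (g x).re = q' x - ∫ x, q' x := by
    rw [hre, integral_complex_ofReal]; simp
  have e2 : |(∫ x, q x) - ∫ x, q' x| ≤ ε / 3 := by
    rw [← int_sub hq cq]; exact abs_int_le hd
  have e3 : ‖g x‖ ^ 2 ≤ B ^ 2 := by
    have := hB x
    rw [abs_of_nonneg (norm_nonneg _)] at this
    exact pow_le_pow_left₀ (norm_nonneg _) this 2
  have e4 : (N : ℝ) * (2 * (((1 / (2 * N) : ℝ) : ℂ) * g x).re +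
      ‖((1 / (2 * N) : ℝ) : ℂ) * g x‖ ^ 2) = (g x).re + ‖g x‖ ^ 2 / (4 * N) := by
    rw [re_ofReal_mul, norm_mul, Complex.norm_real, Real.norm_eq_abs,
      abs_of_nonneg (by positivity)]
    field_simp; ring
  rw [e4, e1]
  have e5 : ‖g x‖ ^ 2 / (4 * N) ≤ ε / 3 := by
    rw [div_le_iff₀ (by positivity)]; nlinarith
  have := abs_le.1 e2
  have := abs_le.1 (hd x)
  linarith

theorem urys {E U : Set X} (hE : IsClosed E) (hU : IsOpen U) (h : E ⊆ U) :
    ∃ φ : X → ℝ, Continuous φ ∧ (∀ x, 0 ≤ φ x ∧ φ x ≤ 1) ∧ (∀ x ∈ E, φ x = 1) ∧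
      ∀ x ∉ U, φ x = 0 := by
  obtain ⟨f, h0, h1, h2⟩ := exists_continuous_zero_one_of_isClosed hU.isClosed_compl hE
    (disjoint_compl_left_iff_subset.2 h)
  exact ⟨f, f.continuous, fun x => h2 x, fun x hx => h1 hx, fun x hx => h0 hx⟩

theorem cutoff {E U : Set X} (hE : IsClosed E) (hU : IsOpen U) (h : E ⊆ U) {p : ℝ}
    (hp : 0 < p) (hp1 : p ≤ 1) :
    ∃ χ : X → ℝ, (fun x => (χ x : ℂ)) ∈ TP univ ∧ (∀ x, 0 ≤ χ x ∧ χ x ≤ 1) ∧
      (∀ x ∈ E, 1 - p ≤ χ x) ∧ ∀ x ∉ U, χ x ≤ p := by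
  obtain ⟨φ, hc, h01, h1, h0⟩ := urys hE hU h
  obtain ⟨χ, hχ, hd⟩ := dense_re (f := fun x => p / 2 + (1 - p) * φ x) (by fun_prop)
    (ε := p / 2) (by positivity)
  refine ⟨χ, hχ, fun x => ?_, fun x hx => ?_, fun x hx => ?_⟩
  · have := abs_le.1 (hd x)
    have h3 := h01 x
    have h4 : 0 ≤ (1 - p) * φ x := mul_nonneg (by linarith) h3.1
    have h5 : (1 - p) * φ x ≤ (1 - p) := mul_le_of_le_one_right (by linarith) h3.2
    constructor <;> linarith
  · have := abs_le.1 (hd x)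
    simp only [h1 x hx] at this
    linarith
  · have := abs_le.1 (hd x)
    simp only [h0 x hx] at this
    linarith

theorem nbhd {E : Set X} (hE : IsClosed E) {η : ℝ} (hη : 0 < η) :
    ∃ U, IsOpen U ∧ E ⊆ U ∧ volume.real (U \ E) ≤ η := by
  obtain ⟨U, h1, h2, -, h4⟩ := hE.measurableSet.exists_isOpen_sdiff_lt (μ := volume)
    (measure_ne_top _ _) (ε := ENNReal.ofReal η) (by simpa using hη)
  exact ⟨U, h2, h1, ENNReal.toReal_le_of_le_ofReal hη.le h4.le⟩

theorem re_ee (n : ℤ) (x : X) : (ee n x).re = Real.cos (2 * Real.pi * n * ‖x‖) := by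
  induction x using QuotientAddGroup.induction_on with
  | H t =>
    have h1 : ee n (t : X) = Complex.exp (((2 * Real.pi * n * t : ℝ) : ℂ) * I) := by
      rw [ee_coe]; congr 1; push_cast; ring
    have h2 : ‖(t : X)‖ = |t - round t| := UnitAddCircle.norm_eq
    change (ee n (t : X)).re = Real.cos (2 * Real.pi * n * ‖(t : X)‖)
    rw [h1, h2, exp_ofReal_mul_I_re]
    have h3 : Real.cos (2 * Real.pi * n * (t - round t)) = Real.cos (2 * Real.pi * n * t) := by
      have := Real.cos_sub_int_mul_two_pi (2 * Real.pi * n * t) (n * round t)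
      rw [← this]; congr 1; push_cast; ring
    rcases abs_cases (t - round t) with h | h
    · rw [h.1, h3]
    · rw [h.1, mul_neg, Real.cos_neg, h3]

theorem norm_le_half (x : X) : ‖x‖ ≤ 1 / 2 := by
  have := AddCircle.norm_le_half_period (1 : ℝ) (x := x) one_ne_zero
  simpa using this

theorem re_ee_one (x : X) : 1 - 20 * ‖x‖ ^ 2 ≤ (ee 1 x).re := by
  rw [re_ee]
  refine le_trans ?_ Real.one_sub_sq_div_two_le_cos
  have h := Real.pi_lt_d2
  have h0 := Real.pi_pos
  have : Real.pi ^ 2 ≤ 10 := by nlinarith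
  simp only [Int.cast_one, mul_one, mul_pow]
  nlinarith [sq_nonneg ‖x‖]

noncomputable def RR (a : ℝ) (x : X) : ℝ := max (a - ‖x‖) 0 / a ^ 2

@[fun_prop] theorem RR_cont (a : ℝ) : Continuous (RR a) := by unfold RR; fun_prop

theorem bern {t : ℝ} (h0 : 0 ≤ t) (h1 : t ≤ 1) :
    HasSum (fun n : ℕ => 1 / (n : ℝ) ^ 2 * Real.cos (2 * Real.pi * n * t))
      (Real.pi ^ 2 * (t ^ 2 - t + 1 / 6)) := by
  have := hasSum_one_div_nat_pow_mul_cos (k := 1) one_ne_zero (x := t) ⟨h0, h1⟩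
  convert this using 1
  simp [Polynomial.bernoulli, Finset.sum_range_succ, Nat.factorial, bernoulli_one,
    bernoulli_eq_bernoulli'_of_ne_one, bernoulli'_two]
  ring

noncomputable def cc (a : ℝ) (n : ℕ) : ℝ :=
  (1 - Real.cos (2 * Real.pi * n * a)) / (Real.pi ^ 2 * a ^ 2) * (1 / (n : ℝ) ^ 2)

theorem cc_sum {a : ℝ} (h0 : 0 < a) (h1 : a ≤ 1 / 2) (x : X) :
    HasSum (fun n : ℕ => cc a n * (ee n x).re) (RR a x - 1) := by
  have hd0 := norm_nonneg x
  have hd1 := norm_le_half x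
  have s1 := bern (t := ‖x‖ + a) (by linarith) (by linarith)
  have s2 := bern (t := |‖x‖ - a|) (abs_nonneg _) (abs_le.2 ⟨by linarith, by linarith⟩)
  have s3 := bern (t := ‖x‖) hd0 (by linarith)
  have hp := Real.pi_pos
  have := ((s1.add s2).sub (s3.mul_left 2)).mul_left (-1 / (2 * Real.pi ^ 2 * a ^ 2))
  convert! this using 1
  · funext n
    have e1 : Real.cos (2 * Real.pi * n * |‖x‖ - a|) = Real.cos (2 * Real.pi * n * (‖x‖ - a)) := by
      rcases abs_cases (‖x‖ - a) with h | h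
      · rw [h.1]
      · rw [h.1, mul_neg, Real.cos_neg]
    rw [e1, re_ee, cc, mul_add _ ‖x‖, mul_sub _ ‖x‖, Real.cos_add, Real.cos_sub]
    push_cast
    generalize 1 / (n : ℝ) ^ 2 = u
    field_simp
    ring
  · unfold RR
    rw [sq_abs]
    rcases abs_cases (‖x‖ - a) with h | h
    · rw [h.1, max_eq_right (by linarith)]; field_simp; ring
    · rw [h.1, max_eq_left (by linarith)]; field_simp; ring

theorem tri {a : ℝ} (h0 : 0 < a) (h1 : a ≤ 1 / 2) {δ : ℝ} (hδ : 0 < δ) :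
    ∃ g ∈ TP (Ici 1), ∀ x, ‖g x‖ ≤ 1 / a ^ 2 ∧ |1 + (g x).re - RR a x| ≤ δ := by
  have hp := Real.pi_pos
  have hz := hasSum_zeta_two.mul_left (2 / (Real.pi ^ 2 * a ^ 2))
  have hb : ∀ n, |cc a n| ≤ 2 / (Real.pi ^ 2 * a ^ 2) * (1 / (n : ℝ) ^ 2) := by
    intro n
    have c1 := Real.cos_le_one (2 * Real.pi * n * a)
    have c2 := Real.neg_one_le_cos (2 * Real.pi * n * a)
    unfold cc
    rw [abs_of_nonneg (mul_nonneg (div_nonneg (by linarith) (by positivity)) (by positivity))]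
    gcongr; linarith
  have hu := tendstoUniformly_tsum_nat (f := fun (n : ℕ) (x : X) => cc a n * (ee n x).re)
    hz.summable (fun n x => by
      rw [Real.norm_eq_abs, abs_mul]
      refine le_trans (mul_le_of_le_one_right (abs_nonneg _) ?_) (hb n)
      exact (abs_re_le_norm _).trans (norm_ee _ _).le)
  obtain ⟨N, hN⟩ := (Metric.tendstoUniformly_iff.1 hu δ hδ).exists
  refine ⟨fun x => ∑ n ∈ Finset.range N, (cc a n : ℂ) * ee n x, ?_, fun x => ⟨?_, ?_⟩⟩
  · have : (fun x => ∑ n ∈ Finset.range N, (cc a n : ℂ) * ee n x) =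
        ∑ n ∈ Finset.range N, (fun x => (cc a n : ℂ) * ee n x) := by
      funext x; simp
    rw [this]
    refine Submodule.sum_mem _ fun n _ => ?_
    rcases Nat.eq_zero_or_pos n with rfl | hn
    · simp only [cc, Nat.cast_zero, mul_zero, zero_mul, Real.cos_zero, sub_self, zero_div,
        ofReal_zero]
      exact (TP _).zero_mem
    · exact TP_cmul _ (ee_mem (by simp; omega))
  · refine (norm_sum_le _ _).trans ?_
    have := sum_le_hasSum (Finset.range N) (fun i _ => by positivity) hz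
    refine le_trans (Finset.sum_le_sum fun n _ => ?_) (this.trans ?_)
    · rw [norm_mul, norm_ee, mul_one, Complex.norm_real]; exact hb n
    · have : 2 / (Real.pi ^ 2 * a ^ 2) * (Real.pi ^ 2 / 6) = (1 / 3) * (1 / a ^ 2) := by
        field_simp; ring
      rw [this]
      have : 0 < 1 / a ^ 2 := by positivity
      linarith
  · have := hN x
    rw [(cc_sum h0 h1 x).tsum_eq, Real.dist_eq] at this
    rw [abs_sub_comm]
    refine le_trans (le_of_eq ?_) this.le
    congr 1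
    simp only [re_sum, re_ofReal_mul]
    ring

theorem int_TP {S : Set ℤ} {g : X → ℂ} (hg : g ∈ TP S) (h : (0 : ℤ) ∉ S) : ∫ x, g x = 0 := by
  rw [← coef0]; exact coef_zero hg h

theorem int_re_TP {S : Set ℤ} {g : X → ℂ} (hg : g ∈ TP S) (h : (0 : ℤ) ∉ S) :
    ∫ x, (g x).re = 0 := by
  have := integral_re (μ := volume) (intg (TP_cont hg))
  simp only [RCLike.re_to_complex] at this
  rw [this, int_TP hg h]; simp

theorem int_RR {a : ℝ} (h0 : 0 < a) (h1 : a ≤ 1 / 2) : ∫ x, RR a x = 1 := by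
  have : ∀ δ > 0, |1 - ∫ x, RR a x| ≤ δ := by
    intro δ hδ
    obtain ⟨g, hg, h⟩ := tri h0 h1 hδ
    have cg := TP_cont hg
    have h2 := abs_int_le fun x => (h x).2
    rw [int_sub, int_add, int_re_TP hg (by simp)] at h2
    · simpa using h2
    all_goals fun_prop
  have h3 : |1 - ∫ x, RR a x| ≤ 0 := le_of_forall_pos_le_add fun δ hδ => by simpa using this δ hδ
  have := abs_nonpos_iff.1 h3
  linarith

theorem RR_nonneg (a : ℝ) (x : X) : 0 ≤ RR a x := by unfold RR; positivity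

theorem RR_le {a : ℝ} (h0 : 0 < a) (x : X) : RR a x ≤ 1 / a := by
  unfold RR
  rw [div_le_div_iff₀ (by positivity) h0]
  have : max (a - ‖x‖) 0 ≤ a := max_le (by linarith [norm_nonneg x]) h0.le
  nlinarith

theorem RR_zero {a : ℝ} {x : X} (h : ¬ ‖x‖ ≤ a) : RR a x = 0 := by
  unfold RR
  rw [max_eq_right (by linarith [not_le.1 h])]; simp

theorem RR_maj {a : ℝ} (h0 : 0 < a) {x : X} (h : ‖x‖ ≤ a) : 1 ≤ 4 * a * RR (2 * a) x := by
  unfold RR
  have : a ≤ max (2 * a - ‖x‖) 0 := le_trans (by linarith) (le_max_left _ _)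
  rw [← mul_div_assoc, le_div_iff₀ (by positivity)]
  nlinarith

end Pool.Agent.H41.Db
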