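import Pool.Agent.H41.Db2

set_option autoImplicit false
open MeasureTheory Complex Set Filter Topology
open scoped ComplexConjugate

namespace Pool.Agent.H41.Db

structure St where
  ψ : X → ℝ
  W : X → ℝ
  Ψ : X → ℝ
  G : X → ℂ
  F : X → ℂ
  E : Set X
  D : ℕ

structure Good (s : St) (m w e φ P σ L : ℝ) : Prop where
  ψTP : (fun x => (s.ψ x : ℂ)) ∈ TP (Icc (-(s.D : ℤ)) s.D)
  WTP : (fun x => (s.W x : ℂ)) ∈ TP (Icc (-(s.D : ℤ)) s.D)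
  GTP : s.G ∈ TP (Icc 0 (s.D : ℤ))
  FTP : s.F ∈ TP (Icc 0 (s.D : ℤ))
  ψ0 : ∀ x, 0 ≤ s.ψ x
  W0 : ∀ x, 0 < s.W x
  reG : ∀ x, (s.G x).re = s.W x
  cψ : coef (fun x => (s.ψ x : ℂ)) 0 = 1
  cF : coef s.F 0 = 1
  disj : ∀ j : ℤ, 0 < j → coef (fun x => (s.ψ x : ℂ)) j = 0 ∨ coef s.F j = 0
  Ecl : IsClosed s.E
  Ψm : Measurable s.Ψ
  Ψ0 : ∀ x, 0 ≤ s.Ψ x
  Ψb : ∃ B, ∀ x, s.Ψ x ≤ B
  ΨE : ∀ x ∈ s.E, s.Ψ x = 0
  ΨF : ∀ x ∉ s.E, ‖s.F x‖ ^ 2 ≤ s.Ψ x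
  m0 : 0 ≤ m
  w0 : 0 ≤ w
  hm : ∀ x ∈ s.E, ‖s.F x‖ ^ 2 ≤ m
  hw : ∀ x ∈ s.E, s.W x ≤ w
  he : volume.real s.E ≤ e
  hφ : ∫ x, s.E.indicator (fun x => s.ψ x ^ 2 / s.W x) x ≤ φ
  hP : ∫ x, s.ψ x ^ 2 / s.W x ≤ P
  hσ : ∫ x, s.Ψ x * s.W x ≤ σ
  hL : ∫ x, -Real.log (s.W x) ≤ L

theorem Good.mono {s : St} {m w e φ P σ L m' w' e' φ' P' σ' L' : ℝ} (h : Good s m w e φ P σ L)
    (h1 : m ≤ m') (h2 : w ≤ w') (h3 : e ≤ e') (h4 : φ ≤ φ') (h5 : P ≤ P') (h6 : σ ≤ σ')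
    (h7 : L ≤ L') : Good s m' w' e' φ' P' σ' L' :=
  { h with
    m0 := h.m0.trans h1
    w0 := h.w0.trans h2
    hm := fun x hx => (h.hm x hx).trans h1
    hw := fun x hx => (h.hw x hx).trans h2
    he := h.he.trans h3
    hφ := h.hφ.trans h4
    hP := h.hP.trans h5
    hσ := h.hσ.trans h6
    hL := h.hL.trans h7 }

structure Link (s t : St) (g : ℝ) : Prop where
  hD : s.D < t.D
  hψ : (fun x => (t.ψ x : ℂ) - (s.ψ x : ℂ)) ∈ TP {j | (s.D : ℤ) < |j|}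
  hF : (fun x => t.F x - s.F x) ∈ TP (Ioi (s.D : ℤ))
  hG : ∀ x, ‖t.G x - s.G x‖ ≤ g
  hΨ : ∀ x, s.Ψ x ≤ t.Ψ x

theorem Link.trans {s t u : St} {g g' : ℝ} (h : Link s t g) (h' : Link t u g') :
    Link s u (g + g') where
  hD := h.hD.trans h'.hD
  hψ := by
    have := TP_add h.hψ (TP_mono (T := {j | (s.D : ℤ) < |j|}) (fun j hj => by
      have := h.hD; simp only [mem_setOf_eq] at *; omega) h'.hψ)
    convert this using 2 with x; ring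
  hF := by
    have := TP_add h.hF (TP_mono (T := Ioi (s.D : ℤ)) (fun j hj => by
      have := h.hD; simp only [mem_Ioi] at *; omega) h'.hF)
    convert this using 2 with x; ring
  hG := fun x => by
    have := norm_add_le (t.G x - s.G x) (u.G x - t.G x)
    have e : t.G x - s.G x + (u.G x - t.G x) = u.G x - s.G x := by ring
    rw [e] at this
    linarith [h.hG x, h'.hG x]
  hΨ := fun x => (h.hΨ x).trans (h'.hΨ x)

theorem Link.mono {s t : St} {g g' : ℝ} (h : Link s t g) (h' : g ≤ g') : Link s t g' :=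
  { h with hG := fun x => (h.hG x).trans h' }

structure Blk (α : X → ℝ) (γ β : X → ℂ) (A : Set X) (h k : X → ℝ)
    (ρ0 K1 B1 r1 g1 B0 r0 : ℝ) : Prop where
  αTP : (fun x => (α x : ℂ) - 1) ∈ TP {0}ᶜ
  γTP : (fun x => γ x - 1) ∈ TP (Ici 1)
  βTP : (fun x => β x - 1) ∈ TP (Ici 1)
  α0 : ∀ x, 0 ≤ α x
  ρp : 0 < ρ0
  ρ1 : ρ0 ≤ 1
  hρ : ∀ x, ρ0 ≤ (γ x).re
  Acl : IsClosed A
  hc : Continuous h
  h0 : ∀ x, 0 ≤ h x
  h1 : ∀ x ∈ A, 1 ≤ h x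
  kc : Continuous k
  k0 : ∀ x, 0 ≤ k x
  k1 : ∀ x ∈ A, α x ^ 2 / (γ x).re ≤ k x
  alt : (∀ x, α x = 1) ∨ ∀ x, β x = 1
  hK1 : ∀ x, α x ^ 2 / (γ x).re ≤ K1
  hB1 : ∀ x, ‖β x‖ ≤ B1
  r1p : 0 ≤ r1
  hr1 : ∀ x ∈ A, (γ x).re ≤ r1
  hg1 : ∀ x, ‖γ x - 1‖ ≤ g1
  r0p : 0 ≤ r0
  hoff : ∀ x ∉ A, ‖β x‖ ≤ B0 ∧ (γ x).re ≤ r0

theorem conv {c a r : ℝ} (h0 : 0 ≤ c) (h1 : c ≤ 1) (hr : 0 < r) :
    (1 + c * (a - 1)) ^ 2 / (1 + c * (r - 1)) ≤ (1 - c) + c * (a ^ 2 / r) := by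
  have hd : 0 < 1 + c * (r - 1) := by
    rcases h1.eq_or_lt with h | h
    · subst h; linarith
    · nlinarith [mul_nonneg h0 hr.le]
  rw [div_le_iff₀ hd]
  have : ((1 - c) + c * (a ^ 2 / r)) * (1 + c * (r - 1)) - (1 + c * (a - 1)) ^ 2 =
      c * (1 - c) * (r - a) ^ 2 / r := by field_simp; ring
  have h2 : 0 ≤ c * (1 - c) * (r - a) ^ 2 / r :=
    div_nonneg (mul_nonneg (mul_nonneg h0 (by linarith)) (sq_nonneg _)) hr.le
  linarith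

theorem norm_mix {c : ℝ} (h0 : 0 ≤ c) (h1 : c ≤ 1) (b : ℂ) :
    ‖1 + (c : ℂ) * (b - 1)‖ ≤ (1 - c) + c * ‖b‖ := by
  have : 1 + (c : ℂ) * (b - 1) = ((1 - c : ℝ) : ℂ) + (c : ℂ) * b := by push_cast; ring
  rw [this]
  refine (norm_add_le _ _).trans (le_of_eq ?_)
  rw [norm_mul, Complex.norm_real, Complex.norm_real, Real.norm_eq_abs, Real.norm_eq_abs,
    abs_of_nonneg h0, abs_of_nonneg (by linarith)]

theorem intg_bd {f : X → ℝ} (hf : Measurable f) (B : ℝ) (h : ∀ x, |f x| ≤ B) : Integrable f :=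
  Integrable.of_bound hf.aestronglyMeasurable B (Eventually.of_forall h)

noncomputable def ind (S : Set X) (x : X) : ℝ := S.indicator (fun _ => (1 : ℝ)) x

theorem ind_mem {S : Set X} {x : X} (h : x ∈ S) : ind S x = 1 := indicator_of_mem h _
theorem ind_not {S : Set X} {x : X} (h : x ∉ S) : ind S x = 0 := indicator_of_notMem h _
theorem ind_nonneg (S : Set X) (x : X) : 0 ≤ ind S x := by
  by_cases h : x ∈ S
  · rw [ind_mem h]; exact zero_le_one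
  · rw [ind_not h]
theorem ind_le (S : Set X) (x : X) : ind S x ≤ 1 := by
  by_cases h : x ∈ S
  · rw [ind_mem h]
  · rw [ind_not h]; exact zero_le_one
theorem ind_meas {S : Set X} (h : MeasurableSet S) : Measurable (ind S) :=
  measurable_const.indicator h
theorem ind_intg {S : Set X} (h : MeasurableSet S) : Integrable (ind S) :=
  intg_bd (ind_meas h) 1 fun x => by rw [abs_of_nonneg (ind_nonneg _ _)]; exact ind_le _ _
theorem int_ind {S : Set X} (h : MeasurableSet S) : ∫ x, ind S x = volume.real S :=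
  integral_indicator_one h

theorem small (ε a : ℝ) (hε : 0 < ε) : ∀ᶠ p in 𝓝[>] (0 : ℝ), p * a ≤ ε := by
  have : Tendsto (fun p : ℝ => p * a) (𝓝 0) (𝓝 (0 * a)) := (continuous_id.mul_const a).tendsto 0
  rw [zero_mul] at this
  exact (this.eventually (eventually_le_nhds hε)).filter_mono nhdsWithin_le_nhds

theorem small2 (ε a b c : ℝ) (hε : 0 < ε) :
    ∀ᶠ p in 𝓝[>] (0 : ℝ), ((1 + p * a) ^ 2 * (1 + p * b) - 1) * c ≤ ε := by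
  have : Tendsto (fun p : ℝ => ((1 + p * a) ^ 2 * (1 + p * b) - 1) * c) (𝓝 0)
      (𝓝 (((1 + 0 * a) ^ 2 * (1 + 0 * b) - 1) * c)) := Continuous.tendsto (by fun_prop) 0
  simp only [zero_mul, add_zero, one_pow, mul_one, sub_self] at this
  exact (this.eventually (eventually_le_nhds hε)).filter_mono nhdsWithin_le_nhds

/-- spectral bookkeeping -/
theorem spec_mul {D D1 d n : ℕ} {f c y : X → ℂ} {S : Set ℤ}
    (hf : f ∈ TP (Icc (-(D : ℤ)) D)) (hc : c ∈ TP (univ ∩ Icc (-(D1 : ℤ)) D1))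
    (hy : y ∈ TP (S ∩ Icc (-(d : ℤ)) d)) {T : Set ℤ}
    (hT : ∀ i s : ℤ, |i| ≤ D + D1 → s ∈ S → |s| ≤ d → i + s * n ∈ T) :
    (fun x => f x * c x * y (n • x)) ∈ TP T := by
  have h1 := TP_mul (U := {i | |i| ≤ (D : ℤ) + D1}) (fun s hs t ht => by
    simp only [mem_setOf_eq, abs_le, mem_Icc, mem_inter_iff] at *; omega) hf hc
  have h2 := TP_dil (T := {j | ∃ s ∈ S, |s| ≤ d ∧ j = s * n}) n
    (fun s hs => ⟨s, hs.1, abs_le.2 hs.2, rfl⟩) hy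
  exact TP_mul (by
    rintro i hi _ ⟨s, hs, hs', rfl⟩
    exact hT i s hi hs hs') h1 h2

end Pool.Agent.H41.Db
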