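import Pool.Agent.H41.Db3

set_option autoImplicit false
open MeasureTheory Complex Set Filter Topology
open scoped ComplexConjugate

namespace Pool.Agent.H41.Db

theorem arith {i s : ℤ} {D D1 d n : ℕ} (hn : 2 * D + D1 < n) (hi : |i| ≤ D + D1) (hs : |s| ≤ d) :
    (1 ≤ s → (D : ℤ) < i + s * n) ∧ (s ≤ -1 → i + s * n < -(D : ℤ)) ∧
      -((n * d + D + D1 + 1 : ℕ) : ℤ) ≤ i + s * n ∧ i + s * n ≤ ((n * d + D + D1 + 1 : ℕ) : ℤ) := by
  have hn' : 2 * (D : ℤ) + D1 < n := by exact_mod_cast hn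
  obtain ⟨h1, h2⟩ := abs_le.1 hi
  obtain ⟨h3, h4⟩ := abs_le.1 hs
  have h0 : (0 : ℤ) ≤ n := by positivity
  push_cast
  refine ⟨fun h => by nlinarith, fun h => by nlinarith, by nlinarith, by nlinarith⟩

theorem bdd_mono {S : Set ℤ} {f : X → ℂ} {a b : ℕ} (hab : a ≤ b)
    (hf : f ∈ TP (S ∩ Icc (-(a : ℤ)) a)) : f ∈ TP (S ∩ Icc (-(b : ℤ)) b) :=
  TP_mono (T := S ∩ Icc (-(b : ℤ)) b)
    (fun s hs => ⟨hs.1, by have := hs.2; simp only [mem_Icc] at *; omega⟩) hf

theorem le3 {u f g h : X → ℝ} (hu : Integrable u) (hf : Integrable f) (hg : Integrable g)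
    (hh : Integrable h) (H : ∀ x, u x ≤ f x + g x + h x) :
    ∫ x, u x ≤ (∫ x, f x) + (∫ x, g x) + ∫ x, h x := by
  rw [← integral_add hf hg, ← integral_add (f := fun x => f x + g x) (hf.add hg) hh]
  exact integral_mono hu ((hf.add hg).add hh) H

theorem le3' {u f g h : X → ℝ} (hu : ∀ x, 0 ≤ u x) (hf : Integrable f) (hg : Integrable g)
    (hh : Integrable h) (H : ∀ x, u x ≤ f x + g x + h x) :
    ∫ x, u x ≤ (∫ x, f x) + (∫ x, g x) + ∫ x, h x := by
  rw [← integral_add hf hg, ← integral_add (f := fun x => f x + g x) (hf.add hg) hh]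
  exact integral_mono_of_nonneg (Eventually.of_forall hu) ((hf.add hg).add hh)
    (Eventually.of_forall H)

theorem neg_log_le {p y : ℝ} (hp : 0 ≤ p) (hp2 : p ≤ 1 / 2) (h : 1 - p ≤ y) :
    -Real.log y ≤ 2 * p := by
  have hy : 0 < y := by linarith
  have h1 := Real.one_sub_inv_le_log_of_pos hy
  have h2 : y⁻¹ ≤ 1 + 2 * p := by
    rw [inv_le_iff_one_le_mul₀ hy]; nlinarith
  linarith

theorem step {s : St} {m w e φ P σ L : ℝ} (hs : Good s m w e φ P σ L)
    {α : X → ℝ} {γ β : X → ℂ} {A : Set X} {h k : X → ℝ} {ρ0 K1 B1 r1 g1 B0 r0 : ℝ}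
    (hb : Blk α γ β A h k ρ0 K1 B1 r1 g1 B0 r0) {ε : ℝ} (hε : 0 < ε) :
    ∃ t, Good t (m * (B1 + ε) ^ 2) (w * (r1 + ε)) ((e + ε) * (∫ x, h x) + ε)
      ((φ + ε) * (∫ x, k x) + ε) (P + K1 * (φ + ε))
      (σ + ε + m * w * (B0 + ε) ^ 2 * (r0 + ε)) (L + (e + ε) * (-Real.log ρ0) + ε) ∧
      Link s t ((w + ε) * g1) := by
  obtain ⟨ψ, W, Ψ, G, F, E, D⟩ := s
  obtain ⟨ψTP, WTP, GTP, FTP, ψ0, W0, reG, cψ, cF, disj, Ecl, Ψm, Ψ0, ⟨BΨ, Ψb⟩, ΨE, ΨF, m0, w0,
    hm, hw, he, hφ, hP, hσ, hL⟩ := hs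
  simp only at *
  have kψ := re_cont ψTP
  have kW := re_cont WTP
  have kF := TP_cont FTP
  have kG := TP_cont GTP
  have kα : Continuous α := by
    have := Complex.continuous_re.comp (TP_cont hb.αTP)
    have h2 := this.add (continuous_const (y := (1 : ℝ)))
    exact h2.congr fun x => by simp
  have kγ : Continuous γ := by
    have h2 := (TP_cont hb.γTP).add (continuous_const (y := (1 : ℂ)))
    exact h2.congr fun x => by simp
  have kβ : Continuous β := by
    have h2 := (TP_cont hb.βTP).add (continuous_const (y := (1 : ℂ)))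
    exact h2.congr fun x => by simp
  have kh := hb.hc
  have kk := hb.kc
  set Φ : X → ℝ := fun x => ψ x ^ 2 / W x with hΦ
  have kΦ : Continuous Φ := (kψ.pow 2).div kW fun x => (W0 x).ne'
  have Φ0 : ∀ x, 0 ≤ Φ x := fun x => div_nonneg (sq_nonneg _) (W0 x).le
  obtain ⟨BΦ, BΦ0, hBΦ⟩ := bdd kΦ
  obtain ⟨BW, BW0, hBW⟩ := bdd kW
  obtain ⟨BF, BF0, hBF⟩ := bdd (g := fun x => ‖F x‖ ^ 2) (by fun_prop)
  have hBΦ' : ∀ x, Φ x ≤ BΦ := fun x => (le_abs_self _).trans (hBΦ x)
  have hBW' : ∀ x, W x ≤ BW := fun x => (le_abs_self _).trans (hBW x)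
  have hBF' : ∀ x, ‖F x‖ ^ 2 ≤ BF := fun x => (le_abs_self _).trans (hBF x)
  have BΨ0 : 0 ≤ BΨ := (Ψ0 0).trans (Ψb 0)
  have B10 : 0 ≤ B1 := (norm_nonneg _).trans (hb.hB1 0)
  have g10 : 0 ≤ g1 := (norm_nonneg _).trans (hb.hg1 0)
  have ρpos : ∀ x, 0 < (γ x).re := fun x => hb.ρp.trans_le (hb.hρ x)
  have K10 : 0 ≤ K1 := (div_nonneg (sq_nonneg _) (ρpos 0).le).trans (hb.hK1 0)
  have ρle : ∀ x, (γ x).re ≤ 1 + g1 := fun x => by
    have := (re_le_norm (γ x - 1)).trans (hb.hg1 x)
    simp only [sub_re, one_re] at this; linarith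
  have hε2 : 0 < ε / 2 := by positivity
  obtain ⟨p, ⟨⟨⟨⟨⟨p1, p2⟩, p3⟩, p4⟩, p5⟩, p0⟩⟩ := ((((((small (ε / 2) 1 hε2).and
    (small (1 / 2) 1 (by norm_num))).and (small (ε / 2) BΦ hε2)).and (small ε BW hε)).and
    (small2 (ε / 2) B1 (1 + g1) (BΨ * BW) hε2)).and self_mem_nhdsWithin).exists
  replace p0 : 0 < p := p0
  rw [mul_one] at p1 p2
  set C' := (1 + B1) ^ 2 * BΨ * BW * (2 + g1) + BF * (1 + B1) ^ 2 * BW * (2 + g1) with hC'
  have C'0 : 0 ≤ C' := by positivity
  obtain ⟨η, ⟨⟨⟨η1, η2⟩, η3⟩, η0⟩⟩ := ((((small (ε / 2) 1 hε2).and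
    (small (ε / 2) BΦ hε2)).and (small (ε / 2) C' hε2)).and self_mem_nhdsWithin).exists
  replace η0 : 0 < η := η0
  rw [mul_one] at η1
  obtain ⟨U0, hU0, hEU0, hμ0⟩ := nbhd Ecl η0
  set U := U0 ∩ {x | W x < w + ε} with hUdef
  have hU : IsOpen U := hU0.inter (isOpen_lt kW continuous_const)
  have hEU : E ⊆ U := fun x hx => ⟨hEU0 hx, by have := hw x hx; simp only [mem_ofPred_eq]; linarith⟩
  have hμ : volume.real (U \ E) ≤ η :=
    (measureReal_mono (sdiff_subset_sdiff_left inter_subset_left)).trans hμ0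
  have mE := Ecl.measurableSet
  have mUE : MeasurableSet (U \ E) := hU.measurableSet.diff mE
  obtain ⟨χ, χTP, χ01, χE, χU⟩ := cutoff Ecl hU hEU p0 (by linarith)
  have kχ := re_cont χTP
  obtain ⟨D1, hD1⟩ := TP_bdd χTP
  obtain ⟨d1, hd1⟩ := TP_bdd hb.αTP
  obtain ⟨d2, hd2⟩ := TP_bdd hb.γTP
  obtain ⟨d3, hd3⟩ := TP_bdd hb.βTP
  replace hd1 := bdd_mono (b := d1 + d2 + d3) (by omega) hd1
  replace hd2 := bdd_mono (b := d1 + d2 + d3) (by omega) hd2
  replace hd3 := bdd_mono (b := d1 + d2 + d3) (by omega) hd3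
  generalize d1 + d2 + d3 = d at hd1 hd2 hd3
  obtain ⟨n, ⟨hn, fj1⟩, fj2⟩ := (((eventually_gt_atTop (2 * D + D1)).and (fej kχ kh hε2)).and
    (fej (f := fun x => Φ x * χ x) (by fun_prop) kk hε2)).exists
  set D' := n * d + D + D1 + 1 with hD'
  have A1 := spec_mul (n := n) ψTP hD1 hd1 (T := {j | (D : ℤ) < |j|} ∩ Icc (-(D' : ℤ)) D')
    (fun i s hi hs hs' => by
      obtain ⟨a1, a2, a3, a4⟩ := arith hn hi hs'
      refine ⟨?_, a3, a4⟩
      simp only [mem_ofPred_eq, lt_abs]
      have : s ≠ 0 := hs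
      rcases lt_or_gt_of_ne this with h | h
      · right; have := a2 (by omega); omega
      · left; exact a1 (by omega))
  have A2 := spec_mul (n := n) WTP hD1 hd2 (T := Ioi (D : ℤ) ∩ Icc 0 (D' : ℤ))
    (fun i s hi hs hs' => by
      obtain ⟨a1, a2, a3, a4⟩ := arith hn hi hs'
      have := a1 hs
      exact ⟨this, by omega, a4⟩)
  have A3 := spec_mul (n := n) (TP_mono (T := Icc (-(D : ℤ)) D)
    (fun j hj => by simp only [mem_Icc] at *; omega) FTP) hD1 hd3
    (T := Ioi (D : ℤ) ∩ Icc 0 (D' : ℤ))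
    (fun i s hi hs hs' => by
      obtain ⟨a1, a2, a3, a4⟩ := arith hn hi hs'
      have := a1 hs
      exact ⟨this, by omega, a4⟩)
  have hDD : D < D' := by omega
  set ψ' : X → ℝ := fun x => ψ x * (1 + χ x * (α (n • x) - 1)) with hψ'
  set W' : X → ℝ := fun x => W x * (1 + χ x * ((γ (n • x)).re - 1)) with hW'
  set G' : X → ℂ := fun x => G x + W x * χ x * (γ (n • x) - 1) with hG'
  set F' : X → ℂ := fun x => F x * (1 + χ x * (β (n • x) - 1)) with hF'
  set E' : Set X := E ∩ {x | n • x ∈ A} with hE'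
  set Ψ' : X → ℝ := fun x => (1 + p * B1) ^ 2 * Ψ x + ‖F' x‖ ^ 2 * ind (U \ E') x with hΨ'
  have kψ' : Continuous ψ' := by rw [hψ']; fun_prop
  have kW' : Continuous W' := by rw [hW']; fun_prop
  have kF' : Continuous F' := by rw [hF']; fun_prop
  have E'cl : IsClosed E' := Ecl.inter (hb.Acl.preimage (cont_dil n))
  have mE' := E'cl.measurableSet
  have mUE' : MeasurableSet (U \ E') := hU.measurableSet.diff mE'
  have Lψ : (fun x => (ψ' x : ℂ) - (ψ x : ℂ)) ∈ TP ({j | (D : ℤ) < |j|} ∩ Icc (-(D' : ℤ)) D') := by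
    convert A1 using 2 with x
    simp only [hψ']; push_cast; ring
  have LF : (fun x => F' x - F x) ∈ TP (Ioi (D : ℤ) ∩ Icc 0 (D' : ℤ)) := by
    convert A3 using 2 with x
    simp only [hF']; ring
  have GTP' : G' ∈ TP (Icc 0 (D' : ℤ)) :=
    TP_add (TP_mono (fun j hj => by simp only [mem_Icc] at *; omega) GTP)
      (TP_mono inter_subset_right A2)
  have reG' : ∀ x, (G' x).re = W' x := fun x => by
    simp only [hG', hW', add_re, reG]
    rw [← ofReal_mul, re_ofReal_mul]; simp; ring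
  have lρ : ∀ x, ρ0 ≤ 1 + χ x * ((γ (n • x)).re - 1) := fun x => by
    have h1 := χ01 x
    have h2 := hb.hρ (n • x)
    have h3 := hb.ρ1
    nlinarith only [h1.1, h1.2, h2, h3]
  have lρ' : ∀ x, 1 + χ x * ((γ (n • x)).re - 1) ≤ 2 + g1 := fun x => by
    have h1 := χ01 x
    have h2 := ρle (n • x)
    have h3 := ρpos (n • x)
    nlinarith only [h1.1, h1.2, h2, h3]
  have W0' : ∀ x, 0 < W' x := fun x => mul_pos (W0 x) (hb.ρp.trans_le (lρ x))
  have nF : ∀ x, ‖F' x‖ ≤ ‖F x‖ * ((1 - χ x) + χ x * ‖β (n • x)‖) := fun x => by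
    simp only [hF']; rw [norm_mul]
    exact mul_le_mul_of_nonneg_left (norm_mix (χ01 x).1 (χ01 x).2 _) (norm_nonneg _)
  have nF' : ∀ x c, (1 - χ x) + χ x * ‖β (n • x)‖ ≤ c → ‖F' x‖ ^ 2 ≤ ‖F x‖ ^ 2 * c ^ 2 := by
    intro x c hc
    rw [← mul_pow]
    exact pow_le_pow_left₀ (norm_nonneg _)
      ((nF x).trans (mul_le_mul_of_nonneg_left hc (norm_nonneg _))) 2
  have nFall : ∀ x, ‖F' x‖ ^ 2 ≤ BF * (1 + B1) ^ 2 := fun x => by
    refine (nF' x (1 + B1) ?_).trans (mul_le_mul_of_nonneg_right (hBF' x) (by positivity))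
    have h1 := χ01 x
    have h2 := hb.hB1 (n • x)
    have h3 := norm_nonneg (β (n • x))
    nlinarith only [h1.1, h1.2, h2, h3]
  have Φ' : ∀ x, ψ' x ^ 2 / W' x ≤
      Φ x * ((1 - χ x) + χ x * (α (n • x) ^ 2 / (γ (n • x)).re)) := fun x => by
    simp only [hψ', hW', hΦ]
    rw [mul_pow, mul_div_mul_comm]
    exact mul_le_mul_of_nonneg_left (conv (χ01 x).1 (χ01 x).2 (ρpos _)) (Φ0 x)
  have kΦ' : Continuous fun x => ψ' x ^ 2 / W' x := (kψ'.pow 2).div kW' fun x => (W0' x).ne'
  have iχ : ∫ x, χ x ≤ e + ε := by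
    have : ∫ x, χ x ≤ (∫ _ : X, p) + (∫ x, ind E x) + ∫ x, ind (U \ E) x := by
      refine le3 (intg kχ) (integrable_const p) (ind_intg mE) (ind_intg mUE) fun x => ?_
      have h1 := ind_nonneg E x
      have h2 := ind_nonneg (U \ E) x
      have h3 := χ01 x
      by_cases hx : x ∈ E
      · rw [ind_mem hx]; linarith
      · by_cases hx' : x ∈ U
        · rw [ind_mem (S := U \ E) ⟨hx', hx⟩]; linarith
        · linarith [χU x hx']
    rw [int_ind mE, int_ind mUE] at this
    simp only [integral_const, probReal_univ, smul_eq_mul, one_mul] at this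
    linarith
  have iE : Integrable (E.indicator Φ) := (intg kΦ).indicator mE
  have iΦχ : ∫ x, Φ x * χ x ≤ φ + ε := by
    have : ∫ x, Φ x * χ x ≤ (∫ _ : X, p * BΦ) + (∫ x, E.indicator Φ x) +
        ∫ x, BΦ * ind (U \ E) x := by
      refine le3 (intg (by fun_prop))
        (integrable_const _) iE ((ind_intg mUE).const_mul _) fun x => ?_
      have h2 := mul_nonneg BΦ0 (ind_nonneg (U \ E) x)
      have h3 := χ01 x
      have h4 := Φ0 x
      have h5 := hBΦ' x
      have h6 := mul_nonneg p0.le BΦ0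
      by_cases hx : x ∈ E
      · rw [indicator_of_mem hx]; nlinarith only [h2, h3.1, h3.2, h4, h6]
      · rw [indicator_of_notMem hx]
        by_cases hx' : x ∈ U
        · rw [ind_mem (S := U \ E) ⟨hx', hx⟩]; nlinarith only [h3.1, h3.2, h4, h5, h6]
        · have := χU x hx'
          have := mul_le_mul h5 this h3.1 BΦ0
          linarith only [this, h2]
    rw [integral_const_mul BΦ, int_ind mUE] at this
    simp only [integral_const, probReal_univ, smul_eq_mul, one_mul] at this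
    have h9 := mul_le_mul_of_nonneg_left hμ BΦ0
    linarith only [this, h9, hφ, p3, η2]
  have ih0 : 0 ≤ ∫ x, h x := integral_nonneg hb.h0
  have ik0 : 0 ≤ ∫ x, k x := integral_nonneg hb.k0
  refine ⟨⟨ψ', W', Ψ', G', F', E', D'⟩, ⟨?_, ?_, GTP', ?_, ?_, W0', reG', ?_, ?_, ?_, E'cl, ?_, ?_,
    ?_, ?_, ?_, by positivity, mul_nonneg w0 (by linarith [hb.r1p]), ?_, ?_, ?_, ?_, ?_, ?_, ?_⟩,
    ⟨hDD, TP_mono inter_subset_left Lψ, TP_mono inter_subset_left LF, ?_, ?_⟩⟩
  · have := TP_add (TP_mono inter_subset_right Lψ) (TP_mono (T := Icc (-(D' : ℤ)) D')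
      (fun j hj => by simp only [mem_Icc] at *; omega) ψTP)
    simpa using this
  · have := TP_re (T := Icc (-(D' : ℤ)) D') (fun j hj => by simp only [mem_Icc] at *; omega) GTP'
    simpa only [reG'] using this
  · have := TP_add (TP_mono inter_subset_right LF) (TP_mono (T := Icc 0 (D' : ℤ))
      (fun j hj => by simp only [mem_Icc] at *; omega) FTP)
    simpa using this
  · intro x
    refine mul_nonneg (ψ0 x) ?_
    have h1 := χ01 x
    have h2 := hb.α0 (n • x)
    nlinarith only [h1.1, h1.2, h2]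
  · rw [← cψ]
    exact coef_eq (by fun_prop) Lψ (by simp)
  · rw [← cF]
    exact coef_eq kF LF (by simp)
  · intro j hj
    by_cases hjD : j ≤ D
    · have e1 := coef_eq (j := j) (by fun_prop) Lψ (fun h => by
        have := h.1; simp only [mem_ofPred_eq, abs_of_pos hj] at this; omega)
      have e2 := coef_eq (j := j) kF LF (fun h => by
        have := h.1; simp only [mem_Ioi] at this; omega)
      simp only [e1, e2]
      exact disj j hj
    · rcases hb.alt with h | h
      · left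
        have : ψ' = ψ := by funext x; simp [hψ', h]
        simp only [this]
        exact coef_zero ψTP (fun h => hjD h.2)
      · right
        have : F' = F := by funext x; simp [hF', h]
        simp only [this]
        exact coef_zero FTP (fun h => hjD h.2)
  · exact (Ψm.const_mul _).add ((kF'.norm.pow 2).measurable.mul (ind_meas mUE'))
  · intro x
    exact add_nonneg (mul_nonneg (sq_nonneg _) (Ψ0 x)) (mul_nonneg (sq_nonneg _) (ind_nonneg _ _))
  · refine ⟨(1 + p * B1) ^ 2 * BΨ + BF * (1 + B1) ^ 2, fun x => add_le_add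
      (mul_le_mul_of_nonneg_left (Ψb x) (sq_nonneg _)) ?_⟩
    exact (mul_le_of_le_one_right (sq_nonneg _) (ind_le _ _)).trans (nFall x)
  · intro x hx
    simp only [hΨ']
    rw [ΨE x hx.1, ind_not (fun h => h.2 hx)]; simp
  · intro x hx
    simp only [hΨ']
    by_cases hx' : x ∈ U
    · rw [ind_mem (S := U \ E') ⟨hx', hx⟩]
      have := mul_nonneg (sq_nonneg (1 + p * B1)) (Ψ0 x)
      linarith
    · rw [ind_not (fun h => hx' h.1), mul_zero, add_zero, mul_comm]
      refine (nF' x (1 + p * B1) ?_).trans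
        (mul_le_mul_of_nonneg_right (ΨF x fun h => hx' (hEU h)) (sq_nonneg _))
      have h1 := χ01 x
      have h2 := mul_le_mul (χU x hx') (hb.hB1 (n • x)) (norm_nonneg _) p0.le
      linarith
  · intro x hx
    refine (nF' x (B1 + ε) ?_).trans (mul_le_mul_of_nonneg_right (hm x hx.1) (sq_nonneg _))
    have h1 := χ01 x
    have h2 := mul_le_mul h1.2 (hb.hB1 (n • x)) (norm_nonneg _) zero_le_one
    have h3 := χE x hx.1
    linarith
  · intro x hx
    refine mul_le_mul (hw x hx.1) ?_ (hb.ρp.le.trans (lρ x)) w0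
    have h1 := χ01 x
    have h2 := mul_le_mul h1.2 (hb.hr1 (n • x) hx.2) (ρpos _).le zero_le_one
    have h3 := χE x hx.1
    linarith
  · have : ∫ x, ind E' x ≤ ∫ x, (p + χ x * h (n • x)) := by
      refine integral_mono (ind_intg mE') (intg (by fun_prop)) fun x => ?_
      have h1 := χ01 x
      beta_reduce
      by_cases hx : x ∈ E'
      · rw [ind_mem hx]
        have h2 := hb.h1 _ hx.2
        have h3 := χE x hx.1
        nlinarith only [h1.1, h2, h3]
      · rw [ind_not hx]
        have := mul_nonneg h1.1 (hb.h0 (n • x))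
        linarith
    rw [int_ind mE', int_add continuous_const (by fun_prop)] at this
    simp only [integral_const, probReal_univ, smul_eq_mul, one_mul] at this
    have := mul_le_mul_of_nonneg_right iχ ih0
    simp only
    linarith
  · have : ∫ x, E'.indicator (fun x => ψ' x ^ 2 / W' x) x ≤
        ∫ x, (p * BΦ + Φ x * χ x * k (n • x)) := by
      refine integral_mono ((intg kΦ').indicator mE') (intg (by fun_prop)) fun x => ?_
      have h1 := χ01 x
      beta_reduce
      by_cases hx : x ∈ E'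
      · rw [indicator_of_mem hx]
        refine (Φ' x).trans ?_
        have h2 := mul_le_mul_of_nonneg_left (hb.k1 _ hx.2) (mul_nonneg (Φ0 x) h1.1)
        have h3 := χE x hx.1
        have h4 := mul_le_mul (hBΦ' x) (show 1 - χ x ≤ p by linarith) (by linarith) BΦ0
        linarith only [h2, h4]
      · rw [indicator_of_notMem hx]
        have := mul_nonneg (mul_nonneg (Φ0 x) h1.1) (hb.k0 (n • x))
        have := mul_nonneg p0.le BΦ0
        linarith
    rw [int_add continuous_const (by fun_prop)] at this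
    simp only [integral_const, probReal_univ, smul_eq_mul, one_mul] at this
    have := mul_le_mul_of_nonneg_right iΦχ ik0
    simp only
    linarith
  · have : ∫ x, ψ' x ^ 2 / W' x ≤ ∫ x, (Φ x + K1 * (Φ x * χ x)) := by
      refine int_mono kΦ' (by fun_prop) fun x => (Φ' x).trans ?_
      have h1 := χ01 x
      have h2 := mul_le_mul_of_nonneg_left (hb.hK1 (n • x)) (mul_nonneg (Φ0 x) h1.1)
      have h3 := mul_nonneg (Φ0 x) h1.1
      linarith only [h2, h3]
    rw [int_add kΦ (by fun_prop), integral_const_mul] at this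
    have := mul_le_mul_of_nonneg_left iΦχ K10
    simp only
    linarith
  · have iΨW : Integrable fun x => Ψ x * W x :=
      intg_bd (Ψm.mul kW.measurable) (BΨ * BW) fun x => by
        rw [abs_of_nonneg (mul_nonneg (Ψ0 x) (W0 x).le)]
        exact mul_le_mul (Ψb x) (hBW' x) (W0 x).le BΨ0
    set c0 := m * w * (B0 + ε) ^ 2 * (r0 + ε) with hc0
    have c00 : 0 ≤ c0 := mul_nonneg (by positivity) (by linarith [hb.r0p])
    have : ∫ x, Ψ' x * W' x ≤ (∫ x, Ψ x * W x) + (∫ _ : X, (ε / 2 + c0)) +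
        ∫ x, C' * ind (U \ E) x := by
      refine le3' (fun x => mul_nonneg (add_nonneg
        (mul_nonneg (sq_nonneg _) (Ψ0 x)) (mul_nonneg (sq_nonneg _) (ind_nonneg _ _))) (W0' x).le)
        iΨW (integrable_const _) ((ind_intg mUE).const_mul _) fun x => ?_
      have h1 := χ01 x
      have hΨW : 0 ≤ Ψ x * W x := mul_nonneg (Ψ0 x) (W0 x).le
      have hΨW' : Ψ x * W x ≤ BΨ * BW := mul_le_mul (Ψb x) (hBW' x) (W0 x).le BΨ0
      by_cases hx : x ∈ E
      · rw [ind_not (S := U \ E) (fun h => h.2 hx)]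
        simp only [hΨ', ΨE x hx]
        by_cases hx' : x ∈ E'
        · rw [ind_not (S := U \ E') (fun h => h.2 hx')]
          simp only [mul_zero, zero_mul, add_zero, zero_add]; linarith
        · rw [ind_mem (S := U \ E') ⟨hEU hx, hx'⟩]
          have hA : n • x ∉ A := fun h => hx' ⟨hx, h⟩
          obtain ⟨o1, o2⟩ := hb.hoff _ hA
          have h3 := χE x hx
          have f1 : ‖F' x‖ ^ 2 ≤ m * (B0 + ε) ^ 2 := by
            refine (nF' x (B0 + ε) ?_).trans (mul_le_mul_of_nonneg_right (hm x hx) (sq_nonneg _))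
            have h2 := mul_le_mul h1.2 o1 (norm_nonneg _) zero_le_one
            linarith
          have f2 : W' x ≤ w * (r0 + ε) := by
            refine mul_le_mul (hw x hx) ?_ (hb.ρp.le.trans (lρ x)) w0
            have h2 := mul_le_mul h1.2 o2 (ρpos _).le zero_le_one
            linarith
          have f3 := mul_le_mul f1 f2 (W0' x).le (by positivity)
          simp only [mul_zero, zero_mul, add_zero, zero_add, mul_one]
          have : c0 = m * (B0 + ε) ^ 2 * (w * (r0 + ε)) := by rw [hc0]; ring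
          linarith
      · by_cases hx' : x ∈ U
        · rw [ind_mem (S := U \ E) ⟨hx', hx⟩]
          have f2 : W' x ≤ BW * (2 + g1) :=
            mul_le_mul (hBW' x) (lρ' x) (hb.ρp.le.trans (lρ x)) BW0
          have f1 : Ψ' x ≤ (1 + B1) ^ 2 * BΨ + BF * (1 + B1) ^ 2 := by
            refine add_le_add (mul_le_mul ?_ (Ψb x) (Ψ0 x) (sq_nonneg _))
              ((mul_le_of_le_one_right (sq_nonneg _) (ind_le _ _)).trans (nFall x))
            refine pow_le_pow_left₀ (by positivity) ?_ 2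
            nlinarith only [p0, p2, B10]
          have f3 := mul_le_mul f1 f2 (W0' x).le (by positivity)
          have : C' = ((1 + B1) ^ 2 * BΨ + BF * (1 + B1) ^ 2) * (BW * (2 + g1)) := by
            rw [hC']; ring
          linarith
        · rw [ind_not (S := U \ E) (fun h => hx' h.1)]
          simp only [hΨ', hW']
          rw [ind_not (S := U \ E') (fun h => hx' h.1)]
          have f1 : 1 + χ x * ((γ (n • x)).re - 1) ≤ 1 + p * (1 + g1) := by
            have h2 := mul_le_mul (χU x hx') (ρle (n • x)) (ρpos _).le p0.le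
            linarith only [h2, h1.1]
          have f2 := mul_le_mul_of_nonneg_left f1 (mul_nonneg (sq_nonneg (1 + p * B1)) hΨW)
          have f3 : 0 ≤ (1 + p * B1) ^ 2 * (1 + p * (1 + g1)) - 1 := by
            have t1 : 0 ≤ p * B1 := by positivity
            have t2 : 0 ≤ p * (1 + g1) := by positivity
            nlinarith only [mul_nonneg (sq_nonneg (1 + p * B1)) t2, t1, sq_nonneg (p * B1)]
          have f4 := mul_le_mul_of_nonneg_left hΨW' f3
          linarith only [f2, f4, p5, c00]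
    rw [integral_const_mul C', int_ind mUE] at this
    simp only [integral_const, probReal_univ, smul_eq_mul, one_mul] at this
    have h9 := mul_le_mul_of_nonneg_left hμ C'0
    simp only
    linarith only [this, h9, hσ, η3]
  · have l0 : 0 ≤ -Real.log ρ0 := neg_nonneg.2 (Real.log_nonpos hb.ρp.le hb.ρ1)
    have kl : Continuous fun x => -Real.log (W x) := (kW.log fun x => (W0 x).ne').neg
    have kl' : Continuous fun x => -Real.log (W' x) := (kW'.log fun x => (W0' x).ne').neg
    have i1 := (ind_intg mE).add (ind_intg mUE)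
    have : ∫ x, -Real.log (W' x) ≤ (∫ x, -Real.log (W x)) + (∫ _ : X, 2 * p) +
        ∫ x, (-Real.log ρ0) * (ind E x + ind (U \ E) x) := by
      refine le3 (intg kl') (intg kl) (integrable_const _) (i1.const_mul _) fun x => ?_
      simp only [hW']
      rw [Real.log_mul (W0 x).ne' (hb.ρp.trans_le (lρ x)).ne']
      have h1 := ind_nonneg E x
      have h2 := ind_nonneg (U \ E) x
      by_cases hx' : x ∈ U
      · have h3 : 1 ≤ ind E x + ind (U \ E) x := by
          by_cases hx : x ∈ E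
          · rw [ind_mem hx]; linarith
          · rw [ind_mem (S := U \ E) ⟨hx', hx⟩]; linarith
        have h4 := Real.log_le_log hb.ρp (lρ x)
        have h5 := mul_le_mul_of_nonneg_left h3 l0
        linarith only [h4, h5, p0]
      · have h3 := neg_log_le p0.le p2 (y := 1 + χ x * ((γ (n • x)).re - 1)) (by
          have t1 := χU x hx'
          have t2 := mul_nonneg (χ01 x).1 (ρpos (n • x)).le
          linarith only [t1, t2])
        have := mul_nonneg l0 (add_nonneg h1 h2)
        linarith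
    rw [integral_const_mul (-Real.log ρ0), integral_add (ind_intg mE) (ind_intg mUE), int_ind mE,
      int_ind mUE] at this
    simp only [integral_const, probReal_univ, smul_eq_mul, one_mul] at this
    have := mul_le_mul_of_nonneg_left (show volume.real E + volume.real (U \ E) ≤ e + ε by
      linarith) l0
    simp only
    linarith
  · intro x
    simp only [hG', add_sub_cancel_left]
    rw [norm_mul, ← ofReal_mul, Complex.norm_real, Real.norm_eq_abs,
      abs_of_nonneg (mul_nonneg (W0 x).le (χ01 x).1)]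
    refine mul_le_mul ?_ (hb.hg1 _) (norm_nonneg _) (by positivity)
    by_cases hx' : x ∈ U
    · have h1 : W x < w + ε := hx'.2
      have := mul_le_of_le_one_right (W0 x).le (χ01 x).2
      linarith
    · have := mul_le_mul (hBW' x) (χU x hx') (χ01 x).1 BW0
      linarith
  · intro x
    simp only [hΨ']
    have h1 := mul_nonneg (sq_nonneg ‖F' x‖) (ind_nonneg (U \ E') x)
    have h2 : 0 ≤ p * B1 := by positivity
    have h3 : 1 ≤ (1 + p * B1) ^ 2 := by nlinarith only [h2]
    have h4 := mul_le_mul_of_nonneg_right h3 (Ψ0 x)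
    linarith

end Pool.Agent.H41.Db
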