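import Pool.Agent.H41.Db4

set_option autoImplicit false
open MeasureTheory Complex Set Filter Topology
open scoped ComplexConjugate

namespace Pool.Agent.H41.Db

theorem ball_closed (a : ℝ) : IsClosed {x : X | ‖x‖ ≤ a} :=
  isClosed_le continuous_norm continuous_const

theorem blkA {δ : ℝ} (h0 : 0 < δ) (h1 : δ ≤ 1) : ∃ (α : X → ℝ) (γ : X → ℂ),
    Blk α γ (fun _ => 1) {x | ‖x‖ ≤ 1 / 125} (fun x => 4 * (1 / 125) * RR (2 * (1 / 125)) x) α
      (δ / 4) 126 1 126 15625 1 δ ∧ ∫ x, α x = 1 := by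
  obtain ⟨g, hg, hb⟩ := tri (a := 1 / 125) (by norm_num) (by norm_num) (δ := δ / 4) (by positivity)
  have kg := TP_cont hg
  have hg' := TP_cmul ((1 - δ / 2 : ℝ) : ℂ) hg
  have hre : ∀ x, (1 + ((1 - δ / 2 : ℝ) : ℂ) * g x).re = δ / 2 + (1 - δ / 2) * (1 + (g x).re) := by
    intro x; rw [add_re, re_ofReal_mul]; simp; ring
  have lo : ∀ x, δ / 4 ≤ (1 + ((1 - δ / 2 : ℝ) : ℂ) * g x).re := fun x => by
    rw [hre]
    have := abs_le.1 (hb x).2
    have := RR_nonneg (1 / 125) x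
    nlinarith
  have hi : ∀ x, (1 + ((1 - δ / 2 : ℝ) : ℂ) * g x).re ≤ RR (1 / 125) x + δ := fun x => by
    rw [hre]
    have := abs_le.1 (hb x).2
    have := RR_nonneg (1 / 125) x
    nlinarith
  have hi' : ∀ x, (1 + ((1 - δ / 2 : ℝ) : ℂ) * g x).re ≤ 126 := fun x => by
    have := RR_le (a := 1 / 125) (by norm_num) x
    have := hi x
    norm_num at *; linarith
  have pos : ∀ x, 0 < (1 + ((1 - δ / 2 : ℝ) : ℂ) * g x).re := fun x => lt_of_lt_of_le (by positivity) (lo x)
  have sq : ∀ x, (1 + ((1 - δ / 2 : ℝ) : ℂ) * g x).re ^ 2 / (1 + ((1 - δ / 2 : ℝ) : ℂ) * g x).re =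
      (1 + ((1 - δ / 2 : ℝ) : ℂ) * g x).re := fun x => by
    have := (pos x).ne'
    field_simp
  refine ⟨fun x => (1 + ((1 - δ / 2 : ℝ) : ℂ) * g x).re, fun x => 1 + ((1 - δ / 2 : ℝ) : ℂ) * g x,
    ⟨?_, by simpa using hg', ?_, fun x => (pos x).le, by positivity, by linarith, lo, ball_closed _,
      by fun_prop, fun x => mul_nonneg (by norm_num) (RR_nonneg _ _),
      fun x hx => RR_maj (by norm_num) hx, by fun_prop, fun x => (pos x).le,
      fun x _ => (sq x).le, Or.inr fun _ => rfl, fun x => (sq x).le.trans (hi' x), by simp,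
      by norm_num, fun x _ => hi' x, fun x => ?_, h0.le, fun x hx => ⟨by simp, ?_⟩⟩, ?_⟩
  · have := TP_re (T := {0}ᶜ) (fun s hs => by
      simp only [mem_Ici, mem_compl_iff, mem_singleton_iff] at *; omega) hg'
    convert this using 2 with x
    rw [add_re]; push_cast; simp
  · simp only [sub_self]; exact (TP _).zero_mem
  · rw [add_sub_cancel_left, norm_mul, Complex.norm_real, Real.norm_eq_abs,
      abs_of_nonneg (by linarith)]
    have := (hb x).1
    have h2 := norm_nonneg (g x)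
    norm_num at this
    nlinarith
  · have := hi x
    rw [RR_zero hx] at this; linarith
  · simp only [add_re, one_re]
    rw [int_add continuous_const (by fun_prop), int_re_TP hg' (by simp)]
    simp

theorem blkB {t : ℝ} (h0 : 0 ≤ t) : ∃ β : X → ℂ,
    Blk (fun _ => 1) (fun x => 1 - (499 / 500 : ℝ) * ee 1 x) β {x | ‖x‖ ≤ 1 / 10000}
      (fun x => 4 * (1 / 10000) * RR (2 * (1 / 10000)) x)
      (fun x => 500 * (4 * (1 / 10000) * RR (2 * (1 / 10000)) x))
      (1 / 500) 500 (Real.exp (10000 * t + 1)) (1 / 400) 1 (Real.exp (-t + 1)) 2 := by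
  obtain ⟨β, hβ, hb⟩ := outer (q := fun x => 2 * t * RR (1 / 10000) x) (by fun_prop) one_pos
  rw [integral_const_mul, int_RR (by norm_num) (by norm_num)] at hb
  have hre : ∀ x, (1 - ((499 / 500 : ℝ) : ℂ) * ee 1 x).re = 1 - 499 / 500 * (ee 1 x).re := by
    intro x; rw [sub_re, re_ofReal_mul]; simp
  have e1 : ∀ x, |(ee 1 x).re| ≤ 1 := fun x => (abs_re_le_norm _).trans (norm_ee _ _).le
  have lo : ∀ x, 1 / 500 ≤ (1 - ((499 / 500 : ℝ) : ℂ) * ee 1 x).re := fun x => by
    rw [hre]; have := abs_le.1 (e1 x); linarith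
  have sq : ∀ x, (1 : ℝ) ^ 2 / (1 - ((499 / 500 : ℝ) : ℂ) * ee 1 x).re ≤ 500 := fun x => by
    rw [div_le_iff₀ (lt_of_lt_of_le (by norm_num) (lo x))]
    have := lo x; linarith
  have nb : ∀ x y, 2 * t * RR (1 / 10000) x - 2 * t * 1 + 1 ≤ 2 * y → ‖β x‖ ≤ Real.exp y := by
    intro x y h
    refine (pow_le_pow_iff_left₀ (norm_nonneg _) (Real.exp_pos _).le two_ne_zero).1
      ((hb x).trans ?_)
    rw [← Real.exp_nat_mul]
    exact Real.exp_le_exp.2 (by push_cast; linarith)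
  refine ⟨β, ?_, ?_, hβ, fun _ => zero_le_one, by norm_num, by norm_num, lo, ball_closed _,
      by fun_prop, fun x => mul_nonneg (by norm_num) (RR_nonneg _ _),
      fun x hx => RR_maj (by norm_num) hx, by fun_prop,
      fun x => mul_nonneg (by norm_num) (mul_nonneg (by norm_num) (RR_nonneg _ _)),
      fun x hx => (sq x).trans ?_, Or.inl fun _ => rfl, sq, fun x => nb x _ ?_,
      by norm_num, fun x hx => ?_, fun x => ?_, by norm_num, fun x hx => ⟨nb x _ ?_, ?_⟩⟩
  · simp only [ofReal_one, sub_self]; exact (TP _).zero_mem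
  · have := TP_cmul (-((499 / 500 : ℝ) : ℂ)) (ee_mem (S := Ici 1) (j := 1) (by simp))
    convert this using 2 with x
    ring
  · have := RR_maj (a := 1 / 10000) (by norm_num) hx
    linarith
  · have := RR_le (a := 1 / 10000) (by norm_num) x
    norm_num at this
    nlinarith
  · rw [hre]
    have := re_ee_one x
    have h1 : ‖x‖ ≤ 1 / 10000 := hx
    have h2 := norm_nonneg x
    nlinarith
  · rw [sub_sub_cancel_left, norm_neg, norm_mul, norm_ee, Complex.norm_real]
    norm_num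
  · rw [RR_zero hx]; linarith
  · rw [hre]; have := abs_le.1 (e1 x); linarith

theorem stage {s : St} {τ w e φ P σ L : ℝ} (hs : Good s (Real.exp τ) w e φ P σ L)
    (hτ : 1 ≤ τ) (hw : 0 < w) (hw1 : w ≤ 1) (he : 0 < e) (hφ : 0 < φ) :
    ∃ t, Good t (Real.exp (25000 * τ)) (w / 2) (e / 50000) (φ / 2) (P + 2000 * φ)
      (σ + 25000 * Real.exp (-τ)) (L + 40 * (e * τ)) ∧ Link s t (32000 * w) := by
  set u := Real.exp (-τ) with hu
  have u0 : 0 < u := Real.exp_pos _
  have u1 : u ≤ 1 := Real.exp_le_one_iff.2 (by linarith)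
  have uM : Real.exp τ * u = 1 := by rw [hu, ← Real.exp_add]; simp
  have M0 := Real.exp_pos τ
  obtain ⟨ε, ε0, ε1, ε2, ε3, ε4, ε5⟩ : ∃ ε : ℝ, 0 < ε ∧ ε ≤ 1 / 1000 ∧ ε ≤ w ∧ ε ≤ e / 500000 ∧
      ε ≤ φ / 20 ∧ ε ≤ u ^ 2 :=
    ⟨min (1 / 1000) (min w (min (e / 500000) (min (φ / 20) (u ^ 2)))), by positivity,
      min_le_left _ _, by simp, by simp, by simp, by simp⟩
  have uu : u ^ 2 ≤ u := by nlinarith
  have eτ : e ≤ e * τ := by nlinarith
  obtain ⟨α, γ, bA, iα⟩ := blkA (δ := u ^ 2) (by positivity) (by linarith)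
  obtain ⟨t1, g1, l1⟩ := step hs bA ε0
  rw [integral_const_mul, int_RR (by norm_num) (by norm_num), iα] at g1
  have g1' : Good t1 (4 * Real.exp τ) (127 * w) (e / 25) (2 * φ) (P + 252 * φ) (σ + 9 * u)
      (L + 11 * (e * τ)) := by
    refine g1.mono ?_ (by nlinarith) (by linarith) (by linarith) (by linarith) ?_ ?_
    · have : (1 + ε) ^ 2 ≤ 4 := by nlinarith
      nlinarith
    · have a1 : (1 + ε) ^ 2 ≤ 4 := by nlinarith
      have a2 : Real.exp τ * w * (1 + ε) ^ 2 * (u ^ 2 + ε) ≤ Real.exp τ * 1 * 4 * (2 * u ^ 2) := by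
        gcongr; linarith
      have a3 : Real.exp τ * 1 * 4 * (2 * u ^ 2) = 8 * (Real.exp τ * u) * u := by ring
      rw [a3, uM] at a2
      linarith
    · have a1 : -Real.log (u ^ 2 / 4) ≤ 5 * τ := by
        rw [Real.log_div (by positivity) (by norm_num), Real.log_pow, hu, Real.log_exp]
        have := Real.log_le_sub_one_of_pos (show (0 : ℝ) < 4 by norm_num)
        push_cast; linarith
      have a2 : (e + ε) * -Real.log (u ^ 2 / 4) ≤ (2 * e) * (5 * τ) := by
        refine le_trans (mul_le_mul_of_nonneg_left a1 (by positivity)) ?_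
        exact mul_le_mul_of_nonneg_right (by linarith) (by positivity)
      linarith
  obtain ⟨β, bB⟩ := blkB (t := τ) (by linarith)
  obtain ⟨t2, g2, l2⟩ := step g1' bB ε0
  simp only [integral_const_mul] at g2
  rw [int_RR (by norm_num) (by norm_num)] at g2
  refine ⟨t2, g2.mono ?_ (by nlinarith) (by linarith) (by linarith) (by linarith) ?_ ?_,
    (l1.trans l2).mono (by linarith)⟩
  · have a0 : 1 ≤ Real.exp (10000 * τ + 1) := Real.one_le_exp (by linarith)
    have a1 : (Real.exp (10000 * τ + 1) + ε) ^ 2 ≤ (2 * Real.exp (10000 * τ + 1)) ^ 2 :=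
      pow_le_pow_left₀ (by positivity) (by linarith) 2
    have a2 : 16 ≤ Real.exp (4999 * τ - 2) := by
      have := Real.add_one_le_exp (4999 * τ - 2); linarith
    have a3 : Real.exp (25000 * τ) = Real.exp (4999 * τ - 2) *
        (Real.exp τ * Real.exp (10000 * τ + 1) ^ 2) := by
      rw [← Real.exp_nat_mul, ← Real.exp_add, ← Real.exp_add]; congr 1; push_cast; ring
    rw [a3]
    have a4 := mul_le_mul_of_nonneg_right a2
      (show 0 ≤ Real.exp τ * Real.exp (10000 * τ + 1) ^ 2 by positivity)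
    have a5 := mul_le_mul_of_nonneg_left a1 (show 0 ≤ 4 * Real.exp τ by positivity)
    nlinarith only [a4, a5]
  · have a0 : Real.exp (-τ + 1) ≤ 3 * u := by
      rw [Real.exp_add, ← hu]
      have := Real.exp_one_lt_three
      nlinarith
    have a2 : 4 * Real.exp τ * (127 * w) * (Real.exp (-τ + 1) + ε) ^ 2 * (2 + ε) ≤
        4 * Real.exp τ * (127 * 1) * (4 * u) ^ 2 * 3 := by
      gcongr <;> linarith
    have a3 : 4 * Real.exp τ * (127 * 1) * (4 * u) ^ 2 * 3 = 24384 * (Real.exp τ * u) * u := by ring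
    rw [a3, uM] at a2
    linarith
  · have a1 : -Real.log (1 / 500) ≤ 500 := by
      rw [one_div, Real.log_inv, neg_neg]
      have := Real.log_le_sub_one_of_pos (show (0 : ℝ) < 500 by norm_num)
      linarith
    have a2 := mul_le_mul_of_nonneg_left a1 (show 0 ≤ e / 25 + ε by positivity)
    linarith

noncomputable def s0 : St := ⟨fun _ => 1, fun _ => 1 / 200000, fun _ => 0,
  fun _ => ((1 / 200000 : ℝ) : ℂ), fun _ => 1, univ, 0⟩

theorem good0 {K : ℝ} (hK : 0 ≤ K) :
    Good s0 (Real.exp K) (1 / 200000) 1 200000 200000 0 (-Real.log (1 / 200000)) := by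
  have z1 : (0 : ℤ) ∈ Icc (-(s0.D : ℤ)) s0.D := by simp [s0]
  have z2 : (0 : ℤ) ∈ Icc 0 (s0.D : ℤ) := by simp [s0]
  refine ⟨?_, const_mem z1 ((1 / 200000 : ℝ) : ℂ), const_mem z2 _, one_mem z2,
    fun _ => zero_le_one, fun _ => by norm_num [s0], fun _ => ofReal_re _, ?_, coef_one, ?_,
    isClosed_univ, measurable_const, fun _ => le_rfl, ⟨0, fun _ => le_rfl⟩, fun _ _ => rfl,
    fun x hx => absurd (mem_univ x) hx, (Real.exp_pos _).le, by norm_num, ?_, fun _ _ => le_rfl,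
    by simp [s0], by simp [s0], by simp [s0], by simp [s0], by simp [s0]⟩
  · exact const_mem z1 ((1 : ℝ) : ℂ)
  · simpa [s0] using coef_one
  · intro j hj
    exact Or.inr (coef_zero (S := {0}) (one_mem rfl) hj.ne')
  · intro x _
    simpa [s0] using Real.one_le_exp hK

theorem seq {σ : ℝ} (hσ : 0 < σ) : ∃ (K L : ℝ) (s : ℕ → St), 1 ≤ K ∧ s 0 = s0 ∧ ∀ k,
    Good (s k) (Real.exp (K * 25000 ^ k)) (1 / 200000 / 2 ^ k) (1 / 50000 ^ k) 200000
      (4001 * 200000) σ L ∧ Link (s k) (s (k + 1)) (4 / 25 / 2 ^ k) := by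
  set K := 50000 / σ + 1 with hK
  have K0 : 0 < 50000 / σ := by positivity
  have K1 : 1 ≤ K := by linarith
  let Q : ℕ → St → Prop := fun k t => Good t (Real.exp (K * 25000 ^ k)) (1 / 200000 / 2 ^ k)
    (1 / 50000 ^ k) (200000 / 2 ^ k) (200000 * (1 + 4000 * (1 - 1 / 2 ^ k))) (σ * (1 - 1 / 2 ^ k))
    (-Real.log (1 / 200000) + 80 * K * (1 - 1 / 2 ^ k))
  have h0 : Q 0 s0 := by simpa [Q] using good0 (K := K) (by linarith)
  have hs : ∀ k t, Q k t → ∃ t', Q (k + 1) t' ∧ Link t t' (4 / 25 / 2 ^ k) := by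
    intro k t ht
    have p1 : (1 : ℝ) ≤ 2 ^ k := one_le_pow₀ (by norm_num)
    have p2 : (2 : ℝ) ^ k ≤ 25000 ^ k := pow_le_pow_left₀ (by norm_num) (by norm_num) k
    have p3 : (50000 : ℝ) ^ k = 2 ^ k * 25000 ^ k := by rw [← mul_pow]; norm_num
    obtain ⟨t', g, l⟩ := stage ht (by nlinarith) (by positivity)
      (by rw [div_le_one (by positivity)]; linarith) (by positivity) (by positivity)
    refine ⟨t', g.mono (le_of_eq ?_) (le_of_eq ?_) (le_of_eq ?_) (le_of_eq ?_) (le_of_eq ?_) ?_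
      (le_of_eq ?_), l.mono (le_of_eq (by ring))⟩
    · congr 1; ring
    · field_simp; ring
    · field_simp; ring
    · field_simp; ring
    · field_simp; ring
    · have a1 : K * 2 ^ k ≤ Real.exp (K * 25000 ^ k) := by
        have := Real.add_one_le_exp (K * 25000 ^ k)
        nlinarith
      have a2 : Real.exp (-(K * 25000 ^ k)) ≤ 1 / (50000 / σ * 2 ^ k) := by
        rw [Real.exp_neg, ← one_div]
        refine one_div_le_one_div_of_le (by positivity) (le_trans ?_ a1)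
        gcongr; linarith
      have a3 : 25000 * (1 / (50000 / σ * 2 ^ k)) =
          σ * (1 - 1 / 2 ^ (k + 1)) - σ * (1 - 1 / 2 ^ k) := by field_simp; ring
      linarith
    · rw [p3]; field_simp; ring
  choose f hf using hs
  let s : (k : ℕ) → {t // Q k t} := fun k => Nat.rec (motive := fun k => {t // Q k t}) ⟨s0, h0⟩
    (fun k t => ⟨f k t.1 t.2, (hf k t.1 t.2).1⟩) k
  refine ⟨K, -Real.log (1 / 200000) + 80 * K, fun k => (s k).1, K1, rfl, fun k =>
    ⟨(s k).2.mono le_rfl le_rfl le_rfl ?_ ?_ ?_ ?_, (hf k (s k).1 (s k).2).2⟩⟩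
  · exact div_le_self (by norm_num) (one_le_pow₀ (by norm_num))
  · have : (0 : ℝ) < 1 / 2 ^ k := by positivity
    linarith
  · have : (0 : ℝ) < 1 / 2 ^ k := by positivity
    nlinarith
  · have : (0 : ℝ) < 1 / 2 ^ k := by positivity
    nlinarith

end Pool.Agent.H41.Db
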