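import Pool.Agent.H41.Dp3

set_option autoImplicit false
open MeasureTheory Complex Set Filter Topology Metric
open scoped ENNReal

namespace Pool.Agent.H41.Dp
open Pool.Agent.H41.Db Pool.Agent.H41.Bd

variable {p : ℝ}

noncomputable def lp (w : ℂ) : ℝ := Real.log (max 1 ‖w‖)

@[fun_prop] theorem lp_cont : Continuous lp :=
  (continuous_const.max continuous_norm).log fun _ => (one_pos.trans_le (le_max_left _ _)).ne'

theorem lp_nonneg (w : ℂ) : 0 ≤ lp w := Real.log_nonneg (le_max_left _ _)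

theorem le_exp_lp (w : ℂ) : ‖w‖ ≤ Real.exp (lp w) := by
  rw [lp, Real.exp_log (by positivity)]; exact le_max_right _ _

theorem lp_le {w : ℂ} {c : ℝ} (c0 : 0 ≤ c) (h : ‖w‖ ≤ Real.exp c) : lp w ≤ c := by
  rw [lp, Real.log_le_iff_le_exp (by positivity)]; exact max_le (Real.one_le_exp c0) h

theorem mean {Γ : ℂ → ℂ} (hΓ : Differentiable ℂ Γ) (ρ : ℝ) :
    ∫ x, (Γ (ρ * ee 1 x)).re = (Γ 0).re := by
  have h := cauchy (h := fun z => Γ (ρ * z)) (Differentiable.differentiableOn (by fun_prop))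
    (z := 0) (by simp)
  simp only [zero_mul, sub_zero, div_one, mul_zero] at h
  have k : Continuous fun x => Γ (ρ * ee 1 x) := hΓ.continuous.comp (by fun_prop)
  rw [← h]
  exact integral_re (Db.intg k)

theorem re_nonneg {Γ : ℂ → ℂ} (hΓ : Differentiable ℂ Γ) (h : ∀ x, 0 ≤ (Γ (ee 1 x)).re) {z : ℂ}
    (hz : z ∈ closedBall (0 : ℂ) 1) : 0 ≤ (Γ z).re := by
  have := maxmod (p := fun z => exp (-Γ z)) (by fun_prop) (C := 1)
    (fun x => by simpa [norm_exp] using h x) hz
  simpa [norm_exp] using this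

theorem sweep {Q : ℂ → ℂ} (hQ : Differentiable ℂ Q) {Y χ : X → ℝ} (kY : Continuous Y)
    (kχ : Continuous χ) (Y0 : ∀ x, 0 ≤ Y x) (χ0 : ∀ x, 0 ≤ χ x) (χ1 : ∀ x, χ x ≤ 1) {α r R : ℝ}
    (α0 : 0 ≤ α) (r0 : 0 ≤ r) (rR : r ≤ R) (R0 : 0 < R)
    (h : ∀ x, ‖Q (R * ee 1 x)‖ ≤ Real.exp (α + Y x)) :
    ∫ x, χ x * lp (Q (r * ee 1 x)) ≤ α * (∫ x, χ x) + ∫ x, Y x := by
  refine le_of_forall_pos_le_add fun ε hε => ?_
  obtain ⟨g, hg, hd⟩ := dense_re (f := fun x => Y x + ε / 2) (by fun_prop) (half_pos hε)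
  obtain ⟨g1, hg1, e1⟩ := completion hg
  obtain ⟨P, hP, e2⟩ := TP_poly (TP_mono (Ici_subset_Ici.2 zero_le_one) hg1)
  set Γ : ℂ → ℂ := fun z => P z + ∫ x, (g x : ℂ) with hΓ
  have dΓ : Differentiable ℂ Γ := hP.add_const _
  have e3 : ∀ x, (Γ (ee 1 x)).re = g x := fun x => by simp [hΓ, e2, e1]
  have g0 : ∀ x, Y x ≤ g x ∧ g x ≤ Y x + ε := fun x => by
    have := abs_le.1 (hd x); constructor <;> linarith
  have m : ∀ x, ((r / R : ℝ) : ℂ) * ee 1 x ∈ closedBall (0 : ℂ) 1 := fun x => by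
    rw [mem_closedBall, dist_zero_right, norm_mul, norm_ee, mul_one, Complex.norm_real,
      Real.norm_of_nonneg (by positivity)]
    exact div_le_one_of_le₀ rR R0.le
  have p0 := fun x => re_nonneg dΓ (fun x => by rw [e3]; linarith [g0 x, Y0 x]) (m x)
  have b1 : ∀ x, lp (Q (r * ee 1 x)) ≤ α + (Γ ((r / R : ℝ) * ee 1 x)).re := fun x => by
    refine lp_le (by linarith [p0 x]) ?_
    have := maxmod (p := fun z => Q (R * z) * exp (-Γ z)) (by fun_prop) (C := Real.exp α)
      (fun x => by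
        rw [norm_mul, norm_exp, neg_re, e3]
        refine (mul_le_mul_of_nonneg_right (h x) (Real.exp_pos _).le).trans ?_
        rw [← Real.exp_add]; exact Real.exp_le_exp.2 (by linarith [g0 x])) (m x)
    have R1 : (R : ℂ) ≠ 0 := by exact_mod_cast R0.ne'
    rw [norm_mul, norm_exp, neg_re, Real.exp_neg, ← div_eq_mul_inv, div_le_iff₀ (Real.exp_pos _),
      ← Real.exp_add, show (R : ℂ) * ((r / R : ℝ) * ee 1 x) = r * ee 1 x by
        push_cast; field_simp] at this
    exact this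
  have k1 : Continuous fun x => (Γ ((r / R : ℝ) * ee 1 x)).re :=
    continuous_re.comp (dΓ.continuous.comp (by fun_prop))
  have k2 : Continuous fun x => lp (Q (r * ee 1 x)) :=
    lp_cont.comp (hQ.continuous.comp (by fun_prop))
  have m1 := mean dΓ 1
  simp only [ofReal_one, one_mul, e3] at m1
  have m2 := Db.int_mono (re_cont hg) (g := fun x => Y x + ε) (by fun_prop) fun x => (g0 x).2
  rw [Db.int_add kY continuous_const] at m2
  have m3 := Db.int_mono (f := fun x => χ x * lp (Q (r * ee 1 x))) (kχ.mul k2) (g := fun x => α * χ x + (Γ ((r / R : ℝ) * ee 1 x)).re)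
    (by fun_prop) fun x => by
      have := mul_le_mul_of_nonneg_left (b1 x) (χ0 x)
      nlinarith [p0 x, χ1 x]
  rw [Db.int_add (by fun_prop) k1, mean dΓ, integral_const_mul] at m3
  simp only [integral_const, probReal_univ, one_smul] at m2
  exact m3.trans (by linarith)

theorem young (hp : 2 < p) {A s : ℝ} (A0 : 0 ≤ A) (s0 : 0 < s) (s1 : s < 1) :
    A ≤ s * ((1 - s) ^ (p - 1) * A ^ p) + (s ^ (-(p - 1)⁻¹) + (1 - s)⁻¹) := by
  have p1 : 0 < p - 1 := by linarith
  have t0 : 0 < 1 - s := by linarith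
  set γ := (p - 1)⁻¹ with hγ
  have γ1 : γ ≤ 1 := inv_le_one_of_one_le₀ (by linarith)
  have σ0 := Real.rpow_pos_of_pos s0 γ
  have σ1 : s ≤ s ^ γ := by
    simpa using Real.rpow_le_rpow_of_exponent_ge s0 s1.le γ1
  set y := A * (1 - s) * s ^ γ with hy
  have y0 : 0 ≤ y := by positivity
  have h1 : y ≤ y ^ p + 1 := by
    rcases le_total y 1 with h | h
    · linarith [Real.rpow_nonneg y0 p]
    · linarith [Real.self_le_rpow_of_one_le h (show 1 ≤ p by linarith)]
  have h2 : y ^ p = s * ((1 - s) ^ (p - 1) * A ^ p) * ((1 - s) * s ^ γ) := by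
    rw [hy, Real.mul_rpow (by positivity) σ0.le, Real.mul_rpow A0 t0.le, ← Real.rpow_mul s0.le,
      show γ * p = γ + 1 by rw [hγ]; field_simp; ring, Real.rpow_add_one s0.ne',
      Real.rpow_sub_one t0.ne']
    field_simp
  rw [Real.rpow_neg s0.le]
  refine le_of_mul_le_mul_right ?_ (mul_pos t0 σ0)
  rw [add_mul, ← h2, ← mul_assoc, ← hy]
  refine h1.trans (add_le_add_right ?_ _)
  have : ((s ^ γ)⁻¹ + (1 - s)⁻¹) * ((1 - s) * s ^ γ) = 1 - s + s ^ γ := by field_simp
  linarith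

theorem ray (hp : 2 < p) {F : ℂ → ℂ} (hF : DifferentiableOn ℂ F (ball 0 1)) {r : ℝ} (r0 : 0 ≤ r)
    (r1 : r < 1) {u : ℂ} (hu : ‖u‖ = 1) :
    ENNReal.ofReal ‖F (r * u)‖ ≤
      ENNReal.ofReal (‖F 0‖ + ((p - 1) / (p - 2) - Real.log (1 - r))) +
      ∫⁻ s in Ioi (0 : ℝ), ENNReal.ofReal s • (ball (0 : ℂ) 1).indicator
        (fun z => ENNReal.ofReal ((1 - ‖z‖) ^ (p - 1) * ‖deriv F z‖ ^ p)) (s * u) := by
  have kd : ContinuousOn (deriv F) (ball 0 1) := (hF.deriv isOpen_ball).continuousOn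
  have n : ∀ t : ℝ, 0 ≤ t → ‖(t : ℂ) * u‖ = t := fun t ht => by simp [hu, abs_of_nonneg ht]
  have m : ∀ t ∈ Icc 0 r, (t : ℂ) * u ∈ ball (0 : ℂ) 1 := fun t ht => by
    rw [mem_ball, dist_zero_right, n t ht.1]; linarith [ht.2]
  have k1 : ContinuousOn (fun t : ℝ => deriv F (t * u)) (Icc 0 r) := kd.comp (by fun_prop) m
  have a1 : ∫ t in (0 : ℝ)..r, deriv F (t * u) * u = F (r * u) - F ((0 : ℝ) * u) := by
    refine intervalIntegral.integral_eq_sub_of_hasDerivAt (f := fun t : ℝ => F (t * u))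
      (fun t ht => ?_) ?_
    · rw [uIcc_of_le r0] at ht
      exact ((hd hF (m t ht)).comp (t : ℂ) ((hasDerivAt_id (t : ℂ)).mul_const u)).comp_ofReal.congr_deriv
        (by simp)
    · exact ContinuousOn.intervalIntegrable (by rw [uIcc_of_le r0]; exact k1.mul (by fun_prop))
  have p1 : 0 < p - 1 := by linarith
  have p2 : 0 < p - 2 := by linarith
  have γ1 : -1 < -(p - 1)⁻¹ := neg_lt_neg (inv_lt_one_of_one_lt₀ (by linarith))
  have i1 := intervalIntegral.intervalIntegrable_rpow' (a := 0) (b := r) γ1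
  have i2 : IntervalIntegrable (fun s : ℝ => (1 - s)⁻¹) volume 0 r :=
    ContinuousOn.intervalIntegrable (by
      rw [uIcc_of_le r0]
      exact ContinuousOn.inv₀ (by fun_prop) fun s hs => by linarith [hs.2])
  have k2 : ContinuousOn (fun s : ℝ => s * ((1 - s) ^ (p - 1) * ‖deriv F (s * u)‖ ^ p)) (Icc 0 r) :=
    continuousOn_id.mul ((ContinuousOn.rpow_const (by fun_prop) fun _ _ => Or.inr p1.le).mul
      (k1.norm.rpow_const fun _ _ => Or.inr (by linarith)))
  have i3 := k2.intervalIntegrable_of_Icc (μ := volume) r0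
  have a2 : ∫ s in (0 : ℝ)..r, (s ^ (-(p - 1)⁻¹) + (1 - s)⁻¹) ≤
      (p - 1) / (p - 2) - Real.log (1 - r) := by
    rw [intervalIntegral.integral_add i1 i2, integral_rpow (Or.inl γ1),
      intervalIntegral.integral_comp_sub_left (fun s : ℝ => s⁻¹) 1,
      integral_inv_of_pos (by linarith) (by norm_num), Real.zero_rpow (by linarith),
      show -(p - 1)⁻¹ + 1 = (p - 2) / (p - 1) by field_simp; ring, sub_zero, sub_zero, one_div,
      Real.log_inv, div_div_eq_mul_div, ← sub_eq_add_neg]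
    gcongr
    exact mul_le_of_le_one_left p1.le (Real.rpow_le_one r0 r1.le (by positivity))
  have a3 : ‖F (r * u)‖ ≤ ‖F 0‖ + ((p - 1) / (p - 2) - Real.log (1 - r)) +
      ∫ s in (0 : ℝ)..r, s * ((1 - s) ^ (p - 1) * ‖deriv F (s * u)‖ ^ p) := by
    have b1 := intervalIntegral.norm_integral_le_integral_norm (μ := volume)
      (f := fun t : ℝ => deriv F (t * u) * u) r0
    simp only [a1, norm_mul, hu, mul_one, ofReal_zero, zero_mul] at b1
    have b2 := intervalIntegral.integral_mono_on_of_le_Ioo r0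
      (k1.norm.intervalIntegrable_of_Icc (μ := volume) r0) (i3.add (i1.add i2))
      fun s hs => young hp (norm_nonneg _) hs.1 (hs.2.trans r1)
    rw [intervalIntegral.integral_add i3 (i1.add i2)] at b2
    linarith [norm_sub_norm_le (F (r * u)) (F 0)]
  refine (ENNReal.ofReal_le_ofReal a3).trans (ENNReal.ofReal_add_le.trans (add_le_add_right ?_ _))
  rw [intervalIntegral.integral_of_le r0, ofReal_integral_eq_lintegral_ofReal i3.1 (by
    filter_upwards [ae_restrict_mem measurableSet_Ioc] with s hs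
    have : 0 ≤ 1 - s := by linarith [hs.2]
    have := hs.1
    positivity)]
  refine le_trans (setLIntegral_mono' measurableSet_Ioc fun s hs => le_of_eq ?_)
    (lintegral_mono_set Ioc_subset_Ioi_self)
  rw [indicator_of_mem (m s ⟨hs.1.le, hs.2⟩), n s hs.1.le, smul_eq_mul, ENNReal.ofReal_mul hs.1.le]

theorem M1 (hp : 2 < p) {F : ℂ → ℂ} (hF : DifferentiableOn ℂ F (ball 0 1))
    (hJ : J p (deriv F) ≤ 1) {r : ℝ} (r0 : 0 ≤ r) (r1 : r < 1) :
    ∫ x, ‖F (r * ee 1 x)‖ ≤ ‖F 0‖ + ((p - 1) / (p - 2) - Real.log (1 - r)) + 1 := by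
  set c := ‖F 0‖ + ((p - 1) / (p - 2) - Real.log (1 - r)) with hc
  have c0 : 0 ≤ c := by
    have := Real.log_nonpos (x := 1 - r) (by linarith) (by linarith)
    have : 0 ≤ (p - 1) / (p - 2) := div_nonneg (by linarith) (by linarith)
    linarith [norm_nonneg (F 0)]
  have e : ∀ ρ θ : ℝ, Complex.polarCoord.symm (ρ, θ) = ρ * ee 1 (th θ) := fun ρ θ => by
    rw [Complex.polarCoord_symm_apply, th, ee_theta, Complex.exp_mul_I]; simp
  have k := (cont_circ hF r0 r1).norm
  have hp2 : (0 : ℝ) < 2 * Real.pi := by positivity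
  have h1 : ∫ θ in Ioo (-Real.pi) Real.pi, ‖F (r * ee 1 (th θ))‖ =
      2 * Real.pi * ∫ x, ‖F (r * ee 1 x)‖ := by
    rw [← integral_Ioc_eq_integral_Ioo, ← intervalIntegral.integral_of_le (by linarith [Real.pi_pos])]
    have := intervalIntegral.integral_comp_div (a := -Real.pi) (b := Real.pi)
      (fun t : ℝ => ‖F (r * ee 1 (t : X))‖) hp2.ne'
    refine this.trans ?_
    rw [← UnitAddCircle.intervalIntegral_preimage (-Real.pi / (2 * Real.pi)), smul_eq_mul]
    congr 2
    field_simp; ring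
  rw [J, ← lintegral_indicator measurableSet_ball, ← Complex.lintegral_comp_polarCoord_symm,
    polarCoord_target, Measure.volume_eq_prod, ← Measure.prod_restrict, lintegral_prod_symm'] at hJ
  · simp only [e] at hJ
    have h2 := setLIntegral_mono' (μ := volume) (measurableSet_Ioo (a := -Real.pi) (b := Real.pi))
      fun θ _ => ray hp hF r0 r1 (norm_ee 1 (th θ))
    rw [lintegral_add_left measurable_const, setLIntegral_const, Real.volume_Ioo,
      ← ofReal_integral_eq_lintegral_ofReal (f := fun θ => ‖F (r * ee 1 (th θ))‖)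
        ((k.comp th_cont).integrableOn_Icc.mono_set Ioo_subset_Icc_self)
        (Eventually.of_forall fun θ => norm_nonneg _), h1, ← ENNReal.ofReal_mul c0] at h2
    have h3 := h2.trans (add_le_add_right hJ _)
    have c1 : 0 ≤ c * (Real.pi - -Real.pi) := mul_nonneg c0 (by linarith)
    rw [← ENNReal.ofReal_one, ← ENNReal.ofReal_add c1 zero_le_one,
      ENNReal.ofReal_le_ofReal_iff (by positivity)] at h3
    refine le_of_mul_le_mul_left (h3.trans ?_) hp2
    nlinarith [Real.pi_gt_three]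
  · have := measurable_deriv F
    have e2 : (Complex.polarCoord.symm : ℝ × ℝ → ℂ) = fun x => x.1 * ee 1 (th x.2) :=
      funext fun x => e x.1 x.2
    refine Measurable.mul (by fun_prop) (Measurable.comp (Measurable.indicator ?_ measurableSet_ball)
      (by rw [e2]; fun_prop))
    exact Measurable.ennreal_ofReal (Measurable.mul (Measurable.pow_const (by fun_prop) _)
      (Measurable.pow_const this.norm _))

theorem J_fatou (hp : 2 ≤ p) {u : ℕ → ℂ → ℂ} {v : ℂ → ℂ} (ku : ∀ n, ContinuousOn (u n) (ball 0 1))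
    (hl : ∀ z ∈ ball (0 : ℂ) 1, Tendsto (fun n => u n z) atTop (𝓝 (v z))) {C : ℝ≥0∞}
    (h : ∀ n, J p (u n) ≤ C) : J p v ≤ C := by
  refine le_trans (le_trans ?_ (lintegral_liminf_le' (u := atTop) fun n => W_meas hp (ku n)))
    (liminf_le_of_frequently_le' (Frequently.of_forall h))
  refine setLIntegral_mono' measurableSet_ball fun z hz => le_of_eq (Tendsto.liminf_eq ?_).symm
  exact ENNReal.tendsto_ofReal (((hl z hz).norm.rpow_const (Or.inr (by linarith))).const_mul _)

theorem chain {A c : ℕ → ℝ} (h : ∀ m, A m ≤ c m + A (m + 1)) (hc : Summable c)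
    (hA : Tendsto A atTop (𝓝 0)) : A 0 ≤ ∑' m, c m := by
  have h1 : ∀ m, A 0 ≤ ∑ j ∈ Finset.range m, c j + A m := fun m => by
    induction m with
    | zero => simp
    | succ m ih => rw [Finset.sum_range_succ]; linarith [h m]
  simpa using ge_of_tendsto' (hc.hasSum.tendsto_sum_nat.add hA) h1

end Pool.Agent.H41.Dp
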