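import Pool.Agent.H41.De1

set_option autoImplicit false
open MeasureTheory Complex Set Filter Topology Metric Finset
open scoped ENNReal ComplexConjugate

namespace Pool.Agent.H41.Dp
open Pool.Agent.H41.Db Pool.Agent.H41.Bd

def DD : ℕ → ℕ
  | 0 => 1
  | j + 1 => 256 * 8 ^ j * DD j

def ss : ℕ → ℕ
  | 0 => 0
  | k + 1 => ss k + (DD (k + 1) + 1 + ss k)

def nn (k : ℕ) : ℕ := DD (k + 1) + 1 + ss k

theorem DD_pos (j : ℕ) : 1 ≤ DD j := by
  induction j with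
  | zero => simp [DD]
  | succ j ih => rw [DD]; exact Nat.one_le_iff_ne_zero.2 (by positivity)

theorem DD_succ (j : ℕ) : 256 * DD j ≤ DD (j + 1) := by
  rw [DD]; exact Nat.mul_le_mul_right _ (Nat.le_mul_of_pos_right _ (by positivity))

theorem DD_mono : Monotone DD := monotone_nat_of_le_succ fun j => by linarith [DD_succ j]

theorem ss_le (k : ℕ) : ss k ≤ 4 * DD k := by
  induction k with
  | zero => simp [ss]
  | succ k ih => rw [ss]; linarith [DD_succ k, DD_pos k]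

theorem DD_le (k : ℕ) : DD k ≤ 2 ^ (8 * k ^ 2) := by
  induction k with
  | zero => simp [DD]
  | succ k ih =>
    rw [DD, show 256 * 8 ^ k = 2 ^ (8 + 3 * k) by rw [pow_add, pow_mul]; norm_num]
    refine (Nat.mul_le_mul_left _ ih).trans ?_
    rw [← pow_add]
    exact Nat.pow_le_pow_right two_pos (by nlinarith)

noncomputable def cx (n : ℕ) (x : X) : ℝ := (ee n x).re

@[fun_prop] theorem cx_cont (n : ℕ) : Continuous (cx n) := continuous_re.comp (ee_cont _)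

theorem cx_abs (n : ℕ) (x : X) : |cx n x| ≤ 1 := (abs_re_le_norm _).trans (norm_ee _ _).le

theorem cx_eq (n : ℕ) (x : X) : (cx n x : ℂ) = (ee n x + ee (-n) x) / 2 := by
  rw [ee_neg, cx, re_eq_add_conj]

theorem ee_inv (n : ℤ) (x : X) : ee n x * ee (-n) x = 1 := by rw [← ee_add]; simp [ee_zero]

theorem fac (c1 c2 : ℕ → ℝ) (k : ℕ) :
    (fun x => ((∏ j ∈ range k, (1 + c1 j * cx (nn j) x + c2 j * cx (nn j) x ^ 2) : ℝ) : ℂ)) ∈
      TP (Set.Icc (-(2 * ss k : ℤ)) (2 * ss k)) ∧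
    ∫ x, ∏ j ∈ range k, (1 + c1 j * cx (nn j) x + c2 j * cx (nn j) x ^ 2) =
      ∏ j ∈ range k, (1 + c2 j / 2) := by
  induction k with
  | zero => exact ⟨by simpa using Db.one_mem (by simp [ss]), by simp⟩
  | succ k ih =>
    obtain ⟨h1, h2⟩ := ih
    set n := nn k with hn
    have n1 : 2 * ss k < n := by rw [hn, nn]; linarith [ss_le k, DD_succ k, DD_pos k]
    have n2 : ss (k + 1) = ss k + n := rfl
    set T : Set ℤ := {t | (n : ℤ) ≤ |t| ∧ |t| ≤ 2 * n} with hT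
    have m : ∀ t : ℤ, (n : ℤ) ≤ |t| → |t| ≤ 2 * n → ee t ∈ TP T := fun t a b => ee_mem ⟨a, b⟩
    have a1 : |(n : ℤ)| = n := abs_of_nonneg (by positivity)
    have a2 : |(n : ℤ) + n| = n + n := abs_of_nonneg (by positivity)
    have u := TP_add
      (TP_cmul (c1 k / 2) (TP_add (m n (by omega) (by omega))
        (m (-n) (by rw [abs_neg]; omega) (by rw [abs_neg]; omega))))
      (TP_cmul (c2 k / 4) (TP_add (m (n + n) (by omega) (by omega))
        (m (-n + -n) (by rw [← neg_add, abs_neg]; omega) (by rw [← neg_add, abs_neg]; omega))))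
    have e : ∀ x, ((∏ j ∈ range (k + 1), (1 + c1 j * cx (nn j) x + c2 j * cx (nn j) x ^ 2) : ℝ) : ℂ) =
        ((1 + c2 k / 2 : ℝ) : ℂ) *
          ((∏ j ∈ range k, (1 + c1 j * cx (nn j) x + c2 j * cx (nn j) x ^ 2) : ℝ) : ℂ) +
        ((∏ j ∈ range k, (1 + c1 j * cx (nn j) x + c2 j * cx (nn j) x ^ 2) : ℝ) : ℂ) *
          (c1 k / 2 * (ee n x + ee (-n) x) + c2 k / 4 * (ee (n + n) x + ee (-n + -n) x)) := fun x => by
      rw [prod_range_succ, ofReal_mul, ← hn, ee_add, ee_add, mul_comm ((1 + c2 k / 2 : ℝ) : ℂ),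
        ← mul_add]
      congr 1
      push_cast
      rw [cx_eq]
      linear_combination (c2 k / 2) * ee_inv n x
    have v1 := TP_mul (U := {t | t ≠ 0}) (fun s hs t ht h => by
      simp only [Set.mem_Icc, hT, Set.mem_ofPred_eq] at hs ht
      cases abs_cases t <;> omega) h1 u
    have v2 := TP_mul (U := Set.Icc (-(2 * ss (k + 1) : ℤ)) (2 * ss (k + 1))) (fun s hs t ht => by
      simp only [Set.mem_Icc, hT, Set.mem_ofPred_eq, n2] at hs ht ⊢
      cases abs_cases t <;> omega) h1 u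
    refine ⟨?_, ?_⟩
    · simp only [e]
      exact TP_add (TP_cmul _ (TP_mono (Set.Icc_subset_Icc (by omega) (by omega)) h1)) v2
    · apply Complex.ofReal_injective
      rw [← integral_complex_ofReal]
      simp only [e]
      rw [Db.int_add (TP_cont (TP_cmul _ h1)) (TP_cont v1), int_TP v1 (by simp),
        integral_const_mul, integral_complex_ofReal, h2, prod_range_succ]
      push_cast; ring

noncomputable def TT (a : ℝ) (n : ℕ) (z : ℂ) : ℂ := z ^ n + a / 2 * (1 + z ^ (2 * n))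

noncomputable def RP (a : ℕ → ℝ) (k : ℕ) (x : X) : ℝ := ∏ j ∈ range k, (1 + a j * cx (nn j) x)

noncomputable def PP (a : ℕ → ℝ) (k : ℕ) (z : ℂ) : ℂ := ∏ j ∈ range k, TT (a j) (nn j) z

noncomputable def BB (a : ℕ → ℝ) (k : ℕ) (z : ℂ) : ℂ := z ^ (DD (k + 1) + 1) * PP a k z

noncomputable def GG (a : ℕ → ℝ) (k : ℕ) (z : ℂ) : ℂ := 1 + ∑ j ∈ range k, a j * BB a j z

noncomputable def GI (a : ℕ → ℝ) (z : ℂ) : ℂ := 1 + ∑' j, a j * BB a j z

@[fun_prop] theorem TT_diff (a : ℝ) (n : ℕ) : Differentiable ℂ (TT a n) := by unfold TT; fun_prop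
@[fun_prop] theorem PP_diff (a : ℕ → ℝ) (k : ℕ) : Differentiable ℂ (PP a k) := by
  unfold PP; fun_prop
@[fun_prop] theorem BB_diff (a : ℕ → ℝ) (k : ℕ) : Differentiable ℂ (BB a k) := by
  unfold BB; fun_prop
@[fun_prop] theorem GG_diff (a : ℕ → ℝ) (k : ℕ) : Differentiable ℂ (GG a k) := by
  unfold GG; fun_prop
@[fun_prop] theorem RP_cont (a : ℕ → ℝ) (k : ℕ) : Continuous (RP a k) := by unfold RP; fun_prop

theorem w_mem {a : ℝ} (a0 : 0 ≤ a) (a1 : a ≤ 1 / 2) (n : ℕ) (x : X) :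
    |a * cx n x| ≤ 1 / 2 ∧ 1 / 2 ≤ 1 + a * cx n x ∧ 1 + a * cx n x ≤ 2 := by
  have h : |a * cx n x| ≤ 1 / 2 := by
    rw [abs_mul, abs_of_nonneg a0]; nlinarith [cx_abs n x, abs_nonneg (cx n x)]
  refine ⟨h, ?_, ?_⟩ <;> linarith [abs_le.1 h]

theorem TT_ee (a : ℝ) (n : ℕ) (x : X) :
    TT a n (ee 1 x) = ee n x * ((1 + a * cx n x : ℝ) : ℂ) := by
  push_cast
  rw [TT, cx_eq, pow_mul', ← ee_pow]
  linear_combination (-a / 2) * ee_inv n x

theorem TT_le {a : ℝ} (a0 : 0 ≤ a) (a1 : a ≤ 1 / 2) (n : ℕ) (x : X) {ρ : ℝ} (ρ0 : 0 ≤ ρ)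
    (ρ1 : ρ ≤ 1) : ‖TT a n (ρ * ee 1 x)‖ ≤ 1 + a * cx n x ∧
      ‖deriv (TT a n) (ρ * ee 1 x)‖ ≤ 3 * n * (1 + a * cx n x) := by
  obtain ⟨-, w1, -⟩ := w_mem a0 a1 n x
  constructor
  · have s0 : 0 ≤ ρ ^ n := by positivity
    have s1 : ρ ^ n ≤ 1 := pow_le_one₀ ρ0 ρ1
    have e : TT a n (ρ * ee 1 x) = ((ρ ^ n : ℝ) : ℂ) * TT a n (ee 1 x) +
        ((a / 2 * (1 - ρ ^ n) : ℝ) : ℂ) * (1 - ((ρ ^ n : ℝ) : ℂ) * ee 1 x ^ (2 * n)) := by
      simp only [TT]; push_cast; ring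
    have h1 : ‖1 - ((ρ ^ n : ℝ) : ℂ) * ee 1 x ^ (2 * n)‖ ≤ 2 := by
      refine (norm_sub_le _ _).trans ?_
      rw [norm_one, norm_mul, norm_pow, norm_ee, one_pow, Complex.norm_real, Real.norm_of_nonneg s0]
      linarith
    rw [e]
    refine (norm_add_le _ _).trans ?_
    have h2 : 0 ≤ a / 2 * (1 - ρ ^ n) := mul_nonneg (by linarith) (by linarith)
    rw [norm_mul, norm_mul, TT_ee, norm_mul, norm_ee, Complex.norm_real, Complex.norm_real,
      Complex.norm_real, Real.norm_of_nonneg s0, Real.norm_of_nonneg h2,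
      Real.norm_of_nonneg (by linarith)]
    nlinarith [mul_le_mul_of_nonneg_left h1 h2]
  · have hz : ‖(ρ : ℂ) * ee 1 x‖ ≤ 1 := by simpa [norm_ee, abs_of_nonneg ρ0] using ρ1
    generalize (ρ : ℂ) * ee 1 x = z at hz
    have := ((hasDerivAt_pow n z).fun_add
      (((hasDerivAt_pow (2 * n) z).const_add 1).const_mul ((a : ℂ) / 2))).deriv
    unfold TT
    rw [this]
    refine (norm_add_le _ _).trans ?_
    have h1 := pow_le_one₀ (n := n - 1) (norm_nonneg z) hz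
    have h2 := pow_le_one₀ (n := 2 * n - 1) (norm_nonneg z) hz
    have n0 : (0 : ℝ) ≤ n := by positivity
    simp only [norm_mul, norm_pow, norm_div, Complex.norm_natCast, Complex.norm_real,
      Real.norm_of_nonneg a0, Complex.norm_ofNat]
    push_cast
    nlinarith [mul_le_mul_of_nonneg_left h1 n0, mul_le_mul_of_nonneg_left h2 (mul_nonneg a0 n0),
      mul_le_mul_of_nonneg_left w1 n0, mul_le_mul_of_nonneg_left a1 n0]

variable {a : ℕ → ℝ}

theorem RP_mem (ha : ∀ j, 0 ≤ a j ∧ a j ≤ 1 / 2) (k : ℕ) (x : X) :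
    0 ≤ RP a k x ∧ RP a k x ≤ 2 ^ k := by
  have h := fun j => w_mem (ha j).1 (ha j).2 (nn j) x
  refine ⟨prod_nonneg fun j _ => by linarith [h j], ?_⟩
  refine (prod_le_prod (g := fun _ => 2) (fun j _ => by linarith [h j]) fun j _ => (h j).2.2).trans ?_
  simp

theorem PP_le (ha : ∀ j, 0 ≤ a j ∧ a j ≤ 1 / 2) (k : ℕ) (x : X) {ρ : ℝ} (ρ0 : 0 ≤ ρ)
    (ρ1 : ρ ≤ 1) : ‖PP a k (ρ * ee 1 x)‖ ≤ RP a k x ∧
      ‖deriv (PP a k) (ρ * ee 1 x)‖ ≤ 3 * ss k * RP a k x := by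
  induction k with
  | zero =>
    have : PP a 0 = fun _ => 1 := funext fun _ => by simp [PP]
    simp [this, RP, ss]
  | succ k ih =>
    obtain ⟨t1, t2⟩ := TT_le (ha k).1 (ha k).2 (nn k) x ρ0 ρ1
    have e : PP a (k + 1) = fun z => PP a k z * TT (a k) (nn k) z :=
      funext fun _ => prod_range_succ _ _
    have e2 : RP a (k + 1) x = RP a k x * (1 + a k * cx (nn k) x) := prod_range_succ _ _
    have R0 := (RP_mem ha k x).1
    rw [e, e2, deriv_fun_mul (PP_diff a k _) (TT_diff _ _ _), show ss (k + 1) = ss k + nn k from rfl]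
    refine ⟨by rw [norm_mul]; gcongr; exact ih.1, (norm_add_le _ _).trans ?_⟩
    rw [norm_mul, norm_mul]
    have h1 := mul_le_mul ih.2 t1 (norm_nonneg _) (by positivity)
    have h2 := mul_le_mul ih.1 t2 (norm_nonneg _) R0
    push_cast
    linarith

theorem BB_le (ha : ∀ j, 0 ≤ a j ∧ a j ≤ 1 / 2) (k : ℕ) (x : X) {ρ : ℝ} (ρ0 : 0 ≤ ρ)
    (ρ1 : ρ ≤ 1) : ‖BB a k (ρ * ee 1 x)‖ ≤ ρ ^ DD (k + 1) * 2 ^ k ∧
      ‖deriv (BB a k) (ρ * ee 1 x)‖ ≤ DD (k + 1) * ρ ^ DD (k + 1) * (5 * RP a k x) := by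
  obtain ⟨h1, h2⟩ := PP_le ha k x ρ0 ρ1
  obtain ⟨R0, R1⟩ := RP_mem ha k x
  have hz : ‖(ρ : ℂ) * ee 1 x‖ = ρ := by simp [norm_ee, abs_of_nonneg ρ0]
  generalize (ρ : ℂ) * ee 1 x = z at hz h1 h2
  have q1 : ρ ^ (DD (k + 1) + 1) ≤ ρ ^ DD (k + 1) := pow_le_pow_of_le_one ρ0 ρ1 (by omega)
  have q0 : 0 ≤ ρ ^ DD (k + 1) := by positivity
  constructor
  · rw [BB, norm_mul, norm_pow, hz]
    exact mul_le_mul q1 (h1.trans R1) (norm_nonneg _) q0
  · unfold BB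
    rw [((hasDerivAt_pow _ z).fun_mul (PP_diff a k z).hasDerivAt).deriv]
    refine (norm_add_le _ _).trans ?_
    simp only [norm_mul, norm_pow, hz, Complex.norm_natCast, Nat.add_sub_cancel]
    have s1 : (ss k : ℝ) ≤ DD (k + 1) := by exact_mod_cast (by linarith [ss_le k, DD_succ k])
    have s2 : (1 : ℝ) ≤ DD (k + 1) := by exact_mod_cast DD_pos _
    have h3 := mul_le_mul q1 h2 (norm_nonneg _) q0
    have h4 := mul_le_mul_of_nonneg_left h1 (show 0 ≤ ((DD (k + 1) + 1 : ℕ) : ℝ) * ρ ^ DD (k + 1) by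
      positivity)
    have h5 := mul_nonneg q0 R0
    push_cast at h4 ⊢
    nlinarith [mul_le_mul_of_nonneg_left s1 h5, mul_le_mul_of_nonneg_left s2 h5]

theorem GG_re (a : ℕ → ℝ) (k : ℕ) (x : X) : (GG a k (ee 1 x)).re = RP a k x := by
  have h : ∀ k, PP a k (ee 1 x) = ee 1 x ^ ss k * (RP a k x : ℂ) := fun k => by
    induction k with
    | zero => simp [PP, RP, ss]
    | succ k ih =>
      rw [PP, prod_range_succ, ← PP, ih, TT_ee, RP, RP, prod_range_succ, ee_pow,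
        show ss (k + 1) = ss k + nn k from rfl]
      push_cast; ring
  induction k with
  | zero => simp [GG, RP]
  | succ k ih =>
    rw [GG, sum_range_succ, ← add_assoc, ← GG, add_re, ih, BB, h, ← mul_assoc (_ ^ _), ← pow_add,
      ← nn, ← ee_pow, RP, RP, prod_range_succ, ← RP]
    simp [cx]; ring

theorem polar (z : ℂ) : ∃ x, z = (‖z‖ : ℝ) * ee 1 x :=
  ⟨_, by rw [ee_theta]; exact (norm_mul_exp_arg_mul_I z).symm⟩

end Pool.Agent.H41.Dp
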