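import Pool.Agent.H41.De2

set_option autoImplicit false
open MeasureTheory Complex Set Filter Topology Metric Finset
open scoped ENNReal

namespace Pool.Agent.H41.Dp
open Pool.Agent.H41.Db Pool.Agent.H41.Bd

variable {p : ℝ} {a : ℕ → ℝ}

theorem tel {ρ : ℝ} (ρ0 : 0 ≤ ρ) (ρ1 : ρ ≤ 1) (b c : ℕ) :
    (1 - ρ) * (c * ρ ^ (b + c)) ≤ ρ ^ b - ρ ^ (b + c) := by
  induction c with
  | zero => simp
  | succ c ih =>
    have h1 : 0 ≤ ρ ^ (b + c) := by positivity
    have h2 : 0 ≤ (1 - ρ) * ((c + 1) * ρ ^ (b + c)) * (1 - ρ) := by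
      have : 0 ≤ 1 - ρ := by linarith
      positivity
    rw [← add_assoc, pow_succ]
    push_cast
    nlinarith

theorem pw {ρ : ℝ} (ρ0 : 0 ≤ ρ) (ρ1 : ρ ≤ 1) (c : ℕ) : (1 - ρ) * (c * ρ ^ c) ≤ 1 := by
  have := tel ρ0 ρ1 0 c
  rw [zero_add, pow_zero] at this
  linarith [pow_nonneg ρ0 c]

theorem W_le {ρ : ℝ} (ρ0 : 0 ≤ ρ) (ρ1 : ρ ≤ 1) (N : ℕ) :
    (1 - ρ) * ∑ k ∈ range N, DD (k + 1) * ρ ^ DD (k + 1) ≤ 2 - 2 * ρ ^ DD N := by
  induction N with
  | zero => simp [DD, ρ1]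
  | succ N ih =>
    obtain ⟨c, hc⟩ := Nat.exists_eq_add_of_le (DD_mono (Nat.le_succ N))
    have h1 := tel ρ0 ρ1 (DD N) c
    have h2 : (DD N : ℝ) ≤ c := by exact_mod_cast (by linarith [DD_succ N])
    have h3 : 0 ≤ (1 - ρ) * ρ ^ (DD N + c) := mul_nonneg (by linarith) (by positivity)
    rw [sum_range_succ, hc]
    push_cast
    nlinarith [mul_le_mul_of_nonneg_left h2 h3]

theorem GG_deriv (a : ℕ → ℝ) (k : ℕ) (z : ℂ) :
    deriv (GG a k) z = ∑ j ∈ range k, a j * deriv (BB a j) z :=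
  ((HasDerivAt.fun_sum fun j _ => (BB_diff a j z).hasDerivAt.const_mul (a j : ℂ)).const_add 1).deriv

theorem aB_le (ha : ∀ j, 0 ≤ a j ∧ a j ≤ 1 / 2) (j : ℕ) {r : ℝ} (r1 : r ≤ 1) {w : ℂ}
    (hw : ‖w‖ ≤ r) : ‖a j * BB a j w‖ ≤ 1 / 2 * (r ^ DD (j + 1) * 2 ^ j) := by
  obtain ⟨x, hx⟩ := polar w
  rw [norm_mul, Complex.norm_real, Real.norm_of_nonneg (ha j).1, hx]
  refine mul_le_mul (ha j).2 ((BB_le ha j x (norm_nonneg w) (hw.trans r1)).1.trans ?_)
    (norm_nonneg _) (by norm_num)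
  gcongr

theorem GI_prop (ha : ∀ j, 0 ≤ a j ∧ a j ≤ 1 / 2) {z : ℂ} (hz : z ∈ ball (0 : ℂ) 1) :
    DifferentiableAt ℂ (GI a) z ∧ Summable (fun j => a j * BB a j z) ∧
      Tendsto (fun k => deriv (GG a k) z) atTop (𝓝 (deriv (GI a) z)) := by
  obtain ⟨r, r0, r1⟩ := exists_between (show ‖z‖ < 1 by simpa using hz)
  have r2 : 0 ≤ r := (norm_nonneg _).trans r0.le
  have r3 : 0 < 1 - r := by linarith
  have hs : Summable fun j => 1 / 2 * (r ^ DD (j + 1) * 2 ^ j) := by
    refine Summable.mul_left _ (Summable.of_nonneg_of_le (fun j => by positivity) (fun j => ?_)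
      (summable_geometric_two.mul_left (1 - r)⁻¹))
    have h1 := pw r2 r1.le (DD (j + 1))
    have h2 : (2 : ℝ) ^ j * 2 ^ j ≤ DD (j + 1) := by
      have : 2 ^ j * 2 ^ j ≤ DD (j + 1) := by
        rw [DD, ← mul_pow]
        have := Nat.pow_le_pow_left (show 2 * 2 ≤ 8 by norm_num) j
        nlinarith [DD_pos j, Nat.one_le_pow j 8 (by norm_num)]
      exact_mod_cast this
    rw [one_div, inv_pow, ← mul_inv, ← one_div, le_div_iff₀ (by positivity)]
    nlinarith [mul_le_mul_of_nonneg_left h2 (mul_nonneg r3.le (pow_nonneg r2 (DD (j + 1))))]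
  have hb : ∀ j, ∀ w ∈ ball (0 : ℂ) r, ‖a j * BB a j w‖ ≤ _ := fun j w hw =>
    aB_le ha j r1.le (show ‖w‖ < r by simpa using hw).le
  have hd : ∀ j, DifferentiableOn ℂ (fun w => a j * BB a j w) (ball 0 r) := fun j =>
    Differentiable.differentiableOn (by fun_prop)
  have m : z ∈ ball (0 : ℂ) r := by simpa using r0
  refine ⟨((differentiableOn_tsum_of_summable_norm hs hd isOpen_ball hb).differentiableAt
    (isOpen_ball.mem_nhds m)).const_add 1, hs.of_norm_bounded fun j => hb j z m, ?_⟩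
  have := (hasSum_deriv_of_summable_norm hs hd isOpen_ball hb m).tendsto_sum_nat
  simp only [GG_deriv]
  unfold GI
  simpa only [deriv_const_mul_field', deriv_const_add'] using this

theorem GI_diff (ha : ∀ j, 0 ≤ a j ∧ a j ≤ 1 / 2) : DifferentiableOn ℂ (GI a) (ball 0 1) :=
  fun _ hz => (GI_prop ha hz).1.differentiableWithinAt

theorem GI_re (ha : ∀ j, 0 ≤ a j ∧ a j ≤ 1 / 2) {z : ℂ} (hz : z ∈ ball (0 : ℂ) 1) :
    0 ≤ (GI a z).re :=
  ge_of_tendsto' ((continuous_re.tendsto _).comp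
    ((GI_prop ha hz).2.1.hasSum.tendsto_sum_nat.const_add 1)) fun k =>
      re_nonneg (GG_diff a k) (fun x => by rw [GG_re]; exact (RP_mem ha k x).1)
        (ball_subset_closedBall hz)

theorem GI_zero (a : ℕ → ℝ) : GI a 0 = 1 := by simp [GI, BB]

theorem J_GG (hp : 2 ≤ p) (ha : ∀ j, 0 ≤ a j ∧ a j ≤ 1 / 2) (N : ℕ) :
    J p (deriv (GG a N)) ≤ ENNReal.ofReal (2 * Real.pi * 2 ^ (p - 1) *
      ∑ k ∈ range N, 5 ^ p * (a k ^ p * ∫ x, RP a k x ^ p)) := by
  have kd : Continuous (deriv (GG a N)) := (GG_diff a N).deriv.continuous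
  have kR : ∀ k, Continuous fun x => RP a k x ^ p := fun k =>
    (RP_cont a k).rpow_const fun _ => Or.inr (by linarith)
  have k2 : Continuous fun z => (1 - ‖z‖) ^ (p - 1) * ‖deriv (GG a N) z‖ ^ p :=
    (Continuous.rpow_const (by fun_prop) fun _ => Or.inr (by linarith)).mul
      (kd.norm.rpow_const fun _ => Or.inr (by linarith))
  have b0 : ∀ k, 0 ≤ 5 ^ p * (a k ^ p * ∫ x, RP a k x ^ p) := fun k =>
    mul_nonneg (by positivity) (mul_nonneg (Real.rpow_nonneg (ha k).1 _)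
      (integral_nonneg fun x => Real.rpow_nonneg (RP_mem ha k x).1 _))
  refine (polar_le k2.continuousOn fun z hz => mul_nonneg (w0 hz) (by positivity)).trans ?_
  refine le_trans (setLIntegral_mono' (g := fun ρ => ENNReal.ofReal (2 * Real.pi * 2 ^ (p - 1) *
    ∑ k ∈ range N, 5 ^ p * (a k ^ p * ∫ x, RP a k x ^ p) * (DD (k + 1) * ρ ^ DD (k + 1))))
    measurableSet_Ioo fun ρ hρ => ENNReal.ofReal_le_ofReal ?_) ?_
  · obtain ⟨ρ0, ρ1⟩ := hρ
    have t0 : 0 ≤ 1 - ρ := by linarith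
    have h1 : ∀ x, (1 - ‖(ρ : ℂ) * ee 1 x‖) ^ (p - 1) * ‖deriv (GG a N) (ρ * ee 1 x)‖ ^ p ≤
        2 ^ (p - 1) * ∑ k ∈ range N, DD (k + 1) * ρ ^ DD (k + 1) *
          (5 ^ p * (a k ^ p * RP a k x ^ p)) := fun x => by
      have y0 : ∀ k, 0 ≤ 5 * (a k * RP a k x) := fun k =>
        mul_nonneg (by norm_num) (mul_nonneg (ha k).1 (RP_mem ha k x).1)
      have h2 := Real.inner_le_weight_mul_Lp_of_nonneg (range N) (p := p) (by linarith)
        (fun k => DD (k + 1) * ρ ^ DD (k + 1)) (fun k => 5 * (a k * RP a k x))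
        (fun k => by positivity) y0
      have h3 : ‖deriv (GG a N) (ρ * ee 1 x)‖ ≤
          ∑ k ∈ range N, DD (k + 1) * ρ ^ DD (k + 1) * (5 * (a k * RP a k x)) := by
        rw [GG_deriv]
        refine (norm_sum_le _ _).trans (sum_le_sum fun k _ => ?_)
        rw [norm_mul, Complex.norm_real, Real.norm_of_nonneg (ha k).1]
        linarith [mul_le_mul_of_nonneg_left (BB_le ha k x ρ0.le ρ1.le).2 (ha k).1]
      have W0 : 0 ≤ ∑ k ∈ range N, DD (k + 1) * ρ ^ DD (k + 1) := sum_nonneg fun k _ => by positivity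
      have S0 : 0 ≤ ∑ k ∈ range N, DD (k + 1) * ρ ^ DD (k + 1) * (5 * (a k * RP a k x)) ^ p :=
        sum_nonneg fun k _ => mul_nonneg (by positivity) (Real.rpow_nonneg (y0 k) _)
      have h4 := Real.rpow_le_rpow (norm_nonneg _) (h3.trans h2) (show 0 ≤ p by linarith)
      rw [Real.mul_rpow (by positivity) (by positivity), Real.rpow_inv_rpow S0 (by linarith),
        ← Real.rpow_mul W0, show (1 - p⁻¹) * p = p - 1 by field_simp] at h4
      have h5 := Real.rpow_le_rpow (mul_nonneg t0 W0)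
        ((W_le ρ0.le ρ1.le N).trans (sub_le_self _ (by positivity))) (show 0 ≤ p - 1 by linarith)
      rw [Real.mul_rpow t0 W0] at h5
      have e : ∀ k, (5 * (a k * RP a k x)) ^ p = 5 ^ p * (a k ^ p * RP a k x ^ p) := fun k => by
        rw [Real.mul_rpow (by norm_num) (mul_nonneg (ha k).1 (RP_mem ha k x).1),
          Real.mul_rpow (ha k).1 (RP_mem ha k x).1]
      simp only [← e, norm_mul, norm_ee, mul_one, Complex.norm_real, Real.norm_of_nonneg ρ0.le]
      refine (mul_le_mul_of_nonneg_left h4 (Real.rpow_nonneg t0 _)).trans ?_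
      rw [← mul_assoc]
      exact mul_le_mul_of_nonneg_right h5 S0
    have h6 := Db.int_mono (k2.comp (by fun_prop : Continuous fun x => (ρ : ℂ) * ee 1 x))
      (by fun_prop) h1
    rw [integral_const_mul, integral_finsetSum _ fun k _ => Db.intg (by fun_prop)] at h6
    simp only [integral_const_mul] at h6
    refine (mul_le_of_le_one_left (mul_nonneg (by positivity) (integral_nonneg fun x => ?_))
      ρ1.le).trans ?_
    · exact mul_nonneg (w0 (by simpa [norm_ee, abs_of_pos ρ0] using ρ1)) (by positivity)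
    · rw [mul_assoc (2 * Real.pi)]
      refine mul_le_mul_of_nonneg_left (h6.trans (le_of_eq ?_)) (by positivity)
      simp only [mul_comm (5 ^ p * _ : ℝ)]
  · rw [← ofReal_integral_eq_lintegral_ofReal
      ((Continuous.integrableOn_Icc (by fun_prop)).mono_set Ioo_subset_Icc_self) (by
        filter_upwards [ae_restrict_mem measurableSet_Ioo] with ρ hρ
        have := hρ.1
        exact mul_nonneg (by positivity) (sum_nonneg fun k _ => mul_nonneg (b0 k) (by positivity)))]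
    refine ENNReal.ofReal_le_ofReal ?_
    rw [← integral_Ioc_eq_integral_Ioo, ← intervalIntegral.integral_of_le zero_le_one,
      intervalIntegral.integral_const_mul, intervalIntegral.integral_finsetSum
        fun k _ => Continuous.intervalIntegrable (by fun_prop) _ _]
    refine mul_le_mul_of_nonneg_left (sum_le_sum fun k _ => ?_) (by positivity)
    rw [intervalIntegral.integral_const_mul, intervalIntegral.integral_const_mul, integral_pow]
    refine mul_le_of_le_one_right (b0 k) ?_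
    rw [← mul_div_assoc, div_le_one (by positivity)]
    simp

theorem J_GI (hp : 2 ≤ p) (ha : ∀ j, 0 ≤ a j ∧ a j ≤ 1 / 2)
    (hs : Summable fun k => a k ^ p * ∫ x, RP a k x ^ p) : J p (deriv (GI a)) < ⊤ := by
  refine (J_fatou hp (fun N => (GG_diff a N).deriv.continuous.continuousOn)
    (fun z hz => (GI_prop ha hz).2.2) (C := ENNReal.ofReal (2 * Real.pi * 2 ^ (p - 1) *
      ∑' k, 5 ^ p * (a k ^ p * ∫ x, RP a k x ^ p))) fun N => (J_GG hp ha N).trans
        (ENNReal.ofReal_le_ofReal ?_)).trans_lt ENNReal.ofReal_lt_top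
  refine mul_le_mul_of_nonneg_left ((hs.mul_left _).sum_le_tsum _ fun k _ => ?_) (by positivity)
  exact mul_nonneg (by positivity) (mul_nonneg (Real.rpow_nonneg (ha k).1 _)
      (integral_nonneg fun x => Real.rpow_nonneg (RP_mem ha k x).1 _))

noncomputable def LL (k : ℕ) : ℝ := 32 * 2 ^ k * DD k

noncomputable def rad (k : ℕ) : ℝ := 1 - (LL k)⁻¹

theorem LL_ge (k : ℕ) : 32 ≤ LL k := by
  have h1 : (1 : ℝ) ≤ DD k := by exact_mod_cast DD_pos k
  have h2 : (1 : ℝ) ≤ 2 ^ k := one_le_pow₀ (by norm_num)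
  unfold LL; nlinarith

theorem LL_mono {k i : ℕ} (h : k ≤ i) : LL k ≤ LL i := by
  have h1 : (DD k : ℝ) ≤ DD i := by exact_mod_cast DD_mono h
  unfold LL; gcongr; norm_num

theorem rad_mem (k : ℕ) : 0 < rad k ∧ rad k < 1 := by
  have h1 := inv_anti₀ (by norm_num) (LL_ge k)
  have h2 : 0 < (LL k)⁻¹ := inv_pos.2 (by linarith [LL_ge k])
  unfold rad; constructor <;> linarith

theorem rad_mono {k i : ℕ} (h : k ≤ i) : rad k ≤ rad i :=
  sub_le_sub_left (inv_anti₀ (by linarith [LL_ge k]) (LL_mono h)) _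

theorem rad_log {k : ℕ} (hk : 1 ≤ k) : -Real.log (1 - rad k) ≤ 14 * (k : ℝ) ^ 2 := by
  have h1 : (DD k : ℝ) ≤ 2 ^ (8 * k ^ 2) := by exact_mod_cast DD_le k
  have h2 : LL k ≤ 2 ^ (14 * k ^ 2) := by
    refine le_trans (b := 2 ^ (5 + k + 8 * k ^ 2)) ?_ (pow_le_pow_right₀ (by norm_num) (by nlinarith))
    rw [pow_add, pow_add, LL]; gcongr; norm_num
  rw [rad, sub_sub_cancel, Real.log_inv, neg_neg]
  refine (Real.log_le_log (by linarith [LL_ge k]) h2).trans ?_
  rw [Real.log_pow]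
  push_cast
  exact mul_le_of_le_one_right (by positivity) (by linarith [Real.log_two_lt_d9])

theorem level (ha : ∀ j, 0 ≤ a j ∧ a j ≤ 1 / 2) (k : ℕ) (x : X) :
    (GI a (rad k * ee 1 x)).re ≤ RP a k x + 1 / 4 := by
  obtain ⟨r0, r1⟩ := rad_mem k
  have L0 : 0 < LL k := by linarith [LL_ge k]
  have hn : ‖(rad k : ℂ) * ee 1 x‖ = rad k := by simp [norm_ee, abs_of_pos r0]
  have h1 : ‖∑' j, a (j + k) * BB a (j + k) (rad k * ee 1 x)‖ ≤ 1 / 16 * 2 := by
    refine tsum_of_norm_bounded (hasSum_geometric_two.mul_left _) fun j =>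
      (aB_le ha _ r1.le hn.le).trans ?_
    have h2 := pw r0.le r1.le (DD (j + k + 1))
    rw [show 1 - rad k = (LL k)⁻¹ by simp [rad], inv_mul_le_iff₀ L0, mul_one] at h2
    have h3 := h2.trans (LL_mono (Nat.le_add_left k j))
    have D0 : (0 : ℝ) < DD (j + k) := by exact_mod_cast DD_pos _
    have h4 : (2 : ℝ) ^ j ≤ 2 ^ (j + k) := pow_le_pow_right₀ (by norm_num) (by omega)
    have q0 := pow_nonneg r0.le (DD (j + k + 1))
    generalize rad k ^ DD (j + k + 1) = q at *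
    rw [DD, LL] at h3
    push_cast at h3
    rw [show (8 : ℝ) ^ (j + k) = 2 ^ (j + k) * 2 ^ (j + k) * 2 ^ (j + k) by
      rw [← mul_pow, ← mul_pow]; norm_num] at h3
    have u0 : (0 : ℝ) < 2 ^ (j + k) := by positivity
    generalize (2 : ℝ) ^ (j + k) = u at *
    have h5 : 8 * (q * u * u) ≤ 1 := by
      refine le_of_mul_le_mul_right ?_ (mul_pos (mul_pos (show (0 : ℝ) < 32 by norm_num) u0) D0)
      linarith
    rw [one_div (2 : ℝ), inv_pow, ← div_eq_mul_inv, le_div_iff₀ (by positivity)]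
    nlinarith [mul_le_mul_of_nonneg_left h4 (mul_nonneg q0 u0.le)]
  have h2 : ‖GG a k (rad k * ee 1 x) - GG a k (ee 1 x)‖ ≤
      LL k / 8 * ‖(rad k : ℂ) * ee 1 x - ee 1 x‖ := by
    refine (convex_closedBall (0 : ℂ) 1).norm_image_sub_le_of_norm_deriv_le
      (fun y _ => GG_diff a k y) (fun y hy => ?_) (ee_mem_ball x) (by simpa [norm_ee, abs_of_pos r0] using r1.le)
    obtain ⟨u, hu⟩ := polar y
    have y1 : ‖y‖ ≤ 1 := by simpa using hy
    rw [GG_deriv]
    refine (norm_sum_le _ _).trans ((sum_le_sum (g := fun j => 4 * DD k * (2 : ℝ) ^ j)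
      fun j hj => ?_).trans ?_)
    · rw [norm_mul, Complex.norm_real, Real.norm_of_nonneg (ha j).1, hu]
      have b1 := (BB_le ha j u (norm_nonneg y) y1).2
      have b2 : (DD (j + 1) : ℝ) ≤ DD k := by exact_mod_cast DD_mono (mem_range.1 hj)
      have b3 := pow_le_one₀ (n := DD (j + 1)) (norm_nonneg y) y1
      obtain ⟨b4, b5⟩ := RP_mem ha j u
      refine (mul_le_mul (ha j).2 (b1.trans (?_ : _ ≤ (DD k : ℝ) * 1 * (5 * 2 ^ j))) (norm_nonneg _)
        (by norm_num)).trans ?_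
      · gcongr
      · have : (0 : ℝ) ≤ DD k * 2 ^ j := by positivity
        linarith
    · rw [← mul_sum, geom_sum_eq (by norm_num), LL]
      have : (0 : ℝ) ≤ DD k := by positivity
      linarith
  rw [← sub_one_mul, norm_mul, norm_ee, mul_one, ← ofReal_one, ← ofReal_sub, Complex.norm_real,
    Real.norm_of_nonpos (by linarith), show -(rad k - 1) = (LL k)⁻¹ by simp [rad],
    show LL k / 8 * (LL k)⁻¹ = 1 / 8 by field_simp] at h2
  have h3 := (GI_prop ha (z := rad k * ee 1 x) (by simpa [norm_ee, abs_of_pos r0] using r1)).2.1.sum_add_tsum_nat_add k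
  rw [GI, ← h3, ← add_assoc, ← GG, add_re, ← GG_re]
  have h4 := (re_le_norm _).trans h2
  rw [sub_re] at h4
  linarith [(re_le_norm _).trans h1]

end Pool.Agent.H41.Dp
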