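import Pool.Agent.H41.De3

set_option autoImplicit false
open MeasureTheory Complex Set Filter Topology Metric Finset
open scoped ENNReal

namespace Pool.Agent.H41.Dp
open Pool.Agent.H41.Db Pool.Agent.H41.Bd

variable {p κ : ℝ} {a : ℕ → ℝ}

theorem binom {y : ℝ} (hy : |y| ≤ 1) (P : ℕ) : (1 + y) ^ P ≤ 1 + P * y + 3 ^ P * y ^ 2 := by
  obtain ⟨y0, y1⟩ := abs_le.1 hy
  induction P with
  | zero => simpa using sq_nonneg y
  | succ P ih =>
    have h1 : (P : ℝ) ≤ 3 ^ P := by exact_mod_cast (Nat.lt_pow_self (by norm_num)).le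
    have h2 := mul_le_mul_of_nonneg_right ih (show 0 ≤ 1 + y by linarith)
    have h3 : 0 ≤ (3 : ℝ) ^ P * y ^ 2 := by positivity
    rw [pow_succ, pow_succ (3 : ℝ)]
    push_cast
    nlinarith [mul_le_mul_of_nonneg_right h1 (sq_nonneg y), mul_le_mul_of_nonneg_left y1 h3]

theorem prod_exp {c : ℕ → ℝ} (h : ∀ j, 0 ≤ 1 + c j) (k : ℕ) :
    ∏ j ∈ range k, (1 + c j) ≤ Real.exp (∑ j ∈ range k, c j) := by
  rw [Real.exp_sum]
  exact prod_le_prod (fun j _ => h j) fun j _ => by linarith [Real.add_one_le_exp (c j)]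

theorem int_Rp (hp : 2 ≤ p) (ha : ∀ j, 0 ≤ a j ∧ a j ≤ 1 / 2) (k : ℕ) :
    ∫ x, RP a k x ^ p ≤ 1 + Real.exp (3 ^ ⌈p⌉₊ / 2 * ∑ j ∈ range k, a j ^ 2) := by
  obtain ⟨-, h⟩ := fac (fun j => ⌈p⌉₊ * a j) (fun j => 3 ^ ⌈p⌉₊ * a j ^ 2) k
  have h1 := Db.int_mono ((RP_cont a k).rpow_const fun _ => Or.inr (show 0 ≤ p by linarith))
    (g := fun x => 1 + ∏ j ∈ range k,
      (1 + ⌈p⌉₊ * a j * cx (nn j) x + 3 ^ ⌈p⌉₊ * a j ^ 2 * cx (nn j) x ^ 2)) (by fun_prop) fun x => by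
      have R0 := (RP_mem ha k x).1
      have h2 : RP a k x ^ p ≤ 1 + RP a k x ^ ⌈p⌉₊ := by
        rcases le_total (RP a k x) 1 with h | h
        · linarith [Real.rpow_le_one R0 h (show 0 ≤ p by linarith), pow_nonneg R0 ⌈p⌉₊]
        · have := Real.rpow_le_rpow_of_exponent_le h (Nat.le_ceil p)
          rw [Real.rpow_natCast] at this; linarith
      refine h2.trans (add_le_add_right ?_ _)
      rw [RP, ← Finset.prod_pow]
      refine prod_le_prod (fun j _ => pow_nonneg ?_ _) fun j _ => ?_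
      · linarith [w_mem (ha j).1 (ha j).2 (nn j) x]
      · refine (binom (by linarith [w_mem (ha j).1 (ha j).2 (nn j) x]) _).trans (le_of_eq ?_)
        ring
  rw [Db.int_add continuous_const (by fun_prop), h] at h1
  simp only [integral_const, probReal_univ, one_smul] at h1
  refine h1.trans (add_le_add_right ((prod_exp (fun j => by positivity) k).trans (le_of_eq ?_)) _)
  rw [mul_sum]; congr 2; funext j; ring

noncomputable def QP (a : ℕ → ℝ) (k : ℕ) (x : X) : ℝ :=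
  ∏ j ∈ range k, (1 + a j / 2 * cx (nn j) x + -a j ^ 2 / 16 * cx (nn j) x ^ 2)

@[fun_prop] theorem QP_cont (a : ℕ → ℝ) (k : ℕ) : Continuous (QP a k) := by unfold QP; fun_prop

theorem QP_ge (ha : ∀ j, 0 ≤ a j ∧ a j ≤ 1 / 2) (k : ℕ) (x : X) :
    0 ≤ QP a k x ∧ RP a k x ≤ QP a k x ^ 2 := by
  have h := fun j => w_mem (ha j).1 (ha j).2 (nn j) x
  have e : ∀ j, 1 + a j / 2 * cx (nn j) x + -a j ^ 2 / 16 * cx (nn j) x ^ 2 =
    1 + a j * cx (nn j) x / 2 - (a j * cx (nn j) x) ^ 2 / 16 := fun j => by ring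
  simp only [QP, e]
  refine ⟨prod_nonneg fun j _ => ?_, ?_⟩
  · nlinarith [h j]
  · rw [RP, ← Finset.prod_pow]
    refine prod_le_prod (fun j _ => by linarith [h j]) fun j _ => ?_
    have := h j
    generalize a j * cx (nn j) x = y at *
    nlinarith [mul_nonneg (sq_nonneg y) (show 0 ≤ 2 - y by linarith), sq_nonneg (y ^ 2)]

theorem int_QP (ha : ∀ j, 0 ≤ a j ∧ a j ≤ 1 / 2) (k : ℕ) :
    ∫ x, QP a k x ≤ Real.exp (-(1 / 32) * ∑ j ∈ range k, a j ^ 2) := by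
  obtain ⟨-, h⟩ := fac (fun j => a j / 2) (fun j => -a j ^ 2 / 16) k
  refine h.le.trans ((prod_exp (fun j => by nlinarith [ha j]) k).trans (le_of_eq ?_))
  rw [mul_sum]; congr 2; funext j; ring

noncomputable def ch (a : ℕ → ℝ) (k : ℕ) (x : X) : ℝ := min 1 (2 * QP a k x)

@[fun_prop] theorem ch_cont (a : ℕ → ℝ) (k : ℕ) : Continuous (ch a k) := by unfold ch; fun_prop

theorem ch_mem (ha : ∀ j, 0 ≤ a j ∧ a j ≤ 1 / 2) (k : ℕ) (x : X) : 0 ≤ ch a k x ∧ ch a k x ≤ 1 :=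
  ⟨le_min zero_le_one (by linarith [QP_ge ha k x]), min_le_left _ _⟩

theorem stp (ha : ∀ j, 0 ≤ a j ∧ a j ≤ 1 / 2) {Q F : ℂ → ℂ} (hQ : Differentiable ℂ Q)
    (hF : DifferentiableOn ℂ F (ball 0 1))
    (h : ∀ z ∈ ball (0 : ℂ) 1, (GI a z).re ≤ 1 / 2 → ‖Q z‖ ≤ ‖F z‖) {χ : X → ℝ} (kχ : Continuous χ)
    (χ0 : ∀ x, 0 ≤ χ x) (χ1 : ∀ x, χ x ≤ 1) (k : ℕ) {r T : ℝ} (r0 : 0 ≤ r) (r1 : r ≤ rad k)
    (T1 : 1 ≤ T) : ∫ x, χ x * lp (Q (r * ee 1 x)) ≤ Real.log T * (∫ x, χ x) +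
      (T⁻¹ * (∫ x, ‖F (rad k * ee 1 x)‖) + ∫ x, ch a k x * lp (Q (rad k * ee 1 x))) := by
  obtain ⟨R0, R1⟩ := rad_mem k
  have k1 := (cont_circ hF R0.le R1).norm
  have k2 : Continuous fun x => lp (Q (rad k * ee 1 x)) :=
    lp_cont.comp (hQ.continuous.comp (by fun_prop))
  have l0 := Real.log_nonneg T1
  rw [← integral_const_mul T⁻¹, ← Db.int_add (by fun_prop) (by fun_prop)]
  refine sweep hQ (by fun_prop) kχ (fun x => add_nonneg (by positivity)
    (mul_nonneg (ch_mem ha k x).1 (lp_nonneg _))) χ0 χ1 l0 r0 r1 R0 fun x => ?_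
  have h0 : 0 ≤ T⁻¹ * ‖F (rad k * ee 1 x)‖ := by positivity
  rcases le_total 1 (2 * QP a k x) with h1 | h1
  · refine (le_exp_lp _).trans (Real.exp_le_exp.2 ?_)
    rw [ch, min_eq_left h1]; linarith
  · obtain ⟨q0, q1⟩ := QP_ge ha k x
    refine (h _ (by simpa [norm_ee, abs_of_pos R0] using R1)
      ((level ha k x).trans (by nlinarith))).trans ?_
    have h2 := Real.add_one_le_exp (T⁻¹ * ‖F (rad k * ee 1 x)‖ + ch a k x * lp (Q (rad k * ee 1 x)))
    have h3 := mul_nonneg (ch_mem ha k x).1 (lp_nonneg (Q (rad k * ee 1 x)))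
    rw [Real.exp_add, Real.exp_log (by linarith), ← inv_mul_le_iff₀ (by linarith)]
    linarith

noncomputable def aa (κ : ℝ) (j : ℕ) : ℝ := √(κ / (j + 1))

theorem aa_mem (κ1 : κ ≤ 1 / 4) (j : ℕ) : 0 ≤ aa κ j ∧ aa κ j ≤ 1 / 2 := by
  refine ⟨Real.sqrt_nonneg _, Real.sqrt_le_iff.2 ⟨by norm_num, ?_⟩⟩
  rw [div_le_iff₀ (by positivity)]
  linarith [Nat.cast_nonneg (α := ℝ) j]

theorem aa_sum (κ0 : 0 < κ) (k : ℕ) : ∑ j ∈ range k, aa κ j ^ 2 = κ * harmonic k := by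
  simp only [aa, harmonic]
  push_cast
  rw [mul_sum]
  exact sum_congr rfl fun j _ => by rw [Real.sq_sqrt (by positivity), div_eq_mul_inv]

theorem aa_summ (hp : 2 < p) (κ0 : 0 < κ) (κ1 : κ ≤ 1 / 4) (κ2 : 3 ^ ⌈p⌉₊ * κ ≤ p / 2 - 1) :
    Summable fun k => aa κ k ^ p * ∫ x, RP (aa κ) k x ^ p := by
  set δ := 3 ^ ⌈p⌉₊ / 2 * κ with hδ
  have δ0 : 0 < δ := by positivity
  have hs := ((summable_nat_add_iff 1).2 (Real.summable_nat_rpow.2
    (show δ + -(p / 2) < -1 by linarith))).mul_left (2 * Real.exp δ)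
  refine Summable.of_nonneg_of_le (fun k => mul_nonneg (Real.rpow_nonneg (aa_mem κ1 k).1 _)
    (integral_nonneg fun x => Real.rpow_nonneg (RP_mem (aa_mem κ1) k x).1 _)) (fun k => ?_) hs
  have k0 : (0 : ℝ) < ((k + 1 : ℕ) : ℝ) := by positivity
  have k1 : (1 : ℝ) ≤ ((k + 1 : ℕ) : ℝ) := by exact_mod_cast Nat.succ_pos k
  have h1 : aa κ k ^ p ≤ ((k + 1 : ℕ) : ℝ) ^ (-(p / 2)) := by
    rw [aa, Real.sqrt_eq_rpow, ← Real.rpow_mul (by positivity), Real.rpow_neg k0.le,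
      ← Real.inv_rpow k0.le, show 1 / 2 * p = p / 2 by ring]
    refine Real.rpow_le_rpow (by positivity) ?_ (by linarith)
    push_cast
    rw [← one_div]; gcongr; linarith
  have h2 : (harmonic k : ℝ) ≤ 1 + Real.log ((k + 1 : ℕ) : ℝ) := by
    refine le_trans ?_ (harmonic_le_one_add_log (k + 1))
    rw [harmonic_succ]; push_cast
    exact le_add_of_nonneg_right (by positivity)
  have h3 := int_Rp hp.le (aa_mem κ1) k
  rw [aa_sum κ0, ← mul_assoc, ← hδ] at h3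
  have h4 : Real.exp (δ * harmonic k) ≤ Real.exp δ * ((k + 1 : ℕ) : ℝ) ^ δ := by
    rw [Real.rpow_def_of_pos k0, ← Real.exp_add]
    exact Real.exp_le_exp.2 (by nlinarith)
  have h5 : 1 ≤ Real.exp δ * ((k + 1 : ℕ) : ℝ) ^ δ :=
    one_le_mul_of_one_le_of_one_le (Real.one_le_exp δ0.le) (Real.one_le_rpow k1 δ0.le)
  rw [Real.rpow_add k0, ← mul_assoc, mul_comm (aa κ k ^ p)]
  exact mul_le_mul (by linarith) h1 (Real.rpow_nonneg (aa_mem κ1 k).1 _) (by positivity)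

theorem int_ch (κ0 : 0 < κ) (κ1 : κ ≤ 1 / 4) (m : ℕ) :
    ∫ x, ch (aa κ) (2 ^ m) x ≤ 2 * Real.exp (-(κ / 64)) ^ m := by
  refine (Db.int_mono (g := fun x => 2 * QP (aa κ) (2 ^ m) x) (by fun_prop) (by fun_prop)
    fun x => min_le_right _ _).trans ?_
  rw [integral_const_mul, ← Real.exp_nat_mul]
  refine mul_le_mul_of_nonneg_left ((int_QP (aa_mem κ1) _).trans (Real.exp_le_exp.2 ?_)) zero_le_two
  have h1 := log_add_one_le_harmonic (2 ^ m)
  have h2 : Real.log (2 ^ m) ≤ Real.log ((2 ^ m + 1 : ℕ) : ℝ) :=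
    Real.log_le_log (by positivity) (by push_cast; linarith)
  rw [Real.log_pow] at h2
  have h3 := mul_le_mul_of_nonneg_left (show 1 / 2 ≤ Real.log 2 by linarith [Real.log_two_gt_d9])
    (Nat.cast_nonneg (α := ℝ) m)
  rw [aa_sum κ0]
  nlinarith

theorem core (hp : 2 < p) (κ0 : 0 < κ) (κ1 : κ ≤ 1 / 4) : ∃ S : ℝ, ∀ Q F : ℂ → ℂ,
    Differentiable ℂ Q → DifferentiableOn ℂ F (ball 0 1) → J p (deriv F) ≤ 1 → ‖F 0‖ ≤ 2 →
    (∀ z ∈ ball (0 : ℂ) 1, (GI (aa κ) z).re ≤ 1 / 2 → ‖Q z‖ ≤ ‖F z‖) → lp (Q 0) ≤ S := by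
  set θ := Real.exp (-(κ / 64)) with hθ
  have θ0 : 0 < θ := Real.exp_pos _
  have θ1 : θ < 1 := Real.exp_lt_one_iff.2 (by linarith)
  set K := (p - 1) / (p - 2) + 17 with hK
  have K0 : 0 ≤ (p - 1) / (p - 2) := div_nonneg (by linarith) (by linarith)
  have s1 := summable_pow_mul_geometric_of_norm_lt_one 1 (r := θ) (by
    rwa [Real.norm_of_nonneg θ0.le])
  have hc := ((s1.add (summable_geometric_of_lt_one θ0.le θ1)).mul_left 6).add
    (summable_geometric_two.mul_left K)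
  refine ⟨K + ∑' m : ℕ, (6 * ((m : ℝ) ^ 1 * θ ^ m + θ ^ m) + K * (1 / 2) ^ m),
    fun Q F hQ hF hJ h0 h => ?_⟩
  have ha := aa_mem κ1
  have hM : ∀ k : ℕ, 1 ≤ k → ∫ x, ‖F (rad k * ee 1 x)‖ ≤ K * (k : ℝ) ^ 2 := fun k hk => by
    have h1 := M1 hp hF hJ (rad_mem k).1.le (rad_mem k).2
    have h2 := rad_log hk
    have h3 : (1 : ℝ) ≤ (k : ℝ) ^ 2 := one_le_pow₀ (by exact_mod_cast hk)
    nlinarith
  have h1 := stp ha hQ hF h continuous_const (fun _ => zero_le_one) (fun _ => le_rfl) (2 ^ 0) le_rfl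
    (rad_mem _).1.le le_rfl
  have h2 := hM (2 ^ 0) le_rfl
  have h3 := chain (A := fun m => ∫ x, ch (aa κ) (2 ^ m) x * lp (Q (rad (2 ^ m) * ee 1 x)))
    (fun m => ?_) hc ?_
  · simp only [ofReal_zero, zero_mul, one_mul, integral_const, probReal_univ, one_smul,
      Real.log_one, inv_one, zero_add] at h1
    norm_num at h1 h2 h3 ⊢
    linarith
  · refine (stp ha hQ hF h (ch_cont _ _) (fun x => (ch_mem ha _ x).1) (fun x => (ch_mem ha _ x).2)
      (2 ^ (m + 1)) (rad_mem _).1.le (rad_mono (Nat.pow_le_pow_right two_pos m.le_succ))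
      (T := 8 ^ (m + 1)) (one_le_pow₀ (by norm_num))).trans ?_
    rw [← add_assoc]
    refine add_le_add_left (add_le_add ?_ ?_) _
    · have b1 : Real.log (8 ^ (m + 1)) ≤ 3 * (m + 1) := by
        rw [show (8 : ℝ) = 2 ^ 3 by norm_num, ← pow_mul, Real.log_pow]
        push_cast
        exact mul_le_of_le_one_right (by positivity) (by linarith [Real.log_two_lt_d9])
      refine (mul_le_mul b1 (int_ch κ0 κ1 m) (integral_nonneg fun x => (ch_mem ha _ x).1)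
        (by positivity)).trans (le_of_eq ?_)
      ring
    · refine (mul_le_mul_of_nonneg_left (hM _ Nat.one_le_two_pow) (by positivity)).trans ?_
      rw [mul_left_comm]
      refine mul_le_mul_of_nonneg_left ?_ (by positivity)
      push_cast
      rw [← pow_mul, mul_comm (m + 1), pow_mul, ← inv_pow, ← mul_pow, pow_succ]
      norm_num
  · obtain ⟨B, hB⟩ := (isCompact_closedBall (0 : ℂ) 1).exists_bound_of_continuousOn
      (lp_cont.comp hQ.continuous).continuousOn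
    have B0 : 0 ≤ B := (norm_nonneg _).trans (hB 0 (by simp))
    refine squeeze_zero (g := fun m => B * (2 * θ ^ m)) (fun m => integral_nonneg fun x =>
      mul_nonneg (ch_mem ha _ x).1 (lp_nonneg _)) (fun m => ?_) (by
        simpa using ((tendsto_pow_atTop_nhds_zero_of_lt_one θ0.le θ1).const_mul 2).const_mul B)
    refine le_trans ?_ (mul_le_mul_of_nonneg_left (int_ch κ0 κ1 m) B0)
    rw [← integral_const_mul]
    refine Db.int_mono ((ch_cont _ _).mul (lp_cont.comp (hQ.continuous.comp (by fun_prop))))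
      (by fun_prop) fun x => ?_
    rw [mul_comm]
    refine mul_le_mul_of_nonneg_right ((le_abs_self _).trans (hB _ ?_)) (ch_mem ha _ x).1
    simpa [norm_ee, abs_of_pos (rad_mem _).1] using (rad_mem _).2.le

theorem no (hp : 2 < p) : ∃ g : ℂ → ℂ, InD p g ∧ InD p (fun z => exp (g z)) ∧
    (∀ z ∈ ball (0 : ℂ) 1, ‖exp (g z)‖ ≤ 1) ∧ ¬ Cyclic p fun z => exp (g z) := by
  set κ := min (1 / 4) ((p / 2 - 1) / 3 ^ ⌈p⌉₊) with hκ
  have κ0 : 0 < κ := lt_min (by norm_num) (div_pos (by linarith) (by positivity))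
  have κ1 : κ ≤ 1 / 4 := min_le_left _ _
  have κ2 : 3 ^ ⌈p⌉₊ * κ ≤ p / 2 - 1 := by
    rw [← le_div_iff₀' (by positivity)]; exact min_le_right _ _
  have ha := aa_mem κ1
  obtain ⟨S, hS⟩ := core hp κ0 κ1
  set t := 2 * (|S| + 1) with ht
  have t0 : 0 < t := by positivity
  have p0 : 0 < 1 / p := by positivity
  have dg : DifferentiableOn ℂ (fun z => -(t : ℂ) * GI (aa κ) z) (ball 0 1) :=
    (GI_diff ha).const_mul _
  have n1 : ∀ z, ‖exp (-(t : ℂ) * GI (aa κ) z)‖ = Real.exp (-t * (GI (aa κ) z).re) := fun z => by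
    simp [norm_exp]
  have b1 : ∀ z ∈ ball (0 : ℂ) 1, ‖exp (-(t : ℂ) * GI (aa κ) z)‖ ≤ 1 := fun z hz => by
    rw [n1, Real.exp_le_one_iff]; nlinarith [GI_re ha hz]
  refine ⟨_, ⟨dg, ENNReal.add_lt_top.2 ⟨enorm_lt_top, (ENNReal.rpow_lt_top_iff_of_pos p0).2 ?_⟩⟩,
    ⟨dg.cexp, ENNReal.add_lt_top.2 ⟨enorm_lt_top, (ENNReal.rpow_lt_top_iff_of_pos p0).2 ?_⟩⟩,
    b1, ?_⟩
  · refine (J_mono hp.le t0.le (v := deriv (GI (aa κ))) fun z _ => ?_).trans_lt
      (ENNReal.mul_lt_top ENNReal.ofReal_lt_top (J_GI hp.le ha (aa_summ hp κ0 κ1 κ2)))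
    rw [deriv_const_mul_field, norm_mul, norm_neg, Complex.norm_real, Real.norm_of_nonneg t0.le]
  · exact (J_bdd hp.le dg.cexp b1).trans_lt
      (ENNReal.mul_lt_top ENNReal.ofReal_lt_top ENNReal.ofReal_lt_top)
  · rintro ⟨q, hq⟩
    obtain ⟨n, hn⟩ := (ENNReal.tendsto_nhds_zero.1 hq (ENNReal.ofReal (1 / 2)) (by simp)).exists
    have h1 := le_self_add.trans hn
    have h2 := (le_add_self.trans hn).trans (ENNReal.ofReal_le_one.2 (by norm_num))
    rw [← ofReal_norm, ENNReal.ofReal_le_ofReal_iff (by norm_num)] at h1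
    rw [deriv_sub_const_fun] at h2
    have h3 := norm_sub_norm_le ((q n).eval 0 * exp (-(t : ℂ) * GI (aa κ) 0)) 1
    have h4 := norm_sub_norm_le 1 ((q n).eval 0 * exp (-(t : ℂ) * GI (aa κ) 0))
    rw [norm_sub_rev] at h4
    replace h4 := h4.trans h1
    have n2 : ‖exp (-(t : ℂ) / 2)‖ = Real.exp (-t / 2) := by simp [norm_exp]
    have h5 := (le_exp_lp _).trans (Real.exp_le_exp.2 ((hS (fun z => (q n).eval z * exp (-t / 2))
      (fun z => (q n).eval z * exp (-(t : ℂ) * GI (aa κ) z))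
      ((q n).differentiable.mul_const _) ((q n).differentiable.differentiableOn.mul dg.cexp)
      (not_lt.1 fun h => (ENNReal.one_lt_rpow h p0).not_ge h2) (by rw [norm_one] at h3; linarith)
      fun z _ hz => by
        rw [norm_mul, norm_mul, n1, n2]
        exact mul_le_mul_of_nonneg_left (Real.exp_le_exp.2 (by nlinarith)) (norm_nonneg _)).trans
          (le_abs_self S)))
    rw [norm_mul, n1, GI_zero, norm_one, one_re, mul_one] at h4
    rw [norm_mul, n2] at h5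
    have e1 : Real.exp (-t / 2) = Real.exp (-t) * (Real.exp |S| * Real.exp 1) := by
      rw [← Real.exp_add, ← Real.exp_add]; congr 1; rw [ht]; ring
    rw [e1, ← mul_assoc, ← mul_assoc] at h5
    have h6 := Real.exp_pos |S|
    have h7 := Real.exp_one_gt_d9
    have h8 : 1 / 2 ≤ ‖(q n).eval 0‖ * Real.exp (-t) := by linarith
    nlinarith [mul_le_mul_of_nonneg_right h8 (mul_pos h6 (Real.exp_pos 1)).le]

end Pool.Agent.H41.Dp
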