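import Pool.Agent.H41.FrogDefs

set_option autoImplicit false

namespace Pool.Agent.H41.Frog

open MeasureTheory ProbabilityTheory Finset
open scoped ENNReal

section dep
variable {I Y : Type} [MeasurableSpace Y]

/-- `A` depends only on the coordinates in `S`. -/
def Dep (S : Set I) (A : Set (I → Y)) : Prop :=
  ∀ ω ω' : I → Y, (∀ v ∈ S, ω v = ω' v) → ω ∈ A → ω' ∈ A

lemma Dep.meas [Inhabited Y] {S : Set I} {A : Set (I → Y)} (h : Dep S A) (hA : MeasurableSet A) :
    MeasurableSet[⨆ i ∈ S, MeasurableSpace.comap (fun ω : I → Y => ω i) inferInstance] A := by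
  classical
  have e : A = (fun (ω : I → Y) i => if i ∈ S then ω i else default) ⁻¹' A := by
    ext ω
    exact ⟨h _ _ fun v hv => by simp [hv], h _ _ fun v hv => by simp [hv]⟩
  rw [e]
  refine (?_ : Measurable[⨆ i ∈ S, MeasurableSpace.comap (fun ω : I → Y => ω i) inferInstance] _) hA
  refine @measurable_pi_lambda _ _ _ (_) _ _ fun i => ?_
  by_cases hi : i ∈ S
  · simp only [hi, if_true]
    exact (comap_measurable _).mono (le_iSup₂_of_le i hi le_rfl) le_rfl
  · simp only [hi, if_false]
    exact measurable_const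

lemma dep_inter [Inhabited Y] (Q : I → Measure Y) [∀ i, IsProbabilityMeasure (Q i)] {S : Set I}
    {A B : Set (I → Y)} (hA : MeasurableSet A) (hB : MeasurableSet B) (dA : Dep S A)
    (dB : Dep Sᶜ B) : (Measure.infinitePi Q).real (A ∩ B) =
      (Measure.infinitePi Q).real A * (Measure.infinitePi Q).real B := by
  have h := iIndepFun_infinitePi (P := Q) (X := fun _ y => y) fun _ => measurable_id
  rw [iIndepFun_iff_iIndep] at h
  have := (Indep_iff _ _ _).1 (indep_iSup_of_disjoint (fun i => (measurable_pi_apply i).comap_le) h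
    (disjoint_compl_right (a := S))) A B (dA.meas hA) (dB.meas hB)
  simp only [Measure.real, this, ENNReal.toReal_mul]

/-- Relay lemma. -/
lemma relay [Inhabited Y] (Q : Measure Y) [IsProbabilityMeasure Q] (S : Set I) (Z : Finset I)
    (hZ : ∀ z ∈ Z, z ∉ S) (vis : I → Set (I → Y)) (mv : ∀ z, MeasurableSet (vis z))
    (dv : ∀ z, Dep S (vis z)) (C : I → Set Y) (mC : ∀ z, MeasurableSet (C z)) {β : ℝ}
    (hβ : ∀ z ∈ Z, β ≤ Q.real (C z)) (hβ1 : β ≤ 1) (hβ0 : 0 ≤ β) (K : ℕ) (A : Set (I → Y))
    (hA : ∀ ω ∈ A, ∃ w ⊆ Z, K ≤ w.card ∧ ∀ z ∈ w, ω ∈ vis z) :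
    (Measure.infinitePi fun _ => Q).real A * (1 - (1 - β) ^ K) ≤
      (Measure.infinitePi fun _ => Q).real {ω | ∃ z ∈ Z, ω ∈ vis z ∧ ω z ∈ C z} := by
  classical
  set P := Measure.infinitePi fun _ : I => Q
  set a : Finset I → Set (I → Y) := fun w => {ω | ∀ z ∈ Z, ω ∈ vis z ↔ z ∈ w}
  have ma : ∀ w, MeasurableSet (a w) := fun w => by
    have : a w = ⋂ z ∈ Z, {ω | ω ∈ vis z ↔ z ∈ w} := by ext; simp [a]
    rw [this]
    refine Finset.measurableSet_biInter _ fun z _ => ?_
    by_cases h : z ∈ w
    · simpa [h] using mv z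
    · simp only [h, iff_false]; exact (mv z).compl
  have da : ∀ w, Dep S (a w) := fun w ω ω' h hω z hz =>
    ⟨fun h' => (hω z hz).1 (dv z _ _ (fun v hv => (h v hv).symm) h'),
      fun h' => dv z _ _ h ((hω z hz).2 h')⟩
  set W := Z.powerset.filter fun w => K ≤ w.card
  have disj : (W : Set (Finset I)).PairwiseDisjoint a := by
    intro w hw w' hw' ne
    refine Set.disjoint_left.2 fun ω h1 h2 => ne ?_
    have s1 := mem_powerset.1 (mem_filter.1 hw).1
    have s2 := mem_powerset.1 (mem_filter.1 hw').1
    ext z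
    exact ⟨fun h => (h2 z (s1 h)).1 ((h1 z (s1 h)).2 h), fun h => (h1 z (s2 h)).1 ((h2 z (s2 h)).2 h)⟩
  set b : Finset I → Set (I → Y) := fun w => (Set.pi w fun z => (C z)ᶜ)ᶜ
  have mb : ∀ w, MeasurableSet (b w) := fun w =>
    (MeasurableSet.pi w.countable_toSet fun z _ => (mC z).compl).compl
  have pb : ∀ w ∈ W, 1 - (1 - β) ^ K ≤ P.real (b w) := by
    intro w hw
    have s1 := mem_powerset.1 (mem_filter.1 hw).1
    rw [probReal_compl_eq_one_sub (MeasurableSet.pi w.countable_toSet fun z _ => (mC z).compl),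
      Measure.real, Measure.infinitePi_pi _ fun z _ => (mC z).compl, ENNReal.toReal_prod]
    have : ∏ z ∈ w, (Q (C z)ᶜ).toReal ≤ ∏ _z ∈ w, (1 - β) :=
      prod_le_prod (fun _ _ => ENNReal.toReal_nonneg) fun z hz => by
        have := probReal_compl_eq_one_sub (μ := Q) (mC z)
        have := hβ z (s1 hz)
        simp only [Measure.real] at *
        linarith
    rw [prod_const] at this
    have := pow_le_pow_of_le_one (by linarith) (by linarith : 1 - β ≤ 1) (mem_filter.1 hw).2
    linarith
  have h0 : 0 ≤ 1 - (1 - β) ^ K := sub_nonneg.2 (pow_le_one₀ (by linarith) (by linarith))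
  calc _ ≤ P.real (⋃ w ∈ W, a w) * (1 - (1 - β) ^ K) := by
        refine mul_le_mul_of_nonneg_right (measureReal_mono (fun ω hω => ?_) (measure_ne_top _ _)) h0
        obtain ⟨w, h1, h2, h3⟩ := hA ω hω
        refine Set.mem_biUnion (x := Z.filter fun z => ω ∈ vis z) (mem_filter.2
          ⟨mem_powerset.2 (filter_subset _ _), h2.trans (card_le_card fun z hz =>
            mem_filter.2 ⟨h1 hz, h3 z hz⟩)⟩) fun z hz => by simp [hz]
    _ = ∑ w ∈ W, P.real (a w) * (1 - (1 - β) ^ K) := by
        rw [measureReal_biUnion_finset disj fun w _ => ma w, sum_mul]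
    _ ≤ ∑ w ∈ W, P.real (a w ∩ b w) := sum_le_sum fun w hw => by
        rw [dep_inter _ (ma w) (mb w) (da w)]
        · gcongr; exact pb w hw
        · intro ω ω' h hω h'
          refine hω fun z hz => ?_
          rw [h z (hZ z (mem_powerset.1 (mem_filter.1 hw).1 hz))]
          exact h' z hz
    _ = P.real (⋃ w ∈ W, a w ∩ b w) := by
        rw [measureReal_biUnion_finset (disj.mono fun w => Set.inter_subset_left)
          fun w _ => (ma w).inter (mb w)]
    _ ≤ _ := by
        refine measureReal_mono (fun ω hω => ?_) (measure_ne_top _ _)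
        simp only [Set.mem_iUnion] at hω
        obtain ⟨w, hw, h1, h2⟩ := hω
        have s1 := mem_powerset.1 (mem_filter.1 hw).1
        simp only [b, Set.mem_compl_iff, Set.mem_pi, not_forall, not_not] at h2
        obtain ⟨z, hz, h2⟩ := h2
        exact ⟨z, s1 hz, (h1 z (s1 hz)).2 hz, h2⟩

end dep

section markov
variable {V : Type} [Countable V] [MeasurableSpace V] [DiscreteMeasurableSpace V]

lemma walk_succ (η : ℕ → V → V) (x : V) (n : ℕ) :
    walk η x (n + 1) = walk (fun k => η (k + 1)) (η 0 x) n := by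
  induction n with
  | zero => rfl
  | succ n ih => rw [walk, ih]; rfl

lemma meas_walk (x : V) : Measurable fun η : ℕ → V → V => walk η x := by
  refine measurable_pi_lambda _ fun n => ?_
  induction n with
  | zero => exact measurable_const
  | succ n ih =>
    have : Measurable fun q : V × (V → V) => q.2 q.1 :=
      measurable_from_prod_countable_right fun v => measurable_pi_apply v
    exact this.comp (ih.prodMk (measurable_pi_apply n))

/-- Prepend a vertex to a path. -/
def cons (x : V) (w : ℕ → V) : ℕ → V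
  | 0 => x
  | n + 1 => w n

lemma meas_cons (x : V) : Measurable (cons x) :=
  measurable_pi_lambda _ fun n => by
    cases n with
    | zero => exact measurable_const
    | succ n => exact measurable_pi_apply n

noncomputable def Pw (G : SimpleGraph V) (x : V) (S : Set (ℕ → V)) : ℝ :=
  (walkLaw G).real {η | walk η x ∈ S}

variable {G : SimpleGraph V}

lemma walk_prob (h : ∀ v, (G.neighborSet v).Finite ∧ (G.neighborSet v).Nonempty) :
    IsProbabilityMeasure (walkLaw G) := by
  have := fun v => isProbabilityMeasure_uniformOn (h v).1 (h v).2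
  unfold walkLaw; infer_instance

lemma markov (h : ∀ v, (G.neighborSet v).Finite ∧ (G.neighborSet v).Nonempty) (x : V)
    (N : Finset V) (hN : (N : Set V) = G.neighborSet x) {S : Set (ℕ → V)} (hS : MeasurableSet S) :
    Pw G x S = (∑ y ∈ N, Pw G y (cons x ⁻¹' S)) / N.card := by
  classical
  have := fun v => isProbabilityMeasure_uniformOn (h v).1 (h v).2
  have := walk_prob h
  have : Inhabited (V → V) := ⟨id⟩
  have e : ∀ η : ℕ → V → V, walk η x = cons x (walk (fun k => η (k + 1)) (η 0 x)) := fun η =>
    funext fun n => by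
      cases n with
      | zero => rfl
      | succ n => exact walk_succ η x n
  have m0 : ∀ T : Set V, MeasurableSet {η : ℕ → V → V | η 0 x ∈ T} := fun T =>
    ((measurable_pi_apply x).comp (measurable_pi_apply 0)) (MeasurableSet.of_discrete (s := T))
  have p0 : ∀ T : Set V, walkLaw G {η : ℕ → V → V | η 0 x ∈ T} = uniformOn (G.neighborSet x) T :=
    fun T => ((measurePreserving_eval_infinitePi (fun v => uniformOn (G.neighborSet v)) x).comp
      (measurePreserving_eval_infinitePi (fun _ : ℕ => Measure.infinitePi fun v =>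
        uniformOn (G.neighborSet v)) 0)).measure_preimage (MeasurableSet.of_discrete (s := T)).nullMeasurableSet
  have msh : Measurable fun (η : ℕ → V → V) k => η (k + 1) := by fun_prop
  have m1 : ∀ y, MeasurableSet {η : ℕ → V → V | walk η y ∈ cons x ⁻¹' S} := fun y =>
    meas_walk y (meas_cons x hS)
  have key : ∀ y ∈ N, (walkLaw G).real ({η | η 0 x ∈ ({y} : Set V)} ∩
      (fun η k => η (k + 1)) ⁻¹' {η | walk η y ∈ cons x ⁻¹' S}) = Pw G y (cons x ⁻¹' S) / N.card := by
    intro y hy
    unfold walkLaw
    rw [dep_inter _ (m0 _) (msh (m1 y)) (S := {0})]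
    · have h1 := p0 {y}
      rw [← hN, ← coe_singleton, uniformOn_apply_finset, inter_singleton_of_mem hy] at h1
      have h2 := Measure.map_infinitePi_infinitePi_of_inj (P := fun _ : ℕ => Measure.infinitePi
        fun v => uniformOn (G.neighborSet v)) (f := fun k : ℕ => k + 1) (add_left_injective 1)
      rw [Measure.real, Measure.real, ← Measure.map_apply msh (m1 y), h2]
      simp only [walkLaw, coe_singleton] at h1
      rw [h1]
      simp [Pw, walkLaw, Measure.real, div_eq_inv_mul]
    · intro ω ω' hh hω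
      simpa [← hh 0 rfl] using hω
    · intro ω ω' hh hω
      have : (fun k => ω' (k + 1)) = fun k => ω (k + 1) := funext fun k => (hh _ (by simp)).symm
      simpa only [Set.mem_preimage, this] using hω
  rw [sum_div, ← sum_congr rfl key, ← measureReal_biUnion_finset]
  · refine measureReal_congr ?_
    have : ∀ᵐ η ∂walkLaw G, η 0 x ∈ N := by
      rw [ae_iff]
      have := p0 (N : Set V)ᶜ
      rw [← hN, (uniformOn_eq_zero_iff N.finite_toSet).2 (by simp)] at this
      exact this
    filter_upwards [this] with η hη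
    refine propext ⟨fun hh => Set.mem_biUnion hη ⟨rfl, ?_⟩, fun hh => ?_⟩
    · have hh : walk η x ∈ S := hh
      rwa [e] at hh
    · obtain ⟨y, -, h1, h2⟩ := Set.mem_iUnion₂.1 hh
      show walk η x ∈ S
      rw [e, show η 0 x = y from h1]; exact h2
  · intro y _ y' _ ne
    exact Set.disjoint_left.2 fun η h1 h2 => ne (h1.1.symm.trans h2.1)
  · exact fun y _ => (m0 _).inter (msh (m1 y))

end markov

end Pool.Agent.H41.Frog
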