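import Pool.Agent.H41.DerrwDefs
import Pool.Agent.H41.Frog1

set_option autoImplicit false

namespace Pool.Agent.H41.Derrw

open MeasureTheory Finset Filter
open scoped Topology ENNReal

variable {V : Type} [DecidableEq V]

lemma cross_le (w : ℕ → V) (n : ℕ) (x y : V) : |cross w n x y| ≤ n := by
  refine (abs_sum_le_sum_abs _ _).trans ((sum_le_card_nsmul _ _ 1 fun k _ => ?_).trans (by simp))
  split_ifs <;> simp

lemma wt_pos (γ : ℝ) (c : ℤ) : 0 < wt γ c := by
  unfold wt
  split_ifs with h1 h2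
  · exact Real.rpow_pos_of_pos (by exact_mod_cast h1) _
  · exact one_pos
  · exact Real.rpow_pos_of_pos (by exact_mod_cast (by omega : 0 < -c)) _

lemma wt_bd {γ : ℝ} (hγ : 0 ≤ γ) {c : ℤ} {n : ℕ} (h : |c| ≤ n) :
    ((n + 1 : ℝ) ^ γ)⁻¹ ≤ wt γ c ∧ wt γ c ≤ (n + 1 : ℝ) ^ γ := by
  have h1 : (1 : ℝ) ≤ (n + 1 : ℝ) ^ γ := Real.one_le_rpow (by simp) hγ
  have h2 : ((n + 1 : ℝ) ^ γ)⁻¹ ≤ 1 := inv_le_one_of_one_le₀ h1
  rw [abs_le] at h
  unfold wt
  split_ifs with a b
  · have : (1 : ℝ) ≤ c := by exact_mod_cast a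
    have : (c : ℝ) ≤ n + 1 := by exact_mod_cast (by omega : c ≤ n + 1)
    exact ⟨h2.trans (Real.one_le_rpow ‹_› hγ), by gcongr⟩
  · exact ⟨h2, h1⟩
  · have c1 : (1 : ℝ) ≤ -c := by exact_mod_cast (by omega : 1 ≤ -c)
    have : (-c : ℝ) ≤ n + 1 := by exact_mod_cast (by omega : -c ≤ n + 1)
    rw [Real.rpow_neg (by linarith)]
    exact ⟨by gcongr, (inv_le_one_of_one_le₀ (Real.one_le_rpow c1 hγ)).trans h1⟩

variable {G : SimpleGraph V} [G.LocallyFinite] {γ : ℝ}

lemma trans_nn (w : ℕ → V) (n : ℕ) (y : V) : 0 ≤ trans G γ w n y := by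
  unfold trans
  split_ifs
  · exact div_nonneg (wt_pos _ _).le (sum_nonneg fun _ _ => (wt_pos _ _).le)
  · rfl

lemma trans_le (w : ℕ → V) (n : ℕ) (y : V) : trans G γ w n y ≤ 1 := by
  unfold trans
  split_ifs with h
  · exact div_le_one_of_le₀ (single_le_sum (f := fun z => wt γ (cross w n (w n) z))
      (fun _ _ => (wt_pos _ _).le) (by simpa using h)) (sum_nonneg fun _ _ => (wt_pos _ _).le)
  · exact zero_le_one

lemma trans_gap (hγ : 0 ≤ γ) {w : ℕ → V} {n : ℕ} {y z : V} (hy : G.Adj (w n) y)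
    (hz : G.Adj (w n) z) (ne : y ≠ z) {D : ℕ} (hD : G.degree (w n) ≤ D) :
    wt γ (cross w n (w n) z) / (D * (n + 1 : ℝ) ^ γ) ≤ 1 - trans G γ w n y := by
  set S := ∑ z ∈ G.neighborFinset (w n), wt γ (cross w n (w n) z) with hS
  have h1 : wt γ (cross w n (w n) y) + wt γ (cross w n (w n) z) ≤ S := by
    rw [← sum_pair (f := fun z => wt γ (cross w n (w n) z)) ne]
    exact sum_le_sum_of_subset_of_nonneg (by simp [insert_subset_iff, hy, hz])
      fun _ _ _ => (wt_pos _ _).le
  have p1 := wt_pos γ (cross w n (w n) y)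
  have p2 := wt_pos γ (cross w n (w n) z)
  have S0 : 0 < S := by linarith
  have h2 : S ≤ D * (n + 1 : ℝ) ^ γ := by
    refine (sum_le_card_nsmul _ _ _ fun z _ => (wt_bd hγ (cross_le w n _ z)).2).trans ?_
    rw [nsmul_eq_mul, SimpleGraph.card_neighborFinset_eq_degree]
    gcongr
  rw [trans, if_pos hy, ← hS, one_sub_div S0.ne']
  exact div_le_div₀ (by linarith) (by linarith) S0 h2

lemma not_sum {f : ℕ → ℝ} {a b : ℕ} (hb : 0 < b) {c : ℝ} (hc : 0 < c)
    (h : ∀ t, c / ((a + b * t : ℕ) + 1) ≤ f (a + b * t)) : ¬ Summable f := by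
  intro hs
  have h1 := hs.comp_injective (i := fun t => a + b * t) fun s t e =>
    Nat.eq_of_mul_eq_mul_left hb (Nat.add_left_cancel e)
  have h2 : Summable fun t : ℕ => 1 / ((t + 1 : ℕ) : ℝ) := by
    refine .of_nonneg_of_le (fun t => by positivity) (fun t => ?_) (h1.mul_left ((a + b + 1) / c))
    refine le_trans ?_ (mul_le_mul_of_nonneg_left (h t) (by positivity))
    rw [div_mul_div_cancel₀ hc.ne', div_le_div_iff₀ (by positivity) (by positivity)]
    push_cast
    have : (0 : ℝ) ≤ a * t + b + t := by positivity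
    nlinarith
  exact Real.not_summable_one_div_natCast ((summable_nat_add_iff 1).1 h2)

variable [MeasurableSpace V]

lemma single_zero {v : V} {P : Measure (ℕ → V)} (hP : IsLaw G γ v P) {x : ℕ → V}
    (h : ¬ Summable fun k => 1 - trans G γ x k (x (k + 1))) : P {x} = 0 := by
  have := hP.1
  have h1 : ∀ n, P {w | ∀ k ≤ n, w k = x k} ≤
      ENNReal.ofReal (Real.exp (-∑ k ∈ range n, (1 - trans G γ x k (x (k + 1))))) := by
    intro n
    induction n with
    | zero => simpa using prob_le_one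
    | succ n ih =>
      rw [hP.2.2, sum_range_succ, neg_add, Real.exp_add, ENNReal.ofReal_mul (Real.exp_pos _).le]
      gcongr
      linarith [Real.add_one_le_exp (-(1 - trans G γ x n (x (n + 1))))]
  have h2 := (not_summable_iff_tendsto_nat_atTop_of_nonneg
    fun k => sub_nonneg.2 (trans_le x k (x (k + 1)))).1 h
  have h3 := ENNReal.tendsto_ofReal (Real.tendsto_exp_neg_atTop_nhds_zero.comp h2)
  rw [ENNReal.ofReal_zero] at h3
  refine le_antisymm (ge_of_tendsto' h3 fun n => le_trans (measure_mono ?_) (h1 n)) zero_le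
  rintro _ rfl _ _
  rfl

omit [MeasurableSpace V] [G.LocallyFinite] [DecidableEq V] in
lemma trapped_countable [Countable V] : (Trapped G).Countable := by
  have : Trapped G ⊆ ⋃ (m : ℕ+) (N : ℕ), Set.range fun q : (Fin N → V) × (ZMod m → V) × ZMod m =>
      fun k => if h : k < N then q.1 ⟨k, h⟩ else q.2.1 (q.2.2 + ((k - N : ℕ) : ZMod m)) := by
    rintro w ⟨m, u, hc, N, i, h⟩
    refine Set.mem_iUnion₂.2 ⟨⟨m, by have := hc.1; omega⟩, N, ⟨fun k => w k, u, i⟩, funext fun k => ?_⟩
    dsimp only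
    split_ifs with hk
    · rfl
    · exact (h (k - N)).symm.trans (by congr; omega)
  exact (Set.countable_iUnion fun _ => Set.countable_iUnion fun _ => Set.countable_range _).mono this

theorem zero [Countable V] (h0 : 0 < γ)
    (h : γ ≤ 1 / 2 ∨ (γ ≤ 1 ∧ ∀ m u, IsCircuit G m u → ∃ i, 3 ≤ G.degree (u i)))
    {v : V} {P : Measure (ℕ → V)} (hP : IsLaw G γ v P) : P (Trapped G) = 0 := by
  rw [← Set.biUnion_of_singleton (Trapped G), measure_biUnion_null_iff trapped_countable]
  rintro x ⟨m, u, hc, N, i, hx⟩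
  refine single_zero hP ?_
  have m3 := hc.1
  have : NeZero m := ⟨by omega⟩
  have : Fact (2 < m) := ⟨m3⟩
  set D := univ.sup fun a => G.degree (u a)
  have hD : ∀ j, G.degree (x (N + j)) ≤ D := fun j => by
    rw [hx]; exact le_sup (f := fun a => G.degree (u a)) (mem_univ _)
  have hA : ∀ j, G.Adj (x (N + j)) (x (N + j + 1)) := fun j => by
    rw [add_assoc, hx, hx, Nat.cast_succ, ← add_assoc]; exact hc.2.2 _
  have D0 : (0 : ℝ) < D := by exact_mod_cast (hA 0).degree_pos_left.trans_le (hD 0)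
  rcases h with h | ⟨h, h'⟩
  · refine not_sum (a := N + 1) (b := 1) one_pos (c := 1 / D) (by positivity) fun t => ?_
    rw [one_mul, show N + 1 + t = N + (t + 1) by ring]
    have ne : x (N + (t + 1) + 1) ≠ x (N + t) := by
      rw [add_assoc, hx, hx]
      intro e
      have := hc.2.1 e
      push_cast at this
      exact ZMod.neg_one_ne_one (n := m) (by linear_combination -this)
    refine le_trans ?_ (trans_gap h0.le (hA (t + 1)) (hA t).symm ne (hD _))
    set k := N + (t + 1)
    have p : (0 : ℝ) < (k + 1 : ℝ) ^ γ := by positivity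
    have q : (k + 1 : ℝ) ^ γ * (k + 1 : ℝ) ^ γ ≤ k + 1 := by
      rw [← Real.rpow_add (by positivity)]
      exact (Real.rpow_le_rpow_of_exponent_le (by simp) (by linarith)).trans (Real.rpow_one _).le
    calc _ ≤ 1 / D / ((k + 1 : ℝ) ^ γ * (k + 1 : ℝ) ^ γ) := by gcongr
      _ = ((k + 1 : ℝ) ^ γ)⁻¹ / (D * (k + 1 : ℝ) ^ γ) := by field_simp
      _ ≤ _ := by gcongr; exact (wt_bd h0.le (cross_le _ _ _ _)).1
  · obtain ⟨a, ha⟩ := h' m u hc
    obtain ⟨z, hz, hz'⟩ : ∃ z ∈ G.neighborFinset (u a), z ∉ ({u (a + 1), u (a - 1)} : Finset V) :=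
      exists_mem_notMem_of_card_lt_card (card_le_two.trans_lt ha)
    simp only [mem_insert, mem_singleton, not_or] at hz'
    have cr : ∀ j, cross x (N + j) (u a) z = cross x N (u a) z := by
      intro j
      induction j with
      | zero => rfl
      | succ j ih =>
        rw [← ih, ← add_assoc, cross, sum_range_succ, ← cross, add_assoc N, hx, hx, if_neg, if_neg]
        · simp
        · rintro ⟨e1, e2⟩
          refine hz'.2 (e1.symm.trans (congrArg u ?_))
          rw [← hc.2.1 e2]; push_cast; ring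
        · rintro ⟨e1, e2⟩
          refine hz'.1 (e2.symm.trans (congrArg u ?_))
          rw [← hc.2.1 e1]; push_cast; ring
    have w0 := wt_pos γ (cross x N (u a) z)
    refine not_sum (a := N + (a - i).val) (b := m) (by omega) (c := wt γ (cross x N (u a) z) / D)
      (by positivity) fun t => ?_
    rw [add_assoc]
    set j := (a - i).val + m * t
    have e : i + (j : ZMod m) = a := by simp [j]
    have e1 : x (N + j) = u a := by rw [hx, e]
    have ne : x (N + j + 1) ≠ z := by
      rw [add_assoc, hx, Nat.cast_succ, ← add_assoc, e]; exact Ne.symm hz'.1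
    refine le_trans ?_ (trans_gap h0.le (hA j) (by rw [e1]; simpa using hz) ne (hD _))
    rw [e1, cr, div_div]
    gcongr
    exact (Real.rpow_le_rpow_of_exponent_le (le_add_of_nonneg_left (Nat.cast_nonneg _)) h).trans
      (Real.rpow_one _).le

end Pool.Agent.H41.Derrw
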