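import Pool.Agent.H41.Derrw1

set_option autoImplicit false

namespace Pool.Agent.H41.Derrw

open MeasureTheory Finset Filter Pool.Agent.H41.Frog
open scoped Topology ENNReal

variable {V : Type} [DecidableEq V] {G : SimpleGraph V} [G.LocallyFinite] {γ : ℝ}

lemma trans_congr {w w' : ℕ → V} {n : ℕ} (h : ∀ k ≤ n, w k = w' k) :
    trans G γ w n = trans G γ w' n := by
  have : cross w n = cross w' n := by
    funext x y
    exact sum_congr rfl fun k hk => by
      rw [h k (mem_range.1 hk).le, h (k + 1) (mem_range.1 hk)]
  funext y
  unfold trans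
  rw [this, h n le_rfl]

lemma trans_sum (hG : ∀ x, ∃ y, G.Adj x y) (w : ℕ → V) (n : ℕ) :
    ∑ y ∈ G.neighborFinset (w n), trans G γ w n y = 1 := by
  unfold trans
  rw [sum_congr rfl fun y hy => if_pos (by simpa using hy), ← sum_div, div_self]
  obtain ⟨y, hy⟩ := hG (w n)
  exact (sum_pos (fun _ _ => wt_pos _ _) ⟨y, by simpa using hy⟩).ne'

noncomputable def stp (hG : ∀ x, ∃ y, G.Adj x y) (γ : ℝ) (w : ℕ → V) (n : ℕ) : PMF V :=
  PMF.ofFinset (fun y => ENNReal.ofReal (trans G γ w n y)) (G.neighborFinset (w n))
    (by rw [← ENNReal.ofReal_sum_of_nonneg fun _ _ => trans_nn _ _ _, trans_sum hG]; simp)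
    (fun y hy => by rw [trans, if_neg (by simpa using hy)]; simp)

def H (v : V) (η : List V → V) : ℕ → List V
  | 0 => [v]
  | n + 1 => H v η n ++ [η (H v η n)]

def hist (x : ℕ → V) (n : ℕ) : List V := (List.range (n + 1)).map x

omit [DecidableEq V] in
lemma hist_succ (x : ℕ → V) (n : ℕ) : hist x (n + 1) = hist x n ++ [x (n + 1)] := by
  simp [hist, List.range_succ]

omit [DecidableEq V] in
lemma H_len (v : V) (η : List V → V) (n : ℕ) : (H v η n).length = n + 1 := by
  induction n with
  | zero => rfl
  | succ n ih => simp [H, ih]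

def wk (v : V) (η : List V → V) (n : ℕ) : V := (H v η n).getD n v

omit [DecidableEq V] in
lemma H_eq (v : V) (η : List V → V) (n : ℕ) : H v η n = hist (wk v η) n := by
  induction n with
  | zero => rfl
  | succ n ih =>
    rw [hist_succ, ← ih, wk, H, List.getD_append_right _ _ _ _ (H_len v η n).le, H_len]
    simp

omit [DecidableEq V] in
lemma hist_inj {x y : ℕ → V} {n : ℕ} : hist x n = hist y n ↔ ∀ k ≤ n, x k = y k := by
  simp [hist, Nat.lt_succ_iff]

theorem exists_law [Countable V] [MeasurableSpace V] [DiscreteMeasurableSpace V]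
    (hG : ∀ x, ∃ y, G.Adj x y) (γ : ℝ) (v : V) : ∃ P, IsLaw G γ v P := by
  let : MeasurableSpace (List V) := ⊤
  have : DiscreteMeasurableSpace (List V) := ⟨fun _ => trivial⟩
  have : Inhabited V := ⟨v⟩
  set Q : List V → Measure V := fun l => (stp hG γ (fun k => l.getD k v) (l.length - 1)).toMeasure
  have mH : ∀ n, Measurable fun η : List V → V => H v η n := by
    intro n
    induction n with
    | zero => exact measurable_const
    | succ n ih =>
      have : Measurable fun q : List V × (List V → V) => q.1 ++ [q.2 q.1] :=
        measurable_from_prod_countable_right fun l =>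
          (Measurable.of_discrete (f := fun y : V => l ++ [y])).comp (measurable_pi_apply l)
      exact this.comp (ih.prodMk measurable_id)
  have mw : Measurable (wk v) := measurable_pi_lambda _ fun n =>
    (Measurable.of_discrete (f := fun l : List V => l.getD n v)).comp (mH n)
  have mc : ∀ (x : ℕ → V) n, MeasurableSet {w : ℕ → V | ∀ k ≤ n, w k = x k} := fun x n => by
    measurability
  have e : ∀ (x : ℕ → V) n, wk v ⁻¹' {w | ∀ k ≤ n, w k = x k} = {η | H v η n = hist x n} := by
    intro x n; ext η; simp [H_eq, hist_inj]
  have dH : ∀ n (η η' : List V → V), (∀ l, l.length ≤ n → η l = η' l) → H v η n = H v η' n := by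
    intro n η η' h
    induction n with
    | zero => rfl
    | succ n ih => rw [H, H, ← ih fun l hl => h l (by omega), h _ (H_len _ _ _).le]
  refine ⟨(Measure.infinitePi Q).map (wk v), Measure.isProbabilityMeasure_map mw.aemeasurable,
    ?_, fun x n => ?_⟩
  · rw [Measure.map_apply mw (by measurability)]
    exact (congrArg _ (Set.eq_univ_of_forall fun _ => rfl)).trans measure_univ
  · rw [Measure.map_apply mw (mc _ _), Measure.map_apply mw (mc _ _), e, e]
    have e2 : {η | H v η (n + 1) = hist x (n + 1)} =
        {η | H v η n = hist x n} ∩ (fun η => η (hist x n)) ⁻¹' {x (n + 1)} := by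
      ext η
      simp only [H, hist_succ, Set.mem_ofPred_eq, List.append_singleton_inj, Set.mem_inter_iff,
        Set.mem_preimage, Set.mem_singleton_iff]
      exact and_congr_right fun h => by rw [h]
    have hl : (hist x n).length = n + 1 := by simp [hist]
    have := dep_inter Q (S := {l | l.length ≤ n}) (mH n (MeasurableSet.singleton (hist x n)))
      (measurable_pi_apply (hist x n) (MeasurableSet.singleton (x (n + 1))))
      (fun η η' h hη => (dH n η η' h).symm.trans hη)
      (fun η η' h hη => (h _ (by simp [hl])).symm.trans hη)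
    simp only [Measure.real] at this
    rw [← ENNReal.toReal_mul, ENNReal.toReal_eq_toReal_iff' (by finiteness) (by finiteness)] at this
    rw [e2]
    refine this.trans ?_
    congr 1
    refine ((measurePreserving_eval_infinitePi Q _).measure_preimage
      (MeasurableSet.singleton _).nullMeasurableSet).trans ?_
    simp only [Q, PMF.toMeasure_apply_singleton _ _ (MeasurableSet.singleton _), stp,
      PMF.ofFinset_apply, hl, add_tsub_cancel_right]
    rw [trans_congr (w' := x) fun k hk => by simp [hist, Nat.lt_succ_of_le hk]]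

end Pool.Agent.H41.Derrw
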