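import Pool.Agent.H41.Derrw2

set_option autoImplicit false

namespace Pool.Agent.H41.Derrw

open MeasureTheory Finset Filter
open scoped Topology ENNReal

section step
variable {V : Type} [DecidableEq V] {G : SimpleGraph V} [G.LocallyFinite] {γ : ℝ}
  [Fintype V] [MeasurableSpace V] [DiscreteMeasurableSpace V]

lemma one_step {v : V} {P : Measure (ℕ → V)} (hP : IsLaw G γ v P) (n : ℕ) (F : (ℕ → V) → ℝ≥0∞)
    (hF : ∀ w w', (∀ k ≤ n + 1, w k = w' k) → F w = F w') :
    ∫⁻ w, F w ∂P = ∫⁻ w, ∑ y, ENNReal.ofReal (trans G γ w n y) * F (Function.update w (n + 1) y) ∂P := by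
  let r : (ℕ → V) → (Fin (n + 1) → V) := fun w i => w i
  let e : (Fin (n + 1) → V) → ℕ → V := fun a k => if h : k < n + 1 then a ⟨k, h⟩ else v
  have mr : Measurable r := by fun_prop
  have mr2 : Measurable fun w => (r w, w (n + 1)) := by fun_prop
  have er : ∀ w, ∀ k ≤ n, e (r w) k = w k := fun w k hk => dif_pos (Nat.lt_succ_of_le hk)
  have up : ∀ (w w' : ℕ → V) y, (∀ k ≤ n, w k = w' k) → ∀ k ≤ n + 1,
      Function.update w (n + 1) y k = Function.update w' (n + 1) y k := fun w w' y h k hk => by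
    by_cases e : k = n + 1
    · simp [e]
    · simp [e, h k (by omega)]
  have l1 : ∫⁻ w, F w ∂P = ∫⁻ q : (Fin (n + 1) → V) × V, F (Function.update (e q.1) (n + 1) q.2)
      ∂P.map fun w => (r w, w (n + 1)) := by
    rw [lintegral_map Measurable.of_discrete mr2]
    refine lintegral_congr fun w => hF _ _ fun k hk => ?_
    rw [up _ _ _ (er w) k hk, Function.update_eq_self]
  have l2 : ∫⁻ w, ∑ y, ENNReal.ofReal (trans G γ w n y) * F (Function.update w (n + 1) y) ∂P =
      ∫⁻ a, ∑ y, ENNReal.ofReal (trans G γ (e a) n y) * F (Function.update (e a) (n + 1) y)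
        ∂P.map r := by
    rw [lintegral_map Measurable.of_discrete mr]
    refine lintegral_congr fun w => sum_congr rfl fun y _ => ?_
    rw [trans_congr (er w), hF _ _ (up _ _ y (er w))]
  rw [l1, l2, lintegral_fintype, lintegral_fintype, Fintype.sum_prod_type]
  refine sum_congr rfl fun a _ => ?_
  rw [sum_mul]
  refine sum_congr rfl fun y _ => ?_
  have h := hP.2.2 (Function.update (e a) (n + 1) y) n
  have u2 : ∀ k ≤ n, Function.update (e a) (n + 1) y k = e a k := fun k hk =>
    Function.update_of_ne (by omega) _ _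
  have s1 : r ⁻¹' {a} = {w | ∀ k ≤ n, w k = Function.update (e a) (n + 1) y k} := by
    ext w
    refine ⟨?_, fun h => funext fun i => ?_⟩
    · rintro rfl k hk
      rw [u2 k hk, er w k hk]
    · have := h i (Nat.le_of_lt_succ i.2)
      rw [u2 _ (Nat.le_of_lt_succ i.2)] at this
      exact this.trans (dif_pos i.2)
  have s2 : (fun w => (r w, w (n + 1))) ⁻¹' {(a, y)} =
      {w | ∀ k ≤ n + 1, w k = Function.update (e a) (n + 1) y k} := by
    ext w
    have := Set.ext_iff.1 s1 w
    simp only [Set.mem_preimage, Set.mem_singleton_iff, Prod.mk.injEq, Set.mem_ofPred_eq] at this ⊢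
    rw [this]
    refine ⟨fun h k hk => ?_, fun h => ⟨fun k hk => h k (by omega), by simpa using h (n + 1) le_rfl⟩⟩
    by_cases e : k = n + 1
    · simp [e, h.2]
    · exact h.1 k (by omega)
  rw [Measure.map_apply mr2 (MeasurableSet.singleton _),
    Measure.map_apply mr (MeasurableSet.singleton _), s1, s2, h, trans_congr u2,
    Function.update_self]
  ring

end step

lemma potential {ρ : ℕ → ℝ} (h0 : ∀ s, 0 ≤ ρ s) (hs : Summable ρ) : ∃ φ : ℕ → ℝ,
    (∀ s, 0 ≤ φ s) ∧ φ 1 ≤ φ 0 ∧
      ∀ s, φ (s + 2) + ρ (s + 1) * (1 + φ s) ≤ (1 + ρ (s + 1)) * φ (s + 1) := by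
  let e : ℕ → ℝ := fun s => Nat.rec 1 (fun s a => 1 + ρ (s + 1) * a) s
  have e1 : ∀ s, e (s + 1) = 1 + ρ (s + 1) * e s := fun _ => rfl
  have e2 : ∀ s, 1 ≤ e s ∧ e s ≤ Real.exp (∑ t ∈ range (s + 1), ρ t) := by
    intro s
    induction s with
    | zero => exact ⟨le_rfl, Real.one_le_exp (sum_nonneg fun _ _ => h0 _)⟩
    | succ s ih =>
      have := h0 (s + 1)
      have := Real.add_one_le_exp (ρ (s + 1))
      rw [e1, sum_range_succ, Real.exp_add]
      exact ⟨by nlinarith [ih.1], by nlinarith [ih.1, ih.2]⟩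
  have e3 : Summable fun s => e s - 1 := by
    refine (summable_nat_add_iff 1).1 (.of_nonneg_of_le (fun s => sub_nonneg.2 (e2 (s + 1)).1) (fun s => ?_)
      (((summable_nat_add_iff 1).2 hs).mul_right (Real.exp (∑' t, ρ t))))
    rw [e1, add_sub_cancel_left]
    exact mul_le_mul_of_nonneg_left ((e2 s).2.trans (Real.exp_le_exp.2
      (hs.sum_le_tsum _ fun _ _ => h0 _))) (h0 _)
  have p : ∀ s, ∑' t, (e (t + s) - 1) = e s - 1 + ∑' t, (e (t + (s + 1)) - 1) := fun s => by
    rw [((summable_nat_add_iff (f := fun s => e s - 1) s).2 e3).tsum_eq_zero_add]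
    simp [add_assoc, add_comm 1 s]
  refine ⟨fun s => ∑' t, (e (t + s) - 1), fun s => tsum_nonneg fun t => sub_nonneg.2 (e2 _).1,
    ?_, fun s => ?_⟩
  · linarith [p 0, (e2 0).1]
  · simp only
    rw [p s, p (s + 1), e1]
    exact le_of_eq (by ring)

lemma ediv_succ {m : ℤ} (hm : 0 < m) (a : ℤ) :
    (a + 1) / m = a / m + if m ∣ a + 1 then 1 else 0 := by
  have h1 := Int.emod_nonneg a hm.ne'
  have h2 := Int.emod_lt_of_pos a hm
  have h3 := Int.emod_add_mul_ediv a m
  split_ifs with h
  · have : m ∣ a % m + 1 := by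
      rw [← h3, add_right_comm] at h
      exact (Int.dvd_add_left (Int.dvd_mul_right _ _)).1 h
    have := Int.le_of_dvd (by omega) this
    exact ((Int.ediv_emod_unique (r := 0) hm).2 ⟨by rw [mul_add]; omega, le_rfl, hm⟩).1
  · have : a % m + 1 ≠ m := fun e => h ⟨a / m + 1, by rw [mul_add]; omega⟩
    exact ((Int.ediv_emod_unique (r := a % m + 1) hm).2 ⟨by rw [add_zero]; omega, by omega, by omega⟩).1

section cyc
variable {n : ℕ} {G : SimpleGraph (ZMod (n + 3))}

def S (w : ℕ → ZMod (n + 3)) (k : ℕ) : ℤ := ∑ j ∈ range k, if w (j + 1) = w j + 1 then 1 else -1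

lemma S_succ (w : ℕ → ZMod (n + 3)) (k : ℕ) :
    S w (k + 1) = S w k + if w (k + 1) = w k + 1 then 1 else -1 := sum_range_succ _ _

def Valid (v : ZMod (n + 3)) (w : ℕ → ZMod (n + 3)) (k : ℕ) : Prop :=
  w 0 = v ∧ ∀ j < k, w (j + 1) = w j + 1 ∨ w (j + 1) = w j - 1

lemma pm_ne (a : ZMod (n + 3)) : a + 1 ≠ a - 1 := fun h =>
  haveI : Fact (2 < n + 3) := ⟨by omega⟩
  ZMod.neg_one_ne_one (n := n + 3) (by linear_combination -h)

lemma valid_spec {v : ZMod (n + 3)} {w : ℕ → ZMod (n + 3)} {k : ℕ} (h : Valid v w k) :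
    w k = v + (S w k : ℤ) ∧ ∀ j : ℤ, cross w k (v + j) (v + j + 1) =
      (S w k - j - 1) / (n + 3) - (-j - 1) / (n + 3) := by
  induction k with
  | zero => exact ⟨by simpa [S] using h.1, fun j => by simp [S, cross]⟩
  | succ k ih =>
    obtain ⟨h1, h2⟩ := ih ⟨h.1, fun j hj => h.2 j (by omega)⟩
    have dv : ∀ a b : ℤ, v + a = v + b ↔ ((n + 3 : ℤ)) ∣ b - a := fun a b => by
      rw [add_right_inj, ZMod.intCast_eq_intCast_iff_dvd_sub]; push_cast; rfl
    have su := ediv_succ (m := n + 3) (by omega)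
    rcases h.2 k (by omega) with e | e
    · have hS : S w (k + 1) = S w k + 1 := by rw [S_succ, if_pos e]
      refine ⟨by rw [e, h1, hS]; push_cast; ring, fun j => ?_⟩
      rw [cross, sum_range_succ, ← cross, h2, hS, e, if_neg (c := w k = v + j + 1 ∧ _),
        show S w k + 1 - j - 1 = (S w k - j - 1) + 1 by ring, su]
      · have : (w k = v + j ∧ w k + 1 = v + j + 1) ↔ (n + 3 : ℤ) ∣ S w k - j - 1 + 1 := by
          rw [add_left_inj, and_self, h1, eq_comm, dv, sub_add_cancel]
        simp only [this]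
        ring
      · rintro ⟨a, b⟩
        exact pm_ne (w k) (by linear_combination b - a)
    · have hS : S w (k + 1) = S w k - 1 := by
        rw [S_succ, if_neg (by rw [e]; exact (pm_ne _).symm)]; rfl
      refine ⟨by rw [e, h1, hS]; push_cast; ring, fun j => ?_⟩
      rw [cross, sum_range_succ, ← cross, h2, hS, e, if_neg (c := w k = v + j ∧ _),
        show S w k - j - 1 = (S w k - 1 - j - 1) + 1 by ring, su]
      · have : (w k = v + j + 1 ∧ w k - 1 = v + j) ↔ (n + 3 : ℤ) ∣ S w k - 1 - j - 1 + 1 := by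
          rw [sub_eq_iff_eq_add, and_self, h1, eq_comm, show v + j + 1 = v + (j + 1 : ℤ) by
            push_cast; ring, dv, show S w k - (j + 1) = S w k - 1 - j - 1 + 1 by ring]
        simp only [this]
        ring
      · rintro ⟨a, b⟩
        exact pm_ne (w k) (by linear_combination a - b)

lemma cross_neg {V : Type} [DecidableEq V] (w : ℕ → V) (k : ℕ) (x y : V) :
    cross w k x y = -cross w k y x := by simp [cross, ← sum_neg_distrib]

lemma valid_cross {v : ZMod (n + 3)} {w : ℕ → ZMod (n + 3)} {k : ℕ} (h : Valid v w k) :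
    cross w k (w k) (w k + 1) = S w k / (n + 3) ∧
      cross w k (w k) (w k - 1) = (-S w k) / (n + 3) := by
  obtain ⟨h1, h2⟩ := valid_spec h
  constructor
  · have := h2 (S w k)
    rw [← h1] at this
    rw [this]
    have a : ∀ s : ℤ, (-s - 1) / (n + 3) = -(s / (n + 3)) - 1 := fun s => by
      have h1 := Int.emod_nonneg s (by omega : (n + 3 : ℤ) ≠ 0)
      have h2 := Int.emod_lt_of_pos s (by omega : (0 : ℤ) < n + 3)
      have h3 := Int.emod_add_mul_ediv s (n + 3)
      exact ((Int.ediv_emod_unique (r := n + 2 - s % (n + 3)) (by omega)).2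
        ⟨by rw [mul_sub, mul_neg]; omega, by omega, by omega⟩).1
    have b := a 0
    rw [a, sub_self]
    simp only [neg_zero, Int.zero_ediv] at b
    rw [b]; ring
  · have := h2 (S w k - 1)
    rw [show v + ((S w k - 1 : ℤ) : ZMod (n + 3)) = w k - 1 by rw [h1]; push_cast; ring,
      sub_add_cancel] at this
    rw [cross_neg, this]
    simp

variable {γ : ℝ}

noncomputable def rho (n : ℕ) (γ : ℝ) (s : ℕ) : ℝ :=
  wt γ ((-s) / (n + 3)) / wt γ (s / (n + 3))

lemma rho_sum (hγ : 1 / 2 < γ) : Summable (rho n γ) := by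
  have h := (Real.summable_nat_rpow.2 (by linarith : -(2 * γ) < -1)).mul_left
    ((2 * (n + 3) : ℝ) ^ (2 * γ))
  refine (summable_nat_add_iff (n + 3)).1 (.of_nonneg_of_le
    (fun s => (div_pos (wt_pos _ _) (wt_pos _ _)).le) (fun s => ?_)
    ((summable_nat_add_iff (n + 3)).2 h))
  set t := s + (n + 3) with ht
  set q : ℤ := t / (n + 3) with hq
  set q' : ℤ := (-t) / (n + 3) with hq'
  have a1 := Int.emod_lt_of_pos t (by omega : (0 : ℤ) < n + 3)
  have a2 := Int.emod_add_mul_ediv t (n + 3)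
  have a3 := Int.emod_nonneg (-t) (by omega : (n + 3 : ℤ) ≠ 0)
  have a4 := Int.emod_add_mul_ediv (-t) (n + 3)
  rw [← hq] at a2
  rw [← hq'] at a4
  have q1 : 1 ≤ q := (Int.le_ediv_iff_mul_le (by omega)).2 (by omega)
  have b1 : (t : ℤ) ≤ q * (2 * (n + 3)) := by nlinarith
  have b2 : (t : ℤ) ≤ -q' * (2 * (n + 3)) := by nlinarith
  have q2 : q' < 0 := by nlinarith
  have t0 : (0 : ℝ) < t := by positivity
  set x : ℝ := t / (2 * (n + 3)) with hx
  have x0 : 0 < x := by positivity
  have c1 : x ≤ q := (div_le_iff₀ (by positivity)).2 (by exact_mod_cast b1)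
  have c2 : x ≤ -q' := (div_le_iff₀ (by positivity)).2 (by exact_mod_cast b2)
  have g : 0 ≤ γ := by linarith
  unfold rho wt
  rw [← hq, ← hq', if_neg (by omega), if_neg q2.ne, if_pos (by omega),
    Real.rpow_neg (x0.le.trans c2)]
  calc _ ≤ (x ^ γ)⁻¹ / x ^ γ := by gcongr
    _ = _ := by
      rw [Real.rpow_neg t0.le, two_mul γ, Real.rpow_add t0, Real.rpow_add (by positivity), hx,
        Real.div_rpow t0.le (by positivity)]
      field_simp

variable [G.LocallyFinite]

lemma trans_cyc (hG : ∀ a b, G.Adj a b ↔ b = a + 1 ∨ b = a - 1) (w : ℕ → ZMod (n + 3)) (k : ℕ)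
    (f : ZMod (n + 3) → ℝ≥0∞) : ∑ y, ENNReal.ofReal (trans G γ w k y) * f y =
      ENNReal.ofReal (wt γ (cross w k (w k) (w k + 1)) /
        (wt γ (cross w k (w k) (w k + 1)) + wt γ (cross w k (w k) (w k - 1)))) * f (w k + 1) +
      ENNReal.ofReal (wt γ (cross w k (w k) (w k - 1)) /
        (wt γ (cross w k (w k) (w k + 1)) + wt γ (cross w k (w k) (w k - 1)))) * f (w k - 1) := by
  have e : G.neighborFinset (w k) = {w k + 1, w k - 1} := by ext; simp [hG]
  rw [← sum_subset (subset_univ {w k + 1, w k - 1}) fun y _ hy => by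
    rw [trans, if_neg (by simpa [hG] using hy)]; simp, sum_pair (pm_ne _)]
  unfold trans
  rw [if_pos ((hG _ _).2 (Or.inl rfl)), if_pos ((hG _ _).2 (Or.inr rfl)), e, sum_pair (pm_ne _)]

theorem cyc_one (hG : ∀ a b, G.Adj a b ↔ b = a + 1 ∨ b = a - 1) (hγ : 1 / 2 < γ)
    {v : ZMod (n + 3)} {P : Measure (ℕ → ZMod (n + 3))} (hP : IsLaw G γ v P) :
    ∀ᵐ w ∂P, w ∈ Trapped G := by
  have := hP.1
  have val : ∀ᵐ w ∂P, ∀ k, Valid v w k := by
    have a1 : ∀ᵐ w ∂P, w 0 = v := (prob_compl_eq_zero_iff (by measurability)).2 hP.2.1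
    have a2 : ∀ᵐ w ∂P, ∀ k, w (k + 1) = w k + 1 ∨ w (k + 1) = w k - 1 := ae_all_iff.2 fun k => by
      have ms : MeasurableSet {w : ℕ → ZMod (n + 3) | ¬ (w (k + 1) = w k + 1 ∨ w (k + 1) = w k - 1)} := by
        measurability
      rw [ae_iff, ← lintegral_indicator_one ms, one_step hP k _ fun w w' h => by
        simp only [Set.indicator, Set.mem_ofPred_eq, h k (by omega), h (k + 1) le_rfl, Pi.one_apply]]
      simp only [trans_cyc hG]
      simp [Set.indicator]
    filter_upwards [a1, a2] with w h1 h2 k using ⟨h1, fun j _ => h2 j⟩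
  obtain ⟨φ, p0, p1, p2⟩ := potential (fun s => (div_pos (wt_pos _ _) (wt_pos _ _)).le)
    (rho_sum (n := n) hγ)
  let B : ℕ → Set (ℕ → ZMod (n + 3)) := fun k => {w | (S w (k + 1)).natAbs < (S w k).natAbs}
  have Sc : ∀ k (w w' : ℕ → ZMod (n + 3)), (∀ j ≤ k, w j = w' j) → S w k = S w' k :=
    fun k w w' h => sum_congr rfl fun j hj => by
      rw [h j (mem_range.1 hj).le, h (j + 1) (mem_range.1 hj)]
  have mS : ∀ k, Measurable fun w : ℕ → ZMod (n + 3) => S w k := fun k =>
    Finset.measurable_sum _ fun j _ => Measurable.ite (by measurability) measurable_const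
      measurable_const
  have mB : ∀ k, MeasurableSet (B k) := fun k => measurableSet_lt
    ((Measurable.of_discrete (f := Int.natAbs)).comp (mS _))
    ((Measurable.of_discrete (f := Int.natAbs)).comp (mS _))
  let Φ : ℕ → (ℕ → ZMod (n + 3)) → ℝ≥0∞ := fun k w => ENNReal.ofReal (φ (S w k).natAbs)
  have step : ∀ k, ∫⁻ w, Φ (k + 1) w ∂P + P (B k) ≤ ∫⁻ w, Φ k w ∂P := by
    intro k
    rw [← lintegral_indicator_one (mB k), ← lintegral_add_right _ (measurable_one.indicator (mB k)),
      one_step hP k _ fun w w' h => by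
        simp only [Φ, B, Set.indicator, Set.mem_ofPred_eq, Sc _ _ _ h, Pi.one_apply,
          Sc k w w' fun j hj => h j (by omega)]]
    refine lintegral_mono_ae ?_
    filter_upwards [val] with w hw
    have u : ∀ y, S (Function.update w (k + 1) y) k = S w k := fun y =>
      Sc _ _ _ fun j hj => Function.update_of_ne (by omega) _ _
    have u1 : S (Function.update w (k + 1) (w k + 1)) (k + 1) = S w k + 1 := by
      simp [S_succ, u]
    have u2 : S (Function.update w (k + 1) (w k - 1)) (k + 1) = S w k - 1 := by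
      simp [S_succ, u, (pm_ne _).symm, sub_eq_add_neg (S w k)]
    have key : ∀ (s : ℕ) (a b : ℝ), 0 < a → 0 < b → b / a = rho n γ (s + 1) →
        ENNReal.ofReal (a / (a + b)) * (ENNReal.ofReal (φ (s + 2)) + 0) +
        ENNReal.ofReal (b / (a + b)) * (ENNReal.ofReal (φ s) + 1) ≤ ENNReal.ofReal (φ (s + 1)) := by
      intro s a b ha hb e
      have := p0 s
      have := p0 (s + 2)
      rw [add_zero, ← ENNReal.ofReal_one, ← ENNReal.ofReal_add (p0 _) zero_le_one,
        ← ENNReal.ofReal_mul (by positivity), ← ENNReal.ofReal_mul (by positivity),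
        ← ENNReal.ofReal_add (by positivity) (by positivity)]
      refine ENNReal.ofReal_le_ofReal ?_
      have h := mul_le_mul_of_nonneg_left (p2 s) (by positivity : 0 ≤ a / (a + b))
      have h' : a / (a + b) * (φ (s + 2) + b / a * (1 + φ s)) ≤
          a / (a + b) * ((1 + b / a) * φ (s + 1)) := by rw [e]; exact h
      refine le_trans (le_of_eq ?_) (h'.trans (le_of_eq ?_)) <;> field_simp
      ring
    rw [trans_cyc hG, (valid_cross (hw k)).1, (valid_cross (hw k)).2]
    simp only [Φ, B, Set.indicator, Set.mem_ofPred_eq, u, u1, u2, Pi.one_apply]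
    rcases lt_trichotomy (S w k) 0 with h | h | h
    · obtain ⟨s, hs⟩ : ∃ s : ℕ, S w k = -((s + 1 : ℕ) : ℤ) := ⟨(-S w k - 1).toNat, by omega⟩
      rw [hs, if_pos (by omega), if_neg (by omega), add_comm, add_comm (wt _ _),
        show (-((s + 1 : ℕ) : ℤ) + 1).natAbs = s by omega,
        show (-((s + 1 : ℕ) : ℤ) - 1).natAbs = s + 2 by omega,
        show (-((s + 1 : ℕ) : ℤ)).natAbs = s + 1 by omega]
      exact key s _ _ (wt_pos _ _) (wt_pos _ _) (by rw [neg_neg]; rfl)
    · rw [h, if_neg (by omega), if_neg (by omega)]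
      simp only [neg_zero, zero_add, zero_sub, Int.natAbs_neg, Int.natAbs_one, Int.natAbs_zero,
        add_zero, ← add_mul]
      have := wt_pos γ (0 / (n + 3))
      rw [← ENNReal.ofReal_add (by positivity) (by positivity), ← add_div, div_self (by positivity)]
      simpa using ENNReal.ofReal_le_ofReal p1
    · obtain ⟨s, hs⟩ : ∃ s : ℕ, S w k = ((s + 1 : ℕ) : ℤ) := ⟨(S w k - 1).toNat, by omega⟩
      rw [hs, if_neg (by omega), if_pos (by omega),
        show (((s + 1 : ℕ) : ℤ) + 1).natAbs = s + 2 by omega,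
        show (((s + 1 : ℕ) : ℤ) - 1).natAbs = s by omega, Int.natAbs_natCast]
      exact key s _ _ (wt_pos _ _) (wt_pos _ _) rfl
  have tot : ∀ k, ∫⁻ w, Φ k w ∂P + ∑ j ∈ range k, P (B j) ≤ ENNReal.ofReal (φ 0) := by
    intro k
    induction k with
    | zero => simp [Φ, S]
    | succ k ih =>
      rw [sum_range_succ, add_comm _ (P (B k)), ← add_assoc]
      exact le_trans (by gcongr; exact step k) ih
  filter_upwards [val, ae_eventually_notMem (ne_top_of_le_ne_top ENNReal.ofReal_ne_top
    (ENNReal.tsum_le_of_sum_range_le fun k => le_add_self.trans (tot k)))] with w hw hb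
  obtain ⟨N, hN⟩ := eventually_atTop.1 hb
  simp only [B, Set.mem_ofPred_eq, not_lt] at hN
  have hne : S w (N + 1) ≠ 0 := by
    have := hN N le_rfl
    have := S_succ w N
    split_ifs at this <;> omega
  rcases lt_or_gt_of_ne hne with h | h
  · have : ∀ j, S w (N + 1 + j) < 0 ∧ w (N + 1 + j) = -(-w (N + 1) + j) := by
      intro j
      induction j with
      | zero => exact ⟨h, by simp⟩
      | succ j ih =>
        have a := hN (N + 1 + j) (by omega)
        have b := S_succ w (N + 1 + j)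
        rw [← add_assoc]
        split_ifs at b with c
        · omega
        · exact ⟨by omega, by
            rw [((hw (N + 1 + j + 1)).2 _ (by omega)).resolve_left c, ih.2]; push_cast; ring⟩
    exact ⟨n + 3, fun a => -a, ⟨by omega, neg_injective, fun i => (hG _ _).2 (Or.inr (by ring))⟩,
      N + 1, _, fun j => (this j).2⟩
  · have : ∀ j, 0 < S w (N + 1 + j) ∧ w (N + 1 + j) = w (N + 1) + j := by
      intro j
      induction j with
      | zero => exact ⟨h, by simp⟩
      | succ j ih =>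
        have a := hN (N + 1 + j) (by omega)
        have b := S_succ w (N + 1 + j)
        rw [← add_assoc]
        split_ifs at b with c
        · exact ⟨by omega, by rw [c, ih.2]; push_cast; ring⟩
        · omega
    exact ⟨n + 3, id, ⟨by omega, Function.injective_id, fun i => (hG _ _).2 (Or.inl rfl)⟩,
      N + 1, _, fun j => (this j).2⟩

end cyc

end Pool.Agent.H41.Derrw
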