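import Mathlib

set_option autoImplicit false

namespace Pool.Agent.H41.Derrw

open MeasureTheory Finset

variable {V : Type} [DecidableEq V]

/-- The crossing number `c_n(x,y)` of the path `w`. -/
def cross (w : ℕ → V) (n : ℕ) (x y : V) : ℤ :=
  ∑ k ∈ range n, ((if w k = x ∧ w (k + 1) = y then 1 else 0) -
    (if w k = y ∧ w (k + 1) = x then 1 else 0))

/-- Polynomial reinforcement with parameter `γ`. -/
noncomputable def wt (γ : ℝ) (c : ℤ) : ℝ :=
  if 0 < c then (c : ℝ) ^ γ else if c = 0 then 1 else (-c : ℝ) ^ (-γ)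

open Classical in
/-- `P(X_{n+1} = y | X_0 = w 0, …, X_n = w n)`. -/
noncomputable def trans (G : SimpleGraph V) [G.LocallyFinite] (γ : ℝ) (w : ℕ → V) (n : ℕ)
    (y : V) : ℝ :=
  if G.Adj (w n) y then
    wt γ (cross w n (w n) y) / ∑ z ∈ G.neighborFinset (w n), wt γ (cross w n (w n) z)
  else 0

/-- `P` is the law of the reinforced walk started at `v`. -/
def IsLaw [MeasurableSpace V] (G : SimpleGraph V) [G.LocallyFinite] (γ : ℝ) (v : V)
    (P : Measure (ℕ → V)) : Prop :=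
  IsProbabilityMeasure P ∧ P {w | w 0 = v} = 1 ∧ ∀ (x : ℕ → V) (n : ℕ),
    P {w | ∀ k ≤ n + 1, w k = x k} =
      P {w | ∀ k ≤ n, w k = x k} * ENNReal.ofReal (trans G γ x n (x (n + 1)))

/-- A directed circuit of length `m ≥ 3`. -/
def IsCircuit (G : SimpleGraph V) (m : ℕ) (u : ZMod m → V) : Prop :=
  3 ≤ m ∧ Function.Injective u ∧ ∀ i, G.Adj (u i) (u (i + 1))

/-- The event `T`: the path is eventually trapped in a directed circuit. -/
def Trapped (G : SimpleGraph V) : Set (ℕ → V) :=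
  {w | ∃ (m : ℕ) (u : ZMod m → V), IsCircuit G m u ∧
    ∃ (N : ℕ) (i : ZMod m), ∀ j : ℕ, w (N + j) = u (i + j)}

end Pool.Agent.H41.Derrw
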