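import Pool.Agent.H41.DpDefs
import Pool.Agent.H41.Bs1

set_option autoImplicit false
open MeasureTheory Complex Set Filter Topology Metric
open scoped ENNReal

namespace Pool.Agent.H41.Dp
open Pool.Agent.H41.Db Pool.Agent.H41.Bd

variable {p : ℝ}

theorem w0 {z : ℂ} (hz : z ∈ ball (0 : ℂ) 1) : 0 ≤ (1 - ‖z‖) ^ (p - 1) :=
  Real.rpow_nonneg (by rw [mem_ball, dist_zero_right] at hz; linarith) _

theorem J_mono (hp : 2 ≤ p) {u v : ℂ → ℂ} {C : ℝ} (hC : 0 ≤ C)
    (h : ∀ z ∈ ball (0 : ℂ) 1, ‖u z‖ ≤ C * ‖v z‖) : J p u ≤ ENNReal.ofReal (C ^ p) * J p v := by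
  rw [J, J, ← lintegral_const_mul' _ _ ENNReal.ofReal_ne_top]
  refine setLIntegral_mono' measurableSet_ball fun z hz => ?_
  rw [← ENNReal.ofReal_mul (by positivity), mul_left_comm, ← Real.mul_rpow hC (norm_nonneg _)]
  exact ENNReal.ofReal_le_ofReal (mul_le_mul_of_nonneg_left
    (Real.rpow_le_rpow (norm_nonneg _) (h z hz) (by linarith)) (w0 hz))

theorem J_le (hp : 2 ≤ p) {u v : ℂ → ℂ} (h : ∀ z ∈ ball (0 : ℂ) 1, ‖u z‖ ≤ ‖v z‖) :
    J p u ≤ J p v := by
  simpa using J_mono hp zero_le_one (u := u) (v := v) (by simpa using h)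

theorem W_meas (hp : 2 ≤ p) {u : ℂ → ℂ} (hu : ContinuousOn u (ball 0 1)) :
    AEMeasurable (fun z => ENNReal.ofReal ((1 - ‖z‖) ^ (p - 1) * ‖u z‖ ^ p))
      (volume.restrict (ball (0 : ℂ) 1)) := by
  refine AEMeasurable.ennreal_ofReal (ContinuousOn.aemeasurable ?_ measurableSet_ball)
  exact (ContinuousOn.rpow_const (by fun_prop) fun _ _ => Or.inr (by linarith)).mul
    (hu.norm.rpow_const fun _ _ => Or.inr (by linarith))

theorem rpow_add_le (hp : 2 ≤ p) {a b : ℝ} (ha : 0 ≤ a) (hb : 0 ≤ b) :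
    (a + b) ^ p ≤ 2 ^ p * (a ^ p + b ^ p) := by
  have h1 := Real.rpow_nonneg ha p
  have h2 := Real.rpow_nonneg hb p
  rcases le_total a b with h | h
  · calc (a + b) ^ p ≤ (2 * b) ^ p := Real.rpow_le_rpow (by positivity) (by linarith) (by linarith)
      _ = 2 ^ p * b ^ p := Real.mul_rpow (by norm_num) hb
      _ ≤ _ := by gcongr; linarith
  · calc (a + b) ^ p ≤ (2 * a) ^ p := Real.rpow_le_rpow (by positivity) (by linarith) (by linarith)
      _ = 2 ^ p * a ^ p := Real.mul_rpow (by norm_num) ha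
      _ ≤ _ := by gcongr; linarith

theorem W_add (hp : 2 ≤ p) {z a b c : ℂ} (hz : z ∈ ball (0 : ℂ) 1) (h : ‖c‖ ≤ ‖a‖ + ‖b‖) :
    ENNReal.ofReal ((1 - ‖z‖) ^ (p - 1) * ‖c‖ ^ p) ≤ ENNReal.ofReal (2 ^ p) *
      (ENNReal.ofReal ((1 - ‖z‖) ^ (p - 1) * ‖a‖ ^ p) +
        ENNReal.ofReal ((1 - ‖z‖) ^ (p - 1) * ‖b‖ ^ p)) := by
  have := w0 (p := p) hz
  rw [← ENNReal.ofReal_add (by positivity) (by positivity), ← ENNReal.ofReal_mul (by positivity),
    ← mul_add, mul_left_comm]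
  exact ENNReal.ofReal_le_ofReal (mul_le_mul_of_nonneg_left ((Real.rpow_le_rpow (norm_nonneg _) h
    (by linarith)).trans (rpow_add_le hp (norm_nonneg _) (norm_nonneg _))) this)

theorem J_add (hp : 2 ≤ p) {u v w : ℂ → ℂ} (hu : ContinuousOn u (ball 0 1))
    (h : ∀ z ∈ ball (0 : ℂ) 1, ‖w z‖ ≤ ‖u z‖ + ‖v z‖) :
    J p w ≤ ENNReal.ofReal (2 ^ p) * (J p u + J p v) := by
  rw [J, J, J, ← lintegral_add_left' (W_meas hp hu), ← lintegral_const_mul' _ _ ENNReal.ofReal_ne_top]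
  exact setLIntegral_mono' measurableSet_ball fun z hz => W_add hp hz (h z hz)

theorem J_one (hp : 2 ≤ p) : J p (fun _ => 1) < ⊤ := by
  refine lt_of_le_of_lt (setLIntegral_mono' (g := fun _ => 1) measurableSet_ball fun z hz => ?_) ?_
  · rw [mem_ball, dist_zero_right] at hz
    simp only [norm_one, Real.one_rpow, mul_one, ENNReal.ofReal_le_one]
    exact Real.rpow_le_one (by linarith) (by linarith [norm_nonneg z]) (by linarith)
  · simpa using measure_ball_lt_top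

theorem mem_dil {t : ℝ} (t0 : 0 ≤ t) (t1 : t ≤ 1) {z : ℂ} (hz : z ∈ ball (0 : ℂ) 1) :
    ‖(t : ℂ) * z‖ ≤ ‖z‖ ∧ (t : ℂ) * z ∈ ball (0 : ℂ) 1 := by
  have : ‖(t : ℂ) * z‖ ≤ ‖z‖ := by
    rw [norm_mul, Complex.norm_real, Real.norm_of_nonneg t0]
    exact mul_le_of_le_one_left (norm_nonneg _) t1
  rw [mem_ball, dist_zero_right] at *
  exact ⟨this, this.trans_lt hz⟩

theorem J_dil (hp : 2 ≤ p) (u : ℂ → ℂ) {t : ℝ} (t0 : 0 < t) (t1 : t ≤ 1) :
    J p (fun z => u (t * z)) ≤ ENNReal.ofReal ((t ^ 2)⁻¹) * J p u := by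
  set Φ : ℂ → ℝ≥0∞ := (ball (0 : ℂ) 1).indicator
    fun z => ENNReal.ofReal ((1 - ‖z‖) ^ (p - 1) * ‖u z‖ ^ p) with hΦ
  have h1 : J p (fun z => u (t * z)) ≤ ∫⁻ z, Φ (t • z) := by
    refine le_trans (setLIntegral_mono' measurableSet_ball fun z hz => ?_)
      (setLIntegral_le_lintegral _ _)
    obtain ⟨h1, h2⟩ := mem_dil t0.le t1 hz
    rw [Complex.real_smul, hΦ, indicator_of_mem h2]
    rw [mem_ball, dist_zero_right] at hz
    exact ENNReal.ofReal_le_ofReal (mul_le_mul_of_nonneg_right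
      (Real.rpow_le_rpow (by linarith) (by linarith) (by linarith)) (by positivity))
  rw [← (measurableEmbedding_const_smul₀ t0.ne').lintegral_map,
    Measure.map_addHaar_smul _ t0.ne', lintegral_smul_measure, hΦ,
    lintegral_indicator measurableSet_ball] at h1
  simpa [abs_of_pos, J] using h1

theorem J_dil4 (hp : 2 ≤ p) (u : ℂ → ℂ) {t : ℝ} (t0 : 1 / 2 ≤ t) (t1 : t ≤ 1) :
    J p (fun z => u (t * z)) ≤ 4 * J p u := by
  refine (J_dil hp u (by linarith) t1).trans (mul_le_mul_left ?_ _)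
  rw [← ENNReal.ofReal_ofNat 4]
  refine ENNReal.ofReal_le_ofReal ?_
  rw [inv_le_comm₀ (by positivity) (by norm_num)]
  nlinarith

theorem J_diff (hp : 2 ≤ p) {g : ℂ → ℂ} (hg : DifferentiableOn ℂ g (ball 0 1)) {r : ℝ}
    (r0 : 1 / 2 ≤ r) (r1 : r < 1) :
    J p (fun z => g z - g (r * z)) ≤ ENNReal.ofReal ((1 - r) ^ p) * (4 * J p (deriv g)) := by
  have kd : ContinuousOn (deriv g) (ball 0 1) := (hg.deriv isOpen_ball).continuousOn
  have r2 : 0 < 1 - r := by linarith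
  have h1 : ∀ z ∈ ball (0 : ℂ) 1, ENNReal.ofReal ((1 - ‖z‖) ^ (p - 1) * ‖g z - g (r * z)‖ ^ p) ≤
      ENNReal.ofReal ((1 - r) ^ (p - 1)) * ∫⁻ t in Icc r 1,
        ENNReal.ofReal ((1 - ‖z‖) ^ (p - 1) * ‖deriv g (t * z)‖ ^ p) := by
    intro z hz
    have m : ∀ t ∈ Icc r 1, (t : ℂ) * z ∈ ball (0 : ℂ) 1 := fun t ht =>
      (mem_dil (by linarith [ht.1]) ht.2 hz).2
    have k1 : ContinuousOn (fun t : ℝ => deriv g (t * z)) (Icc r 1) := kd.comp (by fun_prop) m
    have k2 : ContinuousOn (fun t : ℝ => ‖deriv g (t * z)‖ ^ p) (Icc r 1) :=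
      k1.norm.rpow_const fun _ _ => Or.inr (by linarith)
    have a1 : ∫ t in r..1, deriv g (t * z) * z = g ((1 : ℝ) * z) - g (r * z) := by
      refine intervalIntegral.integral_eq_sub_of_hasDerivAt (f := fun t : ℝ => g (t * z))
        (fun t ht => ?_) ?_
      · rw [uIcc_of_le r1.le] at ht
        have := (hg.differentiableAt (isOpen_ball.mem_nhds (m t ht))).hasDerivAt
        exact (this.comp (t : ℂ) ((hasDerivAt_id (t : ℂ)).mul_const z)).comp_ofReal.congr_deriv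
          (by simp)
      · exact ContinuousOn.intervalIntegrable (by rw [uIcc_of_le r1.le]; exact k1.mul (by fun_prop))
    have a2 : ‖g z - g (r * z)‖ ≤ ∫ t in Icc r 1, ‖deriv g (t * z)‖ := by
      rw [ofReal_one, one_mul] at a1
      rw [← a1, intervalIntegral.integral_mul_const, norm_mul, integral_Icc_eq_integral_Ioc,
        ← intervalIntegral.integral_of_le r1.le]
      refine (mul_le_of_le_one_right (norm_nonneg _) (by simpa using (mem_ball.1 hz).le)).trans ?_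
      exact intervalIntegral.norm_integral_le_integral_norm r1.le
    have a3 := (convexOn_rpow (show 1 ≤ p by linarith)).map_set_average_le (μ := volume)
      (t := Icc r 1) (f := fun t : ℝ => ‖deriv g (t * z)‖)
      (ContinuousOn.rpow_const continuousOn_id fun _ _ => Or.inr (by linarith)) isClosed_Ici
      (by simpa using r1) (by simp) (Eventually.of_forall fun _ => norm_nonneg _)
      k1.norm.integrableOn_Icc k2.integrableOn_Icc
    simp only [setAverage_eq, Real.volume_real_Icc, max_eq_left r2.le, smul_eq_mul] at a3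
    rw [← ofReal_integral_eq_lintegral_ofReal (k2.integrableOn_Icc.const_mul _)
      (Eventually.of_forall fun t => mul_nonneg (w0 hz) (by positivity)),
      ← ENNReal.ofReal_mul (by positivity), integral_const_mul, mul_left_comm]
    refine ENNReal.ofReal_le_ofReal (mul_le_mul_of_nonneg_left ?_ (w0 hz))
    refine (Real.rpow_le_rpow (norm_nonneg _) a2 (by linarith)).trans ?_
    rw [Real.mul_rpow (by positivity) (integral_nonneg fun _ => norm_nonneg _), Real.inv_rpow r2.le,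
      inv_mul_le_iff₀ (by positivity), ← mul_assoc] at a3
    rwa [Real.rpow_sub_one r2.ne', div_eq_mul_inv]
  refine (setLIntegral_mono' measurableSet_ball h1).trans ?_
  rw [lintegral_const_mul' _ _ ENNReal.ofReal_ne_top, lintegral_lintegral_swap]
  · have h2 : ∫⁻ t in Icc r 1, J p (fun z => deriv g (t * z)) ≤ ∫⁻ _ in Icc r 1, 4 * J p (deriv g) :=
      setLIntegral_mono' measurableSet_Icc fun t ht => J_dil4 hp _ (r0.trans ht.1) ht.2
    refine (mul_le_mul_right h2 _).trans (le_of_eq ?_)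
    rw [setLIntegral_const, Real.volume_Icc, mul_comm (4 * _), ← mul_assoc,
      ← ENNReal.ofReal_mul (by positivity), Real.rpow_sub_one r2.ne', div_mul_cancel₀ _ r2.ne']
  · have := measurable_deriv g
    refine Measurable.aemeasurable (Measurable.ennreal_ofReal (Measurable.mul ?_ ?_))
    · exact Measurable.pow_const (by fun_prop) _
    · exact Measurable.pow_const (Measurable.norm (this.comp (by fun_prop))) _

theorem riesz {α ι : Type*} [MeasurableSpace α] {μ : Measure α} {l : Filter ι}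
    [l.IsCountablyGenerated] {F B : ι → α → ℝ≥0∞} {b : α → ℝ≥0∞}
    (mF : ∀ i, AEMeasurable (F i) μ) (mB : ∀ i, AEMeasurable (B i) μ)
    (hle : ∀ i, F i ≤ᵐ[μ] B i) (hF : ∀ᵐ x ∂μ, Tendsto (fun i => F i x) l (𝓝 0))
    (hB : ∀ᵐ x ∂μ, Tendsto (fun i => B i x) l (𝓝 (b x))) (hb : ∫⁻ x, b x ∂μ ≠ ⊤)
    {K : ι → ℝ≥0∞} (hK : ∀ᶠ i in l, ∫⁻ x, B i x ∂μ ≤ K i) (hK' : Tendsto K l (𝓝 (∫⁻ x, b x ∂μ))) :
    Tendsto (fun i => ∫⁻ x, F i x ∂μ) l (𝓝 0) := by
  rcases l.eq_or_neBot with rfl | hl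
  · exact tendsto_bot
  have h1 := lintegral_liminf_le' (μ := μ) (u := l) (f := fun i x => B i x - F i x)
    fun i => (mB i).sub (mF i)
  have h2 : ∫⁻ x, liminf (fun i => B i x - F i x) l ∂μ = ∫⁻ x, b x ∂μ := by
    refine lintegral_congr_ae ?_
    filter_upwards [hF, hB] with x h1 h2
    have := ENNReal.Tendsto.sub h2 h1 (Or.inr (by simp))
    rw [tsub_zero] at this
    exact this.liminf_eq
  rw [h2] at h1
  set I := ∫⁻ x, b x ∂μ
  rw [ENNReal.tendsto_nhds_zero]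
  intro ε hε
  obtain ⟨δ, δ0, hδ⟩ : ∃ δ : ℝ≥0∞, 0 < δ ∧ δ + δ ≤ ε :=
    ⟨ε / 2, ENNReal.half_pos hε.ne', (ENNReal.add_halves ε).le⟩
  have h3 : ∀ᶠ i in l, I ≤ ∫⁻ x, B i x - F i x ∂μ + δ := by
    by_cases h : I ≤ δ
    · exact Eventually.of_forall fun i => h.trans le_add_self
    · have h4 : I - δ < I := ENNReal.sub_lt_self hb (by intro h0; simp [h0] at h) δ0.ne'
      exact (eventually_lt_of_lt_liminf (h4.trans_le h1)).mono fun i hi => tsub_le_iff_right.1 hi.le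
  filter_upwards [h3, hK, hK'.eventually (eventually_le_nhds (ENNReal.lt_add_right hb δ0.ne'))]
    with i h4 h5 h6
  have h7 : ∫⁻ x, B i x ∂μ = ∫⁻ x, B i x - F i x ∂μ + ∫⁻ x, F i x ∂μ := by
    rw [← lintegral_add_right' _ (mF i)]
    refine lintegral_congr_ae ?_
    filter_upwards [hle i] with x hx
    exact (tsub_add_cancel_of_le hx).symm
  have h8 : I + ∫⁻ x, F i x ∂μ ≤ I + (δ + δ) := by
    calc I + ∫⁻ x, F i x ∂μ ≤ (∫⁻ x, B i x - F i x ∂μ + δ) + ∫⁻ x, F i x ∂μ := by gcongr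
      _ = ∫⁻ x, B i x ∂μ + δ := by rw [h7]; ring
      _ ≤ (I + δ) + δ := by gcongr; exact h5.trans h6
      _ = _ := add_assoc _ _ _
  exact ((ENNReal.add_le_add_iff_left hb).1 h8).trans hδ

end Pool.Agent.H41.Dp
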