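import Pool.Agent.H41.Dp1

set_option autoImplicit false
open MeasureTheory Complex Set Filter Topology Metric
open scoped ENNReal

namespace Pool.Agent.H41.Dp
open Pool.Agent.H41.Db Pool.Agent.H41.Bd

variable {p : ℝ}

noncomputable def rr (n : ℕ) : ℝ := 1 - 1 / ((n : ℝ) + 2)

theorem rr_mem (n : ℕ) : 1 / 2 ≤ rr n ∧ rr n < 1 := by
  have h1 : 1 / ((n : ℝ) + 2) ≤ 1 / 2 :=
    one_div_le_one_div_of_le (by norm_num) (by linarith [Nat.cast_nonneg (α := ℝ) n])
  have h2 : 0 < 1 / ((n : ℝ) + 2) := by positivity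
  unfold rr; constructor <;> linarith

theorem rr_lim : Tendsto rr atTop (𝓝 1) := by
  have := (tendsto_const_nhds (x := (1 : ℝ))).div_atTop
    (tendsto_atTop_add_const_right atTop (2 : ℝ) tendsto_natCast_atTop_atTop)
  unfold rr
  simpa using this.const_sub 1

theorem cont_dil {u : ℂ → ℂ} (hu : ContinuousOn u (ball 0 1)) {t : ℝ} (t0 : 0 ≤ t) (t1 : t ≤ 1) :
    ContinuousOn (fun z => u (t * z)) (ball 0 1) :=
  hu.comp (by fun_prop) fun _ hz => (mem_dil t0 t1 hz).2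

theorem J_dc (hp : 2 ≤ p) {u : ℂ → ℂ} (hu : ContinuousOn u (ball 0 1)) (hJ : J p u < ⊤) :
    Tendsto (fun n => J p fun z => u z - rr n * u (rr n * z)) atTop (𝓝 0) := by
  have k : ∀ n, ContinuousOn (fun z => u (rr n * z)) (ball 0 1) := fun n =>
    cont_dil hu (by linarith [rr_mem n]) (rr_mem n).2.le
  have kW : ∀ z : ℂ, Continuous fun c : ℂ => ENNReal.ofReal ((1 - ‖z‖) ^ (p - 1) * ‖c‖ ^ p) :=
    fun z => ENNReal.continuous_ofReal.comp (continuous_const.mul
      (continuous_norm.rpow_const fun _ => Or.inr (by linarith)))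
  have l1 : Tendsto (fun n => (rr n : ℂ)) atTop (𝓝 1) := by
    simpa [Function.comp_def] using (Complex.continuous_ofReal.tendsto 1).comp rr_lim
  have l2 : ∀ z ∈ ball (0 : ℂ) 1, Tendsto (fun n => u (rr n * z)) atTop (𝓝 (u z)) := fun z hz =>
    (hu.continuousAt (isOpen_ball.mem_nhds hz)).tendsto.comp (by simpa using l1.mul_const z)
  have e : ∀ v : ℂ → ℂ, ∫⁻ z in ball (0 : ℂ) 1, ENNReal.ofReal (2 ^ p) *
      (ENNReal.ofReal ((1 - ‖z‖) ^ (p - 1) * ‖u z‖ ^ p) +
        ENNReal.ofReal ((1 - ‖z‖) ^ (p - 1) * ‖v z‖ ^ p)) =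
      ENNReal.ofReal (2 ^ p) * (J p u + J p v) := fun v => by
    rw [J, J, ← lintegral_add_left' (W_meas hp hu), ← lintegral_const_mul' _ _ ENNReal.ofReal_ne_top]
  refine riesz (B := fun n z => ENNReal.ofReal (2 ^ p) *
      (ENNReal.ofReal ((1 - ‖z‖) ^ (p - 1) * ‖u z‖ ^ p) +
        ENNReal.ofReal ((1 - ‖z‖) ^ (p - 1) * ‖u (rr n * z)‖ ^ p)))
    (b := fun z => ENNReal.ofReal (2 ^ p) *
      (ENNReal.ofReal ((1 - ‖z‖) ^ (p - 1) * ‖u z‖ ^ p) +
        ENNReal.ofReal ((1 - ‖z‖) ^ (p - 1) * ‖u z‖ ^ p)))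
    (K := fun n => ENNReal.ofReal (2 ^ p) * (J p u + ENNReal.ofReal ((rr n ^ 2)⁻¹) * J p u))
    (fun n => W_meas hp (hu.sub (continuousOn_const.mul (k n))))
    (fun n => ((W_meas hp hu).add (W_meas hp (k n))).const_mul _) (fun n => ?_) ?_ ?_ ?_ ?_ ?_
  · filter_upwards [ae_restrict_mem measurableSet_ball] with z hz
    refine W_add hp hz ((norm_sub_le _ _).trans (add_le_add_right ?_ _))
    rw [norm_mul, Complex.norm_real, Real.norm_of_nonneg (by linarith [rr_mem n])]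
    exact mul_le_of_le_one_left (norm_nonneg _) (rr_mem n).2.le
  · filter_upwards [ae_restrict_mem measurableSet_ball] with z hz
    have := ((kW z).tendsto _).comp ((l1.mul (l2 z hz)).const_sub (u z))
    simpa [Real.zero_rpow (show p ≠ 0 by linarith), Function.comp_def] using this
  · filter_upwards [ae_restrict_mem measurableSet_ball] with z hz
    exact ENNReal.Tendsto.const_mul ((((kW z).tendsto _).comp (l2 z hz)).const_add _)
      (Or.inr ENNReal.ofReal_ne_top)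
  · rw [e]; exact ENNReal.mul_ne_top ENNReal.ofReal_ne_top (ENNReal.add_ne_top.2 ⟨hJ.ne, hJ.ne⟩)
  · refine Eventually.of_forall fun n => ?_
    rw [e fun z => u (rr n * z)]
    gcongr
    exact J_dil hp u (by linarith [rr_mem n]) (rr_mem n).2.le
  · rw [e]
    refine ENNReal.Tendsto.const_mul (Tendsto.const_add _ ?_) (Or.inr ENNReal.ofReal_ne_top)
    have := ENNReal.Tendsto.mul_const (b := J p u)
      (ENNReal.tendsto_ofReal ((rr_lim.pow 2).inv₀ (by norm_num))) (Or.inr hJ.ne)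
    simpa using this

theorem polar_le {Φ : ℂ → ℝ} (kΦ : ContinuousOn Φ (ball 0 1)) (Φ0 : ∀ z ∈ ball (0 : ℂ) 1, 0 ≤ Φ z) :
    ∫⁻ z in ball (0 : ℂ) 1, ENNReal.ofReal (Φ z) ≤
      ∫⁻ ρ in Ioo (0 : ℝ) 1, ENNReal.ofReal (ρ * (2 * Real.pi * ∫ x, Φ (ρ * ee 1 x))) := by
  rw [← lintegral_indicator measurableSet_ball, ← Complex.lintegral_comp_polarCoord_symm,
    polarCoord_target, Measure.volume_eq_prod, ← Measure.prod_restrict]
  refine (lintegral_prod_le _).trans ?_
  rw [← lintegral_indicator measurableSet_Ioo]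
  refine (setLIntegral_mono' measurableSet_Ioi fun ρ hρ => ?_).trans (setLIntegral_le_lintegral _ _)
  have ρ0 : 0 < ρ := hρ
  have e : ∀ θ : ℝ, Complex.polarCoord.symm (ρ, θ) = ρ * ee 1 (th θ) := fun θ => by
    rw [Complex.polarCoord_symm_apply, th, ee_theta, Complex.exp_mul_I]; simp
  have n : ∀ x, ‖(ρ : ℂ) * ee 1 x‖ = ρ := fun x => by simp [norm_ee, abs_of_pos ρ0]
  simp only [e]
  by_cases h : ρ < 1
  · have m : ∀ x, (ρ : ℂ) * ee 1 x ∈ ball (0 : ℂ) 1 := fun x => by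
      rw [mem_ball, dist_zero_right, n]; exact h
    have k : Continuous fun x => Φ (ρ * ee 1 x) := kΦ.comp_continuous (by fun_prop) m
    rw [indicator_of_mem (show ρ ∈ Ioo (0 : ℝ) 1 from ⟨ρ0, h⟩)]
    simp only [indicator_of_mem (m _), smul_eq_mul]
    rw [lintegral_const_mul' _ _ ENNReal.ofReal_ne_top, ENNReal.ofReal_mul ρ0.le,
      ← ofReal_integral_eq_lintegral_ofReal (f := fun θ => Φ (ρ * ee 1 (th θ)))
        ((k.comp th_cont).integrableOn_Icc.mono_set Ioo_subset_Icc_self)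
        (Eventually.of_forall fun θ => Φ0 _ (m _))]
    refine le_of_eq ?_
    congr 2
    have hp : (0 : ℝ) < 2 * Real.pi := by positivity
    rw [← integral_Ioc_eq_integral_Ioo, ← intervalIntegral.integral_of_le (by linarith [Real.pi_pos])]
    have := intervalIntegral.integral_comp_div (a := -Real.pi) (b := Real.pi)
      (fun t : ℝ => Φ (ρ * ee 1 (t : X))) hp.ne'
    refine this.trans ?_
    rw [← UnitAddCircle.intervalIntegral_preimage (-Real.pi / (2 * Real.pi)), smul_eq_mul]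
    congr 2
    field_simp; ring
  · have m : ∀ x, (ρ : ℂ) * ee 1 x ∉ ball (0 : ℂ) 1 := fun x => by
      rw [mem_ball, dist_zero_right, n]; exact h
    simp [indicator_of_notMem (m _)]

theorem tay {g : ℂ → ℂ} (hg : DifferentiableOn ℂ g (ball 0 1)) (z : ℂ) (hz : ‖z‖ < 1) :
    HasSum (fun n : ℕ => (iteratedDeriv n g 0 / n.factorial) * z ^ n) (g z) := by
  have := Complex.hasSum_taylorSeries_on_ball hg (z := z) (by simpa using hz)
  convert! this using 2 with n
  simp only [smul_eq_mul, sub_zero]; ring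

theorem LP2 {G : ℂ → ℂ} (hG : DifferentiableOn ℂ G (ball 0 1)) {M : ℝ}
    (hM : ∀ z ∈ ball (0 : ℂ) 1, ‖G z‖ ≤ M) :
    ∫⁻ z in ball (0 : ℂ) 1, ENNReal.ofReal ((1 - ‖z‖) * ‖deriv G z‖ ^ 2) ≤
      ENNReal.ofReal (2 * (M ^ 2 - ‖G 0‖ ^ 2)) := by
  set c : ℕ → ℂ := fun n => iteratedDeriv n G 0 / n.factorial with hc
  have dG := hG.deriv isOpen_ball
  have h1 : ∀ F : Finset ℕ, ∑ n ∈ F, ‖c n‖ ^ 2 ≤ M ^ 2 := fun F => by
    have lim : Tendsto (fun k => ∑ n ∈ F, ‖c n‖ ^ 2 * (rr k ^ n) ^ 2) atTop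
        (𝓝 (∑ n ∈ F, ‖c n‖ ^ 2 * ((1 : ℝ) ^ n) ^ 2)) :=
      tendsto_finsetSum _ fun n _ => ((rr_lim.pow n).pow 2).const_mul _
    simp only [one_pow, mul_one] at lim
    refine le_of_tendsto' lim fun k => ?_
    have r0 : 0 ≤ rr k := by linarith [rr_mem k]
    refine (sum_le_hasSum F (fun _ _ => by positivity) (Bs.h2_bound (tay hG) r0 (rr_mem k).2)).trans
      ((le_abs_self _).trans (Db.abs_int_le fun x => ?_))
    rw [abs_of_nonneg (by positivity)]
    exact pow_le_pow_left₀ (norm_nonneg _) (hM _ (by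
      simpa [norm_ee, abs_of_nonneg r0] using (rr_mem k).2)) 2
  have h2 : Summable fun n => ‖c n‖ ^ 2 := summable_of_sum_le (fun _ => by positivity) h1
  have h3 := Real.tsum_le_of_sum_le (fun _ => by positivity) h1
  rw [h2.tsum_eq_zero_add] at h3
  have c0 : c 0 = G 0 := by simp [hc]
  have e : ∀ n : ℕ, iteratedDeriv n (deriv G) 0 / n.factorial = ((n + 1 : ℕ) : ℂ) * c (n + 1) :=
    fun n => by
      simp only [hc]
      rw [iteratedDeriv_succ', Nat.factorial_succ]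
      have : ((n + 1 : ℕ) : ℂ) ≠ 0 := by exact_mod_cast Nat.succ_ne_zero n
      have : ((n.factorial : ℕ) : ℂ) ≠ 0 := by exact_mod_cast n.factorial_ne_zero
      rw [Nat.cast_mul]; field_simp
  refine (polar_le (Φ := fun z => (1 - ‖z‖) * ‖deriv G z‖ ^ 2)
    (ContinuousOn.mul (by fun_prop) (dG.continuousOn.norm.pow 2)) fun z hz => mul_nonneg
      (by rw [mem_ball, dist_zero_right] at hz; linarith) (by positivity)).trans ?_
  refine le_trans (setLIntegral_mono' (g := fun ρ => ∑' n : ℕ, ENNReal.ofReal (2 * Real.pi *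
    (((n : ℝ) + 1) ^ 2 * ‖c (n + 1)‖ ^ 2) * (ρ ^ (2 * n + 1) - ρ ^ (2 * n + 2))))
    measurableSet_Ioo fun ρ hρ => le_of_eq ?_) ?_
  · have h4 := (Bs.h2_bound (tay dG) hρ.1.le hρ.2).mul_left (ρ * (2 * Real.pi * (1 - ρ)))
    have ρ0 := hρ.1
    have ρ1 : 0 ≤ 1 - ρ := by linarith [hρ.2]
    have h5 : ∀ n : ℕ, 2 * Real.pi * (((n : ℝ) + 1) ^ 2 * ‖c (n + 1)‖ ^ 2) *
        (ρ ^ (2 * n + 1) - ρ ^ (2 * n + 2)) = ρ * (2 * Real.pi * (1 - ρ)) *
        (‖iteratedDeriv n (deriv G) 0 / n.factorial‖ ^ 2 * (ρ ^ n) ^ 2) := fun n => by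
      rw [e, norm_mul, Complex.norm_natCast]; push_cast; ring
    simp only [h5]
    rw [← ENNReal.ofReal_tsum_of_nonneg (fun n => by positivity) h4.summable, h4.tsum_eq]
    simp only [norm_mul, Complex.norm_real, Real.norm_of_nonneg ρ0.le, norm_ee, mul_one,
      integral_const_mul, mul_assoc]
  rw [lintegral_tsum fun n => by fun_prop]
  have h5 := (summable_nat_add_iff 1).2 h2
  refine le_trans (ENNReal.tsum_le_tsum (g := fun n => ENNReal.ofReal (2 * ‖c (n + 1)‖ ^ 2))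
    fun n => ?_) ?_
  · rw [← ofReal_integral_eq_lintegral_ofReal
      ((Continuous.integrableOn_Icc (by fun_prop)).mono_set Ioo_subset_Icc_self) (by
        filter_upwards [ae_restrict_mem measurableSet_Ioo] with ρ hρ
        exact mul_nonneg (by positivity) (sub_nonneg.2
          (pow_le_pow_of_le_one hρ.1.le hρ.2.le (by omega))))]
    refine ENNReal.ofReal_le_ofReal ?_
    rw [← integral_Ioc_eq_integral_Ioo, ← intervalIntegral.integral_of_le zero_le_one,
      intervalIntegral.integral_const_mul, intervalIntegral.integral_sub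
        (Continuous.intervalIntegrable (by fun_prop) _ _)
        (Continuous.intervalIntegrable (by fun_prop) _ _), integral_pow, integral_pow]
    have n0 : (0 : ℝ) ≤ n := by positivity
    have h6 : ((n : ℝ) + 1) ^ 2 * (1 / (2 * n + 2) - 1 / (2 * n + 3)) ≤ 1 / 4 := by
      rw [div_sub_div _ _ (by positivity) (by positivity), ← mul_div_assoc,
        div_le_iff₀ (by positivity)]
      nlinarith
    have h7 := mul_le_mul_of_nonneg_left h6 (show 0 ≤ 2 * Real.pi * ‖c (n + 1)‖ ^ 2 by positivity)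
    have h8 := mul_le_mul_of_nonneg_right Real.pi_le_four (sq_nonneg ‖c (n + 1)‖)
    simp only [one_pow, ne_eq, Nat.add_eq_zero_iff, one_ne_zero, and_false, not_false_eq_true,
      zero_pow, sub_zero]
    push_cast
    rw [show (2 * n + 1 + 1 : ℝ) = 2 * n + 2 by ring, show (2 * n + 2 + 1 : ℝ) = 2 * n + 3 by ring]
    linarith
  · rw [← ENNReal.ofReal_tsum_of_nonneg (fun n => by positivity) (h5.mul_left 2), tsum_mul_left, ← c0]
    exact ENNReal.ofReal_le_ofReal (by linarith)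

theorem cauchy_est {G : ℂ → ℂ} (hG : DifferentiableOn ℂ G (ball 0 1)) {M : ℝ}
    (hM : ∀ z ∈ ball (0 : ℂ) 1, ‖G z‖ ≤ M) {z : ℂ} (hz : z ∈ ball (0 : ℂ) 1) :
    (1 - ‖z‖) * ‖deriv G z‖ ≤ 2 * M := by
  rw [mem_ball, dist_zero_right] at hz
  have R0 : 0 < (1 - ‖z‖) / 2 := by linarith
  have sub : closedBall z ((1 - ‖z‖) / 2) ⊆ ball 0 1 :=
    closedBall_subset_ball' (by rw [dist_zero_right]; linarith)
  have := Complex.norm_deriv_le_of_forall_mem_sphere_norm_le R0
    ((hG.mono (by rwa [closure_ball _ R0.ne'])).diffContOnCl)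
    fun y hy => hM y (sub (sphere_subset_closedBall hy))
  rw [le_div_iff₀ R0] at this
  linarith

theorem J_bdd (hp : 2 ≤ p) {G : ℂ → ℂ} (hG : DifferentiableOn ℂ G (ball 0 1)) {M : ℝ}
    (hM : ∀ z ∈ ball (0 : ℂ) 1, ‖G z‖ ≤ M) :
    J p (deriv G) ≤ ENNReal.ofReal ((2 * M) ^ (p - 2)) * ENNReal.ofReal (2 * (M ^ 2 - ‖G 0‖ ^ 2)) := by
  have M0 : 0 ≤ M := (norm_nonneg _).trans (hM 0 (by simp))
  refine le_trans ?_ (mul_le_mul_right (LP2 hG hM) _)
  rw [J, ← lintegral_const_mul' _ _ ENNReal.ofReal_ne_top]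
  refine setLIntegral_mono' measurableSet_ball fun z hz => ?_
  have h1 := cauchy_est hG hM hz
  rw [mem_ball, dist_zero_right] at hz
  have x0 : 0 < 1 - ‖z‖ := by linarith
  rw [← ENNReal.ofReal_mul (by positivity)]
  refine ENNReal.ofReal_le_ofReal ?_
  have e : (1 - ‖z‖) ^ (p - 1) * ‖deriv G z‖ ^ p =
      ((1 - ‖z‖) * ‖deriv G z‖) ^ (p - 2) * ((1 - ‖z‖) * ‖deriv G z‖ ^ 2) := by
    rw [Real.mul_rpow x0.le (norm_nonneg _), show p - 1 = (p - 2) + 1 by ring,
      Real.rpow_add_one x0.ne', ← Real.rpow_two, mul_mul_mul_comm,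
      ← Real.rpow_add_of_nonneg (norm_nonneg _) (by linarith) (by norm_num), sub_add_cancel]
  rw [e]
  exact mul_le_mul_of_nonneg_right (Real.rpow_le_rpow (by positivity) h1 (by linarith))
    (by positivity)

end Pool.Agent.H41.Dp
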