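import Pool.Agent.H41.Dp2

set_option autoImplicit false
open MeasureTheory Complex Set Filter Topology Metric
open scoped ENNReal

namespace Pool.Agent.H41.Dp
open Pool.Agent.H41.Db Pool.Agent.H41.Bd

variable {p : ℝ}

theorem hd {f : ℂ → ℂ} (hf : DifferentiableOn ℂ f (ball 0 1)) {z : ℂ} (hz : z ∈ ball (0 : ℂ) 1) :
    HasDerivAt f (deriv f z) z := (hf.differentiableAt (isOpen_ball.mem_nhds hz)).hasDerivAt

theorem hd_dil {f : ℂ → ℂ} (hf : DifferentiableOn ℂ f (ball 0 1)) {t : ℝ} (t0 : 0 ≤ t) (t1 : t ≤ 1)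
    {z : ℂ} (hz : z ∈ ball (0 : ℂ) 1) :
    HasDerivAt (fun z => f (t * z)) (t * deriv f (t * z)) z := by
  have := (hd hf (mem_dil t0 t1 hz).2).comp z ((hasDerivAt_id z).const_mul (t : ℂ))
  simpa [mul_comm, Function.comp_def] using this

theorem diff_dil {f : ℂ → ℂ} (hf : DifferentiableOn ℂ f (ball 0 1)) {t : ℝ} (t0 : 0 ≤ t)
    (t1 : t ≤ 1) : DifferentiableOn ℂ (fun z => f (t * z)) (ball 0 1) := fun _ hz =>
  (hd_dil hf t0 t1 hz).differentiableAt.differentiableWithinAt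

theorem add_lim {ι : Type*} {l : Filter ι} {a b c : ι → ℝ≥0∞} (ha : Tendsto a l (𝓝 0))
    (hb : Tendsto b l (𝓝 0)) {K : ℝ} (h : ∀ i, c i ≤ ENNReal.ofReal K * (a i + b i)) :
    Tendsto c l (𝓝 0) := by
  have := ENNReal.Tendsto.const_mul (a := ENNReal.ofReal K) (ha.add hb) (Or.inr ENNReal.ofReal_ne_top)
  simp only [add_zero, mul_zero] at this
  exact tendsto_of_tendsto_of_tendsto_of_le_of_le tendsto_const_nhds this (fun _ => zero_le) h

theorem mul_lim {ι : Type*} {l : Filter ι} {a : ι → ℝ≥0∞} (ha : Tendsto a l (𝓝 0)) {K : ℝ≥0∞}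
    (hK : K ≠ ⊤) : Tendsto (fun i => K * a i) l (𝓝 0) := by
  simpa using ENNReal.Tendsto.const_mul (a := K) ha (Or.inr hK)

theorem pow_lim (hp : 2 ≤ p) {ι : Type*} {l : Filter ι} {a : ι → ℝ} (ha : Tendsto a l (𝓝 0))
    {K : ℝ≥0∞} (hK : K ≠ ⊤) : Tendsto (fun i => ENNReal.ofReal (a i ^ p) * K) l (𝓝 0) := by
  have h1 := ENNReal.tendsto_ofReal (ha.rpow_const (p := p) (Or.inr (by linarith)))
  rw [Real.zero_rpow (by linarith), ENNReal.ofReal_zero] at h1
  simpa [mul_comm] using mul_lim h1 hK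

theorem half_ex {ε : ℝ≥0∞} (hε : 0 < ε) (K : ℝ) :
    ∃ δ : ℝ≥0∞, 0 < δ ∧ δ + δ ≤ ε ∧ ENNReal.ofReal K * (δ + δ) ≤ ε := by
  have t : Tendsto (fun δ : ℝ≥0∞ => δ) (𝓝[>] 0) (𝓝 0) := tendsto_id.mono_left nhdsWithin_le_nhds
  have h1 := add_lim t t (K := 1) (c := fun δ => δ + δ) (by simp)
  have h2 := add_lim t t (K := K) fun _ => le_rfl
  obtain ⟨δ, ⟨h3, h4⟩, h5⟩ := (((ENNReal.tendsto_nhds_zero.1 h1 ε hε).and
    (ENNReal.tendsto_nhds_zero.1 h2 ε hε)).and self_mem_nhdsWithin).exists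
  exact ⟨δ, h5, h3, h4⟩

theorem bd_ball {u : ℂ → ℂ} (hu : ContinuousOn u (ball 0 1)) {s : ℝ} (s1 : s < 1) :
    ∃ C, 0 ≤ C ∧ ∀ z ∈ closedBall (0 : ℂ) s, ‖u z‖ ≤ C := by
  obtain ⟨C, hC⟩ := (isCompact_closedBall (0 : ℂ) s).exists_bound_of_continuousOn
    (hu.mono (closedBall_subset_ball s1))
  exact ⟨max C 0, le_max_right _ _, fun z hz => (hC z hz).trans (le_max_left _ _)⟩

theorem J_self (hp : 2 ≤ p) {f : ℂ → ℂ} (hf : DifferentiableOn ℂ f (ball 0 1))
    (hJ : J p (deriv f) < ⊤) : J p f < ⊤ := by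
  obtain ⟨C, C0, hC⟩ := bd_ball hf.continuousOn (s := 1 / 2) (by norm_num)
  have h1 := J_diff hp hf (r := 1 / 2) le_rfl (by norm_num)
  have h2 := J_mono hp (u := fun z => f ((1 / 2 : ℝ) * z)) (v := fun _ => 1) C0 fun z hz => by
    rw [norm_one, mul_one]
    refine hC _ ?_
    rw [mem_ball, dist_zero_right] at hz
    rw [mem_closedBall, dist_zero_right, norm_mul, Complex.norm_real, Real.norm_of_nonneg (by norm_num)]
    linarith
  have h3 := J_add hp (u := fun z => f ((1 / 2 : ℝ) * z)) (v := fun z => f z - f ((1 / 2 : ℝ) * z))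
    (w := f) (cont_dil hf.continuousOn (by norm_num) (by norm_num)) fun z _ => by
      simpa using norm_add_le (f ((1 / 2 : ℝ) * z)) (f z - f ((1 / 2 : ℝ) * z))
  exact h3.trans_lt (ENNReal.mul_lt_top ENNReal.ofReal_lt_top (ENNReal.add_lt_top.2
    ⟨h2.trans_lt (ENNReal.mul_lt_top ENNReal.ofReal_lt_top (J_one hp)),
      h1.trans_lt (ENNReal.mul_lt_top ENNReal.ofReal_lt_top (ENNReal.mul_lt_top (by simp) hJ))⟩))

theorem cross (hp : 2 ≤ p) {f h : ℂ → ℂ} (hf : DifferentiableOn ℂ f (ball 0 1))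
    (hJ : J p (deriv f) < ⊤) (hh : DifferentiableOn ℂ h (ball 0 1)) {M : ℝ}
    (hM : ∀ z ∈ ball (0 : ℂ) 1, ‖h z‖ ≤ M) :
    Tendsto (fun n => J p fun z => (f z - f (rr n * z)) * deriv h (rr n * z)) atTop (𝓝 0) := by
  have M0 : 0 ≤ M := (norm_nonneg _).trans (hM 0 (by simp))
  have kf := (hf.deriv isOpen_ball).continuousOn
  have kh := (hh.deriv isOpen_ball).continuousOn
  have Jh := (J_bdd hp hh hM).trans_lt (ENNReal.mul_lt_top ENNReal.ofReal_lt_top ENNReal.ofReal_lt_top)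
  rw [ENNReal.tendsto_nhds_zero]
  intro ε hε
  obtain ⟨δ, δ0, -, hδ⟩ := half_ex hε (2 ^ p)
  obtain ⟨m, hm⟩ := (ENNReal.tendsto_nhds_zero.1 (mul_lim (mul_lim (J_dc hp kf hJ) (K := 4) (by simp))
    (K := ENNReal.ofReal ((2 * M) ^ p)) ENNReal.ofReal_ne_top) δ δ0).exists
  set s := rr m
  have s0 : 0 ≤ s := by linarith [rr_mem m]
  have s1 : s < 1 := (rr_mem m).2
  obtain ⟨C, C0, hC⟩ := bd_ball kf s1
  have l1 : Tendsto (fun n => C * (1 - rr n)) atTop (𝓝 0) := by
    simpa using (rr_lim.const_sub 1).const_mul C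
  filter_upwards [ENNReal.tendsto_nhds_zero.1 (pow_lim hp l1 (K := 4 * J p (deriv h))
    (ENNReal.mul_ne_top (by simp) Jh.ne)) δ δ0] with n hn
  obtain ⟨r0, r1⟩ := rr_mem n
  set r := rr n
  have r2 : 0 < 1 - r := by linarith
  have dg : DifferentiableOn ℂ (fun z => f z - f (s * z)) (ball 0 1) := hf.sub (diff_dil hf s0 s1.le)
  have a1 := J_diff hp dg r0 r1
  have a2 : J p (deriv fun z => f z - f (s * z)) ≤ J p fun z => deriv f z - s * deriv f (s * z) :=
    J_le hp fun z hz => by rw [((hd hf hz).fun_sub (hd_dil hf s0 s1.le hz)).deriv]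
  have a3 := J_mono hp (u := fun z => (f z - f (s * z) - (f (r * z) - f (s * (r * z)))) *
      deriv h (r * z)) (v := fun z => f z - f (s * z) - (f (r * z) - f (s * (r * z))))
    (C := 2 * M / (1 - r)) (by positivity) fun z hz => by
      rw [norm_mul, mul_comm]
      refine mul_le_mul_of_nonneg_right ?_ (norm_nonneg _)
      have h1 := cauchy_est hh hM (mem_dil (by linarith) r1.le hz).2
      have h2 : ‖(r : ℂ) * z‖ ≤ r := by
        rw [norm_mul, Complex.norm_real, Real.norm_of_nonneg (by linarith)]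
        exact mul_le_of_le_one_right (by linarith) (by simpa using (mem_ball.1 hz).le)
      rw [le_div_iff₀ r2]
      nlinarith [norm_nonneg (deriv h (r * z))]
  have a4 := J_mono hp (u := fun z => (f (s * z) - f (s * (r * z))) * deriv h (r * z))
    (v := fun z => deriv h (r * z)) (C := C * (1 - r)) (by positivity) fun z hz => by
      rw [norm_mul]
      refine mul_le_mul_of_nonneg_right ?_ (norm_nonneg _)
      have m1 : ∀ y ∈ ball (0 : ℂ) 1, (s : ℂ) * y ∈ closedBall (0 : ℂ) s := fun y hy => by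
        rw [mem_closedBall, dist_zero_right, norm_mul, Complex.norm_real, Real.norm_of_nonneg s0]
        exact mul_le_of_le_one_right s0 (by simpa using (mem_ball.1 hy).le)
      refine ((convex_closedBall (0 : ℂ) s).norm_image_sub_le_of_norm_deriv_le
        (fun y hy => (hd hf (closedBall_subset_ball s1 hy)).differentiableAt) hC
        (m1 _ (mem_dil (by linarith) r1.le hz).2) (m1 z hz)).trans
        (mul_le_mul_of_nonneg_left ?_ C0)
      rw [show (s : ℂ) * z - s * (r * z) = ((1 - r : ℝ) : ℂ) * (s * z) by push_cast; ring, norm_mul,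
        Complex.norm_real, Real.norm_of_nonneg r2.le]
      exact mul_le_of_le_one_right r2.le (by simpa using (mem_ball.1 (mem_dil s0 s1.le hz).2).le)
  have a5 := J_dil4 hp (deriv h) r0 r1.le
  refine le_trans (J_add hp (u := fun z => (f z - f (s * z) - (f (r * z) - f (s * (r * z)))) *
      deriv h (r * z)) (v := fun z => (f (s * z) - f (s * (r * z))) * deriv h (r * z))
    ((dg.continuousOn.sub (cont_dil dg.continuousOn (by linarith) r1.le)).mul
      (cont_dil kh (by linarith) r1.le)) fun z _ => ?_) (le_trans ?_ hδ)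
  · refine le_trans (le_of_eq ?_) (norm_add_le _ _)
    congr 1; ring
  · refine mul_le_mul_right (add_le_add (a3.trans (le_trans ?_ hm))
      (a4.trans ((mul_le_mul_right a5 _).trans hn))) _
    refine (mul_le_mul_right (a1.trans (mul_le_mul_right (mul_le_mul_right a2 _) _)) _).trans
      (le_of_eq ?_)
    rw [← mul_assoc, ← ENNReal.ofReal_mul (by positivity), ← Real.mul_rpow (by positivity) r2.le,
      div_mul_cancel₀ _ r2.ne']

theorem main_r (hp : 2 ≤ p) {f h : ℂ → ℂ} (hf : DifferentiableOn ℂ f (ball 0 1))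
    (hJ : J p (deriv f) < ⊤) (hh : DifferentiableOn ℂ h (ball 0 1)) {M : ℝ}
    (hM : ∀ z ∈ ball (0 : ℂ) 1, ‖h z‖ ≤ M) (hM' : ∀ z ∈ ball (0 : ℂ) 1, ‖h z * f z‖ ≤ 1) :
    Tendsto (fun n => J p (deriv fun z => h (rr n * z) * f z - h z * f z)) atTop (𝓝 0) := by
  have M0 : 0 ≤ M := (norm_nonneg _).trans (hM 0 (by simp))
  have dG : DifferentiableOn ℂ (fun z => h z * f z) (ball 0 1) := hh.mul hf
  have kf := (hf.deriv isOpen_ball).continuousOn
  have kG := (dG.deriv isOpen_ball).continuousOn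
  have JG := (J_bdd hp dG hM').trans_lt
    (ENNReal.mul_lt_top ENNReal.ofReal_lt_top ENNReal.ofReal_lt_top)
  have r0 : ∀ n, 0 ≤ rr n := fun n => by linarith [rr_mem n]
  have r1 : ∀ n, rr n ≤ 1 := fun n => (rr_mem n).2.le
  have l1 := add_lim (mul_lim (J_dc hp kf hJ) (K := ENNReal.ofReal (M ^ p)) ENNReal.ofReal_ne_top)
    (cross hp hf hJ hh hM) (K := 2 ^ p) (c := fun n => J p fun z =>
      (deriv f z - rr n * deriv f (rr n * z)) * h (rr n * z) +
        rr n * ((f z - f (rr n * z)) * deriv h (rr n * z))) fun n => by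
      refine (J_add hp (u := fun z => (deriv f z - rr n * deriv f (rr n * z)) * h (rr n * z))
        (v := fun z => (f z - f (rr n * z)) * deriv h (rr n * z))
        ((kf.sub (continuousOn_const.mul (cont_dil kf (r0 n) (r1 n)))).mul
          (cont_dil hh.continuousOn (r0 n) (r1 n))) fun z _ => ?_).trans
        (mul_le_mul_right (add_le_add_left (J_mono hp M0 fun z hz => ?_) _) _)
      · refine (norm_add_le _ _).trans (add_le_add_right ?_ _)
        rw [norm_mul, Complex.norm_real, Real.norm_of_nonneg (r0 n)]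
        exact mul_le_of_le_one_left (norm_nonneg _) (r1 n)
      · rw [norm_mul, mul_comm]
        exact mul_le_mul_of_nonneg_right (hM _ (mem_dil (r0 n) (r1 n) hz).2) (norm_nonneg _)
  refine add_lim (J_dc hp kG JG) l1 (K := 2 ^ p) fun n => J_add hp
    (kG.sub (continuousOn_const.mul (cont_dil kG (r0 n) (r1 n)))) fun z hz => ?_
  have m := (mem_dil (r0 n) (r1 n) hz).2
  rw [(((hd_dil hh (r0 n) (r1 n) hz).fun_mul (hd hf hz)).fun_sub (hd dG hz)).deriv,
    ((hd hh m).fun_mul (hd hf m)).deriv, ← norm_neg (_ - _ * (_ + _))]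
  refine le_trans (le_of_eq ?_) (norm_add_le _ _)
  congr 1; ring

def Ap (p : ℝ) (f g : ℂ → ℂ) : Prop := ∀ ε : ℝ≥0∞, 0 < ε → ∃ q : Polynomial ℂ,
  J p (deriv fun z => q.eval z * f z - g z) ≤ ε ∧ ‖q.eval 0 * f 0 - g 0‖ₑ ≤ ε

theorem Ap_lim (hp : 2 ≤ p) {f g : ℂ → ℂ} {G : ℕ → ℂ → ℂ} (hf : DifferentiableOn ℂ f (ball 0 1))
    (hg : DifferentiableOn ℂ g (ball 0 1)) (hG : ∀ n, DifferentiableOn ℂ (G n) (ball 0 1))
    (h1 : ∀ n, Ap p f (G n)) (h2 : Tendsto (fun n => J p (deriv fun z => G n z - g z)) atTop (𝓝 0))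
    (h3 : Tendsto (fun n => G n 0) atTop (𝓝 (g 0))) : Ap p f g := by
  intro ε hε
  obtain ⟨δ, δ0, δ1, δ2⟩ := half_ex hε (2 ^ p)
  have h4 : Tendsto (fun n => ‖G n 0 - g 0‖ₑ) atTop (𝓝 0) := by
    simpa using (h3.sub_const (g 0)).enorm
  obtain ⟨n, n1, n2⟩ := ((ENNReal.tendsto_nhds_zero.1 h2 δ δ0).and
    (ENNReal.tendsto_nhds_zero.1 h4 δ δ0)).exists
  obtain ⟨q, q1, q2⟩ := h1 n δ δ0
  have dq : DifferentiableOn ℂ (fun z => q.eval z * f z) (ball 0 1) :=
    q.differentiable.differentiableOn.mul hf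
  refine ⟨q, le_trans (J_add hp (u := deriv fun z => q.eval z * f z - G n z)
    (v := deriv fun z => G n z - g z) ((dq.sub (hG n)).deriv isOpen_ball).continuousOn
    fun z hz => ?_) (le_trans (by gcongr) δ2), le_trans ?_ ((add_le_add q2 n2).trans δ1)⟩
  · rw [((hd dq hz).fun_sub (hd hg hz)).deriv, ((hd dq hz).fun_sub (hd (hG n) hz)).deriv,
      ((hd (hG n) hz).fun_sub (hd hg hz)).deriv]
    exact norm_sub_le_norm_sub_add_norm_sub _ _ _
  · simpa using enorm_add_le (q.eval 0 * f 0 - G n 0) (G n 0 - g 0)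

theorem poly_apx {h : ℂ → ℂ} (hh : DifferentiableOn ℂ h (ball 0 1)) {r : ℝ} (r0 : 0 ≤ r)
    (r1 : r < 1) {δ : ℝ} (δ0 : 0 < δ) : ∃ q : Polynomial ℂ, ∀ z ∈ ball (0 : ℂ) 1,
      ‖q.eval z - h (r * z)‖ ≤ δ ∧ ‖deriv (fun z => q.eval z - h (r * z)) z‖ ≤ δ := by
  set s := (1 + r) / 2 with hs
  have s0 : 0 ≤ s := by positivity
  have s1 : s < 1 := by linarith
  obtain ⟨c, hc, e⟩ := expand hh s0 s1
  have R0 : 0 < (1 - r) / 2 := by linarith
  obtain ⟨N, hN⟩ := (Metric.tendstoUniformlyOn_iff.1 (tendstoUniformlyOn_tsum_nat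
    (f := fun n (w : ℂ) => c n * w ^ n) (s := closedBall 0 s) hc fun n w hw => by
      rw [norm_mul, norm_pow]
      gcongr; simpa using hw) (δ * ((1 - r) / 2)) (by positivity)).exists
  set E : ℂ → ℂ := fun w => ∑ n ∈ Finset.range N, c n * w ^ n - h w with hE
  have dE : DifferentiableOn ℂ E (ball 0 1) := DifferentiableOn.sub (by fun_prop) hh
  have bE : ∀ w ∈ closedBall (0 : ℂ) s, ‖E w‖ ≤ δ * ((1 - r) / 2) := fun w hw => by
    have := (hN w hw).le
    rwa [← e w (by simpa using hw), dist_comm, dist_eq_norm] at this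
  refine ⟨∑ n ∈ Finset.range N, Polynomial.monomial n (c n * (r : ℂ) ^ n), fun z hz => ?_⟩
  have e1 : ∀ z, Polynomial.eval z (∑ n ∈ Finset.range N, Polynomial.monomial n (c n * (r : ℂ) ^ n)) -
      h (r * z) = E (r * z) := fun z => by
    simp only [Polynomial.eval_finsetSum, Polynomial.eval_monomial, hE, mul_pow, mul_assoc]
  simp only [e1]
  have h2 : ‖(r : ℂ) * z‖ ≤ r := by
    rw [norm_mul, Complex.norm_real, Real.norm_of_nonneg r0]
    exact mul_le_of_le_one_right r0 (by simpa using (mem_ball.1 hz).le)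
  have sub : closedBall ((r : ℂ) * z) ((1 - r) / 2) ⊆ closedBall 0 s :=
    closedBall_subset_closedBall' (by rw [dist_zero_right]; linarith)
  refine ⟨(bE _ (sub (mem_closedBall_self R0.le))).trans (by nlinarith), ?_⟩
  have := Complex.norm_deriv_le_of_forall_mem_sphere_norm_le R0
    ((dE.mono (by rw [closure_ball _ R0.ne']; exact sub.trans (closedBall_subset_ball s1))).diffContOnCl)
    fun y hy => bE y (sub (sphere_subset_closedBall hy))
  rw [mul_div_cancel_right₀ _ R0.ne'] at this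
  rw [(hd_dil dE r0 r1.le hz).deriv, norm_mul, Complex.norm_real, Real.norm_of_nonneg r0]
  exact (mul_le_of_le_one_left (norm_nonneg _) r1.le).trans this

theorem Ap_dil (hp : 2 ≤ p) {f h : ℂ → ℂ} (hf : DifferentiableOn ℂ f (ball 0 1))
    (hJ : J p (deriv f) < ⊤) (hh : DifferentiableOn ℂ h (ball 0 1)) {r : ℝ} (r0 : 0 ≤ r)
    (r1 : r < 1) : Ap p f fun z => h (r * z) * f z := by
  intro ε hε
  have t : Tendsto (fun δ : ℝ => δ) (𝓝[>] 0) (𝓝 0) := tendsto_id.mono_left nhdsWithin_le_nhds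
  have h1 := add_lim (pow_lim hp t (J_self hp hf hJ).ne) (pow_lim hp t hJ.ne) (K := 2 ^ p)
    fun _ => le_rfl
  have h2 : Tendsto (fun δ : ℝ => ENNReal.ofReal (δ * ‖f 0‖)) (𝓝[>] 0) (𝓝 0) := by
    simpa using ENNReal.tendsto_ofReal (t.mul_const ‖f 0‖)
  obtain ⟨δ, ⟨δ1, δ2⟩, δ0⟩ := (((ENNReal.tendsto_nhds_zero.1 h1 ε hε).and
    (ENNReal.tendsto_nhds_zero.1 h2 ε hε)).and self_mem_nhdsWithin).exists
  replace δ0 : 0 < δ := δ0
  obtain ⟨q, hq⟩ := poly_apx hh r0 r1 δ0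
  have dD : DifferentiableOn ℂ (fun z => q.eval z - h (r * z)) (ball 0 1) :=
    q.differentiable.differentiableOn.sub (diff_dil hh r0 r1.le)
  refine ⟨q, le_trans (J_add hp (u := fun z => deriv (fun z => q.eval z - h (r * z)) z * f z)
    (v := fun z => (q.eval z - h (r * z)) * deriv f z)
    ((dD.deriv isOpen_ball).continuousOn.mul hf.continuousOn) fun z hz => ?_)
    (le_trans (mul_le_mul_right (add_le_add (J_mono hp δ0.le fun z hz => ?_)
      (J_mono hp δ0.le fun z hz => ?_)) _) δ1), le_trans ?_ δ2⟩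
  · simp only [← sub_mul]
    rw [((hd dD hz).fun_mul (hd hf hz)).deriv]
    exact norm_add_le _ _
  · rw [norm_mul]; exact mul_le_mul_of_nonneg_right (hq z hz).2 (norm_nonneg _)
  · rw [norm_mul]; exact mul_le_mul_of_nonneg_right (hq z hz).1 (norm_nonneg _)
  · rw [← sub_mul, ← ofReal_norm, norm_mul]
    exact ENNReal.ofReal_le_ofReal (mul_le_mul_of_nonneg_right (hq 0 (by simp)).1 (norm_nonneg _))

theorem Ap_mul (hp : 2 ≤ p) {f h : ℂ → ℂ} (hf : DifferentiableOn ℂ f (ball 0 1))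
    (hJ : J p (deriv f) < ⊤) (hh : DifferentiableOn ℂ h (ball 0 1)) {M : ℝ}
    (hM : ∀ z ∈ ball (0 : ℂ) 1, ‖h z‖ ≤ M) (hM' : ∀ z ∈ ball (0 : ℂ) 1, ‖h z * f z‖ ≤ 1) :
    Ap p f fun z => h z * f z :=
  Ap_lim hp (G := fun n z => h (rr n * z) * f z) hf (hh.mul hf)
    (fun n => (diff_dil hh (by linarith [rr_mem n]) (rr_mem n).2.le).mul hf)
    (fun n => Ap_dil hp hf hJ hh (by linarith [rr_mem n]) (rr_mem n).2)
    (main_r hp hf hJ hh hM hM') (by simp)

end Pool.Agent.H41.Dp
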