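import Pool.Agent.H41.Dp3

set_option autoImplicit false
open MeasureTheory Complex Set Filter Topology Metric
open scoped ENNReal

namespace Pool.Agent.H41.Dp

variable {p : ℝ}

noncomputable def H (L : ℂ → ℝ) (z : ℂ) : ℂ :=
  Real.circleAverage (fun ζ => herglotzRieszKernel 0 z ζ • (L ζ : ℂ)) 0 1

theorem ci_c {L : ℂ → ℝ} (hL : CircleIntegrable L 0 1) :
    CircleIntegrable (fun ζ => (L ζ : ℂ)) 0 1 := by
  simp only [CircleIntegrable, intervalIntegrable_iff] at hL ⊢
  exact Complex.ofRealCLM.integrable_comp hL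

theorem H_diff {L : ℂ → ℝ} (hL : CircleIntegrable L 0 1) : DifferentiableOn ℂ (H L) (ball 0 1) :=
  differentiableOn_circleAverage_herglotzRieszKernel_smul (ci_c hL)

theorem H_add {L K : ℂ → ℝ} (hL : CircleIntegrable L 0 1) (hK : CircleIntegrable K 0 1) {z : ℂ}
    (hz : z ∈ ball (0 : ℂ) 1) : H (fun ζ => L ζ + K ζ) z = H L z + H K z := by
  simp only [H, ofReal_add, smul_add]
  exact Real.circleAverage_fun_add
    ((ci_c hL).continuousOn_smul (continuousOn_herglotzRieszKernel_sphere hz))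
    ((ci_c hK).continuousOn_smul (continuousOn_herglotzRieszKernel_sphere hz))

theorem H_le {L : ℂ → ℝ} (hL : CircleIntegrable L 0 1) {a : ℝ} (ha : ∀ ζ, L ζ ≤ a) {z : ℂ}
    (hz : z ∈ ball (0 : ℂ) 1) : (H L z).re ≤ a := by
  have e : (H (fun _ => a) z).re = a := by
    rw [H, re_circleAverage_herglotzRieszKernel_smul (circleIntegrable_const a 0 1) hz]
    have h1 := DiffContOnCl.circleAverage_re_herglotzRieszKernel_smul (f := fun _ : ℂ => (a : ℂ))
      diffContOnCl_const hz
    have h2 := Complex.ofRealCLM.circleAverage_comp_comm (c := 0) (R := 1)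
      (f := (Complex.re ∘ herglotzRieszKernel 0 z) • fun _ => a)
      ((circleIntegrable_const a 0 1).continuousOn_smul
        (continuous_re.comp_continuousOn (continuousOn_herglotzRieszKernel_sphere hz)))
    apply Complex.ofReal_injective
    rw [← h1, ← Complex.ofRealCLM_apply, ← h2]
    congr 1
    funext ζ
    simp
  rw [← e, H, H, re_circleAverage_herglotzRieszKernel_smul hL hz,
    re_circleAverage_herglotzRieszKernel_smul (circleIntegrable_const a 0 1) hz]
  refine Real.circleAverage_mono (hL.continuousOn_smul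
        (continuous_re.comp_continuousOn (continuousOn_herglotzRieszKernel_sphere hz)))
    ((circleIntegrable_const a 0 1).continuousOn_smul
        (continuous_re.comp_continuousOn (continuousOn_herglotzRieszKernel_sphere hz)))
    fun ζ hζ => ?_
  rw [abs_one] at hζ
  have h1 := le_re_herglotzRieszKernel hζ hz
  have h2 : ‖z - 0‖ < 1 := by simpa using hz
  refine mul_le_mul_of_nonneg_left (ha ζ) (le_trans ?_ h1)
  exact div_nonneg (by linarith) (by positivity)

theorem H_zero (L : ℂ → ℝ) :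
    H L 0 = ((2 * Real.pi)⁻¹ * ∫ θ in (0 : ℝ)..2 * Real.pi, L (circleMap 0 1 θ) : ℝ) := by
  rw [H, Real.circleAverage_congr_sphere (f₂ := fun ζ => (L ζ : ℂ)) fun ζ hζ => by
    have : ζ ≠ 0 := by rintro rfl; simp at hζ
    simp [herglotzRieszKernel_def, this], Real.circleAverage_def, intervalIntegral.integral_ofReal]
  simp

theorem ci_min {L : ℂ → ℝ} (hL : CircleIntegrable L 0 1) (a : ℝ) :
    CircleIntegrable (fun ζ => min (L ζ) a) 0 1 := by
  have h := circleIntegrable_const a 0 1
  simp only [CircleIntegrable, intervalIntegrable_iff] at hL h ⊢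
  exact hL.inf h

theorem H0_lim {L : ℂ → ℝ} (hL : CircleIntegrable L 0 1) :
    Tendsto (fun n : ℕ => H (fun ζ => min (-L ζ) n + L ζ) 0) atTop (𝓝 0) := by
  simp only [H_zero]
  have h := intervalIntegral.tendsto_integral_filter_of_dominated_convergence (l := atTop)
    (μ := volume) (a := 0) (b := 2 * Real.pi)
    (F := fun (n : ℕ) θ => min (-L (circleMap 0 1 θ)) n + L (circleMap 0 1 θ)) (f := fun _ => 0)
    (fun θ => |L (circleMap 0 1 θ)|)
    (Eventually.of_forall fun n => ((ci_min hL.neg n).add hL).def'.aestronglyMeasurable)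
    (Eventually.of_forall fun n => Eventually.of_forall fun θ _ => by
      have : (0 : ℝ) ≤ n := n.cast_nonneg
      rw [Real.norm_eq_abs, abs_le]
      constructor <;> cases abs_cases (L (circleMap 0 1 θ)) <;>
        cases min_cases (-L (circleMap 0 1 θ)) (n : ℝ) <;> linarith)
    hL.abs (Eventually.of_forall fun θ _ => by
      refine tendsto_const_nhds.congr' ?_
      filter_upwards [tendsto_natCast_atTop_atTop.eventually_ge_atTop (-L (circleMap 0 1 θ))]
        with n hn
      rw [min_eq_left hn]; ring)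
  have h2 := (Complex.continuous_ofReal.tendsto _).comp (h.const_mul (2 * Real.pi)⁻¹)
  simpa [Function.comp_def] using h2

theorem Ap_one (hp : 2 ≤ p) {f : ℂ → ℂ} (hf : DifferentiableOn ℂ f (ball 0 1))
    (hJ : J p (deriv f) < ⊤) (ho : Outer f) : Ap p f fun _ => 1 := by
  obtain ⟨c, hc, k, -, hk, e⟩ := ho
  have c0 : c ≠ 0 := by rintro rfl; simp at hc
  set L : ℂ → ℝ := fun ζ => Real.log (k ζ) with hLd
  have hL : CircleIntegrable L 0 1 := by simpa [CircleIntegrable, circleMap_zero] using hk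
  have e1 : ∀ z ∈ ball (0 : ℂ) 1, f z = c * exp (H L z) := fun z hz => by
    rw [e z hz, H, Real.circleAverage_def]
    simp [circleMap_zero, herglotzRieszKernel_def, hLd]
  have i1 : ∀ n : ℕ, CircleIntegrable (fun ζ => min (-L ζ) n) 0 1 := fun n => ci_min hL.neg n
  set h : ℕ → ℂ → ℂ := fun n z => c⁻¹ * exp (H (fun ζ => min (-L ζ) n) z) with hh
  have dh : ∀ n, DifferentiableOn ℂ (h n) (ball 0 1) := fun n =>
    ((H_diff (i1 n)).cexp).const_mul _
  have e2 : ∀ n, ∀ z ∈ ball (0 : ℂ) 1,
      h n z * f z = exp (H (fun ζ => min (-L ζ) n + L ζ) z) := fun n z hz => by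
    rw [H_add (i1 n) hL hz, e1 z hz, exp_add, hh]; field_simp
  have b1 : ∀ n, ∀ z ∈ ball (0 : ℂ) 1, ‖h n z * f z‖ ≤ 1 := fun n z hz => by
    rw [e2 n z hz, norm_exp, Real.exp_le_one_iff]
    exact H_le (L := fun ζ => min (-L ζ) n + L ζ) ((i1 n).add hL) (fun ζ => by linarith [min_le_left (-L ζ) (n : ℝ)]) hz
  have l0 : Tendsto (fun n => h n 0 * f 0) atTop (𝓝 1) := by
    simp only [fun n => e2 n 0 (by simp)]
    simpa using (H0_lim hL).cexp
  refine Ap_lim hp (G := fun n z => h n z * f z) hf (differentiableOn_const _)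
    (fun n => (dh n).mul hf) (fun n => Ap_mul hp hf hJ (dh n) (M := Real.exp n) (fun z hz => ?_)
      (b1 n)) ?_ l0
  · rw [hh, norm_mul, norm_inv, hc, inv_one, one_mul, norm_exp]
    exact Real.exp_le_exp.2 (H_le (i1 n) (fun ζ => min_le_right _ _) hz)
  · have l1 : Tendsto (fun n => ENNReal.ofReal (2 * (1 ^ 2 - ‖h n 0 * f 0‖ ^ 2))) atTop (𝓝 0) := by
      simpa using ENNReal.tendsto_ofReal (((l0.norm.pow 2).const_sub 1).const_mul 2)
    refine tendsto_of_tendsto_of_tendsto_of_le_of_le tendsto_const_nhds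
      (mul_lim l1 (K := ENNReal.ofReal ((2 * 1) ^ (p - 2))) ENNReal.ofReal_ne_top)
      (fun _ => zero_le) fun n => ?_
    simp only [deriv_sub_const_fun]
    exact J_bdd hp ((dh n).mul hf) (b1 n)

theorem yes (hp : 2 ≤ p) {f : ℂ → ℂ} (hf : InD p f) (ho : Outer f) : Cyclic p f := by
  have p0 : 0 < 1 / p := by positivity
  have hJ : J p (deriv f) < ⊤ :=
    (ENNReal.rpow_lt_top_iff_of_pos p0).1 (le_add_self.trans_lt hf.2)
  have hA := Ap_one hp hf.1 hJ ho
  choose q q1 q2 using fun n : ℕ => hA ((n : ℝ≥0∞)⁻¹) (by simp)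
  refine ⟨q, ?_⟩
  have l1 := tendsto_of_tendsto_of_tendsto_of_le_of_le tendsto_const_nhds
    ENNReal.tendsto_inv_nat_nhds_zero (fun _ => zero_le) q1
  have l2 := tendsto_of_tendsto_of_tendsto_of_le_of_le tendsto_const_nhds
    ENNReal.tendsto_inv_nat_nhds_zero (fun _ => zero_le) q2
  have l3 := (ENNReal.continuous_rpow_const (y := 1 / p)).tendsto 0 |>.comp l1
  rw [ENNReal.zero_rpow_of_pos p0] at l3
  simpa [normD, Function.comp_def] using l2.add l3

end Pool.Agent.H41.Dp
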