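import Mathlib

set_option autoImplicit false
open MeasureTheory Filter Topology Metric
open scoped ENNReal

namespace Pool.Agent.H41.Dp

/-- `∫_𝔻 (1-|z|)^(p-1) |u(z)|^p dA(z)`. -/
noncomputable def J (p : ℝ) (u : ℂ → ℂ) : ℝ≥0∞ :=
  ∫⁻ z in ball (0 : ℂ) 1, ENNReal.ofReal ((1 - ‖z‖) ^ (p - 1) * ‖u z‖ ^ p)

/-- The norm of `D^p_{p-1}`. -/
noncomputable def normD (p : ℝ) (f : ℂ → ℂ) : ℝ≥0∞ := ‖f 0‖ₑ + J p (deriv f) ^ (1 / p)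

/-- Membership in `D^p_{p-1}`. -/
def InD (p : ℝ) (f : ℂ → ℂ) : Prop := DifferentiableOn ℂ f (ball 0 1) ∧ normD p f < ⊤

/-- Cyclicity in `D^p_{p-1}`. -/
def Cyclic (p : ℝ) (f : ℂ → ℂ) : Prop :=
  ∃ q : ℕ → Polynomial ℂ,
    Tendsto (fun n => normD p fun z => (q n).eval z * f z - 1) atTop (𝓝 0)

/-- Outer functions on the disc. -/
def Outer (f : ℂ → ℂ) : Prop :=
  ∃ c : ℂ, ‖c‖ = 1 ∧ ∃ k : ℂ → ℝ, (∀ ζ, 0 ≤ k ζ) ∧
    IntervalIntegrable (fun θ : ℝ => Real.log (k (Complex.exp (θ * Complex.I)))) volume 0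
      (2 * Real.pi) ∧
    ∀ z ∈ ball (0 : ℂ) 1, f z = c * Complex.exp (1 / (2 * Real.pi) *
      ∫ θ in (0 : ℝ)..2 * Real.pi, (Complex.exp (θ * Complex.I) + z) /
        (Complex.exp (θ * Complex.I) - z) * Real.log (k (Complex.exp (θ * Complex.I))))

end Pool.Agent.H41.Dp
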