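import Pool.Agent.H41.PolymerDefs
import Pool.Agent.H41.Derrw1

set_option autoImplicit false

namespace Pool.Agent.H41.Polymer

open MeasureTheory ProbabilityTheory Finset Pool.Agent.H41.Frog
open scoped ENNReal

lemma headtail {Y : Type} [MeasurableSpace Y] [Inhabited Y] (Q : Measure Y) [IsProbabilityMeasure Q]
    {F : Y × (ℕ → Y) → ℝ≥0∞} (hF : Measurable F) :
    ∫⁻ η, F (η 0, fun k => η (k + 1)) ∂(Measure.infinitePi fun _ : ℕ => Q) =
      ∫⁻ a, ∫⁻ η, F (a, η) ∂(Measure.infinitePi fun _ : ℕ => Q) ∂Q := by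
  have msh : Measurable fun (η : ℕ → Y) k => η (k + 1) := by fun_prop
  have h : IndepFun (fun η : ℕ → Y => η 0) (fun η k => η (k + 1))
      (Measure.infinitePi fun _ : ℕ => Q) := by
    rw [indepFun_iff_measure_inter_preimage_eq_mul]
    intro s t hs ht
    have := dep_inter (fun _ : ℕ => Q) (S := {0}) (measurable_pi_apply 0 hs) (msh ht)
      (fun ω ω' hh hω => by simpa [← hh 0 rfl] using hω) (fun ω ω' hh hω => by
        have : (fun k => ω' (k + 1)) = fun k => ω (k + 1) := funext fun k => (hh _ (by simp)).symm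
        simpa only [Set.mem_preimage, this] using hω)
    simp only [Measure.real] at this
    rwa [← ENNReal.toReal_mul, ENNReal.toReal_eq_toReal_iff' (by finiteness) (by finiteness)] at this
  have h2 := h.map_prod_eq_prod_map_map (measurable_pi_apply 0).aemeasurable msh.aemeasurable
  rw [Measure.infinitePi_map_eval, Measure.map_infinitePi_infinitePi_of_inj
    (P := fun _ : ℕ => Q) (f := fun k : ℕ => k + 1) (add_left_injective 1)] at h2
  rw [← lintegral_prod _ hF.aemeasurable, ← h2, lintegral_map hF (by fun_prop)]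

section gen
variable {V : Type} [Countable V] [MeasurableSpace V] [DiscreteMeasurableSpace V] (P : V → PMF V)

instance : IsProbabilityMeasure (chainLaw P) := by unfold chainLaw; infer_instance

lemma markovL (x : V) {F : (ℕ → V) → ℝ≥0∞} (hF : Measurable F) :
    ∫⁻ η, F (walk η x) ∂chainLaw P = ∑' y, P x y * ∫⁻ η, F (cons x (walk η y)) ∂chainLaw P := by
  have : Inhabited (V → V) := ⟨id⟩
  have e : ∀ η : ℕ → V → V, walk η x = cons x (walk (fun k => η (k + 1)) (η 0 x)) := fun η =>
    funext fun n => by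
      cases n with
      | zero => rfl
      | succ n => exact walk_succ η x n
  have m1 : Measurable fun q : V × (ℕ → V → V) => walk q.2 q.1 :=
    measurable_from_prod_countable_right fun y => meas_walk y
  have m2 : Measurable fun q : (V → V) × (ℕ → V → V) => F (cons x (walk q.2 (q.1 x))) :=
    hF.comp ((meas_cons x).comp (m1.comp (show Measurable fun q : (V → V) × (ℕ → V → V) =>
      (q.1 x, q.2) by fun_prop)))
  simp only [e]
  refine (headtail _ m2).trans ?_
  refine ((measurePreserving_eval_infinitePi (fun v => (P v).toMeasure) x).lintegral_comp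
    (f := fun y => ∫⁻ η, F (cons x (walk η y)) ∂chainLaw P) Measurable.of_discrete).trans ?_
  rw [lintegral_countable']
  simp only [PMF.toMeasure_apply_singleton _ _ (MeasurableSet.singleton _), mul_comm]

lemma Z_succ (β : ℝ) (n : ℕ) (x : V) (ω : ℕ → V → ℝ) : Z P β (n + 1) x ω =
    ∑' y, P x y * (ENNReal.ofReal (Real.exp (β * ω 0 y)) * Z P β n y fun k => ω (k + 1)) := by
  have m : ∀ (n : ℕ) (ω : ℕ → V → ℝ), Measurable fun w : ℕ → V =>
      ENNReal.ofReal (Real.exp (β * ∑ i ∈ range n, ω i (w (i + 1)))) := fun n ω =>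
    (Real.measurable_exp.comp (measurable_const.mul (Finset.measurable_sum _ fun i _ =>
      (Measurable.of_discrete (f := ω i)).comp (measurable_pi_apply _)))).ennreal_ofReal
  refine (markovL P x (m (n + 1) ω)).trans (tsum_congr fun y => ?_)
  rw [Z, ← lintegral_const_mul' _ _ ENNReal.ofReal_ne_top]
  congr; ext η
  rw [sum_range_succ', mul_add, Real.exp_add, ENNReal.ofReal_mul (Real.exp_pos _).le, mul_comm]
  rfl

lemma Z_zero (β : ℝ) (x : V) (ω : ℕ → V → ℝ) : Z P β 0 x ω = 1 := by simp [Z]

lemma Z_meas (β : ℝ) (n : ℕ) : ∀ x, Measurable (Z P β n x) := by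
  induction n with
  | zero => intro x; rw [show Z P β 0 x = fun _ => 1 from funext (Z_zero P β x)]; fun_prop
  | succ n ih =>
    intro x
    rw [show Z P β (n + 1) x = _ from funext (Z_succ P β n x)]
    exact Measurable.tsum fun y => measurable_const.mul
      ((by fun_prop : Measurable fun ω : ℕ → V → ℝ => ENNReal.ofReal (Real.exp (β * ω 0 y))).mul
        ((ih y).comp (by fun_prop)))

lemma Z_two (ν : Measure ℝ) [IsProbabilityMeasure ν] (β : ℝ) (n : ℕ) (x x' : V) :
    ∫⁻ ω, Z P β (n + 1) x ω * Z P β (n + 1) x' ω ∂envLaw V ν = ∑' y, P x y * ∑' y', P x' y' *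
      ((∫⁻ a : V → ℝ, ENNReal.ofReal (Real.exp (β * a y)) * ENNReal.ofReal (Real.exp (β * a y'))
        ∂Measure.infinitePi fun _ => ν) * ∫⁻ ω, Z P β n y ω * Z P β n y' ω ∂envLaw V ν) := by
  have m : ∀ y y', Measurable fun q : (V → ℝ) × (ℕ → V → ℝ) =>
      (ENNReal.ofReal (Real.exp (β * q.1 y)) * ENNReal.ofReal (Real.exp (β * q.1 y'))) *
        (Z P β n y q.2 * Z P β n y' q.2) := fun y y' =>
    (by fun_prop : Measurable fun q : (V → ℝ) × (ℕ → V → ℝ) =>
      ENNReal.ofReal (Real.exp (β * q.1 y)) * ENNReal.ofReal (Real.exp (β * q.1 y'))).mul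
      (((Z_meas P β n y).mul (Z_meas P β n y')).comp measurable_snd)
  have sh : Measurable fun η : ℕ → V → ℝ => (η 0, fun k => η (k + 1)) := by fun_prop
  calc _ = ∫⁻ ω, ∑' y, P x y * ∑' y', P x' y' *
        ((ENNReal.ofReal (Real.exp (β * ω 0 y)) * ENNReal.ofReal (Real.exp (β * ω 0 y'))) *
          (Z P β n y (fun k => ω (k + 1)) * Z P β n y' fun k => ω (k + 1))) ∂envLaw V ν := by
        refine lintegral_congr fun ω => ?_
        rw [Z_succ, Z_succ, ← ENNReal.tsum_mul_right]
        refine tsum_congr fun y => ?_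
        rw [mul_assoc, ← ENNReal.tsum_mul_left (a := _ * Z _ _ _ _ _)]
        congr; ext y'; ring
    _ = _ := by
        have m' : ∀ y y', Measurable fun ω : ℕ → V → ℝ => P x' y' *
            ((ENNReal.ofReal (Real.exp (β * ω 0 y)) * ENNReal.ofReal (Real.exp (β * ω 0 y'))) *
            (Z P β n y (fun k => ω (k + 1)) * Z P β n y' fun k => ω (k + 1))) := fun y y' =>
          ((m y y').comp sh).const_mul _
        rw [lintegral_tsum fun y => ((Measurable.tsum (m' y)).const_mul _).aemeasurable]
        refine tsum_congr fun y => ?_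
        rw [lintegral_const_mul' _ _ (PMF.apply_ne_top _ _), lintegral_tsum fun y' =>
            (m' y y').aemeasurable]
        congr; ext y'
        rw [lintegral_const_mul' _ _ (PMF.apply_ne_top _ _)]
        congr 1
        refine (headtail _ (m y y')).trans ?_
        exact lintegral_lintegral_mul (f := fun a : V → ℝ =>
          ENNReal.ofReal (Real.exp (β * a y)) * ENNReal.ofReal (Real.exp (β * a y'))) (by fun_prop)
          ((Z_meas P β n y).mul (Z_meas P β n y')).aemeasurable

end gen

end Pool.Agent.H41.Polymer
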