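import Pool.Agent.H41.DppDefs
import Pool.Agent.H41.Polymer1

set_option autoImplicit false

namespace Pool.Agent.H41.Dpp

open MeasureTheory ProbabilityTheory Finset Filter Function
open scoped ENNReal Topology

abbrev S := ℤ × ℤ

variable (A B : Equiv.Perm S)

def T : Fin 4 → Equiv.Perm S := ![A, A.symm, B, B.symm]

def Y (ξ : ℕ → Fin 4) (v : S) : ℕ → S
  | 0 => v
  | n + 1 => T A B (ξ n) (Y ξ v n)

lemma Y_succ (ξ : ℕ → Fin 4) (v : S) (n : ℕ) :
    Y A B ξ v (n + 1) = Y A B (fun k => ξ (k + 1)) (T A B (ξ 0) v) n := by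
  induction n with
  | zero => rfl
  | succ n ih => rw [Y, ih]; rfl

lemma Y_meas (v : S) (n : ℕ) : Measurable fun ξ => Y A B ξ v n := by
  induction n with
  | zero => exact measurable_const
  | succ n ih =>
    exact (measurable_of_countable fun q : Fin 4 × S => T A B q.1 q.2).comp
      ((measurable_pi_apply n).prodMk ih)

instance : IsProbabilityMeasure dirLaw := by unfold dirLaw; infer_instance

lemma mk (D : Fin 4 → Set (ℕ → Fin 4)) (hD : ∀ e, MeasurableSet (D e)) :
    4 * dirLaw.real {ξ | (fun k => ξ (k + 1)) ∈ D (ξ 0)} = ∑ e, dirLaw.real (D e) := by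
  have m : MeasurableSet {q : Fin 4 × (ℕ → Fin 4) | q.2 ∈ D q.1} :=
    measurableSet_setOfPred.2 (measurable_from_prod_countable_right fun e =>
      measurableSet_setOfPred.1 (hD e))
  have h := Polymer.headtail (uniformOn (Set.univ : Set (Fin 4))) (measurable_one.indicator m)
  have h1 : dirLaw {ξ | (fun k => ξ (k + 1)) ∈ D (ξ 0)} = ∑ e, dirLaw (D e) * 4⁻¹ := by
    refine ((lintegral_indicator_one ((show Measurable fun ξ : ℕ → Fin 4 =>
      (ξ 0, fun k => ξ (k + 1)) by fun_prop) m)).symm.trans h).trans ?_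
    rw [lintegral_fintype]
    refine sum_congr rfl fun e _ => ?_
    congr 1
    · exact lintegral_indicator_one (hD e)
    · simp [uniformOn_univ]
  rw [Measure.real, h1, ← sum_mul, ENNReal.toReal_mul, ENNReal.toReal_sum (by simp)]
  simp only [ENNReal.toReal_inv, ENNReal.toReal_ofNat, Measure.real]
  ring

noncomputable def En (F : S → ℝ) : ℝ := ∑' v, ((F (A v) - F v) ^ 2 + (F (B v) - F v) ^ 2)

lemma sm {φ : S → ℝ} (h : HasFiniteSupport φ) (C : Equiv.Perm S) (ψ χ : S → ℝ) :
    Summable fun v => φ (C v) * ψ v + φ v * χ v := by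
  refine Summable.add (summable_of_hasFiniteSupport ?_) (summable_of_hasFiniteSupport ?_)
  · exact (h.preimage C.injective.injOn).subset fun v hv => left_ne_zero_of_mul hv
  · exact h.subset fun v hv => left_ne_zero_of_mul hv

lemma green1 {φ : S → ℝ} (h : HasFiniteSupport φ) (C : Equiv.Perm S) (ψ : S → ℝ) :
    ∑' v, φ v * (2 * ψ v - ψ (C v) - ψ (C.symm v)) = ∑' v, (φ (C v) - φ v) * (ψ (C v) - ψ v) := by
  have s : ∀ χ : S → ℝ, Summable fun v => φ v * χ v := fun χ => by simpa using sm h 1 0 χ
  have s2 : ∀ χ : S → ℝ, Summable fun v => φ (C v) * χ v := fun χ => by simpa using sm h C χ 0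
  simp only [sub_mul]
  rw [(s2 _).tsum_sub (s _), show ∑' v, φ (C v) * (ψ (C v) - ψ v) =
    ∑' v, φ v * (ψ v - ψ (C.symm v)) from by
      rw [← C.tsum_eq fun v => φ v * (ψ v - ψ (C.symm v))]; simp, ← (s _).tsum_sub (s _)]
  exact tsum_congr fun v => by ring

lemma green {φ : S → ℝ} (h : HasFiniteSupport φ) (ψ : S → ℝ) :
    ∑' v, φ v * (4 * ψ v - ∑ e, ψ (T A B e v)) =
      ∑' v, ((φ (A v) - φ v) * (ψ (A v) - ψ v) + (φ (B v) - φ v) * (ψ (B v) - ψ v)) := by
  have s : ∀ χ : S → ℝ, Summable fun v => φ v * χ v := fun χ => by simpa using sm h 1 0 χ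
  have s2 : ∀ C : Equiv.Perm S, Summable fun v => (φ (C v) - φ v) * (ψ (C v) - ψ v) := fun C =>
    (sm h C (fun v => ψ (C v) - ψ v) fun v => -(ψ (C v) - ψ v)).congr fun v => by ring
  rw [(s2 A).tsum_add (s2 B), ← green1 h, ← green1 h, ← (s _).tsum_add (s _)]
  refine tsum_congr fun v => ?_
  simp [Fin.sum_univ_four, T]; ring

lemma En_sm {F : S → ℝ} (h : HasFiniteSupport F) :
    Summable fun v => (F (A v) - F v) ^ 2 + (F (B v) - F v) ^ 2 := by
  have s2 : ∀ C : Equiv.Perm S, Summable fun v => (F (C v) - F v) ^ 2 := fun C =>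
    (sm h C (fun v => F (C v) - F v) fun v => -(F (C v) - F v)).congr fun v => by ring
  exact (s2 A).add (s2 B)

lemma En_ge {F : S → ℝ} (h : HasFiniteSupport F) (W : Finset S) :
    ∑ v ∈ W, (F (A v) - F v) ^ 2 ≤ En A B F ∧ ∑ v ∈ W, (F (B v) - F v) ^ 2 ≤ En A B F := by
  have := (En_sm A B h).sum_le_tsum W fun v _ => by positivity
  rw [sum_add_distrib] at this
  have a := sum_nonneg fun v (_ : v ∈ W) => sq_nonneg (F (A v) - F v)
  have b := sum_nonneg fun v (_ : v ∈ W) => sq_nonneg (F (B v) - F v)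
  unfold En
  constructor <;> linarith

theorem recur (o : S) (h : ∀ ε > 0, ∃ F : S → ℝ, HasFiniteSupport F ∧ (∀ e, 1 ≤ F (T A B e o)) ∧
    En A B F ≤ ε) : ∀ᵐ ξ ∂dirLaw, ∃ n, 0 < n ∧ Y A B ξ o n = o := by
  have mD : ∀ v, MeasurableSet {ξ | ∀ n, Y A B ξ v n ≠ o} := fun v => by
    rw [Set.ofPred_forall]
    exact MeasurableSet.iInter fun n => (Y_meas A B v n (MeasurableSet.singleton o)).compl
  set g : S → ℝ := fun v => dirLaw.real {ξ | ∀ n, Y A B ξ v n ≠ o} with hg
  have g0 : ∀ v, 0 ≤ g v := fun _ => measureReal_nonneg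
  have g1 : ∀ v, g v ≤ 1 := fun _ => measureReal_le_one
  have m : ∀ v, 4 * dirLaw.real {ξ | ∀ n, Y A B ξ v (n + 1) ≠ o} = ∑ e, g (T A B e v) := fun v => by
    simp only [Y_succ]
    exact mk (fun e => {ξ | ∀ n, Y A B ξ (T A B e v) n ≠ o}) fun e => mD _
  have go : g o = 0 := by
    rw [hg]; simp only
    rw [Set.eq_empty_of_forall_notMem (s := {ξ | ∀ n, Y A B ξ o n ≠ o}) fun ξ hξ => hξ 0 rfl]; simp
  have har : ∀ v, g v * (4 * g v - ∑ e, g (T A B e v)) = 0 := fun v => by
    by_cases hv : v = o
    · simp [hv, go]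
    · rw [← m, mul_eq_zero, sub_eq_zero]
      refine Or.inr (congrArg (fun s => 4 * dirLaw.real s) (Set.ext fun ξ => ⟨fun h n => h _, fun h n => ?_⟩))
      cases n with
      | zero => exact hv
      | succ n => exact h n
  have key : ∀ e, g (T A B e o) = 0 := by
    intro e
    refine pow_eq_zero_iff two_ne_zero |>.1 (le_antisymm (le_of_forall_pos_le_add fun ε hε => ?_)
      (sq_nonneg _))
    obtain ⟨F, h1, h2, h3⟩ := h ε hε
    have f1 : HasFiniteSupport fun v => F v * g v := h1.subset fun v hv => left_ne_zero_of_mul hv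
    have f2 : HasFiniteSupport fun v => F v * g v * F v :=
      f1.subset fun v hv => left_ne_zero_of_mul hv
    have a := green A B f2 g
    rw [tsum_congr (g := fun _ => 0) fun v => by
      rw [mul_right_comm (F v), mul_assoc, har, mul_zero], tsum_zero] at a
    have b : En A B (fun v => F v * g v) ≤ En A B F := by
      have s := (En_sm A B f1).sub (En_sm A B h1)
      rw [← sub_nonpos, En, En, ← (En_sm A B f1).tsum_sub (En_sm A B h1), a]
      refine s.tsum_le_tsum (fun v => ?_) ?_
      · have c : ∀ w, g w * g v * (F w - F v) ^ 2 ≤ (F w - F v) ^ 2 := fun w =>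
          mul_le_of_le_one_left (sq_nonneg _) (mul_le_one₀ (g1 _) (g0 _) (g1 _))
        nlinarith [c (A v), c (B v)]
      · have s2 : ∀ C : Equiv.Perm S, Summable fun v =>
            (F (C v) * g (C v) * F (C v) - F v * g v * F v) * (g (C v) - g v) := fun C =>
          (sm f2 C (fun v => g (C v) - g v) fun v => -(g (C v) - g v)).congr fun v => by ring
        exact (s2 A).add (s2 B)
    have c : (F (T A B e o) * g (T A B e o)) ^ 2 ≤ En A B (fun v => F v * g v) := by
      fin_cases e
      · simpa [go, T] using (En_ge A B f1 {o}).1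
      · simpa [go, T] using (En_ge A B f1 {A.symm o}).1
      · simpa [go, T] using (En_ge A B f1 {o}).2
      · simpa [go, T] using (En_ge A B f1 {B.symm o}).2
    have := h2 e
    have := g0 (T A B e o)
    have : g (T A B e o) ^ 2 ≤ (F (T A B e o) * g (T A B e o)) ^ 2 := by gcongr; nlinarith
    linarith
  have := m o
  simp only [key, sum_const_zero, mul_eq_zero, OfNat.ofNat_ne_zero, false_or] at this
  rw [measureReal_eq_zero_iff] at this
  refine measure_mono_null ?_ this
  exact fun ξ hξ n hn => hξ ⟨n + 1, by omega, hn⟩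

theorem trans (o : S) {C : ℝ} (h : ∀ F : S → ℝ, HasFiniteSupport F → F o ^ 2 ≤ C * En A B F) :
    ∀ᵐ ξ ∂dirLaw, ∀ᶠ n in atTop, Y A B ξ o n ≠ o := by
  set p : ℕ → S → ℝ := fun n v => dirLaw.real {ξ | Y A B ξ v n = o} with hp
  have p0 : ∀ n v, 0 ≤ p n v := fun _ _ => measureReal_nonneg
  have m : ∀ n v, 4 * p (n + 1) v = ∑ e, p n (T A B e v) := fun n v => by
    simp only [hp, Y_succ]
    exact mk (fun e => {ξ | Y A B ξ (T A B e v) n = o}) fun e =>
      Y_meas A B _ n (MeasurableSet.singleton o)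
  have z : ∀ v, p 0 v = if v = o then 1 else 0 := fun v => by
    simp only [hp, Y]; split_ifs with h <;> simp [h]
  have fs : ∀ n, HasFiniteSupport (p n) := by
    intro n
    induction n with
    | zero => exact (Set.finite_singleton o).subset fun v hv => by simpa [z] using hv
    | succ n ih =>
      refine (Set.finite_iUnion fun e => ih.preimage (T A B e).injective.injOn).subset fun v hv => ?_
      by_contra hh
      simp only [Set.mem_iUnion, Set.mem_preimage, mem_support, not_exists, not_not] at hh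
      have := m n v
      simp only [hh, sum_const_zero] at this
      exact hv (by linarith)
  have key : ∀ N, ∑ n ∈ range N, p n o ≤ 4 * |C| := by
    intro N
    set G : S → ℝ := fun v => ∑ n ∈ range N, p n v with hG
    have G0 : ∀ v, 0 ≤ G v := fun v => sum_nonneg fun _ _ => p0 _ _
    have fG : HasFiniteSupport G :=
      ((range N).finite_toSet.biUnion fun n _ => fs n).subset fun v hv => by
        by_contra hh
        simp only [Set.mem_iUnion, mem_support, not_exists, not_not] at hh
        exact hv (sum_eq_zero fun n hn => hh n hn)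
    have a := green A B fG G
    have b : ∀ v, 4 * G v - ∑ e, G (T A B e v) = 4 * (p 0 v - p N v) := fun v => by
      simp only [hG]
      rw [sum_comm, mul_sum, ← sum_sub_distrib, ← sum_range_sub' (fun n => p n v), mul_sum]
      exact sum_congr rfl fun n _ => by rw [← m]; ring
    have c : En A B G ≤ 4 * G o := by
      rw [En, tsum_congr (g := fun v => (G (A v) - G v) * (G (A v) - G v) +
        (G (B v) - G v) * (G (B v) - G v)) fun v => by ring, ← a,
        ← tsum_ite_eq o fun _ => 4 * G o]
      refine Summable.tsum_le_tsum (fun v => ?_) (by simpa using sm fG 1 0 _)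
        (hasSum_ite_eq o _).summable
      have := mul_nonneg (G0 v) (p0 N v)
      rw [b, z]
      split_ifs with hv
      · subst hv; nlinarith
      · nlinarith
    have d := h G fG
    have e : 0 ≤ En A B G := tsum_nonneg fun _ => by positivity
    have := G0 o
    have f : C * En A B G ≤ |C| * (4 * G o) :=
      mul_le_mul (le_abs_self C) c e (abs_nonneg C)
    by_contra hh
    have : 4 * |C| < G o := not_le.1 hh
    nlinarith [abs_nonneg C]
  exact ae_eventually_notMem (s := fun n => {ξ | Y A B ξ o n = o})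
    (ne_top_of_le_ne_top (b := ENNReal.ofReal (4 * |C|)) ENNReal.ofReal_ne_top
      (ENNReal.tsum_le_of_sum_range_le fun N => by
        refine le_trans (le_of_eq ?_) (ENNReal.ofReal_le_ofReal (key N))
        rw [ENNReal.ofReal_sum_of_nonneg fun k _ => p0 _ _]
        exact sum_congr rfl fun k _ => (ofReal_measureReal (measure_ne_top _ _)).symm))

end Pool.Agent.H41.Dpp
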