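import Pool.Agent.H41.Dpp1

set_option autoImplicit false

namespace Pool.Agent.H41.Dpp

open MeasureTheory Finset Filter Function

def Hub (a : ℤ → Prop) : Prop :=
  ∀ s : ℤ, {k : ℕ | 0 < k ∧ a (s + k)}.Nonempty ∧ {k : ℕ | 0 < k ∧ a (s - k)}.Nonempty

noncomputable def nx (a : ℤ → Prop) (s : ℤ) : ℕ := sInf {k : ℕ | 0 < k ∧ a (s + k)}
noncomputable def pv (a : ℤ → Prop) (s : ℤ) : ℕ := sInf {k : ℕ | 0 < k ∧ a (s - k)}

variable {a : ℤ → Prop}

lemma nx_spec (h : Hub a) (s : ℤ) : 0 < nx a s ∧ a (s + nx a s) := Nat.sInf_mem (h s).1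
lemma pv_spec (h : Hub a) (s : ℤ) : 0 < pv a s ∧ a (s - pv a s) := Nat.sInf_mem (h s).2
lemma nx_le {s : ℤ} {k : ℕ} (h0 : 0 < k) (h : a (s + k)) : nx a s ≤ k := Nat.sInf_le ⟨h0, h⟩
lemma pv_le {s : ℤ} {k : ℕ} (h0 : 0 < k) (h : a (s - k)) : pv a s ≤ k := Nat.sInf_le ⟨h0, h⟩

lemma pv_nx (h : Hub a) {s : ℤ} (hs : a s) : pv a (s + nx a s) = nx a s := by
  have h1 := nx_spec h s
  have h2 := pv_spec h (s + nx a s)
  have h3 : pv a (s + nx a s) ≤ nx a s := pv_le h1.1 (by simpa using hs)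
  by_contra ne
  have := nx_le (a := a) (s := s) (k := nx a s - pv a (s + nx a s)) (by omega)
    (by rw [Nat.cast_sub h3, ← add_sub_assoc]; exact h2.2)
  omega

lemma nx_pv (h : Hub a) {s : ℤ} (hs : a s) : nx a (s - pv a s) = pv a s := by
  have h1 := pv_spec h s
  have h2 := nx_spec h (s - pv a s)
  have h3 : nx a (s - pv a s) ≤ pv a s := nx_le h1.1 (by simpa using hs)
  by_contra ne
  have := pv_le (a := a) (s := s) (k := pv a s - nx a (s - pv a s)) (by omega)
    (by rw [Nat.cast_sub h3, ← sub_add]; exact h2.2)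
  omega

open Classical in
noncomputable def σ (h : Hub a) : Equiv.Perm ℤ where
  toFun s := if a s then s + nx a s else s
  invFun s := if a s then s - pv a s else s
  left_inv s := by
    by_cases hs : a s
    · simp [hs, (nx_spec h s).2, pv_nx h hs]
    · simp [hs]
  right_inv s := by
    by_cases hs : a s
    · simp [hs, (pv_spec h s).2, nx_pv h hs]
    · simp [hs]

lemma σ_pos (h : Hub a) {s : ℤ} (hs : a s) : σ h s = s + nx a s := if_pos hs
lemma σ_neg (h : Hub a) {s : ℤ} (hs : ¬ a s) : σ h s = s := if_neg hs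
lemma σs_pos (h : Hub a) {s : ℤ} (hs : a s) : (σ h).symm s = s - pv a s := if_pos hs
lemma σs_neg (h : Hub a) {s : ℤ} (hs : ¬ a s) : (σ h).symm s = s := if_neg hs

def PA (τ : Equiv.Perm ℤ) : Equiv.Perm S where
  toFun v := (τ (v.1 + v.2) - v.2, v.2)
  invFun v := (τ.symm (v.1 + v.2) - v.2, v.2)
  left_inv v := by simp
  right_inv v := by simp

def PB (τ : Equiv.Perm ℤ) : Equiv.Perm S where
  toFun v := (v.1, τ (v.1 + v.2) - v.1)
  invFun v := (v.1, τ.symm (v.1 + v.2) - v.1)
  left_inv v := by simp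
  right_inv v := by simp

open Classical in
noncomputable def om (a : ℤ → Prop) : Ω := fun v => decide (a (v.1 + v.2))

lemma X_eq (h : Hub a) (h0 : a 0) (ξ : ℕ → Fin 4) (n : ℕ) :
    X (om a) ξ n = Y (PA (σ h)) (PB (σ h)) ξ 0 n ∧
      a ((X (om a) ξ n).1 + (X (om a) ξ n).2) := by
  induction n with
  | zero => exact ⟨rfl, h0⟩
  | succ n ih =>
    rw [X, Y, ← ih.1]
    obtain ⟨-, h1⟩ := ih
    generalize X (om a) ξ n = v at h1
    generalize ξ n = e
    have n1 := (nx_spec h (v.1 + v.2)).2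
    have n2 := (pv_spec h (v.1 + v.2)).2
    have k : ∀ w w' : ℤ × ℤ, w = w' → a (w'.1 + w'.2) → w = w' ∧ a (w.1 + w.2) :=
      fun _ _ e h => ⟨e, e ▸ h⟩
    fin_cases e
    · have : f (1, 0) (shift v (om a)) = nx a (v.1 + v.2) := by
        simp [f, nx, shift, om, add_right_comm]
      refine k _ _ ?_ ?_ <;> simp [dir, T, PA, this, σ_pos h h1, Prod.ext_iff, n1]
      ring
    · have : f (-1, 0) (shift v (om a)) = pv a (v.1 + v.2) := by
        simp [f, pv, shift, om, add_right_comm, sub_eq_add_neg]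
      refine k _ _ ?_ ?_ <;> simp [dir, T, PA, this, σs_pos h h1, Prod.ext_iff, n2]
      ring
    · have : f (0, 1) (shift v (om a)) = nx a (v.1 + v.2) := by
        simp [f, nx, shift, om, add_assoc]
      refine k _ _ ?_ ?_ <;> simp [dir, T, PB, this, σ_pos h h1, Prod.ext_iff, n1]
      ring
    · have : f (0, -1) (shift v (om a)) = pv a (v.1 + v.2) := by
        simp [f, pv, shift, om, add_assoc, sub_eq_add_neg]
      refine k _ _ ?_ ?_ <;> simp [dir, T, PB, this, σs_pos h h1, Prod.ext_iff, n2]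
      ring

lemma σ_ge (h : Hub a) (s : ℤ) : s ≤ σ h s := by
  by_cases hs : a s
  · rw [σ_pos h hs]; omega
  · rw [σ_neg h hs]

def ρ (v : S) : ℕ := max v.1.natAbs v.2.natAbs

lemma log_lip {L r r' : ℕ} (hL : 1 ≤ L) (h1 : r ≤ r' + L) (h2 : r' ≤ r + L) :
    |Real.log (L + r') - Real.log (L + r)| ≤ 2 * L / (r + 1) := by
  have L1 : (1 : ℝ) ≤ L := by exact_mod_cast hL
  have a1 : (r : ℝ) ≤ r' + L := by exact_mod_cast h1
  have a2 : (r' : ℝ) ≤ r + L := by exact_mod_cast h2
  have r0 : (0 : ℝ) ≤ r := by positivity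
  have r1 : (0 : ℝ) ≤ r' := by positivity
  rw [abs_sub_le_iff, ← Real.log_div (by positivity) (by positivity),
    ← Real.log_div (by positivity) (by positivity)]
  constructor <;> refine (Real.log_le_sub_one_of_pos (by positivity)).trans ?_ <;>
    rw [div_sub_one (by positivity), div_le_div_iff₀ (by positivity) (by positivity)] <;> nlinarith

lemma recE (τ : Equiv.Perm ℤ) (h0 : ∀ s, s ≤ τ s) {L t : ℕ} (hL : 1 ≤ L) (ht : 1 + 4 * L ≤ t)
    (h : ∀ s : ℤ, |s| ≤ 4 * L * 2 ^ t → τ s - s ≤ L ∧ s - τ.symm s ≤ L) :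
    ∃ F : S → ℝ, HasFiniteSupport F ∧ (∀ e, 1 ≤ F (T (PA τ) (PB τ) e 0)) ∧
      En (PA τ) (PB τ) F ≤ 512 * L ^ 2 / t := by
  set R := 2 * L * 2 ^ t with hR
  have L1 : (1 : ℝ) ≤ L := by exact_mod_cast hL
  have t1 : (1 : ℝ) + 4 * L ≤ t := by exact_mod_cast ht
  have l2 := Real.log_two_gt_d9
  have l3 := Real.log_two_lt_d9
  have lR : Real.log R = Real.log (2 * L) + t * Real.log 2 := by
    rw [hR]; push_cast; rw [Real.log_mul (by positivity) (by positivity), Real.log_pow]
  set G : S → ℝ := fun v => max (Real.log R - Real.log (L + ρ v)) 0 with hG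
  have G0 : ∀ v, R ≤ ρ v → G v = 0 := fun v hv => max_eq_right (sub_nonpos.2 (Real.log_le_log
    (by positivity) (by have : (R : ℝ) ≤ ρ v := by exact_mod_cast hv
                        linarith)))
  have bx : ∀ n : ℕ, ∀ v ∈ (range n).biUnion box, ρ v < n := fun n v hv => by
    simpa [ρ] using hv
  have bx' : ∀ (n : ℕ) v, ρ v < n → v ∈ (range n).biUnion box := fun n v hv => by
    simpa [ρ] using hv
  have h0' : ∀ s, τ.symm s ≤ s := fun s => by simpa using h0 (τ.symm s)
  have cl : ∀ s : ℤ, (|s| ≤ 2 * R ∨ |τ s| ≤ 2 * R) → τ s - s ≤ L := by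
    rintro s (hs | hs)
    · exact (h s (by rw [hR] at hs; push_cast at hs; linarith)).1
    · have := (h (τ s) (by rw [hR] at hs; push_cast at hs; linarith)).2
      rwa [Equiv.symm_apply_apply] at this
  have close : ∀ v w, (w = PA τ v ∨ w = PB τ v) → (ρ v < R ∨ ρ w < R) →
      ρ v ≤ ρ w + L ∧ ρ w ≤ ρ v + L := by
    intro v w hw hv
    have a1 := h0 (v.1 + v.2)
    have a2 := cl (v.1 + v.2) (by
      rw [abs_le, abs_le]
      rcases hw with rfl | rfl <;> simp only [ρ, PA, PB, Equiv.coe_fn_mk] at hv <;> omega)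
    rcases hw with rfl | rfl <;> simp only [ρ, PA, PB, Equiv.coe_fn_mk] <;> omega
  have lip : ∀ v w, (w = PA τ v ∨ w = PB τ v) → (G w - G v) ^ 2 ≤ (2 * L / (ρ v + 1)) ^ 2 := by
    intro v w hw
    by_cases hv : ρ v < R ∨ ρ w < R
    · obtain ⟨a1, a2⟩ := close v w hw hv
      rw [← sq_abs]
      gcongr
      refine (abs_max_sub_max_le_abs _ _ _).trans ?_
      rw [sub_sub_sub_cancel_left, abs_sub_comm]
      exact log_lip hL a1 a2
    · rw [G0 v (by omega), G0 w (by omega), sub_zero]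
      simpa using sq_nonneg _
  refine ⟨fun v => G v / (t * Real.log 2), ((range R).biUnion box).finite_toSet.subset fun v hv =>
    bx' _ _ (not_le.1 fun h => hv (by simp [G0 v h])), fun e => ?_, ?_⟩
  · have : ρ (T (PA τ) (PB τ) e 0) ≤ L := by
      have a1 := h0 0
      have a2 := h0' 0
      have a3 := h 0 (by simp)
      fin_cases e <;> simp [ρ, T, PA, PB] <;> omega
    rw [le_div_iff₀ (by nlinarith), one_mul]
    refine le_trans ?_ (le_max_left _ _)
    have : Real.log (L + ρ (T (PA τ) (PB τ) e 0)) ≤ Real.log (2 * L) := Real.log_le_log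
      (by positivity) (by have : (ρ (T (PA τ) (PB τ) e 0) : ℝ) ≤ L := by exact_mod_cast this
                          linarith)
    linarith
  · rw [En, tsum_eq_sum (s := (range (2 * R)).biUnion box) fun v hv => by
      have a1 : 2 * R ≤ ρ v := not_lt.1 fun h => hv (bx' _ _ h)
      have a0 : L ≤ R := by rw [hR]; nlinarith [Nat.one_le_two_pow (n := t)]
      have a2 : ∀ w, (w = PA τ v ∨ w = PB τ v) → G w = 0 := fun w hw => G0 w (not_lt.1 fun h => by
        have := (close v w hw (Or.inr h)).1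
        omega)
      simp [a2 _ (Or.inl rfl), a2 _ (Or.inr rfl), G0 v (by omega)],
      sum_biUnion fun i _ j _ ne => disjoint_left.2 fun v h1 h2 => ne (by
        rw [Int.mem_box] at h1 h2; omega)]
    calc _ ≤ ∑ r ∈ range (2 * R), (64 * L ^ 2 / (t * Real.log 2) ^ 2 : ℝ) * ((r + 1 : ℕ) : ℝ)⁻¹ := by
          refine sum_le_sum fun r _ => (sum_le_card_nsmul _ _
            (2 * (2 * L / (r + 1)) ^ 2 / (t * Real.log 2) ^ 2 : ℝ) fun v hv => ?_).trans ?_
          · have e : ρ v = r := Int.mem_box.1 hv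
            have a1 := lip v _ (Or.inl rfl)
            have a2 := lip v _ (Or.inr rfl)
            rw [e] at a1 a2
            rw [← sub_div, ← sub_div, div_pow, div_pow, ← add_div]
            gcongr
            linarith
          · have : ((box r : Finset S).card : ℝ) ≤ 8 * (r + 1) := by
              rcases r with _ | r
              · simp
              · rw [Int.card_box (by omega)]; push_cast; linarith
            rw [nsmul_eq_mul]
            refine (mul_le_mul_of_nonneg_right this (by positivity)).trans (le_of_eq ?_)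
            push_cast; field_simp; ring
      _ ≤ (64 * L ^ 2 / (t / 2) ^ 2 : ℝ) * (2 * t) := by
          rw [← mul_sum]
          have a1 := harmonic_le_one_add_log (2 * R)
          simp only [harmonic, Rat.cast_sum, Rat.cast_inv, Rat.cast_natCast] at a1
          have a2 : Real.log ((2 * R : ℕ) : ℝ) ≤ 4 * L + t := by
            have := Real.log_le_sub_one_of_pos (by positivity : (0 : ℝ) < 2 * L)
            rw [Nat.cast_mul, Real.log_mul (by positivity) (by positivity), lR]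
            push_cast
            nlinarith
          have a3 : (t : ℝ) / 2 ≤ t * Real.log 2 := by nlinarith
          have a4 : (0 : ℝ) < t / 2 := by linarith
          gcongr
          linarith
      _ = _ := by field_simp; ring

lemma tele (h : Hub a) (φ : ℤ → ℝ) (n : ℕ) : ∀ s s' : ℤ, s' - s = n → a s → a s' →
    φ s' - φ s = ∑ u ∈ Ico s s', (φ (σ h u) - φ u) := by
  induction n using Nat.strong_induction_on with
  | _ n ih =>
    intro s s' e hs hs'
    rcases Nat.eq_zero_or_pos n with rfl | n0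
    · simp [show s' = s by omega]
    have a1 := nx_spec h s
    have a2 : nx a s ≤ n := nx_le n0 (by rwa [← e, add_sub_cancel])
    have := ih (n - nx a s) (by omega) (s + nx a s) s' (by omega) a1.2 hs'
    rw [← Ico_union_Ico_eq_Ico (b := s + nx a s) (by omega) (by omega),
      sum_union (Ico_disjoint_Ico_consecutive _ _ _), ← this, sum_eq_single s, σ_pos h hs]
    · ring
    · intro u hu ne
      have := mem_Ico.1 hu
      rw [σ_neg h, sub_self]
      intro hu'
      have := nx_le (a := a) (s := s) (k := (u - s).toNat) (by omega)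
        (by rwa [Int.toNat_of_nonneg (by omega), add_sub_cancel])
      omega
    · intro hh; exact absurd (mem_Ico.2 ⟨le_rfl, by omega⟩) hh

lemma cs {ι : Type} (W : Finset ι) (d : ι → ℝ) {c E : ℝ} (hc : 0 ≤ c) (h1 : (W.card : ℝ) ≤ c ^ 2)
    (h2 : ∑ i ∈ W, d i ^ 2 ≤ E) : |∑ i ∈ W, d i| ≤ c * √E := by
  have E0 : 0 ≤ E := le_trans (sum_nonneg fun _ _ => sq_nonneg _) h2
  refine abs_le_of_sq_le_sq' ?_ (by positivity) |> abs_le.2
  rw [mul_pow, Real.sq_sqrt E0]
  exact sq_sum_le_card_mul_sum_sq.trans (mul_le_mul h1 h2 (sum_nonneg fun _ _ => sq_nonneg _)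
    (sq_nonneg _))

lemma transE (h : Hub a) (h0 : a 0) (s : ℕ → ℤ) {g : ℤ} (hg : 0 < g) (c : ℕ)
    (h1 : ∀ n, a (s n)) (h2 : ∀ n : ℕ, (n : ℤ) ≤ s n) (h3 : ∀ n, s n ≤ s (n + 1))
    (h4 : ∀ n, s n ≤ (c * 2 ^ (4 * n)) ^ 2) (h5 : ∀ n, σ h (s n) = s n + g * 2 ^ (6 * n))
    (F : S → ℝ) (hF : HasFiniteSupport F) :
    F 0 ^ 2 ≤ (3 * (2 ^ 11 + c)) ^ 2 * En (PA (σ h)) (PB (σ h)) F := by
  set E := En (PA (σ h)) (PB (σ h)) F
  have E0 : 0 ≤ E := tsum_nonneg fun _ => by positivity
  set e := √E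
  have e0 : 0 ≤ e := Real.sqrt_nonneg _
  let Sm : ℤ → ℕ → ℕ → ℝ := fun u W i0 => ∑ i ∈ range W, F (u - g * (i0 + i), g * (i0 + i))
  have ga : ∀ {ι : Type} (W : Finset ι) (j : ι → S), Set.InjOn j W →
      ∑ i ∈ W, (F (PA (σ h) (j i)) - F (j i)) ^ 2 ≤ E ∧
        ∑ i ∈ W, (F (PB (σ h) (j i)) - F (j i)) ^ 2 ≤ E := fun W j hj => by
    have := En_ge (PA (σ h)) (PB (σ h)) hF (W.image j)
    rwa [sum_image hj, sum_image hj] at this
  have hor : ∀ (u u' : ℤ) (W : ℕ) (d : ℝ), a u → a u' → u ≤ u' → 0 ≤ d →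
      ((u' - u : ℤ) : ℝ) * W ≤ d ^ 2 → |Sm u' W 0 - Sm u W 0| ≤ d * e := by
    intro u u' W d hu hu' le d0 hd
    have := cs (range W ×ˢ Ico u u') _ d0 (by
      rw [card_product, card_range, Int.card_Ico, mul_comm]
      push_cast
      rwa [← Int.cast_natCast, Int.toNat_of_nonneg (by omega)])
      (ga _ (fun q : ℕ × ℤ => (q.2 - g * q.1, g * q.1)) fun q _ q' _ e => by
        simp only [Prod.mk.injEq] at e
        have := mul_left_cancel₀ hg.ne' e.2
        exact Prod.ext (by exact_mod_cast this) (by rw [this] at e; omega)).1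
    rw [sum_product] at this
    convert this using 2
    simp only [Sm, ← sum_sub_distrib, Nat.cast_zero, zero_add]
    refine sum_congr rfl fun i _ => ?_
    simpa [PA] using tele h (fun u => F (u - g * i, g * i)) (u' - u).toNat u u' (by omega) hu hu'
  have hw : ∀ (u : ℤ) (κ W : ℕ) (d : ℝ), σ h u = u + g * κ → 0 ≤ d → (W : ℝ) ≤ d ^ 2 →
      ∀ t : ℕ, |Sm u W (t * κ) - Sm u W 0| ≤ 2 * t * (d * e) := by
    intro u κ W d hu d0 hd t
    induction t with
    | zero => simp
    | succ t ih =>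
      have inj : ∀ i0 : ℕ, Set.InjOn (fun i : ℕ => (u - g * (i0 + i), g * (i0 + i))) (range W) :=
        fun i0 i _ i' _ e => by
          have := mul_left_cancel₀ hg.ne' (Prod.mk.inj e).2
          omega
      have a1 := cs _ _ d0 (by simpa using hd) (ga _ _ (inj (t * κ))).2
      have a2 := cs _ _ d0 (by simpa using hd) (ga _ _ (inj ((t + 1) * κ))).1
      simp only [PA, PB, Equiv.coe_fn_mk, sub_add_cancel, hu, sum_sub_distrib] at a1 a2
      rw [sum_congr rfl (g := fun i : ℕ => F (u - g * ((t * κ : ℕ) + i),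
        u + g * κ - (u - g * ((t * κ : ℕ) + i)))) fun i _ => by
          congr 2 <;> push_cast <;> ring] at a2
      rw [abs_le] at *
      simp only [Sm] at *
      push_cast at *
      constructor <;> linarith [a1.1, a1.2, a2.1, a2.2, ih.1, ih.2]
  have split : ∀ (u : ℤ) (W b : ℕ), Sm u (b * W) 0 = ∑ t ∈ range b, Sm u W (t * W) := by
    intro u W b
    induction b with
    | zero => simp [Sm]
    | succ b ih => rw [sum_range_succ, ← ih, add_mul, one_mul]; simp [Sm, sum_range_add]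
  let m : ℕ → ℝ := fun n => Sm (s n) (2 ^ (10 * n)) 0 / 2 ^ (10 * n)
  have step : ∀ n, |m (n + 1) - m n| ≤ (2 ^ 11 + c) * e / 2 ^ n := by
    intro n
    have a1 := hor (s n) (s (n + 1)) (2 ^ (10 * (n + 1))) (c * 2 ^ (9 * (n + 1))) (h1 _) (h1 _) (h3 _)
      (by positivity) (by
        have := h4 (n + 1)
        have := h2 n
        have : ((s (n + 1) - s n : ℤ) : ℝ) ≤ (c * 2 ^ (4 * (n + 1))) ^ 2 := by
          exact_mod_cast (by omega : s (n + 1) - s n ≤ (c * 2 ^ (4 * (n + 1))) ^ 2)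
        refine (mul_le_mul_of_nonneg_right this (by positivity)).trans (le_of_eq ?_)
        push_cast; ring)
    have a2 : |Sm (s n) (2 ^ (10 * (n + 1))) 0 - 2 ^ 10 * Sm (s n) (2 ^ (10 * n)) 0| ≤
        2 ^ 10 * (2 ^ 11 * 2 ^ (9 * n) * e) := by
      rw [show 2 ^ (10 * (n + 1)) = 2 ^ 10 * 2 ^ (10 * n) by ring, split,
        show (2 : ℝ) ^ 10 * Sm (s n) (2 ^ (10 * n)) 0 = ∑ _t ∈ range (2 ^ 10),
          Sm (s n) (2 ^ (10 * n)) 0 by simp; norm_num, ← sum_sub_distrib]
      refine (abs_sum_le_sum_abs _ _).trans ((sum_le_card_nsmul _ _ (2 ^ 11 * 2 ^ (9 * n) * e)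
        fun t ht => ?_).trans (by simp; norm_num))
      have := hw (s n) (2 ^ (6 * n)) (2 ^ (10 * n)) (2 ^ (5 * n)) (by simpa using h5 n)
        (by positivity) (by push_cast; exact le_of_eq (by ring)) (t * 2 ^ (4 * n))
      rw [show t * 2 ^ (4 * n) * 2 ^ (6 * n) = t * 2 ^ (10 * n) by ring] at this
      refine this.trans ?_
      have : (t : ℝ) ≤ 2 ^ 10 := by exact_mod_cast (mem_range.1 ht).le
      push_cast
      calc _ ≤ 2 * (2 ^ 10 * 2 ^ (4 * n)) * (2 ^ (5 * n) * e) := by gcongr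
        _ = _ := by ring
    have a3 : m (n + 1) - m n = ((Sm (s (n + 1)) (2 ^ (10 * (n + 1))) 0 -
        Sm (s n) (2 ^ (10 * (n + 1))) 0) + (Sm (s n) (2 ^ (10 * (n + 1))) 0 -
        2 ^ 10 * Sm (s n) (2 ^ (10 * n)) 0)) / 2 ^ (10 * (n + 1)) := by
      simp only [m]; field_simp; ring
    rw [a3, abs_div, abs_of_pos (by positivity : (0 : ℝ) < 2 ^ (10 * (n + 1))),
      div_le_div_iff₀ (by positivity) (by positivity)]
    refine (mul_le_mul_of_nonneg_right ((abs_add_le _ _).trans (add_le_add a1 a2))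
      (by positivity)).trans ?_
    have : (0 : ℝ) ≤ c * e * 2 ^ (10 * n) := by positivity
    ring_nf at this ⊢
    linarith
  have tot : ∀ n, |m n - m 0| ≤ (2 ^ 11 + c) * e * (2 - 2 / 2 ^ n) := by
    intro n
    induction n with
    | zero => simp
    | succ n ih =>
      have := abs_sub_le (m (n + 1)) (m n) (m 0)
      have e : (2 ^ 11 + c) * e * (2 - 2 / 2 ^ (n + 1)) =
          (2 ^ 11 + c) * e / 2 ^ n + (2 ^ 11 + c) * e * (2 - 2 / 2 ^ n) := by field_simp; ring
      linarith [step n]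
  obtain ⟨M, hM⟩ := (hF.image fun v => v.1 + v.2).bddAbove
  have z : m (M.toNat + 1) = 0 := by
    refine div_eq_zero_iff.2 (Or.inl (sum_eq_zero fun i _ => ?_))
    by_contra ne
    have := hM ⟨_, ne, rfl⟩
    have := h2 (M.toNat + 1)
    simp only at *
    omega
  have a0 := hor 0 (s 0) 1 c h0 (h1 0) (by simpa using h2 0) (by positivity) (by
    have := h4 0
    simp only [sub_zero, Nat.cast_one, mul_one]
    exact_mod_cast (by simpa using this))
  have a1 := tot (M.toNat + 1)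
  have a2 : (2 ^ 11 + c) * e * (2 - 2 / 2 ^ (M.toNat + 1)) ≤ (2 ^ 11 + c) * e * 2 := by
    gcongr; exact sub_le_self _ (by positivity)
  rw [← Real.sq_sqrt E0, ← mul_pow]
  refine sq_le_sq' ?_ ?_ <;> simp only [z, m, Sm, abs_le] at a0 a1 <;> simp at a0 a1 <;>
    simp only [show (0 : S) = (0, 0) from rfl] <;> nlinarith [a0.1, a0.2, a1.1, a1.2]

end Pool.Agent.H41.Dpp
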