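import Pool.Agent.H41.Dpp2

set_option autoImplicit false

open MeasureTheory ProbabilityTheory Set Filter
open scoped ENNReal Topology

namespace Pool.Agent.H41.Dpp

/-- the odometer group -/
def Od : Type := ℤ_[2]

noncomputable instance : NormedCommRing Od := inferInstanceAs (NormedCommRing ℤ_[2])
instance : CompactSpace Od := inferInstanceAs (CompactSpace ℤ_[2])
noncomputable instance : MeasurableSpace Od := borel Od
instance : BorelSpace Od := ⟨rfl⟩

noncomputable def mu : Measure Od := Measure.addHaarMeasure ⊤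

instance : mu.IsAddHaarMeasure := by unfold mu; infer_instance
instance : IsProbabilityMeasure mu := ⟨by
  have := Measure.addHaarMeasure_self (K₀ := (⊤ : TopologicalSpace.PositiveCompacts Od))
  simpa [mu] using this⟩

noncomputable def red (K : ℕ) : Od →+* ZMod (2 ^ K) := PadicInt.toZModPow (p := 2) K

noncomputable def r (K : ℕ) (x : Od) : ℤ := ((red K x).val : ℤ)

lemma r_nonneg (K : ℕ) (x : Od) : 0 ≤ r K x := Int.natCast_nonneg _

lemma r_lt (K : ℕ) (x : Od) : r K x < 2 ^ K := by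
  have := ZMod.val_lt (red K x)
  unfold r; exact_mod_cast this

lemma r_add (K : ℕ) (x : Od) (y : ℤ) : r K (x + y) = (r K x + y) % 2 ^ K := by
  have : red K (x + y) = ((r K x + y : ℤ) : ZMod (2 ^ K)) := by
    simp [r]
  rw [r, this, ZMod.val_intCast]; simp

lemma r_mod {J K : ℕ} (h : J ≤ K) (x : Od) : r J x = r K x % 2 ^ J := by
  have h1 : (ZMod.cast (red K x) : ZMod (2 ^ J)) = red J x := PadicInt.cast_toZModPow J K h x
  have : red J x = ((r K x : ℤ) : ZMod (2 ^ J)) := by
    rw [← h1]; simp [r]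
  rw [r, this, ZMod.val_intCast]; simp

lemma measurable_r (K : ℕ) : Measurable (r K) := by
  refine measurable_to_countable' fun a => IsOpen.measurableSet ?_
  rw [Metric.isOpen_iff]
  intro x hx
  refine ⟨(2 : ℝ) ^ (-(K : ℤ)), by positivity, fun y hy => ?_⟩
  have h1 : ‖y - x‖ ≤ ((2 : ℕ) : ℝ) ^ (-(K : ℤ)) := by
    rw [Metric.mem_ball, dist_eq_norm] at hy
    exact_mod_cast hy.le
  have h3 := (PadicInt.norm_le_pow_iff_mem_span_pow (p := 2) (y - x : Od) K).1 h1
  rw [← PadicInt.ker_toZModPow] at h3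
  have h2 : red K (y - x) = 0 := RingHom.mem_ker.1 h3
  rw [map_sub, sub_eq_zero] at h2
  simp only [mem_preimage, mem_singleton_iff, r] at hx ⊢
  rw [h2, hx]

lemma ms (K : ℕ) (P : ℤ → Prop) : MeasurableSet {x | P (r K x)} :=
  measurable_r K (MeasurableSet.of_discrete (s := {a | P a}))

lemma mu_fiber_eq (K : ℕ) (a : ℤ) (h0 : 0 ≤ a) (h1 : a < 2 ^ K) :
    mu {x | r K x = a} = mu {x | r K x = 0} := by
  rw [← measure_preimage_add_right mu ((a : ℤ) : Od) {x | r K x = a}]
  congr 1
  ext x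
  simp only [mem_preimage, mem_ofPred_eq, r_add]
  have a1 := r_nonneg K x
  have a2 := r_lt K x
  constructor
  · intro h
    by_contra hne
    by_cases hc : r K x + a < 2 ^ K
    · rw [Int.emod_eq_of_lt (by omega) hc] at h; omega
    · rw [show r K x + a = (r K x + a - 2 ^ K) + 2 ^ K * 1 by ring, Int.add_mul_emod_self_left,
        Int.emod_eq_of_lt (by omega) (by omega)] at h
      omega
  · intro h; rw [h, zero_add, Int.emod_eq_of_lt h0 h1]

lemma mu_mem_aux (K : ℕ) (S : Finset ℤ) (hS : S ⊆ Finset.Ico 0 (2 ^ K)) :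
    mu {x | r K x ∈ S} = S.card * mu {x | r K x = 0} := by
  have : {x | r K x ∈ S} = ⋃ a ∈ S, {x | r K x = a} := by ext; simp
  rw [this, measure_biUnion_finset, Finset.sum_congr rfl (g := fun _ => mu {x | r K x = 0}),
    Finset.sum_const, nsmul_eq_mul]
  · intro a ha
    have := Finset.mem_Ico.1 (hS ha)
    exact mu_fiber_eq K a this.1 this.2
  · intro a _ b _ hab
    exact Set.disjoint_left.2 fun x h1 h2 => hab (h1.symm.trans h2)
  · intro a _; exact ms K (· = a)

lemma mu_zero (K : ℕ) : mu {x | r K x = 0} = (2 ^ K)⁻¹ := by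
  have h := mu_mem_aux K _ subset_rfl
  have : {x | r K x ∈ Finset.Ico 0 (2 ^ K)} = univ := by
    ext x; simp [r_nonneg, r_lt]
  rw [this, measure_univ, Int.card_Ico, sub_zero,
    show ((2 : ℤ) ^ K).toNat = 2 ^ K by rw [Int.toNat_pow_of_nonneg (by norm_num)]; rfl] at h
  refine ENNReal.eq_inv_of_mul_eq_one_left ?_
  rw [mul_comm, h]; simp

lemma mu_mem (K : ℕ) (S : Finset ℤ) (hS : S ⊆ Finset.Ico 0 (2 ^ K)) :
    mu {x | r K x ∈ S} = S.card * (2 ^ K)⁻¹ := by rw [mu_mem_aux K S hS, mu_zero]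

lemma ergodic_mu : Ergodic (fun x : Od => (1 : Od) + x) mu := by
  refine ergodic_add_left_of_denseRange_zsmul ?_ mu
  have : (fun n : ℤ => n • (1 : Od)) = (Int.cast : ℤ → ℤ_[2]) := by
    funext n; simp; rfl
  rw [this]
  exact PadicInt.denseRange_intCast

lemma window (M K W : ℕ) (c : ℤ) :
    mu {x | ∃ s : ℤ, c - W ≤ s ∧ s ≤ c ∧ r M (x + s) < K} ≤ (W + K : ℕ) * (2 ^ M)⁻¹ := by
  have h := mu_mem M (Finset.Ico 0 (W + K : ℕ) ∩ Finset.Ico 0 (2 ^ M)) Finset.inter_subset_right
  rw [← measure_preimage_add_right mu ((c : ℤ) : Od)] at h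
  refine le_trans (measure_mono ?_) (h.trans_le ?_)
  · rintro x ⟨s, h1, h2, h3⟩
    have a := r_add M (x + s) (c - s)
    rw [show x + s + ((c - s : ℤ) : Od) = x + c by push_cast; ring] at a
    have b := r_nonneg M (x + s)
    have d : (r M (x + s) + (c - s)) % 2 ^ M ≤ r M (x + s) + (c - s) := by
      have := Int.emod_add_mul_ediv (r M (x + s) + (c - s)) (2 ^ M)
      have : 0 ≤ 2 ^ M * ((r M (x + s) + (c - s)) / 2 ^ M) :=
        mul_nonneg (by positivity) (Int.ediv_nonneg (by omega) (by positivity))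
      omega
    simp only [mem_preimage, mem_ofPred_eq, Finset.mem_inter, Finset.mem_Ico, r_nonneg, r_lt,
      true_and, and_true]
    omega
  · gcongr
    exact (Finset.card_le_card Finset.inter_subset_left).trans (by simp)

lemma f_meas (e : ℤ × ℤ) : Measurable (f e) := by
  refine measurable_to_countable' fun k => ?_
  have : f e ⁻¹' {k} = {ω | (k = 0 ∧ ∀ j : ℕ, 0 < j → ω (j • e) = false) ∨
      (0 < k ∧ ω (k • e) = true ∧ ∀ j : ℕ, 0 < j → j < k → ω (j • e) = false)} := by
    ext ω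
    simp only [mem_preimage, mem_singleton_iff, f, mem_ofPred_eq]
    rcases {k : ℕ | 0 < k ∧ ω (k • e) = true}.eq_empty_or_nonempty with h | h
    · have h' : ∀ j : ℕ, 0 < j → ω (j • e) = false := fun j hj => by
        simpa [hj] using eq_empty_iff_forall_notMem.1 h j
      rw [h, Nat.sInf_empty]
      exact ⟨fun e => Or.inl ⟨e.symm, h'⟩, fun h => h.elim (fun h => h.1.symm) fun h =>
        absurd (h.2.1.symm.trans (h' k h.1)) (by simp)⟩
    · have a := Nat.sInf_mem h
      constructor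
      · rintro rfl
        exact Or.inr ⟨a.1, a.2, fun j h1 h2 => by simpa [h1] using Nat.notMem_of_lt_sInf h2⟩
      · rintro (⟨-, h1⟩ | ⟨h1, h2, h3⟩)
        · exact absurd (a.2.symm.trans (h1 _ a.1)) (by simp)
        · refine le_antisymm (Nat.sInf_le ⟨h1, h2⟩) (not_lt.1 fun h4 => ?_)
          exact absurd (a.2.symm.trans (h3 _ a.1 h4)) (by simp)
  rw [this]
  measurability

lemma shift_meas (v : ℤ × ℤ) : Measurable (shift v) := by unfold shift; fun_prop

lemma X_meas (n : ℕ) : Measurable fun p : Ω × (ℕ → Fin 4) => X p.1 p.2 n := by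
  induction n with
  | zero => exact measurable_const
  | succ n ih =>
    have : Measurable fun q : (S × Fin 4) × Ω => q.1.1 + f (dir q.1.2) (shift q.1.1 q.2) • dir q.1.2 :=
      measurable_from_prod_countable_right fun q =>
        (Measurable.of_discrete (f := fun k : ℕ => q.1 + k • dir q.2)).comp
          ((f_meas (dir q.2)).comp (shift_meas q.1))
    exact this.comp ((ih.prodMk ((measurable_pi_apply n).comp measurable_snd)).prodMk measurable_fst)

variable (k M : ℕ → ℕ)

def U (x : Od) : Prop := ∀ j, r (M j) x = 0 ∨ 2 ^ k j ≤ r (M j) x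

lemma U_m : MeasurableSet {x | U k M x} := by
  unfold U
  rw [ofPred_forall]
  exact MeasurableSet.iInter fun j => ms (M j) fun a => a = 0 ∨ 2 ^ k j ≤ a

noncomputable def Φ (x : Od) : Ω := om fun s => U k M (x + s)

lemma Φ_m : Measurable (Φ k M) := measurable_pi_lambda _ fun v => by
  refine measurable_to_bool ?_
  have := measurable_add_const ((v.1 + v.2 : ℤ) : Od) (U_m k M)
  convert this using 1
  ext; simp [Φ, om]

noncomputable def Q : Measure Ω := mu.map (Φ k M)

lemma geo {u : ℕ → ℝ≥0∞} {c : ℕ} (h : ∀ n, u n ≤ 2⁻¹ ^ (c + n + 1)) : ∑' n, u n ≤ 2⁻¹ ^ c := by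
  refine (ENNReal.tsum_le_tsum h).trans (le_of_eq ?_)
  simp only [pow_add, pow_one]
  rw [ENNReal.tsum_mul_right, ENNReal.tsum_mul_left, ENNReal.tsum_geometric]
  simp [mul_assoc, ENNReal.mul_inv_cancel]

lemma hole (j : ℕ) : mu {x | r (M j) x < 2 ^ k j} ≤ 2 ^ k j * (2 ^ M j)⁻¹ := by
  refine le_trans (measure_mono fun x hx => ?_) ((window (M j) (2 ^ k j) 0 0).trans (by simp))
  exact ⟨0, by simp, le_rfl, by simpa using hx⟩

lemma pow_le {a b c : ℕ} (h : a + c ≤ b) : (2 : ℝ≥0∞) ^ a * (2 ^ b)⁻¹ ≤ 2⁻¹ ^ c := by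
  rw [← ENNReal.inv_pow, ← div_eq_mul_inv, ENNReal.div_le_iff (by simp) (by simp),
    ← ENNReal.div_eq_inv_mul, ENNReal.le_div_iff_mul_le (by simp) (by simp), ← pow_add]
  exact pow_le_pow_right₀ one_le_two h

variable {k M}

lemma U_lt (h : ∀ j, k j + (j + 2) ≤ M j) : mu {x | ¬ U k M x} < 1 := by
  have : {x | ¬ U k M x} ⊆ ⋃ j, {x | r (M j) x < 2 ^ k j} := fun x hx => by
    simp only [U, mem_ofPred_eq, not_forall, not_or, not_le] at hx
    exact mem_iUnion.2 (hx.imp fun j h => h.2)
  refine lt_of_le_of_lt ((measure_mono this).trans ((measure_iUnion_le _).trans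
    (geo (c := 1) fun j => (hole k M j).trans (pow_le (by have := h j; omega))))) (by simp)

lemma isDPP (h : ∀ j, k j + (j + 2) ≤ M j) : IsDPP (Q k M) := by
  have mp : MeasurePreserving (Φ k M) mu (Q k M) := ⟨Φ_m k M, rfl⟩
  refine ⟨Measure.isProbabilityMeasure_map (Φ_m k M).aemeasurable,
    mp.ergodic_of_ergodic_semiconj ergodic_mu (shift_meas _) fun x => funext fun v => ?_,
    mp.ergodic_of_ergodic_semiconj ergodic_mu (shift_meas _) fun x => funext fun v => ?_, ?_⟩
  · simp only [Φ, om, shift, Prod.fst_add, Prod.snd_add]; congr 2; push_cast; ring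
  · simp only [Φ, om, shift, Prod.fst_add, Prod.snd_add]; congr 2; push_cast; ring
  · rw [Q, Measure.map_apply (Φ_m k M) (by measurability)]
    exact lt_of_le_of_lt (measure_mono fun x hx => by simpa [Φ, om] using hx 0) (U_lt h)

lemma hub (h : ∀ j, k j + (j + 2) ≤ M j) : ∀ᵐ x ∂mu, Hub fun s => U k M (x + s) := by
  have ne : ∀ (B : Set Od) (c : Od), B ⊆ (· + c) ⁻¹' {x | ¬ U k M x} → ¬ B =ᵐ[mu] univ := by
    intro B c hB e
    have := (measure_mono hB).trans_lt ((measure_preimage_add_right mu c _).trans_lt (U_lt h))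
    rw [measure_congr e, measure_univ] at this
    exact lt_irrefl _ this
  have m : ∀ g : ℕ → Od, MeasurableSet {x | ∀ n : ℕ, 0 < n → ¬ U k M (x + g n)} := fun g => by
    rw [ofPred_forall]
    exact MeasurableSet.iInter fun n => measurableSet_setOfPred.2 (measurable_const.imp
      (measurableSet_setOfPred.1 (measurable_add_const _ (U_m k M).compl)))
  have a1 := (ergodic_mu.ae_empty_or_univ_of_ae_le_preimage (m fun n => n).nullMeasurableSet
    (LE.le.eventuallyLE fun x hx n hn => by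
      have := hx (n + 1) (by omega)
      rwa [show x + ((n + 1 : ℕ) : Od) = 1 + x + n by push_cast; ring] at this)).resolve_right
    (ne _ 1 fun x hx => by simpa using hx 1 one_pos)
  have a2 := (ergodic_mu.ae_empty_or_univ_of_preimage_ae_le (m fun n => -n).nullMeasurableSet
    (LE.le.eventuallyLE fun x hx n hn => by
      have := hx (n + 1) (by omega)
      rwa [show 1 + x + -((n + 1 : ℕ) : Od) = x + -n by push_cast; ring] at this)).resolve_right
    (ne _ (-1) fun x hx => by simpa using hx 1 one_pos)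
  rw [ae_eq_empty] at a1 a2
  refine ae_all_iff.2 fun s => ?_
  filter_upwards [(measurePreserving_add_right mu (s : Od)).quasiMeasurePreserving.ae
    (measure_eq_zero_iff_ae_notMem.1 a1), (measurePreserving_add_right mu (s : Od)).quasiMeasurePreserving.ae
    (measure_eq_zero_iff_ae_notMem.1 a2)] with x h1 h2
  simp only [mem_ofPred_eq, not_forall, not_not] at h1 h2
  obtain ⟨n, hn, h1⟩ := h1
  obtain ⟨n', hn', h2⟩ := h2
  exact ⟨⟨n, hn, by simpa [add_assoc] using h1⟩, n', hn', by simpa [add_assoc, sub_eq_add_neg] using h2⟩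

lemma transfer {D : Set (Ω × (ℕ → Fin 4))} (hD : MeasurableSet D)
    (h : ∀ᵐ x ∂mu, U k M x → ∀ᵐ ξ ∂dirLaw, (Φ k M x, ξ) ∈ D) :
    ∀ᵐ p ∂(palm (Q k M)).prod dirLaw, p ∈ D := by
  refine (Measure.ae_prod_mem_iff_ae_ae_mem hD).2 ?_
  have m0 : MeasurableSet {ω : Ω | ω 0 = true} := by measurability
  have m1 : MeasurableSet {ω : Ω | ∀ᵐ ξ ∂dirLaw, (ω, ξ) ∈ D} :=
    measurable_measure_prodMk_left (ν := dirLaw) hD.compl (measurableSet_singleton 0)
  refine Measure.ae_smul_measure ((ae_restrict_iff' m0).2 ((ae_map_iff (Φ_m k M).aemeasurable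
    (measurableSet_setOfPred.2 ((measurableSet_setOfPred.1 m0).imp
      (measurableSet_setOfPred.1 m1)))).2 ?_)) _
  filter_upwards [h] with x hx h0
  exact hx (by simpa [Φ, om] using h0)

lemma kac : ∫⁻ ω in {ω | ω 0 = true}, f (1, 0) ω ∂Q k M ≤ 1 := by
  have m0 : MeasurableSet {ω : Ω | ω 0 = true} := by measurability
  have mf : Measurable fun x => f (1, 0) (Φ k M x) := (f_meas _).comp (Φ_m k M)
  have mB : ∀ n : ℕ, MeasurableSet {x | U k M x ∧ n < f (1, 0) (Φ k M x)} := fun n =>
    (U_m k M).inter (mf measurableSet_Ioi)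
  have mf' : Measurable fun ω : Ω => (f (1, 0) ω : ℝ≥0∞) :=
    (Measurable.of_discrete (f := fun n : ℕ => (n : ℝ≥0∞))).comp (f_meas _)
  rw [Q, setLIntegral_map m0 mf' (Φ_m k M),
    ← lintegral_indicator (Φ_m k M m0)]
  calc _ ≤ ∫⁻ x, ∑' n : ℕ, {x | U k M x ∧ n < f (1, 0) (Φ k M x)}.indicator 1 x ∂mu := by
        refine lintegral_mono fun x => indicator_apply_le' (fun hx => ?_) fun _ => zero_le
        have hx : U k M x := by simpa [Φ, om] using hx
        refine le_trans ?_ (ENNReal.sum_le_tsum (Finset.range (f (1, 0) (Φ k M x))))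
        rw [Finset.sum_congr rfl fun n hn => indicator_of_mem (by exact ⟨hx, Finset.mem_range.1 hn⟩) _]
        simp
    _ = ∑' n : ℕ, mu ((· + -(n : Od)) ⁻¹' {x | U k M x ∧ n < f (1, 0) (Φ k M x)}) := by
        rw [lintegral_tsum fun n => (measurable_one.indicator (mB n)).aemeasurable]
        exact tsum_congr fun n => by rw [lintegral_indicator_one (mB n), measure_preimage_add_right]
    _ ≤ 1 := by
        rw [← measure_iUnion _ fun n => measurable_add_const _ (mB n)]
        · exact prob_le_one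
        refine (pairwise_disjoint_on _).2 fun m n hmn => disjoint_left.2 fun x h1 h2 => ?_
        have : f (1, 0) (Φ k M (x + -n)) ≤ n - m := Nat.sInf_le ⟨by omega, by
          have := h1.1
          simp only [Φ, om, Prod.smul_mk, nsmul_eq_mul, mul_one, mul_zero, add_zero,
            decide_eq_true_eq, Nat.cast_sub hmn.le]
          convert this using 1
          push_cast; ring⟩
        have := h2.2
        simp only at this
        omega

lemma struct (hk : Monotone k) (hM : Monotone M) (hkM : ∀ j, k j < M j) {y : Od} {j : ℕ}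
    (h0 : r (M j) y = 0) (h1 : ∀ v, j < v → 2 ^ k v ≤ r (M v) y) :
    U k M y ∧ U k M (y + ((2 ^ k j : ℤ) : Od)) := by
  have a : ∀ v ≤ j, r (M v) y = 0 := fun v hv => by rw [r_mod (hM hv), h0]; simp
  refine ⟨fun v => (le_or_gt v j).imp (a v) (h1 v), fun v => ?_⟩
  rw [r_add]
  rcases le_or_gt v j with hv | hv
  · rw [a v hv, zero_add]
    rcases le_or_gt (M v) (k j) with h | h
    · exact Or.inl (Int.emod_eq_zero_of_dvd (pow_dvd_pow 2 h))
    · rw [Int.emod_eq_of_lt (by positivity) (pow_lt_pow_right₀ one_lt_two h)]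
      exact Or.inr (pow_le_pow_right₀ one_le_two (hk hv))
  · have b : (2 : ℤ) ^ M j ∣ 2 ^ M v - r (M v) y := dvd_sub (pow_dvd_pow 2 (hM hv.le))
      (Int.dvd_of_emod_eq_zero ((r_mod (hM hv.le) y).symm.trans h0))
    have c := Int.le_of_dvd (sub_pos.2 (r_lt _ _)) b
    have d : (2 : ℤ) ^ k j < 2 ^ M j := pow_lt_pow_right₀ one_lt_two (hkM j)
    have e := h1 v hv
    have : (0 : ℤ) < 2 ^ k j := by positivity
    have := r_nonneg (M v) y
    rw [Int.emod_eq_of_lt (by omega) (by omega)]
    omega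

lemma gap (hkM : ∀ j, k j < M j) {y : Od} {j : ℕ} (h0 : r (M j) y = 0) {s : ℕ} (hs : 0 < s)
    (h : U k M (y + ((s : ℤ) : Od))) : 2 ^ k j ≤ s := by
  by_contra hh
  have a : (s : ℤ) < 2 ^ k j := by exact_mod_cast not_le.1 hh
  have d : (2 : ℤ) ^ k j < 2 ^ M j := pow_lt_pow_right₀ one_lt_two (hkM j)
  have := h j
  rw [r_add, h0, zero_add, Int.emod_eq_of_lt (by omega) (by omega)] at this
  omega

end Pool.Agent.H41.Dpp
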