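import Pool.Agent.H41.Dpp3

set_option autoImplicit false

open MeasureTheory ProbabilityTheory Set Filter
open scoped ENNReal Topology

namespace Pool.Agent.H41.Dpp

lemma bc {k M w : ℕ → ℕ} (c : ℕ → ℤ) (h : ∀ v, k v ≤ w v ∧ w v + 1 + (v + 1) ≤ M v) :
    ∀ᵐ x ∂mu, ∃ j0, ∀ v, j0 ≤ v → ∀ s : ℤ, c v - 2 ^ w v ≤ s → s ≤ c v →
      2 ^ k v ≤ r (M v) (x + s) := by
  have := ae_eventually_notMem (μ := mu) (s := fun v => {x | ∃ s : ℤ, c v - (2 ^ w v : ℕ) ≤ s ∧
      s ≤ c v ∧ r (M v) (x + s) < (2 ^ k v : ℕ)}) (ne_top_of_le_ne_top (by simp)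
    (geo (c := 0) fun v => (window _ _ _ _).trans (le_trans ?_ (pow_le (a := w v + 1) (b := M v) (by
      have := (h v).2; omega)))))
  · filter_upwards [this] with x hx
    obtain ⟨j0, h0⟩ := eventually_atTop.1 hx
    exact ⟨j0, fun v hv s h1 h2 => not_lt.1 fun h3 => h0 v hv
      ⟨s, by simpa using h1, h2, by simpa using h3⟩⟩
  · gcongr
    have : 2 ^ k v ≤ 2 ^ w v := Nat.pow_le_pow_right two_pos (h v).1
    exact_mod_cast (by rw [pow_succ]; omega : 2 ^ w v + 2 ^ k v ≤ 2 ^ (w v + 1))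

lemma emod_le {a m : ℤ} (ha : 0 ≤ a) (hm : 0 < m) : a % m ≤ a := by
  have := Int.emod_add_mul_ediv a m
  have : 0 ≤ m * (a / m) := mul_nonneg hm.le (Int.ediv_nonneg ha hm.le)
  omega

theorem transient : ∃ Q, IsDPP Q ∧
    ∀ᵐ p ∂(palm Q).prod dirLaw, ∀ᶠ n in atTop, X p.1 p.2 n ≠ 0 := by
  obtain ⟨k, hk⟩ : ∃ k : ℕ → ℕ, ∀ j, k j = 6 * j + 60 := ⟨_, fun _ => rfl⟩
  obtain ⟨M, hM⟩ : ∃ M : ℕ → ℕ, ∀ j, M j = 8 * j + 80 := ⟨_, fun _ => rfl⟩
  have h : ∀ j, k j + (j + 2) ≤ M j := fun j => by simp only [hk, hM]; omega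
  refine ⟨Q k M, isDPP h, transfer (D := {p | ∀ᶠ n in atTop, X p.1 p.2 n ≠ 0}) ?_ ?_⟩
  · simp only [eventually_atTop, ofPred_exists, ofPred_forall]
    exact MeasurableSet.iUnion fun a => MeasurableSet.iInter fun n => MeasurableSet.iInter fun _ =>
      (X_meas n (measurableSet_singleton 0)).compl
  filter_upwards [hub h, bc (k := k) (M := M) (w := fun v => k v + 9) (fun v => 2 ^ (k v + 9))
    fun v => by simp only [hk, hM]; omega] with x hx ⟨j0, hj⟩ h0
  have h0' : U k M (x + ((0 : ℤ) : Od)) := by simpa using h0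
  let s : ℕ → ℤ := fun j => 2 ^ M (j + 1) + (2 ^ M j - r (M (j + 1)) x) % 2 ^ M (j + 1)
  have s1 : ∀ j, 2 ^ M (j + 1) ≤ s j := fun j =>
    le_add_of_nonneg_right (Int.emod_nonneg _ (by positivity))
  have s2 : ∀ j, s j ≤ 2 ^ (M (j + 1) + 1) := fun j => by
    have := Int.emod_lt_of_pos (2 ^ M j - r (M (j + 1)) x) (b := 2 ^ M (j + 1)) (by positivity)
    simp only [s, pow_succ]; omega
  have mM : Monotone M := fun a b h => by simp only [hM]; omega
  have s3 : ∀ j, r (M (j + 1)) (x + s j) = 2 ^ M j := fun j => by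
    rw [r_add, ← add_assoc, Int.add_emod_emod, show r (M (j + 1)) x + 2 ^ M (j + 1) +
      (2 ^ M j - r (M (j + 1)) x) = 2 ^ M j + 2 ^ M (j + 1) by ring, Int.add_emod_right,
      Int.emod_eq_of_lt (by positivity) (pow_lt_pow_right₀ one_lt_two (by simp only [hM]; omega))]
  have s4 : ∀ j, r (M j) (x + s j) = 0 := fun j => by rw [r_mod (mM (Nat.le_succ j)), s3]; simp
  have s5 : ∀ j, j0 ≤ j → U k M (x + s j) ∧ U k M (x + s j + ((2 ^ k j : ℤ) : Od)) := fun j hj0 =>
    struct (fun a b h => by simp only [hk]; omega) mM (fun j => by have := h j; omega) (s4 j)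
      fun v hv => by
        rcases le_or_gt (k v) (M j) with h1 | h1
        · refine (pow_le_pow_right₀ one_le_two h1).trans ?_
          rw [← s3, r_mod (mM hv)]
          exact emod_le (r_nonneg _ _) (by positivity)
        · exact hj v (by omega) _ (by simpa using le_trans (by positivity) (s1 j)) ((s2 j).trans
            (pow_le_pow_right₀ one_le_two (by simp only [hk, hM] at h1 ⊢; omega)))
  have := trans _ _ 0 (transE hx h0' (fun n => s (j0 + n)) (g := 2 ^ k j0) (by positivity)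
    (2 ^ (4 * j0 + 45)) (fun n => (s5 _ (by omega)).1) (fun n => le_trans ?_ (s1 _))
    (fun n => (s2 _).trans (le_trans (pow_le_pow_right₀ one_le_two (by simp only [hM]; omega)) (s1 _)))
    (fun n => (s2 _).trans ?_) fun n => ?_)
  · filter_upwards [this] with ξ hξ
    simpa only [mem_ofPred_eq, Φ, (X_eq hx h0' ξ _).1] using hξ
  · exact_mod_cast (Nat.lt_two_pow_self.le.trans
      (Nat.pow_le_pow_right two_pos (by simp only [hM]; omega)) : n ≤ 2 ^ M (j0 + n + 1))
  · push_cast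
    rw [← pow_add, ← pow_mul]
    exact pow_le_pow_right₀ one_le_two (by simp only [hM]; omega)
  · have a := s5 (j0 + n) (by omega)
    have b := nx_spec hx (s (j0 + n))
    have c : nx (fun s => U k M (x + s)) (s (j0 + n)) = 2 ^ k (j0 + n) :=
      le_antisymm (nx_le (by positivity) (by simpa [add_assoc] using a.2))
        (gap (fun j => by have := h j; omega) (s4 _) b.1 (by simpa [add_assoc] using b.2))
    rw [σ_pos hx a.1, c, ← pow_add]
    push_cast
    congr 2
    simp only [hk]; ring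

def bb : ℕ → ℕ
  | 0 => 3
  | j + 1 => 2 * bb j + j + 5 * (j + 1) * (2 ^ (2 * bb j + j)) ^ 2 + 3

lemma bb_add (j n : ℕ) : bb j + n ≤ bb (j + n) := by
  induction n with
  | zero => rfl
  | succ n ih => rw [← add_assoc j, bb]; omega

theorem recurrent : ∃ Q, IsDPP Q ∧
    (∀ᵐ p ∂(palm Q).prod dirLaw, ∃ n, 0 < n ∧ X p.1 p.2 n = 0) ∧ ¬ CondT Q := by
  obtain ⟨k, hk⟩ : ∃ k : ℕ → ℕ, ∀ j, k j = bb j + j := ⟨_, fun _ => rfl⟩
  obtain ⟨M, hM⟩ : ∃ M : ℕ → ℕ, ∀ j, M j = 2 * bb j + j := ⟨_, fun _ => rfl⟩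
  have b0 : ∀ j, j + 3 ≤ bb j := fun j => by have := bb_add 0 j; rw [zero_add, bb] at this; omega
  have bm : ∀ {i j}, i ≤ j → bb i ≤ bb j := fun {i j} h => by
    have := bb_add i (j - i); rw [Nat.add_sub_cancel' h] at this; omega
  have h : ∀ j, k j + (j + 2) ≤ M j := fun j => by have := b0 j; simp only [hk, hM]; omega
  have mk : Monotone k := fun a b h => by have := bm h; simp only [hk]; omega
  have mM : Monotone M := fun a b h => by have := bm h; simp only [hM]; omega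
  have kM : ∀ j, k j < M j := fun j => by have := h j; omega
  refine ⟨Q k M, isDPP h, transfer (D := {p | ∃ n, 0 < n ∧ X p.1 p.2 n = 0}) ?_ ?_, ?_⟩
  · simp only [ofPred_exists]
    exact MeasurableSet.iUnion fun n => (MeasurableSet.const _).inter
      (X_meas n (measurableSet_singleton 0))
  · filter_upwards [hub h, bc (k := fun v => k (v + 1)) (M := fun v => M (v + 1))
      (w := fun v => k (v + 1)) (fun v => 2 ^ bb (v + 1))
      fun v => ⟨le_rfl, by have := h (v + 1); omega⟩] with x hx ⟨j0, hj⟩ h0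
    have h0' : U k M (x + ((0 : ℤ) : Od)) := by simpa using h0
    have := recur (PA (σ hx)) (PB (σ hx)) 0 fun ε hε => ?_
    · filter_upwards [this] with ξ hξ
      simpa only [mem_ofPred_eq, Φ, (X_eq hx h0' ξ _).1] using hξ
    obtain ⟨j, hj1, hj2⟩ : ∃ j : ℕ, j0 ≤ j ∧ 512 / ε ≤ j :=
      ⟨max j0 ⌈512 / ε⌉₊, le_max_left _ _, (Nat.le_ceil _).trans (by exact_mod_cast le_max_right _ _)⟩
    set L := 2 ^ M j with hL
    have L1 : 1 ≤ L := Nat.one_le_two_pow
    set t := 5 * (j + 1) * L ^ 2 with ht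
    have key : ∀ u : ℤ, |u| ≤ 6 * L * 2 ^ t → ∃ d : ℕ, 0 < d ∧ d ≤ L ∧ U k M (x + (u + d : ℤ)) := by
      intro u hu
      have a1 := r_nonneg (M j) (x + u)
      have a2 := r_lt (M j) (x + u)
      have a3 : (L : ℤ) = 2 ^ M j := by simp [hL]
      obtain ⟨d, hd⟩ := Int.eq_ofNat_of_zero_le (sub_pos.2 a2).le
      refine ⟨d, by omega, by omega, (struct mk mM kM (j := j) ?_ fun v hv => ?_).1⟩
      · rw [Int.cast_add, ← add_assoc, r_add, ← hd]; simp
      · obtain ⟨v, rfl⟩ := Nat.exists_eq_add_of_lt hv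
        have b1 : (8 : ℤ) * L * 2 ^ t ≤ 2 ^ bb (j + v + 1) := by
          rw [a3, show (8 : ℤ) * 2 ^ M j * 2 ^ t = 2 ^ (M j + t + 3) by ring]
          refine pow_le_pow_right₀ one_le_two (le_trans (le_of_eq ?_) (bm (i := j + 1) (by omega)))
          rw [bb, ht, hL, hM]
        have b2 : (2 : ℤ) ^ (bb (j + v + 1) + 1) ≤ 2 ^ k (j + v + 1) :=
          pow_le_pow_right₀ one_le_two (by simp only [hk]; omega)
        have b3 : (L : ℤ) ≤ L * 2 ^ t := le_mul_of_one_le_right (by positivity) (one_le_pow₀ one_le_two)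
        rw [pow_succ] at b2
        have := abs_le.1 hu
        exact hj (j + v) (by omega) _ (by nlinarith) (by nlinarith)
    obtain ⟨F, f1, f2, f3⟩ := recE (σ hx) (σ_ge hx) L1 (t := t) (by nlinarith) fun s hs => by
      have b3 : (L : ℤ) ≤ L * 2 ^ t := le_mul_of_one_le_right (by positivity) (one_le_pow₀ one_le_two)
      have := abs_le.1 hs
      by_cases a : U k M (x + s)
      · obtain ⟨d, d1, d2, d3⟩ := key s (by nlinarith)
        obtain ⟨d', e1, e2, e3⟩ := key (s - L - 1) (abs_le.2 ⟨by nlinarith, by nlinarith⟩)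
        have c1 := nx_le (a := fun s => U k M (x + s)) d1 d3
        have c2 := pv_le (a := fun s => U k M (x + s)) (s := s) (k := L + 1 - d') (by omega)
          (by convert e3 using 3; omega)
        rw [σ_pos hx a, σs_pos hx a]
        omega
      · rw [σ_neg hx a, σs_neg hx a]; simp
    refine ⟨F, f1, f2, f3.trans ?_⟩
    rw [div_le_iff₀ hε] at hj2
    rw [ht, div_le_iff₀ (by positivity)]
    push_cast
    have : (0 : ℝ) ≤ j * ε := by positivity
    nlinarith [sq_nonneg (L : ℝ), mul_le_mul_of_nonneg_right hj2 (sq_nonneg (L : ℝ)),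
      mul_nonneg this (sq_nonneg (L : ℝ)), mul_nonneg hε.le (sq_nonneg (L : ℝ))]
  rintro ⟨C, hC, hT⟩
  have m0 : MeasurableSet {ω : Ω | ω 0 = true} := by measurability
  have := (isDPP h).1
  have q0 : Q k M {ω | ω 0 = true} ≠ 0 := by
    rw [Q, Measure.map_apply (Φ_m k M) m0]
    intro h0
    have := U_lt h
    rw [show {x | ¬ U k M x} = (Φ k M ⁻¹' {ω | ω 0 = true})ᶜ by ext; simp [Φ, om],
      prob_compl_eq_one_sub (Φ_m k M m0), h0] at this
    simp at this
  set E := ∫⁻ ω, f (1, 0) ω ∂palm (Q k M) with hE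
  have E1 : E ≠ ∞ := by
    rw [hE, palm, ProbabilityTheory.cond, lintegral_smul_measure]
    exact ENNReal.mul_ne_top (ENNReal.inv_ne_top.2 q0) (ne_top_of_le_ne_top (by simp) kac)
  have main : ∀ j : ℕ, (2 : ℝ≥0∞) ^ j ≤ 2 * (C * E) := fun j => by
    have t1 := hT (1, 0) (by simp) (2 ^ k j)
    have mf : MeasurableSet {ω | 2 ^ k j ≤ f (1, 0) ω} := f_meas _ measurableSet_Ici
    have g1 : 2⁻¹ ^ (M j + 1) ≤ mu {x | r (M j) x = 0 ∧ ∀ v, j < v → 2 ^ k v ≤ r (M v) x} := by
      refine ENNReal.le_of_add_le_add_right (a := 2⁻¹ ^ (M j + 1)) (by simp) ?_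
      calc _ = mu {x | r (M j) x = 0} := by
            rw [mu_zero, pow_succ, ← mul_add, ENNReal.inv_two_add_inv_two, mul_one, ENNReal.inv_pow]
        _ ≤ mu (_ ∪ ⋃ n, {x | r (M (j + n + 1)) x < 2 ^ k (j + n + 1)}) := measure_mono fun x hx => by
            by_contra hh
            simp only [mem_union, mem_iUnion, mem_ofPred_eq, not_or, not_exists, not_lt] at hh
            exact hh.1 ⟨hx, fun v hv => by
              obtain ⟨v, rfl⟩ := Nat.exists_eq_add_of_lt hv
              exact hh.2 v⟩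
        _ ≤ _ := (measure_union_le _ _).trans (add_le_add le_rfl ((measure_iUnion_le _).trans
            (geo fun n => (hole k M _).trans (pow_le (by
              have := bb_add (j + 1) n
              rw [bb, show j + 1 + n = j + n + 1 by ring] at this
              simp only [hk, hM]; omega)))))
    have g2 : 2⁻¹ ^ (M j + 1) ≤ palm (Q k M) {ω | 2 ^ k j ≤ f (1, 0) ω} := by
      rw [palm, cond_apply m0]
      refine g1.trans (le_trans ?_ (le_mul_of_one_le_left' (ENNReal.one_le_inv.2 prob_le_one)))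
      rw [Q, Measure.map_apply (Φ_m k M) (m0.inter mf)]
      refine measure_mono_ae ?_
      filter_upwards [hub h] with x hx hy
      have b := nx_spec hx 0
      refine ⟨by simpa [Φ, om] using (struct mk mM kM hy.1 hy.2).1, ?_⟩
      have := gap kM hy.1 b.1 (by simpa using b.2)
      simpa [f, nx, Φ, om] using this
    have g3 : palm (Q k M) {ω | 2 ^ k j ≤ f (1, 0) ω} ≤
        ∑' n, palm (Q k M) {ω | f (1, 0) ω = 2 ^ k j + n} :=
      (measure_mono fun ω hω => mem_iUnion.2 (Nat.exists_eq_add_of_le hω)).trans (measure_iUnion_le _)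
    have g4 : 2 ^ k j * 2⁻¹ ^ (M j + 1) / E ≤ C / 2 ^ k j := by
      refine le_trans ?_ (t1.trans (by simp))
      simp only [div_eq_mul_inv]
      rw [ENNReal.tsum_mul_right]
      gcongr
      refine (mul_le_mul' le_rfl (g2.trans g3)).trans ?_
      rw [← ENNReal.tsum_mul_left]
      exact ENNReal.tsum_le_tsum fun n => by gcongr; simp
    rw [ENNReal.le_div_iff_mul_le (by simp) (by simp), ← ENNReal.mul_div_right_comm] at g4
    have g5 := ENNReal.div_le_iff_le_mul (Or.inr hC) (Or.inl E1) |>.1 g4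
    refine le_trans (le_of_eq ?_) (mul_le_mul' le_rfl g5)
    rw [show (2 : ℝ≥0∞) * (2 ^ k j * 2⁻¹ ^ (M j + 1) * 2 ^ k j) = 2 ^ j * (2 * 2⁻¹) ^ (M j + 1) by
      simp only [hk, hM]; ring, ENNReal.mul_inv_cancel (by simp) (by simp)]
    simp
  obtain ⟨n, hn⟩ := ENNReal.exists_nat_gt (ENNReal.mul_ne_top (a := 2) (by simp) (ENNReal.mul_ne_top hC E1))
  exact absurd (hn.trans_le' (main n)) (not_lt.2 (by exact_mod_cast Nat.lt_two_pow_self.le))

end Pool.Agent.H41.Dpp
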