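import Mathlib

set_option autoImplicit false

namespace Pool.Agent.H41.Dpp

open MeasureTheory ProbabilityTheory
open scoped ENNReal

/-- Configurations `ω ∈ {0,1}^{ℤ²}`. -/
abbrev Ω := ℤ × ℤ → Bool

/-- The shift `(θ_x ω)(y) = ω(x + y)`. -/
def shift (x : ℤ × ℤ) (ω : Ω) : Ω := fun y => ω (x + y)

/-- The four directions `e₁, -e₁, e₂, -e₂`. -/
def dir : Fin 4 → ℤ × ℤ := ![(1, 0), (-1, 0), (0, 1), (0, -1)]

/-- `f_e(ω) = min {k > 0 : ω(k e) = 1}`. -/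
noncomputable def f (e : ℤ × ℤ) (ω : Ω) : ℕ := sInf {k : ℕ | 0 < k ∧ ω (k • e) = true}

/-- The walk started at `0`: at step `n` it jumps to the nearest point in direction `ξ n`. -/
noncomputable def X (ω : Ω) (ξ : ℕ → Fin 4) : ℕ → ℤ × ℤ
  | 0 => 0
  | n + 1 => X ω ξ n + f (dir (ξ n)) (shift (X ω ξ n) ω) • dir (ξ n)

/-- Independent uniform directions. -/
noncomputable def dirLaw : Measure (ℕ → Fin 4) := Measure.infinitePi fun _ => uniformOn Set.univ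

/-- A two-dimensional discrete point process. -/
def IsDPP (Q : Measure Ω) : Prop :=
  IsProbabilityMeasure Q ∧ Ergodic (shift (1, 0)) Q ∧ Ergodic (shift (0, 1)) Q ∧
    Q {ω | ∀ x, ω x = false} < 1

/-- `P = Q( · | Ω₀)`. -/
noncomputable def palm (Q : Measure Ω) : Measure Ω := cond Q {ω | ω 0 = true}

/-- Condition (T). -/
def CondT (Q : Measure Ω) : Prop :=
  ∃ C : ℝ≥0∞, C ≠ ∞ ∧ ∀ e ∈ ({(1, 0), (0, 1)} : Set (ℤ × ℤ)), ∀ N : ℕ,
    ∑' k : ℕ, ((N + k : ℕ) * palm Q {ω | f e ω = N + k}) / (∫⁻ ω, f e ω ∂palm Q) ≤ C / N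

end Pool.Agent.H41.Dpp
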