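import Pool.Agent.H41.TF5

namespace Pool.Agent.H41.TF

open MeasureTheory Filter Metric ContinuousLinearMap
open scoped ENNReal NNReal Convolution Topology RealInnerProductSpace

theorem young {F : Type} [NormedAddCommGroup F] [NormedSpace ℝ F] {f w : E3 → F} (hf : MemLp f 2)
    {η : E3 → ℝ} (h7 : Continuous η) (h3 : HasCompactSupport η) (h4 : ∀ x, 0 ≤ η x)
    (h5 : ∫ x, η x = 1) (hc : Continuous w) (e : ∀ x, w x = ∫ t, η (x - t) • f t) :
    Integrable (fun x => ‖w x‖ ^ 2) ∧ ∫ x, ‖w x‖ ^ 2 ≤ ∫ x, ‖f x‖ ^ 2 := by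
  have hw : ∀ x, ∫⁻ t, ENNReal.ofReal (η (x - t)) = 1 := fun x => by
    rw [lintegral_sub_left_eq_self (fun t => ENNReal.ofReal (η t)), ← ofReal_integral_eq_lintegral_ofReal
      (h7.integrable_of_hasCompactSupport h3) (Eventually.of_forall h4), h5, ENNReal.ofReal_one]
  have hw' : ∀ t, ∫⁻ x, ENNReal.ofReal (η (x - t)) = 1 := fun t => by
    rw [lintegral_sub_right_eq_self (fun t => ENNReal.ofReal (η t)), ← hw 0,
      lintegral_sub_left_eq_self (fun t => ENNReal.ofReal (η t))]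
  have hm := hf.1.enorm
  have h9 : ∀ x, ‖w x‖ₑ ≤ ∫⁻ t, ‖f t‖ₑ * ENNReal.ofReal (η (x - t)) := fun x => by
    rw [e]
    refine (enorm_integral_le_lintegral_enorm _).trans_eq (lintegral_congr fun t => ?_)
    rw [enorm_smul, mul_comm, Real.enorm_of_nonneg (h4 _)]
  have i1 := (memLp_two_iff_integrable_sq_norm hf.1).mp hf
  have h1 : ∫⁻ x, ENNReal.ofReal (‖w x‖ ^ 2) ≤ ENNReal.ofReal (∫ x, ‖f x‖ ^ 2) := by
    rw [ofReal_integral_eq_lintegral_ofReal i1 (Eventually.of_forall fun x => by positivity)]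
    simp only [ENNReal.ofReal_pow (norm_nonneg _), ofReal_norm]
    refine (lintegral_mono fun x => (pow_le_pow_left' (h9 x) 2).trans
      (cs hm (by fun_prop) (hw x))).trans_eq ?_
    rw [lintegral_lintegral_swap ((hm.pow_const 2).comp_snd.mul
      (Measurable.aemeasurable (by fun_prop)))]
    refine lintegral_congr fun t => ?_
    rw [lintegral_const_mul _ (by fun_prop), hw', mul_one]
  have n : 0 ≤ᵐ[volume] fun x => ‖w x‖ ^ 2 := Eventually.of_forall fun x => by positivity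
  have m : AEStronglyMeasurable fun x => ‖w x‖ ^ 2 := (hc.norm.pow 2).aestronglyMeasurable
  refine ⟨⟨m, (hasFiniteIntegral_iff_ofReal n).mpr (h1.trans_lt ENNReal.ofReal_lt_top)⟩, ?_⟩
  rw [integral_eq_lintegral_of_nonneg_ae n m]
  exact ENNReal.toReal_le_of_le_ofReal (integral_nonneg fun x => by positivity) h1

theorem approx {u : E3 → ℝ} {G : E3 → E3 →L[ℝ] ℝ} (a1 : MemLp u 2) (a2 : MemLp G 2)
    (h : WeakDeriv u G) : ∃ w : ℕ → E3 → ℝ, (∀ n, ContDiff ℝ 1 (w n) ∧
      (Integrable (fun x => ‖w n x‖ ^ 2) ∧ ∫ x, ‖w n x‖ ^ 2 ≤ ∫ x, ‖u x‖ ^ 2) ∧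
      Integrable (fun x => ‖fderiv ℝ (w n) x‖ ^ 2) ∧
        ∫ x, ‖fderiv ℝ (w n) x‖ ^ 2 ≤ ∫ x, ‖G x‖ ^ 2) ∧
      ∀ᵐ x, Tendsto (fun n => w n x) atTop (𝓝 (u x)) := by
  have hu := a1.locallyIntegrable one_le_two
  have hG := a2.locallyIntegrable one_le_two
  let φ : ℕ → ContDiffBump (0 : E3) := fun n =>
    ⟨1 / ((n : ℝ) + 1) / 2, 1 / ((n : ℝ) + 1), by positivity, half_lt_self (by positivity)⟩
  have h1 := ContDiffBump.ae_convolution_tendsto_right_of_locallyIntegrable (μ := volume) (φ := φ)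
    (K := 2) tendsto_one_div_add_atTop_nhds_zero_nat
    (Eventually.of_forall fun n => le_of_eq (by simp only [φ]; ring)) hu
  refine ⟨fun n => u ⋆[lsmul ℝ ℝ] (φ n).normed volume, fun n => ?_, ?_⟩
  · obtain ⟨η, hη⟩ : ∃ η, η = (φ n).normed volume := ⟨_, rfl⟩
    have h2 : ContDiff ℝ (⊤ : ℕ∞) η := hη ▸ (φ n).contDiff_normed
    have h3 : HasCompactSupport η := hη ▸ (φ n).hasCompactSupport_normed
    have h4 : ∀ x, 0 ≤ η x := hη ▸ (φ n).nonneg_normed
    have h5 : ∫ x, η x = 1 := hη ▸ (φ n).integral_normed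
    simp only [← hη]
    have h6 : ContDiff ℝ 1 η := h2.of_le (by simp)
    have h7 := h6.continuous
    have h8 := h6.continuous_fderiv one_ne_zero
    have h9 := h3.contDiff_convolution_right (lsmul ℝ ℝ) hu h6
    refine ⟨h9, young a1 h7 h3 h4 h5 h9.continuous fun x => ?_,
      young a2 h7 h3 h4 h5 (h9.continuous_fderiv one_ne_zero) fun x => ?_⟩
    · simp [convolution_def, mul_comm]
    have c1 : HasCompactSupport fun t => η (x - t) := h3.comp_homeomorph (Homeomorph.subLeft x)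
    have i1 := hG.integrable_smul_left_of_hasCompactSupport (g := fun t => η (x - t))
      (by fun_prop) c1
    ext v
    rw [(h3.hasFDerivAt_convolution_right _ hu h6 x).fderiv,
      convolution_precompR_apply _ hu (h3.fderiv ℝ) h8, integral_apply i1, convolution_def]
    have h10 := h (fun t => η (x - t)) (by fun_prop) c1 v
    have e1 : ∀ t, fderiv ℝ (fun t => η (x - t)) t v = -fderiv ℝ η (x - t) v := fun t => by
      rw [HasFDerivAt.fderiv (f := fun t => η (x - t))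
        (((h6.differentiable one_ne_zero) (x - t)).hasFDerivAt.comp t
        ((hasFDerivAt_id t).const_sub x))]
      simp
    simp only [e1] at h10
    rw [integral_add] at h10
    · simp only [mul_neg, integral_neg] at h10
      simp only [lsmul_apply, smul_eq_mul, smul_apply, mul_comm (η _)]
      linarith
    · exact hu.integrable_smul_right_of_hasCompactSupport (by fun_prop)
        (((h3.fderiv_apply ℝ v).comp_homeomorph (Homeomorph.subLeft x)).neg)
    · simpa [mul_comm] using i1.apply_continuousLinearMap v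
  · filter_upwards [h1] with x hx
    convert hx using 2 with n
    rw [convolution_lsmul_swap, convolution_def]
    simp [mul_comm]

theorem gs0 {u φ q : E3 → ℝ} {B : ℝ} (hu : ContDiff ℝ 1 u) (i1 : Integrable fun x => ‖u x‖ ^ 2)
    (i2 : Integrable fun x => ‖fderiv ℝ u x‖ ^ 2) (c1 : Continuous φ) (c2 : Continuous q)
    (d : ∀ x, HasFDerivAt φ (q x • innerSL ℝ x) x)
    (b : ∀ x, |φ x| ≤ B ∧ |φ x| * ‖x‖ ≤ B ∧ |q x| * ‖x‖ ^ 2 ≤ B) :
    ∫ x, u x ^ 2 * (q x * ‖x‖ ^ 2 + 3 * φ x - (φ x * ‖x‖) ^ 2) ≤ ∫ x, ‖fderiv ℝ u x‖ ^ 2 := by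
  have c3 := hu.continuous
  have c4 := hu.continuous_fderiv one_ne_zero
  simp only [Real.norm_eq_abs, sq_abs] at i1
  have j1 : ∀ f : E3 → ℝ, Continuous f → ∀ C, (∀ x, |f x| ≤ C) →
      Integrable fun x => u x ^ 2 * f x := fun f h1 C h2 =>
    i1.mul_bdd (c := C) h1.aestronglyMeasurable (Eventually.of_forall h2)
  have k1 : ∀ (x : E3) i, |x i| ≤ ‖x‖ := fun x i => PiLp.norm_apply_le x i
  have k2 : ∀ (x : E3) i, |φ x * x i| ≤ B := fun x i => by
    rw [abs_mul]; exact (mul_le_mul_of_nonneg_left (k1 x i) (abs_nonneg _)).trans (b x).2.1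
  have key : ∀ i : Fin 3, Integrable (fun x => u x ^ 2 * (q x * x i ^ 2 + φ x)) ∧
      Integrable (fun x => 2 * u x * fderiv ℝ u x (EuclideanSpace.single i 1) * (φ x * x i)) ∧
      ∫ x, u x ^ 2 * (q x * x i ^ 2 + φ x) =
        -∫ x, 2 * u x * fderiv ℝ u x (EuclideanSpace.single i 1) * (φ x * x i) := fun i => by
    have j2 : Integrable fun x => u x ^ 2 * (q x * x i ^ 2 + φ x) :=
      j1 _ (by fun_prop) (B + B) fun x => (abs_add_le _ _).trans (add_le_add (by
        rw [abs_mul, abs_pow]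
        exact (mul_le_mul_of_nonneg_left (pow_le_pow_left₀ (abs_nonneg _) (k1 x i) 2)
          (abs_nonneg _)).trans (b x).2.2) (b x).1)
    have j3 : Integrable fun x => 2 * u x * fderiv ℝ u x (EuclideanSpace.single i 1) *
        (φ x * x i) := by
      refine Integrable.mul_bdd (c := B) ((i1.add i2).mono'
        (Continuous.aestronglyMeasurable (by fun_prop)) (Eventually.of_forall fun x => ?_))
        (Continuous.aestronglyMeasurable (by fun_prop)) (Eventually.of_forall fun x => k2 x i)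
      have := (fderiv ℝ u x).le_opNorm (EuclideanSpace.single i 1)
      simp only [PiLp.norm_single, norm_one, mul_one, norm_mul, Real.norm_eq_abs, Pi.add_apply,
        abs_two] at this ⊢
      nlinarith [sq_nonneg (|u x| - ‖fderiv ℝ u x‖), sq_abs (u x), abs_nonneg (u x)]
    refine ⟨j2, j3, integral_bilinear_hasLineDerivAt_right_eq_neg_left_of_integrable
      (B := mul ℝ ℝ) (v := EuclideanSpace.single i 1) j3 j2 (j1 _ (by fun_prop) B fun x => k2 x i)
      (fun x _ => ?_) fun x _ => ?_⟩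
    · convert (((hu.differentiable one_ne_zero x).hasFDerivAt).pow 2).hasLineDerivAt _ using 1
      simp
    · convert ((d x).fun_mul (EuclideanSpace.proj (𝕜 := ℝ) i).hasFDerivAt).hasLineDerivAt
        (EuclideanSpace.single i 1) using 1
      · rfl
      simp [EuclideanSpace.inner_single_right]
      ring
  have j4 : Integrable fun x => u x ^ 2 * (φ x * ‖x‖) ^ 2 :=
    j1 _ (by fun_prop) (B ^ 2) fun x => by
      rw [abs_pow, abs_mul, abs_norm]; exact pow_le_pow_left₀ (by positivity) (b x).2.1 2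
  have e1 : ∀ x : E3, u x ^ 2 * (q x * ‖x‖ ^ 2 + 3 * φ x - (φ x * ‖x‖) ^ 2) =
      ∑ i, u x ^ 2 * (q x * x i ^ 2 + φ x) - u x ^ 2 * (φ x * ‖x‖) ^ 2 := fun x => by
    conv_lhs => rw [EuclideanSpace.real_norm_sq_eq x]
    simp only [Fin.sum_univ_three]; ring
  simp only [e1]
  rw [integral_sub (integrable_finsetSum _ fun i _ => (key i).1) j4,
    integral_finsetSum _ fun i _ => (key i).1]
  simp only [(key _).2.2, Finset.sum_neg_distrib]
  rw [← integral_finsetSum _ fun i _ => (key i).2.1, ← integral_neg, sub_le_iff_le_add,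
    ← integral_add i2 j4]
  refine integral_mono (integrable_finsetSum _ fun i _ => (key i).2.1).neg (i2.add j4) fun x => ?_
  have e2 : ∑ i, fderiv ℝ u x (EuclideanSpace.single i 1) * x i = fderiv ℝ u x x := by
    generalize fderiv ℝ u x = L
    conv_rhs => rw [← (EuclideanSpace.basisFun (Fin 3) ℝ).sum_repr x]
    simp [mul_comm]
  have e3 := abs_le.mp ((abs_mul (u x * φ x) _).trans_le (mul_le_mul_of_nonneg_left
    ((fderiv ℝ u x).le_opNorm x) (abs_nonneg _)))
  rw [Fin.sum_univ_three] at e2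
  simp only [Fin.sum_univ_three]
  rw [← e2] at e3
  have e4 : (|u x * φ x| * ‖x‖) ^ 2 = u x ^ 2 * (φ x * ‖x‖) ^ 2 := by rw [mul_pow, sq_abs]; ring
  nlinarith [e3.1, sq_nonneg (‖fderiv ℝ u x‖ - |u x * φ x| * ‖x‖)]

theorem gs {ψ φ q : E3 → ℝ} {g : E3 → E3 →L[ℝ] ℝ} {B : ℝ} (a1 : MemLp ψ 2) (a2 : MemLp g 2)
    (h : WeakDeriv ψ g) (c1 : Continuous φ) (c2 : Continuous q)
    (d : ∀ x, HasFDerivAt φ (q x • innerSL ℝ x) x)
    (b : ∀ x, |φ x| ≤ B ∧ |φ x| * ‖x‖ ≤ B ∧ |q x| * ‖x‖ ^ 2 ≤ B) :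
    ∫ x, ψ x ^ 2 * (q x * ‖x‖ ^ 2 + 3 * φ x - (φ x * ‖x‖) ^ 2) ≤ ∫ x, ‖g x‖ ^ 2 := by
  obtain ⟨w, h1, h2⟩ := approx a1 a2 h
  obtain ⟨Q, hQ⟩ : ∃ Q : E3 → ℝ, ∀ x, Q x = q x * ‖x‖ ^ 2 + 3 * φ x - (φ x * ‖x‖) ^ 2 :=
    ⟨_, fun _ => rfl⟩
  have c3 : Continuous Q := by rw [funext hQ]; fun_prop
  obtain ⟨c, hc⟩ : ∃ c, ∀ x, |Q x| ≤ c := ⟨B + 3 * B + B ^ 2, fun x => by
    have e1 := abs_le.mp (b x).1
    have e2 := abs_le.mp (show |q x * ‖x‖ ^ 2| ≤ B by
      rw [abs_mul, abs_pow, abs_norm]; exact (b x).2.2)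
    have e3 := pow_le_pow_left₀ (by positivity) (b x).2.1 2
    rw [mul_pow, sq_abs, ← mul_pow] at e3
    rw [hQ, abs_le]
    constructor <;> nlinarith [sq_nonneg (φ x * ‖x‖), sq_nonneg B]⟩
  have c0 : 0 ≤ c := (abs_nonneg _).trans (hc 0)
  have n : ∀ u : E3 → ℝ, 0 ≤ᵐ[volume] fun x => u x ^ 2 * (Q x + c) := fun u =>
    Eventually.of_forall fun x => mul_nonneg (sq_nonneg _) (by linarith [abs_le.mp (hc x)])
  have j : ∀ u : E3 → ℝ, Integrable (fun x => ‖u x‖ ^ 2) →
      Integrable (fun x => u x ^ 2 * (Q x + c)) ∧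
      ∫ x, u x ^ 2 * (Q x + c) = (∫ x, u x ^ 2 * Q x) + c * ∫ x, ‖u x‖ ^ 2 := fun u hu => by
    simp only [Real.norm_eq_abs, sq_abs, mul_add] at hu ⊢
    have := hu.mul_bdd (c := c) c3.aestronglyMeasurable (Eventually.of_forall hc)
    exact ⟨this.add (hu.mul_const c), by
      rw [integral_add this (hu.mul_const c), integral_mul_const, mul_comm]⟩
  have i1 := (memLp_two_iff_integrable_sq_norm a1.1).mp a1
  have h3 := lintegral_liminf_le' (μ := volume) (u := atTop)
    (f := fun n x => ENNReal.ofReal (w n x ^ 2 * (Q x + c)))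
    fun n => (j _ (h1 n).2.1.1).1.aemeasurable.ennreal_ofReal
  rw [lintegral_congr_ae (g := fun x => ENNReal.ofReal (ψ x ^ 2 * (Q x + c)))
    (h2.mono fun x hx => (ENNReal.tendsto_ofReal ((hx.pow 2).mul_const _)).liminf_eq),
    ← ofReal_integral_eq_lintegral_ofReal (j _ i1).1 (n _)] at h3
  have h4 := h3.trans (liminf_le_of_frequently_le' (x := ENNReal.ofReal ((∫ x, ‖g x‖ ^ 2) +
    c * ∫ x, ‖ψ x‖ ^ 2)) (Frequently.of_forall fun m => by
      rw [← ofReal_integral_eq_lintegral_ofReal (j _ (h1 m).2.1.1).1 (n _), (j _ (h1 m).2.1.1).2]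
      refine ENNReal.ofReal_le_ofReal (add_le_add ?_ (mul_le_mul_of_nonneg_left (h1 m).2.1.2 c0))
      simp only [hQ]
      exact (gs0 (h1 m).1 (h1 m).2.1.1 (h1 m).2.2.1 c1 c2 d b).trans (h1 m).2.2.2))
  rw [ENNReal.ofReal_le_ofReal_iff (add_nonneg (integral_nonneg fun x => by positivity)
    (mul_nonneg c0 (integral_nonneg fun x => by positivity))), (j _ i1).2] at h4
  simp only [← hQ]
  linarith

theorem hardy {p a k : ℝ} {ρ : E3 → ℝ} {g : E3 → E3 →L[ℝ] ℝ} (h : Adm p ρ g) (ha : 0 < a)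
    (hk : 0 < k) (hI : Integrable fun x => ρ x / ‖x‖) :
    ∫ x, ρ x * (2 * k / (‖x‖ * (a + ‖x‖)) - k * (k + 1) / (a + ‖x‖) ^ 2) ≤ ∫ x, ‖g x‖ ^ 2 := by
  obtain ⟨a1, a2, -, a4, a5⟩ := h
  have m1 := a2.aemeasurable
  have a6 : MemLp (fun x => √(ρ x)) 2 := (memLp_two_iff_integrable_sq
    (AEMeasurable.aestronglyMeasurable (by fun_prop))).mpr
    (by simpa only [Real.sq_sqrt (a1 _)] using a2)
  obtain ⟨F, hF⟩ : ∃ F : ℝ → ℝ, ∀ r, F r = 2 * k / (r * (a + r)) - k * (k + 1) / (a + r) ^ 2 :=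
    ⟨_, fun _ => rfl⟩
  have mF : Measurable F := by rw [funext hF]; fun_prop
  have b1 : ∀ r s, 0 < r → r ≤ s → |F s| ≤ 2 * k / a / r + k * (k + 1) / a ^ 2 := fun r s h0 h1 => by
    have : 0 < s := by linarith
    rw [hF, div_div]
    refine (abs_sub _ _).trans ?_
    rw [abs_of_pos (by positivity), abs_of_pos (by positivity), mul_comm s]
    gcongr <;> linarith
  have h1 : ∀ ε : ℝ, 0 < ε → ∫ x, ρ x * F (√(‖x‖ ^ 2 + ε ^ 2)) ≤ ∫ x, ‖g x‖ ^ 2 := fun ε hε => by
    obtain ⟨r, hr⟩ : ∃ r : E3 → ℝ, ∀ x, r x = √(‖x‖ ^ 2 + ε ^ 2) := ⟨_, fun _ => rfl⟩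
    have r1 : ∀ x, ε ≤ r x := fun x => hr x ▸ Real.le_sqrt_of_sq_le (by nlinarith [norm_nonneg x])
    have r2 : ∀ x, ‖x‖ ≤ r x := fun x => hr x ▸ Real.le_sqrt_of_sq_le (by nlinarith)
    have r0 : ∀ x, 0 < r x := fun x => hε.trans_le (r1 x)
    have r3 : Continuous r := by rw [funext hr]; fun_prop
    have r4 : ∀ x, HasFDerivAt r ((r x)⁻¹ • innerSL ℝ x) x := fun x => by
      have := ((hasStrictFDerivAt_norm_sq x).hasFDerivAt.add_const (ε ^ 2)).sqrt
        (by positivity : ‖x‖ ^ 2 + ε ^ 2 ≠ 0)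
      rw [funext hr]
      refine this.congr_fderiv ?_
      ext v; simp; ring
    have n1 : ∀ x, r x * (a + r x) ≠ 0 := fun x => by have := r0 x; positivity
    have n2 : ∀ x, r x ^ 3 * (a + r x) ^ 2 ≠ 0 := fun x => by have := r0 x; positivity
    have b2 : ∀ x, k * (a + 2 * r x) / (r x ^ 3 * (a + r x) ^ 2) * ‖x‖ ^ 2 ≤
        k * (a + 2 * r x) / (r x * (a + r x) ^ 2) := fun x => by
      have := r0 x
      refine (mul_le_mul_of_nonneg_left (pow_le_pow_left₀ (norm_nonneg _) (r2 x) 2)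
        (by positivity)).trans_eq ?_
      field_simp
    have b3 : ∀ x, k / (r x * (a + r x)) * ‖x‖ ≤ k / (a + r x) := fun x => by
      have := r0 x
      refine (mul_le_mul_of_nonneg_left (r2 x) (by positivity)).trans_eq ?_
      field_simp
    have h2 := gs (φ := fun x => k / (r x * (a + r x)))
      (q := fun x => -(k * (a + 2 * r x) / (r x ^ 3 * (a + r x) ^ 2))) (B := 2 * k / (ε * a) + k / a)
      a6 a4 a5 (by fun_prop (disch := assumption)) (by fun_prop (disch := assumption))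
      (fun x => by
        have := r0 x
        refine (((hasDerivAt_const (r x) k).fun_div ((hasDerivAt_id' (r x)).fun_mul
          ((hasDerivAt_id' (r x)).const_add a)) (n1 x)).comp_hasFDerivAt x (r4 x)).congr_fderiv ?_
        ext v; simp; field_simp; ring)
      (fun x => by
        have := r0 x
        have := r1 x
        have e1 : k / (r x * (a + r x)) ≤ k / (ε * a) := by gcongr; linarith
        have e2 : k / (a + r x) ≤ k / a := by gcongr; linarith
        have e3 : k * (a + 2 * r x) / (r x * (a + r x) ^ 2) ≤ 2 * (k / (r x * (a + r x))) := by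
          rw [div_le_iff₀ (by positivity)]; field_simp; linarith
        have e4 : 0 < k / (ε * a) := by positivity
        have e5 : 0 < k / a := by positivity
        rw [abs_neg, abs_of_pos (by positivity), abs_of_pos (by positivity), mul_div_assoc]
        exact ⟨by linarith, by linarith [b3 x], by linarith [b2 x]⟩)
    simp only [Real.sq_sqrt (a1 _), ← hr] at h2 ⊢
    refine le_trans (integral_mono (a2.mul_bdd (c := 2 * k / a / ε + k * (k + 1) / a ^ 2)
      (mF.comp r3.measurable).aestronglyMeasurable (Eventually.of_forall fun x =>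
        b1 _ _ hε (r1 x))) ?_ fun x => mul_le_mul_of_nonneg_left ?_ (a1 x)) h2
    · refine a2.mul_bdd (c := 2 * k / (ε * a) + 3 * (k / (ε * a)) + (k / a) ^ 2)
        (Continuous.aestronglyMeasurable (by fun_prop (disch := assumption)))
        (Eventually.of_forall fun x => ?_)
      have := r0 x
      have := r1 x
      have e1 : k / (r x * (a + r x)) ≤ k / (ε * a) := by gcongr; linarith
      have e2 : k / (a + r x) ≤ k / a := by gcongr; linarith
      have e3 : k * (a + 2 * r x) / (r x * (a + r x) ^ 2) ≤ 2 * (k / (r x * (a + r x))) := by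
        rw [div_le_iff₀ (by positivity)]; field_simp; linarith
      have e4 := pow_le_pow_left₀ (by positivity) ((b3 x).trans e2) 2
      have e5 : 0 ≤ k * (a + 2 * r x) / (r x ^ 3 * (a + r x) ^ 2) * ‖x‖ ^ 2 := by positivity
      have e6 : 0 < k / (r x * (a + r x)) := by positivity
      rw [Real.norm_eq_abs, abs_le, mul_div_assoc 2]
      constructor <;> nlinarith [b2 x, sq_nonneg (k / (r x * (a + r x)) * ‖x‖), sq_nonneg (k / a)]
    · have := r0 x
      have e4 := pow_le_pow_left₀ (by positivity) (b3 x) 2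
      have e5 : F (r x) = -(k * (a + 2 * r x) / (r x * (a + r x) ^ 2)) +
          3 * (k / (r x * (a + r x))) - (k / (a + r x)) ^ 2 := by rw [hF]; field_simp; ring
      linarith [b2 x]
  have h2 : ContinuousAt (fun ε : ℝ => ∫ x, ρ x * F (√(‖x‖ ^ 2 + ε ^ 2))) 0 := by
    refine continuousAt_of_dominated (bound := fun x => 2 * k / a * (ρ x / ‖x‖) +
      k * (k + 1) / a ^ 2 * ρ x) (Eventually.of_forall fun ε => (m1.mul (Measurable.aemeasurable
        (by fun_prop))).aestronglyMeasurable) (Eventually.of_forall fun ε => ?_)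
      ((hI.const_mul _).add (a2.const_mul _)) ?_ <;>
      filter_upwards [Measure.ae_ne volume 0] with x hx <;> have := norm_pos_iff.mpr hx
    · rw [norm_mul, Real.norm_of_nonneg (a1 x)]
      refine (mul_le_mul_of_nonneg_left (b1 _ _ this (Real.le_sqrt_of_sq_le (by nlinarith)))
        (a1 x)).trans_eq (by ring)
    · simp only [hF]
      have e : 0 < √(‖x‖ ^ 2 + 0 ^ 2) := Real.sqrt_pos.mpr (by positivity)
      fun_prop (disch := positivity)
  have h3 := le_of_tendsto (h2.tendsto.mono_left (nhdsWithin_le_nhds (s := Set.Ioi 0)))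
    (eventually_mem_nhdsWithin.mono h1)
  simpa [hF] using h3

end Pool.Agent.H41.TF
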