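import Pool.Agent.H41.FA1

namespace Pool.Agent.H41.TF

open MeasureTheory Filter Real Set
open scoped RealInnerProductSpace

theorem gauss {X : Type} [MeasurableSpace X] {ν : Measure X} [SFinite ν] {f k : X → ℝ}
    (hf : AEMeasurable f ν) (f0 : ∀ x, 0 ≤ f x) (hk : Measurable k) (k0 : ∀ᵐ x ∂ν, 0 < k x)
    (h : Integrable (fun x => f x / k x) ν) :
    IntegrableOn (fun t : ℝ => ∫ x, f x * exp (-k x ^ 2 * t ^ 2) ∂ν) (Ioi 0) ∧
      ∫ t in Ioi (0 : ℝ), ∫ x, f x * exp (-k x ^ 2 * t ^ 2) ∂ν = √π / 2 * ∫ x, f x / k x ∂ν := by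
  have e : ∀ᵐ x ∂ν, ∫ t in Ioi (0 : ℝ), f x * exp (-k x ^ 2 * t ^ 2) = √π / 2 * (f x / k x) :=
    k0.mono fun x hx => by
      rw [integral_const_mul, integral_gaussian_Ioi, sqrt_div' _ (by positivity), sqrt_sq hx.le]
      ring
  have h1 : Integrable (Function.uncurry fun x (t : ℝ) => f x * exp (-k x ^ 2 * t ^ 2))
      (ν.prod (volume.restrict (Ioi 0))) := by
    refine (integrable_prod_iff (hf.comp_fst.mul
      (Measurable.aemeasurable (by fun_prop))).aestronglyMeasurable).mpr ⟨k0.mono fun x hx =>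
        ((integrable_exp_neg_mul_sq (pow_pos hx 2)).const_mul (f x)).integrableOn,
      (h.const_mul (√π / 2)).congr (e.mono fun x hx => ?_)⟩
    simp only [← hx]
    exact integral_congr_ae (Eventually.of_forall fun t =>
      (norm_of_nonneg (mul_nonneg (f0 x) (exp_pos _).le)).symm)
  exact ⟨h1.integral_prod_right, by
    rw [← integral_integral_swap h1, integral_congr_ae e, integral_const_mul]⟩

theorem psd {ρ : E3 → ℝ} (a1 : ∀ x, 0 ≤ ρ x) (a2 : Integrable ρ) {t : ℝ} (ht : 0 < t) :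
    (∫ x, ρ x * exp (-‖x‖ ^ 2 * t ^ 2)) ^ 2 ≤
      ∫ z : E3 × E3, ρ z.1 * ρ z.2 * exp (-‖z.1 - z.2‖ ^ 2 * t ^ 2) ∂volume.prod volume := by
  have b : ∀ u : ℝ, ‖exp (-u ^ 2 * t ^ 2)‖ ≤ 1 := fun u => by
    rw [norm_of_nonneg (exp_pos _).le, exp_le_one_iff]; nlinarith [sq_nonneg (u * t)]
  have i1 : Integrable fun x => ρ x * exp (-‖x‖ ^ 2 * t ^ 2) := a2.mul_bdd
    (Continuous.aestronglyMeasurable (by fun_prop)) (Eventually.of_forall fun x => b _)
  have i2 : Integrable fun x => ρ x • (exp (-‖x‖ ^ 2 * t ^ 2) • x) := by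
    refine a2.smul_bdd (1 / t) (Continuous.aestronglyMeasurable (by fun_prop))
      (Eventually.of_forall fun x => ?_)
    rw [norm_smul, norm_of_nonneg (exp_pos _).le, neg_mul, exp_neg, inv_mul_eq_div,
      div_le_div_iff₀ (exp_pos _) ht]
    nlinarith [add_one_le_exp (‖x‖ ^ 2 * t ^ 2), sq_nonneg (‖x‖ * t - 1)]
  have i3 := i1.mul_prod i1
  have i4 := i2.op_fst_snd (op := fun x y : E3 => ⟪x, y⟫) continuous_inner
    ⟨1, fun x y => by simpa using abs_real_inner_le_norm x y⟩ i2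
  have h1 : ∫ z : E3 × E3, ⟪ρ z.1 • (exp (-‖z.1‖ ^ 2 * t ^ 2) • z.1),
      ρ z.2 • (exp (-‖z.2‖ ^ 2 * t ^ 2) • z.2)⟫ ∂volume.prod volume =
      ⟪∫ x, ρ x • (exp (-‖x‖ ^ 2 * t ^ 2) • x), ∫ x, ρ x • (exp (-‖x‖ ^ 2 * t ^ 2) • x)⟫ :=
    integral_prod_bilin (innerSL ℝ) i2 i2
  have h2 := integral_mono (i3.add (i4.const_mul (2 * t ^ 2))) ((a2.mul_prod a2).mul_bdd
    (Continuous.aestronglyMeasurable (f := fun z : E3 × E3 => exp (-‖z.1 - z.2‖ ^ 2 * t ^ 2))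
      (by fun_prop)) (Eventually.of_forall fun z => b _)) fun z => by
    have e : exp (-‖z.1 - z.2‖ ^ 2 * t ^ 2) = exp (-‖z.1‖ ^ 2 * t ^ 2) * exp (-‖z.2‖ ^ 2 * t ^ 2) *
        exp (2 * t ^ 2 * ⟪z.1, z.2⟫) := by
      rw [← exp_add, ← exp_add, norm_sub_sq_real]; ring_nf
    simp only [Pi.add_apply, e, inner_smul_left, inner_smul_right, conj_trivial]
    nlinarith [mul_le_mul_of_nonneg_left (add_one_le_exp (2 * t ^ 2 * ⟪z.1, z.2⟫))
      (mul_nonneg (mul_nonneg (a1 z.1) (exp_pos (-‖z.1‖ ^ 2 * t ^ 2)).le)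
        (mul_nonneg (a1 z.2) (exp_pos (-‖z.2‖ ^ 2 * t ^ 2)).le))]
  simp only [Pi.add_apply] at h2
  rw [integral_add i3 (i4.const_mul _), integral_const_mul, h1,
    integral_prod_mul (fun x => ρ x * exp (-‖x‖ ^ 2 * t ^ 2))
      fun x => ρ x * exp (-‖x‖ ^ 2 * t ^ 2), ← sq] at h2
  exact (le_add_of_nonneg_right (mul_nonneg (by positivity) real_inner_self_nonneg)).trans h2

theorem Dlow' {m s B : ℝ} {ρ : E3 → ℝ} (a1 : ∀ x, 0 ≤ ρ x) (a2 : Integrable ρ)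
    (h3 : ∀ y, Integrable (fun x => ρ x / ‖y - x‖) ∧ ∫ x, ρ x / ‖y - x‖ ≤ B) (hs : 0 < s) :
    m * (∫ x, ρ x / √(‖x‖ ^ 2 + s ^ 2)) - m ^ 2 / (2 * √(2 * s ^ 2)) ≤ D ρ := by
  have m1 := a2.aemeasurable
  have m2 : AEMeasurable (fun z : E3 × E3 => ρ z.1 * ρ z.2) (volume.prod volume) :=
    m1.comp_fst.mul m1.comp_snd
  have m3 : AEStronglyMeasurable (fun z : E3 × E3 => ρ z.2 / ‖z.1 - z.2‖) (volume.prod volume) :=
    (m1.comp_snd.div (Measurable.aemeasurable (by fun_prop))).aestronglyMeasurable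
  have i1 : Integrable (fun z : E3 × E3 => ρ z.1 * ρ z.2 / ‖z.1 - z.2‖) (volume.prod volume) := by
    have n := fun x y => div_nonneg (a1 y) (norm_nonneg (x - y))
    refine (integrable_prod_iff
      (m2.div (Measurable.aemeasurable (by fun_prop))).aestronglyMeasurable).mpr ?_
    simp only [Pi.div_apply, mul_div_assoc, norm_of_nonneg (mul_nonneg (a1 _) (n _ _)),
      integral_const_mul]
    exact ⟨Eventually.of_forall fun x => (h3 x).1.const_mul _, a2.mul_bdd m3.integral_prod_right'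
      (Eventually.of_forall fun x => (norm_of_nonneg (integral_nonneg (n x))).trans_le (h3 x).2)⟩
  obtain ⟨g1, g2⟩ := gauss m2 (fun z => mul_nonneg (a1 _) (a1 _)) (k := fun z => ‖z.1 - z.2‖)
    (by fun_prop) ((Measure.ae_prod_iff_ae_ae (measurableSet_lt measurable_const
      (by fun_prop))).mpr (Eventually.of_forall fun x => (Measure.ae_ne volume x).mono
        fun y hy => norm_pos_iff.mpr (sub_ne_zero.mpr hy.symm))) i1
  obtain ⟨g3, g4⟩ := gauss m1 a1 (k := fun x => √(‖x‖ ^ 2 + s ^ 2)) (by fun_prop)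
    (Eventually.of_forall fun x => sqrt_pos.mpr (by positivity)) (by
      simp only [div_eq_mul_inv]
      refine a2.mul_bdd (c := s⁻¹) (Measurable.aestronglyMeasurable (by fun_prop))
        (Eventually.of_forall fun x => ?_)
      rw [norm_of_nonneg (by positivity)]
      exact inv_anti₀ hs (le_sqrt_of_sq_le (by nlinarith [norm_nonneg x])))
  have g5 := (integrable_exp_neg_mul_sq (b := 2 * s ^ 2) (by positivity)).integrableOn (s := Ioi 0)
  have h4 := setIntegral_mono_on ((g3.const_mul (2 * m)).sub (g5.const_mul (m ^ 2))) g1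
    measurableSet_Ioi fun t ht => le_trans (by
      have e : ∀ x : E3, ρ x * exp (-√(‖x‖ ^ 2 + s ^ 2) ^ 2 * t ^ 2) =
          exp (-s ^ 2 * t ^ 2) * (ρ x * exp (-‖x‖ ^ 2 * t ^ 2)) := fun x => by
        rw [sq_sqrt (by positivity), mul_left_comm, ← exp_add]; ring_nf
      have e' : exp (-(2 * s ^ 2) * t ^ 2) = exp (-s ^ 2 * t ^ 2) ^ 2 := by
        rw [sq (exp _), ← exp_add]; ring_nf
      simp only [Pi.sub_apply, e, e', integral_const_mul]
      nlinarith [sq_nonneg (m * exp (-s ^ 2 * t ^ 2) - ∫ x, ρ x * exp (-‖x‖ ^ 2 * t ^ 2))])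
      (psd a1 a2 ht)
  simp only [Pi.sub_apply] at h4
  rw [integral_sub (g3.const_mul _) (g5.const_mul _), integral_const_mul, integral_const_mul, g2,
    g4, integral_gaussian_Ioi, integral_prod _ i1, sqrt_div pi_pos.le] at h4
  refine le_of_mul_le_mul_left (le_of_eq_of_le ?_ (h4.trans_eq ?_)) (sqrt_pos.mpr pi_pos)
  · ring
  · rw [D]; ring

theorem Dlow {p m s : ℝ} {ρ : E3 → ℝ} {g : E3 → E3 →L[ℝ] ℝ} (h : Adm p ρ g) (hs : 0 < s) :
    m * (∫ x, ρ x / √(‖x‖ ^ 2 + s ^ 2)) - m ^ 2 / (2 * √(2 * s ^ 2)) ≤ D ρ := by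
  obtain ⟨K, -, h1⟩ := key
  obtain ⟨M, -, h2⟩ := h1 1 1 one_pos one_pos
  exact Dlow' h.1 h.2.1 (h2 p ρ g h).1 hs

end Pool.Agent.H41.TF
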