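import Pool.Agent.H41.TFDefs

namespace Pool.Agent.H41.TF

open MeasureTheory

/-- The Fermi–Amaldi TFW functional of an atom with nuclear charge `z` and `N` electrons;
`g = ∇ρ^{1/2}`. For `N = 1` the factor `1 - 1/N` removes the repulsion term. -/
noncomputable def energyFA (z N : ℕ) (ρ : E3 → ℝ) (g : E3 → E3 →L[ℝ] ℝ) : ℝ :=
  0.1859 * (∫ x, ‖g x‖ ^ 2) + 3 / 5 * (3 * Real.pi ^ 2) ^ (2 / 3 : ℝ) * (∫ x, ρ x ^ (5 / 3 : ℝ)) -
    (∫ x, z / ‖x‖ * ρ x) + (1 - 1 / (N : ℝ)) * D ρ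

/-- The ground-state energy `E(N)` for nuclear charge `z`. -/
noncomputable def EFA (z N : ℕ) : ℝ :=
  sInf {e | ∃ ρ g, Adm (5 / 3) ρ g ∧ ∫ x, ρ x = N ∧ e = energyFA z N ρ g}

end Pool.Agent.H41.TF
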