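import Pool.Agent.H41.FA2
import Pool.Agent.H41.FADefs

namespace Pool.Agent.H41.TF

open MeasureTheory Filter Real Set
open scoped Topology

theorem Jk {a : ℝ} (ha : 0 < a) (k : ℕ) : IntegrableOn (fun r : ℝ => 1 / (a + r) ^ (k + 2)) (Ioi 0) ∧
    ∫ r in Ioi (0 : ℝ), 1 / (a + r) ^ (k + 2) = 1 / ((k + 1) * a ^ (k + 1)) := by
  have h1 : ∀ r ∈ Ici (0 : ℝ), HasDerivAt (fun r => -(1 / (k + 1 : ℝ)) * ((a + r) ^ (k + 1))⁻¹)
      (1 / (a + r) ^ (k + 2)) r := fun r hr => by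
    have : 0 < a + r := add_pos_of_pos_of_nonneg ha hr
    refine (((((hasDerivAt_id' r).const_add a).fun_pow (k + 1)).fun_inv
      (by positivity)).const_mul _).congr_deriv ?_
    simp only [add_tsub_cancel_right]; push_cast; field_simp; ring
  have h2 : Tendsto (fun r => -(1 / (k + 1 : ℝ)) * ((a + r) ^ (k + 1))⁻¹) atTop (𝓝 0) := by
    simpa using (((tendsto_pow_atTop (Nat.succ_ne_zero k)).comp
      (tendsto_atTop_add_const_left _ a tendsto_id)).inv_tendsto_atTop).const_mul (-(1 / (k + 1 : ℝ)))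
  have h3 : ∀ r ∈ Ioi (0 : ℝ), 0 ≤ 1 / (a + r) ^ (k + 2) := fun r hr => by
    have : 0 < a + r := add_pos ha hr
    positivity
  exact ⟨integrableOn_Ioi_deriv_of_nonneg' h1 h3 h2, by
    rw [integral_Ioi_of_hasDerivAt_of_nonneg' h1 h3 h2]; field_simp; ring⟩

theorem radial {f F : ℝ → ℝ} (hF : IntegrableOn F (Ioi 0)) (e : ∀ r, 0 < r → r ^ 2 * f r = F r) :
    Integrable (fun x : E3 => f ‖x‖) ∧ ∫ x : E3, f ‖x‖ = 4 * π * ∫ r in Ioi 0, F r := by
  have e' : EqOn (fun r : ℝ => r ^ (Module.finrank ℝ E3 - 1) • f r) F (Ioi 0) := fun r hr => by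
    simpa using e r hr
  refine ⟨(integrable_fun_norm_addHaar volume).mpr (hF.congr_fun e'.symm measurableSet_Ioi), ?_⟩
  rw [integral_fun_norm_addHaar, setIntegral_congr_fun measurableSet_Ioi e', Measure.real,
    EuclideanSpace.volume_ball_fin_three]
  simp [ENNReal.toReal_ofReal (by positivity : 0 ≤ π * 4 / 3)]
  ring

theorem rad2 {a : ℝ} (ha : 0 < a) (k : ℕ) : Integrable (fun x : E3 => 1 / (a + ‖x‖) ^ (k + 4)) ∧
    ∫ x : E3, 1 / (a + ‖x‖) ^ (k + 4) = 8 * π / ((k + 1) * (k + 2) * (k + 3) * a ^ (k + 1)) := by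
  obtain ⟨h1, h2⟩ := radial (f := fun r => 1 / (a + r) ^ (k + 4))
    ((((Jk ha k).1.sub ((Jk ha (k + 1)).1.const_mul (2 * a))).add
      ((Jk ha (k + 2)).1.const_mul (a ^ 2)))) fun r hr => by
      simp only [Pi.add_apply, Pi.sub_apply]; field_simp; ring
  refine ⟨h1, h2.trans ?_⟩
  rw [integral_add' ((Jk ha k).1.sub ((Jk ha (k + 1)).1.const_mul _))
    ((Jk ha (k + 2)).1.const_mul _), integral_sub' (Jk ha k).1 ((Jk ha (k + 1)).1.const_mul _),
    integral_const_mul, integral_const_mul, (Jk ha _).2, (Jk ha _).2, (Jk ha _).2]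
  push_cast; field_simp; ring

theorem rad1 {a : ℝ} (ha : 0 < a) (k : ℕ) :
    ∫ x : E3, 1 / ‖x‖ * (1 / (a + ‖x‖) ^ (k + 3)) = 4 * π / ((k + 1) * (k + 2) * a ^ (k + 1)) := by
  rw [(radial (f := fun r => 1 / r * (1 / (a + r) ^ (k + 3)))
    ((Jk ha k).1.sub ((Jk ha (k + 1)).1.const_mul a)) fun r hr => by
      simp only [Pi.sub_apply]; field_simp; ring).2,
    integral_sub' (Jk ha k).1 ((Jk ha (k + 1)).1.const_mul _), integral_const_mul, (Jk ha _).2,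
    (Jk ha _).2]
  push_cast; field_simp; ring

theorem lip_weak {ψ : E3 → ℝ} {L : NNReal} (h : LipschitzWith L ψ)
    (d : ∀ᵐ x, DifferentiableAt ℝ ψ x) (h2 : MemLp (fderiv ℝ ψ) 2) : WeakDeriv ψ (fderiv ℝ ψ) := by
  intro φ a1 a2 v
  obtain ⟨D, hD⟩ := ContDiff.lipschitzWith_of_hasCompactSupport a2 a1 (by simp)
  have h3 := h.integral_lineDeriv_mul_eq (μ := volume) hD a2 v
  have c1 := h.continuous
  have c5 := a1.continuous_fderiv (by simp)
  rw [integral_congr_ae (g := fun x => fderiv ℝ ψ x v * φ x)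
    (d.mono fun x hx => by simp only [hx.lineDeriv_eq_fderiv])] at h3
  simp only [(a1.differentiable (by simp)).differentiableAt.lineDeriv_eq_fderiv, map_neg, mul_neg,
    integral_neg, mul_comm _ (ψ _)] at h3
  rw [integral_add (f := fun x => ψ x * fderiv ℝ φ x v) (Continuous.integrable_of_hasCompactSupport
    (by fun_prop) (a2.fderiv_apply ℝ v).mul_left), h3, add_neg_cancel]
  simpa [mul_comm] using ((h2.locallyIntegrable one_le_two).integrable_smul_left_of_hasCompactSupport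
    a1.continuous a2).apply_continuousLinearMap v

theorem cert {r : ℝ} (hr : 0 < r) : 1 / r - 0.1859 * (2 * (3 / 2) / (r * (0.5577 + r)) -
    3 / 2 * (3 / 2 + 1) / (0.5577 + r) ^ 2) - 0.8 / √(r ^ 2 + 3 ^ 2) - 0.008 ≤
    9.57 * (0.46 / (0.72 + r)) ^ 2 := by
  have h1 : 1.6 * (r + 2) / (2 * r ^ 2 + 4 * r + 13) ≤ 0.8 / √(r ^ 2 + 3 ^ 2) := by
    rw [div_le_div_iff₀ (by positivity) (by positivity)]
    have := Real.sq_sqrt (by positivity : 0 ≤ r ^ 2 + 3 ^ 2)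
    generalize √(r ^ 2 + 3 ^ 2) = s at this
    nlinarith [sq_nonneg (s - (r + 2))]
  refine le_trans (b := 1 / (0.5577 + r) + 0.697125 / (0.5577 + r) ^ 2 -
    1.6 * (r + 2) / (2 * r ^ 2 + 4 * r + 13) - 0.008) (sub_le_sub_right (sub_le_sub
      (le_of_eq (by field_simp; ring)) h1) _) ?_
  rw [← sub_nonneg]
  have e : 9.57 * (0.46 / (0.72 + r)) ^ 2 - (1 / (0.5577 + r) + 0.697125 / (0.5577 + r) ^ 2 -
      1.6 * (r + 2) / (2 * r ^ 2 + 4 * r + 13) - 0.008) = (2.025012 * (0.5577 + r) ^ 2 *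
      (2 * r ^ 2 + 4 * r + 13) + (0.008 * (0.5577 + r) ^ 2 - (0.5577 + r) - 0.697125) *
      (0.72 + r) ^ 2 * (2 * r ^ 2 + 4 * r + 13) + 1.6 * (r + 2) * (0.5577 + r) ^ 2 * (0.72 + r) ^ 2) /
      ((0.5577 + r) ^ 2 * (0.72 + r) ^ 2 * (2 * r ^ 2 + 4 * r + 13)) := by field_simp; ring
  rw [e]
  refine div_nonneg ?_ (by positivity)
  have a := sq_nonneg (r - 1.375)
  have b := sq_nonneg (r - 9.2)
  have c := mul_nonneg a b
  have r2 := pow_pos hr 2
  nlinarith [mul_nonneg hr.le a, mul_nonneg hr.le b, mul_nonneg hr.le c, mul_nonneg r2.le a,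
    mul_nonneg r2.le b, mul_nonneg r2.le c]

theorem gam : (9.57 : ℝ) ≤ (3 * π ^ 2) ^ (2 / 3 : ℝ) := by
  rw [show (2 / 3 : ℝ) = (3 / 2)⁻¹ by norm_num, le_rpow_inv_iff_of_pos (by norm_num) (by positivity)
    (by norm_num), show (3 / 2 : ℝ) = 1 + 1 / 2 by norm_num, rpow_add (by norm_num), rpow_one,
    ← sqrt_eq_rpow]
  have : √9.57 ≤ 3.0936 := sqrt_le_iff.mpr ⟨by norm_num, by norm_num⟩
  nlinarith [pi_gt_d4]

theorem ints {ρ : E3 → ℝ} {g : E3 → E3 →L[ℝ] ℝ} (h : Adm (5 / 3) ρ g) :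
    Integrable (fun x => ρ x / ‖x‖) ∧ Integrable fun x => ρ x * (2 * (3 / 2) /
      (‖x‖ * (0.5577 + ‖x‖)) - 3 / 2 * (3 / 2 + 1) / (0.5577 + ‖x‖) ^ 2) := by
  obtain ⟨K, -, h1⟩ := key
  obtain ⟨M, -, h2⟩ := h1 1 1 one_pos one_pos
  have i1 : Integrable fun x => ρ x / ‖x‖ := by simpa using ((h2 _ ρ g h).1 0).1
  have a2 := h.2.1
  have i5 : Integrable fun x => ρ x * (2 * (3 / 2) / (‖x‖ * (0.5577 + ‖x‖)) -
      3 / 2 * (3 / 2 + 1) / (0.5577 + ‖x‖) ^ 2) := by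
    have j : ∀ n : ℕ, ∀ x : E3, ‖1 / (0.5577 + ‖x‖) ^ n‖ ≤ 1 / 0.5577 ^ n := fun n x => by
      rw [norm_of_nonneg (by positivity)]; gcongr; exact le_add_of_nonneg_right (norm_nonneg _)
    refine (((i1.mul_bdd (Measurable.aestronglyMeasurable (by fun_prop)) (Eventually.of_forall
      (j 1))).const_mul 3).sub ((a2.mul_bdd (Measurable.aestronglyMeasurable (by fun_prop))
        (Eventually.of_forall (j 2))).const_mul (15 / 4))).congr (Eventually.of_forall fun x => ?_)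
    simp only [Pi.sub_apply, div_eq_mul_inv, mul_inv]
    ring
  exact ⟨i1, i5⟩

theorem lowFA {ρ : E3 → ℝ} {g : E3 → E3 →L[ℝ] ℝ} (h : Adm (5 / 3) ρ g) (hm : ∫ x, ρ x = 2) :
    -0.327 ≤ energyFA 1 2 ρ g := by
  obtain ⟨i1, i5⟩ := ints h
  have b1 := hardy h (a := 0.5577) (k := 3 / 2) (by norm_num) (by norm_num) i1
  have b2 := Dlow h (m := 1.6) (s := 3) (by norm_num)
  obtain ⟨i2, b3⟩ := rad2 (a := 0.72) (by norm_num) 1
  obtain ⟨a1, a2, a3, -⟩ := h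
  have i3 : Integrable fun x => ρ x ^ (5 / 3 : ℝ) := by
    have := a3.integrable_norm_rpow (by simp) (by simp)
    simpa only [norm_of_nonneg (a1 _), ENNReal.toReal_ofReal (by norm_num : (0 : ℝ) ≤ 5 / 3)]
      using this
  have i4 : Integrable fun x => ρ x / √(‖x‖ ^ 2 + 3 ^ 2) := by
    simp only [div_eq_mul_inv]
    refine a2.mul_bdd (c := 3⁻¹) (Measurable.aestronglyMeasurable (by fun_prop))
      (Eventually.of_forall fun x => ?_)
    rw [norm_of_nonneg (by positivity)]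
    exact inv_anti₀ (by norm_num) (le_sqrt_of_sq_le (by nlinarith [norm_nonneg x]))
  have b4 := integral_mono_ae (((i1.sub (i5.const_mul 0.1859)).sub (i4.const_mul 0.8)).sub
    (a2.const_mul 0.008)) ((i3.const_mul (3 / 5 * 9.57)).add (i2.const_mul
      (2 / 5 * 9.57 * 0.46 ^ 5))) ((Measure.ae_ne volume 0).mono fun x hx => by
    have h3 := mul_le_mul_of_nonneg_left (cert (norm_pos_iff.mpr hx)) (a1 x)
    obtain ⟨u, hu⟩ : ∃ u, u = ρ x ^ (1 / 3 : ℝ) := ⟨_, rfl⟩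
    obtain ⟨w, hw⟩ : ∃ w, w = 0.46 / (0.72 + ‖x‖) := ⟨_, rfl⟩
    have u0 : 0 ≤ u := hu ▸ rpow_nonneg (a1 x) _
    have w0 : 0 ≤ w := by rw [hw]; positivity
    have e1 : ρ x = u ^ 3 := by rw [hu, ← rpow_natCast, ← rpow_mul (a1 x)]; norm_num
    have e2 : ρ x ^ (5 / 3 : ℝ) = u ^ 5 := by rw [hu, ← rpow_natCast, ← rpow_mul (a1 x)]; norm_num
    have e3 : 0.46 ^ 5 * (1 / (0.72 + ‖x‖) ^ (1 + 4)) = w ^ 5 := by rw [hw, div_pow]; ring
    have e4 : u ^ 3 * w ^ 2 ≤ 3 / 5 * u ^ 5 + 2 / 5 * w ^ 5 := by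
      nlinarith [mul_nonneg (sq_nonneg (u - w)) (by positivity :
        0 ≤ 3 * u ^ 3 + 6 * u ^ 2 * w + 4 * u * w ^ 2 + 2 * w ^ 3)]
    simp only [Pi.sub_apply, Pi.add_apply, mul_assoc _ (0.46 ^ 5 : ℝ), e2, e3]
    rw [← hw] at h3
    rw [← e1] at e4
    refine le_trans (le_of_eq ?_) (h3.trans ?_)
    · ring
    · linarith)
  rw [integral_sub' ((i1.sub (i5.const_mul _)).sub (i4.const_mul _)) (a2.const_mul _),
    integral_sub' (i1.sub (i5.const_mul _)) (i4.const_mul _), integral_sub' i1 (i5.const_mul _),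
    integral_add' (i3.const_mul _) (i2.const_mul _)] at b4
  simp only [integral_const_mul, b3, hm] at b4
  have b5 := mul_le_mul_of_nonneg_right gam (integral_nonneg (μ := volume)
    (f := fun x => ρ x ^ (5 / 3 : ℝ)) fun x => rpow_nonneg (a1 x) _)
  have b6 : 1.6 ^ 2 / (2 * √(2 * 3 ^ 2)) ≤ 1.6 ^ 2 / (2 * 4.2426) := by
    gcongr; exact le_sqrt_of_sq_le (by norm_num)
  have e : ∫ x, (1 : ℕ) / ‖x‖ * ρ x = ∫ x, ρ x / ‖x‖ := by
    simp only [Nat.cast_one, one_div, inv_mul_eq_div]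
  rw [energyFA, e]
  norm_num at b1 b2 b4 b5 b6 ⊢
  linarith [pi_lt_d4]

end Pool.Agent.H41.TF
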