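import Pool.Agent.H41.FA3

namespace Pool.Agent.H41.TF

open MeasureTheory Filter Real Set

theorem upFA : ∃ ρ g, Adm (5 / 3) ρ g ∧ ∫ x, ρ x = (1 : ℕ) ∧ energyFA 1 1 ρ g ≤ -0.33 := by
  obtain ⟨N, hN⟩ : ∃ N : ℝ, N = 15 * (9 / 4) ^ 3 / (2 * π) := ⟨_, rfl⟩
  have N0 : 0 < N := by rw [hN]; positivity
  obtain ⟨ψ, hψ⟩ : ∃ ψ : E3 → ℝ, ∀ x, ψ x = √N * (9 / 4 + ‖x‖)⁻¹ ^ 3 := ⟨_, fun _ => rfl⟩
  have a0 : (0 : ℝ) < 9 / 4 := by norm_num
  have n0 : ∀ x : E3, 0 < 9 / 4 + ‖x‖ := fun x => by positivity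
  have lip : LipschitzWith (√N).toNNReal ψ := LipschitzWith.of_dist_le' fun x y => by
    rw [hψ, hψ, Real.dist_eq, ← mul_sub, abs_mul, abs_of_nonneg (sqrt_nonneg _)]
    refine mul_le_mul_of_nonneg_left ((abs_pow_sub_pow_le _ _ _).trans ?_) (sqrt_nonneg _)
    have b : ∀ x : E3, |(9 / 4 + ‖x‖)⁻¹| ≤ 1 / 2 := fun x => by
      rw [abs_of_pos (by positivity), one_div]
      exact inv_anti₀ two_pos (by linarith [norm_nonneg x])
    have e : |(9 / 4 + ‖x‖)⁻¹ - (9 / 4 + ‖y‖)⁻¹| ≤ dist x y := by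
      rw [inv_sub_inv (n0 x).ne' (n0 y).ne', add_sub_add_left_eq_sub, abs_div, dist_comm]
      refine (div_le_self (abs_nonneg _) ?_).trans (abs_norm_sub_norm_le _ _ |>.trans_eq
        (dist_eq_norm _ _).symm)
      rw [abs_of_pos (by positivity)]
      nlinarith [norm_nonneg x, norm_nonneg y]
    have e2 := pow_le_pow_left₀ (le_max_of_le_left (abs_nonneg _)) (max_le (b x) (b y)) 2
    norm_num at e2 ⊢
    nlinarith [abs_nonneg ((9 / 4 + ‖x‖)⁻¹ - (9 / 4 + ‖y‖)⁻¹)]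
  have d : ∀ᵐ x, DifferentiableAt ℝ ψ x ∧
      ‖fderiv ℝ ψ x‖ ^ 2 = 9 * N * (1 / (9 / 4 + ‖x‖) ^ (4 + 4)) :=
    (Measure.ae_ne volume 0).mono fun x hx => by
      have h1 : DifferentiableAt ℝ (fun y : E3 => ‖y‖) x := differentiableAt_id.norm ℝ hx
      have h2 := (((((hasDerivAt_id' ‖x‖).const_add (9 / 4)).fun_inv (n0 x).ne').fun_pow 3).const_mul
        √N).comp_hasFDerivAt x h1.hasFDerivAt
      rw [funext hψ]
      refine ⟨h2.differentiableAt, ?_⟩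
      rw [HasFDerivAt.fderiv (f := fun x => √N * (9 / 4 + ‖x‖)⁻¹ ^ 3) h2, norm_smul, norm_fderiv_norm h1, mul_one, Real.norm_eq_abs, sq_abs,
        mul_pow, sq_sqrt N0.le]
      have := n0 x
      norm_num; field_simp; ring
  have m2 : MemLp (fderiv ℝ ψ) 2 := (memLp_two_iff_integrable_sq_norm
    (measurable_fderiv ℝ ψ).aestronglyMeasurable).mpr (((rad2 a0 4).1.const_mul _).congr
      (d.mono fun x hx => hx.2.symm))
  obtain ⟨ρ, hρ⟩ : ∃ ρ : E3 → ℝ, ∀ x, ρ x = N * (1 / (9 / 4 + ‖x‖) ^ (2 + 4)) := ⟨_, fun _ => rfl⟩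
  have r0 : ∀ x, 0 ≤ ρ x := fun x => by rw [hρ]; positivity
  have e1 : (fun x => √(ρ x)) = ψ := funext fun x => by
    rw [hρ, hψ, sqrt_mul N0.le, show 1 / (9 / 4 + ‖x‖) ^ (2 + 4) = ((9 / 4 + ‖x‖)⁻¹ ^ 3) ^ 2 by
      rw [← pow_mul, inv_pow, one_div], sqrt_sq (by positivity)]
  have e2 : ∀ x, ρ x ^ (5 / 3 : ℝ) = N ^ (5 / 3 : ℝ) * (1 / (9 / 4 + ‖x‖) ^ (6 + 4)) := fun x => by
    rw [hρ, mul_rpow N0.le (by positivity), div_rpow zero_le_one (by positivity), one_rpow,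
      ← rpow_natCast, ← rpow_mul (n0 x).le, ← rpow_natCast]
    norm_num
  have i1 : Integrable ρ := funext hρ ▸ (rad2 a0 2).1.const_mul N
  refine ⟨ρ, fderiv ℝ ψ, ⟨r0, i1, ?_, m2, by
    rw [e1]; exact lip_weak lip (d.mono fun x hx => hx.1) m2⟩, ?_, ?_⟩
  · rw [← integrable_norm_rpow_iff i1.1 (by simp) (by simp)]
    simp only [norm_of_nonneg (r0 _), ENNReal.toReal_ofReal (by norm_num : (0 : ℝ) ≤ 5 / 3), e2]
    exact (rad2 a0 6).1.const_mul _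
  · simp only [hρ, integral_const_mul, (rad2 a0 2).2, hN]
    field_simp; norm_num
  · have e3 : (3 * π ^ 2) ^ (2 / 3 : ℝ) * N ^ (5 / 3 : ℝ) ≤ 17.1 * (9 / 4) ^ 2 * N := by
      rw [show (5 / 3 : ℝ) = 2 / 3 + 1 by norm_num, rpow_add N0, rpow_one, ← mul_assoc,
        ← mul_rpow (by positivity) N0.le]
      refine mul_le_mul_of_nonneg_right ?_ N0.le
      rw [show (2 / 3 : ℝ) = (3 / 2)⁻¹ by norm_num, rpow_inv_le_iff_of_pos (by positivity)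
        (by norm_num) (by norm_num), show (3 / 2 : ℝ) = 1 + 1 / 2 by norm_num,
        rpow_add (by norm_num), rpow_one, ← sqrt_eq_rpow, hN]
      have : 9.304 ≤ √(17.1 * (9 / 4) ^ 2) := le_sqrt_of_sq_le (by norm_num)
      rw [show 3 * π ^ 2 * (15 * (9 / 4) ^ 3 / (2 * π)) = 45 / 2 * (9 / 4) ^ 3 * π by
        field_simp; norm_num]
      linarith [pi_lt_d4]
    have e4 : ∀ x : E3, (1 : ℕ) / ‖x‖ * ρ x = N * (1 / ‖x‖ * (1 / (9 / 4 + ‖x‖) ^ (3 + 3))) :=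
      fun x => by rw [hρ, Nat.cast_one]; ring
    have e5 : N * π = 15 * (9 / 4) ^ 3 / 2 := by rw [hN]; field_simp
    simp only [energyFA, e2, e4, integral_congr_ae (d.mono fun x hx => hx.2), integral_const_mul,
      (rad2 a0 _).2, rad1 a0]
    have e6 := mul_le_mul_of_nonneg_right e3 pi_pos.le
    norm_num at e6 ⊢
    nlinarith

theorem FA : EFA 1 1 < EFA 1 2 := by
  obtain ⟨ρ, g, a1, a2, a3⟩ := upFA
  obtain ⟨ρ', g', b1, -, b2⟩ := mass (5 / 3) zero_le_two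
  have h1 : -0.327 ≤ EFA 1 2 := le_csInf ⟨_, ρ', g', b1, by simpa using b2, rfl⟩ <| by
    rintro _ ⟨ρ, g, c1, c2, rfl⟩
    exact lowFA c1 (by simpa using c2)
  have h2 : EFA 1 1 ≤ energyFA 1 1 ρ g := csInf_le ⟨-5, by
    rintro _ ⟨ρ, g, c1, c2, rfl⟩
    obtain ⟨i1, i5⟩ := ints c1
    have b1 := hardy c1 (a := 0.5577) (k := 3 / 2) (by norm_num) (by norm_num) i1
    have b4 := integral_mono_ae (i1.sub (i5.const_mul 0.1859)) (c1.2.1.const_mul 5)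
      ((Measure.ae_ne volume 0).mono fun x hx => by
        have h3 := cert (norm_pos_iff.mpr hx)
        have h4 : 0.8 / √(‖x‖ ^ 2 + 3 ^ 2) ≤ 0.8 / 3 := by
          gcongr; exact le_sqrt_of_sq_le (by nlinarith [norm_nonneg x])
        have h5 : (0.46 / (0.72 + ‖x‖)) ^ 2 ≤ (0.46 / 0.72) ^ 2 := by
          gcongr; exact le_add_of_nonneg_right (norm_nonneg _)
        simp only [Pi.sub_apply]
        refine le_trans (le_of_eq ?_) ((mul_le_mul_of_nonneg_left h3 (c1.1 x) |>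
          fun h => add_le_add_left h (ρ x * (0.8 / √(‖x‖ ^ 2 + 3 ^ 2) + 0.008))).trans ?_)
        · ring
        · norm_num at h4 h5 ⊢
          nlinarith [c1.1 x])
    rw [integral_sub' i1 (i5.const_mul _), integral_const_mul, integral_const_mul, c2] at b4
    have e : ∫ x, (1 : ℕ) / ‖x‖ * ρ x = ∫ x, ρ x / ‖x‖ := by
      simp only [Nat.cast_one, one_div, inv_mul_eq_div]
    have b5 : 0 ≤ 3 / 5 * (3 * π ^ 2) ^ (2 / 3 : ℝ) * ∫ x, ρ x ^ (5 / 3 : ℝ) :=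
      mul_nonneg (by positivity) (integral_nonneg fun x => rpow_nonneg (c1.1 x) _)
    rw [energyFA, e]
    norm_num at b1 b4 b5 ⊢
    linarith⟩ ⟨ρ, g, a1, a2, rfl⟩
  linarith

end Pool.Agent.H41.TF
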