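import Pool.Agent.H41.FarDefs

namespace Pool.Agent.H41.Far

open Set

theorem card_le_add {v : ℕ} (G H : SimpleGraph (Fin v)) :
    G.edgeSet.ncard ≤ H.edgeSet.ncard + gdist G H := by
  unfold gdist
  calc G.edgeSet.ncard ≤ (H.edgeSet ∪ symmDiff G.edgeSet H.edgeSet).ncard := by
        apply Set.ncard_le_ncard _ (Set.toFinite _)
        intro e he
        by_cases h : e ∈ H.edgeSet
        · exact Or.inl h
        · exact Or.inr (Or.inl ⟨he, h⟩)
    _ ≤ _ := Set.ncard_union_le _ _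

theorem gdist_comm {v : ℕ} (G H : SimpleGraph (Fin v)) : gdist G H = gdist H G := by
  unfold gdist; rw [symmDiff_comm]

theorem top_card (v : ℕ) : (⊤ : SimpleGraph (Fin v)).edgeSet.ncard = v.choose 2 := by
  classical
  have := SimpleGraph.card_edgeFinset_top_eq_card_choose_two (V := Fin v)
  rw [Fintype.card_fin] at this
  rw [← this, Set.ncard_eq_toFinset_card']
  rfl

theorem edge_from {v : ℕ} (S : Set (Sym2 (Fin v))) (hS : S ⊆ (⊤ : SimpleGraph (Fin v)).edgeSet) :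
    (SimpleGraph.fromEdgeSet S).edgeSet = S := by
  rw [SimpleGraph.edgeSet_fromEdgeSet]
  ext e
  constructor
  · exact fun h => h.1
  · intro h
    refine ⟨h, ?_⟩
    have := hS h
    exact (SimpleGraph.not_isDiag_of_mem_edgeSet _ this)

theorem exists_near {v : ℕ} (G : SimpleGraph (Fin v)) (a : ℕ) (ha : a ≤ v.choose 2) :
    ∃ H : SimpleGraph (Fin v), H.edgeSet.ncard = a ∧
      gdist G H = (G.edgeSet.ncard - a) + (a - G.edgeSet.ncard) := by
  have hGT : G.edgeSet ⊆ (⊤ : SimpleGraph (Fin v)).edgeSet := SimpleGraph.edgeSet_mono le_top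
  rcases le_total a G.edgeSet.ncard with h | h
  · obtain ⟨S, hS, hc⟩ := Set.exists_subset_card_eq h
    refine ⟨SimpleGraph.fromEdgeSet S, ?_, ?_⟩
    · rw [edge_from S (hS.trans hGT), hc]
    · unfold gdist
      rw [edge_from S (hS.trans hGT), symmDiff_of_ge hS, Set.ncard_sdiff hS, hc]
      omega
  · obtain ⟨S, hS, hST, hc⟩ := Set.exists_subsuperset_card_eq hGT h (by rw [top_card]; exact ha)
    refine ⟨SimpleGraph.fromEdgeSet S, ?_, ?_⟩
    · rw [edge_from S hST, hc]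
    · unfold gdist
      rw [edge_from S hST, symmDiff_of_le hS, Set.ncard_sdiff hS, hc]
      omega

/-- half gap length plus one -/
noncomputable def dd (N j : ℕ) : ℕ := ⌈(1 / 2 ^ (j + 2) : ℝ) * (N : ℝ)⌉₊

noncomputable def ss (N k : ℕ) : ℕ := ∑ j ∈ Finset.range k, (2 * dd N j - 2)

theorem ss_succ (N k : ℕ) : ss N (k + 1) = ss N k + (2 * dd N k - 2) := by
  unfold ss; rw [Finset.sum_range_succ]

theorem ss_mono (N : ℕ) : Monotone (ss N) := by
  apply monotone_nat_of_le_succ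
  intro k; rw [ss_succ]; omega

theorem ss_le_real (N k : ℕ) : (ss N k : ℝ) ≤ N - N / 2 ^ k := by
  induction k with
  | zero => simp [ss]
  | succ k ih =>
    rw [ss_succ]
    have hx : (0 : ℝ) ≤ (1 / 2 ^ (k + 2) : ℝ) * (N : ℝ) := by positivity
    have h1 : ((2 * dd N k - 2 : ℕ) : ℝ) ≤ 2 * ((1 / 2 ^ (k + 2) : ℝ) * (N : ℝ)) := by
      have h2 := Nat.ceil_lt_add_one hx
      rcases Nat.eq_zero_or_pos (dd N k) with h0 | h0
      · rw [h0]; simp
      · have : ((2 * dd N k - 2 : ℕ) : ℝ) = 2 * (dd N k : ℝ) - 2 := by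
          rw [Nat.cast_sub (by omega)]; push_cast; ring
        rw [this]; unfold dd; linarith
    have h3 : (2 : ℝ) * ((1 / 2 ^ (k + 2) : ℝ) * (N : ℝ)) = N / 2 ^ k - N / 2 ^ (k + 1) := by
      field_simp; ring
    push_cast at *
    linarith

theorem ss_le (N k : ℕ) : ss N k ≤ N := by
  have h := ss_le_real N k
  have : (0 : ℝ) ≤ N / 2 ^ k := by positivity
  exact_mod_cast (show (ss N k : ℝ) ≤ N by linarith)

/-- The property: the number of edges is one of the partial sums. -/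
def PP (v : ℕ) : Set (SimpleGraph (Fin v)) := {G | ∃ k, G.edgeSet.ncard = ss (v.choose 2) k}

theorem PP_prop : IsProperty PP := by
  rintro v G H ⟨f⟩ ⟨k, hk⟩
  refine ⟨k, ?_⟩
  rw [← hk]
  have := Set.ncard_congr' (f.mapEdgeSet)
  exact this.symm

theorem strong (k : ℕ) (α : ℝ) (hα : α < 1) : ∃ v₀ : ℕ, ∀ v, v₀ ≤ v →
    ∃ G ∈ FarFrom ((1 / 2 ^ (k + 2) : ℝ) * (v.choose 2 : ℝ))
        (FarFrom ((1 / 2 ^ (k + 2) : ℝ) * (v.choose 2 : ℝ)) (PP v)),
      ∀ H ∈ PP v, α * ((1 / 2 ^ (k + 2) : ℝ) * (v.choose 2 : ℝ)) < (gdist G H : ℝ) := by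
  obtain ⟨M, hM⟩ := exists_nat_gt ((2 : ℝ) ^ (k + 2) / (1 - α) + 2 ^ (k + 2))
  refine ⟨M + 3, fun v hv => ?_⟩
  have hN : M ≤ v.choose 2 := by
    rw [Nat.choose_two_right]
    have : 2 * M ≤ v * (v - 1) := by
      calc 2 * M ≤ (v - 1) * v := Nat.mul_le_mul (by omega) (by omega)
        _ = _ := by ring
    omega
  obtain ⟨N, hNdef⟩ : ∃ N, N = v.choose 2 := ⟨_, rfl⟩
  rw [← hNdef] at hN ⊢
  obtain ⟨δ, hδ⟩ : ∃ δ : ℝ, δ = (1 / 2 ^ (k + 2) : ℝ) * (N : ℝ) := ⟨_, rfl⟩
  have hd : dd N k = ⌈δ⌉₊ := by rw [hδ]; rfl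
  rw [← hδ]
  have h2 : (0 : ℝ) < 2 ^ (k + 2) := by positivity
  have h1a : 0 < 1 - α := by linarith
  have hNr : (2 : ℝ) ^ (k + 2) / (1 - α) + 2 ^ (k + 2) < N := lt_of_lt_of_le hM (by exact_mod_cast hN)
  have hq : (0 : ℝ) < 2 ^ (k + 2) / (1 - α) := by positivity
  have hδN : δ * 2 ^ (k + 2) = N := by rw [hδ]; field_simp
  have hδ1 : 1 < δ := by
    by_contra hc
    push Not at hc
    nlinarith
  have hδ2 : 1 < δ * (1 - α) := by
    have : (2 : ℝ) ^ (k + 2) / (1 - α) < δ * 2 ^ (k + 2) := by linarith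
    rw [div_lt_iff₀ h1a] at this
    nlinarith
  have hdge : δ ≤ (dd N k : ℝ) := by rw [hd]; exact Nat.le_ceil _
  have hdlt : (dd N k : ℝ) < δ + 1 := by rw [hd]; exact Nat.ceil_lt_add_one (by linarith)
  have hd1 : 1 ≤ dd N k := by
    have : (1 : ℝ) ≤ dd N k := by linarith
    exact_mod_cast this
  have hs1 := ss_le N (k + 1)
  have hs := ss_succ N k
  obtain ⟨G, hG, -⟩ := exists_near (⊥ : SimpleGraph (Fin v)) (ss N k + (dd N k - 1))
    (by rw [← hNdef]; omega)
  have hsmall : ∀ n : ℕ, n ≤ dd N k - 1 → (n : ℝ) < δ := by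
    intro n hn
    have : n + 1 ≤ dd N k := by omega
    have : (n : ℝ) + 1 ≤ dd N k := by exact_mod_cast this
    linarith
  refine ⟨G, ?_, ?_⟩
  · intro H hH
    by_contra hc
    push Not at hc
    have hlt : gdist G H < dd N k := by
      have : (gdist G H : ℝ) < dd N k := by linarith
      exact_mod_cast this
    have a1 := card_le_add G H
    have a2 := card_le_add H G
    rw [gdist_comm H G] at a2
    rcases le_total H.edgeSet.ncard (ss N k + (dd N k - 1)) with h | h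
    · obtain ⟨H', hH', hd'⟩ := exists_near H (ss N k) (by rw [← hNdef]; exact ss_le _ _)
      have := hH H' ⟨k, by rw [← hNdef]; exact hH'⟩
      have := hsmall (gdist H H') (by omega)
      linarith
    · obtain ⟨H', hH', hd'⟩ := exists_near H (ss N (k + 1)) (by rw [← hNdef]; exact ss_le _ _)
      have := hH H' ⟨k + 1, by rw [← hNdef]; exact hH'⟩
      have := hsmall (gdist H H') (by omega)
      linarith
  · rintro H ⟨j, hj⟩
    rw [← hNdef] at hj
    have a1 := card_le_add G H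
    have a2 := card_le_add H G
    rw [gdist_comm H G] at a2
    have hge : dd N k ≤ gdist G H + 1 := by
      rcases le_or_gt j k with h | h
      · have := ss_mono N h; omega
      · have := ss_mono N (show k + 1 ≤ j from h); omega
    have : (dd N k : ℝ) ≤ gdist G H + 1 := by exact_mod_cast hge
    nlinarith

theorem not_reduces : ¬ Reduces PP := by
  rintro ⟨ε₀, h0, h⟩
  obtain ⟨k, hk⟩ := exists_pow_lt_of_lt_one h0 (show (1 / 2 : ℝ) < 1 by norm_num)
  have hle : (1 / 2 ^ (k + 2) : ℝ) ≤ ε₀ := by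
    have : (1 / 2 ^ (k + 2) : ℝ) ≤ (1 / 2) ^ k := by
      rw [one_div_pow]
      apply one_div_le_one_div_of_le (by positivity)
      exact pow_le_pow_right₀ (by norm_num) (by omega)
    linarith
  obtain ⟨α, hα, v₀, hv⟩ := h _ (by positivity) hle
  obtain ⟨v₁, hv1⟩ := strong k α hα
  obtain ⟨G, hG, hfar⟩ := hv1 (max v₀ v₁) (le_max_right _ _)
  obtain ⟨H, hH, hle⟩ := hv (max v₀ v₁) (le_max_left _ _) G hG
  have := hfar H hH
  linarith

end Pool.Agent.H41.Far
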