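import Mathlib

/-! Far-from-far graphs in the dense model (definitions). -/

namespace Pool.Agent.H41.Far

/-- `Δ(G,H)`: size of the symmetric difference of the edge sets. -/
noncomputable def gdist {v : ℕ} (G H : SimpleGraph (Fin v)) : ℕ :=
  (symmDiff G.edgeSet H.edgeSet).ncard

/-- `F_δ(S)`: graphs whose distance to every member of `S` is at least `δ`
(so every graph is far from the empty set). -/
def FarFrom {v : ℕ} (δ : ℝ) (S : Set (SimpleGraph (Fin v))) : Set (SimpleGraph (Fin v)) :=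
  {G | ∀ H ∈ S, δ ≤ (gdist G H : ℝ)}

/-- A graph property: for every `v` a set of graphs on `v` vertices closed under isomorphism. -/
def IsProperty (P : (v : ℕ) → Set (SimpleGraph (Fin v))) : Prop :=
  ∀ (v : ℕ) (G H : SimpleGraph (Fin v)), Nonempty (G ≃g H) → G ∈ P v → H ∈ P v

/-- The dual problem of `P` reduces to tolerant testing. -/
def Reduces (P : (v : ℕ) → Set (SimpleGraph (Fin v))) : Prop :=
  ∃ ε₀ : ℝ, 0 < ε₀ ∧ ∀ ε : ℝ, 0 < ε → ε ≤ ε₀ → ∃ α : ℝ, α < 1 ∧ ∃ v₀ : ℕ, ∀ v, v₀ ≤ v →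
    ∀ G ∈ FarFrom (ε * (v.choose 2 : ℝ)) (FarFrom (ε * (v.choose 2 : ℝ)) (P v)),
      ∃ H ∈ P v, (gdist G H : ℝ) ≤ α * (ε * (v.choose 2 : ℝ))

end Pool.Agent.H41.Far
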