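import Mathlib
import Pool.Agent.H89.BA1

set_option autoImplicit false
open Set Topology Filter

/- A countable group with finite decomposition complexity acts on the Cantor set with finite
dynamical complexity. -/

namespace Pool.Agent.H41.Fdc0

abbrev W : Type := ℕ → Bool
abbrev J : Type := ℕ → ℕ → Bool

variable {Γ : Type} [Group Γ]

structure Model (Γ : Type) [Group Γ] where
  act : Γ → W → W
  cont : ∀ g, Continuous (act g)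
  one : ∀ x, act 1 x = x
  mul : ∀ g h x, act (g * h) x = act g (act h x)
  e : Γ × J → W
  dense : DenseRange e
  eqv : ∀ g y j, act g (e (y, j)) = e (y * g⁻¹, j)

def Model.Rep (M : Model Γ) (A : Set Γ) : Prop :=
  ∃ U : Set W, IsClopen U ∧ ∀ y j, M.e (y, j) ∈ U ↔ y ∈ A

def Model.Near (M : Model Γ) (A : Set Γ) (x : W) : Prop :=
  ∀ᶠ w in 𝓝 x, ∀ y j, M.e (y, j) = w → y ∈ A

def IsSub (act : Γ → W → W) (S : Set (Γ × W)) : Prop :=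
  (∀ (g h : Γ) (x : W), (g, act h x) ∈ S → (h, x) ∈ S → (g * h, x) ∈ S) ∧
    (∀ (g : Γ) (x : W), (g, x) ∈ S → (g⁻¹, act g x) ∈ S)

def gen (act : Γ → W → W) (T : Set (Γ × W)) : Set (Γ × W) :=
  ⋂₀ {S : Set (Γ × W) | IsSub act S ∧ T ⊆ S}

def Op (S : Set (Γ × W)) : Prop := ∀ g : Γ, IsOpen {x : W | (g, x) ∈ S}

def Base (act : Γ → W → W) (C : Set (Set (Γ × W))) : Prop :=
  ∀ H : Set (Γ × W), IsSub act H → Op H → Set.Finite {g : Γ | ∃ x : W, (g, x) ∈ H} → H ∈ C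

def Step (act : Γ → W → W) (C : Set (Set (Γ × W))) : Prop :=
  ∀ H : Set (Γ × W), IsSub act H → Op H →
    (∀ K : Set (Γ × W), K ⊆ H → Op K → Set.Finite {g : Γ | ∃ x : W, (g, x) ∈ K} →
      ∃ U₀ U₁ : Set W, IsOpen U₀ ∧ IsOpen U₁ ∧ {x : W | ((1 : Γ), x) ∈ H} ⊆ U₀ ∪ U₁ ∧
        gen act {k ∈ K | k.2 ∈ U₀} ∈ C ∧ gen act {k ∈ K | k.2 ∈ U₁} ∈ C) → H ∈ C

lemma gen_sub (act : Γ → W → W) (T : Set (Γ × W)) : IsSub act (gen act T) :=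
  ⟨fun g h x h1 h2 S hS => hS.1.1 g h x (h1 S hS) (h2 S hS),
    fun g x h1 S hS => hS.1.2 g x (h1 S hS)⟩

lemma gen_le {act : Γ → W → W} {T S : Set (Γ × W)} (hS : IsSub act S) (h : T ⊆ S) :
    gen act T ⊆ S := fun _ hp => hp S ⟨hS, h⟩

lemma le_gen (act : Γ → W → W) (T : Set (Γ × W)) : T ⊆ gen act T :=
  fun _ hp _ hS => hS.2 hp

lemma gen_op (M : Model Γ) {T : Set (Γ × W)} (hT : Op T) : Op (gen M.act T) := by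
  let S : Set (Γ × W) := {p | ∀ᶠ w in 𝓝 p.2, (p.1, w) ∈ gen M.act T}
  have hS : IsSub M.act S := by
    constructor
    · intro g h x h1 h2
      have h3 : ∀ᶠ w in 𝓝 x, (g, M.act h w) ∈ gen M.act T := (M.cont h).continuousAt.eventually h1
      have h4 : ∀ᶠ w in 𝓝 x, (h, w) ∈ gen M.act T := h2
      show ∀ᶠ w in 𝓝 x, (g * h, w) ∈ gen M.act T
      filter_upwards [h3, h4] with w a b using (gen_sub _ _).1 g h w a b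
    · intro g x h1
      have h2 : ∀ᶠ w in 𝓝 (M.act g⁻¹ (M.act g x)), (g, w) ∈ gen M.act T := by
        rw [← M.mul, inv_mul_cancel, M.one]; exact h1
      have h3 := (M.cont g⁻¹).continuousAt.eventually h2
      show ∀ᶠ w in 𝓝 (M.act g x), (g⁻¹, w) ∈ gen M.act T
      filter_upwards [h3] with w a
      have := (gen_sub _ _).2 g _ a
      rwa [← M.mul, mul_inv_cancel, M.one] at this
  have hTS : T ⊆ S := by
    rintro ⟨g, x⟩ hp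
    have : ∀ᶠ w in 𝓝 x, (g, w) ∈ T := (hT g).mem_nhds hp
    show ∀ᶠ w in 𝓝 x, (g, w) ∈ gen M.act T
    filter_upwards [this] with w a using le_gen _ _ a
  intro g
  rw [isOpen_iff_mem_nhds]
  intro x hx
  exact gen_le hS hTS hx

/-- Points joined by `g` inside one member of the family. -/
def Ag (𝒴 : Set (Set Γ)) (g : Γ) : Set Γ := {y | ∃ Y ∈ 𝒴, y ∈ Y ∧ y * g⁻¹ ∈ Y}

def GY (M : Model Γ) (𝒴 : Set (Set Γ)) : Set (Γ × W) := {p | M.Near (Ag 𝒴 p.1) p.2}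

lemma eq_of_mem {𝒴 : Set (Set Γ)} (hd : 𝒴.PairwiseDisjoint id) {Y Y' : Set Γ} (h : Y ∈ 𝒴)
    (h' : Y' ∈ 𝒴) {y : Γ} (a : y ∈ Y) (b : y ∈ Y') : Y = Y' := by
  by_contra hne
  exact Set.disjoint_left.1 (hd h h' hne) a b

lemma GY_sub (M : Model Γ) {𝒴 : Set (Set Γ)} (hd : 𝒴.PairwiseDisjoint id) :
    IsSub M.act (GY M 𝒴) := by
  constructor
  · intro g h x h1 h2
    have h3 : ∀ᶠ w in 𝓝 x, ∀ y j, M.e (y, j) = M.act h w → y ∈ Ag 𝒴 g :=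
      (M.cont h).continuousAt.eventually h1
    have h4 : ∀ᶠ w in 𝓝 x, ∀ y j, M.e (y, j) = w → y ∈ Ag 𝒴 h := h2
    show ∀ᶠ w in 𝓝 x, ∀ y j, M.e (y, j) = w → y ∈ Ag 𝒴 (g * h)
    filter_upwards [h3, h4] with w a b y j hy
    obtain ⟨Y, hY, c1, c2⟩ := b y j hy
    obtain ⟨Y', hY', d1, d2⟩ := a (y * h⁻¹) j (by rw [← hy, M.eqv])
    have := eq_of_mem hd hY hY' c2 d1
    subst this
    exact ⟨Y, hY, c1, by rw [mul_inv_rev, ← mul_assoc]; exact d2⟩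
  · intro g x h1
    have h2 : ∀ᶠ w in 𝓝 (M.act g⁻¹ (M.act g x)), ∀ y j, M.e (y, j) = w → y ∈ Ag 𝒴 g := by
      rw [← M.mul, inv_mul_cancel, M.one]; exact h1
    have h3 := (M.cont g⁻¹).continuousAt.eventually h2
    show ∀ᶠ w in 𝓝 (M.act g x), ∀ y j, M.e (y, j) = w → y ∈ Ag 𝒴 g⁻¹
    filter_upwards [h3] with w a y j hy
    obtain ⟨Y, hY, c1, c2⟩ := a (y * g⁻¹⁻¹) j (by rw [← hy, M.eqv])
    exact ⟨Y, hY, by simpa using c2, c1⟩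

lemma near_ex (M : Model Γ) {A : Set Γ} {x : W} (h : M.Near A x) : A.Nonempty := by
  obtain ⟨U, hU, hUo, hx⟩ := eventually_nhds_iff.1 h
  obtain ⟨⟨y, j⟩, hy⟩ := M.dense.exists_mem_open hUo ⟨x, hx⟩
  exact ⟨y, hU _ hy y j rfl⟩

def Good (𝒴 : Set (Set Γ)) : Prop :=
  𝒴.PairwiseDisjoint id ∧ ∃ B : Set (Set Γ), B.Countable ∧ ∀ M : Model Γ, (∀ A ∈ B, M.Rep A) →
    ∀ C : Set (Set (Γ × W)), Base M.act C → Step M.act C →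
      ∀ H, IsSub M.act H → Op H → H ⊆ GY M 𝒴 → H ∈ C

lemma good_base (ℓ : Γ → ℝ) (hi : ∀ g, ℓ g⁻¹ = ℓ g) (hp : ∀ R : ℝ, Set.Finite {g | ℓ g ≤ R})
    (𝒴 : Set (Set Γ)) (hd : 𝒴.PairwiseDisjoint id)
    (hb : ∃ R : ℝ, ∀ Y ∈ 𝒴, ∀ a ∈ Y, ∀ b ∈ Y, ℓ (a⁻¹ * b) ≤ R) : Good 𝒴 := by
  refine ⟨hd, ∅, countable_empty, fun M _ C hB _ H h1 h2 h3 => hB H h1 h2 ?_⟩
  obtain ⟨R, hR⟩ := hb
  refine (hp R).subset ?_
  rintro g ⟨x, hx⟩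
  obtain ⟨y, Y, hY, a, b⟩ := near_ex M (h3 hx)
  have := hR Y hY _ a _ b
  simp only [inv_mul_cancel_left] at this
  rwa [hi] at this

lemma half (M : Model Γ) (ℓ : Γ → ℝ) (h1 : ℓ 1 = 0) {𝒴 𝒵 : Set (Set Γ)}
    (hd : 𝒴.PairwiseDisjoint id) {r : ℝ} (hr : 0 < r) (P : Set Γ → Set (Set Γ))
    (hP : ∀ Y ∈ 𝒴, ⋃₀ P Y ⊆ Y)
    (hN : ∀ Y ∈ 𝒴, ∀ A ∈ P Y, {y ∈ Y | ∃ z ∈ A, ℓ (y⁻¹ * z) < r} ∈ 𝒵)
    {g : Γ} {x : W} (hg : ℓ g < r) (a : (g, x) ∈ GY M 𝒴)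
    (b : M.Near (⋃ Y ∈ 𝒴, ⋃₀ P Y) x) : (g, x) ∈ GY M 𝒵 := by
  have a' : ∀ᶠ w in 𝓝 x, ∀ y j, M.e (y, j) = w → y ∈ Ag 𝒴 g := a
  show ∀ᶠ w in 𝓝 x, ∀ y j, M.e (y, j) = w → y ∈ Ag 𝒵 g
  filter_upwards [a', b] with w c d y j hy
  obtain ⟨Y, hY, c1, c2⟩ := c y j hy
  have := d y j hy
  simp only [mem_iUnion] at this
  obtain ⟨Y', hY', hy'⟩ := this
  have e := eq_of_mem hd hY hY' c1 (hP Y' hY' hy')
  subst e
  obtain ⟨A, hA, hyA⟩ := hy'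
  refine ⟨_, hN Y hY A hA, ⟨c1, y, hyA, by simpa [h1] using hr⟩, c2, y, hyA, ?_⟩
  simpa using hg

lemma good_step (ℓ : Γ → ℝ) (h1 : ℓ 1 = 0) (𝒴 : Set (Set Γ)) (hd : 𝒴.PairwiseDisjoint id)
    (h : ∀ r : ℝ, 0 ≤ r → ∃ 𝒵₀, Good 𝒵₀ ∧ ∃ 𝒵₁, Good 𝒵₁ ∧ ∀ Y ∈ 𝒴, ∃ Y₀ Y₁ : Set Γ,
      Y = Y₀ ∪ Y₁ ∧ ∃ P₀ P₁ : Set (Set Γ), ⋃₀ P₀ = Y₀ ∧ ⋃₀ P₁ = Y₁ ∧
        (∀ A ∈ P₀, {y ∈ Y | ∃ z ∈ A, ℓ (y⁻¹ * z) < r} ∈ 𝒵₀) ∧
        (∀ A ∈ P₁, {y ∈ Y | ∃ z ∈ A, ℓ (y⁻¹ * z) < r} ∈ 𝒵₁)) : Good 𝒴 := by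
  have h' : ∀ n : ℕ, ∃ 𝒵₀, Good 𝒵₀ ∧ ∃ 𝒵₁, Good 𝒵₁ ∧ ∃ P₀ P₁ : Set Γ → Set (Set Γ), ∀ Y ∈ 𝒴,
      Y = ⋃₀ P₀ Y ∪ ⋃₀ P₁ Y ∧
        (∀ A ∈ P₀ Y, {y ∈ Y | ∃ z ∈ A, ℓ (y⁻¹ * z) < (n : ℝ) + 1} ∈ 𝒵₀) ∧
        (∀ A ∈ P₁ Y, {y ∈ Y | ∃ z ∈ A, ℓ (y⁻¹ * z) < (n : ℝ) + 1} ∈ 𝒵₁) := by
    intro n
    obtain ⟨Z0, g0, Z1, g1, hY⟩ := h ((n : ℝ) + 1) (by positivity)
    refine ⟨Z0, g0, Z1, g1, ?_⟩
    choose! Y0 Y1 e P0 P1 e0 e1 k0 k1 using hY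
    exact ⟨P0, P1, fun Y hY => ⟨by rw [e0 Y hY, e1 Y hY]; exact e Y hY, k0 Y hY, k1 Y hY⟩⟩
  choose Z0 g0 Z1 g1 P0 P1 hP using h'
  choose B0 c0 k0 using fun n => (g0 n).2
  choose B1 c1 k1 using fun n => (g1 n).2
  refine ⟨hd, ⋃ n, insert (⋃ Y ∈ 𝒴, ⋃₀ P0 n Y) (B0 n ∪ B1 n),
    countable_iUnion fun n => ((c0 n).union (c1 n)).insert _, ?_⟩
  intro M hM C hB hS H s1 s2 s3
  refine hS H s1 s2 fun K hK oK fK => ?_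
  obtain ⟨R, hR⟩ := (fK.image ℓ).bddAbove
  obtain ⟨n, hn⟩ := exists_nat_ge R
  have hl : ∀ g x, (g, x) ∈ K → ℓ g < (n : ℝ) + 1 := fun g x hx => by
    have := hR ⟨g, ⟨x, hx⟩, rfl⟩
    linarith
  have hpos : (0 : ℝ) < (n : ℝ) + 1 := by positivity
  have oN : ∀ A, IsOpen {x | M.Near A x} := fun A => isOpen_setOf_eventually_nhds
  have oT : ∀ A, Op {k ∈ K | k.2 ∈ {x | M.Near A x}} := fun A g => (oK g).inter (oN A)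
  refine ⟨{x | M.Near (⋃ Y ∈ 𝒴, ⋃₀ P0 n Y) x}, {x | M.Near (⋃ Y ∈ 𝒴, ⋃₀ P1 n Y) x},
    oN _, oN _, ?_, ?_, ?_⟩
  · intro x hx
    have hx' : ∀ᶠ w in 𝓝 x, ∀ y j, M.e (y, j) = w → y ∈ Ag 𝒴 1 := s3 hx
    obtain ⟨U, hU, hUA⟩ := hM (⋃ Y ∈ 𝒴, ⋃₀ P0 n Y) (mem_iUnion.2 ⟨n, mem_insert _ _⟩)
    by_cases hxU : x ∈ U
    · left
      have : ∀ᶠ w in 𝓝 x, w ∈ U := hU.isOpen.mem_nhds hxU
      show ∀ᶠ w in 𝓝 x, ∀ y j, M.e (y, j) = w → y ∈ ⋃ Y ∈ 𝒴, ⋃₀ P0 n Y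
      filter_upwards [this] with w a y j hy
      exact (hUA y j).1 (hy ▸ a)
    · right
      have : ∀ᶠ w in 𝓝 x, w ∈ Uᶜ := hU.compl.isOpen.mem_nhds hxU
      show ∀ᶠ w in 𝓝 x, ∀ y j, M.e (y, j) = w → y ∈ ⋃ Y ∈ 𝒴, ⋃₀ P1 n Y
      filter_upwards [this, hx'] with w a b y j hy
      obtain ⟨Y, hY, c, -⟩ := b y j hy
      have hny : y ∉ ⋃ Y ∈ 𝒴, ⋃₀ P0 n Y := fun q => a (hy ▸ (hUA y j).2 q)
      rw [(hP n Y hY).1] at c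
      rcases c with c | c
      · exact absurd (mem_biUnion hY c) hny
      · exact mem_biUnion hY c
  · refine k0 n M (fun A hA => hM A (mem_iUnion.2 ⟨n, Or.inr (Or.inl hA)⟩)) C hB hS _
      (gen_sub _ _) (gen_op M (oT _)) (gen_le (GY_sub M (g0 n).1) ?_)
    rintro ⟨g, x⟩ ⟨a, b⟩
    refine half M ℓ h1 hd hpos (P0 n) (fun Y hY => ?_) (fun Y hY => (hP n Y hY).2.1)
      (hl g x a) (s3 (hK a)) b
    intro y hy
    rw [(hP n Y hY).1]; exact Or.inl hy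
  · refine k1 n M (fun A hA => hM A (mem_iUnion.2 ⟨n, Or.inr (Or.inr hA)⟩)) C hB hS _
      (gen_sub _ _) (gen_op M (oT _)) (gen_le (GY_sub M (g1 n).1) ?_)
    rintro ⟨g, x⟩ ⟨a, b⟩
    refine half M ℓ h1 hd hpos (P1 n) (fun Y hY => ?_) (fun Y hY => (hP n Y hY).2.2)
      (hl g x a) (s3 (hK a)) b
    intro y hy
    rw [(hP n Y hY).1]; exact Or.inr hy

open Classical in
lemma model_exists [Countable Γ] (B : Set (Set Γ)) (hB : B.Countable) :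
    ∃ M : Model Γ, ∀ A ∈ B, M.Rep A := by
  obtain ⟨b, hb⟩ := (hB.insert ∅).exists_eq_range ⟨∅, mem_insert _ _⟩
  let φ : Γ → (Γ × ℕ → Bool) := fun y p => decide (y * p.1 ∈ b p.2)
  let sh : Γ → (Γ × ℕ → Bool) → (Γ × ℕ → Bool) := fun g ξ p => ξ (g⁻¹ * p.1, p.2)
  have shc : ∀ g, Continuous (sh g) := fun g => continuous_pi fun p => continuous_apply _
  have shφ : ∀ g y, sh g (φ y) = φ (y * g⁻¹) := fun g y => by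
    funext p; simp only [sh, φ, mul_assoc]
  let X : Set (Γ × ℕ → Bool) := closure (range φ)
  have hX : ∀ g, ∀ ξ ∈ X, sh g ξ ∈ X := fun g ξ hξ => by
    refine map_mem_closure (shc g) hξ ?_
    rintro _ ⟨y, rfl⟩
    exact ⟨_, (shφ g y).symm⟩
  haveI : CompactSpace X := isCompact_iff_compactSpace.1 isClosed_closure.isCompact
  let φ' : Γ → X := fun y => ⟨φ y, subset_closure ⟨y, rfl⟩⟩
  haveI : Nonempty X := ⟨φ' 1⟩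
  obtain ⟨s, hs⟩ := exists_surjective_nat (Γ × ℕ)
  obtain ⟨Ψ⟩ := Pool.Agent.H89.BA.cantor_prod (X := X) (fun n ξ => ξ.1 (s n))
    (fun n => (continuous_apply _).comp continuous_subtype_val)
    (fun x x' h => Subtype.ext (funext fun p => by obtain ⟨n, rfl⟩ := hs p; exact h n))
  let a : Γ → X × J → X × J := fun g q => (⟨sh g q.1.1, hX g _ q.1.2⟩, q.2)
  have ac : ∀ g, Continuous (a g) := fun g =>
    (((shc g).comp (continuous_subtype_val.comp continuous_fst)).subtype_mk _).prodMk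
      continuous_snd
  have dφ : DenseRange φ' := by
    rw [DenseRange, Subtype.dense_iff]
    refine closure_mono ?_
    rintro _ ⟨y, rfl⟩
    exact ⟨φ' y, ⟨y, rfl⟩, rfl⟩
  refine ⟨⟨fun g w => Ψ (a g (Ψ.symm w)), fun g => Ψ.continuous.comp ((ac g).comp
    Ψ.symm.continuous), fun x => ?_, fun g h x => ?_, fun q => Ψ (φ' q.1, q.2), ?_,
    fun g y j => ?_⟩, ?_⟩
  · have : a 1 (Ψ.symm x) = Ψ.symm x := by
      refine Prod.ext (Subtype.ext ?_) rfl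
      funext p; simp [a, sh]
    rw [this, Ψ.apply_symm_apply]
  · rw [Ψ.symm_apply_apply]
    congr 1
    refine Prod.ext (Subtype.ext ?_) rfl
    funext p; simp [a, sh, mul_assoc]
  · exact Ψ.surjective.denseRange.comp (dφ.prodMap denseRange_id) Ψ.continuous
  · show Ψ (a g (Ψ.symm (Ψ (φ' y, j)))) = Ψ (φ' (y * g⁻¹), j)
    rw [Ψ.symm_apply_apply]
    congr 1
    exact Prod.ext (Subtype.ext (shφ g y)) rfl
  · intro A hA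
    obtain ⟨n, rfl⟩ : A ∈ range b := hb ▸ mem_insert_of_mem _ hA
    have hc : Continuous fun w : W => (Ψ.symm w).1.1 (1, n) :=
      (continuous_apply _).comp (continuous_subtype_val.comp
        (continuous_fst.comp Ψ.symm.continuous))
    refine ⟨(fun w : W => (Ψ.symm w).1.1 (1, n)) ⁻¹' {true},
      (isClopen_discrete _).preimage hc, fun y j => ?_⟩
    simp [φ', φ]

theorem main [Countable Γ] (h : Good ({univ} : Set (Set Γ))) :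
    ∃ M : Model Γ, ∀ C, Base M.act C → Step M.act C → (univ : Set (Γ × W)) ∈ C := by
  obtain ⟨-, B, hB, h⟩ := h
  obtain ⟨M, hM⟩ := model_exists B hB
  refine ⟨M, fun C h1 h2 => h M hM C h1 h2 _ ⟨fun _ _ _ _ _ => trivial, fun _ _ _ => trivial⟩
    (fun g => by simp) ?_⟩
  rintro ⟨g, x⟩ -
  exact Eventually.of_forall fun w y j _ => ⟨univ, rfl, trivial, trivial⟩

end Pool.Agent.H41.Fdc0
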