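import Mathlib

set_option autoImplicit false

/- Tree metrics and fixed points of group actions on them. -/

namespace Pool.Agent.H41.Fdc

structure TM (V : Type) where
  d : V → V → ℕ
  self : ∀ x, d x x = 0
  eq_of : ∀ x y, d x y = 0 → x = y
  comm : ∀ x y, d x y = d y x
  tri : ∀ x y z, d x z ≤ d x y + d y z
  step : ∀ x y, x ≠ y → ∃ u, d x u = 1 ∧ d u y + 1 = d x y
  branch : ∀ x y z u u', d x u = 1 → d u y + 1 = d x y → d x u' = 1 → d u' z + 1 = d x z →
    u ≠ u' → d y z = d x y + d x z

variable {V : Type} (T : TM V)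

lemma TM.four (n : ℕ) : ∀ x y z w, T.d x y = n →
    T.d x y + T.d z w ≤ max (T.d x z + T.d y w) (T.d x w + T.d y z) := by
  induction n with
  | zero =>
    intro x y z w h
    have := T.eq_of x y h
    subst this
    have h1 := T.tri z x w
    have h2 := T.comm z x
    rw [le_max_iff]; left; omega
  | succ n ih =>
    intro x y z w h
    have hxy : x ≠ y := by rintro rfl; rw [T.self] at h; omega
    rw [le_max_iff]
    by_cases hxz : x = z
    · subst hxz
      right
      have := T.comm x y
      omega
    by_cases hxw : x = w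
    · subst hxw
      left
      have := T.comm x y
      have := T.comm x z
      omega
    obtain ⟨u, u1, u2⟩ := T.step x y hxy
    obtain ⟨a, a1, a2⟩ := T.step x z hxz
    obtain ⟨b, b1, b2⟩ := T.step x w hxw
    have h1 := T.tri z x w
    have h2 := T.comm z x
    by_cases e1 : u = a
    · by_cases e2 : u = b
      · subst e1; subst e2
        have := ih u y z w (by omega)
        rw [le_max_iff] at this
        omega
      · have := T.branch x y w u b u1 u2 b1 b2 e2
        left; omega
    · have := T.branch x y z u a u1 u2 a1 a2 e1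
      right; omega

variable {G : Type} [Group G] [MulAction G V]

structure Act (G : Type) [Group G] [MulAction G V] : Prop where
  iso : ∀ (g : G) x y, T.d (g • x) (g • y) = T.d x y
  ne1 : ∀ (g : G) x, T.d x (g • x) ≠ 1

variable {T}

lemma Act.mul_le (A : Act T G) (v : V) (g h : G) :
    T.d v ((g * h) • v) ≤ T.d v (g • v) + T.d v (h • v) := by
  have := T.tri v (g • v) ((g * h) • v)
  rw [mul_smul, A.iso] at this
  rwa [mul_smul]

lemma Act.inv_eq (A : Act T G) (v : V) (g : G) : T.d v (g⁻¹ • v) = T.d v (g • v) := by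
  rw [← A.iso g, smul_inv_smul, T.comm]

lemma Act.dd (A : Act T G) (v : V) (g h : G) : T.d (g • v) (h • v) = T.d v ((g⁻¹ * h) • v) := by
  rw [← A.iso g⁻¹, inv_smul_smul, mul_smul]

/-- A bounded orbit gives a global fixed point. -/
lemma Act.fix_of_bdd (A : Act T G) (D : ℕ) : ∀ v : V, (∀ g : G, T.d v (g • v) ≤ D) →
    ∃ v : V, ∀ g : G, g • v = v := by
  induction D with
  | zero => exact fun v h => ⟨v, fun g => (T.eq_of _ _ (Nat.le_zero.1 (h g))).symm⟩
  | succ D ih =>
    intro v h
    by_cases h0 : ∀ g : G, T.d v (g • v) ≤ D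
    · exact ih v h0
    push Not at h0
    obtain ⟨g0, h0⟩ := h0
    have hD : T.d v (g0 • v) = D + 1 := le_antisymm (h g0) h0
    have hne : v ≠ g0 • v := by intro e; rw [← e, T.self] at hD; omega
    obtain ⟨u, u1, u2⟩ := T.step v _ hne
    refine ih u fun g => ?_
    have g1 : T.d (g • v) (g • u) = 1 := by rw [A.iso, u1]
    have g2 : T.d (g • u) ((g * g0) • v) + 1 = T.d (g • v) ((g * g0) • v) := by
      rw [mul_smul, A.iso, A.iso, u2]
    have g3 : T.d (g • v) ((g * g0) • v) = D + 1 := by rw [mul_smul, A.iso, hD]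
    by_cases e : g • v = v
    · rw [e] at g1 g2 g3
      by_cases e' : u = g • u
      · rw [← e', T.self]; omega
      · have := T.branch v _ _ u (g • u) u1 u2 g1 g2 e'
        rw [A.dd] at this
        have := h (g0⁻¹ * (g * g0))
        omega
    · obtain ⟨a, a1, a2⟩ := T.step v (g • v) (Ne.symm e)
      have ea : u = a := by
        by_contra e'
        have := T.branch v _ _ u a u1 u2 a1 a2 e'
        rw [A.dd] at this
        have := h (g0⁻¹ * g)
        omega
      subst ea
      have n1 := A.ne1 g v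
      have hu : g • v ≠ u := by intro q; rw [← q, T.self] at a2; omega
      obtain ⟨b, b1, b2⟩ := T.step (g • v) u hu
      have c1 := T.comm (g • v) u
      have c2 := T.comm (g • v) v
      have c3 := T.comm u v
      have t1 := T.tri b u v
      have t2 := T.tri (g • v) b v
      have eb : b = g • u := by
        by_contra e'
        have := T.branch (g • v) v _ b (g • u) b1 (by omega) g1 g2 e'
        have := h (g * g0)
        omega
      subst eb
      have := h g
      have := T.comm u (g • u)
      omega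

/-- An element without fixed point has an orbit of exactly linear growth. -/
lemma Act.lin (A : Act T G) [Nonempty V] (g : G) (h : ∀ v : V, g • v ≠ v) :
    ∃ (v : V) (l : ℕ), 0 < l ∧ ∀ n : ℕ, T.d v (g ^ n • v) = n * l := by
  obtain ⟨v, hv⟩ := exists_minimalFor_of_wellFoundedLT (fun _ : V => True)
    (fun v => T.d v (g • v)) ⟨Classical.arbitrary V, trivial⟩
  have hm : ∀ w, T.d v (g • v) ≤ T.d w (g • w) := fun w => by
    by_contra q
    exact q (hv.2 trivial (not_le.1 q).le)
  set l := T.d v (g • v) with hl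
  have l0 : l ≠ 0 := fun q => h v (T.eq_of _ _ q).symm
  have l1 : l ≠ 1 := A.ne1 g v
  have h2 : T.d v (g ^ 2 • v) = 2 * l := by
    obtain ⟨u, u1, u2⟩ := T.step v (g • v) (h v).symm
    have hu : g • v ≠ u := by intro q; rw [← q, T.self] at u2; omega
    obtain ⟨b, b1, b2⟩ := T.step (g • v) u hu
    have g1 : T.d (g • v) (g • u) = 1 := by rw [A.iso, u1]
    have g2 : T.d (g • u) (g • g • v) + 1 = T.d (g • v) (g • g • v) := by
      rw [A.iso, A.iso, u2]
    have g3 : T.d (g • v) (g • g • v) = l := by rw [A.iso]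
    have c1 := T.comm (g • v) u
    have c2 := T.comm (g • v) v
    have c3 := T.comm u v
    have t1 := T.tri b u v
    have t2 := T.tri (g • v) b v
    by_cases e : b = g • u
    · subst e
      have := hm u
      have := T.comm u (g • u)
      omega
    · have := T.branch (g • v) v _ b (g • u) b1 (by omega) g1 g2 e
      rw [pow_two, mul_smul]
      omega
  have key : ∀ n : ℕ, T.d v (g ^ (n + 1) • v) = (n + 1) * l ∧
      T.d v (g ^ (n + 2) • v) = (n + 2) * l := by
    intro n
    induction n with
    | zero => exact ⟨by simp [hl], by simpa using h2⟩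
    | succ n ih =>
      refine ⟨ih.2, ?_⟩
      have f := T.four _ v (g ^ (n + 2) • v) (g • v) (g ^ (n + 3) • v) rfl
      have e1 : T.d (g • v) (g ^ (n + 3) • v) = T.d v (g ^ (n + 2) • v) := by
        rw [pow_succ' g (n + 2), mul_smul, A.iso]
      have e2 : T.d (g ^ (n + 2) • v) (g ^ (n + 3) • v) = l := by
        rw [pow_succ g (n + 2), mul_smul, A.iso]
      have e3 : T.d (g ^ (n + 2) • v) (g • v) = T.d v (g ^ (n + 1) • v) := by
        rw [pow_succ' g (n + 1), mul_smul, A.iso, T.comm]
      have e4 := A.mul_le v (g ^ (n + 2)) g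
      rw [← pow_succ] at e4
      rw [e1, e2, e3, ih.1, ih.2, le_max_iff] at f
      rw [ih.2] at e4
      show T.d v (g ^ (n + 3) • v) = (n + 3) * l
      have p1 : (n + 2) * l = n * l + 2 * l := by ring
      have p2 : (n + 1) * l = n * l + l := by ring
      have p3 : (n + 3) * l = n * l + 3 * l := by ring
      have p4 : n + 2 + 1 = n + 3 := rfl
      rw [p4] at e4
      omega
  refine ⟨v, l, Nat.pos_of_ne_zero l0, fun n => ?_⟩
  cases n with
  | zero => simp [T.self]
  | succ n => exact (key n).1

/-- Translations permuted by a rotation of order three fix a vertex. -/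
lemma Act.ell (A : Act T G) [Nonempty V] {L : Type} [AddCommGroup L] (τ : L → G)
    (hτ : ∀ a b, τ (a + b) = τ a * τ b) (w : L →+ L) (hw : ∀ a, w (w a) = -a - w a) (σ : G)
    (hσ : ∀ a, σ * τ a * σ⁻¹ = τ (w a)) (a : L) : ∃ v : V, τ a • v = v := by
  by_contra hn
  push Not at hn
  obtain ⟨v, l, hl, hv⟩ := A.lin (τ a) hn
  have τ0 : τ 0 = 1 := by
    have := hτ 0 0
    rw [add_zero] at this
    exact (mul_eq_left.1 this.symm)
  have τn : ∀ b, τ (-b) = (τ b)⁻¹ := fun b => by
    rw [eq_inv_iff_mul_eq_one, ← hτ, neg_add_cancel, τ0]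
  have τp : ∀ n : ℕ, τ (n • a) = τ a ^ n := fun n => by
    induction n with
    | zero => simpa using τ0
    | succ n ih => rw [succ_nsmul, hτ, ih, pow_succ]
  let F : L → ℕ := fun b => T.d v (τ b • v)
  set k := T.d v (σ • v) with hk
  have Fw : ∀ b, F (w b) ≤ F b + 2 * k := fun b => by
    show T.d v (τ (w b) • v) ≤ T.d v (τ b • v) + 2 * k
    rw [← hσ]
    have h1 := A.mul_le v (σ * τ b) σ⁻¹
    have h2 := A.mul_le v σ (τ b)
    rw [A.inv_eq] at h1
    omega
  have Fn : ∀ b, F (-b) = F b := fun b => by
    show T.d v (τ (-b) • v) = T.d v (τ b • v)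
    rw [τn, A.inv_eq]
  have Fd : ∀ b c, T.d (τ b • v) (τ c • v) = F (c - b) := fun b c => by
    rw [A.dd, ← τn, ← hτ, neg_add_eq_sub]
  have w3 : ∀ b, w (w (w b)) = b := fun b => by
    rw [hw (w b), hw b]; abel
  have Fu : ∀ b, F (w b - b) ≤ F b + 6 * k := fun b => by
    have f := T.four _ v (τ (b + w b) • v) (τ b • v) (τ (w b) • v) rfl
    rw [Fd, Fd, Fd, le_max_iff] at f
    have e1 : w b - (b + w b) = -b := by abel
    have e2 : b - (b + w b) = -w b := by abel
    have e3 : b + w b = -w (w b) := by rw [hw]; abel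
    rw [e1, e2, Fn, Fn] at f
    have f' : F (b + w b) + F (w b - b) ≤ F b + F b ∨
      F (b + w b) + F (w b - b) ≤ F (w b) + F (w b) := f
    rw [e3, Fn] at f'
    have h1 := Fw b
    have h2 := Fw (w (w b))
    rw [w3] at h2
    omega
  have F3 : ∀ b, F (3 • b) ≤ F b + 16 * k := fun b => by
    have h1 := Fu b
    have h2 := Fu (w b - b)
    have e : w (w b - b) - (w b - b) = -w (3 • b) := by
      rw [map_sub, hw, map_nsmul]; abel
    rw [e, Fn] at h2
    have h3 := Fw (w (3 • b))
    have h4 := Fw (w (w (3 • b)))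
    rw [w3] at h4
    omega
  have Fa : ∀ n : ℕ, F (n • a) = n * l := fun n => by
    show T.d v (τ (n • a) • v) = n * l
    rw [τp, hv]
  have := F3 ((16 * k + 1) • a)
  rw [← mul_nsmul', Fa, Fa] at this
  nlinarith

lemma Act.zbdd (A : Act T G) (g : G) (u : V) (h : g • u = u) (v : V) (n : ℤ) :
    T.d v (g ^ n • v) ≤ 2 * T.d v u := by
  have h1 : g ^ n • u = u := by
    have : g ∈ MulAction.stabilizer G u := h
    exact (MulAction.stabilizer G u).zpow_mem this n
  have h2 := T.tri v u (g ^ n • v)
  have h3 := A.iso (g ^ n) u v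
  rw [h1] at h3
  have := T.comm u v
  omega

/-- A connected graph in which every edge is cut by a wall carries a tree metric. -/
noncomputable def ofWalls (N : SimpleGraph V) (hc : N.Connected)
    (hw : ∀ x u, N.Adj x u → ∃ f : V → ZMod 2, f x ≠ f u ∧
      ∀ a b, N.Adj a b → ¬ ((a = x ∧ b = u) ∨ (a = u ∧ b = x)) → f a = f b) : TM V := by
  have st : ∀ x y, x ≠ y → ∃ u, N.dist x u = 1 ∧ N.dist u y + 1 = N.dist x y := by
    intro x y h
    obtain ⟨p, hp⟩ := hc.exists_walk_length_eq_dist x y
    cases p with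
    | nil => exact absurd rfl h
    | cons a q =>
      rename_i u
      have h1 := SimpleGraph.dist_le q
      have h2 : N.dist x u = 1 := SimpleGraph.dist_eq_one_iff_adj.2 a
      have h3 := hc.dist_triangle (u := x) (v := u) (w := y)
      simp only [SimpleGraph.Walk.length_cons] at hp
      exact ⟨u, h2, by omega⟩
  refine ⟨N.dist, fun _ => SimpleGraph.dist_self, fun _ _ h => hc.dist_eq_zero_iff.1 h,
    fun _ _ => SimpleGraph.dist_comm, fun _ _ _ => hc.dist_triangle, st, ?_⟩
  intro x y z u u' h1 h2 h3 h4 hne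
  obtain ⟨f, fx, hf⟩ := hw x u (SimpleGraph.dist_eq_one_iff_adj.1 h1)
  have A : ∀ (n : ℕ) a y, N.dist y a = n → N.dist y a < N.dist y x → f y = f a := by
    intro n
    induction n with
    | zero => intro a y h _; rw [hc.dist_eq_zero_iff.1 h]
    | succ n ih =>
      intro a y h h'
      have hya : y ≠ a := by rintro rfl; simp at h
      obtain ⟨c, c1, c2⟩ := st y a hya
      have t := hc.dist_triangle (u := y) (v := c) (w := x)
      have hyx : y ≠ x := by rintro rfl; simp at h'
      have hcx : c ≠ x := by rintro rfl; omega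
      rw [hf y c (SimpleGraph.dist_eq_one_iff_adj.1 c1) (by tauto)]
      exact ih a c (by omega) (by omega)
  have B : ∀ (n : ℕ) y z, N.dist y z = n → f y ≠ f z →
      N.dist y x + N.dist x z ≤ N.dist y z := by
    intro n
    induction n with
    | zero => intro y z h h'; rw [hc.dist_eq_zero_iff.1 h] at h'; exact absurd rfl h'
    | succ n ih =>
      intro y z h h'
      have hyz : y ≠ z := by rintro rfl; exact h' rfl
      obtain ⟨c, c1, c2⟩ := st y z hyz
      by_cases q : (y = x ∧ c = u) ∨ (y = u ∧ c = x)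
      · rcases q with ⟨rfl, -⟩ | ⟨-, rfl⟩
        · simp
        · omega
      · have e := hf y c (SimpleGraph.dist_eq_one_iff_adj.1 c1) q
        have := ih c z (by omega) (by rw [← e]; exact h')
        have t := hc.dist_triangle (u := y) (v := c) (w := x)
        omega
  have c1 : N.dist y u = N.dist u y := SimpleGraph.dist_comm
  have c2 : N.dist y x = N.dist x y := SimpleGraph.dist_comm
  have c3 : N.dist z u' = N.dist u' z := SimpleGraph.dist_comm
  have c4 : N.dist z x = N.dist x z := SimpleGraph.dist_comm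
  have e1 := A _ u y rfl (by omega)
  have e2 := A _ u' z rfl (by omega)
  have hxu : x ≠ u := by rintro rfl; exact fx rfl
  have e3 := hf x u' (SimpleGraph.dist_eq_one_iff_adj.1 h3) (by
    rintro (⟨-, q⟩ | ⟨q, -⟩)
    · exact hne q.symm
    · exact hxu q)
  have := B _ y z rfl (by rw [e1, e2, ← e3]; exact fx.symm)
  have t := hc.dist_triangle (u := y) (v := x) (w := z)
  omega

lemma ofWalls_d (N : SimpleGraph V) (hc : N.Connected) (hw) :
    (ofWalls N hc hw).d = N.dist := rfl

lemma dist_map_le {N : SimpleGraph V} (hc : N.Connected) (φ : V → V)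
    (h : ∀ a b, N.Adj a b → N.Adj (φ a) (φ b)) (x y : V) : N.dist (φ x) (φ y) ≤ N.dist x y := by
  obtain ⟨p, hp⟩ := hc.exists_walk_length_eq_dist x y
  have := SimpleGraph.dist_le (p.map ⟨φ, fun {a b} q => h a b q⟩)
  rwa [SimpleGraph.Walk.length_map, hp] at this

end Pool.Agent.H41.Fdc
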