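import Pool.Agent.H41.Fdc1

set_option autoImplicit false
open Relation

/- Simply connected clique complexes and the nerve tree of a two-colouring. -/

namespace Pool.Agent.H41.Fdc

def SC {E : Type} (R : E → E → Prop) : Prop :=
  ∀ ω : E → E → ZMod 2, (∀ x y z, R x y → R y z → R x z → ω x z = ω x y + ω y z) →
    ∃ f : E → ZMod 2, ∀ x y, R x y → ω x y = f y - f x

lemma rlift {E E' : Type} {R : E → E → Prop} {R' : E' → E' → Prop} (f : E → E')
    (h : ∀ a b, R a b → R' (f a) (f b)) {x y : E} (q : ReflTransGen R x y) :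
    ReflTransGen R' (f x) (f y) := by
  induction q with
  | refl => rfl
  | tail _ r ih => exact ih.tail (h _ _ r)

structure Nice {E : Type} (R : E → E → Prop) : Prop where
  refl : ∀ x, R x x
  symm : ∀ x y, R x y → R y x
  conn : ∀ x y, ReflTransGen R x y
  sc : SC R

lemma Nice.transfer {E E' : Type} {R : E → E → Prop} {R' : E' → E' → Prop} (h : Nice R')
    (e : E ≃ E') (he : ∀ x y, R' (e x) (e y) ↔ R x y) : Nice R := by
  have he' : ∀ x y, R' x y → R (e.symm x) (e.symm y) := fun x y q => by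
    rw [← he]; simpa using q
  refine ⟨fun x => (he x x).1 (h.refl _), fun x y q => (he _ _).1 (h.symm _ _ ((he _ _).2 q)),
    fun x y => ?_, fun ω hω => ?_⟩
  · have := rlift e.symm he' (h.conn (e x) (e y))
    simpa using this
  · obtain ⟨f, hf⟩ := h.sc (fun x y => ω (e.symm x) (e.symm y))
      fun x y z a b c => hω _ _ _ (he' _ _ a) (he' _ _ b) (he' _ _ c)
    refine ⟨f ∘ e, fun x y q => ?_⟩
    simpa using hf (e x) (e y) ((he _ _).2 q)

lemma Nice.prod {E E' : Type} [Nonempty E'] {R : E → E → Prop} {R' : E' → E' → Prop}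
    (h : Nice R) (h' : Nice R') : Nice fun p q : E × E' => R p.1 q.1 ∧ R' p.2 q.2 := by
  refine ⟨fun x => ⟨h.refl _, h'.refl _⟩, fun x y q => ⟨h.symm _ _ q.1, h'.symm _ _ q.2⟩,
    fun x y => ?_, fun ω hω => ?_⟩
  · have a := rlift (R' := fun p q : E × E' => R p.1 q.1 ∧ R' p.2 q.2)
      (fun a => (a, x.2)) (fun a b q => ⟨q, h'.refl _⟩) (h.conn x.1 y.1)
    have b := rlift (R' := fun p q : E × E' => R p.1 q.1 ∧ R' p.2 q.2)
      (fun b => (y.1, b)) (fun a b q => ⟨h.refl _, q⟩) (h'.conn x.2 y.2)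
    exact a.trans b
  · obtain ⟨o⟩ := (inferInstance : Nonempty E')
    obtain ⟨f, hf⟩ := h.sc (fun a b => ω (a, o) (b, o))
      fun x y z a b c => hω _ _ _ ⟨a, h'.refl _⟩ ⟨b, h'.refl _⟩ ⟨c, h'.refl _⟩
    have : ∀ a : E, ∃ g : E' → ZMod 2, ∀ x y, R' x y → ω (a, x) (a, y) = g y - g x := fun a =>
      h'.sc (fun x y => ω (a, x) (a, y))
        fun x y z p q r => hω _ _ _ ⟨h.refl _, p⟩ ⟨h.refl _, q⟩ ⟨h.refl _, r⟩
    choose g hg using this
    have hor : ∀ a b, R a b → ∀ x, ω (a, x) (b, x) =
        (f b + g b x - g b o) - (f a + g a x - g a o) := by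
      intro a b q x
      induction h'.conn o x with
      | refl => rw [hf a b q]; ring
      | tail _ r ih =>
        rename_i x y _
        have e1 := hω (a, x) (b, x) (b, y) ⟨q, h'.refl _⟩ ⟨h.refl _, r⟩ ⟨q, r⟩
        have e2 := hω (a, x) (a, y) (b, y) ⟨h.refl _, r⟩ ⟨q, h'.refl _⟩ ⟨q, r⟩
        rw [hg b x y r, ih] at e1
        rw [hg a x y r] at e2
        linear_combination e1 - e2
    refine ⟨fun p => f p.1 + g p.1 p.2 - g p.1 o, ?_⟩
    rintro ⟨a, x⟩ ⟨b, y⟩ ⟨q, r⟩
    have e1 := hω (a, x) (b, x) (b, y) ⟨q, h'.refl _⟩ ⟨h.refl _, r⟩ ⟨q, r⟩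
    rw [e1, hor a b q, hg b x y r]
    ring

lemma Nice.pi {E : Type} [Nonempty E] {R : E → E → Prop} (h : Nice R) (n : ℕ) :
    Nice fun p q : Fin n → E => ∀ i, R (p i) (q i) := by
  induction n with
  | zero =>
    refine ⟨fun x i => i.elim0, fun x y _ i => i.elim0, fun x y => ?_, fun ω hω => ?_⟩
    · rw [Subsingleton.elim x y]
    · refine ⟨fun _ => 0, fun x y q => ?_⟩
      rw [Subsingleton.elim x y]
      have := hω y y y (fun i => i.elim0) (fun i => i.elim0) (fun i => i.elim0)
      linear_combination -this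
  | succ n ih =>
    refine (h.prod ih).transfer (Fin.consEquiv fun _ => E).symm fun x y => ?_
    rw [Fin.forall_fin_succ]
    rfl

def Sm (ρ : ℤ) (a : ℤ × ℤ) : Prop := |a.1| ≤ ρ ∧ |a.2| ≤ ρ ∧ |a.2 - a.1| ≤ ρ

lemma intZ (h : ℤ → ZMod 2) : ∃ F : ℤ → ZMod 2, F 0 = 0 ∧ ∀ n, F (n + 1) - F n = h n := by
  refine ⟨fun n => match n with
    | Int.ofNat k => ∑ i ∈ Finset.range k, h i
    | Int.negSucc k => -∑ i ∈ Finset.range (k + 1), h (Int.negSucc i), rfl, ?_⟩
  rintro (k | k)
  · show ∑ i ∈ Finset.range (k + 1), h i - ∑ i ∈ Finset.range k, h i = h k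
    rw [Finset.sum_range_succ]; ring
  · cases k with
    | zero =>
      show ∑ i ∈ Finset.range 0, h i - -∑ i ∈ Finset.range 1, h (Int.negSucc i) = _
      simp
    | succ k =>
      show -∑ i ∈ Finset.range (k + 1), h (Int.negSucc i) -
        -∑ i ∈ Finset.range (k + 1 + 1), h (Int.negSucc i) = _
      rw [Finset.sum_range_succ _ (k + 1)]; ring

lemma niceO : Nice fun a b : ℤ × ℤ => Sm 1 (a - b) := by
  have sy : ∀ x y : ℤ × ℤ, Sm 1 (x - y) → Sm 1 (y - x) := by
    rintro ⟨a, b⟩ ⟨c, d⟩
    simp only [Sm, Prod.fst_sub, Prod.snd_sub, abs_le]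
    omega
  refine ⟨fun x => by simp [Sm], sy, fun x y => ?_, fun ω hω => ?_⟩
  · have h0 : ∀ a b : ℤ, ReflTransGen (fun a b : ℤ × ℤ => Sm 1 (a - b)) (0, 0) (a, b) := by
      intro a b
      induction b using Int.induction_on with
      | zero =>
        induction a using Int.induction_on with
        | zero => rfl
        | succ k ih => exact ih.tail (by simp [Sm])
        | pred k ih => exact ih.tail (by simp [Sm])
      | succ k ih => exact ih.tail (by simp [Sm])
      | pred k ih => exact ih.tail (by simp [Sm])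
    have hs : ∀ x y, ReflTransGen (fun a b : ℤ × ℤ => Sm 1 (a - b)) x y →
        ReflTransGen (fun a b : ℤ × ℤ => Sm 1 (a - b)) y x := by
      intro x y q
      induction q with
      | refl => rfl
      | tail _ r ih => exact ih.head (sy _ _ r)
    exact (hs _ _ (h0 x.1 x.2)).trans (h0 y.1 y.2)
  · obtain ⟨F, -, hF⟩ := intZ fun a => ω (a, 0) (a + 1, 0)
    choose g g0 hg using fun a => intZ fun b => ω (a, b) (a, b + 1)
    have d1 : ∀ a b, ω (a, b) (a + 1, b + 1) = ω (a, b) (a + 1, b) + ω (a + 1, b) (a + 1, b + 1) :=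
      fun a b => hω _ _ _ (by simp [Sm]) (by simp [Sm]) (by simp [Sm])
    have d2 : ∀ a b, ω (a, b) (a + 1, b + 1) = ω (a, b) (a, b + 1) + ω (a, b + 1) (a + 1, b + 1) :=
      fun a b => hω _ _ _ (by simp [Sm]) (by simp [Sm]) (by simp [Sm])
    have hor : ∀ a b, ω (a, b) (a + 1, b) = F (a + 1) + g (a + 1) b - (F a + g a b) := by
      intro a b
      induction b using Int.induction_on with
      | zero => rw [g0, g0, ← hF]; ring
      | succ k ih =>
        linear_combination d1 a k - d2 a k + ih - hg (a + 1) k + hg a k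
      | pred k ih =>
        have a1 := d1 a (-k - 1)
        have a2 := d2 a (-k - 1)
        have a3 := hg (a + 1) (-k - 1)
        have a4 := hg a (-k - 1)
        simp only [sub_add_cancel] at a1 a2 a3 a4
        linear_combination a2 - a1 + ih + a3 - a4
    have z : ∀ x, ω x x = 0 := fun x => by
      have := hω x x x (by simp [Sm]) (by simp [Sm]) (by simp [Sm])
      linear_combination -this
    have sw : ∀ x y, Sm 1 (x - y) → ω y x = -ω x y := fun x y q => by
      have := hω x y x q (sy _ _ q) (by simp [Sm])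
      rw [z] at this
      linear_combination -this
    let f : ℤ × ℤ → ZMod 2 := fun p => F p.1 + g p.1 p.2
    have pos : ∀ a b c d : ℤ, (c = a ∨ c = a + 1) → (d = b ∨ d = b + 1) →
        ω (a, b) (c, d) = f (c, d) - f (a, b) := by
      rintro a b c d (rfl | rfl) (rfl | rfl)
      · rw [z, sub_self]
      · simp only [f]; linear_combination -hg c b
      · exact hor a d
      · simp only [f]; linear_combination d1 a b + hor a b - hg (a + 1) b
    refine ⟨f, ?_⟩
    rintro ⟨a, b⟩ ⟨c, d⟩ q
    have q' := q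
    simp only [Sm, Prod.fst_sub, Prod.snd_sub, abs_le] at q'
    by_cases hc : a ≤ c ∧ b ≤ d
    · exact pos a b c d (by omega) (by omega)
    · rw [sw _ _ (sy _ _ q), pos c d a b (by omega) (by omega)]; ring

def FA (G : Type) [Group G] : Prop :=
  ∀ (V : Type) [MulAction G V] [Nonempty V] (T : TM V), Act T G → ∃ v : V, ∀ g : G, g • v = v

theorem nerve {E G : Type} [Group G] [MulAction G E] [Nonempty E] {R : E → E → Prop}
    (h : Nice R) (hR : ∀ (g : G) x y, R x y → R (g • x) (g • y)) (c : E → Bool)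
    (hc : ∀ (g : G) x, c (g • x) = c x) (fa : FA G) :
    ∃ z : E, ∀ g : G, ReflTransGen (fun x y => R x y ∧ c x = c y) z (g • z) := by
  classical
  let Q : E → E → Prop := fun x y => R x y ∧ c x = c y
  have hs : ∀ x y, ReflTransGen Q x y → ReflTransGen Q y x := by
    intro x y q
    induction q with
    | refl => rfl
    | tail _ r ih => exact ih.head ⟨h.symm _ _ r.1, r.2.symm⟩
  let s : Setoid E := ⟨ReflTransGen Q, ⟨fun _ => .refl, hs _ _, .trans⟩⟩
  let V := Quotient s
  let mk : E → V := Quotient.mk s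
  have ex : ∀ x y, mk x = mk y ↔ ReflTransGen Q x y := fun x y => Quotient.eq
  have cc : ∀ x y, mk x = mk y → c x = c y := by
    intro x y q
    rw [ex] at q
    induction q with
    | refl => rfl
    | tail _ r ih => exact ih.trans r.2
  have mq : ∀ x y, R x y → c x = c y → mk x = mk y := fun x y a b =>
    (ex x y).2 (.single ⟨a, b⟩)
  let N : SimpleGraph V :=
    { Adj := fun C D => ∃ x y, mk x = C ∧ mk y = D ∧ R x y ∧ c x ≠ c y
      symm := ⟨fun C D ⟨x, y, a, b, p, q⟩ => ⟨y, x, b, a, h.symm _ _ p, q.symm⟩⟩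
      loopless := ⟨fun C ⟨x, y, a, b, _, q⟩ => q (cc x y (a.trans b.symm))⟩ }
  have : Nonempty V := ⟨mk (Classical.arbitrary E)⟩
  have con : N.Connected := by
    refine ⟨fun C D => ?_⟩
    obtain ⟨x, rfl⟩ := Quotient.exists_rep C
    obtain ⟨y, rfl⟩ := Quotient.exists_rep D
    induction h.conn x y with
    | refl => rfl
    | tail _ r ih =>
      rename_i y z _
      refine ih.trans ?_
      by_cases q : c y = c z
      · have : Quotient.mk s y = Quotient.mk s z := mq y z r q
        rw [this]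
      · exact SimpleGraph.Adj.reachable ⟨y, z, rfl, rfl, r, q⟩
  have wall : ∀ C D, N.Adj C D → ∃ f : V → ZMod 2, f C ≠ f D ∧
      ∀ a b, N.Adj a b → ¬ ((a = C ∧ b = D) ∨ (a = D ∧ b = C)) → f a = f b := by
    intro C D hCD
    have hne : C ≠ D := hCD.ne
    let o : V → V → ZMod 2 := fun a b => if (a = C ∧ b = D) ∨ (a = D ∧ b = C) then 1 else 0
    have o0 : ∀ a, o a a = 0 := fun a => if_neg (by
      rintro (⟨p, q⟩ | ⟨p, q⟩)
      · exact hne (p.symm.trans q)
      · exact hne (q.symm.trans p))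
    have os : ∀ a b, o a b = o b a := fun a b => if_congr (by tauto) rfl rfl
    obtain ⟨f, hf⟩ := h.sc (fun x y => o (mk x) (mk y)) (by
      intro x y z p q r
      by_cases e1 : c x = c y
      · rw [mq x y p e1, o0, zero_add]
      by_cases e2 : c y = c z
      · rw [mq y z q e2, o0, add_zero]
      have e3 : c x = c z := by
        revert e1 e2
        cases c x <;> cases c y <;> cases c z <;> simp
      rw [mq x z r e3, o0, os (mk z), CharTwo.add_self_eq_zero])
    have fl : ∀ x y, ReflTransGen Q x y → f x = f y := by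
      intro x y q
      induction q with
      | refl => rfl
      | tail _ r ih =>
        have := hf _ _ r.1
        rw [mq _ _ r.1 r.2, o0] at this
        rw [ih]; linear_combination this
    refine ⟨Quotient.lift f fl, ?_, ?_⟩
    · obtain ⟨x, y, rfl, rfl, p, -⟩ := hCD
      have := hf x y p
      simp only [o, true_and, true_or, if_true] at this
      intro q
      have q' : f x = f y := q
      rw [q', sub_self] at this
      exact one_ne_zero this
    · rintro a b ⟨x, y, rfl, rfl, p, -⟩ q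
      have := hf x y p
      simp only [o, if_neg q] at this
      show f x = f y
      linear_combination this
  have lf : ∀ (g : G) x y, ReflTransGen Q x y → ReflTransGen Q (g • x) (g • y) :=
    fun g x y q => rlift (R' := Q) (fun x => g • x)
      (fun a b r => ⟨hR g a b r.1, by rw [hc, hc, r.2]⟩) q
  let _ : MulAction G V :=
    { smul := fun g => Quotient.map (fun x => g • x) (lf g)
      one_smul := fun C => by
        obtain ⟨x, rfl⟩ := Quotient.exists_rep C
        show mk ((1 : G) • x) = mk x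
        rw [one_smul]
      mul_smul := fun g k C => by
        obtain ⟨x, rfl⟩ := Quotient.exists_rep C
        show mk ((g * k) • x) = mk (g • k • x)
        rw [mul_smul] }
  have sm : ∀ (g : G) x, g • mk x = mk (g • x) := fun _ _ => rfl
  have ad : ∀ (g : G) a b, N.Adj a b → N.Adj (g • a) (g • b) := by
    rintro g a b ⟨x, y, rfl, rfl, p, q⟩
    exact ⟨g • x, g • y, rfl, rfl, hR g x y p, by rwa [hc, hc]⟩
  have A : Act (ofWalls N con wall) G := by
    refine ⟨fun g x y => ?_, fun g x => ?_⟩
    · rw [ofWalls_d]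
      refine le_antisymm (dist_map_le con _ (ad g) x y) ?_
      simpa using dist_map_le con _ (ad g⁻¹) (g • x) (g • y)
    · rw [ofWalls_d]
      intro q
      obtain ⟨x, y, rfl, b, -, q⟩ := SimpleGraph.dist_eq_one_iff_adj.1 q
      rw [sm] at b
      exact q ((hc g x).symm.trans (cc _ _ b).symm)
  obtain ⟨v, hv⟩ := fa V (ofWalls N con wall) A
  obtain ⟨z, rfl⟩ := Quotient.exists_rep v
  exact ⟨z, fun g => (ex _ _).1 (hv g).symm⟩

end Pool.Agent.H41.Fdc
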