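import Pool.Agent.H41.Fdc2

set_option autoImplicit false
open Relation

/- A torsion-free crystallographic group of dimension eight with holonomy (Z/3)^2. -/

namespace Pool.Agent.H41.Fdc

section rot
variable {R : Type} [CommRing R]

def rot (k : ZMod 3) (p : R × R) : R × R :=
  if k = 0 then p else if k = 1 then (-p.2, p.1 - p.2) else (p.2 - p.1, -p.1)

lemma z3 (k : ZMod 3) : k = 0 ∨ k = 1 ∨ k = 2 := by revert k; decide

@[simp] lemma rot0 (p : R × R) : rot 0 p = p := if_pos rfl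
lemma rot1 (p : R × R) : rot 1 p = (-p.2, p.1 - p.2) := by
  rw [rot, if_neg (by decide), if_pos rfl]
lemma rot2 (p : R × R) : rot 2 p = (p.2 - p.1, -p.1) := by
  rw [rot, if_neg (by decide), if_neg (by decide)]

lemma rot_rot (k l : ZMod 3) (p : R × R) : rot k (rot l p) = rot (k + l) p := by
  have e1 : (1 + 1 : ZMod 3) = 2 := by decide
  have e2 : (1 + 2 : ZMod 3) = 0 := by decide
  have e3 : (2 + 1 : ZMod 3) = 0 := by decide
  have e4 : (2 + 2 : ZMod 3) = 1 := by decide
  rcases z3 k with rfl | rfl | rfl <;> rcases z3 l with rfl | rfl | rfl <;>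
    simp only [rot0, zero_add, add_zero, e1, e2, e3, e4, rot1, rot2] <;>
    ext <;> simp only <;> ring

lemma rot_add (k : ZMod 3) (p q : R × R) : rot k (p + q) = rot k p + rot k q := by
  rcases z3 k with rfl | rfl | rfl <;> simp only [rot0, rot1, rot2] <;> ext <;> simp <;> ring

lemma rot_smul (k : ZMod 3) (c : R) (p : R × R) : rot k (c • p) = c • rot k p := by
  rcases z3 k with rfl | rfl | rfl <;> simp only [rot0, rot1, rot2] <;> ext <;> simp <;> ring

lemma rot_neg (k : ZMod 3) (p : R × R) : rot k (-p) = -rot k p := by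
  rw [← neg_one_smul R, rot_smul, neg_one_smul]

lemma rot_sub (k : ZMod 3) (p q : R × R) : rot k (p - q) = rot k p - rot k q := by
  rw [sub_eq_add_neg, rot_add, rot_neg, sub_eq_add_neg]

@[simp] lemma rot_zero (k : ZMod 3) : rot k (0 : R × R) = 0 := by
  rw [← zero_smul R (0 : R × R), rot_smul, zero_smul, zero_smul]

lemma rot_map {S : Type} [CommRing S] (φ : R →+* S) (k : ZMod 3) (p : R × R) :
    Prod.map φ φ (rot k p) = rot k (Prod.map φ φ p) := by
  rcases z3 k with rfl | rfl | rfl <;> simp only [rot0, rot1, rot2] <;> ext <;> simp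

def cst (R : Type) [CommRing R] (p : ℤ × ℤ) : R × R := ((p.1 : R), (p.2 : R))

lemma cst_rot (k : ZMod 3) (p : ℤ × ℤ) : cst R (rot k p) = rot k (cst R p) :=
  rot_map (Int.castRingHom R) k p

lemma cst_add (p q : ℤ × ℤ) : cst R (p + q) = cst R p + cst R q := by ext <;> simp [cst]

@[simp] lemma cst_zero : cst R 0 = 0 := by ext <;> simp [cst]

@[simp] lemma cst_int (p : ℤ × ℤ) : cst ℤ p = p := rfl

end rot

def res (p : ℤ × ℤ) : ZMod 3 := (p.1 : ZMod 3) + p.2

lemma res_add (p q : ℤ × ℤ) : res (p + q) = res p + res q := by simp [res]; ring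
lemma res_neg (p : ℤ × ℤ) : res (-p) = -res p := by simp [res]; ring
lemma res_smul (c : ℤ) (p : ℤ × ℤ) : res (c • p) = c * res p := by simp [res]; ring
lemma res_rot (k : ZMod 3) (p : ℤ × ℤ) : res (rot k p) = res p := by
  have h3 : (3 : ZMod 3) = 0 := by decide
  rcases z3 k with rfl | rfl | rfl
  · rfl
  · simp only [rot1, res]; push_cast; linear_combination (-(p.2 : ZMod 3)) * h3
  · simp only [rot2, res]; push_cast; linear_combination (-(p.1 : ZMod 3)) * h3

lemma sm_rot {ρ : ℤ} (k : ZMod 3) {p : ℤ × ℤ} (h : Sm ρ p) : Sm ρ (rot k p) := by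
  rcases z3 k with rfl | rfl | rfl
  · exact h
  · simp only [rot1, Sm, abs_le] at *; omega
  · simp only [rot2, Sm, abs_le] at *; omega

lemma Sm.add {ρ ρ' : ℤ} {p q : ℤ × ℤ} (h : Sm ρ p) (h' : Sm ρ' q) : Sm (ρ + ρ') (p + q) := by
  simp only [Sm, abs_le, Prod.fst_add, Prod.snd_add] at *; omega

lemma Sm.neg {ρ : ℤ} {p : ℤ × ℤ} (h : Sm ρ p) : Sm ρ (-p) := by
  simp only [Sm, abs_le, Prod.fst_neg, Prod.snd_neg] at *; omega

lemma Sm.mono {ρ ρ' : ℤ} {p : ℤ × ℤ} (h : Sm ρ p) (h' : ρ ≤ ρ') : Sm ρ' p := by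
  simp only [Sm, abs_le] at *; omega

abbrev F3 : Type := ZMod 3 × ZMod 3

def chi (i : Fin 4) (f : F3) : ZMod 3 := ![f.1, f.2, f.1 + f.2, f.1 - f.2] i
def eta (i : Fin 4) (f : F3) : ZMod 3 := ![f.2, f.1, f.1, f.1] i

lemma chi_add : ∀ (i : Fin 4) (f g : F3), chi i (f + g) = chi i f + chi i g := by decide
lemma eta_add : ∀ (i : Fin 4) (f g : F3), eta i (f + g) = eta i f + eta i g := by decide
lemma chi_neg : ∀ (i : Fin 4) (f : F3), chi i (-f) = -chi i f := by decide
lemma eta_neg : ∀ (i : Fin 4) (f : F3), eta i (-f) = -eta i f := by decide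
@[simp] lemma chi_zero : ∀ i : Fin 4, chi i 0 = 0 := by decide
@[simp] lemma eta_zero : ∀ i : Fin 4, eta i 0 = 0 := by decide
lemma chi_eta : ∀ f : F3, f ≠ 0 → ∃ i, chi i f = 0 ∧ eta i f ≠ 0 := by decide
lemma chi_one : ∀ i : Fin 4, ∃ f : F3, chi i f = 1 := by decide

abbrev E8 (R : Type) : Type := Fin 4 → R × R

@[ext] structure Gam where
  f : F3
  t : E8 ℤ
  h : ∀ i, res (t i) = eta i f

instance : Mul Gam := ⟨fun a b => ⟨a.f + b.f, fun i => rot (chi i a.f) (b.t i) + a.t i, fun i => by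
  rw [res_add, res_rot, a.h, b.h, eta_add, add_comm]⟩⟩
instance : One Gam := ⟨⟨0, 0, fun i => by simp [res]⟩⟩
instance : Inv Gam := ⟨fun a => ⟨-a.f, fun i => -rot (-chi i a.f) (a.t i), fun i => by
  rw [res_neg, res_rot, a.h, eta_neg]⟩⟩

@[simp] lemma mul_f (a b : Gam) : (a * b).f = a.f + b.f := rfl
@[simp] lemma mul_t (a b : Gam) (i : Fin 4) : (a * b).t i = rot (chi i a.f) (b.t i) + a.t i := rfl
@[simp] lemma one_f : (1 : Gam).f = 0 := rfl
@[simp] lemma one_t (i : Fin 4) : (1 : Gam).t i = 0 := rfl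
@[simp] lemma inv_f (a : Gam) : a⁻¹.f = -a.f := rfl
@[simp] lemma inv_t (a : Gam) (i : Fin 4) : a⁻¹.t i = -rot (-chi i a.f) (a.t i) := rfl

instance : Group Gam := Group.ofLeftAxioms
  (fun a b c => Gam.ext (add_assoc _ _ _) (funext fun i => by
    simp only [mul_t, mul_f, rot_add, rot_rot, chi_add, add_assoc]))
  (fun a => Gam.ext (zero_add _) (funext fun i => by simp))
  (fun a => Gam.ext (neg_add_cancel _) (funext fun i => by simp [chi_neg]))

def act {R : Type} [CommRing R] (a : Gam) (x : E8 R) : E8 R :=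
  fun i => rot (chi i a.f) (x i) + cst R (a.t i)

lemma act_one {R : Type} [CommRing R] (x : E8 R) : act 1 x = x := by funext i; simp [act]

lemma act_mul {R : Type} [CommRing R] (a b : Gam) (x : E8 R) :
    act (a * b) x = act a (act b x) := by
  funext i
  simp only [act, mul_t, mul_f, rot_add, rot_rot, chi_add, cst_add, cst_rot, add_assoc]

lemma act_sub {R : Type} [CommRing R] (a : Gam) (x y : E8 R) (i : Fin 4) :
    act a x i - act a y i = rot (chi i a.f) (x i - y i) := by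
  simp only [act, rot_sub]; abel

def phi (M : ℤ) (hM : (M : ZMod 3) = 1) : Gam →* Gam where
  toFun a := ⟨a.f, fun i => M • a.t i, fun i => by rw [res_smul, hM, one_mul, a.h]⟩
  map_one' := Gam.ext rfl (funext fun i => by simp)
  map_mul' a b := Gam.ext rfl (funext fun i => by
    show M • (a * b).t i = rot (chi i a.f) (M • b.t i) + M • a.t i
    rw [mul_t, smul_add, rot_smul])

def Box (ρ : ℤ) : Set Gam := {a | ∀ i, Sm ρ (a.t i)}

lemma box_finite (ρ : ℤ) : (Box ρ).Finite := by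
  have h : ((Set.univ : Set F3) ×ˢ
      Set.Icc (fun _ => (-ρ, -ρ) : E8 ℤ) (fun _ => (ρ, ρ))).Finite :=
    Set.finite_univ.prod (Set.finite_Icc _ _)
  refine (h.preimage (f := fun a : Gam => (a.f, a.t)) ?_).subset ?_
  · intro a _ b _ e
    exact Gam.ext (congrArg Prod.fst e) (congrArg Prod.snd e)
  · intro a ha
    refine ⟨trivial, fun i => ?_, fun i => ?_⟩
    · exact ⟨(abs_le.1 (ha i).1).1, (abs_le.1 (ha i).2.1).1⟩
    · exact ⟨(abs_le.1 (ha i).1).2, (abs_le.1 (ha i).2.1).2⟩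

/-- Translation by three times a lattice vector. -/
def tr (a : E8 ℤ) : Gam := ⟨0, fun i => (3 : ℤ) • a i, fun i => by
  rw [res_smul, eta_zero]
  have : ((3 : ℤ) : ZMod 3) = 0 := by decide
  rw [this, zero_mul]⟩

lemma tr_add (a b : E8 ℤ) : tr (a + b) = tr a * tr b :=
  Gam.ext (by simp [tr]) (funext fun i => by simp [tr, add_comm])

lemma act_tr (a z : E8 ℤ) (i : Fin 4) : act (tr a) z i = z i + (3 : ℤ) • a i := by
  simp [act, tr]

lemma cover (z : E8 ℤ) : ∃ a, ∀ i, Sm 2 (act (tr a) z i) := by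
  refine ⟨fun i => (-((z i).1 / 3), -((z i).2 / 3)), fun i => ?_⟩
  rw [act_tr]
  simp only [Sm, abs_le, Prod.fst_add, Prod.snd_add, Prod.smul_mk, smul_eq_mul]
  omega

theorem fa_gam : FA Gam := by
  intro V _ _ T A
  obtain ⟨v⟩ := (inferInstance : Nonempty V)
  let τ : Fin 4 → ℤ × ℤ → Gam := fun i a => tr (Pi.single i a)
  have hτ : ∀ i a b, τ i (a + b) = τ i a * τ i b := fun i a b => by
    simp only [τ, Pi.single_add, tr_add]
  have el : ∀ i a, ∃ u : V, τ i a • u = u := by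
    intro i
    obtain ⟨f, hf⟩ := chi_one i
    let σ : Gam := ⟨f, fun j => (((eta j f).val : ℤ), 0), fun j => by simp [res]⟩
    refine A.ell (τ i) (hτ i) (AddMonoidHom.mk' (rot 1) (rot_add 1)) (fun a => ?_) σ fun a => ?_
    · simp only [AddMonoidHom.mk'_apply, rot1]
      ext <;> simp <;> ring
    · rw [mul_inv_eq_iff_eq_mul]
      refine Gam.ext (by simp [τ, tr]) (funext fun j => ?_)
      simp only [mul_t, τ, tr, chi_zero, rot0, AddMonoidHom.mk'_apply]
      rw [add_comm (σ.t j)]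
      congr 1
      by_cases e : j = i
      · subst e
        simp only [Pi.single_eq_same, rot_smul, σ, hf]
      · simp [Pi.single_eq_of_ne e]
  have τz : ∀ i a (n : ℤ), τ i (n • a) = τ i a ^ n := fun i a n =>
    map_zpow (MonoidHom.mk' (fun a : Multiplicative (ℤ × ℤ) => τ i a.toAdd) (hτ i))
      (Multiplicative.ofAdd a) n
  have b1 : ∀ i, ∃ B, ∀ a, T.d v (τ i a • v) ≤ B := by
    intro i
    obtain ⟨u, hu⟩ := el i (1, 0)
    obtain ⟨u', hu'⟩ := el i (0, 1)
    refine ⟨2 * T.d v u + 2 * T.d v u', fun a => ?_⟩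
    have e : a = a.1 • ((1, 0) : ℤ × ℤ) + a.2 • ((0, 1) : ℤ × ℤ) := by ext <;> simp
    rw [e, hτ, τz, τz]
    exact (A.mul_le _ _ _).trans (add_le_add (A.zbdd _ _ hu _ _) (A.zbdd _ _ hu' _ _))
  choose B hB using b1
  have b2 : ∀ a, T.d v (tr a • v) ≤ B 0 + B 1 + B 2 + B 3 := by
    intro a
    have e : tr a = τ 0 (a 0) * τ 1 (a 1) * τ 2 (a 2) * τ 3 (a 3) := by
      simp only [τ, ← tr_add]
      congr 1
      funext i
      fin_cases i <;> simp
    rw [e]
    have h1 := A.mul_le v (τ 0 (a 0) * τ 1 (a 1) * τ 2 (a 2)) (τ 3 (a 3))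
    have h2 := A.mul_le v (τ 0 (a 0) * τ 1 (a 1)) (τ 2 (a 2))
    have h3 := A.mul_le v (τ 0 (a 0)) (τ 1 (a 1))
    have := hB 0 (a 0)
    have := hB 1 (a 1)
    have := hB 2 (a 2)
    have := hB 3 (a 3)
    omega
  obtain ⟨C, hC⟩ := ((box_finite 2).image fun g => T.d v (g • v)).bddAbove
  refine A.fix_of_bdd (B 0 + B 1 + B 2 + B 3 + C) v fun g => ?_
  obtain ⟨a, ha⟩ := cover g.t
  have h1 : tr a * g ∈ Box 2 := fun i => ha i
  have h2 := A.mul_le v (tr a)⁻¹ (tr a * g)
  rw [inv_mul_cancel_left, A.inv_eq] at h2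
  have h3 : T.d v ((tr a * g) • v) ≤ C := hC ⟨_, h1, rfl⟩
  have := b2 a
  omega

/-- Every two-colouring invariant under a congruence copy has an invariant component. -/
theorem core (M : ℤ) (hM : (M : ZMod 3) = 1) (c : Gam → Bool)
    (hc : ∀ g δ, c (g * phi M hM δ) = c g) :
    ∃ g, ∀ δ, ReflTransGen (fun a b => b * a⁻¹ ∈ Box 5 ∧ c a = c b) g (g * phi M hM δ) := by
  classical
  let _ : MulAction Gam (E8 ℤ) :=
    { smul := fun g z => act (phi M hM g) z
      one_smul := fun z => by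
        show act (phi M hM 1) z = z
        rw [map_one, act_one]
      mul_smul := fun g k z => by
        show act (phi M hM (g * k)) z = act (phi M hM g) (act (phi M hM k) z)
        rw [map_mul, act_mul] }
  have sm : ∀ (g : Gam) (z : E8 ℤ), g • z = act (phi M hM g) z := fun _ _ => rfl
  let near : Gam → E8 ℤ → Prop := fun g z => ∀ i, Sm 2 (act g z i)
  let c' : E8 ℤ → Bool := fun z => decide (∃ g, near g z ∧ c g = true)
  have nr : ∀ g δ z, near g (δ • z) ↔ near (g * phi M hM δ) z := fun g δ z => by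
    simp only [near, sm, act_mul]
  have ex : ∀ z, ∃ g, near g z ∧ c g = c' z := by
    intro z
    by_cases h : ∃ g, near g z ∧ c g = true
    · obtain ⟨g, h1, h2⟩ := h
      exact ⟨g, h1, by rw [h2]; exact (decide_eq_true ⟨g, h1, h2⟩).symm⟩
    · obtain ⟨a, ha⟩ := cover z
      refine ⟨tr a, ha, ?_⟩
      have : c' z = false := decide_eq_false h
      rw [this]
      exact Bool.eq_false_iff.2 fun q => h ⟨_, ha, q⟩
  have hc' : ∀ (δ : Gam) z, c' (δ • z) = c' z := by
    intro δ z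
    simp only [c', decide_eq_decide]
    constructor
    · rintro ⟨g, h1, h2⟩
      exact ⟨_, (nr _ _ _).1 h1, by rw [hc, h2]⟩
    · rintro ⟨g, h1, h2⟩
      refine ⟨g * phi M hM δ⁻¹, (nr _ _ _).2 ?_, by rw [hc, h2]⟩
      rwa [mul_assoc, ← map_mul, inv_mul_cancel, map_one, mul_one]
  obtain ⟨z, hz⟩ := nerve (G := Gam) (niceO.pi 4) (fun g x y h i => by
    rw [sm, sm, act_sub]; exact sm_rot _ (h i)) c' hc' fa_gam
  have bx : ∀ x y g k, (∀ i, Sm 1 (x i - y i)) → near g x → near k y → k * g⁻¹ ∈ Box 5 := by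
    intro x y g k h h1 h2 i
    have e1 : act (k * g⁻¹) (act g x) = act k x := by
      rw [← act_mul, inv_mul_cancel_right]
    have e2 : (k * g⁻¹).t i = (act k x i - act k y i + act k y i) +
        -rot (chi i (k * g⁻¹).f) (act g x i) := by
      rw [sub_add_cancel, ← e1]; simp only [act, cst_int]; abel
    rw [e2, act_sub]
    exact ((sm_rot _ (h i)).add (h2 i)).add (sm_rot _ (h1 i)).neg
  have ch : ∀ x y, ReflTransGen (fun x y : E8 ℤ => (∀ i, Sm 1 (x i - y i)) ∧ c' x = c' y) x y →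
      ∀ g k, near g x → c g = c' x → near k y → c k = c' y →
        ReflTransGen (fun a b => b * a⁻¹ ∈ Box 5 ∧ c a = c b) g k := by
    intro x y q g
    induction q with
    | refl =>
      intro k h1 h2 h3 h4
      exact .single ⟨bx x x g k (fun i => by simp [Sm]) h1 h3, h2.trans h4.symm⟩
    | tail _ r ih =>
      rename_i y y' _
      intro k h1 h2 h3 h4
      obtain ⟨m, m1, m2⟩ := ex y
      exact (ih m h1 h2 m1 m2).tail ⟨bx y y' m k r.1 m1 h3, by rw [m2, h4, r.2]⟩
  obtain ⟨g, g1, g2⟩ := ex z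
  refine ⟨g, fun δ => ch z _ (hz δ⁻¹) g _ g1 g2 ((nr _ _ _).2 ?_) (by rw [hc, hc', g2])⟩
  rwa [mul_assoc, ← map_mul, mul_inv_cancel, map_one, mul_one]

end Pool.Agent.H41.Fdc
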