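import Mathlib

set_option autoImplicit false
open Set

/- Etale groupoids, dynamic asymptotic dimension, finite dynamical complexity, amenability,
and finite decomposition complexity of groups. -/

namespace Pool.Agent.H41.Fdc

/-- A topological groupoid structure on the space `G` of arrows whose source and range maps
`s r : G → G` are local homeomorphisms. The product `mul g h` matters only when `s g = r h`.
(Local compactness and the Hausdorff property are added as hypotheses on `G`.) -/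
structure EGroupoid (G : Type) [TopologicalSpace G] where
  s : G → G
  r : G → G
  mul : G → G → G
  inv : G → G
  s_s : ∀ g, s (s g) = s g
  r_s : ∀ g, r (s g) = s g
  s_r : ∀ g, s (r g) = r g
  r_r : ∀ g, r (r g) = r g
  s_mul : ∀ g h, s g = r h → s (mul g h) = s h
  r_mul : ∀ g h, s g = r h → r (mul g h) = r g
  assoc : ∀ g h k, s g = r h → s h = r k → mul (mul g h) k = mul g (mul h k)
  r_mul_self : ∀ g, mul (r g) g = g
  self_mul_s : ∀ g, mul g (s g) = g
  s_inv : ∀ g, s (inv g) = r g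
  r_inv : ∀ g, r (inv g) = s g
  mul_inv : ∀ g, mul g (inv g) = r g
  inv_mul : ∀ g, mul (inv g) g = s g
  cont_mul : ContinuousOn (fun p : G × G => mul p.1 p.2) {p | s p.1 = r p.2}
  cont_inv : Continuous inv
  s_loc : IsLocalHomeomorph s
  r_loc : IsLocalHomeomorph r

namespace EGroupoid

variable {G : Type} [TopologicalSpace G] (E : EGroupoid G)

/-- The unit space. -/
def units : Set G := {x | E.s x = x}

/-- Subgroupoids: closed under inversion and under products of composable pairs. -/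
def IsSub (H : Set G) : Prop :=
  (∀ g ∈ H, E.inv g ∈ H) ∧ ∀ g ∈ H, ∀ h ∈ H, E.s g = E.r h → E.mul g h ∈ H

/-- The subgroupoid generated by a set. -/
def gen (A : Set G) : Set G := ⋂₀ {H | E.IsSub H ∧ A ⊆ H}

/-- Dynamic asymptotic dimension at most `d`. -/
def DadLe (d : ℕ) : Prop :=
  ∀ K : Set G, IsOpen K → IsCompact (closure K) → ∃ U : Fin (d + 1) → Set G,
    (∀ i, IsOpen (U i) ∧ U i ⊆ E.units) ∧ E.s '' K ∪ E.r '' K ⊆ ⋃ i, U i ∧
      ∀ i, IsCompact (closure (E.gen {g ∈ K | E.s g ∈ U i ∧ E.r g ∈ U i}))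

/-- Decomposability, version with `s h, r h ∈ U i` and containment in a member of `C`. -/
def Decomp (C : Set (Set G)) (H : Set G) : Prop :=
  ∀ K : Set G, IsOpen K → IsCompact (closure K) → K ⊆ H → ∃ U₀ U₁ : Set G,
    IsOpen U₀ ∧ IsOpen U₁ ∧ U₀ ∪ U₁ = H ∩ E.units ∧
      (∃ L ∈ C, E.gen {h ∈ K | E.s h ∈ U₀ ∧ E.r h ∈ U₀} ⊆ L) ∧
      (∃ L ∈ C, E.gen {h ∈ K | E.s h ∈ U₁ ∧ E.r h ∈ U₁} ⊆ L)

/-- Decomposability, version with `s h ∈ U i` and membership in `C`. -/
def Decomp' (C : Set (Set G)) (H : Set G) : Prop :=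
  ∀ K : Set G, IsOpen K → IsCompact (closure K) → K ⊆ H → ∃ U₀ U₁ : Set G,
    IsOpen U₀ ∧ IsOpen U₁ ∧ U₀ ∪ U₁ = H ∩ E.units ∧
      E.gen {h ∈ K | E.s h ∈ U₀} ∈ C ∧ E.gen {h ∈ K | E.s h ∈ U₁} ∈ C

/-- Finite dynamical complexity: `G` lies in the smallest set of open subgroupoids that contains
the relatively compact ones and is closed under `Decomp`. -/
def FDC : Prop :=
  ∀ C : Set (Set G), (∀ H ∈ C, IsOpen H ∧ E.IsSub H) →
    (∀ H, IsOpen H → E.IsSub H → IsCompact (closure H) → H ∈ C) →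
    (∀ H, IsOpen H → E.IsSub H → E.Decomp C H → H ∈ C) → univ ∈ C

/-- Finite dynamical complexity, defined with `Decomp'`. -/
def FDC' : Prop :=
  ∀ C : Set (Set G), (∀ H ∈ C, IsOpen H ∧ E.IsSub H) →
    (∀ H, IsOpen H → E.IsSub H → IsCompact (closure H) → H ∈ C) →
    (∀ H, IsOpen H → E.IsSub H → E.Decomp' C H → H ∈ C) → univ ∈ C

/-- All isotropy groups are trivial. -/
def Principal : Prop := ∀ g, E.r g = E.s g → g = E.s g

/-- Topological amenability. -/
def Amenable : Prop :=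
  ∃ (ι : Type) (_ : Preorder ι), Nonempty ι ∧ IsDirectedOrder ι ∧ ∃ ξ : ι → G → ℝ,
    (∀ i, Continuous (ξ i) ∧ HasCompactSupport (ξ i) ∧ (∀ g, 0 ≤ ξ i g) ∧
      ∀ x ∈ E.units, HasSum (fun h : {h : G // E.r h = x} => ξ i h) 1) ∧
    ∀ C : Set G, IsCompact C → ∀ ε : ℝ, 0 < ε → ∃ i₀, ∀ i, i₀ ≤ i → ∀ g ∈ C, ∃ a ≤ ε,
      HasSum (fun h : {h : G // E.r h = E.s g} => |ξ i (E.mul g h) - ξ i h|) a

end EGroupoid

section Trans

variable (Γ X : Type) [Group Γ] [TopologicalSpace Γ] [DiscreteTopology Γ] [TopologicalSpace X]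
  [MulAction Γ X] [ContinuousConstSMul Γ X]

lemma trans_s_loc : IsLocalHomeomorph fun p : Γ × X => ((1 : Γ), p.2) := by
  refine IsLocalHomeomorph.mk _ fun p => ?_
  let h : Γ × X ≃ₜ Γ × X := (Homeomorph.mulLeft p.1⁻¹).prodCongr (Homeomorph.refl X)
  have ho : IsOpen {q : Γ × X | q.1 = p.1} :=
    (isOpen_discrete {p.1}).preimage continuous_fst
  refine ⟨h.toOpenPartialHomeomorph.restrOpen _ ho, by simp, fun q hq => ?_⟩
  have e : q.1 = p.1 := hq.2
  show ((1 : Γ), q.2) = (p.1⁻¹ * q.1, q.2)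
  rw [e, inv_mul_cancel]

lemma trans_cont_inv : Continuous fun p : Γ × X => (p.1⁻¹, p.1 • p.2) :=
  continuous_prod_of_discrete_left.2 fun g =>
    show Continuous fun x : X => (g⁻¹, g • x) from
      continuous_const.prodMk (continuous_const_smul g)

/-- The transformation groupoid: `(g, x)` is an arrow from `x` to `g • x`. -/
def trans : EGroupoid (Γ × X) where
  s p := (1, p.2)
  r p := (1, p.1 • p.2)
  mul p q := (p.1 * q.1, q.2)
  inv p := (p.1⁻¹, p.1 • p.2)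
  s_s _ := rfl
  r_s _ := by simp
  s_r _ := rfl
  r_r _ := by simp
  s_mul _ _ _ := rfl
  r_mul g h e := by
    have : g.2 = h.1 • h.2 := congrArg Prod.snd e
    simp [mul_smul, this]
  assoc _ _ _ _ _ := by simp [mul_assoc]
  r_mul_self _ := by simp
  self_mul_s _ := by simp
  s_inv _ := rfl
  r_inv _ := by simp
  mul_inv _ := by simp
  inv_mul _ := by simp
  cont_mul := Continuous.continuousOn (by fun_prop)
  cont_inv := trans_cont_inv Γ X
  s_loc := trans_s_loc Γ X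
  r_loc := by
    let h : Γ × X ≃ₜ Γ × X :=
      { toFun := fun p => (p.1⁻¹, p.1 • p.2)
        invFun := fun p => (p.1⁻¹, p.1 • p.2)
        left_inv := fun p => by simp
        right_inv := fun p => by simp
        continuous_toFun := trans_cont_inv Γ X
        continuous_invFun := trans_cont_inv Γ X }
    exact (trans_s_loc Γ X).comp h.isLocalHomeomorph

end Trans

section Coarse

variable {Γ : Type} [Group Γ]

/-- A proper left-invariant metric on a group. -/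
structure ProperMetric (d : Γ → Γ → ℝ) : Prop where
  eq_zero : ∀ a b, d a b = 0 ↔ a = b
  symm : ∀ a b, d a b = d b a
  tri : ∀ a b c, d a c ≤ d a b + d b c
  left : ∀ g a b, d (g * a) (g * b) = d a b
  proper : ∀ R : ℝ, {g | d 1 g ≤ R}.Finite

/-- Distinct members of `P` are at distance greater than `r`. -/
def Sep (d : Γ → Γ → ℝ) (r : ℝ) (P : Set (Set Γ)) : Prop :=
  ∀ A ∈ P, ∀ B ∈ P, A ≠ B → ∃ r', r < r' ∧ ∀ a ∈ A, ∀ b ∈ B, r' ≤ d a b

/-- The family `𝒳` `r`-decomposes over the family `𝒴`. -/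
def RDec (d : Γ → Γ → ℝ) (r : ℝ) (𝒳 𝒴 : Set (Set Γ)) : Prop :=
  ∀ Z ∈ 𝒳, ∃ P₀ P₁ : Set (Set Γ), Z = ⋃₀ P₀ ∪ ⋃₀ P₁ ∧ Sep d r P₀ ∧ Sep d r P₁ ∧
    P₀ ⊆ 𝒴 ∧ P₁ ⊆ 𝒴

/-- Finite decomposition complexity of the metric space `(Γ, d)`, with families of subspaces. -/
def MetricFDC (d : Γ → Γ → ℝ) : Prop :=
  ∀ D : Set (Set (Set Γ)),
    (∀ 𝒳, (∃ R : ℝ, ∀ Z ∈ 𝒳, ∀ a ∈ Z, ∀ b ∈ Z, d a b ≤ R) → 𝒳 ∈ D) →
    (∀ 𝒳, (∀ r : ℝ, 0 < r → ∃ 𝒴 ∈ D, RDec d r 𝒳 𝒴) → 𝒳 ∈ D) → {univ} ∈ D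

/-- The group has a proper left-invariant metric and has FDC for every such metric. -/
def GroupFDC (Γ : Type) [Group Γ] : Prop :=
  (∃ d : Γ → Γ → ℝ, ProperMetric d) ∧ ∀ d : Γ → Γ → ℝ, ProperMetric d → MetricFDC d

end Coarse

end Pool.Agent.H41.Fdc
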