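import Pool.Agent.H41.Fdc3
import Pool.Agent.H41.FdcDefs

set_option autoImplicit false
open Relation Set Topology

/- The 7-adic odometer of the crystallographic group has infinite dynamical complexity. -/

namespace Pool.Agent.H41.Fdc

namespace EGroupoid
variable {G : Type} [TopologicalSpace G] (E : EGroupoid G)

lemma gen_sub (A : Set G) : E.IsSub (E.gen A) :=
  ⟨fun g h1 S hS => hS.1.1 g (h1 S hS), fun g h1 h h2 e S hS => hS.1.2 g (h1 S hS) h (h2 S hS) e⟩

lemma gen_le {A S : Set G} (hS : E.IsSub S) (h : A ⊆ S) : E.gen A ⊆ S := fun _ hp => hp S ⟨hS, h⟩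

lemma le_gen (A : Set G) : A ⊆ E.gen A := fun _ hp _ hS => hS.2 hp

lemma gen_mono {A B : Set G} (h : A ⊆ B) : E.gen A ⊆ E.gen B :=
  E.gen_le (E.gen_sub B) (h.trans (E.le_gen B))

lemma fdc_of_fdc' (h : E.FDC') : E.FDC := by
  intro C h1 h2 h3
  refine h C h1 h2 fun H a b c => h3 H a b fun K k1 k2 k3 => ?_
  obtain ⟨U0, U1, o0, o1, e, g0, g1⟩ := c K k1 k2 k3
  exact ⟨U0, U1, o0, o1, e, ⟨_, g0, E.gen_mono fun _ q => ⟨q.1, q.2.1⟩⟩,
    ⟨_, g1, E.gen_mono fun _ q => ⟨q.1, q.2.1⟩⟩⟩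

end EGroupoid

instance : Fact (Nat.Prime 7) := ⟨by norm_num⟩

abbrev X7 : Type := E8 ℤ_[7]

instance : TopologicalSpace Gam := ⊥
instance : DiscreteTopology Gam := ⟨rfl⟩

noncomputable instance : MulAction Gam X7 where
  smul := act
  one_smul := act_one
  mul_smul := act_mul

lemma smul_def (g : Gam) (x : X7) : g • x = act g x := rfl

lemma rot_cont (k : ZMod 3) : Continuous (rot k : ℤ_[7] × ℤ_[7] → ℤ_[7] × ℤ_[7]) := by
  rcases z3 k with rfl | rfl | rfl
  · exact continuous_id.congr fun p => (rot0 p).symm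
  · exact (show Continuous fun p : ℤ_[7] × ℤ_[7] => (-p.2, p.1 - p.2) by fun_prop).congr
      fun p => (rot1 p).symm
  · exact (show Continuous fun p : ℤ_[7] × ℤ_[7] => (p.2 - p.1, -p.1) by fun_prop).congr
      fun p => (rot2 p).symm

instance : ContinuousConstSMul Gam X7 :=
  ⟨fun g => continuous_pi fun i =>
    ((rot_cont (chi i g.f)).comp (continuous_apply i)).add continuous_const⟩

def Dv {R : Type} [CommRing R] (m : R) (p : R × R) : Prop := m ∣ p.1 ∧ m ∣ p.2

lemma Dv.rot {R : Type} [CommRing R] {m : R} {p : R × R} (h : Dv m p) (k : ZMod 3) :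
    Dv m (rot k p) := by
  rcases z3 k with rfl | rfl | rfl
  · exact h
  · rw [rot1]; exact ⟨h.2.neg_right, h.1.sub h.2⟩
  · rw [rot2]; exact ⟨h.2.sub h.1, h.1.neg_right⟩

/-- Congruence modulo `7 ^ n`. -/
def cg (n : ℕ) (x y : X7) : Prop := ∀ i, Dv ((7 : ℤ_[7]) ^ n) (x i - y i)

lemma cg_refl (n : ℕ) (x : X7) : cg n x x := fun i => by simp [Dv]

lemma cg.symm {n : ℕ} {x y : X7} (h : cg n x y) : cg n y x := fun i =>
  ⟨dvd_sub_comm.1 (h i).1, dvd_sub_comm.1 (h i).2⟩

lemma cg.trans {n : ℕ} {x y z : X7} (h : cg n x y) (h' : cg n y z) : cg n x z := fun i => by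
  have e : x i - z i = (x i - y i) + (y i - z i) := by abel
  rw [e]
  exact ⟨(h i).1.add (h' i).1, (h i).2.add (h' i).2⟩

lemma cg.mono {n m : ℕ} {x y : X7} (h : cg m x y) (hn : n ≤ m) : cg n x y := fun i =>
  ⟨(pow_dvd_pow _ hn).trans (h i).1, (pow_dvd_pow _ hn).trans (h i).2⟩

lemma cg.smul {n : ℕ} {x y : X7} (h : cg n x y) (g : Gam) : cg n (g • x) (g • y) := fun i => by
  rw [smul_def, smul_def, act_sub]; exact (h i).rot _

lemma cg_iff (n : ℕ) (x y : X7) : cg n x y ↔ dist x y ≤ (7 : ℝ) ^ (-n : ℤ) := by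
  have key : ∀ a b : ℤ_[7], dist a b ≤ (7 : ℝ) ^ (-n : ℤ) ↔ (7 : ℤ_[7]) ^ n ∣ a - b := by
    intro a b
    have := PadicInt.norm_le_pow_iff_mem_span_pow (p := 7) (a - b) n
    rw [Ideal.mem_span_singleton] at this
    rw [dist_eq_norm]
    exact_mod_cast this
  rw [dist_pi_le_iff (by positivity)]
  refine forall_congr' fun i => ?_
  rw [Prod.dist_eq, max_le_iff, key, key]
  rfl

lemma sat_open {n : ℕ} {U : Set X7} (h : ∀ x y, cg n y x → x ∈ U → y ∈ U) : IsOpen U := by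
  rw [isOpen_iff_mem_nhds]
  intro x hx
  refine Filter.mem_of_superset (Metric.closedBall_mem_nhds x
    (show (0 : ℝ) < (7 : ℝ) ^ (-n : ℤ) by positivity)) fun y hy => h x y ((cg_iff _ _ _).2 hy) hx

lemma cg_zero_iff (n : ℕ) (g : Gam) : cg n (g • (0 : X7)) 0 ↔ ∀ i, Dv ((7 : ℤ) ^ n) (g.t i) := by
  refine forall_congr' fun i => ?_
  have h1 := PadicInt.pow_p_dvd_int_iff (p := 7) n (g.t i).1
  have h2 := PadicInt.pow_p_dvd_int_iff (p := 7) n (g.t i).2
  simp only [smul_def, act, Pi.zero_apply, rot_zero, zero_add, sub_zero, Dv, cst]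
  push_cast at h1 h2
  rw [h1, h2]

lemma h7 (n : ℕ) : (((7 : ℤ) ^ n : ℤ) : ZMod 3) = 1 := by
  push_cast
  have : (7 : ZMod 3) = 1 := by decide
  rw [this, one_pow]

def ph (n : ℕ) : Gam →* Gam := phi (7 ^ n) (h7 n)

lemma ph_t (n : ℕ) (g : Gam) (i : Fin 4) : (ph n g).t i = (7 : ℤ) ^ n • g.t i := rfl

lemma ph_ph (n k : ℕ) (g : Gam) : ph n (ph k g) = ph (n + k) g :=
  Gam.ext rfl (funext fun i => by rw [ph_t, ph_t, ph_t, smul_smul, pow_add])

lemma cg_ph (n : ℕ) (g : Gam) : cg n (ph n g • (0 : X7)) 0 :=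
  (cg_zero_iff _ _).2 fun i => by rw [ph_t]; exact ⟨Dvd.intro _ rfl, Dvd.intro _ rfl⟩

lemma ex_ph {n : ℕ} {g : Gam} (h : cg n (g • (0 : X7)) 0) : ∃ δ, ph n δ = g := by
  rw [cg_zero_iff] at h
  choose a ha using fun i => (h i).1
  choose b hb using fun i => (h i).2
  have e : ∀ i, g.t i = (7 : ℤ) ^ n • (a i, b i) := fun i => Prod.ext (ha i) (hb i)
  refine ⟨⟨g.f, fun i => (a i, b i), fun i => ?_⟩, Gam.ext rfl (funext fun i => (e i).symm)⟩
  rw [← g.h, e, res_smul, h7, one_mul]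

noncomputable abbrev GG : EGroupoid (Gam × X7) := trans Gam X7

/-- The reduction of the groupoid to a cylinder. -/
def PP (g : Gam) (n : ℕ) : Set (Gam × X7) :=
  {p | cg n p.2 (g • (0 : X7)) ∧ cg n (p.1 • p.2) (g • (0 : X7))}

lemma fin_of_compact {K : Set (Gam × X7)} (h : IsCompact (closure K)) :
    (Prod.fst '' K).Finite :=
  (h.image continuous_fst).finite_of_discrete.subset (image_mono subset_closure)

lemma compact_of_fin {K : Set (Gam × X7)} {S : Set Gam} (hS : S.Finite)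
    (h : ∀ p ∈ K, p.1 ∈ S) : IsCompact (closure K) := by
  have hc : IsCompact (S ×ˢ (univ : Set X7)) := hS.isCompact.prod isCompact_univ
  exact hc.of_isClosed_subset isClosed_closure
    (closure_minimal (fun p hp => ⟨h p hp, trivial⟩) hc.isClosed)

lemma pp_big (g : Gam) (n : ℕ) {H : Set (Gam × X7)} (h : PP g n ⊆ H) :
    ¬ IsCompact (closure H) := by
  intro hc
  refine Set.infinite_of_injective_forall_mem
    (f := fun k : ℤ => g * ph n (tr fun _ => (k, 0)) * g⁻¹) ?_ ?_ (fin_of_compact hc)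
  · intro k l e
    have e1 : ph n (tr fun _ => (k, 0)) = ph n (tr fun _ => (l, 0)) := by simpa using e
    have e2 := congrArg (fun a : Gam => (a.t 0).1) e1
    simpa [ph_t, tr] using e2
  · intro k
    refine ⟨(_, g • (0 : X7)), h ⟨cg_refl _ _, ?_⟩, rfl⟩
    show cg n ((g * ph n (tr fun _ => (k, 0)) * g⁻¹) • g • (0 : X7)) (g • (0 : X7))
    rw [← mul_smul, inv_mul_cancel_right, mul_smul]
    exact (cg_ph _ _).smul g

def KK (g : Gam) (n : ℕ) : Set (Gam × X7) :=
  {p | p.1 ∈ (fun b => g * ph n b * g⁻¹) '' Box 5 ∧ cg n p.2 (g • (0 : X7))}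

lemma kk_open (g : Gam) (n : ℕ) : IsOpen (KK g n) :=
  ((isOpen_discrete ((fun b => g * ph n b * g⁻¹) '' Box 5)).preimage continuous_fst).inter
    ((sat_open (n := n) (U := {x | cg n x (g • (0 : X7))})
      fun _ _ a b => a.trans b).preimage continuous_snd)

lemma kk_sub (g : Gam) (n : ℕ) : KK g n ⊆ PP g n := by
  rintro ⟨_, x⟩ ⟨⟨b, -, rfl⟩, hx⟩
  refine ⟨hx, (hx.smul _).trans ?_⟩
  show cg n ((g * ph n b * g⁻¹) • g • (0 : X7)) (g • (0 : X7))
  rw [← mul_smul, inv_mul_cancel_right, mul_smul]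
  exact (cg_ph _ _).smul g

theorem key (g : Gam) (n : ℕ) (U : Bool → Set (Gam × X7)) (hU : ∀ i, IsOpen (U i))
    (hc : ∀ x, cg n x (g • (0 : X7)) → ∃ i, ((1 : Gam), x) ∈ U i) :
    ∃ i g' n', PP g' n' ⊆ GG.gen {h ∈ KK g n | GG.s h ∈ U i ∧ GG.r h ∈ U i} := by
  classical
  let V : Set X7 := {x | cg n x (g • (0 : X7))}
  have hV : IsClosed V := by
    rw [← isOpen_compl_iff]
    exact sat_open (n := n) fun x y a b q => b (a.symm.trans q)
  obtain ⟨δ, hδ, hL⟩ := lebesgue_number_lemma_of_metric (c := fun i => {x | ((1 : Gam), x) ∈ U i})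
    hV.isCompact (fun i => (hU i).preimage (by fun_prop)) fun x hx => mem_iUnion.2 (hc x hx)
  obtain ⟨k, hk⟩ := exists_pow_lt_of_lt_one hδ (show (7 : ℝ)⁻¹ < 1 by norm_num)
  have hk' : (7 : ℝ) ^ (-(n + k : ℕ) : ℤ) < δ := by
    refine lt_of_le_of_lt ?_ hk
    rw [inv_pow, ← zpow_natCast, ← zpow_neg]
    exact zpow_le_zpow_right₀ (by norm_num) (by push_cast; omega)
  let col : X7 → Bool := fun x => decide (∀ y, cg (n + k) y x → ((1 : Gam), y) ∈ U true)
  have col1 : ∀ x y, cg (n + k) x y → col x = col y := by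
    intro x y q
    simp only [col, decide_eq_decide]
    exact ⟨fun h z a => h z (a.trans q.symm), fun h z a => h z (a.trans q)⟩
  have col2 : ∀ x ∈ V, ((1 : Gam), x) ∈ U (col x) := by
    intro x hx
    by_cases q : ∀ y, cg (n + k) y x → ((1 : Gam), y) ∈ U true
    · have : col x = true := decide_eq_true q
      rw [this]; exact q x (cg_refl _ _)
    · have : col x = false := decide_eq_false q
      rw [this]
      obtain ⟨i, hi⟩ := hL x hx
      cases i with
      | false => exact hi (Metric.mem_ball_self hδ)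
      | true => exact absurd (fun y a => hi (lt_of_le_of_lt ((cg_iff _ _ _).1 a) hk')) q
  let c : Gam → Bool := fun b => col ((g * ph n b) • (0 : X7))
  obtain ⟨a, ha⟩ := core (7 ^ k) (h7 k) c (fun b d => col1 _ _ (by
    show cg (n + k) ((g * ph n (b * ph k d)) • (0 : X7)) ((g * ph n b) • (0 : X7))
    rw [map_mul, ph_ph, ← mul_assoc, mul_smul (g * ph n b)]
    exact (cg_ph _ _).smul _))
  refine ⟨c a, g * ph n a, n + k, ?_⟩
  rintro ⟨β, x⟩ ⟨h1, h2⟩
  have pt : ∀ b, cg (n + k) ((g * ph n b * (g * ph n a)⁻¹) • x) ((g * ph n b) • (0 : X7)) := by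
    intro b
    have := h1.smul (g * ph n b * (g * ph n a)⁻¹)
    rwa [← mul_smul, inv_mul_cancel_right] at this
  have pV : ∀ b, (g * ph n b * (g * ph n a)⁻¹) • x ∈ V := by
    intro b
    refine ((pt b).mono (Nat.le_add_right n k)).trans ?_
    rw [mul_smul]
    exact (cg_ph _ _).smul g
  have pU : ∀ b, ((1 : Gam), (g * ph n b * (g * ph n a)⁻¹) • x) ∈ U (c b) := by
    intro b
    have := col2 _ (pV b)
    rwa [col1 _ _ (pt b)] at this
  have st : ∀ b b', b' * b⁻¹ ∈ Box 5 → c b = c a → c b' = c a →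
      (g * ph n (b' * b⁻¹) * g⁻¹, (g * ph n b * (g * ph n a)⁻¹) • x) ∈
        GG.gen {h ∈ KK g n | GG.s h ∈ U (c a) ∧ GG.r h ∈ U (c a)} := by
    intro b b' q e e'
    refine GG.le_gen _ ⟨⟨⟨_, q, rfl⟩, pV b⟩, e ▸ pU b, ?_⟩
    have := pU b'
    rw [e'] at this
    convert this using 1
    refine Prod.ext rfl ?_
    show (g * ph n (b' * b⁻¹) * g⁻¹) • (g * ph n b * (g * ph n a)⁻¹) • x = _
    rw [← mul_smul]
    congr 1
    simp only [map_mul, map_inv]
    group
  have ch : ∀ b, ReflTransGen (fun a b => b * a⁻¹ ∈ Box 5 ∧ c a = c b) a b →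
      c b = c a ∧ (g * ph n b * (g * ph n a)⁻¹, x) ∈
        GG.gen {h ∈ KK g n | GG.s h ∈ U (c a) ∧ GG.r h ∈ U (c a)} := by
    intro b q
    induction q with
    | refl =>
      refine ⟨rfl, ?_⟩
      have := st a a (fun i => by simp [Sm]) rfl rfl
      simpa using this
    | tail _ r ih =>
      rename_i b b' _
      have e' : c b' = c a := r.2.symm.trans ih.1
      refine ⟨e', ?_⟩
      have := (GG.gen_sub _).2 _ (st b b' r.1 ih.1 e') _ ih.2 rfl
      convert this using 1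
      refine Prod.ext ?_ rfl
      show _ = g * ph n (b' * b⁻¹) * g⁻¹ * (g * ph n b * (g * ph n a)⁻¹)
      simp only [map_mul, map_inv]
      group
  have h3 : cg (n + k) (((g * ph n a)⁻¹ * β * (g * ph n a)) • (0 : X7)) 0 := by
    have := ((h1.smul β).symm.trans h2).smul (g * ph n a)⁻¹
    rwa [inv_smul_smul, ← mul_smul, ← mul_smul] at this
  obtain ⟨d, hd⟩ := ex_ph h3
  have := (ch _ (ha d)).2
  have e : g * ph n (a * phi (7 ^ k) (h7 k) d) * (g * ph n a)⁻¹ = β := by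
    change g * ph n (a * ph k d) * (g * ph n a)⁻¹ = β
    rw [map_mul, ph_ph, hd]
    group
  rwa [e] at this

theorem not_fdc : ¬ GG.FDC := by
  intro h
  have := h {H | (IsOpen H ∧ GG.IsSub H) ∧ ∀ g n, ¬ PP g n ⊆ H} (fun H q => q.1)
    (fun H a b c => ⟨⟨a, b⟩, fun g n q => pp_big g n q c⟩) (fun H a b c => ⟨⟨a, b⟩, ?_⟩)
  · exact this.2 1 0 (subset_univ _)
  intro g n q
  obtain ⟨U0, U1, o0, o1, e, ⟨L0, l0, k0⟩, ⟨L1, l1, k1⟩⟩ := c (KK g n) (kk_open g n)
    (compact_of_fin ((box_finite 5).image _) fun p hp => hp.1) ((kk_sub g n).trans q)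
  obtain ⟨i, g', n', hh⟩ := key g n (fun i => cond i U0 U1) (fun i => by cases i <;> assumption)
    (fun x hx => by
      have : ((1 : Gam), x) ∈ U0 ∪ U1 := by
        rw [e]
        exact ⟨q ⟨hx, by simpa using hx⟩, rfl⟩
      rcases this with p | p
      · exact ⟨true, p⟩
      · exact ⟨false, p⟩)
  cases i with
  | false => exact l1.2 g' n' (hh.trans k1)
  | true => exact l0.2 g' n' (hh.trans k0)

theorem free (g : Gam) (x : X7) (h : g • x = x) : g = 1 := by
  have t0 : ∀ i, chi i g.f = 0 → g.t i = 0 := by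
    intro i hi
    have := congrFun h i
    rw [smul_def, act, hi, rot0, add_eq_left] at this
    have h1 : ((g.t i).1 : ℤ_[7]) = 0 := congrArg Prod.fst this
    have h2 : ((g.t i).2 : ℤ_[7]) = 0 := congrArg Prod.snd this
    exact Prod.ext (by exact_mod_cast h1) (by exact_mod_cast h2)
  by_cases hf : g.f = 0
  · exact Gam.ext hf (funext fun i => t0 i (by rw [hf, chi_zero]))
  · obtain ⟨i, h1, h2⟩ := chi_eta _ hf
    have := g.h i
    rw [t0 i h1] at this
    exact absurd this.symm (by simpa [res] using h2)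

theorem principal : GG.Principal := by
  rintro ⟨g, x⟩ h
  have : g = 1 := free g x (congrArg Prod.snd h)
  subst this
  rfl

end Pool.Agent.H41.Fdc
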