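import Pool.Agent.H41.Fdc4

set_option autoImplicit false
open Relation Set Topology

/- The odometer groupoid has dynamic asymptotic dimension at most twelve. -/

namespace Pool.Agent.H41.Fdc

def All (P : ℤ → Prop) (p : ℤ × ℤ) : Prop := P p.1 ∧ P (-p.2) ∧ P (p.2 - p.1)

lemma All.rot {P : ℤ → Prop} {p : ℤ × ℤ} (h : All P p) (k : ZMod 3) : All P (rot k p) := by
  rcases z3 k with rfl | rfl | rfl
  · exact h
  · rw [rot1]
    refine ⟨h.2.1, by simpa using h.2.2, ?_⟩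
    have : p.1 - p.2 - -p.2 = p.1 := by ring
    simpa [this] using h.1
  · rw [rot2]
    refine ⟨h.2.2, by simpa using h.1, ?_⟩
    have : -p.1 - (p.2 - p.1) = -p.2 := by ring
    simpa [this] using h.2.1

lemma barrier {M a ρ y t : ℤ} (ha : 0 ≤ a) (hM : a + ρ ≤ M) (ht : |t| ≤ ρ)
    (hy : -2 * M + (a + ρ) ≤ y ∧ y < M + a) (hn : ¬ (a ≤ (y + t) % M ∧ (y + t) % M < a + ρ)) :
    -2 * M + (a + ρ) ≤ y + t ∧ y + t < M + a := by
  rw [abs_le] at ht
  constructor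
  · by_contra q
    have e : (y + t) % M = y + t + 2 * M := by
      rw [← Int.add_mul_emod_self_right (y + t) 2 M]
      exact Int.emod_eq_of_lt (by omega) (by omega)
    rw [e] at hn
    omega
  · by_contra q
    have e : (y + t) % M = y + t + -1 * M := by
      rw [← Int.add_mul_emod_self_right (y + t) (-1) M]
      exact Int.emod_eq_of_lt (by omega) (by omega)
    rw [e] at hn
    omega

noncomputable def up (z : E8 ℤ) : X7 := fun i => cst ℤ_[7] (z i)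

lemma up_act (g : Gam) (z : E8 ℤ) : up (act g z) = g • up z := by
  funext i
  simp only [up, smul_def, act, cst_add, cst_rot, cst_int]

lemma up_cg {m : ℕ} {z z' : E8 ℤ} (h : cg m (up z) (up z')) (i : Fin 4) :
    Dv ((7 : ℤ) ^ m) (z i - z' i) := by
  have h1 := PadicInt.pow_p_dvd_int_iff (p := 7) m (z i - z' i).1
  have h2 := PadicInt.pow_p_dvd_int_iff (p := 7) m (z i - z' i).2
  have := h i
  simp only [Dv, up, cst, Prod.fst_sub, Prod.snd_sub] at *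
  push_cast at h1 h2
  exact ⟨h1.1 this.1, h2.1 this.2⟩

lemma ex_up (m : ℕ) (x : X7) : ∃ z, cg m (up z) x ∧ ∀ i, (0 ≤ (z i).1 ∧ (z i).1 < 7 ^ m) ∧
    0 ≤ (z i).2 ∧ (z i).2 < 7 ^ m := by
  have h : ∀ y : ℤ_[7], ∃ a : ℤ, (7 : ℤ_[7]) ^ m ∣ a - y ∧ 0 ≤ a ∧ a < 7 ^ m := by
    intro y
    have h1 := Ideal.mem_span_singleton.1 (PadicInt.appr_spec m y)
    have h2 := PadicInt.appr_lt y m
    refine ⟨y.appr m, ?_, by positivity, by exact_mod_cast h2⟩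
    rw [dvd_sub_comm]
    exact_mod_cast h1
  choose a h1 h2 using h
  exact ⟨fun i => (a (x i).1, a (x i).2), fun i => ⟨h1 _, h1 _⟩, fun i => ⟨h2 _, h2 _⟩⟩

lemma box_inv {ρ : ℤ} {g : Gam} (h : g ∈ Box ρ) : g⁻¹ ∈ Box ρ := fun i => (sm_rot _ (h i)).neg

lemma box_mul {ρ ρ' : ℤ} {g k : Gam} (h : g ∈ Box ρ) (h' : k ∈ Box ρ') :
    g * k ∈ Box (ρ' + ρ) := fun i => (sm_rot _ (h' i)).add (h i)

lemma box_mono {ρ ρ' : ℤ} (h : ρ ≤ ρ') : Box ρ ⊆ Box ρ' := fun _ q i => (q i).mono h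

lemma ex_box (g : Gam) : ∃ ρ : ℕ, g ∈ Box ρ := by
  have : ∀ p : ℤ × ℤ, Sm ((p.1.natAbs + p.2.natAbs : ℕ) : ℤ) p := fun p => by
    simp only [Sm, abs_le]; omega
  refine ⟨∑ i, ((g.t i).1.natAbs + (g.t i).2.natAbs), fun i => (this (g.t i)).mono ?_⟩
  exact_mod_cast Finset.single_le_sum (f := fun i => (g.t i).1.natAbs + (g.t i).2.natAbs)
    (fun _ _ => Nat.zero_le _) (Finset.mem_univ i)

lemma fin_box {S : Set Gam} (hS : S.Finite) : ∃ ρ : ℕ, 0 < ρ ∧ S ⊆ Box ρ := by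
  choose f hf using ex_box
  obtain ⟨B, hB⟩ := (hS.image f).bddAbove
  refine ⟨B + 1, Nat.succ_pos _, fun g hg => box_mono ?_ (hf g)⟩
  have := hB ⟨g, hg, rfl⟩
  push_cast
  omega

theorem dad : GG.DadLe 12 := by
  classical
  intro K _ hK
  obtain ⟨ρ, hρ, hS⟩ := fin_box (fin_of_compact hK)
  obtain ⟨m, hm⟩ := pow_unbounded_of_one_lt (13 * (ρ : ℤ)) (show (1 : ℤ) < 7 by norm_num)
  have hρ' : (0 : ℤ) < ρ := by exact_mod_cast hρ
  let I : Fin 13 → ℤ → Prop := fun c y =>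
    ¬ ((c : ℤ) * ρ ≤ y % 7 ^ m ∧ y % 7 ^ m < (c : ℤ) * ρ + ρ)
  let W : Fin 13 → Set X7 := fun c => {x | ∀ z, cg m (up z) x → ∀ i, All (I c) (z i)}
  have cov : ∀ x, ∃ c, x ∈ W c := by
    intro x
    obtain ⟨z0, h0, -⟩ := ex_up m x
    let v : Fin 4 × Fin 3 → ℤ := fun q =>
      (![(z0 q.1).1, -(z0 q.1).2, (z0 q.1).2 - (z0 q.1).1] q.2 % 7 ^ m) / ρ
    obtain ⟨e, e1, e2⟩ := Finset.exists_mem_notMem_of_card_lt_card
      (s := Finset.univ.image v) (t := Finset.univ.image fun c : Fin 13 => (c : ℤ)) (by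
        refine lt_of_le_of_lt Finset.card_image_le ?_
        rw [Finset.card_image_of_injective _ (fun a b q => Fin.ext (by exact_mod_cast q))]
        simp)
    obtain ⟨c, -, rfl⟩ := Finset.mem_image.1 e1
    have hv : ∀ (q : Fin 4 × Fin 3) (y : ℤ),
        y % 7 ^ m = ![(z0 q.1).1, -(z0 q.1).2, (z0 q.1).2 - (z0 q.1).1] q.2 % 7 ^ m → I c y := by
      intro q y hy hh
      refine e2 (Finset.mem_image.2 ⟨q, Finset.mem_univ _, ?_⟩)
      simp only [v]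
      rw [← hy]
      have h1 : (c : ℤ) ≤ y % 7 ^ m / ρ := Int.le_ediv_of_mul_le hρ' hh.1
      have h2 : y % 7 ^ m / ρ < c + 1 := Int.ediv_lt_of_lt_mul hρ' (by linarith [hh.2])
      omega
    refine ⟨c, fun z hz i => ?_⟩
    have d := up_cg (hz.trans h0.symm) i
    simp only [Dv, Prod.fst_sub, Prod.snd_sub] at d
    refine ⟨hv (i, 0) _ ?_, hv (i, 1) _ ?_, hv (i, 2) _ ?_⟩
    · exact (Int.modEq_iff_dvd.2 (dvd_sub_comm.1 d.1) : (z i).1 ≡ (z0 i).1 [ZMOD 7 ^ m])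
    · exact ((Int.modEq_iff_dvd.2 (dvd_sub_comm.1 d.2) : (z i).2 ≡ (z0 i).2 [ZMOD 7 ^ m])).neg
    · exact ((Int.modEq_iff_dvd.2 (dvd_sub_comm.1 d.2) : (z i).2 ≡ (z0 i).2 [ZMOD 7 ^ m])).sub
        (Int.modEq_iff_dvd.2 (dvd_sub_comm.1 d.1))
  have oW : ∀ c, IsOpen (W c) := fun c =>
    sat_open (n := m) fun x y a b z hz => b z (hz.trans a)
  refine ⟨fun c => {1} ×ˢ W c, fun c => ⟨(isOpen_discrete _).prod (oW c), ?_⟩, ?_, fun c => ?_⟩
  · rintro ⟨g, x⟩ ⟨h, -⟩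
    have : g = 1 := h
    subst this
    rfl
  · rintro _ (⟨p, -, rfl⟩ | ⟨p, -, rfl⟩)
    · obtain ⟨c, hc⟩ := cov p.2
      exact mem_iUnion.2 ⟨c, rfl, hc⟩
    · obtain ⟨c, hc⟩ := cov (p.1 • p.2)
      exact mem_iUnion.2 ⟨c, rfl, hc⟩
  have c0 : (0 : ℤ) ≤ (c : ℤ) * ρ := by positivity
  have c1 : (c : ℤ) * ρ + ρ ≤ 7 ^ m := by
    have : (c : ℤ) ≤ 12 := by have := c.2; omega
    nlinarith
  let B : E8 ℤ → Prop := fun z =>
    ∀ i, All (fun y => -2 * 7 ^ m + ((c : ℤ) * ρ + ρ) ≤ y ∧ y < 7 ^ m + (c : ℤ) * ρ) (z i)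
  let P : Gam → X7 → Prop := fun g x => ∀ z, cg m (up z) x → B z → B (act g z)
  have Pm : ∀ g k x, P g (k • x) → P k x → P (g * k) x := by
    intro g k x a b z h1 h2
    rw [act_mul]
    exact a _ (by rw [up_act]; exact h1.smul k) (b z h1 h2)
  have Ps : ∀ g x, g ∈ Box ρ → g • x ∈ W c → P g x := by
    intro g x a b z h1 h2 i
    have h3 := b (act g z) (by rw [up_act]; exact h1.smul g) i
    have h4 := (h2 i).rot (chi i g.f)
    have h5 := a i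
    simp only [act, cst_int] at h3 ⊢
    generalize rot (chi i g.f) (z i) = p at h3 h4
    generalize g.t i = t at h3 h5
    refine ⟨barrier c0 c1 h5.1 h4.1 h3.1, ?_, ?_⟩
    · have e : -(p + t).2 = -p.2 + -t.2 := by simp; ring
      have := h3.2.1
      rw [e] at this ⊢
      exact barrier c0 c1 (by rw [abs_neg]; exact h5.2.1) h4.2.1 this
    · have e : (p + t).2 - (p + t).1 = p.2 - p.1 + (t.2 - t.1) := by simp; ring
      have := h3.2.2
      rw [e] at this ⊢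
      exact barrier c0 c1 h5.2.2 h4.2.2 this
  let S : Set (Gam × X7) := {p | P p.1 p.2 ∧ P p.1⁻¹ (p.1 • p.2)}
  have hS' : GG.IsSub S := by
    constructor
    · rintro ⟨g, x⟩ ⟨a, b⟩
      refine ⟨b, ?_⟩
      show P g⁻¹⁻¹ (g⁻¹ • g • x)
      rwa [inv_inv, inv_smul_smul]
    · rintro ⟨g, y⟩ ⟨a, b⟩ ⟨k, x⟩ ⟨a', b'⟩ e
      have : y = k • x := congrArg Prod.snd e
      subst this
      refine ⟨Pm g k x a a', ?_⟩
      show P (g * k)⁻¹ ((g * k) • x)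
      rw [mul_inv_rev, mul_smul]
      exact Pm _ _ _ (by rwa [inv_smul_smul]) b
  refine compact_of_fin (box_finite (3 * 7 ^ m + 3 * 7 ^ m)) fun p hp => ?_
  have hp' : p ∈ S := by
    refine GG.gen_le hS' ?_ hp
    rintro ⟨g, x⟩ ⟨a, b, d⟩
    have hg : g ∈ Box ρ := hS ⟨_, a, rfl⟩
    exact ⟨Ps g x hg d.2, Ps _ _ (box_inv hg) (by rw [inv_smul_smul]; exact b.2)⟩
  obtain ⟨z, h1, h2⟩ := ex_up m p.2
  have sB : ∀ z, B z → ∀ i, Sm (3 * 7 ^ m) (z i) := by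
    intro z hz i
    have := hz i
    simp only [All, Sm, abs_le] at this ⊢
    omega
  have b0 : B z := fun i => by
    have := h2 i
    simp only [All]
    omega
  intro i
  have e : p.1.t i = act p.1 z i + -rot (chi i p.1.f) (z i) := by simp only [act, cst_int]; abel
  rw [e]
  exact (sB _ (hp'.1 z h1 b0) i).add (sm_rot _ (sB z b0 i)).neg

end Pool.Agent.H41.Fdc
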