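import Pool.Agent.H41.Fdc5

set_option autoImplicit false
open Relation Set Topology Filter

/- Amenability of the odometer groupoid and finite decomposition complexity of the group. -/

namespace Pool.Agent.H41.Fdc

lemma poly_fol (a : ℕ → ℕ) (pos : ∀ n, 0 < a n) (C k : ℕ) (hb : ∀ n, a n ≤ C * (n + 1) ^ k)
    (m : ℕ) {ε : ℝ} (hε : 0 < ε) : ∃ n, (a (n + m) : ℝ) ≤ (1 + ε) * a n := by
  by_contra h
  push Not at h
  have g : ∀ j : ℕ, (1 + ε) ^ j ≤ (a (j * m) : ℝ) := by
    intro j
    induction j with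
    | zero => simpa using Nat.succ_le_of_lt (pos 0)
    | succ j ih =>
      rw [pow_succ', Nat.succ_mul]
      exact (mul_le_mul_of_nonneg_left ih (by linarith)).trans (h _).le
  have t := tendsto_pow_const_div_const_pow_of_one_lt k (show 1 < 1 + ε by linarith)
  have D : (0 : ℝ) < ((C : ℝ) * (m + 1) ^ k + 1)⁻¹ := by positivity
  obtain ⟨j, h1, h2⟩ := ((t.eventually (gt_mem_nhds D)).and (eventually_ge_atTop 1)).exists
  have p : (0 : ℝ) < (1 + ε) ^ j := by positivity
  rw [div_lt_iff₀ p, inv_mul_eq_div, lt_div_iff₀ (by positivity)] at h1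
  have h3 : a (j * m) ≤ C * ((m + 1) ^ k * j ^ k) := by
    refine (hb _).trans (Nat.mul_le_mul_left _ ?_)
    rw [← mul_pow]
    exact Nat.pow_le_pow_left (by nlinarith) _
  have h4 : (a (j * m) : ℝ) ≤ C * ((m + 1) ^ k * j ^ k) := by exact_mod_cast h3
  have h5 : (0 : ℝ) ≤ (j : ℝ) ^ k := by positivity
  have := g j
  nlinarith

noncomputable def BF (n : ℕ) : Finset Gam := (box_finite n).toFinset

lemma mem_BF {n : ℕ} {g : Gam} : g ∈ BF n ↔ g ∈ Box n := Set.Finite.mem_toFinset _

lemma BF_pos (n : ℕ) : 0 < (BF n).card :=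
  Finset.card_pos.2 ⟨1, mem_BF.2 fun i => by simp [Sm]⟩

lemma BF_le (n : ℕ) : (BF n).card ≤ (9 * 2 ^ 8) * (n + 1) ^ 8 := by
  have h := Finset.card_le_card_of_injOn (s := BF n) (fun a : Gam => (a.f, a.t))
    (t := (Finset.univ : Finset F3) ×ˢ
      Finset.Icc (fun _ => (-(n : ℤ), -(n : ℤ)) : E8 ℤ) (fun _ => ((n : ℤ), (n : ℤ))))
    (fun a ha => by
      have ha := mem_BF.1 ha
      simp only [Finset.coe_product, Finset.coe_univ, Finset.coe_Icc]
      refine ⟨trivial, fun i => ?_, fun i => ?_⟩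
      · exact ⟨(abs_le.1 (ha i).1).1, (abs_le.1 (ha i).2.1).1⟩
      · exact ⟨(abs_le.1 (ha i).1).2, (abs_le.1 (ha i).2.1).2⟩)
    (fun a _ b _ e => Gam.ext (congrArg Prod.fst e) (congrArg Prod.snd e))
  refine h.trans ?_
  rw [Finset.card_product, Pi.card_Icc]
  simp only [Finset.card_Icc_prod, Int.card_Icc, Finset.prod_const, Finset.card_univ,
    Fintype.card_prod, ZMod.card, Fintype.card_fin]
  have e : ((n : ℤ) + 1 - -(n : ℤ)).toNat = 2 * n + 1 := by omega
  rw [e]
  calc 3 * 3 * ((2 * n + 1) * (2 * n + 1)) ^ 4 = 9 * (2 * n + 1) ^ 8 := by ring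
    _ ≤ 9 * (2 * (n + 1)) ^ 8 := Nat.mul_le_mul_left _ (Nat.pow_le_pow_left (by omega) _)
    _ = _ := by ring

noncomputable def fib (x : X7) : Gam ≃ {h : Gam × X7 // GG.r h = (1, x)} where
  toFun g := ⟨(g, g⁻¹ • x), by
    show ((1 : Gam), g • g⁻¹ • x) = _
    rw [smul_inv_smul]⟩
  invFun h := h.1.1
  left_inv _ := rfl
  right_inv h := by
    have : h.1.1 • h.1.2 = x := congrArg Prod.snd h.2
    refine Subtype.ext (Prod.ext rfl ?_)
    show h.1.1⁻¹ • x = h.1.2
    rw [inv_smul_eq_iff, this]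

theorem amenable : GG.Amenable := by
  classical
  choose N hN using fun m : ℕ => poly_fol (fun n => (BF n).card) BF_pos _ _ BF_le m
    (show (0 : ℝ) < 1 / ((m : ℝ) + 1) by positivity)
  let u : ℕ → Gam → ℝ := fun m g => if g ∈ BF (N m) then ((BF (N m)).card : ℝ)⁻¹ else 0
  have cp : ∀ m, (0 : ℝ) < (BF (N m)).card := fun m => by exact_mod_cast BF_pos _
  refine ⟨ℕ, inferInstance, inferInstance, inferInstance, fun m p => u m p.1,
    fun m => ⟨(continuous_of_discreteTopology (f := u m)).comp continuous_fst, ?_, fun p => ?_, ?_⟩, ?_⟩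
  · refine compact_of_fin (BF (N m)).finite_toSet fun p hp => ?_
    by_contra q
    exact hp (if_neg q)
  · simp only [u]
    split_ifs
    · positivity
    · exact le_rfl
  · rintro ⟨g, x⟩ hx
    have : 1 = g := congrArg Prod.fst hx
    subst this
    rw [← (fib x).hasSum_iff]
    have : HasSum (u m) (∑ g ∈ BF (N m), u m g) :=
      hasSum_sum_of_ne_finset_zero fun b hb => if_neg hb
    rw [Finset.sum_congr rfl fun b hb => (if_pos hb : u m b = _), Finset.sum_const, nsmul_eq_mul,
      mul_inv_cancel₀ (cp m).ne'] at this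
    exact this
  · intro C hC ε hε
    obtain ⟨ρ, -, hρ⟩ := fin_box (hC.image continuous_fst).finite_of_discrete
    obtain ⟨k, hk⟩ := exists_nat_one_div_lt (show 0 < ε / 2 by positivity)
    refine ⟨max ρ k, fun m hm => ?_⟩
    rintro ⟨g, x⟩ hp
    have hg : g ∈ Box m := box_mono (by exact_mod_cast le_of_max_le_left hm) (hρ ⟨_, hp, rfl⟩)
    let D : Finset Gam := BF (N m + m) \ BF (N m)
    let v : Gam → ℝ := fun b => if b ∈ D then ((BF (N m)).card : ℝ)⁻¹ else 0
    have v0 : ∀ b, 0 ≤ v b := fun b => by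
      simp only [v]
      split_ifs
      · positivity
      · exact le_rfl
    have s1 : HasSum v (D.card * ((BF (N m)).card : ℝ)⁻¹) := by
      have : HasSum v (∑ g ∈ D, v g) := hasSum_sum_of_ne_finset_zero fun b hb => if_neg hb
      rwa [Finset.sum_congr rfl fun b hb => (if_pos hb : v b = _), Finset.sum_const,
        nsmul_eq_mul] at this
    have s2 : HasSum (fun b => v (g * b)) (D.card * ((BF (N m)).card : ℝ)⁻¹) :=
      ((Equiv.mulLeft g).hasSum_iff (f := v)).2 s1
    have le : ∀ b, |u m (g * b) - u m b| ≤ v b + v (g * b) := by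
      intro b
      have a1 := v0 b
      have a2 := v0 (g * b)
      have ci : (0 : ℝ) ≤ ((BF (N m)).card : ℝ)⁻¹ := by positivity
      by_cases h1 : b ∈ BF (N m) <;> by_cases h2 : g * b ∈ BF (N m)
      · simp only [u, if_pos h1, if_pos h2, sub_self, abs_zero]; linarith
      · have : g * b ∈ D := Finset.mem_sdiff.2 ⟨mem_BF.2 (by
          push_cast; exact box_mul hg (mem_BF.1 h1)), h2⟩
        have e : v (g * b) = _ := if_pos this
        simp only [u, if_pos h1, if_neg h2, zero_sub, abs_neg, abs_of_nonneg ci]; linarith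
      · have : b ∈ D := Finset.mem_sdiff.2 ⟨mem_BF.2 (by
          have := box_mul (box_inv hg) (mem_BF.1 h2)
          rw [inv_mul_cancel_left] at this
          push_cast; exact this), h1⟩
        have e : v b = _ := if_pos this
        simp only [u, if_pos h2, if_neg h1, sub_zero, abs_of_nonneg ci]; linarith
      · simp only [u, if_neg h1, if_neg h2, sub_self, abs_zero]; linarith
    have sm : Summable fun b => |u m (g * b) - u m b| :=
      Summable.of_nonneg_of_le (fun _ => abs_nonneg _) le (s1.add s2).summable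
    refine ⟨_, (hasSum_le le sm.hasSum (s1.add s2)).trans ?_, (fib x).hasSum_iff.1 sm.hasSum⟩
    have hsub : BF (N m) ⊆ BF (N m + m) := fun b hb =>
      mem_BF.2 (box_mono (by push_cast; omega) (mem_BF.1 hb))
    have hD : (D.card : ℝ) = (BF (N m + m)).card - (BF (N m)).card := by
      rw [Finset.card_sdiff_of_subset hsub, Nat.cast_sub (Finset.card_le_card hsub)]
    have h1 : (D.card : ℝ) * ((BF (N m)).card : ℝ)⁻¹ ≤ 1 / ((m : ℝ) + 1) := by
      rw [← div_eq_mul_inv, div_le_iff₀ (cp m), hD]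
      have := hN m
      linarith
    have h2 : 1 / ((m : ℝ) + 1) ≤ 1 / ((k : ℝ) + 1) :=
      Nat.one_div_le_one_div (le_of_max_le_right hm)
    linarith

instance : Countable Gam :=
  Function.Injective.countable (f := fun a : Gam => (a.f, a.t))
    fun _ _ e => Gam.ext (congrArg Prod.fst e) (congrArg Prod.snd e)

lemma inv_mul_t (a b : Gam) (i : Fin 4) :
    (a⁻¹ * b).t i = rot (-chi i a.f) (b.t i - a.t i) := by
  simp only [mul_t, inv_f, inv_t, chi_neg, rot_sub]; abel

def nm (p : ℤ × ℤ) : ℤ := |p.1| + |p.2| + |p.2 - p.1|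

lemma nm_rot (k : ZMod 3) (p : ℤ × ℤ) : nm (rot k p) = nm p := by
  rcases z3 k with rfl | rfl | rfl
  · rfl
  · simp only [rot1, nm, Int.abs_eq_natAbs]; omega
  · simp only [rot2, nm, Int.abs_eq_natAbs]; omega

lemma ex_metric : ∃ d : Gam → Gam → ℝ, ProperMetric d := by
  have n0 : ∀ p, 0 ≤ nm p := fun p => by simp only [nm]; positivity
  refine ⟨fun a b => ((∑ i, nm (b.t i - a.t i) : ℤ) : ℝ), fun a b => ?_, fun a b => ?_,
    fun a b c => ?_, fun g a b => ?_, fun R => ?_⟩
  · constructor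
    · intro h
      have h1 : ∑ i, nm (b.t i - a.t i) = 0 := by exact_mod_cast h
      rw [Finset.sum_eq_zero_iff_of_nonneg fun i _ => n0 _] at h1
      have h2 : ∀ i, a.t i = b.t i := fun i => by
        have := h1 i (Finset.mem_univ _)
        simp only [nm, Int.abs_eq_natAbs, Prod.fst_sub, Prod.snd_sub] at this
        exact Prod.ext (by omega) (by omega)
      have h3 : ∀ i, eta i a.f = eta i b.f := fun i => by rw [← a.h, ← b.h, h2]
      exact Gam.ext (Prod.ext (h3 1) (h3 0)) (funext h2)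
    · rintro rfl
      simp [nm]
  · congr 1
    refine Finset.sum_congr rfl fun i _ => ?_
    simp only [nm, Int.abs_eq_natAbs, Prod.fst_sub, Prod.snd_sub]; omega
  · rw [← Int.cast_add, Int.cast_le, ← Finset.sum_add_distrib]
    refine Finset.sum_le_sum fun i _ => ?_
    simp only [nm, Int.abs_eq_natAbs, Prod.fst_sub, Prod.snd_sub]; omega
  · congr 1
    refine Finset.sum_congr rfl fun i _ => ?_
    rw [mul_t, mul_t, add_sub_add_right_eq_sub, ← rot_sub, nm_rot]
  · refine (box_finite ⌈R⌉).subset fun g hg i => ?_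
    have h1 : ((∑ i, nm (g.t i - (1 : Gam).t i) : ℤ) : ℝ) ≤ R := hg
    have h2 : ∑ i, nm (g.t i - (1 : Gam).t i) ≤ ⌈R⌉ := by
      exact_mod_cast h1.trans (Int.le_ceil R)
    have h3 := (Finset.single_le_sum (f := fun i => nm (g.t i - (1 : Gam).t i))
      (fun i _ => n0 _) (Finset.mem_univ i)).trans h2
    simp only [nm, Sm, one_t, sub_zero, Int.abs_eq_natAbs] at h3 ⊢
    omega

def co (j : Fin 4 × Bool) (a : Gam) : ℤ := cond j.2 (a.t j.1).1 (a.t j.1).2

theorem group_fdc : GroupFDC Gam := by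
  classical
  refine ⟨ex_metric, fun d hd D h0 h1 => ?_⟩
  have dl : ∀ a b, d a b = d 1 (a⁻¹ * b) := fun a b => by
    rw [← hd.left a 1, mul_one, mul_inv_cancel_left]
  have main : ∀ (T : Finset (Fin 4 × Bool)) (B : ℤ),
      {Z : Set Gam | ∀ j ∉ T, ∀ a ∈ Z, ∀ b ∈ Z, |co j b - co j a| ≤ B} ∈ D := by
    intro T
    induction T using Finset.induction_on with
    | empty =>
      intro B
      obtain ⟨R, hR⟩ := ((box_finite (2 * B)).image (d 1)).bddAbove
      refine h0 _ ⟨R, fun Z hZ a ha b hb => ?_⟩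
      rw [dl]
      refine hR ⟨_, fun i => ?_, rfl⟩
      rw [inv_mul_t]
      refine sm_rot _ ?_
      have e1 := hZ (i, true) (by simp) a ha b hb
      have e2 := hZ (i, false) (by simp) a ha b hb
      simp only [co, cond_true, cond_false, Sm, abs_le, Prod.fst_sub, Prod.snd_sub] at *
      omega
    | insert j T _ ih =>
      intro B
      refine h1 _ fun r _ => ?_
      obtain ⟨ρ, hρ, hS⟩ := fin_box (hd.proper (r + 1))
      have hρ' : (0 : ℤ) < ρ := by exact_mod_cast hρ
      have far : ∀ a b, (ρ : ℤ) < |co j b - co j a| → r + 1 ≤ d a b := by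
        intro a b h
        by_contra q
        rw [dl] at q
        have := sm_rot (chi j.1 a.f) (hS (not_le.1 q).le j.1)
        rw [inv_mul_t, rot_rot, add_neg_cancel, rot0] at this
        obtain ⟨i, t⟩ := j
        cases t <;> simp only [co, cond_true, cond_false, Sm, Prod.fst_sub, Prod.snd_sub] at * <;>
          omega
      refine ⟨_, ih (max B ρ), fun Z hZ => ?_⟩
      let pc : ℤ → Set Gam := fun k => {a ∈ Z | co j a / ρ = k}
      have sep : ∀ e : ℤ, Sep d r (pc '' {k | k % 2 = e}) := by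
        rintro e _ ⟨k, hk, rfl⟩ _ ⟨l, hl, rfl⟩ hne
        have hkl : k ≠ l := fun q => hne (by rw [q])
        refine ⟨r + 1, by linarith, fun a ha b hb => far a b ?_⟩
        have a1 := Int.mul_ediv_add_emod (co j a) ρ
        have a2 := Int.emod_nonneg (co j a) hρ'.ne'
        have a3 := Int.emod_lt_of_pos (co j a) hρ'
        have b1 := Int.mul_ediv_add_emod (co j b) ρ
        have b2 := Int.emod_nonneg (co j b) hρ'.ne'
        have b3 := Int.emod_lt_of_pos (co j b) hρ'
        rw [ha.2] at a1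
        rw [hb.2] at b1
        have hk' : k % 2 = e := hk
        have hl' : l % 2 = e := hl
        rw [lt_abs]
        rcases (show k + 2 ≤ l ∨ l + 2 ≤ k by omega) with q | q
        · left; nlinarith
        · right; nlinarith
      have mem : ∀ e : ℤ, pc '' {k | k % 2 = e} ⊆
          {Z : Set Gam | ∀ j ∉ T, ∀ a ∈ Z, ∀ b ∈ Z, |co j b - co j a| ≤ max B ρ} := by
        rintro e _ ⟨k, -, rfl⟩ j' hj a ha b hb
        by_cases q : j' = j
        · subst q
          refine le_max_of_le_right ?_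
          have a1 := Int.mul_ediv_add_emod (co j' a) ρ
          have a2 := Int.emod_nonneg (co j' a) hρ'.ne'
          have a3 := Int.emod_lt_of_pos (co j' a) hρ'
          have b1 := Int.mul_ediv_add_emod (co j' b) ρ
          have b2 := Int.emod_nonneg (co j' b) hρ'.ne'
          have b3 := Int.emod_lt_of_pos (co j' b) hρ'
          rw [ha.2] at a1
          rw [hb.2] at b1
          rw [abs_le]
          constructor <;> linarith
        · exact le_max_of_le_left (hZ j' (by simp [q, hj]) a ha.1 b hb.1)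
      refine ⟨_, _, ?_, sep 0, sep 1, mem 0, mem 1⟩
      ext a
      constructor
      · intro ha
        rcases Int.emod_two_eq_zero_or_one (co j a / ρ) with q | q
        · exact Or.inl ⟨_, ⟨_, q, rfl⟩, ha, rfl⟩
        · exact Or.inr ⟨_, ⟨_, q, rfl⟩, ha, rfl⟩
      · rintro (⟨_, ⟨k, -, rfl⟩, h⟩ | ⟨_, ⟨k, -, rfl⟩, h⟩) <;> exact h.1
  refine h1 _ fun r _ => ⟨_, main Finset.univ 0, ?_⟩
  rintro Z -
  refine ⟨{Z}, ∅, by simp, ?_, ?_, ?_, empty_subset _⟩
  · rintro A rfl B rfl h
    exact absurd rfl h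
  · rintro A ⟨⟩
  · rintro A - j hj
    exact absurd (Finset.mem_univ j) hj

end Pool.Agent.H41.Fdc
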