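import Pool.Agent.H41.FreudDefs

namespace Pool.Agent.H41.Freud

open MeasureTheory Real Complex FourierTransform

theorem wt_bound (τ t : ℝ) : ∃ C : ℝ, ∀ x : ℝ, -x ^ 6 + τ * x ^ 4 + t * x ^ 2 ≤ C - x ^ 2 := by
  obtain ⟨a, ha⟩ : ∃ a : ℝ, a = |τ| + |t| + 2 := ⟨_, rfl⟩
  refine ⟨a * a ^ 2 + a * a, fun x => ?_⟩
  obtain ⟨y, hy⟩ : ∃ y : ℝ, y = x ^ 2 := ⟨_, rfl⟩
  have h0 : 0 ≤ y := by rw [hy]; positivity
  have e1 : x ^ 6 = y ^ 3 := by rw [hy]; ring
  have e2 : x ^ 4 = y ^ 2 := by rw [hy]; ring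
  rw [e1, e2, ← hy]
  have a1 := le_abs_self τ
  have a2 := le_abs_self t
  have a3 := abs_nonneg τ
  have a4 := abs_nonneg t
  have b1 : τ * y ^ 2 ≤ |τ| * y ^ 2 := mul_le_mul_of_nonneg_right a1 (by positivity)
  have b2 : t * y ≤ |t| * y := mul_le_mul_of_nonneg_right a2 h0
  have ha0 : 0 ≤ a := by linarith
  rcases le_total y a with h | h
  · have c1 : |τ| * y ^ 2 ≤ a * a ^ 2 :=
      mul_le_mul (by linarith) (pow_le_pow_left₀ h0 h 2) (by positivity) ha0
    have c2 : (|t| + 1) * y ≤ a * a := mul_le_mul (by linarith) h h0 ha0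
    have : 0 ≤ y ^ 3 := by positivity
    nlinarith
  · have c1 : a * y ^ 2 ≤ y ^ 3 := by
      have : y ^ 3 = y * y ^ 2 := by ring
      rw [this]; exact mul_le_mul_of_nonneg_right h (by positivity)
    have c2 : y ≤ y ^ 2 := by nlinarith
    have c3 : (|t| + 1) * y ≤ (|t| + 1) * y ^ 2 := mul_le_mul_of_nonneg_left c2 (by positivity)
    have : 0 ≤ a * a ^ 2 + a * a := by positivity
    have : 0 ≤ y ^ 2 := by positivity
    nlinarith

theorem wt_int (τ t : ℝ) (k : ℕ) :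
    Integrable fun x : ℝ => x ^ k * Real.exp (-x ^ 6 + τ * x ^ 4 + t * x ^ 2) := by
  obtain ⟨C, hC⟩ := wt_bound τ t
  have h := (integrable_rpow_mul_exp_neg_mul_sq (b := 1) one_pos (s := (k : ℝ))
    (by have : (0 : ℝ) ≤ k := Nat.cast_nonneg k; linarith)).norm.const_mul (Real.exp C)
  refine h.mono' (by fun_prop) (Filter.Eventually.of_forall fun x => ?_)
  rw [Real.rpow_natCast, norm_mul, norm_mul, Real.norm_of_nonneg (Real.exp_pos _).le,
    Real.norm_of_nonneg (Real.exp_pos _).le, mul_left_comm, ← Real.exp_add]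
  refine mul_le_mul_of_nonneg_left (Real.exp_le_exp.mpr ?_) (norm_nonneg _)
  have := hC x
  linarith

section

variable {τ t : ℝ} {φ : ℕ → ℝ → ℂ}
  (hder : ∀ j s, HasDerivAt (φ j) (2 * π * I * φ (j + 1) s) s)
  (hb : ∀ j, ∃ C, ∀ s, ‖φ j s‖ ≤ C)
  (hode : ∀ (j : ℕ) (s : ℝ), (j : ℂ) * φ (j - 1) s + 2 * π * I * s * φ j s =
    6 * φ (j + 5) s - 4 * τ * φ (j + 3) s - 2 * t * φ (j + 1) s)

include hb hode in
theorem decay (p : ℕ) : ∀ j, ∃ C, ∀ s : ℝ, |s| ^ p * ‖φ j s‖ ≤ C := by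
  induction p with
  | zero => simpa using hb
  | succ p ih =>
    intro j
    obtain ⟨C5, h5⟩ := ih (j + 5)
    obtain ⟨C3, h3⟩ := ih (j + 3)
    obtain ⟨C1, h1⟩ := ih (j + 1)
    obtain ⟨C0, h0⟩ := ih (j - 1)
    refine ⟨6 * C5 + 4 * |τ| * C3 + 2 * |t| * C1 + j * C0, fun s => ?_⟩
    have e : 2 * π * I * s * φ j s =
        6 * φ (j + 5) s - 4 * τ * φ (j + 3) s - 2 * t * φ (j + 1) s - (j : ℂ) * φ (j - 1) s := by
      rw [← hode]; ring
    have n1 : ‖2 * π * I * s * φ j s‖ = 2 * π * (|s| * ‖φ j s‖) := by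
      simp [abs_of_pos Real.pi_pos, mul_assoc]
    have n2 : ‖2 * π * I * s * φ j s‖ ≤ 6 * ‖φ (j + 5) s‖ + 4 * |τ| * ‖φ (j + 3) s‖
        + 2 * |t| * ‖φ (j + 1) s‖ + j * ‖φ (j - 1) s‖ := by
      rw [e]
      refine (norm_sub_le _ _).trans (add_le_add ((norm_sub_le _ _).trans
        (add_le_add ((norm_sub_le _ _).trans (add_le_add ?_ ?_)) ?_)) ?_) <;> simp
    have n3 : |s| * ‖φ j s‖ ≤ 2 * π * (|s| * ‖φ j s‖) := by
      have := Real.pi_gt_three
      have : 0 ≤ |s| * ‖φ j s‖ := by positivity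
      nlinarith
    have hp : 0 ≤ |s| ^ p := by positivity
    have n4 := mul_le_mul_of_nonneg_left (n3.trans (n1 ▸ n2)) hp
    have a3 := mul_le_mul_of_nonneg_left (h3 s) (show 0 ≤ 4 * |τ| by positivity)
    have a1 := mul_le_mul_of_nonneg_left (h1 s) (show 0 ≤ 2 * |t| by positivity)
    have a0 := mul_le_mul_of_nonneg_left (h0 s) (show (0 : ℝ) ≤ j by positivity)
    have a5 := h5 s
    rw [pow_succ]
    nlinarith

include hder hb hode in
theorem integ (p j : ℕ) : Integrable fun s : ℝ => (s : ℂ) ^ p * φ j s := by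
  obtain ⟨C, hC⟩ := decay hb hode p j
  obtain ⟨D, hD⟩ := decay hb hode (p + 2) j
  have hc : Continuous (φ j) := continuous_iff_continuousAt.mpr fun s => (hder j s).continuousAt
  refine (integrable_inv_one_add_sq.const_mul (C + D)).mono' (by fun_prop)
    (Filter.Eventually.of_forall fun s => ?_)
  rw [norm_mul, norm_pow, Complex.norm_real, Real.norm_eq_abs, ← div_eq_mul_inv,
    le_div_iff₀ (by positivity)]
  have a := hC s
  have b := hD s
  rw [pow_add, sq_abs] at b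
  nlinarith

include hder hb hode in
theorem fourier_succ (j : ℕ) (x : ℝ) : 𝓕 (φ (j + 1)) x = x * 𝓕 (φ j) x := by
  have hi : ∀ j, Integrable (φ j) := fun j => by simpa using integ hder hb hode 0 j
  have hd : deriv (φ j) = fun s => (2 * π * I) • φ (j + 1) s := by
    ext s; exact (hder j s).deriv
  have h := Real.fourier_deriv (hi j) (fun s => (hder j s).differentiableAt)
    (by rw [hd]; exact (hi (j + 1)).smul (2 * π * I : ℂ))
  have h2 := congrFun h x
  rw [hd] at h2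
  have h3 : 𝓕 (fun s => (2 * π * I : ℂ) • φ (j + 1) s) x = (2 * π * I : ℂ) * 𝓕 (φ (j + 1)) x := by
    rw [Real.fourier_eq, Real.fourier_eq, ← integral_const_mul]
    congr 1; ext v
    simp only [Circle.smul_def, smul_eq_mul]; ring
  rw [h3, smul_eq_mul] at h2
  have hne : (2 * π * I : ℂ) ≠ 0 := Complex.two_pi_I_ne_zero
  apply mul_left_cancel₀ hne
  rw [h2]; ring

include hder hb hode in
theorem fourier_pow (j : ℕ) (x : ℝ) : 𝓕 (φ j) x = x ^ j * 𝓕 (φ 0) x := by
  induction j with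
  | zero => simp
  | succ j ih => rw [fourier_succ hder hb hode, ih]; ring

include hder hb hode in
theorem fourier_ode (x : ℝ) : HasDerivAt (𝓕 (φ 0))
    (-(6 * x ^ 5 - 4 * τ * x ^ 3 - 2 * t * x) * 𝓕 (φ 0) x) x := by
  have hi : ∀ j, Integrable (φ j) := fun j => by simpa using integ hder hb hode 0 j
  have h := Real.hasDerivAt_fourier (hi 0) (by simpa using integ hder hb hode 1 0) x
  have e : (fun s : ℝ => (-2 * π * I * s) • φ 0 s) =
      fun s => (-6 : ℂ) * φ 5 s + (4 * τ) * φ 3 s + (2 * t) * φ 1 s := by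
    ext s
    have := hode 0 s
    simp only [Nat.cast_zero, zero_mul, zero_add] at this
    rw [smul_eq_mul]
    linear_combination -this
  rw [e] at h
  have hF : ∀ j, Integrable fun v : ℝ => Real.fourierChar (-(inner ℝ v x)) • φ j v := fun j =>
    (Real.fourierIntegral_convergent_iff x).mpr (hi j)
  have e2 : 𝓕 (fun s => (-6 : ℂ) * φ 5 s + (4 * τ) * φ 3 s + (2 * t) * φ 1 s) x =
      (-6 : ℂ) * 𝓕 (φ 5) x + (4 * τ) * 𝓕 (φ 3) x + (2 * t) * 𝓕 (φ 1) x := by
    simp only [Real.fourier_eq]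
    rw [← integral_const_mul, ← integral_const_mul, ← integral_const_mul,
      ← integral_add ((hF 5).const_mul _) ((hF 3).const_mul _), ← integral_add]
    · congr 1; ext v
      simp only [Circle.smul_def, smul_eq_mul]; ring
    · exact ((hF 5).const_mul _).add ((hF 3).const_mul _)
    · exact (hF 1).const_mul _
  rw [e2, fourier_pow hder hb hode 5, fourier_pow hder hb hode 3, fourier_pow hder hb hode 1] at h
  refine h.congr_deriv ?_
  ring

include hder hb hode in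
theorem fourier_zero : ∃ c : ℂ, ∀ x : ℝ,
    𝓕 (φ 0) x = c * (Real.exp (-x ^ 6 + τ * x ^ 4 + t * x ^ 2) : ℝ) := by
  have hV : ∀ x : ℝ, HasDerivAt (fun x : ℝ => ((Real.exp (x ^ 6 - τ * x ^ 4 - t * x ^ 2) : ℝ) : ℂ))
      (((Real.exp (x ^ 6 - τ * x ^ 4 - t * x ^ 2) * (6 * x ^ 5 - 4 * τ * x ^ 3 - 2 * t * x) : ℝ)) : ℂ)
      x := by
    intro x
    apply HasDerivAt.ofReal_comp
    apply HasDerivAt.exp
    have := ((hasDerivAt_pow 6 x).sub ((hasDerivAt_pow 4 x).const_mul τ)).sub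
      ((hasDerivAt_pow 2 x).const_mul t)
    refine HasDerivAt.congr_deriv this ?_
    norm_num; ring
  have hG : ∀ x : ℝ, HasDerivAt (fun x : ℝ =>
      𝓕 (φ 0) x * ((Real.exp (x ^ 6 - τ * x ^ 4 - t * x ^ 2) : ℝ) : ℂ)) 0 x := by
    intro x
    refine HasDerivAt.congr_deriv ((fourier_ode hder hb hode x).mul (hV x)) ?_
    push_cast; ring
  have hc := is_const_of_deriv_eq_zero (fun x => (hG x).differentiableAt) (fun x => (hG x).deriv)
  refine ⟨𝓕 (φ 0) 0, fun x => ?_⟩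
  have h := hc x 0
  simp only [ne_eq, OfNat.ofNat_ne_zero, not_false_eq_true, zero_pow, mul_zero, sub_zero,
    Real.exp_zero, ofReal_one, mul_one] at h
  rw [← h, mul_assoc, ← Complex.ofReal_mul, ← Real.exp_add]
  have : x ^ 6 - τ * x ^ 4 - t * x ^ 2 + (-x ^ 6 + τ * x ^ 4 + t * x ^ 2) = 0 := by ring
  rw [this]; simp

include hder hb hode in
theorem moments : ∃ c : ℂ, ∀ j, φ j 0 = c * mu τ t j := by
  obtain ⟨c, hc⟩ := fourier_zero hder hb hode
  refine ⟨c, fun j => ?_⟩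
  have hi : Integrable (φ j) := by simpa using integ hder hb hode 0 j
  have e : 𝓕 (φ j) = fun x : ℝ =>
      c * ((x ^ j * Real.exp (-x ^ 6 + τ * x ^ 4 + t * x ^ 2) : ℝ) : ℂ) := by
    ext x; rw [fourier_pow hder hb hode, hc]; push_cast; ring
  have h := hi.fourierInv_fourier_eq (v := 0)
    (by rw [e]; exact ((wt_int τ t j).ofReal).const_mul c) (hder j 0).continuousAt
  rw [← h, Real.fourierInv_eq, e]
  simp only [inner_zero_right, AddChar.map_zero_eq_one, one_smul]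
  rw [integral_const_mul, integral_complex_ofReal]
  rfl

end

end Pool.Agent.H41.Freud
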