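import Pool.Agent.H41.Freud1

namespace Pool.Agent.H41.Freud

open Real Complex Nat

theorem growth {τ t : ℝ} {m : ℕ → ℝ}
    (hP : ∀ k : ℕ, (k : ℝ) * m (k - 1) = 6 * m (k + 5) - 4 * τ * m (k + 3) - 2 * t * m (k + 1))
    {R : ℝ} (hR : 0 < R) : ∃ M, 0 ≤ M ∧ ∀ n, |m n| * R ^ n ≤ M * n ! := by
  obtain ⟨N, hN⟩ := exists_nat_ge (R ^ 6 + 4 * |τ| * R ^ 2 + 2 * |t| * R ^ 4)
  obtain ⟨M, hM⟩ : ∃ M, M = ∑ n ∈ Finset.range (N + 6), |m n| * R ^ n := ⟨_, rfl⟩
  have hM0 : 0 ≤ M := by rw [hM]; positivity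
  refine ⟨M, hM0, fun n => ?_⟩
  induction n using Nat.strong_induction_on with
  | _ n ih =>
    by_cases hn : n < N + 6
    · have h1 : |m n| * R ^ n ≤ M := by
        rw [hM]
        exact Finset.single_le_sum (f := fun n => |m n| * R ^ n) (fun _ _ => by positivity)
          (Finset.mem_range.mpr hn)
      have h2 : (1 : ℝ) ≤ n ! := by exact_mod_cast Nat.factorial_pos n
      nlinarith
    · obtain ⟨l, rfl⟩ : ∃ l, n = l + 6 := ⟨n - 6, by omega⟩
      have h := hP (l + 1)
      simp only [Nat.add_sub_cancel, add_assoc] at h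
      norm_num at h
      have i0 := ih l (by omega)
      have i4 := ih (l + 4) (by omega)
      have i2 := ih (l + 2) (by omega)
      obtain ⟨F, hF⟩ : ∃ F : ℝ, F = (l + 5)! := ⟨_, rfl⟩
      have f0 : ((l : ℝ) + 1) * l ! ≤ F := by
        rw [hF]
        have : (l + 1) * l ! ≤ (l + 5)! := by
          rw [← Nat.factorial_succ]; exact Nat.factorial_le (by omega)
        exact_mod_cast this
      have f4 : ((l + 4)! : ℝ) ≤ F := by rw [hF]; exact_mod_cast Nat.factorial_le (by omega)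
      have f2 : ((l + 2)! : ℝ) ≤ F := by rw [hF]; exact_mod_cast Nat.factorial_le (by omega)
      have f6 : ((l + 6)! : ℝ) = (l + 6) * F := by
        rw [hF, show l + 6 = (l + 5) + 1 by ring, Nat.factorial_succ]; push_cast; ring
      have hF0 : 0 ≤ F := by rw [hF]; positivity
      have e : m (l + 6) = (((l : ℝ) + 1) * m l + 4 * τ * m (l + 4) + 2 * t * m (l + 2)) / 6 := by
        linarith
      have hab : |m (l + 6)| ≤ ((l : ℝ) + 1) * |m l| + 4 * |τ| * |m (l + 4)|
          + 2 * |t| * |m (l + 2)| := by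
        have h1 : |((l : ℝ) + 1) * m l + 4 * τ * m (l + 4) + 2 * t * m (l + 2)| ≤
            ((l : ℝ) + 1) * |m l| + 4 * |τ| * |m (l + 4)| + 2 * |t| * |m (l + 2)| := by
          refine (abs_add_three _ _ _).trans (le_of_eq ?_)
          simp only [abs_mul]
          rw [abs_of_nonneg (show (0 : ℝ) ≤ l + 1 by positivity)]
          norm_num
        rw [e, abs_div]
        have := abs_nonneg (((l : ℝ) + 1) * m l + 4 * τ * m (l + 4) + 2 * t * m (l + 2))
        norm_num
        linarith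
      have hl : (N : ℝ) ≤ l + 6 := by
        have : N ≤ l + 6 := by omega
        exact_mod_cast this
      have j0 : ((l : ℝ) + 1) * |m l| * R ^ (l + 6) ≤ R ^ 6 * (M * F) := by
        calc _ = R ^ 6 * (((l : ℝ) + 1) * (|m l| * R ^ l)) := by ring
          _ ≤ R ^ 6 * (((l : ℝ) + 1) * (M * l !)) := by gcongr
          _ = R ^ 6 * (M * (((l : ℝ) + 1) * l !)) := by ring
          _ ≤ _ := by gcongr
      have j4 : 4 * |τ| * |m (l + 4)| * R ^ (l + 6) ≤ 4 * |τ| * R ^ 2 * (M * F) := by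
        calc _ = 4 * |τ| * R ^ 2 * (|m (l + 4)| * R ^ (l + 4)) := by ring
          _ ≤ 4 * |τ| * R ^ 2 * (M * (l + 4)!) := by gcongr
          _ ≤ _ := by gcongr
      have j2 : 2 * |t| * |m (l + 2)| * R ^ (l + 6) ≤ 2 * |t| * R ^ 4 * (M * F) := by
        calc _ = 2 * |t| * R ^ 4 * (|m (l + 2)| * R ^ (l + 2)) := by ring
          _ ≤ 2 * |t| * R ^ 4 * (M * (l + 2)!) := by gcongr
          _ ≤ _ := by gcongr
      calc |m (l + 6)| * R ^ (l + 6) ≤ (((l : ℝ) + 1) * |m l| + 4 * |τ| * |m (l + 4)|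
          + 2 * |t| * |m (l + 2)|) * R ^ (l + 6) := by gcongr
        _ ≤ (R ^ 6 + 4 * |τ| * R ^ 2 + 2 * |t| * R ^ 4) * (M * F) := by linarith
        _ ≤ ((l : ℝ) + 6) * (M * F) := by
          apply mul_le_mul_of_nonneg_right (by linarith) (by positivity)
        _ = _ := by rw [f6]; ring

theorem shift_sum {a : ℕ → ℝ} (h0 : ∀ k, 0 ≤ a k)
    (h : ∀ R : ℝ, 0 < R → Summable fun k => a k * R ^ k / k !) (j : ℕ) :
    ∀ R : ℝ, 0 < R → Summable fun k => a (k + j) * R ^ k / k ! := by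
  induction j with
  | zero => simpa using h
  | succ j ih =>
    intro R hR
    have h1 := ((summable_nat_add_iff 1).mpr (ih (2 * R) (by positivity))).mul_left R⁻¹
    refine Summable.of_nonneg_of_le (fun k => by have := h0 (k + (j + 1)); positivity)
      (fun k => ?_) h1
    have e : k + 1 + j = k + (j + 1) := by ring
    rw [e, Nat.factorial_succ]
    push_cast
    have hk : ((k : ℝ) + 1) ≤ 2 ^ (k + 1) := by
      have : k + 1 ≤ 2 ^ (k + 1) := Nat.lt_two_pow_self.le
      exact_mod_cast this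
    have ha := h0 (k + (j + 1))
    have hf : (0 : ℝ) < k ! := by positivity
    have : R⁻¹ * (a (k + (j + 1)) * (2 * R) ^ (k + 1) / (((k : ℝ) + 1) * k !)) =
        a (k + (j + 1)) * R ^ k / k ! * (2 ^ (k + 1) / ((k : ℝ) + 1)) := by
      field_simp; ring
    rw [this]
    exact le_mul_of_one_le_right (by positivity) ((one_le_div (by positivity)).mpr hk)

noncomputable def cf (s : ℝ) (k : ℕ) : ℂ := (2 * π * I * s) ^ k / k !

theorem norm_cf (s : ℝ) (k : ℕ) : ‖cf s k‖ = (2 * π * |s|) ^ k / k ! := by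
  simp [cf, abs_of_pos Real.pi_pos]

theorem cf_succ (s : ℝ) (k : ℕ) : ((k : ℂ) + 1) * cf s (k + 1) = 2 * π * I * s * cf s k := by
  unfold cf
  rw [Nat.factorial_succ]
  have h1 : ((k : ℂ) + 1) ≠ 0 := by exact_mod_cast Nat.succ_ne_zero k
  have h2 : ((k ! : ℕ) : ℂ) ≠ 0 := by exact_mod_cast Nat.factorial_ne_zero k
  push_cast
  field_simp
  ring

theorem cf_deriv (s : ℝ) (k : ℕ) :
    HasDerivAt (fun s => cf s (k + 1)) (2 * π * I * cf s k) s := by
  have h1 : HasDerivAt (fun s : ℝ => 2 * π * I * (s : ℂ)) (2 * π * I * 1) s :=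
    (HasDerivAt.ofReal_comp (hasDerivAt_id s)).const_mul _
  have h2 := (h1.pow (k + 1)).div_const (((k + 1)! : ℕ) : ℂ)
  refine HasDerivAt.congr_deriv h2 ?_
  unfold cf
  rw [Nat.factorial_succ]
  have h1 : ((k : ℂ) + 1) ≠ 0 := by exact_mod_cast Nat.succ_ne_zero k
  have h2 : ((k ! : ℕ) : ℂ) ≠ 0 := by exact_mod_cast Nat.factorial_ne_zero k
  push_cast
  field_simp

section
variable {H : Type} [NormedAddCommGroup H] [InnerProductSpace ℂ H] [CompleteSpace H]

noncomputable def EE (e : ℕ → H) (j : ℕ) (s : ℝ) : H := ∑' k, cf s k • e (k + j)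

variable {e : ℕ → H}
  (hs : ∀ j (R : ℝ), 0 < R → Summable fun k => ‖e (k + j)‖ * R ^ k / k !)

theorem cf_bound {s R : ℝ} (h : |s| ≤ R) (v : H) (k : ℕ) :
    ‖cf s k • v‖ ≤ ‖v‖ * (2 * π * R + 1) ^ k / k ! := by
  rw [norm_smul, norm_cf, mul_comm, mul_div_assoc]
  have := Real.pi_pos
  gcongr
  nlinarith

include hs in
theorem hasSum_EE (j : ℕ) (s : ℝ) : HasSum (fun k => cf s k • e (k + j)) (EE e j s) := by
  refine Summable.hasSum (Summable.of_norm_bounded (hs j (2 * π * |s| + 1) (by positivity)) ?_)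
  exact fun k => cf_bound le_rfl _ k

theorem EE_zero (j : ℕ) : EE e j 0 = e j := by
  unfold EE
  rw [tsum_eq_single 0]
  · simp [cf]
  · intro k hk; simp [cf, hk]

include hs in
theorem deriv_EE (j : ℕ) (s : ℝ) :
    HasDerivAt (EE e j) ((2 * π * I : ℂ) • EE e (j + 1) s) s := by
  have e1 : EE e j = fun s => e j + ∑' k, cf s (k + 1) • e (k + (j + 1)) := by
    ext s
    rw [← (hasSum_EE hs j s).tsum_eq, (hasSum_EE hs j s).summable.tsum_eq_zero_add]
    simp [cf, add_assoc, add_comm 1 j]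
  rw [e1]
  apply HasDerivAt.const_add
  rw [← (hasSum_EE hs (j + 1) s).tsum_eq, ← (hasSum_EE hs (j + 1) s).summable.tsum_const_smul]
  have hpi := Real.pi_pos
  refine hasDerivAt_tsum_of_isPreconnected (t := Set.Ioo (-(|s| + 1)) (|s| + 1)) (y₀ := 0)
    (g := fun k y => cf y (k + 1) • e (k + (j + 1)))
    (g' := fun k y => (2 * π * I : ℂ) • cf y k • e (k + (j + 1)))
    ((hs (j + 1) (2 * π * (|s| + 1) + 1) (by positivity)).mul_left (2 * π))
    isOpen_Ioo isPreconnected_Ioo (fun k y _ => ?_) (fun k y hy => ?_) ?_ ?_ ?_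
  · rw [smul_smul]; exact (cf_deriv y k).smul_const _
  · rw [norm_smul]
    have : ‖(2 * π * I : ℂ)‖ = 2 * π := by simp [abs_of_pos hpi]
    rw [this]
    exact mul_le_mul_of_nonneg_left (cf_bound (abs_le.mpr ⟨hy.1.le, hy.2.le⟩) _ _) (by positivity)
  · have := abs_nonneg s
    constructor <;> linarith
  · simp [cf, summable_zero]
  · constructor
    · have := neg_abs_le s; linarith
    · have := le_abs_self s; linarith

variable {m : ℕ → ℝ} (hin : ∀ j k, inner ℂ (e j) (e k) = (m (j + k) : ℂ))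

include hs hin in
theorem hasSum_inner (i j : ℕ) (s : ℝ) :
    HasSum (fun k => cf s k * (m (k + (i + j)) : ℂ)) (inner ℂ (e i) (EE e j s)) := by
  have := (hasSum_EE hs j s).mapL (innerSL ℂ (e i))
  simp only [innerSL_apply_apply, inner_smul_right, hin] at this
  have e1 : ∀ k, i + (k + j) = k + (i + j) := fun k => by ring
  simpa only [e1] using this

include hs hin in
theorem inner_shift (i j : ℕ) (s : ℝ) :
    inner ℂ (e i) (EE e (j + 1) s) = inner ℂ (e (i + 1)) (EE e j s) := by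
  have h1 := hasSum_inner hs hin i (j + 1) s
  have h2 := hasSum_inner hs hin (i + 1) j s
  rw [show i + 1 + j = i + (j + 1) by ring] at h2
  exact h1.unique h2

include hs hin in
theorem inner_symm (s : ℝ) :
    inner ℂ (EE e 0 s) (EE e 1 s) = inner ℂ (EE e 1 s) (EE e 0 s) := by
  have h1 := (hasSum_EE hs 1 s).mapL (innerSL ℂ (EE e 0 s))
  have h2 := (hasSum_EE hs 0 s).mapL (innerSL ℂ (EE e 1 s))
  simp only [innerSL_apply_apply, inner_smul_right] at h1 h2
  refine h1.unique ?_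
  convert h2 using 3 with k
  rw [← inner_conj_symm, ← inner_shift hs hin, inner_conj_symm]
  rfl

include hs hin in
theorem norm_EE (s : ℝ) : ‖EE e 0 s‖ = ‖e 0‖ := by
  have hd : ∀ s, HasDerivAt (fun s => inner ℂ (EE e 0 s) (EE e 0 s)) 0 s := by
    intro s
    refine HasDerivAt.congr_deriv ((deriv_EE hs 0 s).inner ℂ (deriv_EE hs 0 s)) ?_
    rw [inner_smul_right, inner_smul_left, zero_add, inner_symm hs hin]
    simp [map_ofNat]
  have hc := is_const_of_deriv_eq_zero (fun x => (hd x).differentiableAt) (fun x => (hd x).deriv) s 0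
  rw [EE_zero, inner_self_eq_norm_sq_to_K, inner_self_eq_norm_sq_to_K] at hc
  have : ‖EE e 0 s‖ ^ 2 = ‖e 0‖ ^ 2 := by exact_mod_cast hc
  exact (pow_left_inj₀ (norm_nonneg _) (norm_nonneg _) two_ne_zero).mp this

omit hs in
include hin in
theorem abstract_moments {τ t : ℝ}
    (hP : ∀ k : ℕ, (k : ℝ) * m (k - 1) = 6 * m (k + 5) - 4 * τ * m (k + 3) - 2 * t * m (k + 1)) :
    ∃ c : ℂ, ∀ j, (m j : ℂ) = c * mu τ t j := by
  have hs : ∀ j (R : ℝ), 0 < R → Summable fun k => ‖e (k + j)‖ * R ^ k / k ! := by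
    refine shift_sum (a := fun k => ‖e k‖) (fun _ => norm_nonneg _) fun R hR => ?_
    obtain ⟨M, hM0, hM⟩ := growth hP (show 0 < 4 * R by positivity)
    refine Summable.of_nonneg_of_le (fun k => by positivity) (fun k => ?_)
      (summable_geometric_two.mul_left (√M))
    have h1 : ‖e k‖ ^ 2 = m (2 * k) := by
      have := hin k k
      rw [inner_self_eq_norm_sq_to_K, ← two_mul] at this
      apply Complex.ofReal_injective
      rw [← this]; simp
    have h2 := hM (2 * k)
    have h3 : ((2 * k)! : ℝ) ≤ 2 ^ (2 * k) * (k ! * k !) := by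
      have a := Nat.choose_mul_factorial_mul_factorial (show k ≤ 2 * k by omega)
      rw [show 2 * k - k = k by omega] at a
      have b := Nat.choose_le_two_pow (2 * k) k
      have : (2 * k)! ≤ 2 ^ (2 * k) * (k ! * k !) := by
        rw [← a, mul_assoc]; exact Nat.mul_le_mul_right _ b
      exact_mod_cast this
    have hf : (0 : ℝ) < k ! := by positivity
    rw [← h1, abs_of_nonneg (by positivity)] at h2
    have h4 : (‖e k‖ * R ^ k / k ! * 2 ^ k) ^ 2 ≤ M := by
      have h5 : ‖e k‖ ^ 2 * (4 * R) ^ (2 * k) ≤ M * (2 ^ (2 * k) * (k ! * k !)) :=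
        h2.trans (mul_le_mul_of_nonneg_left h3 hM0)
      have h6 : (‖e k‖ * R ^ k / k ! * 2 ^ k) ^ 2 =
          ‖e k‖ ^ 2 * (4 * R) ^ (2 * k) / (2 ^ (2 * k) * (k ! * k !)) := by
        have : (4 * R) ^ (2 * k) = 2 ^ (2 * k) * 2 ^ (2 * k) * R ^ (2 * k) := by
          rw [← mul_pow, ← mul_pow]; norm_num
        rw [this]; field_simp; ring
      rw [h6, div_le_iff₀ (by positivity)]
      exact h5
    have h7 := Real.le_sqrt_of_sq_le h4
    rw [one_div_pow, mul_one_div, le_div_iff₀ (by positivity)]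
    exact h7
  have := @moments τ t (fun j s => inner ℂ (e j) (EE e 0 s)) ?_ ?_ ?_
  · obtain ⟨c, hc⟩ := this
    refine ⟨c, fun j => ?_⟩
    rw [← hc j, EE_zero, hin, add_zero]
  · intro j s
    refine HasDerivAt.congr_deriv ((hasDerivAt_const s (e j)).inner ℂ (deriv_EE hs 0 s)) ?_
    rw [inner_smul_right, inner_zero_left, add_zero, inner_shift hs hin]
  · intro j
    refine ⟨‖e j‖ * ‖e 0‖, fun s => ?_⟩
    rw [← norm_EE hs hin s]
    exact norm_inner_le_norm _ _
  · intro j s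
    have h5 := hasSum_inner hs hin (j + 5) 0 s
    have h3 := hasSum_inner hs hin (j + 3) 0 s
    have h1 := hasSum_inner hs hin (j + 1) 0 s
    have h0 := (hasSum_inner hs hin j 0 s).mul_left (2 * π * I * s)
    have hm := (hasSum_inner hs hin (j - 1) 0 s).mul_left (j : ℂ)
    have h0' : HasSum (fun k : ℕ => (k : ℂ) * cf s k * (m (k + j - 1) : ℂ))
        (2 * π * I * s * inner ℂ (e j) (EE e 0 s)) := by
      rw [← hasSum_nat_add_iff' 1]
      simp only [Finset.range_one, Finset.sum_singleton, Nat.cast_zero, zero_mul, sub_zero]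
      refine (congrArg (fun f => HasSum f _) (funext fun k => ?_)).mpr h0
      rw [show k + 1 + j - 1 = k + (j + 0) by omega]
      push_cast
      rw [cf_succ]; ring
    refine (hm.add h0').unique ?_
    refine (congrArg (fun f => HasSum f _) (funext fun k => ?_)).mpr
      (((h5.mul_left 6).sub (h3.mul_left (4 * (τ : ℂ)))).sub (h1.mul_left (2 * (t : ℂ))))
    have h := hP (k + j)
    have hC : ((k + j : ℕ) : ℂ) * (m (k + j - 1) : ℂ) =
        6 * (m (k + j + 5) : ℂ) - 4 * τ * (m (k + j + 3) : ℂ) - 2 * t * (m (k + j + 1) : ℂ) := by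
      exact_mod_cast h
    have e1 : (j : ℂ) * (m (k + (j - 1 + 0)) : ℂ) = (j : ℂ) * (m (k + j - 1) : ℂ) := by
      rcases j with _ | j
      · simp
      · congr 3
    simp only [add_zero, ← add_assoc] at e1 ⊢
    push_cast at hC
    linear_combination cf s k * hC + cf s k * e1

end

end Pool.Agent.H41.Freud
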