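import Pool.Agent.H41.Freud2

namespace Pool.Agent.H41.Freud

def JJ (B v : ℤ → ℝ) (n : ℤ) : ℝ := v (n - 1) + B (n + 1) * v (n + 1)

def al (τ t : ℝ) (B : ℤ → ℝ) (n : ℤ) : ℝ :=
  6 * B n * (B (n - 2) * B (n - 1) + B (n - 1) ^ 2 + 2 * B (n - 1) * B n + B (n - 1) * B (n + 1)
        + B n ^ 2 + 2 * B n * B (n + 1) + B (n + 1) ^ 2 + B (n + 1) * B (n + 2))
      - 4 * τ * B n * (B (n - 1) + B n + B (n + 1)) - 2 * t * B n

def ga (τ : ℝ) (B : ℤ → ℝ) (n : ℤ) : ℝ :=
  B n * B (n - 1) * B (n - 2) * (6 * (B (n - 3) + B (n - 2) + B (n - 1) + B n + B (n + 1)) - 4 * τ)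

def de (B : ℤ → ℝ) (n : ℤ) : ℝ := 6 * B n * B (n - 1) * B (n - 2) * B (n - 3) * B (n - 4)

def DD (τ t : ℝ) (B v : ℤ → ℝ) (m : ℤ) : ℝ :=
  al τ t B (m + 1) * v (m + 1) + ga τ B (m + 3) * v (m + 3) + de B (m + 5) * v (m + 5)

theorem comm_DJ (τ t : ℝ) (B v : ℤ → ℝ) (m : ℤ) :
    DD τ t B (JJ B v) m = JJ B (DD τ t B v) m + (al τ t B (m + 1) - al τ t B m) * v m := by
  simp only [DD, JJ, al, ga, de]
  ring_nf

theorem W_zero (τ t : ℝ) (B v : ℤ → ℝ) (h1 : v (-1) = 0) (h3 : v (-3) = 0) (h5 : v (-5) = 0) :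
    DD τ t B v 0 = 6 * JJ B (JJ B (JJ B (JJ B (JJ B v)))) 0 - 4 * τ * JJ B (JJ B (JJ B v)) 0
      - 2 * t * JJ B v 0 := by
  simp only [DD, JJ, al, ga, de]
  norm_num [h1, h3, h5]
  ring

def ee (B : ℤ → ℝ) : ℕ → ℤ → ℝ
  | 0 => fun n => if n = 0 then 1 else 0
  | k + 1 => JJ B (ee B k)

theorem ee_neg {B : ℤ → ℝ} (hB : ∀ n, n ≤ 0 → B n = 0) (k : ℕ) : ∀ n, n < 0 → ee B k n = 0 := by
  induction k with
  | zero => intro n hn; simp [ee, hn.ne]
  | succ k ih =>
    intro n hn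
    simp only [ee, JJ]
    rw [ih _ (by omega), hB _ (by omega)]; simp

theorem ee_big (B : ℤ → ℝ) (k : ℕ) : ∀ n : ℤ, (k : ℤ) < n → ee B k n = 0 := by
  induction k with
  | zero => intro n hn; simp [ee]; omega
  | succ k ih =>
    intro n hn
    simp only [ee, JJ]
    push_cast at hn
    rw [ih _ (by omega), ih _ (by omega)]; simp

theorem DD_ee {τ t : ℝ} {B : ℤ → ℝ} (hB : ∀ n, n ≤ 0 → B n = 0)
    (ha : ∀ n, 0 ≤ n → al τ t B n = n) (k : ℕ) :
    ∀ m, DD τ t B (ee B k) m = k * ee B (k - 1) m := by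
  induction k with
  | zero =>
    intro m
    have h0 := hB 0 le_rfl
    simp only [DD, ee, Nat.cast_zero, zero_mul]
    have a1 : al τ t B (m + 1) * (if m + 1 = 0 then 1 else 0) = 0 := by
      split_ifs with h
      · rw [h]; simp [al, h0]
      · simp
    have a2 : ga τ B (m + 3) * (if m + 3 = 0 then 1 else 0) = 0 := by
      split_ifs with h
      · rw [h]; simp [ga, h0]
      · simp
    have a3 : de B (m + 5) * (if m + 5 = 0 then 1 else 0) = 0 := by
      split_ifs with h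
      · rw [h]; simp [de, h0]
      · simp
    rw [a1, a2, a3]; simp
  | succ k ih =>
    intro m
    have e : ee B (k + 1) = JJ B (ee B k) := rfl
    rw [e, comm_DJ]
    have h1 : JJ B (DD τ t B (ee B k)) m = k * ee B k m := by
      simp only [JJ, ih]
      rcases k with _ | k
      · simp
      · simp only [Nat.add_sub_cancel, ee, JJ]; ring
    have h2 : (al τ t B (m + 1) - al τ t B m) * ee B k m = ee B k m := by
      rcases lt_or_ge m 0 with h | h
      · rw [ee_neg hB k m h]; simp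
      · rw [ha _ (by omega), ha _ h]; push_cast; ring
    rw [h1, h2]; push_cast; ring

theorem pearson {τ t : ℝ} {B : ℤ → ℝ} (hB : ∀ n, n ≤ 0 → B n = 0)
    (ha : ∀ n, 0 ≤ n → al τ t B n = n) (k : ℕ) :
    (k : ℝ) * ee B (k - 1) 0 =
      6 * ee B (k + 5) 0 - 4 * τ * ee B (k + 3) 0 - 2 * t * ee B (k + 1) 0 := by
  rw [← DD_ee hB ha, W_zero τ t B _ (ee_neg hB k _ (by norm_num)) (ee_neg hB k _ (by norm_num))
    (ee_neg hB k _ (by norm_num))]
  rfl

def hh (B : ℤ → ℝ) (n : ℕ) : ℝ := ∏ i ∈ Finset.range n, B (i + 1)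

theorem symm_sum (B u v : ℤ → ℝ) (K : ℕ) :
    ∑ n ∈ Finset.range K, hh B n * (JJ B u n * v n) =
      ∑ n ∈ Finset.range K, hh B n * (u n * JJ B v n) + (u (-1) * v 0 - u 0 * v (-1))
        - hh B K * (u (K - 1) * v K - u K * v (K - 1)) := by
  induction K with
  | zero => simp [hh]
  | succ K ih =>
    rw [Finset.sum_range_succ, Finset.sum_range_succ, ih]
    have : hh B (K + 1) = hh B K * B (K + 1) := Finset.prod_range_succ _ _
    rw [this]
    simp only [JJ]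
    push_cast
    ring_nf

theorem gram {B : ℤ → ℝ} (hB : ∀ n, n ≤ 0 → B n = 0) (K j : ℕ) (hj : j < K) :
    ∀ k, ∑ n ∈ Finset.range K, hh B n * (ee B j n * ee B k n) = ee B (j + k) 0 := by
  induction j with
  | zero =>
    intro k
    rw [Finset.sum_eq_single 0]
    · simp [hh, ee]
    · intro n _ hn; simp [ee, hn]
    · intro h; exact absurd (Finset.mem_range.mpr hj) h
  | succ j ih =>
    intro k
    have e : ee B (j + 1) = JJ B (ee B j) := rfl
    have e2 : JJ B (ee B k) = ee B (k + 1) := rfl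
    rw [e, symm_sum, e2, ih (by omega), ee_neg hB j (-1) (by norm_num),
      ee_neg hB k (-1) (by norm_num), ee_big B j (K - 1) (by omega), ee_big B j K (by omega)]
    rw [show j + (k + 1) = j + 1 + k by ring]; ring

noncomputable def vec (B : ℤ → ℝ) (k : ℕ) : lp (fun _ : ℕ => ℂ) 2 :=
  ⟨fun n => ((√(hh B n) * ee B k n : ℝ) : ℂ), by
    refine Memℓp.of_exponent_ge (memℓp_zero ?_) zero_le
    refine (Set.finite_Iic k).subset fun n hn => ?_
    by_contra h
    apply hn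
    rw [ee_big B k n (by simpa using h)]; simp⟩

theorem inner_vec {B : ℤ → ℝ} (hB : ∀ n, n ≤ 0 → B n = 0) (hp : ∀ n, 0 ≤ B n) (j k : ℕ) :
    inner ℂ (vec B j) (vec B k) = ((ee B (j + k) 0 : ℝ) : ℂ) := by
  rw [lp.inner_eq_tsum, ← gram hB (j + 1) j (by omega) k, tsum_eq_sum (s := Finset.range (j + 1))]
  · push_cast
    refine Finset.sum_congr rfl fun n _ => ?_
    have h0 : 0 ≤ hh B n := Finset.prod_nonneg fun _ _ => hp _
    change inner ℂ ((√(hh B n) * ee B j n : ℝ) : ℂ) ((√(hh B n) * ee B k n : ℝ) : ℂ) = _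
    rw [RCLike.inner_apply, Complex.conj_ofReal]
    have : ((hh B n : ℝ) : ℂ) = ((√(hh B n) * √(hh B n) : ℝ) : ℂ) := by
      rw [Real.mul_self_sqrt h0]
    rw [this]; push_cast; ring
  · intro n hn
    change inner ℂ ((√(hh B n) * ee B j n : ℝ) : ℂ) _ = _
    rw [ee_big B j n (by have := Finset.mem_range.not.mp hn; omega)]; simp

theorem first_two {τ t : ℝ} {b : ℕ → ℝ} (h : PosSol τ t b) :
    b 1 = mu τ t 2 / mu τ t 0 ∧ b 2 = mu τ t 4 / mu τ t 2 - mu τ t 2 / mu τ t 0 := by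
  obtain ⟨h0, hp, hE⟩ := h
  obtain ⟨B, hBd⟩ : ∃ B : ℤ → ℝ, ∀ n, B n = b n.toNat := ⟨_, fun _ => rfl⟩
  have hB : ∀ n, n ≤ 0 → B n = 0 := fun n hn => by rw [hBd, Int.toNat_of_nonpos hn, h0]
  have hp' : ∀ n, 0 ≤ B n := by
    intro n
    rw [hBd]
    rcases Nat.eq_zero_or_pos n.toNat with h | h
    · rw [h, h0]
    · exact (hp _ h).le
  have ha : ∀ n, 0 ≤ n → al τ t B n = n := by
    intro n hn
    obtain ⟨n, rfl⟩ := Int.eq_ofNat_of_zero_le hn
    rcases Nat.eq_zero_or_pos n with h | h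
    · subst h; simp [al, hB 0 le_rfl]
    · have := hE n h
      simp only [al, hBd]
      rw [show ((n : ℤ) - 2).toNat = n - 2 by omega, show ((n : ℤ) - 1).toNat = n - 1 by omega,
        show ((n : ℤ) + 1).toNat = n + 1 by omega, show ((n : ℤ) + 2).toNat = n + 2 by omega,
        Int.toNat_natCast]
      exact_mod_cast this
  obtain ⟨c, hc⟩ := abstract_moments (e := vec B) (m := fun k => ee B k 0) (inner_vec hB hp')
    (pearson hB ha)
  have b0 := hB 0 le_rfl
  have b1 : B 1 = b 1 := hBd 1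
  have b2 : B 2 = b 2 := hBd 2
  have m0 : ee B 0 0 = 1 := by simp [ee]
  have m2 : ee B 2 0 = b 1 := by simp [ee, JJ, b0, b1]
  have m4 : ee B 4 0 = b 1 * (b 1 + b 2) := by simp [ee, JJ, b0, b1, b2]
  have c0 := congrArg Complex.re (hc 0)
  have c2 := congrArg Complex.re (hc 2)
  have c4 := congrArg Complex.re (hc 4)
  simp only [Complex.ofReal_re, Complex.mul_re, Complex.ofReal_im, mul_zero, sub_zero, m0, m2,
    m4] at c0 c2 c4
  have hb1 := (hp 1 le_rfl).ne'
  have n0 : mu τ t 0 ≠ 0 := by intro h; rw [h] at c0; simp at c0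
  have n2 : mu τ t 2 ≠ 0 := by intro h; rw [h] at c2; simp at c2; exact hb1 c2
  have k1 : b 1 = mu τ t 2 / mu τ t 0 := by
    rw [eq_div_iff n0]; linear_combination mu τ t 0 * c2 - mu τ t 2 * c0
  refine ⟨k1, ?_⟩
  rw [← k1, eq_sub_iff_add_eq, eq_div_iff n2]
  apply mul_left_cancel₀ hb1
  linear_combination mu τ t 2 * c4 - mu τ t 4 * c2

theorem unique {τ t : ℝ} {a b : ℕ → ℝ} (ha : PosSol τ t a) (hb : PosSol τ t b) : a = b := by
  have h1 := first_two ha
  have h2 := first_two hb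
  funext n
  induction n using Nat.strong_induction_on with
  | _ n ih =>
    match n, ih with
    | 0, _ => rw [ha.1, hb.1]
    | 1, _ => rw [h1.1, h2.1]
    | 2, _ => rw [h1.2, h2.2]
    | n + 3, ih =>
      have ea := ha.2.2 (n + 1) (by omega)
      have eb := hb.2.2 (n + 1) (by omega)
      rw [ih (n + 1 - 2) (by omega), ih (n + 1 - 1) (by omega), ih (n + 1) (by omega),
        ih (n + 1 + 1) (by omega)] at ea
      have p1 := hb.2.1 (n + 1) (by omega)
      have p2 := hb.2.1 (n + 1 + 1) (by omega)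
      apply mul_left_cancel₀ (show 6 * b (n + 1) * b (n + 1 + 1) ≠ 0 by positivity)
      linear_combination ea - eb

end Pool.Agent.H41.Freud
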