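import Mathlib

/-! The sextic Freud string equation (definitions). -/

namespace Pool.Agent.H41.Freud

/-- The moments `μ_k` of the weight `exp (-x⁶ + τ x⁴ + t x²)`. -/
noncomputable def mu (τ t : ℝ) (k : ℕ) : ℝ :=
  ∫ x : ℝ, x ^ k * Real.exp (-x ^ 6 + τ * x ^ 4 + t * x ^ 2)

/-- Positive solutions of equation (E). For `n = 1` the index `n - 2` is `0` in `ℕ`, and
`b 0 = 0` agrees with the convention `β₋₁ = 0`. -/
def PosSol (τ t : ℝ) (b : ℕ → ℝ) : Prop :=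
  b 0 = 0 ∧ (∀ n, 1 ≤ n → 0 < b n) ∧ ∀ n, 1 ≤ n →
    6 * b n * (b (n - 2) * b (n - 1) + b (n - 1) ^ 2 + 2 * b (n - 1) * b n + b (n - 1) * b (n + 1)
        + b n ^ 2 + 2 * b n * b (n + 1) + b (n + 1) ^ 2 + b (n + 1) * b (n + 2))
      - 4 * τ * b n * (b (n - 1) + b n + b (n + 1)) - 2 * t * b n = n

end Pool.Agent.H41.Freud
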