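import Pool.Agent.H41.Frog1

set_option autoImplicit false

namespace Pool.Agent.H41.Frog

open MeasureTheory ProbabilityTheory Finset
open scoped ENNReal

theorem acyclic {V : Type} (G : SimpleGraph V) (rk : V → ℕ) (par : V → V)
    (h : ∀ a b, G.Adj a b → (b = par a ∧ rk b < rk a) ∨ (a = par b ∧ rk a < rk b)) :
    G.IsAcyclic := by
  classical
  intro v c hc
  obtain ⟨x, hx, hmax⟩ := Finset.exists_max_image c.support.toFinset rk
    ⟨v, by simp⟩
  have hx' : x ∈ c.support := by simpa using hx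
  have h1 := hc.rotate hx'
  have h2 : ∀ y, y ∈ (c.rotate x hx').support → rk y ≤ rk x := fun y hy =>
    hmax y (by simpa using hy)
  have h3 := h1.snd_ne_penultimate
  have h4 := (c.rotate x hx').adj_snd h1.not_nil
  have h5 := ((c.rotate x hx').adj_penultimate h1.not_nil).symm
  have h6 := h2 _ ((c.rotate x hx').getVert_mem_support 1)
  have h7 := h2 _ ((c.rotate x hx').getVert_mem_support ((c.rotate x hx').length - 1))
  rcases h _ _ h4 with a | a
  · rcases h _ _ h5 with b | b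
    · exact h3 (a.1.trans b.1.symm)
    · exact absurd b.2 (not_lt.mpr h7)
  · exact absurd a.2 (not_lt.mpr h6)

def E (m : ℕ) : ℕ :=
  if Nat.clog 2 (m + 1) = Nat.clog 2 m then 16 * 2 ^ m else 16 * 2 ^ Nat.clog 2 m

noncomputable def τ (m : ℕ) : ℝ := (1 / 2 ^ m + 1 / 2 ^ Nat.clog 2 m) / 4

lemma E_ge (m : ℕ) : 16 ≤ E m := by
  unfold E
  split_ifs <;> exact Nat.le_mul_of_pos_right _ (by positivity)

lemma τ_nonneg (m : ℕ) : 0 ≤ τ m := by unfold τ; positivity

lemma τ_le (m : ℕ) : τ m ≤ 1 / 2 := by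
  have h : ∀ k : ℕ, (1 : ℝ) / 2 ^ k ≤ 1 := fun k =>
    (div_le_one (by positivity)).2 (one_le_pow₀ (by norm_num))
  have := h m
  have := h (Nat.clog 2 m)
  unfold τ; linarith

lemma τ_step (m : ℕ) : τ (m + 1) + 2 / E m ≤ τ m := by
  have e : ∀ k : ℕ, (2 : ℝ) / ((16 * 2 ^ k : ℕ) : ℝ) = 1 / 2 ^ k / 8 := fun k => by
    push_cast; field_simp; norm_num
  have e2 : (1 : ℝ) / 2 ^ (m + 1) = 1 / 2 ^ m / 2 := by rw [pow_succ]; field_simp
  have p : (0 : ℝ) < 1 / 2 ^ m := by positivity
  unfold τ E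
  split_ifs with h
  · rw [h, e, e2]; linarith
  · have h1 : Nat.clog 2 m + 1 ≤ Nat.clog 2 (m + 1) :=
      lt_of_le_of_ne (Nat.clog_mono_right 2 (Nat.le_succ m)) (Ne.symm h)
    have h2 : (1 : ℝ) / 2 ^ Nat.clog 2 (m + 1) ≤ 1 / 2 ^ (Nat.clog 2 m + 1) := by
      gcongr; norm_num
    have e3 : (1 : ℝ) / 2 ^ (Nat.clog 2 m + 1) = 1 / 2 ^ Nat.clog 2 m / 2 := by
      rw [pow_succ]; field_simp
    rw [e, e2]; linarith

lemma E_pow (j : ℕ) : E (2 ^ j) = 16 * 2 ^ j := by
  have h : Nat.clog 2 (2 ^ j) = j := Nat.clog_pow 2 j (by norm_num)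
  unfold E
  rw [if_neg, h]
  rw [h]
  intro h'
  have := Nat.le_pow_clog (b := 2) (by norm_num) (2 ^ j + 1)
  rw [h'] at this
  omega

def R : ℕ → ℕ
  | 0 => 1
  | n + 1 => R n * E (n + 1)

lemma R_pos (n : ℕ) : 0 < R n := by
  induction n with
  | zero => simp [R]
  | succ n ih => have := E_ge (n + 1); exact Nat.mul_pos ih (by omega)

/-- Level of the last backbone ancestor, and the remaining depth inside a dead end. -/
def st : List ℕ → ℕ × Option ℕ
  | [] => (0, none)
  | i :: l => match st l with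
    | (m, none) => if i = 0 then (m, some (R m)) else (m + 1, none)
    | (m, some r) => (m, some (r - 1))

def ch (l : List ℕ) : ℕ := match st l with
  | (m, none) => E m - 1
  | (_, some r) => r * (r + 2)

def Adm : List ℕ → Prop
  | [] => True
  | i :: l => Adm l ∧ i < ch l

abbrev Vx : Type := {l : List ℕ // Adm l}

instance : MeasurableSpace Vx := ⊤
instance : DiscreteMeasurableSpace Vx := ⟨fun _ => trivial⟩

def o : Vx := ⟨[], trivial⟩

def par (x : Vx) : Vx := ⟨x.1.tail, by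
  obtain ⟨_ | ⟨i, l⟩, h⟩ := x
  · trivial
  · exact h.1⟩

def child (x : Vx) (i : ℕ) : Vx := if h : i < ch x.1 then ⟨i :: x.1, x.2, h⟩ else x

lemma child_val {x : Vx} {i : ℕ} (h : i < ch x.1) : (child x i).1 = i :: x.1 := by
  simp [child, h]

def T : SimpleGraph Vx where
  Adj u v := (∃ i, v.1 = i :: u.1) ∨ ∃ i, u.1 = i :: v.1
  symm := ⟨fun _ _ h => h.symm⟩
  loopless := ⟨fun u h => by
    rcases h with ⟨i, h⟩ | ⟨i, h⟩ <;> simpa using congrArg List.length h⟩

lemma ind {p : Vx → Prop} (h0 : p o) (h1 : ∀ x i, i < ch x.1 → p x → p (child x i)) (x : Vx) :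
    p x := by
  obtain ⟨l, hl⟩ := x
  induction l with
  | nil => exact h0
  | cons i l ih =>
    have := h1 ⟨l, hl.1⟩ i hl.2 (ih hl.1)
    rwa [show child ⟨l, hl.1⟩ i = ⟨i :: l, hl⟩ from Subtype.ext (child_val hl.2)] at this

lemma par_child {x : Vx} {i : ℕ} (h : i < ch x.1) : par (child x i) = x :=
  Subtype.ext (by simp [par, child_val h])

lemma child_ne {x : Vx} {i : ℕ} (h : i < ch x.1) : child x i ≠ o := fun e => by
  have := congrArg Subtype.val e
  rw [child_val h] at this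
  cases this

lemma eq_child {x y : Vx} {i : ℕ} (h : y.1 = i :: x.1) : i < ch x.1 ∧ y = child x i := by
  have h1 : i < ch x.1 := by have := y.2; rw [h] at this; exact this.2
  exact ⟨h1, Subtype.ext (by rw [child_val h1, h])⟩

noncomputable def Cs (x : Vx) (a : ℕ) : Finset Vx := (Ico a (ch x.1)).image (child x)

noncomputable def N (x : Vx) : Finset Vx := if x = o then Cs x 0 else insert (par x) (Cs x 0)

lemma child_inj (x : Vx) (a : ℕ) : Set.InjOn (child x) (Ico a (ch x.1) : Finset ℕ) := by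
  intro i hi j hj e
  have := congrArg Subtype.val e
  rw [child_val (mem_Ico.1 hi).2, child_val (mem_Ico.1 hj).2] at this
  exact (List.cons.inj this).1

lemma card_Cs (x : Vx) (a : ℕ) : (Cs x a).card = ch x.1 - a := by
  rw [Cs, card_image_of_injOn (child_inj x a), Nat.card_Ico]

lemma mem_Cs {x y : Vx} {a : ℕ} : y ∈ Cs x a ↔ ∃ i, a ≤ i ∧ i < ch x.1 ∧ y = child x i := by
  simp only [Cs, mem_image, mem_Ico]
  exact ⟨fun ⟨i, h, e⟩ => ⟨i, h.1, h.2, e.symm⟩, fun ⟨i, h1, h2, e⟩ => ⟨i, ⟨h1, h2⟩, e.symm⟩⟩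

lemma mem_N {x y : Vx} : y ∈ N x ↔ (x ≠ o ∧ y = par x) ∨ ∃ i, i < ch x.1 ∧ y = child x i := by
  unfold N
  split_ifs with h <;> simp [h, mem_Cs]

lemma N_eq (x : Vx) : (N x : Set Vx) = T.neighborSet x := by
  ext y
  rw [mem_coe, mem_N, SimpleGraph.mem_neighborSet]
  constructor
  · rintro (⟨h, rfl⟩ | ⟨i, h, rfl⟩)
    · obtain ⟨_ | ⟨i, l⟩, hl⟩ := x
      · exact absurd rfl h
      · exact Or.inr ⟨i, rfl⟩
    · exact Or.inl ⟨i, child_val h⟩
  · rintro (⟨i, h⟩ | ⟨i, h⟩)
    · exact Or.inr ⟨i, eq_child h⟩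
    · obtain ⟨h1, rfl⟩ := eq_child h
      exact Or.inl ⟨child_ne h1, (par_child h1).symm⟩

lemma par_not (x : Vx) : par x ∉ Cs x 0 := fun h => by
  obtain ⟨i, -, h1, e⟩ := mem_Cs.1 h
  have := congrArg (fun v : Vx => v.1.length) e
  simp only [par, child_val h1, List.length_tail, List.length_cons] at this
  omega

lemma card_N (x : Vx) : (N x).card ≤ ch x.1 + 1 := by
  unfold N
  split_ifs
  · simp [card_Cs]
  · exact (card_insert_le _ _).trans (by simp [card_Cs])

lemma N_ne (x : Vx) : (N x).Nonempty := by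
  by_cases h : x = o
  · subst h
    have := E_ge 0
    exact ⟨_, mem_N.2 (Or.inr ⟨0, by show 0 < E 0 - 1; omega, rfl⟩)⟩
  · exact ⟨_, mem_N.2 (Or.inl ⟨h, rfl⟩)⟩

lemma locfin (v : Vx) : (T.neighborSet v).Finite ∧ (T.neighborSet v).Nonempty := by
  rw [← N_eq]; exact ⟨(N v).finite_toSet, N_ne v⟩

instance : IsProbabilityMeasure (walkLaw T) := walk_prob locfin

noncomputable def Av (f : Vx → ℝ) (x : Vx) : ℝ := (∑ y ∈ N x, f y) / (N x).card

lemma mk (x : Vx) {S : Set (ℕ → Vx)} (hS : MeasurableSet S) :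
    Pw T x S = Av (fun y => Pw T y (cons x ⁻¹' S)) x := markov locfin x _ (N_eq x) hS

lemma N_pos (x : Vx) : (0 : ℝ) < (N x).card := by exact_mod_cast (N_ne x).card_pos

lemma Av_ge {f : Vx → ℝ} {x : Vx} (M : Finset Vx) (hM : M ⊆ N x) {c : ℝ} (hc : 0 ≤ c)
    (h0 : ∀ y ∈ N x, 0 ≤ f y) (h : ∀ y ∈ M, c ≤ f y) :
    c * (M.card / (ch x.1 + 1)) ≤ Av f x := by
  have h1 : ((N x).card : ℝ) ≤ ch x.1 + 1 := by exact_mod_cast card_N x
  have := N_pos x
  calc _ ≤ c * (M.card / (N x).card) := by gcongr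
    _ = (∑ _y ∈ M, c) / (N x).card := by simp; ring
    _ ≤ _ := by
      unfold Av; gcongr
      exact (sum_le_sum h).trans (sum_le_sum_of_subset_of_nonneg hM fun y hy _ => h0 y hy)

lemma Av_sub (f : Vx → ℝ) (x : Vx) (B : ℝ) : Av (fun y => B - f y) x = B - Av f x := by
  have := N_pos x
  simp only [Av, sum_sub_distrib, sum_const, nsmul_eq_mul]
  field_simp

lemma Av_mono {f g : Vx → ℝ} {x : Vx} (h : ∀ y ∈ N x, f y ≤ g y) : Av f x ≤ Av g x := by
  have := N_pos x
  unfold Av; gcongr with y hy; exact h y hy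

lemma Av_const (x : Vx) (B : ℝ) : Av (fun _ => B) x = B := by
  have := N_pos x
  simp only [Av, sum_const, nsmul_eq_mul]
  field_simp

lemma Av_sum (f : ℕ → Vx → ℝ) (n : ℕ) (x : Vx) :
    ∑ k ∈ range n, Av (f k) x = Av (fun y => ∑ k ∈ range n, f k y) x := by
  simp only [Av, ← sum_div]
  rw [sum_comm]

section states
variable {x : Vx} {m r i : ℕ}

lemma ch_b (h : st x.1 = (m, none)) : ch x.1 = E m - 1 := by simp [ch, h]
lemma ch_t (h : st x.1 = (m, some r)) : ch x.1 = r * (r + 2) := by simp [ch, h]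
lemma st_g (h : st x.1 = (m, none)) (hi : i < ch x.1) (h0 : i ≠ 0) :
    st (child x i).1 = (m + 1, none) := by rw [child_val hi]; simp [st, h, h0]
lemma st_0 (h : st x.1 = (m, none)) : st (child x 0).1 = (m, some (R m)) := by
  have := E_ge m
  rw [child_val (by rw [ch_b h]; omega)]; simp [st, h]
lemma st_t (h : st x.1 = (m, some r)) (hi : i < ch x.1) :
    st (child x i).1 = (m, some (r - 1)) := by rw [child_val hi]; simp [st, h]

lemma ne_o (h : st x.1 = (m, some r)) : x ≠ o := by rintro rfl; simp [o, st] at h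

lemma ch_b' (h : st x.1 = (m, none)) : (ch x.1 : ℝ) + 1 = E m := by
  have := E_ge m
  rw [ch_b h, Nat.cast_sub (by omega)]; simp

lemma Av_good {f : Vx → ℝ} (h : st x.1 = (m, none)) {c : ℝ} (hc : 0 ≤ c)
    (h0 : ∀ y ∈ N x, 0 ≤ f y) (hf : ∀ i, i < ch x.1 → i ≠ 0 → c ≤ f (child x i)) :
    c * (1 - 2 / E m) ≤ Av f x := by
  have := Av_ge (Cs x 1) (fun y hy => by
    obtain ⟨i, -, h1, e⟩ := mem_Cs.1 hy
    exact mem_N.2 (Or.inr ⟨i, h1, e⟩)) hc h0 (fun y hy => by
    obtain ⟨i, h2, h1, rfl⟩ := mem_Cs.1 hy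
    exact hf i h1 (by omega))
  have h16 := E_ge m
  have h17 : (16 : ℝ) ≤ E m := by exact_mod_cast h16
  rw [ch_b' h, card_Cs, ch_b h, Nat.cast_sub (by omega), Nat.cast_sub (by omega)] at this
  convert this using 2
  field_simp; push_cast; ring

lemma Av_one {f : Vx → ℝ} (h : st x.1 = (m, none)) (h0 : ∀ y ∈ N x, 0 ≤ f y) {y : Vx}
    (hy : y ∈ N x) : f y / E m ≤ Av f x := by
  have := Av_ge {y} (by simpa using hy) (h0 y hy) h0 (by simp)
  rw [ch_b' h] at this
  simpa [div_eq_mul_inv] using this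

lemma harm {f : Vx → ℝ} (hf : ∀ x m r, st x.1 = (m, some r) → f x = Av f x) (r : ℕ) :
    ∀ x m, st x.1 = (m, some r) → f x = f (par x) := by
  have key : ∀ x m r, st x.1 = (m, some r) → (∀ i, i < ch x.1 → f (child x i) = f x) →
      f x = f (par x) := by
    intro x m r h hc
    have h1 := hf x m r h
    rw [Av, N, if_neg (ne_o h), sum_insert (par_not x), card_insert_of_notMem (par_not x),
      sum_congr rfl (g := fun _ => f x) (fun y hy => by
        obtain ⟨i, -, h1, rfl⟩ := mem_Cs.1 hy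
        exact hc i h1), sum_const, nsmul_eq_mul,
      eq_div_iff (Nat.cast_ne_zero.2 (Nat.succ_ne_zero _))] at h1
    push_cast at h1
    linarith
  induction r with
  | zero => exact fun x m h => key x m 0 h fun i hi => by rw [ch_t h] at hi; omega
  | succ r ih =>
    exact fun x m h => key x m _ h fun i hi => by
      rw [ih _ m (st_t h hi), par_child hi]

lemma harm' {f : Vx → ℝ} (hf : ∀ x m r, st x.1 = (m, some r) → f x = Av f x) (P : ℕ → ℝ → Prop)
    (hP : ∀ x m, st x.1 = (m, none) → P m (f x)) (x : Vx) : P (st x.1).1 (f x) := by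
  induction x using ind with
  | h0 => exact hP _ _ rfl
  | h1 x i hi ih =>
    rcases h : st (child x i).1 with ⟨m, _ | r⟩
    · exact hP _ _ h
    · rw [harm hf r _ m h, par_child hi]
      rcases h' : st x.1 with ⟨m', _ | r'⟩
      · by_cases h0 : i = 0
        · subst h0
          rw [st_0 h'] at h
          rw [h'] at ih
          cases h; exact ih
        · rw [st_g h' hi h0] at h; cases h
      · rw [st_t h' hi] at h
        rw [h'] at ih
        cases h; exact ih

end states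

lemma reach (x : Vx) : ∃ p : T.Walk o x, p.length = x.1.length := by
  induction x using ind with
  | h0 => exact ⟨.nil, rfl⟩
  | h1 x i hi ih =>
    obtain ⟨p, hp⟩ := ih
    have a : T.Adj x (child x i) := Or.inl ⟨i, child_val hi⟩
    exact ⟨p.concat a, by
      rw [SimpleGraph.Walk.length_concat, hp, child_val hi]; rfl⟩

lemma conn : T.Connected := by
  have : Nonempty Vx := ⟨o⟩
  refine ⟨fun u v => ?_⟩
  obtain ⟨p, -⟩ := reach u
  obtain ⟨q, -⟩ := reach v
  exact p.reachable.symm.trans q.reachable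

lemma isTree : T.IsTree := ⟨conn, acyclic T (fun v => v.1.length) par fun a b h => by
  rcases h with ⟨i, h⟩ | ⟨i, h⟩
  · exact Or.inr ⟨Subtype.ext (by simp [par, h]), by simp [h]⟩
  · exact Or.inl ⟨Subtype.ext (by simp [par, h]), by simp [h]⟩⟩

lemma dist_eq (x : Vx) : T.dist o x = x.1.length := by
  obtain ⟨p, hp⟩ := reach x
  refine le_antisymm (hp ▸ SimpleGraph.dist_le p) ?_
  obtain ⟨q, hq⟩ := (conn.preconnected o x).exists_walk_length_eq_dist
  have : ∀ {u v : Vx} (q : T.Walk u v), v.1.length ≤ u.1.length + q.length := by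
    intro u v q
    induction q with
    | nil => simp
    | cons h q ih =>
      rw [SimpleGraph.Walk.length_cons]
      rcases h with ⟨i, h⟩ | ⟨i, h⟩ <;> simp only [h, List.length_cons] at ih ⊢ <;> omega
  have := this q
  rw [hq] at this
  simpa [show o.1 = [] from rfl] using this

lemma fin_len (L : ℕ) : {x : Vx | x.1.length ≤ L}.Finite := by
  induction L with
  | zero =>
    exact (Set.finite_singleton o).subset fun x hx =>
      Subtype.ext (List.eq_nil_of_length_eq_zero (Nat.le_zero.1 hx))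
  | succ L ih =>
    refine ((Set.finite_singleton o).union (ih.biUnion fun x _ => (Cs x 0).finite_toSet)).subset ?_
    rintro ⟨_ | ⟨i, l⟩, hl⟩ hx
    · exact Or.inl rfl
    · refine Or.inr (Set.mem_biUnion (x := ⟨l, hl.1⟩) (Nat.le_of_succ_le_succ (show l.length + 1 ≤ L + 1 from hx)) ?_)
      exact mem_Cs.2 ⟨i, by simp, eq_child rfl⟩

lemma len_st (x : Vx) : (∀ m, st x.1 = (m, none) → x.1.length = m) ∧
    ∀ m r, st x.1 = (m, some r) → x.1.length + r = m + 1 + R m := by
  induction x using ind with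
  | h0 => simp [o, st]
  | h1 x i hi ih =>
    rcases h' : st x.1 with ⟨m', _ | r'⟩
    · by_cases h0 : i = 0
      · subst h0
        rw [st_0 h', child_val hi]
        simp [ih.1 _ h']
      · rw [st_g h' hi h0, child_val hi]
        simp [ih.1 _ h']
    · have := ih.2 _ _ h'
      have : r' ≠ 0 := by rintro rfl; rw [ch_t h'] at hi; omega
      rw [st_t h' hi, child_val hi]
      simp only [Prod.mk.injEq, reduceCtorEq, and_false, false_imp_iff, implies_true, true_and,
        Option.some.injEq, List.length_cons]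
      rintro m r ⟨rfl, rfl⟩
      omega

lemma fin_st (n : ℕ) : {x : Vx | (st x.1).1 = n}.Finite := by
  refine (fin_len (n + 1 + R n)).subset fun x hx => ?_
  rcases h : st x.1 with ⟨m, _ | r⟩
  · have := (len_st x).1 _ h
    simp only [Set.mem_ofPred_eq, h] at hx ⊢
    omega
  · have := (len_st x).2 _ _ h
    simp only [Set.mem_ofPred_eq, h] at hx ⊢
    subst hx; omega

end Pool.Agent.H41.Frog
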