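import Pool.Agent.H41.Frog2

set_option autoImplicit false

namespace Pool.Agent.H41.Frog

open MeasureTheory ProbabilityTheory Finset Filter
open scoped ENNReal Topology

lemma m1 (p : Vx → Prop) (k : ℕ) : MeasurableSet {w : ℕ → Vx | p (w k)} :=
  measurable_pi_apply k (MeasurableSet.of_discrete (s := {v | p v}))

lemma m2 (p : Vx → Vx → Prop) (k : ℕ) : MeasurableSet {w : ℕ → Vx | p (w k) (w (k + 1))} :=
  (show Measurable fun w : ℕ → Vx => (w k, w (k + 1)) from
    (measurable_pi_apply k).prodMk (measurable_pi_apply (k + 1)))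
    (Set.to_countable {v : Vx × Vx | p v.1 v.2}).measurableSet

lemma mex (p : Vx → Prop) : MeasurableSet {w : ℕ → Vx | ∃ k, p (w k)} := by
  rw [Set.ofPred_exists]; exact MeasurableSet.iUnion fun k => m1 p k

lemma mall {q : ℕ → Prop} {S : ℕ → (ℕ → Vx) → Prop} (h : ∀ i, MeasurableSet {w | S i w}) :
    MeasurableSet {w | ∀ i, q i → S i w} := by
  rw [Set.ofPred_forall]
  refine MeasurableSet.iInter fun i => ?_
  by_cases hq : q i
  · simpa only [hq, true_imp_iff] using h i
  · simp [hq]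

lemma Pw_nn (x : Vx) (S : Set (ℕ → Vx)) : 0 ≤ Pw T x S := measureReal_nonneg
lemma Pw_le (x : Vx) (S : Set (ℕ → Vx)) : Pw T x S ≤ 1 := measureReal_le_one

lemma Pw_mono {x : Vx} {S S' : Set (ℕ → Vx)} (h : ∀ w, w 0 = x → w ∈ S → w ∈ S') :
    Pw T x S ≤ Pw T x S' := measureReal_mono (fun _ hη => h _ rfl hη) (measure_ne_top _ _)

lemma Pw_one {x : Vx} {S : Set (ℕ → Vx)} (h : ∀ w, w 0 = x → w ∈ S) : 1 ≤ Pw T x S := by
  refine le_trans (by simp [Pw]) (Pw_mono (S := Set.univ) fun w hw _ => h w hw)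

lemma Pw_zero {x : Vx} {S : Set (ℕ → Vx)} (h : ∀ w, w 0 = x → w ∉ S) : Pw T x S ≤ 0 := by
  refine le_trans (Pw_mono (S' := ∅) fun w hw h' => h w hw h') (by simp [Pw])

lemma st_par {x : Vx} (hx : x ≠ o) : (∀ m r, st x.1 = (m, some r) → (st (par x).1).1 = m) ∧
    ∀ m, st x.1 = (m, none) → ∃ m', m = m' + 1 ∧ st (par x).1 = (m', none) := by
  induction x using ind with
  | h0 => exact absurd rfl hx
  | h1 x i hi _ =>
    rw [par_child hi]
    rcases h' : st x.1 with ⟨m', _ | r'⟩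
    · by_cases h0 : i = 0
      · subst h0
        rw [st_0 h']; simp
      · rw [st_g h' hi h0]; simp
    · rw [st_t h' hi]; simp

def Good (x y : Vx) : Prop := (st x.1).2 = none → ∃ i, i < ch x.1 ∧ i ≠ 0 ∧ y = child x i

def Bad (k : ℕ) : Set (ℕ → Vx) := {w | ¬ Good (w k) (w (k + 1))}

lemma Bad_m (k : ℕ) : MeasurableSet (Bad k) := m2 (fun x y => ¬ Good x y) k

lemma bad_sum (n : ℕ) : ∀ x : Vx, ∑ k ∈ range n, Pw T x (Bad k) ≤ 2 * τ (st x.1).1 := by
  induction n with
  | zero => intro x; simpa using τ_nonneg _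
  | succ n ih =>
    intro x
    rw [sum_range_succ', sum_congr rfl fun k _ => mk x (Bad_m (k + 1)), Av_sum, mk x (Bad_m 0)]
    have h1 : Av (fun y => ∑ k ∈ range n, Pw T y (cons x ⁻¹' Bad (k + 1))) x ≤
        Av (fun y => 2 * τ (st y.1).1) x := Av_mono fun y _ => ih y
    rcases h : st x.1 with ⟨m, _ | r⟩
    · have a1 := Av_good (f := fun y => 1 - Pw T y (cons x ⁻¹' Bad 0)) h zero_le_one
        (fun y _ => sub_nonneg.2 (Pw_le _ _)) fun i hi h0 => by
          have : Pw T (child x i) (cons x ⁻¹' Bad 0) ≤ 0 :=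
            Pw_zero fun w hw hb => hb fun _ => ⟨i, hi, h0, hw⟩
          linarith
      have t1 := τ_le (m + 1)
      have t2 := τ_nonneg (m + 1)
      have a2 := Av_good (f := fun y => 1 - 2 * τ (st y.1).1) h (c := 1 - 2 * τ (m + 1))
        (by linarith) (fun y _ => by linarith [τ_le (st y.1).1]) fun i hi h0 => by
          simp only [st_g h hi h0, le_refl]
      rw [Av_sub] at a1 a2
      have t3 := τ_step m
      have : (0 : ℝ) ≤ 2 / E m := by positivity
      nlinarith
    · have a1 : Av (fun y => Pw T y (cons x ⁻¹' Bad 0)) x ≤ Av (fun _ => 0) x :=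
        Av_mono fun y _ => Pw_zero fun w _ hb => hb fun h' => by
          have h' : (st x.1).2 = none := h'
          simp [h] at h'
      have a2 : Av (fun y => 2 * τ (st y.1).1) x ≤ Av (fun _ => 2 * τ m) x :=
        Av_mono fun y hy => by
          rcases mem_N.1 hy with ⟨h1, rfl⟩ | ⟨i, hi, rfl⟩
          · rw [(st_par h1).1 _ _ h]
          · rw [st_t h hi]
      rw [Av_const] at a1 a2
      linarith

def Stuck (k : ℕ) : Set (ℕ → Vx) := {w | ∀ n, k ≤ n → (st (w n).1).2 ≠ none}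

lemma Stuck_m (k : ℕ) : MeasurableSet (Stuck k) :=
  mall fun n => m1 (fun v => (st v.1).2 ≠ none) n

lemma stuck (k : ℕ) : ∀ x, Pw T x (Stuck k) ≤ 0 := by
  induction k with
  | zero =>
    refine harm' (f := fun x => Pw T x (Stuck 0)) (fun x m r h => ?_) (fun _ a => a ≤ 0)
      fun x m h => Pw_zero fun w hw hs => hs 0 le_rfl (by rw [hw, h])
    rw [mk x (Stuck_m 0)]
    congr; ext y; congr; ext w
    refine ⟨fun hw n _ => hw (n + 1) (by omega), fun hw n _ => ?_⟩
    cases n with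
    | zero => show (st x.1).2 ≠ none; simp [h]
    | succ n => exact hw n (by omega)
  | succ k ih =>
    intro x
    rw [mk x (Stuck_m _), ← Av_const x 0]
    exact Av_mono fun y _ => le_trans (Pw_mono (S := cons x ⁻¹' Stuck (k + 1)) (S' := Stuck k)
      fun w _ hw n hn => hw (n + 1) (by omega)) (ih y)

theorem speed : ∀ᵐ η ∂walkLaw T,
    Tendsto (fun n : ℕ => (T.dist o (walk η o n) : ℝ) / n) atTop (𝓝 1) := by
  have a1 := ae_eventually_notMem (μ := walkLaw T) (s := fun k => {η | walk η o ∈ Bad k}) (by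
    refine ne_top_of_le_ne_top (b := ENNReal.ofReal (2 * τ 0)) ENNReal.ofReal_ne_top
      (ENNReal.tsum_le_of_sum_range_le fun n => ?_)
    refine le_trans (le_of_eq ?_) (ENNReal.ofReal_le_ofReal (bad_sum n o))
    rw [ENNReal.ofReal_sum_of_nonneg fun k _ => Pw_nn _ _]
    exact sum_congr rfl fun k _ => (ofReal_measureReal (measure_ne_top _ _)).symm)
  have a2 : ∀ᵐ η ∂walkLaw T, ∀ k, walk η o ∉ Stuck k := ae_all_iff.2 fun k => by
    rw [ae_iff]; simp only [not_not]
    exact (measureReal_eq_zero_iff (measure_ne_top _ _)).1 (le_antisymm (stuck k o) (Pw_nn _ _))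
  filter_upwards [a1, a2] with η h1 h2
  obtain ⟨k, hk⟩ := eventually_atTop.1 h1
  have h3 := h2 k
  simp only [Stuck, Set.mem_ofPred_eq, not_forall, not_not] at h3
  obtain ⟨n, hn, h3⟩ := h3
  set w := walk η o
  have key : ∀ j, (st (w (n + j)).1).2 = none ∧ (w (n + j)).1.length = (w n).1.length + j := by
    intro j
    induction j with
    | zero => exact ⟨h3, rfl⟩
    | succ j ih =>
      obtain ⟨i, hi, h0, e⟩ := (not_not.1 (hk (n + j) (by omega)) : Good _ _) ih.1
      rw [← add_assoc, e, st_g (m := (st (w (n + j)).1).1) (Prod.ext rfl ih.1) hi h0, child_val hi]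
      exact ⟨rfl, by simp [ih.2, add_assoc]⟩
  have lim := (tendsto_const_div_atTop_nhds_zero_nat (((w n).1.length : ℝ) - n)).const_add 1
  rw [add_zero] at lim
  refine lim.congr' ?_
  filter_upwards [eventually_ge_atTop n, eventually_gt_atTop 0] with t ht h0
  obtain ⟨j, rfl⟩ := Nat.exists_eq_add_of_le ht
  have : ((n + j : ℕ) : ℝ) ≠ 0 := by positivity
  rw [dist_eq, (key j).2]
  field_simp; push_cast; ring

def Hit : Set (ℕ → Vx) := {w | ∃ n, w n = o}

lemma Hit_m : MeasurableSet Hit := mex (· = o)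

lemma hit (x : Vx) : 1 / R (st x.1).1 ≤ Pw T x Hit := by
  have h1 : ∀ x, x ≠ o → Pw T x Hit = Av (fun y => Pw T y Hit) x := fun x hx => by
    rw [mk x Hit_m, show cons x ⁻¹' Hit = Hit from ?_]
    ext w
    refine ⟨fun ⟨n, hn⟩ => ?_, fun ⟨n, hn⟩ => ⟨n + 1, hn⟩⟩
    cases n with
    | zero => exact absurd hn hx
    | succ n => exact ⟨n, hn⟩
  refine harm' (f := fun x => Pw T x Hit) (fun x m r h => h1 x (ne_o h))
    (fun m a => 1 / R m ≤ a) (fun x m => ?_) x
  induction m generalizing x with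
  | zero =>
    intro h
    by_cases hx : x = o
    · simpa [R] using Pw_one (S := Hit) fun w hw => ⟨0, hw.trans hx⟩
    · obtain ⟨m', e, -⟩ := (st_par hx).2 _ h
      omega
  | succ m ih =>
    intro h
    have hx : x ≠ o := by rintro rfl; simp [o, st] at h
    obtain ⟨m', e, h'⟩ := (st_par hx).2 _ h
    obtain rfl : m = m' := by omega
    have a := Av_one (f := fun y => Pw T y Hit) h (fun y _ => Pw_nn _ _) (mem_N.2 (Or.inl ⟨hx, rfl⟩))
    simp only [h1 x hx]
    refine le_trans ?_ a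
    rw [R, Nat.cast_mul, ← div_div]
    gcongr
    exact ih _ h'

lemma descent (f : ℕ → Vx → ℝ) (f0 : ∀ m x, 0 ≤ f m x) (n : ℕ) {c : ℝ} (hc : 0 ≤ c)
    (h1 : ∀ x m, m < n → st x.1 = (m, none) → Av (f (m + 1)) x ≤ f m x)
    (h2 : ∀ x, st x.1 = (n, none) → c ≤ f n x) (j : ℕ) :
    ∀ m x, m + j = n → st x.1 = (m, none) → c * (1 - τ m) ≤ f m x := by
  induction j with
  | zero =>
    rintro m x rfl h
    have := h2 x h
    have := τ_nonneg m
    simp only [add_zero] at *
    nlinarith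
  | succ j ih =>
    intro m x e h
    have t1 := τ_le (m + 1)
    have t2 := τ_nonneg (m + 1)
    have t3 := τ_step m
    have a := Av_good (f := f (m + 1)) h (c := c * (1 - τ (m + 1))) (mul_nonneg hc (by linarith))
      (fun y _ => f0 _ _) fun i hi h0 => ih _ _ (by omega) (st_g h hi h0)
    refine le_trans ?_ (a.trans (h1 x m (by omega) h))
    have : (0 : ℝ) ≤ 2 / E m := by positivity
    rw [mul_assoc]
    gcongr
    nlinarith

def Bk (n m : ℕ) : Set (ℕ → Vx) := {w | ∀ i, m ≤ i ∧ i ≤ n → ∃ k, st (w k).1 = (i, none)}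

lemma Bk_m (n m : ℕ) : MeasurableSet (Bk n m) := mall fun i => mex fun v => st v.1 = (i, none)

lemma bk (n : ℕ) : 1 / 2 ≤ Pw T o (Bk n 0) := by
  have := descent (fun m x => Pw T x (Bk n m)) (fun _ _ => Pw_nn _ _) n zero_le_one
    (fun x m _ h => by
      rw [mk x (Bk_m n m)]
      refine Av_mono fun y _ => Pw_mono fun w _ hw i hi => ?_
      by_cases e : i = m
      · exact ⟨0, e ▸ h⟩
      · obtain ⟨k, hk⟩ := hw i (by omega)
        exact ⟨k + 1, hk⟩)
    (fun x h => Pw_one fun w hw i hi => ⟨0, by rw [hw, h, show i = n by omega]⟩) n 0 o (by simp) rfl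
  linarith [τ_le 0]

def Ak (n j : ℕ) : Set (ℕ → Vx) := {w | ∀ i, i ≤ j → ∃ k, st (w k).1 = (n, some i)}

lemma Ak_m (n j : ℕ) : MeasurableSet (Ak n j) := mall fun i => mex fun v => st v.1 = (n, some i)

lemma ak (n j : ℕ) : ∀ x : Vx, st x.1 = (n, some j) →
    ((j : ℝ) + 2) / (2 * (j + 1)) ≤ Pw T x (Ak n j) := by
  induction j with
  | zero =>
    intro x h
    simpa using Pw_one (S := Ak n 0) fun w hw i hi => ⟨0, by rw [hw, h, show i = 0 by omega]⟩
  | succ j ih =>
    intro x h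
    have a := Av_ge (f := fun y => Pw T y (Ak n j)) (x := x) (Cs x 0) (fun y hy => by
      obtain ⟨i, -, h1, e⟩ := mem_Cs.1 hy
      exact mem_N.2 (Or.inr ⟨i, h1, e⟩)) (c := ((j : ℝ) + 2) / (2 * (j + 1))) (by positivity)
      (fun y _ => Pw_nn _ _) fun y hy => by
        obtain ⟨i, -, h1, rfl⟩ := mem_Cs.1 hy
        exact ih _ (st_t h h1)
    rw [card_Cs, ch_t h] at a
    rw [mk x (Ak_m n _)]
    refine le_trans (le_of_eq ?_) (a.trans (Av_mono fun y _ => Pw_mono fun w _ hw i hi => ?_))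
    · simp only [tsub_zero]; push_cast; field_simp; ring
    · by_cases e : i = j + 1
      · exact ⟨0, e ▸ h⟩
      · obtain ⟨k, hk⟩ := hw i (by omega)
        exact ⟨k + 1, hk⟩

lemma ak' {n m : ℕ} (hm : m ≤ n) {x : Vx} (h : st x.1 = (m, none)) :
    1 / (4 * E n) ≤ Pw T x (Ak n (R n)) := by
  have s : ∀ x, Av (fun y => Pw T y (Ak n (R n))) x ≤ Pw T x (Ak n (R n)) := fun x => by
    rw [mk x (Ak_m n _)]
    refine Av_mono fun y _ => Pw_mono fun w _ hw i hi => ?_
    obtain ⟨k, hk⟩ := hw i hi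
    exact ⟨k + 1, hk⟩
  have hE : (16 : ℝ) ≤ E n := by exact_mod_cast E_ge n
  have := descent (fun _ x => Pw T x (Ak n (R n))) (fun _ _ => Pw_nn _ _) n
    (c := 1 / 2 / E n) (by positivity) (fun x _ _ _ => s x) (fun x h => by
      have a := Av_one (f := fun y => Pw T y (Ak n (R n))) h (fun y _ => Pw_nn _ _)
        (mem_N.2 (Or.inr ⟨0, by rw [ch_b h]; have := E_ge n; omega, rfl⟩))
      refine le_trans ?_ (a.trans (s x))
      gcongr
      refine le_trans ?_ (ak n _ _ (st_0 h))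
      rw [div_le_div_iff₀ (by norm_num) (by positivity)]
      linarith) (n - m) m x (by omega) h
  refine le_trans ?_ this
  have := τ_le m
  calc (1 : ℝ) / (4 * E n) = 1 / 2 / E n * (1 / 2) := by field_simp; norm_num
    _ ≤ _ := by gcongr; linarith

end Pool.Agent.H41.Frog
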