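import Pool.Agent.H41.Frog3

set_option autoImplicit false

namespace Pool.Agent.H41.Frog

open MeasureTheory ProbabilityTheory Finset Filter
open scoped ENNReal Topology NNReal

abbrev Y := ℕ × (ℕ → ℕ → Vx → Vx)

instance : Inhabited Y := ⟨(0, fun _ _ v => v)⟩

noncomputable def Q (lam : ℝ≥0) : Measure Y :=
  (poissonMeasure lam).prod (Measure.infinitePi fun _ => walkLaw T)

instance (lam : ℝ≥0) : IsProbabilityMeasure (Q lam) := by unfold Q; infer_instance

def Cz (q : ℕ → Prop) (z : Vx) (S : Set (ℕ → Vx)) : Set Y := {y | q y.1 ∧ walk (y.2 0) z ∈ S}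

lemma Cz_eq (q : ℕ → Prop) (z : Vx) (S : Set (ℕ → Vx)) : Cz q z S =
    {k | q k} ×ˢ ((fun a : ℕ → ℕ → Vx → Vx => a 0) ⁻¹' {η | walk η z ∈ S}) := rfl

lemma Cz_m (q : ℕ → Prop) (z : Vx) {S : Set (ℕ → Vx)} (hS : MeasurableSet S) :
    MeasurableSet (Cz q z S) := by
  rw [Cz_eq]
  exact MeasurableSet.of_discrete.prod (measurable_pi_apply 0 (meas_walk z hS))

lemma Cz_p (lam : ℝ≥0) (q : ℕ → Prop) (z : Vx) {S : Set (ℕ → Vx)} (hS : MeasurableSet S) :
    (Q lam).real (Cz q z S) = (poissonMeasure lam).real {k | q k} * Pw T z S := by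
  rw [Cz_eq, Q, measureReal_prod_prod, Pw]
  congr 1
  exact (measurePreserving_eval_infinitePi (fun _ : ℕ => walkLaw T) 0).measureReal_preimage
    (meas_walk z hS).nullMeasurableSet

lemma pick (w : ℕ → Vx) (s : Finset ℕ) (g : ℕ → ℕ × Option ℕ) (hg : Function.Injective g)
    (h : ∀ i ∈ s, ∃ k, st (w k).1 = g i) :
    ∃ W : Finset Vx, s.card ≤ W.card ∧ ∀ z ∈ W, (∃ k, w k = z) ∧ ∃ i ∈ s, st z.1 = g i := by
  choose! k hk using h
  refine ⟨s.image fun i => w (k i), (card_image_of_injOn fun i hi j hj e => hg ?_).ge, fun z hz => ?_⟩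
  · rw [← hk i hi, ← hk j hj]; exact congrArg (fun v : Vx => st v.1) e
  · obtain ⟨i, hi, rfl⟩ := mem_image.1 hz
    exact ⟨⟨_, rfl⟩, i, hi, hk i hi⟩

lemma bern {x : ℝ} (h0 : 0 ≤ x) (h1 : x ≤ 1) {N K : ℕ} (hN : 0 < N) (hK : N ≤ K) :
    x / 2 ≤ 1 - (1 - x / N) ^ K := by
  have hN' : (1 : ℝ) ≤ N := by exact_mod_cast hN
  have a : x / N ≤ 1 := (div_le_one (by linarith)).2 (by linarith)
  have b := Real.one_sub_div_pow_le_exp_neg (n := N) (t := x) (by linarith)
  have c := pow_le_pow_of_le_one (by linarith) (sub_le_self (1 : ℝ) (by positivity : 0 ≤ x / N)) hK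
  have d : Real.exp (-x) ≤ 1 - x / 2 := by
    rw [Real.exp_neg, inv_le_comm₀ (Real.exp_pos _) (by linarith)]
    refine le_trans ?_ (Real.add_one_le_exp x)
    rw [inv_le_iff_one_le_mul₀ (by linarith)]
    nlinarith
  linarith

noncomputable def Z1 (n : ℕ) : Finset Vx :=
  (fin_len n).toFinset.filter fun x => x ≠ o ∧ (st x.1).2 = none

noncomputable def Z2 (n : ℕ) : Finset Vx := (fin_st n).toFinset.filter fun x => (st x.1).2 ≠ none

def vis (q : ℕ → Prop) (v z : Vx) : Set (Vx → Y) := {ω | ω v ∈ Cz q v {w | ∃ k, w k = z}}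

lemma vis_m (q : ℕ → Prop) (v z : Vx) : MeasurableSet (vis q v z) :=
  measurable_pi_apply v (Cz_m q v (mex (· = z)))

def vis2 (n : ℕ) (z : Vx) : Set (Vx → Y) :=
  ⋃ v ∈ Z1 n, vis (fun _ => True) o v ∩ vis (0 < ·) v z

def Ev (n : ℕ) : Set (Vx → Y) := {ω | ∃ z ∈ Z2 n, ω ∈ vis2 n z ∧ ω z ∈ Cz (0 < ·) z Hit}

lemma vis2_m (n : ℕ) (z : Vx) : MeasurableSet (vis2 n z) :=
  Finset.measurableSet_biUnion _ fun _ _ => (vis_m _ _ _).inter (vis_m _ _ _)

lemma Ev_m (n : ℕ) : MeasurableSet (Ev n) := by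
  have : Ev n = ⋃ z ∈ Z2 n, vis2 n z ∩ (fun ω => ω z) ⁻¹' Cz (0 < ·) z Hit := by
    ext; simp only [Ev, Set.mem_ofPred_eq, Set.mem_iUnion, Set.mem_inter_iff, Set.mem_preimage,
      exists_prop]
  rw [this]
  exact Finset.measurableSet_biUnion _ fun z _ =>
    (vis2_m n z).inter (measurable_pi_apply z (Cz_m _ _ Hit_m))

lemma Ev_p (lam : ℝ≥0) {p : ℝ} (hp : p = (poissonMeasure lam).real {k | 0 < k}) (j : ℕ) :
    1 / 2 * (p / 64 / 2) * (p / 2) ≤ (frogLaw T lam).real (Ev (2 ^ j)) := by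
  have p0 : 0 ≤ p := hp ▸ measureReal_nonneg
  have p1 : p ≤ 1 := hp ▸ measureReal_le_one
  set n := 2 ^ j with hn
  have n0 : 0 < n := by positivity
  have n1 : (1 : ℝ) ≤ n := by exact_mod_cast n0
  have r1 := relay (Q lam) {o} (Z1 n) (fun z hz => (mem_filter.1 hz).2.1)
    (vis (fun _ => True) o) (vis_m _ _) (fun z ω ω' h hω => by
      simpa only [vis, Set.mem_ofPred_eq, h o rfl] using hω)
    (fun z => Cz (0 < ·) z (Ak n (R n))) (fun z => Cz_m _ _ (Ak_m _ _)) (β := p / 64 / n)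
    (fun z hz => by
      obtain ⟨h1, -, h2⟩ := mem_filter.1 hz
      have h3 : st z.1 = ((st z.1).1, none) := Prod.ext rfl h2
      have h4 := ak' (n := n) (by
        rw [← (len_st z).1 _ h3]; simpa using h1) h3
      rw [Cz_p _ _ _ (Ak_m _ _), ← hp]
      rw [hn, E_pow, ← hn] at h4
      calc p / 64 / n = p * (1 / (4 * ((16 * n : ℕ) : ℝ))) := by push_cast; field_simp; ring
        _ ≤ _ := by gcongr)
    ((div_le_one (by linarith)).2 (by linarith)) (by positivity) n
    {ω | ω o ∈ Cz (fun _ => True) o (Bk n 0)} (fun ω hω => by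
      obtain ⟨W, h1, h2⟩ := pick (walk ((ω o).2 0) o) (Icc 1 n) (fun i => (i, none))
        (fun a b e => (Prod.mk.inj e).1) fun i hi => hω.2 i ⟨Nat.zero_le _, (mem_Icc.1 hi).2⟩
      refine ⟨W, fun z hz => ?_, by simpa using h1, fun z hz => ⟨trivial, (h2 z hz).1⟩⟩
      obtain ⟨i, hi, e⟩ := (h2 z hz).2
      have := mem_Icc.1 hi
      refine mem_filter.2 ⟨?_, ?_, by rw [e]⟩
      · simp [(len_st z).1 _ e, this.2]
      · rintro rfl
        simp only [o, st, Prod.mk.injEq, and_true] at e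
        omega)
  have R1 : (1 : ℝ) ≤ R n := by exact_mod_cast R_pos n
  have r2 := relay (Q lam) {x : Vx | (st x.1).2 = none} (Z2 n) (fun z hz => (mem_filter.1 hz).2)
    (vis2 n) (vis2_m n) (fun z ω ω' h hω => by
      obtain ⟨v, hv, h1, h2⟩ := Set.mem_iUnion₂.1 hω
      refine Set.mem_iUnion₂.2 ⟨v, hv, ?_, ?_⟩
      · simpa only [vis, Set.mem_ofPred_eq, h o rfl] using h1
      · simpa only [vis, Set.mem_ofPred_eq, h v (mem_filter.1 hv).2.2] using h2)
    (fun z => Cz (0 < ·) z Hit) (fun z => Cz_m _ _ Hit_m) (β := p / R n)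
    (fun z hz => by
      have h1 : (st z.1).1 = n := by simpa using (mem_filter.1 hz).1
      have h4 := hit z
      rw [Cz_p _ _ _ Hit_m, ← hp, div_eq_mul_one_div, ← h1]
      gcongr)
    ((div_le_one (by linarith)).2 (by linarith)) (by positivity) (R n) _ (fun ω hω => by
      have hω : ∃ z ∈ Z1 n, ω ∈ vis (fun _ => True) o z ∧ ω z ∈ Cz (0 < ·) z (Ak n (R n)) := hω
      obtain ⟨v, hv, h3, h4⟩ := hω
      obtain ⟨W, h1, h2⟩ := pick (walk ((ω v).2 0) v) (range (R n)) (fun i => (n, some i))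
        (fun a b e => Option.some.inj (Prod.mk.inj e).2) fun i hi => h4.2 i (mem_range.1 hi).le
      refine ⟨W, fun z hz => ?_, by simpa using h1, fun z hz =>
        Set.mem_iUnion₂.2 ⟨v, hv, h3, h4.1, (h2 z hz).1⟩⟩
      obtain ⟨i, -, e⟩ := (h2 z hz).2
      exact mem_filter.2 ⟨by simp [e], by simp [e]⟩)
  have b1 := bern (x := p / 64) (by positivity) (by linarith) n0 le_rfl
  have b2 := bern p0 p1 (R_pos n) le_rfl
  have a0 : 1 / 2 ≤ (Measure.infinitePi fun _ : Vx => Q lam).real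
      {ω | ω o ∈ Cz (fun _ => True) o (Bk n 0)} := by
    have := (measurePreserving_eval_infinitePi (fun _ : Vx => Q lam) o).measureReal_preimage
      (Cz_m (fun _ => True) o (Bk_m n 0)).nullMeasurableSet
    rw [Cz_p _ _ _ (Bk_m n 0)] at this
    refine le_trans ?_ this.ge
    simpa using bk n
  refine le_trans ?_ r2
  refine mul_le_mul (le_trans ?_ r1) b2 (by positivity) measureReal_nonneg
  exact mul_le_mul a0 b1 (by positivity) measureReal_nonneg

theorem not_transient {lam : ℝ≥0} (hl : 0 < lam) : ¬ Transient T o lam := by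
  intro h
  have : IsProbabilityMeasure (frogLaw T lam) := by unfold frogLaw; infer_instance
  set p := (poissonMeasure lam).real {k | 0 < k} with hp
  have p0 : 0 < p := by
    refine lt_of_lt_of_le ?_ (measureReal_mono (s₁ := {1}) (by simp) (measure_ne_top _ _))
    rw [poissonMeasure_real_singleton]
    positivity
  have lim := tendsto_measure_of_ae_tendsto_indicator_of_isFiniteMeasure (μ := frogLaw T lam)
    atTop (A := ∅) (As := fun j => Ev (2 ^ j)) MeasurableSet.empty (fun j => Ev_m _) (by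
      filter_upwards [h] with ω hω
      obtain ⟨M, hM⟩ := (hω.image fun q => (st q.1.1).1).bddAbove
      filter_upwards [eventually_gt_atTop M] with j hj
      simp only [Set.mem_empty_iff_false, iff_false]
      rintro ⟨z, hz, h1, h2⟩
      obtain ⟨v, hv, ⟨-, k, h3⟩, h4, k', h5⟩ := Set.mem_iUnion₂.1 h1
      have hz' := mem_filter.1 hz
      have zo : z ≠ o := by rintro rfl; exact hz'.2 rfl
      have := hM ⟨(z, 0), ⟨.wake (.wake .root h3 (mem_filter.1 hv).2.1 h4) h5 zo h2.1, h2.2⟩, rfl⟩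
      have e : (st z.1).1 = 2 ^ j := by simpa using hz'.1
      have := Nat.lt_two_pow_self (n := j)
      simp only at *
      omega)
  have lim2 := (ENNReal.tendsto_toReal (by simp)).comp lim
  have := ge_of_tendsto' lim2 fun j => Ev_p lam hp j
  simp only [measure_empty, ENNReal.toReal_zero] at this
  have : 0 < 1 / 2 * (p / 64 / 2) * (p / 2) := by positivity
  linarith

lemma inf : Infinite Vx := by
  have : ∀ n, ∃ x : Vx, st x.1 = (n, none) := by
    intro n
    induction n with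
    | zero => exact ⟨o, rfl⟩
    | succ n ih =>
      obtain ⟨x, h⟩ := ih
      have := E_ge n
      exact ⟨_, st_g h (i := 1) (by rw [ch_b h]; omega) one_ne_zero⟩
  choose f hf using this
  exact Infinite.of_injective f fun a b e => by
    have := hf a
    rw [e, hf b] at this
    exact (Prod.mk.inj this).1.symm

end Pool.Agent.H41.Frog
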