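import Mathlib

set_option autoImplicit false

namespace Pool.Agent.H41.Frog

open MeasureTheory ProbabilityTheory
open scoped NNReal

variable {V : Type}

/-- The path started at `x` that follows the instructions `η`: at time `n`, from `v` go to
`η n v`. -/
def walk (η : ℕ → V → V) (x : V) : ℕ → V
  | 0 => x
  | n + 1 => η n (walk η x n)

/-- Independent instructions, `η n v` uniform among the neighbours of `v`; under this law
`walk η x` is simple random walk on `G` started at `x`. -/
noncomputable def walkLaw [MeasurableSpace V] (G : SimpleGraph V) : Measure (ℕ → V → V) :=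
  Measure.infinitePi fun _ => Measure.infinitePi fun v => uniformOn (G.neighborSet v)

/-- Each vertex `v` independently carries a Poisson(`lam`) number `(ω v).1` of sleeping particles
and independent instruction arrays `(ω v).2 i`, one for each particle `(v, i)`. -/
noncomputable def frogLaw [MeasurableSpace V] (G : SimpleGraph V) (lam : ℝ≥0) :
    Measure (V → ℕ × (ℕ → ℕ → V → V)) :=
  Measure.infinitePi fun _ => (poissonMeasure lam).prod (Measure.infinitePi fun _ => walkLaw G)

/-- Particles that are ever active: the initial one `(o, 0)`, and all the sleeping particles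
`(w, j)`, `j < N_w`, at a non-root vertex `w` visited by an active particle. -/
inductive Active (o : V) (ω : V → ℕ × (ℕ → ℕ → V → V)) : V × ℕ → Prop
  | root : Active o ω (o, 0)
  | wake {v : V} {i n : ℕ} {w : V} {j : ℕ} : Active o ω (v, i) → walk ((ω v).2 i) v n = w →
      w ≠ o → j < (ω w).1 → Active o ω (w, j)

/-- The frog model is transient: almost surely finitely many particles ever visit `o`. -/
def Transient [MeasurableSpace V] (G : SimpleGraph V) (o : V) (lam : ℝ≥0) : Prop :=
  ∀ᵐ ω ∂frogLaw G lam,
    {p : V × ℕ | Active o ω p ∧ ∃ n, walk ((ω p.1).2 p.2) p.1 n = o}.Finite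

end Pool.Agent.H41.Frog
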