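import Mathlib

set_option autoImplicit false
set_option linter.unusedSectionVars false

namespace Pool.Agent.H41.GPerc

open Finset
open scoped BigOperators

variable {Γ : Type} [Group Γ] [DecidableEq Γ]

def Vs : Γ → List Γ → Finset Γ
  | x, [] => {x}
  | x, s :: l => insert x (Vs (x * s) l)

def Es : Γ → List Γ → Finset (Sym2 Γ)
  | _, [] => ∅
  | x, s :: l => insert s(x, x * s) (Es (x * s) l)

lemma self_mem (x : Γ) (l : List Γ) : x ∈ Vs x l := by
  cases l <;> simp [Vs]

lemma end_mem (x : Γ) (l : List Γ) : x * l.prod ∈ Vs x l := by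
  induction l generalizing x with
  | nil => simp [Vs]
  | cons s l ih => simp only [Vs, List.prod_cons, mem_insert, ← mul_assoc]; exact Or.inr (ih _)

lemma Vs_append (x : Γ) (l : List Γ) (s : Γ) (l' : List Γ) :
    Vs x (l ++ s :: l') = Vs x l ∪ Vs (x * l.prod * s) l' := by
  induction l generalizing x with
  | nil => simp [Vs]
  | cons a l ih => simp only [List.cons_append, Vs, ih, List.prod_cons, insert_union, mul_assoc]

lemma Es_append (x : Γ) (l : List Γ) (s : Γ) (l' : List Γ) :
    Es x (l ++ s :: l') = Es x l ∪ insert s(x * l.prod, x * l.prod * s) (Es (x * l.prod * s) l') := by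
  induction l generalizing x with
  | nil => simp [Es]
  | cons a l ih => simp only [List.cons_append, Es, ih, List.prod_cons, insert_union, mul_assoc]

lemma mem_of_Es {x : Γ} {l : List Γ} {e : Sym2 Γ} {v : Γ} (he : e ∈ Es x l) (hv : v ∈ e) :
    v ∈ Vs x l := by
  induction l generalizing x with
  | nil => simp [Es] at he
  | cons s l ih =>
    simp only [Es, mem_insert] at he
    simp only [Vs, mem_insert]
    rcases he with rfl | he
    · rcases Sym2.mem_iff.1 hv with rfl | rfl
      · exact Or.inl rfl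
      · exact Or.inr (self_mem _ _)
    · exact Or.inr (ih he)

lemma Vs_mul (g : Γ) {x v : Γ} {l : List Γ} (h : v ∈ Vs x l) : g * v ∈ Vs (g * x) l := by
  induction l generalizing x with
  | nil => simp only [Vs, mem_singleton] at h ⊢; rw [h]
  | cons s l ih =>
    simp only [Vs, mem_insert] at h ⊢
    rcases h with rfl | h
    · exact Or.inl rfl
    · rw [mul_assoc]; exact Or.inr (ih h)

lemma Vs_one {x v : Γ} {l : List Γ} (h : v ∈ Vs x l) : x⁻¹ * v ∈ Vs 1 l := by
  simpa using Vs_mul x⁻¹ h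

lemma card_Vs (x : Γ) (l : List Γ) : (Vs x l).card ≤ l.length + 1 := by
  induction l generalizing x with
  | nil => simp [Vs]
  | cons s l ih => exact (card_insert_le _ _).trans (by simpa using ih _)

lemma card_Es (x : Γ) (l : List Γ) : (Es x l).card ≤ l.length := by
  induction l generalizing x with
  | nil => simp [Es]
  | cons s l ih => exact (card_insert_le _ _).trans (by simpa using ih _)

lemma one_le_pr {ω : Sym2 Γ → ℝ} (h1 : ∀ e, 1 ≤ ω e) (F : Finset (Sym2 Γ)) : 1 ≤ ∏ e ∈ F, ω e :=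
  by
    have := Finset.prod_le_prod (s := F) (f := fun _ => (1 : ℝ)) (g := ω)
      (fun _ _ => zero_le_one) (fun e _ => h1 e)
    simpa using this

lemma pr_mono {ω : Sym2 Γ → ℝ} (h1 : ∀ e, 1 ≤ ω e) {F F' : Finset (Sym2 Γ)} (h : F ⊆ F') :
    ∏ e ∈ F, ω e ≤ ∏ e ∈ F', ω e :=
  Finset.prod_le_prod_of_subset_of_one_le h (fun e _ => zero_le_one.trans (h1 e))
    fun e _ _ => h1 e

lemma pr_union {ω : Sym2 Γ → ℝ} (h1 : ∀ e, 1 ≤ ω e) (F F' : Finset (Sym2 Γ)) :
    ∏ e ∈ F ∪ F', ω e ≤ (∏ e ∈ F, ω e) * ∏ e ∈ F', ω e := by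
  rw [← Finset.prod_union_inter]
  exact le_mul_of_one_le_right (zero_le_one.trans (one_le_pr h1 _)) (one_le_pr h1 _)

lemma pr_insert {ω : Sym2 Γ → ℝ} (h1 : ∀ e, 1 ≤ ω e) (e : Sym2 Γ) (F : Finset (Sym2 Γ)) :
    ∏ e ∈ insert e F, ω e ≤ ω e * ∏ e ∈ F, ω e := by
  have := pr_union h1 {e} F
  rwa [Finset.prod_singleton, ← Finset.insert_eq] at this

/-- overlap weight of two walks from `x`. -/
noncomputable def W (ω : Sym2 Γ → ℝ) (θ : ℝ) (x : Γ) (l l' : List Γ) : ℝ :=
  (∏ e ∈ Es x l ∩ Es x l', ω e) * (if l.prod = l'.prod then 1 else θ)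

lemma W_nonneg {ω : Sym2 Γ → ℝ} (h1 : ∀ e, 1 ≤ ω e) {θ : ℝ} (hθ : 0 ≤ θ) (x : Γ) (l l' : List Γ) :
    0 ≤ W ω θ x l l' := by
  have := one_le_pr h1 (Es x l ∩ Es x l')
  unfold W; split_ifs <;> positivity

/-! ### level one -/

def PT (T : Finset Γ) : ℕ → Finset (List Γ)
  | 0 => {[]}
  | n + 1 => (T ×ˢ PT T n).map ⟨fun q => q.1 :: q.2, fun _ _ h => by
      simp only [List.cons.injEq] at h; exact Prod.ext h.1 h.2⟩

lemma exp_succ (T : Finset Γ) (n : ℕ) (f : List Γ → ℝ) :
    𝔼 l ∈ PT T (n + 1), f l = 𝔼 s ∈ T, 𝔼 l ∈ PT T n, f (s :: l) := by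
  rw [← Finset.expect_product' T (PT T n) (fun s l => f (s :: l)), PT,
    Finset.expect_eq_sum_div_card, Finset.expect_eq_sum_div_card, Finset.sum_map, Finset.card_map]
  rfl

lemma exp_zero (T : Finset Γ) (f : List Γ → ℝ) : 𝔼 l ∈ PT T 0, f l = f [] := by
  simp [PT]

lemma PT_ne {T : Finset Γ} (hT : T.Nonempty) (n : ℕ) : (PT T n).Nonempty := by
  induction n with
  | zero => simp [PT]
  | succ n ih => simp only [PT, Finset.map_nonempty]; exact hT.product ih

lemma PT_mem {T : Finset Γ} {n : ℕ} {l : List Γ} (h : l ∈ PT T n) :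
    l.length = n ∧ ∀ s ∈ l, s ∈ T := by
  induction n generalizing l with
  | zero => simp only [PT, mem_singleton] at h; simp [h]
  | succ n ih =>
    obtain ⟨⟨s, l⟩, h12, rfl⟩ := Finset.mem_map.1 h
    obtain ⟨h1, h2⟩ := Finset.mem_product.1 h12
    show (s :: l).length = n + 1 ∧ ∀ a ∈ s :: l, a ∈ T
    obtain ⟨h3, h4⟩ := ih h2
    refine ⟨by simp [h3], fun a ha => ?_⟩
    rcases List.mem_cons.1 ha with rfl | ha
    · exact h1
    · exact h4 a ha

lemma exp_ite {α : Type} (T : Finset α) (p : α → Prop) [DecidablePred p] {a m : ℝ} (ha : 0 ≤ a)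
    (hm : ((T.filter p).card : ℝ) ≤ m) : 𝔼 s ∈ T, (if p s then a else 0) ≤ m / T.card * a := by
  rw [Finset.expect_eq_sum_div_card, ← Finset.sum_filter, Finset.sum_const, nsmul_eq_mul,
    div_mul_eq_mul_div]
  gcongr

noncomputable def M (E : Finset (Sym2 Γ)) (z : Γ) (r θ : ℝ) : Γ → List Γ → ℝ
  | y, [] => if y = z then 1 else θ
  | y, s :: l => (if s(y, y * s) ∈ E then r else 1) * M E z r θ (y * s) l

lemma M_nonneg (E : Finset (Sym2 Γ)) (z : Γ) {r θ : ℝ} (hr : 0 ≤ r) (hθ : 0 ≤ θ) (y : Γ)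
    (l : List Γ) : 0 ≤ M E z r θ y l := by
  induction l generalizing y with
  | nil => unfold M; split_ifs <;> positivity
  | cons s l ih => have := ih (y * s); unfold M; split_ifs <;> positivity

lemma lemA {ω : Sym2 Γ → ℝ} (h1 : ∀ e, 1 ≤ ω e) {T : Finset Γ} {r θ : ℝ} (hθ : 0 ≤ θ)
    (hr : ∀ s ∈ T, ∀ x, ω s(x, x * s) ≤ r) (E : Finset (Sym2 Γ)) (z y : Γ) (l : List Γ)
    (hl : ∀ s ∈ l, s ∈ T) :
    (∏ e ∈ E ∩ Es y l, ω e) * (if y * l.prod = z then 1 else θ) ≤ M E z r θ y l := by
  induction l generalizing y with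
  | nil => simp [Es, M]
  | cons s l ih =>
    have ih' := ih (y * s) (fun a ha => hl a (List.mem_cons_of_mem _ ha))
    have hτ : 0 ≤ (if y * s * l.prod = z then (1 : ℝ) else θ) := by split_ifs <;> positivity
    have hp := one_le_pr h1 (E ∩ Es (y * s) l)
    simp only [Es, M, List.prod_cons, ← mul_assoc]
    by_cases h : s(y, y * s) ∈ E
    · rw [if_pos h, Finset.inter_insert_of_mem h]
      have h2 := pr_insert h1 s(y, y * s) (E ∩ Es (y * s) l)
      have h3 := hr s (hl s (by simp)) y
      have h4 := h1 s(y, y * s)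
      calc _ ≤ (r * ∏ e ∈ E ∩ Es (y * s) l, ω e) * (if y * s * l.prod = z then (1 : ℝ) else θ) := by
            gcongr; exact h2.trans (by gcongr)
        _ ≤ _ := by rw [mul_assoc]; exact mul_le_mul_of_nonneg_left ih' (by linarith)
    · rw [if_neg h, Finset.inter_insert_of_notMem h, one_mul]; exact ih'

lemma lemB {T : Finset Γ} (hT : T.Nonempty) {r θ K : ℝ} (hr : 0 ≤ r) (hrT : r ≤ T.card)
    (hθ : 0 ≤ θ) (hθ1 : θ ≤ 1) (E : Finset (Sym2 Γ)) (hK : 1 + (E.card : ℝ) ≤ K) (z : Γ) (n : ℕ)
    (y : Γ) : 𝔼 l ∈ PT T n, M E z r θ y l ≤ K ^ n := by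
  have ht : (0 : ℝ) < T.card := by exact_mod_cast hT.card_pos
  have hK0 : 0 ≤ K := le_trans (by positivity) hK
  induction n generalizing y with
  | zero => rw [exp_zero]; unfold M; split_ifs <;> simp [hθ1]
  | succ n ih =>
    rw [exp_succ]
    have hc : ((T.filter fun s => s(y, y * s) ∈ E).card : ℝ) ≤ E.card := by
      exact_mod_cast Finset.card_le_card_of_injOn (fun s => s(y, y * s))
        (fun s hs => (Finset.mem_filter.1 hs).2) fun a _ b _ h => by
          rcases Sym2.eq_iff.1 h with h | h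
          · exact mul_left_cancel h.2
          · exact mul_left_cancel (h.2.trans h.1)
    calc _ ≤ 𝔼 s ∈ T, ((if s(y, y * s) ∈ E then r * K ^ n else 0) + K ^ n) := by
          refine Finset.expect_le_expect fun s _ => ?_
          simp only [M]
          rw [← Finset.mul_expect]
          have := ih (y * s)
          split_ifs
          · have : 0 ≤ K ^ n := by positivity
            nlinarith
          · linarith
      _ ≤ E.card / T.card * (r * K ^ n) + K ^ n := by
          rw [Finset.expect_add_distrib, Finset.expect_const hT]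
          have := exp_ite T (fun s => s(y, y * s) ∈ E) (a := r * K ^ n) (by positivity) hc
          linarith
      _ ≤ E.card / T.card * (T.card * K ^ n) + K ^ n := by gcongr
      _ = (1 + E.card) * K ^ n := by field_simp; ring
      _ ≤ _ := by rw [pow_succ']; gcongr

lemma lemC {T : Finset Γ} (hT : T.Nonempty) {r θ K : ℝ} (hr : 0 ≤ r) (hrT : r ≤ T.card)
    (hθ : 0 ≤ θ) (hθ1 : θ ≤ 1) (E : Finset (Sym2 Γ)) (hK : 1 + (E.card : ℝ) ≤ K) (z : Γ)
    (V : Finset Γ) (hV : (V.card : ℝ) ≤ K) (hz : z ∈ V) (hE : ∀ e ∈ E, ∀ v ∈ e, v ∈ V) (n : ℕ)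
    (y : Γ) : 𝔼 s ∈ T, 𝔼 l ∈ PT T n, M E z r θ (y * s) l ≤ θ + (n + 1) * (K / T.card) * K ^ n := by
  have ht : (0 : ℝ) < T.card := by exact_mod_cast hT.card_pos
  have hK1 : 1 ≤ K := le_trans (by simp) hK
  have key : ∀ (n : ℕ) (y : Γ), (∀ y, y ∉ V → 𝔼 l ∈ PT T n, M E z r θ y l ≤
      θ + n * (K / T.card) * K ^ n) →
      𝔼 s ∈ T, 𝔼 l ∈ PT T n, M E z r θ (y * s) l ≤ θ + (n + 1) * (K / T.card) * K ^ n := by
    intro n y h
    have hc : ((T.filter fun s => y * s ∈ V).card : ℝ) ≤ K := by
      refine le_trans ?_ hV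
      exact_mod_cast Finset.card_le_card_of_injOn (fun s => y * s)
        (fun s hs => (Finset.mem_filter.1 hs).2) fun a _ b _ h => mul_left_cancel h
    calc _ ≤ 𝔼 s ∈ T, ((if y * s ∈ V then K ^ n else 0) + (θ + n * (K / T.card) * K ^ n)) := by
          refine Finset.expect_le_expect fun s _ => ?_
          split_ifs with hs
          · have := lemB hT hr hrT hθ hθ1 E hK z n (y * s)
            have : 0 ≤ θ + n * (K / T.card) * K ^ n := by positivity
            linarith
          · rw [zero_add]; exact h _ hs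
      _ ≤ _ := by
          rw [Finset.expect_add_distrib, Finset.expect_const hT]
          have := exp_ite T (fun s => y * s ∈ V) (a := K ^ n) (by positivity) hc
          linarith
  refine key n y ?_
  induction n with
  | zero =>
    intro y hy
    rw [exp_zero]; unfold M
    rw [if_neg (fun h : y = z => hy (h ▸ hz))]; simp
  | succ n ih =>
    intro y hy
    rw [exp_succ]
    have h2 : ∀ s, s(y, y * s) ∉ E := fun s h => hy (hE _ h y (by simp))
    simp only [M, h2, if_false, one_mul]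
    refine (key n y ih).trans ?_
    push_cast
    gcongr
    exact Nat.le_succ n

lemma lemD {T : Finset Γ} (hT : T.Nonempty) (x : Γ) (n : ℕ) (y : Γ) (hy : y ≠ x) :
    𝔼 l ∈ PT T n, (if x ∈ Vs y l then (1 : ℝ) else 0) ≤ n / T.card := by
  have ht : (0 : ℝ) < T.card := by exact_mod_cast hT.card_pos
  induction n generalizing y with
  | zero => rw [exp_zero]; simp [Vs, hy.symm]
  | succ n ih =>
    rw [exp_succ]
    have hc : ((T.filter fun s => y * s = x).card : ℝ) ≤ 1 := by
      have : (T.filter fun s => y * s = x).card ≤ 1 := Finset.card_le_one.2 fun a ha b hb =>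
        mul_left_cancel ((Finset.mem_filter.1 ha).2.trans (Finset.mem_filter.1 hb).2.symm)
      exact_mod_cast this
    calc _ ≤ 𝔼 s ∈ T, ((if y * s = x then (1 : ℝ) else 0) + n / T.card) := by
          refine Finset.expect_le_expect fun s _ => ?_
          simp only [Vs, mem_insert, hy.symm, false_or]
          by_cases hs : y * s = x
          · rw [if_pos hs]
            refine le_trans (Finset.expect_le (PT_ne hT n) (a := 1) fun l _ => ?_) ?_
            · split_ifs <;> simp
            · have : (0 : ℝ) ≤ n / T.card := by positivity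
              linarith
          · rw [if_neg hs, zero_add]; exact ih _ hs
      _ ≤ _ := by
          rw [Finset.expect_add_distrib, Finset.expect_const hT]
          have := exp_ite T (fun s => y * s = x) (a := 1) (by positivity) hc
          push_cast
          rw [add_div]; linarith

lemma step1 {ω : Sym2 Γ → ℝ} (h1 : ∀ e, 1 ≤ ω e) {T : Finset Γ} (hT : T.Nonempty) (hT1 : 1 ∉ T)
    {β θ a : ℝ} (hβ0 : 0 ≤ β) (hβ : β ≤ 1) (hθ : 0 ≤ θ) (hθ1 : θ ≤ 1)
    (hr : ∀ s ∈ T, ∀ x, ω s(x, x * s) ≤ β * T.card) (n0 n : ℕ) (hn : n + 1 ≤ n0)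
    (ha : ∀ x, 𝔼 l ∈ PT T n, 𝔼 l' ∈ PT T n, W ω θ x l l' ≤ a) (x : Γ) :
    𝔼 l ∈ PT T (n + 1), 𝔼 l' ∈ PT T (n + 1), W ω θ x l l' ≤
      β * a + θ + 2 * ((n0 : ℝ) + 1) ^ (n0 + 1) / T.card := by
  have ht : (0 : ℝ) < T.card := by exact_mod_cast hT.card_pos
  set K : ℝ := n0 + 1 with hK
  set r : ℝ := β * T.card with hrd
  have hr0 : 0 ≤ r := by positivity
  have hrT : r ≤ T.card := by rw [hrd]; nlinarith
  have hn' : (n : ℝ) + 1 ≤ n0 := by exact_mod_cast hn
  have hK1 : 1 ≤ K := by rw [hK]; have : (0 : ℝ) ≤ n0 := by positivity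
                         linarith
  have inner : ∀ s ∈ T, ∀ l ∈ PT T n, 𝔼 l' ∈ PT T (n + 1), W ω θ x (s :: l) l' ≤
      β * 𝔼 l' ∈ PT T n, W ω θ (x * s) l l' + (θ + K ^ (n0 + 1) / T.card) +
        K ^ (n + 1) * (if x ∈ Vs (x * s) l then (1 : ℝ) else 0) := by
    intro s hs l hl
    set E := Es x (s :: l) with hE
    set z := x * (s :: l).prod with hz
    have hlen := (PT_mem hl).1
    have hEc : 1 + (E.card : ℝ) ≤ K := by
      have : E.card ≤ n + 1 := by have := card_Es x (s :: l); simpa [hlen] using this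
      have : (E.card : ℝ) ≤ n + 1 := by exact_mod_cast this
      linarith
    have hVc : ((Vs x (s :: l)).card : ℝ) ≤ K := by
      have : (Vs x (s :: l)).card ≤ n + 1 + 1 := by have := card_Vs x (s :: l); simpa [hlen] using this
      have : ((Vs x (s :: l)).card : ℝ) ≤ n + 1 + 1 := by exact_mod_cast this
      linarith
    have hB := lemB hT hr0 hrT hθ hθ1 E hEc z (n + 1) x
    have hC := lemC hT hr0 hrT hθ hθ1 E hEc z (Vs x (s :: l)) hVc (end_mem _ _)
      (fun e he v hv => mem_of_Es he hv) n x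
    have hC' : ((n : ℝ) + 1) * (K / T.card) * K ^ n ≤ K ^ (n0 + 1) / T.card := by
      have : K ^ (n + 2) ≤ K ^ (n0 + 1) := pow_le_pow_right₀ hK1 (by omega)
      calc _ ≤ K * (K / T.card) * K ^ n := by gcongr; linarith
        _ = K ^ (n + 2) / T.card := by ring
        _ ≤ _ := by gcongr
    rw [exp_succ] at hB ⊢
    have pt : ∀ s' ∈ T, ∀ l' ∈ PT T n, W ω θ x (s :: l) (s' :: l') ≤
        (if s' = s then r * W ω θ (x * s) l l' else 0) +
          (if x ∈ Vs (x * s) l then M E z r θ x (s' :: l') else M E z r θ (x * s') l') := by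
      intro s' hs' l' hl'
      by_cases h : s' = s
      · subst h
        rw [if_pos rfl]
        have h2 : 0 ≤ (if x ∈ Vs (x * s') l then M E z r θ x (s' :: l') else M E z r θ (x * s') l') := by
          split_ifs <;> exact M_nonneg _ _ hr0 hθ _ _
        refine le_trans ?_ (le_add_of_nonneg_right h2)
        unfold W
        simp only [Es, List.prod_cons, mul_right_inj, ← Finset.insert_inter_distrib]
        rw [← mul_assoc]
        have hτ : 0 ≤ (if l.prod = l'.prod then (1 : ℝ) else θ) := by split_ifs <;> positivity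
        have := one_le_pr h1 (Es (x * s') l ∩ Es (x * s') l')
        gcongr
        exact (pr_insert h1 _ _).trans (by gcongr; exact hr s' hs' x)
      · rw [if_neg h, zero_add]
        have hA := lemA h1 hθ hr E z x (s' :: l') (by
          intro a ha
          rcases List.mem_cons.1 ha with rfl | ha
          · exact hs'
          · exact (PT_mem hl').2 a ha)
        have e1 : W ω θ x (s :: l) (s' :: l') = (∏ e ∈ E ∩ Es x (s' :: l'), ω e) *
            (if x * (s' :: l').prod = z then 1 else θ) := by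
          unfold W
          simp only [hz, mul_right_inj, eq_comm, hE]
        rw [e1]
        refine hA.trans ?_
        split_ifs with hx
        · exact le_rfl
        · have : s(x, x * s') ∉ E := by
            rw [hE]; simp only [Es, mem_insert, not_or]
            refine ⟨fun h2 => ?_, fun h2 => hx (mem_of_Es h2 (by simp))⟩
            rcases Sym2.eq_iff.1 h2 with h2 | h2
            · exact h (mul_left_cancel h2.2)
            · exact hT1 (by rwa [left_eq_mul.1 h2.1] at hs)
          simp only [M, this, if_false, one_mul, le_refl]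
    have hW0 : 0 ≤ 𝔼 l' ∈ PT T n, W ω θ (x * s) l l' :=
      Finset.expect_nonneg fun l' _ => W_nonneg h1 hθ _ _ _
    calc _ ≤ 𝔼 s' ∈ T, 𝔼 l' ∈ PT T n, ((if s' = s then r * W ω θ (x * s) l l' else 0) +
          (if x ∈ Vs (x * s) l then M E z r θ x (s' :: l') else M E z r θ (x * s') l')) :=
          Finset.expect_le_expect fun s' hs' => Finset.expect_le_expect fun l' hl' => pt s' hs' l' hl'
      _ = 𝔼 s' ∈ T, (if s' = s then r * 𝔼 l' ∈ PT T n, W ω θ (x * s) l l' else 0) +
          𝔼 s' ∈ T, 𝔼 l' ∈ PT T n,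
            (if x ∈ Vs (x * s) l then M E z r θ x (s' :: l') else M E z r θ (x * s') l') := by
          rw [← Finset.expect_add_distrib]
          refine Finset.expect_congr rfl fun s' _ => ?_
          rw [Finset.expect_add_distrib]
          congr 1
          split_ifs
          · rw [Finset.mul_expect]
          · simp
      _ ≤ _ := by
          have hc : ((T.filter fun s' => s' = s).card : ℝ) ≤ 1 := by
            have : (T.filter fun s' => s' = s).card ≤ 1 := Finset.card_le_one.2 fun a ha b hb =>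
              (Finset.mem_filter.1 ha).2.trans (Finset.mem_filter.1 hb).2.symm
            exact_mod_cast this
          have h3 := exp_ite T (fun s' => s' = s)
            (a := r * 𝔼 l' ∈ PT T n, W ω θ (x * s) l l') (by positivity) hc
          have e : 1 / (T.card : ℝ) * (r * 𝔼 l' ∈ PT T n, W ω θ (x * s) l l') =
              β * 𝔼 l' ∈ PT T n, W ω θ (x * s) l l' := by rw [hrd]; field_simp
          rw [e] at h3
          have h4 : 0 ≤ θ + K ^ (n0 + 1) / T.card := by positivity
          by_cases hx : x ∈ Vs (x * s) l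
          · simp only [hx, if_true, mul_one]; linarith
          · simp only [hx, if_false, mul_zero]; linarith
  rw [exp_succ]
  refine Finset.expect_le hT fun s hs => ?_
  refine (Finset.expect_le_expect fun l hl => inner s hs l hl).trans ?_
  rw [Finset.expect_add_distrib, Finset.expect_add_distrib, Finset.expect_const (PT_ne hT n),
    ← Finset.mul_expect, ← Finset.mul_expect]
  have hD := lemD hT x n (x * s) (fun h => hT1 (by rwa [mul_eq_left.1 h] at hs))
  have h5 : K ^ (n + 1) * ((n : ℝ) / T.card) ≤ K ^ (n0 + 1) / T.card := by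
    have : K ^ (n + 2) ≤ K ^ (n0 + 1) := pow_le_pow_right₀ hK1 (by omega)
    calc _ ≤ K ^ (n + 1) * (K / T.card) := by gcongr; linarith
      _ = K ^ (n + 2) / T.card := by ring
      _ ≤ _ := by gcongr
  have h6 := mul_le_mul_of_nonneg_left hD (by positivity : 0 ≤ K ^ (n + 1))
  have h7 := mul_le_mul_of_nonneg_left (ha (x * s)) hβ0
  have : 2 * K ^ (n0 + 1) / T.card = K ^ (n0 + 1) / T.card + K ^ (n0 + 1) / T.card := by ring
  linarith

lemma level1 {ω : Sym2 Γ → ℝ} (h1 : ∀ e, 1 ≤ ω e) {T : Finset Γ} (hT : T.Nonempty) (hT1 : 1 ∉ T)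
    {β θ : ℝ} (hβ0 : 0 ≤ β) (hβ : β < 1) (hθ : 0 ≤ θ) (hθ1 : θ ≤ 1)
    (hr : ∀ s ∈ T, ∀ x, ω s(x, x * s) ≤ β * T.card) (n0 n : ℕ) (hn : n ≤ n0) (x : Γ) :
    𝔼 l ∈ PT T n, 𝔼 l' ∈ PT T n, W ω θ x l l' ≤
      β ^ n + (θ + 2 * ((n0 : ℝ) + 1) ^ (n0 + 1) / T.card) / (1 - β) := by
  have hb : 0 < 1 - β := by linarith
  induction n generalizing x with
  | zero =>
    rw [exp_zero, exp_zero]
    have : 0 ≤ (θ + 2 * ((n0 : ℝ) + 1) ^ (n0 + 1) / T.card) / (1 - β) := by positivity
    simp only [W, Es]; simp; linarith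
  | succ n ih =>
    refine (step1 h1 hT hT1 hβ0 hβ.le hθ hθ1 hr n0 n hn (ih (by omega)) x).trans (le_of_eq ?_)
    field_simp; ring

end Pool.Agent.H41.GPerc
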