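import Pool.Agent.H41.GPerc1

set_option autoImplicit false
set_option linter.unusedSectionVars false

namespace Pool.Agent.H41.GPerc

open Finset
open scoped BigOperators

variable {Γ : Type} [Group Γ] [DecidableEq Γ]

lemma sep [Infinite Γ] (B : Finset Γ) (N : ℕ) : ∃ S : Finset Γ, S.card = N ∧
    (∀ s ∈ S, ∀ a ∈ B, ∀ b ∈ B, ∀ c ∈ B, a * s * b ≠ c) ∧
    (∀ s ∈ S, ∀ s' ∈ S, ∀ a ∈ B, ∀ b ∈ B, ∀ c ∈ B, ∀ d ∈ B, a * s * b = c * s' * d → s = s') := by
  induction N with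
  | zero => exact ⟨∅, rfl, by simp, by simp⟩
  | succ N ih =>
    obtain ⟨S, h1, h2, h3⟩ := ih
    obtain ⟨t, ht⟩ := Infinite.exists_notMem_finset
      (S ∪ (B ×ˢ B ×ˢ B).image (fun q => q.1⁻¹ * q.2.2 * q.2.1⁻¹) ∪
        (S ×ˢ B ×ˢ B ×ˢ B ×ˢ B).image
          (fun q => q.2.1⁻¹ * (q.2.2.2.1 * q.1 * q.2.2.2.2) * q.2.2.1⁻¹))
    simp only [mem_union, not_or] at ht
    obtain ⟨⟨t1, t2⟩, t3⟩ := ht
    have k2 : ∀ s' ∈ S, ∀ a ∈ B, ∀ b ∈ B, ∀ c ∈ B, ∀ d ∈ B, a * t * b ≠ c * s' * d := by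
      intro s' hs' a ha b hb c hc d hd h
      refine t3 (mem_image.2 ⟨(s', a, b, c, d), by simp [*], ?_⟩)
      simp only; rw [← h]; group
    refine ⟨insert t S, by rw [card_insert_of_notMem t1, h1], ?_, ?_⟩
    · intro s hs a ha b hb c hc h
      rcases mem_insert.1 hs with rfl | hs
      · refine t2 (mem_image.2 ⟨(a, b, c), by simp [*], ?_⟩)
        simp only; rw [← h]; group
      · exact h2 s hs a ha b hb c hc h
    · intro s hs s' hs' a ha b hb c hc d hd h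
      rcases mem_insert.1 hs with e | gs <;> rcases mem_insert.1 hs' with e' | gs'
      · rw [e, e']
      · rw [e] at h; exact absurd h (k2 _ gs' a ha b hb c hc d hd)
      · rw [e'] at h; exact absurd h.symm (k2 _ gs c hc d hd a ha b hb)
      · exact h3 s gs s' gs' a ha b hb c hc d hd h

def cat (P : Finset (List Γ)) (S : Finset Γ) : Finset (List Γ) :=
  (S ×ˢ P ×ˢ P).image fun q => q.2.1 ++ q.1 :: q.2.2

lemma exp_cat {P : Finset (List Γ)} {m : ℕ} (hP : ∀ l ∈ P, l.length = m) (S : Finset Γ)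
    (f : List Γ → ℝ) :
    𝔼 l ∈ cat P S, f l = 𝔼 s ∈ S, 𝔼 l ∈ P, 𝔼 l' ∈ P, f (l ++ s :: l') := by
  have hinj : Set.InjOn (fun q : Γ × List Γ × List Γ => q.2.1 ++ q.1 :: q.2.2)
      (S ×ˢ P ×ˢ P : Finset _) := by
    rintro ⟨s, l, l'⟩ h ⟨t, k, k'⟩ h' he
    simp only [coe_product, Set.mem_prod, mem_coe] at h h'
    obtain ⟨e1, e2⟩ := List.append_inj he ((hP _ h.2.1).trans (hP _ h'.2.1).symm)
    simp only [List.cons.injEq] at e1 e2
    rw [e1, e2.1, e2.2]
  have e : 𝔼 s ∈ S, 𝔼 l ∈ P, 𝔼 l' ∈ P, f (l ++ s :: l') =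
      𝔼 q ∈ S ×ˢ P ×ˢ P, f (q.2.1 ++ q.1 :: q.2.2) := by
    rw [Finset.expect_product]
    refine Finset.expect_congr rfl fun s _ => ?_
    rw [Finset.expect_product]
  rw [e, cat, Finset.expect_eq_sum_div_card, Finset.expect_eq_sum_div_card, Finset.sum_image hinj,
    Finset.card_image_of_injOn hinj]

structure Good (P : Finset (List Γ)) (C : (Sym2 Γ → ℝ) → Prop) (a c : ℝ) (k : ℕ) : Prop where
  ne : P.Nonempty
  len : ∃ m, ∀ l ∈ P, l.length = m
  big : ∀ l ∈ P, k ≤ (Vs 1 l).card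
  one : ∀ ω, C ω → ∀ e, 1 ≤ ω e
  crude : ∃ b, ∀ ω, C ω → ∀ x, ∀ l ∈ P, ∏ e ∈ Es x l, ω e ≤ b
  ha : ∀ ω, C ω → ∀ x, 𝔼 l ∈ P, 𝔼 l' ∈ P, W ω 1 x l l' ≤ a
  hc : ∀ ω, C ω → ∀ x, 𝔼 l ∈ P, 𝔼 l' ∈ P, W ω 0 x l l' ≤ c

lemma geo {ω : Sym2 Γ → ℝ} (h1 : ∀ e, 1 ≤ ω e) {B : Finset Γ} {S : Finset Γ}
    (h2 : ∀ s ∈ S, ∀ a ∈ B, ∀ b ∈ B, ∀ c ∈ B, a * s * b ≠ c)
    (h3 : ∀ s ∈ S, ∀ s' ∈ S, ∀ a ∈ B, ∀ b ∈ B, ∀ c ∈ B, ∀ d ∈ B, a * s * b = c * s' * d → s = s')
    {θ r b : ℝ} (hθ : 0 ≤ θ) (hθ1 : θ ≤ 1) (hr : ∀ s ∈ S, ∀ x, ω s(x, x * s) ≤ r)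
    (x : Γ) {s s' : Γ} (hs : s ∈ S) (hs' : s' ∈ S) {l k l' k' : List Γ}
    (hl : Vs 1 l ⊆ B) (hk : Vs 1 k ⊆ B) (hl' : Vs 1 l' ⊆ B) (hk' : Vs 1 k' ⊆ B)
    (b1 : ∏ e ∈ Es x l, ω e ≤ b) (b2 : ∏ e ∈ Es (x * l.prod * s) k, ω e ≤ b) :
    W ω θ x (l ++ s :: k) (l' ++ s' :: k') ≤ θ * W ω 1 x l l' +
      (if s' = s then r * (W ω 0 x l l' * W ω θ (x * l.prod * s) k k') + b * b else 0) := by
  -- regions
  have r0 : ∀ {l : List Γ}, Vs 1 l ⊆ B → ∀ v ∈ Vs x l, x⁻¹ * v ∈ B :=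
    fun hl v hv => hl (Vs_one hv)
  have r1 : ∀ {l k : List Γ} {s : Γ}, Vs 1 l ⊆ B → Vs 1 k ⊆ B → ∀ v ∈ Vs (x * l.prod * s) k,
      ∃ a ∈ B, ∃ b ∈ B, a * s * b = x⁻¹ * v := by
    intro l k s hl hk v hv
    refine ⟨l.prod, hl (by simpa using end_mem 1 l), _, hk (Vs_one hv), by group⟩
  have d0 : ∀ {l m k : List Γ} {s : Γ}, s ∈ S → Vs 1 m ⊆ B → Vs 1 l ⊆ B → Vs 1 k ⊆ B →
      ∀ v ∈ Vs (x * l.prod * s) k, v ∉ Vs x m := by
    intro l m k s hs hm hl hk v hv hv'
    obtain ⟨a, ha, b, hb, e⟩ := r1 hl hk v hv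
    exact h2 s hs a ha b hb _ (r0 hm v hv') e
  have d1 : s' ≠ s → ∀ v ∈ Vs (x * l.prod * s) k, v ∉ Vs (x * l'.prod * s') k' := by
    intro hne v hv hv'
    obtain ⟨a, ha, b, hb, e⟩ := r1 hl hk v hv
    obtain ⟨c, hc, d, hd, e'⟩ := r1 hl' hk' v hv'
    exact hne (h3 s hs s' hs' a ha b hb c hc d hd (e.trans e'.symm)).symm
  have hasv : ∀ {l k : List Γ} {s : Γ} {e : Sym2 Γ},
      e ∈ insert s(x * l.prod, x * l.prod * s) (Es (x * l.prod * s) k) →
      ∃ v ∈ e, v ∈ Vs (x * l.prod * s) k := by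
    intro l k s e he
    rcases mem_insert.1 he with rfl | he
    · exact ⟨x * l.prod * s, by simp, self_mem _ _⟩
    · exact ⟨e.out.1, Sym2.out_fst_mem e, mem_of_Es he (Sym2.out_fst_mem e)⟩
  have hb1 : 1 ≤ b := (one_le_pr h1 _).trans b1
  have w1 := W_nonneg h1 zero_le_one x l l'
  have w0 := W_nonneg h1 le_rfl x l l'
  have w2 := W_nonneg h1 hθ (x * l.prod * s) k k'
  have hr0 : 0 ≤ r := zero_le_one.trans ((h1 _).trans (hr s hs x))
  by_cases h : s' = s
  · subst h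
    rw [if_pos rfl]
    refine le_trans ?_ (le_add_of_nonneg_left (mul_nonneg hθ w1))
    by_cases hz : l.prod = l'.prod
    · refine le_trans ?_ (le_add_of_nonneg_right (by positivity))
      have sub : Es x (l ++ s' :: k) ∩ Es x (l' ++ s' :: k') ⊆
          insert s(x * l.prod, x * l.prod * s') ((Es x l ∩ Es x l') ∪
            (Es (x * l.prod * s') k ∩ Es (x * l.prod * s') k')) := by
        intro e he
        rw [Es_append, Es_append, ← hz] at he
        obtain ⟨e1, e2⟩ := mem_inter.1 he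
        simp only [mem_union, mem_insert, mem_inter] at e1 e2 ⊢
        rcases e1 with e1 | e1 | e1
        · rcases e2 with e2 | e2 | e2
          · tauto
          · tauto
          · exact absurd (mem_of_Es e1 (Sym2.out_fst_mem e))
              (d0 hs hl hl hk' _ (mem_of_Es e2 (Sym2.out_fst_mem e)))
        · tauto
        · rcases e2 with e2 | e2 | e2
          · exact absurd (mem_of_Es e2 (Sym2.out_fst_mem e))
              (d0 hs hl' hl hk _ (mem_of_Es e1 (Sym2.out_fst_mem e)))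
          · tauto
          · tauto
      have p1 := (pr_mono h1 sub).trans (pr_insert h1 _ _)
      have p2 := pr_union h1 (Es x l ∩ Es x l') (Es (x * l.prod * s') k ∩ Es (x * l.prod * s') k')
      have p3 := hr s' hs (x * l.prod)
      have p4 := one_le_pr h1 ((Es x l ∩ Es x l') ∪
            (Es (x * l.prod * s') k ∩ Es (x * l.prod * s') k'))
      have p5 : ∏ e ∈ Es x (l ++ s' :: k) ∩ Es x (l' ++ s' :: k'), ω e ≤
          r * ((∏ e ∈ Es x l ∩ Es x l', ω e) *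
            ∏ e ∈ Es (x * l.prod * s') k ∩ Es (x * l.prod * s') k', ω e) :=
        p1.trans (by gcongr)
      unfold W
      simp only [List.prod_append, List.prod_cons, ← hz, mul_right_inj, if_true, mul_one]
      have hτ : 0 ≤ (if k.prod = k'.prod then (1 : ℝ) else θ) := by split_ifs <;> positivity
      calc _ ≤ r * ((∏ e ∈ Es x l ∩ Es x l', ω e) *
            ∏ e ∈ Es (x * l.prod * s') k ∩ Es (x * l.prod * s') k', ω e) *
            (if k.prod = k'.prod then (1 : ℝ) else θ) := by gcongr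
        _ = _ := by ring
    · refine le_trans ?_ (le_add_of_nonneg_left (by positivity))
      have sub : Es x (l ++ s' :: k) ∩ Es x (l' ++ s' :: k') ⊆ Es x l ∪ Es (x * l.prod * s') k := by
        intro e he
        rw [Es_append, Es_append] at he
        obtain ⟨e1, e2⟩ := mem_inter.1 he
        simp only [mem_union, mem_insert] at e1 e2 ⊢
        rcases e1 with e1 | e1 | e1
        · tauto
        · exfalso
          subst e1
          rcases e2 with e2 | e2 | e2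
          · exact d0 hs hl' hl hk _ (self_mem _ _) (mem_of_Es e2 (by simp))
          · rcases Sym2.eq_iff.1 e2 with e2 | e2
            · exact hz (mul_left_cancel e2.1)
            · exact d0 hs hl hl' hk' _ (self_mem _ _) (e2.1 ▸ end_mem x l)
          · exact d0 hs hl hl' hk' _ (mem_of_Es e2 (Sym2.mem_mk_left _ _)) (end_mem x l)
        · tauto
      have p1 := (pr_mono h1 sub).trans (pr_union h1 _ _)
      have p2 := one_le_pr h1 (Es (x * l.prod * s') k)
      have p3 : ∏ e ∈ Es x (l ++ s' :: k) ∩ Es x (l' ++ s' :: k'), ω e ≤ b * b :=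
        p1.trans (by gcongr)
      unfold W
      split_ifs
      · linarith
      · nlinarith [one_le_pr h1 (Es x (l ++ s' :: k) ∩ Es x (l' ++ s' :: k'))]
  · rw [if_neg h, add_zero]
    have sub : Es x (l ++ s :: k) ∩ Es x (l' ++ s' :: k') ⊆ Es x l ∩ Es x l' := by
      intro e he
      obtain ⟨e1, e2⟩ := mem_inter.1 he
      refine mem_inter.2 ⟨?_, ?_⟩
      · rw [Es_append] at e1
        rcases mem_union.1 e1 with e1 | e1
        · exact e1
        · obtain ⟨v, hv, hv'⟩ := hasv e1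
          have := mem_of_Es e2 hv
          rw [Vs_append] at this
          rcases mem_union.1 this with h4 | h4
          · exact absurd h4 (d0 hs hl' hl hk v hv')
          · exact absurd h4 (d1 h v hv')
      · rw [Es_append] at e2
        rcases mem_union.1 e2 with e2 | e2
        · exact e2
        · obtain ⟨v, hv, hv'⟩ := hasv e2
          have := mem_of_Es e1 hv
          rw [Vs_append] at this
          rcases mem_union.1 this with h4 | h4
          · exact absurd h4 (d0 hs' hl hl' hk' v hv')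
          · exact absurd hv' (d1 h v h4)
    have hne : (l ++ s :: k).prod ≠ (l' ++ s' :: k').prod := by
      intro he
      refine d1 h _ (end_mem _ k) ?_
      have := end_mem (x * l'.prod * s') k'
      simp only [List.prod_append, List.prod_cons] at he
      convert this using 1
      simp only [mul_assoc, he]
    unfold W
    rw [if_neg hne, ite_self, mul_one, mul_comm]
    exact mul_le_mul_of_nonneg_left (pr_mono h1 sub) hθ

lemma step2 [Infinite Γ] {P : Finset (List Γ)} {C : (Sym2 Γ → ℝ) → Prop} {a c : ℝ} {k : ℕ}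
    (g : Good P C a c k) {ρ δ : ℝ} (hρ : 1 ≤ ρ) (hδ : 0 < δ) :
    ∃ S : Finset Γ, S.Nonempty ∧ ∃ P', Good P'
      (fun ω => C ω ∧ ∀ s ∈ S, ∀ x, ω s(x, x * s) ≤ ρ * S.card)
      (a + ρ * c * a + δ) (ρ * c * c + δ) (k + 1) := by
  obtain ⟨m, hm⟩ := g.len
  obtain ⟨b, hb⟩ := g.crude
  obtain ⟨N, hN⟩ := exists_nat_gt (b * b / δ)
  have hN0 : (0 : ℝ) < N := lt_of_le_of_lt (by have := mul_self_nonneg b; positivity) hN
  set B := P.biUnion (Vs 1) with hB
  have hsub : ∀ l ∈ P, Vs 1 l ⊆ B := fun l hl => subset_biUnion_of_mem _ hl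
  obtain ⟨S, h1, h2, h3⟩ := sep B N
  have hS : S.Nonempty := card_pos.1 (by rw [h1]; exact_mod_cast hN0)
  have hmem : ∀ l ∈ cat P S, ∃ s ∈ S, ∃ u ∈ P, ∃ v ∈ P, l = u ++ s :: v := by
    intro l hl
    obtain ⟨⟨s, u, v⟩, h, rfl⟩ := mem_image.1 hl
    simp only [mem_product] at h
    exact ⟨s, h.1, u, h.2.1, v, h.2.2, rfl⟩
  have main : ∀ ω, (C ω ∧ ∀ s ∈ S, ∀ x, ω s(x, x * s) ≤ ρ * S.card) → ∀ θ d, 0 ≤ θ → θ ≤ 1 →
      (∀ x, 𝔼 l ∈ P, 𝔼 l' ∈ P, W ω θ x l l' ≤ d) → ∀ x,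
      𝔼 l ∈ cat P S, 𝔼 l' ∈ cat P S, W ω θ x l l' ≤ θ * a + ρ * c * d + δ := by
    rintro ω ⟨hC, hr⟩ θ d hθ hθ1 hd x
    have o1 := g.one ω hC
    have hd0 : 0 ≤ d := le_trans (Finset.expect_nonneg fun _ _ => Finset.expect_nonneg fun _ _ =>
      W_nonneg o1 hθ _ _ _) (hd x)
    rw [exp_cat hm]
    refine Finset.expect_le hS fun s hs => ?_
    have inner : ∀ l ∈ P, 𝔼 k ∈ P, 𝔼 l' ∈ cat P S, W ω θ x (l ++ s :: k) l' ≤
        θ * 𝔼 l' ∈ P, W ω 1 x l l' + ρ * d * 𝔼 l' ∈ P, W ω 0 x l l' + δ := by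
      intro l hl
      have hw0 : 0 ≤ 𝔼 l' ∈ P, W ω 0 x l l' := Finset.expect_nonneg fun _ _ => W_nonneg o1 le_rfl _ _ _
      have i2 : ∀ k ∈ P, 𝔼 l' ∈ cat P S, W ω θ x (l ++ s :: k) l' ≤
          θ * 𝔼 l' ∈ P, W ω 1 x l l' + ρ * (𝔼 l' ∈ P, W ω 0 x l l') *
            (𝔼 k' ∈ P, W ω θ (x * l.prod * s) k k') + δ := by
        intro k hk
        have hw2 : 0 ≤ 𝔼 k' ∈ P, W ω θ (x * l.prod * s) k k' :=
          Finset.expect_nonneg fun _ _ => W_nonneg o1 hθ _ _ _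
        rw [exp_cat hm]
        calc _ ≤ 𝔼 s' ∈ S, 𝔼 l' ∈ P, 𝔼 k' ∈ P, (θ * W ω 1 x l l' +
              (if s' = s then ρ * S.card * (W ω 0 x l l' * W ω θ (x * l.prod * s) k k') + b * b
                else 0)) :=
              Finset.expect_le_expect fun s' hs' => Finset.expect_le_expect fun l' hl' =>
                Finset.expect_le_expect fun k' hk' => geo o1 h2 h3 hθ hθ1 hr x hs hs'
                  (hsub _ hl) (hsub _ hk) (hsub _ hl') (hsub _ hk') (hb ω hC _ _ hl) (hb ω hC _ _ hk)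
          _ = 𝔼 s' ∈ S, (θ * 𝔼 l' ∈ P, W ω 1 x l l' + (if s' = s then
              ρ * S.card * ((𝔼 l' ∈ P, W ω 0 x l l') * 𝔼 k' ∈ P, W ω θ (x * l.prod * s) k k') + b * b
              else 0)) := by
              refine Finset.expect_congr rfl fun s' _ => ?_
              split_ifs
              · simp only [Finset.expect_add_distrib, Finset.expect_const g.ne, ← Finset.mul_expect,
                  ← Finset.expect_mul]
              · simp only [add_zero, Finset.expect_const g.ne, ← Finset.mul_expect]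
          _ ≤ _ := by
              rw [Finset.expect_add_distrib, Finset.expect_const hS]
              have hc : ((S.filter fun s' => s' = s).card : ℝ) ≤ 1 := by
                have : (S.filter fun s' => s' = s).card ≤ 1 := Finset.card_le_one.2 fun a ha b hb =>
                  (Finset.mem_filter.1 ha).2.trans (Finset.mem_filter.1 hb).2.symm
                exact_mod_cast this
              have h4 := exp_ite S (fun s' => s' = s) (a := ρ * S.card * ((𝔼 l' ∈ P, W ω 0 x l l') *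
                𝔼 k' ∈ P, W ω θ (x * l.prod * s) k k') + b * b)
                (by have := mul_self_nonneg b; have : 0 ≤ ρ := by linarith
                    positivity) hc
              rw [h1] at h4 ⊢
              have e : 1 / (N : ℝ) * (ρ * N * ((𝔼 l' ∈ P, W ω 0 x l l') *
                  𝔼 k' ∈ P, W ω θ (x * l.prod * s) k k') + b * b) =
                  ρ * (𝔼 l' ∈ P, W ω 0 x l l') * (𝔼 k' ∈ P, W ω θ (x * l.prod * s) k k') +
                  b * b / N := by field_simp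
              have h5 : b * b / N ≤ δ := by
                rw [div_le_iff₀ hN0]; rw [div_lt_iff₀ hδ] at hN; linarith
              linarith
      refine (Finset.expect_le_expect i2).trans ?_
      rw [Finset.expect_add_distrib, Finset.expect_add_distrib, Finset.expect_const g.ne,
        Finset.expect_const g.ne, ← Finset.mul_expect]
      have := mul_le_mul_of_nonneg_left (hd (x * l.prod * s))
        (mul_nonneg (by linarith : 0 ≤ ρ) hw0)
      linarith
    refine (Finset.expect_le_expect inner).trans ?_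
    rw [Finset.expect_add_distrib, Finset.expect_add_distrib, Finset.expect_const g.ne,
      ← Finset.mul_expect, ← Finset.mul_expect]
    have q1 := mul_le_mul_of_nonneg_left (g.ha ω hC x) hθ
    have q2 := mul_le_mul_of_nonneg_left (g.hc ω hC x) (mul_nonneg (by linarith : 0 ≤ ρ) hd0)
    linarith
  refine ⟨S, hS, cat P S, ⟨(hS.product (g.ne.product g.ne)).image _, ⟨m + (m + 1), ?_⟩, ?_,
    fun ω h => g.one ω h.1, ⟨b * (ρ * S.card * b), ?_⟩, ?_, ?_⟩⟩
  · intro l hl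
    obtain ⟨s, -, u, hu, v, hv, rfl⟩ := hmem l hl
    simp [hm u hu, hm v hv]
  · intro l hl
    obtain ⟨s, hs, u, hu, v, hv, rfl⟩ := hmem l hl
    have : insert (1 * u.prod * s) (Vs 1 u) ⊆ Vs 1 (u ++ s :: v) := by
      rw [Vs_append]
      exact insert_subset (mem_union_right _ (self_mem _ _)) subset_union_left
    refine le_trans ?_ (card_le_card this)
    rw [card_insert_of_notMem]
    · have := g.big u hu; omega
    · intro h
      exact h2 s hs _ (hsub u hu (end_mem 1 u)) 1 (hsub u hu (self_mem _ _)) _ (hsub u hu h)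
        (mul_one _)
  · rintro ω ⟨hC, hr⟩ x l hl
    obtain ⟨s, hs, u, hu, v, hv, rfl⟩ := hmem l hl
    have o1 := g.one ω hC
    rw [Es_append]
    refine (pr_union o1 _ _).trans ?_
    have q1 := hb ω hC x u hu
    have q2 := hb ω hC (x * u.prod * s) v hv
    have q3 := one_le_pr o1 (Es (x * u.prod * s) v)
    have q4 := hr s hs (x * u.prod)
    have q5 := o1 s(x * u.prod, x * u.prod * s)
    have q6 := one_le_pr o1 (insert s(x * u.prod, x * u.prod * s) (Es (x * u.prod * s) v))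
    gcongr
    · linarith
    · exact (pr_insert o1 _ _).trans (by gcongr)
  · intro ω h x
    have := main ω h 1 a zero_le_one le_rfl (g.ha ω h.1) x
    linarith
  · intro ω h x
    have := main ω h 0 c le_rfl zero_le_one (g.hc ω h.1) x
    linarith

lemma crude1 {ω : Sym2 Γ → ℝ} (h1 : ∀ e, 1 ≤ ω e) {T : Finset Γ} {r : ℝ}
    (hr : ∀ s ∈ T, ∀ x, ω s(x, x * s) ≤ r) (x : Γ) (l : List Γ) (hl : ∀ s ∈ l, s ∈ T) :
    ∏ e ∈ Es x l, ω e ≤ r ^ l.length := by
  induction l generalizing x with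
  | nil => simp [Es]
  | cons s l ih =>
    have q1 := ih (x * s) (fun a ha => hl a (List.mem_cons_of_mem _ ha))
    have q2 := hr s (hl s (by simp)) x
    have q3 := one_le_pr h1 (Es (x * s) l)
    have q4 := h1 s(x, x * s)
    rw [Es, List.length_cons, pow_succ']
    exact (pr_insert h1 _ _).trans (by gcongr; linarith)

lemma symT [Infinite Γ] (N : ℕ) : ∃ T : Finset Γ, N ≤ T.card ∧ 1 ∉ T ∧ ∀ s ∈ T, s⁻¹ ∈ T := by
  obtain ⟨S, hS⟩ := Infinite.exists_subset_card_eq Γ (N + 1)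
  refine ⟨S.erase 1 ∪ (S.erase 1).image (·⁻¹), ?_, by simp, ?_⟩
  · refine le_trans ?_ (card_le_card subset_union_left)
    have := pred_card_le_card_erase (s := S) (a := 1)
    omega
  · intro s hs
    rcases mem_union.1 hs with h | h
    · exact mem_union_right _ (mem_image_of_mem _ h)
    · obtain ⟨u, hu, rfl⟩ := mem_image.1 h
      exact mem_union_left _ (by simpa using hu)

theorem comb [Infinite Γ] {β A : ℝ} (hβ0 : 0 ≤ β) (hβ : β < 1) (hA : 1 ≤ A) (t0 : ℕ) :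
    ∃ (T : Finset Γ) (S : ℕ → Finset Γ) (D : ℝ), t0 ≤ T.card ∧ T.Nonempty ∧ (∀ s ∈ T, s⁻¹ ∈ T) ∧
      (∀ k, (S k).Nonempty) ∧ ∀ ω : Sym2 Γ → ℝ, (∀ e, 1 ≤ ω e) →
      (∀ s ∈ T, ∀ x, ω s(x, x * s) ≤ β * T.card) →
      (∀ k, ∀ s ∈ S k, ∀ x, ω s(x, x * s) ≤ A * 2 ^ k * (S k).card) →
      ∀ k, ∃ P : Finset (List Γ), P.Nonempty ∧ (∀ l ∈ P, k ≤ (Vs 1 l).card) ∧
        𝔼 l ∈ P, 𝔼 l' ∈ P, ∏ e ∈ Es 1 l ∩ Es 1 l', ω e ≤ D := by
  have hb : 0 < 1 - β := by linarith
  set κ : ℝ := 1 / (8 * A) with hκ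
  have hκ0 : 0 < κ := by positivity
  have hκ1 : A * κ = 1 / 8 := by rw [hκ]; field_simp
  have hκ2 : κ ≤ 1 := by nlinarith
  obtain ⟨n, hn⟩ := exists_pow_lt_of_lt_one (half_pos hκ0) hβ
  obtain ⟨N, hN⟩ := exists_nat_gt (2 * ((n : ℝ) + 1) ^ (n + 1) / ((1 - β) * (κ / 2)))
  obtain ⟨T, hT1, hT2, hT3⟩ := symT (Γ := Γ) (N + t0 + 1)
  have hT : T.Nonempty := card_pos.1 (by omega)
  have ht : (0 : ℝ) < T.card := by exact_mod_cast hT.card_pos
  have hη : 2 * ((n : ℝ) + 1) ^ (n + 1) / T.card / (1 - β) ≤ κ / 2 := by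
    have : (N : ℝ) ≤ T.card := by exact_mod_cast (by omega : N ≤ T.card)
    rw [div_lt_iff₀ (by positivity)] at hN
    rw [div_div, div_le_iff₀ (by positivity)]
    have : (N : ℝ) * ((1 - β) * (κ / 2)) ≤ T.card * ((1 - β) * (κ / 2)) := by gcongr
    linarith
  set D : ℝ := 4 + 1 / (1 - β) with hD
  have hD4 : 4 ≤ D := by rw [hD]; have : 0 ≤ 1 / (1 - β) := by positivity
                         linarith
  let aa : ℕ → ℝ := fun k => D * (2 - (1 / 2) ^ k)
  let cc : ℕ → ℝ := fun k => κ * (1 / 4) ^ k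
  let C0 : (Sym2 Γ → ℝ) → Prop := fun ω => (∀ e, 1 ≤ ω e) ∧ ∀ s ∈ T, ∀ x, ω s(x, x * s) ≤ β * T.card
  have g0 : Good (PT T n) C0 (aa 0) (cc 0) 0 := by
    refine ⟨PT_ne hT n, ⟨n, fun l hl => (PT_mem hl).1⟩, fun _ _ => Nat.zero_le _, fun ω h => h.1,
      ⟨(β * T.card) ^ n, fun ω h x l hl => ?_⟩, fun ω h x => ?_, fun ω h x => ?_⟩
    · rw [← (PT_mem hl).1]; exact crude1 h.1 h.2 x l (PT_mem hl).2
    · refine (level1 h.1 hT hT2 hβ0 hβ zero_le_one le_rfl h.2 n n le_rfl x).trans ?_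
      simp only [aa, pow_zero, add_div]
      linarith
    · refine (level1 h.1 hT hT2 hβ0 hβ le_rfl zero_le_one h.2 n n le_rfl x).trans ?_
      simp only [cc, pow_zero, zero_add]
      linarith
  have st : ∀ (k : ℕ) (q : {q : Finset (List Γ) × ((Sym2 Γ → ℝ) → Prop) //
      Good q.1 q.2 (aa k) (cc k) k}), ∃ S : Finset Γ, S.Nonempty ∧ ∃ P', Good P'
      (fun ω => q.1.2 ω ∧ ∀ s ∈ S, ∀ x, ω s(x, x * s) ≤ A * 2 ^ k * S.card)
      (aa (k + 1)) (cc (k + 1)) (k + 1) := by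
    intro k q
    have h2k : (1 : ℝ) ≤ 2 ^ k := one_le_pow₀ (by norm_num)
    obtain ⟨S, hS, P', g⟩ := step2 q.2 (ρ := A * 2 ^ k) (δ := κ * (1 / 4) ^ k / 8)
      (by nlinarith) (by positivity)
    set u : ℝ := (1 / 2) ^ k with hu
    have hu0 : 0 < u := by positivity
    have hu1 : u ≤ 1 := pow_le_one₀ (by norm_num) (by norm_num)
    have e4 : ((1 : ℝ) / 4) ^ k = u * u := by rw [hu, ← mul_pow]; norm_num
    have e2 : (2 : ℝ) ^ k * u = 1 := by rw [hu, ← mul_pow]; norm_num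
    have e3 : A * 2 ^ k * cc k = u / 8 := by
      simp only [cc, e4]
      calc _ = (A * κ) * (2 ^ k * u) * u := by ring
        _ = _ := by rw [hκ1, e2]; ring
    refine ⟨S, hS, P', ⟨g.ne, g.len, g.big, g.one, g.crude, fun ω h x => (g.ha ω h x).trans ?_,
      fun ω h x => (g.hc ω h x).trans ?_⟩⟩
    · rw [e3]
      simp only [aa, pow_succ, ← hu, e4]
      have : κ * (u * u) ≤ u := by nlinarith [mul_le_one₀ hκ2 hu0.le hu1]
      nlinarith [mul_pos hu0 hu0]
    · rw [e3]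
      simp only [cc, pow_succ, e4]
      have : 0 < κ * (u * u) := by positivity
      nlinarith
  choose Sf hSf Pf hPf using st
  let sq : (k : ℕ) → {q : Finset (List Γ) × ((Sym2 Γ → ℝ) → Prop) //
      Good q.1 q.2 (aa k) (cc k) k} :=
    fun k => Nat.rec ⟨(PT T n, C0), g0⟩ (fun k q => ⟨(Pf k q, _), hPf k q⟩) k
  refine ⟨T, fun k => Sf k (sq k), 2 * D, by omega, hT, hT3, fun k => hSf _ _,
    fun ω h1 h2 h3 k => ?_⟩
  have hC : ∀ k, (sq k).1.2 ω := by
    intro k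
    induction k with
    | zero => exact ⟨h1, h2⟩
    | succ k ih => exact ⟨ih, h3 k⟩
  refine ⟨(sq k).1.1, (sq k).2.ne, (sq k).2.big, ?_⟩
  have := (sq k).2.ha ω (hC k) 1
  simp only [W, ite_self, mul_one, aa] at this
  have h5 : 0 ≤ D * (1 / 2) ^ k := by positivity
  linarith

end Pool.Agent.H41.GPerc
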