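import Mathlib

set_option autoImplicit false

namespace Pool.Agent.H41.GPerc

open MeasureTheory ProbabilityTheory
open scoped NNReal ENNReal

/-- A generating measure: a symmetric probability mass function whose support generates. -/
structure GenMeasure (Γ : Type) [Group Γ] where
  w : Γ → ℝ≥0
  total : HasSum w 1
  symm : ∀ g, w g⁻¹ = w g
  gen : Subgroup.closure {g | w g ≠ 0} = ⊤

variable {Γ : Type} [Group Γ]

/-- The mean `λ μ(g⁻¹ h)` attached to the unordered pair `{g, h}`. -/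
def rate (μ : GenMeasure Γ) (lam : ℝ≥0) : Sym2 Γ → ℝ≥0 :=
  Sym2.lift ⟨fun g h => lam * μ.w (g⁻¹ * h), fun g h => by
    show lam * μ.w (g⁻¹ * h) = lam * μ.w (h⁻¹ * g)
    rw [← μ.symm (g⁻¹ * h), mul_inv_rev, inv_inv]⟩

/-- Independent Poisson numbers of parallel edges, one for each unordered pair
(the variables on the diagonal are ignored by `openGraph`). -/
noncomputable def law (μ : GenMeasure Γ) (lam : ℝ≥0) : Measure (Sym2 Γ → ℕ) :=
  Measure.infinitePi fun e => poissonMeasure (rate μ lam e)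

/-- Distinct `g, h` are adjacent when at least one edge joins them. -/
def openGraph (η : Sym2 Γ → ℕ) : SimpleGraph Γ where
  Adj g h := g ≠ h ∧ η s(g, h) ≠ 0
  symm := ⟨fun g h hh => ⟨hh.1.symm, by rw [Sym2.eq_swap]; exact hh.2⟩⟩
  loopless := ⟨fun _ h => h.1 rfl⟩

/-- The event that some connected component is infinite. -/
def HasInf (Γ : Type) [Group Γ] : Set (Sym2 Γ → ℕ) :=
  {η | ∃ g : Γ, {h | (openGraph η).Reachable g h}.Infinite}

/-- `λ_c(μ)`. -/
noncomputable def lamC (μ : GenMeasure Γ) : ℝ≥0∞ :=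
  ⨆ (lam : ℝ≥0) (_ : 0 < lam ∧ law μ lam (HasInf Γ) = 0), (lam : ℝ≥0∞)

/-- `λ_c(Γ)`. -/
noncomputable def lamGroup (Γ : Type) [Group Γ] : ℝ≥0∞ := ⨅ μ : GenMeasure Γ, lamC μ

end Pool.Agent.H41.GPerc
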