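import Pool.Agent.H41.GPerc2
import Pool.Agent.H41.GPercDefs

set_option autoImplicit false
set_option linter.unusedSectionVars false

namespace Pool.Agent.H41.GPerc

open Finset MeasureTheory ProbabilityTheory Filter
open scoped BigOperators NNReal ENNReal Topology

variable {Γ : Type} [Group Γ] [DecidableEq Γ]

instance (μ : GenMeasure Γ) (lam : ℝ≥0) : IsProbabilityMeasure (law μ lam) := by
  unfold law; infer_instance

def op (F : Finset (Sym2 Γ)) : Set (Sym2 Γ → ℕ) := Set.pi F fun _ => ({0} : Set ℕ)ᶜ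

lemma mem_op {F : Finset (Sym2 Γ)} {η : Sym2 Γ → ℕ} : η ∈ op F ↔ ∀ e ∈ F, η e ≠ 0 := by
  simp [op]

lemma op_meas (F : Finset (Sym2 Γ)) : MeasurableSet (op F) :=
  MeasurableSet.pi F.countable_toSet fun _ _ => MeasurableSet.of_discrete

noncomputable def pp (μ : GenMeasure Γ) (lam : ℝ≥0) (e : Sym2 Γ) : ℝ :=
  1 - Real.exp (-(rate μ lam e : ℝ))

lemma op_prob (μ : GenMeasure Γ) (lam : ℝ≥0) (F : Finset (Sym2 Γ)) :
    (law μ lam).real (op F) = ∏ e ∈ F, pp μ lam e := by
  rw [measureReal_def, law, op, Measure.infinitePi_pi _ (fun _ _ => MeasurableSet.of_discrete),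
    ENNReal.toReal_prod]
  refine Finset.prod_congr rfl fun e _ => ?_
  rw [← measureReal_def, measureReal_compl MeasurableSet.of_discrete,
    poissonMeasure_real_singleton]
  simp [pp]

lemma reach {η : Sym2 Γ → ℕ} {x : Γ} {l : List Γ} (h : η ∈ op (Es x l)) {v : Γ} (hv : v ∈ Vs x l) :
    (openGraph η).Reachable x v := by
  induction l generalizing x with
  | nil => rw [Vs, mem_singleton] at hv; rw [hv]
  | cons s l ih =>
    rw [mem_op] at h
    rcases mem_insert.1 hv with rfl | hv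
    · rfl
    · refine SimpleGraph.Reachable.trans ?_ (ih (mem_op.2 fun e he => h e (mem_insert_of_mem he)) hv)
      by_cases e : x = x * s
      · rw [← e]
      · exact SimpleGraph.Adj.reachable ⟨e, h _ (mem_insert_self _ _)⟩

lemma int_exp {α Ω : Type} [MeasurableSpace Ω] (m : Measure Ω) (P : Finset α) (f : α → Ω → ℝ)
    (hf : ∀ l, Integrable (f l) m) :
    Integrable (fun η => 𝔼 l ∈ P, f l η) m ∧ ∫ η, (𝔼 l ∈ P, f l η) ∂m = 𝔼 l ∈ P, ∫ η, f l η ∂m := by
  simp only [Finset.expect_eq_sum_div_card]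
  refine ⟨(integrable_finsetSum _ fun l _ => hf l).div_const _, ?_⟩
  rw [integral_div, integral_finsetSum _ fun l _ => hf l]

lemma second (μ : GenMeasure Γ) (lam : ℝ≥0) (hp : ∀ e, 0 < pp μ lam e) {P : Finset (List Γ)}
    (hP : P.Nonempty) (F : List Γ → Finset (Sym2 Γ)) {D : ℝ} (hD0 : 0 < D)
    (hD : 𝔼 l ∈ P, 𝔼 l' ∈ P, ∏ e ∈ F l ∩ F l', (pp μ lam e)⁻¹ ≤ D) :
    1 / D ≤ (law μ lam).real (⋃ l ∈ P, op (F l)) := by
  set m := law μ lam
  set A := ⋃ l ∈ P, op (F l) with hA
  have hAm : MeasurableSet A := Finset.measurableSet_biUnion _ fun l _ => op_meas _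
  let π : Finset (Sym2 Γ) → ℝ := fun G => ∏ e ∈ G, pp μ lam e
  have hπ : ∀ G, 0 < π G := fun G => Finset.prod_pos fun e _ => hp e
  let I : Finset (Sym2 Γ) → (Sym2 Γ → ℕ) → ℝ := fun G => (op G).indicator 1
  have hI : ∀ G, Integrable (I G) m := fun G => (integrable_const 1).indicator (op_meas G)
  have hI' : ∀ G, ∫ η, I G η ∂m = π G := fun G => by
    simp only [I]; rw [integral_indicator_one (op_meas G), op_prob]
  have hII : ∀ G G' η, I G η * I G' η = I (G ∪ G') η := by
    intro G G' η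
    have : op (G ∪ G') = op G ∩ op G' := by
      ext η; simp only [mem_op, Set.mem_inter_iff, mem_union, or_imp, forall_and]
    simp only [I, this, Set.inter_indicator_one, Pi.mul_apply]
  obtain ⟨z1, z2⟩ := int_exp m P (fun l η => I (F l) η / π (F l)) fun l => (hI _).div_const _
  have y0 := fun l => int_exp m P (fun l' η => I (F l ∪ F l') η / (π (F l) * π (F l')))
    fun l' => (hI _).div_const _
  obtain ⟨y1, y2⟩ := int_exp m P
    (fun l η => 𝔼 l' ∈ P, I (F l ∪ F l') η / (π (F l) * π (F l'))) fun l => (y0 l).1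
  have z3 : 𝔼 l ∈ P, ∫ η, I (F l) η / π (F l) ∂m = 1 := by
    rw [← Finset.expect_const hP (1 : ℝ)]
    refine Finset.expect_congr rfl fun l _ => ?_
    rw [integral_div, hI', div_self (hπ _).ne']
  have y3 : 𝔼 l ∈ P, ∫ η, (𝔼 l' ∈ P, I (F l ∪ F l') η / (π (F l) * π (F l'))) ∂m ≤ D := by
    refine le_trans (le_of_eq (Finset.expect_congr rfl fun l _ => ?_)) hD
    rw [(y0 l).2]
    refine Finset.expect_congr rfl fun l' _ => ?_
    rw [integral_div, hI', Finset.prod_inv_distrib]
    have e : π (F l ∪ F l') * π (F l ∩ F l') = π (F l) * π (F l') := Finset.prod_union_inter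
    have := hπ (F l ∪ F l'); have := hπ (F l ∩ F l')
    rw [← e]; change _ = (π (F l ∩ F l'))⁻¹; field_simp
  have pt : ∀ η, 2 * D * (𝔼 l ∈ P, I (F l) η / π (F l)) ≤
      (𝔼 l ∈ P, 𝔼 l' ∈ P, I (F l ∪ F l') η / (π (F l) * π (F l'))) + D ^ 2 * A.indicator 1 η := by
    intro η
    have e : 𝔼 l ∈ P, 𝔼 l' ∈ P, I (F l ∪ F l') η / (π (F l) * π (F l')) =
        (𝔼 l ∈ P, I (F l) η / π (F l)) * (𝔼 l ∈ P, I (F l) η / π (F l)) := by
      rw [Finset.expect_mul_expect]
      refine Finset.expect_congr rfl fun l _ => Finset.expect_congr rfl fun l' _ => ?_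
      rw [← hII]; ring
    rw [e]
    by_cases h : η ∈ A
    · rw [Set.indicator_of_mem h, Pi.one_apply]
      nlinarith [sq_nonneg (𝔼 l ∈ P, I (F l) η / π (F l) - D)]
    · have : 𝔼 l ∈ P, I (F l) η / π (F l) = 0 := by
        refine Finset.expect_eq_zero fun l hl => ?_
        have : η ∉ op (F l) := fun h' => h (Set.mem_biUnion hl h')
        simp [I, this]
      rw [this, Set.indicator_of_notMem h]; simp
  have iA : Integrable (A.indicator (1 : (Sym2 Γ → ℕ) → ℝ)) m := (integrable_const 1).indicator hAm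
  have := integral_mono (z1.const_mul (2 * D)) (y1.add (iA.const_mul (D ^ 2))) pt
  rw [integral_const_mul, z2, z3, integral_add' y1 (iA.const_mul _), y2, integral_const_mul,
    integral_indicator_one hAm] at this
  rw [div_le_iff₀ hD0]
  nlinarith

lemma pos_of (μ : GenMeasure Γ) (lam : ℝ≥0) (hp : ∀ e, 0 < pp μ lam e) {D : ℝ}
    (h : ∀ k, ∃ P : Finset (List Γ), P.Nonempty ∧ (∀ l ∈ P, k ≤ (Vs 1 l).card) ∧
        𝔼 l ∈ P, 𝔼 l' ∈ P, ∏ e ∈ Es 1 l ∩ Es 1 l', (pp μ lam e)⁻¹ ≤ D) :
    law μ lam (HasInf Γ) ≠ 0 := by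
  choose P h1 h2 h3 using h
  have hD : 0 < D := lt_of_lt_of_le zero_lt_one (le_trans (by
    refine Finset.le_expect (h1 0) fun l _ => Finset.le_expect (h1 0) fun l' _ => one_le_pr ?_ _
    intro e
    refine (one_le_inv₀ (hp e)).2 ?_
    have := Real.exp_pos (-(rate μ lam e : ℝ))
    unfold pp; linarith) (h3 0))
  let A : ℕ → Set (Sym2 Γ → ℕ) := fun k => ⋃ l ∈ P k, op (Es 1 l)
  let B : ℕ → Set (Sym2 Γ → ℕ) := fun M => ⋃ k, ⋃ (_ : M ≤ k), A k
  have hB : ∀ M, MeasurableSet (B M) := fun M => MeasurableSet.iUnion fun k =>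
    MeasurableSet.iUnion fun _ => Finset.measurableSet_biUnion _ fun l _ => op_meas _
  have anti : Antitone B := fun a b hab => Set.iUnion_mono fun k =>
    Set.iUnion_subset fun hk => Set.subset_iUnion (fun _ : a ≤ k => A k) (hab.trans hk)
  have lim := tendsto_measure_iInter_atTop (μ := law μ lam) (fun M => (hB M).nullMeasurableSet) anti
    ⟨0, measure_ne_top _ _⟩
  have low : ENNReal.ofReal (1 / D) ≤ law μ lam (⋂ M, B M) := by
    refine ge_of_tendsto' lim fun M => ?_
    refine le_trans ?_ (measure_mono (s := A M) (Set.subset_iUnion₂_of_subset M le_rfl le_rfl))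
    exact ENNReal.ofReal_le_of_le_toReal (second μ lam hp (h1 M) _ hD (h3 M))
  have sub : (⋂ M, B M) ⊆ HasInf Γ := by
    intro η hη
    refine ⟨1, fun hf => ?_⟩
    obtain ⟨k, hk, hA⟩ := Set.mem_iUnion₂.1 (Set.mem_iInter.1 hη (hf.toFinset.card + 1))
    obtain ⟨l, hl, ho⟩ := Set.mem_iUnion₂.1 hA
    have : Vs 1 l ⊆ hf.toFinset := fun v hv => hf.mem_toFinset.2 (reach ho hv)
    have := card_le_card this
    have := h2 k l hl
    omega
  intro h0
  have := (low.trans (measure_mono sub)).trans h0.le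
  rw [nonpos_iff_eq_zero, ENNReal.ofReal_eq_zero] at this
  have : 0 < 1 / D := by positivity
  linarith

lemma mix (F : ℕ → Finset Γ) (hF : ∀ j, (F j).Nonempty) (c : ℕ → ℝ≥0) (hc : HasSum c 1) :
    ∃ ν : Γ → ℝ≥0, HasSum ν 1 ∧ ∀ j, ∀ g ∈ F j, c j / (F j).card ≤ ν g := by
  let u : ℕ → Γ → ℝ≥0∞ := fun j g => if g ∈ F j then ((c j / (F j).card : ℝ≥0) : ℝ≥0∞) else 0
  have h1 : ∀ j, ∑' g, u j g = c j := by
    intro j
    rw [tsum_eq_sum (s := F j) (fun g hg => if_neg hg)]
    rw [Finset.sum_congr rfl (fun g hg => if_pos hg), Finset.sum_const, nsmul_eq_mul]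
    have : ((F j).card : ℝ≥0) ≠ 0 := by exact_mod_cast (hF j).card_ne_zero
    rw [← ENNReal.coe_natCast, ← ENNReal.coe_mul]
    congr 1; field_simp
  have h2 : ∑' g, ∑' j, u j g = 1 := by
    rw [ENNReal.tsum_comm]; simp only [h1]
    exact (ENNReal.hasSum_coe.2 hc).tsum_eq
  have h3 : ∀ g, ∑' j, u j g ≠ ⊤ := fun g =>
    ne_top_of_le_ne_top ENNReal.one_ne_top (h2 ▸ ENNReal.le_tsum (f := fun g => ∑' j, u j g) g)
  refine ⟨fun g => (∑' j, u j g).toNNReal, ?_, fun j g hg => ?_⟩
  · rw [← ENNReal.hasSum_coe]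
    simp only [ENNReal.coe_toNNReal (h3 _), ENNReal.coe_one]
    rw [← h2]; exact ENNReal.summable.hasSum
  · rw [← ENNReal.coe_le_coe, ENNReal.coe_toNNReal (h3 _)]
    refine le_trans (le_of_eq ?_) (ENNReal.le_tsum (f := fun j => u j g) j)
    simp only [u, if_pos hg]

lemma inv_pp {x y : ℝ} (hx : 0 < x) (hxy : x ≤ y) : (1 - Real.exp (-y))⁻¹ ≤ 1 + 1 / x := by
  have h1 : Real.exp (-y) ≤ 1 / (1 + x) := by
    rw [Real.exp_neg, one_div]
    exact inv_anti₀ (by positivity) (by linarith [Real.add_one_le_exp y])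
  have h2 : x / (1 + x) ≤ 1 - Real.exp (-y) := by
    have : x / (1 + x) = 1 - 1 / (1 + x) := by field_simp; ring
    linarith
  refine (inv_anti₀ (by positivity) h2).trans (le_of_eq ?_)
  field_simp; ring

theorem upper [Countable Γ] [Infinite Γ] (l0 : ℝ≥0) (h0 : 1 < l0) :
    ∃ μ : GenMeasure Γ, ∀ lam, l0 ≤ lam → law μ lam (HasInf Γ) ≠ 0 := by
  have h0' : (1 : ℝ) < l0 := h0
  obtain ⟨ε, hε0, hε1, hε⟩ : ∃ ε : ℝ≥0, 0 < ε ∧ ε ≤ 1 ∧ (1 : ℝ) < l0 * (1 - ε) := by
    refine ⟨⟨(l0 - 1) / (2 * l0), by have : (0 : ℝ) ≤ l0 - 1 := by linarith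
                                     positivity⟩, ?_, ?_, ?_⟩
    · show (0 : ℝ) < (l0 - 1) / (2 * l0)
      have : (0 : ℝ) < l0 - 1 := by linarith
      positivity
    · show ((l0 : ℝ) - 1) / (2 * l0) ≤ 1
      rw [div_le_one (by positivity)]; linarith
    · show (1 : ℝ) < l0 * (1 - (l0 - 1) / (2 * l0))
      have : (l0 : ℝ) * (1 - (l0 - 1) / (2 * l0)) = (l0 + 1) / 2 := by field_simp; ring
      linarith
  have hε0' : (0 : ℝ) < ε := hε0
  have hε1' : (ε : ℝ) ≤ 1 := hε1
  set q : ℝ := l0 * (1 - ε) with hq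
  have hq1 : 1 / q < 1 := by rw [div_lt_one (by linarith)]; exact hε
  obtain ⟨t0, ht0⟩ := exists_nat_gt (2 / (1 - 1 / q))
  obtain ⟨T, S, D, hT0, hT, hTs, hS, H⟩ := comb (Γ := Γ) (β := (1 + 1 / q) / 2) (A := 16 / ε)
    (by positivity) (by linarith) (by rw [le_div_iff₀ hε0']; linarith) t0
  obtain ⟨en, hen⟩ := exists_surjective_nat Γ
  let F : ℕ → Finset Γ := fun j => Nat.casesOn j T fun k => insert (en k) (S k)
  let c : ℕ → ℝ≥0 := fun j => Nat.casesOn j (1 - ε) fun k => ε / 2 / 2 ^ k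
  have hc : HasSum c 1 := by
    rw [← NNReal.hasSum_coe, ← hasSum_nat_add_iff' 1]
    have := hasSum_geometric_two' (ε : ℝ)
    simpa [c, NNReal.coe_sub hε1] using this
  obtain ⟨ν, hν, hν'⟩ := mix F (fun j => by cases j; exacts [hT, insert_nonempty _ _]) c hc
  have hpos : ∀ g, 0 < ν g := by
    intro g
    obtain ⟨k, rfl⟩ := hen g
    refine lt_of_lt_of_le ?_ (hν' (k + 1) _ (mem_insert_self _ _))
    have : 0 < (F (k + 1)).card := (insert_nonempty _ _).card_pos
    simp only [c]; positivity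
  let μ : GenMeasure Γ := ⟨fun g => (ν g + ν g⁻¹) / 2, by
      have := (hν.add ((Equiv.inv Γ).hasSum_iff.2 hν)).div_const 2
      simpa using this, fun g => by simp [add_comm], by
      have : {g | (ν g + ν g⁻¹) / 2 ≠ 0} = Set.univ := Set.eq_univ_of_forall fun g => by
        have := hpos g
        show _ ≠ _
        positivity
      rw [this, Subgroup.closure_univ]⟩
  refine ⟨μ, fun lam hl => ?_⟩
  have hl' : (l0 : ℝ) ≤ lam := hl
  have hr : ∀ x s : Γ, (rate μ lam s(x, x * s) : ℝ) = lam * ((ν s + ν s⁻¹) / 2) := by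
    intro x s; simp [rate, μ]
  have hp : ∀ e, 0 < pp μ lam e := by
    intro e
    induction e using Sym2.ind with
    | h x y =>
      have := hr x (x⁻¹ * y)
      rw [mul_inv_cancel_left] at this
      have h2 : (0 : ℝ) < ν (x⁻¹ * y) := hpos _
      have h3 : (0 : ℝ) < rate μ lam s(x, y) := by
        rw [this]; have : (0 : ℝ) < lam := by linarith
        positivity
      unfold pp
      have := Real.exp_lt_exp.2 (show -(rate μ lam s(x, y) : ℝ) < 0 by linarith)
      rw [Real.exp_zero] at this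
      linarith
  refine pos_of μ lam hp (H (fun e => (pp μ lam e)⁻¹) (fun e => ?_) (fun s hs x => ?_)
    (fun k s hs x => ?_))
  · refine (one_le_inv₀ (hp e)).2 ?_
    have := Real.exp_pos (-(rate μ lam e : ℝ))
    unfold pp; linarith
  · have ht : (0 : ℝ) < T.card := by exact_mod_cast hT.card_pos
    have a1 : (1 - ε : ℝ) / T.card ≤ ν s := by
      have := NNReal.coe_le_coe.2 (hν' 0 s hs); simpa [c, F, NNReal.coe_sub hε1] using this
    have a2 : (1 - ε : ℝ) / T.card ≤ ν s⁻¹ := by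
      have := NNReal.coe_le_coe.2 (hν' 0 _ (hTs s hs)); simpa [c, F, NNReal.coe_sub hε1] using this
    have a3 : q / T.card ≤ rate μ lam s(x, x * s) := by
      rw [hr, hq, mul_div_assoc]
      have : (0 : ℝ) ≤ (1 - ε : ℝ) / T.card := div_nonneg (by linarith) ht.le
      exact mul_le_mul hl' (by linarith) this (by positivity)
    refine (inv_pp (by positivity) a3).trans ?_
    have : (t0 : ℝ) ≤ T.card := by exact_mod_cast hT0
    rw [div_lt_iff₀ (by linarith)] at ht0
    have e : 1 / (q / T.card) = 1 / q * T.card := by field_simp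
    rw [e]
    nlinarith
  · have hN : (1 : ℝ) ≤ (S k).card := by exact_mod_cast (hS k).card_pos
    have a0 : ((insert (en k) (S k)).card : ℝ) ≤ 2 * (S k).card := by
      have : ((insert (en k) (S k)).card : ℝ) ≤ (S k).card + 1 := by
        exact_mod_cast card_insert_le _ _
      linarith
    have a0' : (0 : ℝ) < (insert (en k) (S k)).card := by
      exact_mod_cast (insert_nonempty _ _).card_pos
    have a1 : (ε : ℝ) / 2 / 2 ^ k / (insert (en k) (S k)).card ≤ ν s := by
      have := NNReal.coe_le_coe.2 (hν' (k + 1) s (mem_insert_of_mem hs)); simpa [c, F] using this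
    have a2 : (ε : ℝ) / 2 / 2 ^ k / (2 * (S k).card) ≤ ν s := le_trans (by gcongr) a1
    have a3 : (ε : ℝ) / 2 / 2 ^ k / (2 * (S k).card) / 2 ≤ rate μ lam s(x, x * s) := by
      rw [hr]
      have : (0 : ℝ) ≤ ν s⁻¹ := by positivity
      have : (0 : ℝ) ≤ ν s := by positivity
      nlinarith
    refine (inv_pp (by positivity) a3).trans ?_
    have e : 1 / ((ε : ℝ) / 2 / 2 ^ k / (2 * (S k).card) / 2) = 8 / ε * 2 ^ k * (S k).card := by
      field_simp; ring
    have e2 : 16 / (ε : ℝ) * 2 ^ k * (S k).card = 2 * (8 / ε * 2 ^ k * (S k).card) := by ring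
    have h2k : (1 : ℝ) ≤ 2 ^ k := one_le_pow₀ (by norm_num)
    have h8 : (1 : ℝ) ≤ 8 / ε := by rw [le_div_iff₀ hε0']; linarith
    have : (1 : ℝ) ≤ 8 / ε * 2 ^ k * (S k).card :=
      one_le_mul_of_one_le_of_one_le (one_le_mul_of_one_le_of_one_le h8 h2k) hN
    rw [e, e2]; linarith

/-! ### the subcritical side -/

def Dis : Γ → List Γ → Prop
  | _, [] => True
  | x, s :: l => s(x, x * s) ∉ Es (x * s) l ∧ Dis (x * s) l

lemma of_walk {G : SimpleGraph Γ} {x y : Γ} (p : G.Walk x y) (hp : p.edges.Nodup) :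
    ∃ l : List Γ, x * l.prod = y ∧ Dis x l ∧ ∀ e ∈ Es x l, e ∈ p.edges := by
  induction p with
  | nil => exact ⟨[], by simp, trivial, by simp [Es]⟩
  | @cons u v w h p ih =>
    rw [SimpleGraph.Walk.edges_cons, List.nodup_cons] at hp
    obtain ⟨l, h1, h2, h3⟩ := ih hp.2
    refine ⟨(u⁻¹ * v) :: l, by simp [← h1, mul_assoc], ?_, ?_⟩
    · simp only [Dis, mul_inv_cancel_left]
      exact ⟨fun h => hp.1 (h3 _ h), h2⟩
    · simp only [Es, mul_inv_cancel_left, mem_insert, SimpleGraph.Walk.edges_cons, List.mem_cons]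
      rintro e (rfl | he)
      · exact Or.inl rfl
      · exact Or.inr (h3 e he)

lemma dis_prob (μ : GenMeasure Γ) (lam : ℝ≥0) (x : Γ) (l : List Γ) (h : Dis x l) :
    ∏ e ∈ Es x l, pp μ lam e ≤ (l.map fun s => (lam * μ.w s : ℝ)).prod := by
  have p0 : ∀ e, 0 ≤ pp μ lam e := fun e => by
    have := Real.exp_le_one_iff.2 (neg_nonpos.2 (rate μ lam e).coe_nonneg)
    unfold pp; linarith
  induction l generalizing x with
  | nil => simp [Es]
  | cons s l ih =>
    rw [Es, Finset.prod_insert h.1, List.map_cons, List.prod_cons]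
    refine mul_le_mul ?_ (ih _ h.2) (Finset.prod_nonneg fun e _ => p0 e) (by positivity)
    have e : (rate μ lam s(x, x * s) : ℝ) = lam * μ.w s := by simp [rate]
    have := Real.add_one_le_exp (-(rate μ lam s(x, x * s) : ℝ))
    unfold pp; linarith

lemma tsum_list (a : Γ → ℝ≥0∞) (r : ℝ≥0∞) (ha : ∑' s, a s = r) :
    ∑' l : List Γ, (l.map a).prod = ∑' n : ℕ, r ^ n := by
  have h1 : ∀ n : ℕ, ∑' l : List Γ, (if l.length = n then (l.map a).prod else 0) = r ^ n := by
    intro n
    induction n with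
    | zero =>
      rw [tsum_eq_single []]
      · simp
      · intro l hl; rw [if_neg (fun h => hl (List.length_eq_zero_iff.1 h))]
    | succ n ih =>
      have hinj : Function.Injective fun q : Γ × List Γ => q.1 :: q.2 := fun _ _ h => by
        simp only [List.cons.injEq] at h; exact Prod.ext h.1 h.2
      rw [← hinj.tsum_eq, ENNReal.tsum_prod', pow_succ', ← ih, ← ha, ← ENNReal.tsum_mul_right]
      · refine tsum_congr fun s => ?_
        rw [← ENNReal.tsum_mul_left]
        refine tsum_congr fun l => ?_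
        simp
      · intro l hl
        cases l with
        | nil => simp at hl
        | cons s l => exact ⟨(s, l), rfl⟩
  simp only [← h1]
  rw [ENNReal.tsum_comm]
  refine tsum_congr fun l => ?_
  rw [tsum_eq_single l.length]
  · simp
  · intro n hn; rw [if_neg (Ne.symm hn)]

theorem lower [Countable Γ] (μ : GenMeasure Γ) (lam : ℝ≥0) (h : lam < 1) :
    law μ lam (HasInf Γ) = 0 := by
  classical
  have key : ∀ g : Γ, ∀ᵐ η ∂(law μ lam), {y | (openGraph η).Reachable g y}.Finite := by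
    intro g
    have hs : ∑' l : List Γ, law μ lam (if Dis g l then op (Es g l) else ∅) ≠ ⊤ := by
      have e := tsum_list (fun s => ((lam * μ.w s : ℝ≥0) : ℝ≥0∞)) lam (by
        have := (ENNReal.hasSum_coe.2 (μ.total.mul_left lam)).tsum_eq
        simpa using this)
      refine ne_top_of_le_ne_top (b := ∑' n : ℕ, (lam : ℝ≥0∞) ^ n) ?_ ?_
      · rw [ENNReal.tsum_geometric]
        exact ENNReal.inv_ne_top.2 (tsub_pos_of_lt (by exact_mod_cast h)).ne'
      · rw [← e]
        refine ENNReal.tsum_le_tsum fun l => ?_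
        split_ifs with hd
        · rw [← ofReal_measureReal, op_prob]
          refine (ENNReal.ofReal_le_ofReal (dis_prob μ lam g l hd)).trans (le_of_eq ?_)
          clear hd
          induction l with
          | nil => simp
          | cons s l ih =>
            rw [List.map_cons, List.prod_cons, List.map_cons, List.prod_cons,
              ENNReal.ofReal_mul (by positivity), ih, ← NNReal.coe_mul, ENNReal.ofReal_coe_nnreal]
        · simp
    filter_upwards [ae_finite_setOf_mem hs] with η hη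
    refine (hη.image fun l => g * l.prod).subset fun y hy => ?_
    obtain ⟨p⟩ := hy
    obtain ⟨l, h1, h2, h3⟩ := of_walk p.bypass p.bypass_isPath.isTrail.edges_nodup
    refine ⟨l, ?_, h1⟩
    simp only [Set.mem_setOf_eq, if_pos h2, mem_op]
    intro e he
    have := p.bypass.edges_subset_edgeSet (h3 e he)
    induction e using Sym2.ind with
    | h a b => exact this.2
  have := ae_all_iff.2 key
  rw [ae_iff] at this
  refine measure_mono_null (fun η hη => ?_) this
  obtain ⟨g, hg⟩ := hη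
  exact fun h => hg (h g)

theorem main (Γ : Type) [Group Γ] [Countable Γ] [Infinite Γ] : lamGroup Γ = 1 := by
  classical
  apply le_antisymm
  · refine le_of_forall_gt_imp_ge_of_dense fun b hb => ?_
    obtain ⟨l0, h1, h2⟩ := ENNReal.lt_iff_exists_nnreal_btwn.1 hb
    obtain ⟨μ, hμ⟩ := upper (Γ := Γ) l0 (by exact_mod_cast h1)
    refine (iInf_le _ μ).trans (le_trans (iSup₂_le fun lam hl => ?_) h2.le)
    by_contra hc
    exact hμ lam (by exact_mod_cast (not_le.1 hc).le) hl.2
  · refine le_iInf fun μ => le_of_forall_lt_imp_le_of_dense fun b hb => ?_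
    obtain ⟨l0, h1, h2⟩ := ENNReal.lt_iff_exists_nnreal_btwn.1 hb
    refine h1.le.trans (le_iSup₂_of_le l0 ⟨?_, lower μ l0 (by exact_mod_cast h2)⟩ le_rfl)
    exact_mod_cast lt_of_le_of_lt (zero_le) h1

end Pool.Agent.H41.GPerc
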