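import Pool.Agent.H41.GWFDefs
import Pool.Agent.H41.Frog1

set_option autoImplicit false

namespace Pool.Agent.H41.GWF

open MeasureTheory ProbabilityTheory Finset Filter Pool.Agent.H41.Frog
open scoped ENNReal NNReal Topology Classical

lemma dep_inter' {I Y : Type} [MeasurableSpace Y] [Inhabited Y] (Q : I → Measure Y)
    [∀ i, IsProbabilityMeasure (Q i)] {S : Set I}
    {A B : Set (I → Y)} (hA : MeasurableSet A) (hB : MeasurableSet B) (dA : Dep S A)
    (dB : Dep Sᶜ B) : Measure.infinitePi Q (A ∩ B) =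
      Measure.infinitePi Q A * Measure.infinitePi Q B := by
  have := dep_inter Q hA hB dA dB
  rwa [Measure.real, Measure.real, Measure.real, ← ENNReal.toReal_mul, ENNReal.toReal_eq_toReal_iff'
    (measure_ne_top _ _) (ENNReal.mul_ne_top (measure_ne_top _ _) (measure_ne_top _ _))] at this

lemma meas_dep {α β γ : Type} [MeasurableSpace α] [MeasurableSpace γ] [Countable β]
    [MeasurableSpace β] [DiscreteMeasurableSpace β] {H : β → α → γ} (h : ∀ b, Measurable (H b))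
    {a : α → β} (ha : Measurable a) : Measurable fun x => H (a x) x :=
  (measurable_from_prod_countable_right (f := fun q : β × α => H q.1 q.2) h).comp
    (ha.prodMk measurable_id)

def sh (e : List ℕ) (ζ : Env) : Env := fun l => ζ (l ++ e)

@[fun_prop] lemma sh_m (e : List ℕ) : Measurable (sh e) := by unfold sh; fun_prop
lemma sh_sh (a e : List ℕ) (ζ : Env) : sh a (sh e ζ) = sh (a ++ e) ζ := by
  funext l; simp [sh]
@[simp] lemma sh_nil (ζ : Env) : sh [] ζ = ζ := by funext l; simp [sh]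
@[simp] lemma sh_at (e : List ℕ) (ζ : Env) : sh e ζ [] = ζ e := by simp [sh]

noncomputable def spl (e : List ℕ) (q : Env × Env) : Env :=
  fun l => if e <:+ l then q.2 (l.take (l.length - e.length)) else q.1 l

@[fun_prop] lemma spl_m (e : List ℕ) : Measurable (spl e) := measurable_pi_lambda _ fun l => by
  unfold spl; split_ifs <;> fun_prop

lemma sh_spl (e : List ℕ) (q : Env × Env) : sh e (spl e q) = q.2 := by
  funext l; simp [sh, spl]

/-- `ζ` and `ζ'` agree outside the subtree of `e`. -/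
def Ag (e : List ℕ) (ζ ζ' : Env) : Prop := ∀ l, ¬ e <:+ l → ζ l = ζ' l

lemma spl_ag (e : List ℕ) (ζ ξ : Env) : Ag e (spl e (ζ, ξ)) ζ := fun l h => by simp [spl, h]

variable (p : Measure ℕ) [IsProbabilityMeasure p]

instance : IsProbabilityMeasure (GW p) := by unfold GW; infer_instance

lemma sh_mp (e : List ℕ) : MeasurePreserving (sh e) (GW p) (GW p) :=
  ⟨sh_m e, Measure.map_infinitePi_infinitePi_of_inj (P := fun _ : List ℕ => p)
    (f := fun l => l ++ e) (List.append_left_injective e)⟩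

lemma spl_mp (e : List ℕ) : MeasurePreserving (spl e) ((GW p).prod (GW p)) (GW p) := by
  let mk : Env → Env := fun ζ => spl e (ζ, 0)
  have mm : Measurable mk := (spl_m e).comp (by fun_prop)
  have ind : IndepFun mk (sh e) (GW p) := indepFun_iff_measure_inter_preimage_eq_mul.2
    fun s t hs ht => dep_inter' _ (mm hs) (sh_m e ht) (S := {l | ¬ e <:+ l})
      (fun ω ω' h hω => by
        have : mk ω' = mk ω := funext fun l => by
          by_cases h1 : e <:+ l <;> simp [mk, spl, h1, h l]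
        simpa only [Set.mem_preimage, this] using hω)
      (fun ω ω' h hω => by
        have : sh e ω' = sh e ω := funext fun l => (h _ (by simp)).symm
        simpa only [Set.mem_preimage, this] using hω)
  have h := ind.map_prod_eq_prod_map_map mm.aemeasurable (sh_m e).aemeasurable
  refine ⟨spl_m e, ?_⟩
  have h1 : spl e = spl e ∘ Prod.map mk id := funext fun q => funext fun l => by
    by_cases h1 : e <:+ l <;> simp [mk, spl, h1]
  have h2 : spl e ∘ (fun ω => (mk ω, sh e ω)) = id := funext fun q => funext fun l => by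
    by_cases h1 : e <:+ l
    · obtain ⟨l, rfl⟩ := h1; simp [spl, sh]
    · simp [mk, spl, h1]
  rw [h1, ← Measure.map_map (spl_m e) (mm.prodMap measurable_id),
    ← Measure.map_prod_map _ _ mm measurable_id, Measure.map_id]
  nth_rw 2 [← (sh_mp p e).map_eq]
  rw [← h, Measure.map_map (spl_m e) (mm.prodMk (sh_m e)), h2, Measure.map_id]

lemma split (e : List ℕ) {h : Env → ℝ≥0∞} (hh : Measurable h) :
    ∫⁻ ζ, h ζ ∂GW p = ∫⁻ ζ, ∫⁻ ξ, h (spl e (ζ, ξ)) ∂GW p ∂GW p := by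
  rw [← (spl_mp p e).lintegral_comp hh, lintegral_prod _ (by fun_prop)]

lemma indep (e : List ℕ) {f g : Env → ℝ≥0∞} (hf : Measurable f) (hg : Measurable g)
    (h : ∀ ζ ζ', Ag e ζ ζ' → f ζ = f ζ') :
    ∫⁻ ζ, f ζ * g (sh e ζ) ∂GW p = (∫⁻ ζ, f ζ ∂GW p) * ∫⁻ ζ, g ζ ∂GW p := by
  rw [split p e (h := fun ζ => f ζ * g (sh e ζ)) (by fun_prop), ← lintegral_mul_const _ hf]
  refine lintegral_congr fun ζ => ?_
  simp only [sh_spl, h _ _ (spl_ag e ζ _)]
  rw [lintegral_const_mul _ hg]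

lemma prod_ind (h : ℕ → ℝ≥0∞) (s : Finset ℕ) {g : ℕ → Env → ℝ≥0∞} (hg : ∀ j, Measurable (g j)) :
    ∫⁻ ζ, h (ζ []) * ∏ j ∈ s, g j (sh [j] ζ) ∂GW p =
      (∫⁻ z, h z ∂p) * ∏ j ∈ s, ∫⁻ ζ, g j ζ ∂GW p := by
  have mh : Measurable fun ζ : Env => h (ζ []) := Measurable.of_discrete.comp (measurable_pi_apply _)
  induction s using Finset.induction_on with
  | empty =>
    simpa [GW] using (measurePreserving_eval_infinitePi (fun _ : List ℕ => p) []).lintegral_comp
      (f := h) Measurable.of_discrete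
  | insert a s ha ih =>
    simp only [prod_insert ha, mul_comm (g a _), ← mul_assoc]
    rw [indep p [a] (f := fun ζ => h (ζ []) * ∏ j ∈ s, g j (sh [j] ζ)) (by fun_prop) (hg a), ih]
    · ring
    · intro ζ ζ' h1
      rw [h1 [] (by simp), prod_congr rfl fun j hj => ?_]
      congr 1
      funext l
      refine h1 _ fun h2 => ha ?_
      obtain ⟨l', h2⟩ := h2
      rwa [List.append_inj_right' h2 rfl |> List.cons.inj |>.1]

/-- Children version: the set of children used depends on the offspring number. -/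
lemma prod_ind' (h : ℕ → ℝ≥0∞) (s : ℕ → Finset ℕ) {g : ℕ → Env → ℝ≥0∞}
    (hg : ∀ j, Measurable (g j)) :
    ∫⁻ ζ, h (ζ []) * ∏ j ∈ s (ζ []), g j (sh [j] ζ) ∂GW p =
      ∫⁻ z, h z * ∏ j ∈ s z, ∫⁻ ζ, g j ζ ∂GW p ∂p := by
  have e : ∀ ζ : Env, h (ζ []) * ∏ j ∈ s (ζ []), g j (sh [j] ζ) =
      ∑' z, ({z} : Set ℕ).indicator h (ζ []) * ∏ j ∈ s z, g j (sh [j] ζ) := fun ζ => by
    rw [tsum_eq_single (ζ []) fun z hz => by simp [Set.indicator, hz.symm]]; simp
  simp only [e]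
  rw [lintegral_tsum fun z => by fun_prop, lintegral_countable']
  refine tsum_congr fun z => ?_
  rw [prod_ind p _ _ hg, lintegral_indicator (MeasurableSet.singleton z), lintegral_singleton]
  ring

variable (q : ℕ)

def θn : ℕ → Env → ℕ
  | 0 => fun _ => q
  | n + 1 => fun ζ => min q (∑ i ∈ range (ζ []), θn n (sh [i] ζ) - (ζ [] + 1))

lemma θn_m (n : ℕ) : Measurable (θn q n) := by
  induction n with
  | zero => exact measurable_const
  | succ n ih =>
    exact meas_dep (H := fun z ζ => min q (∑ i ∈ range z, θn q n (sh [i] ζ) - (z + 1)))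
      (fun z => (Measurable.of_discrete (f := fun s => min q (s - (z + 1)))).comp
        (Finset.measurable_sum _ fun i _ => ih.comp (sh_m _))) (measurable_pi_apply _)

lemma θn_anti (ζ : Env) : Antitone fun n => θn q n ζ := by
  refine antitone_nat_of_succ_le fun n => ?_
  induction n generalizing ζ with
  | zero => exact min_le_left _ _
  | succ n ih => exact min_le_min le_rfl (Nat.sub_le_sub_right (sum_le_sum fun i _ => ih _) _)

noncomputable def θ (ζ : Env) : ℕ := ⨅ n, θn q n ζ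

lemma θ_m : Measurable (θ q) := Measurable.iInf (θn_m q)

lemma θ_ev (ζ : Env) : ∀ᶠ n in atTop, θn q n ζ = θ q ζ := by
  obtain ⟨n, hn⟩ := ciInf_mem fun n => θn q n ζ
  exact eventually_atTop.2 ⟨n, fun m hm => le_antisymm ((θn_anti q ζ hm).trans hn.le)
    (ciInf_le (OrderBot.bddBelow _) m)⟩

lemma θ_eq (ζ : Env) : θ q ζ = min q (∑ i ∈ range (ζ []), θ q (sh [i] ζ) - (ζ [] + 1)) := by
  obtain ⟨n, h1, h2⟩ := (((tendsto_add_atTop_nat 1).eventually (θ_ev q ζ)).and
    ((eventually_all_finset (range (ζ []))).2 fun i _ => θ_ev q (sh [i] ζ))).exists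
  rw [← h1, ← sum_congr rfl h2]; rfl

variable {q} {ρ s : ℝ≥0∞}

lemma pow_sub_le (h0 : ρ ≠ 0) (h1 : ρ ≤ 1) (a d : ℕ) : ρ ^ (a - d) ≤ ρ⁻¹ ^ d * ρ ^ a := by
  have ht : ρ ≠ ∞ := ne_top_of_le_ne_top (by simp) h1
  calc ρ ^ (a - d) = ρ⁻¹ ^ d * ρ ^ (a - d + d) := by
        rw [pow_add, mul_left_comm, ← mul_pow, ENNReal.inv_mul_cancel h0 ht]; simp
    _ ≤ _ := mul_le_mul' le_rfl (pow_le_pow_right_of_le_one' h1 (by omega))

lemma u_le (h0 : ρ ≠ 0) (h1 : ρ ≤ 1) (h : ρ ^ q + ∫⁻ z, ρ⁻¹ ^ (z + 1) * s ^ z ∂p ≤ s) :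
    ∫⁻ ζ, ρ ^ θ q ζ ∂GW p ≤ s := by
  have m : ∀ n, Measurable fun ζ => ρ ^ θn q n ζ := fun n =>
    (Measurable.of_discrete (f := fun k => ρ ^ k)).comp (θn_m q n)
  have a : ∀ n, ∫⁻ ζ, ρ ^ θn q n ζ ∂GW p ≤ s := fun n => by
    induction n with
    | zero => simpa [θn] using le_self_add.trans h
    | succ n ih =>
      calc _ ≤ ∫⁻ ζ, ρ ^ q + ρ⁻¹ ^ (ζ [] + 1) * ∏ j ∈ range (ζ []), ρ ^ θn q n (sh [j] ζ) ∂GW p :=
            lintegral_mono fun ζ => by
              simp only [θn, prod_pow_eq_pow_sum]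
              rcases min_choice q (∑ i ∈ range (ζ []), θn q n (sh [i] ζ) - (ζ [] + 1)) with e | e <;>
                rw [e]
              exacts [le_self_add, (pow_sub_le h0 h1 _ _).trans le_add_self]
        _ ≤ _ := by
            rw [lintegral_add_left measurable_const, prod_ind' p (fun z => ρ⁻¹ ^ (z + 1)) range
              (g := fun _ ζ => ρ ^ θn q n ζ) fun _ => m n]
            refine le_trans (add_le_add (by simp) (lintegral_mono fun z => ?_)) h
            simp only [prod_const, card_range]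
            gcongr
  calc _ ≤ ∫⁻ ζ, ⨆ n, ρ ^ θn q n ζ ∂GW p := lintegral_mono fun ζ => by
        obtain ⟨n, hn⟩ := (θ_ev q ζ).exists
        exact le_iSup_of_le n (by rw [hn])
    _ ≤ s := by
        rw [lintegral_iSup m fun a b hab ζ => pow_le_pow_right_of_le_one' h1 (θn_anti q ζ hab)]
        exact iSup_le a

lemma cond (e : List ℕ) {f g : Env → ℝ≥0∞} (hf : Measurable f) (hg : Measurable g) {c : ℝ≥0∞}
    (h : ∀ ζ ζ', Ag e ζ ζ' → θ q (sh e ζ) = θ q (sh e ζ') → f ζ = f ζ')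
    (g0 : ∀ ξ, θ q ξ ≠ 0 → g ξ = 0) (g1 : ∫⁻ ζ, g ζ ∂GW p ≤ c * GW p {ζ | θ q ζ = 0}) :
    ∫⁻ ζ, f ζ * g (sh e ζ) ∂GW p ≤ c * ∫⁻ ζ, f ζ ∂GW p := by
  rw [split p e (h := fun ζ => f ζ * g (sh e ζ)) (by fun_prop), split p e hf,
    ← lintegral_const_mul _ (Measurable.lintegral_prod_right' (f := fun q => f (spl e q)) (by fun_prop))]
  refine lintegral_mono fun ζ => ?_
  simp only [sh_spl]
  by_cases h0 : ∃ ξ0, θ q ξ0 = 0
  swap
  · simp [fun ξ => g0 ξ fun h => h0 ⟨ξ, h⟩]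
  obtain ⟨ξ0, h0⟩ := h0
  have k : ∀ ξ, θ q ξ = 0 → f (spl e (ζ, ξ)) = f (spl e (ζ, ξ0)) := fun ξ h1 =>
    h _ _ (fun l hl => by simp [spl, hl]) (by simp [sh_spl, h0, h1])
  have m0 : MeasurableSet {ζ | θ q ζ = 0} := θ_m q (MeasurableSet.singleton 0)
  calc _ = ∫⁻ ξ, f (spl e (ζ, ξ0)) * g ξ ∂GW p := lintegral_congr fun ξ => by
        by_cases h1 : θ q ξ = 0
        · rw [k ξ h1]
        · simp [g0 ξ h1]
    _ ≤ c * ∫⁻ ξ, {ζ | θ q ζ = 0}.indicator (fun _ => f (spl e (ζ, ξ0))) ξ ∂GW p := by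
        rw [lintegral_const_mul _ hg, lintegral_indicator_const m0, mul_left_comm]
        gcongr
    _ ≤ _ := mul_le_mul' le_rfl (lintegral_mono fun ξ =>
        Set.indicator_apply_le' (fun h1 => (k ξ h1).ge) fun _ => zero_le)

lemma params (hp : 1 < ∫⁻ k, (k : ℝ≥0∞) ∂p) : ∃ (ρ s : ℝ≥0∞) (q : ℕ), ρ ≠ 0 ∧ ρ ≤ 1 ∧ s < 1 ∧
    ρ ^ q + ∫⁻ z, ρ⁻¹ ^ (z + 1) * s ^ z ∂p ≤ s ∧
    ∫⁻ z, z * (ρ⁻¹ ^ (z + 1) * s ^ (z - 1)) ∂p < 1 := by
  let F : ℝ → ℝ≥0∞ := fun t => ∫⁻ z, ENNReal.ofReal t ^ z ∂p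
  let G : ℝ → ℝ≥0∞ := fun t => ∫⁻ z, (z : ℕ) * ENNReal.ofReal t ^ (z - 1) ∂p
  let f : ℝ → ℝ := fun t => ∫ z, t ^ z ∂p
  have bd : ∀ t ∈ Set.Icc (0 : ℝ) 1, ∀ᵐ z ∂p, ‖t ^ z‖ ≤ 1 := fun t ht => ae_of_all _ fun z => by
    rw [Real.norm_of_nonneg (pow_nonneg ht.1 _)]; exact pow_le_one₀ ht.1 ht.2
  have fc : ContinuousOn f (Set.Icc 0 1) := continuousOn_of_dominated (bound := fun _ => 1)
    (fun _ _ => Measurable.of_discrete.aestronglyMeasurable) bd (integrable_const _)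
    (ae_of_all _ fun z => by fun_prop)
  have f0 : ∀ t, 0 ≤ t → 0 ≤ f t := fun t ht => integral_nonneg fun z => pow_nonneg ht _
  have fF : ∀ t ∈ Set.Icc (0 : ℝ) 1, F t = ENNReal.ofReal (f t) := fun t ht => by
    rw [ofReal_integral_eq_lintegral_ofReal (Integrable.of_bound
      Measurable.of_discrete.aestronglyMeasurable 1 (bd t ht)) (ae_of_all _ fun z => pow_nonneg ht.1 _)]
    exact lintegral_congr fun z => (ENNReal.ofReal_pow ht.1 z).symm
  have cvx : ∀ a b : ℝ, 0 ≤ a → a ≤ b → G a * ENNReal.ofReal (b - a) + F a ≤ F b := fun a b ha hab => by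
    rw [← lintegral_mul_const _ Measurable.of_discrete, ← lintegral_add_left Measurable.of_discrete]
    refine lintegral_mono fun z => ?_
    rw [← ENNReal.ofReal_pow ha, ← ENNReal.ofReal_pow ha, ← ENNReal.ofReal_pow (ha.trans hab),
      ← ENNReal.ofReal_natCast, ← ENNReal.ofReal_mul (by positivity),
      ← ENNReal.ofReal_mul (by positivity), ← ENNReal.ofReal_add (mul_nonneg (by positivity)
        (by linarith)) (by positivity)]
    refine ENNReal.ofReal_le_ofReal ?_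
    induction z with
    | zero => simp
    | succ k ih =>
      have h1 : a ^ k ≤ b ^ k := pow_le_pow_left₀ ha hab k
      have h2 : a * (k * a ^ (k - 1)) = k * a ^ k := by
        cases k with
        | zero => simp
        | succ k => simp [pow_succ]; ring
      simp only [Nat.add_sub_cancel, pow_succ]
      push_cast
      nlinarith [mul_le_mul_of_nonneg_left ih ha, mul_le_mul_of_nonneg_left h1 (sub_nonneg.2 hab)]
  obtain ⟨t, t0, t1, ht⟩ : ∃ t : ℝ, 0 ≤ t ∧ t < 1 ∧ 1 < G t := by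
    have l : Tendsto (fun n : ℕ => (1 - 1 / ((n : ℝ) + 1))) atTop (𝓝 1) := by
      simpa using tendsto_one_div_add_atTop_nhds_zero_nat.const_sub (1 : ℝ)
    have := lintegral_liminf_le (μ := p) (u := atTop)
      (f := fun (n : ℕ) (z : ℕ) => (z : ℝ≥0∞) * ENNReal.ofReal (1 - 1 / ((n : ℝ) + 1)) ^ (z - 1))
      fun _ => Measurable.of_discrete
    rw [lintegral_congr (g := fun z : ℕ => (z : ℝ≥0∞)) fun z => Tendsto.liminf_eq (by
      simpa using ENNReal.Tendsto.const_mul (a := z) (ENNReal.Tendsto.pow (n := z - 1)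
        (ENNReal.tendsto_ofReal l)) (by simp))] at this
    obtain ⟨n, hn⟩ := (eventually_lt_of_lt_liminf (hp.trans_le this)).exists
    have : (1 : ℝ) / (n + 1) ≤ 1 := by rw [div_le_one (by positivity)]; simp
    exact ⟨_, by linarith, by simp; positivity, hn⟩
  have ft : f t < t := by
    have h1 := cvx t 1 t0 t1.le
    rw [show F 1 = 1 by simp [F], fF t ⟨t0, t1.le⟩] at h1
    have h2 := (ENNReal.add_lt_add_right ENNReal.ofReal_ne_top ((ENNReal.mul_lt_mul_iff_left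
      (c := ENNReal.ofReal (1 - t)) (by simpa using t1) ENNReal.ofReal_ne_top).2 ht)).trans_le h1
    rw [one_mul, ← ENNReal.ofReal_add (by linarith) (f0 t t0), ENNReal.ofReal_lt_one] at h2
    linarith
  obtain ⟨a, ⟨a0, a1⟩, ha⟩ := intermediate_value_Icc' t0 ((fc.mono (Set.Icc_subset_Icc_right t1.le)).sub
    continuousOn_id) (show (f t - t) / 2 ∈ _ from ⟨by simp only [Pi.sub_apply, id]; linarith,
      by have := f0 0 le_rfl; simp only [Pi.sub_apply, id]; linarith⟩)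
  simp only [Pi.sub_apply, id] at ha
  have a2 : a < t := lt_of_le_of_ne a1 (by rintro rfl; linarith)
  have Ga : G a < 1 := by
    by_contra h
    have h1 := (add_le_add (mul_le_mul' (not_lt.1 h) le_rfl) le_rfl).trans (cvx a t a0 a1)
    rw [one_mul, fF t ⟨t0, t1.le⟩, fF a ⟨a0, by linarith⟩, ← ENNReal.ofReal_add (by linarith) (f0 a a0),
      ENNReal.ofReal_le_ofReal_iff (f0 t t0)] at h1
    linarith
  have Fa : F a < ENNReal.ofReal a := by
    rw [fF a ⟨a0, by linarith⟩, ENNReal.ofReal_lt_ofReal_iff_of_nonneg (f0 a a0)]; linarith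
  have : (𝓝[<] (1 : ℝ≥0∞)).NeBot := nhdsLT_neBot_of_exists_lt ⟨0, one_pos⟩
  have l : Tendsto (fun r : ℝ≥0∞ => r ^ 2) (𝓝[<] 1) (𝓝 1) := by
    simpa using ENNReal.Tendsto.pow (n := 2) (tendsto_nhdsWithin_of_tendsto_nhds
      (s := Set.Iio (1 : ℝ≥0∞)) (a := 1) tendsto_id)
  have l2 : Tendsto (fun r : ℝ≥0∞ => r ^ 2 * ENNReal.ofReal a) (𝓝[<] 1) (𝓝 (ENNReal.ofReal a)) := by
    simpa using ENNReal.Tendsto.mul_const l (by simp)
  obtain ⟨r, ⟨r1, r2⟩, r3⟩ := (((l.eventually (lt_mem_nhds Ga)).and (l2.eventually (lt_mem_nhds Fa))).and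
    self_mem_nhdsWithin).exists
  have r3 : r < 1 := r3
  have r0 : r ≠ 0 := by rintro rfl; simp at r1
  have rt : r ≠ ∞ := ne_top_of_lt r3
  have c : r⁻¹ * r = 1 := ENNReal.inv_mul_cancel r0 rt
  have i1 : r⁻¹ ≠ 0 := by simpa using rt
  have i2 : r⁻¹ ≠ ∞ := by simpa using r0
  have r4 : r⁻¹ * F a < r * ENNReal.ofReal a := by
    have := (ENNReal.mul_lt_mul_iff_right i1 i2).2 r2
    rwa [sq, ← mul_assoc, ← mul_assoc, c, one_mul] at this
  obtain ⟨q, hq⟩ := (((ENNReal.tendsto_pow_atTop_nhds_zero_of_lt_one r3).add_const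
    (r⁻¹ * F a)).eventually (gt_mem_nhds (by rwa [zero_add]))).exists
  have e : ∀ z, r⁻¹ ^ z * (r * ENNReal.ofReal a) ^ z = ENNReal.ofReal a ^ z := fun z => by
    rw [← mul_pow, ← mul_assoc, c, one_mul]
  refine ⟨r, r * ENNReal.ofReal a, q, r0, r3.le, lt_of_le_of_lt (mul_le_of_le_one_right'
    (ENNReal.ofReal_le_one.2 (by linarith))) r3, le_trans (le_of_eq ?_) hq.le, ?_⟩
  · rw [← lintegral_const_mul _ Measurable.of_discrete]
    simp only [pow_succ', mul_assoc, e]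
  · have := (ENNReal.mul_lt_mul_iff_right (pow_ne_zero 2 i1) (ENNReal.pow_ne_top (n := 2) i2)).2 r1
    rw [← mul_pow, c, one_pow, ← lintegral_const_mul _ Measurable.of_discrete] at this
    refine lt_of_eq_of_lt (lintegral_congr fun z => ?_) this
    cases z with
    | zero => simp
    | succ k => rw [Nat.add_sub_cancel, ← e k]; ring

end Pool.Agent.H41.GWF
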