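import Pool.Agent.H41.GWF1

set_option autoImplicit false

namespace Pool.Agent.H41.GWF

open MeasureTheory ProbabilityTheory Finset Filter
open scoped ENNReal NNReal Topology Classical

instance : MeasurableSpace (List ℕ) := ⊤
instance : DiscreteMeasurableSpace (List ℕ) := ⟨fun _ => trivial⟩

noncomputable def ι (P : Prop) : ℝ≥0∞ := if P then 1 else 0

lemma ι_pos {P : Prop} (h : P) : ι P = 1 := if_pos h
lemma ι_neg {P : Prop} (h : ¬ P) : ι P = 0 := if_neg h
lemma ι_le (P : Prop) : ι P ≤ 1 := by unfold ι; split_ifs <;> simp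
lemma ι_mono {P Q : Prop} (h : P → Q) : ι P ≤ ι Q := by
  by_cases hp : P <;> simp [ι, hp, h]
lemma ι_mul_le {P : Prop} {a b : ℝ≥0∞} (h : P → a ≤ b) : ι P * a ≤ b := by
  by_cases hp : P <;> simp [ι, hp, h]
@[fun_prop] lemma ι_m : Measurable ι := Measurable.of_discrete
lemma ι_sum (z : ℕ) : ∑' i, ι (i < z) = z := by
  rw [tsum_eq_sum (s := range z) fun i hi => ι_neg (by simpa using hi),
    sum_congr rfl fun i hi => ι_pos (mem_range.1 hi)]
  simp

lemma tsum_list {a : List ℕ → ℝ≥0∞} {c : ℕ → ℝ≥0∞} (h : ∀ i l, a (i :: l) ≤ c i * a l) :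
    ∑' l, a l ≤ (1 - ∑' i, c i)⁻¹ * a [] := by
  have k : ∀ n, ∑' l : List ℕ, ι (l.length = n) * a l ≤ (∑' i, c i) ^ n * a [] := fun n => by
    induction n with
    | zero => rw [tsum_eq_single [] fun l hl => by simp [ι, hl]]; simp [ι]
    | succ n ih =>
      rw [← Function.Injective.tsum_eq (g := fun x : ℕ × List ℕ => x.1 :: x.2)
        (fun x y e => Prod.ext (List.cons.inj e).1 (List.cons.inj e).2) fun l hl => by
          cases l with
          | nil => simp [ι] at hl
          | cons i l => exact ⟨(i, l), rfl⟩, ENNReal.tsum_prod', pow_succ', mul_assoc]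
      refine le_trans ?_ (mul_le_mul' le_rfl ih)
      rw [← ENNReal.tsum_mul_right]
      refine ENNReal.tsum_le_tsum fun i => ?_
      rw [← ENNReal.tsum_mul_left]
      refine ENNReal.tsum_le_tsum fun l => ?_
      rw [mul_left_comm]
      exact mul_le_mul' (ι_mono (by simp)) (h i l)
  calc _ = ∑' l : List ℕ, ∑' n, ι (l.length = n) * a l := tsum_congr fun l => by
        rw [tsum_eq_single l.length fun n hn => by simp [ι, hn.symm]]; simp [ι]
    _ ≤ _ := by
        rw [ENNReal.tsum_comm, ← ENNReal.tsum_geometric, ← ENNReal.tsum_mul_right]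
        exact ENNReal.tsum_le_tsum k

variable (q : ℕ)

noncomputable def th (ζ : Env) (v : List ℕ) : ℕ := θ q (sh v ζ)

lemma th_eq (ζ : Env) (v : List ℕ) :
    th q ζ v = min q (∑ i ∈ range (ζ v), th q ζ (i :: v) - (ζ v + 1)) := by
  rw [th, θ_eq]; simp [th, sh_sh]

@[fun_prop] lemma th_m (v : List ℕ) : Measurable fun ζ => th q ζ v := (θ_m q).comp (sh_m v)

lemma th0_m (v : List ℕ) : Measurable fun ζ => th q ζ v = 0 :=
  (Measurable.of_discrete (f := fun n => n = 0)).comp (th_m q v)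

lemma lt_m (i : ℕ) (v : List ℕ) : Measurable fun ζ : Env => i < ζ v :=
  (Measurable.of_discrete (f := fun n => i < n)).comp (measurable_pi_apply v)

def In (ζ : Env) : List ℕ → Prop
  | [] => th q ζ [] = 0
  | i :: l => In ζ l ∧ i < ζ l ∧ th q ζ (i :: l) = 0

noncomputable def ent (ζ : Env) : List ℕ → List ℕ
  | [] => []
  | i :: v => if th q ζ (i :: v) = 0 ∧ th q ζ v = 0 then ent ζ v else i :: v

noncomputable def w (ζ : Env) : List ℕ → ℝ≥0∞
  | [] => 1
  | i :: v => w ζ v * ENNReal.ofReal (q ^ 2 / (q ^ 2 + th q ζ (i :: v)))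

@[fun_prop] lemma In_m (l : List ℕ) : Measurable fun ζ => In q ζ l := by
  induction l with
  | nil => exact th0_m q []
  | cons i l ih => exact ih.and ((lt_m i l).and (th0_m q _))

@[fun_prop] lemma Adm_m (l : List ℕ) : Measurable fun ζ => Adm ζ l := by
  induction l with
  | nil => exact measurable_const
  | cons i l ih => exact ih.and (lt_m i l)

lemma ent_m (l : List ℕ) : Measurable fun ζ => ent q ζ l := by
  induction l with
  | nil => exact measurable_const
  | cons i l ih =>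
    exact Measurable.ite (measurableSet_setOfPred.2 ((th0_m q _).and (th0_m q _))) ih measurable_const

@[fun_prop] lemma w_m (l : List ℕ) : Measurable fun ζ => w q ζ l := by
  induction l with
  | nil => exact measurable_const
  | cons i l ih =>
    exact ih.mul ((Measurable.of_discrete (f := fun t : ℕ =>
      ENNReal.ofReal (q ^ 2 / (q ^ 2 + t)))).comp (th_m q _))

noncomputable def κ (ζ : Env) : ℝ≥0∞ := ∑' l, ι (In q ζ l)

@[fun_prop] lemma κ_m : Measurable (κ q) := by unfold κ; fun_prop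

noncomputable def Av (ζ : Env) (g : List ℕ → ℝ≥0∞) (u : List ℕ) : ℝ≥0∞ :=
  (∑ i ∈ range (ζ u), g (i :: u) + ι (u ≠ []) * g u.tail) / (ζ u + ι (u ≠ []))

noncomputable def h (ζ : Env) (e : List ℕ) (B : Set (List ℕ)) : ℕ → List ℕ → ℝ≥0∞
  | 0 => fun _ => 0
  | n + 1 => fun u => ι (u = e) + ι (u ∉ B) * Av ζ (h ζ e B n) u

noncomputable def F (ζ : Env) (e : List ℕ) (B : Set (List ℕ)) (u : List ℕ) : ℝ≥0∞ :=
  ⨆ n, h ζ e B n u

@[fun_prop] lemma F_m (e : List ℕ) (B : Set (List ℕ)) (u : List ℕ) :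
    Measurable fun ζ => F ζ e B u := by
  refine Measurable.iSup fun n => ?_
  induction n generalizing u with
  | zero => exact measurable_const
  | succ n ih =>
    refine measurable_const.add (measurable_const.mul (meas_dep (H := fun (z : ℕ) ζ =>
      (∑ i ∈ range z, h ζ e B n (i :: u) + ι (u ≠ []) * h ζ e B n u.tail) / (z + ι (u ≠ [])))
      (fun z => ?_) (measurable_pi_apply u)))
    fun_prop

lemma Av_mono {ζ : Env} {g g' : List ℕ → ℝ≥0∞} {u : List ℕ} (h1 : ∀ i, g (i :: u) ≤ g' (i :: u))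
    (h2 : g u.tail ≤ g' u.tail) : Av ζ g u ≤ Av ζ g' u := by
  unfold Av
  gcongr with i
  exact h1 i

lemma Av_tsum (ζ : Env) (c : List ℕ → ℝ≥0∞) (g : List ℕ → List ℕ → ℝ≥0∞) (u : List ℕ) :
    ∑' e, c e * Av ζ (g e) u = Av ζ (fun y => ∑' e, c e * g e y) u := by
  simp only [Av, div_eq_mul_inv, ← mul_assoc, ENNReal.tsum_mul_right, mul_add, mul_sum,
    ENNReal.tsum_add, ← ENNReal.tsum_mul_left, mul_comm (ι _)]
  rw [Summable.tsum_finsetSum fun _ _ => ENNReal.summable]

lemma h_mono (ζ : Env) (e : List ℕ) (B : Set (List ℕ)) (u : List ℕ) :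
    Monotone fun n => h ζ e B n u := by
  refine monotone_nat_of_le_succ fun n => ?_
  induction n generalizing u with
  | zero => exact zero_le
  | succ n ih => exact add_le_add le_rfl (mul_le_mul' le_rfl (Av_mono (fun _ => ih _) (ih _)))

lemma F_anti (ζ : Env) (e : List ℕ) {B B' : Set (List ℕ)} (hB : B' ⊆ B) (u : List ℕ) :
    F ζ e B u ≤ F ζ e B' u := by
  refine iSup_mono fun n => ?_
  induction n generalizing u with
  | zero => exact zero_le
  | succ n ih =>
    exact add_le_add le_rfl (mul_le_mul' (ι_mono fun h1 h2 => h1 (hB h2))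
      (Av_mono (fun _ => ih _) (ih _)))

noncomputable def lm (lam : ℝ≥0∞) (u : List ℕ) : ℝ≥0∞ := if u = [] then 1 else lam

variable (lam : ℝ≥0∞)

noncomputable def R (ζ : Env) : ℕ → List ℕ → Set (List ℕ) → ℝ≥0∞
  | 0 => fun e _ => ι (e = [])
  | k + 1 => fun e A => ∑' u, ι (Adm ζ u ∧ ∀ a ∈ insert e A, ¬ a <:+ u) *
      (R ζ k (ent q ζ u) (insert e A) * (lm lam u * F ζ e (insert e A) u))

@[fun_prop] lemma R_m (k : ℕ) (e : List ℕ) (A : Set (List ℕ)) :
    Measurable fun ζ => R q lam ζ k e A := by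
  induction k generalizing e A with
  | zero => exact measurable_const
  | succ k ih =>
    exact Measurable.tsum fun u => (ι_m.comp ((Adm_m u).and measurable_const)).mul
      ((meas_dep (fun e' => ih e' _) (ent_m q u)).mul (measurable_const.mul (F_m _ _ _)))

lemma R_anti (ζ : Env) (k : ℕ) (e : List ℕ) {A A' : Set (List ℕ)} (hA : A' ⊆ A) :
    R q lam ζ k e A ≤ R q lam ζ k e A' := by
  induction k generalizing e A A' with
  | zero => exact le_rfl
  | succ k ih =>
    have := Set.insert_subset_insert (a := e) hA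
    exact ENNReal.tsum_le_tsum fun u => mul_le_mul' (ι_mono fun h => ⟨h.1, fun a ha => h.2 a (this ha)⟩)
      (mul_le_mul' (ih _ this) (mul_le_mul' le_rfl (F_anti _ _ this _)))

noncomputable def Φ (k : ℕ) (ζ : Env) : ℝ≥0∞ :=
  ∑' u, ι (Adm ζ u) * (R q lam ζ k (ent q ζ u) ∅ * (lm lam u * w q ζ u))

lemma Φ_m (k : ℕ) : Measurable (Φ q lam k) :=
  Measurable.tsum fun u => (ι_m.comp (Adm_m u)).mul
    ((meas_dep (fun e' => R_m q lam k e' _) (ent_m q u)).mul (measurable_const.mul (w_m q u)))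

section inv
variable {q} {a : List ℕ} {ζ ζ' : Env}

def Nb (a v : List ℕ) : Prop := ¬ a <:+ v ∨ v = a

lemma nb_cons {v : List ℕ} (h : ¬ a <:+ v) (i : ℕ) : Nb a (i :: v) := by
  by_cases e : i :: v = a
  · exact Or.inr e
  · exact Or.inl fun h1 => (List.suffix_cons_iff.1 h1).elim (fun h2 => e h2.symm) h

lemma nb_tail {v : List ℕ} {i : ℕ} (h : Nb a (i :: v)) : ¬ a <:+ v := fun h1 =>
  h.elim (fun h2 => h2 (h1.trans (List.suffix_cons i v))) fun h2 => by
    have := h1.length_le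
    simp [← h2] at this

lemma th_inv (h1 : Ag a ζ ζ') (h2 : θ q (sh a ζ) = θ q (sh a ζ')) {v : List ℕ} (hv : Nb a v) :
    th q ζ v = th q ζ' v := by
  obtain ⟨n, hn⟩ : ∃ n, a.length ≤ v.length + n := ⟨a.length, by omega⟩
  induction n generalizing v with
  | zero =>
    rcases hv with hv | rfl
    · exact congrArg _ (funext fun l => h1 _ fun h =>
        hv (List.suffix_of_suffix_length_le h (List.suffix_append _ _) hn))
    · exact h2
  | succ n ih =>
    rcases hv with hv | rfl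
    · rw [th_eq, th_eq q ζ', h1 v hv, sum_congr rfl fun i _ => ih (nb_cons hv i) (by simp; omega)]
    · exact h2

lemma all_inv (h1 : Ag a ζ ζ') (h2 : θ q (sh a ζ) = θ q (sh a ζ')) {v : List ℕ} (hv : Nb a v) :
    (Adm ζ v = Adm ζ' v) ∧ (In q ζ v = In q ζ' v) ∧ ent q ζ v = ent q ζ' v ∧ w q ζ v = w q ζ' v := by
  induction v with
  | nil => simp [Adm, In, ent, w, th_inv h1 h2 hv]
  | cons i v ih =>
    have b := nb_tail hv
    obtain ⟨i1, i2, i3, i4⟩ := ih (Or.inl b)
    simp [Adm, In, ent, w, th_inv h1 h2 hv, th_inv h1 h2 (Or.inl b), h1 v b, i1, i2, i3, i4]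

lemma F_inv (h1 : Ag a ζ ζ') (e : List ℕ) {B : Set (List ℕ)} (hB : a ∈ B) {v : List ℕ}
    (hv : Nb a v) : F ζ e B v = F ζ' e B v := by
  refine iSup_congr fun n => ?_
  induction n generalizing v with
  | zero => rfl
  | succ n ih =>
    rcases hv with hv | rfl
    · simp only [h, Av]
      rw [h1 v hv, sum_congr rfl fun i _ => ih (nb_cons hv i),
        ih (v := v.tail) (Or.inl fun h => hv (h.trans (List.tail_suffix v)))]
    · simp [h, ι, hB]

lemma R_inv (h1 : Ag a ζ ζ') (h2 : θ q (sh a ζ) = θ q (sh a ζ')) (k : ℕ) {e : List ℕ}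
    {A : Set (List ℕ)} (ha : a ∈ insert e A) : R q lam ζ k e A = R q lam ζ' k e A := by
  induction k generalizing e A with
  | zero => rfl
  | succ k ih =>
    refine tsum_congr fun u => ?_
    by_cases hu : a <:+ u
    · rw [ι_neg fun h => h.2 a ha hu, ι_neg fun h => h.2 a ha hu, zero_mul, zero_mul]
    · obtain ⟨i1, -, i3, -⟩ := all_inv h1 h2 (Or.inl hu)
      rw [i1, i3, ih (Set.mem_insert_of_mem _ ha), F_inv h1 e ha (Or.inl hu)]

end inv

variable {q}

lemma In_th {ζ : Env} {l : List ℕ} (h : In q ζ l) : th q ζ l = 0 := by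
  cases l with
  | nil => exact h
  | cons i l => exact h.2.2

lemma In_root {ζ : Env} {l : List ℕ} (h : In q ζ l) : θ q ζ = 0 := by
  induction l with
  | nil => simpa [In, th] using h
  | cons i l ih => exact ih h.1

lemma κ_le (p : Measure ℕ) [IsProbabilityMeasure p] {ρ s : ℝ≥0∞} (hq : q ≠ 0) (h0 : ρ ≠ 0)
    (h1 : ρ ≤ 1) (hu : ∫⁻ ζ, ρ ^ θ q ζ ∂GW p ≤ s) : ∫⁻ ζ, κ q ζ ∂GW p ≤
      (1 - ∫⁻ z, z * (ρ⁻¹ ^ (z + 1) * s ^ (z - 1)) ∂p)⁻¹ * GW p {ζ | θ q ζ = 0} := by
  have m0 : Measurable fun ζ => θ q ζ = 0 := by simpa [th] using th0_m q []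
  have e0 : ∫⁻ ζ, ι (θ q ζ = 0) ∂GW p = GW p {ζ | θ q ζ = 0} := by
    rw [← lintegral_indicator_one (measurableSet_setOfPred.2 m0)]; rfl
  unfold κ
  rw [lintegral_tsum fun l => by fun_prop]
  refine (tsum_list (c := fun i => ∫⁻ z, ι (i < z) * (ρ⁻¹ ^ (z + 1) * s ^ (z - 1)) ∂p)
    fun i l => ?_).trans (le_of_eq ?_)
  swap
  · rw [← lintegral_tsum fun _ => Measurable.of_discrete.aemeasurable]
    simp only [ENNReal.tsum_mul_right, ι_sum, In, th, sh_nil, e0]
  refine le_trans (lintegral_mono fun ζ => ?_) (cond p (q := q) l (f := fun ζ => ι (In q ζ l))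
    (g := fun ξ => ι (θ q ξ = 0 ∧ i < ξ [] ∧ th q ξ [i] = 0)) (by fun_prop)
    (ι_m.comp (m0.and ((lt_m _ _).and (th0_m q _))))
    (fun ζ ζ' a b => by rw [(all_inv a b (Or.inr rfl)).2.1]) (fun ξ h => ι_neg fun h' => h h'.1) ?_)
  · by_cases hh : In q ζ (i :: l)
    · rw [ι_pos hh, ι_pos hh.1, ι_pos ⟨In_th hh.1, by simpa using hh.2.1,
        by simpa [th, sh_sh] using hh.2.2⟩, one_mul]
    · simp [ι_neg hh]
  let g : ℕ → Env → ℝ≥0∞ := fun j ξ => if j = i then ι (θ q ξ = 0) else ρ ^ θ q ξ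
  have mg : ∀ j, Measurable (g j) := fun j => by
    by_cases hj : j = i <;> simp only [g, hj, if_true, if_false]
    · exact ι_m.comp m0
    · exact (Measurable.of_discrete (f := fun k => ρ ^ k)).comp (θ_m q)
  calc _ ≤ ∫⁻ ξ, (ι (i < ξ []) * ρ⁻¹ ^ (ξ [] + 1)) * ∏ j ∈ range (ξ []), g j (sh [j] ξ) ∂GW p := by
        refine lintegral_mono fun ξ => ?_
        rw [← mul_one (ι _)]
        refine ι_mul_le fun ⟨a, b, c⟩ => ?_
        rw [ι_pos b, one_mul, prod_congr rfl (g := fun j => ρ ^ θ q (sh [j] ξ)) fun j _ => by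
          by_cases hj : j = i
          · subst hj; simp [g, ι, show θ q (sh [j] ξ) = 0 from c]
          · simp [g, hj], prod_pow_eq_pow_sum]
        refine le_trans (le_of_eq ?_) (pow_sub_le h0 h1 _ _)
        rw [θ_eq] at a
        rw [show ∑ j ∈ range (ξ []), θ q (sh [j] ξ) - (ξ [] + 1) = 0 by omega, pow_zero]
    _ ≤ _ := by
        rw [prod_ind' p (fun z => ι (i < z) * ρ⁻¹ ^ (z + 1)) range mg,
          ← lintegral_mul_const _ Measurable.of_discrete]
        refine lintegral_mono fun z => ?_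
        by_cases hz : i < z
        · rw [← prod_erase_mul _ _ (mem_range.2 hz), mul_assoc, mul_assoc, mul_assoc]
          gcongr
          · refine (prod_le_pow_card _ _ s fun j hj => ?_).trans (by simp [hz])
            simpa [g, ne_of_mem_erase hj] using hu
          · simp [g, e0]
        · simp [ι_neg hz]

end Pool.Agent.H41.GWF
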