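import Pool.Agent.H41.GWF2

set_option autoImplicit false

namespace Pool.Agent.H41.GWF

open MeasureTheory ProbabilityTheory Finset Filter
open scoped ENNReal NNReal Topology Classical

variable {q : ℕ} {ζ : Env}

lemma ent_suf (u : List ℕ) : ent q ζ u <:+ u := by
  induction u with
  | nil => exact List.suffix_rfl
  | cons i v ih =>
    rw [ent]; split_ifs
    exacts [ih.trans (List.suffix_cons _ _), List.suffix_rfl]

lemma ent_cons {i : ℕ} {v : List ℕ} (h : ent q ζ (i :: v) = i :: v) :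
    ¬ (th q ζ (i :: v) = 0 ∧ th q ζ v = 0) := fun h1 => by
  rw [ent, if_pos h1] at h
  have := (ent_suf (q := q) (ζ := ζ) v).length_le
  simp [h] at this

lemma ent_max {y u : List ℕ} (h : y <:+ u) (hy : ent q ζ y = y) : y <:+ ent q ζ u := by
  induction u with
  | nil => exact h
  | cons i v ih =>
    rcases List.suffix_cons_iff.1 h with rfl | h1
    · rw [hy]
    · rw [ent]; split_ifs
      exacts [ih h1, h]

lemma cell (hq : q ≠ 0) {u : List ℕ} (hu : Adm ζ u) : ∃ l, u = l ++ ent q ζ u ∧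
    (l = [] ∨ In q (sh (ent q ζ u) ζ) l) ∧ ent q ζ (ent q ζ u) = ent q ζ u ∧
    w q ζ u = w q ζ (ent q ζ u) := by
  induction u with
  | nil => exact ⟨[], rfl, Or.inl rfl, rfl, rfl⟩
  | cons i v ih =>
    by_cases h : th q ζ (i :: v) = 0 ∧ th q ζ v = 0
    · obtain ⟨l, h1, h2, h3, h4⟩ := ih hu.1
      have e : ent q ζ (i :: v) = ent q ζ v := if_pos h
      rw [e]
      refine ⟨i :: l, by rw [List.cons_append, ← h1], Or.inr ⟨?_, ?_, ?_⟩, h3, ?_⟩
      · refine h2.elim (fun h2 => ?_) id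
        subst h2
        rw [← show v = ent q ζ v from h1]
        simpa [In, th] using h.2
      · simpa [sh, ← h1] using hu.2
      · simpa [th, sh_sh, ← h1] using h.1
      · rw [w, h.1, h4]; simp [hq]
    · have e : ent q ζ (i :: v) = i :: v := if_neg h
      exact ⟨[], by simp [e], Or.inl rfl, by rw [e, e], by rw [e]⟩

lemma cells (hq : q ≠ 0) (G : List ℕ → ℝ≥0∞) :
    ∑' u, ι (Adm ζ u) * (G (ent q ζ u) * w q ζ u) ≤
      ∑' e, (ι (ent q ζ e = e) * (G e * w q ζ e)) * (1 + κ q (sh e ζ)) := by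
  have : ∀ e, 1 + κ q (sh e ζ) = ∑' l, (ι (l = []) + ι (In q (sh e ζ) l)) := fun e => by
    rw [ENNReal.tsum_add, tsum_eq_single [] fun l hl => ι_neg hl, ι_pos rfl]; rfl
  simp only [this, ← ENNReal.tsum_mul_left]
  rw [← ENNReal.tsum_prod]
  refine le_trans (ENNReal.tsum_le_tsum fun u => ι_mul_le fun hu => ?_)
    (ENNReal.tsum_comp_le_tsum_of_injective (f := fun u : List ℕ =>
      (ent q ζ u, u.take (u.length - (ent q ζ u).length))) (fun u v h => ?_) _)
  · obtain ⟨l, h1, h2, h3, h4⟩ := cell hq hu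
    have : u.take (u.length - (ent q ζ u).length) = l := by
      generalize ent q ζ u = e at h1; subst h1; simp
    simp only [this, ι_pos h3, one_mul, h4]
    refine le_mul_of_one_le_right' (h2.elim (fun h => ?_) fun h => ?_) <;> rw [ι_pos h]
    exacts [le_self_add, le_add_self]
  · obtain ⟨a, b⟩ := Prod.mk.inj h
    have k : ∀ u, u.take (u.length - (ent q ζ u).length) ++ ent q ζ u = u := fun u => by
      obtain ⟨l, h⟩ := ent_suf (q := q) (ζ := ζ) u
      generalize ent q ζ u = e at h; subst h; simp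
    rw [← k u, ← k v, b, a]

lemma scal (hq : q ≠ 0) (z t : ℕ) (τ : ℕ → ℕ) (hτ : ∀ i, τ i ≤ q)
    (h : t = min q (∑ i ∈ range z, τ i - (z + 1))) :
    ∑ i ∈ range z, ((q ^ 2 + q : ℝ) + if τ i = 0 ∧ t = 0 then 0 else 1) * (q ^ 2 / (q ^ 2 + τ i)) +
      (q ^ 2 + q : ℝ) * (t / q ^ 2 : ℝ) ≤ (z : ℝ) * (q ^ 2 + q : ℝ) := by
  have q1 : (1 : ℝ) ≤ q := by exact_mod_cast Nat.one_le_iff_ne_zero.2 hq
  by_cases ht : t = 0
  · simp only [ht, and_true, Nat.cast_zero, zero_div, mul_zero, add_zero]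
    refine (sum_le_card_nsmul _ _ (q ^ 2 + q : ℝ) fun i _ => ?_).trans (by simp [mul_add])
    rw [← mul_div_assoc, div_le_iff₀ (by positivity)]
    split_ifs with h0
    · simp [h0]
    · have : (1 : ℝ) ≤ τ i := by exact_mod_cast Nat.one_le_iff_ne_zero.2 h0
      nlinarith
  · have h1 : ((t + z + 1 : ℕ) : ℝ) ≤ (∑ i ∈ range z, τ i : ℕ) := by exact_mod_cast (by omega)
    have h2 : (t : ℝ) ≤ q := by exact_mod_cast (by omega)
    have h3 : ∑ i ∈ range z, ((q ^ 2 + q : ℝ) + if τ i = 0 ∧ t = 0 then 0 else 1) *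
        (q ^ 2 / (q ^ 2 + τ i)) ≤ ∑ i ∈ range z, ((q ^ 2 + q + 1 : ℝ) - τ i) := sum_le_sum fun i _ => by
      have : (τ i : ℝ) ≤ q := by exact_mod_cast hτ i
      have : (0 : ℝ) ≤ τ i := by positivity
      rw [if_neg fun h => ht h.2, ← mul_div_assoc, div_le_iff₀ (by positivity)]
      nlinarith
    have h4 : (q ^ 2 + q : ℝ) * (t / q ^ 2) ≤ t + 1 := by
      rw [← mul_div_assoc, div_le_iff₀ (by positivity)]; nlinarith
    rw [sum_sub_distrib, sum_const, card_range, nsmul_eq_mul] at h3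
    push_cast at h1
    linarith

lemma pot (hq : q ≠ 0) (u : List ℕ) {g : List ℕ → ℝ≥0∞}
    (h1 : ∀ i, g (i :: u) ≤ ((q ^ 2 + q) + ι (ent q ζ (i :: u) = i :: u)) * w q ζ (i :: u))
    (h2 : g u.tail ≤ (q ^ 2 + q) * w q ζ u.tail) : Av ζ g u ≤ (q ^ 2 + q) * w q ζ u := by
  have q1 : (0 : ℝ) < q := by exact_mod_cast Nat.pos_of_ne_zero hq
  have c : (q ^ 2 + q : ℝ≥0∞) = ENNReal.ofReal (q ^ 2 + q) := by
    rw [ENNReal.ofReal_add (by positivity) q1.le, ENNReal.ofReal_pow q1.le, ENNReal.ofReal_natCast]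
  have s := ENNReal.ofReal_le_ofReal (scal hq (ζ u) (th q ζ u) (fun i => th q ζ (i :: u))
    (fun i => by rw [th_eq]; exact min_le_left _ _) (th_eq q ζ u))
  rw [ENNReal.ofReal_add (by positivity) (by positivity), ENNReal.ofReal_sum_of_nonneg
    fun _ _ => by positivity, ENNReal.ofReal_mul (by positivity), ENNReal.ofReal_mul (by positivity),
    ← c, ENNReal.ofReal_natCast] at s
  have a : ∑ i ∈ range (ζ u), g (i :: u) ≤ (∑ i ∈ range (ζ u), ENNReal.ofReal (((q ^ 2 + q : ℝ) +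
      if th q ζ (i :: u) = 0 ∧ th q ζ u = 0 then 0 else 1) * (q ^ 2 / (q ^ 2 + th q ζ (i :: u))))) *
      w q ζ u := by
    rw [sum_mul]
    refine sum_le_sum fun i _ => (h1 i).trans ?_
    rw [w, mul_comm (w q ζ u), ← mul_assoc, ENNReal.ofReal_mul (by positivity),
      ENNReal.ofReal_add (by positivity) (by positivity), ← c]
    gcongr
    rw [← mul_one (ι _)]
    exact ι_mul_le fun h => by simp [ent_cons h]
  have b : ι (u ≠ []) * g u.tail ≤ (q ^ 2 + q) * ENNReal.ofReal (th q ζ u / q ^ 2) * w q ζ u +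
      ι (u ≠ []) * ((q ^ 2 + q) * w q ζ u) := by
    cases u with
    | nil => simp [ι]
    | cons i v =>
      rw [ι_pos (by simp), one_mul, one_mul, mul_assoc, ← mul_add, ← add_one_mul, w,
        mul_left_comm _ (w q ζ v), ← ENNReal.ofReal_one, ← ENNReal.ofReal_add (by positivity) zero_le_one,
        ← ENNReal.ofReal_mul (by positivity), show ((th q ζ (i :: v) : ℝ) / q ^ 2 + 1) *
        (q ^ 2 / (q ^ 2 + th q ζ (i :: v))) = 1 by field_simp; ring]
      simpa [mul_comm] using h2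
  refine ENNReal.div_le_of_le_mul' ((add_le_add a b).trans ?_)
  rw [← add_assoc, ← add_mul, add_mul (ζ u : ℝ≥0∞), ← mul_assoc (ζ u : ℝ≥0∞)]
  gcongr

lemma F_root (hq : q ≠ 0) (u : List ℕ) : F ζ [] {[]} u ≤ (q ^ 2 + q) * w q ζ u := by
  refine iSup_le fun n => ?_
  induction n generalizing u with
  | zero => exact zero_le
  | succ n ih =>
    by_cases hu : u = []
    · subst hu
      have : (1 : ℝ≥0∞) ≤ q := by exact_mod_cast Nat.one_le_iff_ne_zero.2 hq
      simpa [h, ι, w] using this.trans le_add_self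
    · simp only [h, ι_neg hu, zero_add]
      exact ι_mul_le fun _ => pot hq u (fun i => (ih _).trans (mul_le_mul' le_self_add le_rfl)) (ih _)

lemma F_ent (hq : q ≠ 0) (u : List ℕ) :
    ∑' e, (ι (ent q ζ e = e ∧ ¬ e <:+ u) * w q ζ e) * F ζ e {e} u ≤ (q ^ 2 + q) * w q ζ u := by
  simp only [F, ENNReal.mul_iSup]
  rw [← lintegral_count, lintegral_iSup (f := fun n e => ι (ent q ζ e = e ∧ ¬e <:+ u) * w q ζ e *
    h ζ e {e} n u) (fun _ => Measurable.of_discrete)
    fun a b hab e => mul_le_mul' le_rfl (h_mono ζ e {e} u hab)]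
  refine iSup_le fun n => ?_
  rw [lintegral_count]
  induction n generalizing u with
  | zero => simp [h]
  | succ n ih =>
    calc _ ≤ ∑' e, (ι (ent q ζ e = e ∧ ¬ e <:+ u) * w q ζ e) * Av ζ (h ζ e {e} n) u := by
          refine ENNReal.tsum_le_tsum fun e => ?_
          by_cases he : u = e
          · simp [ι, he]
          · simp only [h, ι_neg he, zero_add]
            exact mul_le_mul' le_rfl (ι_mul_le fun _ => le_rfl)
      _ ≤ _ := by
          rw [Av_tsum]
          refine pot hq u (fun i => ?_) (le_trans (ENNReal.tsum_le_tsum fun e => ?_) (ih _))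
          · rw [ENNReal.tsum_eq_add_tsum_ite (i :: u), add_mul, add_comm]
            refine add_le_add (le_trans (ENNReal.tsum_le_tsum fun e => ?_) (ih (i :: u))) ?_
            · split_ifs with he
              · exact zero_le
              · exact mul_le_mul' (mul_le_mul' (ι_mono fun h => ⟨h.1, fun h1 =>
                  (List.suffix_cons_iff.1 h1).elim he h.2⟩) le_rfl) le_rfl
            · refine mul_le_of_le_one_right' ?_ |>.trans (mul_le_mul' (ι_mono And.left) le_rfl)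
              cases n <;> simp [h, ι]
          · exact mul_le_mul' (mul_le_mul' (ι_mono fun h => ⟨h.1, fun h1 =>
              h.2 (h1.trans (List.tail_suffix u))⟩) le_rfl) le_rfl

lemma step1 (hq : q ≠ 0) (lam : ℝ≥0∞) (k : ℕ) :
    ∑' e, ι (ent q ζ e = e) * (R q lam ζ (k + 1) e ∅ * w q ζ e) ≤ (q ^ 2 + q) * Φ q lam k ζ := by
  simp only [R, Φ, ← ENNReal.tsum_mul_left, ← ENNReal.tsum_mul_right]
  rw [ENNReal.tsum_comm]
  refine ENNReal.tsum_le_tsum fun u => ?_
  calc _ ≤ ∑' e, ι (Adm ζ u) * (R q lam ζ k (ent q ζ u) ∅ * (lm lam u *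
        ((ι (ent q ζ e = e ∧ ¬ e <:+ u) * w q ζ e) * F ζ e {e} u))) := by
        refine ENNReal.tsum_le_tsum fun e => ι_mul_le fun h1 => ?_
        rw [mul_assoc]
        refine ι_mul_le fun h2 => ?_
        rw [ι_pos h2.1, ι_pos ⟨h1, h2.2 e (by simp)⟩, insert_empty_eq, mul_assoc, one_mul, one_mul,
          mul_assoc, mul_comm (w q ζ e)]
        exact mul_le_mul' (R_anti q lam ζ k _ (Set.empty_subset _)) le_rfl
    _ ≤ _ := by
        simp only [ENNReal.tsum_mul_left, mul_left_comm (q ^ 2 + q : ℝ≥0∞)]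
        gcongr
        exact F_ent hq u

theorem annealed (p : Measure ℕ) [IsProbabilityMeasure p] (hp : 1 < ∫⁻ k, (k : ℝ≥0∞) ∂p) :
    ∃ q ≠ 0, GW p {ζ | θ q ζ = 0} < 1 ∧ ∃ l0 : ℝ≥0, 0 < l0 ∧ ∀ lam : ℝ≥0, lam ≤ l0 →
      ∀ᵐ ζ ∂GW p, ∑' k, Φ q lam k ζ ≠ ∞ := by
  obtain ⟨ρ, s, q, h0, h1, hs, h2, h3⟩ := params p hp
  have hq : q ≠ 0 := by
    rintro rfl
    exact absurd (le_self_add.trans h2) (by simpa using hs)
  have hu := u_le p h0 h1 h2
  have hκ := κ_le p hq h0 h1 hu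
  set K := (1 - ∫⁻ z, z * (ρ⁻¹ ^ (z + 1) * s ^ (z - 1)) ∂p)⁻¹
  have Kt : K ≠ ∞ := ENNReal.inv_ne_top.2 (tsub_pos_of_lt h3).ne'
  set D := (1 + K) * (q ^ 2 + q) with hD
  have Dt : D ≠ ∞ := by finiteness
  refine ⟨q, hq, lt_of_le_of_lt (le_trans ?_ hu) hs, (2 * (D.toNNReal + 1))⁻¹, by positivity,
    fun lam hl => ?_⟩
  · rw [← lintegral_indicator_one (s := {ζ | θ q ζ = 0}) (θ_m q (MeasurableSet.singleton 0))]
    exact lintegral_mono fun ζ => Set.indicator_apply_le' (fun h => by simp [show θ q ζ = 0 from h])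
      fun _ => zero_le
  have l1 : (lam : ℝ≥0∞) * (D + 1) ≤ 2⁻¹ := by
    rw [inv_eq_one_div, le_div_iff₀ (by positivity)] at hl
    rw [ENNReal.le_inv_iff_mul_le, ← ENNReal.coe_toNNReal Dt, mul_assoc, mul_comm _ 2]
    exact_mod_cast hl
  have l2 : (lam : ℝ≥0∞) ≤ 1 := (le_mul_of_one_le_right' le_add_self).trans (l1.trans (by simp))
  have st : ∀ k, ∫⁻ ζ, Φ q lam (k + 1) ζ ∂GW p ≤ 2⁻¹ * ∫⁻ ζ, Φ q lam k ζ ∂GW p := fun k => by
    let g : List ℕ → Env → ℝ≥0∞ := fun e ζ => ι (ent q ζ e = e) * (R q lam ζ (k + 1) e ∅ * w q ζ e)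
    have mg : ∀ e, Measurable (g e) := fun e => ((Measurable.of_discrete
      (f := fun y => ι (y = e))).comp (ent_m q e)).mul ((R_m _ _ _ _ _).mul (w_m _ _))
    calc _ ≤ ∫⁻ ζ, lam * ∑' e, (g e ζ + g e ζ * κ q (sh e ζ)) ∂GW p := lintegral_mono fun ζ => by
          simp only [← mul_one_add]
          refine le_trans ?_ (mul_le_mul' le_rfl (cells hq fun e => R q lam ζ (k + 1) e ∅))
          rw [← ENNReal.tsum_mul_left]
          refine ENNReal.tsum_le_tsum fun u => ?_
          cases u with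
          | nil => simp [R, ent, ι]
          | cons i v => simp [lm, mul_left_comm]
      _ ≤ lam * ∑' e, (1 + K) * ∫⁻ ζ, g e ζ ∂GW p := by
          rw [lintegral_const_mul _ (by fun_prop), lintegral_tsum fun e => by fun_prop]
          refine mul_le_mul' le_rfl (ENNReal.tsum_le_tsum fun e => ?_)
          rw [lintegral_add_left (mg e), one_add_mul]
          refine add_le_add le_rfl (cond p e (mg e) (κ_m q) (fun ζ ζ' a b => ?_) (fun ξ h => ?_) hκ)
          · obtain ⟨-, -, i3, i4⟩ := all_inv a b (Or.inr rfl)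
            simp only [g, i3, i4, R_inv _ a b (k + 1) (Set.mem_insert _ _)]
          · exact ENNReal.tsum_eq_zero.2 fun l => ι_neg fun h' => h (In_root h')
      _ ≤ lam * D * ∫⁻ ζ, Φ q lam k ζ ∂GW p := by
          rw [ENNReal.tsum_mul_left, ← lintegral_tsum fun e => (mg e).aemeasurable, hD, mul_assoc,
            mul_assoc, ← lintegral_const_mul _ (Φ_m q lam k)]
          gcongr with ζ
          exact step1 hq lam k
      _ ≤ _ := mul_le_mul' ((mul_le_mul' le_rfl le_self_add).trans l1) le_rfl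
  have s0 : ∫⁻ ζ, Φ q lam 0 ζ ∂GW p ≤ 1 + K := by
    calc _ ≤ ∫⁻ ζ, 1 + κ q ζ ∂GW p := lintegral_mono fun ζ => by
          refine le_trans (ENNReal.tsum_le_tsum fun u => ?_)
            ((cells (ζ := ζ) hq fun e => ι (e = [])).trans ?_)
          · refine mul_le_mul' le_rfl (mul_le_mul' le_rfl (mul_le_of_le_one_left' ?_))
            unfold lm; split_ifs <;> simp [l2]
          · rw [tsum_eq_single [] fun e he => by simp [ι, he]]; simp [ι, ent, w]
      _ ≤ _ := by
          rw [lintegral_add_left measurable_const]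
          exact add_le_add (by simp) (hκ.trans (mul_le_of_le_one_right' prob_le_one))
  have sk : ∀ k, ∫⁻ ζ, Φ q lam k ζ ∂GW p ≤ 2⁻¹ ^ k * (1 + K) := fun k => by
    induction k with
    | zero => simpa using s0
    | succ k ih => rw [pow_succ', mul_assoc]; exact (st k).trans (mul_le_mul' le_rfl ih)
  refine (ae_lt_top (Measurable.tsum fun k => Φ_m q lam k) ?_).mono fun _ h => h.ne
  rw [lintegral_tsum fun k => (Φ_m q lam k).aemeasurable]
  refine ne_top_of_le_ne_top ?_ (ENNReal.tsum_le_tsum sk)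
  rw [ENNReal.tsum_mul_right, ENNReal.tsum_geometric]
  simp only [ENNReal.one_sub_inv_two, inv_inv]
  finiteness

end Pool.Agent.H41.GWF
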