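import Pool.Agent.H41.GWF3

set_option autoImplicit false

namespace Pool.Agent.H41.GWF

open MeasureTheory ProbabilityTheory Finset Filter Pool.Agent.H41.Frog
open scoped ENNReal NNReal Topology Classical

variable {ζ : Env}

instance : DiscreteMeasurableSpace (Vx ζ) := ⟨fun _ => trivial⟩

noncomputable def N (x : Vx ζ) : Finset (Vx ζ) :=
  ((range (ζ x.1)).image (· :: x.1) ∪ if x.1 = [] then ∅ else {x.1.tail}).subtype _

lemma N_eq (x : Vx ζ) : (N x : Set (Vx ζ)) = (tree ζ).neighborSet x := by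
  ext y
  obtain ⟨x, hx⟩ := x
  obtain ⟨y, hy⟩ := y
  simp only [N, mem_coe, mem_subtype, mem_union, mem_image, mem_range, tree,
    SimpleGraph.mem_neighborSet]
  refine or_congr ⟨fun ⟨i, _, h⟩ => ⟨i, h.symm⟩, fun ⟨i, h⟩ => ⟨i, by subst h; exact hy.2, h.symm⟩⟩ ?_
  cases x <;> simp [eq_comm]

lemma sumN (x : Vx ζ) (g : List ℕ → ℝ≥0∞) :
    ∑ y ∈ N x, g y.1 = ∑ i ∈ range (ζ x.1), g (i :: x.1) + ι (x.1 ≠ []) * g x.1.tail := by
  obtain ⟨x, hx⟩ := x
  rw [N, sum_subtype_of_mem, sum_union, sum_image fun i _ j _ h => (List.cons.inj h).1]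
  · cases x <;> simp [ι]
  · cases x with
    | nil => simp
    | cons j x =>
      simp only [reduceCtorEq, if_false, List.tail_cons, disjoint_singleton_right, mem_image, not_exists]
      exact fun i h => by have := congrArg List.length h.2; simp at this; omega
  · intro y hy
    rcases mem_union.1 hy with h | h
    · obtain ⟨i, h1, rfl⟩ := mem_image.1 h
      exact ⟨hx, mem_range.1 h1⟩
    · cases x with
      | nil => simp at h
      | cons j x => simp at h; exact h ▸ hx.1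

lemma cardN (x : Vx ζ) : ((N x).card : ℝ≥0∞) = ζ x.1 + ι (x.1 ≠ []) := by
  simpa using sumN x fun _ => 1

lemma locfin (h0 : ζ [] ≠ 0) (v : Vx ζ) :
    ((tree ζ).neighborSet v).Finite ∧ ((tree ζ).neighborSet v).Nonempty := by
  refine ⟨N_eq v ▸ (N v).finite_toSet, ?_⟩
  obtain ⟨_ | ⟨i, l⟩, hl⟩ := v
  · exact ⟨⟨[0], trivial, Nat.pos_of_ne_zero h0⟩, Or.inl ⟨0, rfl⟩⟩
  · exact ⟨⟨l, hl.1⟩, Or.inr ⟨i, rfl⟩⟩

def W (e : List ℕ) (B : Set (List ℕ)) (n : ℕ) : Set (ℕ → Vx ζ) :=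
  {γ | ∃ k < n, (γ k).1 = e ∧ ∀ m < k, (γ m).1 ∉ B}

lemma W_m (e : List ℕ) (B : Set (List ℕ)) (n : ℕ) : MeasurableSet (W (ζ := ζ) e B n) := by
  have m : ∀ (P : Vx ζ → Prop) k, Measurable fun γ : ℕ → Vx ζ => P (γ k) := fun P k =>
    (Measurable.of_discrete (f := P)).comp (measurable_pi_apply k)
  exact measurableSet_setOfPred.2 (Measurable.exists fun k => measurable_const.and
    ((m (·.1 = e) k).and (Measurable.forall fun j => measurable_const.imp (m (·.1 ∉ B) j))))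

lemma W_le (h0 : ζ [] ≠ 0) (e : List ℕ) (B : Set (List ℕ)) (n : ℕ) (x : Vx ζ) :
    walkLaw (tree ζ) {η | walk η x ∈ W e B n} ≤ h ζ e B n x.1 := by
  have := walk_prob (locfin h0)
  induction n generalizing x with
  | zero => simp [W]
  | succ n ih =>
    by_cases h1 : x.1 = e
    · exact prob_le_one.trans (by simp [h, ι, h1])
    by_cases h2 : x.1 ∈ B
    · rw [show {η | walk η x ∈ W e B (n + 1)} = ∅ from Set.eq_empty_of_forall_notMem
        fun η ⟨k, _, a, b⟩ => by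
          cases k with
          | zero => exact h1 a
          | succ k => exact b 0 (by omega) h2]
      simp
    have m := congrArg ENNReal.ofReal (markov (locfin h0) x (N x) (N_eq x) (W_m e B (n + 1)))
    have c : (0 : ℝ) < (N x).card := by
      exact_mod_cast card_pos.2 (by have := (locfin h0 x).2; rwa [← N_eq] at this)
    unfold Pw at m
    rw [ENNReal.ofReal_div_of_pos c, ENNReal.ofReal_sum_of_nonneg fun _ _ => measureReal_nonneg,
      ENNReal.ofReal_natCast, cardN] at m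
    simp only [ofReal_measureReal (measure_ne_top (walkLaw (tree ζ)) _)] at m
    simp only [m, h, ι_neg h1, ι_pos h2, zero_add, one_mul, Av, ← sumN]
    gcongr with y
    refine le_trans (measure_mono fun η ⟨k, a, b, c⟩ => ?_) (ih y)
    cases k with
    | zero => exact absurd b h1
    | succ k => exact ⟨k, by omega, b, fun m hm => c (m + 1) (by omega)⟩

abbrev Y (ζ : Env) := ℕ × (ℕ → ℕ → Vx ζ → Vx ζ)

instance : Inhabited (Y ζ) := ⟨(0, fun _ _ v => v)⟩

def Cd (u : Vx ζ) (j n : ℕ) : Prop := if u.1 = [] then j = 0 else j < n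

def Ht (u : Vx ζ) (j : ℕ) (e : List ℕ) (B : Set (List ℕ)) : Set (Y ζ) :=
  {n | Cd u j n} ×ˢ ((fun a => a j) ⁻¹' ⋃ n, {η | walk η u ∈ W e B n})

lemma Ht_m (u : Vx ζ) (j : ℕ) (e : List ℕ) (B : Set (List ℕ)) : MeasurableSet (Ht u j e B) :=
  MeasurableSet.of_discrete.prod (measurable_pi_apply j
    (MeasurableSet.iUnion fun n => meas_walk u (W_m e B n)))

lemma poi (lam : ℝ≥0) : ∫⁻ n, (n : ℕ) ∂poissonMeasure lam = lam := by
  have h1 : ∑' n, poissonMeasure lam {n} = 1 := by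
    simpa using (lintegral_countable' (μ := poissonMeasure lam) fun _ => 1).symm
  rw [lintegral_countable', tsum_eq_zero_add' ENNReal.summable, ← mul_one (lam : ℝ≥0∞), ← h1,
    ← ENNReal.tsum_mul_left, Nat.cast_zero, zero_mul, zero_add]
  refine tsum_congr fun n => ?_
  rw [poissonMeasure_singleton, poissonMeasure_singleton, ← ENNReal.ofReal_natCast,
    ← ENNReal.ofReal_coe_nnreal, ← ENNReal.ofReal_mul (by positivity),
    ← ENNReal.ofReal_mul (by positivity), Nat.factorial_succ]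
  congr 1
  push_cast
  field_simp
  ring

variable (q : ℕ)

def E : ℕ → List ℕ → Set (List ℕ) → Set (Vx ζ → Y ζ)
  | 0 => fun e _ => {_ω | e = []}
  | k + 1 => fun e A => ⋃ u, {_ω | ∀ a ∈ insert e A, ¬ a <:+ u.1} ∩
      ⋃ j, E k (ent q ζ u.1) (insert e A) ∩ {ω | ω u ∈ Ht u j e (insert e A)}

lemma E_m (k : ℕ) (e : List ℕ) (A : Set (List ℕ)) : MeasurableSet (E (ζ := ζ) q k e A) := by
  induction k generalizing e A with
  | zero => exact MeasurableSet.const _
  | succ k ih =>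
    exact MeasurableSet.iUnion fun u => (MeasurableSet.const _).inter (MeasurableSet.iUnion fun j =>
      (ih _ _).inter (measurable_pi_apply u (Ht_m u j _ _)))

lemma E_dep (k : ℕ) (e : List ℕ) (A : Set (List ℕ)) :
    Dep {u | ∀ a ∈ insert e A, ¬ a <:+ u.1} (E (ζ := ζ) q k e A) := by
  induction k generalizing e A with
  | zero => exact fun _ _ _ h => h
  | succ k ih =>
    intro ω ω' hh hω
    simp only [E, Set.mem_iUnion, Set.mem_inter_iff, Set.mem_ofPred_eq] at hω ⊢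
    obtain ⟨u, h1, j, h2, h3⟩ := hω
    exact ⟨u, h1, j, ih _ _ _ _ (fun v hv => hh v fun a ha => hv a (Set.mem_insert_of_mem _ ha)) h2,
      hh u h1 ▸ h3⟩

variable {q}

lemma joint (h0 : ζ [] ≠ 0) (lam : ℝ≥0) (k : ℕ) (u : Vx ζ) (e : List ℕ) (A B : Set (List ℕ)) :
    ∑' j, frogLaw (tree ζ) lam (E q k (ent q ζ u.1) A ∩ {ω | ω u ∈ Ht u j e B}) ≤
      frogLaw (tree ζ) lam (E q k (ent q ζ u.1) A) * (lm lam u.1 * F ζ e B u.1) := by
  have := walk_prob (locfin h0)
  have c : ∑' j, poissonMeasure lam {n | Cd u j n} ≤ lm lam u.1 := by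
    unfold Cd lm
    split_ifs
    · rw [tsum_eq_single 0 fun j hj => by simp [hj]]; simp
    · rw [← poi lam]
      simp only [← ι_sum]
      rw [lintegral_tsum fun _ => Measurable.of_discrete.aemeasurable]
      exact ENNReal.tsum_le_tsum fun j => by
        rw [← lintegral_indicator_one MeasurableSet.of_discrete]; rfl
  refine le_trans (ENNReal.tsum_le_tsum fun j => ?_) ((ENNReal.tsum_mul_left).le.trans
    (mul_le_mul' le_rfl ((ENNReal.tsum_mul_right).le.trans (mul_le_mul' c le_rfl))))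
  rw [frogLaw, dep_inter' _ (B := {ω | ω u ∈ Ht u j e B}) (E_m q k _ _)
    (measurable_pi_apply u (Ht_m u j _ _)) (E_dep q k _ _) fun ω ω' hh hω => by
      rwa [Set.mem_ofPred_eq, ← hh u fun h => h _ (Set.mem_insert _ _) (ent_suf _)]]
  refine mul_le_mul' le_rfl (le_trans (le_of_eq ((measurePreserving_eval_infinitePi _
    u).measure_preimage (Ht_m u j _ _).nullMeasurableSet)) ?_)
  rw [Ht,
    Measure.prod_prod, (measurePreserving_eval_infinitePi _ j).measure_preimage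
      (MeasurableSet.iUnion fun n => meas_walk u (W_m e B n)).nullMeasurableSet,
    Monotone.measure_iUnion (s := fun n => {η | walk η u ∈ W e B n})
      fun a b hab η ⟨k, h1, h2⟩ => ⟨k, h1.trans_le hab, h2⟩]
  exact mul_le_mul' le_rfl (iSup_mono fun n => W_le h0 e B n u)

lemma tsum_Vx (g : List ℕ → ℝ≥0∞) : ∑' u : Vx ζ, g u.1 ≤ ∑' u, ι (Adm ζ u) * g u :=
  le_trans (ENNReal.tsum_le_tsum fun u => by rw [ι_pos u.2, one_mul])
    (ENNReal.tsum_comp_le_tsum_of_injective Subtype.val_injective fun u => ι (Adm ζ u) * g u)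

lemma E_le (h0 : ζ [] ≠ 0) (lam : ℝ≥0) (k : ℕ) (e : List ℕ) (A : Set (List ℕ)) :
    frogLaw (tree ζ) lam (E q k e A) ≤ R q lam ζ k e A := by
  have := walk_prob (locfin h0)
  induction k generalizing e A with
  | zero => by_cases he : e = [] <;> simp [E, R, ι, he, frogLaw]
  | succ k ih =>
    refine (measure_iUnion_le _).trans (le_trans (ENNReal.tsum_le_tsum fun u => ?_) ((tsum_Vx fun u =>
      ι (∀ a ∈ insert e A, ¬ a <:+ u) * (R q lam ζ k (ent q ζ u) (insert e A) *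
        (lm lam u * F ζ e (insert e A) u))).trans (ENNReal.tsum_le_tsum fun u => ι_mul_le fun h1 =>
          mul_le_mul' (ι_mono fun h2 => ⟨h1, h2⟩) le_rfl)))
    by_cases hu : ∀ a ∈ insert e A, ¬ a <:+ u.1
    · rw [ι_pos hu, one_mul]
      exact (measure_mono Set.inter_subset_right).trans ((measure_iUnion_le _).trans
        ((joint h0 lam k u e _ _).trans (mul_le_mul' (ih _ _) le_rfl)))
    · simp only [hu, Set.ofPred_false, Set.empty_inter, measure_empty, zero_le]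

inductive Ch (q : ℕ) (ω : Vx ζ → Y ζ) : ℕ → List ℕ → Prop
  | base : Ch q ω 0 []
  | step {L : ℕ} (u : Vx ζ) (j n : ℕ) : Ch q ω L (ent q ζ u.1) → Cd u j (ω u).1 →
      Ch q ω (L + n + 1) (walk ((ω u).2 j) u n).1

variable {ω : Vx ζ → Y ζ}

lemma anc (hω : ∀ v j n x, (tree ζ).Adj x ((ω v).2 j n x)) {L : ℕ} {e : List ℕ} (h : Ch q ω L e) :
    ∀ y, y <:+ e → ent q ζ y = y → ∃ L' ≤ L, Ch q ω L' y := by
  induction h with
  | base => exact fun y hy _ => ⟨0, le_rfl, List.suffix_nil.1 hy ▸ Ch.base⟩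
  | @step L u j n h1 h2 ih =>
    intro y hy he
    induction n with
    | zero =>
      obtain ⟨L', a, b⟩ := ih y (ent_max hy he) he
      exact ⟨L', by omega, b⟩
    | succ n ih2 =>
      by_cases e : y = (walk ((ω u).2 j) u (n + 1)).1
      · exact ⟨_, le_rfl, e ▸ Ch.step u j _ h1 h2⟩
      obtain ⟨L', a, b⟩ := ih2 (by
        rcases hω u j n (walk ((ω u).2 j) u n) with ⟨i, h⟩ | ⟨i, h⟩
        · rw [walk, h] at hy e
          exact (List.suffix_cons_iff.1 hy).resolve_left e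
        · rw [h]; exact hy.trans (List.suffix_cons _ _))
      exact ⟨L', by omega, b⟩

lemma claimB (hq : q ≠ 0) (hω : ∀ v j n x, (tree ζ).Adj x ((ω v).2 j n x)) (L : ℕ) :
    ∀ e, Ch q ω L e → ent q ζ e = e → ∀ A : Set (List ℕ),
      (∀ a ∈ A, ent q ζ a = a ∧ ∀ L' ≤ L, ¬ Ch q ω L' a) → ∃ k, ω ∈ E q k e A := by
  induction L using Nat.strong_induction_on with
  | _ L ih =>
    intro e h he A hA
    by_cases hm : ∃ L' < L, Ch q ω L' e
    · obtain ⟨L', a, b⟩ := hm
      exact ih L' a e b he A fun x hx => ⟨(hA x hx).1, fun l hl => (hA x hx).2 l (by omega)⟩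
    cases h with
    | base => exact ⟨0, rfl⟩
    | @step L u j n h1 h2 =>
      have hB : ∀ a ∈ insert (walk ((ω u).2 j) u n).1 A, ent q ζ a = a ∧
          ∀ L' ≤ L + n, ¬ Ch q ω L' a := by
        rintro a (rfl | ha)
        · exact ⟨he, fun l hl h => hm ⟨l, by omega, h⟩⟩
        · exact ⟨(hA a ha).1, fun l hl => (hA a ha).2 l (by omega)⟩
      obtain ⟨k, hk⟩ := ih L (by omega) _ h1 (cell hq u.2).choose_spec.2.2.1 _
        fun a ha => ⟨(hB a ha).1, fun l hl => (hB a ha).2 l (by omega)⟩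
      refine ⟨k + 1, Set.mem_iUnion.2 ⟨u, fun a ha h => ?_, Set.mem_iUnion.2 ⟨j, hk, h2,
        Set.mem_iUnion.2 ⟨n + 1, n, by omega, rfl, fun m hm h => ?_⟩⟩⟩⟩
      · obtain ⟨l, h3, h4⟩ := anc hω h1 a (ent_max h (hB a ha).1) (hB a ha).1
        exact (hB a ha).2 l (by omega) h4
      · exact (hB _ h).2 _ (by omega) (Ch.step u j m h1 h2)

lemma claimA (hq : q ≠ 0) (hω : ∀ v j n x, (tree ζ).Adj x ((ω v).2 j n x)) {p : Vx ζ × ℕ}
    (h : Active (root ζ) ω p) : Cd p.1 p.2 (ω p.1).1 ∧ ∃ L, Ch q ω L (ent q ζ p.1.1) := by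
  induction h with
  | root => exact ⟨by simp [Cd, root], 0, Ch.base⟩
  | @wake v i n x j _ h1 h2 h3 ih =>
    obtain ⟨a, L, b⟩ := ih
    obtain ⟨L', -, c⟩ := anc hω (Ch.step v i n b a) _ (h1 ▸ ent_suf _) (cell hq x.2).choose_spec.2.2.1
    have : x.1 ≠ [] := fun h => h2 (Subtype.ext h)
    exact ⟨by simpa [Cd, this] using h3, L', c⟩

theorem quenched (hq : q ≠ 0) (h0 : ζ [] ≠ 0) (lam : ℝ≥0) (hΦ : ∑' k, Φ q lam k ζ ≠ ∞) :
    Transient (tree ζ) (root ζ) lam := by
  have := walk_prob (locfin h0)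
  have := fun v => isProbabilityMeasure_uniformOn (locfin h0 v).1 (locfin h0 v).2
  have g : ∀ᵐ ω ∂frogLaw (tree ζ) lam, ∀ v j n x, (tree ζ).Adj x ((ω v).2 j n x) := by
    simp only [ae_all_iff]
    intro v j n x
    exact ((measurePreserving_eval_infinitePi (fun v => uniformOn ((tree ζ).neighborSet v)) x).comp
      ((measurePreserving_eval_infinitePi (fun _ : ℕ => Measure.infinitePi fun v =>
        uniformOn ((tree ζ).neighborSet v)) n).comp ((measurePreserving_eval_infinitePi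
        (fun _ : ℕ => walkLaw (tree ζ)) j).comp (measurePreserving_snd.comp
        (measurePreserving_eval_infinitePi (fun _ => (poissonMeasure lam).prod
          (Measure.infinitePi fun _ => walkLaw (tree ζ))) v))))).quasiMeasurePreserving.ae
      (p := fun y => (tree ζ).Adj x y) (ae_iff.2 ((uniformOn_eq_zero_iff (locfin h0 x).1).2
        (Set.inter_compl_self _)))
  have f := ae_finite_setOfPred_mem (μ := frogLaw (tree ζ) lam) (s := fun p : Vx ζ × ℕ =>
    ⋃ k, E q k (ent q ζ p.1.1) ∅ ∩ {ω | ω p.1 ∈ Ht p.1 p.2 [] {[]}}) (ne_top_of_le_ne_top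
      (ENNReal.mul_ne_top (a := q ^ 2 + q) (by finiteness) hΦ) ?_)
  · filter_upwards [g, f] with ω hω hf
    refine hf.subset fun p ⟨h1, h2⟩ => ?_
    obtain ⟨a, L, b⟩ := claimA hq hω h1
    obtain ⟨k, hk⟩ := claimB hq hω L _ b (cell hq p.1.2).choose_spec.2.2.1 ∅ (by simp)
    exact Set.mem_iUnion.2 ⟨k, hk, a, Set.mem_iUnion.2 ⟨_, Nat.find h2, Nat.lt_succ_self _,
      congrArg Subtype.val (Nat.find_spec h2), fun m hm h => Nat.find_min h2 hm (Subtype.ext h)⟩⟩
  refine (ENNReal.tsum_le_tsum fun p => measure_iUnion_le _).trans ?_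
  rw [ENNReal.tsum_comm, ← ENNReal.tsum_mul_left]
  refine ENNReal.tsum_le_tsum fun k => ?_
  rw [ENNReal.tsum_prod', Φ, ← ENNReal.tsum_mul_left]
  simp only [mul_left_comm (q ^ 2 + q : ℝ≥0∞)]
  refine le_trans (ENNReal.tsum_le_tsum fun u => (joint h0 lam k u _ _ _).trans ?_) (tsum_Vx fun u =>
    R q lam ζ k (ent q ζ u) ∅ * (lm lam u * ((q ^ 2 + q) * w q ζ u)))
  exact mul_le_mul' (E_le h0 lam k _ _) (mul_le_mul' le_rfl (F_root hq _))

lemma inf_of (h : θ q ζ ≠ 0) : Infinite (Vx ζ) := by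
  have k : ∀ n, ∃ v : Vx ζ, v.1.length = n ∧ th q ζ v.1 ≠ 0 := fun n => by
    induction n with
    | zero => exact ⟨root ζ, rfl, by simpa [th, root] using h⟩
    | succ n ih =>
      obtain ⟨v, h1, h2⟩ := ih
      rw [th_eq] at h2
      obtain ⟨i, h3, h4⟩ := exists_ne_zero_of_sum_ne_zero (s := range (ζ v.1))
        (f := fun i => th q ζ (i :: v.1)) (by omega)
      exact ⟨⟨i :: v.1, v.2, mem_range.1 h3⟩, by simp [h1], h4⟩
  exact Infinite.of_surjective (fun v : Vx ζ => v.1.length) fun n => (k n).imp fun _ h => h.1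

theorem main (p : Measure ℕ) [IsProbabilityMeasure p] (hp : 1 < ∫⁻ k, (k : ℝ≥0∞) ∂p) :
    0 < GW p {ζ | Infinite (Vx ζ)} ∧ ∃ l0 : ℝ≥0, 0 < l0 ∧ ∀ lam : ℝ≥0, lam ≤ l0 →
      ∀ᵐ ζ ∂(GW p)[|{ζ | Infinite (Vx ζ)}], Transient (tree ζ) (root ζ) lam := by
  obtain ⟨q, hq, h1, l0, h2, h3⟩ := annealed p hp
  refine ⟨pos_iff_ne_zero.2 fun h => h1.ne ?_, l0, h2, fun lam hl => ?_⟩
  · refine (prob_compl_eq_zero_iff (θ_m q (MeasurableSet.singleton 0))).1 ?_
    exact measure_mono_null (fun ζ hζ => inf_of hζ) h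
  have a : ∀ᵐ ζ ∂(GW p).restrict {ζ | Infinite (Vx ζ)}, ζ [] ≠ 0 := by
    refine ae_mono (Measure.restrict_mono (s' := {ζ : Env | ζ [] ≠ 0}) (fun ζ hζ h0 => ?_) le_rfl)
      (ae_restrict_mem (measurable_pi_apply [] (MeasurableSet.singleton 0).compl))
    have : Subsingleton (Vx ζ) := ⟨fun u v => by
      have k : ∀ l, Adm ζ l → l = [] := fun l hl => by
        induction l with
        | nil => rfl
        | cons i l ih => have := hl.2; rw [ih hl.1, h0] at this; omega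
      exact Subtype.ext ((k _ u.2).trans (k _ v.2).symm)⟩
    exact @not_finite _ hζ inferInstance
  refine Measure.ae_smul_measure ?_ _
  filter_upwards [a, ae_restrict_of_ae (h3 lam hl)] with ζ h0 h using quenched hq h0 lam h

end Pool.Agent.H41.GWF
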