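import Pool.Agent.H41.FrogDefs

set_option autoImplicit false

namespace Pool.Agent.H41.GWF

open MeasureTheory

/-- Offspring numbers indexed by Ulam–Harris words; the children of `l` are the words `i :: l`. -/
abbrev Env : Type := List ℕ → ℕ

/-- The words belonging to the family tree of the root `[]`: `i :: l` is present iff `l` is present
and `i` is smaller than the offspring number of `l`. -/
def Adm (ζ : Env) : List ℕ → Prop
  | [] => True
  | i :: l => Adm ζ l ∧ i < ζ l

/-- Vertices of the family tree. -/
abbrev Vx (ζ : Env) : Type := {l : List ℕ // Adm ζ l}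

instance (ζ : Env) : MeasurableSpace (Vx ζ) := ⊤

/-- The root. -/
def root (ζ : Env) : Vx ζ := ⟨[], trivial⟩

/-- The family tree as a graph: each vertex is joined to its children. -/
def tree (ζ : Env) : SimpleGraph (Vx ζ) where
  Adj u v := (∃ i, v.1 = i :: u.1) ∨ ∃ i, u.1 = i :: v.1
  symm := ⟨fun _ _ h => h.symm⟩
  loopless := ⟨fun u h => by
    rcases h with ⟨i, h⟩ | ⟨i, h⟩ <;> simpa using congrArg List.length h⟩

/-- Galton–Watson law: i.i.d. offspring numbers with law `p`. -/
noncomputable def GW (p : Measure ℕ) : Measure Env := Measure.infinitePi fun _ => p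

end Pool.Agent.H41.GWF
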