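import Pool.Agent.H41.SearchDefs

set_option autoImplicit false

namespace Pool.Agent.H41.Search

open scoped ENNReal

/-- turning points of a trajectory on the half-line -/
def IsHalfTraj (t : ℕ → ℝ) : Prop :=
  t 0 = 0 ∧ (∀ i, 0 ≤ t i) ∧ (∀ i, t (2 * i) < t (2 * i + 1)) ∧ ∀ i, t (2 * i + 2) < t (2 * i + 1)

/-- the first time at which the searcher changes direction exactly at d (infinite if never) -/
noncomputable def firstTurn (t : ℕ → ℝ) (d : ℝ) : ℝ≥0∞ :=
  ⨅ i ∈ {i : ℕ | 1 ≤ i ∧ t i = d}, ENNReal.ofReal (len t i)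

/-- expected detection time, detection being certain at a point where the searcher turns -/
noncomputable def halfTime (p : ℝ) (t : ℕ → ℝ) (d : ℝ) : ℝ≥0∞ :=
  ∑' n : ℕ, ENNReal.ofReal (p * (1 - p) ^ n) * min (nthPass t d n) (firstTurn t d)

/-- the competitive ratio on the half-line -/
noncomputable def halfCR (p : ℝ) (t : ℕ → ℝ) : ℝ≥0∞ :=
  ⨆ d ∈ {d : ℝ | 1 ≤ d}, ENNReal.ofReal p * halfTime p t d / ENNReal.ofReal d

end Pool.Agent.H41.Search
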