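import Pool.Agent.H41.SearchA
import Pool.Agent.H41.HalfDefs

set_option autoImplicit false

namespace Pool.Agent.H41.Search.Half

open scoped ENNReal
open Finset Pool.Agent.H41.Search

def pat (r : ℕ) : ℝ :=
  if r = 0 then 0 else if r = 1 then 36 else if r = 2 then 33 else if r = 3 then 66 else
    if r = 4 then 60 else if r = 5 then 120 else if r = 6 then 100 else 200

noncomputable def u (m : ℕ) : ℝ := 2 ^ m / 200

noncomputable def X (i : ℕ) : ℝ := pat (i % 8) * u (i / 8)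

theorem u_pos (m : ℕ) : 0 < u m := by unfold u; positivity
theorem u_succ (m : ℕ) : u (m + 1) = 2 * u m := by unfold u; ring
theorem u_add (m j : ℕ) : u (m + j) = 2 ^ j * u m := by unfold u; ring

theorem X_eq (m r : ℕ) (hr : r < 8) : X (8 * m + r) = pat r * u m := by
  rw [X, show (8 * m + r) % 8 = r by omega, show (8 * m + r) / 8 = m by omega]

theorem X0 (m : ℕ) : X (8 * m) = 0 := by simpa [pat] using X_eq m 0 (by omega)
theorem X1 (m : ℕ) : X (8 * m + 1) = 36 * u m := by simpa [pat] using X_eq m 1 (by omega)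
theorem X2 (m : ℕ) : X (8 * m + 2) = 33 * u m := by simpa [pat] using X_eq m 2 (by omega)
theorem X3 (m : ℕ) : X (8 * m + 3) = 66 * u m := by simpa [pat] using X_eq m 3 (by omega)
theorem X4 (m : ℕ) : X (8 * m + 4) = 60 * u m := by simpa [pat] using X_eq m 4 (by omega)
theorem X5 (m : ℕ) : X (8 * m + 5) = 120 * u m := by simpa [pat] using X_eq m 5 (by omega)
theorem X6 (m : ℕ) : X (8 * m + 6) = 100 * u m := by simpa [pat] using X_eq m 6 (by omega)
theorem X7 (m : ℕ) : X (8 * m + 7) = 200 * u m := by simpa [pat] using X_eq m 7 (by omega)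
theorem X8 (m : ℕ) : X (8 * m + 8) = 0 := by rw [show 8 * m + 8 = 8 * (m + 1) by ring, X0]

theorem L1 (m : ℕ) (h : len X (8 * m) = 458 * u m - 229 / 100) :
    len X (8 * m + 1) = 494 * u m - 229 / 100 := by
  have hu := u_pos m
  rw [len_succ, h, X0, X1, abs_of_pos (by linarith)]; ring

theorem L2 (m : ℕ) (h : len X (8 * m + 1) = 494 * u m - 229 / 100) :
    len X (8 * m + 2) = 497 * u m - 229 / 100 := by
  have hu := u_pos m
  rw [len_succ, h, X1, X2, abs_of_neg (by linarith)]; ring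

theorem L3 (m : ℕ) (h : len X (8 * m + 2) = 497 * u m - 229 / 100) :
    len X (8 * m + 3) = 530 * u m - 229 / 100 := by
  have hu := u_pos m
  rw [len_succ, h, X2, X3, abs_of_pos (by linarith)]; ring

theorem L4 (m : ℕ) (h : len X (8 * m + 3) = 530 * u m - 229 / 100) :
    len X (8 * m + 4) = 536 * u m - 229 / 100 := by
  have hu := u_pos m
  rw [len_succ, h, X3, X4, abs_of_neg (by linarith)]; ring

theorem L5 (m : ℕ) (h : len X (8 * m + 4) = 536 * u m - 229 / 100) :
    len X (8 * m + 5) = 596 * u m - 229 / 100 := by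
  have hu := u_pos m
  rw [len_succ, h, X4, X5, abs_of_pos (by linarith)]; ring

theorem L6 (m : ℕ) (h : len X (8 * m + 5) = 596 * u m - 229 / 100) :
    len X (8 * m + 6) = 616 * u m - 229 / 100 := by
  have hu := u_pos m
  rw [len_succ, h, X5, X6, abs_of_neg (by linarith)]; ring

theorem L7 (m : ℕ) (h : len X (8 * m + 6) = 616 * u m - 229 / 100) :
    len X (8 * m + 7) = 716 * u m - 229 / 100 := by
  have hu := u_pos m
  rw [len_succ, h, X6, X7, abs_of_pos (by linarith)]; ring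

theorem L8 (m : ℕ) (h : len X (8 * m + 7) = 716 * u m - 229 / 100) :
    len X (8 * m + 8) = 916 * u m - 229 / 100 := by
  have hu := u_pos m
  rw [len_succ, h, X7, X8, abs_of_neg (by linarith)]; ring

theorem T0 (m : ℕ) : len X (8 * m) = 458 * u m - 229 / 100 := by
  induction m with
  | zero => simp [len, u]; norm_num
  | succ m ih =>
    rw [show 8 * (m + 1) = 8 * m + 8 by ring,
      L8 m (L7 m (L6 m (L5 m (L4 m (L3 m (L2 m (L1 m ih))))))), u_succ]; ring

theorem T1 (m : ℕ) : len X (8 * m + 1) = 494 * u m - 229 / 100 := L1 m (T0 m)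
theorem T2 (m : ℕ) : len X (8 * m + 2) = 497 * u m - 229 / 100 := L2 m (T1 m)
theorem T3 (m : ℕ) : len X (8 * m + 3) = 530 * u m - 229 / 100 := L3 m (T2 m)
theorem T4 (m : ℕ) : len X (8 * m + 4) = 536 * u m - 229 / 100 := L4 m (T3 m)
theorem T5 (m : ℕ) : len X (8 * m + 5) = 596 * u m - 229 / 100 := L5 m (T4 m)
theorem T6 (m : ℕ) : len X (8 * m + 6) = 616 * u m - 229 / 100 := L6 m (T5 m)
theorem T7 (m : ℕ) : len X (8 * m + 7) = 716 * u m - 229 / 100 := L7 m (T6 m)

theorem Q0 (m : ℕ) (h : ℝ) (h1 : 0 ≤ h) (h2 : h ≤ 36 * u m) :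
    458 * u m - 229 / 100 + h ∈ passes X h := by
  refine ⟨8 * m, ?_, ?_⟩
  · rw [X0, X1]; exact Set.mem_uIcc_of_le h1 h2
  · rw [T0, X0, abs_of_nonneg (by linarith)]; ring

theorem Q1 (m : ℕ) (h : ℝ) (h1 : 33 * u m ≤ h) (h2 : h ≤ 36 * u m) :
    530 * u m - 229 / 100 - h ∈ passes X h := by
  refine ⟨8 * m + 1, ?_, ?_⟩
  · rw [X1, X2]; exact Set.mem_uIcc_of_ge h1 h2
  · rw [T1, X1, abs_of_nonpos (by linarith)]; ring

theorem Q2 (m : ℕ) (h : ℝ) (h1 : 33 * u m ≤ h) (h2 : h ≤ 66 * u m) :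
    464 * u m - 229 / 100 + h ∈ passes X h := by
  refine ⟨8 * m + 2, ?_, ?_⟩
  · rw [X2, X3]; exact Set.mem_uIcc_of_le h1 h2
  · rw [T2, X2, abs_of_nonneg (by linarith)]; ring

theorem Q3 (m : ℕ) (h : ℝ) (h1 : 60 * u m ≤ h) (h2 : h ≤ 66 * u m) :
    596 * u m - 229 / 100 - h ∈ passes X h := by
  refine ⟨8 * m + 3, ?_, ?_⟩
  · rw [X3, X4]; exact Set.mem_uIcc_of_ge h1 h2
  · rw [T3, X3, abs_of_nonpos (by linarith)]; ring

theorem Q4 (m : ℕ) (h : ℝ) (h1 : 60 * u m ≤ h) (h2 : h ≤ 120 * u m) :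
    476 * u m - 229 / 100 + h ∈ passes X h := by
  refine ⟨8 * m + 4, ?_, ?_⟩
  · rw [X4, X5]; exact Set.mem_uIcc_of_le h1 h2
  · rw [T4, X4, abs_of_nonneg (by linarith)]; ring

theorem Q5 (m : ℕ) (h : ℝ) (h1 : 100 * u m ≤ h) (h2 : h ≤ 120 * u m) :
    716 * u m - 229 / 100 - h ∈ passes X h := by
  refine ⟨8 * m + 5, ?_, ?_⟩
  · rw [X5, X6]; exact Set.mem_uIcc_of_ge h1 h2
  · rw [T5, X5, abs_of_nonpos (by linarith)]; ring

theorem Q6 (m : ℕ) (h : ℝ) (h1 : 100 * u m ≤ h) (h2 : h ≤ 200 * u m) :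
    516 * u m - 229 / 100 + h ∈ passes X h := by
  refine ⟨8 * m + 6, ?_, ?_⟩
  · rw [X6, X7]; exact Set.mem_uIcc_of_le h1 h2
  · rw [T6, X6, abs_of_nonneg (by linarith)]; ring

theorem Q7 (m : ℕ) (h : ℝ) (h1 : 0 ≤ h) (h2 : h ≤ 200 * u m) :
    916 * u m - 229 / 100 - h ∈ passes X h := by
  refine ⟨8 * m + 7, ?_, ?_⟩
  · rw [X7, X8]; exact Set.mem_uIcc_of_ge h1 h2
  · rw [T7, X7, abs_of_nonpos (by linarith)]; ring

theorem tail (k : ℕ) (h : ℝ) (h1 : 0 < h) (h2 : h ≤ 36 * u k) :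
    Bd (1 / 2) X h (458 * u k - 229 / 100 + h) (916 * u k + h / 3) := by
  set g : ℕ → ℝ := fun n => if n % 2 = 0 then 458 * u (k + n / 2) - 229 / 100 + h
    else 916 * u (k + n / 2) - 229 / 100 - h with hg
  have ge : ∀ j, g (2 * j) = 458 * u (k + j) - 229 / 100 + h := fun j => by
    simp only [hg]; rw [if_pos (by omega), show 2 * j / 2 = j by omega]
  have go : ∀ j, g (2 * j + 1) = 916 * u (k + j) - 229 / 100 - h := fun j => by
    simp only [hg]; rw [if_neg (by omega), show (2 * j + 1) / 2 = j by omega]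
  have hu : ∀ j, u k ≤ u (k + j) := fun j => by
    rw [u_add]
    have := u_pos k
    have : (1 : ℝ) ≤ 2 ^ j := one_le_pow₀ (by norm_num)
    nlinarith
  have huk := u_pos k
  have hmem : ∀ n, g n ∈ passes X h := by
    intro n
    obtain ⟨j, rfl | rfl⟩ := Nat.even_or_odd' n
    · rw [ge]; exact Q0 _ _ h1.le (by linarith [hu j])
    · rw [go]; exact Q7 _ _ h1.le (by linarith [hu j])
  refine ⟨g, strictMono_nat_of_lt_succ fun n => ?_, hmem, ?_, fun N => ?_⟩
  · obtain ⟨j, rfl | rfl⟩ := Nat.even_or_odd' n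
    · rw [ge, go]; linarith [hu j]
    · rw [go, show 2 * j + 1 + 1 = 2 * (j + 1) by ring, ge, ← add_assoc, u_succ]; linarith [hu j]
  · have := ge 0
    simp only [mul_zero, add_zero] at this
    rw [this]
  · have key : ∀ m, ∑ n ∈ range (2 * m), 1 / 2 * (1 - 1 / 2) ^ n * g n ≤
        916 * u k * (1 - (1 / 2) ^ m) + h / 3 * (1 - (1 / 4) ^ m) := by
      intro m
      induction m with
      | zero => simp
      | succ m ih =>
        rw [show 2 * (m + 1) = 2 * m + 1 + 1 by ring, sum_range_succ, sum_range_succ, ge, go, u_add]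
        have e1 : (1 - 1 / 2 : ℝ) ^ (2 * m) = (1 / 4) ^ m := by rw [pow_mul]; norm_num
        have e2 : (1 / 4 : ℝ) ^ m * 2 ^ m = (1 / 2) ^ m := by rw [← mul_pow]; norm_num
        have e3 : (0 : ℝ) < (1 / 4) ^ m := by positivity
        rw [pow_succ (1 - 1 / 2 : ℝ), e1, pow_succ (1 / 2 : ℝ), pow_succ (1 / 4 : ℝ), ← e2]
        rw [← e2] at ih
        nlinarith
    have h3 : ∑ n ∈ range N, 1 / 2 * (1 - 1 / 2) ^ n * g n ≤
        ∑ n ∈ range (2 * N), 1 / 2 * (1 - 1 / 2) ^ n * g n :=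
      sum_le_sum_of_subset_of_nonneg (range_mono (by omega)) fun n _ _ =>
        mul_nonneg (by positivity) (passes_nonneg (hmem n))
    have e2 : (0 : ℝ) < (1 / 2) ^ N := by positivity
    have e3 : (0 : ℝ) < (1 / 4) ^ N := by positivity
    have h4 := key N
    nlinarith

theorem a0 : (0 : ℝ) ≤ 1 / 2 := by norm_num
theorem a1 : (1 / 2 : ℝ) ≤ 1 := by norm_num

theorem cA (k : ℕ) (h : ℝ) (h1 : 100 * u k < h) (h2 : h < 120 * u k) :
    ∃ M, 1 / 2 * M ≤ 87 / 25 * h ∧ expTime (1 / 2) X h ≤ ENNReal.ofReal M := by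
  have hu := u_pos k
  have e1 : u (k + 1) = 2 * u k := u_succ k
  have e2 : u (k + 2) = 4 * u k := by rw [u_add]; norm_num
  have e3 : u (k + 3) = 8 * u k := by rw [u_add]; norm_num
  have t0 := tail (k + 2) h (by linarith) (by linarith)
  have t1 := t0.cons a0 a1 (Q7 (k + 1) h (by linarith) (by linarith)) (by linarith)
  have t2 := t1.cons a0 a1 (Q2 (k + 1) h (by linarith) (by linarith)) (by linarith)
  have t3 := t2.cons a0 a1 (Q7 k h (by linarith) (by linarith)) (by linarith)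
  have t4 := t3.cons a0 a1 (Q6 k h (by linarith) (by linarith)) (by linarith)
  have t5 := t4.cons a0 a1 (Q5 k h (by linarith) (by linarith)) (by linarith)
  have t6 := t5.cons a0 a1 (Q4 k h (by linarith) (by linarith)) (by linarith)
  exact ⟨_, by linarith, t6.expTime_le a0 a1⟩

theorem cA2 (k : ℕ) (h : ℝ) (h1 : 120 * u k ≤ h) (h2 : h ≤ 120 * u k) :
    ∃ M, 1 / 2 * M ≤ 87 / 25 * h ∧ expTime (1 / 2) X h ≤ ENNReal.ofReal M := by
  have hu := u_pos k
  have e1 : u (k + 1) = 2 * u k := u_succ k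
  have e2 : u (k + 2) = 4 * u k := by rw [u_add]; norm_num
  have e3 : u (k + 3) = 8 * u k := by rw [u_add]; norm_num
  have t0 := tail (k + 2) h (by linarith) (by linarith)
  have t1 := t0.cons a0 a1 (Q7 (k + 1) h (by linarith) (by linarith)) (by linarith)
  have t2 := t1.cons a0 a1 (Q4 (k + 1) h (by linarith) (by linarith)) (by linarith)
  have t3 := t2.cons a0 a1 (Q2 (k + 1) h (by linarith) (by linarith)) (by linarith)
  have t4 := t3.cons a0 a1 (Q7 k h (by linarith) (by linarith)) (by linarith)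
  have t5 := t4.cons a0 a1 (Q6 k h (by linarith) (by linarith)) (by linarith)
  have t6 := t5.cons a0 a1 (Q4 k h (by linarith) (by linarith)) (by linarith)
  exact ⟨_, by linarith, t6.expTime_le a0 a1⟩

theorem cB (k : ℕ) (h : ℝ) (h1 : 120 * u k < h) (h2 : h < 132 * u k) :
    ∃ M, 1 / 2 * M ≤ 87 / 25 * h ∧ expTime (1 / 2) X h ≤ ENNReal.ofReal M := by
  have hu := u_pos k
  have e1 : u (k + 1) = 2 * u k := u_succ k
  have e2 : u (k + 2) = 4 * u k := by rw [u_add]; norm_num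
  have e3 : u (k + 3) = 8 * u k := by rw [u_add]; norm_num
  have t0 := tail (k + 2) h (by linarith) (by linarith)
  have t1 := t0.cons a0 a1 (Q7 (k + 1) h (by linarith) (by linarith)) (by linarith)
  have t2 := t1.cons a0 a1 (Q4 (k + 1) h (by linarith) (by linarith)) (by linarith)
  have t3 := t2.cons a0 a1 (Q3 (k + 1) h (by linarith) (by linarith)) (by linarith)
  have t4 := t3.cons a0 a1 (Q2 (k + 1) h (by linarith) (by linarith)) (by linarith)
  have t5 := t4.cons a0 a1 (Q7 k h (by linarith) (by linarith)) (by linarith)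
  have t6 := t5.cons a0 a1 (Q6 k h (by linarith) (by linarith)) (by linarith)
  exact ⟨_, by linarith, t6.expTime_le a0 a1⟩

theorem cB2 (k : ℕ) (h : ℝ) (h1 : 132 * u k ≤ h) (h2 : h ≤ 132 * u k) :
    ∃ M, 1 / 2 * M ≤ 87 / 25 * h ∧ expTime (1 / 2) X h ≤ ENNReal.ofReal M := by
  have hu := u_pos k
  have e1 : u (k + 1) = 2 * u k := u_succ k
  have e2 : u (k + 2) = 4 * u k := by rw [u_add]; norm_num
  have e3 : u (k + 3) = 8 * u k := by rw [u_add]; norm_num
  have t0 := tail (k + 2) h (by linarith) (by linarith)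
  have t1 := t0.cons a0 a1 (Q7 (k + 1) h (by linarith) (by linarith)) (by linarith)
  have t2 := t1.cons a0 a1 (Q4 (k + 1) h (by linarith) (by linarith)) (by linarith)
  have t3 := t2.cons a0 a1 (Q2 (k + 1) h (by linarith) (by linarith)) (by linarith)
  have t4 := t3.cons a0 a1 (Q7 k h (by linarith) (by linarith)) (by linarith)
  have t5 := t4.cons a0 a1 (Q6 k h (by linarith) (by linarith)) (by linarith)
  exact ⟨_, by linarith, t5.expTime_le a0 a1⟩

theorem cC (k : ℕ) (h : ℝ) (h1 : 132 * u k < h) (h2 : h < 144 * u k) :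
    ∃ M, 1 / 2 * M ≤ 87 / 25 * h ∧ expTime (1 / 2) X h ≤ ENNReal.ofReal M := by
  have hu := u_pos k
  have e1 : u (k + 1) = 2 * u k := u_succ k
  have e2 : u (k + 2) = 4 * u k := by rw [u_add]; norm_num
  have e3 : u (k + 3) = 8 * u k := by rw [u_add]; norm_num
  have t0 := tail (k + 3) h (by linarith) (by linarith)
  have t1 := t0.cons a0 a1 (Q7 (k + 2) h (by linarith) (by linarith)) (by linarith)
  have t2 := t1.cons a0 a1 (Q2 (k + 2) h (by linarith) (by linarith)) (by linarith)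
  have t3 := t2.cons a0 a1 (Q1 (k + 2) h (by linarith) (by linarith)) (by linarith)
  have t4 := t3.cons a0 a1 (Q0 (k + 2) h (by linarith) (by linarith)) (by linarith)
  have t5 := t4.cons a0 a1 (Q7 (k + 1) h (by linarith) (by linarith)) (by linarith)
  have t6 := t5.cons a0 a1 (Q4 (k + 1) h (by linarith) (by linarith)) (by linarith)
  have t7 := t6.cons a0 a1 (Q7 k h (by linarith) (by linarith)) (by linarith)
  have t8 := t7.cons a0 a1 (Q6 k h (by linarith) (by linarith)) (by linarith)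
  exact ⟨_, by linarith, t8.expTime_le a0 a1⟩

theorem cD (k : ℕ) (h : ℝ) (h1 : 144 * u k ≤ h) (h2 : h < 200 * u k) :
    ∃ M, 1 / 2 * M ≤ 87 / 25 * h ∧ expTime (1 / 2) X h ≤ ENNReal.ofReal M := by
  have hu := u_pos k
  have e1 : u (k + 1) = 2 * u k := u_succ k
  have e2 : u (k + 2) = 4 * u k := by rw [u_add]; norm_num
  have e3 : u (k + 3) = 8 * u k := by rw [u_add]; norm_num
  have t0 := tail (k + 3) h (by linarith) (by linarith)
  have t1 := t0.cons a0 a1 (Q7 (k + 2) h (by linarith) (by linarith)) (by linarith)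
  have t2 := t1.cons a0 a1 (Q2 (k + 2) h (by linarith) (by linarith)) (by linarith)
  have t3 := t2.cons a0 a1 (Q7 (k + 1) h (by linarith) (by linarith)) (by linarith)
  have t4 := t3.cons a0 a1 (Q4 (k + 1) h (by linarith) (by linarith)) (by linarith)
  have t5 := t4.cons a0 a1 (Q7 k h (by linarith) (by linarith)) (by linarith)
  have t6 := t5.cons a0 a1 (Q6 k h (by linarith) (by linarith)) (by linarith)
  exact ⟨_, by linarith, t6.expTime_le a0 a1⟩

theorem cD2 (k : ℕ) (h : ℝ) (h1 : 200 * u k ≤ h) (h2 : h ≤ 200 * u k) :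
    ∃ M, 1 / 2 * M ≤ 87 / 25 * h ∧ expTime (1 / 2) X h ≤ ENNReal.ofReal M := by
  have hu := u_pos k
  have e1 : u (k + 1) = 2 * u k := u_succ k
  have e2 : u (k + 2) = 4 * u k := by rw [u_add]; norm_num
  have e3 : u (k + 3) = 8 * u k := by rw [u_add]; norm_num
  have t0 := tail (k + 3) h (by linarith) (by linarith)
  have t1 := t0.cons a0 a1 (Q7 (k + 2) h (by linarith) (by linarith)) (by linarith)
  have t2 := t1.cons a0 a1 (Q2 (k + 2) h (by linarith) (by linarith)) (by linarith)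
  have t3 := t2.cons a0 a1 (Q7 (k + 1) h (by linarith) (by linarith)) (by linarith)
  have t4 := t3.cons a0 a1 (Q4 (k + 1) h (by linarith) (by linarith)) (by linarith)
  have t5 := t4.cons a0 a1 (Q6 k h (by linarith) (by linarith)) (by linarith)
  exact ⟨_, by linarith, t5.expTime_le a0 a1⟩

theorem bound (h : ℝ) (hh : 1 ≤ h) :
    ∃ M, 1 / 2 * M ≤ 87 / 25 * h ∧ expTime (1 / 2) X h ≤ ENNReal.ofReal M := by
  obtain ⟨k, k1, k2⟩ := exists_dyadic (1 / 2) h (by norm_num) (by linarith)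
  have k1' : 100 * u k < h := by unfold u; linarith
  have k2' : h ≤ 200 * u k := by unfold u; rw [pow_succ] at k2; linarith
  rcases lt_trichotomy h (120 * u k) with g1 | g1 | g1
  · exact cA k h k1' g1
  · exact cA2 k h g1.ge g1.le
  rcases lt_trichotomy h (132 * u k) with g2 | g2 | g2
  · exact cB k h g1 g2
  · exact cB2 k h g2.ge g2.le
  rcases lt_or_ge h (144 * u k) with g3 | g3
  · exact cC k h g2 g3
  rcases lt_or_ge h (200 * u k) with g4 | g4
  · exact cD k h g3 g4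
  · exact cD2 k h g4 k2'

theorem X_CR : halfCR (1 / 2) X ≤ ENNReal.ofReal (87 / 25) := by
  refine iSup₂_le fun h hh => ?_
  obtain ⟨M, h1, h2⟩ := bound h hh
  have h3 : halfTime (1 / 2) X h ≤ expTime (1 / 2) X h :=
    ENNReal.tsum_le_tsum fun n => by gcongr; exact min_le_left _ _
  refine ENNReal.div_le_of_le_mul ?_
  rw [← ENNReal.ofReal_mul (by norm_num)]
  calc _ ≤ ENNReal.ofReal (1 / 2) * ENNReal.ofReal M := by gcongr; exact h3.trans h2
    _ = ENNReal.ofReal (1 / 2 * M) := (ENNReal.ofReal_mul a0).symm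
    _ ≤ _ := ENNReal.ofReal_le_ofReal h1

theorem X_traj : IsHalfTraj X := by
  refine ⟨X0 0, fun i => mul_nonneg ?_ (u_pos _).le, fun i => ?_, fun i => ?_⟩
  · unfold pat; split_ifs <;> norm_num
  · obtain ⟨m, r, hr, rfl⟩ : ∃ m r, r < 4 ∧ i = 4 * m + r := ⟨i / 4, i % 4, by omega, by omega⟩
    have hu := u_pos m
    rw [show 2 * (4 * m + r) = 8 * m + 2 * r by ring, add_assoc, X_eq m _ (by omega),
      X_eq m _ (by omega)]
    interval_cases r <;> simp [pat] <;> linarith
  · obtain ⟨m, r, hr, rfl⟩ : ∃ m r, r < 4 ∧ i = 4 * m + r := ⟨i / 4, i % 4, by omega, by omega⟩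
    have hu := u_pos m
    rw [show 2 * (4 * m + r) = 8 * m + 2 * r by ring]
    interval_cases r
    · rw [X2, X1]; linarith
    · rw [X4, X3]; linarith
    · rw [X6, X5]; linarith
    · rw [X8, X7]; linarith

end Pool.Agent.H41.Search.Half
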