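import Pool.Agent.H41.JuntaDefs

namespace Pool.Agent.H41.Junta

open Finset

theorem pr_half {n : ℕ} (φ : (Fin n → Bool) → (Fin n → Bool)) (hφ : ∀ x, φ (φ x) = x)
    (S p : (Fin n → Bool) → Prop) (hS : ∀ x, S x → S (φ x)) (hp : ∀ x, S x → (p (φ x) ↔ ¬ p x)) :
    pr (fun x => S x ∧ p x) = pr S / 2 := by
  classical
  have h1 : (univ.filter fun x => S x ∧ p x).card = (univ.filter fun x => S x ∧ ¬ p x).card := by
    refine Finset.card_nbij' φ φ ?_ ?_ (fun x _ => hφ x) (fun x _ => hφ x)
    · intro x hx
      simp only [coe_filter, mem_univ, true_and, Set.mem_ofPred_eq] at hx ⊢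
      exact ⟨hS x hx.1, fun h => (hp x hx.1).mp h hx.2⟩
    · intro x hx
      simp only [coe_filter, mem_univ, true_and, Set.mem_ofPred_eq] at hx ⊢
      exact ⟨hS x hx.1, (hp x hx.1).mpr hx.2⟩
  have h2 := Finset.card_filter_add_card_filter_not (s := univ.filter S) p
  rw [filter_filter, filter_filter, ← h1] at h2
  unfold pr
  have h3 : ((univ.filter S).card : ℝ) = 2 * (univ.filter fun x => S x ∧ p x).card := by
    rw [← h2]; push_cast; rw [two_mul]
  rw [h3]
  trans ((univ.filter fun x => S x ∧ p x).card : ℝ) / 2 ^ n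
  · congr!
  · ring

theorem pr_true (n : ℕ) : pr (fun _ : Fin n → Bool => True) = 1 := by
  unfold pr; simp

theorem pr_mono {n : ℕ} {p q : (Fin n → Bool) → Prop} (h : ∀ x, p x → q x) : pr p ≤ pr q := by
  classical
  unfold pr
  refine div_le_div_of_nonneg_right ?_ (by positivity)
  norm_cast
  apply Finset.card_le_card
  intro x; simp only [mem_filter, mem_univ, true_and]; exact h x

theorem pr_congr {n : ℕ} {p q : (Fin n → Bool) → Prop} (h : ∀ x, p x ↔ q x) : pr p = pr q :=
  le_antisymm (pr_mono fun x => (h x).mp) (pr_mono fun x => (h x).mpr)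

theorem pr_fiber {n : ℕ} {β : Type} [Fintype β] [DecidableEq β] (a : (Fin n → Bool) → β)
    (T : Finset β) : pr (fun x => a x ∈ T) = ∑ b ∈ T, pr (fun x => a x = b) := by
  classical
  unfold pr
  rw [← Finset.sum_div]
  congr 1
  norm_cast
  rw [Finset.card_eq_sum_card_fiberwise (f := a) (t := T) (by intro x; simp)]
  refine Finset.sum_congr rfl fun b hb => ?_
  congr 1
  ext x
  simp only [mem_filter, mem_univ, true_and]
  exact ⟨fun h => h.2, fun h => ⟨h ▸ hb, h⟩⟩

section
variable {k n : ℕ} (e : Fin k ⊕ (Fin k → Bool) ≃ Fin n)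

def addr (x : Fin n → Bool) : Fin k → Bool := fun i => x (e (Sum.inl i))

def ff (x : Fin n → Bool) : Bool := x (e (Sum.inr (addr e x)))

def flp (x : Fin n → Bool) : Fin n → Bool :=
  Function.update x (e (Sum.inr (addr e x))) (!x (e (Sum.inr (addr e x))))

theorem addr_upd (x : Fin n → Bool) (b : Fin k → Bool) (v : Bool) :
    addr e (Function.update x (e (Sum.inr b)) v) = addr e x := by
  funext i
  simp [addr]

theorem addr_flp (x : Fin n → Bool) : addr e (flp e x) = addr e x := addr_upd e x _ _

theorem flp_flp (x : Fin n → Bool) : flp e (flp e x) = x := by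
  conv_lhs => unfold flp
  rw [show addr e (Function.update x (e (Sum.inr (addr e x))) (!x (e (Sum.inr (addr e x))))) =
    addr e x from addr_upd e x _ _]
  simp

theorem ff_flp (x : Fin n → Bool) : ff e (flp e x) = !ff e x := by
  unfold ff
  rw [addr_flp]
  simp [flp]

theorem mean_ff : mean (ff e) = 1 / 2 := by
  have := pr_half (flp e) (flp_flp e) (fun _ => True) (fun x => ff e x = true) (by simp)
    (fun x _ => by rw [ff_flp]; simp)
  rw [pr_true] at this
  unfold mean
  rw [← this]
  exact pr_congr (by simp)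

theorem pr_addr_eq (b c : Fin k → Bool) :
    pr (fun x => addr e x = b) ≤ pr (fun x => addr e x = c) := by
  classical
  unfold pr
  refine div_le_div_of_nonneg_right ?_ (by positivity)
  norm_cast
  refine Finset.card_le_card_of_injOn
    (fun x j => Sum.elim c (fun d => x (e (Sum.inr d))) (e.symm j)) ?_ ?_
  · intro x _
    simp only [coe_filter, mem_univ, true_and, Set.mem_ofPred_eq]
    funext i; simp [addr]
  · intro x hx y hy h
    simp only [coe_filter, mem_univ, true_and, Set.mem_ofPred_eq] at hx hy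
    funext j
    obtain ⟨j, rfl⟩ := e.surjective j
    rcases j with i | d
    · exact (congrFun hx i).trans (congrFun hy i).symm
    · simpa using congrFun h (e (Sum.inr d))

theorem pr_addr (b : Fin k → Bool) : pr (fun x => addr e x = b) = 1 / 2 ^ k := by
  have h := pr_fiber (addr e) univ
  rw [pr_congr (q := fun _ => True) (by simp), pr_true,
    Finset.sum_congr rfl fun c _ => le_antisymm (pr_addr_eq e c b) (pr_addr_eq e b c)] at h
  simp at h
  field_simp
  linarith

theorem inf_ff : totalInf (ff e) = 1 + k / 2 := by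
  unfold totalInf
  rw [← Equiv.sum_comp e, Fintype.sum_sum_type]
  have h1 : ∀ i : Fin k, (pr fun x => ff e x ≠
      ff e (Function.update x (e (Sum.inl i)) (!x (e (Sum.inl i))))) = 1 / 2 := by
    intro i
    have ha : ∀ x : Fin n → Bool, addr e (Function.update x (e (Sum.inl i)) (!x (e (Sum.inl i))))
        = Function.update (addr e x) i (!addr e x i) := by
      intro x; funext j
      by_cases h : j = i
      · subst h; simp [addr]
      · simp [addr, h]
    have hne : ∀ a : Fin k → Bool, Function.update a i (!a i) ≠ a := by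
      intro a h
      have := congrFun h i
      simp at this
    have hf : ∀ x : Fin n → Bool, ff e (Function.update x (e (Sum.inl i)) (!x (e (Sum.inl i))))
        = x (e (Sum.inr (Function.update (addr e x) i (!addr e x i)))) := by
      intro x
      unfold ff
      rw [ha]; simp
    have := pr_half (flp e) (flp_flp e) (fun _ => True) (fun x => ff e x ≠
      ff e (Function.update x (e (Sum.inl i)) (!x (e (Sum.inl i))))) (by simp) (fun x _ => by
        rw [hf, hf, ff_flp, addr_flp]
        have : flp e x (e (Sum.inr (Function.update (addr e x) i (!addr e x i)))) =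
            x (e (Sum.inr (Function.update (addr e x) i (!addr e x i)))) := by
          unfold flp
          rw [Function.update_of_ne]
          simp
        rw [this]
        cases ff e x <;> simp)
    rw [pr_true] at this
    rw [← this]
    exact pr_congr (by simp)
  have h2 : ∀ b : Fin k → Bool, (pr fun x => ff e x ≠
      ff e (Function.update x (e (Sum.inr b)) (!x (e (Sum.inr b))))) = 1 / 2 ^ k := by
    intro b
    rw [← pr_addr e b]
    refine pr_congr fun x => ?_
    unfold ff
    rw [addr_upd]
    by_cases h : addr e x = b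
    · subst h; simp
    · simp [h]
  simp only [h1, h2]
  simp
  ring

theorem err_ge (g : (Fin n → Bool) → Bool) (J : Finset (Fin n)) (hg : OnlyUses g J) :
    (1 - J.card / 2 ^ k) / 2 ≤ pr fun x => ff e x ≠ g x := by
  classical
  obtain ⟨T, hT⟩ : ∃ T : Finset (Fin k → Bool), T = univ.filter fun b => e (Sum.inr b) ∉ J :=
    ⟨_, rfl⟩
  have h := pr_half (flp e) (flp_flp e) (fun x => addr e x ∈ T) (fun x => ff e x ≠ g x)
    (fun x hx => by rwa [addr_flp]) (fun x hx => by
      have : g (flp e x) = g x := hg _ _ fun j hj => by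
        unfold flp
        rw [Function.update_of_ne]
        rintro rfl
        rw [hT] at hx
        exact (mem_filter.mp hx).2 hj
      rw [this, ff_flp]
      cases ff e x <;> simp)
  refine le_trans ?_ (pr_mono (p := fun x => addr e x ∈ T ∧ ff e x ≠ g x) fun x hx => hx.2)
  rw [h, pr_fiber]
  simp only [pr_addr, sum_const, nsmul_eq_mul]
  have h1 := Finset.card_filter_add_card_filter_not (s := (univ : Finset (Fin k → Bool)))
    (fun b => e (Sum.inr b) ∈ J)
  rw [← hT] at h1
  have h2 : (univ.filter fun b : Fin k → Bool => e (Sum.inr b) ∈ J).card ≤ J.card :=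
    Finset.card_le_card_of_injOn (fun b => e (Sum.inr b)) (fun b hb => by simpa using hb)
      (fun a _ b _ h => by simpa using h)
  have h3 : (2 : ℝ) ^ k ≤ J.card + T.card := by
    have : 2 ^ k ≤ J.card + T.card := by simp at h1; omega
    exact_mod_cast this
  have hp : (0 : ℝ) < 2 ^ k := by positivity
  refine div_le_div_of_nonneg_right ?_ (by norm_num)
  rw [mul_one_div, sub_le_iff_le_add, ← add_div, le_div_iff₀ hp]
  linarith

end

theorem main (C : ℝ) : ∃ (M : ℝ) (n : ℕ) (f : (Fin n → Bool) → Bool), 0 < M ∧ 1 ≤ n ∧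
    0 < mean f ∧ totalInf f ≤ 2 * mean f * (Real.logb 2 (1 / mean f) + M) ∧
    ∀ (g : (Fin n → Bool) → Bool) (J : Finset (Fin n)), OnlyUses g J →
      pr (fun x => f x ≠ g x) ≤ 3 / 4 * mean f →
      C * Real.logb 2 (1 / mean f) * (2 : ℝ) ^ (M / (3 / 4)) < J.card := by
  obtain ⟨m, hm⟩ := pow_unbounded_of_one_lt (4 * C) (show (1 : ℝ) < 2 by norm_num)
  obtain ⟨e⟩ : Nonempty (Fin (3 * (m + 1)) ⊕ (Fin (3 * (m + 1)) → Bool) ≃
    Fin (3 * (m + 1) + 2 ^ (3 * (m + 1)))) := ⟨Fintype.equivFinOfCardEq (by simp)⟩
  have hl : Real.logb 2 (1 / (1 / 2)) = 1 := by norm_num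
  refine ⟨3 * (m + 1) / 2, _, ff e, by positivity, Nat.succ_le_of_lt (by positivity), by rw [mean_ff]; norm_num, ?_,
    fun g J hg h => ?_⟩
  · rw [mean_ff, inf_ff, hl]; push_cast; linarith
  · rw [mean_ff] at h ⊢
    have h1 := (err_ge e g J hg).trans h
    have e1 : (3 * ((m : ℝ) + 1) / 2) / (3 / 4) = ((2 * (m + 1) : ℕ) : ℝ) := by push_cast; ring
    rw [hl, e1, Real.rpow_natCast]
    have h2 : (1 / 4 : ℝ) ≤ J.card / 2 ^ (3 * (m + 1)) := by linarith
    rw [le_div_iff₀ (by positivity)] at h2
    have e2 : (2 : ℝ) ^ (3 * (m + 1)) = 2 * 2 ^ m * 2 ^ (2 * (m + 1)) := by ring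
    have hp : (0 : ℝ) < 2 ^ (2 * (m + 1)) := by positivity
    have hq : (0 : ℝ) < 2 ^ m := by positivity
    rw [e2] at h2
    nlinarith

end Pool.Agent.H41.Junta
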