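import Mathlib

/-! Boolean functions on the discrete cube (definitions). -/

namespace Pool.Agent.H41.Junta

open Classical in
/-- Probability of the event `p` under the uniform measure on `{0,1}^n`. -/
noncomputable def pr {n : ℕ} (p : (Fin n → Bool) → Prop) : ℝ :=
  ((Finset.univ.filter p).card : ℝ) / 2 ^ n

/-- `μ(f) = Pr[f(x) = 1]`. -/
noncomputable def mean {n : ℕ} (f : (Fin n → Bool) → Bool) : ℝ := pr fun x => f x = true

/-- Total influence `I(f) = ∑ᵢ Pr[f(x) ≠ f(x ⊕ eᵢ)]`. -/
noncomputable def totalInf {n : ℕ} (f : (Fin n → Bool) → Bool) : ℝ :=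
  ∑ i : Fin n, pr fun x => f x ≠ f (Function.update x i (!x i))

/-- `g(x)` is determined by the coordinates in `J`. -/
def OnlyUses {n : ℕ} (g : (Fin n → Bool) → Bool) (J : Finset (Fin n)) : Prop :=
  ∀ x y : Fin n → Bool, (∀ j ∈ J, x j = y j) → g x = g y

end Pool.Agent.H41.Junta
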