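import Mathlib

set_option autoImplicit false

namespace Pool.Agent.H41.Kagan

open MeasureTheory Real

noncomputable def f0 (x : ℝ) : ℝ := exp (-(1 / 2) * x ^ 2) * (2 + cos x)

noncomputable def sg (γ u : ℝ) : ℝ := ∫ t in (-γ)..γ, exp (t * u)

noncomputable def g0 (γ u : ℝ) : ℝ := exp (-u ^ 2) * sg γ u

lemma f0_pos (x : ℝ) : 0 < f0 x := by
  have := neg_one_le_cos x
  unfold f0; have : 0 < 2 + cos x := by linarith
  positivity

lemma f0_cont : Continuous f0 := by unfold f0; fun_prop

lemma f0_int : Integrable f0 := by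
  refine ((integrable_exp_neg_mul_sq (b := 1 / 2) (by norm_num)).mul_const 3).mono'
    f0_cont.aestronglyMeasurable (Filter.Eventually.of_forall fun x => ?_)
  rw [Real.norm_eq_abs, abs_of_pos (f0_pos x)]
  have := cos_le_one x
  unfold f0; gcongr; linarith

lemma sg_cont (γ : ℝ) : Continuous (sg γ) :=
  intervalIntegral.continuous_parametric_intervalIntegral_of_continuous'
    (f := fun u t => exp (t * u)) (by fun_prop) _ _

lemma sg_pos {γ : ℝ} (h : 0 < γ) (u : ℝ) : 0 < sg γ u :=
  intervalIntegral.intervalIntegral_pos_of_pos (Continuous.intervalIntegrable (by fun_prop) _ _)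
    (fun _ => exp_pos _) (by linarith)

lemma sg_mul (γ u : ℝ) : u * sg γ u = exp (γ * u) - exp (-γ * u) := by
  unfold sg
  rw [← intervalIntegral.integral_const_mul]
  exact intervalIntegral.integral_eq_sub_of_hasDerivAt (f := fun t => exp (t * u))
    (fun t _ => by simpa [mul_comm] using ((hasDerivAt_id t).mul_const u).exp)
    (Continuous.intervalIntegrable (by fun_prop) _ _)

lemma g0_int {γ : ℝ} (h : 0 < γ) : Integrable (g0 γ) := by
  refine ((integrable_exp_neg_mul_sq (b := 1 / 2) (by norm_num)).mul_const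
    (2 * γ * exp (γ ^ 2 / 2))).mono' ?_ (Filter.Eventually.of_forall fun u => ?_)
  · have := sg_cont γ
    exact Continuous.aestronglyMeasurable (by unfold g0; fun_prop)
  · have h1 : ‖sg γ u‖ ≤ exp (γ ^ 2 / 2 + u ^ 2 / 2) * |γ - -γ| := by
      refine intervalIntegral.norm_integral_le_of_norm_le_const fun t ht => ?_
      rw [Set.uIoc_of_le (by linarith)] at ht
      rw [Real.norm_eq_abs, abs_of_pos (exp_pos _), exp_le_exp]
      nlinarith [sq_nonneg (t - u), ht.1, ht.2]
    rw [abs_of_pos (by linarith)] at h1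
    unfold g0
    rw [norm_mul, Real.norm_eq_abs, abs_of_pos (exp_pos _)]
    calc _ ≤ exp (-u ^ 2) * (exp (γ ^ 2 / 2 + u ^ 2 / 2) * (γ - -γ)) := by gcongr
      _ = _ := by
        rw [← mul_assoc, ← exp_add, show -u ^ 2 + (γ ^ 2 / 2 + u ^ 2 / 2) =
          -(1 / 2) * u ^ 2 + γ ^ 2 / 2 by ring, exp_add]; ring

lemma key (n : ℕ) (x : Fin n → ℝ) (hx : ∑ j, x j = 0) :
    Integrable (fun u => u * g0 ((n + 2) * π) u * ∏ j, f0 (x j - u)) ∧
      ∫ u, u * g0 ((n + 2) * π) u * ∏ j, f0 (x j - u) = 0 := by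
  set a : ℝ := (n + 2) / 2 with ha
  have ha0 : 0 < a := by positivity
  let K : ℝ → ℝ := fun u => exp (-a * (u - π) ^ 2) * ∏ j, (2 + cos (x j - u))
  have hK : Integrable K := by
    refine (((integrable_exp_neg_mul_sq ha0).comp_sub_right π).mul_const (3 ^ n)).mono'
      (Continuous.aestronglyMeasurable (by fun_prop)) (Filter.Eventually.of_forall fun u => ?_)
    simp only [K]
    rw [norm_mul, Real.norm_eq_abs, abs_of_pos (exp_pos _), norm_prod]
    gcongr
    calc _ ≤ ∏ _j : Fin n, (3 : ℝ) := Finset.prod_le_prod (fun _ _ => norm_nonneg _) fun j _ => by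
          rw [Real.norm_eq_abs, abs_le]
          constructor <;> linarith [cos_le_one (x j - u), neg_one_le_cos (x j - u)]
      _ = _ := by simp
  have e : (fun u => u * g0 ((n + 2) * π) u * ∏ j, f0 (x j - u)) =
      fun u => exp (a * π ^ 2 - (∑ j, x j ^ 2) / 2) * (K u - K (u + 2 * π)) := by
    funext u
    have h1 : ∀ j, cos (x j - (u + 2 * π)) = cos (x j - u) := fun j => by
      rw [← sub_sub, cos_sub_two_pi]
    have h2 : ∏ j, exp (-(1 / 2) * (x j - u) ^ 2) = exp (-(∑ j, x j ^ 2) / 2 - n * u ^ 2 / 2) := by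
      rw [← exp_sum]; congr 1
      have : ∀ j, -(1 / 2) * (x j - u) ^ 2 = -(1 / 2) * x j ^ 2 + u * x j - u ^ 2 / 2 :=
        fun j => by ring
      simp only [this, Finset.sum_sub_distrib, Finset.sum_add_distrib, ← Finset.mul_sum, hx]
      simp; ring
    simp only [K, h1, f0, g0, Finset.prod_mul_distrib, h2]
    rw [mul_left_comm u, sg_mul, ← sub_mul, ← mul_assoc, ← mul_assoc]
    congr 1
    simp only [mul_sub, sub_mul, ← exp_add]
    congr 2 <;> (rw [ha]; ring)
  rw [e]
  refine ⟨(hK.sub (hK.comp_add_right _)).const_mul _, ?_⟩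
  rw [integral_const_mul, integral_sub hK (hK.comp_add_right _), integral_add_right_eq_self K,
    sub_self, mul_zero]

end Pool.Agent.H41.Kagan
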