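import Mathlib

set_option autoImplicit false

namespace Pool.Agent.H41.Ker

/-- Every closed subspace of `X` is the kernel of a bounded operator from `X` to itself. -/
def Positive (𝕜 : Type*) [RCLike 𝕜] (X : Type*) [NormedAddCommGroup X] [NormedSpace 𝕜 X] : Prop :=
  ∀ Y : Submodule 𝕜 X, IsClosed (Y : Set X) → ∃ T : X →L[𝕜] X, ∀ x, T x = 0 ↔ x ∈ Y

end Pool.Agent.H41.Ker
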