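import Mathlib
import Pool.Agent.H41.KerDefs

set_option autoImplicit false

open Set Filter Topology
open scoped ENNReal

namespace Pool.Agent.H41.Ker

abbrev I := ℝ × ℕ

noncomputable def w (i : I) : ℝ := (1 / 4) ^ i.2

theorem w_pos (i : I) : 0 < w i := by unfold w; positivity

instance fact4 : Fact (1 ≤ (4 : ℝ≥0∞)) := ⟨by norm_num⟩

variable (𝕜 : Type) [RCLike 𝕜]

abbrev L4 := lp (fun _ : I => 𝕜) 4
abbrev L2 := lp (fun _ : I => 𝕜) 2

def XS : Submodule 𝕜 (L4 𝕜 × L2 𝕜) where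
  carrier := {p | ∀ i, p.2 i = (w i : 𝕜) * p.1 i}
  add_mem' := by
    intro a b ha hb i
    simp only [Prod.snd_add, Prod.fst_add, lp.coeFn_add, Pi.add_apply, ha i, hb i, mul_add]
  zero_mem' := by intro i; simp
  smul_mem' := by
    intro c a ha i
    simp only [Prod.smul_snd, Prod.smul_fst, lp.coeFn_smul, Pi.smul_apply, ha i, smul_eq_mul]
    ring

theorem isClosed_XS : IsClosed (XS 𝕜 : Set (L4 𝕜 × L2 𝕜)) := by
  have : (XS 𝕜 : Set (L4 𝕜 × L2 𝕜)) = ⋂ i, {p | p.2 i = (w i : 𝕜) * p.1 i} := by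
    ext p; simp only [mem_iInter]; rfl
  rw [this]
  refine isClosed_iInter fun i => isClosed_eq ?_ ?_
  · exact (lp.lipschitzWith_one_eval 2 i).continuous.comp continuous_snd
  · exact continuous_const.mul ((lp.lipschitzWith_one_eval 4 i).continuous.comp continuous_fst)

def X : Type := XS 𝕜

noncomputable instance : NormedAddCommGroup (X 𝕜) := inferInstanceAs (NormedAddCommGroup (XS 𝕜))
noncomputable instance : NormedSpace 𝕜 (X 𝕜) := inferInstanceAs (NormedSpace 𝕜 (XS 𝕜))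
instance : CompleteSpace (X 𝕜) := (isClosed_XS 𝕜).completeSpace_coe

variable {𝕜}

/-- coordinate functionals -/
noncomputable def cf (i : I) : StrongDual 𝕜 (X 𝕜) :=
  (lp.evalCLM 𝕜 (fun _ : I => 𝕜) 4 i).comp ((ContinuousLinearMap.fst 𝕜 _ _).comp (XS 𝕜).subtypeL)

/-- the Hilbert component -/
noncomputable def V : X 𝕜 →L[𝕜] L2 𝕜 :=
  (ContinuousLinearMap.snd 𝕜 _ _).comp (XS 𝕜).subtypeL

theorem V_apply (x : X 𝕜) (i : I) : V x i = (w i : 𝕜) * cf i x := x.2 i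

theorem ext_cf {x y : X 𝕜} (h : ∀ i, cf i x = cf i y) : x = y := by
  refine Subtype.ext (Prod.ext (lp.ext (funext h)) (lp.ext (funext fun i => ?_)))
  exact (V_apply x i).trans (by rw [h i]; exact (V_apply y i).symm)

def Bd (a : I → 𝕜) (C : ℝ) : Prop :=
  ∀ s : Finset I, ∑ i ∈ s, ‖a i‖ ^ 4 ≤ C ^ 4 ∧ ∑ i ∈ s, (w i * ‖a i‖) ^ 2 ≤ C ^ 2

theorem t4 : (4 : ℝ≥0∞).toReal = ((4 : ℕ) : ℝ) := by norm_num
theorem t2 : (2 : ℝ≥0∞).toReal = ((2 : ℕ) : ℝ) := by norm_num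

theorem norm_w (i : I) (a : 𝕜) : ‖(w i : 𝕜) * a‖ = w i * ‖a‖ := by
  rw [norm_mul, RCLike.norm_ofReal, abs_of_pos (w_pos i)]

theorem bd_norm (x : X 𝕜) : Bd (fun i => cf i x) ‖x‖ := by
  intro s
  have h1 := lp.sum_rpow_le_norm_rpow (p := 4) (by norm_num) x.1.1 s
  have h2 := lp.sum_rpow_le_norm_rpow (p := 2) (by norm_num) x.1.2 s
  simp only [t4, t2, Real.rpow_natCast] at h1 h2
  have e1 : ‖x.1.1‖ ≤ ‖x‖ := norm_fst_le x.1
  have e2 : ‖x.1.2‖ ≤ ‖x‖ := norm_snd_le x.1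
  refine ⟨h1.trans (by gcongr), le_trans (le_of_eq ?_) (h2.trans (by gcongr))⟩
  refine Finset.sum_congr rfl fun i _ => ?_
  rw [← norm_w, ← V_apply]; rfl

theorem norm_le_of_bd {x : X 𝕜} {C : ℝ} (hC : 0 ≤ C) (h : Bd (fun i => cf i x) C) : ‖x‖ ≤ C := by
  change max ‖x.1.1‖ ‖x.1.2‖ ≤ C
  refine max_le (lp.norm_le_of_forall_sum_le (by norm_num) hC fun s => ?_)
    (lp.norm_le_of_forall_sum_le (by norm_num) hC fun s => ?_)
  · simp only [t4, Real.rpow_natCast]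
    exact (h s).1
  · simp only [t2, Real.rpow_natCast]
    refine le_trans (le_of_eq ?_) (h s).2
    refine Finset.sum_congr rfl fun i _ => ?_
    rw [← norm_w, ← V_apply]; rfl

theorem exists_of_bd {a : I → 𝕜} {C : ℝ} (h : Bd a C) : ∃ x : X 𝕜, ∀ i, cf i x = a i := by
  have h1 : Memℓp a 4 := memℓp_gen' (C := C ^ 4) fun s => by
    simp only [t4, Real.rpow_natCast]; exact (h s).1
  have h2 : Memℓp (fun i => (w i : 𝕜) * a i) 2 := memℓp_gen' (C := C ^ 2) fun s => by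
    simp only [t2, Real.rpow_natCast, norm_w]; exact (h s).2
  exact ⟨⟨(⟨a, h1⟩, ⟨_, h2⟩), fun i => rfl⟩, fun i => rfl⟩

theorem Bd.mono {a b : I → 𝕜} {C : ℝ} (h : Bd b C) (hab : ∀ i, ‖a i‖ ≤ ‖b i‖) : Bd a C := by
  intro s
  refine ⟨le_trans (Finset.sum_le_sum fun i _ => ?_) (h s).1,
    le_trans (Finset.sum_le_sum fun i _ => ?_) (h s).2⟩
  · have := hab i; gcongr
  · have := hab i; have := w_pos i; gcongr

theorem norm_mono {x y : X 𝕜} (h : ∀ i, ‖cf i x‖ ≤ ‖cf i y‖) : ‖x‖ ≤ ‖y‖ :=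
  norm_le_of_bd (norm_nonneg _) ((bd_norm y).mono h)

theorem cf_le (i : I) (x : X 𝕜) : ‖cf i x‖ ≤ ‖x‖ := by
  have := (bd_norm x {i}).1
  rw [Finset.sum_singleton] at this
  exact le_of_pow_le_pow_left₀ (by norm_num) (norm_nonneg _) this

theorem exists_P (A : Set I) (x : X 𝕜) : ∃ y : X 𝕜, ∀ i, cf i y = A.indicator (fun i => cf i x) i :=
  exists_of_bd ((bd_norm x).mono fun i => norm_indicator_le_norm_self _ i)

noncomputable def P (A : Set I) : X 𝕜 →L[𝕜] X 𝕜 :=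
  LinearMap.mkContinuous
    { toFun := fun x => (exists_P A x).choose
      map_add' := fun x y => ext_cf fun i => by
        rw [map_add, (exists_P A x).choose_spec, (exists_P A y).choose_spec,
          (exists_P A (x + y)).choose_spec]
        by_cases h : i ∈ A <;> simp [h]
      map_smul' := fun c x => ext_cf fun i => by
        rw [map_smul, (exists_P A x).choose_spec, (exists_P A (c • x)).choose_spec]
        by_cases h : i ∈ A <;> simp [h] } 1
    (fun x => by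
      rw [one_mul]
      refine norm_mono fun i => ?_
      change ‖cf i (exists_P A x).choose‖ ≤ _
      rw [(exists_P A x).choose_spec]
      exact norm_indicator_le_norm_self _ i)

theorem cf_P (A : Set I) (x : X 𝕜) (i : I) : cf i (P A x) = A.indicator (fun i => cf i x) i :=
  (exists_P A x).choose_spec i

theorem cf_P_mem {A : Set I} (x : X 𝕜) {i : I} (h : i ∈ A) : cf i (P A x) = cf i x := by
  rw [cf_P, indicator_of_mem h]

theorem cf_P_notMem {A : Set I} (x : X 𝕜) {i : I} (h : i ∉ A) : cf i (P A x) = 0 := by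
  rw [cf_P, indicator_of_notMem h]

theorem norm_P_mono {A B : Set I} (h : A ⊆ B) (x : X 𝕜) : ‖P A x‖ ≤ ‖P B x‖ :=
  norm_mono fun i => by
    by_cases hi : i ∈ A
    · rw [cf_P_mem x hi, cf_P_mem x (h hi)]
    · rw [cf_P_notMem x hi, norm_zero]; exact norm_nonneg _

theorem norm_P_le (A : Set I) (x : X 𝕜) : ‖P A x‖ ≤ ‖x‖ :=
  norm_mono fun i => by rw [cf_P]; exact norm_indicator_le_norm_self _ i

theorem P_P (A B : Set I) (x : X 𝕜) : P A (P B x) = P (A ∩ B) x := ext_cf fun i => by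
  by_cases hA : i ∈ A <;> by_cases hB : i ∈ B <;> simp [cf_P, hA, hB]

theorem P_add_compl (A : Set I) (x : X 𝕜) : P A x + P Aᶜ x = x := ext_cf fun i => by
  by_cases hA : i ∈ A <;> simp [cf_P, hA]

theorem P_eq_self {A : Set I} {x : X 𝕜} (h : ∀ i, i ∉ A → cf i x = 0) : P A x = x :=
  ext_cf fun i => by
    by_cases hA : i ∈ A
    · exact cf_P_mem x hA
    · rw [cf_P_notMem x hA, h i hA]

theorem tail (x : X 𝕜) {ε : ℝ} (hε : 0 < ε) : ∃ F : Finset I, ‖P (F : Set I)ᶜ x‖ ≤ ε := by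
  classical
  have h1 : Summable fun i => ‖cf i x‖ ^ 4 :=
    summable_of_sum_le (fun i => by positivity) fun s => (bd_norm x s).1
  have h2 : Summable fun i => (w i * ‖cf i x‖) ^ 2 :=
    summable_of_sum_le (fun i => by positivity) fun s => (bd_norm x s).2
  obtain ⟨F1, hF1⟩ := h1.vanishing (gt_mem_nhds (show (0:ℝ) < ε ^ 4 by positivity))
  obtain ⟨F2, hF2⟩ := h2.vanishing (gt_mem_nhds (show (0:ℝ) < ε ^ 2 by positivity))
  refine ⟨F1 ∪ F2, norm_le_of_bd hε.le fun s => ⟨?_, ?_⟩⟩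
  · refine le_trans (le_of_eq ?_) (hF1 (s \ (F1 ∪ F2)) (Finset.sdiff_disjoint.mono_right
      Finset.subset_union_left)).le
    rw [Finset.sdiff_eq_filter, Finset.sum_filter]
    refine Finset.sum_congr rfl fun i _ => ?_
    beta_reduce
    by_cases h : i ∈ F1 ∪ F2
    · rw [cf_P_notMem x (A := ((F1 ∪ F2 : Finset I) : Set I)ᶜ) (fun h' => h' h), if_neg (not_not.2 h)]; simp
    · rw [cf_P_mem x (A := ((F1 ∪ F2 : Finset I) : Set I)ᶜ) h, if_pos h]
  · refine le_trans (le_of_eq ?_) (hF2 (s \ (F1 ∪ F2)) (Finset.sdiff_disjoint.mono_right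
      Finset.subset_union_right)).le
    rw [Finset.sdiff_eq_filter, Finset.sum_filter]
    refine Finset.sum_congr rfl fun i _ => ?_
    beta_reduce
    by_cases h : i ∈ F1 ∪ F2
    · rw [cf_P_notMem x (A := ((F1 ∪ F2 : Finset I) : Set I)ᶜ) (fun h' => h' h), if_neg (not_not.2 h)]; simp
    · rw [cf_P_mem x (A := ((F1 ∪ F2 : Finset I) : Set I)ᶜ) h, if_pos h]

theorem exists_e (j : I) : ∃ x : X 𝕜, ∀ i, cf i x = if i = j then 1 else 0 := by
  classical
  refine exists_of_bd (C := 1) fun s => ⟨?_, ?_⟩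
  · refine le_trans (Finset.sum_le_sum (g := fun i => if i = j then 1 else 0) fun i _ => ?_) ?_
    · split_ifs <;> simp
    · rw [Finset.sum_ite_eq']; split_ifs <;> simp
  · refine le_trans (Finset.sum_le_sum (g := fun i => if i = j then 1 else 0) fun i _ => ?_) ?_
    · split_ifs
      · have : w i ≤ 1 := pow_le_one₀ (by norm_num) (by norm_num)
        have := w_pos i
        simp only [norm_one, mul_one]
        nlinarith
      · simp
    · rw [Finset.sum_ite_eq']; split_ifs <;> simp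

noncomputable def e (j : I) : X 𝕜 := (exists_e j).choose

theorem cf_e (i j : I) : cf i (e j : X 𝕜) = if i = j then 1 else 0 := (exists_e j).choose_spec i

theorem P_finset (F : Finset I) (x : X 𝕜) : P (F : Set I) x = ∑ j ∈ F, cf j x • e j :=
  ext_cf fun i => by
    simp only [map_sum, map_smul, cf_e, smul_eq_mul, mul_ite, mul_one, mul_zero,
      Finset.sum_ite_eq]
    split_ifs with h
    · exact cf_P_mem x h
    · exact cf_P_notMem x h

theorem norm_add_sq_le {x y : X 𝕜} (h : ∀ i, cf i x = 0 ∨ cf i y = 0) :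
    ‖x + y‖ ^ 2 ≤ ‖x‖ ^ 2 + ‖y‖ ^ 2 := by
  have hs : 0 ≤ ‖x‖ ^ 2 + ‖y‖ ^ 2 := by positivity
  have : ‖x + y‖ ≤ Real.sqrt (‖x‖ ^ 2 + ‖y‖ ^ 2) := by
    refine norm_le_of_bd (Real.sqrt_nonneg _) fun s => ⟨?_, ?_⟩
    · have e1 : ∑ i ∈ s, ‖cf i (x + y)‖ ^ 4 = ∑ i ∈ s, ‖cf i x‖ ^ 4 + ∑ i ∈ s, ‖cf i y‖ ^ 4 := by
        rw [← Finset.sum_add_distrib]
        refine Finset.sum_congr rfl fun i _ => ?_
        rcases h i with h | h <;> simp [h]
      have e2 : Real.sqrt (‖x‖ ^ 2 + ‖y‖ ^ 2) ^ 4 = (‖x‖ ^ 2 + ‖y‖ ^ 2) ^ 2 := by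
        rw [show (4:ℕ) = 2 * 2 from rfl, pow_mul, Real.sq_sqrt hs]
      have := (bd_norm x s).1
      have := (bd_norm y s).1
      rw [e1, e2]
      nlinarith [mul_nonneg (sq_nonneg ‖x‖) (sq_nonneg ‖y‖)]
    · have e1 : ∑ i ∈ s, (w i * ‖cf i (x + y)‖) ^ 2 =
          ∑ i ∈ s, (w i * ‖cf i x‖) ^ 2 + ∑ i ∈ s, (w i * ‖cf i y‖) ^ 2 := by
        rw [← Finset.sum_add_distrib]
        refine Finset.sum_congr rfl fun i _ => ?_
        rcases h i with h | h <;> simp [h]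
      have := (bd_norm x s).2
      have := (bd_norm y s).2
      rw [e1, Real.sq_sqrt hs]
      linarith
  calc ‖x + y‖ ^ 2 ≤ Real.sqrt (‖x‖ ^ 2 + ‖y‖ ^ 2) ^ 2 := by gcongr
    _ = _ := Real.sq_sqrt hs

theorem norm_sum_sq_le {κ : Type*} (x : κ → X 𝕜)
    (h : ∀ k l, k ≠ l → ∀ i, cf i (x k) = 0 ∨ cf i (x l) = 0) (s : Finset κ) :
    ‖∑ k ∈ s, x k‖ ^ 2 ≤ ∑ k ∈ s, ‖x k‖ ^ 2 := by
  classical
  induction s using Finset.induction_on with
  | empty => simp
  | insert a s ha ih =>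
    rw [Finset.sum_insert ha, Finset.sum_insert ha]
    refine (norm_add_sq_le fun i => ?_).trans (by linarith)
    by_cases h0 : cf i (x a) = 0
    · exact Or.inl h0
    · right
      rw [map_sum]
      exact Finset.sum_eq_zero fun k hk =>
        (h a k (fun e => ha (e ▸ hk)) i).resolve_left h0

theorem shrink (f : StrongDual 𝕜 (X 𝕜)) {ε : ℝ} (hε : 0 < ε) :
    ∃ F : Finset I, ∀ x, ‖f (P (F : Set I)ᶜ x)‖ ≤ ε * ‖x‖ := by
  classical
  by_contra h
  push Not at h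
  have step : ∀ F : Finset I, ∃ (G : Finset I) (y : X 𝕜), (∀ i ∈ F, cf i y = 0) ∧
      (∀ i, i ∉ G → cf i y = 0) ∧ ‖y‖ ≤ 1 ∧ ε ≤ RCLike.re (f y) := by
    intro F
    obtain ⟨x, hx⟩ := h F
    have hx0 : 0 < ‖x‖ := by
      rcases (norm_nonneg x).lt_or_eq with h0 | h0
      · exact h0
      · rw [norm_eq_zero.1 h0.symm] at hx; simp at hx
    set z := P (F : Set I)ᶜ x with hz
    obtain ⟨G, hG⟩ := tail z (ε := (‖f z‖ - ε * ‖x‖) / (‖f‖ + 1)) (by
      have : 0 < ‖f z‖ - ε * ‖x‖ := by linarith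
      positivity)
    have e1 : ε * ‖x‖ ≤ ‖f (P (G : Set I) z)‖ := by
      have e2 : ‖f z‖ ≤ ‖f (P (G : Set I) z)‖ + ‖f (P (G : Set I)ᶜ z)‖ := by
        conv_lhs => rw [← P_add_compl (G : Set I) z, map_add]
        exact norm_add_le _ _
      have e3 := f.le_opNorm (P (G : Set I)ᶜ z)
      have e4 : (‖f‖ + 1) * ‖P (G : Set I)ᶜ z‖ ≤ ‖f z‖ - ε * ‖x‖ := by
        rwa [le_div_iff₀' (by positivity)] at hG
      nlinarith [norm_nonneg (P (G : Set I)ᶜ z)]
    obtain ⟨c, hc1, hc2⟩ := RCLike.exists_norm_eq_mul_self (f (P (G : Set I) z))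
    refine ⟨G, ((‖x‖⁻¹ : ℝ) : 𝕜) • c • P (G : Set I) z, fun i hi => ?_, fun i hi => ?_, ?_, ?_⟩
    · rw [map_smul, map_smul, hz, P_P, cf_P_notMem x (fun h' => h'.2 hi)]; simp
    · rw [map_smul, map_smul, cf_P_notMem z hi]; simp
    · rw [norm_smul, norm_smul, hc1, RCLike.norm_ofReal, abs_of_pos (inv_pos.2 hx0), one_mul,
        inv_mul_le_iff₀ hx0, mul_one]
      exact (norm_P_le _ _).trans (norm_P_le _ _)
    · rw [f.map_smul, f.map_smul, smul_eq_mul, smul_eq_mul, ← hc2, ← RCLike.ofReal_mul, RCLike.ofReal_re,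
        le_inv_mul_iff₀ hx0]
      linarith
  have key : ∀ N : ℕ, ∃ (F : Finset I) (z : X 𝕜), (∀ i, i ∉ F → cf i z = 0) ∧ ‖z‖ ^ 2 ≤ N ∧
      ε * N ≤ RCLike.re (f z) := by
    intro N
    induction N with
    | zero => exact ⟨∅, 0, by simp, by simp, by simp⟩
    | succ N ih =>
      obtain ⟨F, z, h1, h2, h3⟩ := ih
      obtain ⟨G, y, g1, g2, g3, g4⟩ := step F
      refine ⟨F ∪ G, z + y, fun i hi => ?_, ?_, ?_⟩
      · rw [Finset.mem_union, not_or] at hi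
        rw [map_add, h1 i hi.1, g2 i hi.2, add_zero]
      · refine (norm_add_sq_le fun i => ?_).trans ?_
        · by_cases hi : i ∈ F
          · exact Or.inr (g1 i hi)
          · exact Or.inl (h1 i hi)
        · push_cast
          nlinarith [norm_nonneg y]
      · rw [map_add, map_add]; push_cast; linarith
  obtain ⟨N, hN⟩ := exists_nat_gt (‖f‖ ^ 2 / ε ^ 2)
  obtain ⟨F, z, -, h2, h3⟩ := key N
  have e1 : ε * N ≤ ‖f‖ * ‖z‖ := h3.trans ((RCLike.re_le_norm _).trans (f.le_opNorm z))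
  have hN0 : (0:ℝ) < N := lt_of_le_of_lt (by positivity) hN
  rw [div_lt_iff₀ (by positivity)] at hN
  have e2 : (ε * N) ^ 2 ≤ (‖f‖ * ‖z‖) ^ 2 := by gcongr
  have e3 : (‖f‖ * ‖z‖) ^ 2 ≤ ‖f‖ ^ 2 * N := by rw [mul_pow]; gcongr
  nlinarith

theorem reflexive : Function.Surjective (NormedSpace.inclusionInDoubleDual 𝕜 (X 𝕜)) := by
  intro Φ
  have hs : ∀ (s : Finset I) (f : StrongDual 𝕜 (X 𝕜)),
      f (∑ j ∈ s, Φ (cf j) • e j) = Φ (f.comp (P (s : Set I))) := by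
    intro s f
    have : f.comp (P (s : Set I)) = ∑ j ∈ s, f (e j) • cf j := by
      ext x
      simp [P_finset, mul_comm]
    rw [this]
    simp [mul_comm]
  have hn : ∀ (A : Set I) (f : StrongDual 𝕜 (X 𝕜)), ‖f.comp (P A)‖ ≤ ‖f‖ := fun A f =>
    ContinuousLinearMap.opNorm_le_bound _ (norm_nonneg _) fun x =>
      (f.le_opNorm _).trans (by gcongr; exact norm_P_le A x)
  have hb : Bd (fun i => Φ (cf i)) ‖Φ‖ := by
    intro s
    have h1 : ‖∑ j ∈ s, Φ (cf j) • (e j : X 𝕜)‖ ≤ ‖Φ‖ := by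
      refine NormedSpace.norm_le_dual_bound 𝕜 _ Φ.opNorm_nonneg fun f => ?_
      rw [hs]
      exact (Φ.le_opNorm _).trans (by gcongr; exact hn _ f)
    have h2 := bd_norm (∑ j ∈ s, Φ (cf j) • (e j : X 𝕜)) s
    have h3 : ∀ i ∈ s, cf i (∑ j ∈ s, Φ (cf j) • (e j : X 𝕜)) = Φ (cf i) := by
      intro i hi
      simp [cf_e, hi]
    constructor
    · refine le_trans (le_of_eq (Finset.sum_congr rfl fun i hi => by simp only [h3 i hi]))
        (h2.1.trans (by gcongr))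
    · refine le_trans (le_of_eq (Finset.sum_congr rfl fun i hi => by simp only [h3 i hi]))
        (h2.2.trans (by gcongr))
  obtain ⟨x, hx⟩ := exists_of_bd hb
  refine ⟨x, ContinuousLinearMap.ext fun f => ?_⟩
  rw [NormedSpace.dual_def]
  refine eq_of_forall_dist_le fun ε hε => ?_
  obtain ⟨F, hF⟩ := shrink f (ε := ε / (‖x‖ + ‖Φ‖ + 1)) (by positivity)
  have e1 : f (P (F : Set I) x) = Φ (f.comp (P (F : Set I))) := by
    rw [← hs, P_finset]; simp only [hx]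
  have e2 : f = f.comp (P (F : Set I)) + f.comp (P (F : Set I)ᶜ) := by
    ext y
    simp only [add_apply, ContinuousLinearMap.comp_apply, ← map_add,
      P_add_compl]
  have e3 : ‖f.comp (P (F : Set I)ᶜ)‖ ≤ ε / (‖x‖ + ‖Φ‖ + 1) :=
    ContinuousLinearMap.opNorm_le_bound _ (by positivity) hF
  have e4 : f x - Φ f = f (P (F : Set I)ᶜ x) - Φ (f.comp (P (F : Set I)ᶜ)) := by
    conv_lhs => rw [← P_add_compl (F : Set I) x, map_add, e1]
    have : Φ f = Φ (f.comp (P (F : Set I))) + Φ (f.comp (P (F : Set I)ᶜ)) := by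
      rw [← map_add, ← e2]
    rw [this]; ring
  rw [dist_eq_norm, e4]
  have e5 := hF x
  have e6 : ‖Φ (f.comp (P (F : Set I)ᶜ))‖ ≤ ‖Φ‖ * (ε / (‖x‖ + ‖Φ‖ + 1)) :=
    (Φ.le_opNorm _).trans (by gcongr)
  have e7 : ε / (‖x‖ + ‖Φ‖ + 1) * (‖x‖ + ‖Φ‖ + 1) = ε := div_mul_cancel₀ _ (by positivity)
  have e8 : 0 < ε / (‖x‖ + ‖Φ‖ + 1) := by positivity
  refine (norm_sub_le _ _).trans ?_
  nlinarith

end Pool.Agent.H41.Ker
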