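import Mathlib
import Pool.Agent.H41.Ker1

set_option autoImplicit false

open Set Filter Topology
open scoped ENNReal

namespace Pool.Agent.H41.Ker

variable {𝕜 : Type} [RCLike 𝕜]

theorem exists_signs {H : Type*} [NormedAddCommGroup H] [InnerProductSpace 𝕜 H] {κ : Type*}
    (h : κ → H) (s : Finset κ) :
    ∃ σ : κ → 𝕜, (∀ k, ‖σ k‖ = 1) ∧ ∑ k ∈ s, ‖h k‖ ^ 2 ≤ ‖∑ k ∈ s, σ k • h k‖ ^ 2 := by
  classical
  induction s using Finset.induction_on with
  | empty => exact ⟨fun _ => 1, by simp, by simp⟩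
  | insert a s ha ih =>
    obtain ⟨σ, h1, h2⟩ := ih
    have hp := parallelogram_law_with_norm 𝕜 (∑ k ∈ s, σ k • h k) (h a)
    have hu : ∀ c : 𝕜, ∑ k ∈ insert a s, Function.update σ a c k • h k =
        ∑ k ∈ s, σ k • h k + c • h a := by
      intro c
      rw [Finset.sum_insert ha, Function.update_self, add_comm]
      congr 1
      exact Finset.sum_congr rfl fun k hk => by
        rw [Function.update_of_ne (ne_of_mem_of_not_mem hk ha)]
    have hn : ∀ c : 𝕜, ‖c‖ = 1 → ∀ k, ‖Function.update σ a c k‖ = 1 := by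
      intro c hc k
      by_cases e : k = a
      · subst e; simpa using hc
      · rw [Function.update_of_ne e]; exact h1 k
    rcases le_total ‖∑ k ∈ s, σ k • h k - h a‖ ‖∑ k ∈ s, σ k • h k + h a‖ with hle | hle
    · refine ⟨Function.update σ a 1, hn 1 (by simp), ?_⟩
      rw [hu, one_smul, Finset.sum_insert ha]
      nlinarith [norm_nonneg (∑ k ∈ s, σ k • h k - h a), norm_nonneg (∑ k ∈ s, σ k • h k + h a)]
    · refine ⟨Function.update σ a (-1), hn (-1) (by simp), ?_⟩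
      rw [hu, neg_one_smul, ← sub_eq_add_neg, Finset.sum_insert ha]
      nlinarith [norm_nonneg (∑ k ∈ s, σ k • h k - h a), norm_nonneg (∑ k ∈ s, σ k • h k + h a)]

theorem V_inj {x : X 𝕜} (h : V x = 0) : x = 0 := ext_cf fun i => by
  have := V_apply x i
  rw [h] at this
  have hw : (w i : 𝕜) ≠ 0 := by exact_mod_cast (w_pos i).ne'
  simpa [hw] using this.symm

theorem summable_phi (γ : ℝ) (x : X 𝕜) : Summable fun k : ℕ => ((1 / 2 : ℝ) ^ k : ℝ) • cf (γ, k) x := by
  refine Summable.of_norm_bounded (g := fun k => (1 / 2 : ℝ) ^ k * ‖x‖)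
    (summable_geometric_two.mul_right _) fun k => ?_
  rw [norm_smul, Real.norm_of_nonneg (by positivity)]
  gcongr
  exact cf_le _ x

noncomputable def phi (γ : ℝ) : StrongDual 𝕜 (X 𝕜) :=
  LinearMap.mkContinuous
    { toFun := fun x => ∑' k : ℕ, ((1 / 2 : ℝ) ^ k : ℝ) • cf (γ, k) x
      map_add' := fun x y => by
        rw [← (summable_phi γ x).tsum_add (summable_phi γ y)]
        simp only [map_add, smul_add]
      map_smul' := fun c x => by
        rw [RingHom.id_apply, ← (summable_phi γ x).tsum_const_smul c]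
        simp only [map_smul, smul_comm c] } 2
    (fun x => by
      refine tsum_of_norm_bounded (g := fun k => (1 / 2 : ℝ) ^ k * ‖x‖)
        (hasSum_geometric_two.mul_right _) fun k => ?_
      rw [norm_smul, Real.norm_of_nonneg (by positivity)]
      gcongr
      exact cf_le _ x)

theorem phi_e (β γ : ℝ) (M : ℕ) :
    phi β (e (γ, M) : X 𝕜) = if β = γ then (((1 / 2 : ℝ) ^ M : ℝ) : 𝕜) else 0 := by
  change ∑' k : ℕ, ((1 / 2 : ℝ) ^ k : ℝ) • cf (β, k) (e (γ, M) : X 𝕜) = _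
  rw [tsum_eq_single M (fun k hk => by simp [cf_e, hk])]
  by_cases h : β = γ
  · simp [cf_e, h, RCLike.real_smul_eq_coe_mul]
  · simp [cf_e, h]

theorem negative : ¬ Positive 𝕜 (X 𝕜) := by
  classical
  intro hpos
  obtain ⟨T, hT⟩ := hpos (⨅ γ : ℝ, LinearMap.ker (phi (𝕜 := 𝕜) γ).toLinearMap) (by
    rw [Submodule.coe_iInf]
    exact isClosed_iInter fun γ => (phi γ).isClosed_ker)
  simp only [Submodule.mem_iInf, LinearMap.mem_ker, ContinuousLinearMap.coe_coe] at hT
  let S := V.comp T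
  have h0 : ∀ γ : ℝ, S (e (γ, 0)) ≠ 0 := by
    intro γ h
    have := (hT _).1 (V_inj h) γ
    rw [phi_e] at this
    simp at this
  have hM : ∀ (γ : ℝ) (M : ℕ), S (e (γ, 0)) = S (((2 : 𝕜) ^ M) • e (γ, M)) := by
    intro γ M
    rw [← sub_eq_zero, ← map_sub]
    change V (T _) = 0
    rw [(hT _).2 fun β => ?_, map_zero]
    rw [map_sub, map_smul, phi_e, phi_e]
    split_ifs
    · push_cast
      rw [smul_eq_mul, ← mul_pow]
      simp
    · simp
  obtain ⟨m, hm⟩ : ∃ m : ℕ, {γ : ℝ | 1 / ((m:ℝ) + 1) < ‖S (e (γ, 0))‖}.Infinite := by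
    by_contra h
    push Not at h
    refine Set.not_countable_univ (α := ℝ)
      ((countable_iUnion fun m => (h m).countable).mono fun γ _ => ?_)
    obtain ⟨m, hm⟩ := exists_nat_one_div_lt (norm_pos_iff.2 (h0 γ))
    exact mem_iUnion.2 ⟨m, hm⟩
  set δ : ℝ := 1 / ((m:ℝ) + 1) with hδ
  have hδ0 : 0 < δ := by positivity
  obtain ⟨M, hM'⟩ := pow_unbounded_of_one_lt (‖S‖ ^ 2 / δ ^ 2) (show (1:ℝ) < 4 by norm_num)
  obtain ⟨F, hF, hFc⟩ := hm.exists_subset_card_eq (256 ^ M)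
  obtain ⟨σ, hσ1, hσ2⟩ := exists_signs (𝕜 := 𝕜) (fun γ => S (e (γ, 0))) F
  have e1 : (256:ℝ) ^ M * δ ^ 2 ≤ ∑ γ ∈ F, ‖S (e (γ, 0))‖ ^ 2 := by
    have := Finset.card_nsmul_le_sum F (fun γ => ‖S (e (γ, 0))‖ ^ 2) (δ ^ 2) fun γ hγ => by
      have : δ < ‖S (e (γ, 0))‖ := hF hγ
      gcongr
    rw [hFc, nsmul_eq_mul] at this
    exact_mod_cast this
  set z : X 𝕜 := ∑ γ ∈ F, σ γ • ((2 : 𝕜) ^ M) • e (γ, M) with hz
  have e2 : ∑ γ ∈ F, σ γ • S (e (γ, 0)) = S z := by
    rw [hz, map_sum]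
    exact Finset.sum_congr rfl fun γ _ => by rw [map_smul, ← hM]
  have hc : ∀ i, ‖cf i z‖ = if i ∈ F.image (fun γ => (γ, M)) then (2:ℝ) ^ M else 0 := by
    rintro ⟨β, k⟩
    simp only [hz, map_sum, map_smul, cf_e, smul_eq_mul, mul_ite, mul_one, mul_zero, Prod.mk.injEq,
      Finset.mem_image]
    by_cases hk : k = M
    · subst hk
      simp only [and_true, Finset.sum_ite_eq, exists_eq_right]
      split_ifs
      · simp [hσ1]
      · simp
    · simp [hk, Ne.symm hk]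
  have hcard : (F.image (fun γ => (γ, M))).card ≤ 256 ^ M := hFc ▸ Finset.card_image_le
  have hsum : ∀ (s : Finset I) (c : ℝ), 0 ≤ c →
      ∑ i ∈ s, (if i ∈ F.image (fun γ => (γ, M)) then c else 0) ≤ 256 ^ M * c := by
    intro s c hc
    rw [Finset.sum_ite_mem, Finset.sum_const, nsmul_eq_mul]
    gcongr
    exact_mod_cast (Finset.card_le_card Finset.inter_subset_right).trans hcard
  have e3 : ‖z‖ ≤ 8 ^ M := by
    refine norm_le_of_bd (by positivity) fun s => ⟨?_, ?_⟩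
    · refine le_trans (le_of_eq (Finset.sum_congr rfl fun i _ => ?_))
        ((hsum s (16 ^ M) (by positivity)).trans (le_of_eq ?_))
      · simp only [hc]
        split_ifs
        · rw [← pow_mul, mul_comm, pow_mul]; norm_num
        · simp
      · rw [← mul_pow, ← pow_mul, mul_comm M, pow_mul]; norm_num
    · refine le_trans (le_of_eq (Finset.sum_congr rfl fun i _ => ?_))
        ((hsum s ((1 / 4) ^ M) (by positivity)).trans (le_of_eq ?_))
      · simp only [hc]
        split_ifs with h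
        · obtain ⟨γ, -, rfl⟩ := Finset.mem_image.1 h
          simp only [w]
          rw [← mul_pow, ← pow_mul, mul_comm M, pow_mul]; norm_num
        · simp
      · rw [← mul_pow, ← pow_mul, mul_comm M, pow_mul]; norm_num
  have e4 : ‖S z‖ ≤ ‖S‖ * 8 ^ M := (S.le_opNorm z).trans (by gcongr)
  have e5 : ‖S z‖ ^ 2 ≤ ‖S‖ ^ 2 * 64 ^ M := by
    calc ‖S z‖ ^ 2 ≤ (‖S‖ * 8 ^ M) ^ 2 := by gcongr
      _ = _ := by rw [mul_pow, ← pow_mul, mul_comm M, pow_mul]; norm_num
  rw [e2] at hσ2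
  rw [div_lt_iff₀ (by positivity)] at hM'
  have e6 : (256:ℝ) ^ M = 4 ^ M * 64 ^ M := by rw [← mul_pow]; norm_num
  have e7 : (0:ℝ) < 64 ^ M := by positivity
  nlinarith

end Pool.Agent.H41.Ker
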