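import Mathlib
import Pool.Agent.H41.Ker2

set_option autoImplicit false

open Set Filter Topology TopologicalSpace
open scoped ENNReal

namespace Pool.Agent.H41.Ker

variable {𝕜 : Type} [RCLike 𝕜]

theorem countable_supp (x : X 𝕜) : {i | cf i x ≠ 0}.Countable := by
  choose F hF using fun n : ℕ => tail x (show (0:ℝ) < 1 / ((n:ℝ) + 1) by positivity)
  refine (countable_iUnion fun n => (F n).countable_toSet).mono fun i hi => ?_
  obtain ⟨n, hn⟩ := exists_nat_one_div_lt (norm_pos_iff.2 hi)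
  refine mem_iUnion.2 ⟨n, ?_⟩
  by_contra h
  have := (cf_le i (P (F n : Set I)ᶜ x)).trans (hF n)
  rw [cf_P_mem x (A := (F n : Set I)ᶜ) h] at this
  linarith

theorem isSeparable_supp {B : Set I} (hB : B.Countable) :
    IsSeparable {x : X 𝕜 | ∀ i, i ∉ B → cf i x = 0} := by
  classical
  refine ((hB.image fun j => (e j : X 𝕜)).isSeparable.span (R := 𝕜)).closure.mono fun x hx => ?_
  rw [Metric.mem_closure_iff]
  intro ε hε
  obtain ⟨F, hF⟩ := tail x (half_pos hε)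
  refine ⟨P (F : Set I) x, ?_, ?_⟩
  · rw [P_finset]
    refine Submodule.sum_mem _ fun j _ => ?_
    by_cases hj : j ∈ B
    · exact Submodule.smul_mem _ _ (Submodule.subset_span ⟨j, hj, rfl⟩)
    · rw [hx j hj, zero_smul]; exact Submodule.zero_mem _
  · rw [dist_eq_norm]
    have : x - P (F : Set I) x = P (F : Set I)ᶜ x := by
      rw [sub_eq_iff_eq_add', P_add_compl]
    rw [this]; linarith

variable (Y : Submodule 𝕜 (StrongDual 𝕜 (X 𝕜)))

def EE : Set (X 𝕜) := {x | ∀ f ∈ Y, f x = 0}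

def Inv (A : Set I) : Prop := ∀ x ∈ EE Y, P A x ∈ EE Y

theorem Inv.compl {A : Set I} (h : Inv Y A) : Inv Y Aᶜ := by
  intro x hx f hf
  have := congrArg f (P_add_compl A x)
  rwa [map_add, h x hx f hf, hx f hf, zero_add] at this

theorem Inv.inter {A B : Set I} (h : Inv Y A) (h' : Inv Y B) : Inv Y (A ∩ B) := by
  intro x hx
  rw [← P_P]
  exact h _ (h' x hx)

theorem inv_univ : Inv Y univ := fun x hx => by rwa [P_eq_self (by simp)]

theorem inv_of_approx {A : Set I} (h : ∀ F : Finset I, ∃ A', Inv Y A' ∧ ∀ i ∈ F, i ∈ A' ↔ i ∈ A) :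
    Inv Y A := by
  intro x hx f hf
  refine eq_of_forall_dist_le fun ε hε => ?_
  obtain ⟨F, hF⟩ := tail x (ε := ε / (‖f‖ + 1)) (by positivity)
  obtain ⟨A', h1, h2⟩ := h F
  rw [← h1 x hx f hf, dist_eq_norm, ← map_sub]
  have : ‖P A x - P A' x‖ ≤ ‖P (F : Set I)ᶜ x‖ := by
    refine norm_mono fun i => ?_
    rw [map_sub]
    by_cases hi : i ∈ F
    · have := h2 i hi
      by_cases hA : i ∈ A
      · rw [cf_P_mem x hA, cf_P_mem x (this.2 hA)]; simp
      · rw [cf_P_notMem x hA, cf_P_notMem x (mt this.1 hA)]; simp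
    · rw [cf_P_mem x (A := (F : Set I)ᶜ) hi]
      by_cases hA : i ∈ A <;> by_cases hA' : i ∈ A' <;> simp [cf_P, hA, hA']
  have e1 := f.le_opNorm (P A x - P A' x)
  rw [le_div_iff₀' (by positivity)] at hF
  nlinarith [norm_nonneg f, norm_nonneg (P A x - P A' x)]

theorem exists_N (F : Finset I) : ∃ N : Set I, N.Countable ∧ ∀ x ∈ EE Y, ∀ ε > 0, ∃ d ∈ EE Y,
    (∀ i, i ∉ N → cf i d = 0) ∧ ‖d‖ ≤ ‖x‖ + 1 ∧ ‖P (F : Set I) (x - d)‖ ≤ ε := by
  have hs : ∀ n : ℕ, IsSeparable (P (F : Set I) '' {x ∈ EE Y | ‖x‖ ≤ n}) := fun n =>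
    (isSeparable_supp F.countable_toSet).mono (by
      rintro _ ⟨x, -, rfl⟩ i hi
      exact cf_P_notMem x hi)
  choose t ht1 ht2 ht3 using fun n => (hs n).exists_countable_dense_subset
  choose! g hg1 hg2 using fun n (y : X 𝕜) (hy : y ∈ t n) => ht1 n hy
  refine ⟨⋃ n, ⋃ y ∈ t n, {i | cf i (g n y) ≠ 0}, countable_iUnion fun n =>
    (ht2 n).biUnion fun y _ => countable_supp _, fun x hx ε hε => ?_⟩
  obtain ⟨y, hy, hd⟩ := Metric.mem_closure_iff.1 (ht3 ⌈‖x‖⌉₊ ⟨x, ⟨hx, Nat.le_ceil _⟩, rfl⟩) ε hε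
  refine ⟨g _ y, (hg1 _ y hy).1, fun i hi => ?_,
    (hg1 _ y hy).2.trans (Nat.ceil_lt_add_one (norm_nonneg x)).le, ?_⟩
  · by_contra h
    exact hi (mem_iUnion.2 ⟨_, mem_iUnion₂.2 ⟨y, hy, h⟩⟩)
  · rw [map_sub, hg2 _ y hy, ← dist_eq_norm]; exact hd.le

theorem exists_inv (i : I) : ∃ A, Inv Y A ∧ A.Countable ∧ i ∈ A := by
  classical
  choose N hN1 hN2 using exists_N Y
  let A : ℕ → Set I := fun k => Nat.rec {i} (fun _ B => B ∪ ⋃ F ∈ {F : Finset I | ↑F ⊆ B}, N F) k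
  have hA : ∀ k, A (k + 1) = A k ∪ ⋃ F ∈ {F : Finset I | ↑F ⊆ A k}, N F := fun k => rfl
  have hc : ∀ k, (A k).Countable := by
    intro k
    induction k with
    | zero => exact countable_singleton i
    | succ k ih =>
      rw [hA]
      refine ih.union (Set.Countable.biUnion ?_ fun F _ => hN1 F)
      exact ((countable_ofPred_finite_subset ih).preimage_of_injOn
        (f := fun F : Finset I => (F : Set I)) Finset.coe_injective.injOn).mono
        fun F hF => And.intro F.finite_toSet hF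
  have hmono : Monotone A := monotone_nat_of_le_succ fun k => by rw [hA]; exact subset_union_left
  refine ⟨⋃ k, A k, fun x hx f hf => ?_, countable_iUnion hc, mem_iUnion.2 ⟨0, rfl⟩⟩
  set U := ⋃ k, A k
  refine eq_of_forall_dist_le fun ε hε => ?_
  set η := ε / (‖f‖ + 2 * ‖x‖ + 1) with hη
  have hη0 : 0 < η := by positivity
  obtain ⟨F', hF'⟩ := shrink f hη0
  let F := F'.filter (· ∈ U)
  obtain ⟨k, hk⟩ : ∃ k, (F : Set I) ⊆ A k := by
    have h1 : ∀ j ∈ F, ∀ᶠ k in atTop, j ∈ A k := by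
      intro j hj
      obtain ⟨k, hk⟩ := mem_iUnion.1 (Finset.mem_filter.1 hj).2
      exact (eventually_ge_atTop k).mono fun l hl => hmono hl hk
    exact ((eventually_all_finset F).2 h1).exists
  obtain ⟨d, hd1, hd2, hd3, hd4⟩ := hN2 F x hx η hη0
  have hd5 : P U d = d := P_eq_self fun j hj => hd2 j fun h => hj
    (mem_iUnion.2 ⟨k + 1, by rw [hA]; exact Or.inr (mem_iUnion₂.2 ⟨F, hk, h⟩)⟩)
  have e1 : f (P U x) = f (P (F : Set I) (x - d)) + f (P (F' : Set I)ᶜ (P U (x - d))) := by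
    have : (F : Set I) = (F' : Set I) ∩ U := by ext j; simp [F]
    rw [this, ← P_P, ← map_add, P_add_compl, map_sub, map_sub, hd5, hd1 f hf, sub_zero]
  rw [dist_zero_right, e1]
  have e2 : ‖f (P (F : Set I) (x - d))‖ ≤ ‖f‖ * η := (f.le_opNorm _).trans (by gcongr)
  have e3 := hF' (P U (x - d))
  have e4 : ‖P U (x - d)‖ ≤ 2 * ‖x‖ + 1 := (norm_P_le _ _).trans ((norm_sub_le _ _).trans (by linarith))
  have e5 : η * (‖f‖ + 2 * ‖x‖ + 1) = ε := div_mul_cancel₀ _ (by positivity)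
  refine (norm_add_le _ _).trans ?_
  nlinarith

def St : Setoid I where
  r i j := ∀ A, Inv Y A → (i ∈ A ↔ j ∈ A)
  iseqv := ⟨fun _ _ _ => Iff.rfl, fun h A hA => (h A hA).symm,
    fun h h' A hA => (h A hA).trans (h' A hA)⟩

def cls (i : I) : Set I := {j | (St Y).r i j}

theorem cls_countable (i : I) : (cls Y i).Countable := by
  obtain ⟨A, h1, h2, h3⟩ := exists_inv Y i
  exact h2.mono fun j hj => (hj A h1).1 h3

theorem inv_cls (i : I) : Inv Y (cls Y i) := by
  classical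
  refine inv_of_approx Y fun F => ?_
  suffices h : ∃ A', Inv Y A' ∧ i ∈ A' ∧ ∀ j ∈ F, j ∈ A' → j ∈ cls Y i by
    obtain ⟨A', h1, h2, h3⟩ := h
    exact ⟨A', h1, fun j hj => ⟨h3 j hj, fun h => (h A' h1).1 h2⟩⟩
  induction F using Finset.induction_on with
  | empty => exact ⟨univ, inv_univ Y, mem_univ _, by simp⟩
  | insert a s _ ih =>
    obtain ⟨A', h1, h2, h3⟩ := ih
    by_cases ha : a ∈ cls Y i
    · refine ⟨A', h1, h2, fun j hj hA => ?_⟩
      rcases Finset.mem_insert.1 hj with rfl | hj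
      · exact ha
      · exact h3 j hj hA
    · obtain ⟨B, hB, hiB, haB⟩ : ∃ B, Inv Y B ∧ i ∈ B ∧ a ∉ B := by
        have ha' : ¬ ∀ A, Inv Y A → (i ∈ A ↔ a ∈ A) := ha
        simp only [not_forall] at ha'
        obtain ⟨B, hB, hne⟩ := ha'
        by_cases hi : i ∈ B
        · exact ⟨B, hB, hi, fun h => hne ⟨fun _ => h, fun _ => hi⟩⟩
        · exact ⟨Bᶜ, hB.compl Y, hi, fun h => hne ⟨fun h' => absurd h' hi, fun h' => absurd h' h⟩⟩
      refine ⟨A' ∩ B, h1.inter Y hB, ⟨h2, hiB⟩, fun j hj hA => ?_⟩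
      rcases Finset.mem_insert.1 hj with rfl | hj
      · exact absurd hA.2 haB
      · exact h3 j hj hA.1

theorem exists_y : ∃ y : I × ℕ → X 𝕜, (∀ p, y p ∈ EE Y) ∧ (∀ p, ‖y p‖ ≤ 1) ∧
    (∀ n k l, k ≠ l → ∀ i, cf i (y (k, n)) = 0 ∨ cf i (y (l, n)) = 0) ∧
    ∀ f : StrongDual 𝕜 (X 𝕜), (∀ p, f (y p) = 0) → ∀ x ∈ EE Y, f x = 0 := by
  classical
  have h1 : ∀ i, ∃ d : ℕ → X 𝕜, (∀ n, d n ∈ EE Y ∧ ∀ j, j ∉ cls Y i → cf j (d n) = 0) ∧
      {x ∈ EE Y | ∀ j, j ∉ cls Y i → cf j x = 0} ⊆ closure (range d) := by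
    intro i
    obtain ⟨t, ht1, ht2, ht3⟩ := ((isSeparable_supp (cls_countable Y i)).mono
      (show {x ∈ EE Y | ∀ j, j ∉ cls Y i → cf j x = 0} ⊆ _ from
        fun x hx => hx.2)).exists_countable_dense_subset
    have hne : t.Nonempty := by
      rw [← closure_nonempty_iff]
      exact ⟨0, ht3 ⟨fun f _ => map_zero f, fun j _ => map_zero _⟩⟩
    obtain ⟨d, rfl⟩ := ht2.exists_eq_range hne
    exact ⟨d, fun n => ht1 ⟨n, rfl⟩, ht3⟩
  choose d hd1 hd2 using h1
  let rep : I → I := fun i => (Quotient.mk (St Y) i).out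
  have hrep : ∀ i, (St Y).r (rep i) i := fun i => Quotient.mk_out (s := St Y) i
  have hrep2 : ∀ i j, (St Y).r i j → rep i = rep j := fun i j h => by
    simp only [rep, Quotient.sound h]
  let y : I × ℕ → X 𝕜 := fun p =>
    if rep p.1 = p.1 then (((‖d p.1 p.2‖ + 1)⁻¹ : ℝ) : 𝕜) • d p.1 p.2 else 0
  have hy : ∀ k n i, cf i (y (k, n)) ≠ 0 → rep i = k := by
    intro k n i h
    simp only [y] at h
    split_ifs at h with h'
    · have : i ∈ cls Y k := by
        by_contra hi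
        exact h (by rw [map_smul, (hd1 k n).2 i hi, smul_zero])
      exact (hrep2 k i this).symm.trans h'
    · exact absurd (map_zero _) h
  refine ⟨y, fun p f hf => ?_, fun p => ?_, fun n k l hkl i => ?_, fun f hf => ?_⟩
  · simp only [y]
    split_ifs
    · rw [map_smul, (hd1 _ _).1 f hf, smul_zero]
    · exact map_zero f
  · simp only [y]
    split_ifs
    · rw [norm_smul, RCLike.norm_ofReal, abs_of_pos (by positivity),
        inv_mul_le_iff₀ (by positivity)]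
      linarith
    · simp
  · by_contra h
    rw [not_or] at h
    exact hkl ((hy k n i h.1).symm.trans (hy l n i h.2))
  · have hz : ∀ j, ∀ x ∈ EE Y, f (P (cls Y j) x) = 0 := by
      intro j x hx
      have hr : rep (rep j) = rep j := hrep2 _ _ (hrep j)
      have e1 : range (d (rep j)) ⊆ {z | f z = 0} := by
        rintro _ ⟨n, rfl⟩
        have := hf (rep j, n)
        simp only [y, if_pos hr, map_smul, smul_eq_mul, mul_eq_zero] at this
        refine this.resolve_left ?_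
        have : (0:ℝ) < (‖d (rep j) n‖ + 1)⁻¹ := by positivity
        exact_mod_cast this.ne'
      refine closure_minimal e1 (isClosed_eq f.continuous continuous_const) (hd2 (rep j)
        ⟨inv_cls Y j x hx, fun i hi => cf_P_notMem x fun h => hi ?_⟩)
      exact (St Y).iseqv.trans (hrep j) h
    have hF : ∀ F : Finset I, ∃ A, Inv Y A ∧ (∀ i ∈ F, i ∉ A) ∧ ∀ x ∈ EE Y, f (P A x) = f x := by
      intro F
      induction F using Finset.induction_on with
      | empty => exact ⟨univ, inv_univ Y, by simp, fun x _ => by rw [P_eq_self (by simp)]⟩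
      | insert a s _ ih =>
        obtain ⟨A, g1, g2, g3⟩ := ih
        refine ⟨(cls Y a)ᶜ ∩ A, ((inv_cls Y a).compl Y).inter Y g1, fun i hi h => ?_, fun x hx => ?_⟩
        · rcases Finset.mem_insert.1 hi with rfl | hi
          · exact h.1 ((St Y).iseqv.refl _)
          · exact g2 i hi h.2
        · have := congrArg f (P_add_compl (cls Y a) (P A x))
          rwa [map_add, hz a _ (g1 x hx), zero_add, P_P, g3 x hx] at this
    intro x hx
    refine eq_of_forall_dist_le fun ε hε => ?_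
    obtain ⟨F, hF'⟩ := tail x (ε := ε / (‖f‖ + 1)) (by positivity)
    obtain ⟨A, -, g2, g3⟩ := hF F
    rw [dist_zero_right, ← g3 x hx]
    have e1 : ‖P A x‖ ≤ ‖P (F : Set I)ᶜ x‖ := norm_P_mono (fun i hi h => g2 i h hi) x
    have e2 := f.le_opNorm (P A x)
    rw [le_div_iff₀' (by positivity)] at hF'
    nlinarith [norm_nonneg f, norm_nonneg (P A x)]

theorem sum_sq_le {κ : Type*} (y : κ → X 𝕜) (h1 : ∀ k, ‖y k‖ ≤ 1)
    (h : ∀ k l, k ≠ l → ∀ i, cf i (y k) = 0 ∨ cf i (y l) = 0) (f : StrongDual 𝕜 (X 𝕜))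
    (s : Finset κ) : ∑ k ∈ s, ‖f (y k)‖ ^ 2 ≤ ‖f‖ ^ 2 := by
  set S := ∑ k ∈ s, ‖f (y k)‖ ^ 2 with hS
  have hS0 : 0 ≤ S := Finset.sum_nonneg fun _ _ => by positivity
  set z := ∑ k ∈ s, (starRingEnd 𝕜) (f (y k)) • y k
  have e1 : f z = (S : 𝕜) := by
    simp only [z, hS, map_sum, map_smul, smul_eq_mul, RCLike.conj_mul]
    push_cast
    rfl
  have e2 : ‖z‖ ^ 2 ≤ S := by
    refine (norm_sum_sq_le _ (fun k l hkl i => ?_) s).trans (Finset.sum_le_sum fun k _ => ?_)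
    · rcases h k l hkl i with h' | h' <;> simp [h']
    · rw [norm_smul, RCLike.norm_conj]
      have := h1 k
      have := mul_le_of_le_one_right (norm_nonneg (f (y k))) this
      gcongr
  have e3 : S ≤ ‖f‖ * ‖z‖ := by
    have := f.le_opNorm z
    rwa [e1, RCLike.norm_ofReal, abs_of_nonneg hS0] at this
  by_contra hlt
  rw [not_le] at hlt
  have e4 : S ^ 2 ≤ (‖f‖ * ‖z‖) ^ 2 := by gcongr
  have e5 : (‖f‖ * ‖z‖) ^ 2 ≤ ‖f‖ ^ 2 * S := by rw [mul_pow]; gcongr
  have : 0 < S := lt_of_le_of_lt (by positivity) hlt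
  nlinarith

def eqv : I ≃ I × ℕ :=
  (Equiv.prodCongr (Equiv.refl ℝ) Nat.pairEquiv.symm).trans (Equiv.prodAssoc ℝ ℕ ℕ).symm

theorem positive : Positive 𝕜 (StrongDual 𝕜 (X 𝕜)) := by
  classical
  intro Y hY
  obtain ⟨y, h1, h2, h3, h4⟩ := exists_y Y
  let c : StrongDual 𝕜 (X 𝕜) → I → 𝕜 := fun f i =>
    (starRingEnd 𝕜) ((((1 / 2 : ℝ) ^ (eqv i).2 : ℝ) : 𝕜) * f (y (eqv i)))
  have hb : ∀ f (s : Finset I), ∑ i ∈ s, ‖c f i‖ ^ (2 : ℝ≥0∞).toReal ≤
      (2 * ‖f‖) ^ (2 : ℝ≥0∞).toReal := by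
    intro f s
    simp only [t2, Real.rpow_natCast]
    let g : I × ℕ → ℝ := fun p => (1 / 2 : ℝ) ^ p.2 * ‖f (y p)‖ ^ 2
    have hg : ∀ p, 0 ≤ g p := fun p => by positivity
    have e1 : ∑ i ∈ s, ‖c f i‖ ^ 2 ≤ ∑ p ∈ s.map eqv.toEmbedding, g p := by
      rw [Finset.sum_map]
      refine Finset.sum_le_sum fun i _ => ?_
      simp only [c, g, RCLike.norm_conj, norm_mul, RCLike.norm_ofReal, Equiv.coe_toEmbedding,
        mul_pow, sq_abs]
      gcongr
      rw [sq]
      exact mul_le_of_le_one_right (by positivity) (pow_le_one₀ (by norm_num) (by norm_num))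
    have e2 : ∑ p ∈ s.map eqv.toEmbedding, g p ≤
        ∑ p ∈ ((s.map eqv.toEmbedding).image Prod.fst) ×ˢ ((s.map eqv.toEmbedding).image Prod.snd),
          g p := Finset.sum_le_sum_of_subset_of_nonneg Finset.subset_product fun p _ _ => hg p
    rw [Finset.sum_product_right] at e2
    have e3 : ∀ n, ∑ k ∈ (s.map eqv.toEmbedding).image Prod.fst, g (k, n) ≤
        (1 / 2 : ℝ) ^ n * ‖f‖ ^ 2 := by
      intro n
      simp only [g]
      rw [← Finset.mul_sum]
      gcongr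
      exact sum_sq_le (fun k => y (k, n)) (fun k => h2 _) (h3 n) f _
    have e4 := Finset.sum_le_sum fun n (_ : n ∈ (s.map eqv.toEmbedding).image Prod.snd) => e3 n
    rw [← Finset.sum_mul] at e4
    have e5 : ∑ n ∈ (s.map eqv.toEmbedding).image Prod.snd, (1 / 2 : ℝ) ^ n ≤ 2 :=
      sum_le_hasSum _ (fun _ _ => by positivity) hasSum_geometric_two
    have e6 := mul_le_mul_of_nonneg_right e5 (sq_nonneg ‖f‖)
    nlinarith [sq_nonneg ‖f‖]
  let C : StrongDual 𝕜 (X 𝕜) → L2 𝕜 := fun f => ⟨c f, memℓp_gen' (hb f)⟩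
  have hC : ∀ f i, C f i = c f i := fun f i => rfl
  have hCn : ∀ f, ‖C f‖ ≤ 2 * ‖f‖ := fun f =>
    lp.norm_le_of_forall_sum_le (by norm_num) (by positivity) (hb f)
  have hCa : ∀ f g, C (f + g) = C f + C g := fun f g => lp.ext (funext fun i => by
    simp only [lp.coeFn_add, Pi.add_apply, hC, c, add_apply, mul_add, map_add])
  have hCs : ∀ (a : 𝕜) f, C (a • f) = (starRingEnd 𝕜) a • C f := fun a f => lp.ext (funext fun i => by
    simp only [lp.coeFn_smul, Pi.smul_apply, hC, c, smul_apply, smul_eq_mul, map_mul]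
    ring)
  let T : StrongDual 𝕜 (X 𝕜) →L[𝕜] StrongDual 𝕜 (X 𝕜) := LinearMap.mkContinuous
    { toFun := fun f => (innerSL 𝕜 (C f)).comp V
      map_add' := fun f g => by ext x; simp [hCa]
      map_smul' := fun a f => by ext x; simp [hCs, inner_smul_left] } (2 * ‖(V : X 𝕜 →L[𝕜] L2 𝕜)‖)
    (fun f => by
      refine (ContinuousLinearMap.opNorm_comp_le _ _).trans ?_
      rw [innerSL_apply_norm]
      have := hCn f
      nlinarith [norm_nonneg (V : X 𝕜 →L[𝕜] L2 𝕜)])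
  have hT : ∀ f x, T f x = inner 𝕜 (C f) (V x) := fun f x => rfl
  refine ⟨T, fun f => ⟨fun h => ?_, fun h => ?_⟩⟩
  · have e1 : ∀ p, f (y p) = 0 := by
      intro p
      have e2 : V (e (eqv.symm p) : X 𝕜) = lp.single 2 (eqv.symm p) (w (eqv.symm p) : 𝕜) := by
        refine lp.ext (funext fun i => ?_)
        rw [V_apply, cf_e, lp.single_apply, Pi.single_apply]
        split_ifs with h'
        · simp [h']
        · simp
      have e3 := hT f (e (eqv.symm p))
      rw [h, e2, lp.inner_single_right, hC] at e3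
      have hw : (w (eqv.symm p) : 𝕜) ≠ 0 := by exact_mod_cast (w_pos _).ne'
      simpa [c, hw] using e3.symm
    by_contra hf
    have : IsClosed (Y : Set (StrongDual 𝕜 (X 𝕜))) := hY
    have hq : Y.mkQL f ≠ 0 := by
      rw [Submodule.mkQL_apply, Submodule.mkQ_apply, Ne, Submodule.Quotient.mk_eq_zero]
      exact hf
    obtain ⟨ψ, hψ⟩ := SeparatingDual.exists_ne_zero (R := 𝕜) hq
    obtain ⟨x, hx⟩ := reflexive (ψ.comp Y.mkQL)
    have e4 : ∀ g, g x = ψ (Y.mkQL g) := fun g => congrArg (fun Φ => Φ g) hx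
    refine hψ ?_
    rw [← e4]
    refine h4 f e1 x fun g hg => ?_
    rw [e4, Submodule.mkQL_apply, Submodule.mkQ_apply, (Submodule.Quotient.mk_eq_zero Y).2 hg,
      map_zero]
  · ext x
    have : C f = 0 := lp.ext (funext fun i => by simp [hC, c, h1 _ f h])
    rw [hT, this, inner_zero_left]
    rfl

end Pool.Agent.H41.Ker
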