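import Pool.Agent.H41.KwdDefs

set_option autoImplicit false

namespace Pool.Agent.H41.Kwd

open Finset

section det
variable {ι : Type} [Fintype ι] [DecidableEq ι]

lemma kwd_spec (lt : ι → ι → Prop) (k : ℕ) : ∃ P : Finpartition (univ : Finset ι),
    P.parts.card = kwd lt k ∧ ∀ A ∈ P.parts, IsKChain lt k A := by
  refine Nat.sInf_mem (s := {c | ∃ P : Finpartition (univ : Finset ι), P.parts.card = c ∧
    ∀ A ∈ P.parts, IsKChain lt k A}) ⟨_, ⊥, rfl, fun A hA => ?_⟩
  simp only [Finpartition.parts_bot, mem_map, mem_univ, true_and] at hA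
  obtain ⟨r, rfl⟩ := hA
  refine ⟨r, by simp, id, rfl, by simp, fun y hy => ⟨0, by simpa using hy⟩, fun x _ => ?_, by simp⟩
  rw [filter_eq_empty_iff.2 (by simp +contextual)]
  simp

lemma kwd_mono {lt lt' : ι → ι → Prop} (h : ∀ a b, lt a b → lt' a b) (k : ℕ) :
    kwd lt' k ≤ kwd lt k := by
  obtain ⟨P, h1, h2⟩ := kwd_spec lt k
  refine Nat.sInf_le ⟨P, h1, fun A hA => ?_⟩
  obtain ⟨r, a, par, b, c, d, e, f⟩ := h2 A hA
  exact ⟨r, a, par, b, c, d, e, fun y hy hr m => h _ _ (f y hy hr m)⟩

lemma kwd_lower (lt : ι → ι → Prop) (k : ℕ) (L R : ι → Prop) [DecidablePred L] [DecidablePred R]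
    (h : ∀ x y, lt x y → L y → R x) :
    (univ.filter L).card ≤ kwd lt k + k * (univ.filter R).card := by
  obtain ⟨P, h1, h2⟩ := kwd_spec lt k
  have key : ∀ (p : ι → Prop) [DecidablePred p],
      (univ.filter p).card = ∑ A ∈ P.parts, (A.filter p).card := by
    intro p _
    rw [← card_biUnion (t := fun A : Finset ι => A.filter p) fun A hA B hB ne =>
      disjoint_filter_filter (P.disjoint hA hB ne), ← filter_biUnion, show (P.parts.biUnion fun a => a) = univ from P.biUnion_parts]
  rw [key L, key R, ← h1, mul_sum, card_eq_sum_ones, ← sum_add_distrib]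
  refine sum_le_sum fun A hA => ?_
  obtain ⟨r, a, par, b, c, d, e, f⟩ := h2 A hA
  have : A.filter L ⊆ insert r ((A.filter R).biUnion fun x => A.filter fun y => y ≠ r ∧ par y = x) := by
    intro y hy
    obtain ⟨h3, h4⟩ := mem_filter.1 hy
    by_cases hr : y = r
    · simp [hr]
    · exact mem_insert_of_mem (mem_biUnion.2 ⟨par y, mem_filter.2 ⟨c y h3, h _ _ (f y h3 hr 0) h4⟩,
        mem_filter.2 ⟨h3, hr, rfl⟩⟩)
  refine (card_le_card this).trans ((card_insert_le _ _).trans ?_)
  rw [add_comm, mul_comm]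
  gcongr
  exact card_biUnion_le_card_mul _ _ _ fun x hx => e x (mem_filter.1 hx).1

end det

open Classical in
lemma kwd_upper {n : ℕ} (lt : Fin n → Fin n → Prop) (k : ℕ) (hlt : ∀ a b, lt a b → a < b)
    (tr : ∀ a b c, lt a b → lt b c → lt a c) {B : ℝ}
    (hB : ∀ A : Finset (Fin n), (A.card : ℝ) ≤ B + k * (univ.filter fun x => ∃ y ∈ A, lt x y).card) :
    (kwd lt k : ℝ) ≤ B := by
  have B0 : 0 ≤ B := by simpa using hB ∅
  refine le_trans (Nat.cast_le.2 ?_) (Nat.floor_le B0)
  set s := ⌊B⌋₊
  obtain ⟨f, finj, hf⟩ := (all_card_le_biUnion_card_iff_exists_injective (fun y : Fin n =>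
    ((univ.filter fun x => lt x y) ×ˢ (univ : Finset (Fin k))).disjSum (univ : Finset (Fin s)))).1 (by
      intro A
      rcases A.eq_empty_or_nonempty with rfl | ⟨a, ha⟩
      · simp
      have h1 : ((univ.filter fun x => ∃ y ∈ A, lt x y) ×ˢ (univ : Finset (Fin k))).disjSum
          (univ : Finset (Fin s)) ⊆ A.biUnion fun y => ((univ.filter fun x => lt x y) ×ˢ
          (univ : Finset (Fin k))).disjSum (univ : Finset (Fin s)) := by
        rintro (⟨x, j⟩ | j) h
        · simpa using h
        · exact mem_biUnion.2 ⟨a, ha, by simp⟩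
      refine le_trans ?_ (card_le_card h1)
      rw [card_disjSum, card_product, card_univ, card_univ, Fintype.card_fin, Fintype.card_fin]
      have h2 := hB A
      have h3 := Nat.lt_floor_add_one B
      have : (A.card : ℝ) < ((univ.filter fun x => ∃ y ∈ A, lt x y).card * k + s + 1 : ℕ) := by
        push_cast; linarith
      exact Nat.lt_succ_iff.1 (Nat.cast_lt.1 this))
  set par : Fin n → Fin n := fun y => (f y).elim Prod.fst fun _ => y with hpar
  have hp : ∀ y, (par y = y ∧ ∃ j, f y = .inr j) ∨ (lt (par y) y ∧ ∃ j, f y = .inl (par y, j)) := by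
    intro y
    have := hf y
    rcases h : f y with ⟨x, j⟩ | j
    · rw [h] at this
      exact Or.inr ⟨by simpa [hpar, h] using this, j, by simp [hpar, h]⟩
    · exact Or.inl ⟨by simp [hpar, h], j, rfl⟩
  have fix : ∀ m (y : Fin n), y.val ≤ m → par (par^[m] y) = par^[m] y := by
    intro m
    induction m with
    | zero =>
      intro y hy
      rcases hp y with h | h
      · exact h.1
      · have := hlt _ _ h.1; omega
    | succ m ih =>
      intro y hy
      rcases hp y with h | h
      · rw [Function.iterate_fixed h.1, h.1]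
      · exact ih _ (by have := hlt _ _ h.1; omega)
  set ρ : Fin n → Fin n := par^[n] with hρ
  have ρ1 : ∀ y, par (ρ y) = ρ y := fun y => fix n y y.2.le
  have ρ2 : ∀ y, ρ (par y) = ρ y := fun y => by
    rw [← ρ1 y, hρ, ← Function.iterate_succ_apply, Function.iterate_succ_apply']
  have ρ3 : ∀ y, par y = y → ρ y = y := fun y h => Function.iterate_fixed h n
  refine le_trans (Nat.sInf_le ⟨Finpartition.ofExistsUnique
    (univ.image fun r => univ.filter fun y => ρ y = ρ r) (fun _ _ => subset_univ _)
    (fun a _ => ⟨univ.filter fun y => ρ y = ρ a, ⟨mem_image_of_mem _ (mem_univ _), by simp⟩, ?_⟩)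
    ?_, rfl, ?_⟩) ?_
  · rintro A ⟨hA, ha⟩
    obtain ⟨r, -, rfl⟩ := mem_image.1 hA
    rw [(mem_filter.1 ha).2]
  · intro h
    obtain ⟨r, -, h⟩ := mem_image.1 h
    exact absurd (h ▸ mem_filter.2 ⟨mem_univ r, rfl⟩ : r ∈ (∅ : Finset (Fin n))) (by simp)
  · intro A hA
    obtain ⟨r, -, rfl⟩ := mem_image.1 hA
    refine ⟨ρ r, by simp [ρ3 _ (ρ1 r)], par, ρ1 r, fun y hy => by simpa [ρ2] using hy,
      fun y hy => ⟨n, (mem_filter.1 hy).2⟩, fun x _ => ?_, fun y hy hr m => ?_⟩
    · have : (((univ.filter fun y => ρ y = ρ r).filter fun y => y ≠ ρ r ∧ par y = x).card) ≤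
          ((univ : Finset (Fin k)).image fun j => (Sum.inl (x, j) : (Fin n × Fin k) ⊕ Fin s)).card := by
        refine card_le_card_of_injOn f (fun y hy => ?_) finj.injOn
        simp only [coe_filter, mem_filter, mem_univ, true_and, Set.mem_ofPred_eq] at hy
        rcases hp y with h | ⟨-, j, h⟩
        · exact absurd ((ρ3 y h.1).symm.trans hy.1) hy.2.1
        · simp [h, hy.2.2]
      exact this.trans (card_image_le.trans (by simp))
    · have h0 : lt (par y) y := by
        rcases hp y with h | h
        · exact absurd ((ρ3 y h.1).symm.trans (mem_filter.1 hy).2) hr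
        · exact h.1
      induction m with
      | zero => exact h0
      | succ m ih =>
        rw [Function.iterate_succ_apply']
        rcases hp (par^[m + 1] y) with h | h
        · rwa [h.1]
        · exact tr _ _ _ h.1 ih
  · show (univ.image fun r => univ.filter fun y => ρ y = ρ r).card ≤ s
    have e : (univ.image fun r => univ.filter fun y => ρ y = ρ r) =
        (univ.image ρ).image fun r => univ.filter fun y => ρ y = r := by rw [image_image]; rfl
    rw [e]
    refine card_image_le.trans ?_
    have : (univ.image ρ).card ≤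
        ((univ : Finset (Fin s)).image fun j => (Sum.inr j : (Fin n × Fin k) ⊕ Fin s)).card := by
      refine card_le_card_of_injOn f (fun y hy => ?_) finj.injOn
      obtain ⟨r, -, rfl⟩ := mem_image.1 hy
      rcases hp (ρ r) with ⟨-, j, h⟩ | h
      · simp [h]
      · have := hlt _ _ h.1
        rw [ρ1] at this
        exact absurd this (lt_irrefl _)
    exact this.trans (card_image_le.trans (by simp))

end Pool.Agent.H41.Kwd
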