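import Pool.Agent.H41.Kwd1

set_option autoImplicit false

namespace Pool.Agent.H41.Kwd

open MeasureTheory ProbabilityTheory Finset Filter
open scoped unitInterval Topology

noncomputable abbrev ν : Measure (I × I) := (volume : Measure I).prod volume

instance (n : ℕ) : IsProbabilityMeasure (law n) := by unfold law; infer_instance

def Lo (y : ℝ) : Set (I × I) := {p | ((min p.1 p.2 : I) : ℝ) ≤ y}
def Hi (y : ℝ) : Set (I × I) := {p | ((max p.1 p.2 : I) : ℝ) ≤ y}

lemma Lo_m (y : ℝ) : MeasurableSet (Lo y) := measurableSet_le (by fun_prop) measurable_const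
lemma Hi_m (y : ℝ) : MeasurableSet (Hi y) := measurableSet_le (by fun_prop) measurable_const

lemma Hi_p (x : I) : ν.real (Hi x) = x ^ 2 := by
  have : Hi x = Set.Iic x ×ˢ Set.Iic x := by
    ext p; simp only [Hi, Set.mem_ofPred_eq, Subtype.coe_le_coe, max_le_iff, Set.mem_prod, Set.mem_Iic]
  rw [this, measureReal_prod_prod, Measure.real, unitInterval.volume_Iic,
    ENNReal.toReal_ofReal x.2.1, sq]

lemma Lo_p (x : I) : ν.real (Lo x) = 2 * x - x ^ 2 := by
  have : Lo x = (Set.Ioi x ×ˢ Set.Ioi x)ᶜ := by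
    ext p
    simp only [Lo, Set.mem_ofPred_eq, Subtype.coe_le_coe, min_le_iff, Set.mem_compl_iff,
      Set.mem_prod, Set.mem_Ioi, not_and_or, not_lt]
  rw [this, probReal_compl_eq_one_sub (measurableSet_Ioi.prod measurableSet_Ioi),
    measureReal_prod_prod, Measure.real, unitInterval.volume_Ioi,
    ENNReal.toReal_ofReal (sub_nonneg.2 x.2.2)]
  ring

lemma LoHi (k : ℕ) {x e : ℝ} (h0 : 0 ≤ x) (h1 : x ≤ 1) (he : 0 ≤ e) :
    ν.real (Lo (x + e)) - k * ν.real (Hi x) ≤ 1 / (k + 1) + 2 * e := by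
  have a := Hi_p ⟨x, h0, h1⟩
  have b : ν.real (Lo (x + e)) ≤ 2 * x + 2 * e - x ^ 2 := by
    by_cases h : x + e ≤ 1
    · have := Lo_p ⟨x + e, by positivity, h⟩
      simp only at this
      nlinarith
    · have : ν.real (Lo (x + e)) ≤ 1 := measureReal_le_one
      nlinarith
  simp only at a
  have c : 2 * x - (k + 1) * x ^ 2 ≤ 1 / (k + 1) := by
    rw [le_div_iff₀ (by positivity)]
    nlinarith [sq_nonneg ((k + 1) * x - 1)]
  rw [a]; linarith

variable {n : ℕ}

noncomputable def cnt (T : Finset (Fin n)) (S : Set (I × I)) (ω : Fin n → I × I) : ℝ :=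
  ∑ i ∈ T, S.indicator 1 (ω i)

open Classical in
lemma cnt_eq (T : Finset (Fin n)) (S : Set (I × I)) (ω : Fin n → I × I) :
    cnt T S ω = (T.filter fun i => ω i ∈ S).card := by
  rw [cnt, card_filter]
  simp [Set.indicator]

lemma ind_L2 {S : Set (I × I)} (hS : MeasurableSet S) : MemLp (S.indicator (1 : I × I → ℝ)) 2 ν :=
  (memLp_const 1).indicator hS

lemma cnt_L2 (T : Finset (Fin n)) {S : Set (I × I)} (hS : MeasurableSet S) :
    MemLp (cnt T S) 2 (law n) :=
  memLp_finsetSum _ fun i _ => (ind_L2 hS).comp_measurePreserving (measurePreserving_eval _ i)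

lemma cnt_int (T : Finset (Fin n)) {S : Set (I × I)} (hS : MeasurableSet S) :
    ∫ ω, cnt T S ω ∂law n = T.card * ν.real S := by
  unfold cnt law
  rw [integral_finsetSum (f := fun i (ω : Fin n → I × I) => S.indicator (1 : I × I → ℝ) (ω i)) _
    fun i _ => ((ind_L2 hS).comp_measurePreserving
    (measurePreserving_eval _ i)).integrable one_le_two, sum_congr rfl fun i _ =>
      (integral_comp_eval (μ := fun _ : Fin n => ν) (i := i) (ind_L2 hS).1).trans
        (integral_indicator_one hS)]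
  simp

lemma cnt_var (T : Finset (Fin n)) {S : Set (I × I)} (hS : MeasurableSet S) :
    Var[cnt T S; law n] ≤ n := by
  have h : ∀ i : Fin n, MemLp (if i ∈ T then S.indicator (1 : I × I → ℝ) else 0) 2 ν := fun i => by
    split_ifs
    · exact ind_L2 hS
    · exact MemLp.zero
  have := variance_sum_pi (μ := fun _ : Fin n => ν) h
  have e : cnt T S = ∑ i, fun ω : Fin n → I × I =>
      (if i ∈ T then S.indicator (1 : I × I → ℝ) else 0) (ω i) := by
    ext ω; simp [cnt, ite_apply]
  rw [e, law, this]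
  refine (sum_le_card_nsmul _ _ 1 fun i _ => ?_).trans (by simp)
  refine (variance_le_sq_of_bounded (a := 0) (b := 1) (ae_of_all _ fun p => ?_)
    (h i).1.aemeasurable).trans (by norm_num)
  by_cases h1 : i ∈ T <;> by_cases h2 : p ∈ S <;> simp [h1, h2]

noncomputable def dev (T : Finset (Fin n)) (S : Set (I × I)) (ω : Fin n → I × I) : ℝ :=
  |cnt T S ω - T.card * ν.real S|

lemma dev_i (T : Finset (Fin n)) {S : Set (I × I)} (hS : MeasurableSet S) :
    Integrable (dev T S) (law n) :=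
  (((cnt_L2 T hS).integrable one_le_two).sub (integrable_const _)).abs

lemma dev_int (T : Finset (Fin n)) {S : Set (I × I)} (hS : MeasurableSet S) {η : ℝ} (hη : 0 < η) :
    ∫ ω, dev T S ω ∂law n ≤ η + n / η := by
  have h1 := cnt_var T hS
  rw [variance_eq_integral (cnt_L2 T hS).1.aemeasurable, cnt_int T hS] at h1
  have h2 : Integrable (fun ω => (cnt T S ω - T.card * ν.real S) ^ 2) (law n) :=
    ((cnt_L2 T hS).sub (memLp_const _)).integrable_sq
  calc _ ≤ ∫ ω, η + (cnt T S ω - T.card * ν.real S) ^ 2 / η ∂law n :=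
        integral_mono (dev_i T hS) ((integrable_const _).add (h2.div_const _)) fun ω => by
          simp only [dev]
          rw [← sq_abs, ← sub_nonneg]
          generalize |cnt T S ω - T.card * ν.real S| = z
          have : η + z ^ 2 / η - z = ((z - η / 2) ^ 2 + 3 / 4 * η ^ 2) / η := by field_simp; ring
          rw [this]; positivity
    _ ≤ _ := by
        rw [integral_add (integrable_const _) (h2.div_const _), integral_div]
        simp only [integral_const, probReal_univ, smul_eq_mul, one_mul]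
        gcongr

def blk (n N t : ℕ) : Finset (Fin n) := univ.filter fun i => t * N ≤ i.val ∧ i.val < (t + 1) * N

lemma blk_card {N t : ℕ} (h : (t + 1) * N ≤ n) : (blk n N t).card = N := by
  have : (blk n N t).map Fin.valEmbedding = Ico (t * N) ((t + 1) * N) := by
    ext j
    simp only [blk, Finset.mem_map, mem_filter, mem_univ, true_and, Fin.valEmbedding_apply, mem_Ico]
    exact ⟨fun ⟨i, hi, e⟩ => e ▸ hi, fun hj => ⟨⟨j, hj.2.trans_le h⟩, hj, rfl⟩⟩
  rw [← card_map, this, Nat.card_Ico, add_mul, one_mul, add_tsub_cancel_left]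

lemma blk_disj (N : ℕ) {s t : ℕ} (h : s ≠ t) : Disjoint (blk n N s) (blk n N t) := by
  refine disjoint_left.2 fun i h1 h2 => h ?_
  simp only [blk, mem_filter, mem_univ, true_and] at h1 h2
  have a := Nat.lt_of_mul_lt_mul_right (h1.1.trans_lt h2.2)
  have b := Nat.lt_of_mul_lt_mul_right (h2.1.trans_lt h1.2)
  omega

noncomputable def er (k M t : ℕ) (ω : Fin n → I × I) : ℝ :=
  ∑ c ∈ range (M + 1), (dev (blk n (n / M) (t + 1)) (Lo (c / M + 1 / M)) ω +
    k * dev (blk n (n / M) t) (Hi (c / M)) ω)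

lemma upper (k M : ℕ) (hM : 0 < M) (ω : Fin n → I × I) : (kwd (seqLt ω) k : ℝ) ≤
    n / M + M + n * (1 / (k + 1) + 2 * (1 / M)) + ∑ t ∈ range (M - 1), er k M t ω := by
  classical
  refine kwd_upper _ k (fun _ _ h => h.1) (fun a b c h1 h2 =>
    ⟨h1.1.trans h2.1, h1.2.trans ((min_le_max).trans h2.2)⟩) fun A => ?_
  set N := n / M with hN
  set D := univ.filter fun x => ∃ y ∈ A, seqLt ω x y
  have M0 : (0 : ℝ) < M := by exact_mod_cast hM
  have hNM : M * N ≤ n := Nat.mul_div_le n M
  have hc : ∀ t, t < M → (blk n N t).card = N := fun t ht =>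
    blk_card ((Nat.mul_le_mul_right N ht).trans hNM)
  have key : ∀ t ∈ range (M - 1), ((A ∩ blk n N (t + 1)).card : ℝ) ≤
      N * (1 / (k + 1) + 2 * (1 / M)) + er k M t ω + k * (D ∩ blk n N t).card := by
    intro t ht
    have ht := mem_range.1 ht
    have nn : ∀ c ∈ range (M + 1), 0 ≤ dev (blk n N (t + 1)) (Lo (c / M + 1 / M)) ω +
        k * dev (blk n N t) (Hi (c / M)) ω := fun c _ => by unfold dev; positivity
    rcases (A ∩ blk n N (t + 1)).eq_empty_or_nonempty with h | h
    · have : 0 ≤ er k M t ω := sum_nonneg nn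
      rw [h]; simp only [card_empty, Nat.cast_zero]; positivity
    obtain ⟨y, hy, hmax⟩ := exists_max_image _ (fun i => min (ω i).1 (ω i).2) h
    set a : ℝ := ((min (ω y).1 (ω y).2 : I) : ℝ) with ha
    have a0 : 0 ≤ a := (min (ω y).1 (ω y).2).2.1
    have a1 : a ≤ 1 := (min (ω y).1 (ω y).2).2.2
    set c := ⌊a * M⌋₊
    have c1 : (c : ℝ) / M ≤ a := (div_le_iff₀ M0).2 (Nat.floor_le (by positivity))
    have c2 : a ≤ c / M + 1 / M := by
      rw [← add_div, le_div_iff₀ M0]; exact (Nat.lt_floor_add_one _).le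
    have c3 : c ∈ range (M + 1) := mem_range.2 (Nat.lt_succ_of_le (Nat.floor_le_of_le (by nlinarith)))
    have b1 : ((A ∩ blk n N (t + 1)).card : ℝ) ≤ cnt (blk n N (t + 1)) (Lo (c / M + 1 / M)) ω := by
      rw [cnt_eq]
      exact Nat.cast_le.2 (card_le_card fun i hi => mem_filter.2 ⟨(mem_inter.1 hi).2,
        le_trans (Subtype.coe_le_coe.2 (hmax i hi)) c2⟩)
    have b2 : cnt (blk n N t) (Hi (c / M)) ω ≤ (D ∩ blk n N t).card := by
      rw [cnt_eq]
      refine Nat.cast_le.2 (card_le_card fun i hi => ?_)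
      obtain ⟨h1, h2⟩ := mem_filter.1 hi
      refine mem_inter.2 ⟨mem_filter.2 ⟨mem_univ _, y, (mem_inter.1 hy).1, ?_,
        Subtype.coe_le_coe.1 (le_trans h2 c1)⟩, h1⟩
      exact Fin.lt_def.2 (lt_of_lt_of_le (mem_filter.1 h1).2.2 (mem_filter.1 (mem_inter.1 hy).2).2.1)
    have b3 := single_le_sum nn c3
    have b4 := LoHi k (x := c / M) (e := 1 / M) (by positivity) (c1.trans a1) (by positivity)
    have b5 := le_abs_self (cnt (blk n N (t + 1)) (Lo (c / M + 1 / M)) ω -
      (blk n N (t + 1)).card * ν.real (Lo (c / M + 1 / M)))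
    have b6 := neg_abs_le (cnt (blk n N t) (Hi (c / M)) ω - (blk n N t).card * ν.real (Hi (c / M)))
    have b7 := mul_le_mul_of_nonneg_left b4 (Nat.cast_nonneg (α := ℝ) N)
    have b8 := mul_le_mul_of_nonneg_left b6 (Nat.cast_nonneg (α := ℝ) k)
    have b9 := mul_le_mul_of_nonneg_left b2 (Nat.cast_nonneg (α := ℝ) k)
    change _ ≤ er k M t ω at b3
    unfold dev at b3
    rw [hc _ (by omega : t + 1 < M)] at b3 b5
    rw [hc _ (by omega : t < M)] at b3 b8
    nlinarith
  have s1 : ∑ t ∈ range (M - 1), (D ∩ blk n N t).card ≤ D.card := by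
    rw [← card_biUnion fun s _ t _ ne => (blk_disj N ne).mono inter_subset_right inter_subset_right]
    exact card_le_card (biUnion_subset.2 fun _ _ => inter_subset_left)
  have s2 : A.card ≤ (N + M) + ∑ t ∈ range (M - 1), (A ∩ blk n N (t + 1)).card := by
    set U := (range (M - 1)).biUnion fun t => blk n N (t + 1)
    have u1 : U.card = (M - 1) * N := by
      rw [card_biUnion fun s _ t _ ne => blk_disj N (by omega),
        sum_congr rfl fun t ht => hc _ (by have := mem_range.1 ht; omega)]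
      simp
    have u2 : (A \ U).card ≤ n - (M - 1) * N := by
      rw [← u1]
      exact (card_le_card (sdiff_subset_sdiff (subset_univ A) subset_rfl)).trans
        (by rw [card_univ_sdiff]; simp)
    have u3 : (A ∩ U).card ≤ ∑ t ∈ range (M - 1), (A ∩ blk n N (t + 1)).card := by
      rw [inter_biUnion]; exact card_biUnion_le
    have u4 := card_sdiff_add_card_inter A U
    have u5 := Nat.div_add_mod n M
    have u6 := Nat.mod_lt n hM
    have u7 : (M - 1) * N + N = M * N := by
      obtain ⟨m, rfl⟩ := Nat.exists_eq_succ_of_ne_zero hM.ne'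
      simp [Nat.succ_mul]
    rw [← hN] at u5
    have : ∀ a b N r x y z w : ℕ, x ≤ n - a → y ≤ w → x + y = z → b + r = n → r < M → a + N = b →
      z ≤ N + M + w := by omega
    exact this _ _ _ _ _ _ _ _ u2 u3 u4 u5 u6 u7
  have s3 := sum_le_sum key
  rw [sum_add_distrib, sum_add_distrib, sum_const, ← mul_sum, card_range, nsmul_eq_mul] at s3
  have s1' : (∑ t ∈ range (M - 1), ((D ∩ blk n N t).card : ℝ)) ≤ D.card := by exact_mod_cast s1
  have s2' : (A.card : ℝ) ≤ (N + M) + ∑ t ∈ range (M - 1), ((A ∩ blk n N (t + 1)).card : ℝ) := by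
    exact_mod_cast s2
  have s4 : (N : ℝ) ≤ n / M := Nat.cast_div_le
  have s5 : (((M - 1 : ℕ) : ℝ) * N) ≤ n := by
    exact_mod_cast (Nat.mul_le_mul_right N (Nat.sub_le M 1)).trans hNM
  have s6 := mul_le_mul_of_nonneg_right s5 (by positivity : (0 : ℝ) ≤ 1 / (k + 1) + 2 * (1 / M))
  have s7 := mul_le_mul_of_nonneg_left s1' (Nat.cast_nonneg (α := ℝ) k)
  nlinarith

lemma kwd_int {lt : (Fin n → I × I) → Fin n → Fin n → Prop}
    (h : ∀ i j, Measurable fun ω => lt ω i j) (k : ℕ) :
    Integrable (fun ω => (kwd (lt ω) k : ℝ)) (law n) := by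
  have m : Measurable lt := measurable_pi_lambda _ fun i => measurable_pi_lambda _ (h i)
  exact (Integrable.of_finite (μ := (law n).map lt)
    (f := fun r : Fin n → Fin n → Prop => (kwd r k : ℝ))).comp_measurable m

lemma set_m (i j : Fin n) : Measurable fun ω => setLt ω i j :=
  measurable_const.and (measurableSet_setOfPred.1 (measurableSet_le (by fun_prop) (by fun_prop)))

lemma seq_m (i j : Fin n) : Measurable fun ω => seqLt ω i j :=
  measurable_const.and (measurableSet_setOfPred.1 (measurableSet_le (by fun_prop) (by fun_prop)))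

lemma E_lower (k : ℕ) : (n : ℝ) * (1 / (k + 1)) ≤ ∫ ω, (kwd (setLt ω) k : ℝ) ∂law n := by
  classical
  let x : I := ⟨1 / (k + 1), by positivity, (div_le_one (by positivity)).2 (by simp)⟩
  have i1 := (cnt_L2 (univ : Finset (Fin n)) (Lo_m x)).integrable one_le_two
  have i2 := ((cnt_L2 (univ : Finset (Fin n)) (Hi_m x)).integrable one_le_two).const_mul k
  refine le_trans (le_of_eq ?_) (integral_mono (i1.sub i2) (kwd_int set_m k) fun ω => ?_)
  · simp only [Pi.sub_apply]
    rw [integral_sub i1 i2, integral_const_mul, cnt_int _ (Lo_m _), cnt_int _ (Hi_m _), Lo_p, Hi_p]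
    simp only [card_univ, Fintype.card_fin, x]
    field_simp; ring
  · have := kwd_lower (setLt ω) k (fun i => ω i ∈ Lo x) (fun i => ω i ∈ Hi x)
      fun a b h1 h2 => le_trans (Subtype.coe_le_coe.2 h1.2) h2
    simp only [Pi.sub_apply, cnt_eq]
    rw [sub_le_iff_le_add]
    exact_mod_cast this

lemma E_mono (k : ℕ) : ∫ ω, (kwd (setLt ω) k : ℝ) ∂law n ≤ ∫ ω, (kwd (seqLt ω) k : ℝ) ∂law n :=
  integral_mono (kwd_int set_m k) (kwd_int seq_m k) fun _ =>
    Nat.cast_le.2 (kwd_mono (fun _ _ h => ⟨h.1.ne, h.2⟩) k)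

lemma E_upper (k M : ℕ) (hM : 0 < M) (hn : 0 < n) : ∫ ω, (kwd (seqLt ω) k : ℝ) ∂law n ≤
    n * (1 / (k + 1) + (5 + 2 * k) / M + (M + 2 * (1 + k) * M ^ 5) / n) := by
  have M0 : (1 : ℝ) ≤ M := by exact_mod_cast hM
  have n0 : (0 : ℝ) < n := by exact_mod_cast hn
  have i0 : ∀ t c : ℕ, Integrable (fun ω => dev (blk n (n / M) (t + 1)) (Lo (c / M + 1 / M)) ω +
      k * dev (blk n (n / M) t) (Hi (c / M)) ω) (law n) := fun t c =>
    (dev_i _ (Lo_m _)).add ((dev_i _ (Hi_m _)).const_mul _)
  have i1 : ∀ t, Integrable (er k M t) (law n) := fun t =>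
    integrable_finsetSum _ fun c _ => i0 t c
  have e1 : ∀ t, ∫ ω, er k M t ω ∂law n ≤ 2 * M * ((1 + k) * (n / M ^ 3 + M ^ 3)) := by
    intro t
    unfold er
    rw [integral_finsetSum _ fun c _ => i0 t c]
    refine (sum_le_card_nsmul _ _ ((1 + k) * (n / M ^ 3 + M ^ 3) : ℝ) fun c _ => ?_).trans ?_
    · rw [integral_add (dev_i _ (Lo_m _)) ((dev_i _ (Hi_m _)).const_mul _), integral_const_mul]
      have a := dev_int (blk n (n / M) (t + 1)) (Lo_m (c / M + 1 / M)) (η := n / M ^ 3) (by positivity)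
      have b := dev_int (blk n (n / M) t) (Hi_m (c / M)) (η := n / M ^ 3) (by positivity)
      rw [div_div_cancel₀ n0.ne'] at a b
      have := mul_le_mul_of_nonneg_left b (Nat.cast_nonneg (α := ℝ) k)
      linarith
    · rw [card_range, nsmul_eq_mul]
      gcongr
      push_cast; linarith
  have i2 : Integrable (fun ω => ∑ t ∈ range (M - 1), er k M t ω) (law n) :=
    integrable_finsetSum _ fun t _ => i1 t
  refine (integral_mono (kwd_int seq_m k) ((integrable_const _).add i2) (upper k M hM)).trans ?_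
  simp only [Pi.add_apply]
  rw [integral_add (integrable_const _) i2, integral_finsetSum _ fun t _ => i1 t]
  have := sum_le_card_nsmul (range (M - 1)) _ _ fun t _ => e1 t
  rw [card_range, nsmul_eq_mul] at this
  have h2 : ((M - 1 : ℕ) : ℝ) * (2 * M * ((1 + k) * (n / M ^ 3 + M ^ 3))) ≤
      M * (2 * M * ((1 + k) * (n / M ^ 3 + M ^ 3))) := by gcongr; omega
  simp only [integral_const, probReal_univ, smul_eq_mul, one_mul]
  refine le_trans (add_le_add le_rfl (this.trans h2)) (le_of_eq ?_)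
  field_simp; ring

theorem lim (k : ℕ) {u : ℕ → ℝ} (h1 : ∀ n, ∫ ω, (kwd (setLt ω) k : ℝ) ∂law n ≤ u n)
    (h2 : ∀ n, u n ≤ ∫ ω, (kwd (seqLt ω) k : ℝ) ∂law n) :
    Tendsto (fun n : ℕ => u n / n) atTop (𝓝 (1 / (k + 1))) := by
  refine tendsto_order.2 ⟨fun a ha => ?_, fun b hb => ?_⟩
  · filter_upwards [eventually_gt_atTop 0] with n hn
    refine ha.trans_le ((le_div_iff₀' (by positivity)).2 ((E_lower k).trans (h1 n)))
  · have t1 := (tendsto_const_div_atTop_nhds_zero_nat (5 + 2 * k : ℝ)).const_add (1 / (k + 1) : ℝ)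
    rw [add_zero] at t1
    obtain ⟨M, hM, M0⟩ := ((t1.eventually (gt_mem_nhds hb)).and (eventually_gt_atTop 0)).exists
    have t2 := (tendsto_const_div_atTop_nhds_zero_nat (M + 2 * (1 + k) * M ^ 5 : ℝ)).const_add
      (1 / (k + 1) + (5 + 2 * k) / M : ℝ)
    rw [add_zero] at t2
    filter_upwards [t2.eventually (gt_mem_nhds hM), eventually_gt_atTop 0] with n h hn
    exact lt_of_le_of_lt ((div_le_iff₀' (by positivity)).2 ((h2 n).trans (E_upper k M M0 hn))) h

end Pool.Agent.H41.Kwd
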