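import Mathlib

set_option autoImplicit false

namespace Pool.Agent.H41.Kwd

open MeasureTheory Finset
open scoped unitInterval

variable {ι : Type} [Fintype ι] [DecidableEq ι]

/-- `A` is a `k`-ary chain for the strict order `lt`: `A` is the vertex set of a rooted tree
(root `r`, parent map `par`, with the convention `par r = r`) in which every vertex has at most
`k` children and every proper ancestor of `y` is below `y`. -/
def IsKChain (lt : ι → ι → Prop) (k : ℕ) (A : Finset ι) : Prop :=
  ∃ r ∈ A, ∃ par : ι → ι, par r = r ∧ (∀ y ∈ A, par y ∈ A) ∧ (∀ y ∈ A, ∃ m, par^[m] y = r) ∧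
    (∀ x ∈ A, (A.filter fun y => y ≠ r ∧ par y = x).card ≤ k) ∧
    ∀ y ∈ A, y ≠ r → ∀ m, lt (par^[m + 1] y) y

/-- The `k`-width: least number of classes in a partition into `k`-ary chains. -/
noncomputable def kwd (lt : ι → ι → Prop) (k : ℕ) : ℕ :=
  sInf {c | ∃ P : Finpartition (univ : Finset ι), P.parts.card = c ∧ ∀ A ∈ P.parts, IsKChain lt k A}

/-- The `i`-th interval is `[min (ω i), max (ω i)]`; `i` is below `j` when it lies wholly to the
left of `j`. -/
def setLt {n : ℕ} (ω : Fin n → I × I) (i j : Fin n) : Prop :=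
  i ≠ j ∧ max (ω i).1 (ω i).2 ≤ min (ω j).1 (ω j).2

/-- The order of a sequence of intervals: earlier index and wholly to the left. -/
def seqLt {n : ℕ} (ω : Fin n → I × I) (i j : Fin n) : Prop :=
  i < j ∧ max (ω i).1 (ω i).2 ≤ min (ω j).1 (ω j).2

/-- `n` independent pairs of independent uniform points. -/
noncomputable def law (n : ℕ) : Measure (Fin n → I × I) :=
  Measure.pi fun _ => (volume : Measure I).prod volume

end Pool.Agent.H41.Kwd
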