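import Pool.Agent.H41.McDefs

set_option autoImplicit false

namespace Pool.Agent.H41.Mc

open Finset
open scoped ComplexConjugate

section Newton
variable {F : Type} [Field F] [Fintype F] [DecidableEq F]

def ms (m : F → ℕ) : Multiset F := univ.val.map (Sigma.fst : (Σ t : F, Fin (m t)) → F)

lemma ms_card (m : F → ℕ) : Multiset.card (ms m) = ∑ t, m t := by simp [ms]

lemma ms_count (m : F → ℕ) (t : F) : (ms m).count t = m t := by
  unfold ms
  rw [Multiset.count_map, ← Finset.filter_val, Finset.card_val, Finset.card_filter,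
    Fintype.sum_sigma, sum_eq_single t]
  · simp
  · intro b _ hb; simp [hb.symm]
  · simp

lemma newton (m : F → ℕ) (k : ℕ) :
    (k : F) * (ms m).esymm k = (-1) ^ (k + 1) * ∑ a ∈ HasAntidiagonal.antidiagonal k with a.1 < k,
      (-1) ^ a.1 * (ms m).esymm a.1 * ∑ t, (m t : F) * t ^ a.2 := by
  have := congrArg (MvPolynomial.aeval (R := F) (Sigma.fst : (Σ t : F, Fin (m t)) → F))
    (MvPolynomial.mul_esymm_eq_sum (Σ t : F, Fin (m t)) F k)
  simp only [map_mul, map_natCast, map_pow, map_neg, map_one, map_sum,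
    MvPolynomial.aeval_esymm_eq_multiset_esymm, MvPolynomial.psum, MvPolynomial.aeval_X,
    Fintype.sum_sigma, sum_const, card_univ, Fintype.card_fin, nsmul_eq_mul] at this
  exact this

lemma inj_moments (d : ℕ) (hd : ∀ k : ℕ, 0 < k → k ≤ d → (k : F) ≠ 0) (m m' : F → ℕ)
    (h1 : ∑ t, m t = d) (h2 : ∑ t, m' t = d)
    (h : ∀ k, 0 < k → k ≤ d → ∑ t, (m t : F) * t ^ k = ∑ t, (m' t : F) * t ^ k) : m = m' := by
  have he : ∀ k, k ≤ d → (ms m).esymm k = (ms m').esymm k := by
    intro k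
    induction k using Nat.strong_induction_on with
    | _ k ih =>
      intro hk
      rcases Nat.eq_zero_or_pos k with rfl | hk0
      · simp [Multiset.esymm]
      apply mul_left_cancel₀ (hd k hk0 hk)
      rw [newton, newton]
      congr 1
      apply sum_congr rfl
      intro a ha
      simp only [mem_filter, HasAntidiagonal.mem_antidiagonal] at ha
      rw [ih a.1 ha.2 (by omega), h a.2 (by omega) (by omega)]
  have hp : ((ms m).map fun t => Polynomial.X - Polynomial.C t).prod =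
      ((ms m').map fun t => Polynomial.X - Polynomial.C t).prod := by
    rw [Multiset.prod_X_sub_X_eq_sum_esymm, Multiset.prod_X_sub_X_eq_sum_esymm, ms_card, ms_card,
      h1, h2]
    apply sum_congr rfl
    intro j hj
    rw [he j (by have := mem_range.1 hj; omega)]
  have hr := congrArg Polynomial.roots hp
  rw [Polynomial.roots_multiset_prod_X_sub_C, Polynomial.roots_multiset_prod_X_sub_C] at hr
  funext t
  rw [← ms_count m, hr, ms_count]

end Newton

section Fourier
variable {F : Type} [Field F] [Fintype F] [DecidableEq F]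

lemma psi_sum (ψ : AddChar F ℂ) {ι : Type} (s : Finset ι) (y : ι → F) :
    ψ (∑ i ∈ s, y i) = ∏ i ∈ s, ψ (y i) := by
  classical
  induction s using Finset.induction_on with
  | empty => simp
  | insert a s ha ih => rw [sum_insert ha, prod_insert ha, AddChar.map_add_eq_mul, ih]

lemma orth (ψ : AddChar F ℂ) (hψ : ψ ≠ 1) (d : ℕ) (a : Fin d → F) :
    ∑ x : Fin d → F, ψ (∑ i, x i * a i) = if a = 0 then (Fintype.card F : ℂ) ^ d else 0 := by
  simp_rw [psi_sum]
  rw [← Fintype.piFinset_univ, ← Finset.prod_univ_sum (fun _ => univ) (fun i y => ψ (y * a i))]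
  simp_rw [AddChar.sum_mulShift _ (AddChar.IsPrimitive.of_ne_one hψ)]
  split_ifs with h
  · subst h; simp
  · obtain ⟨i, hi⟩ := Function.ne_iff.1 h
    apply prod_eq_zero (mem_univ i)
    rw [if_neg (show ¬ a i = 0 from hi)]; simp

lemma parseval (ψ : AddChar F ℂ) (hψ : ψ ≠ 1) (d : ℕ) {ι : Type} (S : Finset ι)
    (Γ : ι → Fin d → F) (hΓ : ∀ a ∈ S, ∀ b ∈ S, Γ a = Γ b → a = b) (c : ι → ℂ) :
    ∑ x : Fin d → F, ‖∑ m ∈ S, c m * ψ (∑ i, x i * Γ m i)‖ ^ 2 =
      (Fintype.card F : ℝ) ^ d * ∑ m ∈ S, ‖c m‖ ^ 2 := by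
  classical
  apply Complex.ofReal_injective
  push_cast
  have h1 : ∀ x : Fin d → F, ((‖∑ m ∈ S, c m * ψ (∑ i, x i * Γ m i)‖ : ℝ) : ℂ) ^ 2 =
      ∑ m ∈ S, ∑ m' ∈ S, c m * conj (c m') * ψ (∑ i, x i * (Γ m - Γ m') i) := by
    intro x
    rw [← Complex.mul_conj', map_sum, sum_mul_sum]
    apply sum_congr rfl; intro m _
    apply sum_congr rfl; intro m' _
    rw [map_mul, ← AddChar.map_neg_eq_conj]
    have : ∑ i, x i * (Γ m - Γ m') i = (∑ i, x i * Γ m i) + -(∑ i, x i * Γ m' i) := by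
      rw [← sub_eq_add_neg, ← sum_sub_distrib]
      apply sum_congr rfl; intro i _; rw [Pi.sub_apply]; ring
    rw [this, AddChar.map_add_eq_mul]; ring
  simp_rw [h1]
  rw [sum_comm, mul_sum]
  apply sum_congr rfl; intro m hm
  rw [sum_comm]
  simp_rw [← mul_sum, orth ψ hψ]
  rw [sum_eq_single_of_mem m hm]
  · rw [sub_self, if_pos rfl, Complex.mul_conj']; ring
  · intro m' hm' hne
    rw [if_neg, mul_zero]
    intro h
    exact hne (hΓ m hm m' hm' (sub_eq_zero.1 h)).symm

lemma stepA (ψ : AddChar F ℂ) (hψ : ψ ≠ 1) (d : ℕ) (hd : ∀ k : ℕ, 0 < k → k ≤ d → (k : F) ≠ 0)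
    (f : F → ℂ) :
    ∑ x : Fin d → F, ‖∑ t, f t * ψ (∑ i : Fin d, x i * t ^ ((i : ℕ) + 1))‖ ^ (2 * d) =
      (Fintype.card F : ℝ) ^ d * ∑ m ∈ piAntidiag (univ : Finset F) d,
        (Nat.multinomial univ m : ℝ) ^ 2 * ∏ t, (‖f t‖ ^ 2) ^ m t := by
  have h1 : ∀ x : Fin d → F, (∑ t, f t * ψ (∑ i : Fin d, x i * t ^ ((i : ℕ) + 1))) ^ d =
      ∑ m ∈ piAntidiag (univ : Finset F) d, ((Nat.multinomial univ m : ℂ) * ∏ t, f t ^ m t) *
        ψ (∑ i : Fin d, x i * (fun i : Fin d => ∑ t, (m t : F) * t ^ ((i : ℕ) + 1)) i) := by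
    intro x
    rw [sum_pow_eq_sum_piAntidiag]
    apply sum_congr rfl; intro m _
    simp_rw [mul_pow, prod_mul_distrib, ← AddChar.map_nsmul_eq_pow, ← psi_sum]
    rw [mul_assoc]
    congr 3
    simp_rw [nsmul_eq_mul, mul_sum]
    rw [sum_comm]
    apply sum_congr rfl; intro i _
    apply sum_congr rfl; intro t _
    ring
  simp_rw [mul_comm 2 d, pow_mul, ← norm_pow _ d, h1]
  refine (parseval ψ hψ d _ (fun (m : F → ℕ) (i : Fin d) => ∑ t, (m t : F) * t ^ ((i : ℕ) + 1))
    ?_ _).trans ?_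
  swap
  · congr 1
    apply sum_congr rfl; intro m _
    rw [norm_mul, norm_prod, mul_pow, ← prod_pow]
    congr 1
    · simp
    · apply prod_congr rfl; intro t _
      rw [norm_pow, ← pow_mul, ← pow_mul, mul_comm]
  · intro a ha b hb h
    simp only [mem_piAntidiag] at ha hb
    apply inj_moments d hd a b ha.1 hb.1
    intro k hk0 hk
    have := congrFun h ⟨k - 1, by omega⟩
    simp only at this
    rwa [show k - 1 + 1 = k by omega] at this

end Fourier

lemma exists_psi (p : ℕ) [Fact p.Prime] (F : Type) [Field F] [Fintype F] [Algebra (ZMod p) F] :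
    ∃ ψ : AddChar F ℂ, ψ ≠ 1 ∧ ∀ y, ψ y = e p y := by
  refine ⟨(ZMod.stdAddChar (N := p)).compAddMonoidHom
    (Algebra.trace (ZMod p) F).toAddMonoidHom, ?_, ?_⟩
  · intro h
    apply Algebra.trace_ne_zero (ZMod p) F
    ext y
    have := DFunLike.congr_fun h y
    simp only [AddChar.compAddMonoidHom_apply, LinearMap.toAddMonoidHom_coe, AddChar.one_apply] at this
    apply ZMod.injective_stdAddChar
    simpa using this
  · intro y
    simp only [AddChar.compAddMonoidHom_apply, LinearMap.toAddMonoidHom_coe, e,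
      ZMod.stdAddChar_apply, ZMod.toCircle_apply]

end Pool.Agent.H41.Mc
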