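import Pool.Agent.H41.McDefs

set_option autoImplicit false

namespace Pool.Agent.H41.Mc

open Finset

noncomputable def Ea (x : ℝ) : PowerSeries ℝ := PowerSeries.mk fun k => x ^ k / (k.factorial : ℝ) ^ 2

lemma two_pt_formula (x y : ℝ) (k : ℕ) :
    (k.factorial : ℝ) ^ 2 * PowerSeries.coeff k (Ea x * Ea y) =
      ∑ m ∈ range (k + 1), (x * y) ^ m * ((x + y) ^ (k - m - m) * ((k - m).choose m : ℝ)) *
        (k.choose m : ℝ) := by
  have h1 : (k.factorial : ℝ) ^ 2 * PowerSeries.coeff k (Ea x * Ea y) =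
      ((Polynomial.X + Polynomial.C y) ^ k * (Polynomial.X + Polynomial.C x) ^ k).coeff k := by
    rw [PowerSeries.coeff_mul, Polynomial.coeff_mul, mul_sum]
    apply sum_congr rfl
    rintro ⟨i, j⟩ hij
    simp only [HasAntidiagonal.mem_antidiagonal] at hij
    subst hij
    simp only [Ea, PowerSeries.coeff_mk, Polynomial.coeff_X_add_C_pow]
    rw [Nat.add_sub_cancel_left, Nat.add_sub_cancel, Nat.cast_choose ℝ (Nat.le_add_right i j),
      Nat.cast_choose ℝ (Nat.le_add_left j i), Nat.add_sub_cancel_left, Nat.add_sub_cancel]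
    have := Nat.factorial_ne_zero i
    have := Nat.factorial_ne_zero j
    field_simp
  have h2 : (Polynomial.X + Polynomial.C y) * (Polynomial.X + Polynomial.C x) =
      Polynomial.C (x * y) + Polynomial.X * (Polynomial.X + Polynomial.C (x + y)) := by
    simp only [map_mul, map_add]; ring
  rw [h1, ← mul_pow, h2, add_pow, Polynomial.finsetSum_coeff]
  apply sum_congr rfl
  intro m hm
  have hm' : m ≤ k := by have := mem_range.1 hm; omega
  rw [Polynomial.coeff_mul_natCast, ← map_pow, Polynomial.coeff_C_mul, mul_pow Polynomial.X]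
  congr 2
  have := Polynomial.coeff_X_pow_mul ((Polynomial.X + Polynomial.C (x + y)) ^ (k - m)) (k - m) m
  rw [show m + (k - m) = k by omega] at this
  rw [this, Polynomial.coeff_X_add_C_pow]

lemma two_pt_le (x y : ℝ) (hx : 0 ≤ x) (hy : 0 ≤ y) (k : ℕ) :
    PowerSeries.coeff k (Ea x * Ea y) ≤ PowerSeries.coeff k (Ea ((x + y) / 2) * Ea ((x + y) / 2)) := by
  have hk : (0:ℝ) < (k.factorial : ℝ) ^ 2 := by have := Nat.factorial_pos k; positivity
  apply le_of_mul_le_mul_left _ hk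
  rw [two_pt_formula, two_pt_formula, add_halves]
  apply sum_le_sum
  intro m _
  have : x * y ≤ (x + y) / 2 * ((x + y) / 2) := by nlinarith [sq_nonneg (x - y)]
  gcongr

lemma two_pt_lt (x y : ℝ) (hx : 0 ≤ x) (hy : 0 ≤ y) (hxy : x ≠ y) (k : ℕ) (hk2 : 2 ≤ k) :
    PowerSeries.coeff k (Ea x * Ea y) < PowerSeries.coeff k (Ea ((x + y) / 2) * Ea ((x + y) / 2)) := by
  have hk : (0:ℝ) < (k.factorial : ℝ) ^ 2 := by have := Nat.factorial_pos k; positivity
  apply lt_of_mul_lt_mul_left _ hk.le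
  rw [two_pt_formula, two_pt_formula, add_halves]
  have h0 : 0 < (x - y) ^ 2 := by have := sub_ne_zero.2 hxy; positivity
  have hlt : x * y < (x + y) / 2 * ((x + y) / 2) := by nlinarith
  have hs : 0 < x + y := by
    rcases hx.eq_or_lt with h | h
    · rcases hy.eq_or_lt with h' | h'
      · exact absurd (h.symm.trans h') hxy
      · linarith
    · linarith
  apply sum_lt_sum
  · intro m _
    gcongr
  · refine ⟨1, mem_range.2 (by omega), ?_⟩
    have h1 : (0:ℝ) < ((k - 1).choose 1 : ℕ) := by exact_mod_cast Nat.choose_pos (by omega)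
    have h2 : (0:ℝ) < (k.choose 1 : ℕ) := by exact_mod_cast Nat.choose_pos (by omega)
    rw [pow_one, pow_one]
    gcongr

variable {F : Type} [Fintype F] [DecidableEq F]

noncomputable def W (d : ℕ) (a : F → ℝ) : ℝ :=
  ∑ m ∈ piAntidiag (univ : Finset F) d, ∏ t, a t ^ m t / ((m t).factorial : ℝ) ^ 2

lemma W_eq (d : ℕ) (a : F → ℝ) (G : F → PowerSeries ℝ)
    (h : ∀ t k, k ≤ d → PowerSeries.coeff k (G t) = a t ^ k / (k.factorial : ℝ) ^ 2) :
    PowerSeries.coeff d (∏ t, G t) = W d a := by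
  rw [PowerSeries.coeff_prod]
  unfold W
  apply Finset.sum_equiv Finsupp.equivFunOnFinite
  · intro l; simp
  · intro l hl
    apply prod_congr rfl
    intro t _
    rw [h]
    · rfl
    · rw [← (mem_finsuppAntidiag.1 hl).1]
      exact single_le_sum (f := fun t => l t) (fun _ _ => Nat.zero_le _) (mem_univ t)

lemma W_Ea (d : ℕ) (a : F → ℝ) : W d a = PowerSeries.coeff d (∏ t, Ea (a t)) :=
  (W_eq d a _ fun t k _ => by simp [Ea]).symm

omit [Fintype F] in
lemma coeff_nonneg (a : F → ℝ) (ha : ∀ t, 0 ≤ a t) (s : Finset F) (n : ℕ) :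
    0 ≤ PowerSeries.coeff n (∏ t ∈ s, Ea (a t)) := by
  rw [PowerSeries.coeff_prod]
  refine sum_nonneg fun l _ => prod_nonneg fun t _ => ?_
  have := ha t
  simp only [Ea, PowerSeries.coeff_mk]; positivity

lemma improve (d : ℕ) (hd : 2 ≤ d) (a : F → ℝ) (ha : ∀ t, 0 ≤ a t) (u v : F) (huv : a u ≠ a v) :
    ∃ a' : F → ℝ, (∀ t, 0 ≤ a' t) ∧ ∑ t, a' t = ∑ t, a t ∧ W d a < W d a' := by
  have hne : u ≠ v := fun h => huv (by rw [h])
  set s := (a u + a v) / 2 with hs
  let a' : F → ℝ := fun t => if t = u ∨ t = v then s else a t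
  have hv : v ∈ (univ : Finset F).erase u := by simp [hne.symm]
  have hrest : ∀ t ∈ ((univ : Finset F).erase u).erase v, a' t = a t := by
    intro t ht
    simp only [mem_erase] at ht
    simp [a', ht.1, ht.2.1]
  have hu' : a' u = s := by simp [a']
  have hv' : a' v = s := by simp [a']
  refine ⟨a', fun t => ?_, ?_, ?_⟩
  · have := ha u; have := ha v; have := ha t
    simp only [a']; split_ifs <;> positivity
  · rw [← add_sum_erase _ _ (mem_univ u), ← add_sum_erase _ _ hv, ← add_sum_erase _ a (mem_univ u),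
      ← add_sum_erase _ a hv, sum_congr rfl hrest, hu', hv', hs]
    ring
  · rw [W_Ea, W_Ea, ← mul_prod_erase _ _ (mem_univ u), ← mul_prod_erase _ _ hv,
      ← mul_prod_erase _ (fun t => Ea (a' t)) (mem_univ u), ← mul_prod_erase _ (fun t => Ea (a' t)) hv,
      prod_congr rfl (fun t ht => congrArg Ea (hrest t ht)), hu', hv', ← mul_assoc, ← mul_assoc,
      PowerSeries.coeff_mul, PowerSeries.coeff_mul]
    apply sum_lt_sum
    · intro p _
      exact mul_le_mul_of_nonneg_right (two_pt_le _ _ (ha u) (ha v) _) (coeff_nonneg a ha _ _)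
    · refine ⟨(d, 0), by simp, ?_⟩
      apply mul_lt_mul_of_pos_right (two_pt_lt _ _ (ha u) (ha v) huv d hd)
      simp [Ea, map_prod, ← PowerSeries.coeff_zero_eq_constantCoeff_apply]

lemma W_cont (d : ℕ) : Continuous (W d : (F → ℝ) → ℝ) := by
  unfold W; fun_prop

theorem W_max [Nonempty F] (d : ℕ) (hd : 2 ≤ d) (a : F → ℝ) (ha : ∀ t, 0 ≤ a t) :
    W d a ≤ W d (fun _ : F => (∑ t, a t) / Fintype.card F) ∧
    (W d a = W d (fun _ : F => (∑ t, a t) / Fintype.card F) → ∀ u v, a u = a v) := by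
  set S := ∑ t, a t with hS
  have hK : IsCompact (Set.Icc (0 : F → ℝ) (fun _ => S) ∩ {b | ∑ t, b t = S}) :=
    isCompact_Icc.inter_right (isClosed_eq (by fun_prop) continuous_const)
  have hmem : ∀ b : F → ℝ, (∀ t, 0 ≤ b t) → ∑ t, b t = S →
      b ∈ Set.Icc (0 : F → ℝ) (fun _ => S) ∩ {b | ∑ t, b t = S} := by
    intro b hb hbS
    refine ⟨⟨hb, fun t => ?_⟩, hbS⟩
    rw [← hbS]
    exact single_le_sum (f := b) (fun t _ => hb t) (mem_univ t)
  obtain ⟨b, hb, hmax⟩ := hK.exists_isMaxOn ⟨a, hmem a ha rfl⟩ (W_cont d).continuousOn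
  have hconst : ∀ c : F → ℝ, (∀ t, 0 ≤ c t) → ∑ t, c t = S → W d b ≤ W d c → ∀ u v, c u = c v := by
    intro c hc hcS hle u v
    by_contra huv
    obtain ⟨c', h1, h2, h3⟩ := improve d hd c hc u v huv
    have : W d c' ≤ W d b := hmax (hmem c' h1 (h2.trans hcS))
    linarith
  have hb' : b = fun _ : F => S / Fintype.card F := by
    funext u
    have h1 := hconst b hb.1.1 hb.2 le_rfl
    have h2 : ∑ t, b t = S := hb.2
    rw [sum_congr rfl (fun t _ => h1 t u)] at h2
    have : (0:ℝ) < Fintype.card F := by exact_mod_cast Fintype.card_pos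
    simp only [sum_const, card_univ, nsmul_eq_mul] at h2
    rw [← h2]; field_simp
  rw [← hb']
  exact ⟨hmax (hmem a ha rfl), fun h => hconst a ha rfl h.ge⟩

lemma W_const (d : ℕ) (c : ℝ) : W d (fun _ : F => c) = c ^ d * W d (fun _ : F => (1:ℝ)) := by
  unfold W
  rw [mul_sum]
  apply sum_congr rfl
  intro m hm
  rw [← (mem_piAntidiag.1 hm).1, ← prod_pow_eq_pow_sum, ← prod_mul_distrib]
  apply prod_congr rfl
  intro t _
  rw [one_pow]; ring

lemma W_mult (d : ℕ) (a : F → ℝ) :
    ∑ m ∈ piAntidiag (univ : Finset F) d, (Nat.multinomial univ m : ℝ) ^ 2 * ∏ t, a t ^ m t =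
      (d.factorial : ℝ) ^ 2 * W d a := by
  unfold W
  rw [mul_sum]
  apply sum_congr rfl
  intro m hm
  have h1 := Nat.multinomial_spec univ m
  rw [(mem_piAntidiag.1 hm).1] at h1
  rw [← h1, prod_div_distrib, prod_pow]
  have : (0:ℝ) < ∏ t, ((m t).factorial : ℝ) :=
    prod_pos fun t _ => by exact_mod_cast Nat.factorial_pos _
  push_cast
  field_simp

end Pool.Agent.H41.Mc
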