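import Pool.Agent.H41.Mc1
import Pool.Agent.H41.Mc2

set_option autoImplicit false

namespace Pool.Agent.H41.Mc

open Finset

lemma mem_parts {d : ℕ} {l : Fin d → ℕ} : l ∈ parts d ↔ Antitone l ∧ ∑ i, l i = d := by
  unfold parts
  simp only [mem_filter, Fintype.mem_piFinset, mem_range, and_iff_right_iff_imp]
  rintro ⟨-, h⟩ i
  have := single_le_sum (f := l) (fun _ _ => Nat.zero_le _) (mem_univ i)
  omega

lemma cnt {d : ℕ} (l : Fin d → ℕ) (j : ℕ) :
    #{i : Fin d | l i = j} = Multiset.count j (univ.val.map l) := by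
  rw [Multiset.count_map, ← Finset.filter_val, Finset.card_val]
  congr 1
  ext i; simp [eq_comm]

lemma maps {d : ℕ} {l : Fin d → ℕ} (h : ∑ i, l i = d) : ∀ i ∈ (univ : Finset (Fin d)), l i ∈ range (d + 1) := by
  intro i _
  have := single_le_sum (f := l) (fun _ _ => Nat.zero_le _) (mem_univ i)
  rw [mem_range]; omega

lemma bb_sum {d q : ℕ} (hq : d ≤ q) {l : Fin d → ℕ} (h : ∑ i, l i = d) :
    ∑ j ∈ range (d + 1), bb d q l j = q := by
  unfold bb
  rw [sum_add_distrib, ← card_eq_sum_card_fiberwise (fun i hi => maps h i hi)]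
  simp; omega

lemma bb_wsum {d q : ℕ} {l : Fin d → ℕ} (h : ∑ i, l i = d) :
    ∑ j ∈ range (d + 1), j * bb d q l j = d := by
  have := sum_fiberwise_of_maps_to' (maps h) (fun j => j)
  rw [h] at this
  conv_rhs => rw [← this]
  apply sum_congr rfl
  intro j _
  unfold bb
  rw [sum_const, smul_eq_mul]
  split_ifs with h0
  · simp [h0]
  · ring

lemma bb_prod {d q : ℕ} {l : Fin d → ℕ} (h : ∑ i, l i = d) :
    ∏ j ∈ range (d + 1), ((j.factorial : ℝ)) ^ bb d q l j = ∏ i, ((l i).factorial : ℝ) := by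
  rw [← prod_fiberwise_of_maps_to' (maps h) (fun j => (j.factorial : ℝ))]
  apply prod_congr rfl
  intro j _
  unfold bb
  rw [prod_const]
  split_ifs with h0
  · simp [h0]
  · simp

lemma bb_inj {d q : ℕ} {l l' : Fin d → ℕ} (h : Antitone l) (h' : Antitone l')
    (hb : bb d q l = bb d q l') : l = l' := by
  have h1 : univ.val.map l = univ.val.map l' := by
    ext j
    have := congrFun hb j
    unfold bb at this
    rw [← cnt, ← cnt]; omega
  rw [Fin.univ_val_map, Fin.univ_val_map, Multiset.coe_eq_coe] at h1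
  apply List.ofFn_injective
  apply List.Perm.eq_of_pairwise' (r := (· ≥ ·)) _ _ h1
  · rw [List.pairwise_ofFn]; intro i j hij; exact h hij.le
  · rw [List.pairwise_ofFn]; intro i j hij; exact h' hij.le

lemma bb_surj {d q : ℕ} (hq : d ≤ q) (b : ℕ → ℕ) (h1 : ∑ j ∈ range (d + 1), b j = q)
    (h2 : ∀ j, b j ≠ 0 → j ∈ range (d + 1)) (h3 : ∑ j ∈ range (d + 1), j * b j = d) :
    ∃ l ∈ parts d, bb d q l = b := by
  have h0 : q - d ≤ b 0 := by
    rw [sum_range_succ'] at h1 h3
    have : ∑ k ∈ range d, b (k + 1) ≤ ∑ k ∈ range d, (k + 1) * b (k + 1) :=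
      sum_le_sum fun k _ => Nat.le_mul_of_pos_left _ (by omega)
    omega
  let b' : ℕ → ℕ := fun j => if j = 0 then b 0 - (q - d) else b j
  let R : Multiset ℕ := ∑ j ∈ range (d + 1), Multiset.replicate (b' j) j
  have hcount : ∀ j, R.count j = b' j := by
    intro j
    simp only [R, Multiset.count_sum', Multiset.count_replicate]
    rw [sum_ite_eq']
    split_ifs with h
    · rfl
    · have : b j = 0 := by by_contra hb; exact h (h2 j hb)
      have hj : j ≠ 0 := by rintro rfl; simp at h
      simp [b', hj, this]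
  have hcard : Multiset.card R = d := by
    simp only [R, Multiset.card_sum, Multiset.card_replicate]
    rw [sum_range_succ'] at h1 ⊢
    simp only [b', Nat.add_one_ne_zero, if_false, if_true]
    omega
  have hsum : R.sum = d := by
    simp only [R, Multiset.sum_sum, Multiset.sum_replicate, smul_eq_mul]
    refine Eq.trans ?_ h3
    apply sum_congr rfl
    intro j _
    simp only [b']
    split_ifs with h
    · simp [h]
    · ring
  set L := R.sort (· ≥ ·) with hL
  have hlen : L.length = d := by rw [hL, Multiset.length_sort, hcard]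
  let l : Fin d → ℕ := fun i => L.get (i.cast hlen.symm)
  have hof : List.ofFn l = L := by
    apply List.ext_get
    · simp [hlen]
    · intro n _ _; simp [l]
  have hR : univ.val.map l = R := by rw [Fin.univ_val_map, hof, hL, Multiset.sort_eq]
  refine ⟨l, mem_parts.2 ⟨?_, ?_⟩, ?_⟩
  · have := Multiset.pairwise_sort R (· ≥ ·)
    rw [← hL, ← hof, List.pairwise_ofFn] at this
    intro i j hij
    rcases hij.eq_or_lt with h | h
    · rw [h]
    · exact this h
  · rw [← hR] at hsum; exact hsum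
  · funext j
    unfold bb
    rw [cnt, hR, hcount]
    simp only [b']
    split_ifs with h
    · subst h; omega
    · rfl

variable {F : Type} [Fintype F] [DecidableEq F]

lemma W_one (d : ℕ) (hq : d ≤ Fintype.card F) :
    (d.factorial : ℝ) ^ 2 * W d (fun _ : F => (1:ℝ)) =
      ∑ l ∈ parts d, binomD d l ^ 2 * binomQ d (Fintype.card F) l := by
  set q := Fintype.card F with hqdef
  let c : ℕ → ℝ := fun j => 1 / (j.factorial : ℝ) ^ 2
  have h1 := W_eq d (fun _ : F => (1:ℝ))
    (fun _ => ∑ j ∈ range (d + 1), PowerSeries.C (c j) * PowerSeries.X ^ j) (by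
      intro t k hk
      simp only [map_sum, PowerSeries.coeff_C_mul, PowerSeries.coeff_X_pow, mul_ite, mul_one,
        mul_zero]
      rw [sum_ite_eq, if_pos (mem_range.2 (by omega))]
      simp [c])
  rw [prod_const, card_univ, sum_pow_eq_sum_piAntidiag, map_sum] at h1
  have h2 : ∀ b : ℕ → ℕ, PowerSeries.coeff d (((Nat.multinomial (range (d + 1)) b : ℕ) : PowerSeries ℝ) *
      ∏ j ∈ range (d + 1), (PowerSeries.C (c j) * PowerSeries.X ^ j) ^ b j) =
      if ∑ j ∈ range (d + 1), j * b j = d then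
        (Nat.multinomial (range (d + 1)) b : ℝ) * ∏ j ∈ range (d + 1), c j ^ b j else 0 := by
    intro b
    simp_rw [mul_pow, prod_mul_distrib, ← map_pow, ← pow_mul, prod_pow_eq_pow_sum, ← map_prod]
    rw [← map_natCast (PowerSeries.C (R := ℝ)), ← mul_assoc, ← map_mul, PowerSeries.coeff_C_mul,
      PowerSeries.coeff_X_pow]
    simp only [eq_comm (a := d), mul_ite, mul_one, mul_zero]
  simp_rw [h2] at h1
  rw [← h1, ← sum_filter, mul_sum]
  symm
  apply sum_bij (fun l _ => bb d q l)
  · intro l hl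
    have h := (mem_parts.1 hl).2
    simp only [mem_filter, mem_piAntidiag]
    refine ⟨⟨bb_sum hq h, fun j hj => ?_⟩, bb_wsum h⟩
    by_contra hj'
    apply hj
    have hj0 : j ≠ 0 := by rintro rfl; simp at hj'
    unfold bb
    rw [if_neg hj0, add_zero, card_eq_zero, filter_eq_empty_iff]
    intro i hi hij
    exact hj' (hij ▸ maps h i hi)
  · intro l hl l' hl' h
    exact bb_inj (mem_parts.1 hl).1 (mem_parts.1 hl').1 h
  · intro b hb
    simp only [mem_filter, mem_piAntidiag] at hb
    obtain ⟨l, hl, h⟩ := bb_surj hq b hb.1.1 hb.1.2 hb.2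
    exact ⟨l, hl, h⟩
  · intro l hl
    have h := (mem_parts.1 hl).2
    have h3 := Nat.multinomial_spec (range (d + 1)) (bb d q l)
    rw [bb_sum hq h] at h3
    have h4 : ∏ j ∈ range (d + 1), c j ^ bb d q l j = 1 / (∏ i, ((l i).factorial : ℝ)) ^ 2 := by
      rw [← bb_prod (q := q) h, ← prod_pow, one_div, ← prod_inv_distrib]
      apply prod_congr rfl
      intro j _
      simp only [c]
      rw [one_div, inv_pow, ← pow_mul, ← pow_mul, mul_comm]
    unfold binomD binomQ
    rw [h4, ← h3]
    have p1 : (0:ℝ) < ∏ i, ((l i).factorial : ℝ) :=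
      prod_pos fun t _ => by exact_mod_cast Nat.factorial_pos _
    have p2 : (0:ℝ) < ∏ j ∈ range (d + 1), ((bb d q l j).factorial : ℝ) :=
      prod_pos fun t _ => by exact_mod_cast Nat.factorial_pos _
    push_cast
    field_simp

lemma W_nonneg (d : ℕ) (a : F → ℝ) (ha : ∀ t, 0 ≤ a t) : 0 ≤ W d a := by
  rw [W_Ea]; exact coeff_nonneg a ha _ _

theorem main (d p : ℕ) [Fact p.Prime] (hd : 2 ≤ d) (hp : d < p) (F : Type) [Field F] [Fintype F]
    [Algebra (ZMod p) F] (f : F → ℂ) :
    normOut d (ext p d f) ≤ Cst d (Fintype.card F) * normIn f ∧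
    (normOut d (ext p d f) = Cst d (Fintype.card F) * normIn f ↔ ∃ c : ℝ, ∀ t, ‖f t‖ = c) := by
  classical
  have : CharP F p := charP_of_injective_algebraMap (algebraMap (ZMod p) F).injective p
  have hk : ∀ k : ℕ, 0 < k → k ≤ d → (k : F) ≠ 0 := by
    intro k h0 h1 h
    rw [CharP.cast_eq_zero_iff F p] at h
    have := Nat.le_of_dvd h0 h
    omega
  have hq : d ≤ Fintype.card F := by
    have := Fintype.card_le_of_injective _ (algebraMap (ZMod p) F).injective
    rw [ZMod.card] at this
    omega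
  have hq0 : (0:ℝ) < Fintype.card F := by exact_mod_cast Fintype.card_pos
  obtain ⟨ψ, hψ, hψe⟩ := exists_psi p F
  set a : F → ℝ := fun t => ‖f t‖ ^ 2 with ha
  have ha0 : ∀ t, 0 ≤ a t := fun t => sq_nonneg _
  set μ : ℝ := (∑ t, a t) / Fintype.card F with hμ
  have hμ0 : 0 ≤ μ := div_nonneg (sum_nonneg fun t _ => ha0 t) hq0.le
  set κ : ℝ := (1 / (Fintype.card F : ℝ) ^ d) * (d.factorial : ℝ) ^ 2 with hκ
  have hκ0 : 0 < κ := by have := Nat.factorial_pos d; positivity
  have hd0 : (0:ℝ) < d := by exact_mod_cast (show 0 < d by omega)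
  have hout : normOut d (ext p d f) = (κ * W d a) ^ ((1:ℝ) / (2 * d)) := by
    unfold normOut ext
    congr 1
    simp_rw [norm_mul, mul_pow, ← mul_sum, ← hψe]
    rw [stepA ψ hψ d hk f, W_mult d a, hκ]
    simp only [norm_div, norm_one, Complex.norm_natCast]
    rw [mul_comm 2 d, pow_mul, div_pow, one_pow]
    field_simp
  have hW1 := W_nonneg d (fun _ : F => (1:ℝ)) (fun _ => zero_le_one)
  have hin : Cst d (Fintype.card F) * normIn f = (κ * W d (fun _ : F => μ)) ^ ((1:ℝ) / (2 * d)) := by
    unfold Cst normIn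
    rw [← W_one d hq, W_const d μ]
    have h1 : (1 / (Fintype.card F : ℝ) * ∑ t, ‖f t‖ ^ 2) = μ := by rw [hμ]; ring
    have h2 : μ ^ ((1:ℝ) / 2) = (μ ^ d) ^ ((1:ℝ) / (2 * d)) := by
      rw [← Real.rpow_natCast, ← Real.rpow_mul hμ0]
      congr 1; field_simp
    rw [h1, h2, ← Real.mul_rpow (by positivity) (by positivity)]
    congr 1
    rw [hκ]; ring
  obtain ⟨hle, heq⟩ := W_max d hd a ha0
  have hWa := W_nonneg d a ha0
  have hWμ := W_nonneg d (fun _ : F => μ) (fun _ => hμ0)
  rw [hout, hin]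
  refine ⟨Real.rpow_le_rpow (by positivity) (mul_le_mul_of_nonneg_left hle hκ0.le) (by positivity),
    fun h => ?_, ?_⟩
  · rw [Real.rpow_left_inj (by positivity) (by positivity) (by positivity)] at h
    have h1 := heq (mul_left_cancel₀ hκ0.ne' h)
    refine ⟨‖f 0‖, fun t => ?_⟩
    exact (pow_left_inj₀ (norm_nonneg _) (norm_nonneg _) two_ne_zero).1 (h1 t 0)
  · rintro ⟨c, hc⟩
    have : a = fun _ => μ := by
      funext t
      simp only [hμ, ha, hc, sum_const, card_univ, nsmul_eq_mul]
      field_simp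
    rw [← this]

end Pool.Agent.H41.Mc
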