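import Mathlib

set_option autoImplicit false

namespace Pool.Agent.H41.Mc

open Finset

/-- `e(y) = exp(2πi Tr(y)/p)`, with `Tr` the trace from the finite field `F` to `𝔽_p = ZMod p`. -/
noncomputable def e (p : ℕ) [Fact p.Prime] {F : Type} [Field F] [Algebra (ZMod p) F] (y : F) : ℂ :=
  Complex.exp (2 * Real.pi * Complex.I * ((Algebra.trace (ZMod p) F y).val : ℂ) / p)

/-- The extension operator `(fσ)^∨(x) = (1/q) ∑_t f(t) e(x · (t, t², …, t^d))`; a function on the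
moment curve is written as a function of the parameter `t`. -/
noncomputable def ext (p : ℕ) [Fact p.Prime] {F : Type} [Field F] [Fintype F]
    [Algebra (ZMod p) F] (d : ℕ) (f : F → ℂ) (x : Fin d → F) : ℂ :=
  (1 / (Fintype.card F : ℂ)) * ∑ t : F, f t * e p (∑ i : Fin d, x i * t ^ ((i : ℕ) + 1))

/-- `‖g‖_{L^{2d}}` on `F^d` with counting measure. -/
noncomputable def normOut {F : Type} [Fintype F] (d : ℕ) (g : (Fin d → F) → ℂ) : ℝ :=
  (∑ x : Fin d → F, ‖g x‖ ^ (2 * d)) ^ ((1 : ℝ) / (2 * d))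

/-- `‖f‖_{L²(σ)}` with normalized counting measure. -/
noncomputable def normIn {F : Type} [Fintype F] (f : F → ℂ) : ℝ :=
  ((1 / (Fintype.card F : ℝ)) * ∑ t : F, ‖f t‖ ^ 2) ^ ((1 : ℝ) / 2)

open Classical in
/-- `𝒫_d`: non-increasing `d`-tuples of non-negative integers with sum `d`. -/
noncomputable def parts (d : ℕ) : Finset (Fin d → ℕ) :=
  (Fintype.piFinset fun _ : Fin d => range (d + 1)).filter fun l => Antitone l ∧ ∑ i, l i = d

/-- `b_j(ℓ) = #{i : ℓ_i = j}` for `j ≥ 1` and `b_0(ℓ) = #{i : ℓ_i = 0} + (q - d)`. -/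
def bb (d q : ℕ) (l : Fin d → ℕ) (j : ℕ) : ℕ :=
  #{i : Fin d | l i = j} + if j = 0 then q - d else 0

/-- `d! / (ℓ_1! ⋯ ℓ_d!)`. -/
noncomputable def binomD (d : ℕ) (l : Fin d → ℕ) : ℝ :=
  (d.factorial : ℝ) / ∏ i, ((l i).factorial : ℝ)

/-- `q! / (b_0(ℓ)! b_1(ℓ)! ⋯ b_d(ℓ)!)`. -/
noncomputable def binomQ (d q : ℕ) (l : Fin d → ℕ) : ℝ :=
  (q.factorial : ℝ) / ∏ j ∈ range (d + 1), ((bb d q l j).factorial : ℝ)

/-- The constant `C_{d,q}`. -/
noncomputable def Cst (d q : ℕ) : ℝ :=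
  ((1 / (q : ℝ) ^ d) * ∑ l ∈ parts d, binomD d l ^ 2 * binomQ d q l) ^ ((1 : ℝ) / (2 * d))

end Pool.Agent.H41.Mc
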