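import Pool.Agent.H41.NAdicDefs

set_option autoImplicit false

namespace Pool.Agent.H41.NAdic

open Filter Topology

theorem psum_succ (N : ℕ) (a : ℕ → Fin N) (n : ℕ) :
    psum N a (n + 1) = psum N a n + ((a n : ℕ) : ℤ) * (N : ℤ) ^ n := by
  simp [psum, Finset.sum_range_succ]

theorem psum_congr (N : ℕ) (a b : ℕ → Fin N) (n : ℕ) (h : ∀ i < n, b i = a i) :
    psum N b n = psum N a n := by
  unfold psum
  refine Finset.sum_congr rfl fun i hi => ?_
  rw [h i (Finset.mem_range.mp hi)]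

theorem psum_bounds (N : ℕ) (a : ℕ → Fin N) (n : ℕ) :
    0 ≤ psum N a n ∧ psum N a n < (N : ℤ) ^ n := by
  induction n with
  | zero => simp [psum]
  | succ n ih =>
    rw [psum_succ]
    have h1 : ((a n : ℕ) : ℤ) + 1 ≤ N := by exact_mod_cast (a n).2
    have h2 : (0 : ℤ) ≤ ((a n : ℕ) : ℤ) := by positivity
    have h3 : (0 : ℤ) ≤ (N : ℤ) ^ n := by positivity
    constructor
    · nlinarith [ih.1]
    · rw [pow_succ]; nlinarith [ih.2]

/-- existence of the digits of the idempotent -/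
theorem exists_idem (A B : ℕ) (hA : 0 < A) (hB : 0 < B) (hAB : Nat.Coprime A B) :
    ∃ a : ℕ → Fin (A * B), ∀ n, (A : ℤ) ^ n ∣ psum (A * B) a n - 1 ∧
      (B : ℤ) ^ n ∣ psum (A * B) a n := by
  have hN : 0 < A * B := Nat.mul_pos hA hB
  have key : ∀ n (s : ℤ), (A : ℤ) ^ n ∣ s - 1 → (B : ℤ) ^ n ∣ s → ∃ d : Fin (A * B),
      (A : ℤ) ^ (n + 1) ∣ s + ((d : ℕ) : ℤ) * ((A * B : ℕ) : ℤ) ^ n - 1 ∧
      (B : ℤ) ^ (n + 1) ∣ s + ((d : ℕ) : ℤ) * ((A * B : ℕ) : ℤ) ^ n := by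
    rintro n s ⟨x, hx⟩ ⟨y, hy⟩
    have hc : IsCoprime (A : ℤ) (B : ℤ) := Nat.isCoprime_iff_coprime.mpr hAB
    obtain ⟨p, q, hpq⟩ := (hc.pow_right (n := n + 1))
    obtain ⟨r, t, hrt⟩ := (hc.pow_left (m := n + 1))
    set D : ℤ := -x * q * B - y * r * A with hD
    have hNz : (0 : ℤ) < ((A * B : ℕ) : ℤ) := by exact_mod_cast hN
    have h0 : 0 ≤ D % ((A * B : ℕ) : ℤ) := Int.emod_nonneg _ hNz.ne'
    have h1 : D % ((A * B : ℕ) : ℤ) < ((A * B : ℕ) : ℤ) := Int.emod_lt_of_pos _ hNz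
    refine ⟨⟨(D % ((A * B : ℕ) : ℤ)).toNat, by omega⟩, ?_, ?_⟩
    · have e : (((D % ((A * B : ℕ) : ℤ)).toNat : ℕ) : ℤ) = D - ((A * B : ℕ) : ℤ) * (D / ((A * B : ℕ) : ℤ)) := by
        rw [Int.toNat_of_nonneg h0, Int.emod_def]
      simp only [e]
      push_cast
      refine ⟨x * p - y * r * B ^ n - B * (D / (A * B)) * B ^ n, ?_⟩
      have hs : s = A ^ n * x + 1 := by linarith
      rw [hs, hD, mul_pow]
      linear_combination (-(A : ℤ) ^ n * x) * hpq
    · have e : (((D % ((A * B : ℕ) : ℤ)).toNat : ℕ) : ℤ) = D - ((A * B : ℕ) : ℤ) * (D / ((A * B : ℕ) : ℤ)) := by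
        rw [Int.toNat_of_nonneg h0, Int.emod_def]
      simp only [e]
      push_cast
      refine ⟨y * t - x * q * A ^ n - A * (D / (A * B)) * A ^ n, ?_⟩
      rw [hy, hD, mul_pow]
      linear_combination (-(B : ℤ) ^ n * y) * hrt
  haveI : Nonempty (Fin (A * B)) := ⟨⟨0, hN⟩⟩
  choose! f hf using key
  let s : ℕ → ℤ := fun n => Nat.rec 0 (fun n s => s + ((f n s : ℕ) : ℤ) * ((A * B : ℕ) : ℤ) ^ n) n
  have hs : ∀ n, (A : ℤ) ^ n ∣ s n - 1 ∧ (B : ℤ) ^ n ∣ s n := by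
    intro n
    induction n with
    | zero => simp
    | succ n ih => exact hf n (s n) ih.1 ih.2
  refine ⟨fun n => f n (s n), fun n => ?_⟩
  have : psum (A * B) (fun n => f n (s n)) n = s n := by
    induction n with
    | zero => simp [psum, s]
    | succ n ih => rw [psum_succ, ih]
  rw [this]; exact hs n

theorem not_evPer (A B : ℕ) (hA : 1 < A) (hB : 1 < B) (a : ℕ → Fin (A * B))
    (ha : ∀ n, (A : ℤ) ^ n ∣ psum (A * B) a n - 1 ∧ (B : ℤ) ^ n ∣ psum (A * B) a n) :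
    ¬ EvPer a := by
  rintro ⟨p, hp, n₀, h⟩
  set u : ℕ → ℤ := fun n => psum (A * B) a (n + p) - ((A * B : ℕ) : ℤ) ^ p * psum (A * B) a n with hu
  have hc : ∀ k, u (n₀ + k) = u n₀ := by
    intro k
    induction k with
    | zero => rfl
    | succ k ih =>
      rw [← ih]
      simp only [hu]
      rw [show n₀ + (k + 1) + p = (n₀ + k + p) + 1 by ring, show n₀ + (k + 1) = (n₀ + k) + 1 by ring,
        psum_succ, psum_succ, h (n₀ + k) (by omega)]
      ring
  have hd : ∀ k, (B : ℤ) ^ k ∣ u n₀ := by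
    intro k
    rw [← hc k]
    simp only [hu]
    refine dvd_sub ((pow_dvd_pow _ (by omega)).trans (ha _).2)
      (Dvd.dvd.mul_left ((pow_dvd_pow _ (by omega)).trans (ha _).2) _)
  have h0 : u n₀ = 0 := by
    by_contra hne
    have h1 := Int.le_of_dvd (abs_pos.mpr hne) ((dvd_abs _ _).mpr (hd (u n₀).natAbs))
    have h2 : (u n₀).natAbs < B ^ (u n₀).natAbs := Nat.lt_pow_self hB
    have h3 : ((u n₀).natAbs : ℤ) < (B : ℤ) ^ (u n₀).natAbs := by exact_mod_cast h2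
    rw [Int.natCast_natAbs] at h3
    omega
  have h1 : (A : ℤ) ∣ psum (A * B) a (n₀ + p) - 1 :=
    (dvd_pow_self _ (by omega)).trans (ha _).1
  have h2 : (A : ℤ) ∣ ((A * B : ℕ) : ℤ) ^ p * psum (A * B) a n₀ := by
    refine Dvd.dvd.mul_right ((Dvd.intro (B : ℤ) (by push_cast; ring)).trans (dvd_pow_self _ hp.ne')) _
  have h3 : (A : ℤ) ∣ 1 := by
    have : (1 : ℤ) = ((A * B : ℕ) : ℤ) ^ p * psum (A * B) a n₀ - (psum (A * B) a (n₀ + p) - 1) := by
      simp only [hu] at h0; linarith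
    rw [this]; exact dvd_sub h2 h1
  have := Int.le_of_dvd one_pos h3
  omega

theorem mem_trunc (N : ℕ) (hN : 1 < N) (a : ℕ → Fin N) (n : ℕ) :
    ∃ b : ℕ → Fin N, EvPer b ∧ (∀ i < n, b i = a i) ∧ IsValue N b (psum N a n) 1 := by
  refine ⟨fun i => if i < n then a i else ⟨0, by omega⟩, ⟨1, one_pos, n, fun i hi => ?_⟩,
    fun i hi => by simp [hi], isCoprime_one_left, isCoprime_one_right, fun m => ?_⟩
  · simp [show ¬ i < n by omega, show ¬ i + 1 < n by omega]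
  · rw [one_mul]
    rcases le_total m n with h | h
    · rw [psum_congr N a _ m (fun i hi => by simp [show i < n by omega])]
      obtain ⟨k, rfl⟩ := Nat.exists_eq_add_of_le h
      clear h
      induction k with
      | zero => simp
      | succ k ih =>
        rw [← add_assoc, psum_succ, ← sub_sub]
        exact dvd_sub ih (Dvd.dvd.mul_left (pow_dvd_pow _ (by omega)) _)
    · obtain ⟨k, rfl⟩ := Nat.exists_eq_add_of_le h
      clear h
      have : psum N (fun i => if i < n then a i else ⟨0, by omega⟩) (n + k) = psum N a n := by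
        induction k with
        | zero => exact psum_congr N a _ n (fun i hi => by simp [hi])
        | succ k ih => rw [← add_assoc, psum_succ, ih]; simp
      rw [this]; simp

theorem lam_lower (A B : ℕ) (hA : 1 < A) (hB : 1 < B) (a : ℕ → Fin (A * B))
    (ha : ∀ n, (A : ℤ) ^ n ∣ psum (A * B) a n - 1 ∧ (B : ℤ) ^ n ∣ psum (A * B) a n)
    (n : ℕ) (hn : 0 < n) (b : ℕ → Fin (A * B)) (hb : ∀ i < n, b i = a i) (u g : ℤ)
    (hv : IsValue (A * B) b u g) :
    (n : ℝ) * Real.logb ((A * B : ℕ) : ℝ) B ≤ Real.logb ((A * B : ℕ) : ℝ) ((max |u| |g| : ℤ) : ℝ) := by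
  obtain ⟨hg, -, hd⟩ := hv
  have h1 := hd n
  rw [psum_congr _ a b n hb] at h1
  have hN : 1 < A * B := by nlinarith
  have hBu : (B : ℤ) ^ n ∣ u := by
    have h2 : (B : ℤ) ^ n ∣ g * psum (A * B) a n - u :=
      (pow_dvd_pow_of_dvd (Dvd.intro_left (A : ℤ) (by push_cast; ring)) n).trans h1
    have h3 := dvd_sub (Dvd.dvd.mul_left (ha n).2 g) h2
    simpa using h3
  have hu : u ≠ 0 := by
    rintro rfl
    have hAN : (A : ℤ) ∣ ((A * B : ℕ) : ℤ) := Dvd.intro (B : ℤ) (by push_cast; ring)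
    have h2 : (A : ℤ) ∣ g * psum (A * B) a n - 0 :=
      (hAN.trans (dvd_pow_self _ hn.ne')).trans h1
    have h3 : (A : ℤ) ∣ psum (A * B) a n - 1 := (dvd_pow_self _ hn.ne').trans (ha n).1
    have h4 : (A : ℤ) ∣ g := by
      have := dvd_sub h2 (Dvd.dvd.mul_left h3 g)
      have e : g * psum (A * B) a n - 0 - g * (psum (A * B) a n - 1) = g := by ring
      rwa [e] at this
    have h5 := hg.isUnit_of_dvd' h4 hAN
    rw [Int.isUnit_iff] at h5
    omega
  have h6 : (B : ℤ) ^ n ≤ max |u| |g| :=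
    (Int.le_of_dvd (abs_pos.mpr hu) ((dvd_abs _ _).mpr hBu)).trans (le_max_left _ _)
  rw [← Real.logb_pow]
  refine Real.logb_le_logb_of_le (by exact_mod_cast hN) (by positivity) (by exact_mod_cast h6)

theorem main (A B : ℕ) (hA : 1 < A) (hAB : A < B) (hc : Nat.Coprime A B) :
    ∃ a : ℕ → Fin (A * B), ¬ EvPer a ∧ (accPts (A * B) a).Nonempty ∧
      accPts (A * B) a ⊆ Set.Ioi (1 / 2) := by
  have hB : 1 < B := by omega
  have hN : 1 < A * B := by nlinarith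
  have hNr : (1 : ℝ) < ((A * B : ℕ) : ℝ) := by exact_mod_cast hN
  obtain ⟨a, ha⟩ := exists_idem A B (by omega) (by omega) hc
  set c : ℝ := Real.logb ((A * B : ℕ) : ℝ) B with hcdef
  have hc2 : 1 / 2 < c := by
    have h1 : Real.logb ((A * B : ℕ) : ℝ) ((A * B : ℕ) : ℝ) < Real.logb ((A * B : ℕ) : ℝ) ((B : ℝ) ^ 2) := by
      refine Real.logb_lt_logb hNr (by positivity) ?_
      have : A * B < B ^ 2 := by nlinarith
      exact_mod_cast this
    rw [Real.logb_self_eq_one hNr, Real.logb_pow] at h1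
    push_cast at h1 hcdef ⊢
    linarith
  have hbd : ∀ n : ℕ, 0 < n → lam (A * B) a n / (n : ℝ) ∈ Set.Icc c 1 := by
    intro n hn
    have hnr : (0 : ℝ) < n := by exact_mod_cast hn
    obtain ⟨b, hb1, hb2, hb3⟩ := mem_trunc (A * B) hN a n
    have hlow : ∀ x ∈ {x | ∃ b : ℕ → Fin (A * B), EvPer b ∧ (∀ i < n, b i = a i) ∧
        ∃ u g : ℤ, IsValue (A * B) b u g ∧
          x = Real.logb ((A * B : ℕ) : ℝ) ((max |u| |g| : ℤ) : ℝ)}, (n : ℝ) * c ≤ x := by
      rintro x ⟨b, -, hb, u, g, hv, rfl⟩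
      exact lam_lower A B hA hB a ha n hn b hb u g hv
    constructor
    · rw [le_div_iff₀ hnr, mul_comm]
      exact le_csInf ⟨_, b, hb1, hb2, _, _, hb3, rfl⟩ hlow
    · rw [div_le_one hnr]
      refine (csInf_le ⟨_, hlow⟩ ⟨b, hb1, hb2, _, _, hb3, rfl⟩).trans ?_
      have h1 := psum_bounds (A * B) a n
      have h2 : max |psum (A * B) a n| |(1 : ℤ)| ≤ ((A * B : ℕ) : ℤ) ^ n := by
        rw [abs_of_nonneg h1.1, abs_one]
        exact max_le h1.2.le (by omega)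
      have h3 : (0 : ℤ) < max |psum (A * B) a n| |(1 : ℤ)| := lt_max_of_lt_right (by simp)
      calc _ ≤ Real.logb ((A * B : ℕ) : ℝ) (((A * B : ℕ) : ℝ) ^ n) :=
            Real.logb_le_logb_of_le hNr (by exact_mod_cast h3) (by exact_mod_cast h2)
        _ = n := by rw [Real.logb_pow, Real.logb_self_eq_one hNr, mul_one]
  have hev : ∀ᶠ n : ℕ in atTop, lam (A * B) a n / (n : ℝ) ∈ Set.Icc c 1 :=
    (eventually_gt_atTop 0).mono hbd
  refine ⟨a, not_evPer A B hA hB a ha, ?_, fun x hx => ?_⟩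
  · obtain ⟨x, -, hx⟩ := (isCompact_Icc (a := c) (b := 1)).exists_mapClusterPt
      (f := atTop) (u := fun n : ℕ => lam (A * B) a n / (n : ℝ)) (by simpa using hev)
    exact ⟨x, hx⟩
  · have : x ∈ Set.Icc c 1 := isClosed_Icc.mem_of_mapClusterPt hx hev
    exact lt_of_lt_of_le hc2 this.1

theorem split (N : ℕ) (hN : 2 ≤ N) (h : ¬ IsPrimePow N) :
    ∃ A B : ℕ, 1 < A ∧ A < B ∧ Nat.Coprime A B ∧ N = A * B := by
  have hp : N.minFac.Prime := Nat.minFac_prime (by omega)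
  set p := N.minFac
  have e := Nat.ordProj_mul_ordCompl_eq_self N p
  have hk : 0 < N.factorization p := hp.factorization_pos_of_dvd (by omega) (Nat.minFac_dvd N)
  have hc : Nat.Coprime (ordProj[p] N) (ordCompl[p] N) :=
    (Nat.coprime_ordCompl hp (by omega)).pow_left _
  have h1 : 1 < ordProj[p] N := Nat.one_lt_pow hk.ne' hp.one_lt
  have h2 : 1 < ordCompl[p] N := by
    have h0 : 0 < ordCompl[p] N := Nat.ordCompl_pos p (by omega)
    by_contra h3
    have h4 : ordCompl[p] N = 1 := by omega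
    rw [h4, mul_one] at e
    exact h ⟨p, _, hp.prime, hk, e⟩
  rcases lt_trichotomy (ordProj[p] N) (ordCompl[p] N) with h3 | h3 | h3
  · exact ⟨_, _, h1, h3, hc, e.symm⟩
  · rw [← h3, Nat.coprime_self] at hc; omega
  · exact ⟨_, _, h2, h3, hc.symm, by rw [mul_comm]; exact e.symm⟩

theorem final (N : ℕ) (hN : 2 ≤ N) (h : ¬ IsPrimePow N) :
    ∃ a : ℕ → Fin N, ¬ EvPer a ∧ ∀ B : ℝ, accPts N a ≠ Set.Icc B (1 - B) := by
  obtain ⟨A, B, hA, hAB, hc, rfl⟩ := split N hN h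
  obtain ⟨a, h1, ⟨x, hx⟩, h3⟩ := main A B hA hAB hc
  refine ⟨a, h1, fun b hb => ?_⟩
  rw [hb] at hx h3
  have : (1 / 2 : ℝ) ∈ Set.Icc b (1 - b) := ⟨by linarith [hx.1, hx.2], by linarith [hx.1, hx.2]⟩
  exact lt_irrefl _ (Set.mem_Ioi.mp (h3 this))

end Pool.Agent.H41.NAdic
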