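import Mathlib

set_option autoImplicit false

namespace Pool.Agent.H41.NAdic

/-- the partial sum a_0 + a_1 N + ... + a_{n-1} N^{n-1} -/
def psum (N : ℕ) (a : ℕ → Fin N) (n : ℕ) : ℤ := ∑ i ∈ Finset.range n, ((a i : ℕ) : ℤ) * (N : ℤ) ^ i

/-- the sequence is eventually periodic -/
def EvPer {N : ℕ} (a : ℕ → Fin N) : Prop := ∃ p, 0 < p ∧ ∃ n₀, ∀ i, n₀ ≤ i → a (i + p) = a i

/-- the N-adic integer with digits b equals u / g, written in lowest terms, with g prime to N -/
def IsValue (N : ℕ) (b : ℕ → Fin N) (u g : ℤ) : Prop :=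
  IsCoprime g (N : ℤ) ∧ IsCoprime u g ∧ ∀ m, (N : ℤ) ^ m ∣ g * psum N b m - u

/-- the N-adic complexity of the first n terms of a: the least value of log_N max(|u|,|g|) over the
eventually periodic b that agree with a on the first n terms, u / g being the value of b -/
noncomputable def lam (N : ℕ) (a : ℕ → Fin N) (n : ℕ) : ℝ :=
  sInf {x | ∃ b : ℕ → Fin N, EvPer b ∧ (∀ i < n, b i = a i) ∧
    ∃ u g : ℤ, IsValue N b u g ∧ x = Real.logb N ((max |u| |g| : ℤ) : ℝ)}

/-- the set of accumulation points of the normalised complexities lam N a n / n -/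
def accPts (N : ℕ) (a : ℕ → Fin N) : Set ℝ :=
  {x | MapClusterPt x Filter.atTop (fun n : ℕ => lam N a n / (n : ℝ))}

end Pool.Agent.H41.NAdic
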