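import Mathlib

set_option autoImplicit false

namespace Pool.Agent.H41.Nik

/-- The Boolean algebra formed by a filter and its dual ideal. -/
def Alg (F : Filter ℕ) : Set (Set ℕ) := {A | A ∈ F ∨ Aᶜ ∈ F}

/-- The total variation of `μ` on the family `𝒜` is at most `C`. -/
def VarLe (𝒜 : Set (Set ℕ)) (μ : Set ℕ → ℝ) (C : ℝ) : Prop :=
  ∀ (N : ℕ) (A : Fin N → Set ℕ), (∀ i, A i ∈ 𝒜) → (∀ i j, i ≠ j → Disjoint (A i) (A j)) →
    ∑ i, |μ (A i)| ≤ C

/-- A finitely additive real function of bounded total variation on `𝒜`. -/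
def IsMeasure (𝒜 : Set (Set ℕ)) (μ : Set ℕ → ℝ) : Prop :=
  (∀ A ∈ 𝒜, ∀ B ∈ 𝒜, Disjoint A B → μ (A ∪ B) = μ A + μ B) ∧ ∃ C, VarLe 𝒜 μ C

/-- Every pointwise bounded sequence of measures on `𝒜` is bounded in total variation. -/
def Nikodym (𝒜 : Set (Set ℕ)) : Prop :=
  ∀ μ : ℕ → Set ℕ → ℝ, (∀ n, IsMeasure 𝒜 (μ n)) → (∀ A ∈ 𝒜, ∃ C, ∀ n, |μ n A| ≤ C) →
    ∃ C, ∀ n, VarLe 𝒜 (μ n) C

/-- A filter on the naturals as a subset of the Cantor space (characteristic functions). -/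
def code (F : Filter ℕ) : Set (ℕ → Bool) := {x | {n | x n = true} ∈ F}

/-- Countable intersections of countable unions of closed sets. -/
def IsFsd {X : Type*} [TopologicalSpace X] (S : Set X) : Prop :=
  ∃ C : ℕ → ℕ → Set X, (∀ k m, IsClosed (C k m)) ∧ S = ⋂ k, ⋃ m, C k m

end Pool.Agent.H41.Nik
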