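import Mathlib
import Pool.Agent.H41.NikDefs

set_option autoImplicit false

open Set

namespace Pool.Agent.H41.Nik

theorem split_small (ν : Set ℕ → ℝ) (C : ℝ) (hC : VarLe univ ν C) (M : Set ℕ) (hM : M.Infinite) :
    ∃ M' ⊆ M, M'.Infinite ∧ ∀ S ⊆ M', |ν S| ≤ 1 := by
  by_contra h
  push Not at h
  let e := hM.natEmbedding M
  let P : ℕ → Set ℕ := fun t => range fun s => (e (Nat.pair t s) : ℕ)
  have hP1 : ∀ t, P t ⊆ M := by
    rintro t _ ⟨s, rfl⟩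
    exact (e _).2
  have hP2 : ∀ t, (P t).Infinite := fun t => infinite_range_of_injective fun s s' hs => by
    have := e.injective (Subtype.ext hs)
    exact (Nat.pair_eq_pair.1 this).2
  have hP3 : ∀ t t', t ≠ t' → Disjoint (P t) (P t') := by
    intro t t' htt
    rw [Set.disjoint_left]
    rintro _ ⟨s, rfl⟩ ⟨s', hs⟩
    have := e.injective (Subtype.ext hs)
    exact htt (Nat.pair_eq_pair.1 this).1.symm
  choose S hS1 hS2 using fun t => h (P t) (hP1 t) (hP2 t)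
  obtain ⟨N, hN⟩ := exists_nat_gt C
  have h1 := hC N (fun i => S i) (fun _ => mem_univ _) (fun i j hij =>
    (hP3 i j (fun h => hij (Fin.ext h))).mono (hS1 i) (hS1 j))
  have h2 : ∑ _i : Fin N, (1:ℝ) ≤ ∑ i : Fin N, |ν (S i)| :=
    Finset.sum_le_sum fun i _ => (hS2 i).le
  simp at h2
  linarith

theorem hump0 (ν : ℕ → Set ℕ → ℝ) (hν : ∀ n, IsMeasure univ (ν n))
    (hb : ∀ A, ∃ C, ∀ n, |ν n A| ≤ C) (hbig : ∀ k : ℕ, ∃ n, (k:ℝ) < |ν n {k}|) : False := by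
  choose c hc using hb
  have step : ∀ (i : ℕ) (p : {p : Set ℕ × Set ℕ // p.1.Infinite ∧ Disjoint p.1 p.2}),
      ∃ q : {p : Set ℕ × Set ℕ // p.1.Infinite ∧ Disjoint p.1 p.2}, ∃ k n, k ∈ p.1.1 ∧
        q.1.1 ⊆ p.1.1 ∧ q.1.2 = insert k p.1.2 ∧ (i:ℝ) + 1 + c p.1.2 < |ν n {k}| ∧
        ∀ S ⊆ q.1.1, |ν n S| ≤ 1 := by
    rintro i ⟨⟨M, T⟩, hM, hMT⟩
    obtain ⟨K, hK⟩ := exists_nat_gt ((i:ℝ) + 1 + c T)
    obtain ⟨k, hkM, hk⟩ := hM.exists_gt K
    obtain ⟨n, hn⟩ := hbig k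
    obtain ⟨C, hC⟩ := (hν n).2
    obtain ⟨M', h1, h2, h3⟩ := split_small (ν n) C hC (M \ {k}) (hM.sdiff (finite_singleton k))
    refine ⟨⟨(M', insert k T), h2, ?_⟩, k, n, hkM, h1.trans sdiff_subset, rfl, ?_, h3⟩
    · rw [Set.disjoint_left]
      intro a ha hb
      rcases hb with hb | hb
      · exact (h1 ha).2 hb
      · exact Set.disjoint_left.1 hMT (h1 ha).1 hb
    · have : (K:ℝ) < k := by exact_mod_cast hk
      change (i:ℝ) + 1 + c T < _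
      linarith
  choose nx kk nn h1 h2 h3 h4 h5 using step
  let p : ℕ → {p : Set ℕ × Set ℕ // p.1.Infinite ∧ Disjoint p.1 p.2} := fun i =>
    Nat.rec ⟨(univ, ∅), infinite_univ, by simp⟩ (fun i q => nx i q) i
  have hp : ∀ i, p (i + 1) = nx i (p i) := fun i => rfl
  have hmono : ∀ i j, (p (i + j)).1.1 ⊆ (p i).1.1 ∧ (p (i + j)).1.2 ⊆ (p i).1.2 ∪ (p i).1.1 ∧
      (p i).1.2 ⊆ (p (i + j)).1.2 := by
    intro i j
    induction j with
    | zero => exact ⟨subset_refl _, subset_union_left, subset_refl _⟩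
    | succ j ih =>
      rw [← add_assoc, hp]
      refine ⟨(h2 _ _).trans ih.1, ?_, ?_⟩
      · rw [h3]
        exact insert_subset (Or.inr (ih.1 (h1 _ _))) ih.2.1
      · rw [h3]
        exact ih.2.2.trans (subset_insert _ _)
  let L : Set ℕ := ⋃ i, (p i).1.2
  obtain ⟨i, hi⟩ := exists_nat_gt (c L)
  set T := (p i).1.2 with hT
  set k := kk i (p i)
  set n := nn i (p i)
  have hT1 : (p (i + 1)).1.2 = insert k T := by rw [hp, h3]
  have hS : L \ insert k T ⊆ (p (i + 1)).1.1 := by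
    rintro a ⟨ha, ha'⟩
    obtain ⟨j, hj⟩ := mem_iUnion.1 ha
    have e1 : a ∈ (p (j + (i + 1))).1.2 := (hmono j (i + 1)).2.2 hj
    rw [add_comm j] at e1
    rcases (hmono (i + 1) j).2.1 e1 with e2 | e2
    · rw [hT1] at e2; exact absurd e2 ha'
    · exact e2
  have hsub : insert k T ⊆ L := by
    rw [← hT1]; exact subset_iUnion (fun i => (p i).1.2) (i + 1)
  have hkT : k ∉ T := Set.disjoint_left.1 (p i).2.2 (h1 i (p i))
  have e1 : ν n L = ν n (insert k T) + ν n (L \ insert k T) := by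
    rw [← (hν n).1 _ (mem_univ _) _ (mem_univ _) disjoint_sdiff_right, union_sdiff_cancel hsub]
  have e2 : ν n (insert k T) = ν n {k} + ν n T := by
    rw [← (hν n).1 _ (mem_univ _) _ (mem_univ _) (disjoint_singleton_left.2 hkT)]
    rfl
  have e3 := h4 i (p i)
  have e4 : |ν n (L \ insert k T)| ≤ 1 := h5 i (p i) _ (by rw [← hp]; exact hS)
  have e5 := hc T n
  have e6 := hc L n
  have e7 : ν n {k} = ν n L - ν n T - ν n (L \ insert k T) := by linarith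
  have e8 : |ν n {k}| ≤ |ν n L| + |ν n T| + |ν n (L \ insert k T)| := by
    rw [e7]
    exact (abs_sub _ _).trans (by have := abs_sub (ν n L) (ν n T); linarith)
  change (i:ℝ) + 1 + c T < |ν n {k}| at e3
  linarith

/-- Hypotheses on an ideal and a pointwise bounded sequence of measures on it. -/
structure Setup (J : Set (Set ℕ)) (μ : ℕ → Set ℕ → ℝ) : Prop where
  her : ∀ A ∈ J, ∀ B ⊆ A, B ∈ J
  uni : ∀ A ∈ J, ∀ B ∈ J, A ∪ B ∈ J
  emp : ∅ ∈ J
  meas : ∀ n, IsMeasure J (μ n)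
  bd : ∀ A ∈ J, ∃ C, ∀ n, |μ n A| ≤ C

variable {J : Set (Set ℕ)} {μ : ℕ → Set ℕ → ℝ}

theorem Setup.hump (h : Setup J μ) (B : ℕ → Set ℕ) (hB : ∀ i j, i ≠ j → Disjoint (B i) (B j))
    (hU : (⋃ k, B k) ∈ J) (hbig : ∀ k : ℕ, ∃ n, (k:ℝ) < |μ n (B k)|) : False := by
  let U : Set ℕ → Set ℕ := fun S => ⋃ j ∈ S, B j
  have hUJ : ∀ S, U S ∈ J := fun S => h.her _ hU _ (iUnion₂_subset fun j _ => subset_iUnion B j)
  have hUd : ∀ S S', Disjoint S S' → Disjoint (U S) (U S') := by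
    intro S S' hS
    simp only [U, disjoint_iUnion₂_left, disjoint_iUnion₂_right]
    intro j hj i hi
    exact hB _ _ fun e => Set.disjoint_left.1 hS hi (e ▸ hj)
  refine hump0 (fun n S => μ n (U S)) (fun n => ⟨fun S _ S' _ hS => ?_, ?_⟩)
    (fun S => h.bd _ (hUJ S)) (fun k => ?_)
  · have : U (S ∪ S') = U S ∪ U S' := biUnion_union S S' B
    simp only [this]
    exact (h.meas n).1 _ (hUJ S) _ (hUJ S') (hUd S S' hS)
  · obtain ⟨C, hC⟩ := (h.meas n).2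
    exact ⟨C, fun N A _ hA => hC N (fun i => U (A i)) (fun i => hUJ _)
      (fun i j hij => hUd _ _ (hA i j hij))⟩
  · have : U {k} = B k := biUnion_singleton k B
    simpa only [this] using hbig k

theorem Setup.split (h : Setup J μ) {A : Set ℕ} (hA : A ∈ J) (E : Set ℕ) (n : ℕ) :
    μ n A = μ n (A ∩ E) + μ n (A \ E) := by
  rw [← (h.meas n).1 _ (h.her _ hA _ inter_subset_left) _ (h.her _ hA _ sdiff_subset)
    disjoint_inf_sdiff, inter_union_sdiff]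

theorem Setup.bdd (h : Setup J μ) {E : Set ℕ} (hE : E ∈ J) :
    ∃ R, ∀ n, ∀ A ⊆ E, |μ n A| ≤ R := by
  by_contra h0
  let Bad : Set ℕ → Prop := fun E' => E' ⊆ E ∧ ¬ ∃ R, ∀ n, ∀ A ⊆ E', |μ n A| ≤ R
  have step : ∀ (k : ℕ) (p : {E' // Bad E'}), ∃ q : {E' // Bad E'}, ∃ B, B ⊆ p.1 ∧
      q.1 = p.1 \ B ∧ ∃ n, (k:ℝ) < |μ n B| := by
    rintro k ⟨E', hE', hb⟩
    have hJ : E' ∈ J := h.her _ hE _ hE'
    obtain ⟨c, hc⟩ := h.bd _ hJ
    have hb' := hb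
    push Not at hb'
    obtain ⟨n, A, hA, hn⟩ := hb' (k + c)
    have e1 := h.split hJ A n
    rw [inter_eq_right.2 hA] at e1
    have e2 : (k:ℝ) < |μ n (E' \ A)| := by
      have e3 : μ n A = μ n E' - μ n (E' \ A) := by linarith
      have e4 := abs_sub (μ n E') (μ n (E' \ A))
      have := hc n
      rw [← e3] at e4
      linarith
    have hc0 : 0 ≤ c := (abs_nonneg _).trans (hc 0)
    by_cases h1 : ∃ R, ∀ n, ∀ B ⊆ A, |μ n B| ≤ R
    · refine ⟨⟨E' \ A, sdiff_subset.trans hE', ?_⟩, A, hA, rfl, n, by linarith⟩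
      rintro ⟨R', hR'⟩
      obtain ⟨R, hR⟩ := h1
      refine hb ⟨R + R', fun m B hB => ?_⟩
      rw [h.split (h.her _ hJ _ hB) A m]
      exact (abs_add_le _ _).trans (add_le_add (hR m _ inter_subset_right)
        (hR' m _ (sdiff_subset_sdiff_left hB)))
    · exact ⟨⟨A, hA.trans hE', h1⟩, E' \ A, sdiff_subset, (sdiff_sdiff_cancel_left hA).symm, n, e2⟩
  choose nx B h1 h2 h3 using step
  let p : ℕ → {E' // Bad E'} := fun i => Nat.rec ⟨E, subset_refl _, h0⟩ (fun i q => nx i q) i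
  have hp : ∀ i, (p (i + 1)).1 = (p i).1 \ B i (p i) := fun i => h2 i (p i)
  have hanti : Antitone fun i => (p i).1 := antitone_nat_of_succ_le fun i => by
    rw [hp]; exact sdiff_subset
  have hd : ∀ i j, i < j → Disjoint (B i (p i)) (B j (p j)) := by
    intro i j hij
    have : B j (p j) ⊆ (p (i + 1)).1 := (h1 j (p j)).trans (hanti hij)
    rw [hp] at this
    exact disjoint_sdiff_right.mono_right this
  refine h.hump (fun i => B i (p i)) (fun i j hij => ?_)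
    (h.her _ hE _ (iUnion_subset fun i => (h1 i (p i)).trans (p i).2.1)) (fun k => h3 k (p k))
  rcases lt_or_gt_of_ne hij with h' | h'
  · exact hd i j h'
  · exact (hd j i h').symm

theorem Setup.escape (h : Setup J μ) (𝒮 : ℕ → Set (Set ℕ)) (hS : ∀ k, 𝒮 k ⊆ J)
    (hher : ∀ k, ∀ A ∈ 𝒮 k, ∀ B ⊆ A, B ∈ 𝒮 k)
    (hU : ∀ B : ℕ → Set ℕ, (∀ k, B k ∈ 𝒮 k) → (⋃ k, B k) ∈ J) :
    ∃ k R, ∀ A ∈ 𝒮 k, ∀ n, |μ n A| ≤ R := by
  by_contra h0
  push Not at h0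
  have step : ∀ (k : ℕ) (p : J), ∃ q : J, ∃ B ∈ 𝒮 k, Disjoint B p.1 ∧ q.1 = p.1 ∪ B ∧
      ∃ n, (k:ℝ) < |μ n B| := by
    rintro k ⟨E, hE⟩
    obtain ⟨R, hR⟩ := h.bdd hE
    obtain ⟨A, hA, n, hn⟩ := h0 k (k + R)
    have hB := hher k A hA (A \ E) sdiff_subset
    refine ⟨⟨E ∪ A \ E, h.uni _ hE _ (hS k hB)⟩, A \ E, hB, disjoint_sdiff_left, rfl, n, ?_⟩
    have e1 := h.split (hS k hA) E n
    have e2 := hR n (A ∩ E) inter_subset_right
    have e3 := abs_add_le (μ n (A ∩ E)) (μ n (A \ E))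
    rw [← e1] at e3
    linarith
  choose nx B h1 h2 h3 h4 using step
  let p : ℕ → J := fun i => Nat.rec ⟨∅, h.emp⟩ (fun i q => nx i q) i
  have hp : ∀ i, (p (i + 1)).1 = (p i).1 ∪ B i (p i) := fun i => h3 i (p i)
  have hmono : Monotone fun i => (p i).1 := monotone_nat_of_le_succ fun i => by
    rw [hp]; exact subset_union_left
  have hd : ∀ i j, i < j → Disjoint (B i (p i)) (B j (p j)) := by
    intro i j hij
    have e : B i (p i) ⊆ (p (i + 1)).1 := by rw [hp]; exact subset_union_right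
    exact ((h2 j (p j)).mono_right (e.trans (hmono hij))).symm
  refine h.hump (fun i => B i (p i)) (fun i j hij => ?_) (hU _ fun k => h1 k (p k))
    (fun k => h4 k (p k))
  rcases lt_or_gt_of_ne hij with h' | h'
  · exact hd i j h'
  · exact (hd j i h').symm

theorem add_biUnion {𝒜 : Set (Set ℕ)} {ν : Set ℕ → ℝ} (hu : ∀ A ∈ 𝒜, ∀ B ∈ 𝒜, A ∪ B ∈ 𝒜)
    (he : ∅ ∈ 𝒜) (hν : ∀ A ∈ 𝒜, ∀ B ∈ 𝒜, Disjoint A B → ν (A ∪ B) = ν A + ν B)
    {ι : Type*} (A : ι → Set ℕ) (hA : ∀ i, A i ∈ 𝒜) (hd : ∀ i j, i ≠ j → Disjoint (A i) (A j))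
    (s : Finset ι) : (⋃ i ∈ s, A i) ∈ 𝒜 ∧ ν (⋃ i ∈ s, A i) = ∑ i ∈ s, ν (A i) := by
  classical
  induction s using Finset.induction_on with
  | empty =>
    have := hν _ he _ he (by simp)
    simp only [union_self] at this
    simp only [Finset.notMem_empty, iUnion_of_empty, iUnion_empty, Finset.sum_empty]
    exact ⟨he, by linarith⟩
  | insert a s ha ih =>
    rw [Finset.set_biUnion_insert, Finset.sum_insert ha, ← ih.2]
    refine ⟨hu _ (hA a) _ ih.1, hν _ (hA a) _ ih.1 ?_⟩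
    rw [disjoint_iUnion₂_right]
    intro i hi
    exact hd _ _ fun e => ha (e ▸ hi)

theorem varLe_of_bound {𝒜 : Set (Set ℕ)} {ν : Set ℕ → ℝ} (hu : ∀ A ∈ 𝒜, ∀ B ∈ 𝒜, A ∪ B ∈ 𝒜)
    (he : ∅ ∈ 𝒜) (hν : ∀ A ∈ 𝒜, ∀ B ∈ 𝒜, Disjoint A B → ν (A ∪ B) = ν A + ν B) (R : ℝ)
    (hR : ∀ A ∈ 𝒜, |ν A| ≤ R) : VarLe 𝒜 ν (2 * R) := by
  classical
  intro N A hA hd
  rw [← Finset.sum_filter_add_sum_filter_not Finset.univ (fun i => 0 ≤ ν (A i))]
  have h1 := add_biUnion hu he hν A hA hd (Finset.univ.filter fun i => 0 ≤ ν (A i))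
  have h2 := add_biUnion hu he hν A hA hd (Finset.univ.filter fun i => ¬ 0 ≤ ν (A i))
  have e1 : ∑ i ∈ Finset.univ.filter (fun i => 0 ≤ ν (A i)), |ν (A i)| =
      ∑ i ∈ Finset.univ.filter (fun i => 0 ≤ ν (A i)), ν (A i) :=
    Finset.sum_congr rfl fun i hi => abs_of_nonneg (Finset.mem_filter.1 hi).2
  have e2 : ∑ i ∈ Finset.univ.filter (fun i => ¬ 0 ≤ ν (A i)), |ν (A i)| =
      -∑ i ∈ Finset.univ.filter (fun i => ¬ 0 ≤ ν (A i)), ν (A i) := by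
    rw [← Finset.sum_neg_distrib]
    exact Finset.sum_congr rfl fun i hi => abs_of_neg (not_le.1 (Finset.mem_filter.1 hi).2)
  rw [e1, e2, ← h1.2, ← h2.2]
  have := abs_le.1 (hR _ h1.1)
  have := abs_le.1 (hR _ h2.1)
  linarith

end Pool.Agent.H41.Nik
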