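import Mathlib
import Pool.Agent.H41.Nik1

set_option autoImplicit false

open Set Filter Topology

namespace Pool.Agent.H41.Nik

open Classical in
noncomputable def cnt (D : Set ℕ) (N : ℕ) : ℕ := ((Finset.range N).filter (· ∈ D)).card

def Zd (D : Set ℕ) : Prop := ∀ m : ℕ, ∃ N0, ∀ N, N0 ≤ N → m * cnt D N ≤ N

theorem cnt_mono {D D' : Set ℕ} (h : D ⊆ D') (N : ℕ) : cnt D N ≤ cnt D' N := by
  classical
  unfold cnt
  refine Finset.card_le_card fun a ha => ?_
  simp only [Finset.mem_filter] at ha ⊢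
  exact ⟨ha.1, h ha.2⟩

theorem cnt_union (D D' : Set ℕ) (N : ℕ) : cnt (D ∪ D') N ≤ cnt D N + cnt D' N := by
  classical
  unfold cnt
  refine le_trans (Finset.card_le_card fun a ha => ?_) (Finset.card_union_le _ _)
  simp only [Finset.mem_filter, Finset.mem_union, mem_union] at ha ⊢
  tauto

theorem Zd.mono {D D' : Set ℕ} (h : Zd D') (hs : D ⊆ D') : Zd D := fun m => by
  obtain ⟨N0, hN⟩ := h m
  exact ⟨N0, fun N hn => (Nat.mul_le_mul_left m (cnt_mono hs N)).trans (hN N hn)⟩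

theorem Zd.union {D D' : Set ℕ} (h : Zd D) (h' : Zd D') : Zd (D ∪ D') := fun m => by
  obtain ⟨N0, hN⟩ := h (2 * m)
  obtain ⟨N1, hN'⟩ := h' (2 * m)
  refine ⟨max N0 N1, fun N hn => ?_⟩
  have e1 := hN N (le_of_max_le_left hn)
  have e2 := hN' N (le_of_max_le_right hn)
  have e3 := Nat.mul_le_mul_left m (cnt_union D D' N)
  nlinarith

theorem zd_lt (K : ℕ) : Zd {n | n < K} := fun m => by
  classical
  refine ⟨m * K, fun N hn => le_trans (Nat.mul_le_mul_left m ?_) hn⟩
  unfold cnt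
  refine le_trans (Finset.card_le_card fun a ha => ?_) (Finset.card_range K).le
  simp only [Finset.mem_filter, Finset.mem_range] at ha ⊢
  exact ha.2

theorem zd_empty : Zd ∅ := (zd_lt 0).mono (empty_subset _)

theorem zd_biUnion (D : ℕ → Set ℕ) (h : ∀ k, Zd (D k)) (K : ℕ) : Zd (⋃ k < K, D k) := by
  induction K with
  | zero => simpa using zd_empty
  | succ K ih => rw [biUnion_lt_succ]; exact ih.union (h K)

theorem cnt_res (k r N : ℕ) : 2 ^ k * cnt {n | 2 ^ k ≤ n ∧ n % 2 ^ k = r} N ≤ N := by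
  classical
  have hp : 0 < 2 ^ k := by positivity
  have : cnt {n | 2 ^ k ≤ n ∧ n % 2 ^ k = r} N ≤ (Finset.Icc 1 (N / 2 ^ k)).card := by
    unfold cnt
    refine Finset.card_le_card_of_injOn (fun n => n / 2 ^ k) ?_ ?_
    · intro a ha
      simp only [Finset.coe_filter, Finset.mem_range, mem_ofPred_eq] at ha
      simp only [Finset.coe_Icc, mem_Icc]
      exact ⟨(Nat.le_div_iff_mul_le hp).2 (by omega), Nat.div_le_div_right ha.1.le⟩
    · intro a ha b hb hab
      simp only [Finset.coe_filter, Finset.mem_range, mem_ofPred_eq] at ha hb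
      have e1 := Nat.div_add_mod a (2 ^ k)
      have e2 := Nat.div_add_mod b (2 ^ k)
      simp only at hab
      rw [hab, ha.2.2] at e1
      rw [hb.2.2] at e2
      omega
  simp only [Nat.card_Icc, add_tsub_cancel_right] at this
  exact (Nat.mul_le_mul_left _ this).trans (Nat.mul_div_le N _)

theorem zd_iUnion (D : ℕ → Set ℕ) (h : ∀ k, Zd (D k)) (r : ℕ → ℕ)
    (hr : ∀ k, D k ⊆ {n | 2 ^ k ≤ n ∧ n % 2 ^ k = r k}) : Zd (⋃ k, D k) := by
  intro m
  obtain ⟨N0, hN⟩ := zd_biUnion D h (2 * m + 2) (2 * m)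
  refine ⟨N0, fun N hn => ?_⟩
  set K := 2 * m + 2
  have tail : ∀ j, (cnt (⋃ k < K + j, D k) N : ℝ) ≤ cnt (⋃ k < K, D k) N +
      N * (2 / 2 ^ K - 2 / 2 ^ (K + j)) := by
    intro j
    induction j with
    | zero => simp
    | succ j ih =>
      rw [← add_assoc, biUnion_lt_succ]
      have e1 := cnt_union (⋃ k < K + j, D k) (D (K + j)) N
      have e2 := (Nat.mul_le_mul_left (2 ^ (K + j)) (cnt_mono (hr (K + j)) N)).trans
        (cnt_res (K + j) (r (K + j)) N)
      have e3 : (cnt (D (K + j)) N : ℝ) ≤ N / 2 ^ (K + j) := by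
        rw [le_div_iff₀ (by positivity)]
        have : ((2 ^ (K + j) * cnt (D (K + j)) N : ℕ) : ℝ) ≤ N := by exact_mod_cast e2
        push_cast at this
        linarith
      have e4 : (N:ℝ) * (2 / 2 ^ K - 2 / 2 ^ (K + j + 1)) =
          N * (2 / 2 ^ K - 2 / 2 ^ (K + j)) + N / 2 ^ (K + j) := by
        rw [pow_succ]; field_simp; ring
      have e5 : (cnt ((⋃ k < K + j, D k) ∪ D (K + j)) N : ℝ) ≤
          cnt (⋃ k < K + j, D k) N + cnt (D (K + j)) N := by exact_mod_cast e1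
      linarith
  have e1 : cnt (⋃ k, D k) N ≤ cnt (⋃ k < K + N, D k) N := by
    classical
    unfold cnt
    refine Finset.card_le_card fun a ha => ?_
    simp only [Finset.mem_filter, Finset.mem_range, mem_iUnion] at ha ⊢
    obtain ⟨ha1, k, hk⟩ := ha
    refine ⟨ha1, k, ?_, hk⟩
    have := (hr k hk).1
    have := Nat.lt_two_pow_self (n := k)
    omega
  have e2 := tail N
  have e3 : ((2 * m * cnt (⋃ k < K, D k) N : ℕ) : ℝ) ≤ N := by exact_mod_cast hN N hn
  have e4 : (4 * m : ℝ) ≤ 2 ^ K := by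
    have := Nat.lt_two_pow_self (n := 2 * m)
    have h2 : 4 * m ≤ 2 ^ K := by
      simp only [K, pow_add]; omega
    exact_mod_cast h2
  have e5 : (m:ℝ) * (2 / 2 ^ K) ≤ 1 / 2 := by
    rw [← mul_div_assoc, div_le_iff₀ (by positivity)]; linarith
  have e6 : (0:ℝ) ≤ N * (2 / 2 ^ (K + N)) := by positivity
  have e7 : (cnt (⋃ k, D k) N : ℝ) ≤ cnt (⋃ k < K + N, D k) N := by exact_mod_cast e1
  push_cast at e3
  have e8 : (m:ℝ) * cnt (⋃ k, D k) N ≤ N := by
    have hm : (0:ℝ) ≤ m := by positivity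
    have hN' : (0:ℝ) ≤ N := by positivity
    have e9 : (cnt (⋃ k, D k) N : ℝ) ≤ cnt (⋃ k < K, D k) N + N * (2 / 2 ^ K) := by linarith
    have e10 := mul_le_mul_of_nonneg_left e9 hm
    have e11 := mul_le_mul_of_nonneg_left e5 hN'
    nlinarith
  exact_mod_cast e8

theorem not_zd {D : Set ℕ} (h : ∀ k, ∃ N, k ≤ N ∧ ∀ n, N ≤ n → n < 2 * N + 1 → n ∈ D) : ¬ Zd D := by
  classical
  intro hz
  obtain ⟨N0, hN⟩ := hz 2
  obtain ⟨N, h1, h2⟩ := h N0
  have e1 := hN (2 * N + 1) (by omega)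
  have e2 : (Finset.Ico N (2 * N + 1)).card ≤ cnt D (2 * N + 1) := by
    unfold cnt
    refine Finset.card_le_card fun a ha => ?_
    simp only [Finset.mem_filter, Finset.mem_range, Finset.mem_Ico] at ha ⊢
    exact ⟨ha.2, h2 a ha.1 ha.2⟩
  simp only [Nat.card_Ico] at e2
  omega

def col (a : ℕ) : ℕ := (Nat.unpair a).1
def row (a : ℕ) : ℕ := (Nat.unpair a).2

def Inf (A : Set ℕ) : Set ℕ := {n | ∀ M, ∃ s, M ≤ s ∧ Nat.pair n s ∈ A}

theorem inf_mono {A B : Set ℕ} (h : A ⊆ B) : Inf A ⊆ Inf B := fun n hn M => by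
  obtain ⟨s, h1, h2⟩ := hn M
  exact ⟨s, h1, h h2⟩

theorem inf_union (A B : Set ℕ) : Inf (A ∪ B) ⊆ Inf A ∪ Inf B := by
  intro n hn
  by_contra h
  simp only [Inf, mem_union, mem_ofPred_eq, not_or, not_forall, not_exists, not_and] at h
  obtain ⟨⟨M, hM⟩, ⟨M', hM'⟩⟩ := h
  obtain ⟨s, h1, h2⟩ := hn (max M M')
  rcases h2 with h2 | h2
  · exact hM s (le_of_max_le_left h1) h2
  · exact hM' s (le_of_max_le_right h1) h2

theorem inf_empty : Inf ∅ = ∅ := by
  ext n
  simp [Inf]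

theorem inf_biUnion (B : ℕ → Set ℕ) (K : ℕ) : Inf (⋃ k < K, B k) ⊆ ⋃ k < K, Inf (B k) := by
  induction K with
  | zero => simp [inf_empty]
  | succ K ih =>
    rw [biUnion_lt_succ, biUnion_lt_succ]
    exact (inf_union _ _).trans (union_subset_union_left _ ih)

def JJ : Set (Set ℕ) := {A | Zd (Inf A)}

theorem JJ_her : ∀ A ∈ JJ, ∀ B ⊆ A, B ∈ JJ := fun _ hA _ hB => Zd.mono hA (inf_mono hB)
theorem JJ_uni : ∀ A ∈ JJ, ∀ B ∈ JJ, A ∪ B ∈ JJ := fun _ hA _ hB =>
  Zd.mono (Zd.union hA hB) (inf_union _ _)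
theorem JJ_emp : ∅ ∈ JJ := by
  change Zd (Inf ∅)
  rw [inf_empty]; exact zd_empty

theorem inf_sub {A : Set ℕ} {P : ℕ → Prop} (h : ∀ a ∈ A, P (col a)) : Inf A ⊆ {n | P n} := by
  intro n hn
  obtain ⟨s, -, hs⟩ := hn 0
  simpa [col] using h _ hs

def FF : Filter ℕ where
  sets := {A | Aᶜ ∈ JJ}
  univ_sets := by simpa using JJ_emp
  sets_of_superset := fun hA hAB => JJ_her _ hA _ (compl_subset_compl.2 hAB)
  inter_sets := fun hA hB => by
    simp only [mem_ofPred_eq, compl_inter]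
    exact JJ_uni _ hA _ hB

theorem mem_FF {A : Set ℕ} : A ∈ FF ↔ Aᶜ ∈ JJ := Iff.rfl

theorem univ_notMem : univ ∉ JJ := by
  refine not_zd fun k => ⟨k, le_rfl, fun n _ _ M => ⟨M, le_rfl, mem_univ _⟩⟩

theorem finite_mem {A : Set ℕ} (hA : A.Finite) : A ∈ JJ := by
  obtain ⟨K, hK⟩ := hA.bddAbove
  refine (zd_lt (K + 1)).mono (inf_sub (P := fun n => n < K + 1) fun a ha => ?_)
  have := hK ha
  have := Nat.unpair_left_le a
  unfold col
  omega

theorem nikodym_FF : Nikodym (Alg FF) := by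
  intro μ hμ hb
  have hsub : JJ ⊆ Alg FF := fun A hA => Or.inr (by rw [mem_FF, compl_compl]; exact hA)
  have hs : Setup JJ μ := ⟨JJ_her, JJ_uni, JJ_emp, fun n =>
    ⟨fun A hA B hB => (hμ n).1 A (hsub hA) B (hsub hB), by
      obtain ⟨C, hC⟩ := (hμ n).2
      exact ⟨C, fun N A hA => hC N A fun i => hsub (hA i)⟩⟩, fun A hA => hb A (hsub hA)⟩
  obtain ⟨k, R, hR⟩ := hs.escape
    (fun k => {A | A ∈ JJ ∧ ∃ r, ∀ a ∈ A, 2 ^ k ≤ col a ∧ col a % 2 ^ k = r})
    (fun k A hA => hA.1)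
    (fun k A hA B hB => ⟨JJ_her _ hA.1 _ hB, hA.2.imp fun r hr a ha => hr a (hB ha)⟩)
    (by
      intro B hB
      choose r hr using fun k => (hB k).2
      refine (zd_iUnion (fun k => Inf (B k)) (fun k => (hB k).1) r
        (fun k => inf_sub (P := fun n => 2 ^ k ≤ n ∧ n % 2 ^ k = r k) (hr k))).mono ?_
      intro n hn
      have : n ∈ Inf (⋃ k < n + 1, B k) := by
        intro M
        obtain ⟨s, h1, h2⟩ := hn M
        obtain ⟨k, hk⟩ := mem_iUnion.1 h2
        refine ⟨s, h1, mem_iUnion₂.2 ⟨k, ?_, hk⟩⟩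
        have e := (hr k _ hk).1
        simp only [col, Nat.unpair_pair] at e
        have := Nat.lt_two_pow_self (n := k)
        omega
      obtain ⟨k, -, hk⟩ := mem_iUnion₂.1 (inf_biUnion B (n + 1) this)
      exact mem_iUnion.2 ⟨k, hk⟩)
  have hE : {a | col a < 2 ^ k} ∈ JJ :=
    (zd_lt (2 ^ k)).mono (inf_sub (P := fun n => n < 2 ^ k) fun a ha => ha)
  obtain ⟨R0, hR0⟩ := hs.bdd hE
  have hJ : ∀ n, ∀ A ∈ JJ, |μ n A| ≤ R0 + 2 ^ k * R := by
    intro n A hA
    rw [hs.split hA {a | col a < 2 ^ k} n]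
    refine (abs_add_le _ _).trans (add_le_add (hR0 n _ inter_subset_right) ?_)
    let P : ℕ → Set ℕ := fun r => {a ∈ A | 2 ^ k ≤ col a ∧ col a % 2 ^ k = r}
    have hP : ∀ r, P r ∈ JJ := fun r => JJ_her _ hA _ (sep_subset _ _)
    have e1 := (add_biUnion JJ_uni JJ_emp (hs.meas n).1 P hP (fun i j hij => by
      rw [Set.disjoint_left]
      intro a h1 h2
      exact hij (h1.2.2.symm.trans h2.2.2)) (Finset.range (2 ^ k))).2
    have e2 : A \ {a | col a < 2 ^ k} = ⋃ i ∈ Finset.range (2 ^ k), P i := by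
      ext a
      simp only [P, Set.mem_sdiff, mem_ofPred_eq, not_lt, mem_iUnion, Finset.mem_range]
      constructor
      · rintro ⟨h1, h2⟩
        exact ⟨_, Nat.mod_lt _ (by positivity), h1, h2, rfl⟩
      · rintro ⟨i, -, h1, h2, -⟩
        exact ⟨h1, h2⟩
    rw [e2, e1]
    refine (Finset.abs_sum_le_sum_abs _ _).trans ?_
    refine (Finset.sum_le_sum fun i _ => hR (P i) ⟨hP i, i, fun a ha => ha.2⟩ n).trans ?_
    simp
  have huniv : univ ∈ Alg FF := Or.inl univ_mem
  obtain ⟨c, hc⟩ := hb univ huniv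
  have hc0 : 0 ≤ c := (abs_nonneg _).trans (hc 0)
  refine ⟨2 * (R0 + 2 ^ k * R + c), fun n => varLe_of_bound ?_ (hsub JJ_emp) (hμ n).1 _ ?_⟩
  · rintro A (hA | hA) B hB
    · exact Or.inl (mem_of_superset hA subset_union_left)
    · rcases hB with hB | hB
      · exact Or.inl (mem_of_superset hB subset_union_right)
      · exact Or.inr (by rw [compl_union]; exact inter_mem hA hB)
  · rintro A (hA | hA)
    · have e1 := (hμ n).1 A (Or.inl hA) Aᶜ (hsub hA) disjoint_compl_right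
      rw [union_compl_self] at e1
      have e2 := hJ n _ hA
      have e3 : μ n A = μ n univ - μ n Aᶜ := by linarith
      have e4 := abs_sub (μ n univ) (μ n Aᶜ)
      have := hc n
      rw [← e3] at e4
      linarith
    · rw [mem_FF, compl_compl] at hA
      have := hJ n A hA
      linarith

theorem code_FF : code FF = {x | Zd {n | ∀ M, ∃ s, M ≤ s ∧ x (Nat.pair n s) = false}} := by
  ext x
  simp only [code, mem_FF, JJ, Inf, mem_ofPred_eq, mem_compl_iff, Bool.not_eq_true]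

theorem borel_FF : MeasurableSet (code FF) := by
  classical
  rw [code_FF]
  have h1 : ∀ n, MeasurableSet {x : ℕ → Bool | ∀ M, ∃ s, M ≤ s ∧ x (Nat.pair n s) = false} := by
    intro n
    simp only [ofPred_forall, ofPred_exists]
    refine MeasurableSet.iInter fun M => MeasurableSet.iUnion fun s => ?_
    by_cases h : M ≤ s
    · simp only [h, true_and]
      have hm : Measurable fun x : ℕ → Bool => x (Nat.pair n s) := measurable_pi_apply _
      exact hm (measurableSet_singleton false)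
    · simp [h]
  have h2 : ∀ N, Measurable fun x : ℕ → Bool =>
      cnt {n | ∀ M, ∃ s, M ≤ s ∧ x (Nat.pair n s) = false} N := by
    intro N
    unfold cnt
    simp only [Finset.card_filter]
    refine Finset.measurable_sum _ fun n _ => ?_
    exact Measurable.ite (h1 n) measurable_const measurable_const
  unfold Zd
  rw [ofPred_forall]
  refine MeasurableSet.iInter fun m => ?_
  rw [ofPred_exists]
  refine MeasurableSet.iUnion fun N0 => ?_
  rw [ofPred_forall]
  refine MeasurableSet.iInter fun N => ?_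
  rw [ofPred_forall]
  refine MeasurableSet.iInter fun _ => ?_
  exact h2 N (MeasurableSet.of_discrete (s := {c | m * c ≤ N}))

noncomputable def XX (h : ℕ → ℕ∞) : ℕ → Bool := fun a => decide (h (col a) ≤ row a)

theorem XX_mem (h : ℕ → ℕ∞) : XX h ∈ code FF ↔ Zd {n | h n = ⊤} := by
  rw [code_FF]
  have : {n | ∀ M, ∃ s, M ≤ s ∧ XX h (Nat.pair n s) = false} = {n | h n = ⊤} := by
    ext n
    simp only [XX, col, row, Nat.unpair_pair, decide_eq_false_iff_not, not_le, mem_ofPred_eq]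
    constructor
    · intro hn
      by_contra hne
      obtain ⟨M, hM⟩ := ENat.ne_top_iff_exists.1 hne
      obtain ⟨s, h1, h2⟩ := hn M
      rw [← hM] at h2
      have : s < M := by exact_mod_cast h2
      omega
    · intro hn M
      exact ⟨M, le_rfl, by rw [hn]; exact ENat.natCast_lt_top M⟩
  simp only [mem_ofPred_eq, this]

theorem baire_step (C : ℕ → Set (ℕ → Bool)) (hC : ∀ m, IsClosed (C m))
    (hcov : code FF ⊆ ⋃ m, C m) (N : ℕ) (h : ℕ → ℕ∞) :
    ∃ (N' : ℕ) (h' : ℕ → ℕ∞) (m : ℕ), N ≤ N' ∧ (∀ n < N, h' n = h n) ∧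
      ∀ g : ℕ → ℕ∞, (∀ n < N', g n = h' n) → XX g ∈ C m := by
  let H : (ℕ → ℕ) → ℕ → ℕ∞ := fun f n => if n < N then h n else f n
  have hcont : Continuous fun f => XX (H f) := by
    refine continuous_pi fun a => ?_
    exact (continuous_of_discreteTopology (f := fun v : ℕ =>
      decide ((if col a < N then h (col a) else (v : ℕ∞)) ≤ row a))).comp (continuous_apply (col a))
  obtain ⟨m, f0, hf0⟩ := nonempty_interior_of_iUnion_of_closed
    (f := fun m => (fun f => XX (H f)) ⁻¹' C m) (fun m => (hC m).preimage hcont) (by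
      ext f
      simp only [mem_iUnion, mem_preimage, mem_univ, iff_true]
      refine mem_iUnion.1 (hcov ((XX_mem _).2 ((zd_lt N).mono fun n hn => ?_)))
      by_contra hlt
      simp only [mem_ofPred_eq] at hlt hn
      simp [H, hlt] at hn)
  obtain ⟨_, ⟨f1, K, rfl⟩, hf1, hsub⟩ :=
    (PiNat.isTopologicalBasis_cylinders (fun _ : ℕ => ℕ)).mem_nhds_iff.1
      (mem_interior_iff_mem_nhds.1 hf0)
  refine ⟨max N K, H f0, m, le_max_left _ _, fun n hn => by simp [H, hn], fun g hg => ?_⟩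
  let F : ℕ → ℕ → ℕ := fun q n => if n < max N K then f0 n else (min (g n) q).toNat
  have hF : ∀ q, XX (H (F q)) ∈ C m := by
    intro q
    refine hsub (PiNat.mem_cylinder_iff.2 fun i hi => ?_)
    rw [← PiNat.mem_cylinder_iff.1 hf1 i hi]
    simp only [F, if_pos (lt_max_of_lt_right hi : i < max N K)]
  refine (hC m).mem_of_tendsto (b := atTop) ?_ (Eventually.of_forall hF)
  rw [tendsto_pi_nhds]
  intro a
  refine tendsto_const_nhds.congr' ?_
  filter_upwards [eventually_gt_atTop (row a)] with q hq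
  simp only [XX, decide_eq_decide]
  by_cases h1 : col a < max N K
  · rw [hg _ h1]
    simp only [H, F, if_pos h1]
  · have h2 : ¬ col a < N := fun h => h1 (lt_max_of_lt_left h)
    simp only [H, F, if_neg h1, if_neg h2]
    rw [ENat.natCast_toNat (ne_top_of_le_ne_top (ENat.natCast_ne_top q) (min_le_right _ _)), min_le_iff]
    have : ¬ ((q : ℕ∞) ≤ row a) := by
      rw [not_le]; exact_mod_cast hq
    simp [this]

theorem not_fsd : ¬ IsFsd (code FF) := by
  rintro ⟨C, hC, he⟩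
  have hcov : ∀ k, code FF ⊆ ⋃ m, C k m := fun k => by
    rw [he]; exact iInter_subset (fun k => ⋃ m, C k m) k
  choose N' h' m h1 h2 h3 using fun k N h => baire_step (C k) (hC k) (hcov k) N h
  let p : ℕ → ℕ × (ℕ → ℕ∞) := fun i => Nat.rec (0, fun _ => 0) (fun k q =>
    (2 * N' k q.1 q.2 + 1, fun n => if n < N' k q.1 q.2 then h' k q.1 q.2 n else ⊤)) i
  have hp1 : ∀ k, (p (k + 1)).1 = 2 * N' k (p k).1 (p k).2 + 1 := fun k => rfl
  have hp2 : ∀ k n, (p (k + 1)).2 n =
      if n < N' k (p k).1 (p k).2 then h' k (p k).1 (p k).2 n else ⊤ := fun k n => rfl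
  have hlt : ∀ k, (p k).1 < (p (k + 1)).1 := fun k => by
    have := h1 k (p k).1 (p k).2
    rw [hp1]; omega
  have hmono : StrictMono fun k => (p k).1 := strictMono_nat_of_lt_succ hlt
  have hle : ∀ k, k ≤ (p k).1 := fun k => hmono.le_apply
  have hcons : ∀ k j n, n < (p k).1 → (p (k + j)).2 n = (p k).2 n := by
    intro k j n hn
    induction j with
    | zero => rfl
    | succ j ih =>
      have e1 : n < (p (k + j)).1 := lt_of_lt_of_le hn (hmono.monotone (Nat.le_add_right k j))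
      rw [← add_assoc, hp2, if_pos (lt_of_lt_of_le e1 (h1 _ _ _)), h2 _ _ _ n e1, ih]
  let g : ℕ → ℕ∞ := fun n => (p (n + 1)).2 n
  have hg : ∀ k n, n < (p k).1 → g n = (p k).2 n := by
    intro k n hn
    have e1 := hcons k (n + 1) n hn
    have e2 := hcons (n + 1) k n (lt_of_lt_of_le (Nat.lt_succ_self n) (hle (n + 1)))
    rw [add_comm (n + 1) k] at e2
    exact e2.symm.trans e1
  have hmem : XX g ∈ code FF := by
    rw [he]
    refine mem_iInter.2 fun k => mem_iUnion.2 ⟨m k (p k).1 (p k).2, h3 _ _ _ g fun n hn => ?_⟩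
    rw [hg (k + 1) n (by rw [hp1]; omega), hp2, if_pos hn]
  refine not_zd (fun k => ⟨N' k (p k).1 (p k).2, (hle k).trans (h1 _ _ _), fun n e1 e2 => ?_⟩)
    ((XX_mem g).1 hmem)
  change g n = ⊤
  rw [hg (k + 1) n (by rw [hp1]; exact e2), hp2, if_neg (by omega)]

end Pool.Agent.H41.Nik
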