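import Pool.Agent.H41.Op1

set_option autoImplicit false

namespace Pool.Agent.H41.Op

open Complex Metric

theorem zero_near (n : ℕ) (hn : Even n) (hn0 : 0 < n) (ρ α β : ℝ) (h1 : 1 ≤ ρ) (h2 : ρ ≤ 2)
    (hα : 0 ≤ α) (hβ : 0 ≤ β) (hγ : 0 < α + β) (E : ℂ → ℂ) (hE : Differentiable ℂ E)
    (hEb : ∀ z, ‖z + 1‖ ≤ 1 → ‖E z‖ ≤ 1 / 8) (w₀ : ℂ)
    (hw : exp w₀ = ((1 + ρ) ^ 2 / (α + β * (1 + ρ)) : ℝ)) (hs : ‖w₀‖ + 1 ≤ n / 1000) :
    ∃ w, ‖w - w₀‖ ≤ 1 / 2 ∧ (-exp (w / n)) ^ n * (α + β * (1 - ρ * -exp (w / n))) =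
      (1 - ρ * -exp (w / n)) ^ 2 - E (-exp (w / n)) := by
  have hn' : (0 : ℝ) < n := by exact_mod_cast hn0
  have hnc : (n : ℂ) ≠ 0 := by exact_mod_cast hn0.ne'
  have hden : 0 < α + β * (1 + ρ) := by nlinarith
  set l : ℝ := (1 + ρ) ^ 2 / (α + β * (1 + ρ)) with hl
  have hl0 : 0 ≤ l := by positivity
  have hl1 : l * (α + β * (1 + ρ)) = (1 + ρ) ^ 2 := div_mul_cancel₀ _ hden.ne'
  have hl1' : (l : ℂ) * (α + β * (1 + ρ)) = (1 + ρ) ^ 2 := by exact_mod_cast hl1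
  have hl2 : l * β ≤ 3 := by nlinarith [mul_nonneg hl0 hα, mul_nonneg hl0 hβ]
  let G : ℂ → ℂ := fun w => exp w * (α + β * (1 - ρ * -exp (w / n)))
    - (1 - ρ * -exp (w / n)) ^ 2 + E (-exp (w / n))
  have hG : Differentiable ℂ G := by
    have : Differentiable ℂ fun w : ℂ => E (-exp (w / n)) := hE.comp (by fun_prop)
    simp only [G]; fun_prop
  have key : ∀ w, ‖w - w₀‖ ≤ 1 / 2 → ‖G w - (1 + ρ) ^ 2 * (exp (w - w₀) - 1)‖ ≤ 1 / 4 := by
    intro w hw2
    have a1 : ‖w / n‖ ≤ 1 / 1000 := by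
      rw [norm_div, Complex.norm_natCast, div_le_iff₀ hn']
      have := norm_add_le (w - w₀) w₀
      rw [sub_add_cancel] at this
      linarith
    have a2 : ‖exp (w / n) - 1‖ ≤ 2 / 1000 := (norm_exp_sub_one_le (by linarith)).trans (by linarith)
    have a3 : ‖exp (w - w₀)‖ ≤ 2 := by
      have := norm_add_le (exp (w - w₀) - 1) 1
      rw [sub_add_cancel, norm_one] at this
      linarith [norm_exp_sub_one_le (x := w - w₀) (by linarith)]
    set d := exp (w / n) - 1 with hd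
    have a4 : exp (w / n) = 1 + d := by rw [hd]; ring
    have a5 := hEb (-exp (w / n)) (by
      rw [show -exp (w / n) + 1 = -d by rw [hd]; ring, norm_neg]; linarith)
    have a6 : exp w = l * exp (w - w₀) := by rw [← hw, ← exp_add]; congr 1; ring
    have e : G w - (1 + ρ) ^ 2 * (exp (w - w₀) - 1) = exp (w - w₀) * (((l * β : ℝ) : ℂ) * (ρ * d))
        - (ρ * d) * (2 * (1 + ρ) + ρ * d) + E (-exp (w / n)) := by
      simp only [G]
      rw [a6]
      generalize E (-exp (w / n)) = e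
      rw [a4]; push_cast
      linear_combination (exp (w - w₀)) * hl1'
    have b1 : ‖(ρ : ℂ) * d‖ ≤ 4 / 1000 := by
      rw [norm_mul, norm_real, Real.norm_eq_abs, abs_of_pos (by linarith)]
      nlinarith [norm_nonneg d]
    have b2 : ‖2 * (1 + (ρ : ℂ)) + ρ * d‖ ≤ 7 := by
      refine (norm_add_le _ _).trans ?_
      have : ‖2 * (1 + (ρ : ℂ))‖ ≤ 6 := by
        rw [show 2 * (1 + (ρ : ℂ)) = ((2 * (1 + ρ) : ℝ) : ℂ) by push_cast; ring, norm_real,
          Real.norm_eq_abs, abs_of_pos (by linarith)]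
        linarith
      linarith
    have b3 : ‖((l * β : ℝ) : ℂ)‖ ≤ 3 := by
      rw [norm_real, Real.norm_eq_abs, abs_of_nonneg (by positivity)]; exact hl2
    rw [e]
    refine (norm_add_le _ _).trans ((add_le_add_left (norm_sub_le _ _) _).trans ?_)
    have c1 : ‖exp (w - w₀) * (((l * β : ℝ) : ℂ) * (ρ * d))‖ ≤ 2 * (3 * (4 / 1000)) := by
      rw [norm_mul, norm_mul ((l * β : ℝ) : ℂ)]; gcongr
    have c2 : ‖((ρ : ℂ) * d) * (2 * (1 + ρ) + ρ * d)‖ ≤ 4 / 1000 * 7 := by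
      rw [norm_mul _ (2 * (1 + (ρ : ℂ)) + ρ * d)]; gcongr
    linarith
  have : ∃ w, ‖w - w₀‖ ≤ 1 / 2 ∧ G w = 0 := by
    by_contra hc
    push Not at hc
    have hd : DiffContOnCl ℂ (fun w => (G w)⁻¹) (ball w₀ (1 / 2)) := by
      apply DifferentiableOn.diffContOnCl
      rw [closure_ball _ (by norm_num)]
      exact hG.differentiableOn.inv fun w hw => hc w (by rwa [mem_closedBall, dist_eq_norm] at hw)
    have := norm_le_of_forall_mem_frontier_norm_le isBounded_ball hd (C := 4 / 3) (fun w hw => by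
      rw [frontier_ball _ (by norm_num), mem_sphere, dist_eq_norm] at hw
      have k1 := key w hw.le
      have k2 := norm_exp_sub_one_sub_id_le (x := w - w₀) (by linarith)
      have k3 : 1 / 4 ≤ ‖exp (w - w₀) - 1‖ := by
        have := norm_sub_le (exp (w - w₀) - 1) (exp (w - w₀) - 1 - (w - w₀))
        rw [sub_sub_cancel, hw] at this
        rw [hw] at k2
        linarith
      have k4 : 1 ≤ ‖(1 + (ρ : ℂ)) ^ 2 * (exp (w - w₀) - 1)‖ := by
        rw [norm_mul, norm_pow, show 1 + (ρ : ℂ) = ((1 + ρ : ℝ) : ℂ) by push_cast; ring,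
          norm_real, Real.norm_eq_abs, sq_abs]
        nlinarith
      have k5 := norm_sub_le (G w) (G w - (1 + ρ) ^ 2 * (exp (w - w₀) - 1))
      rw [sub_sub_cancel] at k5
      rw [norm_inv]
      exact inv_le_of_inv_le₀ (by norm_num) (by linarith)) (subset_closure (mem_ball_self
        (by norm_num)))
    have k := key w₀ (by simp)
    simp only [sub_self, exp_zero, mul_zero, sub_zero] at k
    have k0 : 0 < ‖G w₀‖ := norm_pos_iff.2 (hc w₀ (by simp))
    rw [norm_inv, inv_le_comm₀ k0 (by norm_num)] at this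
    linarith
  obtain ⟨w, h3, h4⟩ := this
  refine ⟨w, h3, ?_⟩
  rw [hn.neg_pow, ← exp_nat_mul, mul_div_cancel₀ _ hnc]
  simp only [G] at h4
  linear_combination h4

theorem sector (θ η σ : ℝ) (hη : 0 < η) (hσ : 0 < σ) : ∃ κ > 0, κ ≤ 1 / 10000 ∧
    ∀ (t n : ℝ) (w : ℂ), 1 / κ ≤ t → t ≤ κ * n → ‖w + t * exp (θ * I)‖ ≤ 4 →
      ∃ r θ' : ℝ, 0 < r ∧ r < σ ∧ |θ' - θ| < η ∧ -exp (w / n) = -1 + r * exp (θ' * I) := by
  obtain ⟨δ, hδ, hδ'⟩ := Metric.continuousAt_iff.1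
    (continuousAt_arg (x := 1) (by simp [slitPlane])) η hη
  set κ := min (min (δ / 9) (σ / 3)) (1 / 10000) with hκ
  have k0 : 0 < κ := by positivity
  have k1 : κ ≤ δ / 9 := (min_le_left _ _).trans (min_le_left _ _)
  have k2 : κ ≤ σ / 3 := (min_le_left _ _).trans (min_le_right _ _)
  have k3 : κ ≤ 1 / 10000 := min_le_right _ _
  refine ⟨κ, k0, k3, fun t n w h1 h2 h3 => ?_⟩
  have t1 : 1 ≤ t * κ := (div_le_iff₀ k0).1 h1
  have t2 : 10000 ≤ t := by nlinarith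
  have n0 : 0 < n := by nlinarith
  have tn : t / n ≤ κ := (div_le_iff₀ n0).2 h2
  have tn0 : 0 < t / n := by positivity
  have he : ‖exp (θ * I)‖ = 1 := norm_exp_ofReal_mul_I θ
  have hw : ‖w / n‖ ≤ 2 * (t / n) := by
    have := norm_sub_le (w + t * exp (θ * I)) (t * exp (θ * I))
    rw [add_sub_cancel_right, norm_mul, he, norm_real, Real.norm_eq_abs,
      abs_of_pos (by linarith)] at this
    rw [norm_div, norm_real, Real.norm_eq_abs, abs_of_pos n0, ← mul_div_assoc]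
    gcongr; linarith
  have hx := norm_exp_sub_one_sub_id_le (x := w / n) (by linarith)
  set c : ℂ := ((t / n : ℝ) : ℂ) * exp (θ * I) with hc
  have hcn : ‖c‖ = t / n := by
    rw [hc, norm_mul, he, norm_real, Real.norm_eq_abs, abs_of_pos tn0, mul_one]
  have hc0 : c ≠ 0 := norm_pos_iff.1 (hcn ▸ tn0)
  set v := (1 - exp (w / n)) / c with hv
  have hv1 : ‖v - 1‖ ≤ 8 * κ := by
    have nc : (n : ℂ) ≠ 0 := by exact_mod_cast n0.ne'
    have : v - 1 = (-(exp (w / n) - 1 - w / n) - (w + t * exp (θ * I)) / n) / c := by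
      rw [hv, div_sub_one hc0, hc]; push_cast; congr 1; ring
    rw [this, norm_div, hcn, div_le_iff₀ tn0]
    refine (norm_sub_le _ _).trans ?_
    rw [norm_neg, norm_div, norm_real, Real.norm_eq_abs, abs_of_pos n0]
    have q1 : ‖w / n‖ ^ 2 ≤ (2 * (t / n)) ^ 2 := by gcongr
    have q2 : ‖w + t * exp (θ * I)‖ / n ≤ 4 * κ * (t / n) := by
      rw [← mul_div_assoc]; gcongr; linarith
    nlinarith
  have hv2 : ‖v‖ ≤ 2 := by
    have := norm_add_le (v - 1) 1
    rw [sub_add_cancel, norm_one] at this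
    linarith
  have hv3 : 0 < ‖v‖ := by
    have := norm_sub_le v (v - 1)
    rw [sub_sub_cancel, norm_one] at this
    linarith
  refine ⟨t / n * ‖v‖, θ + arg v, by positivity, by nlinarith, ?_, ?_⟩
  · have := hδ' (x := v) (by rw [dist_eq_norm]; linarith)
    simpa [Real.dist_eq] using this
  · have e1 : 1 - exp (w / n) = c * v := by rw [hv]; field_simp
    have e2 := norm_mul_exp_arg_mul_I v
    rw [ofReal_add, add_mul, exp_add, ofReal_mul]
    linear_combination e1 - c * e2 + (‖v‖ * exp (arg v * I)) * hc.symm.symm - 2 * (‖v‖ * exp (arg v * I)) * hc + (‖v‖ * exp (arg v * I)) * hc + (‖v‖ * exp (arg v * I)) * hc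

theorem core (θ η σ : ℝ) (hθ : Real.cos θ ≠ 0) (hη : 0 < η) (hσ : 0 < σ) : ∃ κ > 0,
    ∀ (n : ℕ) (ρ α β : ℝ) (E : ℂ → ℂ), Even n → 1 ≤ ρ → ρ ≤ 2 → 0 ≤ α → 0 ≤ β → 0 < α + β →
      Differentiable ℂ E → (∀ z, ‖z + 1‖ ≤ 1 → ‖E z‖ ≤ 1 / 8) → ∀ l : ℝ,
      l = Real.log ((1 + ρ) ^ 2 / (α + β * (1 + ρ))) → l * Real.cos θ < 0 → 1 / κ ≤ |l| →
      |l| ≤ κ * n → ∃ (r θ' : ℝ) (z : ℂ), 0 < r ∧ r < σ ∧ |θ' - θ| < η ∧
        z = -1 + r * exp (θ' * I) ∧ z ^ n * (α + β * (1 - ρ * z)) = (1 - ρ * z) ^ 2 - E z := by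
  obtain ⟨κ, k0, k1, hκ⟩ := sector θ η σ hη hσ
  have c0 : 0 < |Real.cos θ| := abs_pos.2 hθ
  have c1 : |Real.cos θ| ≤ 1 := Real.abs_cos_le_one θ
  refine ⟨κ * |Real.cos θ|, by positivity, fun n ρ α β E hn h1 h2 hα hβ hγ hE hEb l hl s1 s2 s3 => ?_⟩
  set t := -l / Real.cos θ with ht
  have tc : t * Real.cos θ = -l := by rw [ht]; field_simp
  have t0 : 0 < t := by
    rw [ht, show -l / Real.cos θ = -(l * Real.cos θ) / Real.cos θ ^ 2 by field_simp]
    exact div_pos (by linarith) (by positivity)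
  have ta : t * |Real.cos θ| = |l| := by rw [← abs_neg l, ← tc, abs_mul, abs_of_pos t0]
  have u1 : 1 / κ ≤ t := by
    rw [div_le_iff₀ (by positivity)] at s2 ⊢
    have : |l| * (κ * |Real.cos θ|) ≤ t * 1 * (κ * 1) := by rw [← ta]; gcongr
    linarith
  have u2 : t ≤ κ * n := le_of_mul_le_mul_right (by rw [ta]; linarith) c0
  have t1 : 1 ≤ t * κ := (div_le_iff₀ k0).1 u1
  have t2 : 10000 ≤ t := by nlinarith
  have n1 : 10000 * t ≤ n := by nlinarith [Nat.cast_nonneg (α := ℝ) n]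
  have n0 : 0 < n := by exact_mod_cast (show (0 : ℝ) < n by linarith)
  set m := round (-(t * Real.sin θ) / (2 * Real.pi)) with hm
  have hp := Real.pi_pos
  have m1 : |m * (2 * Real.pi) + t * Real.sin θ| ≤ Real.pi := by
    have := abs_sub_round (-(t * Real.sin θ) / (2 * Real.pi))
    rw [show m * (2 * Real.pi) + t * Real.sin θ =
      -((-(t * Real.sin θ) / (2 * Real.pi) - m) * (2 * Real.pi)) by field_simp; ring, abs_neg,
      abs_mul, abs_of_pos (show 0 < 2 * Real.pi by positivity)]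
    nlinarith
  have w1 : ‖((l : ℂ) + m * (2 * Real.pi * I)) + t * exp (θ * I)‖ ≤ Real.pi := by
    have tc' : (t : ℂ) * cos θ = -l := by exact_mod_cast tc
    rw [show ((l : ℂ) + m * (2 * Real.pi * I)) + t * exp (θ * I) =
      ((m * (2 * Real.pi) + t * Real.sin θ : ℝ) : ℂ) * I by
        rw [exp_mul_I]; push_cast; linear_combination tc', norm_mul, norm_I, mul_one, norm_real]
    exact m1
  have hden : 0 < α + β * (1 + ρ) := by nlinarith
  obtain ⟨w, w2, w3⟩ := zero_near n hn n0 ρ α β h1 h2 hα hβ hγ E hE hEb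
    ((l : ℂ) + m * (2 * Real.pi * I)) (by
      rw [exp_add, exp_int_mul_two_pi_mul_I, mul_one, ← ofReal_exp, hl,
        Real.exp_log (by positivity)]) (by
      have := norm_sub_le (((l : ℂ) + m * (2 * Real.pi * I)) + t * exp (θ * I)) (t * exp (θ * I))
      rw [add_sub_cancel_right, norm_mul, norm_exp_ofReal_mul_I, norm_real, Real.norm_eq_abs,
        abs_of_pos t0] at this
      linarith [Real.pi_lt_four])
  obtain ⟨r, θ', r1, r2, r3, r4⟩ := hκ t n w u1 u2 (by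
    have := norm_add_le (w - ((l : ℂ) + m * (2 * Real.pi * I)))
      (((l : ℂ) + m * (2 * Real.pi * I)) + t * exp (θ * I))
    rw [← add_assoc, sub_add_cancel] at this
    linarith [Real.pi_lt_d2])
  exact ⟨r, θ', _, r1, r2, r3, by simpa using r4, w3⟩

end Pool.Agent.H41.Op
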