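import Pool.Agent.H41.Op2

set_option autoImplicit false

namespace Pool.Agent.H41.Op

open Polynomial Finset Filter Topology

structure Good (c : ℕ → ℝ) : Prop where
  one : c 0 = 1
  mono : ∀ k, c k ≤ c (k + 1)
  two : ∀ k, c (k + 1) ≤ 2 * c k

theorem Good.monotone {c : ℕ → ℝ} (h : Good c) : Monotone c := monotone_nat_of_le_succ h.mono

theorem Good.one_le {c : ℕ → ℝ} (h : Good c) (k : ℕ) : 1 ≤ c k :=
  h.one ▸ h.monotone (Nat.zero_le k)

theorem Good.pos {c : ℕ → ℝ} (h : Good c) (k : ℕ) : 0 < c k := one_pos.trans_le (h.one_le k)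

noncomputable def V (c : ℕ → ℝ) (N : ℕ) : ℝ := ∑ k ∈ range (N + 1), c k * ((N : ℝ) - k) ^ 2

theorem V_eq (c : ℕ → ℝ) (N : ℕ) :
    V c N = N ^ 2 * S c 0 N - 2 * N * S c 1 N + S c 2 N := by
  simp only [V, S, Finset.mul_sum, ← Finset.sum_add_distrib, ← Finset.sum_sub_distrib]
  exact Finset.sum_congr rfl fun k _ => by ring

theorem S_succ (c : ℕ → ℝ) (e N : ℕ) :
    S c e (N + 1) = S c e N + c (N + 1) * ((N : ℝ) + 1) ^ e := by
  rw [S, Finset.sum_range_succ, ← S]; push_cast; rfl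

theorem det_succ (c : ℕ → ℝ) (N : ℕ) : det c (N + 1) = det c N + c (N + 1) * V c (N + 1) := by
  simp only [det, V_eq, S_succ]; push_cast; ring

theorem det_le (c : ℕ → ℝ) (N : ℕ) : det c N ≤ S c 0 N * V c N := by
  rw [det, V_eq]; nlinarith [sq_nonneg (N * S c 0 N - S c 1 N)]

theorem Good.V_ge {c : ℕ → ℝ} (h : Good c) (N : ℕ) : ((N : ℝ)) ^ 3 / 3 ≤ V c N := by
  have h1 : ∀ n : ℕ, (n : ℝ) ^ 3 / 3 ≤ ∑ k ∈ range (n + 1), (k : ℝ) ^ 2 := by
    intro n
    induction n with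
    | zero => simp
    | succ n ih =>
      rw [Finset.sum_range_succ]; push_cast
      nlinarith [Nat.cast_nonneg (α := ℝ) n]
  refine (h1 N).trans ?_
  rw [← Finset.sum_range_reflect]
  refine Finset.sum_le_sum fun k hk => ?_
  have hk' : k ≤ N := Nat.lt_succ_iff.1 (Finset.mem_range.1 hk)
  rw [show N + 1 - 1 - k = N - k by omega, Nat.cast_sub hk']
  exact le_mul_of_one_le_left (sq_nonneg _) (h.one_le k)

theorem Good.det_ge {c : ℕ → ℝ} (h : Good c) (N : ℕ) : (N : ℝ) ^ 4 / 12 ≤ det c N := by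
  induction N with
  | zero => simp [det, S]
  | succ N ih =>
    rw [det_succ]
    have h1 := h.V_ge (N + 1)
    have h2 : 1 * (((N + 1 : ℕ) : ℝ) ^ 3 / 3) ≤ c (N + 1) * V c (N + 1) :=
      mul_le_mul (h.one_le _) h1 (by positivity) (h.pos _).le
    push_cast at h2 ⊢
    have := Nat.cast_nonneg (α := ℝ) N
    nlinarith [pow_nonneg this 2, pow_nonneg this 3]

theorem Good.det_ge' {c : ℕ → ℝ} (h : Good c) (N : ℕ) : c (N + 1) ^ 2 / 2 ≤ det c (N + 1) := by
  rw [det_succ]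
  have h1 : 0 ≤ det c N := le_trans (by positivity) (h.det_ge N)
  have h2 : c N ≤ V c (N + 1) := by
    have := Finset.single_le_sum (f := fun k => c k * (((N + 1 : ℕ) : ℝ) - k) ^ 2)
      (fun k _ => mul_nonneg (h.pos k).le (sq_nonneg _)) (Finset.mem_range.2 (by omega : N < N + 1 + 1))
    simpa [V] using this
  nlinarith [h.two N, h.pos (N + 1), mul_le_mul_of_nonneg_left h2 (h.pos (N + 1)).le]

theorem Good.S_le {c : ℕ → ℝ} (h : Good c) (e N : ℕ) : S c e N ≤ ((N : ℝ) + 1) ^ (e + 1) * c N := by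
  refine (Finset.sum_le_card_nsmul _ _ (c N * ((N : ℝ) + 1) ^ e) fun k hk => ?_).trans
    (le_of_eq (by simp; ring))
  have hk' : k ≤ N := Nat.lt_succ_iff.1 (Finset.mem_range.1 hk)
  have : (k : ℝ) ≤ N + 1 := by exact_mod_cast hk'.trans (Nat.le_succ _)
  exact mul_le_mul (h.monotone hk') (by gcongr) (by positivity) (h.pos _).le

theorem Good.S1_ge {c : ℕ → ℝ} (h : Good c) (N : ℕ) : c N * N ≤ S c 1 N := by
  have := Finset.single_le_sum (f := fun k => c k * (k : ℝ) ^ 1)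
    (fun k _ => mul_nonneg (h.pos k).le (by positivity)) (Finset.mem_range.2 (by omega : N < N + 1))
  simpa [S] using this

theorem Good.S2_le {c : ℕ → ℝ} (h : Good c) (N : ℕ) : S c 2 N ≤ N * S c 1 N := by
  rw [S, S, Finset.mul_sum]
  refine Finset.sum_le_sum fun k hk => ?_
  have : (k : ℝ) ≤ N := by exact_mod_cast Nat.lt_succ_iff.1 (Finset.mem_range.1 hk)
  have h0 := mul_nonneg (h.pos k).le (Nat.cast_nonneg (α := ℝ) k)
  nlinarith

theorem ident (c : ℕ → ℝ) (ρ : ℝ) (M : ℕ) (hc : ∀ k, M ≤ k → c (k + 1) = ρ * c k) :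
    ∃ H1 H2 : ℂ → ℂ, Differentiable ℂ H1 ∧ Differentiable ℂ H2 ∧ ∀ N, M ≤ N → ∀ z : ℂ,
      (1 - ρ * z) * ∑ k ∈ range (N + 1), (c k : ℂ) * z ^ k = H1 z - ρ * c N * z ^ (N + 1) ∧
      (1 - ρ * z) ^ 2 * ∑ k ∈ range (N + 1), (c k : ℂ) * k * z ^ k
        = H2 z - ρ * c N * z ^ (N + 1) * (N * (1 - ρ * z) + 1) := by
  refine ⟨fun z => (1 - ρ * z) * ∑ k ∈ range (M + 1), (c k : ℂ) * z ^ k + ρ * c M * z ^ (M + 1),
    fun z => (1 - ρ * z) ^ 2 * ∑ k ∈ range (M + 1), (c k : ℂ) * k * z ^ k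
      + ρ * c M * z ^ (M + 1) * (M * (1 - ρ * z) + 1), by fun_prop, by fun_prop, fun N hN z => ?_⟩
  induction N, hN using Nat.le_induction with
  | base => constructor <;> ring
  | succ N hN ih =>
    rw [Finset.sum_range_succ _ (N + 1), Finset.sum_range_succ _ (N + 1), hc N hN]
    push_cast
    exact ⟨by linear_combination ih.1, by linear_combination ih.2⟩

noncomputable def gam (c : ℕ → ℝ) (ρ : ℝ) (N : ℕ) : ℝ :=
  ρ * c N * S c 1 N / det c N + ρ * c N * (N * S c 1 N - S c 2 N) / det c N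

theorem Good.gam_bounds {c : ℕ → ℝ} (h : Good c) {ρ : ℝ} (h1 : 1 ≤ ρ) (h2 : ρ ≤ 2) (N : ℕ)
    (hN : 1 ≤ N) : c N * S c 1 N / det c N ≤ gam c ρ N ∧
      gam c ρ N ≤ 2 * (N + 1) * (c N * S c 1 N / det c N) ∧
      1 / ((N : ℝ) + 1) ^ 4 ≤ c N * S c 1 N / det c N ∧
      c N * S c 1 N / det c N ≤ 2 * ((N : ℝ) + 1) ^ 2 := by
  have hN' : (1 : ℝ) ≤ N := by exact_mod_cast hN
  have hd : 0 < det c N := lt_of_lt_of_le (by positivity) (h.det_ge N)
  have p := h.pos N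
  have s1 := S_nonneg c h.pos 1 N
  have s2 := S_nonneg c h.pos 2 N
  have s0 := S_nonneg c h.pos 0 N
  have s3 := h.S2_le N
  have q := mul_nonneg p.le s1
  refine ⟨?_, ?_, ?_, ?_⟩
  · have : 0 ≤ ρ * c N * (N * S c 1 N - S c 2 N) / det c N :=
      div_nonneg (mul_nonneg (by positivity) (by linarith)) hd.le
    have : c N * S c 1 N / det c N ≤ ρ * c N * S c 1 N / det c N := by gcongr; nlinarith
    rw [gam]; linarith
  · rw [gam, ← add_div, ← mul_div_assoc]
    gcongr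
    nlinarith [mul_nonneg p.le s2, mul_nonneg q (by linarith : (0 : ℝ) ≤ N)]
  · rw [div_le_div_iff₀ (by positivity) hd]
    have a1 : det c N ≤ (((N : ℝ) + 1) ^ (0 + 1) * c N) * (((N : ℝ) + 1) ^ (2 + 1) * c N) := by
      have := mul_le_mul (h.S_le 0 N) (h.S_le 2 N) s2 (by positivity)
      rw [det]; nlinarith
    have a2 : c N * (c N * 1) ≤ c N * S c 1 N := by
      gcongr; exact le_trans (by gcongr) (h.S1_ge N)
    calc 1 * det c N ≤ c N * (c N * 1) * ((N : ℝ) + 1) ^ 4 := by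
          rw [one_mul]; exact a1.trans (le_of_eq (by ring))
      _ ≤ _ := by gcongr
  · obtain ⟨N, rfl⟩ : ∃ n, N = n + 1 := ⟨N - 1, by omega⟩
    rw [div_le_iff₀ hd]
    have b1 := mul_le_mul_of_nonneg_left (h.S_le 1 (N + 1)) p.le
    have b2 := mul_le_mul_of_nonneg_left (h.det_ge' N)
      (show 0 ≤ 2 * (((N + 1 : ℕ) : ℝ) + 1) ^ 2 by positivity)
    exact b1.trans ((le_of_eq (by ring)).trans b2)

/-- One stage, from the three limits. -/
theorem stage0 {c : ℕ → ℝ} (h : Good c) {ρ : ℝ} (h1 : 1 ≤ ρ) (h2 : ρ ≤ 2) (M : ℕ)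
    (hc : ∀ k, M ≤ k → c (k + 1) = ρ * c k) (θ η σ : ℝ) (hη : 0 < η) (hσ : 0 < σ)
    (hS : Tendsto (fun N : ℕ => ((N : ℝ) + 1) ^ 3 * c N / det c N) atTop (𝓝 0))
    (hγ : (0 < Real.cos θ ∧ Tendsto (gam c ρ) atTop atTop) ∨
      (Real.cos θ < 0 ∧ Tendsto (gam c ρ) atTop (𝓝 0))) :
    ∀ᶠ N in atTop, Odd N → ∃ (r θ' : ℝ) (z : ℂ), 0 < r ∧ r < σ ∧ |θ' - θ| < η ∧
      z = -1 + r * Complex.exp (θ' * Complex.I) ∧ z ≠ 1 ∧
      (P c N (S c 2 N) (-S c 1 N)).eval z = det c N := by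
  have hθ : Real.cos θ ≠ 0 := by rcases hγ with h | h; exacts [h.1.ne', h.1.ne]
  obtain ⟨κ, k0, hκ⟩ := core θ η (min σ 1) hθ hη (by positivity)
  obtain ⟨H1, H2, d1, d2, hH⟩ := ident c ρ M hc
  obtain ⟨K, hK⟩ := (isCompact_closedBall (-1 : ℂ) 1).exists_bound_of_continuousOn
    (f := fun z => ‖(1 - ρ * z) * H1 z‖ + ‖H2 z‖) (by
      have := d1.continuous; have := d2.continuous; fun_prop)
  have e1 := hS.eventually (ge_mem_nhds (show (0 : ℝ) < 1 / (8 * (|K| + 1)) by positivity))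
  have e2 : ∀ᶠ N : ℕ in atTop, 12 * Real.log ((N : ℝ) + 1) ≤ κ * (N + 1) := by
    have t : Tendsto (fun N : ℕ => (N : ℝ) + 1) atTop atTop :=
      tendsto_atTop_add_const_right _ _ tendsto_natCast_atTop_atTop
    filter_upwards [t.eventually (Real.isLittleO_log_id_atTop.bound
      (show 0 < κ / 12 by positivity))] with N hN
    rw [Real.norm_eq_abs, Real.norm_eq_abs, id, abs_of_pos (show (0 : ℝ) < N + 1 by positivity)]
      at hN
    linarith [le_abs_self (Real.log ((N : ℝ) + 1))]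
  have e3 : ∀ᶠ N : ℕ in atTop, (0 < Real.cos θ ∧ 9 * Real.exp (1 / κ) ≤ gam c ρ N) ∨
      (Real.cos θ < 0 ∧ gam c ρ N ≤ Real.exp (-(1 / κ))) := by
    rcases hγ with h | h
    · exact (h.2.eventually_ge_atTop _).mono fun N hN => Or.inl ⟨h.1, hN⟩
    · exact (h.2.eventually (ge_mem_nhds (Real.exp_pos _))).mono fun N hN => Or.inr ⟨h.1, hN⟩
  filter_upwards [e1, e2, e3, eventually_ge_atTop M, eventually_ge_atTop 1]
    with N e1 e2 e3 e4 e5 hodd
  obtain ⟨g1, g2, g3, g4⟩ := h.gam_bounds h1 h2 N e5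
  have hN' : (1 : ℝ) ≤ N := by exact_mod_cast e5
  have hd : 0 < det c N := lt_of_lt_of_le (by positivity) (h.det_ge N)
  have hd' : (det c N : ℂ) ≠ 0 := by exact_mod_cast hd.ne'
  have p := h.pos N
  have s1 := S_nonneg c h.pos 1 N
  have s2 := S_nonneg c h.pos 2 N
  set α := ρ * c N * S c 1 N / det c N with hα
  set β := ρ * c N * (N * S c 1 N - S c 2 N) / det c N with hβ
  have α0 : 0 ≤ α := by positivity
  have β0 : 0 ≤ β := div_nonneg (mul_nonneg (by positivity) (by linarith [h.S2_le N])) hd.le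
  have hg : gam c ρ N = α + β := rfl
  rw [hg] at g1 g2 e3
  have n0 : (0 : ℝ) < N + 1 := by positivity
  have γ0 : 0 < α + β := lt_of_lt_of_le (by positivity) (g3.trans g1)
  set L := (1 + ρ) ^ 2 / (α + β * (1 + ρ)) with hL
  have hden : 0 < α + β * (1 + ρ) := by nlinarith
  have L0 : 0 < L := by positivity
  have L1 : L ≤ 9 / (α + β) := by
    rw [hL, div_le_div_iff₀ hden γ0]
    have : (1 + ρ) ^ 2 ≤ 9 := by nlinarith
    nlinarith
  have L2 : 1 / (α + β) ≤ L := by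
    rw [hL, div_le_div_iff₀ γ0 hden]
    have : 1 + ρ ≤ (1 + ρ) ^ 2 := by nlinarith
    nlinarith [mul_le_mul_of_nonneg_right this β0, mul_le_mul_of_nonneg_right this α0]
  have n2 : (2 : ℝ) ≤ N + 1 := by linarith
  have L3 : |Real.log L| ≤ 12 * Real.log ((N : ℝ) + 1) := by
    have q : 12 * Real.log ((N : ℝ) + 1) = Real.log (((N : ℝ) + 1) ^ 12) := by
      rw [Real.log_pow]; norm_num
    have q1 : (16 : ℝ) ≤ (N + 1) ^ 8 := by
      calc (16 : ℝ) ≤ 2 ^ 8 := by norm_num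
        _ ≤ _ := by gcongr
    have q2 : (1 : ℝ) ≤ (N + 1) := by linarith
    rw [q, abs_le, ← Real.log_inv]
    constructor
    · apply Real.log_le_log (by positivity)
      refine le_trans ?_ L2
      rw [one_div]
      apply inv_anti₀ γ0
      calc α + β ≤ 2 * (N + 1) * (2 * ((N : ℝ) + 1) ^ 2) := g2.trans (by gcongr)
        _ = 4 * ((N : ℝ) + 1) ^ 3 * 1 := by ring
        _ ≤ (N + 1) ^ 8 * ((N : ℝ) + 1) ^ 3 * (N + 1) := by gcongr; linarith
        _ = _ := by ring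
    · apply Real.log_le_log L0
      calc L ≤ 9 / (1 / ((N : ℝ) + 1) ^ 4) := L1.trans (by gcongr; exact g3.trans g1)
        _ = 9 * ((N : ℝ) + 1) ^ 4 := by field_simp
        _ ≤ (N + 1) ^ 8 * ((N : ℝ) + 1) ^ 4 := by gcongr; linarith
        _ = _ := by ring
  have L4 : Real.log L * Real.cos θ < 0 ∧ 1 / κ ≤ |Real.log L| := by
    have k1 : 0 < 1 / κ := by positivity
    rcases e3 with ⟨a, b⟩ | ⟨a, b⟩
    · have : Real.log L ≤ -(1 / κ) := by
        rw [Real.log_le_iff_le_exp L0, Real.exp_neg]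
        calc L ≤ 9 / (9 * Real.exp (1 / κ)) := L1.trans (by gcongr)
          _ = _ := by field_simp
      exact ⟨mul_neg_of_neg_of_pos (by linarith) a, le_abs.2 (Or.inr (by linarith))⟩
    · have : 1 / κ ≤ Real.log L := by
        rw [Real.le_log_iff_exp_le L0]
        calc Real.exp (1 / κ) = 1 / Real.exp (-(1 / κ)) := by rw [Real.exp_neg]; simp
          _ ≤ 1 / (α + β) := by gcongr
          _ ≤ L := L2
      exact ⟨mul_neg_of_pos_of_neg (by linarith) a, le_abs.2 (Or.inl this)⟩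
  obtain ⟨r, θ', z, r1, r2, r3, r4, r5⟩ := hκ (N + 1) ρ α β
    (fun z => (S c 2 N * ((1 - ρ * z) * H1 z) - S c 1 N * H2 z) / det c N) hodd.add_one h1 h2 α0 β0
    γ0 (by fun_prop) (fun z hz => by
      have k := hK z (by rw [Metric.mem_closedBall, dist_eq_norm]; simpa using hz)
      have k' : ‖(1 - ρ * z) * H1 z‖ + ‖H2 z‖ ≤ |K| + 1 := by
        linarith [le_abs_self K, Real.le_norm_self (‖(1 - ρ * z) * H1 z‖ + ‖H2 z‖)]
      have b2 : S c 2 N ≤ (N + 1) ^ 3 * c N := h.S_le 2 N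
      have b1 : S c 1 N ≤ (N + 1) ^ 3 * c N := (h.S_le 1 N).trans (by
        gcongr
        · linarith
        · norm_num)
      rw [norm_div, Complex.norm_real, Real.norm_eq_abs, abs_of_pos hd, div_le_iff₀ hd]
      rw [div_le_div_iff₀ hd (by positivity)] at e1
      refine (norm_sub_le _ _).trans ?_
      rw [norm_mul (S c 2 N : ℂ), norm_mul (S c 1 N : ℂ), Complex.norm_real, Complex.norm_real,
        Real.norm_eq_abs, Real.norm_eq_abs, abs_of_nonneg s1, abs_of_nonneg s2]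
      calc _ ≤ (N + 1) ^ 3 * c N * ‖(1 - ρ * z) * H1 z‖ + (N + 1) ^ 3 * c N * ‖H2 z‖ := by gcongr
        _ ≤ (N + 1) ^ 3 * c N * (|K| + 1) := by rw [← mul_add]; gcongr
        _ ≤ _ := by linarith) _ rfl L4.1 L4.2 (by push_cast; linarith)
  have hre : z.re < 0 := by
    have := Complex.re_le_norm (r * Complex.exp (θ' * Complex.I))
    rw [norm_mul, Complex.norm_exp_ofReal_mul_I, Complex.norm_real, Real.norm_eq_abs,
      abs_of_pos r1] at this
    rw [r4, Complex.add_re]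
    simp only [Complex.neg_re, Complex.one_re]
    linarith [r2.trans_le (min_le_right _ _)]
  refine ⟨r, θ', z, r1, r2.trans_le (min_le_left _ _), r3, r4, fun h => ?_, ?_⟩
  · rw [h] at hre; norm_num at hre
  · have hu : (1 - ρ * z) ≠ 0 := fun h => by
      have := congrArg Complex.re h
      simp at this
      nlinarith
    obtain ⟨i1, i2⟩ := hH N e4 z
    apply mul_left_cancel₀ (pow_ne_zero 2 hu)
    rw [P_eval]
    simp only [hα, hβ] at r5
    push_cast at r5 ⊢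
    field_simp at r5
    linear_combination (S c 2 N * (1 - ρ * z)) * i1 - (S c 1 N) * i2 + r5

end Pool.Agent.H41.Op
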