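import Pool.Agent.H41.Op3

set_option autoImplicit false

namespace Pool.Agent.H41.Op

open Polynomial Finset Filter Topology

theorem flat {c : ℕ → ℝ} (h : Good c) (M : ℕ) (hc : ∀ k, M ≤ k → c (k + 1) = 1 * c k) :
    Tendsto (fun N : ℕ => ((N : ℝ) + 1) ^ 3 * c N / det c N) atTop (𝓝 0) ∧
      Tendsto (gam c 1) atTop (𝓝 0) := by
  have e : ∀ N, M ≤ N → c N = c M := fun N hN => by
    induction N, hN using Nat.le_induction with
    | base => rfl
    | succ N hN ih => rw [hc N hN, one_mul, ih]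
  have t1 : Tendsto (fun N : ℕ => ((N : ℝ) + 1) ^ 3 * c N / det c N) atTop (𝓝 0) := by
    refine squeeze_zero' ?_ ?_ (tendsto_const_div_atTop_nhds_zero_nat (96 * c M))
    · exact Eventually.of_forall fun N => div_nonneg (mul_nonneg (by positivity) (h.pos N).le)
        (le_trans (by positivity) (h.det_ge N))
    · filter_upwards [eventually_ge_atTop M, eventually_ge_atTop 1] with N h1 h2
      have hN : (1 : ℝ) ≤ N := by exact_mod_cast h2
      have := h.pos M
      rw [e N h1]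
      calc _ ≤ (2 * (N : ℝ)) ^ 3 * c M / ((N : ℝ) ^ 4 / 12) := by
            gcongr
            · linarith
            · exact h.det_ge N
        _ = _ := by field_simp; ring
  refine ⟨t1, squeeze_zero' ?_ ?_ (by simpa using t1.const_mul (2 * c M))⟩
  · filter_upwards [eventually_ge_atTop 1] with N h2
    obtain ⟨g1, -, g3, -⟩ := h.gam_bounds le_rfl one_le_two N h2
    exact le_trans (by positivity) (g3.trans g1)
  · filter_upwards [eventually_ge_atTop M, eventually_ge_atTop 1] with N h1 h2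
    obtain ⟨-, g2, -, -⟩ := h.gam_bounds le_rfl one_le_two N h2
    have hd : 0 ≤ det c N := le_trans (by positivity) (h.det_ge N)
    have := h.pos N
    calc _ ≤ _ := g2
      _ ≤ 2 * (N + 1) * (c N * (((N : ℝ) + 1) ^ (1 + 1) * c N) / det c N) := by
          gcongr; exact h.S_le 1 N
      _ = _ := by rw [← e N h1]; ring

theorem grow {c : ℕ → ℝ} (h : Good c) {ρ : ℝ} (h1 : 1 < ρ) (h2 : ρ ≤ 2) (M : ℕ)
    (hc : ∀ k, M ≤ k → c (k + 1) = ρ * c k) :
    Tendsto (fun N : ℕ => ((N : ℝ) + 1) ^ 3 * c N / det c N) atTop (𝓝 0) ∧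
      Tendsto (gam c ρ) atTop atTop := by
  have r0 : 0 < ρ := by linarith
  have e : ∀ N, M ≤ N → c N * ρ ^ M = c M * ρ ^ N := fun N hN => by
    induction N, hN using Nat.le_induction with
    | base => rfl
    | succ N hN ih => rw [hc N hN, pow_succ, mul_assoc, ih]; ring
  have e2 : ∀ k, c k ≤ c M * ρ ^ k := fun k => by
    rcases le_total k M with hk | hk
    · exact (h.monotone hk).trans (le_mul_of_one_le_right (h.pos M).le (one_le_pow₀ h1.le))
    · rw [← e k hk]; exact le_mul_of_one_le_right (h.pos k).le (one_le_pow₀ h1.le)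
  constructor
  · have t := ((tendsto_pow_const_div_const_pow_of_one_lt 3 h1).comp
      (tendsto_add_atTop_nat 1)).const_mul (2 * ρ ^ (M + 1))
    rw [mul_zero] at t
    refine squeeze_zero' ?_ ?_ t
    · exact Eventually.of_forall fun N => div_nonneg (mul_nonneg (by positivity) (h.pos N).le)
        (le_trans (by positivity) (h.det_ge N))
    · filter_upwards [eventually_ge_atTop M, eventually_ge_atTop 1] with N k1 k2
      obtain ⟨n, rfl⟩ : ∃ n, N = n + 1 := ⟨N - 1, by omega⟩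
      have p := h.pos (n + 1)
      have q : ρ ^ (n + 1) / ρ ^ M ≤ c (n + 1) := by
        rw [div_le_iff₀ (by positivity), e _ k1]
        exact le_mul_of_one_le_left (by positivity) (h.one_le M)
      calc _ ≤ (((n + 1 : ℕ) : ℝ) + 1) ^ 3 * c (n + 1) / (c (n + 1) ^ 2 / 2) := by
            gcongr; exact h.det_ge' n
        _ = 2 * (((n + 1 : ℕ) : ℝ) + 1) ^ 3 / c (n + 1) := by field_simp
        _ ≤ 2 * (((n + 1 : ℕ) : ℝ) + 1) ^ 3 / (ρ ^ (n + 1) / ρ ^ M) := by gcongr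
        _ = _ := by simp only [Function.comp]; push_cast; field_simp; ring
  · have i0 : 0 < ρ⁻¹ := inv_pos.2 r0
    have i1 : ‖ρ⁻¹‖ < 1 := by
      rw [Real.norm_eq_abs, abs_of_pos i0]; exact inv_lt_one_of_one_lt₀ h1
    have hs : Summable fun j : ℕ => (j : ℝ) ^ 2 * ρ⁻¹ ^ j + ρ⁻¹ ^ j :=
      (summable_pow_mul_geometric_of_norm_lt_one 2 i1).add (summable_geometric_of_norm_lt_one i1)
    set A := ∑' j : ℕ, ((j : ℝ) ^ 2 * ρ⁻¹ ^ j + ρ⁻¹ ^ j) with hA
    have A0 : 0 ≤ A := tsum_nonneg fun j => by positivity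
    have w : ∀ N, M ≤ N → V c N + S c 0 N ≤ c N * (ρ ^ M * (A + 1)) := by
      intro N hN
      have w1 := hs.sum_le_tsum (range (N + 1)) fun j _ => by positivity
      rw [← Finset.sum_range_reflect] at w1
      have p := h.pos N
      calc _ ≤ c N * ρ ^ M * ∑ j ∈ range (N + 1),
            (((N + 1 - 1 - j : ℕ) : ℝ) ^ 2 * ρ⁻¹ ^ (N + 1 - 1 - j) + ρ⁻¹ ^ (N + 1 - 1 - j)) := by
            rw [V, S, ← Finset.sum_add_distrib, Finset.mul_sum]
            refine Finset.sum_le_sum fun k hk => ?_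
            have hk' : k ≤ N := Nat.lt_succ_iff.1 (Finset.mem_range.1 hk)
            rw [show N + 1 - 1 - k = N - k by omega, Nat.cast_sub hk', e N hN]
            have : c M * ρ ^ N * ρ⁻¹ ^ (N - k) = c M * ρ ^ k := by
              rw [show ρ ^ N = ρ ^ k * ρ ^ (N - k) by rw [← pow_add]; congr 1; omega, inv_pow]
              field_simp
            have q := e2 k
            rw [← this] at q
            nlinarith [mul_le_mul_of_nonneg_right q (sq_nonneg ((N : ℝ) - k))]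
        _ ≤ c N * ρ ^ M * (A + 1) := by gcongr; linarith
        _ = _ := by ring
    set B := ρ ^ M * (A + 1) with hB
    have B0 : 0 < B := by positivity
    refine tendsto_atTop_mono' _ ?_
      (tendsto_natCast_atTop_atTop.atTop_div_const (show 0 < B ^ 2 by positivity))
    filter_upwards [eventually_ge_atTop M, eventually_ge_atTop 1] with N k1 k2
    have hN : (1 : ℝ) ≤ N := by exact_mod_cast k2
    have hd : 0 < det c N := lt_of_lt_of_le (by positivity) (h.det_ge N)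
    have p := h.pos N
    have s0 := S_nonneg c h.pos 0 N
    have v0 : 0 ≤ V c N := le_trans (by positivity) (h.V_ge N)
    have d1 : det c N ≤ (c N * B) * (c N * B) := (det_le c N).trans
      (mul_le_mul (by linarith [w N k1]) (by linarith [w N k1]) v0 (by positivity))
    refine le_trans ?_ (h.gam_bounds h1.le h2 N k2).1
    calc (N : ℝ) / B ^ 2 = c N * (c N * N) / ((c N * B) * (c N * B)) := by field_simp
      _ ≤ _ := by
        gcongr
        · exact mul_nonneg p.le (S_nonneg c h.pos 1 N)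
        · exact h.S1_ge N

noncomputable def cOf (σ : ℕ → ℝ) (k : ℕ) : ℝ := ∏ i ∈ range k, σ i

theorem cOf_succ (σ : ℕ → ℝ) (k : ℕ) : cOf σ (k + 1) = σ k * cOf σ k := by
  rw [cOf, Finset.prod_range_succ, mul_comm]; rfl

theorem good {σ : ℕ → ℝ} (h : ∀ i, 1 ≤ σ i ∧ σ i ≤ 2) : Good (cOf σ) := by
  have p : ∀ k, 0 ≤ cOf σ k := fun k =>
    Finset.prod_nonneg fun i _ => zero_le_one.trans (h i).1
  refine ⟨by simp [cOf], fun k => ?_, fun k => ?_⟩ <;> rw [cOf_succ]
  · exact le_mul_of_one_le_left (p k) (h k).1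
  · exact mul_le_mul_of_nonneg_right (h k).2 (p k)

noncomputable def rho (θ : ℝ) (j : ℕ) : ℝ := if 0 < Real.cos θ then 1 + 1 / (j + 1) else 1

theorem rho_bd (θ : ℝ) (j : ℕ) : 1 ≤ rho θ j ∧ rho θ j ≤ 1 + 1 / (j + 1) := by
  have : (0 : ℝ) < 1 / (j + 1) := by positivity
  unfold rho; split_ifs <;> constructor <;> linarith

theorem rho_two (θ : ℝ) (j : ℕ) : rho θ j ≤ 2 := by
  have : (1 : ℝ) / (j + 1) ≤ 1 := (div_le_one (by positivity)).2 (by simp)
  linarith [(rho_bd θ j).2]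

def Q (c : ℕ → ℝ) (n j : ℕ) (θ η : ℝ) : Prop :=
  S c 2 (n + 2) ≤ 1 / (j + 1) * det c (n + 2) ∧ S c 0 (n + 2) ≤ 1 / (j + 1) * det c (n + 2) ∧
    (Real.cos θ ≠ 0 → ∃ (r θ' : ℝ) (z : ℂ), 0 < r ∧ r < η ∧ |θ' - θ| < η ∧
      z = -1 + r * Complex.exp (θ' * Complex.I) ∧ z ≠ 1 ∧
      (P c (n + 2) (S c 2 (n + 2)) (-S c 1 (n + 2))).eval z = det c (n + 2))

theorem Q_congr {c c' : ℕ → ℝ} {n j : ℕ} {θ η : ℝ} (h : ∀ k ≤ n + 2, c' k = c k)
    (hQ : Q c n j θ η) : Q c' n j θ η := by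
  have e1 : ∀ e, S c' e (n + 2) = S c e (n + 2) := fun e =>
    Finset.sum_congr rfl fun k hk => by rw [h k (Nat.lt_succ_iff.1 (Finset.mem_range.1 hk))]
  have e2 : ∀ α β, P c' (n + 2) α β = P c (n + 2) α β := fun α β =>
    Finset.sum_congr rfl fun k hk => by rw [h k (Nat.lt_succ_iff.1 (Finset.mem_range.1 hk))]
  simpa only [Q, det, e1, e2] using hQ

theorem stage (j M : ℕ) (σ : ℕ → ℝ) (θ η : ℝ) : ∃ n, M ≤ n ∧ (0 < η → (∀ i, 1 ≤ σ i ∧ σ i ≤ 2) →
    Q (cOf fun i => if i < M then σ i else rho θ j) n j θ η) := by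
  by_cases hh : 0 < η ∧ ∀ i, 1 ≤ σ i ∧ σ i ≤ 2
  swap
  · exact ⟨M, le_rfl, fun a b => absurd ⟨a, b⟩ hh⟩
  obtain ⟨hη, hσ⟩ := hh
  set c := cOf fun i => if i < M then σ i else rho θ j with hcd
  have hg : Good c := good fun i => by
    split_ifs
    exacts [hσ i, ⟨(rho_bd θ j).1, rho_two θ j⟩]
  have hc : ∀ k, M ≤ k → c (k + 1) = rho θ j * c k := fun k hk => by
    rw [hcd, cOf_succ, if_neg (by omega)]
  have t : Tendsto (fun N : ℕ => ((N : ℝ) + 1) ^ 3 * c N / det c N) atTop (𝓝 0) ∧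
      (Real.cos θ ≠ 0 → (0 < Real.cos θ ∧ Tendsto (gam c (rho θ j)) atTop atTop) ∨
        (Real.cos θ < 0 ∧ Tendsto (gam c (rho θ j)) atTop (𝓝 0))) := by
    by_cases h : 0 < Real.cos θ
    · have := grow hg (show 1 < rho θ j by rw [rho, if_pos h]; simp; positivity) (rho_two θ j) M hc
      exact ⟨this.1, fun _ => Or.inl ⟨h, this.2⟩⟩
    · have e : rho θ j = 1 := if_neg h
      rw [e] at hc ⊢
      have := flat hg M hc
      exact ⟨this.1, fun h0 => Or.inr ⟨lt_of_le_of_ne (not_lt.1 h) h0, this.2⟩⟩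
  have e1 := t.1.eventually (ge_mem_nhds (show (0 : ℝ) < 1 / (j + 1) by positivity))
  have e2 : ∀ᶠ N in atTop, Real.cos θ ≠ 0 → Odd N → ∃ (r θ' : ℝ) (z : ℂ), 0 < r ∧ r < η ∧
      |θ' - θ| < η ∧ z = -1 + r * Complex.exp (θ' * Complex.I) ∧ z ≠ 1 ∧
      (P c N (S c 2 N) (-S c 1 N)).eval z = det c N := by
    by_cases h0 : Real.cos θ = 0
    · exact Eventually.of_forall fun N h => absurd h0 h
    · exact (stage0 hg (rho_bd θ j).1 (rho_two θ j) M hc θ η η hη hη t.1 (t.2 h0)).mono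
        fun N h _ => h
  obtain ⟨N, hN⟩ := eventually_atTop.1 (e1.and e2)
  obtain ⟨a1, a2⟩ := hN (2 * (N + M) + 1 + 2) (by omega)
  have hd : 0 < det c (2 * (N + M) + 1 + 2) := lt_of_lt_of_le (by positivity) (hg.det_ge _)
  rw [div_le_iff₀ hd] at a1
  refine ⟨2 * (N + M) + 1, by omega, fun _ _ => ⟨(hg.S_le 2 _).trans a1,
    ((hg.S_le 0 _).trans ?_).trans a1, fun h0 => a2 h0 ⟨N + M + 1, by ring⟩⟩⟩
  have := hg.pos (2 * (N + M) + 1 + 2)
  gcongr
  · exact le_add_of_nonneg_left (Nat.cast_nonneg _)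
  · norm_num

theorem main : ∃ ω : ℕ → ℝ, ω 0 = 1 ∧ (∀ k, 0 < ω k) ∧
    Tendsto (fun k => ω k / ω (k + 1)) atTop (𝓝 1) ∧ ∃ f : ℂ[X], IsCyclic ω f ∧
    ∃ ζ : ℂ, ‖ζ‖ = 1 ∧ ∀ ρ θ₁ θ₂ : ℝ, 0 < ρ → θ₁ < θ₂ → ∃ (n : ℕ) (q : ℂ[X]), IsOPA ω f n q ∧
      ∃ r θ : ℝ, 0 < r ∧ r < ρ ∧ θ₁ < θ ∧ θ < θ₂ ∧
        q.eval (ζ + r * Complex.exp (θ * Complex.I)) = 0 := by
  obtain ⟨e, he⟩ := exists_surjective_nat (ℚ × ℕ)
  choose F hF1 hF2 using stage
  let st : ℕ → ℕ × (ℕ → ℝ) := fun j => Nat.rec (0, fun _ => 1) (fun j p =>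
    (F j p.1 p.2 (e j).1 (1 / ((e j).2 + 1)) + 2,
      fun i => if i < p.1 then p.2 i else rho (e j).1 j)) j
  have s1 : ∀ j, (st (j + 1)).1 = F j (st j).1 (st j).2 (e j).1 (1 / ((e j).2 + 1)) + 2 :=
    fun j => rfl
  have s2 : ∀ j, (st (j + 1)).2 = fun i => if i < (st j).1 then (st j).2 i else rho (e j).1 j :=
    fun j => rfl
  have bd : ∀ j i, 1 ≤ (st j).2 i ∧ (st j).2 i ≤ 2 := fun j => by
    induction j with
    | zero => intro i; exact ⟨le_rfl, one_le_two⟩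
    | succ j ih =>
      intro i; rw [s2]; dsimp only
      split_ifs
      exacts [ih i, ⟨(rho_bd _ j).1, rho_two _ j⟩]
  have sm : StrictMono fun j => (st j).1 := strictMono_nat_of_lt_succ fun j => by
    have := hF1 j (st j).1 (st j).2 (e j).1 (1 / ((e j).2 + 1))
    rw [s1]; omega
  have ag : ∀ j l, j ≤ l → ∀ i < (st j).1, (st l).2 i = (st j).2 i := fun j l h i hi => by
    induction l, h using Nat.le_induction with
    | base => rfl
    | succ l h ih => rw [s2]; dsimp only; rw [if_pos (hi.trans_le (sm.monotone h)), ih]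
  set σ : ℕ → ℝ := fun i => (st (i + 1)).2 i with hσ
  have ag' : ∀ j, ∀ i < (st j).1, σ i = (st j).2 i := fun j i hi => by
    rw [← ag j (max j (i + 1)) (le_max_left _ _) i hi,
      ag (i + 1) (max j (i + 1)) (le_max_right _ _) i (sm.le_apply (x := i + 1))]
  have hg : Good (cOf σ) := good fun i => bd (i + 1) i
  have hQ : ∀ j, ∃ n, Q (cOf σ) n j (e j).1 (1 / ((e j).2 + 1)) := fun j =>
    ⟨_, Q_congr (fun k hk => Finset.prod_congr rfl fun i hi => by
      rw [ag' (j + 1) i (by rw [s1]; have := Finset.mem_range.1 hi; omega), s2])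
      (hF2 j (st j).1 (st j).2 (e j).1 (1 / ((e j).2 + 1)) (by positivity) (bd j))⟩
  have dp : ∀ n, 0 < det (cOf σ) (n + 2) := fun n =>
    lt_of_lt_of_le (by positivity) (hg.det_ge _)
  refine ⟨fun k => (cOf σ k)⁻¹, by simp [cOf], fun k => inv_pos.2 (hg.pos k), ?_, (X - C 1) ^ 2,
    cyclic _ hg.pos fun δ hδ => ?_, -1, by simp, fun ρ θ₁ θ₂ hρ hθ => ?_⟩
  · have : ∀ k, (cOf σ k)⁻¹ / (cOf σ (k + 1))⁻¹ = σ k := fun k => by
      have := (hg.pos k).ne'
      rw [cOf_succ, div_inv_eq_mul]; field_simp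
    simp only [this]
    rw [Metric.tendsto_atTop]
    intro ε hε
    obtain ⟨j, hj⟩ := exists_nat_one_div_lt hε
    refine ⟨(st j).1, fun i hi => ?_⟩
    have : ∀ l, j + 1 ≤ l → (st l).2 i ≤ 1 + 1 / (j + 1) := fun l h => by
      induction l, h using Nat.le_induction with
      | base => rw [s2]; dsimp only; rw [if_neg (not_lt.2 hi)]; exact (rho_bd _ j).2
      | succ l h ih =>
        rw [s2]; dsimp only
        split_ifs
        · exact ih
        · refine (rho_bd _ l).2.trans ?_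
          have : (j : ℝ) ≤ l := by exact_mod_cast (by omega : j ≤ l)
          gcongr
    have h1 := this (i + 1) (Nat.succ_le_succ ((sm.le_apply (x := j)).trans hi))
    have h2 := (bd (i + 1) i).1
    rw [Real.dist_eq, abs_lt]
    constructor <;> simp only [hσ] <;> linarith
  · obtain ⟨j, hj⟩ := exists_nat_one_div_lt hδ
    obtain ⟨n, h1, h2, -⟩ := hQ j
    have := mul_le_mul_of_nonneg_right hj.le (dp n).le
    exact ⟨n + 2, dp n, h1.trans this, h2.trans this⟩
  · obtain ⟨a, a1, a2, a3⟩ : ∃ a : ℚ, θ₁ < a ∧ a < θ₂ ∧ Real.cos a ≠ 0 := by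
      obtain ⟨a, a1, a2⟩ := exists_rat_btwn hθ
      obtain ⟨b, b1, b2⟩ := exists_rat_btwn (lt_min a2 (show (a : ℝ) < a + 1 by linarith))
      by_contra hc
      push Not at hc
      have := Real.sin_pos_of_pos_of_lt_pi (x := b - a) (by linarith)
        (by linarith [Real.pi_gt_three, b2.trans_le (min_le_right _ _)])
      rw [Real.sin_sub, hc a a1 a2, hc b (a1.trans b1) (b2.trans_le (min_le_left _ _))] at this
      simp at this
    obtain ⟨k, hk⟩ := exists_nat_one_div_lt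
      (show 0 < min ρ (min (a - θ₁) (θ₂ - a)) by simp [hρ, a1, a2])
    obtain ⟨j, hj⟩ := he (a, k)
    obtain ⟨n, -, -, h3⟩ := hQ j
    rw [hj] at h3
    obtain ⟨r, θ, z, r1, r2, r3, r4, r5, r6⟩ := h3 a3
    obtain ⟨q, q1, q2⟩ := opa _ hg.pos n (dp n).ne'
    simp only [lt_min_iff] at hk
    rw [abs_lt] at r3
    exact ⟨n, q, q1, r, θ, r1, by linarith [hk.1], by linarith [hk.2.1], by linarith [hk.2.2],
      r4 ▸ q2 z r5 r6⟩

end Pool.Agent.H41.Op
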