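import Pool.Agent.H41.Op4

set_option autoImplicit false

namespace Pool.Agent.H41.Op

open Polynomial Finset Filter Topology

theorem main2 : ∃ ω : ℕ → ℝ, ω 0 = 1 ∧ (∀ k, 0 < ω k) ∧
    Tendsto (fun k => ω k / ω (k + 1)) atTop (𝓝 1) ∧ Antitone ω ∧ IsCyclic ω ((X - C 1) ^ 2) ∧
    ∃ q : ℕ → ℂ[X], (∀ n, IsOPA ω ((X - C 1) ^ 2) n (q n)) ∧
      ¬TendstoUniformlyOn (fun n z => (1 - q n * (X - C 1) ^ 2).eval z) 0 atTop
        (Metric.closedBall (0 : ℂ) 1 ∩ Metric.closedBall (-1) 1) := by
  choose F hF1 hF2 using stage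
  let st : ℕ → ℕ × (ℕ → ℝ) := fun j => Nat.rec (0, fun _ => 1) (fun j p =>
    (F j p.1 p.2 0 (1 / 2) + 2,
      fun i => if i < p.1 then p.2 i else rho 0 j)) j
  have s1 : ∀ j, (st (j + 1)).1 = F j (st j).1 (st j).2 0 (1 / 2) + 2 :=
    fun j => rfl
  have s2 : ∀ j, (st (j + 1)).2 = fun i => if i < (st j).1 then (st j).2 i else rho 0 j :=
    fun j => rfl
  have bd : ∀ j i, 1 ≤ (st j).2 i ∧ (st j).2 i ≤ 2 := fun j => by
    induction j with
    | zero => intro i; exact ⟨le_rfl, one_le_two⟩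
    | succ j ih =>
      intro i; rw [s2]; dsimp only
      split_ifs
      exacts [ih i, ⟨(rho_bd _ j).1, rho_two _ j⟩]
  have sm : StrictMono fun j => (st j).1 := strictMono_nat_of_lt_succ fun j => by
    have := hF1 j (st j).1 (st j).2 0 (1 / 2)
    rw [s1]; omega
  have ag : ∀ j l, j ≤ l → ∀ i < (st j).1, (st l).2 i = (st j).2 i := fun j l h i hi => by
    induction l, h using Nat.le_induction with
    | base => rfl
    | succ l h ih => rw [s2]; dsimp only; rw [if_pos (hi.trans_le (sm.monotone h)), ih]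
  set σ : ℕ → ℝ := fun i => (st (i + 1)).2 i with hσ
  have ag' : ∀ j, ∀ i < (st j).1, σ i = (st j).2 i := fun j i hi => by
    rw [← ag j (max j (i + 1)) (le_max_left _ _) i hi,
      ag (i + 1) (max j (i + 1)) (le_max_right _ _) i (sm.le_apply (x := i + 1))]
  have hg : Good (cOf σ) := good fun i => bd (i + 1) i
  have hQ : ∀ j, ∃ n, j ≤ n ∧ Q (cOf σ) n j 0 (1 / 2) := fun j =>
    ⟨_, (sm.le_apply (x := j)).trans (hF1 j (st j).1 (st j).2 0 (1 / 2)),
      Q_congr (fun k hk => Finset.prod_congr rfl fun i hi => by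
        rw [ag' (j + 1) i (by rw [s1]; have := Finset.mem_range.1 hi; omega), s2])
      (hF2 j (st j).1 (st j).2 0 (1 / 2) (by positivity) (bd j))⟩
  have dp : ∀ n, 0 < det (cOf σ) (n + 2) := fun n =>
    lt_of_lt_of_le (by positivity) (hg.det_ge _)
  choose q q1 q2 using fun n => opa _ hg.pos n (dp n).ne'
  refine ⟨fun k => (cOf σ k)⁻¹, by simp [cOf], fun k => inv_pos.2 (hg.pos k), ?_,
    fun a b h => inv_anti₀ (hg.pos a) (hg.monotone h),
    cyclic _ hg.pos fun δ hδ => ?_, q, q1, fun hU => ?_⟩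
  · have : ∀ k, (cOf σ k)⁻¹ / (cOf σ (k + 1))⁻¹ = σ k := fun k => by
      have := (hg.pos k).ne'
      rw [cOf_succ, div_inv_eq_mul]; field_simp
    simp only [this]
    rw [Metric.tendsto_atTop]
    intro ε hε
    obtain ⟨j, hj⟩ := exists_nat_one_div_lt hε
    refine ⟨(st j).1, fun i hi => ?_⟩
    have : ∀ l, j + 1 ≤ l → (st l).2 i ≤ 1 + 1 / (j + 1) := fun l h => by
      induction l, h using Nat.le_induction with
      | base => rw [s2]; dsimp only; rw [if_neg (not_lt.2 hi)]; exact (rho_bd _ j).2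
      | succ l h ih =>
        rw [s2]; dsimp only
        split_ifs
        · exact ih
        · refine (rho_bd _ l).2.trans ?_
          have : (j : ℝ) ≤ l := by exact_mod_cast (by omega : j ≤ l)
          gcongr
    have h1 := this (i + 1) (Nat.succ_le_succ ((sm.le_apply (x := j)).trans hi))
    have h2 := (bd (i + 1) i).1
    rw [Real.dist_eq, abs_lt]
    constructor <;> simp only [hσ] <;> linarith
  · obtain ⟨j, hj⟩ := exists_nat_one_div_lt hδ
    obtain ⟨n, -, h1, h2, -⟩ := hQ j
    have := mul_le_mul_of_nonneg_right hj.le (dp n).le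
    exact ⟨n + 2, dp n, h1.trans this, h2.trans this⟩
  · obtain ⟨N, hN⟩ := eventually_atTop.1 (Metric.tendstoUniformlyOn_iff.1 hU 1 one_pos)
    obtain ⟨n, hn, -, -, h3⟩ := hQ N
    obtain ⟨r, θ, z, r1, r2, r3, r4, r5, r6⟩ := h3 (by simp)
    have hz : z ∈ Metric.closedBall (0 : ℂ) 1 ∩ Metric.closedBall (-1) 1 := by
      rw [sub_zero, abs_lt] at r3
      have c1 := Real.one_sub_sq_div_two_le_cos (x := θ)
      have c2 := Real.sin_sq_add_cos_sq θ
      constructor
      · rw [mem_closedBall_zero_iff, ← sq_le_one_iff₀ (norm_nonneg _), Complex.sq_norm,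
          Complex.normSq_apply, r4]
        simp only [Complex.add_re, Complex.add_im, Complex.neg_re, Complex.one_re, Complex.neg_im,
          Complex.one_im, Complex.re_ofReal_mul, Complex.im_ofReal_mul,
          Complex.exp_ofReal_mul_I_re, Complex.exp_ofReal_mul_I_im]
        have c3 : 1 / 2 ≤ Real.cos θ := by nlinarith
        have c4 : (-1 + r * Real.cos θ) * (-1 + r * Real.cos θ) +
            (-0 + r * Real.sin θ) * (-0 + r * Real.sin θ) = 1 - 2 * r * Real.cos θ + r ^ 2 := by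
          linear_combination r ^ 2 * c2
        rw [c4]; nlinarith
      · rw [Metric.mem_closedBall, dist_eq_norm, r4, add_sub_cancel_left, norm_mul,
          Complex.norm_exp_ofReal_mul_I, Complex.norm_real, Real.norm_eq_abs, abs_of_pos r1]
        linarith
    have := hN n hn z hz
    simp [q2 n z r5 r6] at this

end Pool.Agent.H41.Op
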