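import Mathlib

set_option autoImplicit false

namespace Pool.Agent.H41.Op

open Polynomial

/-- The squared norm `∑ |a_k|² ω_k` of `H²_ω`, on Taylor coefficients. -/
noncomputable def nsq (ω : ℕ → ℝ) (a : ℕ → ℂ) : ℝ := ∑' k, ‖a k‖ ^ 2 * ω k

/-- The polynomial multiples of `f` are dense in `H²_ω`. -/
def IsCyclic (ω : ℕ → ℝ) (f : ℂ[X]) : Prop :=
  ∀ a : ℕ → ℂ, (Summable fun k => ‖a k‖ ^ 2 * ω k) → ∀ ε > 0, ∃ p : ℂ[X],
    nsq ω (fun k => a k - (p * f).coeff k) < ε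

/-- `q` is the `n`-th optimal polynomial approximant of `1 / f` in `H²_ω`. -/
def IsOPA (ω : ℕ → ℝ) (f : ℂ[X]) (n : ℕ) (q : ℂ[X]) : Prop :=
  q.natDegree ≤ n ∧ ∀ p : ℂ[X], p.natDegree ≤ n →
    nsq ω (q * f - 1).coeff ≤ nsq ω (p * f - 1).coeff

end Pool.Agent.H41.Op
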