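import Pool.Agent.H41.PagingDefs

set_option autoImplicit false

namespace Pool.Agent.H41.Paging

open Finset

variable {P : Type} [DecidableEq P]

theorem Step.mem {k : ℕ} {C C' : Finset P} {p : P} (h : Step k C p C') : p ∈ C' := by
  rcases h with ⟨h, rfl⟩ | ⟨-, -, rfl⟩ | ⟨-, -, x, -, rfl⟩ <;> simp [*]

theorem Step.sub {k : ℕ} {C C' : Finset P} {p : P} (h : Step k C p C') : C' ⊆ insert p C := by
  rcases h with ⟨h, rfl⟩ | ⟨-, -, rfl⟩ | ⟨-, -, x, -, rfl⟩
  · exact subset_insert _ _
  · exact Subset.refl _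
  · exact insert_subset_insert _ (erase_subset _ _)

theorem Step.card {k : ℕ} {C C' : Finset P} {p : P} (h : Step k C p C') (hC : C.card ≤ k) :
    C'.card ≤ k := by
  rcases h with ⟨h, rfl⟩ | ⟨h, h2, rfl⟩ | ⟨h, h2, x, hx, rfl⟩
  · exact hC
  · rw [card_insert_of_notMem h]; omega
  · rw [card_insert_of_notMem (by simp [h]), card_erase_of_mem hx]
    have := card_pos.mpr ⟨x, hx⟩
    omega

theorem Step.hit {k : ℕ} {C C' : Finset P} {p : P} (h : Step k C p C') (hp : p ∈ C) : C' = C := by
  rcases h with ⟨h, rfl⟩ | ⟨h, -⟩ | ⟨h, -⟩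
  · rfl
  · exact absurd hp h
  · exact absurd hp h

/-- number of faults among the first T requests -/
def flt (r : ℕ → P) (a : ℕ → Finset P) (T : ℕ) : ℕ := ∑ t ∈ range T, if r t ∉ a t then 1 else 0

theorem flt_succ (r : ℕ → P) (a : ℕ → Finset P) (T : ℕ) :
    flt r a (T + 1) = flt r a T + if r T ∉ a T then 1 else 0 := by
  simp only [flt, sum_range_succ]

theorem run_card {k n : ℕ} {r : ℕ → P} {b : ℕ → Finset P} (h0 : (b 0).card ≤ k)
    (hb : ∀ t < n, Step k (b t) (r t) (b (t + 1))) : ∀ t ≤ n, (b t).card ≤ k := by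
  intro t
  induction t with
  | zero => intro _; exact h0
  | succ t ih => intro h; exact (hb t (by omega)).card (ih (by omega))

theorem run_sub {k n : ℕ} {r : ℕ → P} {b : ℕ → Finset P}
    (hb : ∀ t < n, Step k (b t) (r t) (b (t + 1))) (s : ℕ) :
    ∀ u, s ≤ u → u ≤ n → b u ⊆ b s ∪ (Ico s u).image r := by
  intro u hu
  induction u, hu using Nat.le_induction with
  | base => intro _; exact subset_union_left
  | succ u hu ih =>
    intro h y hy
    have h1 := (hb u (by omega)).sub hy
    rw [mem_insert] at h1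
    rcases h1 with rfl | h1
    · exact mem_union_right _ (mem_image_of_mem _ (by simp; omega))
    · have h2 := ih (by omega) h1
      rw [mem_union] at h2 ⊢
      exact h2.imp id fun h3 => image_subset_image (Ico_subset_Ico_right (by omega)) h3

theorem union_card {k n : ℕ} {r : ℕ → P} {b : ℕ → Finset P}
    (hb : ∀ t < n, Step k (b t) (r t) (b (t + 1))) (s : ℕ) :
    ∀ u, s ≤ u → u ≤ n → (b s ∪ (Ico s u).image r).card + flt r b s ≤ (b s).card + flt r b u := by
  intro u hu
  induction u, hu using Nat.le_induction with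
  | base => intro _; simp
  | succ u hu ih =>
    intro h
    have e : b s ∪ (Ico s (u + 1)).image r = insert (r u) (b s ∪ (Ico s u).image r) := by
      rw [← Finset.insert_Ico_right_eq_Ico_add_one hu, image_insert, union_insert]
    rw [e, flt_succ]
    have h1 := ih (by omega)
    by_cases h2 : r u ∈ b u
    · rw [insert_eq_of_mem (run_sub hb s u hu (by omega) h2)]; omega
    · have := card_insert_le (r u) (b s ∪ (Ico s u).image r)
      simp only [h2, not_false_eq_true, if_true]; omega

/-- the marking bound -/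
theorem marking_bound {k n : ℕ} (hk : 1 ≤ k) {r : ℕ → P} {a b M : ℕ → Finset P}
    (h0 : (b 0).card ≤ k) (hb : ∀ t < n, Step k (b t) (r t) (b (t + 1)))
    (hM0 : M 0 = ∅)
    (hM : ∀ t < n, M (t + 1) = if r t ∉ M t ∧ (M t).card = k then {r t} else insert (r t) (M t))
    (hMa : ∀ t ≤ n, M t ⊆ a t) :
    flt r a n ≤ k * flt r b n + k := by
  have key : ∀ t ≤ n, (M t).card ≤ k ∧
      flt r a t + (if M t ⊆ b t then 0 else k) ≤ k * flt r b t + (M t).card := by
    intro t
    induction t with
    | zero => intro _; simp [hM0, flt]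
    | succ t ih =>
      intro h
      obtain ⟨h1, h2⟩ := ih (by omega)
      have hs := hb t (by omega)
      have hc := run_card h0 hb t (by omega)
      rw [flt_succ, flt_succ, hM t (by omega), mul_add]
      by_cases h3 : r t ∉ M t ∧ (M t).card = k
      · rw [if_pos h3]
        refine ⟨by simpa using hk, ?_⟩
        rw [if_pos (show ({r t} : Finset P) ⊆ b (t + 1) by simpa using hs.mem), card_singleton]
        have h5 : (if r t ∉ a t then 1 else 0) ≤ 1 := by split_ifs <;> omega
        by_cases h4 : M t ⊆ b t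
        · have h6 : M t = b t := eq_of_subset_of_card_le h4 (by omega)
          rw [if_pos (show r t ∉ b t from h6 ▸ h3.1)]
          rw [if_pos h4] at h2
          omega
        · rw [if_neg h4] at h2
          omega
      · rw [if_neg h3]
        by_cases h4 : r t ∈ M t
        · rw [insert_eq_of_mem h4, if_neg (show ¬ r t ∉ a t from not_not.mpr (hMa t (by omega) h4))]
          refine ⟨h1, ?_⟩
          by_cases h5 : r t ∈ b t
          · rw [hs.hit h5]; omega
          · rw [if_pos h5]
            split_ifs at h2 ⊢ <;> omega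
        · rw [card_insert_of_notMem h4]
          have h6 : (M t).card ≠ k := fun h => h3 ⟨h4, h⟩
          refine ⟨by omega, ?_⟩
          have h5 : (if r t ∉ a t then 1 else 0) ≤ 1 := by split_ifs <;> omega
          by_cases h7 : r t ∈ b t
          · rw [hs.hit h7]
            simp only [insert_subset_iff, h7, true_and]
            omega
          · rw [if_pos h7]
            split_ifs at h2 ⊢ <;> omega
  obtain ⟨h1, h2⟩ := key n le_rfl
  omega

section Delay

variable {k n i d : ℕ} {r : ℕ → P} {a b : ℕ → Finset P} {x : ℕ → P}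

/-- a bad fault: the evicted page is in the memory of the other algorithm -/
def Bad (k : ℕ) (r : ℕ → P) (a b : ℕ → Finset P) (x : ℕ → P) (t : ℕ) : Prop :=
  r t ∉ a t ∧ (a t).card = k ∧ x t ∈ b (t + 1)

instance (k : ℕ) (r : ℕ → P) (a b : ℕ → Finset P) (x : ℕ → P) : DecidablePred (Bad k r a b x) :=
  fun t => by unfold Bad; infer_instance

theorem good_bound (h0 : a 0 = b 0) (hb : ∀ t < n, Step k (b t) (r t) (b (t + 1)))
    (ha : ∀ t < n, Step k (a t) (r t) (a (t + 1)))
    (hx : ∀ t < n, r t ∉ a t → (a t).card = k → a (t + 1) = insert (r t) ((a t).erase (x t))) :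
    ∀ t ≤ n, flt r a t + (b t \ a t).card ≤ flt r b t + ((range t).filter (Bad k r a b x)).card := by
  intro t
  induction t with
  | zero => intro _; simp [flt, h0]
  | succ t ih =>
    intro h
    have h1 := ih (by omega)
    have hs := hb t (by omega)
    have hsa := ha t (by omega)
    rw [flt_succ, flt_succ, range_add_one, filter_insert]
    by_cases h2 : r t ∈ a t
    · have hnb : ¬ Bad k r a b x t := fun h => h.1 h2
      rw [if_neg hnb, if_neg (not_not.mpr h2), hsa.hit h2]
      have : b (t + 1) \ a t ⊆ b t \ a t := by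
        intro y hy
        rw [mem_sdiff] at hy ⊢
        have := hs.sub hy.1
        rw [mem_insert] at this
        exact ⟨this.resolve_left (fun h => hy.2 (h ▸ h2)), hy.2⟩
      have := card_le_card this
      omega
    · rw [if_pos h2]
      have h3 : ((b t \ a t).erase (r t)).card + 1 ≤
          (b t \ a t).card + if r t ∉ b t then 1 else 0 := by
        by_cases h4 : r t ∈ b t
        · rw [card_erase_of_mem (mem_sdiff.mpr ⟨h4, h2⟩)]
          have := card_pos.mpr ⟨_, mem_sdiff.mpr ⟨h4, h2⟩⟩
          omega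
        · have := card_erase_le (s := b t \ a t) (a := r t)
          rw [if_pos h4]; omega
      have h5 : ∀ y ∈ b (t + 1) \ a (t + 1), y ∉ a t → y ∈ (b t \ a t).erase (r t) := by
        intro y hy hy2
        rw [mem_sdiff] at hy
        have hne : y ≠ r t := fun h => hy.2 (h ▸ hsa.mem)
        have := hs.sub hy.1
        rw [mem_insert] at this
        exact mem_erase.mpr ⟨hne, mem_sdiff.mpr ⟨this.resolve_left hne, hy2⟩⟩
      have h6 : ∀ y ∈ b (t + 1) \ a (t + 1), y ∈ a t → (a t).card = k ∧ y = x t := by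
        intro y hy hy2
        rw [mem_sdiff] at hy
        rcases hsa with ⟨h7, -⟩ | ⟨-, -, h7⟩ | ⟨-, h7, -⟩
        · exact absurd h7 h2
        · exact absurd (h7 ▸ mem_insert_of_mem hy2) hy.2
        · refine ⟨h7, ?_⟩
          by_contra h8
          exact hy.2 (hx t (by omega) h2 h7 ▸ mem_insert_of_mem (mem_erase.mpr ⟨h8, hy2⟩))
      by_cases h7 : Bad k r a b x t
      · rw [if_pos h7, card_insert_of_notMem (by simp)]
        have : b (t + 1) \ a (t + 1) ⊆ insert (x t) ((b t \ a t).erase (r t)) := by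
          intro y hy
          by_cases hy2 : y ∈ a t
          · rw [(h6 y hy hy2).2]; exact mem_insert_self _ _
          · exact mem_insert_of_mem (h5 y hy hy2)
        have h8 := (card_le_card this).trans (card_insert_le _ _)
        omega
      · rw [if_neg h7]
        have : b (t + 1) \ a (t + 1) ⊆ (b t \ a t).erase (r t) := by
          intro y hy
          refine h5 y hy fun hy2 => h7 ⟨h2, (h6 y hy hy2).1, ?_⟩
          rw [← (h6 y hy hy2).2]; exact (mem_sdiff.mp hy).1
        have h8 := card_le_card this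
        omega

theorem key_bound (h0 : (b 0).card ≤ k) (hb : ∀ t < n, Step k (b t) (r t) (b (t + 1)))
    (ha : ∀ t < n, Step k (a t) (r t) (a (t + 1)))
    (hx : ∀ t < n, r t ∉ a t → (a t).card = k →
      x t ∈ a t ∧ a (t + 1) = insert (r t) ((a t).erase (x t)))
    (α β T : ℕ) (hβ : β ≤ α) (hα : α ≤ T) (hT : T ≤ n) (hfull : (a T).card = k)
    (hsub : a T ⊆ b β ∪ (Ico β T).image r)
    (hnot : ∀ t, α ≤ t → t < T → Bad k r a b x t → ∀ u, t < u → u < T → r u ≠ x t) :
    ((range T).filter (Bad k r a b x)).card + flt r b β ≤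
      ((range α).filter (Bad k r a b x)).card + flt r b T := by
  have hgone : ∀ t, α ≤ t → t < T → Bad k r a b x t → ∀ u, t + 1 ≤ u → u ≤ T → x t ∉ a u := by
    intro t h1 h2 h3 u hu huT hmem
    have h4 := run_sub ha (t + 1) u hu (by omega) hmem
    obtain ⟨h5, h6⟩ := hx t (by omega) h3.1 h3.2.1
    rw [mem_union, mem_image] at h4
    rcases h4 with h4 | ⟨v, hv, h4⟩
    · rw [h6, mem_insert] at h4
      rcases h4 with h4 | h4
      · exact h3.1 (h4 ▸ h5)
      · simp at h4
    · rw [mem_Ico] at hv
      exact hnot t h1 h2 h3 v (by omega) (by omega) h4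
  have hsplit : ((range T).filter (Bad k r a b x)).card ≤
      ((range α).filter (Bad k r a b x)).card + ((Ico α T).filter (Bad k r a b x)).card := by
    rw [← card_union_of_disjoint (disjoint_filter_filter (by
      rw [range_eq_Ico]; exact Ico_disjoint_Ico_consecutive _ _ _)), ← filter_union, range_eq_Ico α,
      Ico_union_Ico_eq_Ico (by omega) hα, range_eq_Ico]
  have hinj : ((Ico α T).filter (Bad k r a b x)).card ≤ ((b β ∪ (Ico β T).image r) \ a T).card := by
    refine card_le_card_of_injOn x ?_ ?_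
    · intro t ht
      simp only [coe_filter, mem_Ico, Set.mem_ofPred_eq] at ht
      rw [mem_coe, mem_sdiff]
      refine ⟨?_, hgone t ht.1.1 ht.1.2 ht.2 T (by omega) le_rfl⟩
      have := run_sub hb β (t + 1) (by omega) (by omega) ht.2.2.2
      rw [mem_union] at this ⊢
      exact this.imp id fun h3 => image_subset_image (Ico_subset_Ico_right (by omega)) h3
    · intro t ht t' ht' he
      simp only [coe_filter, mem_Ico, Set.mem_ofPred_eq] at ht ht'
      rcases lt_trichotomy t t' with h | h | h
      · exact absurd (he ▸ (hx t' (by omega) ht'.2.1 ht'.2.2.1).1)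
          (hgone t ht.1.1 ht.1.2 ht.2 t' (by omega) (by omega))
      · exact h
      · exact absurd (he ▸ (hx t (by omega) ht.2.1 ht.2.2.1).1)
          (hgone t' ht'.1.1 ht'.1.2 ht'.2 t (by omega) (by omega))
  rw [card_sdiff_of_subset hsub] at hinj
  have h1 := union_card hb β T (by omega) hT
  have h2 := run_card h0 hb β (by omega)
  have h3 := card_le_card hsub
  omega

/-- weight function for the charging argument -/
def wt (d e T s : ℕ) : ℕ := if s < T then min (T - 1 - s) (d - 1) / e + 1 else 0

theorem wt_mono (d e T T' s : ℕ) (h : T ≤ T') : wt d e T s ≤ wt d e T' s := by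
  unfold wt
  split_ifs with h1 h2
  · exact Nat.succ_le_succ (Nat.div_le_div_right (by omega))
  · omega
  · exact Nat.zero_le _
  · omega

theorem wt_pos (d e T s : ℕ) (h : s < T) : 1 ≤ wt d e T s := by
  unfold wt
  rw [if_pos h]
  exact Nat.le_add_left _ _

theorem wt_zero (d e T s : ℕ) (h : ¬ s < T) : wt d e T s = 0 := by
  unfold wt
  rw [if_neg h]

theorem flt_eq (n T : ℕ) (h : T ≤ n) :
    flt r b T = ∑ s ∈ range n, (if r s ∉ b s then 1 else 0) * (if s < T then 1 else 0) := by
  unfold flt
  rw [← sum_subset (range_mono h)]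
  · exact sum_congr rfl fun s hs => by rw [if_pos (mem_range.mp hs), mul_one]
  · intro s _ hs
    rw [if_neg (fun h => hs (mem_range.mpr h)), mul_zero]

theorem bad_bound (hd : 1 ≤ d) (h0 : (b 0).card ≤ k)
    (hb : ∀ t < n, Step k (b t) (r t) (b (t + 1)))
    (ha : ∀ t < n, Step k (a t) (r t) (a (t + 1)))
    (hx : ∀ t < n, r t ∉ a t → (a t).card = k →
      x t ∈ a t ∧ a (t + 1) = insert (r t) ((a t).erase (x t)))
    (hrule : ∀ t < n, r t ∉ a t → (a t).card = k →
      x t ∉ b (t + 1 - d) ∪ (Ico (t + 1 - d) (t + 1)).image r ∨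
      (a t ⊆ b (t + 1 - d) ∪ (Ico (t + 1 - d) (t + 1)).image r ∧
        ∀ T, T ≤ n → T ≤ t + 1 + i → x t ∈ (Ico (t + 1) T).image r →
          a t ⊆ (Ico (t + 1) T).image r)) :
    ∀ T ≤ n, ((range T).filter (Bad k r a b x)).card ≤
      ∑ s ∈ range n, (if r s ∉ b s then 1 else 0) * wt d (min d (i + 1)) T s := by
  set e := min d (i + 1) with he
  have he1 : 1 ≤ e := by omega
  have hrule' : ∀ t < n, Bad k r a b x t →
      (a t ⊆ b (t + 1 - d) ∪ (Ico (t + 1 - d) (t + 1)).image r ∧
        ∀ T, T ≤ n → T ≤ t + 1 + i → x t ∈ (Ico (t + 1) T).image r →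
          a t ⊆ (Ico (t + 1) T).image r) := fun t ht h =>
    (hrule t ht h.1 h.2.1).resolve_left
      (not_not.mpr (run_sub hb _ (t + 1) (by omega) (by omega) h.2.2))
  intro T
  induction T using Nat.strong_induction_on with
  | _ T ih =>
  intro hT
  rcases T with _ | t
  · simp
  by_cases hbad : Bad k r a b x t
  swap
  · rw [range_add_one, filter_insert, if_neg hbad]
    exact (ih t (by omega) (by omega)).trans
      (sum_le_sum fun s _ => Nat.mul_le_mul_left _ (wt_mono _ _ _ _ _ (by omega)))
  have hfull : (a (t + 1)).card = k := by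
    obtain ⟨h1, h2⟩ := hx t (by omega) hbad.1 hbad.2.1
    rw [h2, card_insert_of_notMem (by simp [hbad.1]), card_erase_of_mem h1]
    have := card_pos.mpr ⟨_, h1⟩
    have := hbad.2.1
    omega
  by_cases hY : ∃ s, t + 1 - e ≤ s ∧ s < t + 1 ∧ Bad k r a b x s ∧
      ∃ u, s < u ∧ u < t + 1 ∧ r u = x s
  · classical
    obtain ⟨s0, hs0⟩ := hY
    set s := Nat.findGreatest (fun s => t + 1 - e ≤ s ∧ s < t + 1 ∧ Bad k r a b x s ∧
      ∃ u, s < u ∧ u < t + 1 ∧ r u = x s) (t + 1) with hs
    have hs1 : t + 1 - e ≤ s ∧ s < t + 1 ∧ Bad k r a b x s ∧ ∃ u, s < u ∧ u < t + 1 ∧ r u = x s :=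
      Nat.findGreatest_spec (P := fun s => t + 1 - e ≤ s ∧ s < t + 1 ∧ Bad k r a b x s ∧
        ∃ u, s < u ∧ u < t + 1 ∧ r u = x s) (le_of_lt hs0.2.1) hs0
    obtain ⟨h1, h2, h3, u, h4, h5, h6⟩ := hs1
    have h7 := (hrule' s (by omega) h3).2 (t + 1) hT (by omega)
      (mem_image.mpr ⟨u, mem_Ico.mpr ⟨by omega, h5⟩, h6⟩)
    have h8 := key_bound h0 hb ha hx (s + 1) (s + 1) (t + 1) le_rfl (by omega) hT hfull (by
      intro y hy
      have h9 := run_sub ha (s + 1) (t + 1) (by omega) hT hy
      rw [mem_union] at h9 ⊢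
      rcases h9 with h9 | h9
      · have h10 := (ha s (by omega)).sub h9
        rw [mem_insert] at h10
        rcases h10 with rfl | h10
        · exact Or.inl (hb s (by omega)).mem
        · exact Or.inr (h7 h10)
      · exact Or.inr h9) (by
      intro t' g1 g2 g3 u g4 g5 g6
      exact Nat.findGreatest_is_greatest (P := fun s => t + 1 - e ≤ s ∧ s < t + 1 ∧
        Bad k r a b x s ∧ ∃ u, s < u ∧ u < t + 1 ∧ r u = x s) (k := t') (n := t + 1)
        (by omega) (by omega) ⟨by omega, g2, g3, u, g4, g5, g6⟩)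
    have h9 := ih (s + 1) (by omega) (by omega)
    rw [flt_eq n (s + 1) (by omega), flt_eq n (t + 1) hT] at h8
    have h10 : ∑ v ∈ range n, (if r v ∉ b v then 1 else 0) * wt d e (s + 1) v +
        ∑ v ∈ range n, (if r v ∉ b v then 1 else 0) * (if v < t + 1 then 1 else 0) ≤
        ∑ v ∈ range n, (if r v ∉ b v then 1 else 0) * wt d e (t + 1) v +
        ∑ v ∈ range n, (if r v ∉ b v then 1 else 0) * (if v < s + 1 then 1 else 0) := by
      rw [← sum_add_distrib, ← sum_add_distrib]
      refine sum_le_sum fun v _ => ?_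
      rw [← mul_add, ← mul_add]
      refine Nat.mul_le_mul_left _ ?_
      have := wt_mono d e (s + 1) (t + 1) v (by omega)
      have := wt_pos d e (t + 1) v
      have := wt_zero d e (s + 1) v
      have hst : s ≤ t := Nat.lt_succ_iff.mp h2
      clear_value s
      split_ifs <;> omega
    omega
  · have h8 := key_bound h0 hb ha hx (t + 1 - e) (t + 1 - d) (t + 1) (by omega) (by omega) hT hfull
      (by
        intro y hy
        have h10 := (ha t (by omega)).sub hy
        rw [mem_insert] at h10
        rcases h10 with rfl | h10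
        · exact mem_union_right _ (mem_image_of_mem _ (mem_Ico.mpr ⟨by omega, by omega⟩))
        · exact (hrule' t (by omega) hbad).1 h10)
      (fun t' g1 g2 g3 u g4 g5 g6 => hY ⟨t', g1, g2, g3, u, g4, g5, g6⟩)
    have h9 := ih (t + 1 - e) (by omega) (by omega)
    rw [flt_eq n (t + 1 - d) (by omega), flt_eq n (t + 1) hT] at h8
    have h10 : ∑ v ∈ range n, (if r v ∉ b v then 1 else 0) * wt d e (t + 1 - e) v +
        ∑ v ∈ range n, (if r v ∉ b v then 1 else 0) * (if v < t + 1 then 1 else 0) ≤
        ∑ v ∈ range n, (if r v ∉ b v then 1 else 0) * wt d e (t + 1) v +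
        ∑ v ∈ range n, (if r v ∉ b v then 1 else 0) * (if v < t + 1 - d then 1 else 0) := by
      rw [← sum_add_distrib, ← sum_add_distrib]
      refine sum_le_sum fun v _ => ?_
      rw [← mul_add, ← mul_add]
      refine Nat.mul_le_mul_left _ ?_
      have h11 := wt_mono d e (t + 1 - e) (t + 1) v (by omega)
      by_cases g1 : v < t + 1 - d
      · rw [if_pos g1, if_pos (by omega)]; omega
      · rw [if_neg g1]
        by_cases g2 : v < t + 1
        · rw [if_pos g2]
          unfold wt
          rw [if_pos g2]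
          split_ifs with g3
          · rw [show min (t + 1 - 1 - v) (d - 1) = min (t + 1 - e - 1 - v) (d - 1) + e by omega,
              Nat.add_div_right _ (by omega)]
          · simp
        · rw [if_neg g2]; omega
    omega

theorem delay_bound (hd : 1 ≤ d) (h00 : a 0 = b 0) (h0 : (b 0).card ≤ k)
    (hb : ∀ t < n, Step k (b t) (r t) (b (t + 1)))
    (ha : ∀ t < n, Step k (a t) (r t) (a (t + 1)))
    (hx : ∀ t < n, r t ∉ a t → (a t).card = k →
      x t ∈ a t ∧ a (t + 1) = insert (r t) ((a t).erase (x t)))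
    (hrule : ∀ t < n, r t ∉ a t → (a t).card = k →
      x t ∉ b (t + 1 - d) ∪ (Ico (t + 1 - d) (t + 1)).image r ∨
      (a t ⊆ b (t + 1 - d) ∪ (Ico (t + 1 - d) (t + 1)).image r ∧
        ∀ T, T ≤ n → T ≤ t + 1 + i → x t ∈ (Ico (t + 1) T).image r →
          a t ⊆ (Ico (t + 1) T).image r)) :
    flt r a n ≤ ((i + d) / (i + 1) + 1) * flt r b n := by
  have h1 := good_bound h00 hb ha (fun t ht g1 g2 => (hx t ht g1 g2).2) n le_rfl
  have h2 := bad_bound hd h0 hb ha hx hrule n le_rfl
  have h3 : ∑ s ∈ range n, (if r s ∉ b s then 1 else 0) * wt d (min d (i + 1)) n s ≤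
      (i + d) / (i + 1) * flt r b n := by
    unfold flt
    rw [mul_sum]
    refine sum_le_sum fun s _ => ?_
    rw [mul_comm]
    refine Nat.mul_le_mul_right _ ?_
    have e : (i + d) / (i + 1) = (d - 1) / (i + 1) + 1 := by
      rw [show i + d = (d - 1) + (i + 1) by omega, Nat.add_div_right _ (by omega)]
    rw [e]
    unfold wt
    split_ifs
    · refine Nat.succ_le_succ ?_
      rcases le_total d (i + 1) with h | h
      · rw [min_eq_left h, Nat.div_eq_of_lt (by omega)]; exact Nat.zero_le _
      · rw [min_eq_right h]; exact Nat.div_le_div_right (min_le_right _ _)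
    · exact Nat.zero_le _
  rw [add_mul]
  omega

end Delay

end Pool.Agent.H41.Paging
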