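import Pool.Agent.H41.PagingA

set_option autoImplicit false

namespace Pool.Agent.H41.Paging

open Finset

variable {P : Type} [DecidableEq P]

def nxt (k : ℕ) (C : Finset P) (o : Option P) (x : P) : Finset P :=
  match o with
  | none => C
  | some p => if p ∈ C then C else if C.card < k then insert p C else insert p (C.erase x)

def mk (k : ℕ) (C₀ : Finset P) (i : ℕ) (ch : Finset P → List P → ℕ → P) (σ : List P) :
    ℕ → Finset P
  | 0 => C₀
  | t + 1 => nxt k (mk k C₀ i ch σ t) σ[t]? (ch (mk k C₀ i ch σ t) (σ.take (t + 1 + i)) t)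

theorem nxt_step {k : ℕ} (hk : 1 ≤ k) (C : Finset P) (hC : C.card ≤ k) (p x : P)
    (hx : C.Nonempty → x ∈ C) : Step k C p (nxt k C (some p) x) := by
  unfold nxt Step
  by_cases h1 : p ∈ C
  · simp [h1]
  · by_cases h2 : C.card < k
    · simp [h1, h2]
    · simp only [h1, h2, if_false, false_and, not_false_eq_true, true_and, false_or]
      exact ⟨by omega, x, hx (card_pos.mp (by omega)), rfl⟩

theorem mk_card {k : ℕ} (hk : 1 ≤ k) {C₀ : Finset P} (h0 : C₀.card ≤ k) (i : ℕ)
    {ch : Finset P → List P → ℕ → P} (hch : ∀ C τ t, C.Nonempty → ch C τ t ∈ C) (σ : List P) :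
    ∀ t, (mk k C₀ i ch σ t).card ≤ k := by
  intro t
  induction t with
  | zero => exact h0
  | succ t ih =>
    unfold mk
    cases h : σ[t]? with
    | none => exact ih
    | some p => exact (nxt_step hk _ ih p _ (hch _ _ _)).card ih

theorem take_congr {σ σ' : List P} {m m' : ℕ} (h : σ.take m = σ'.take m) (hm : m' ≤ m) :
    σ.take m' = σ'.take m' := by
  have := congrArg (List.take m') h
  simpa [List.take_take, min_eq_left hm] using this

theorem mk_isAlg {k : ℕ} (hk : 1 ≤ k) {C₀ : Finset P} (h0 : C₀.card ≤ k) (i : ℕ)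
    {ch : Finset P → List P → ℕ → P} (hch : ∀ C τ t, C.Nonempty → ch C τ t ∈ C) :
    IsAlg k C₀ i (mk k C₀ i ch) := by
  refine ⟨fun _ => rfl, fun σ t => ?_, fun σ σ' t => ?_⟩
  · have : σ[(t : ℕ)]? = some σ[t] := by simp
    rw [mk, this]
    exact nxt_step hk _ (mk_card hk h0 i hch σ t) _ _ (hch _ _ _)
  · induction t with
    | zero => intro _; rfl
    | succ t ih =>
      intro h
      have h1 : σ[t]? = σ'[t]? := by
        have := congrArg (fun l => l[t]?) h
        simpa [List.getElem?_take, show t < t + 1 + i by omega] using this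
      rw [mk, mk, ih (take_congr h (by omega)), h, h1]

theorem getD_eq (σ : List P) (p₀ : P) (t : ℕ) (ht : t < σ.length) : σ.getD t p₀ = σ[t] := by
  simp [List.getD, ht]

theorem cost_eq (A : List P → ℕ → Finset P) (σ : List P) (p₀ : P) :
    cost A σ = flt (fun t => σ.getD t p₀) (A σ) σ.length := by
  unfold cost flt
  rw [card_filter, ← Fin.sum_univ_eq_sum_range
    (fun t => if σ.getD t p₀ ∉ A σ t then 1 else 0) σ.length]
  refine sum_congr rfl fun t _ => ?_
  rw [getD_eq σ p₀ t t.2]
  rfl

theorem IsAlg.run {k i : ℕ} {C₀ : Finset P} {A : List P → ℕ → Finset P} (h : IsAlg k C₀ i A)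
    (σ : List P) (p₀ : P) : ∀ t < σ.length, Step k (A σ t) (σ.getD t p₀) (A σ (t + 1)) := by
  intro t ht
  rw [getD_eq σ p₀ t ht]
  exact h.2.1 σ ⟨t, ht⟩

theorem mk_evict {k : ℕ} {C₀ : Finset P} (i : ℕ) (ch : Finset P → List P → ℕ → P) (σ : List P)
    (p₀ : P) (t : ℕ) (ht : t < σ.length) (h1 : σ.getD t p₀ ∉ mk k C₀ i ch σ t)
    (h2 : (mk k C₀ i ch σ t).card = k) :
    mk k C₀ i ch σ (t + 1) = insert (σ.getD t p₀)
      ((mk k C₀ i ch σ t).erase (ch (mk k C₀ i ch σ t) (σ.take (t + 1 + i)) t)) := by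
  have : σ[t]? = some (σ.getD t p₀) := by rw [getD_eq σ p₀ t ht]; simp
  rw [mk, this, nxt]
  simp only [h1, h2, lt_irrefl, if_false]

theorem getD_take (σ : List P) (p₀ : P) (m u : ℕ) (h : u < m) :
    (σ.take m).getD u p₀ = σ.getD u p₀ := by
  simp [List.getD, List.getElem?_take, h]

theorem image_take (σ : List P) (p₀ : P) (m s T : ℕ) (h : T ≤ m) :
    (Ico s T).image (fun u => (σ.take m).getD u p₀) = (Ico s T).image (fun u => σ.getD u p₀) :=
  image_congr fun u hu => getD_take σ p₀ m u (by simp at hu; omega)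

theorem exists_last (C : Finset P) (hC : C.Nonempty) (R : ℕ → Finset P) (hR : Monotone R) :
    ∃ x ∈ C, ∀ T, x ∈ R T → C ⊆ R T := by
  induction hC using Nonempty.cons_induction with
  | singleton a => exact ⟨a, by simp, fun T h => by simpa using h⟩
  | cons a s ha hs ih =>
    obtain ⟨x, hx, h⟩ := ih
    by_cases h1 : ∀ T, x ∈ R T → a ∈ R T
    · exact ⟨x, by simp [hx], fun T hT => by
        rw [cons_subset]; exact ⟨h1 T hT, h T hT⟩⟩
    · push Not at h1
      obtain ⟨T0, h2, h3⟩ := h1
      refine ⟨a, by simp, fun T hT => ?_⟩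
      rw [cons_subset]
      refine ⟨hT, h T (hR (show T0 ≤ T from ?_) h2)⟩
      by_contra h4
      exact h3 (hR (show T ≤ T0 by omega) hT)

theorem upper_delay {k i l : ℕ} (hk : 1 ≤ k) (hil : i < l) {C₀ : Finset P} (h0 : C₀.card ≤ k)
    (p₀ : P) {B : List P → ℕ → Finset P} (hB : IsAlg k C₀ l B) :
    ∃ A, IsAlg k C₀ i A ∧ ∀ σ, cost A σ ≤ (l / (i + 1) + 1) * cost B σ := by
  obtain ⟨d, rfl⟩ := Nat.exists_eq_add_of_le hil.le
  have hd : 1 ≤ d := by omega
  have hex : ∀ (C : Finset P) (τ : List P) (t : ℕ), ∃ x, C.Nonempty → x ∈ C ∧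
      (x ∉ B τ (t + 1 - d) ∪ (Ico (t + 1 - d) (t + 1)).image (fun u => τ.getD u p₀) ∨
      (C ⊆ B τ (t + 1 - d) ∪ (Ico (t + 1 - d) (t + 1)).image (fun u => τ.getD u p₀) ∧
        ∀ T, x ∈ (Ico (t + 1) T).image (fun u => τ.getD u p₀) →
          C ⊆ (Ico (t + 1) T).image (fun u => τ.getD u p₀))) := by
    intro C τ t
    by_cases hC : C.Nonempty
    · by_cases h1 : C ⊆ B τ (t + 1 - d) ∪ (Ico (t + 1 - d) (t + 1)).image (fun u => τ.getD u p₀)
      · obtain ⟨x, hx, h⟩ := exists_last C hC (fun T => (Ico (t + 1) T).image (fun u => τ.getD u p₀))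
          (fun T T' h => image_subset_image (Ico_subset_Ico_right h))
        exact ⟨x, fun _ => ⟨hx, Or.inr ⟨h1, h⟩⟩⟩
      · obtain ⟨x, hx, h⟩ := not_subset.mp h1
        exact ⟨x, fun _ => ⟨hx, Or.inl h⟩⟩
    · exact ⟨p₀, fun h => absurd h hC⟩
  choose ch hch using hex
  have hA := mk_isAlg hk h0 i (ch := ch) fun C τ t h => (hch C τ t h).1
  refine ⟨_, hA, fun σ => ?_⟩
  rw [cost_eq _ σ p₀, cost_eq _ σ p₀]
  refine delay_bound (k := k) (x := fun t => ch (mk k C₀ i ch σ t) (σ.take (t + 1 + i)) t) hd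
    (by rw [hA.1, hB.1]) (by rw [hB.1]; exact h0) (hB.run σ p₀) (hA.run σ p₀) ?_ ?_
  · intro t ht h1 h2
    exact ⟨(hch _ _ _ (card_pos.mp (by omega))).1, mk_evict i ch σ p₀ t ht h1 h2⟩
  · intro t ht h1 h2
    have h3 := (hch (mk k C₀ i ch σ t) (σ.take (t + 1 + i)) t (card_pos.mp (by omega))).2
    have h4 : B (σ.take (t + 1 + i)) (t + 1 - d) = B σ (t + 1 - d) := by
      rcases Nat.eq_zero_or_pos (t + 1 - d) with h | h
      · rw [h, hB.1, hB.1]
      · refine hB.2.2 _ _ _ ?_
        rw [List.take_take, min_eq_left (by omega)]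
    rw [h4, image_take σ p₀ _ _ _ (by omega)] at h3
    refine h3.imp id fun h5 => ⟨h5.1, fun T _ hT h6 => ?_⟩
    have h7 := h5.2 T
    rw [image_take σ p₀ _ _ _ hT] at h7
    exact h7 h6

def marks (k : ℕ) (r : ℕ → P) : ℕ → Finset P
  | 0 => ∅
  | t + 1 => if r t ∉ marks k r t ∧ (marks k r t).card = k then {r t} else insert (r t) (marks k r t)

theorem marks_congr (k : ℕ) (r r' : ℕ → P) (t : ℕ) (h : ∀ u < t, r u = r' u) :
    marks k r t = marks k r' t := by
  induction t with
  | zero => rfl
  | succ t ih => rw [marks, marks, ih (fun u hu => h u (by omega)), h t (by omega)]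

theorem marks_card {k : ℕ} (hk : 1 ≤ k) (r : ℕ → P) (t : ℕ) : (marks k r t).card ≤ k := by
  induction t with
  | zero => simp [marks]
  | succ t ih =>
    rw [marks]
    split_ifs with h
    · simpa using hk
    · by_cases h1 : r t ∈ marks k r t
      · rw [insert_eq_of_mem h1]; exact ih
      · rw [card_insert_of_notMem h1]
        have : (marks k r t).card ≠ k := fun h2 => h ⟨h1, h2⟩
        omega

theorem upper_mark {k i l : ℕ} (hk : 1 ≤ k) {C₀ : Finset P} (h0 : C₀.card ≤ k)
    (p₀ : P) {B : List P → ℕ → Finset P} (hB : IsAlg k C₀ l B) :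
    ∃ A, IsAlg k C₀ i A ∧ ∀ σ, cost A σ ≤ k * cost B σ + k := by
  have hex : ∀ (C : Finset P) (τ : List P) (t : ℕ), ∃ x, C.Nonempty → x ∈ C ∧
      (¬ C ⊆ marks k (fun u => τ.getD u p₀) (t + 1) → x ∉ marks k (fun u => τ.getD u p₀) (t + 1)) := by
    intro C τ t
    by_cases hC : C.Nonempty
    · by_cases h1 : C ⊆ marks k (fun u => τ.getD u p₀) (t + 1)
      · obtain ⟨x, hx⟩ := hC
        exact ⟨x, fun _ => ⟨hx, fun h => absurd h1 h⟩⟩
      · obtain ⟨x, hx, h⟩ := not_subset.mp h1
        exact ⟨x, fun _ => ⟨hx, fun _ => h⟩⟩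
    · exact ⟨p₀, fun h => absurd h hC⟩
  choose ch hch using hex
  have hA := mk_isAlg hk h0 i (ch := ch) fun C τ t h => (hch C τ t h).1
  refine ⟨_, hA, fun σ => ?_⟩
  rw [cost_eq _ σ p₀, cost_eq _ σ p₀]
  refine marking_bound (M := marks k fun u => σ.getD u p₀) hk (by rw [hB.1]; exact h0)
    (hB.run σ p₀) rfl (fun t _ => rfl) ?_
  intro t
  induction t with
  | zero => intro _; simp [marks]
  | succ t ih =>
    intro ht
    have h1 := ih (by omega)
    have hs := hA.run σ p₀ t (by omega)
    have h2 : marks k (fun u => σ.getD u p₀) (t + 1) ⊆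
        insert (σ.getD t p₀) (marks k (fun u => σ.getD u p₀) t) := by
      rw [marks]
      split_ifs
      · simp
      · exact Subset.refl _
    have h2' : σ.getD t p₀ ∈ marks k (fun u => σ.getD u p₀) (t + 1) := by
      rw [marks]
      split_ifs <;> simp
    rcases hs with ⟨h3, h4⟩ | ⟨h3, -, h4⟩ | ⟨h3, h4, -⟩
    · rw [h4]; exact h2.trans (insert_subset h3 h1)
    · rw [h4]; exact h2.trans (insert_subset_insert _ h1)
    · rw [mk_evict i ch σ p₀ t (by omega) h3 h4]
      have h5 := (hch (mk k C₀ i ch σ t) (σ.take (t + 1 + i)) t (card_pos.mp (by omega))).2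
      rw [marks_congr k _ (fun u => σ.getD u p₀) (t + 1)
        (fun u hu => getD_take σ p₀ _ u (by omega))] at h5
      have h6 := h5 (fun h => by
        have h7 := card_le_card (insert_subset h2' h)
        rw [card_insert_of_notMem h3] at h7
        have := marks_card hk (fun u => σ.getD u p₀) (t + 1)
        omega)
      intro y hy
      have h7 := h2 hy
      rw [mem_insert] at h7 ⊢
      exact h7.imp id fun h8 => mem_erase.mpr ⟨fun h9 => h6 (h9 ▸ hy), h1 h8⟩

theorem exists_fix' {X : Type} (x₀ : X) (F : (ℕ → X) → ℕ → X)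
    (hF : ∀ g g' n, (∀ j < n, g j = g' j) → F g n = F g' n) : ∃ g : ℕ → X, ∀ n, g n = F g n := by
  let g : ℕ → X := fun i => Nat.strongRecOn i
    (fun n ih => F (fun j => if h : j < n then ih j h else x₀) n)
  refine ⟨g, fun n => ?_⟩
  have : g n = F (fun j => if j < n then g j else x₀) n := by
    simp only [g]
    rw [Nat.strongRecOn_eq]
    rfl
  rw [this]
  exact hF _ _ _ fun j hj => by simp [hj]

/-- the sequence in which p 0, ..., p (N-1) are requested i+1 times each -/
def blocks (i : ℕ) (p : ℕ → P) (N : ℕ) : List P := (List.range (N * (i + 1))).map fun u => p (u / (i + 1))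

theorem blocks_length (i : ℕ) (p : ℕ → P) (N : ℕ) : (blocks i p N).length = N * (i + 1) := by
  simp [blocks]

theorem blocks_getD (i : ℕ) (p : ℕ → P) (N : ℕ) (p₀ : P) (u : ℕ) (hu : u < N * (i + 1)) :
    (blocks i p N).getD u p₀ = p (u / (i + 1)) := by
  rw [getD_eq _ _ _ (by rw [blocks_length]; exact hu)]
  simp [blocks]

theorem blocks_take (i : ℕ) (p : ℕ → P) (j N : ℕ) (h : j ≤ N) :
    (blocks i p N).take (j * (i + 1)) = blocks i p j := by
  unfold blocks
  rw [← List.map_take, List.take_range, min_eq_left (Nat.mul_le_mul_right _ h)]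

theorem adversary {k i : ℕ} {C₀ U : Finset P} (h0 : C₀.card ≤ k) (hU : k < U.card)
    {A : List P → ℕ → Finset P} (hA : IsAlg k C₀ i A) :
    ∃ p : ℕ → P, (∀ j, p j ∈ U) ∧ ∀ N, N ≤ cost A (blocks i p N) := by
  obtain ⟨p₀, hp₀⟩ : U.Nonempty := card_pos.mp (by omega)
  have hex : ∀ C : Finset P, ∃ y ∈ U, C.card ≤ k → y ∉ C := by
    intro C
    by_cases h : C.card ≤ k
    · obtain ⟨y, h1, h2⟩ := exists_mem_notMem_of_card_lt_card (s := C) (t := U) (by omega)
      exact ⟨y, h1, fun _ => h2⟩
    · exact ⟨p₀, hp₀, fun h' => absurd h' h⟩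
  choose f hf1 hf2 using hex
  obtain ⟨p, hp⟩ := exists_fix' p₀ (fun g j => f (A (blocks i g j) (j * (i + 1) - i))) (by
    intro g g' n h
    have : blocks i g n = blocks i g' n := by
      unfold blocks
      refine List.map_congr_left fun u hu => h _ ?_
      rw [List.mem_range] at hu
      exact Nat.div_lt_of_lt_mul (by rw [mul_comm]; exact hu)
    simp only [this])
  refine ⟨p, fun j => by rw [hp]; exact hf1 _, fun N => ?_⟩
  have hrun := hA.run (blocks i p N) p₀
  rw [blocks_length] at hrun
  have hcard := run_card (by rw [hA.1]; exact h0) hrun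
  have hfault : ∀ j < N, p j ∉ A (blocks i p N) (j * (i + 1)) := by
    intro j hj
    have hjN : (j + 1) * (i + 1) ≤ N * (i + 1) := Nat.mul_le_mul_right _ hj
    have h1 : A (blocks i p N) (j * (i + 1) - i) = A (blocks i p j) (j * (i + 1) - i) := by
      rcases j with _ | j
      · simp [hA.1]
      · refine hA.2.2 _ _ _ ?_
        rw [show (j + 1) * (i + 1) - i + i = (j + 1) * (i + 1) by
          have : i ≤ (j + 1) * (i + 1) := by nlinarith
          omega, blocks_take i p _ _ hj.le, blocks_take i p _ _ le_rfl]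
    have h2 : A (blocks i p N) (j * (i + 1)) = A (blocks i p N) (j * (i + 1) - i) := by
      rcases j with _ | j
      · simp
      · have h3 : ∀ v ≤ i, A (blocks i p N) (j * (i + 1) + 1 + v) =
            A (blocks i p N) (j * (i + 1) + 1) := by
          intro v
          induction v with
          | zero => intro _; rfl
          | succ v ih =>
            intro hv
            have h4 := ih (by omega)
            have h5 : j * (i + 1) + 1 + v < N * (i + 1) := by nlinarith
            have h6 := (hrun (j * (i + 1)) (by omega)).mem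
            rw [blocks_getD _ _ _ _ _ (by omega), Nat.mul_div_cancel _ (by omega)] at h6
            rw [← h4]
            refine (hrun _ h5).hit ?_
            rw [blocks_getD _ _ _ _ _ h5, h4, show (j * (i + 1) + 1 + v) / (i + 1) = j from
              Nat.div_eq_of_lt_le (by omega) (by nlinarith)]
            exact h6
        rw [show (j + 1) * (i + 1) - i = j * (i + 1) + 1 by
          have : (j + 1) * (i + 1) = j * (i + 1) + 1 + i := by ring
          omega, ← h3 i le_rfl]
        congr 1; ring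
    rw [h2, h1, hp]
    refine hf2 _ ?_
    rw [← h1]
    exact hcard _ (by nlinarith [Nat.sub_le (j * (i + 1)) i])
  rw [cost_eq _ _ p₀, blocks_length, flt, ← card_filter]
  calc N = (range N).card := by simp
    _ ≤ _ := by
      refine card_le_card_of_injOn (fun j => j * (i + 1)) ?_ ?_
      · intro j hj
        simp only [coe_range, Set.mem_Iio] at hj
        have : j * (i + 1) < N * (i + 1) := Nat.mul_lt_mul_of_pos_right hj (by omega)
        simp only [coe_filter, mem_range, Set.mem_ofPred_eq]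
        refine ⟨this, ?_⟩
        rw [blocks_getD _ _ _ _ _ this, Nat.mul_div_cancel _ (by omega)]
        exact hfault j hj
      · intro j _ j' _ h
        exact Nat.eq_of_mul_eq_mul_right (by omega) h

theorem lower_B {k i l M : ℕ} (hM : M + 1 ≤ k) (hMl : M * (i + 1) ≤ l) {C₀ U : Finset P}
    (h0 : C₀.card ≤ k) (hU : U.card = k + 1) (hCU : C₀ ⊆ U) :
    ∃ B, IsAlg k C₀ l B ∧ ∀ (p : ℕ → P) (N : ℕ), (∀ j, p j ∈ U) →
      (M + 1) * cost B (blocks i p N) ≤ N + (M + 1) * (k + 1) := by
  obtain ⟨p₀, hp₀⟩ : U.Nonempty := card_pos.mp (by omega)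
  have hk : 1 ≤ k := by omega
  have hex : ∀ (C : Finset P) (τ : List P) (t : ℕ), ∃ x, C.Nonempty → x ∈ C ∧
      (¬ C ⊆ (Ico (t + 1) (min (t + 1 + M * (i + 1)) τ.length)).image (fun u => τ.getD u p₀) →
        x ∉ (Ico (t + 1) (min (t + 1 + M * (i + 1)) τ.length)).image (fun u => τ.getD u p₀)) := by
    intro C τ t
    by_cases hC : C.Nonempty
    · by_cases h1 : C ⊆ (Ico (t + 1) (min (t + 1 + M * (i + 1)) τ.length)).image
          (fun u => τ.getD u p₀)
      · obtain ⟨x, hx⟩ := hC
        exact ⟨x, fun _ => ⟨hx, fun h => absurd h1 h⟩⟩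
      · obtain ⟨x, hx, h⟩ := not_subset.mp h1
        exact ⟨x, fun _ => ⟨hx, fun _ => h⟩⟩
    · exact ⟨p₀, fun h => absurd h hC⟩
  choose ch hch using hex
  have hB := mk_isAlg hk h0 l (ch := ch) fun C τ t h => (hch C τ t h).1
  refine ⟨_, hB, fun p N hp => ?_⟩
  set σ := blocks i p N with hσ
  set b := mk k C₀ l ch σ with hb
  set n := N * (i + 1) with hn
  set L := (M + 1) * (i + 1) with hL
  have hlen : σ.length = n := blocks_length i p N
  have hrun := hB.run σ p₀
  rw [hlen] at hrun
  have hr : ∀ u < n, σ.getD u p₀ = p (u / (i + 1)) := fun u hu => blocks_getD i p N p₀ u hu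
  have hcard := run_card (by rw [hB.1]; exact h0) hrun
  have hsubU : ∀ t ≤ n, b t ⊆ U := by
    intro t ht
    refine (run_sub hrun 0 t (by omega) ht).trans (union_subset (by rw [hB.1]; exact hCU) ?_)
    intro y hy
    obtain ⟨u, hu, rfl⟩ := mem_image.mp hy
    rw [hr u (by simp at hu; omega)]; exact hp _
  have key : ∀ t ≤ n, ∃ s ≤ L, (∀ u, t ≤ u → u < t + s → u < n → σ.getD u p₀ ∈ b t) ∧
      L * flt (fun u => σ.getD u p₀) b t ≤ t + s + L * (b t).card := by
    intro t
    induction t with
    | zero => intro _; exact ⟨0, by omega, fun u h1 h2 => by omega, by simp [flt]⟩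
    | succ t ih =>
      intro ht
      obtain ⟨s, hs, h1, h2⟩ := ih (by omega)
      have hstep := hrun t (by omega)
      rw [flt_succ, mul_add]
      rcases hstep with ⟨h3, h4⟩ | ⟨h3, h5, h4⟩ | ⟨h3, h5, -⟩
      · rw [← hb] at h3 h4
        rw [h4, if_neg (not_not.mpr h3)]
        exact ⟨s - 1, by omega, fun u g1 g2 g3 => h1 u (by omega) (by omega) g3, by omega⟩
      · rw [← hb] at h3 h4 h5
        have hs0 : s = 0 := by
          by_contra h; exact h3 (h1 t le_rfl (by omega) (by omega))
        rw [h4, if_pos h3, card_insert_of_notMem h3]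
        exact ⟨0, by omega, fun u g1 g2 g3 => by omega, by rw [mul_add]; omega⟩
      · rw [← hb] at h3 h5
        have hs0 : s = 0 := by
          by_contra h; exact h3 (h1 t le_rfl (by omega) (by omega))
        have h4 := mk_evict l ch σ p₀ t (by omega) h3 h5
        rw [← hb] at h4
        obtain ⟨h6, h7⟩ := hch (b t) (σ.take (t + 1 + l)) t (card_pos.mp (by omega))
        set x := ch (b t) (σ.take (t + 1 + l)) t with hx
        have hmin : min (t + 1 + M * (i + 1)) (σ.take (t + 1 + l)).length =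
            min (t + 1 + M * (i + 1)) n := by
          rw [List.length_take, hlen]; omega
        rw [hmin, image_take σ p₀ _ _ _ (by omega)] at h7
        obtain ⟨j, hj⟩ : (i + 1) ∣ t := by
          by_contra h8
          rcases t with _ | t
          · exact h8 (dvd_zero _)
          · have h9 := (hrun t (by omega)).mem
            rw [hr t (by omega)] at h9
            rw [hr _ (by omega), Nat.succ_div, if_neg h8] at h3
            exact h3 h9
        have hrt : σ.getD t p₀ = p j := by
          rw [hr t (by omega), hj, Nat.mul_div_cancel_left _ (by omega)]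
        have h8 : x ∉ (Ico (t + 1) (min (t + 1 + M * (i + 1)) n)).image (fun u => σ.getD u p₀) := by
          refine h7 fun h => ?_
          have h9 : b t ⊆ (Ico (j + 1) (j + 1 + M)).image p := by
            intro y hy
            obtain ⟨u, hu, rfl⟩ := mem_image.mp (h hy)
            rw [mem_Ico] at hu
            rw [hr u (by omega)] at hy ⊢
            refine mem_image_of_mem _ (mem_Ico.mpr ⟨?_, ?_⟩)
            · have g1 : j ≤ u / (i + 1) := (Nat.le_div_iff_mul_le (by omega)).mpr (by nlinarith)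
              have g2 : u / (i + 1) ≠ j := fun g => h3 (by rw [hrt, ← g]; exact hy)
              omega
            · refine Nat.div_lt_of_lt_mul ?_
              have := hu.2.trans_le (min_le_left _ _)
              nlinarith
          have h10 := (card_le_card h9).trans card_image_le
          rw [Nat.card_Ico] at h10
          omega
        have hc' : (b (t + 1)).card = k := by
          rw [h4, card_insert_of_notMem (fun h => h3 (mem_of_mem_erase h)), card_erase_of_mem h6]
          omega
        have hxb : x ∉ b (t + 1) := by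
          rw [h4, mem_insert]
          rintro (h | h)
          · exact h3 (h ▸ h6)
          · simp at h
        have hU' : insert x (b (t + 1)) = U :=
          eq_of_subset_of_card_le (insert_subset (hsubU t (by omega) h6) (hsubU _ ht))
            (by rw [card_insert_of_notMem hxb]; omega)
        have hL1 : 1 ≤ L := Nat.mul_pos (by omega) (by omega)
        refine ⟨L - 1, by omega, fun u g1 g2 g3 => ?_, by rw [if_pos h3, hc', ← h5]; omega⟩
        have g4 : σ.getD u p₀ ∈ insert x (b (t + 1)) := by rw [hU', hr u g3]; exact hp _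
        refine (mem_insert.mp g4).resolve_left fun g5 => ?_
        set v := u / (i + 1) with hv
        have g6 : v * (i + 1) ≤ u := Nat.div_mul_le_self _ _
        have g7 : v < j + 1 + M := by
          refine Nat.div_lt_of_lt_mul ?_
          have : u < t + L := by omega
          nlinarith
        have g8 : j ≤ v := (Nat.le_div_iff_mul_le (by omega)).mpr (by nlinarith)
        rw [hr u g3] at g5
        rcases g8.eq_or_lt with g9 | g9
        · exact h3 (by rw [hrt, g9, g5]; exact h6)
        · have e1 : (j + 1) * (i + 1) ≤ v * (i + 1) := Nat.mul_le_mul_right _ g9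
          have e2 : v * (i + 1) ≤ (j + M) * (i + 1) := Nat.mul_le_mul_right _ (by omega)
          have e3 : (j + 1) * (i + 1) = (i + 1) * j + i + 1 := by ring
          have e4 : (j + M) * (i + 1) = (i + 1) * j + M * (i + 1) := by ring
          refine h8 (mem_image.mpr ⟨v * (i + 1), mem_Ico.mpr ⟨by omega, lt_min ?_ (by omega)⟩, ?_⟩)
          · omega
          · rw [hr _ (by omega), Nat.mul_div_cancel _ (by omega)]; exact g5
  obtain ⟨s, hs, -, h2⟩ := key n le_rfl
  rw [cost_eq _ _ p₀, hlen]
  have h3 := hcard n le_rfl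
  refine Nat.le_of_mul_le_mul_right ?_ (show 0 < i + 1 by omega)
  have h4 : L * (b n).card ≤ L * k := Nat.mul_le_mul_left _ h3
  calc (M + 1) * flt (fun u => σ.getD u p₀) b n * (i + 1)
      = L * flt (fun u => σ.getD u p₀) b n := by rw [hL]; ring
    _ ≤ n + L + L * k := by omega
    _ = _ := by rw [hn, hL]; ring

theorem ratio_le {A B : List P → ℕ → Finset P} (c b : ℕ) (h : ∀ σ, cost A σ ≤ c * cost B σ + b) :
    ratio A B ≤ (c : EReal) :=
  sInf_le ⟨c, b, rfl, fun σ => by exact_mod_cast h σ⟩

theorem main {k i l : ℕ} (hk : 1 ≤ k) (hil : i < l) (C₀ : Finset P) (h0 : C₀.card ≤ k)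
    (hP : ∃ U : Finset P, k < U.card) :
    compRatio k C₀ i l = ((min k (l / (i + 1) + 1) : ℕ) : EReal) := by
  obtain ⟨U', hU'⟩ := hP
  obtain ⟨p₀, -⟩ : U'.Nonempty := card_pos.mp (by omega)
  refine le_antisymm (iSup₂_le fun B hB => ?_) ?_
  · rcases le_total k (l / (i + 1) + 1) with h | h
    · obtain ⟨A, hA, h2⟩ := upper_mark (i := i) hk h0 p₀ hB
      rw [min_eq_left h]
      exact iInf₂_le_of_le A hA (ratio_le _ _ h2)
    · obtain ⟨A, hA, h2⟩ := upper_delay hk hil h0 p₀ hB
      rw [min_eq_right h]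
      exact iInf₂_le_of_le A hA (ratio_le _ 0 h2)
  · obtain ⟨U, h1, -, hU⟩ := exists_subsuperset_card_eq (n := k + 1)
      (subset_union_left (s₁ := C₀) (s₂ := U')) (by omega)
      (le_trans hU' (card_le_card subset_union_right))
    obtain ⟨M, hM⟩ : ∃ M, min k (l / (i + 1) + 1) = M + 1 :=
      ⟨min k (l / (i + 1) + 1) - 1, by
        have : 1 ≤ min k (l / (i + 1) + 1) := le_min hk (Nat.le_add_left _ _)
        omega⟩
    have hM1 : M + 1 ≤ k := hM ▸ min_le_left _ _
    have hM2 : M ≤ l / (i + 1) := Nat.le_of_add_le_add_right (hM.symm.le.trans (min_le_right _ _))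
    obtain ⟨B, hB, hB2⟩ := lower_B (i := i) (l := l) hM1
      ((Nat.le_div_iff_mul_le (by omega)).mp hM2) h0 hU h1
    refine le_iSup₂_of_le B hB (le_iInf₂ fun A hA => ?_)
    obtain ⟨p, hp, hp2⟩ := adversary h0 (show k < U.card by omega) hA
    rw [hM]
    refine le_sInf ?_
    rintro _ ⟨c, b, rfl, h⟩
    have key : ((M + 1 : ℕ) : ℝ) ≤ c := by
      by_contra hc
      push Not at hc
      set m : ℝ := ((M + 1 : ℕ) : ℝ) with hm
      have hm0 : 0 < m := by positivity
      set c' := max c 0 with hc'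
      have hc1 : c' < m := max_lt hc hm0
      have hc0 : 0 ≤ c' := le_max_right _ _
      obtain ⟨N, hN⟩ := exists_nat_gt ((c' * m * (k + 1) + m * b) / (m - c'))
      rw [div_lt_iff₀ (by linarith)] at hN
      have g1 : (N : ℝ) ≤ cost A (blocks i p N) := by exact_mod_cast hp2 N
      have g2 : m * cost B (blocks i p N) ≤ N + m * (k + 1) := by
        rw [hm]; exact_mod_cast hB2 p N hp
      have g3 := h (blocks i p N)
      have g4 : c * (cost B (blocks i p N) : ℝ) ≤ c' * cost B (blocks i p N) :=
        mul_le_mul_of_nonneg_right (le_max_left _ _) (by positivity)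
      have g5 : c' * (m * cost B (blocks i p N)) ≤ c' * (N + m * (k + 1)) :=
        mul_le_mul_of_nonneg_left g2 hc0
      have g6 : m * (N : ℝ) ≤ m * (c' * cost B (blocks i p N) + b) :=
        mul_le_mul_of_nonneg_left (by linarith) hm0.le
      nlinarith
    exact_mod_cast key

end Pool.Agent.H41.Paging
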