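import Mathlib

set_option autoImplicit false

namespace Pool.Agent.H41.Paging

variable {P : Type} [DecidableEq P]

/-- Serving a request to page p with a fast memory of k pages: the contents go from C to C'.
A hit changes nothing; on a fault p is brought in, and one page is evicted if memory is full. -/
def Step (k : ℕ) (C : Finset P) (p : P) (C' : Finset P) : Prop :=
  (p ∈ C ∧ C' = C) ∨ (p ∉ C ∧ C.card < k ∧ C' = insert p C) ∨
    (p ∉ C ∧ C.card = k ∧ ∃ x ∈ C, C' = insert p (C.erase x))

/-- A is a paging algorithm with lookahead i started from the contents C₀: `A σ t` is the contents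
of fast memory after the first t requests of σ have been served, and it depends only on these
requests and the next i ones. -/
def IsAlg (k : ℕ) (C₀ : Finset P) (i : ℕ) (A : List P → ℕ → Finset P) : Prop :=
  (∀ σ, A σ 0 = C₀) ∧
  (∀ (σ : List P) (t : Fin σ.length), Step k (A σ t) σ[t] (A σ (t + 1))) ∧
  (∀ (σ σ' : List P) (t : ℕ), σ.take (t + i) = σ'.take (t + i) → A σ t = A σ' t)

/-- the number of faults of A on σ -/
def cost (A : List P → ℕ → Finset P) (σ : List P) : ℕ :=
  (Finset.univ.filter fun t : Fin σ.length => σ[t] ∉ A σ t).card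

/-- r(A, B): the infimum of all real c with cost A ≤ c * cost B + b for some constant b -/
noncomputable def ratio (A B : List P → ℕ → Finset P) : EReal :=
  sInf {x | ∃ c b : ℝ, x = (c : EReal) ∧ ∀ σ, (cost A σ : ℝ) ≤ c * (cost B σ : ℝ) + b}

/-- the comparative ratio c(L_i, L_l) -/
noncomputable def compRatio (k : ℕ) (C₀ : Finset P) (i l : ℕ) : EReal :=
  ⨆ B ∈ {B | IsAlg k C₀ l B}, ⨅ A ∈ {A | IsAlg k C₀ i A}, ratio A B

end Pool.Agent.H41.Paging
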