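import Pool.Agent.H41.PepsDefs

namespace Pool.Agent.H41.Peps

open Function Finset Classical

section
variable {P B V K : Type}

theorem ext_ext {f : B → V} (hf : Injective f) (σ τ : B → K) (s : V → K) :
    extend f σ (extend f τ s) = extend f σ s := by
  funext v
  by_cases h : ∃ a, f a = v
  · obtain ⟨a, rfl⟩ := h; rw [hf.extend_apply, hf.extend_apply]
  · rw [extend_apply' _ _ _ h, extend_apply' _ _ _ h, extend_apply' _ _ _ h]

theorem ext_self {f : B → V} (hf : Injective f) (s : V → K) : extend f (s ∘ f) s = s := by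
  funext v
  by_cases h : ∃ a, f a = v
  · obtain ⟨a, rfl⟩ := h; rw [hf.extend_apply]; rfl
  · rw [extend_apply' _ _ _ h]

variable [Fintype V] [Fintype K]

theorem ptr_eq {e : P → V} (he : Injective e) (ψ φ : (V → K) → ℂ) (a b : P → K) :
    ptr e ψ φ a b = ∑ s : V → K,
      if s ∘ e = a then ψ s * (starRingEnd ℂ) (φ (extend e b s)) else 0 := by
  unfold ptr
  refine Finset.sum_congr rfl fun s _ => ?_
  rw [Finset.sum_eq_single (extend e b s)]
  · have h1 : extend e b s ∘ e = b := extend_comp he _ _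
    have h2 : ∀ v, v ∉ Set.range e → s v = extend e b s v := fun v hv =>
      (extend_apply' _ _ _ hv).symm
    simp only [h1, true_and]
    by_cases h : s ∘ e = a
    · rw [if_pos ⟨h, h2⟩, if_pos h]
    · rw [if_neg (fun h' => h h'.1), if_neg h]
  · intro s' _ hne
    rw [if_neg]
    rintro ⟨-, h2, h3⟩
    apply hne
    funext v
    by_cases h : ∃ a, e a = v
    · obtain ⟨x, rfl⟩ := h; rw [he.extend_apply, ← h2]; rfl
    · rw [extend_apply' _ _ _ h, h3 v h]
  · simp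

theorem nsq_nonneg (ψ : (V → K) → ℂ) : 0 ≤ nsq ψ := Finset.sum_nonneg fun _ _ => by positivity

theorem nsq_pos {ψ : (V → K) → ℂ} (h : ψ ≠ 0) : 0 < nsq ψ := by
  obtain ⟨s, hs⟩ := Function.ne_iff.mp h
  exact Finset.sum_pos' (fun _ _ => by positivity) ⟨s, mem_univ _, by
    have : ψ s ≠ 0 := hs
    positivity⟩

theorem nsq_coe (ψ : (V → K) → ℂ) :
    (nsq ψ : ℂ) = ∑ s : V → K, ψ s * (starRingEnd ℂ) (ψ s) := by
  unfold nsq
  push_cast
  exact Finset.sum_congr rfl fun s _ => (Complex.mul_conj' _).symm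

theorem ptr_norm_le {e : P → V} (he : Injective e) (ψ : (V → K) → ℂ) (a b : P → K) :
    ‖ptr e ψ ψ a b‖ ≤ nsq ψ := by
  rw [ptr_eq he, ← Finset.sum_filter]
  refine (norm_sum_le _ _).trans ?_
  have h1 : ∑ s ∈ univ.filter (fun s : V → K => s ∘ e = a), ‖ψ s‖ ^ 2 ≤ nsq ψ :=
    Finset.sum_le_sum_of_subset_of_nonneg (subset_univ _) fun _ _ _ => by positivity
  have h2 : ∑ s ∈ univ.filter (fun s : V → K => s ∘ e = a), ‖ψ (extend e b s)‖ ^ 2 ≤ nsq ψ := by
    rw [← Finset.sum_image (f := fun s => ‖ψ s‖ ^ 2) (g := fun s => extend e b s)]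
    · exact Finset.sum_le_sum_of_subset_of_nonneg (subset_univ _) fun _ _ _ => by positivity
    · intro s hs s' hs' h
      have h3 := congrArg (extend e a) h
      simp only [coe_filter, mem_univ, true_and, Set.mem_ofPred_eq] at hs hs'
      rw [ext_ext he, ext_ext he] at h3
      rw [← ext_self he s, ← ext_self he s', hs, hs', h3]
  have h3 : ∑ s ∈ univ.filter (fun s : V → K => s ∘ e = a),
      ‖ψ s * (starRingEnd ℂ) (ψ (extend e b s))‖ ≤ ∑ s ∈ univ.filter (fun s : V → K => s ∘ e = a),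
        (‖ψ s‖ ^ 2 + ‖ψ (extend e b s)‖ ^ 2) / 2 := by
    refine Finset.sum_le_sum fun s _ => ?_
    rw [norm_mul, Complex.norm_conj]
    nlinarith [sq_nonneg (‖ψ s‖ - ‖ψ (extend e b s)‖)]
  rw [← Finset.sum_div, Finset.sum_add_distrib] at h3
  linarith

theorem ptr_sum {ι : Type} (T : Finset ι) (e : P → V) (ψ φ : ι → (V → K) → ℂ) (a b : P → K) :
    ptr e (fun s => ∑ i ∈ T, ψ i s) (fun s => ∑ i ∈ T, φ i s) a b =
      ∑ i ∈ T, ∑ j ∈ T, ptr e (ψ i) (φ j) a b := by
  unfold ptr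
  rw [Finset.sum_comm (s := univ) (t := univ)]
  simp_rw [Finset.sum_comm (s := T) (t := univ)]
  rw [Finset.sum_comm (s := univ) (t := univ)]
  refine Finset.sum_congr rfl fun s _ => Finset.sum_congr rfl fun s' _ => ?_
  split_ifs
  · rw [map_sum, Finset.sum_mul_sum]
  · simp

theorem ptr_zero {e : P → V} {ψ φ : (V → K) → ℂ}
    (h : ∀ s s', (∀ v, v ∉ Set.range e → s v = s' v) → ψ s ≠ 0 → φ s' ≠ 0 → False)
    (a b : P → K) : ptr e ψ φ a b = 0 := by
  refine Finset.sum_eq_zero fun s _ => Finset.sum_eq_zero fun s' _ => ?_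
  split_ifs with h1
  · by_contra h2
    rw [mul_eq_zero, not_or] at h2
    exact h s s' h1.2.2 h2.1 (fun h3 => h2.2 (by rw [h3, map_zero]))
  · rfl

theorem ptr_orth {ι : Type} (T : Finset ι) (e : P → V) (ψ : ι → (V → K) → ℂ)
    (h : ∀ i ∈ T, ∀ j ∈ T, ∀ s s', (∀ v, v ∉ Set.range e → s v = s' v) → ψ i s ≠ 0 →
      ψ j s' ≠ 0 → i = j) (a b : P → K) :
    ptr e (fun s => ∑ i ∈ T, ψ i s) (fun s => ∑ i ∈ T, ψ i s) a b =
      ∑ i ∈ T, ptr e (ψ i) (ψ i) a b := by
  rw [ptr_sum]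
  refine Finset.sum_congr rfl fun i hi => Finset.sum_eq_single i (fun j hj hne => ?_)
    (fun h' => absurd hi h')
  exact ptr_zero (fun s s' h1 h2 h3 => hne (h i hi j hj s s' h1 h2 h3).symm) a b

theorem nsq_eq_ptr (ψ : (V → K) → ℂ) :
    (nsq ψ : ℂ) = ptr (Empty.elim : Empty → V) ψ ψ Empty.elim Empty.elim := by
  rw [ptr_eq (fun a => a.elim), nsq_coe]
  refine Finset.sum_congr rfl fun s _ => ?_
  rw [if_pos (funext fun a => a.elim)]
  congr 3
  funext v
  exact (extend_apply' _ _ _ (by simp)).symm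

theorem nsq_orth {ι : Type} (T : Finset ι) (ψ : ι → (V → K) → ℂ)
    (h : ∀ i ∈ T, ∀ j ∈ T, ∀ s, ψ i s ≠ 0 → ψ j s ≠ 0 → i = j) :
    nsq (fun s => ∑ i ∈ T, ψ i s) = ∑ i ∈ T, nsq (ψ i) := by
  apply Complex.ofReal_injective
  push_cast
  simp only [nsq_eq_ptr]
  refine ptr_orth T _ ψ (fun i hi j hj s s' h1 h2 h3 => ?_) _ _
  have : s = s' := funext fun v => h1 v (by simp)
  exact h i hi j hj s h2 (this ▸ h3)

theorem ptr_smul (e : P → V) (ψ φ : (V → K) → ℂ) (c c' : ℂ) (a b : P → K) :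
    ptr e (fun s => ψ s * c) (fun s => φ s * c') a b =
      ptr e ψ φ a b * (c * (starRingEnd ℂ) c') := by
  unfold ptr
  simp only [Finset.sum_mul]
  refine Finset.sum_congr rfl fun s _ => Finset.sum_congr rfl fun s' _ => ?_
  split_ifs
  · rw [map_mul]; ring
  · simp

theorem ptr_equiv (τ : V ≃ V) (e : P → V) (ψ φ : (V → K) → ℂ) (a b : P → K) :
    ptr (τ ∘ e) (fun s => ψ (s ∘ τ)) (fun s => φ (s ∘ τ)) a b = ptr e ψ φ a b := by
  unfold ptr
  refine Fintype.sum_equiv (τ.symm.arrowCongr (Equiv.refl K)) _ _ fun s => ?_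
  refine Fintype.sum_equiv (τ.symm.arrowCongr (Equiv.refl K)) _ _ fun s' => ?_
  have e1 : ∀ s : V → K, (τ.symm.arrowCongr (Equiv.refl K)) s = s ∘ τ := fun s => rfl
  rw [e1, e1]
  refine if_congr (and_congr Iff.rfl (and_congr Iff.rfl ?_)) rfl rfl
  constructor
  · intro h v hv
    exact h (τ v) (by rintro ⟨x, hx⟩; exact hv ⟨x, τ.injective hx⟩)
  · intro h v hv
    have := h (τ.symm v) (by rintro ⟨x, hx⟩; exact hv ⟨x, by simp [hx]⟩)
    simpa using this

theorem nsq_equiv (τ : V ≃ V) (ψ : (V → K) → ℂ) : nsq (fun s => ψ (s ∘ τ)) = nsq ψ :=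
  Fintype.sum_equiv (τ.symm.arrowCongr (Equiv.refl K)) _ _ fun _ => rfl

variable [Fintype B]

theorem sum_split {f : B → V} (hf : Injective f) (σ0 : B → K) (F : (V → K) → ℂ) :
    ∑ s, F s = ∑ s ∈ univ.filter (fun s : V → K => s ∘ f = σ0), ∑ σ : B → K, F (extend f σ s) := by
  rw [← Finset.sum_product']
  refine Finset.sum_nbij' (fun s => (extend f σ0 s, s ∘ f)) (fun p => extend f p.2 p.1)
    ?_ ?_ ?_ ?_ ?_
  · intro s _; simp [extend_comp hf]
  · intro s _; simp
  · intro s _; simp only; rw [ext_ext hf, ext_self hf]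
  · rintro ⟨s, σ⟩ hs
    have hs : s ∘ f = σ0 := by simpa using hs
    simp only [ext_ext hf, extend_comp hf]
    rw [← hs, ext_self hf]
  · intro s _; simp only; rw [ext_ext hf, ext_self hf]

theorem ptr_split {f : B → V} (hf : Injective f) {e : P → B} (he : Injective e) (σ0 : B → K)
    (ψ φ : (V → K) → ℂ) (a b : P → K) :
    ptr (f ∘ e) ψ φ a b = ∑ s ∈ univ.filter (fun s : V → K => s ∘ f = σ0),
      ptr e (fun σ => ψ (extend f σ s)) (fun σ => φ (extend f σ s)) a b := by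
  rw [ptr_eq (hf.comp he), sum_split hf σ0]
  refine Finset.sum_congr rfl fun s _ => ?_
  rw [ptr_eq he]
  refine Finset.sum_congr rfl fun σ _ => ?_
  rw [← comp_assoc, extend_comp hf, he.extend_comp hf, extend_comp hf, ext_ext hf]

theorem nsq_split {f : B → V} (hf : Injective f) (σ0 : B → K) (ψ : (V → K) → ℂ) :
    nsq ψ = ∑ s ∈ univ.filter (fun s : V → K => s ∘ f = σ0), nsq (fun σ => ψ (extend f σ s)) := by
  apply Complex.ofReal_injective
  push_cast
  simp only [nsq_coe]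
  exact sum_split hf σ0 _

theorem ptr_factor {f : B → V} (hf : Injective f) {e : P → B} (he : Injective e)
    (χ : (B → K) → ℂ) (hχ : nsq χ = 1) (G : (V → K) → ℂ) (hG : ∀ σ s, G (extend f σ s) = G s)
    (a b : P → K) :
    ptr (f ∘ e) (fun s => χ (s ∘ f) * G s) (fun s => χ (s ∘ f) * G s) a b =
      ptr e χ χ a b * nsq (fun s => χ (s ∘ f) * G s) := by
  obtain ⟨σ0, -⟩ : ∃ σ0 : B → K, True := by
    by_contra h
    have : IsEmpty (B → K) := ⟨fun σ => h ⟨σ, trivial⟩⟩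
    simp [nsq] at hχ
  rw [ptr_split hf he σ0, nsq_split hf σ0]
  push_cast
  rw [Finset.mul_sum]
  refine Finset.sum_congr rfl fun s _ => ?_
  simp only [extend_comp hf, hG]
  rw [ptr_smul, nsq_eq_ptr, ptr_smul, ← nsq_eq_ptr, hχ]; simp

end

theorem carath {E ι : Type} [AddCommGroup E] [Module ℝ E] [FiniteDimensional ℝ E]
    (T : Finset ι) (hT : T.Nonempty) (z : ι → E) :
    ∃ (k : ℕ) (pick : Fin k → ι) (w : Fin k → ℝ), k ≤ Module.finrank ℝ E + 1 ∧ (∀ i, 0 ≤ w i) ∧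
      ∑ i, w i • z (pick i) = ∑ i ∈ T, z i := by
  have hc : (0 : ℝ) < T.card := by exact_mod_cast hT.card_pos
  have hm : ∑ i ∈ T, ((T.card : ℝ)⁻¹) • z i ∈ convexHull ℝ (Set.range z) := by
    refine (convex_convexHull ℝ _).sum_mem (fun _ _ => by positivity) ?_
      fun i _ => subset_convexHull ℝ _ ⟨i, rfl⟩
    simp [hc.ne']
  obtain ⟨J, hJ, y, w, hy, hind, hw, -, hs⟩ := eq_pos_convex_span_of_mem_convexHull hm
  choose pick hpick using fun j => hy ⟨j, rfl⟩
  refine ⟨Fintype.card J, fun i => pick ((Fintype.equivFin J).symm i),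
    fun i => T.card * w ((Fintype.equivFin J).symm i), ?_, fun i => (mul_pos hc (hw _)).le, ?_⟩
  · exact hind.card_le_finrank_succ.trans (Nat.succ_le_succ (Submodule.finrank_le _))
  · rw [Equiv.sum_comp (Fintype.equivFin J).symm fun j => (T.card * w j) • z (pick j)]
    simp only [hpick, mul_smul]
    rw [← Finset.smul_sum, hs, ← Finset.smul_sum, smul_smul, mul_inv_cancel₀ hc.ne', one_smul]

end Pool.Agent.H41.Peps
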