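import Pool.Agent.H41.Peps1

namespace Pool.Agent.H41.Peps

open Function Finset Classical

/-- core embedding -/
def gg (m : ℕ) (p : Fin m × Fin m) : Fin (m + 1) × Fin (m + 1) := (p.1.castSucc, p.2.succ)

theorem gg_inj (m : ℕ) : Injective (gg m) := by
  rintro ⟨a, b⟩ ⟨c, d⟩ h
  simp only [gg, Prod.mk.injEq, Fin.castSucc_inj, Fin.succ_inj] at h
  rw [h.1, h.2]

theorem block {P K V J : Type} [Fintype P] [Fintype K] [Fintype V] [Fintype J] {k0 k1 : K}
    (hk : k0 ≠ k1) {m : ℕ}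
    (hm : Module.finrank ℝ (((P → K) → (P → K) → ℂ) × ℝ) + 1 ≤ m + 1)
    {f : Fin m × Fin m → V} (hf : Injective f) (e : J → P → Fin m × Fin m)
    (he : ∀ j, Injective (e j)) (Ψ : (V → K) → ℂ) (hΨ : nsq Ψ = 1) :
    ∃ χ : (Fin (m + 1) × Fin (m + 1) → K) → ℂ, nsq χ = 1 ∧ ∀ a b,
      ∑ j, ptr (gg m ∘ e j) χ χ a b = ∑ j, ptr (f ∘ e j) Ψ Ψ a b := by
  obtain ⟨T, hT⟩ : ∃ T, T = univ.filter (fun s : V → K => s ∘ f = fun _ => k0) := ⟨_, rfl⟩
  obtain ⟨k, pick, w, hkm, hw, hs⟩ := carath (E := ((P → K) → (P → K) → ℂ) × ℝ) T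
    ⟨fun _ => k0, by rw [hT]; simp; rfl⟩
    (fun s => (fun a b => ∑ j, ptr (e j) (fun σ => Ψ (extend f σ s)) (fun σ => Ψ (extend f σ s)) a b,
      nsq (fun σ => Ψ (extend f σ s))))
  have hkm' : k ≤ m + 1 := hkm.trans hm
  obtain ⟨rec, hrec⟩ : ∃ rec : Fin k → Fin (m + 1) × Fin (m + 1) → K,
    ∀ i u, rec i u = if u = (Fin.castLE hkm' i, 0) then k1 else k0 := ⟨_, fun _ _ => rfl⟩
  have hrec0 : ∀ i, rec i ∘ gg m = fun _ => k0 := by
    intro i; funext p
    simp only [comp_apply, hrec, gg]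
    rw [if_neg]
    intro h
    exact Fin.succ_ne_zero _ (congrArg Prod.snd h)
  obtain ⟨χ, hχ⟩ : ∃ χ : Fin k → (Fin (m + 1) × Fin (m + 1) → K) → ℂ, ∀ i σ, χ i σ =
    Ψ (extend f (σ ∘ gg m) (pick i)) *
      (if extend (gg m) (fun _ => k0) σ = rec i then (√(w i) : ℂ) else 0) := ⟨_, fun _ _ => rfl⟩
  have horth : ∀ i j : Fin k, ∀ s s' : Fin (m + 1) × Fin (m + 1) → K,
      (∀ v, v ∉ Set.range (gg m) → s v = s' v) → χ i s ≠ 0 → χ j s' ≠ 0 → i = j := by
    intro i j s s' h h1 h2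
    rw [hχ] at h1 h2
    have h1 : extend (gg m) (fun _ => k0) s = rec i := by
      by_contra hc; rw [if_neg hc] at h1; simp at h1
    have h2 : extend (gg m) (fun _ => k0) s' = rec j := by
      by_contra hc; rw [if_neg hc] at h2; simp at h2
    have hv : ¬ ∃ p, gg m p = (Fin.castLE hkm' i, 0) := by
      rintro ⟨p, hp⟩
      exact Fin.succ_ne_zero _ (congrArg Prod.snd hp)
    have h3 := congrFun h1 (Fin.castLE hkm' i, 0)
    have h4 := congrFun h2 (Fin.castLE hkm' i, 0)
    rw [extend_apply' _ _ _ hv, hrec] at h3 h4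
    rw [h _ hv, h4, if_pos rfl] at h3
    by_contra hne
    rw [if_neg] at h3
    · exact hk h3
    · intro h5
      exact hne (Fin.castLE_injective hkm' (congrArg Prod.fst h5))
  have key : ∀ {P' : Type} (e' : P' → Fin m × Fin m), Injective e' → ∀ i a b,
      ptr (gg m ∘ e') (χ i) (χ i) a b = w i *
        ptr e' (fun σ => Ψ (extend f σ (pick i))) (fun σ => Ψ (extend f σ (pick i))) a b := by
    intro P' e' he' i a b
    rw [ptr_split (gg_inj m) he' (fun _ => k0), Finset.sum_eq_single (rec i)]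
    · have h1 : ∀ σ, extend (gg m) (fun _ => k0) (extend (gg m) σ (rec i)) = rec i := by
        intro σ; rw [ext_ext (gg_inj m), ← hrec0 i, ext_self (gg_inj m)]
      simp only [hχ, extend_comp (gg_inj m), h1, if_true]
      rw [ptr_smul, Complex.conj_ofReal, ← Complex.ofReal_mul, Real.mul_self_sqrt (hw i), mul_comm]
    · intro s hs hne
      refine ptr_zero (fun σ _ _ h _ => h ?_) a b
      have hs : s ∘ gg m = fun _ => k0 := by simpa using hs
      rw [hχ, if_neg, mul_zero]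
      rw [ext_ext (gg_inj m), ← hs, ext_self (gg_inj m)]
      exact hne
    · intro h; exact absurd (by simp [hrec0]) h
  refine ⟨fun σ => ∑ i, χ i σ, ?_, fun a b => ?_⟩
  · rw [nsq_orth _ _ fun i _ j _ s h1 h2 => horth i j s s (fun _ _ => rfl) h1 h2]
    have h1 := congrArg Prod.snd hs
    simp only [Prod.snd_sum, Prod.smul_snd, smul_eq_mul] at h1
    rw [hT, ← nsq_split hf, hΨ] at h1
    rw [← h1]
    refine Finset.sum_congr rfl fun i _ => ?_
    apply Complex.ofReal_injective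
    have := key (Empty.elim : Empty → Fin m × Fin m) (fun a => a.elim) i Empty.elim Empty.elim
    rw [← nsq_eq_ptr, show gg m ∘ (Empty.elim : Empty → Fin m × Fin m) = Empty.elim from
      funext fun a => a.elim, ← nsq_eq_ptr] at this
    rw [this]; push_cast; rfl
  · have h1 := congrFun (congrFun (congrArg Prod.fst hs) a) b
    simp only [Prod.fst_sum, Prod.smul_fst, Finset.sum_apply, Pi.smul_apply] at h1
    rw [Finset.sum_comm (s := T)] at h1
    simp only [ptr_split hf (he _) (fun _ => k0), ← hT]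
    rw [← h1]
    have h2 : ∀ j, ptr (gg m ∘ e j) (fun σ => ∑ i, χ i σ) (fun σ => ∑ i, χ i σ) a b =
        ∑ i, ptr (gg m ∘ e j) (χ i) (χ i) a b := fun j =>
      ptr_orth _ _ _ (fun i _ i' _ s s' h h1 h2 => horth i i' s s'
        (fun v hv => h v (by rintro ⟨x, hx⟩; exact hv ⟨_, hx⟩)) h1 h2) a b
    simp only [h2, key _ (he _)]
    rw [Finset.sum_comm]
    refine Finset.sum_congr rfl fun i _ => ?_
    rw [← Finset.mul_sum]; rfl

/-! ### Grid structures -/

def Step (l x' x : ℕ) : Prop := x = x' + 1 ∨ (x = 0 ∧ l ≤ x' + 1)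

def Valid {N l : ℕ} (X : ZMod N → Fin (l + 1)) : Prop := ∀ t, Step l (X (t - 1)) (X t)

section
variable {N l : ℕ} {X X' : ZMod N → Fin (l + 1)}

theorem Valid.fwd (h : Valid X) {t : ZMod N} (ht : (X t : ℕ) = 0) :
    ∀ i : ℕ, i < l → (X (t + i) : ℕ) = i := by
  intro i
  induction i with
  | zero => intro _; simpa using ht
  | succ i ih =>
    intro hi
    have h1 := h (t + (i + 1 : ℕ))
    have e : t + ((i + 1 : ℕ) : ZMod N) - 1 = t + i := by push_cast; ring
    rw [e, ih (by omega)] at h1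
    rcases h1 with h1 | h1
    · exact h1
    · omega

theorem Valid.bwd (h : Valid X) (t : ZMod N) :
    ∀ i : ℕ, i ≤ X t → (X (t - i) : ℕ) = X t - i := by
  intro i
  induction i with
  | zero => intro _; simp
  | succ i ih =>
    intro hi
    have h1 := h (t - i)
    have e : t - i - 1 = t - ((i + 1 : ℕ) : ZMod N) := by push_cast; ring
    rw [e, ih (by omega)] at h1
    rcases h1 with h1 | h1 <;> omega

theorem Valid.corner (h : Valid X) (t : ZMod N) : (X (t - ((X t : ℕ) : ZMod N)) : ℕ) = 0 := by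
  rw [h.bwd t _ le_rfl]; simp

theorem Valid.shift (h : Valid X) (u : ZMod N) : Valid fun t => X (t + u) := fun t => by
  have := h (t + u)
  rwa [show t + u - 1 = t - 1 + u by ring] at this

theorem Valid.ext (h : Valid X) (h' : Valid X') (hl : 0 < l)
    (hz : ∀ t, (X t : ℕ) = 0 ↔ (X' t : ℕ) = 0) : X = X' := by
  funext t
  apply Fin.ext
  have h1 := (hz _).mp (h.corner t)
  rcases lt_or_ge (X t : ℕ) l with h2 | h2
  · have := h'.fwd h1 _ h2
    rw [sub_add_cancel] at this
    exact this.symm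
  · have h3 : (X t : ℕ) = l := by have := (X t).2; omega
    have h4 := h'.fwd h1 (l - 1) (by omega)
    have e : t - ((X t : ℕ) : ZMod N) + ((l - 1 : ℕ) : ZMod N) = t - 1 := by
      rw [h3, Nat.cast_sub (by omega)]; push_cast; ring
    rw [e] at h4
    have h5 := h' t
    rw [h4] at h5
    rcases h5 with h5 | h5
    · omega
    · have := (hz t).mpr h5.1; omega

theorem Valid.zero_of (h : Valid X) (h' : Valid X') (hl : 3 ≤ l)
    (h1 : ∀ t, (X t : ℕ) = 0 → (X' t : ℕ) ≤ 1) (h2 : ∀ t, (X' t : ℕ) = 0 → (X t : ℕ) ≤ 1)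
    (t : ZMod N) (ht : (X' t : ℕ) = 0) : (X t : ℕ) = 0 := by
  by_contra hc
  have h3 : (X t : ℕ) = 1 := by have := h2 t ht; omega
  have h4 := h.bwd t 1 (by omega)
  rw [h3, Nat.cast_one] at h4
  have h5 := h1 _ h4
  have h6 := h' t
  rcases h6 with h6 | h6 <;> omega

end

theorem far {L l r : ℕ} {X : ZMod (L + 1) → Fin (l + 1)} (h : Valid X) (hL : r + l ≤ L) :
    ∃ y : ℕ, r ≤ y ∧ y ≤ r + l ∧ (X y : ℕ) = 0 := by
  have h1 := h.corner ((r + l : ℕ) : ZMod (L + 1))
  have h2 := (X ((r + l : ℕ) : ZMod (L + 1))).2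
  rw [← Nat.cast_sub (by omega)] at h1
  exact ⟨_, by omega, by omega, h1⟩

theorem succ_mod (a k : ℕ) (hk : 0 < k) :
    (a + 1) % k = a % k + 1 ∨ ((a + 1) % k = 0 ∧ a % k + 1 = k) := by
  have h := Nat.mod_lt a hk
  have e : (a + 1) % k = (a % k + 1) % k := by simp
  rcases lt_or_ge (a % k + 1) k with h1 | h1
  · left; rw [e, Nat.mod_eq_of_lt h1]
  · right
    have : a % k + 1 = k := by omega
    rw [e, this]; simp

theorem exists_valid {L l : ℕ} (hl : 0 < l) (hL : l * (l + 1) ≤ L) :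
    ∃ X : ZMod (L + 1) → Fin (l + 1), Valid X := by
  obtain ⟨b, hb⟩ : ∃ b, b = (L + 1) % l := ⟨_, rfl⟩
  have hbl : b < l := hb ▸ Nat.mod_lt _ hl
  have hbL : b * (l + 1) ≤ L := le_trans (Nat.mul_le_mul_right _ hbl.le) hL
  obtain ⟨g, hg⟩ : ∃ g : ℕ → ℕ, ∀ t, g t = if t < b * (l + 1) then t % (l + 1) else (t - b) % l :=
    ⟨_, fun _ => rfl⟩
  have hbb : b ≤ b * (l + 1) := Nat.le_mul_of_pos_right _ (by omega)
  have hgl : ∀ t, g t < l + 1 := by
    intro t; rw [hg]; split_ifs
    · exact Nat.mod_lt _ (by omega)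
    · have := Nat.mod_lt (t - b) hl; omega
  have hstep : ∀ t, Step l (g t) (g (t + 1)) := by
    intro t
    rw [hg, hg]
    unfold Step
    by_cases h1 : t + 1 < b * (l + 1)
    · rw [if_pos h1, if_pos (by omega)]
      have := succ_mod t (l + 1) (by omega); omega
    · rw [if_neg h1]
      by_cases h2 : t < b * (l + 1)
      · rw [if_pos h2]
        have h3 : t + 1 = b * (l + 1) := by omega
        have h4 : (t + 1 - b) % l = 0 := by
          rw [h3, show b * (l + 1) - b = b * l by rw [mul_add]; omega]; simp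
        have h5 : (t + 1) % (l + 1) = 0 := by rw [h3]; simp
        have := succ_mod t (l + 1) (by omega); omega
      · rw [if_neg h2, show t + 1 - b = (t - b) + 1 by omega]
        have := succ_mod (t - b) l hl; omega
  refine ⟨fun t => ⟨g t.val, hgl _⟩, fun t => ?_⟩
  by_cases ht : t = 0
  · subst ht
    have e1 : ((0 : ZMod (L + 1)) - 1).val = L := by
      rw [zero_sub]; exact ZMod.val_neg_one L
    simp only [e1, ZMod.val_zero]
    right
    constructor
    · rw [hg]; split_ifs <;> simp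
    · rw [hg, if_neg (by omega)]
      have h1 : (L - b + 1) % l = 0 := by
        rw [show L - b + 1 = L + 1 - b by omega, hb]
        exact Nat.sub_mod_eq_zero_of_mod_eq (by simp)
      have := succ_mod (L - b) l hl; omega
  · have h0 : t.val ≠ 0 := fun h => ht ((ZMod.val_eq_zero t).mp h)
    have e1 : (t - 1).val + 1 = t.val := by
      have h1 : t - 1 = ((t.val - 1 : ℕ) : ZMod (L + 1)) := by
        rw [Nat.cast_sub (by omega)]; simp
      rw [h1, ZMod.val_cast_of_lt (by have := ZMod.val_lt t; omega)]; omega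
    have := hstep (t - 1).val
    rwa [e1] at this

end Pool.Agent.H41.Peps
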