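import Pool.Agent.H41.Peps2

namespace Pool.Agent.H41.Peps

open Function Finset Classical

theorem contract {d : ℕ} {Λ : Type} [Fintype Λ] (W : Fin d → Λ → Λ → Λ → ℂ) :
    ∃ A : Fin d → Fin (Fintype.card Λ) → Fin (Fintype.card Λ) → Fin (Fintype.card Λ) →
      Fin (Fintype.card Λ) → ℂ, ∀ L s, peps A L s =
        ∑ κ : Tor L → Λ, ∏ v, W (s v) (κ v) (κ (v - (1, 0))) (κ (v - (0, 1))) := by
  obtain ⟨e, -⟩ : ∃ e : Fin (Fintype.card Λ) ≃ Λ, True := ⟨(Fintype.equivFin Λ).symm, trivial⟩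
  refine ⟨fun k l r u dn => if r = dn then W k (e r) (e l) (e u) else 0, fun L s => ?_⟩
  unfold peps
  refine Fintype.sum_equiv ((Equiv.refl _).arrowCongr e) _ _ fun h => ?_
  rw [Finset.sum_eq_single h]
  · simp
  · intro w _ hw
    obtain ⟨v, hv⟩ := Function.ne_iff.mp hw
    exact Finset.prod_eq_zero (mem_univ v) (if_neg hv.symm)
  · simp

theorem const_zmod {L : ℕ} {α : Type} (g : ZMod (L + 1) → α) (h : ∀ u, g (u - 1) = g u) (u) :
    g u = g 0 := by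
  have : ∀ i : ℕ, g i = g 0 := by
    intro i
    induction i with
    | zero => simp
    | succ i ih => rw [← h, ← ih]; push_cast; simp
  rw [← this u.val]; simp

theorem Valid.back {N l : ℕ} {X : ZMod N → Fin (l + 1)} (hX : Valid X) {α : Type}
    (g : ZMod N → α) (h : ∀ t, (X t : ℕ) ≠ 0 → g (t - 1) = g t) (t : ZMod N) :
    g (t - ((X t : ℕ) : ZMod N)) = g t := by
  have : ∀ i : ℕ, i ≤ X t → g (t - i) = g t := by
    intro i
    induction i with
    | zero => simp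
    | succ i ih =>
      intro hi
      rw [← ih (by omega), ← h (t - i) (by rw [hX.bwd t i (by omega)]; omega)]
      congr 1; push_cast; ring
  exact this _ le_rfl

def off {L : ℕ} (n : ℕ) (c : Tor L) (p : Fin n × Fin n) : Tor L :=
  c + ((((p.1 : ℕ) + 2 : ℕ) : ZMod (L + 1)), (((p.2 : ℕ) + 2 : ℕ) : ZMod (L + 1)))

abbrev Gr (L n : ℕ) : Type := (ZMod (L + 1) → Fin (n + 2 + 1)) × (ZMod (L + 1) → Fin (n + 2 + 1))

noncomputable def VV (L n : ℕ) : Finset (Gr L n) := univ.filter fun g => Valid g.1 ∧ Valid g.2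

theorem mem_VV {L n : ℕ} {g : Gr L n} : g ∈ VV L n ↔ Valid g.1 ∧ Valid g.2 := by simp [VV]

def cor {L n : ℕ} (g : Gr L n) (v : Tor L) : Tor L :=
  v - (((g.1 v.1 : ℕ) : ZMod (L + 1)), ((g.2 v.2 : ℕ) : ZMod (L + 1)))

section
variable {K : Type} (k0 k1 : K) {n : ℕ} (χ : (Fin n × Fin n → K) → ℂ)

noncomputable def Ind (n x y : ℕ) (k : K) : ℂ :=
  if (2 ≤ x ∧ x < n + 2 ∧ 2 ≤ y ∧ y < n + 2) ∨ k = (if x = 0 ∨ (x = 1 ∧ y = 0) then k1 else k0)
  then 1 else 0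

noncomputable def Phi {L : ℕ} (g : Gr L n) (s : Tor L → K) : ℂ :=
  ∏ v, Ind k0 k1 n (g.1 v.1) (g.2 v.2) (s v) *
    (if (g.1 v.1 : ℕ) = 0 ∧ (g.2 v.2 : ℕ) = 0 then χ (s ∘ off n v) else 1)

abbrev Lab (n : ℕ) (K : Type) : Type := Fin (n + 2 + 1) × Fin (n + 2 + 1) × (Fin n × Fin n → K)

def Con (k : K) (a b c : Lab n K) : Prop :=
  Step (n + 2) b.1 a.1 ∧ b.2.1 = a.2.1 ∧ ((a.1 : ℕ) ≠ 0 → b.2.2 = a.2.2) ∧
  Step (n + 2) c.2.1 a.2.1 ∧ c.1 = a.1 ∧ ((a.2.1 : ℕ) ≠ 0 → c.2.2 = a.2.2) ∧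
  ∀ p : Fin n × Fin n, (a.1 : ℕ) = p.1 + 2 → (a.2.1 : ℕ) = p.2 + 2 → k = a.2.2 p

noncomputable def WW (k : K) (a b c : Lab n K) : ℂ :=
  if Con k a b c then Ind k0 k1 n a.1 a.2.1 k *
    (if (a.1 : ℕ) = 0 ∧ (a.2.1 : ℕ) = 0 then χ a.2.2 else 1) else 0

theorem off_pos {L : ℕ} {g : Gr L n} (hg : g ∈ VV L n) {c : Tor L}
    (hc : (g.1 c.1 : ℕ) = 0 ∧ (g.2 c.2 : ℕ) = 0) (p : Fin n × Fin n) :
    (g.1 (off n c p).1 : ℕ) = p.1 + 2 ∧ (g.2 (off n c p).2 : ℕ) = p.2 + 2 :=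
  ⟨(mem_VV.mp hg).1.fwd hc.1 _ (by omega), (mem_VV.mp hg).2.fwd hc.2 _ (by omega)⟩

theorem cor_pos {L : ℕ} {g : Gr L n} (hg : g ∈ VV L n) (v : Tor L) :
    (g.1 (cor g v).1 : ℕ) = 0 ∧ (g.2 (cor g v).2 : ℕ) = 0 :=
  ⟨(mem_VV.mp hg).1.corner _, (mem_VV.mp hg).2.corner _⟩

theorem off_cor {L : ℕ} {g : Gr L n} {v : Tor L} {p : Fin n × Fin n}
    (h1 : (g.1 v.1 : ℕ) = p.1 + 2) (h2 : (g.2 v.2 : ℕ) = p.2 + 2) : off n (cor g v) p = v := by
  simp only [off, cor, h1, h2, sub_add_cancel]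

theorem cor_off {L : ℕ} {g : Gr L n} (hg : g ∈ VV L n) {c : Tor L}
    (hc : (g.1 c.1 : ℕ) = 0 ∧ (g.2 c.2 : ℕ) = 0) (p : Fin n × Fin n) : cor g (off n c p) = c := by
  unfold cor
  rw [(off_pos hg hc p).1, (off_pos hg hc p).2]
  simp only [off, add_sub_cancel_right]

theorem sum_grid [Fintype K] {L : ℕ} (s : Tor L → K) :
    ∑ g ∈ VV L n, Phi k0 k1 χ g s = ∑ κ : Tor L → Lab n K,
      ∏ v, WW k0 k1 χ (s v) (κ v) (κ (v - (1, 0))) (κ (v - (0, 1))) := by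
  refine Finset.sum_of_injOn (fun g v => (g.1 v.1, g.2 v.2, s ∘ off n (cor g v))) ?_ ?_ ?_ ?_
  · rintro ⟨X, Y⟩ - ⟨X', Y'⟩ - h
    refine Prod.ext (funext fun t => ?_) (funext fun t => ?_)
    · exact congrArg Prod.fst (congrFun h (t, 0))
    · exact congrArg (fun a => a.2.1) (congrFun h (0, t))
  · intro _ _; simp
  · intro κ _ hκ
    by_contra hne
    have hC : ∀ v, Con (s v) (κ v) (κ (v - (1, 0))) (κ (v - (0, 1))) := by
      intro v
      by_contra hc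
      exact hne (Finset.prod_eq_zero (mem_univ v) (if_neg hc))
    have e1 : ∀ t u : ZMod (L + 1), ((t, u) : Tor L) - (1, 0) = (t - 1, u) := by simp
    have e2 : ∀ t u : ZMod (L + 1), ((t, u) : Tor L) - (0, 1) = (t, u - 1) := by simp
    have hX : ∀ v : Tor L, (κ v).1 = (κ (v.1, 0)).1 := fun v =>
      const_zmod (fun u => (κ (v.1, u)).1) (fun u => by
        have := (hC (v.1, u)).2.2.2.2.1; rwa [e2] at this) v.2
    have hY : ∀ v : Tor L, (κ v).2.1 = (κ (0, v.2)).2.1 := fun v =>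
      const_zmod (fun u => (κ (u, v.2)).2.1) (fun u => by
        have := (hC (u, v.2)).2.1; rwa [e1] at this) v.1
    obtain ⟨g, hg⟩ : ∃ g : Gr L n, g = (fun t => (κ (t, 0)).1, fun t => (κ (0, t)).2.1) := ⟨_, rfl⟩
    have hX' : ∀ v : Tor L, (κ v).1 = g.1 v.1 := by rw [hg]; exact hX
    have hY' : ∀ v : Tor L, (κ v).2.1 = g.2 v.2 := by rw [hg]; exact hY
    have hV : g ∈ VV L n := by
      rw [mem_VV]
      refine ⟨fun t => ?_, fun t => ?_⟩
      · have := (hC (t, 0)).1; rwa [e1, hX', hX'] at this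
      · have := (hC (0, t)).2.2.2.1; rwa [e2, hY', hY'] at this
    have hσ : ∀ v, (κ (cor g v)).2.2 = (κ v).2.2 := by
      rintro ⟨t, u⟩
      have h1 := (mem_VV.mp hV).1.back (fun t => (κ (t, u)).2.2) (fun t ht => by
        have := (hC (t, u)).2.2.1 (by rwa [hX']); rwa [e1] at this) t
      have h2 := (mem_VV.mp hV).2.back (fun u => (κ (t - ((g.1 t : ℕ) : ZMod (L + 1)), u)).2.2)
        (fun u hu => by
          have := (hC (t - ((g.1 t : ℕ) : ZMod (L + 1)), u)).2.2.2.2.2.1 (by rwa [hY'])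
          rwa [e2] at this) u
      exact h2.trans h1
    refine hκ ⟨g, hV, funext fun v => Prod.ext (hX' v).symm (Prod.ext (hY' v).symm ?_)⟩
    funext p
    have h1 := off_pos hV (cor_pos hV v) p
    have h2 := (hC (off n (cor g v) p)).2.2.2.2.2.2 p (by rw [hX', h1.1]) (by rw [hY', h1.2])
    rw [← hσ, cor_off hV (cor_pos hV v), hσ] at h2
    exact h2
  · intro g hg
    have hg' := mem_VV.mp hg
    refine Finset.prod_congr rfl fun v _ => ?_
    have hc : Con (s v) (g.1 v.1, g.2 v.2, s ∘ off n (cor g v))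
        (g.1 (v - (1, 0)).1, g.2 (v - (1, 0)).2, s ∘ off n (cor g (v - (1, 0))))
        (g.1 (v - (0, 1)).1, g.2 (v - (0, 1)).2, s ∘ off n (cor g (v - (0, 1)))) := by
      refine ⟨by simpa using hg'.1 v.1, by simp, fun h => ?_, by simpa using hg'.2 v.2, by simp,
        fun h => ?_, fun p h1 h2 => ?_⟩
      · have h1 := hg'.1.bwd v.1 1 (by simp only at h; omega)
        obtain ⟨x, h2⟩ : ∃ x, (g.1 v.1 : ℕ) = x + 1 := ⟨g.1 v.1 - 1, by simp only at h; omega⟩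
        rw [Nat.cast_one, h2, Nat.add_sub_cancel] at h1
        have : cor g (v - (1, 0)) = cor g v := by
          simp only [cor, Prod.fst_sub, Prod.snd_sub, sub_zero, h1, h2]
          ext <;> simp
          ring
        rw [this]
      · have h1 := hg'.2.bwd v.2 1 (by simp only at h; omega)
        obtain ⟨x, h2⟩ : ∃ x, (g.2 v.2 : ℕ) = x + 1 := ⟨g.2 v.2 - 1, by simp only at h; omega⟩
        rw [Nat.cast_one, h2, Nat.add_sub_cancel] at h1
        have : cor g (v - (0, 1)) = cor g v := by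
          simp only [cor, Prod.fst_sub, Prod.snd_sub, sub_zero, h1, h2]
          ext <;> simp
          ring
        rw [this]
      · simp only [comp_apply]
        rw [off_cor h1 h2]
    unfold WW
    rw [if_pos hc]
    congr 1
    refine if_ctx_congr Iff.rfl (fun h => ?_) fun _ => rfl
    have : cor g v = v := by
      simp only at h
      simp only [cor, h.1, h.2]
      ext <;> simp
    simp only [this]

end

end Pool.Agent.H41.Peps
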