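import Pool.Agent.H41.Peps3

namespace Pool.Agent.H41.Peps

open Function Finset Classical

section
variable {K : Type} {k0 k1 : K} {n : ℕ} {χ : (Fin n × Fin n → K) → ℂ} {L : ℕ}

theorem Phi_mark {g : Gr L n} {s : Tor L → K} (h : Phi k0 k1 χ g s ≠ 0) (v : Tor L)
    (hv : (g.1 v.1 : ℕ) ≤ 1 ∨ (g.2 v.2 : ℕ) ≤ 1) :
    s v = if (g.1 v.1 : ℕ) = 0 ∨ ((g.1 v.1 : ℕ) = 1 ∧ (g.2 v.2 : ℕ) = 0) then k1 else k0 := by
  by_contra hc
  refine h (Finset.prod_eq_zero (mem_univ v) ?_)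
  rw [Ind, if_neg, zero_mul]
  rintro (h1 | h1)
  · omega
  · exact hc h1

theorem Phi_half (hk : k0 ≠ k1) {r : ℕ} (hL : r + (n + 2) + 1 ≤ L) {g g' : Gr L n}
    (hg' : g' ∈ VV L n) {s s' : Tor L → K}
    (hs : ∀ v : Tor L, r ≤ v.1.val ∨ r ≤ v.2.val → s v = s' v)
    (h : Phi k0 k1 χ g s ≠ 0) (h' : Phi k0 k1 χ g' s' ≠ 0) (t) (ht : (g.1 t : ℕ) = 0) :
    (g'.1 t : ℕ) ≤ 1 := by
  obtain ⟨y, h1, h2, h3⟩ := far (r := r) (mem_VV.mp hg').2 (by omega)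
  have h4 := Phi_mark h (t, y) (Or.inl (by simp [ht]))
  have h5 := Phi_mark h' (t, y) (Or.inr (by simp [h3]))
  rw [hs _ (Or.inr (by simp only; rw [ZMod.val_cast_of_lt (by omega)]; exact h1)), h5,
    if_pos (Or.inl ht)] at h4
  by_contra hc
  rw [if_neg (by simp only; omega)] at h4
  exact hk h4

theorem Phi_orth (hk : k0 ≠ k1) (hn : 1 ≤ n) {r : ℕ} (hL : r + (n + 2) + 1 ≤ L) {g g' : Gr L n}
    (hg : g ∈ VV L n) (hg' : g' ∈ VV L n) {s s' : Tor L → K}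
    (hs : ∀ v : Tor L, r ≤ v.1.val ∨ r ≤ v.2.val → s v = s' v)
    (h : Phi k0 k1 χ g s ≠ 0) (h' : Phi k0 k1 χ g' s' ≠ 0) : g = g' := by
  have h1 := Phi_half hk hL hg' hs h h'
  have h2 := Phi_half hk hL hg (fun v hv => (hs v hv).symm) h' h
  have hV := mem_VV.mp hg
  have hV' := mem_VV.mp hg'
  have hX : g.1 = g'.1 := hV.1.ext hV'.1 (by omega) fun t =>
    ⟨hV'.1.zero_of hV.1 (by omega) h2 h1 t, hV.1.zero_of hV'.1 (by omega) h1 h2 t⟩
  refine Prod.ext hX (hV.2.ext hV'.2 (by omega) fun y => ?_)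
  obtain ⟨t, h3, h4, h5⟩ := far (r := r) hV.1 (by omega)
  have h6 := hV.1.fwd h5 1 (by omega)
  rw [← Nat.cast_add] at h6
  have h7 := Phi_mark h (((t + 1 : ℕ) : ZMod (L + 1)), y) (Or.inl h6.le)
  have h8 := Phi_mark h' (((t + 1 : ℕ) : ZMod (L + 1)), y) (Or.inl (hX ▸ h6.le))
  rw [hs _ (Or.inl (by simp only; rw [ZMod.val_cast_of_lt (by omega)]; omega)), h8, ← hX] at h7
  simp only [h6, one_ne_zero, false_or, true_and] at h7
  by_contra hc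
  split_ifs at h7 with h9 h10 h10
  · exact hc ⟨fun _ => h9, fun _ => h10⟩
  · exact hk h7.symm
  · exact hk h7
  · exact hc ⟨fun h => absurd h h10, fun h => absurd h h9⟩

theorem off_inj {g : Gr L n} (hg : g ∈ VV L n) {c : Tor L}
    (hc : (g.1 c.1 : ℕ) = 0 ∧ (g.2 c.2 : ℕ) = 0) : Injective (off n c) := by
  intro p p' h
  have h1 := off_pos hg hc p
  have h2 := off_pos hg hc p'
  rw [h] at h1
  exact Prod.ext (Fin.ext (by omega)) (Fin.ext (by omega))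

theorem Phi_factor {g : Gr L n} (hg : g ∈ VV L n) {c : Tor L}
    (hc : (g.1 c.1 : ℕ) = 0 ∧ (g.2 c.2 : ℕ) = 0) : ∃ G : (Tor L → K) → ℂ,
      (∀ σ s, G (extend (off n c) σ s) = G s) ∧
        Phi k0 k1 χ g = fun s => χ (s ∘ off n c) * G s := by
  refine ⟨fun s => (∏ v, Ind k0 k1 n (g.1 v.1) (g.2 v.2) (s v)) * ∏ v ∈ univ.erase c,
    (if (g.1 v.1 : ℕ) = 0 ∧ (g.2 v.2 : ℕ) = 0 then χ (s ∘ off n v) else 1), fun σ s => ?_, ?_⟩
  · simp only
    congr 1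
    · refine Finset.prod_congr rfl fun v _ => ?_
      by_cases hv : ∃ p, off n c p = v
      · obtain ⟨p, rfl⟩ := hv
        have := off_pos hg hc p
        rw [Ind, Ind, if_pos (Or.inl (by omega)), if_pos (Or.inl (by omega))]
      · rw [extend_apply' _ _ _ hv]
    · refine Finset.prod_congr rfl fun v hv => if_ctx_congr Iff.rfl (fun h => ?_) fun _ => rfl
      congr 1
      funext p
      refine extend_apply' _ _ _ ?_
      rintro ⟨p', hp⟩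
      have h1 := cor_off hg hc p'
      rw [hp, cor_off hg h p] at h1
      exact (Finset.mem_erase.mp hv).1 h1
  · funext s
    rw [Phi, Finset.prod_mul_distrib, ← Finset.mul_prod_erase _ (fun v : Tor L =>
      if (g.1 v.1 : ℕ) = 0 ∧ (g.2 v.2 : ℕ) = 0 then χ (s ∘ off n v) else 1) (mem_univ c), if_pos hc]
    ring

theorem Phi_ne {g : Gr L n} (hg : g ∈ VV L n) (hχ : χ ≠ 0) : Phi k0 k1 χ g ≠ 0 := by
  obtain ⟨σ, hσ⟩ := Function.ne_iff.mp hχ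
  obtain ⟨s, hs⟩ : ∃ s : Tor L → K, ∀ v, s v =
    if h : 2 ≤ (g.1 v.1 : ℕ) ∧ (g.1 v.1 : ℕ) < n + 2 ∧ 2 ≤ (g.2 v.2 : ℕ) ∧ (g.2 v.2 : ℕ) < n + 2
    then σ (⟨g.1 v.1 - 2, by omega⟩, ⟨g.2 v.2 - 2, by omega⟩)
    else if (g.1 v.1 : ℕ) = 0 ∨ ((g.1 v.1 : ℕ) = 1 ∧ (g.2 v.2 : ℕ) = 0) then k1 else k0 :=
    ⟨_, fun _ => rfl⟩
  refine Function.ne_iff.mpr ⟨s, Finset.prod_ne_zero_iff.mpr fun v _ => mul_ne_zero ?_ ?_⟩
  · rw [Ind, if_pos]
    · exact one_ne_zero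
    · rw [hs, or_iff_not_imp_left]
      intro h
      rw [dif_neg h]
  · split_ifs with h
    · have : s ∘ off n v = σ := by
        funext p
        have := off_pos hg h p
        rw [comp_apply, hs, dif_pos (by omega)]
        congr 2 <;> simp [this.1, this.2]
      rw [this]; exact hσ
    · exact one_ne_zero

def sh (u : Tor L) (g : Gr L n) : Gr L n := (fun t => g.1 (t + u.1), fun t => g.2 (t + u.2))

theorem sh_mem {g : Gr L n} (hg : g ∈ VV L n) (u : Tor L) : sh u g ∈ VV L n :=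
  mem_VV.mpr ⟨(mem_VV.mp hg).1.shift _, (mem_VV.mp hg).2.shift _⟩

theorem sh_sh (u : Tor L) (g : Gr L n) : sh u (sh (-u) g) = g := by
  simp [sh]

variable [Fintype K]

theorem Phi_sh (u : Tor L) (g : Gr L n) :
    nsq (Phi k0 k1 χ (sh u g)) = nsq (Phi k0 k1 χ g) := by
  rw [← nsq_equiv (Equiv.addRight u)]
  congr 1
  funext s
  refine Fintype.prod_equiv (Equiv.addRight u) _ _ fun v => ?_
  have : (s ∘ Equiv.addRight u) ∘ off n v = s ∘ off n (v + u) := by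
    funext p; simp only [comp_apply, Equiv.coe_addRight, off]; congr 1; abel
  rw [this]; rfl

noncomputable def fib (L n : ℕ) (i : Fin (n + 2 + 1) × Fin (n + 2 + 1)) : Finset (Gr L n) :=
  (VV L n).filter fun g => (g.1 0, g.2 0) = i

theorem fib_sum (i : Fin (n + 2 + 1) × Fin (n + 2 + 1)) :
    ∑ g ∈ fib L n i, nsq (Phi k0 k1 χ g) ≤ ∑ g ∈ fib L n 0, nsq (Phi k0 k1 χ g) ∧
    ((i.1 : ℕ) < n + 2 → (i.2 : ℕ) < n + 2 →
      ∑ g ∈ fib L n i, nsq (Phi k0 k1 χ g) = ∑ g ∈ fib L n 0, nsq (Phi k0 k1 χ g)) := by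
  obtain ⟨u, hu⟩ : ∃ u : Tor L, u = (((i.1 : ℕ) : ZMod (L + 1)), ((i.2 : ℕ) : ZMod (L + 1))) :=
    ⟨_, rfl⟩
  have h1 : ∑ g ∈ fib L n 0, nsq (Phi k0 k1 χ g) =
      ∑ g ∈ (fib L n 0).image (sh u), nsq (Phi k0 k1 χ g) := by
    rw [Finset.sum_image]
    · simp only [Phi_sh]
    · intro g _ g' _ h
      have := congrArg (sh (-u)) h
      rwa [← neg_neg u, neg_neg (-u), sh_sh, sh_sh] at this
  have h2 : fib L n i ⊆ (fib L n 0).image (sh u) := by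
    intro g hg
    obtain ⟨hg, h⟩ := Finset.mem_filter.mp hg
    refine Finset.mem_image.mpr ⟨sh (-u) g, Finset.mem_filter.mpr ⟨sh_mem hg _, ?_⟩, sh_sh _ _⟩
    have := cor_pos hg 0
    simp only [cor, Prod.fst_zero, Prod.snd_zero, zero_sub] at this
    rw [hu, ← h]
    exact Prod.ext (Fin.ext (by simpa [sh] using this.1)) (Fin.ext (by simpa [sh] using this.2))
  rw [h1]
  refine ⟨Finset.sum_le_sum_of_subset_of_nonneg h2 fun _ _ _ => nsq_nonneg _, fun h3 h4 => ?_⟩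
  congr 1
  refine Finset.Subset.antisymm h2 fun g hg => ?_
  obtain ⟨g', hg', rfl⟩ := Finset.mem_image.mp hg
  obtain ⟨hg', h⟩ := Finset.mem_filter.mp hg'
  refine Finset.mem_filter.mpr ⟨sh_mem hg' _, ?_⟩
  have h5 := (mem_VV.mp hg').1.fwd (t := 0) (by rw [show g'.1 0 = 0 from congrArg Prod.fst h]; rfl) _ h3
  have h6 := (mem_VV.mp hg').2.fwd (t := 0) (by rw [show g'.2 0 = 0 from congrArg Prod.snd h]; rfl) _ h4
  rw [hu]
  exact Prod.ext (Fin.ext h5) (Fin.ext h6)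

end

end Pool.Agent.H41.Peps
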