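import Pool.Agent.H41.Peps4

namespace Pool.Agent.H41.Peps

open Function Finset Classical

section
variable {R : Finset (ℕ × ℕ)} {r q : ℕ}

def ee (hR : ∀ x ∈ R, x.1 < r ∧ x.2 < r) (j : Fin q × Fin q) (x : R) :
    Fin (q + r) × Fin (q + r) :=
  (⟨j.1 + x.1.1, by have := (hR _ x.2).1; omega⟩, ⟨j.2 + x.1.2, by have := (hR _ x.2).2; omega⟩)

theorem ee_inj (hR : ∀ x ∈ R, x.1 < r ∧ x.2 < r) (j : Fin q × Fin q) : Injective (ee hR j) := by
  intro x y h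
  simp only [ee, Prod.mk.injEq, Fin.mk.injEq] at h
  exact Subtype.ext (Prod.ext (by omega) (by omega))

def emb (q r : ℕ) (j : Fin q × Fin q) : Fin (q + r + 1 + 2 + 1) × Fin (q + r + 1 + 2 + 1) :=
  (⟨j.1 + 2, by omega⟩, ⟨j.2 + 3, by omega⟩)

theorem emb_inj : Injective (emb q r) := by
  intro x y h
  simp only [emb, Prod.mk.injEq, Fin.mk.injEq] at h
  exact Prod.ext (Fin.ext (by omega)) (Fin.ext (by omega))

theorem place_val (hR : ∀ x ∈ R, x.1 < r ∧ x.2 < r) {L : ℕ} (hL : r ≤ L) (x : R) :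
    (place R L 0 x).1.val = x.1.1 ∧ (place R L 0 x).2.val = x.1.2 := by
  have := hR _ x.2
  simp only [place, zero_add]
  exact ⟨ZMod.val_cast_of_lt (by omega), ZMod.val_cast_of_lt (by omega)⟩

theorem place_inj (hR : ∀ x ∈ R, x.1 < r ∧ x.2 < r) {L : ℕ} (hL : r ≤ L) :
    Injective (place R L 0) := by
  intro x y h
  have h1 := place_val hR hL x
  have h2 := place_val hR hL y
  rw [h] at h1
  exact Subtype.ext (Prod.ext (by omega) (by omega))

theorem grid_est {d : ℕ} {k0 k1 : Fin d} (hk : k0 ≠ k1) (hR : ∀ x ∈ R, x.1 < r ∧ x.2 < r)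
    (hq : 0 < q) (χ : (Fin (q + r + 1) × Fin (q + r + 1) → Fin d) → ℂ) (hχ : nsq χ = 1)
    (ρ : (R → Fin d) → (R → Fin d) → ℂ) (hρ : ∀ a b, ‖ρ a b‖ ≤ 1)
    (h : ∀ a b, ∑ j : Fin q × Fin q, ptr (gg (q + r) ∘ ee hR j) χ χ a b = q ^ 2 * ρ a b)
    {L : ℕ} (hL : (q + r + 3) * (q + r + 4) ≤ L) (ψ : St d L)
    (hψ : ψ = fun s => ∑ g ∈ VV L (q + r + 1), Phi k0 k1 χ g s) :
    ψ ≠ 0 ∧ ∀ a b, ‖ρ a b - rdm R ψ a b‖ ≤ 2 * (((q + r + 4 : ℕ) : ℝ) ^ 2 - q ^ 2) / q ^ 2 := by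
  have hL' : r + (q + r + 1 + 2) + 1 ≤ L := by nlinarith
  have horth : ∀ g ∈ VV L (q + r + 1), ∀ g' ∈ VV L (q + r + 1), ∀ s s' : Tor L → Fin d,
      (∀ v, v ∉ Set.range (place R L 0) → s v = s' v) → Phi k0 k1 χ g s ≠ 0 →
      Phi k0 k1 χ g' s' ≠ 0 → g = g' := by
    intro g hg g' hg' s s' hs
    refine Phi_orth hk (by omega) hL' hg hg' fun v hv => hs v ?_
    rintro ⟨x, rfl⟩
    have h1 := place_val hR (L := L) (by omega) x
    have h2 := hR _ x.2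
    omega
  have hfib : ∀ {M : Type} [AddCommMonoid M] (F : Gr L (q + r + 1) → M),
      ∑ g ∈ VV L (q + r + 1), F g = ∑ i, ∑ g ∈ fib L (q + r + 1) i, F g := fun F =>
    (Finset.sum_fiberwise _ _ F).symm
  have hN : nsq ψ = ∑ i, ∑ g ∈ fib L (q + r + 1) i, nsq (Phi k0 k1 χ g) := by
    rw [hψ, nsq_orth _ _ fun g hg g' hg' s => horth g hg g' hg' s s fun _ _ => rfl, hfib]
  obtain ⟨n0, hn0⟩ : ∃ n0, n0 = ∑ g ∈ fib L (q + r + 1) 0, nsq (Phi k0 k1 χ g) := ⟨_, rfl⟩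
  have hle : ∀ i, ∑ g ∈ fib L (q + r + 1) i, nsq (Phi k0 k1 χ g) ≤ n0 := fun i =>
    hn0 ▸ (fib_sum i).1
  have heq : ∀ j, ∑ g ∈ fib L (q + r + 1) (emb q r j), nsq (Phi k0 k1 χ g) = n0 := fun j =>
    hn0 ▸ (fib_sum _).2 (by simp only [emb]; omega) (by simp only [emb]; omega)
  have hpos : 0 < nsq ψ := by
    obtain ⟨X, hX⟩ := exists_valid (L := L) (l := q + r + 1 + 2) (by omega) hL
    have hg : (X, X) ∈ VV L (q + r + 1) := mem_VV.mpr ⟨hX, hX⟩
    rw [hN, ← hfib]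
    refine Finset.sum_pos' (fun _ _ => nsq_nonneg _) ⟨_, hg, nsq_pos (Phi_ne hg ?_)⟩
    rintro rfl
    simp [nsq] at hχ
  have hlow : (q : ℝ) ^ 2 * n0 ≤ nsq ψ := by
    rw [hN]
    refine le_trans ?_ (Finset.sum_le_sum_of_subset_of_nonneg
      (subset_univ (univ.image (emb q r))) fun _ _ _ => Finset.sum_nonneg fun _ _ => nsq_nonneg _)
    rw [Finset.sum_image fun _ _ _ _ h => emb_inj h]
    simp [heq, sq]
  have hn0pos : 0 < n0 := by
    by_contra hc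
    have : nsq ψ ≤ 0 := by
      rw [hN]; exact Finset.sum_nonpos fun i _ => (hle i).trans (not_lt.mp hc)
    linarith
  refine ⟨fun h0 => by rw [h0] at hpos; simp [nsq] at hpos, fun a b => ?_⟩
  have hgood : ∀ j, ∀ g ∈ fib L (q + r + 1) (emb q r j), ptr (place R L 0) (Phi k0 k1 χ g)
      (Phi k0 k1 χ g) a b = ptr (gg (q + r) ∘ ee hR j) χ χ a b * nsq (Phi k0 k1 χ g) := by
    intro j g hg
    obtain ⟨hg, h1⟩ := Finset.mem_filter.mp hg
    obtain ⟨G, hG, h2⟩ := Phi_factor (k0 := k0) (k1 := k1) (χ := χ) hg (cor_pos hg 0)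
    have h3 : place R L 0 = off (q + r + 1) (cor g 0) ∘ (gg (q + r) ∘ ee hR j) := by
      funext x
      simp only [emb, Prod.mk.injEq] at h1
      simp only [place, off, cor, comp_apply, Prod.fst_zero, Prod.snd_zero, h1.1, h1.2, gg, ee]
      ext <;> simp <;> ring
    rw [h2, h3]
    exact ptr_factor (off_inj hg (cor_pos hg 0)) ((gg_inj _).comp (ee_inj hR j)) χ hχ G hG a b
  obtain ⟨E, hE⟩ : ∃ E : Fin (q + r + 1 + 2 + 1) × Fin (q + r + 1 + 2 + 1) → ℂ, ∀ i, E i =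
    ∑ g ∈ fib L (q + r + 1) i, (ρ a b * nsq (Phi k0 k1 χ g) -
      ptr (place R L 0) (Phi k0 k1 χ g) (Phi k0 k1 χ g) a b) := ⟨_, fun _ => rfl⟩
  have h1 : ρ a b * nsq ψ - ptr (place R L 0) ψ ψ a b = ∑ i, E i := by
    rw [hN]
    conv_lhs => rw [hψ, ptr_orth _ _ _ horth, hfib]
    simp only [hE, Finset.sum_sub_distrib]
    push_cast
    simp only [Finset.mul_sum]
  have h2 : ∑ i ∈ univ.image (emb q r), E i = 0 := by
    rw [Finset.sum_image fun _ _ _ _ h => emb_inj h]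
    have : ∀ j, E (emb q r j) = (ρ a b - ptr (gg (q + r) ∘ ee hR j) χ χ a b) * n0 := by
      intro j
      rw [hE, ← heq j]
      push_cast
      rw [Finset.mul_sum]
      exact Finset.sum_congr rfl fun g hg => by rw [hgood j g hg]; ring
    simp only [this]
    rw [← Finset.sum_mul, Finset.sum_sub_distrib, h]
    simp [sq]
  have h3 : ∀ i, ‖E i‖ ≤ 2 * n0 := by
    intro i
    rw [hE]
    refine (norm_sum_le _ _).trans (le_trans (Finset.sum_le_sum fun g _ => ?_)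
      (mul_le_mul_of_nonneg_left (hle i) zero_le_two |>.trans' (Finset.mul_sum _ _ _).ge))
    refine (norm_sub_le _ _).trans ?_
    have h4 := ptr_norm_le (place_inj hR (L := L) (by omega)) (Phi k0 k1 χ g) a b
    have h5 := nsq_nonneg (Phi k0 k1 χ g)
    rw [norm_mul, Complex.norm_real, Real.norm_of_nonneg h5]
    nlinarith [hρ a b]
  have h4 : ‖∑ i, E i‖ ≤ (((q + r + 4 : ℕ) : ℝ) ^ 2 - q ^ 2) * (2 * n0) := by
    rw [← Finset.sum_sdiff (subset_univ (univ.image (emb q r))), h2, add_zero]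
    refine (norm_sum_le _ _).trans ((Finset.sum_le_card_nsmul _ _ _ fun i _ => h3 i).trans ?_)
    rw [Finset.card_sdiff_of_subset (subset_univ _), Finset.card_image_of_injective _ emb_inj,
      nsmul_eq_mul, Nat.cast_sub (by simp; nlinarith)]
    apply le_of_eq
    simp; left; ring
  have h5 : ρ a b - rdm R ψ a b = (∑ i, E i) / nsq ψ := by
    have : (nsq ψ : ℂ) ≠ 0 := by exact_mod_cast hpos.ne'
    rw [← h1, rdm]; field_simp
  have hq' : (0 : ℝ) < q := by exact_mod_cast hq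
  have h6 : (0 : ℝ) ≤ ((q + r + 4 : ℕ) : ℝ) ^ 2 - q ^ 2 := by
    push_cast; nlinarith [(Nat.cast_nonneg r : (0 : ℝ) ≤ r)]
  rw [h5, norm_div, Complex.norm_real, Real.norm_of_nonneg hpos.le, div_le_iff₀ hpos]
  refine h4.trans (le_trans (le_of_eq ?_) (mul_le_mul_of_nonneg_left hlow (by positivity)))
  field_simp

end

end Pool.Agent.H41.Peps
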