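import Pool.Agent.H41.Peps5

namespace Pool.Agent.H41.Peps

open Function Finset Classical Filter Topology

theorem ham_shift {d L : ℕ} {S : Finset (ℕ × ℕ)} (h : (S → Fin d) → (S → Fin d) → ℂ)
    (Ψ : St d L) (u : Tor L) :
    ham h L (fun s => Ψ (s ∘ Equiv.addRight u)) = fun s => ham h L Ψ (s ∘ Equiv.addRight u) := by
  funext s
  unfold ham
  symm
  refine Fintype.sum_equiv (Equiv.addRight u) _ _ fun t => ?_
  symm
  refine Fintype.sum_equiv ((Equiv.addRight u).symm.arrowCongr (Equiv.refl _)) _ _ fun s' => ?_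
  have e1 : ((Equiv.addRight u).symm.arrowCongr (Equiv.refl (Fin d))) s' = s' ∘ Equiv.addRight u :=
    rfl
  have e2 : place S L (Equiv.addRight u t) = Equiv.addRight u ∘ place S L t := by
    funext x; simp only [place, comp_apply, Equiv.coe_addRight]; abel
  rw [e1, e2]
  refine if_congr ?_ rfl rfl
  constructor
  · intro h v hv
    exact h (Equiv.addRight u v) (by rintro ⟨x, hx⟩; exact hv ⟨x, (Equiv.addRight u).injective hx⟩)
  · intro h v hv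
    have := h ((Equiv.addRight u).symm v) (by rintro ⟨x, hx⟩; exact hv ⟨x, by simp [hx]⟩)
    simpa using this

theorem SimpleEig.ptr_shift {d L : ℕ} {S : Finset (ℕ × ℕ)} {h : (S → Fin d) → (S → Fin d) → ℂ}
    {Ψ : St d L} (hΨ : SimpleEig h L Ψ) (u : Tor L) {P : Type} (e : P → Tor L) (a b : P → Fin d) :
    ptr (Equiv.addRight u ∘ e) Ψ Ψ a b = ptr e Ψ Ψ a b := by
  obtain ⟨h0, E, h1, h2⟩ := hΨ
  obtain ⟨c, hc⟩ := h2 (fun s => Ψ (s ∘ Equiv.addRight u)) (by rw [ham_shift, h1]; rfl)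
  have hc' : (fun s => Ψ (s ∘ Equiv.addRight u)) = fun s => Ψ s * c := by
    rw [hc]; funext s; simp [mul_comm]
  have h3 := congrArg Complex.ofReal (nsq_equiv (Equiv.addRight u) Ψ)
  rw [hc', nsq_eq_ptr, ptr_smul, ← nsq_eq_ptr] at h3
  have h4 : (nsq Ψ : ℂ) ≠ 0 := by exact_mod_cast (nsq_pos h0).ne'
  have h5 : c * (starRingEnd ℂ) c = 1 := mul_left_cancel₀ h4 (by rw [h3, mul_one])
  rw [← ptr_equiv (Equiv.addRight u) e, hc', ptr_smul, h5, mul_one]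

theorem approx (d : ℕ) (hd : 2 ≤ d) (R : Finset (ℕ × ℕ)) (ε : ℝ) (hε : 0 < ε) :
    ∃ D L₁ : ℕ, ∀ (S : Finset (ℕ × ℕ)) (h : (S → Fin d) → (S → Fin d) → ℂ),
      ∀ L₀ ≥ L₁, ∀ Ψ : St d L₀, SimpleEig h L₀ Ψ →
        ∃ A : Fin d → Fin D → Fin D → Fin D → Fin D → ℂ, ∀ L ≥ L₁,
          peps A L ≠ 0 ∧ dist1 (rdm R Ψ) (rdm R (peps A L)) ≤ ε := by
  obtain ⟨r, hR⟩ : ∃ r, ∀ x ∈ R, x.1 < r ∧ x.2 < r :=
    ⟨R.sup (fun x => x.1 + x.2) + 1, fun x hx => by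
      have := Finset.le_sup (f := fun x : ℕ × ℕ => x.1 + x.2) hx
      omega⟩
  obtain ⟨C, hC⟩ : ∃ C : ℝ, C = Fintype.card (R → Fin d) := ⟨_, rfl⟩
  obtain ⟨q, hq⟩ := exists_nat_gt (max (Module.finrank ℝ
    (((R → Fin d) → (R → Fin d) → ℂ) × ℝ) : ℝ) (C * (C * (2 * (2 * (r + 4) + (r + 4) ^ 2))) / ε))
  obtain ⟨hq1, hq2⟩ := max_lt_iff.mp hq
  have hq1 : Module.finrank ℝ (((R → Fin d) → (R → Fin d) → ℂ) × ℝ) < q := by exact_mod_cast hq1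
  have hq0 : 0 < q := by omega
  refine ⟨Fintype.card (Lab (q + r + 1) (Fin d)), (q + r + 3) * (q + r + 4),
    fun S h L₀ hL₀ Ψ hΨ => ?_⟩
  have hrL : q + r ≤ L₀ := by nlinarith
  have hk : (⟨0, by omega⟩ : Fin d) ≠ ⟨1, by omega⟩ := by simp
  have hpos := nsq_pos hΨ.1
  obtain ⟨f, hf⟩ : ∃ f : Fin (q + r) × Fin (q + r) → Tor L₀, ∀ p, f p =
    (((p.1 : ℕ) : ZMod (L₀ + 1)), ((p.2 : ℕ) : ZMod (L₀ + 1))) := ⟨_, fun _ => rfl⟩
  have hfi : Injective f := by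
    intro p p' hp
    rw [hf, hf] at hp
    have h1 := congrArg ZMod.val (congrArg Prod.fst hp)
    have h2 := congrArg ZMod.val (congrArg Prod.snd hp)
    simp only at h1 h2
    rw [ZMod.val_cast_of_lt (by omega), ZMod.val_cast_of_lt (by omega)] at h1 h2
    exact Prod.ext (Fin.ext h1) (Fin.ext h2)
  obtain ⟨c, hc⟩ : ∃ c : ℂ, c * (starRingEnd ℂ) c = (nsq Ψ : ℂ)⁻¹ :=
    ⟨(√(nsq Ψ)⁻¹ : ℝ), by
      rw [Complex.conj_ofReal, ← Complex.ofReal_mul, Real.mul_self_sqrt (by positivity)]; simp⟩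
  have hne : (nsq Ψ : ℂ) ≠ 0 := by exact_mod_cast hpos.ne'
  obtain ⟨χ, hχ, hχ'⟩ := block hk (m := q + r) (P := R) (by omega) hfi (ee (q := q) hR) (ee_inj hR)
    (fun s => Ψ s * c) (by
      apply Complex.ofReal_injective
      rw [nsq_eq_ptr, ptr_smul, ← nsq_eq_ptr, hc, mul_inv_cancel₀ hne]; simp)
  obtain ⟨A, hA⟩ := contract (WW (⟨0, by omega⟩ : Fin d) ⟨1, by omega⟩ χ)
  refine ⟨A, fun L hL => ?_⟩
  obtain ⟨h1, h2⟩ := grid_est hk hR hq0 χ hχ (rdm R Ψ) (fun a b => by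
      rw [rdm, norm_div, Complex.norm_real, Real.norm_of_nonneg hpos.le, div_le_one hpos]
      exact ptr_norm_le (place_inj hR (by omega)) Ψ a b) (fun a b => by
      rw [hχ']
      have : ∀ j : Fin q × Fin q, ptr (f ∘ ee hR j) (fun s => Ψ s * c) (fun s => Ψ s * c) a b =
          rdm R Ψ a b := by
        intro j
        have e : f ∘ ee hR j = Equiv.addRight (((j.1 : ℕ) : ZMod (L₀ + 1)),
            ((j.2 : ℕ) : ZMod (L₀ + 1))) ∘ place R L₀ 0 := by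
          funext x
          simp only [comp_apply, hf, ee, place, Equiv.coe_addRight]
          ext <;> simp <;> ring
        rw [ptr_smul, hc, e, hΨ.ptr_shift, rdm, div_eq_mul_inv]
      simp [this, sq]) hL (peps A L) (funext fun s => by rw [hA, sum_grid])
  refine ⟨h1, ?_⟩
  have hq' : (1 : ℝ) ≤ q := by exact_mod_cast hq0
  have hr : (0 : ℝ) ≤ r := Nat.cast_nonneg r
  have h3 : 2 * (((q + r + 4 : ℕ) : ℝ) ^ 2 - q ^ 2) / q ^ 2 ≤ 2 * (2 * (r + 4) + (r + 4) ^ 2) / q := by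
    rw [div_le_div_iff₀ (by positivity) (by positivity)]
    push_cast
    have : (0 : ℝ) ≤ (r + 4) ^ 2 * (q * (q - 1)) := by
      have : (0 : ℝ) ≤ q - 1 := by linarith
      positivity
    nlinarith
  calc dist1 (rdm R Ψ) (rdm R (peps A L))
      ≤ ∑ _a : R → Fin d, ∑ _b : R → Fin d, 2 * (2 * ((r : ℝ) + 4) + (r + 4) ^ 2) / q :=
        Finset.sum_le_sum fun a _ => Finset.sum_le_sum fun b _ => (h2 a b).trans h3
    _ = C * (C * (2 * (2 * (r + 4) + (r + 4) ^ 2))) / q := by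
        simp only [Finset.sum_const, card_univ, nsmul_eq_mul, hC]; ring
    _ ≤ ε := by
        rw [div_le_iff₀ (by positivity)]
        rw [div_lt_iff₀ hε] at hq2
        linarith

theorem dist1_tri {d : ℕ} {R : Finset (ℕ × ℕ)} (x y z : (R → Fin d) → (R → Fin d) → ℂ) :
    dist1 x z ≤ dist1 x y + dist1 y z := by
  unfold dist1
  simp only [← Finset.sum_add_distrib]
  exact Finset.sum_le_sum fun a _ => Finset.sum_le_sum fun b _ => norm_sub_le_norm_sub_add_norm_sub _ _ _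

theorem dist1_comm {d : ℕ} {R : Finset (ℕ × ℕ)} (x y : (R → Fin d) → (R → Fin d) → ℂ) :
    dist1 x y = dist1 y x := by
  unfold dist1
  simp only [norm_sub_rev (x _ _)]

theorem main (d : ℕ) (hd : 2 ≤ d) (R : Finset (ℕ × ℕ)) (ε : ℝ) (hε : 0 < ε) :
    ∃ D L₁ : ℕ, ∀ (S : Finset (ℕ × ℕ)) (h : (S → Fin d) → (S → Fin d) → ℂ),
      (∀ L₀ ≥ L₁, ∀ Ψ : St d L₀, SimpleEig h L₀ Ψ →
        ∃ A : Fin d → Fin D → Fin D → Fin D → Fin D → ℂ, ∀ L ≥ L₁,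
          peps A L ≠ 0 ∧ dist1 (rdm R Ψ) (rdm R (peps A L)) ≤ ε) ∧
      ∀ Ψ : ∀ L, St d L, (∀ᶠ L in atTop, SimpleEig h L (Ψ L)) →
        ∀ ρ : (R → Fin d) → (R → Fin d) → ℂ,
          (Tendsto (fun L => rdm R (Ψ L)) atTop (𝓝 ρ) →
            ∃ A : Fin d → Fin D → Fin D → Fin D → Fin D → ℂ, ∀ᶠ L in atTop,
              peps A L ≠ 0 ∧ dist1 (rdm R (Ψ L)) (rdm R (peps A L)) ≤ ε) ∧
          ∀ δ : ℝ, (∀ᶠ L in atTop, dist1 (rdm R (Ψ L)) ρ ≤ δ) →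
            ∃ A : Fin d → Fin D → Fin D → Fin D → Fin D → ℂ, ∀ᶠ L in atTop,
              peps A L ≠ 0 ∧ dist1 (rdm R (Ψ L)) (rdm R (peps A L)) ≤ ε + 2 * δ := by
  obtain ⟨D, L₁, H⟩ := approx d hd R (ε / 2) (half_pos hε)
  refine ⟨D, L₁, fun S h => ⟨fun L₀ h1 Ψ h2 => ?_, fun Ψ h1 ρ => ?_⟩⟩
  · obtain ⟨A, hA⟩ := H S h L₀ h1 Ψ h2
    exact ⟨A, fun L hL => ⟨(hA L hL).1, (hA L hL).2.trans (by linarith)⟩⟩
  have key : ∀ δ : ℝ, (∀ᶠ L in atTop, dist1 (rdm R (Ψ L)) ρ ≤ δ) →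
      ∃ A : Fin d → Fin D → Fin D → Fin D → Fin D → ℂ, ∀ᶠ L in atTop,
        peps A L ≠ 0 ∧ dist1 (rdm R (Ψ L)) (rdm R (peps A L)) ≤ ε / 2 + 2 * δ := by
    intro δ h2
    obtain ⟨L₀, h3, h4, h5⟩ := (h1.and (h2.and (eventually_ge_atTop L₁))).exists
    obtain ⟨A, hA⟩ := H S h L₀ h5 _ h3
    refine ⟨A, ?_⟩
    filter_upwards [h2, eventually_ge_atTop L₁] with L h6 h7
    refine ⟨(hA L h7).1, ?_⟩
    have h8 := dist1_tri (rdm R (Ψ L)) ρ (rdm R (peps A L))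
    have h9 := dist1_tri ρ (rdm R (Ψ L₀)) (rdm R (peps A L))
    rw [dist1_comm ρ (rdm R (Ψ L₀))] at h9
    linarith [(hA L h7).2]
  refine ⟨fun h2 => ?_, fun δ h2 => ?_⟩
  · have hc : Continuous fun x : (R → Fin d) → (R → Fin d) → ℂ => dist1 x ρ := by
      unfold dist1; fun_prop
    have h3 := (hc.tendsto ρ).comp h2
    rw [show dist1 ρ ρ = 0 by simp [dist1]] at h3
    obtain ⟨A, hA⟩ := key (ε / 4) (h3.eventually (eventually_le_nhds (by linarith)))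
    exact ⟨A, hA.mono fun L hL => ⟨hL.1, hL.2.trans (by linarith)⟩⟩
  · obtain ⟨A, hA⟩ := key δ h2
    exact ⟨A, hA.mono fun L hL => ⟨hL.1, hL.2.trans (by linarith)⟩⟩

end Pool.Agent.H41.Peps
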