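import Mathlib

/-! Translation invariant PEPS on the torus and reduced density matrices (definitions). -/

namespace Pool.Agent.H41.Peps

/-- Sites of the torus of side `L + 1`. -/
abbrev Tor (L : ℕ) : Type := ZMod (L + 1) × ZMod (L + 1)

/-- Vectors of `(ℂ^d)^{⊗ sites}`, as functions of the basis configurations. -/
abbrev St (d L : ℕ) : Type := (Tor L → Fin d) → ℂ

/-- The finite region `R`, translated by `t`, placed in the torus. -/
def place (R : Finset (ℕ × ℕ)) (L : ℕ) (t : Tor L) (x : R) : Tor L :=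
  t + ((x.1.1 : ZMod (L + 1)), (x.1.2 : ZMod (L + 1)))

open Classical in
/-- Entry `(a, b)` of the partial trace of `|ψ⟩⟨φ|` over the sites outside the range of `e`. -/
noncomputable def ptr {P V K : Type} [Fintype V] [Fintype K] (e : P → V)
    (ψ φ : (V → K) → ℂ) (a b : P → K) : ℂ :=
  ∑ s : V → K, ∑ s' : V → K,
    if s ∘ e = a ∧ s' ∘ e = b ∧ ∀ v, v ∉ Set.range e → s v = s' v
    then ψ s * (starRingEnd ℂ) (φ s') else 0

open Classical in
/-- Squared norm. -/
noncomputable def nsq {V K : Type} [Fintype V] [Fintype K] (ψ : (V → K) → ℂ) : ℝ :=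
  ∑ s : V → K, ‖ψ s‖ ^ 2

/-- Reduced density matrix on `R` of the normalisation of `ψ`. -/
noncomputable def rdm {d L : ℕ} (R : Finset (ℕ × ℕ)) (ψ : St d L) (a b : R → Fin d) : ℂ :=
  ptr (place R L 0) ψ ψ a b / (nsq ψ : ℂ)

/-- Sum of the absolute values of the entries of `ρ - ρ'` (it dominates the trace norm). -/
noncomputable def dist1 {d : ℕ} {R : Finset (ℕ × ℕ)} (ρ ρ' : (R → Fin d) → (R → Fin d) → ℂ) : ℝ :=
  ∑ a, ∑ b, ‖ρ a b - ρ' a b‖

/-- Translation invariant PEPS of the tensor `A` (physical, left, right, up, down indices). -/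
noncomputable def peps {d D : ℕ} (A : Fin d → Fin D → Fin D → Fin D → Fin D → ℂ) (L : ℕ) :
    St d L := fun s =>
  ∑ h : Tor L → Fin D, ∑ w : Tor L → Fin D,
    ∏ v, A (s v) (h (v - (1, 0))) (h v) (w (v - (0, 1))) (w v)

open Classical in
/-- `H_L ψ` for `H_L` the sum of all translates of the interaction `h` acting on the region `S`. -/
noncomputable def ham {d : ℕ} {S : Finset (ℕ × ℕ)} (h : (S → Fin d) → (S → Fin d) → ℂ) (L : ℕ)
    (ψ : St d L) : St d L := fun s =>
  ∑ t : Tor L, ∑ s' : Tor L → Fin d,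
    if ∀ v, v ∉ Set.range (place S L t) → s v = s' v
    then h (s ∘ place S L t) (s' ∘ place S L t) * ψ s' else 0

/-- `ψ` spans an eigenspace of `H_L` (for instance, `ψ` is a unique ground state). -/
def SimpleEig {d : ℕ} {S : Finset (ℕ × ℕ)} (h : (S → Fin d) → (S → Fin d) → ℂ) (L : ℕ)
    (ψ : St d L) : Prop :=
  ψ ≠ 0 ∧ ∃ E : ℂ, ham h L ψ = E • ψ ∧ ∀ φ : St d L, ham h L φ = E • φ → ∃ c : ℂ, φ = c • ψ

end Pool.Agent.H41.Peps
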