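import Pool.Agent.H41.PlDefs

set_option autoImplicit false
open Set Metric MeasureTheory Filter Topology

/- Dense subgroups of the line covered by countably many closed null sets are not plastic. -/

namespace Pool.Agent.H41.Pl

structure Bx where
  p : ℝ
  c : ℝ
  q : ℝ
  d : ℝ

inductive St (H : Set ℝ) : ℝ → ℝ → ℝ → ℝ → Set Bx → Set (ℝ × ℝ) → Prop
  | hor (p c q : ℝ) : p ≤ q → c ∈ H → St H p c q c ∅ (Icc p q ×ˢ {c})
  | box (r : Bx) : r.p < r.q → r.c < r.d → r.c ∈ H → r.d ∈ H →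
      St H r.p r.c r.q r.d {r} {(r.p, r.c), (r.q, r.d)}
  | trans {p c q d s e : ℝ} {R R' : Set Bx} {Γ Γ' : Set (ℝ × ℝ)} :
      St H p c q d R Γ → St H q d s e R' Γ' → St H p c s e (R ∪ R') (Γ ∪ Γ')

variable {H : Set ℝ} {p c q d : ℝ} {R : Set Bx} {Γ : Set (ℝ × ℝ)}

lemma St.basic (h : St H p c q d R Γ) : (p, c) ∈ Γ ∧ (q, d) ∈ Γ ∧
    ∀ z ∈ Γ, p ≤ z.1 ∧ z.1 ≤ q ∧ c ≤ z.2 ∧ z.2 ≤ d ∧ z.2 ∈ H := by
  induction h with
  | hor p c q h hc =>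
    refine ⟨⟨⟨le_rfl, h⟩, rfl⟩, ⟨⟨h, le_rfl⟩, rfl⟩, ?_⟩
    rintro ⟨u, v⟩ ⟨h1, rfl⟩
    exact ⟨h1.1, h1.2, le_rfl, le_rfl, hc⟩
  | box r h1 h2 h3 h4 =>
    refine ⟨by simp, by simp, ?_⟩
    rintro z (rfl | rfl)
    exacts [⟨le_rfl, h1.le, le_rfl, h2.le, h3⟩, ⟨h1.le, le_rfl, h2.le, le_rfl, h4⟩]
  | trans _ _ a b =>
    refine ⟨Or.inl a.1, Or.inr b.2.1, ?_⟩
    have a' := a.2.2 _ a.1
    have b' := b.2.2 _ b.1
    rintro z (hz | hz)
    · have := a.2.2 z hz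
      exact ⟨this.1, this.2.1.trans b'.2.1, this.2.2.1, this.2.2.2.1.trans b'.2.2.2.1, this.2.2.2.2⟩
    · have := b.2.2 z hz
      exact ⟨a'.2.1.trans this.1, this.2.1, a'.2.2.2.1.trans this.2.2.1, this.2.2.2⟩

lemma St.mono (h : St H p c q d R Γ) : ∀ z ∈ Γ, ∀ w ∈ Γ, z.1 ≤ w.1 → z.2 ≤ w.2 := by
  induction h with
  | hor p c q h hc =>
    rintro z ⟨-, hz⟩ w ⟨-, hw⟩ -
    exact (hz.trans hw.symm).le
  | box r h1 h2 h3 h4 =>
    rintro z (rfl | rfl) w (rfl | rfl) h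
    exacts [le_rfl, h2.le, absurd h h1.not_ge, le_rfl]
  | trans ha hb a b =>
    rintro z (hz | hz) w (hw | hw) h
    · exact a z hz w hw h
    · exact (ha.basic.2.2 z hz).2.2.2.1.trans (hb.basic.2.2 w hw).2.2.1
    · exact (b z hz _ hb.basic.1 (h.trans (ha.basic.2.2 w hw).2.1)).trans
        (a _ ha.basic.2.1 w hw ((hb.basic.2.2 z hz).1.trans h))
    · exact b z hz w hw h

lemma St.cov (h : St H p c q d R Γ) (t : ℝ) : ∀ x ∈ Icc (p + t * c) (q + t * d),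
    (∃ z ∈ Γ, z.1 + t * z.2 = x) ∨ ∃ r ∈ R, x ∈ Icc (r.p + t * r.c) (r.q + t * r.d) := by
  induction h with
  | hor p c q h hc =>
    intro x hx
    exact Or.inl ⟨(x - t * c, c), ⟨⟨by linarith [hx.1], by linarith [hx.2]⟩, rfl⟩, by ring⟩
  | box r h1 h2 h3 h4 => exact fun x hx => Or.inr ⟨r, rfl, hx⟩
  | @trans p c q d s e _ _ _ _ ha hb a b =>
    intro x hx
    rcases le_total x (q + t * d) with h | h
    · rcases a x ⟨hx.1, h⟩ with ⟨z, hz, e⟩ | ⟨r, hr, e⟩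
      exacts [Or.inl ⟨z, Or.inl hz, e⟩, Or.inr ⟨r, Or.inl hr, e⟩]
    · rcases b x ⟨h, hx.2⟩ with ⟨z, hz, e⟩ | ⟨r, hr, e⟩
      exacts [Or.inl ⟨z, Or.inr hz, e⟩, Or.inr ⟨r, Or.inr hr, e⟩]

lemma St.refine (h : St H p c q d R Γ) (P : Bx → Prop)
    (hP : ∀ r : Bx, r.p < r.q → r.c < r.d → r.c ∈ H → r.d ∈ H →
      ∃ R Γ, St H r.p r.c r.q r.d R Γ ∧ ∀ r ∈ R, P r) :
    ∃ R' Γ', St H p c q d R' Γ' ∧ Γ ⊆ Γ' ∧ ∀ r ∈ R', P r := by
  induction h with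
  | hor p c q h hc => exact ⟨_, _, .hor p c q h hc, subset_rfl, by simp⟩
  | box r h1 h2 h3 h4 =>
    obtain ⟨R, Γ, a, b⟩ := hP r h1 h2 h3 h4
    refine ⟨R, Γ, a, ?_, b⟩
    rintro z (rfl | rfl)
    exacts [a.basic.1, a.basic.2.1]
  | trans _ _ a b =>
    obtain ⟨R, Γ, a1, a2, a3⟩ := a
    obtain ⟨R', Γ', b1, b2, b3⟩ := b
    exact ⟨_, _, a1.trans b1, union_subset_union a2 b2, fun r hr => hr.elim (a3 r) (b3 r)⟩

lemma step (hH : Dense H) {K : Set ℝ} (hK : IsClosed K) (hK0 : volume K = 0) (hpq : p < q)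
    (hcd : c < d) (hc : c ∈ H) (hd : d ∈ H) : ∃ R Γ, St H p c q d R Γ ∧
      ∀ r ∈ R, Disjoint (Icc r.p r.q) K ∧ Disjoint (Icc (r.p + r.c) (r.q + r.d)) K := by
  obtain ⟨U, hKU, hU, hUv⟩ := K.exists_isOpen_lt_of_lt (μ := volume)
    (ENNReal.ofReal ((q - p) / 2)) (by rw [hK0]; exact ENNReal.ofReal_pos.2 (by linarith))
  have hfin : ∀ x, volume (U ∩ Iic x) ≠ ⊤ := fun x =>
    ((measure_mono inter_subset_left).trans_lt (hUv.trans_le le_top)).ne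
  let m : ℝ → ℝ := fun x => volume.real (U ∩ Iic x)
  have m0 : ∀ x, 0 ≤ m x := fun x => measureReal_nonneg
  have m1 : ∀ x, m x ≤ (q - p) / 2 := fun x => ENNReal.toReal_le_of_le_ofReal (by linarith)
    ((measure_mono inter_subset_left).trans hUv.le)
  have m2 : ∀ x y, x ≤ y → m x ≤ m y := fun x y h =>
    measureReal_mono (inter_subset_inter_right _ (Iic_subset_Iic.2 h)) (hfin y)
  have m3 : ∀ x y, x ≤ y → Ioc x y ⊆ U → m x + (y - x) ≤ m y := fun x y h h' => by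
    rw [← Real.volume_real_Ioc_of_le h, ← measureReal_union _ measurableSet_Ioc (hfin x) (by simp)]
    · refine measureReal_mono (union_subset (inter_subset_inter_right _ (Iic_subset_Iic.2 h))
        fun z hz => ⟨h' hz, hz.2⟩) (hfin y)
    · exact Set.disjoint_left.2 fun z a b => b.1.not_ge a.2
  set η := (q - p) / 2 / (d - c) with hη
  have η0 : 0 < η := by positivity
  have η1 : η * (d - c) = (q - p) / 2 := div_mul_cancel₀ _ (sub_pos.2 hcd).ne'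
  let G : Bx → Prop := fun r => Disjoint (Icc r.p r.q) K ∧ Disjoint (Icc (r.p + r.c) (r.q + r.d)) K
  let I : ℝ → ℝ → Prop := fun u v => (∃ R Γ, St H p c u v R Γ ∧ ∀ r ∈ R, G r) ∧ v ≤ d ∧
    u - p ≤ m (u + v) + η * (v - c)
  have hq : ∀ u v, I u v → u ≤ q := fun u v h => by
    nlinarith [h.2.2, m1 (u + v), h.2.1]
  have hor : ∀ u v u', (∃ R Γ, St H p c u v R Γ ∧ ∀ r ∈ R, G r) → u ≤ u' →
      ∃ R Γ, St H p c u' v R Γ ∧ ∀ r ∈ R, G r := by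
    rintro u v u' ⟨R, Γ, a, b⟩ h
    exact ⟨_, _, a.trans (.hor u v u' h (a.basic.2.2 _ a.basic.2.1).2.2.2.2), by simpa using b⟩
  by_contra hcon
  have hne : ∀ u, ¬ I u d := fun u h => hcon (hor u d q h.1 (hq u d h))
  let S : Set ℝ := {x | ∃ u v, I u v ∧ u + v = x}
  have S0 : S.Nonempty := ⟨_, p, c, ⟨⟨_, _, .hor p c p le_rfl hc, by simp⟩, hcd.le,
    by simpa using m0 _⟩, rfl⟩
  have S1 : BddAbove S := ⟨q + d, by
    rintro _ ⟨u, v, h, rfl⟩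
    exact add_le_add (hq u v h) h.2.1⟩
  have S2 : ∀ u v, I u v → u + v ≤ sSup S := fun u v h => le_csSup S1 ⟨u, v, h, rfl⟩
  by_cases hs : sSup S ∈ U
  · obtain ⟨ρ, ρ0, hρ⟩ := Metric.isOpen_iff.1 hU _ hs
    obtain ⟨_, ⟨u, v, h, rfl⟩, hx⟩ := exists_lt_of_lt_csSup S0 (sub_lt_self _ ρ0)
    have h1 := S2 u v h
    have h2 := m3 (u + v) (sSup S + ρ / 2) (by linarith) fun z hz => hρ (by
      rw [Real.ball_eq_Ioo]; exact ⟨by linarith [hz.1], by linarith [hz.2]⟩)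
    have := S2 (sSup S + ρ / 2 - v) v ⟨hor u v _ h.1 (by linarith), h.2.1, by
      rw [sub_add_cancel]; linarith [h.2.2]⟩
    linarith
  obtain ⟨ρ, ρ0, hρ⟩ := Metric.isOpen_iff.1 hK.isOpen_compl _ fun h => hs (hKU h)
  obtain ⟨_, ⟨u, v, h, rfl⟩, hx⟩ := exists_lt_of_lt_csSup S0 (sub_lt_self _ ρ0)
  have h1 := S2 u v h
  have hv : v < d := lt_of_le_of_ne h.2.1 fun e => hne u (e ▸ h)
  obtain ⟨w, w1, w2, w3, w4, w5⟩ : ∃ w ∈ H, v < w ∧ w ≤ d ∧ u + w < sSup S + ρ / 2 ∧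
      (w = d ∨ sSup S < u + w) := by
    by_cases e : u + d < sSup S + ρ / 2
    · exact ⟨d, hd, hv, le_rfl, e, Or.inl rfl⟩
    · obtain ⟨w, a, b⟩ := hH.exists_mem_open isOpen_Ioo
        (nonempty_Ioo.2 (show sSup S - u < sSup S + ρ / 2 - u by linarith))
      exact ⟨w, a, by linarith [b.1], by linarith [b.2], by linarith [b.2],
        Or.inr (by linarith [b.1])⟩
  have τ0 : 0 < min (ρ / 2) (η * (w - v)) := lt_min (by linarith) (mul_pos η0 (by linarith))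
  obtain ⟨y, y1, y2⟩ : (Ioo u (u + min (ρ / 2) (η * (w - v))) ∩ Kᶜ).Nonempty := by
    rw [← not_disjoint_iff_nonempty_inter, disjoint_compl_right_iff_subset]
    intro e
    have := measure_mono_null e hK0
    rw [Real.volume_Ioo, ENNReal.ofReal_eq_zero] at this
    linarith
  obtain ⟨σ, σ0, hσ⟩ := Metric.isOpen_iff.1 (isOpen_Ioo.inter hK.isOpen_compl) y ⟨y1, y2⟩
  have y3 := (hσ (show y + σ / 2 ∈ ball y σ by
    rw [Real.ball_eq_Ioo]; exact ⟨by linarith, by linarith⟩)).1.2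
  have y4 := min_le_left (ρ / 2) (η * (w - v))
  have y5 := min_le_right (ρ / 2) (η * (w - v))
  obtain ⟨R, Γ, a, b⟩ := hor u v y h.1 y1.1.le
  have hI : I (y + σ / 2) w := by
    refine ⟨⟨_, _, a.trans (.box ⟨y, v, y + σ / 2, w⟩ (by simpa using σ0) w2
      (a.basic.2.2 _ a.basic.2.1).2.2.2.2 w1), ?_⟩, w3, ?_⟩
    · rintro r (hr | rfl)
      · exact b r hr
      · refine ⟨Set.disjoint_left.2 fun z hz => (hσ ?_).2, Set.disjoint_left.2 fun z hz => hρ ?_⟩ <;>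
          rw [Real.ball_eq_Ioo] <;> simp only [mem_Icc] at hz
        · exact ⟨by linarith, by linarith⟩
        · exact ⟨by linarith [y1.1], by linarith⟩
    · have := m2 (u + v) (y + σ / 2 + w) (by linarith [y1.1])
      nlinarith [h.2.2]
  rcases w5 with rfl | w5
  · exact hne _ hI
  · linarith [S2 _ _ hI, y1.1]

theorem not_plastic_of_cover (H : AddSubgroup ℝ) (hH : Dense (H : Set ℝ)) (K : ℕ → Set ℝ)
    (hK : ∀ n, IsClosed (K n) ∧ volume (K n) = 0) (hc : (H : Set ℝ) ⊆ ⋃ n, K n) :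
    ¬ Plastic H := by
  obtain ⟨h, hh, h0⟩ := hH.exists_mem_open isOpen_Ioi (nonempty_Ioi (a := (0 : ℝ)))
  have h0 : 0 < h := h0
  let T := {s : Set Bx × Set (ℝ × ℝ) // St H 0 0 1 h s.1 s.2}
  have hs : ∀ (n : ℕ) (s : T), ∃ s' : T, s.1.2 ⊆ s'.1.2 ∧ ∀ r ∈ s'.1.1,
      Disjoint (Icc r.p r.q) (K n) ∧ Disjoint (Icc (r.p + r.c) (r.q + r.d)) (K n) := by
    intro n s
    obtain ⟨R, Γ, a, b, c⟩ := s.2.refine _ fun r a b c d => step hH (hK n).1 (hK n).2 a b c d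
    exact ⟨⟨(R, Γ), a⟩, b, c⟩
  choose nx h1 h2 using hs
  let s : ℕ → T := fun n => Nat.rec ⟨(_, _), .box ⟨0, 0, 1, h⟩ one_pos h0 H.zero_mem hh⟩
    (fun n s => nx n s) n
  have sm : Monotone fun n => (s n).1.2 := monotone_nat_of_le_succ fun n => h1 n (s n)
  let Γ : Set (ℝ × ℝ) := {z | (∃ n, z ∈ (s n).1.2) ∨ (z.1 ≤ 0 ∧ z.2 = 0) ∨ (1 ≤ z.1 ∧ z.2 = h)}
  have ΓH : ∀ z ∈ Γ, z.2 ∈ H := by
    rintro z (⟨n, hz⟩ | ⟨-, hz⟩ | ⟨-, hz⟩)
    exacts [((s n).2.basic.2.2 z hz).2.2.2.2, hz ▸ H.zero_mem, hz ▸ hh]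
  have Γm : ∀ z ∈ Γ, ∀ w ∈ Γ, z.1 ≤ w.1 → z.2 ≤ w.2 := by
    rintro z (⟨n, hz⟩ | ⟨hz, hz'⟩ | ⟨hz, hz'⟩) w (⟨k, hw⟩ | ⟨hw, hw'⟩ | ⟨hw, hw'⟩) e
    · exact (s (max n k)).2.mono z (sm (le_max_left _ _) hz) w (sm (le_max_right _ _) hw) e
    · exact hw' ▸ (s n).2.mono z hz _ (s n).2.basic.1 (e.trans hw)
    · exact hw' ▸ ((s n).2.basic.2.2 z hz).2.2.2.1
    · exact hz' ▸ ((s k).2.basic.2.2 w hw).2.2.1
    all_goals try linarith
    exact hz' ▸ (s k).2.mono _ (s k).2.basic.2.1 w hw (hz.trans e)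
  have cov : ∀ t : ℝ, (t = 0 ∨ t = 1) → ∀ x : H, ∃ z ∈ Γ, z.1 + t * z.2 = x := by
    intro t ht x
    by_cases a : (x : ℝ) ≤ 0
    · exact ⟨(x, 0), Or.inr (Or.inl ⟨a, rfl⟩), by simp⟩
    by_cases b : 1 + t * h ≤ x
    · exact ⟨(x - t * h, h), Or.inr (Or.inr ⟨by simp only; linarith, rfl⟩), by simp⟩
    obtain ⟨n, hn⟩ := mem_iUnion.1 (hc x.2)
    rcases (s (n + 1)).2.cov t x ⟨by linarith, by linarith⟩ with ⟨z, hz, e⟩ | ⟨r, hr, e⟩
    · exact ⟨z, Or.inl ⟨n + 1, hz⟩, e⟩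
    · have := h2 n (s n) r hr
      rcases ht with rfl | rfl
      · exact absurd hn (Set.disjoint_left.1 this.1 (by simpa using e))
      · exact absurd hn (Set.disjoint_left.1 this.2 (by simpa using e))
  choose g g1 g2 using cov 1 (Or.inr rfl)
  simp only [one_mul] at g2
  let f : H → H := fun x => ⟨(g x).1, by
    rw [eq_sub_of_add_eq (g2 x)]
    exact H.sub_mem x.2 (ΓH _ (g1 x))⟩
  have key : ∀ (x : H) (z : ℝ × ℝ), z ∈ Γ → z.1 + z.2 = x → g x = z := fun x z a b => by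
    have e : (g x).1 = z.1 := by
      rcases le_total (g x).1 z.1 with c | c
      · rcases c.eq_or_lt with c | c'
        exacts [c, by linarith [Γm _ (g1 x) z a c, g2 x]]
      · rcases c.eq_or_lt with c | c'
        exacts [c.symm, by linarith [Γm _ a _ (g1 x) c, g2 x]]
    exact Prod.ext e (by linarith [g2 x])
  have ne : ∀ x y : H, (x : ℝ) ≤ y → (g x).1 ≤ (g y).1 ∧ (g x).2 ≤ (g y).2 := fun x y e => by
    rcases le_total (g x).1 (g y).1 with c | c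
    · exact ⟨c, Γm _ (g1 x) _ (g1 y) c⟩
    · have := Γm _ (g1 y) _ (g1 x) c
      constructor <;> linarith [g2 x, g2 y]
  obtain ⟨y, hy, y1⟩ := hH.exists_mem_open isOpen_Ioi (nonempty_Ioi (a := (1 : ℝ)))
  have y1 : 1 < y := y1
  intro hp
  have := hp f ⟨fun x y e => ?_, fun y => ?_⟩ (fun x y => ?_) 0 ⟨y + h, H.add_mem hy hh⟩
  · rw [Subtype.dist_eq, Subtype.dist_eq] at this
    simp only [f, key 0 (0, 0) (Or.inr (Or.inl ⟨le_rfl, rfl⟩)) (by simp),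
      key ⟨y + h, H.add_mem hy hh⟩ (y, h) (Or.inr (Or.inr ⟨y1.le, rfl⟩)) rfl, Real.dist_eq,
      ZeroMemClass.coe_zero, zero_sub, abs_neg] at this
    rw [abs_of_pos (by linarith), abs_of_pos (by linarith)] at this
    linarith
  · have e : (g x).1 = (g y).1 := congrArg Subtype.val e
    refine Subtype.ext ?_
    linarith [Γm _ (g1 x) _ (g1 y) e.le, Γm _ (g1 y) _ (g1 x) e.ge, g2 x, g2 y]
  · obtain ⟨z, hz, e⟩ := cov 0 (Or.inl rfl) y
    have e : z.1 = y := by simpa using e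
    refine ⟨⟨z.1 + z.2, H.add_mem (e ▸ y.2) (ΓH z hz)⟩, Subtype.ext ?_⟩
    exact (congrArg Prod.fst (key ⟨z.1 + z.2, H.add_mem (e ▸ y.2) (ΓH z hz)⟩ z hz rfl)).trans e
  · rw [Subtype.dist_eq, Subtype.dist_eq, Real.dist_eq, Real.dist_eq]
    show |(g x).1 - (g y).1| ≤ _
    rcases le_total (x : ℝ) y with e | e
    · have := ne x y e
      rw [abs_of_nonpos (by linarith), abs_of_nonpos (by linarith)]
      linarith [g2 x, g2 y]
    · have := ne y x e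
      rw [abs_of_nonneg (by linarith), abs_of_nonneg (by linarith)]
      linarith [g2 x, g2 y]

end Pool.Agent.H41.Pl
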