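import Pool.Agent.H41.Pl1

set_option autoImplicit false
open Set Metric MeasureTheory Filter Topology Pointwise

/- A proper analytic subgroup of the line is covered by countably many closed null sets. -/

namespace Pool.Agent.H41.Pl

lemma sub_interior {A B : Set ℝ} (hA : MeasurableSet A) (hB : MeasurableSet B)
    (h1 : volume A ≠ 0) (h2 : volume B ≠ 0) : (interior (A - B)).Nonempty := by
  obtain ⟨t, ht⟩ : ∃ t : ℝ, volume (A ∩ (fun x => x - t) ⁻¹' B) ≠ 0 := by
    by_contra! h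
    have hS : MeasurableSet {z : ℝ × ℝ | z.1 ∈ A ∧ z.1 - z.2 ∈ B} :=
      (measurable_fst hA).inter ((measurable_fst.sub measurable_snd) hB)
    have h3 : (volume.prod volume) {z : ℝ × ℝ | z.1 ∈ A ∧ z.1 - z.2 ∈ B} = 0 := by
      rw [Measure.prod_apply_symm hS]
      exact (lintegral_congr fun t => h t).trans lintegral_zero
    have h4 : ∀ᵐ x : ℝ, volume (Prod.mk x ⁻¹' {z : ℝ × ℝ | z.1 ∈ A ∧ z.1 - z.2 ∈ B}) = 0 :=
      (Measure.measure_prod_null hS).1 h3
    rw [ae_iff] at h4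
    refine h1 (measure_mono_null (fun x hx => ?_) h4)
    refine fun e => h2 ?_
    rw [← (Measure.measurePreserving_sub_left volume x).measure_preimage hB.nullMeasurableSet, ← e]
    congr 1
    ext t
    simp [hx]
  have h := Measure.sub_mem_nhds_zero_of_addHaar_pos volume _
    (hA.inter ((measurable_id.sub_const t) hB)) (pos_iff_ne_zero.2 ht)
  refine ⟨t, mem_interior_iff_mem_nhds.2 ?_⟩
  have h' : ContinuousAt (fun x : ℝ => x - t) t := by fun_prop
  refine mem_of_superset (h'.preimage_mem_nhds (by rw [sub_self]; exact h)) ?_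
  rintro x ⟨a, ha, b, hb, e⟩
  exact ⟨a, ha.1, b - t, hb.2, by simp only at e ⊢; linarith⟩

/-- Fusion: a continuous image that is everywhere somewhere dense is locally residual. -/
lemma fusion {Q : Type*} [PseudoMetricSpace Q] [CompleteSpace Q] [SecondCountableTopology Q]
    {ψ : Q → ℝ} (hψ : Continuous ψ)
    (h : ∀ U : Set Q, IsOpen U → U.Nonempty → (interior (closure (ψ '' U))).Nonempty) :
    ∀ᶠ x in residual ℝ, x ∈ interior (closure (range ψ)) → x ∈ range ψ := by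
  obtain ⟨D, Dc, Dd⟩ := TopologicalSpace.exists_countable_dense Q
  have := Dc.to_subtype
  let O : Set Q → Set ℝ := fun U => interior (closure (ψ '' U))
  let b : D × ℕ → Set Q := fun i => ball i.1.1 (1 / (i.2 + 1))
  have key : ∀ (U : Set Q) (n : ℕ), IsOpen U → ∀ᶠ x in residual ℝ, x ∈ O U →
      ∃ i : D × ℕ, n ≤ i.2 ∧ closedBall i.1.1 (1 / (i.2 + 1)) ⊆ U ∧ x ∈ O (b i) := by
    intro U n hU
    let W := ⋃ i : {i : D × ℕ // n ≤ i.2 ∧ closedBall i.1.1 (1 / (i.2 + 1)) ⊆ U}, O (b i)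
    have hW : IsOpen W := isOpen_iUnion fun _ => isOpen_interior
    refine mem_of_superset (residual_of_dense_open (hW.union
      (isClosed_closure (s := O U)).isOpen_compl) ?_) ?_
    · refine dense_iff_inter_open.2 fun V hV hV' => ?_
      by_contra hc
      rw [not_nonempty_iff_eq_empty, inter_union_distrib_left, union_empty_iff] at hc
      obtain ⟨x, hx⟩ := hV'
      have h1 : x ∈ closure (O U) := by_contra fun e => (hc.2 ▸ ⟨hx, e⟩ : x ∈ (∅ : Set ℝ))
      obtain ⟨y, y1, y2⟩ := mem_closure_iff.1 h1 V hV hx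
      obtain ⟨_, z1, z, z2, rfl⟩ := mem_closure_iff.1 (interior_subset y2) V hV y1
      obtain ⟨V', V1, V2, V3⟩ := exists_mem_nhds_isClosed_subset (hV.mem_nhds z1)
      obtain ⟨ε, ε0, hε⟩ := Metric.mem_nhds_iff.1
        (inter_mem (hU.mem_nhds z2) (hψ.continuousAt.preimage_mem_nhds V1))
      obtain ⟨k, hk⟩ := exists_nat_one_div_lt (half_pos ε0)
      have hk' : (1 : ℝ) / ((max k n : ℕ) + 1) < ε / 2 :=
        (Nat.one_div_le_one_div (le_max_left k n)).trans_lt hk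
      obtain ⟨e, e1, e2⟩ := Dd.exists_dist_lt z (half_pos ε0)
      have hs : closedBall e (1 / ((max k n : ℕ) + 1)) ⊆ ball z ε :=
        closedBall_subset_ball' (by rw [dist_comm]; linarith)
      obtain ⟨w, hw⟩ := h (b (⟨e, e1⟩, max k n)) isOpen_ball (nonempty_ball.2 (by positivity))
      have w1 : w ∈ V := V3 (V2.closure_subset_iff.2 (by
        rintro _ ⟨a, ha, rfl⟩
        exact (hε (hs (ball_subset_closedBall ha))).2) (interior_subset hw))
      exact (hc.1 ▸ ⟨w1, mem_iUnion.2 ⟨⟨(⟨e, e1⟩, max k n), le_max_right _ _,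
        fun a ha => (hε (hs ha)).1⟩, hw⟩⟩ : w ∈ (∅ : Set ℝ))
    · rintro x (hx | hx) h1
      · obtain ⟨i, hi⟩ := mem_iUnion.1 hx
        exact ⟨i, i.2.1, i.2.2, hi⟩
      · exact absurd (subset_closure h1) hx
  filter_upwards [key univ 0 isOpen_univ, eventually_countable_forall.2
    fun i : (D × ℕ) × ℕ => key (b i.1) i.2 isOpen_ball] with x h0 h1 hx
  obtain ⟨i0, -, -, hi0⟩ := h0 (by simpa [O] using hx)
  choose nx a1 a2 a3 using fun (n : ℕ) (i : {i // x ∈ O (b i)}) => h1 (i.1, n) i.2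
  let s : ℕ → {i // x ∈ O (b i)} := fun n => Nat.rec ⟨i0, hi0⟩ (fun n i => ⟨nx n i, a3 n i⟩) n
  let C : ℕ → Set Q := fun n => closedBall (s (n + 1)).1.1.1 (1 / ((s (n + 1)).1.2 + 1))
  have hC : Antitone C := antitone_nat_of_succ_le fun n =>
    (a2 (n + 1) (s (n + 1))).trans ball_subset_closedBall
  have hr : Tendsto (fun n => (1 : ℝ) / ((s (n + 1)).1.2 + 1)) atTop (𝓝 0) :=
    squeeze_zero (fun _ => by positivity) (fun n => Nat.one_div_le_one_div (a1 n (s n)))
      tendsto_one_div_add_atTop_nhds_zero_nat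
  obtain ⟨q, hq⟩ := Metric.nonempty_iInter_of_nonempty_biInter (s := C)
    (fun _ => isClosed_closedBall) (fun _ => isBounded_closedBall)
    (fun N => ⟨_, mem_iInter₂.2 fun n hn => hC hn (mem_closedBall_self (by positivity))⟩)
    (squeeze_zero (fun _ => diam_nonneg) (fun n => diam_closedBall (by positivity))
      (by simpa using hr.const_mul 2))
  refine ⟨q, eq_of_forall_dist_le fun ε hε => ?_⟩
  obtain ⟨δ, δ0, hδ⟩ := Metric.continuousAt_iff.1 (hψ.continuousAt (x := q)) ε hε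
  obtain ⟨n, hn⟩ := (hr.eventually (gt_mem_nhds (half_pos δ0))).exists
  rw [dist_comm]
  refine (isClosed_closedBall (x := ψ q) (ε := ε)).closure_subset_iff.2 ?_
    (interior_subset (s (n + 1)).2)
  rintro _ ⟨a, ha, rfl⟩
  have h2 : dist q _ ≤ _ := mem_iInter.1 hq n
  have h3 : dist a _ < _ := ha
  exact (hδ (by linarith [dist_triangle_right a q (s (n + 1)).1.1.1])).le

theorem laczkovich (H : AddSubgroup ℝ) (hH : Dense (H : Set ℝ)) (hA : AnalyticSet (H : Set ℝ))
    (hne : H ≠ ⊤) : ∃ K : ℕ → Set ℝ, (∀ n, IsClosed (K n) ∧ volume (K n) = 0) ∧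
      (H : Set ℝ) ⊆ ⋃ n, K n := by
  obtain ⟨Z, _, _, φ, hφ, hZ⟩ := analyticSet_iff_exists_polishSpace_range.1 hA
  let E : Set ℝ → Prop := fun A => ∃ K : Set (Set ℝ), K.Countable ∧
    (∀ C ∈ K, IsClosed C ∧ volume C = 0) ∧ A ⊆ ⋃₀ K
  suffices h : E H by
    obtain ⟨K, h1, h2, h3⟩ := h
    obtain ⟨f, rfl⟩ := h1.exists_eq_range (by
      obtain ⟨C, hC, -⟩ := h3 H.zero_mem
      exact ⟨C, hC⟩)
    exact ⟨f, fun n => h2 _ ⟨n, rfl⟩, by rwa [sUnion_range] at h3⟩
  by_contra hE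
  let S : Set (Set Z) := {U | IsOpen U ∧ E (φ '' U)}
  have hS : E (φ '' ⋃₀ S) := by
    obtain ⟨T, T1, T2, T3⟩ := TopologicalSpace.isOpen_sUnion_countable S fun U hU => hU.1
    choose! K K1 K2 K3 using fun U (hU : U ∈ T) => (T2 hU).2
    refine ⟨⋃ U ∈ T, K U, T1.biUnion K1, fun C hC => ?_, ?_⟩
    · obtain ⟨U, hU, hC⟩ := mem_iUnion₂.1 hC
      exact K2 U hU C hC
    · rw [← T3]
      rintro _ ⟨z, ⟨U, hU, hz⟩, rfl⟩
      obtain ⟨C, hC, h⟩ := K3 U hU ⟨z, hz, rfl⟩
      exact ⟨C, mem_iUnion₂.2 ⟨U, hU, hC⟩, h⟩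
  have hP : IsClosed (⋃₀ S)ᶜ := (isOpen_sUnion fun U hU => hU.1).isClosed_compl
  let P := ((⋃₀ S)ᶜ : Set Z)
  have hpos : ∀ V : Set P, IsOpen V → V.Nonempty →
      volume (closure ((fun y : P => φ y) '' V)) ≠ 0 := by
    rintro _ ⟨U, hU, rfl⟩ ⟨y, hy⟩ h0
    obtain ⟨K, h1, h2, h3⟩ := hS
    refine y.2 ⟨U, ⟨hU, insert (closure ((fun y : P => φ y) '' (Subtype.val ⁻¹' U))) K,
      h1.insert _, ?_, ?_⟩, hy⟩
    · rintro C (rfl | hC)
      exacts [⟨isClosed_closure, h0⟩, h2 C hC]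
    · rintro _ ⟨z, hz, rfl⟩
      by_cases e : z ∈ ⋃₀ S
      · obtain ⟨C, hC, h⟩ := h3 ⟨z, e, rfl⟩
        exact ⟨C, Or.inr hC, h⟩
      · exact ⟨_, Or.inl rfl, subset_closure ⟨⟨z, e⟩, hz, rfl⟩⟩
  have hPne : Nonempty P := by
    by_contra e
    have : ⋃₀ S = univ := eq_univ_of_forall fun z => by_contra fun h => e ⟨⟨z, h⟩⟩
    exact hE (by rwa [this, image_univ, hZ] at hS)
  have := hP.polishSpace
  let _ := TopologicalSpace.upgradeIsCompletelyMetrizable (P × P)
  have hψ : Continuous fun y : P × P => φ y.1 - φ y.2 := by fun_prop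
  have hint : ∀ U : Set (P × P), IsOpen U → U.Nonempty →
      (interior (closure ((fun y : P × P => φ y.1 - φ y.2) '' U))).Nonempty := by
    rintro U hU ⟨⟨y, z⟩, h⟩
    obtain ⟨V, W, hV, hW, h1, h2, h3⟩ := isOpen_prod_iff.1 hU y z h
    refine (sub_interior isClosed_closure.measurableSet isClosed_closure.measurableSet
      (hpos V hV ⟨y, h1⟩) (hpos W hW ⟨z, h2⟩)).mono (interior_mono ?_)
    rintro _ ⟨a, ha, b, hb, rfl⟩
    refine map_mem_closure₂ continuous_sub ha hb ?_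
    rintro _ ⟨a, ha, rfl⟩ _ ⟨b, hb, rfl⟩
    exact ⟨(a, b), h3 ⟨ha, hb⟩, rfl⟩
  have hf := fusion hψ hint
  obtain ⟨x, hx⟩ := hint univ isOpen_univ univ_nonempty
  rw [image_univ] at hx
  have hsub : range (fun y : P × P => φ y.1 - φ y.2) ⊆ H := by
    rintro _ ⟨y, rfl⟩
    exact H.sub_mem (hZ ▸ mem_range_self _ : _ ∈ (H : Set ℝ)) (hZ ▸ mem_range_self _ : _ ∈ (H : Set ℝ))
  refine hne (eq_top_iff.2 fun t _ => ?_)
  obtain ⟨d, hd, d1⟩ := hH.exists_mem_open
    (isOpen_interior.preimage (show Continuous fun d : ℝ => x + t - d by fun_prop))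
    ⟨t, by simpa using hx⟩
  have h2 := tendsto_residual_of_isOpenMap (Homeomorph.addRight (t - d)).continuous
    (Homeomorph.addRight (t - d)).isOpenMap hf
  obtain ⟨y, y1, y2, y3⟩ := (dense_of_mem_residual (inter_mem hf h2)).inter_open_nonempty _
    (isOpen_interior.inter (isOpen_interior.preimage
      (show Continuous fun y : ℝ => y + (t - d) by fun_prop)))
    ⟨x, hx, by rw [mem_preimage, ← add_sub_assoc]; exact d1⟩
  have := H.add_mem (H.sub_mem (hsub (y3 y1.2)) (hsub (y2 y1.1))) hd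
  simpa using this

theorem not_plastic (H : AddSubgroup ℝ) (hH : Dense (H : Set ℝ)) (hA : AnalyticSet (H : Set ℝ)) :
    ¬ Plastic H := by
  by_cases h : H = ⊤
  · subst h
    intro hp
    have := hp (fun x => ⟨x / 2, trivial⟩) ⟨fun x y e => Subtype.ext (by
      have := congrArg Subtype.val e
      simp only at this
      linarith), fun y => ⟨⟨2 * y, trivial⟩, Subtype.ext (by simp)⟩⟩ (fun x y => by
        simp only [Subtype.dist_eq, Real.dist_eq, ← sub_div, abs_div, abs_two]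
        exact half_le_self (abs_nonneg _)) 0 ⟨1, trivial⟩
    norm_num [Subtype.dist_eq, Real.dist_eq] at this
  obtain ⟨K, h1, h2⟩ := laczkovich H hH hA h
  exact not_plastic_of_cover H hH K h1 h2

end Pool.Agent.H41.Pl
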