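import Pool.Agent.H41.PlDefs

set_option autoImplicit false
open Set Metric Filter Topology Cardinal

/- A Sierpinski-type lemma and a transfinite construction of a plastic dense subgroup. -/

namespace Pool.Agent.H41.Pl

lemma sierp {Y : Type*} (L : ℝ → Y) (hc : ∀ y, IsClosed (L ⁻¹' {y}))
    (h : ∀ N : Set ℝ, IsClosed N → N.Nonempty → ∃ V : Set ℝ, IsOpen V ∧ (N ∩ V).Nonempty ∧
      ∃ y, ∀ t ∈ N ∩ V, L t = y) (s t : ℝ) : L s = L t := by
  let _ : TopologicalSpace Y := ⊥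
  have : DiscreteTopology Y := ⟨rfl⟩
  let U : Set ℝ := {t | ∀ᶠ s in 𝓝 t, L s = L t}
  have hU : IsOpen U := isOpen_iff_mem_nhds.2 fun t ht => by
    filter_upwards [eventually_eventually_nhds.2 ht] with s hs
    filter_upwards [hs] with r hr using hr.trans hs.self_of_nhds.symm
  have hcon : ContinuousOn L U := fun t ht =>
    (continuousAt_const.congr (EventuallyEq.symm ht)).continuousWithinAt
  suffices hN : ∀ t, t ∈ U from
    isPreconnected_univ.constant (hcon.mono fun t _ => hN t) trivial trivial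
  by_contra! hN
  obtain ⟨V, hV, ⟨t₀, h0, h0'⟩, y, hy⟩ := h Uᶜ hU.isClosed_compl hN
  obtain ⟨ε, ε0, hε⟩ := Metric.isOpen_iff.1 hV t₀ h0'
  apply h0
  filter_upwards [ball_mem_nhds t₀ ε0] with r hr
  rw [hy t₀ ⟨h0, h0'⟩]
  by_contra hne
  let W := ball t₀ ε ∩ (L ⁻¹' {y})ᶜ
  have hW : IsOpen W := isOpen_ball.inter (hc y).isOpen_compl
  have hWU : W ⊆ U := fun a ha => by_contra fun e => ha.2 (hy a ⟨e, hε ha.1⟩)
  have hC : connectedComponentIn W r ⊆ L ⁻¹' {L r} := fun a ha =>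
    isPreconnected_connectedComponentIn.constant
      (hcon.mono ((connectedComponentIn_subset _ _).trans hWU)) ha
      (mem_connectedComponentIn (F := W) ⟨hr, hne⟩)
  have h1 : closure (connectedComponentIn W r) ∩ ball t₀ ε ⊆ connectedComponentIn W r :=
    (isPreconnected_connectedComponentIn.subset_closure
      (subset_inter subset_closure ((connectedComponentIn_subset _ _).trans inter_subset_left))
      inter_subset_left).subset_connectedComponentIn
      ⟨subset_closure (mem_connectedComponentIn (F := W) ⟨hr, hne⟩), hr⟩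
      fun a ha => ⟨ha.2, fun e => hne (((hc _).closure_subset_iff.2 hC ha.1).symm.trans e)⟩
  have h2 := (convex_ball t₀ ε).isPreconnected.subset_of_closure_inter_subset
    hW.connectedComponentIn ⟨r, hr, mem_connectedComponentIn (F := W) ⟨hr, hne⟩⟩ h1
  exact (connectedComponentIn_subset _ _ (h2 (mem_ball_self ε0))).2 (hy t₀ ⟨h0, h0'⟩)

lemma cantor {E ι : Type} [TopologicalSpace E] [T2Space E] [Finite ι] (φ : ι → ℝ → E)
    (hφ : ∀ n, Continuous (φ n)) {D : Set E} (hD : #D < 𝔠) {N : Set ℝ} (hN : IsClosed N)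
    (hne : N.Nonempty) (hcov : ∀ t ∈ N, ∃ n, φ n t ∈ D) :
    ∃ V : Set ℝ, IsOpen V ∧ (N ∩ V).Nonempty ∧ ∃ n, ∃ g ∈ D, ∀ t ∈ N ∩ V, φ n t = g := by
  by_contra! hcon
  let T := {K : Set ℝ // IsCompact K ∧ (N ∩ interior K).Nonempty}
  have shrink : ∀ (K : T) (a : ℝ) (O : Set ℝ), a ∈ N ∩ interior K.1 → O ∈ 𝓝 a →
      ∃ K' : T, K'.1 ⊆ K.1 ∩ O := fun K a O ha hO => by
    obtain ⟨C, h1, h2, h3⟩ := local_compact_nhds
      (inter_mem (mem_interior_iff_mem_nhds.1 ha.2) hO)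
    exact ⟨⟨C, h3, a, ha.1, mem_interior_iff_mem_nhds.2 h1⟩, h2⟩
  have split : ∀ s : Set ι, ∀ K₀ K₁ : T, ∃ L₀ L₁ : T, L₀.1 ⊆ K₀.1 ∧ L₁.1 ⊆ K₁.1 ∧
      ∀ n ∈ s, ∀ a ∈ N ∩ L₀.1, ∀ b ∈ N ∩ L₁.1, φ n a = φ n b → φ n a ∉ D := by
    intro s
    induction s, s.toFinite using Set.Finite.induction_on with
    | empty => exact fun K₀ K₁ => ⟨K₀, K₁, subset_rfl, subset_rfl, by simp⟩
    | @insert n s _ _ ih =>
      intro K₀ K₁
      obtain ⟨L₀, L₁, a0, a1, a2⟩ := ih K₀ K₁
      obtain ⟨b, hb⟩ := L₁.2.2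
      obtain ⟨M₀, M₁, b0, b1, b2⟩ : ∃ M₀ M₁ : T, M₀.1 ⊆ L₀.1 ∧ M₁.1 ⊆ L₁.1 ∧
          ∀ a ∈ N ∩ M₀.1, ∀ b ∈ N ∩ M₁.1, φ n a = φ n b → φ n a ∉ D := by
        by_cases e : ∃ a ∈ N ∩ interior L₀.1, φ n a ≠ φ n b
        · obtain ⟨a, ha, e⟩ := e
          obtain ⟨u, v, hu, hv, h1, h2, h3⟩ := t2_separation e
          obtain ⟨M₀, m0⟩ := shrink L₀ a _ ha ((hu.preimage (hφ n)).mem_nhds h1)
          obtain ⟨M₁, m1⟩ := shrink L₁ b _ hb ((hv.preimage (hφ n)).mem_nhds h2)
          exact ⟨M₀, M₁, fun x hx => (m0 hx).1, fun x hx => (m1 hx).1, fun x hx y hy q =>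
            absurd (q ▸ (m1 hy.2).2 : φ n x ∈ v) (Set.disjoint_left.1 h3 (m0 hx.2).2)⟩
        · push Not at e
          obtain ⟨a, ha⟩ := L₀.2.2
          obtain ⟨M₀, m0⟩ := shrink L₀ a _ ha (isOpen_interior.mem_nhds ha.2)
          refine ⟨M₀, L₁, fun x hx => (m0 hx).1, subset_rfl, fun x hx y _ _ q => ?_⟩
          obtain ⟨t, ht, q'⟩ := hcon _ isOpen_interior L₀.2.2 n _ q
          exact q' ((e t ht).trans (e x ⟨hx.1, (m0 hx.2).2⟩).symm)
      refine ⟨M₀, M₁, b0.trans a0, b1.trans a1, ?_⟩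
      rintro k (rfl | hk) x hx y hy
      exacts [b2 x hx y hy, a2 k hk x ⟨hx.1, b0 hx.2⟩ y ⟨hy.1, b1 hy.2⟩]
  choose c0 c1 h0 h1 h2 using fun K => split univ K K
  obtain ⟨x0, hx0⟩ := hne
  let s : (ℕ → Bool) → ℕ → T := fun σ n => Nat.rec
    ⟨closedBall x0 1, isCompact_closedBall _ _, x0, hx0,
      mem_interior_iff_mem_nhds.2 (closedBall_mem_nhds _ one_pos)⟩
    (fun k K => bif σ k then c1 K else c0 K) n
  have hs : ∀ σ n, s σ (n + 1) = bif σ n then c1 (s σ n) else c0 (s σ n) := fun _ _ => rfl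
  have he : ∀ σ, (⋂ n, N ∩ (s σ n).1).Nonempty := fun σ =>
    IsCompact.nonempty_iInter_of_sequence_nonempty_isCompact_isClosed _
      (fun n => inter_subset_inter_right _ (by rw [hs]; cases σ n; exacts [h0 _, h1 _]))
      (fun n => (s σ n).2.2.mono (inter_subset_inter_right _ interior_subset))
      ((s σ 0).2.1.inter_left hN) fun n => hN.inter (s σ n).2.1.isClosed
  choose e he using he
  simp only [mem_iInter] at he
  choose n hn using fun σ => hcov (e σ) (he σ 0).1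
  have inj : Function.Injective fun σ => ((n σ, ⟨_, hn σ⟩) : ι × D) := by
    intro σ τ q
    obtain ⟨q1, q2⟩ := Prod.ext_iff.1 q
    have q2 : φ (n σ) (e σ) = φ (n τ) (e τ) := congrArg Subtype.val q2
    have q1 : n σ = n τ := q1
    have key : ∀ k, s σ k = s τ k → σ k = τ k := fun k hk => by
      by_contra c
      have a := he σ (k + 1)
      have b := he τ (k + 1)
      rw [hs] at a b
      rw [← hk] at b
      cases h : σ k <;> cases h' : τ k <;> simp only [h, h', cond_true, cond_false] at a b c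
      · exact c trivial
      · exact h2 _ _ trivial _ a _ b (q1 ▸ q2) (hn σ)
      · exact h2 _ _ trivial _ b _ a (q1 ▸ q2.symm) (hn τ)
      · exact c trivial
    have : ∀ k, s σ k = s τ k := fun k => by
      induction k with
      | zero => rfl
      | succ k ih => rw [hs, hs, key k ih, ih]
    exact funext fun k => key k (this k)
  have := mk_le_of_injective inj
  simp only [mk_pi, mk_fintype, Fintype.card_bool, Nat.cast_ofNat, prod_const, mk_eq_aleph0,
    lift_id, two_power_aleph0, mk_prod] at this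
  exact this.not_gt (mul_lt_of_lt aleph0_le_continuum
    ((lt_aleph0_of_finite ι).trans aleph0_lt_continuum) hD)

end Pool.Agent.H41.Pl
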