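import Pool.Agent.H41.Pl3

set_option autoImplicit false
open Set Metric Filter Topology Cardinal

namespace Pool.Agent.H41.Pl

variable {E : Type} [NormedAddCommGroup E] [NormedSpace ℝ E]

lemma small {D : Set E} (hD : #D < 𝔠) (ψ : ℤ → E → E) (P : ℤ → Prop)
    (inj : ∀ n, P n → Function.Injective (ψ n)) : #{x | ∃ n, P n ∧ ψ n x ∈ D} < 𝔠 := by
  choose n h1 h2 using fun x : {x | ∃ n, P n ∧ ψ n x ∈ D} => x.2
  refine (mk_le_of_injective (f := fun x => ((n x, ⟨_, h2 x⟩) : ℤ × D)) fun x y q => ?_).trans_lt ?_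
  · obtain ⟨q1, q2⟩ := Prod.ext_iff.1 q
    have q2 : ψ (n x) x = ψ (n y) y := congrArg Subtype.val q2
    have q1 : n x = n y := q1
    exact Subtype.ext (inj _ (h1 y) (q1 ▸ q2))
  · simp only [mk_prod, lift_id, mk_int]
    exact mul_lt_of_lt aleph0_le_continuum aleph0_lt_continuum hD

lemma small0 {D : Set E} (hD : #D < 𝔠) : #{x : E | ∃ n : ℤ, n ≠ 0 ∧ n • x ∈ D} < 𝔠 :=
  small hD (fun n x => n • x) _ fun n hn x y h => by
    simp only [← Int.cast_smul_eq_zsmul ℝ] at h
    exact smul_right_injective E (by exact_mod_cast hn) h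

lemma dense_small {A : Set ℝ} (h : #↥Aᶜ < 𝔠) : Dense A :=
  dense_iff_inter_open.2 fun U hU ⟨x, hx⟩ => by
    obtain ⟨a, b, h1, h2⟩ := mem_nhds_iff_exists_Ioo_subset.1 (hU.mem_nhds hx)
    by_contra hc
    refine h.not_ge ((mk_Ioo_real (h1.1.trans h1.2)).ge.trans (mk_le_mk_of_subset fun y a b => ?_))
    exact hc ⟨y, h2 a, b⟩

lemma step2 (e : (ℝ × ℝ) ≃L[ℝ] E) (D : AddSubgroup E) (hD : #D < 𝔠) {F : E → E}
    (hF : LipschitzWith 1 F)
    (h : ∀ x, (∃ n : ℤ, n ≠ 0 ∧ n • x ∈ D) ∨ ∃ n : ℤ, F x - n • x ∈ D) :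
    ∃ n ∈ Icc (-1 : ℤ) 1, ∃ g, ∀ x, F x - n • x = g := by
  have hS := (mk_union_le _ _).trans_lt (add_lt_of_lt aleph0_le_continuum (small0 hD)
    (small hD (fun n x => F x - n • x) (fun n => n ∉ Icc (-1 : ℤ) 1) fun n hn x y q => by
      have h1 : (2 : ℝ) ≤ |(n : ℝ)| := by
        have : (2 : ℤ) ≤ |n| := by
          simp only [mem_Icc, not_and_or, not_le] at hn
          rcases hn with hn | hn
          · rw [abs_of_neg (by omega)]; omega
          · rw [abs_of_pos (by omega)]; omega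
        exact_mod_cast this
      have h2 := hF.dist_le_mul x y
      have h3 : F x - F y = (n : ℝ) • (x - y) := by
        rw [Int.cast_smul_eq_zsmul, smul_sub, sub_eq_sub_iff_sub_eq_sub]
        exact q
      rw [dist_eq_norm, dist_eq_norm, h3, norm_smul, Real.norm_eq_abs] at h2
      rw [← sub_eq_zero, ← norm_le_zero_iff]
      push_cast at h2
      nlinarith [norm_nonneg (x - y)]))
  set S := {x : E | ∃ n : ℤ, n ≠ 0 ∧ n • x ∈ (D : Set E)} ∪
    {x | ∃ n, n ∉ Icc (-1 : ℤ) 1 ∧ F x - n • x ∈ (D : Set E)}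
  have ex : ∀ x, ∃ n : Icc (-1 : ℤ) 1, x ∉ S → F x - n.1 • x ∈ D := fun x => by
    by_cases hx : x ∈ S
    · exact ⟨⟨0, by simp⟩, fun q => absurd hx q⟩
    · obtain ⟨n, hn⟩ := (h x).resolve_left fun q => hx (Or.inl q)
      exact ⟨⟨n, by_contra fun q => hx (Or.inr ⟨n, q, hn⟩)⟩, fun _ => hn⟩
  choose lab hl using ex
  have un : ∀ x ∉ S, ∀ n : Icc (-1 : ℤ) 1, F x - n.1 • x ∈ D → lab x = n := fun x hx n hn => by
    by_contra q
    refine hx (Or.inl ⟨n.1 - (lab x).1, fun c => q (Subtype.ext (by omega)), ?_⟩)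
    have := D.sub_mem (hl x hx) hn
    rwa [sub_sub_sub_cancel_left, ← sub_smul] at this
  let Λ : E → Icc (-1 : ℤ) 1 × E := fun x => (lab x, F x - (lab x).1 • x)
  have line : ∀ γ : ℝ → E, Continuous γ → (∀ t, γ t ∉ S) → ∀ s t, Λ (γ s) = Λ (γ t) := by
    intro γ hγ hS'
    have hc : ∀ n : Icc (-1 : ℤ) 1, Continuous fun t => F (γ t) - n.1 • γ t := fun n =>
      (hF.continuous.comp hγ).sub (hγ.const_smul n.1)
    have fib : ∀ (n : Icc (-1 : ℤ) 1) g t, g ∈ D → F (γ t) - n.1 • γ t = g → Λ (γ t) = (n, g) :=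
      fun n g t a b => by
        have := un _ (hS' t) n (b ▸ a)
        simp only [Λ, this, b]
    refine sierp (fun t => Λ (γ t)) (fun y => ?_) fun N hN hne => ?_
    · by_cases a : y.2 ∈ D
      · convert isClosed_eq (hc y.1) (continuous_const (y := y.2)) using 1
        ext t
        refine ⟨fun q => ?_, fun q => fib _ _ t a q⟩
        rw [← (show Λ (γ t) = y from q)]
        rfl
      · convert isClosed_empty using 1
        refine eq_empty_of_forall_notMem fun t q => a ?_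
        rw [← (show Λ (γ t) = y from q)]
        exact hl _ (hS' t)
    · obtain ⟨V, a, b, n, g, c, d⟩ := cantor _ hc hD hN hne fun t _ => ⟨_, hl _ (hS' t)⟩
      exact ⟨V, a, b, (n, g), fun t ht => fib n g t c (d t ht)⟩
  have hA : Dense {a : ℝ | ∀ t, e (a, t) ∉ S} := dense_small ((mk_le_mk_of_subset fun a ha => by
    simp only [mem_compl_iff, mem_ofPred_eq, not_forall, not_not] at ha
    obtain ⟨t, ht⟩ := ha
    exact ⟨_, ht, by simp⟩).trans_lt (mk_image_le (f := fun x => (e.symm x).1).trans_lt hS))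
  obtain ⟨b, hb⟩ : {b : ℝ | ∀ t, e (t, b) ∉ S}.Nonempty := (dense_small
    ((mk_le_mk_of_subset fun a ha => by
      simp only [mem_compl_iff, mem_ofPred_eq, not_forall, not_not] at ha
      obtain ⟨t, ht⟩ := ha
      exact ⟨_, ht, by simp⟩).trans_lt
        (mk_image_le (f := fun x => (e.symm x).2).trans_lt hS))).nonempty
  refine ⟨_, (Λ (e (0, b))).1.2, (Λ (e (0, b))).2, fun x => ?_⟩
  obtain ⟨⟨a, t⟩, rfl⟩ := e.surjective x
  refine hA.induction (P := fun a => F (e (a, t)) - (Λ (e (0, b))).1.1 • e (a, t) = _)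
    (fun a ha => ?_) (isClosed_eq ?_ continuous_const) a
  · rw [← (line (fun t => e (a, t)) (by fun_prop) ha t b).trans
      (line (fun t => e (t, b)) (by fun_prop) hb a 0)]
  · have := hF.continuous
    fun_prop

lemma mk_closure_lt {s : Set E} (h : #s < 𝔠) : #(AddSubgroup.closure s) < 𝔠 := by
  rw [FreeAddGroup.closure_eq_range]
  refine mk_range_le.trans_lt ((mk_le_of_injective (f := fun x : FreeAddGroup s => x.out)
    fun x y q => by rw [← x.out_eq, ← y.out_eq]; exact congrArg _ q).trans_lt ((mk_list_le_max _).trans_lt (max_lt aleph0_lt_continuum ?_)))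
  simp only [mk_prod, lift_id, mk_fintype]
  exact mul_lt_of_lt aleph0_le_continuum h ((natCast_lt_aleph0).trans aleph0_lt_continuum)

lemma exists_rec {I α : Type*} [LinearOrder I] [WellFoundedLT I]
    (P : (i : I) → (Iio i → α) → α → Prop) (h : ∀ i f, ∃ a, P i f a) :
    ∃ x : I → α, ∀ i, P i (fun j => x j) (x i) := by
  refine ⟨WellFounded.fix wellFounded_lt fun i f => (h i fun j => f j j.2).choose, fun i => ?_⟩
  rw [WellFounded.fix_eq]
  exact (h i _).choose_spec

theorem exists_plastic (e : (ℝ × ℝ) ≃L[ℝ] E) :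
    ∃ G : AddSubgroup E, Dense (G : Set E) ∧ Plastic G := by
  have : FiniteDimensional ℝ E := e.toLinearEquiv.finiteDimensional
  have : CompleteSpace E := FiniteDimensional.complete ℝ E
  have : ProperSpace E := FiniteDimensional.proper_real E
  have hE : #E = 𝔠 := by rw [← mk_congr e.toEquiv]; simp [mk_real]
  obtain ⟨D, Dc, Dd⟩ := TopologicalSpace.exists_countable_dense E
  have hD : #D ≤ ℵ₀ := le_aleph0_iff_set_countable.2 Dc
  let I := (𝔠 : Cardinal.{0}).ord.ToType
  have hI : ∀ i : I, #(Iio i) < 𝔠 := fun i => by simpa [I] using mk_Iio_lt i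
  obtain ⟨Fs, hFs⟩ : ∃ Fs : I → {F : E → E // LipschitzWith 1 F}, Function.Surjective Fs := by
    have : Nonempty {F : E → E // LipschitzWith 1 F} := ⟨⟨id, LipschitzWith.id⟩⟩
    have h1 : #{F : E → E // LipschitzWith 1 F} ≤ #I := by
      refine (mk_le_of_injective (f := fun F (d : D) => F.1 d) fun F G q => Subtype.ext
        (F.2.continuous.ext_on Dd G.2.continuous fun d hd => congrFun q ⟨d, hd⟩)).trans ?_
      rw [← power_def, hE, mk_ord_toType]
      exact (power_le_power_left continuum_ne_zero hD).trans continuum_power_aleph0.le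
    obtain ⟨j⟩ := h1
    exact ⟨_, Function.invFun_surjective j.injective⟩
  obtain ⟨x, hx⟩ := exists_rec (I := I) (fun i (f : Iio i → E) a =>
    (∀ n : ℤ, n ≠ 0 → n • a ∉ AddSubgroup.closure (D ∪ range f ∪ range fun j : Iio i => (Fs j).1 (f j))) ∧
    ((¬ ∃ n ∈ Icc (-1 : ℤ) 1, ∃ g, ∀ x, (Fs i).1 x - n • x = g) → ∀ n : ℤ, (Fs i).1 a - n • a ∉
      AddSubgroup.closure (D ∪ range f ∪ range fun j : Iio i => (Fs j).1 (f j)))) fun i f => by
    have hs := mk_closure_lt ((mk_union_le (D ∪ range f) (range fun j : Iio i => (Fs j).1 (f j))).trans_lt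
      (add_lt_of_lt aleph0_le_continuum ((mk_union_le _ _).trans_lt (add_lt_of_lt
        aleph0_le_continuum (hD.trans_lt aleph0_lt_continuum) (mk_range_le.trans_lt (hI i))))
        (mk_range_le.trans_lt (hI i))))
    by_cases b : ∃ n ∈ Icc (-1 : ℤ) 1, ∃ g, ∀ x, (Fs i).1 x - n • x = g
    · have := small0 hs
      by_contra! c
      rw [eq_univ_of_forall (s := {x : E | ∃ n : ℤ, n ≠ 0 ∧ n • x ∈ _}) fun a => by
        by_contra q
        obtain ⟨n, hn, g, hg⟩ := b
        obtain ⟨t, ht⟩ := (c a fun n hn r => q ⟨n, hn, r⟩).1 n hn g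
        exact ht (hg t), mk_univ, hE] at this
      exact this.false
    · by_contra! c
      refine b (step2 e _ hs (Fs i).2 fun a => ?_)
      by_cases q : ∃ n : ℤ, n ≠ 0 ∧ n • a ∈
        AddSubgroup.closure (D ∪ range f ∪ range fun j : Iio i => (Fs j).1 (f j))
      exacts [Or.inl q, Or.inr (c a fun n hn r => q ⟨n, hn, r⟩).2]
  let G : Set I → AddSubgroup E := fun s => AddSubgroup.closure (D ∪ x '' s)
  have Gm : Monotone G := fun s t h =>
    AddSubgroup.closure_mono (union_subset_union_right _ (image_mono h))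
  have G1 : ∀ s, ∀ z ∈ G s, z ∈ G ∅ ∨ ∃ k ∈ s, z ∈ G (Iic k) := fun s z hz => by
    induction hz using AddSubgroup.closure_induction with
    | mem z hz =>
      rcases hz with hz | ⟨k, hk, rfl⟩
      exacts [Or.inl (AddSubgroup.subset_closure (Or.inl hz)),
        Or.inr ⟨k, hk, AddSubgroup.subset_closure (Or.inr ⟨k, self_mem_Iic, rfl⟩)⟩]
    | zero => exact Or.inl (zero_mem _)
    | add a b _ _ ha hb =>
      rcases ha with ha | ⟨k, hk, ha⟩ <;> rcases hb with hb | ⟨l, hl, hb⟩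
      · exact Or.inl (add_mem ha hb)
      · exact Or.inr ⟨l, hl, add_mem (Gm (empty_subset _) ha) hb⟩
      · exact Or.inr ⟨k, hk, add_mem ha (Gm (empty_subset _) hb)⟩
      · rcases le_total k l with q | q
        exacts [Or.inr ⟨l, hl, add_mem (Gm (Iic_subset_Iic.2 q) ha) hb⟩,
          Or.inr ⟨k, hk, add_mem ha (Gm (Iic_subset_Iic.2 q) hb)⟩]
    | neg a _ ha => exact ha.imp neg_mem fun ⟨k, hk, q⟩ => ⟨k, hk, neg_mem q⟩
  have G2 : ∀ k, ∀ z ∈ G (Iic k), ∃ n : ℤ, z - n • x k ∈ G (Iio k) := fun k z hz => by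
    induction hz using AddSubgroup.closure_induction with
    | mem z hz =>
      rcases hz with hz | ⟨l, hl, rfl⟩
      · exact ⟨0, by rw [zero_smul, sub_zero]; exact AddSubgroup.subset_closure (Or.inl hz)⟩
      · rcases eq_or_lt_of_le (show l ≤ k from hl) with rfl | q
        · exact ⟨1, by simp⟩
        · exact ⟨0, by
            rw [zero_smul, sub_zero]; exact AddSubgroup.subset_closure (Or.inr ⟨l, q, rfl⟩)⟩
    | zero => exact ⟨0, by simp⟩
    | add a b _ _ ha hb =>
      obtain ⟨n, hn⟩ := ha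
      obtain ⟨m, hm⟩ := hb
      exact ⟨n + m, by convert add_mem hn hm using 1; module⟩
    | neg a _ ha =>
      obtain ⟨n, hn⟩ := ha
      exact ⟨-n, by convert neg_mem hn using 1; module⟩
  have G3 : ∀ k, G (Iio k) ≤ AddSubgroup.closure
      (D ∪ range (fun j : Iio k => x j) ∪ range fun j : Iio k => (Fs j).1 (x j)) := fun k =>
    AddSubgroup.closure_mono ((union_subset_union_right _ (by
      rintro _ ⟨j, hj, rfl⟩; exact ⟨⟨j, hj⟩, rfl⟩)).trans subset_union_left)
  have hd : Dense (G univ : Set E) := Dd.mono fun z hz => AddSubgroup.subset_closure (Or.inl hz)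
  refine ⟨G univ, hd, fun f hf h1 => ?_⟩
  have h2 : LipschitzWith 1 fun z : (G univ : Set E) => (f z : E) :=
    LipschitzWith.of_dist_le_mul fun a b => by rw [NNReal.coe_one, one_mul]; exact h1 a b
  obtain ⟨j, hj⟩ := hFs ⟨_, hd.lipschitzWith_extend h2⟩
  have h3 : ∀ z : G univ, (Fs j).1 z = f z := fun z => by
    rw [hj]; exact hd.extend_eq h2.continuous z
  obtain ⟨n, hn, g, hg⟩ : ∃ n ∈ Icc (-1 : ℤ) 1, ∃ g, ∀ x, (Fs j).1 x - n • x = g := by
    by_contra b
    have h4 : (Fs j).1 (x j) ∉ G (Iic j) := fun q => by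
      obtain ⟨n, hn⟩ := G2 j _ q
      exact (hx j).2 b n (G3 j hn)
    have h5 : ∀ k, (Fs j).1 (x j) ∉ G (Iic k) := fun k => by
      induction k using WellFoundedLT.induction with
      | ind k ih =>
        intro q
        rcases le_or_gt k j with c | c
        · exact h4 (Gm (Iic_subset_Iic.2 c) q)
        obtain ⟨n, hn⟩ := G2 k _ q
        by_cases n0 : n = 0
        · rcases G1 _ _ (by simpa [n0] using hn) with r | ⟨l, hl, r⟩
          exacts [h4 (Gm (empty_subset _) r), ih l hl r]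
        · refine (hx k).1 n n0 ?_
          rw [← sub_sub_cancel ((Fs j).1 (x j)) (n • x k)]
          exact sub_mem (AddSubgroup.subset_closure (Or.inr ⟨⟨j, c⟩, rfl⟩)) (G3 k hn)
    have h6 : (Fs j).1 (x j) ∈ G univ := by
      rw [h3 ⟨x j, AddSubgroup.subset_closure (Or.inr ⟨j, trivial, rfl⟩)⟩]
      exact (f _).2
    rcases G1 _ _ h6 with r | ⟨l, -, r⟩
    exacts [h4 (Gm (empty_subset _) r), h5 l r]
  intro a b
  have h7 : (f a : E) - f b = n • (a - b : E) := by
    rw [← h3, ← h3, smul_sub, sub_eq_sub_iff_sub_eq_sub, hg, hg]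
  obtain rfl | rfl | rfl : n = -1 ∨ n = 0 ∨ n = 1 := by simp only [mem_Icc] at hn; omega
  · rw [Subtype.dist_eq, Subtype.dist_eq, dist_eq_norm, dist_eq_norm, h7]; simp [norm_sub_rev]
  · exfalso
    have : Nontrivial E := e.symm.toEquiv.nontrivial
    obtain ⟨z, hz, z0⟩ := hd.exists_mem_open isOpen_compl_singleton (exists_ne (0 : E))
    refine z0 (congrArg Subtype.val (hf.1 (a₁ := ⟨z, hz⟩) (a₂ := 0) (Subtype.ext ?_)))
    rw [← h3, ← h3]
    simpa using (hg _).trans (hg _).symm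
  · rw [Subtype.dist_eq, Subtype.dist_eq, dist_eq_norm, dist_eq_norm, h7]; simp

end Pool.Agent.H41.Pl
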