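import Mathlib

set_option autoImplicit false

namespace Pool.Agent.H41.Pl

/-- A metric space is plastic if every non-expansive bijection onto itself is an isometry. -/
def Plastic (X : Type*) [PseudoMetricSpace X] : Prop :=
  ∀ f : X → X, Function.Bijective f → (∀ x y, dist (f x) (f y) ≤ dist x y) →
    ∀ x y, dist (f x) (f y) = dist x y

end Pool.Agent.H41.Pl
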