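import Mathlib

set_option autoImplicit false

namespace Pool.Agent.H41.Pl

/-- A space is k-crowded if each nonempty open subset contains an uncountable compact subset. -/
def KCrowded (X : Type*) [TopologicalSpace X] : Prop :=
  ∀ U : Set X, IsOpen U → U.Nonempty → ∃ K : Set X, K ⊆ U ∧ IsCompact K ∧ ¬ K.Countable

end Pool.Agent.H41.Pl
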