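import Mathlib
import Pool.Agent.H41.PlDefs
import Pool.Agent.H41.PlKDefs

set_option autoImplicit false

open Set Metric TopologicalSpace Filter Topology

namespace Pool.Agent.H41.Pl

variable {Y : Type*} [MetricSpace Y] {ι : Type*}

/-- The generic condition. -/
def Good (d : Y) (r : ℝ) (m n : ι) (K : ι → NonemptyCompacts Y) : Prop :=
  (K m : Set Y) ⊆ {y | r < dist y d} ∨
    ∃ (A F : Finset Y) (ε : ℝ), 0 < ε ∧ F.card + 2 ≤ A.card ∧
      (∀ a ∈ A, ∀ b ∈ A, a ≠ b → 4 * ε ≤ dist a b) ∧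
      (∀ a ∈ A, ((K m : Set Y) ∩ (ball d (2 * r) ∩ ball a ε)).Nonempty) ∧
      (K n : Set Y) ⊆ ball d (2 * r) ∪ ⋃ c ∈ F, ball c ε

theorem isOpen_good (d : Y) (r : ℝ) (m n : ι) :
    IsOpen {K : ι → NonemptyCompacts Y | Good d r m n K} := by
  have hev : ∀ i : ι, Continuous fun K : ι → NonemptyCompacts Y => K i := fun i =>
    continuous_apply i
  have h0 : IsOpen {y : Y | r < dist y d} :=
    isOpen_lt continuous_const (continuous_id.dist continuous_const)
  have h1 : IsOpen {K : ι → NonemptyCompacts Y | (K m : Set Y) ⊆ {y | r < dist y d}} :=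
    (NonemptyCompacts.isOpen_subsets_of_isOpen h0).preimage
      (hev m)
  have h2 : ∀ (A F : Finset Y) (ε : ℝ), IsOpen {K : ι → NonemptyCompacts Y |
      (∀ a ∈ A, ((K m : Set Y) ∩ (ball d (2 * r) ∩ ball a ε)).Nonempty) ∧
      (K n : Set Y) ⊆ ball d (2 * r) ∪ ⋃ c ∈ F, ball c ε} := by
    intro A F ε
    refine IsOpen.inter ?_ ?_
    · have : {K : ι → NonemptyCompacts Y |
          ∀ a ∈ A, ((K m : Set Y) ∩ (ball d (2 * r) ∩ ball a ε)).Nonempty} =
          ⋂ a ∈ A, {K : ι → NonemptyCompacts Y |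
            ((K m : Set Y) ∩ (ball d (2 * r) ∩ ball a ε)).Nonempty} := by
        ext K; simp
      change IsOpen {K : ι → NonemptyCompacts Y |
          ∀ a ∈ A, ((K m : Set Y) ∩ (ball d (2 * r) ∩ ball a ε)).Nonempty}
      rw [this]
      refine isOpen_biInter_finset fun a _ => ?_
      have hb : IsOpen (ball d (2 * r) ∩ ball a ε) := isOpen_ball.inter isOpen_ball
      exact (NonemptyCompacts.isOpen_inter_nonempty_of_isOpen hb).preimage (hev m)
    · have hb : IsOpen (ball d (2 * r) ∪ ⋃ c ∈ F, ball c ε) :=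
        isOpen_ball.union (isOpen_biUnion fun _ _ => isOpen_ball)
      exact (NonemptyCompacts.isOpen_subsets_of_isOpen hb).preimage (hev n)
  rw [isOpen_iff_mem_nhds]
  intro K hK
  rcases hK with hK | ⟨A, F, ε, hε, hc, hs, h3, h4⟩
  · exact mem_of_superset (h1.mem_nhds hK) fun L hL => Or.inl hL
  · exact mem_of_superset ((h2 A F ε).mem_nhds ⟨h3, h4⟩) fun L hL =>
      Or.inr ⟨A, F, ε, hε, hc, hs, hL.1, hL.2⟩

theorem exists_sep (A : Finset Y) : ∃ ε : ℝ, 0 < ε ∧ ∀ a ∈ A, ∀ b ∈ A, a ≠ b → 4 * ε ≤ dist a b := by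
  classical
  have : ∀ᶠ ε in 𝓝[>] (0:ℝ), ∀ p ∈ (A ×ˢ A), p.1 ≠ p.2 → 4 * ε ≤ dist p.1 p.2 := by
    rw [eventually_all_finset]
    intro p _
    by_cases h : p.1 = p.2
    · exact Eventually.of_forall fun _ h' => absurd h h'
    · have hp : 0 < dist p.1 p.2 := dist_pos.2 h
      have : ∀ᶠ ε in 𝓝 (0:ℝ), ε < dist p.1 p.2 / 4 := eventually_lt_nhds (by positivity)
      exact (this.filter_mono nhdsWithin_le_nhds).mono fun ε hε _ => by linarith
  obtain ⟨ε, h1, h2⟩ := (this.and self_mem_nhdsWithin).exists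
  exact ⟨ε, h2, fun a ha b hb hab => h1 (a, b) (Finset.mem_product.2 ⟨ha, hb⟩) hab⟩

theorem exists_near_good (C : ι → Set Y) (hC : ∀ i, Preperfect (C i)) (d : Y) (r : ℝ) (hr : 0 < r)
    (m n : ι) (K : ι → NonemptyCompacts Y) (hK : ∀ i, (K i : Set Y) ⊆ C i) (η : ℝ) (hη : 0 < η) :
    ∃ L : ι → NonemptyCompacts Y, (∀ i, (L i : Set Y) ⊆ C i) ∧ Good d r m n L ∧
      ∀ i, dist (L i) (K i) ≤ η := by
  classical
  by_cases h0 : (K m : Set Y) ⊆ {y | r < dist y d}
  · exact ⟨K, hK, Or.inl h0, fun i => by simpa using hη.le⟩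
  obtain ⟨y, hyK, hy⟩ := not_subset.1 h0
  simp only [mem_ofPred_eq, not_lt] at hy
  obtain ⟨t, htK, htf, htc⟩ := finite_cover_balls_of_compact (K n).isCompact hη
  set F := htf.toFinset with hF
  have htne : t.Nonempty := by
    obtain ⟨x, hx⟩ := (K n).nonempty
    obtain ⟨c, hc, -⟩ := mem_iUnion₂.1 (htc hx)
    exact ⟨c, hc⟩
  have hinf : (ball y (min η r) ∩ C m).Infinite := by
    have h1 : AccPt y (𝓟 (C m)) := hC m y (hK m hyK)
    have h2 : AccPt y (𝓟 (ball y (min η r) ∩ C m)) :=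
      h1.nhds_inter (ball_mem_nhds y (lt_min hη hr))
    exact Set.Infinite.of_accPt h2
  obtain ⟨A, hA, hAc⟩ := hinf.exists_subset_card_eq (F.card + 2)
  obtain ⟨ε, hε, hsep⟩ := exists_sep A
  have hAd : ∀ a ∈ A, a ∈ ball d (2 * r) := by
    intro a ha
    have h1 : dist a y < min η r := (hA ha).1
    have := dist_triangle a y d
    have := min_le_right η r
    rw [mem_ball]; linarith
  let S : ι → Set Y := fun i => (if i = n then t else K i) ∪ (if i = m then (A : Set Y) else ∅)
  have hSc : ∀ i, IsCompact (S i) := by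
    intro i
    refine IsCompact.union ?_ ?_
    · split_ifs
      · exact htf.isCompact
      · exact (K i).isCompact
    · split_ifs
      · exact A.finite_toSet.isCompact
      · exact isCompact_empty
  have hSn : ∀ i, (S i).Nonempty := by
    intro i
    refine Nonempty.inl ?_
    split_ifs
    · exact htne
    · exact (K i).nonempty
  refine ⟨fun i => ⟨⟨S i, hSc i⟩, hSn i⟩, ?_, Or.inr ⟨A, F, ε, hε, hAc.ge, hsep, ?_, ?_⟩, ?_⟩
  · intro i
    change S i ⊆ C i
    refine union_subset ?_ ?_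
    · split_ifs with h
      · subst h; exact htK.trans (hK _)
      · exact hK i
    · split_ifs with h
      · subst h; exact fun a ha => (hA ha).2
      · exact empty_subset _
  · intro a ha
    refine ⟨a, ?_, hAd a ha, mem_ball_self hε⟩
    change a ∈ S m
    exact Or.inr (by simpa using ha)
  · change S n ⊆ _
    refine union_subset ?_ ?_
    · rw [if_pos rfl]
      intro c hc
      exact Or.inr (mem_iUnion₂.2 ⟨c, by simpa [hF] using hc, mem_ball_self hε⟩)
    · split_ifs
      · exact fun a ha => Or.inl (hAd a ha)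
      · exact empty_subset _
  · intro i
    rw [NonemptyCompacts.dist_eq]
    refine hausdorffDist_le_of_mem_dist hη.le ?_ ?_
    · intro x hx
      change x ∈ S i at hx
      rcases hx with hx | hx
      · refine ⟨x, ?_, by simpa using hη.le⟩
        split_ifs at hx with h
        · subst h; exact htK hx
        · exact hx
      · split_ifs at hx with h
        · subst h
          refine ⟨y, hyK, ?_⟩
          have h1 : dist x y < min η r := (hA hx).1
          exact h1.le.trans (min_le_left _ _)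
        · exact hx.elim
    · intro x hx
      by_cases h : i = n
      · subst h
        obtain ⟨c, hc, hxc⟩ := mem_iUnion₂.1 (htc hx)
        refine ⟨c, ?_, (mem_ball.1 hxc).le⟩
        change c ∈ S i
        exact Or.inl (by simpa using hc)
      · refine ⟨x, ?_, by simpa using hη.le⟩
        change x ∈ S i
        exact Or.inl (by rw [if_neg h]; exact hx)

theorem exists_generic [Countable ι] (C : ι → Set Y) (hC : ∀ i, Preperfect (C i))
    (hCc : ∀ i, IsCompact (C i)) (hCn : ∀ i, (C i).Nonempty) (u : ℕ → Y) :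
    ∃ K : ι → NonemptyCompacts Y, (∀ i, (K i : Set Y) ⊆ C i) ∧
      ∀ (j k : ℕ) (m n : ι), Good (u j) (1 / ((k:ℝ) + 1)) m n K := by
  let S : Set (ι → NonemptyCompacts Y) := Set.pi univ fun i => {K | (K : Set Y) ⊆ C i}
  have hS : IsCompact S :=
    isCompact_univ_pi fun i => NonemptyCompacts.isCompact_subsets_of_isCompact (hCc i)
  have : CompactSpace S := isCompact_iff_compactSpace.1 hS
  have : Nonempty S := ⟨⟨fun i => ⟨⟨C i, hCc i⟩, hCn i⟩, fun i _ => show C i ⊆ C i from subset_refl _⟩⟩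
  let G : ℕ × ℕ × ι × ι → Set S := fun p =>
    {K | Good (u p.1) (1 / ((p.2.1:ℝ) + 1)) p.2.2.1 p.2.2.2 K.1}
  have hGo : ∀ p, IsOpen (G p) := fun p =>
    (isOpen_good _ _ _ _).preimage continuous_subtype_val
  have hGd : ∀ p, Dense (G p) := by
    intro p K
    have h1 : ∀ q : ℕ, ∃ L : S, L ∈ G p ∧ ∀ i, dist (L.1 i) (K.1 i) ≤ 1 / ((q:ℝ) + 1) := by
      intro q
      obtain ⟨L, hL1, hL2, hL3⟩ := exists_near_good C hC (u p.1) (1 / ((p.2.1:ℝ) + 1))
        (by positivity) p.2.2.1 p.2.2.2 K.1 (fun i => K.2 i (mem_univ i)) (1 / ((q:ℝ) + 1))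
        (by positivity)
      exact ⟨⟨L, fun i _ => hL1 i⟩, hL2, hL3⟩
    choose L hL1 hL2 using h1
    refine mem_closure_of_tendsto (f := L) (b := atTop) ?_ (Eventually.of_forall hL1)
    rw [tendsto_subtype_rng, tendsto_pi_nhds]
    intro i
    rw [tendsto_iff_dist_tendsto_zero]
    exact squeeze_zero (fun _ => dist_nonneg) (fun q => hL2 q i)
      tendsto_one_div_add_atTop_nhds_zero_nat
  obtain ⟨K, hK⟩ := (dense_iInter_of_isOpen hGo hGd).nonempty
  refine ⟨K.1, fun i => K.2 i (mem_univ i), fun j k m n => ?_⟩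
  exact mem_iInter.1 hK (j, k, m, n)

end Pool.Agent.H41.Pl
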