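import Mathlib
import Pool.Agent.H41.Pl5

set_option autoImplicit false

open Set Metric TopologicalSpace Filter Topology

namespace Pool.Agent.H41.Pl

variable {Y : Type*} [MetricSpace Y] {ι : Type*}

theorem baire_compact {κ : Type*} [Countable κ] {K : Set Y} (hK : IsCompact K) (hn : K.Nonempty)
    (T : κ → Set Y) (hT : ∀ n, IsClosed (T n)) (hc : K ⊆ ⋃ n, T n) :
    ∃ n, ∃ y ∈ K, ∃ δ > 0, K ∩ ball y δ ⊆ T n := by
  have : CompactSpace K := isCompact_iff_compactSpace.1 hK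
  have : Nonempty K := hn.to_subtype
  obtain ⟨n, y, hy⟩ := nonempty_interior_of_iUnion_of_closed
    (f := fun n => (Subtype.val : K → Y) ⁻¹' T n)
    (fun n => (hT n).preimage continuous_subtype_val) (by
      ext x
      simp only [mem_iUnion, mem_preimage, mem_univ, iff_true]
      exact mem_iUnion.1 (hc x.2))
  obtain ⟨δ, hδ, hb⟩ := Metric.mem_nhds_iff.1 (mem_interior_iff_mem_nhds.1 hy)
  refine ⟨n, y, y.2, δ, hδ, fun x hx => ?_⟩
  exact hb (show (⟨x, hx.1⟩ : K) ∈ ball y δ from hx.2)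

theorem exists_small (u : ℕ → Y) (hu : DenseRange u) (y : Y) (δ : ℝ) (hδ : 0 < δ) :
    ∃ j k : ℕ, dist y (u j) < 1 / ((k:ℝ) + 1) ∧ ball (u j) (2 * (1 / ((k:ℝ) + 1))) ⊆ ball y δ := by
  obtain ⟨k, hk⟩ := exists_nat_one_div_lt (K := ℝ) (show 0 < δ / 3 by positivity)
  obtain ⟨j, hj⟩ := hu.exists_dist_lt y (show 0 < 1 / ((k:ℝ) + 1) by positivity)
  refine ⟨j, k, hj, fun z hz => ?_⟩
  rw [mem_ball] at hz ⊢
  have := dist_triangle z (u j) y
  rw [dist_comm (u j) y] at this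
  linarith

theorem good_local (u : ℕ → Y) (hu : DenseRange u) (K : ι → NonemptyCompacts Y)
    (hG : ∀ (j k : ℕ) (m n : ι), Good (u j) (1 / ((k:ℝ) + 1)) m n K) (m n : ι) (y : Y)
    (hy : y ∈ (K m : Set Y)) (δ : ℝ) (hδ : 0 < δ) :
    ∃ (A F : Finset Y) (ε : ℝ) (p : Y → Y), 0 < ε ∧ F.card + 2 ≤ A.card ∧
      (∀ a ∈ A, ∀ b ∈ A, a ≠ b → 2 * ε < dist (p a) (p b)) ∧
      (∀ a ∈ A, p a ∈ (K m : Set Y) ∧ p a ∈ ball y δ) ∧
      (K n : Set Y) ⊆ ball y δ ∪ ⋃ c ∈ F, ball c ε := by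
  obtain ⟨j, k, h1, h2⟩ := exists_small u hu y δ hδ
  rcases hG j k m n with h | ⟨A, F, ε, hε, hc, hs, h3, h4⟩
  · exact absurd (h hy) (not_lt.2 h1.le)
  · choose! p hp using h3
    refine ⟨A, F, ε, p, hε, hc, fun a ha b hb hab => ?_, fun a ha => ⟨(hp a ha).1, h2 (hp a ha).2.1⟩,
      h4.trans (union_subset_union_left _ h2)⟩
    have e1 : dist (p a) a < ε := (hp a ha).2.2
    have e2 : dist (p b) b < ε := (hp b hb).2.2
    have e3 := hs a ha b hb hab
    have e4 := dist_triangle4 a (p a) (p b) b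
    rw [dist_comm a (p a)] at e4
    linarith

theorem good_uncountable (u : ℕ → Y) (hu : DenseRange u) (K : ι → NonemptyCompacts Y)
    (hG : ∀ (j k : ℕ) (m n : ι), Good (u j) (1 / ((k:ℝ) + 1)) m n K) (m : ι) :
    ¬ (K m : Set Y).Countable := by
  intro hc
  have : Countable (K m : Set Y) := hc.to_subtype
  obtain ⟨x, y, hy, δ, hδ, h⟩ := baire_compact (K m).isCompact (K m).nonempty
    (fun x : (K m : Set Y) => ({x.1} : Set Y)) (fun _ => isClosed_singleton)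
    (fun x hx => mem_iUnion.2 ⟨⟨x, hx⟩, rfl⟩)
  obtain ⟨A, F, ε, p, hε, hc, hs, h3, -⟩ := good_local u hu K hG m m y hy δ hδ
  obtain ⟨a, ha, b, hb, hab⟩ := Finset.one_lt_card.1 (show 1 < A.card by omega)
  have e1 : p a = x.1 := h (h3 a ha)
  have e2 : p b = x.1 := h (h3 b hb)
  have := hs a ha b hb hab
  rw [e1, e2, dist_self] at this
  linarith

theorem good_rigid [Countable ι] (u : ℕ → Y) (hu : DenseRange u) (K : ι → NonemptyCompacts Y)
    (hG : ∀ (j k : ℕ) (m n : ι), Good (u j) (1 / ((k:ℝ) + 1)) m n K)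
    (hloc : ∀ y : Y, ∀ δ > 0, ∃ m, (K m : Set Y) ⊆ ball y δ)
    (f : (⋃ i, (K i : Set Y)) → (⋃ i, (K i : Set Y))) (hf : Function.Surjective f)
    (hne : ∀ x y, dist (f x) (f y) ≤ dist x y) (x₀ : (⋃ i, (K i : Set Y))) : f x₀ = x₀ := by
  classical
  by_contra h0
  have hpos : 0 < dist (f x₀) x₀ := dist_pos.2 h0
  set ρ := dist (f x₀) x₀ / 2 with hρ
  have hρ0 : 0 < ρ := by positivity
  have hfc : Continuous f := (LipschitzWith.of_dist_le_mul (K := 1) fun x y => by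
    simpa using hne x y).continuous
  have hW : ∀ x : (⋃ i, (K i : Set Y)), (x : Y) ∈ ball (x₀ : Y) ρ → (f x : Y) ∉ ball (x₀ : Y) ρ := by
    intro x hx hfx
    have e1 : dist x x₀ < ρ := hx
    have e2 : dist (f x) x₀ < ρ := hfx
    have e3 := hne x x₀
    have e4 := dist_triangle (f x₀) (f x) x₀
    rw [dist_comm (f x₀) (f x)] at e4
    linarith
  obtain ⟨m, hm⟩ := hloc x₀ ρ hρ0
  let T : ι → Set Y := fun n => (fun x => (f x : Y)) '' (Subtype.val ⁻¹' (K n : Set Y))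
  have hT : ∀ n, IsClosed (T n) := by
    intro n
    refine IsCompact.isClosed (IsCompact.image ?_ (continuous_subtype_val.comp hfc))
    refine (Topology.IsInducing.subtypeVal.isCompact_preimage_iff ?_).2 (K n).isCompact
    rw [Subtype.range_coe]
    exact subset_iUnion (fun i => (K i : Set Y)) n
  obtain ⟨n, y, hy, δ, hδ, h⟩ := baire_compact (K m).isCompact (K m).nonempty T hT (by
    intro y hy
    obtain ⟨x, hx⟩ := hf ⟨y, mem_iUnion.2 ⟨m, hy⟩⟩
    obtain ⟨n, hn⟩ := mem_iUnion.1 x.2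
    exact mem_iUnion.2 ⟨n, x, hn, by simp [hx]⟩)
  obtain ⟨δ', hδ', hb⟩ := Metric.isOpen_iff.1 (isOpen_ball (x := (x₀ : Y)) (ε := ρ)) y (hm hy)
  obtain ⟨A, F, ε, p, hε, hc, hs, h3, h4⟩ := good_local u hu K hG m n y hy (min δ δ')
    (lt_min hδ hδ')
  have h5 : ∀ a ∈ A, ∃ c ∈ F, ∃ x : (⋃ i, (K i : Set Y)), (f x : Y) = p a ∧ dist (x : Y) c < ε := by
    intro a ha
    obtain ⟨x, hx, hxa⟩ := h ⟨(h3 a ha).1, ball_subset_ball (min_le_left _ _) (h3 a ha).2⟩
    rcases h4 hx with h6 | h6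
    · exfalso
      refine hW x (hb (ball_subset_ball (min_le_right _ _) h6)) ?_
      have hxa' : (f x : Y) = p a := hxa
      rw [hxa']
      exact hm (h3 a ha).1
    · obtain ⟨c, hc, hxc⟩ := mem_iUnion₂.1 h6
      exact ⟨c, hc, x, hxa, hxc⟩
  choose! g hg using h5
  obtain ⟨a, ha, b, hb, hab, hgab⟩ := Finset.exists_ne_map_eq_of_card_lt_of_maps_to
    (show F.card < A.card by omega) (f := g) (fun a ha => (hg a ha).1)
  obtain ⟨x, hx1, hx2⟩ := (hg a ha).2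
  obtain ⟨z, hz1, hz2⟩ := (hg b hb).2
  have e1 := hs a ha b hb hab
  have e2 : dist (f x : Y) (f z : Y) ≤ dist (x : Y) (z : Y) := hne x z
  rw [hx1, hz1] at e2
  have e3 := dist_triangle_right (x : Y) (z : Y) (g a)
  rw [← hgab] at hz2
  linarith

theorem exists_plastic_dense [SeparableSpace Y] (hY : KCrowded Y) :
    ∃ X : Set Y, Plastic X ∧ Dense X ∧ IsSigmaCompact X ∧ KCrowded X := by
  rcases isEmpty_or_nonempty Y with hE | hE
  · refine ⟨∅, fun f _ _ x => x.2.elim, fun x => hE.elim x, isSigmaCompact_empty, ?_⟩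
    rintro U - ⟨x, -⟩
    exact x.2.elim
  have : SecondCountableTopology Y := UniformSpace.secondCountable_of_separable Y
  let u := denseSeq Y
  have hu : DenseRange u := denseRange_denseSeq Y
  have h1 : ∀ i : ℕ × ℕ, ∃ C : Set Y, Preperfect C ∧ IsCompact C ∧ C.Nonempty ∧
      C ⊆ ball (u i.1) (2 * (1 / ((i.2:ℝ) + 1))) := by
    intro i
    obtain ⟨K, hK1, hK2, hK3⟩ := hY (ball (u i.1) (2 * (1 / ((i.2:ℝ) + 1)))) isOpen_ball
      (nonempty_ball.2 (by positivity))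
    obtain ⟨D, hD1, hD2, hD3⟩ := exists_perfect_nonempty_of_isClosed_of_not_countable
      hK2.isClosed hK3
    exact ⟨D, hD1.acc, hK2.of_isClosed_subset hD1.closed hD3, hD2, hD3.trans hK1⟩
  choose C hC1 hC2 hC3 hC4 using h1
  obtain ⟨K, hK, hG⟩ := exists_generic C hC1 hC2 hC3 u
  have hloc : ∀ y : Y, ∀ δ > 0, ∃ m, (K m : Set Y) ⊆ ball y δ := by
    intro y δ hδ
    obtain ⟨j, k, -, h⟩ := exists_small u hu y δ hδ
    exact ⟨(j, k), (hK _).trans ((hC4 (j, k)).trans h)⟩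
  refine ⟨⋃ i, (K i : Set Y), ?_, ?_, ?_, ?_⟩
  · intro f hf hne x y
    rw [good_rigid u hu K hG hloc f hf.2 hne x, good_rigid u hu K hG hloc f hf.2 hne y]
  · rw [Metric.dense_iff]
    intro y δ hδ
    obtain ⟨m, hm⟩ := hloc y δ hδ
    obtain ⟨x, hx⟩ := (K m).nonempty
    exact ⟨x, hm hx, mem_iUnion.2 ⟨m, hx⟩⟩
  · exact isSigmaCompact_iUnion_of_isCompact _ fun i => (K i).isCompact
  · rintro U hU ⟨x, hx⟩
    obtain ⟨δ, hδ, hb⟩ := Metric.isOpen_iff.1 hU x hx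
    obtain ⟨m, hm⟩ := hloc x δ hδ
    have hsub : (K m : Set Y) ⊆ range (Subtype.val : (⋃ i, (K i : Set Y)) → Y) := by
      rw [Subtype.range_coe]
      exact subset_iUnion (fun i => (K i : Set Y)) m
    refine ⟨Subtype.val ⁻¹' (K m : Set Y), fun z hz => hb (hm hz), ?_, fun hc => ?_⟩
    · exact (Topology.IsInducing.subtypeVal.isCompact_preimage_iff hsub).2 (K m).isCompact
    · refine good_uncountable u hu K hG m ?_
      have := hc.image Subtype.val
      rwa [image_preimage_eq_of_subset hsub] at this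

end Pool.Agent.H41.Pl
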