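import Pool.Agent.H41.PolyDefs

set_option autoImplicit false

namespace Pool.Agent.H41.Poly

def E : Fin 8 → Sym2 (Fin 8) :=
  ![s(0, 1), s(0, 3), s(1, 2), s(2, 3), s(2, 4), s(1, 5), s(3, 6), s(4, 7)]

def fr : Fin 8 → ℕ := ![2, 3, 4, 4, 3, 12, 4, 2]

def G : SimpleGraph (Fin 8) where
  Adj u v := ∃ i, E i = s(u, v)
  symm := ⟨fun u v ⟨i, h⟩ => ⟨i, h.trans Sym2.eq_swap⟩⟩
  loopless := ⟨by decide⟩

def f (e : Sym2 (Fin 8)) : ℕ :=
  if e = s(0, 1) then 2 else if e = s(0, 3) then 3 else if e = s(1, 2) then 4 else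
  if e = s(2, 3) then 4 else if e = s(2, 4) then 3 else if e = s(1, 5) then 12 else
  if e = s(3, 6) then 4 else 2

theorem f_E : ∀ i, f (E i) = fr i := by decide
theorem f_pos (e : Sym2 (Fin 8)) : 1 ≤ f e := by unfold f; split_ifs <;> omega
theorem E_inj : Function.Injective E := by decide

theorem mem_edge (e : Sym2 (Fin 8)) : e ∈ G.edgeSet ↔ ∃ i, E i = e := by
  induction e using Sym2.ind with
  | _ u v => rfl

def force (x : ℕ) (k : ℕ → Bool) : Bool := Nat.rec (k 0) (fun n _ => k (n + 1)) x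

theorem force_eq (x : ℕ) (k : ℕ → Bool) : force x k = k x := by cases x <;> rfl

def upd (b : Bool) (c : ℕ) : ℕ := cond b 0 (c + 1)

def both (p : Bool → Bool) : Bool := p true && p false

theorem both_spec {p : Bool → Bool} (h : both p = true) (b : Bool) : p b = true := by
  unfold both at h
  cases b <;> simp_all

def dead : ℕ → ℕ → ℕ → ℕ → ℕ → ℕ → ℕ → ℕ → ℕ → Bool
  | 0 => fun _ _ _ _ _ _ _ _ => false
  | n + 1 => fun c0 c1 c2 c3 c4 c5 c6 c7 =>
    both fun b0 => force (upd b0 c0) fun d0 => Nat.ble 2 d0 ||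
    both fun b1 => force (upd b1 c1) fun d1 => (b0 && b1) || Nat.ble 3 d1 ||
    both fun b2 => force (upd b2 c2) fun d2 => (b0 && b2) || Nat.ble 4 d2 ||
    both fun b3 => force (upd b3 c3) fun d3 => (b1 && b3) || (b2 && b3) || Nat.ble 4 d3 ||
    both fun b4 => force (upd b4 c4) fun d4 => (b2 && b4) || (b3 && b4) || Nat.ble 3 d4 ||
    both fun b5 => force (upd b5 c5) fun d5 => (b0 && b5) || (b2 && b5) || Nat.ble 12 d5 ||
    both fun b6 => force (upd b6 c6) fun d6 => (b1 && b6) || (b3 && b6) || Nat.ble 4 d6 ||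
    both fun b7 => force (upd b7 c7) fun d7 => (b4 && b7) || Nat.ble 2 d7 ||
      dead n d0 d1 d2 d3 d4 d5 d6 d7

theorem dead18 : dead 18 0 0 0 0 0 0 0 0 = true := by decide +kernel

/-- number of consecutive days without the edge just before day t -/
def cnt (b : ℕ → Bool) : ℕ → ℕ
  | 0 => 0
  | t + 1 => upd (b t) (cnt b t)

theorem cnt_spec (b : ℕ → Bool) (t : ℕ) :
    cnt b t ≤ t ∧ ∀ u, t - cnt b t ≤ u → u < t → b u = false := by
  induction t with
  | zero => simp [cnt]
  | succ t ih =>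
    unfold cnt upd
    cases h : b t
    · simp only [cond_false]
      refine ⟨by omega, fun u h1 h2 => ?_⟩
      rcases Nat.lt_succ_iff_lt_or_eq.mp h2 with h3 | h3
      · exact ih.2 u (by omega) h3
      · rw [h3, h]
    · simp only [cond_true]
      exact ⟨by omega, fun u h1 h2 => by omega⟩

theorem cnt_lt (b : ℕ → Bool) (k : ℕ) (h : ∀ t, ∃ u, t ≤ u ∧ u < t + k ∧ b u = true) (t : ℕ) :
    Nat.ble k (cnt b t) = false := by
  obtain ⟨h1, h2⟩ := cnt_spec b t
  rw [← Bool.not_eq_true, Nat.ble_eq]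
  intro h3
  obtain ⟨u, g1, g2, g3⟩ := h (t - cnt b t)
  rw [h2 u g1 (by omega)] at g3
  exact absurd g3 (by simp)

theorem not_sched : ¬ Schedulable G f := by
  rintro ⟨S, hS, hw⟩
  set b : Fin 8 → ℕ → Bool := fun i t => decide (E i ∈ S t) with hb
  have hc : ∀ i t, Nat.ble (fr i) (cnt (b i) t) = false := fun i =>
    cnt_lt _ _ fun t => by
      obtain ⟨u, h1, h2, h3⟩ := hw (E i) ((mem_edge _).2 ⟨i, rfl⟩) t
      exact ⟨u, h1, f_E i ▸ h2, by simp [hb, h3]⟩
  have hm : ∀ i j (v : Fin 8), i ≠ j → v ∈ E i → v ∈ E j → ∀ t, (b i t && b j t) = false := by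
    intro i j v hij h1 h2 t
    rw [← Bool.not_eq_true, Bool.and_eq_true]
    rintro ⟨h3, h4⟩
    simp only [hb, decide_eq_true_eq] at h3 h4
    exact (hS t).2 _ h3 _ h4 (fun h => hij (E_inj h)) v h1 h2
  have key : ∀ n t, dead n (cnt (b 0) t) (cnt (b 1) t) (cnt (b 2) t) (cnt (b 3) t) (cnt (b 4) t)
      (cnt (b 5) t) (cnt (b 6) t) (cnt (b 7) t) = true → False := by
    intro n
    induction n with
    | zero => intro t h; simp [dead] at h
    | succ n ih =>
      intro t h
      apply ih (t + 1)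
      have c0 : Nat.ble 2 (upd (b 0 t) (cnt (b 0) t)) = false := hc 0 (t + 1)
      have c1 : Nat.ble 3 (upd (b 1 t) (cnt (b 1) t)) = false := hc 1 (t + 1)
      have c2 : Nat.ble 4 (upd (b 2 t) (cnt (b 2) t)) = false := hc 2 (t + 1)
      have c3 : Nat.ble 4 (upd (b 3 t) (cnt (b 3) t)) = false := hc 3 (t + 1)
      have c4 : Nat.ble 3 (upd (b 4 t) (cnt (b 4) t)) = false := hc 4 (t + 1)
      have c5 : Nat.ble 12 (upd (b 5 t) (cnt (b 5) t)) = false := hc 5 (t + 1)
      have c6 : Nat.ble 4 (upd (b 6 t) (cnt (b 6) t)) = false := hc 6 (t + 1)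
      have c7 : Nat.ble 2 (upd (b 7 t) (cnt (b 7) t)) = false := hc 7 (t + 1)
      simp only [dead, force_eq] at h
      have h0 := both_spec h (b 0 t)
      rw [c0, Bool.false_or] at h0
      have h1 := both_spec h0 (b 1 t)
      rw [c1, hm 0 1 0 (by decide) (by decide) (by decide)] at h1
      simp only [Bool.false_or] at h1
      have h2 := both_spec h1 (b 2 t)
      rw [c2, hm 0 2 1 (by decide) (by decide) (by decide)] at h2
      simp only [Bool.false_or] at h2
      have h3 := both_spec h2 (b 3 t)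
      rw [c3, hm 1 3 3 (by decide) (by decide) (by decide),
        hm 2 3 2 (by decide) (by decide) (by decide)] at h3
      simp only [Bool.false_or] at h3
      have h4 := both_spec h3 (b 4 t)
      rw [c4, hm 2 4 2 (by decide) (by decide) (by decide),
        hm 3 4 2 (by decide) (by decide) (by decide)] at h4
      simp only [Bool.false_or] at h4
      have h5 := both_spec h4 (b 5 t)
      rw [c5, hm 0 5 1 (by decide) (by decide) (by decide),
        hm 2 5 1 (by decide) (by decide) (by decide)] at h5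
      simp only [Bool.false_or] at h5
      have h6 := both_spec h5 (b 6 t)
      rw [c6, hm 1 6 3 (by decide) (by decide) (by decide),
        hm 3 6 3 (by decide) (by decide) (by decide)] at h6
      simp only [Bool.false_or] at h6
      have h7 := both_spec h6 (b 7 t)
      rw [c7, hm 4 7 4 (by decide) (by decide) (by decide)] at h7
      simp only [Bool.false_or] at h7
      exact h7
  exact key 18 0 dead18

theorem maximal_of (i j k : Fin 8)
    (h1 : ∀ e ∈ ({E i, E j, E k} : Finset (Sym2 (Fin 8))), ∀ e' ∈ ({E i, E j, E k} : Finset _),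
      e ≠ e' → ∀ v, v ∈ e → v ∉ e')
    (h2 : ∀ l, E l ∉ ({E i, E j, E k} : Finset (Sym2 (Fin 8))) →
      ∃ e ∈ ({E i, E j, E k} : Finset (Sym2 (Fin 8))), ∃ v, v ∈ e ∧ v ∈ E l) :
    Maximal (IsMatching G) {E i, E j, E k} := by
  refine ⟨⟨fun e he => ?_, h1⟩, fun M hM hle e he => ?_⟩
  · simp only [Finset.mem_insert, Finset.mem_singleton] at he
    rcases he with rfl | rfl | rfl <;> exact (mem_edge _).2 ⟨_, rfl⟩
  · by_contra hne
    obtain ⟨l, rfl⟩ := (mem_edge _).1 (hM.1 e he)
    obtain ⟨e', h3, v, h4, h5⟩ := h2 l hne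
    exact hM.2 e' (hle h3) _ he (fun h => hne (h ▸ h3)) v h4 h5

theorem density_le : polyDensity G f ≤ 5 / 6 := by
  classical
  refine Real.sSup_le ?_ (by norm_num)
  rintro _ ⟨z, hz, hsum, rfl⟩
  have hE : G.edgeFinset = Finset.univ.image E := by
    ext e; simp [mem_edge]
  have hsum' : ∑ i, z (E i) = 1 := by
    rw [← Finset.sum_image (fun a _ b _ h => E_inj h), ← hsum]
    congr 1
    convert hE.symm
  have hbdd : BddAbove {w | ∃ M, Maximal (IsMatching G) M ∧ w = ∑ e ∈ M, z e * f e} :=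
    (Set.Finite.subset (Set.finite_range fun M : Finset (Sym2 (Fin 8)) => ∑ e ∈ M, z e * f e)
      (by rintro _ ⟨M, -, rfl⟩; exact ⟨M, rfl⟩)).bddAbove
  have hle : ∀ i j k : Fin 8, i ≠ j → i ≠ k → j ≠ k → Maximal (IsMatching G) {E i, E j, E k} →
      z (E i) * fr i + z (E j) * fr j + z (E k) * fr k ≤ maxWeight G f z := by
    intro i j k h1 h2 h3 hM
    refine le_trans (le_of_eq ?_) (le_csSup hbdd ⟨_, hM, rfl⟩)
    rw [Finset.sum_insert (by simp [E_inj.ne h1, E_inj.ne h2]),
      Finset.sum_insert (by simp [E_inj.ne h3]), Finset.sum_singleton, f_E, f_E, f_E, add_assoc]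
  have m1 := hle 1 2 7 (by decide) (by decide) (by decide) (maximal_of _ _ _ (by decide) (by decide))
  have m2 := hle 1 5 4 (by decide) (by decide) (by decide) (maximal_of _ _ _ (by decide) (by decide))
  have m3 := hle 0 3 7 (by decide) (by decide) (by decide) (maximal_of _ _ _ (by decide) (by decide))
  have m4 := hle 0 6 4 (by decide) (by decide) (by decide) (maximal_of _ _ _ (by decide) (by decide))
  rw [Fin.sum_univ_eight] at hsum'
  have e0 : fr 0 = 2 := rfl
  have e1 : fr 1 = 3 := rfl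
  have e2 : fr 2 = 4 := rfl
  have e3 : fr 3 = 4 := rfl
  have e4 : fr 4 = 3 := rfl
  have e5 : fr 5 = 12 := rfl
  have e6 : fr 6 = 4 := rfl
  have e7 : fr 7 = 2 := rfl
  simp only [e0, e1, e2, e3, e4, e5, e6, e7] at m1 m2 m3 m4
  push_cast at m1 m2 m3 m4
  have h65 : 6 / 5 ≤ maxWeight G f z := by linarith
  rw [div_le_iff₀ (by linarith)]
  linarith

end Pool.Agent.H41.Poly
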