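import Mathlib

set_option autoImplicit false

namespace Pool.Agent.H41.Poly

variable {n : ℕ}

/-- M is a matching of G: a set of edges of G, no two of which share a vertex -/
def IsMatching (G : SimpleGraph (Fin n)) (M : Finset (Sym2 (Fin n))) : Prop :=
  (∀ e ∈ M, e ∈ G.edgeSet) ∧ ∀ e ∈ M, ∀ e' ∈ M, e ≠ e' → ∀ v, v ∈ e → v ∉ e'

/-- there is a schedule of matchings in which every edge e occurs in every window of f e days -/
def Schedulable (G : SimpleGraph (Fin n)) (f : Sym2 (Fin n) → ℕ) : Prop :=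
  ∃ S : ℕ → Finset (Sym2 (Fin n)), (∀ t, IsMatching G (S t)) ∧
    ∀ e ∈ G.edgeSet, ∀ t, ∃ u, t ≤ u ∧ u < t + f e ∧ e ∈ S u

/-- the largest value of the sum of z e * f e over an inclusion-maximal matching -/
noncomputable def maxWeight (G : SimpleGraph (Fin n)) (f : Sym2 (Fin n) → ℕ)
    (z : Sym2 (Fin n) → ℝ) : ℝ :=
  sSup {w | ∃ M, Maximal (IsMatching G) M ∧ w = ∑ e ∈ M, z e * f e}

open Classical in
/-- the poly density -/
noncomputable def polyDensity (G : SimpleGraph (Fin n)) (f : Sym2 (Fin n) → ℕ) : ℝ :=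
  sSup {d | ∃ z : Sym2 (Fin n) → ℝ, (∀ e ∈ G.edgeSet, 0 ≤ z e ∧ z e ≤ 1) ∧
    ∑ e ∈ G.edgeFinset, z e = 1 ∧ d = 1 / maxWeight G f z}

end Pool.Agent.H41.Poly
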