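import Pool.Agent.H41.Polymer1

set_option autoImplicit false

namespace Pool.Agent.H41.Polymer

open MeasureTheory ProbabilityTheory Finset Pool.Agent.H41.Frog
open scoped ENNReal

noncomputable def up (i : ℕ) : ℝ := (i + 1) / (2 * i + 1)
noncomputable def dn (i : ℕ) : ℝ := i / (2 * i + 1)
lemma up_nn (i : ℕ) : 0 ≤ up i := by unfold up; positivity
lemma dn_nn (i : ℕ) : 0 ≤ dn i := by unfold dn; positivity
lemma up_dn (i : ℕ) : up i + dn i = 1 := by unfold up dn; field_simp; ring

noncomputable def f (i j : ℕ) : ℝ := 1 + 6 / (i * (i + 1) + j * (j + 1) + 6)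

lemma f_bd (i j : ℕ) : 1 ≤ f i j ∧ f i j ≤ 2 := by
  have : (6 : ℝ) / (i * (i + 1) + j * (j + 1) + 6) ≤ 1 :=
    (div_le_one (by positivity)).2 (le_add_of_nonneg_left (by positivity))
  have : (0 : ℝ) ≤ 6 / (i * (i + 1) + j * (j + 1) + 6) := by positivity
  unfold f; constructor <;> linarith

noncomputable def ε (i j : ℕ) : ℝ := f i j - (up i * (up j * f (i + 1) (j + 1) + dn j * f (i + 1) (j - 1)) +
  dn i * (up j * f (i - 1) (j + 1) + dn j * f (i - 1) (j - 1)))

lemma ε_pos (i j : ℕ) : 0 < ε i j := by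
  unfold ε f up dn
  rcases i with _ | i <;> rcases j with _ | j <;>
    simp only [Nat.add_sub_cancel, Nat.zero_sub] <;> push_cast <;> field_simp <;> ring_nf <;>
    positivity

noncomputable def N (k : ℕ) : ℕ := ⌈∑ q ∈ range (k + 2) ×ˢ range (k + 2), 4 / ε q.1 q.2⌉₊ + 1

lemma N_pos (k : ℕ) : 0 < N k := Nat.succ_pos _

lemma N_ge {i j k : ℕ} (hi : i ≤ k + 1) (hj : j ≤ k + 1) : 4 / N k ≤ ε i j := by
  have h := single_le_sum (f := fun q : ℕ × ℕ => 4 / ε q.1 q.2) (s := range (k + 2) ×ˢ range (k + 2))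
    (fun q _ => (div_pos four_pos (ε_pos _ _)).le) (a := (i, j)) (by simp; omega)
  have h2 := Nat.le_ceil (∑ q ∈ range (k + 2) ×ˢ range (k + 2), 4 / ε q.1 q.2)
  have h3 : 4 / ε i j ≤ N k := by unfold N; push_cast; linarith
  rwa [div_le_comm₀ (by exact_mod_cast N_pos k) (ε_pos _ _)]

abbrev V := Σ k, Fin (N k)

instance : MeasurableSpace V := ⊤
instance : DiscreteMeasurableSpace V := ⟨fun _ => trivial⟩

noncomputable def pr (i k : ℕ) : ℝ := if k = i + 1 then up i else if k + 1 = i then dn i else 0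

noncomputable def avg (g : V → ℝ≥0∞) (k : ℕ) : ℝ≥0∞ := (∑ a : Fin (N k), g ⟨k, a⟩) / N k

lemma tsumP0 (i : ℕ) (g : V → ℝ≥0∞) : ∑' y : V, ENNReal.ofReal (pr i y.1) / N y.1 * g y =
    ENNReal.ofReal (up i) * avg g (i + 1) + ENNReal.ofReal (dn i) * avg g (i - 1) := by
  have e : ∀ k, ∑' a : Fin (N k), ENNReal.ofReal (pr i k) / N k * g ⟨k, a⟩ =
      ENNReal.ofReal (pr i k) * avg g k := fun k => by
    rw [tsum_fintype, ← mul_sum, avg, div_eq_mul_inv, div_eq_mul_inv]; ring
  rw [ENNReal.tsum_sigma']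
  simp only [e]
  rw [tsum_eq_sum (s := {i + 1, i - 1}) fun k hk => by
    simp only [mem_insert, mem_singleton, not_or] at hk
    rw [pr, if_neg hk.1, if_neg (by omega)]; simp, sum_pair (by omega), pr, if_pos rfl]
  rcases i with _ | i
  · simp [pr, dn]
  · rw [pr, if_neg (by omega), if_pos (by omega)]

lemma N_ne (k : ℕ) : (N k : ℝ≥0∞) ≠ 0 := by simpa using (N_pos k).ne'

lemma avg_le {g : V → ℝ≥0∞} {k : ℕ} {c : ℝ≥0∞} (h : ∀ a, g ⟨k, a⟩ ≤ c) : avg g k ≤ c := by
  refine ENNReal.div_le_of_le_mul' ((sum_le_card_nsmul _ _ c fun a _ => h a).trans ?_)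
  simp

lemma ud (i : ℕ) : ENNReal.ofReal (up i) + ENNReal.ofReal (dn i) = 1 := by
  rw [← ENNReal.ofReal_add (up_nn i) (dn_nn i), up_dn, ENNReal.ofReal_one]

noncomputable def P (x : V) : PMF V := ⟨fun y => ENNReal.ofReal (pr x.1 y.1) / N y.1, by
  have := tsumP0 x.1 fun _ => 1
  have e : ∀ k, avg (fun _ => 1) k = 1 := fun k => by
    simp [avg, ENNReal.div_self (N_ne k)]
  simp only [mul_one, e, ud] at this
  exact this ▸ ENNReal.summable.hasSum⟩

lemma P_apply (x y : V) : P x y = ENNReal.ofReal (pr x.1 y.1) / N y.1 := rfl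

lemma tsumP (x : V) (g : V → ℝ≥0∞) : ∑' y : V, P x y * g y =
    ENNReal.ofReal (up x.1) * avg g (x.1 + 1) + ENNReal.ofReal (dn x.1) * avg g (x.1 - 1) :=
  tsumP0 _ _

lemma tsumP_le (x : V) {g : V → ℝ≥0∞} {h : ℕ → ℝ} (h0 : ∀ k, 0 ≤ h k)
    (hg : ∀ y, g y ≤ ENNReal.ofReal (h y.1)) :
    ∑' y : V, P x y * g y ≤ ENNReal.ofReal (up x.1 * h (x.1 + 1) + dn x.1 * h (x.1 - 1)) := by
  rw [tsumP, ENNReal.ofReal_add (mul_nonneg (up_nn _) (h0 _)) (mul_nonneg (dn_nn _) (h0 _)),
    ENNReal.ofReal_mul (up_nn _), ENNReal.ofReal_mul (dn_nn _)]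
  gcongr <;> exact avg_le fun a => hg _

def G : SimpleGraph V where
  Adj x y := x.1 + 1 = y.1 ∨ y.1 + 1 = x.1
  symm := ⟨fun _ _ h => h.symm⟩
  loopless := ⟨fun _ h => by omega⟩

lemma P_ne (x y : V) : P x y ≠ 0 ↔ G.Adj x y := by
  rw [P_apply, ne_eq, ENNReal.div_eq_zero_iff, ENNReal.ofReal_eq_zero, pr]
  simp only [ENNReal.natCast_ne_top, or_false, not_le, G]
  split_ifs with h1 h2
  · exact iff_of_true (by unfold up; positivity) (by omega)
  · refine iff_of_true ?_ (by omega)
    rw [← h2, dn]; positivity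
  · exact iff_of_false (lt_irrefl _) (by omega)

lemma conn : G.Connected := by
  have h : ∀ k a, G.Reachable ⟨1, ⟨0, N_pos 1⟩⟩ ⟨k, a⟩ := by
    intro k
    induction k with
    | zero => exact fun a => SimpleGraph.Adj.reachable (Or.inr rfl)
    | succ k ih => exact fun a => (ih ⟨0, N_pos k⟩).trans (SimpleGraph.Adj.reachable (Or.inl rfl))
  have : Nonempty V := ⟨⟨1, ⟨0, N_pos 1⟩⟩⟩
  exact ⟨fun u v => (h u.1 u.2).symm.trans (h v.1 v.2)⟩

lemma fin_supp (x : V) : (P x).support.Finite := by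
  refine (((range (x.1 + 2)).sigma fun _ => univ).finite_toSet).subset fun y hy => ?_
  have := (P_ne x y).1 hy
  simp only [G] at this
  simp; omega

noncomputable def π (x : V) : ℝ := (2 * x.1 + 1) / N x.1

lemma rev (x y : V) : π x * (P x y).toReal = π y * (P y x).toReal := by
  have nn : ∀ i k, 0 ≤ pr i k := fun i k => by
    unfold pr; split_ifs; exacts [up_nn _, dn_nn _, le_rfl]
  have : (2 * x.1 + 1 : ℝ) * pr x.1 y.1 = (2 * y.1 + 1) * pr y.1 x.1 := by
    unfold pr up dn
    split_ifs with h1 h2 h3 h4 h5 h6 h7 h8 <;> try omega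
    · rw [h1]; field_simp; push_cast; ring
    · rw [h5]; field_simp; push_cast; ring
    · simp
  simp only [P_apply, ENNReal.toReal_div, ENNReal.toReal_ofReal (nn _ _), ENNReal.toReal_natCast, π]
  calc _ = (2 * x.1 + 1 : ℝ) * pr x.1 y.1 / (N x.1 * N y.1) := by ring
    _ = _ := by rw [this]; ring

lemma const_of_sub {a : ℕ → ℝ} (h0 : ∀ k, 0 ≤ a k) (h1 : ∀ k, a k ≤ 1)
    (h : ∀ k, a k ≤ up k * a (k + 1) + dn k * a (k - 1)) (k : ℕ) : a (k + 1) = a k := by
  have s : ∀ k : ℕ, (k + 1 : ℝ) * (a (k + 1) - a k) ≤ (k + 2) * (a (k + 2) - a (k + 1)) := fun k => by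
    have := h (k + 1)
    simp only [up, dn, Nat.add_sub_cancel, div_mul_eq_mul_div, ← add_div] at this
    rw [le_div_iff₀ (by positivity)] at this
    push_cast at this
    linarith
  have m : Monotone fun k : ℕ => (k + 1 : ℝ) * (a (k + 1) - a k) :=
    monotone_nat_of_le_succ fun k => by push_cast; linarith [s k]
  have p : ∀ k : ℕ, 0 ≤ a (k + 1) - a k := fun k => by
    have := m (Nat.zero_le k)
    have h0 := h 0
    simp [up, dn] at h0 this
    exact nonneg_of_mul_nonneg_right (by linarith) (by positivity : (0 : ℝ) < k + 1) 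
  by_contra ne
  refine Derrw.not_sum (f := fun k => a (k + 1) - a k) (a := k) one_pos
    (c := (k + 1 : ℝ) * (a (k + 1) - a k))
    (mul_pos (by positivity) (lt_of_le_of_ne (p k) (sub_ne_zero.2 ne).symm)) (fun t => ?_)
    (summable_of_sum_range_le p (c := 1) fun n => ?_)
  · rw [div_le_iff₀' (by positivity)]
    exact m (by omega : k ≤ k + 1 * t)
  · rw [sum_range_sub]; linarith [h0 0, h1 n]

theorem recurrent : Recurrent P := by
  intro x
  have mS : ∀ p : ℕ → Prop, MeasurableSet {w : ℕ → V | ∀ n, p n → w n ≠ x} := fun p => by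
    measurability
  have mk : ∀ (y : V) (S : Set (ℕ → V)), MeasurableSet S → chainLaw P {η | walk η y ∈ S} =
      ∑' z, P y z * chainLaw P {η | walk η z ∈ cons y ⁻¹' S} := fun y S hS => by
    have := markovL P y (measurable_one.indicator hS)
    refine ((lintegral_indicator_one (meas_walk y hS)).symm.trans this).trans
      (tsum_congr fun z => ?_)
    congr 1
    exact lintegral_indicator_one (meas_walk z (meas_cons y hS))
  set g : V → ℝ≥0∞ := fun y => chainLaw P {η | walk η y ∈ {w | ∀ n, True → w n ≠ x}} with hg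
  have g1 : ∀ k, avg g k ≤ 1 := fun k => avg_le fun a => prob_le_one
  set h : ℕ → ℝ≥0∞ := fun j => ENNReal.ofReal (up j) * avg g (j + 1) +
    ENNReal.ofReal (dn j) * avg g (j - 1) with hh
  have g2 : ∀ y, g y ≤ h y.1 := fun y => by
    rw [hg, hh]; simp only
    rw [mk y _ (mS _), ← tsumP]
    refine ENNReal.tsum_le_tsum fun z => mul_le_mul_right (measure_mono ?_) _
    exact fun η hη n _ => hη (n + 1) trivial
  have gt : ∀ k, avg g k ≠ ∞ := fun k => ne_top_of_le_ne_top ENNReal.one_ne_top (g1 k)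
  have c := const_of_sub (a := fun k => (avg g k).toReal) (fun _ => ENNReal.toReal_nonneg)
    (fun k => by simpa using ENNReal.toReal_mono ENNReal.one_ne_top (g1 k)) fun k => by
      have := ENNReal.toReal_mono (b := h k) (by simp [hh, ENNReal.mul_eq_top, gt])
        (avg_le fun a => g2 ⟨k, a⟩)
      rwa [hh, ENNReal.toReal_add (by simp [ENNReal.mul_eq_top, gt])
        (by simp [ENNReal.mul_eq_top, gt]), ENNReal.toReal_mul, ENNReal.toReal_mul,
        ENNReal.toReal_ofReal (up_nn _), ENNReal.toReal_ofReal (dn_nn _)] at this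
  have c1 : ∀ k, avg g k = avg g 0 := fun k => by
    induction k with
    | zero => rfl
    | succ k ih => rw [← ih]; exact (ENNReal.toReal_eq_toReal_iff' (gt _) (gt _)).1 (c k)
  have c2 : ∀ k, h k = avg g 0 := fun k => by
    rw [hh]; simp only; rw [c1, c1 (k - 1), ← add_mul, ud, one_mul]
  have gx : g x = 0 := by
    rw [hg]; simp only
    refine measure_mono_null ?_ measure_empty
    exact fun η hη => hη 0 trivial rfl
  have z : avg g 0 = 0 := by
    have e := c1 x.1
    rw [avg, eq_comm, ENNReal.eq_div_iff (N_ne _) (by simp)] at e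
    have : ∑ a : Fin (N x.1), (g ⟨x.1, a⟩ + if a = x.2 then avg g 0 else 0) ≤
        ∑ _a : Fin (N x.1), avg g 0 := sum_le_sum fun a _ => by
      split_ifs with ha
      · rw [ha, gx, zero_add]
      · rw [add_zero, ← c2 x.1]; exact g2 _
    rw [sum_add_distrib, ← e, sum_ite_eq', if_pos (mem_univ _), sum_const, card_univ,
      Fintype.card_fin, nsmul_eq_mul] at this
    exact le_zero_iff.1 ((ENNReal.add_le_add_iff_left (ENNReal.mul_ne_top (by simp) (gt 0))).1
      (this.trans (add_zero _).ge))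
  rw [ae_iff]
  have := mk x _ (mS fun n => 0 < n)
  refine le_antisymm (le_trans (measure_mono fun η hη => ?_) (this.trans_le ?_)) zero_le
  · simpa using hη
  · rw [← z, ← c2 x.1, hh]; simp only; rw [← tsumP]
    refine ENNReal.tsum_le_tsum fun z => mul_le_mul_right (measure_mono ?_) _
    exact fun η hη n _ => hη (n + 1) (Nat.succ_pos n)

noncomputable def ν : Measure ℝ := bernoulliMeasure 1 (-1) ⟨1 / 2, by norm_num, by norm_num⟩

instance : IsProbabilityMeasure ν := by unfold ν; infer_instance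

lemma ν_int (F : ℝ → ℝ) : ∫ t, F t ∂ν = (F 1 + F (-1)) / 2 := by
  rw [ν, integral_bernoulliMeasure]; simp; ring

lemma ν_lint {F : ℝ → ℝ} (h : ∀ t, 0 ≤ F t) :
    ∫⁻ t, ENNReal.ofReal (F t) ∂ν = ENNReal.ofReal ((F 1 + F (-1)) / 2) := by
  rw [← ν_int, ν, ofReal_integral_eq_lintegral_ofReal (integrable_bernoulliMeasure _ _ _ _)
    (ae_of_all _ h)]

lemma pair (β : ℝ) (y y' : V) : ∫⁻ a : V → ℝ, ENNReal.ofReal (Real.exp (β * a y)) *
    ENNReal.ofReal (Real.exp (β * a y')) ∂(Measure.infinitePi fun _ => ν) ≤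
      ENNReal.ofReal (Real.cosh β ^ 2) * (1 + if y' = y then 1 else 0) := by
  have c : ∫⁻ t, ENNReal.ofReal (Real.exp (β * t)) ∂ν = ENNReal.ofReal (Real.cosh β) := by
    rw [ν_lint fun t => (Real.exp_pos _).le, Real.cosh_eq]; simp
  split_ifs with h
  · subst h
    refine ((measurePreserving_eval_infinitePi (fun _ : V => ν) y').lintegral_comp
      (f := fun t => ENNReal.ofReal (Real.exp (β * t)) * ENNReal.ofReal (Real.exp (β * t)))
      (by fun_prop)).trans_le ?_
    simp only [← ENNReal.ofReal_mul (Real.exp_pos _).le]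
    rw [ν_lint fun t => by positivity, one_add_one_eq_two, ← ENNReal.ofReal_ofNat 2,
      ← ENNReal.ofReal_mul (by positivity), Real.cosh_eq]
    refine ENNReal.ofReal_le_ofReal ?_
    have := mul_pos (Real.exp_pos β) (Real.exp_pos (-β))
    simp only [mul_one, mul_neg]
    nlinarith
  · have := Measure.infinitePi_map_eval_prod (P := fun _ : V => ν) (Ne.symm h)
    have e := lintegral_map (μ := Measure.infinitePi fun _ : V => ν) (g := fun a => (a y, a y'))
      (f := fun q : ℝ × ℝ => ENNReal.ofReal (Real.exp (β * q.1)) * ENNReal.ofReal (Real.exp (β * q.2)))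
      (by fun_prop) (by fun_prop)
    rw [← e, this, lintegral_prod_mul (f := fun t => ENNReal.ofReal (Real.exp (β * t)))
      (g := fun t => ENNReal.ofReal (Real.exp (β * t))) (by fun_prop) (by fun_prop), c, add_zero,
      mul_one, sq, ENNReal.ofReal_mul (Real.cosh_pos _).le]

lemma second (β : ℝ) (n : ℕ) : ∀ x x' : V, ∫⁻ ω, Z P β n x ω * Z P β n x' ω ∂envLaw V ν ≤
    ENNReal.ofReal (Real.cosh β ^ 2) ^ n * ENNReal.ofReal (f x.1 x'.1) := by
  have : IsProbabilityMeasure (envLaw V ν) := by unfold envLaw; infer_instance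
  have f0 : ∀ i j, 0 ≤ f i j := fun i j => zero_le_one.trans (f_bd i j).1
  induction n with
  | zero => intro x x'; simpa [Z_zero] using (f_bd _ _).1
  | succ n ih =>
    intro x x'
    set c := ENNReal.ofReal (Real.cosh β ^ 2)
    have a1 : ∑' y, P x y * ∑' y', P x' y' * ENNReal.ofReal (f y.1 y'.1) ≤
        ENNReal.ofReal (f x.1 x'.1 - ε x.1 x'.1) := by
      rw [ε, sub_sub_cancel]
      exact tsumP_le x (h := fun k => up x'.1 * f k (x'.1 + 1) + dn x'.1 * f k (x'.1 - 1))
        (fun k => add_nonneg (mul_nonneg (up_nn _) (f0 _ _)) (mul_nonneg (dn_nn _) (f0 _ _)))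
        fun y => tsumP_le x' (h := f y.1) (f0 _) fun _ => le_rfl
    have a2 : ∑' y, P x y * (P x' y * 2) ≤ ENNReal.ofReal (ε x.1 x'.1) := by
      refine le_trans (ENNReal.tsum_le_tsum fun y => ?_)
        (le_of_eq (b := ENNReal.ofReal (ε x.1 x'.1)) (a := ∑' y, P x y * ENNReal.ofReal (ε x.1 x'.1))
          (by rw [ENNReal.tsum_mul_right, PMF.tsum_coe, one_mul]))
      by_cases h1 : P x y = 0
      · simp [h1]
      by_cases h2 : P x' y = 0
      · simp [h2]
      have b1 := (P_ne _ _).1 h1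
      have b2 := (P_ne _ _).1 h2
      simp only [G] at b1 b2
      refine mul_le_mul_right (le_trans ?_ (ENNReal.ofReal_le_ofReal
        (N_ge (k := y.1) (by omega) (by omega)))) _
      have : pr x'.1 y.1 ≤ 1 := by
        have := up_dn x'.1
        unfold pr; split_ifs <;> linarith [up_nn x'.1, dn_nn x'.1]
      rw [P_apply, ENNReal.ofReal_div_of_pos (by exact_mod_cast N_pos _), ENNReal.ofReal_natCast,
        div_eq_mul_inv, div_eq_mul_inv, mul_right_comm]
      gcongr
      exact (mul_le_mul_left (ENNReal.ofReal_le_one.2 this) 2).trans (by norm_num)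
    rw [Z_two]
    calc _ ≤ ∑' y, P x y * ∑' y', P x' y' * (c ^ (n + 1) * (ENNReal.ofReal (f y.1 y'.1) +
          if y' = y then 2 else 0)) := by
          refine ENNReal.tsum_le_tsum fun y => mul_le_mul_right
            (ENNReal.tsum_le_tsum fun y' => mul_le_mul_right ?_ _) _
          refine (mul_le_mul' (pair β y y') (ih y y')).trans ?_
          rw [mul_mul_mul_comm, ← pow_succ', add_mul, one_mul]
          gcongr
          split_ifs
          · simpa using (f_bd _ _).2
          · simp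
      _ = c ^ (n + 1) * (∑' y, P x y * ∑' y', P x' y' * ENNReal.ofReal (f y.1 y'.1) +
          ∑' y, P x y * (P x' y * 2)) := by
          rw [← ENNReal.tsum_add, ← ENNReal.tsum_mul_left]
          refine tsum_congr fun y => ?_
          simp only [mul_left_comm _ (c ^ (n + 1)), ENNReal.tsum_mul_left, mul_add (P x' _),
            ENNReal.tsum_add, mul_ite, mul_zero, tsum_ite_eq]
          ring
      _ ≤ _ := by
          gcongr
          refine (add_le_add a1 a2).trans (le_of_eq ?_)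
          rw [← ENNReal.ofReal_add _ (ε_pos _ _).le, sub_add_cancel]
          rw [ε, sub_sub_cancel]
          exact add_nonneg (mul_nonneg (up_nn _) (add_nonneg (mul_nonneg (up_nn _) (f0 _ _))
            (mul_nonneg (dn_nn _) (f0 _ _)))) (mul_nonneg (dn_nn _) (add_nonneg
              (mul_nonneg (up_nn _) (f0 _ _)) (mul_nonneg (dn_nn _) (f0 _ _))))

theorem L2 (β : ℝ) (x : V) (n : ℕ) : ∫⁻ ω, W P ν β n x ω ^ 2 ∂envLaw V ν ≤ 2 := by
  have c : ∫ t, Real.exp (β * t) ∂ν = Real.cosh β := by rw [ν_int, Real.cosh_eq]; simp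
  have p := Real.cosh_pos β
  simp only [W, mul_pow, c]
  rw [lintegral_mul_const' _ _ (by finiteness), ← Real.log_pow, Real.exp_neg,
    Real.exp_log (by positivity)]
  simp only [sq (Z _ _ _ _ _)]
  refine (mul_le_mul_left (second β n x x) _).trans ?_
  rw [mul_right_comm, ← ENNReal.ofReal_pow (by positivity), ← ENNReal.ofReal_pow (by positivity),
    ← ENNReal.ofReal_mul (by positivity), ← pow_mul, mul_comm 2 n, pow_mul, ← mul_pow,
    mul_inv_cancel₀ (by positivity)]
  simpa using (f_bd _ _).2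

end Pool.Agent.H41.Polymer
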