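import Pool.Agent.H41.FrogDefs

set_option autoImplicit false

namespace Pool.Agent.H41.Polymer

open MeasureTheory Pool.Agent.H41.Frog
open scoped ENNReal

variable {V : Type} [MeasurableSpace V]

/-- Independent instructions `η n v` with law `P v`; under this law `walk η x` is the Markov chain
with transition matrix `P` started at `x`. -/
noncomputable def chainLaw (P : V → PMF V) : Measure (ℕ → V → V) :=
  Measure.infinitePi fun _ => Measure.infinitePi fun v => (P v).toMeasure

/-- From every vertex the chain almost surely returns to it. -/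
def Recurrent (P : V → PMF V) : Prop :=
  ∀ x, ∀ᵐ η ∂chainLaw P, ∃ n, 0 < n ∧ walk η x n = x

/-- i.i.d. environment with law `ν`; `ω i y` is the variable `ω(i+1, y)`. -/
noncomputable def envLaw (V : Type) (ν : Measure ℝ) : Measure (ℕ → V → ℝ) :=
  Measure.infinitePi fun _ => Measure.infinitePi fun _ => ν

/-- The partition function `Z_n(x)`. -/
noncomputable def Z (P : V → PMF V) (β : ℝ) (n : ℕ) (x : V) (ω : ℕ → V → ℝ) : ℝ≥0∞ :=
  ∫⁻ η, ENNReal.ofReal (Real.exp (β * ∑ i ∈ Finset.range n, ω i (walk η x (i + 1)))) ∂chainLaw P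

/-- `W_n(x, β) = Z_n(x) e^{-n Λ(β)}` with `Λ(β) = log E[e^{β ω}]`. -/
noncomputable def W (P : V → PMF V) (ν : Measure ℝ) (β : ℝ) (n : ℕ) (x : V) (ω : ℕ → V → ℝ) :
    ℝ≥0∞ :=
  Z P β n x ω * ENNReal.ofReal (Real.exp (-(n * Real.log (∫ t, Real.exp (β * t) ∂ν))))

end Pool.Agent.H41.Polymer
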