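import Pool.Agent.H41.PropSDefs

namespace Pool.Agent.H41.PropS

open scoped Matrix.Norms.Operator BoundedContinuousFunction
open Filter Topology

abbrev L1 : Type := lp (fun _ : ℕ => ℂ) 1

theorem sumL (u : L1) : Summable fun n => ‖u n‖ := by
  have := (lp.memℓp u).summable (by simp : 0 < (1 : ENNReal).toReal)
  simpa using this

theorem normL (u : L1) : ‖u‖ = ∑' n, ‖u n‖ := by
  have := lp.norm_eq_tsum_rpow (by simp : 0 < (1 : ENNReal).toReal) u
  simpa using this

def mkL (f : ℕ → ℂ) (h : Summable fun n => ‖f n‖) : L1 :=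
  ⟨f, memℓp_gen (by simpa using h)⟩

@[simp] theorem mkL_apply (f : ℕ → ℂ) (h) (n : ℕ) : mkL f h n = f n := rfl

theorem apply_le (u : L1) (n : ℕ) : ‖u n‖ ≤ ‖u‖ := lp.norm_apply_le_norm (by simp) u n

theorem pm_sum (u v : L1) : Summable fun n => ‖u n * v n‖ := by
  refine Summable.of_nonneg_of_le (fun _ => norm_nonneg _) (fun n => ?_) ((sumL u).mul_right ‖v‖)
  rw [norm_mul]
  exact mul_le_mul_of_nonneg_left (apply_le v n) (norm_nonneg _)

noncomputable def pm (u v : L1) : L1 := mkL (fun n => u n * v n) (pm_sum u v)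

@[simp] theorem pm_apply (u v : L1) (n : ℕ) : pm u v n = u n * v n := rfl

theorem pm_norm (u v : L1) : ‖pm u v‖ ≤ ‖u‖ * ‖v‖ := by
  rw [normL (pm u v), normL u, ← tsum_mul_right]
  refine (pm_sum u v).tsum_le_tsum (fun n => ?_) ((sumL u).mul_right ‖v‖)
  rw [pm_apply, norm_mul]
  exact mul_le_mul_of_nonneg_left (apply_le v n) (norm_nonneg _)

/-- The nilpotent algebra. -/
def NN : Type := L1 × L1

noncomputable instance : NormedAddCommGroup NN := inferInstanceAs (NormedAddCommGroup (L1 × L1))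
noncomputable instance : NormedSpace ℂ NN := inferInstanceAs (NormedSpace ℂ (L1 × L1))
instance : CompleteSpace NN := inferInstanceAs (CompleteSpace (L1 × L1))

def NN.u (a : NN) : L1 := Prod.fst a
def NN.w (a : NN) : L1 := Prod.snd a
def NN.mk (u w : L1) : NN := (u, w)

@[simp] theorem mk_u (u w : L1) : (NN.mk u w).u = u := rfl
@[simp] theorem mk_w (u w : L1) : (NN.mk u w).w = w := rfl
@[simp] theorem add_u (a b : NN) : (a + b).u = a.u + b.u := rfl
@[simp] theorem add_w (a b : NN) : (a + b).w = a.w + b.w := rfl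
@[simp] theorem sub_u (a b : NN) : (a - b).u = a.u - b.u := rfl
@[simp] theorem sub_w (a b : NN) : (a - b).w = a.w - b.w := rfl
@[simp] theorem smul_u (c : ℂ) (a : NN) : (c • a).u = c • a.u := rfl
@[simp] theorem smul_w (c : ℂ) (a : NN) : (c • a).w = c • a.w := rfl
@[simp] theorem zero_u : (0 : NN).u = 0 := rfl
@[simp] theorem zero_w : (0 : NN).w = 0 := rfl

theorem NN.ext' {a b : NN} (h1 : ∀ n, a.u n = b.u n) (h2 : ∀ n, a.w n = b.w n) : a = b :=
  Prod.ext (lp.ext (funext h1)) (lp.ext (funext h2))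

theorem norm_NN (a : NN) : ‖a‖ = max ‖a.u‖ ‖a.w‖ := rfl
theorem u_le (a : NN) : ‖a.u‖ ≤ ‖a‖ := le_max_left _ _
theorem w_le (a : NN) : ‖a.w‖ ≤ ‖a‖ := le_max_right _ _

noncomputable instance : Mul NN := ⟨fun a b => NN.mk 0 (pm a.u b.u)⟩

@[simp] theorem mul_u (a b : NN) : (a * b).u = 0 := rfl
@[simp] theorem mul_w (a b : NN) : (a * b).w = pm a.u b.u := rfl

noncomputable instance : NonUnitalNormedRing NN where
  __ := (inferInstance : NormedAddCommGroup NN)
  left_distrib a b c := NN.ext' (by simp) (by simp [mul_add])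
  right_distrib a b c := NN.ext' (by simp) (by simp [add_mul])
  zero_mul a := NN.ext' (by simp) (by simp)
  mul_zero a := NN.ext' (by simp) (by simp)
  mul_assoc a b c := NN.ext' (by simp) (by simp)
  norm_mul_le a b := by
    rw [norm_NN (a * b), mul_u, mul_w, norm_zero]
    refine max_le (by positivity) ((pm_norm _ _).trans ?_)
    exact mul_le_mul (u_le a) (u_le b) (norm_nonneg _) (norm_nonneg _)

instance : IsScalarTower ℂ NN NN := ⟨fun c a b => NN.ext' (by simp) (by simp [mul_assoc])⟩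
instance : SMulCommClass ℂ NN NN := ⟨fun c a b => NN.ext' (by simp) (by simp [mul_left_comm])⟩

abbrev M4 : Type := Matrix (Fin 4) (Fin 4) ℂ

instance : CompleteSpace M4 := FiniteDimensional.complete ℂ M4

noncomputable def rr (n : ℕ) : ℂ := 1 / ((n : ℂ) + 1) ^ 2

theorem norm_rr (n : ℕ) : ‖rr n‖ = 1 / ((n : ℝ) + 1) ^ 2 := by
  unfold rr
  rw [norm_div, norm_pow, norm_one]
  have : ((n : ℂ) + 1) = (((n : ℝ) + 1 : ℝ) : ℂ) := by push_cast; rfl
  rw [this, Complex.norm_real, Real.norm_of_nonneg (by positivity)]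

theorem rr_le (n : ℕ) : ‖rr n‖ ≤ 1 := by
  rw [norm_rr, div_le_one (by positivity)]
  have : (0 : ℝ) ≤ n := Nat.cast_nonneg n
  nlinarith

theorem rr_sum : Summable fun n => ‖rr n‖ := by
  simp_rw [norm_rr]
  have := (summable_nat_add_iff 1).mpr (Real.summable_one_div_nat_pow.mpr (by norm_num : 1 < 2))
  simpa using this

noncomputable def rL : L1 := mkL rr rr_sum

noncomputable def rho (a : NN) (n : ℕ) : M4 :=
  !![0, a.u n, -rr n * a.u 0, a.w n - rr n * a.w 0; 0, 0, 0, a.u n; 0, 0, 0, a.u 0; 0, 0, 0, 0]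

theorem rho_add (a b : NN) (n : ℕ) : rho (a + b) n = rho a n + rho b n := by
  ext i j; fin_cases i <;> fin_cases j <;> simp [rho] <;> ring

theorem rho_sub (a b : NN) (n : ℕ) : rho (a - b) n = rho a n - rho b n := by
  ext i j; fin_cases i <;> fin_cases j <;> simp [rho] <;> ring

theorem rho_smul (c : ℂ) (a : NN) (n : ℕ) : rho (c • a) n = c • rho a n := by
  ext i j; fin_cases i <;> fin_cases j <;> simp [rho] <;> ring

theorem rho_zero (n : ℕ) : rho 0 n = 0 := by
  ext i j; fin_cases i <;> fin_cases j <;> simp [rho]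

theorem rho_mul (a b : NN) (n : ℕ) : rho (a * b) n = rho a n * rho b n := by
  ext i j; fin_cases i <;> fin_cases j <;> simp [rho, Matrix.mul_apply, Fin.sum_univ_four] <;> ring

theorem rho_r (n : ℕ) : rho (NN.mk 0 rL) n = 0 := by
  ext i j; fin_cases i <;> fin_cases j <;> simp [rho, rL, rr]

theorem norm_M4 (A : M4) (c : ℝ) (hc : 0 ≤ c) (h : ∀ i j, ‖A i j‖ ≤ c) : ‖A‖ ≤ 4 * c := by
  rw [Matrix.linfty_opNorm_def]
  have : (Finset.univ.sup fun i => ∑ j, ‖A i j‖₊) ≤ (⟨4 * c, by positivity⟩ : NNReal) := by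
    refine Finset.sup_le fun i _ => ?_
    refine NNReal.coe_le_coe.mp ?_
    rw [Fin.sum_univ_four]
    have := h i 0; have := h i 1; have := h i 2; have := h i 3
    change ‖A i 0‖ + ‖A i 1‖ + ‖A i 2‖ + ‖A i 3‖ ≤ 4 * c
    linarith
  exact_mod_cast this

theorem norm_rho (a : NN) (n : ℕ) : ‖rho a n‖ ≤ 8 * ‖a‖ := by
  have h1 := (apply_le a.u n).trans (u_le a)
  have h2 := (apply_le a.u 0).trans (u_le a)
  have h3 := (apply_le a.w n).trans (w_le a)
  have h4 := (apply_le a.w 0).trans (w_le a)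
  have h0 := norm_nonneg a
  have h5 : ‖rr n‖ * ‖a.u 0‖ ≤ ‖a‖ := by
    have := rr_le n
    nlinarith [norm_nonneg (rr n), norm_nonneg (a.u 0)]
  have h6 : ‖a.w n - rr n * a.w 0‖ ≤ 2 * ‖a‖ := by
    refine (norm_sub_le _ _).trans ?_
    rw [norm_mul]
    have := rr_le n
    nlinarith [norm_nonneg (rr n), norm_nonneg (a.w 0)]
  have := norm_M4 (rho a n) (2 * ‖a‖) (by positivity) (by
    intro i j; fin_cases i <;> fin_cases j <;> simp [rho] <;> linarith)
  linarith

abbrev PP : Type := NN × (ℕ × ℕ →ᵇ M4)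

noncomputable def AS : NonUnitalSubalgebra ℂ PP where
  carrier := {p | ∀ n, Tendsto (fun k => p.2 (n, k)) atTop (𝓝 (rho p.1 n))}
  add_mem' := by
    intro p q hp hq n
    have := (hp n).add (hq n)
    simpa [rho_add] using this
  zero_mem' := by intro n; simp [rho_zero]
  mul_mem' := by
    intro p q hp hq n
    have := (hp n).mul (hq n)
    simpa [rho_mul] using this
  smul_mem' := by
    intro c p hp n
    have := (hp n).const_smul c
    simpa [rho_smul] using this

theorem AS_closed : IsClosed (AS : Set PP) := by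
  refine isClosed_of_closure_subset fun p hp n => ?_
  refine Metric.tendsto_atTop.mpr fun ε hε => ?_
  obtain ⟨q, hq, hd⟩ := Metric.mem_closure_iff.mp hp (ε / 20) (by positivity)
  obtain ⟨K, hK⟩ := Metric.tendsto_atTop.mp (hq n) (ε / 20) (by positivity)
  refine ⟨K, fun k hk => ?_⟩
  have h1 : dist (p.2 (n, k)) (q.2 (n, k)) ≤ dist p q :=
    (BoundedContinuousFunction.dist_coe_le_dist _).trans (le_max_right _ _)
  have h2 : dist (rho q.1 n) (rho p.1 n) ≤ 8 * dist p q := by
    rw [dist_comm, dist_eq_norm, ← rho_sub]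
    refine (norm_rho _ _).trans ?_
    rw [← dist_eq_norm]
    have : dist p.1 q.1 ≤ dist p q := le_max_left _ _
    linarith
  have h3 := hK k hk
  have := dist_triangle4 (p.2 (n, k)) (q.2 (n, k)) (rho q.1 n) (rho p.1 n)
  linarith

abbrev AA : Type := AS

instance : CompleteSpace AA := AS_closed.completeSpace_coe

noncomputable example : NonUnitalNormedRing AA := inferInstance
noncomputable instance : NormedSpace ℂ AA where
  norm_smul_le c a := norm_smul_le c (a : PP)
example : IsScalarTower ℂ AA AA := inferInstance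
example : SMulCommClass ℂ AA AA := inferInstance

end Pool.Agent.H41.PropS
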