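import Pool.Agent.H41.PropS1

namespace Pool.Agent.H41.PropS

open scoped Matrix.Norms.Operator BoundedContinuousFunction
open Filter Topology

theorem tail_sum {f : ℕ → ℝ} (h0 : ∀ n, 0 ≤ f n) (hf : Summable f) (N : ℕ) :
    Summable fun n => if n < N then 0 else f n :=
  Summable.of_nonneg_of_le (fun n => by split_ifs; exacts [le_rfl, h0 n])
    (fun n => by split_ifs; exacts [h0 n, le_rfl]) hf

theorem tail_small {f : ℕ → ℝ} (h0 : ∀ n, 0 ≤ f n) (hf : Summable f) {ε : ℝ} (hε : 0 < ε) :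
    ∃ N, 0 < N ∧ (∑' n, if n < N then 0 else f n) ≤ ε := by
  have h := (tendsto_sum_nat_add f).eventually (ge_mem_nhds hε)
  obtain ⟨N, hN, hN0⟩ := (h.and (eventually_gt_atTop 0)).exists
  refine ⟨N, hN0, ?_⟩
  rw [← (tail_sum h0 hf N).sum_add_tsum_nat_add N]
  rw [Finset.sum_eq_zero (fun i hi => by rw [if_pos (Finset.mem_range.mp hi)])]
  simpa using hN

theorem norm_AA (a : AA) : ‖a‖ = max ‖a.1.1‖ ‖a.1.2‖ := rfl

noncomputable def lift (a : NN) : AA :=
  ⟨(a, BoundedContinuousFunction.ofNormedAddCommGroupDiscrete (fun s : ℕ × ℕ => rho a s.1)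
    (8 * ‖a‖) (fun s => norm_rho a s.1)), fun _ => tendsto_const_nhds⟩

theorem lift_norm (a : NN) : ‖lift a‖ ≤ 8 * ‖a‖ := by
  rw [norm_AA]
  refine max_le ?_ ?_
  · change ‖a‖ ≤ _
    have := norm_nonneg a; linarith
  · exact (BoundedContinuousFunction.norm_le (by positivity)).mpr fun s => norm_rho a s.1

@[simp] theorem lift_fst (a : NN) : (lift a).1.1 = a := rfl
@[simp] theorem lift_snd (a : NN) (s : ℕ × ℕ) : (lift a).1.2 s = rho a s.1 := rfl

noncomputable def idl (f : ℕ × ℕ → M4) (C : ℝ) (hC : ∀ s, ‖f s‖ ≤ C)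
    (h0 : ∀ n, Tendsto (fun k => f (n, k)) atTop (𝓝 0)) : AA :=
  ⟨(0, BoundedContinuousFunction.ofNormedAddCommGroupDiscrete f C hC), fun n => by
    change Tendsto (fun k => f (n, k)) atTop (𝓝 (rho 0 n))
    rw [rho_zero]; exact h0 n⟩

theorem idl_norm (f C hC h0) : ‖idl f C hC h0‖ ≤ C := by
  have hc : 0 ≤ C := (norm_nonneg _).trans (hC (0, 0))
  rw [norm_AA]
  refine max_le ?_ ?_
  · change ‖(0 : NN)‖ ≤ _
    rw [norm_zero]; exact hc
  · exact (BoundedContinuousFunction.norm_le hc).mpr hC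

@[simp] theorem idl_fst (f C hC h0) : (idl f C hC h0).1.1 = 0 := rfl
@[simp] theorem idl_snd (f C hC h0) (s : ℕ × ℕ) : (idl f C hC h0).1.2 s = f s := rfl

noncomputable def rA : AA := ⟨(NN.mk 0 rL, 0), fun n => by
  change Tendsto (fun _ => (0 : M4)) atTop (𝓝 (rho (NN.mk 0 rL) n))
  rw [rho_r]; exact tendsto_const_nhds⟩

theorem AA.ext' {a b : AA} (h1 : a.1.1 = b.1.1) (h2 : ∀ s, a.1.2 s = b.1.2 s) : a = b :=
  Subtype.ext (Prod.ext h1 (BoundedContinuousFunction.ext h2))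

def Rep (x : AA) (c : ℝ) : Prop :=
  ∃ l : List (AA × AA), x = (l.map fun p => p.1 * p.2).sum ∧
    (l.map fun p => ‖p.1‖ * ‖p.2‖).sum ≤ c

theorem Rep.zero : Rep 0 0 := ⟨[], by simp, by simp⟩

theorem Rep.mul (a b : AA) {c : ℝ} (h : ‖a‖ * ‖b‖ ≤ c) : Rep (a * b) c :=
  ⟨[(a, b)], by simp, by simpa using h⟩

theorem Rep.add {x y : AA} {c d : ℝ} (hx : Rep x c) (hy : Rep y d) : Rep (x + y) (c + d) := by
  obtain ⟨l, h1, h2⟩ := hx
  obtain ⟨m, h3, h4⟩ := hy
  refine ⟨l ++ m, by rw [List.map_append, List.sum_append, ← h1, ← h3], ?_⟩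
  rw [List.map_append, List.sum_append]; linarith

theorem Rep.mono {x : AA} {c d : ℝ} (hx : Rep x c) (h : c ≤ d) : Rep x d := by
  obtain ⟨l, h1, h2⟩ := hx
  exact ⟨l, h1, h2.trans h⟩

theorem Rep.norm_le {x : AA} {c : ℝ} (hx : Rep x c) : ‖x‖ ≤ c := by
  obtain ⟨l, rfl, h2⟩ := hx
  refine le_trans ?_ h2
  clear h2
  induction l with
  | nil => simp
  | cons p l ih =>
    simp only [List.map_cons, List.sum_cons]
    exact (norm_add_le _ _).trans (add_le_add (norm_mul_le _ _) ih)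

theorem list_mem_Sq (l : List (AA × AA)) : (l.map fun p => p.1 * p.2).sum ∈ Sq AA := by
  induction l with
  | nil => exact Submodule.zero_mem _
  | cons p l ih =>
    simp only [List.map_cons, List.sum_cons]
    exact Submodule.add_mem _ (Submodule.subset_span ⟨p, rfl⟩) ih

theorem Rep.mem {x : AA} {c : ℝ} (hx : Rep x c) : x ∈ Sq AA := by
  obtain ⟨l, rfl, -⟩ := hx
  exact list_mem_Sq l

theorem factor (x : AA) (hx : x.1.1 = 0) : Rep x ‖x‖ := by
  have hm : ∀ s, ‖x.1.2 s‖ ≤ ‖x‖ := fun s =>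
    (BoundedContinuousFunction.norm_coe_le_norm _ _).trans (le_max_right _ _)
  have ht : ∀ n, Tendsto (fun k => Real.sqrt ‖x.1.2 (n, k)‖) atTop (𝓝 0) := by
    intro n
    have h := x.2 n
    rw [hx, rho_zero] at h
    have h2 := (tendsto_zero_iff_norm_tendsto_zero.mp h).sqrt
    simpa using h2
  have n1 : ∀ s, ‖((Real.sqrt ‖x.1.2 s‖ : ℝ) : ℂ) • (1 : M4)‖ = Real.sqrt ‖x.1.2 s‖ := by
    intro s
    rw [norm_smul, norm_one, mul_one, Complex.norm_real, Real.norm_of_nonneg (Real.sqrt_nonneg _)]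
  have n2 : ∀ s, ‖((Real.sqrt ‖x.1.2 s‖ : ℝ) : ℂ)⁻¹ • x.1.2 s‖ = Real.sqrt ‖x.1.2 s‖ := by
    intro s
    rw [norm_smul, norm_inv, Complex.norm_real, Real.norm_of_nonneg (Real.sqrt_nonneg _),
      inv_mul_eq_div, Real.div_sqrt]
  have b1 : ∀ s, Real.sqrt ‖x.1.2 s‖ ≤ Real.sqrt ‖x‖ := fun s => Real.sqrt_le_sqrt (hm s)
  obtain ⟨e, he1, he2, he3⟩ : ∃ e : AA, e.1.1 = 0 ∧
      (∀ s, e.1.2 s = ((Real.sqrt ‖x.1.2 s‖ : ℝ) : ℂ) • (1 : M4)) ∧ ‖e‖ ≤ Real.sqrt ‖x‖ :=
    ⟨idl (fun s => ((Real.sqrt ‖x.1.2 s‖ : ℝ) : ℂ) • (1 : M4)) (Real.sqrt ‖x‖)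
      (fun s => by rw [n1]; exact b1 s)
      (fun n => tendsto_zero_iff_norm_tendsto_zero.mpr (by simpa only [n1] using ht n)),
      rfl, fun _ => rfl, idl_norm _ _ _ _⟩
  obtain ⟨g, hg1, hg2, hg3⟩ : ∃ e : AA, e.1.1 = 0 ∧
      (∀ s, e.1.2 s = ((Real.sqrt ‖x.1.2 s‖ : ℝ) : ℂ)⁻¹ • x.1.2 s) ∧ ‖e‖ ≤ Real.sqrt ‖x‖ :=
    ⟨idl (fun s => ((Real.sqrt ‖x.1.2 s‖ : ℝ) : ℂ)⁻¹ • x.1.2 s) (Real.sqrt ‖x‖)
      (fun s => by rw [n2]; exact b1 s)
      (fun n => tendsto_zero_iff_norm_tendsto_zero.mpr (by simpa only [n2] using ht n)),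
      rfl, fun _ => rfl, idl_norm _ _ _ _⟩
  have hxe : x = e * g := by
    refine AA.ext' ?_ fun s => ?_
    · change x.1.1 = e.1.1 * g.1.1
      rw [hx, he1, zero_mul]
    · change x.1.2 s = e.1.2 s * g.1.2 s
      rw [he2, hg2, smul_mul_smul_comm, one_mul]
      by_cases h : x.1.2 s = 0
      · rw [h, smul_zero]
      · have : ((Real.sqrt ‖x.1.2 s‖ : ℝ) : ℂ) ≠ 0 := by
          exact_mod_cast (Real.sqrt_pos.mpr (norm_pos_iff.mpr h)).ne'
        rw [mul_inv_cancel₀ this, one_smul]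
  have : Rep (e * g) ‖x‖ := Rep.mul e g (by
    calc ‖e‖ * ‖g‖ ≤ Real.sqrt ‖x‖ * Real.sqrt ‖x‖ :=
          mul_le_mul he3 hg3 (norm_nonneg _) (Real.sqrt_nonneg _)
      _ = ‖x‖ := Real.mul_self_sqrt (norm_nonneg _))
  rwa [← hxe] at this

theorem lift_mul_rep (u v : L1) :
    Rep (lift (NN.mk u 0) * lift (NN.mk v 0)) (64 * (‖u‖ * ‖v‖)) := by
  refine Rep.mul _ _ ?_
  have h1 := lift_norm (NN.mk u 0)
  have h2 := lift_norm (NN.mk v 0)
  have e1 : ‖NN.mk u 0‖ = ‖u‖ := by rw [norm_NN]; simp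
  have e2 : ‖NN.mk v 0‖ = ‖v‖ := by rw [norm_NN]; simp
  rw [e1] at h1; rw [e2] at h2
  calc _ ≤ (8 * ‖u‖) * (8 * ‖v‖) := mul_le_mul h1 h2 (norm_nonneg _) (by positivity)
    _ = _ := by ring

theorem finite_rep (w : ℕ → ℂ) (N : ℕ) : ∃ y : AA, y.1.1.u = 0 ∧
    (∀ n, y.1.1.w n = if n < N then w n else 0) ∧ (∀ s, y.1.2 s = rho y.1.1 s.1) ∧
    Rep y (64 * ∑ n ∈ Finset.range N, ‖w n‖) := by
  induction N with
  | zero => exact ⟨0, rfl, fun n => by simp, fun s => (rho_zero _).symm, by simpa using Rep.zero⟩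
  | succ N ih =>
    obtain ⟨y, h1, h2, h4, h3⟩ := ih
    refine ⟨y + lift (NN.mk (lp.single 1 N (w N)) 0) * lift (NN.mk (lp.single 1 N (1 : ℂ)) 0),
      ?_, fun n => ?_, fun s => ?_, ?_⟩
    · change y.1.1.u + 0 = 0
      rw [h1, add_zero]
    · change y.1.1.w n + (lp.single 1 N (w N) : L1) n * (lp.single 1 N (1 : ℂ) : L1) n = _
      rw [h2, lp.single_apply, lp.single_apply]
      by_cases h : n = N
      · subst h; simp
      · rw [Pi.single_eq_of_ne h]
        have : n < N + 1 ↔ n < N := by omega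
        simp [this]
    · change y.1.2 s + rho _ s.1 * rho _ s.1 = rho (y.1.1 + _ * _) s.1
      rw [rho_add, rho_mul, h4]; rfl
    · refine (h3.add (lift_mul_rep _ _)).mono ?_
      rw [Finset.sum_range_succ, lp.norm_single (by simp), lp.norm_single (by simp), norm_one]
      linarith

def Half (w : L1) : Prop := Summable fun n => Real.sqrt ‖w n‖

theorem half_rep (w : L1) (hw : Half w) : ∃ y : AA, y.1.1 = NN.mk 0 w ∧ Rep y (128 * ‖w‖) := by
  by_cases h0 : w = 0
  · subst h0; exact ⟨0, rfl, by simpa using Rep.zero⟩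
  have hpos : 0 < Real.sqrt ‖w‖ := Real.sqrt_pos.mpr (norm_pos_iff.mpr h0)
  obtain ⟨N, -, hN⟩ := tail_small (fun n => Real.sqrt_nonneg _) hw hpos
  obtain ⟨y, h1, h2, -, h3⟩ := finite_rep w N
  have n1 : ∀ n, ‖(if n < N then 0 else ((Real.sqrt ‖w n‖ : ℝ) : ℂ))‖ =
      if n < N then 0 else Real.sqrt ‖w n‖ := by
    intro n; split_ifs
    · simp
    · rw [Complex.norm_real, Real.norm_of_nonneg (Real.sqrt_nonneg _)]
  have n2 : ∀ n, ‖(if n < N then 0 else w n / ((Real.sqrt ‖w n‖ : ℝ) : ℂ))‖ =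
      if n < N then 0 else Real.sqrt ‖w n‖ := by
    intro n; split_ifs
    · simp
    · rw [norm_div, Complex.norm_real, Real.norm_of_nonneg (Real.sqrt_nonneg _), Real.div_sqrt]
  have hs := tail_sum (fun n => Real.sqrt_nonneg _) hw N
  obtain ⟨g, hg, hgn⟩ : ∃ g : L1, (∀ n, g n = if n < N then 0 else ((Real.sqrt ‖w n‖ : ℝ) : ℂ)) ∧
      ‖g‖ ≤ Real.sqrt ‖w‖ :=
    ⟨mkL (fun n => if n < N then 0 else ((Real.sqrt ‖w n‖ : ℝ) : ℂ))
      (by simpa only [n1] using hs), fun _ => rfl, by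
      rw [normL]; simpa only [mkL_apply, n1] using hN⟩
  obtain ⟨k, hk, hkn⟩ : ∃ g : L1,
      (∀ n, g n = if n < N then 0 else w n / ((Real.sqrt ‖w n‖ : ℝ) : ℂ)) ∧
      ‖g‖ ≤ Real.sqrt ‖w‖ :=
    ⟨mkL (fun n => if n < N then 0 else w n / ((Real.sqrt ‖w n‖ : ℝ) : ℂ))
      (by simpa only [n2] using hs), fun _ => rfl, by
      rw [normL]; simpa only [mkL_apply, n2] using hN⟩
  refine ⟨y + lift (NN.mk g 0) * lift (NN.mk k 0), NN.ext' (fun n => ?_) (fun n => ?_), ?_⟩
  · change (y.1.1.u + 0) n = (0 : L1) n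
    rw [h1, add_zero]
  · change y.1.1.w n + g n * k n = w n
    rw [h2, hg, hk]
    split_ifs
    · simp
    · by_cases h : w n = 0
      · simp [h]
      · have : ((Real.sqrt ‖w n‖ : ℝ) : ℂ) ≠ 0 := by
          exact_mod_cast (Real.sqrt_pos.mpr (norm_pos_iff.mpr h)).ne'
        field_simp; simp
  · refine (h3.add (lift_mul_rep _ _)).mono ?_
    have a1 : ∑ n ∈ Finset.range N, ‖w n‖ ≤ ‖w‖ := by
      rw [normL]; exact (sumL w).sum_le_tsum _ (fun _ _ => norm_nonneg _)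
    have a2 : ‖g‖ * ‖k‖ ≤ ‖w‖ :=
      (mul_le_mul hgn hkn (norm_nonneg _) (Real.sqrt_nonneg _)).trans
        (Real.mul_self_sqrt (norm_nonneg _)).le
    linarith

theorem Half.add {v w : L1} (hv : Half v) (hw : Half w) : Half (v + w) := by
  refine Summable.of_nonneg_of_le (fun _ => Real.sqrt_nonneg _) (fun n => ?_) (Summable.add hv hw)
  rw [Real.sqrt_le_left (by positivity)]
  have h : ‖(v + w) n‖ ≤ ‖v n‖ + ‖w n‖ := norm_add_le (v n) (w n)
  have a := Real.sq_sqrt (norm_nonneg (v n))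
  have b := Real.sq_sqrt (norm_nonneg (w n))
  nlinarith [Real.sqrt_nonneg ‖v n‖, Real.sqrt_nonneg ‖w n‖]

theorem Half.smul (c : ℂ) {w : L1} (hw : Half w) : Half (c • w) := by
  have := Summable.mul_left (Real.sqrt ‖c‖) hw
  refine this.congr fun n => ?_
  rw [← Real.sqrt_mul (norm_nonneg _), ← norm_mul]; rfl

theorem Half.pm (u v : L1) : Half (pm u v) := by
  refine Summable.of_nonneg_of_le (fun _ => Real.sqrt_nonneg _) (fun n => ?_)
    ((sumL u).add (sumL v))
  rw [Real.sqrt_le_left (by positivity), pm_apply, norm_mul]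
  nlinarith [norm_nonneg (u n), norm_nonneg (v n)]

theorem Sq_prop {x : AA} (hx : x ∈ Sq AA) : x.1.1.u = 0 ∧ Half x.1.1.w := by
  induction hx using Submodule.span_induction with
  | mem x h =>
    obtain ⟨p, rfl⟩ := h
    exact ⟨rfl, Half.pm _ _⟩
  | zero => exact ⟨rfl, by unfold Half; simp⟩
  | add x y _ _ hx hy =>
    refine ⟨?_, hx.2.add hy.2⟩
    change x.1.1.u + y.1.1.u = 0
    rw [hx.1, hy.1, add_zero]
  | smul c x _ hx =>
    refine ⟨?_, hx.2.smul c⟩
    change c • x.1.1.u = 0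
    rw [hx.1, smul_zero]

theorem hasS : HasS AA := by
  refine ⟨257, by norm_num, fun x hx => ?_⟩
  obtain ⟨h1, h2⟩ := Sq_prop hx
  obtain ⟨y, hy, hr⟩ := half_rep _ h2
  have hw : ‖x.1.1.w‖ ≤ ‖x‖ := (w_le _).trans (le_max_left _ _)
  have hz : (x - y).1.1 = 0 := by
    change x.1.1 - y.1.1 = 0
    rw [hy, sub_eq_zero]
    exact NN.ext' (fun n => by rw [h1]; rfl) (fun n => rfl)
  have := hr.add (factor _ hz)
  rw [add_sub_cancel] at this
  refine this.mono ?_
  have a := norm_sub_le x y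
  have b := hr.norm_le
  linarith

theorem not_half_r : ¬ Half rL := by
  intro h
  apply Real.not_summable_one_div_natCast
  rw [← summable_nat_add_iff 1]
  refine Summable.congr h fun n => ?_
  change Real.sqrt ‖rr n‖ = _
  rw [norm_rr, ← one_div_pow, Real.sqrt_sq (by positivity)]
  push_cast; rfl

/-- evaluation -/
noncomputable def ev (s : ℕ × ℕ) : AA →ₙₐ[ℂ] M4 where
  toFun a := a.1.2 s
  map_smul' _ _ := rfl
  map_zero' := rfl
  map_add' _ _ := rfl
  map_mul' _ _ := rfl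

theorem gen_lift {A B : Type} [NonUnitalRing A] [Module ℂ A] [IsScalarTower ℂ A A]
    [SMulCommClass ℂ A A] [Ring B] [Algebra ℂ B] (f : A →ₙₐ[ℂ] B) (x y : A) (z : Unitization ℂ A)
    (hz : z * (y : Unitization ℂ A) * (x : Unitization ℂ A) + z - 1 = 0) :
    ∃ Z : B, Z * f y * f x + Z - 1 = 0 := by
  have := congrArg (Unitization.lift f) hz
  refine ⟨Unitization.lift f z, ?_⟩
  have e : ∀ a : A, Unitization.lift f (a : Unitization ℂ A) = f a := fun a => by simp
  rwa [map_sub, map_add, map_mul, map_mul, map_one, map_zero, e, e] at this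

theorem gen_nil {A : Type} [NonUnitalRing A] [Module ℂ A] [IsScalarTower ℂ A A]
    [SMulCommClass ℂ A A] (x : A) (hx : ∀ a : A, a * x = 0) (y : Unitization ℂ A) :
    ∃ z : Unitization ℂ A, z * y * (x : Unitization ℂ A) + z - 1 = 0 := by
  refine ⟨1 - y * (x : Unitization ℂ A), ?_⟩
  have h : (y * (x : Unitization ℂ A)) * (y * (x : Unitization ℂ A)) = 0 := by
    ext <;> simp [hx, mul_smul_comm]
  calc (1 - y * (x : Unitization ℂ A)) * y * x + (1 - y * x) - 1
      = - ((y * (x : Unitization ℂ A)) * (y * (x : Unitization ℂ A))) := by noncomm_ring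
    _ = 0 := by rw [h, neg_zero]

theorem rad_eq : rad AA = Set.range fun c : ℂ => c • rA := by
  ext x
  unfold rad
  rw [Set.mem_ofPred_eq, ← Ideal.jacobson_bot, Ideal.mem_jacobson_iff]
  constructor
  · intro h
    have hz : ∀ s, x.1.2 s = 0 := by
      intro s
      by_contra hne
      obtain ⟨i, j, hij⟩ : ∃ i j, x.1.2 s i j ≠ 0 := by
        by_contra hc
        push Not at hc
        exact hne (Matrix.ext hc)
      obtain ⟨S, hS⟩ : ∃ S : M4, S = Matrix.single j i (-(x.1.2 s i j)⁻¹) := ⟨_, rfl⟩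
      obtain ⟨y, hy⟩ : ∃ y : AA, y.1.2 s = S := by
        refine ⟨idl (fun t => if t = s then S else 0) ‖S‖ (fun t => ?_) (fun n => ?_), by simp⟩
        · split_ifs <;> simp
        · refine tendsto_const_nhds.congr' ?_
          filter_upwards [eventually_gt_atTop s.2] with k hk
          rw [if_neg]
          rintro rfl
          exact lt_irrefl _ hk
      obtain ⟨z, hz⟩ := h (y : Unitization ℂ AA)
      rw [Ideal.mem_bot] at hz
      obtain ⟨Z, hZ⟩ : ∃ Z : M4, Z * S * x.1.2 s + Z - 1 = 0 := by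
        rw [← hy]; exact gen_lift (ev s) x y z hz
      have h2 : S * x.1.2 s * Matrix.single j j (1 : ℂ) = - Matrix.single j j (1 : ℂ) := by
        ext a b
        rw [hS]
        by_cases hb : b = j
        · subst hb
          by_cases ha : a = b
          · subst ha
            simp [Matrix.mul_single_apply_same, Matrix.single_mul_apply_same, hij]
          · simp [Matrix.mul_single_apply_same, Matrix.single_mul_apply_of_ne, ha, Ne.symm ha]
        · simp [Matrix.mul_single_apply_of_ne, hb, Ne.symm hb]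
      have h3 : (Z * S * x.1.2 s + Z - 1) * Matrix.single j j (1 : ℂ) =
          - Matrix.single j j (1 : ℂ) := by
        rw [sub_mul, add_mul, mul_assoc Z S, mul_assoc Z, h2]; simp
      rw [hZ, zero_mul] at h3
      have := congrFun (congrFun h3 j) j
      simp at this
    have hr : ∀ n, rho x.1.1 n = 0 := by
      intro n
      have h := x.2 n
      simp only [hz] at h
      exact (tendsto_nhds_unique tendsto_const_nhds h).symm
    refine ⟨x.1.1.w 0, AA.ext' (NN.ext' (fun n => ?_) (fun n => ?_)) fun s => ?_⟩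
    · have := congrFun (congrFun (hr n) 0) 1
      simp [rho] at this
      rw [this]; simp [rA]
    · have := congrFun (congrFun (hr n) 0) 3
      simp [rho] at this
      change x.1.1.w 0 * rr n = _
      linear_combination -this
    · rw [hz]; simp [rA]
  · rintro ⟨c, rfl⟩ y
    have k1 : ∀ a : AA, a * rA = 0 := fun a =>
      AA.ext' (NN.ext' (fun n => rfl) (fun n => by simp [rA])) (fun s => by simp [rA])
    simp only [Ideal.mem_bot]
    exact gen_nil (c • rA) (fun a => by rw [mul_smul_comm, k1, smul_zero]) y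

theorem findim : FiniteDimensional ℂ (Submodule.span ℂ (rad AA)) := by
  have : Submodule.span ℂ (rad AA) ≤ Submodule.span ℂ {rA} := by
    rw [Submodule.span_le, rad_eq]
    rintro _ ⟨c, rfl⟩
    exact Submodule.smul_mem _ _ (Submodule.subset_span rfl)
  exact Submodule.finiteDimensional_of_le this

theorem coord_le (a : AA) : ‖a.1.1.u 0‖ ≤ Metric.infDist a (rad AA) := by
  rw [rad_eq, Metric.le_infDist (Set.range_nonempty _)]
  rintro _ ⟨c, rfl⟩
  rw [dist_eq_norm]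
  have : a.1.1.u 0 = (a - c • rA).1.1.u 0 := by simp [rA]
  rw [this]
  exact (apply_le _ _).trans ((u_le _).trans (le_max_left _ _))

theorem list_le (l : List (AA × AA)) : ‖((l.map fun p : AA × AA => p.1 * p.2).sum : AA).1.1.w 0‖ ≤
    (l.map fun p => Metric.infDist p.1 (rad AA) * Metric.infDist p.2 (rad AA)).sum := by
  induction l with
  | nil => simp
  | cons p l ih =>
    simp only [List.map_cons, List.sum_cons]
    change ‖p.1.1.1.u 0 * p.2.1.1.u 0 + _‖ ≤ _
    refine (norm_add_le _ _).trans (add_le_add ?_ ih)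
    rw [norm_mul]
    exact mul_le_mul (coord_le _) (coord_le _) (norm_nonneg _) Metric.infDist_nonneg

theorem not_quot : ¬ QuotHasS AA (rad AA) := by
  rintro ⟨C, hC, h⟩
  obtain ⟨N, hN0, hN⟩ := tail_small (fun n => norm_nonneg (rr n)) rr_sum
    (show 0 < 1 / (16 * C) by positivity)
  obtain ⟨x, h1, h2, h4, h3⟩ := finite_rep rr N
  obtain ⟨l, hl, hle⟩ := h x h3.mem
  have hle2 := (list_le l).trans hle
  have hy := list_mem_Sq l
  obtain ⟨y, hydef⟩ : ∃ y, y = (l.map fun p => p.1 * p.2).sum := ⟨_, rfl⟩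
  rw [← hydef] at hl hle2 hy
  have hxy : x - y ∈ Sq AA := Submodule.sub_mem _ h3.mem hy
  rw [rad_eq] at hl
  obtain ⟨c, hc⟩ := hl
  have hc0 : c = 0 := by
    by_contra hne
    apply not_half_r
    have := (Sq_prop hxy).2.smul c⁻¹
    rw [← hc] at this
    change Half (c⁻¹ • c • rL) at this
    rwa [smul_smul, inv_mul_cancel₀ hne, one_smul] at this
  have hxy' : y = x := by
    have : x - y = 0 := by rw [← hc, hc0]; simp
    exact (sub_eq_zero.mp this).symm
  rw [hxy', h2, if_pos hN0] at hle2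
  have e1 : ‖rr 0‖ = 1 := by simp [rr]
  have hd : Metric.infDist x (rad AA) ≤ 8 * (1 / (16 * C)) := by
    have hm : rA ∈ rad AA := by rw [rad_eq]; exact ⟨1, one_smul _ _⟩
    refine (Metric.infDist_le_dist_of_mem hm).trans ?_
    have hx : x - rA = lift (x.1.1 - NN.mk 0 rL) := by
      refine AA.ext' rfl fun s => ?_
      rw [lift_snd, rho_sub, rho_r, ← h4]; rfl
    rw [dist_eq_norm, hx]
    refine (lift_norm _).trans (mul_le_mul_of_nonneg_left ?_ (by norm_num))
    rw [norm_NN]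
    refine max_le ?_ ?_
    · rw [sub_u, h1]; simp; positivity
    · rw [normL]
      refine le_trans (le_of_eq (tsum_congr fun n => ?_)) hN
      change ‖x.1.1.w n - rr n‖ = _
      rw [h2]; split_ifs <;> simp
  have : C * Metric.infDist x (rad AA) ≤ C * (8 * (1 / (16 * C))) :=
    mul_le_mul_of_nonneg_left hd hC.le
  have e2 : C * (8 * (1 / (16 * C))) = 1 / 2 := by field_simp; norm_num
  linarith

theorem main :
    ∃ (A : Type) (_ : NonUnitalNormedRing A) (_ : NormedSpace ℂ A) (_ : IsScalarTower ℂ A A)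
      (_ : SMulCommClass ℂ A A) (_ : CompleteSpace A),
      FiniteDimensional ℂ (Submodule.span ℂ (rad A)) ∧ HasS A ∧ ¬ QuotHasS A (rad A) :=
  ⟨AA, inferInstance, inferInstance, inferInstance, inferInstance, inferInstance,
    findim, hasS, not_quot⟩

end Pool.Agent.H41.PropS
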