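import Pool.Agent.H41.TFDefs

namespace Pool.Agent.H41.TF

open MeasureTheory

variable {k : ℕ}

/-- Normalized, smooth, compactly supported spinor wave functions of `N` spin-1/2 fermions
(antisymmetric under simultaneous permutation of positions and spins): a form core of `H_N`. -/
def Fermi (N : ℕ) (ψ : (Fin N → Fin 2) → (Fin N → E3) → ℂ) : Prop :=
  (∀ σ, ContDiff ℝ (⊤ : ℕ∞) (ψ σ) ∧ HasCompactSupport (ψ σ)) ∧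
  (∀ (π : Equiv.Perm (Fin N)) σ x, ψ (σ ∘ π) (x ∘ π) = ((Equiv.Perm.sign π : ℤ) : ℂ) * ψ σ x) ∧
  ∑ σ, ∫ x, ‖ψ σ x‖ ^ 2 = 1

/-- The quadratic form of `H_N`. -/
noncomputable def formQ (N : ℕ) (z : Fin k → ℝ) (R : Fin k → E3)
    (ψ : (Fin N → Fin 2) → (Fin N → E3) → ℂ) : ℝ :=
  ∑ σ, ((∫ x, ∑ i, ∑ c, ‖fderiv ℝ (ψ σ) x (Pi.single i (EuclideanSpace.single c 1))‖ ^ 2) +
    ∫ x, (-(∑ i, V z R (x i)) + (∑ i, ∑ j, if i < j then 1 / ‖x i - x j‖ else 0) + U z R) *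
      ‖ψ σ x‖ ^ 2)

/-- The quantum ground-state energy `E^Q = inf spec H_N`. -/
noncomputable def EQ (N : ℕ) (z : Fin k → ℝ) (R : Fin k → E3) : EReal :=
  ⨅ ψ ∈ {ψ | Fermi N ψ}, (formQ N z R ψ : EReal)

/-- The Thomas–Fermi functional. -/
noncomputable def funTF (z : Fin k → ℝ) (R : Fin k → E3) (ρ : E3 → ℝ) : ℝ :=
  3 / 5 * (3 * Real.pi ^ 2) ^ (2 / 3 : ℝ) * (∫ x, ρ x ^ (5 / 3 : ℝ)) - (∫ x, V z R x * ρ x) +
    D ρ + U z R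

/-- The Thomas–Fermi energy `E^{TF}`. -/
noncomputable def ETF (N : ℕ) (z : Fin k → ℝ) (R : Fin k → E3) : EReal :=
  ⨅ ρ ∈ {ρ : E3 → ℝ | (∀ x, 0 ≤ ρ x) ∧ MemLp ρ (ENNReal.ofReal (5 / 3)) ∧ Integrable ρ ∧
    ∫ x, ρ x ≤ N}, (funTF z R ρ : EReal)

end Pool.Agent.H41.TF
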