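import Pool.Agent.H41.CV1
import Pool.Agent.H41.QTDefs

namespace Pool.Agent.H41.TF

open MeasureTheory Filter Real Set Metric

theorem yng {t w : ℝ} (ht : 0 ≤ t) (hw : 0 ≤ w) : w * t ≤ t ^ (5 / 3 : ℝ) + w ^ (5 / 2 : ℝ) := by
  rcases le_total w (t ^ (2 / 3 : ℝ)) with h | h
  · refine le_add_of_le_of_nonneg ((mul_le_mul_of_nonneg_right h ht).trans_eq ?_) (by positivity)
    rw [← rpow_add_one' ht (by norm_num)]; norm_num
  · have h1 := rpow_le_rpow (by positivity) h (by norm_num : (0 : ℝ) ≤ 3 / 2)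
    rw [← rpow_mul ht, show (2 / 3 * (3 / 2) : ℝ) = 1 by norm_num, rpow_one] at h1
    refine le_add_of_nonneg_of_le (by positivity) ((mul_le_mul_of_nonneg_left h1 hw).trans_eq ?_)
    rw [← rpow_one_add' hw (by norm_num)]; norm_num

theorem lowTF {s : ℝ} (hs : 0 < s) : ∃ C : ℝ, ∀ z : ℝ, 0 < z → ∀ ρ : E3 → ℝ, (∀ x, 0 ≤ ρ x) →
    MemLp ρ (ENNReal.ofReal (5 / 3)) → Integrable ρ →
    -(C * z ^ (5 / 2 : ℝ)) - z ^ 2 / (2 * s) ≤ funTF (fun _ : Fin 1 => z) 0 ρ := by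
  refine ⟨(∫ x, ww x ^ (5 / 2 : ℝ)) + (4 * (s + 1)) ^ (5 / 2 : ℝ) * ∫ x : E3, 1 / (1 + ‖x‖) ^ (1 + 4),
    fun z hz ρ a1 a3 a2 => ?_⟩
  have w0 : ∀ x, 0 ≤ ww x := fun x => le_max_right _ _
  have i2 := (rad2 one_pos 1).1
  have i3 : Integrable fun x => ρ x ^ (5 / 3 : ℝ) := by
    have := a3.integrable_norm_rpow (by simp) (by simp)
    simpa only [norm_of_nonneg (a1 _), ENNReal.toReal_ofReal (by norm_num : (0 : ℝ) ≤ 5 / 3)]
      using this
  have h3 : ∀ y, Integrable (fun x => ρ x / ‖y - x‖) ∧ ∫ x, ρ x / ‖y - x‖ ≤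
      (∫ x, ρ x) + (∫ x, ρ x ^ (5 / 3 : ℝ)) + ∫ x, ww x ^ (5 / 2 : ℝ) := fun y => by
    have j := (a2.add i3).add (ww_int.comp_sub_left y)
    have b : ∀ x, ρ x / ‖y - x‖ ≤ ρ x + ρ x ^ (5 / 3 : ℝ) + ww (y - x) ^ (5 / 2 : ℝ) := fun x => by
      have : (1 / ‖y - x‖ - 1) * ρ x ≤ ww (y - x) * ρ x :=
        mul_le_mul_of_nonneg_right (le_max_left _ _) (a1 x)
      rw [div_eq_inv_mul, ← one_div]
      linarith [yng (a1 x) (w0 (y - x))]
    have j' : Integrable fun x => ρ x / ‖y - x‖ := j.mono' (a2.aemeasurable.div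
      (Measurable.aemeasurable (by fun_prop))).aestronglyMeasurable (Eventually.of_forall fun x =>
        (norm_of_nonneg (div_nonneg (a1 x) (norm_nonneg _))).trans_le (b x))
    refine ⟨j', (integral_mono j' j b).trans_eq ?_⟩
    rw [integral_add' (a2.add i3) (ww_int.comp_sub_left y), integral_add' a2 i3,
      integral_sub_left_eq_self fun x => ww x ^ (5 / 2 : ℝ)]
  have b2 := Dlow' (m := z) a1 a2 h3 hs
  have i1 : Integrable fun x => ρ x / ‖x‖ := by simpa using (h3 0).1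
  have i4 : Integrable fun x => ρ x / √(‖x‖ ^ 2 + s ^ 2) := by
    simp only [div_eq_mul_inv]
    refine a2.mul_bdd (c := s⁻¹) (Measurable.aestronglyMeasurable (by fun_prop))
      (Eventually.of_forall fun x => ?_)
    rw [norm_of_nonneg (by positivity)]
    exact inv_anti₀ hs (le_sqrt_of_sq_le (by nlinarith [norm_nonneg x]))
  have b4 := integral_mono_ae ((i1.sub i4).const_mul z) (((i3.const_mul 2).add
    (ww_int.const_mul (z ^ (5 / 2 : ℝ)))).add (i2.const_mul (z ^ (5 / 2 : ℝ) *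
      (4 * (s + 1)) ^ (5 / 2 : ℝ)))) ((Measure.ae_ne volume 0).mono fun x hx => by
    have h0 := norm_pos_iff.mpr hx
    have h1 : 1 / ‖x‖ - 1 / √(‖x‖ ^ 2 + s ^ 2) ≤ ww x + 4 * (s + 1) / (1 + ‖x‖) ^ 2 := by
      have q1 : ‖x‖ ≤ √(‖x‖ ^ 2 + s ^ 2) := le_sqrt_of_sq_le (by nlinarith)
      rcases le_total ‖x‖ 1 with h | h
      · have : 1 ≤ 4 * (s + 1) / (1 + ‖x‖) ^ 2 := by
          rw [le_div_iff₀ (by positivity)]; nlinarith
        have : 0 ≤ 1 / √(‖x‖ ^ 2 + s ^ 2) := by positivity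
        have : 1 / ‖x‖ - 1 ≤ ww x := le_max_left _ _
        linarith
      · have q2 : √(‖x‖ ^ 2 + s ^ 2) ≤ ‖x‖ + s := sqrt_le_iff.mpr ⟨by positivity, by nlinarith⟩
        refine le_add_of_nonneg_of_le (w0 x) ?_
        rw [div_sub_div _ _ h0.ne' (by positivity), div_le_div_iff₀ (by positivity) (by positivity)]
        linarith [mul_le_mul (show √(‖x‖ ^ 2 + s ^ 2) - ‖x‖ ≤ s + 1 by linarith)
          (show (1 + ‖x‖) ^ 2 ≤ 4 * (‖x‖ * √(‖x‖ ^ 2 + s ^ 2)) by nlinarith) (by positivity)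
          (by positivity)]
    have h2 := yng (a1 x) (mul_nonneg hz.le (w0 x))
    have h4 := yng (a1 x) (w := z * (4 * (s + 1) / (1 + ‖x‖) ^ 2)) (by positivity)
    rw [mul_rpow hz.le (w0 x)] at h2
    rw [mul_rpow hz.le (by positivity), div_rpow (by positivity) (by positivity),
      ← rpow_natCast (1 + ‖x‖), ← rpow_mul (by positivity),
      show ((2 : ℕ) * (5 / 2) : ℝ) = (1 + 4 : ℕ) by norm_num, rpow_natCast, rpow_natCast] at h4
    simp only [Pi.add_apply, Pi.sub_apply]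
    have h5 := mul_le_mul_of_nonneg_left h1 (mul_nonneg hz.le (a1 x))
    refine le_trans (le_of_eq ?_) (h5.trans ((le_of_eq ?_).trans ((add_le_add h2 h4).trans
      (le_of_eq ?_)))) <;> ring)
  rw [integral_const_mul, integral_sub' i1 i4, integral_add' ((i3.const_mul _).add
    (ww_int.const_mul _)) (i2.const_mul _), integral_add' (i3.const_mul _) (ww_int.const_mul _)] at b4
  simp only [integral_const_mul] at b4
  have b5 := mul_le_mul_of_nonneg_right gam (integral_nonneg (μ := volume)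
    (f := fun x => ρ x ^ (5 / 3 : ℝ)) fun x => rpow_nonneg (a1 x) _)
  have b6 : z ^ 2 / (2 * √(2 * s ^ 2)) ≤ z ^ 2 / (2 * s) := by
    gcongr; exact le_sqrt_of_sq_le (by nlinarith)
  have b7 : 0 ≤ ∫ x, ρ x ^ (5 / 3 : ℝ) := integral_nonneg fun x => rpow_nonneg (a1 x) _
  have e : ∫ x, V (fun _ : Fin 1 => z) 0 x * ρ x = z * ∫ x, ρ x / ‖x‖ := by
    rw [← integral_const_mul]; congr 1; ext x; simp [V]; ring
  rw [funTF, e]
  simp only [U, Fin.sum_univ_one, lt_irrefl, if_false]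
  linarith

theorem upQ : ∃ κ : ℝ, 0 < κ ∧ ∀ z : ℝ, 0 < z → ∃ ψ, Fermi 1 ψ ∧
    formQ 1 (fun _ : Fin 1 => z) 0 ψ ≤ -(κ * z ^ 2) := by
  obtain ⟨T, hT⟩ : ∃ T, T = ∫ x, ‖fderiv ℝ bb x‖ ^ 2 := ⟨_, rfl⟩
  obtain ⟨I, hI⟩ : ∃ I, I = ∫ x, bb x ^ 2 := ⟨_, rfl⟩
  have T0 : 0 ≤ T := hT ▸ integral_nonneg fun x => by positivity
  have I0 : 0 < I := by simpa [hI] using (bb_pos one_pos).2
  obtain ⟨κ, hκ, h1⟩ : ∃ κ, 0 < κ ∧ 3 * κ * T ≤ I / 4 := ⟨I / 4 / (3 * (T + 1)), by positivity, by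
    rw [mul_right_comm, ← mul_div_assoc, div_le_iff₀ (by positivity)]; nlinarith⟩
  refine ⟨κ / 4, by positivity, fun z hz => ?_⟩
  obtain ⟨c, hc⟩ : ∃ c, c = κ * z := ⟨_, rfl⟩
  have c0 : 0 < c := by rw [hc]; positivity
  obtain ⟨a, a0, ha⟩ : ∃ a, 0 ≤ a ∧ a ^ 2 = c ^ 3 / (2 * I) := ⟨√_, sqrt_nonneg _, sq_sqrt (by positivity)⟩
  obtain ⟨f, hf⟩ : ∃ f : E3 → ℝ, f = fun x => a * bb (c • x) := ⟨_, rfl⟩
  have c1 : ContDiff ℝ (⊤ : ℕ∞) bb := bb.contDiff
  have c2 : ContDiff ℝ (⊤ : ℕ∞) f := by rw [hf]; fun_prop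
  have c3 : HasCompactSupport f := hf ▸ (bb.hasCompactSupport.comp_smul c0.ne').mul_left
  have e : ∀ f : E3 → ℝ, ∫ x, f (c • x) = (c ^ 3)⁻¹ * ∫ x, f x := fun f => by
    rw [Measure.integral_comp_smul, abs_of_pos (by positivity)]; simp
  have e0 : ∀ f : E3 → ℝ, ∫ x : Fin 1 → E3, f (x 0) = ∫ x, f x := fun f =>
    (volume_preserving_funUnique (Fin 1) E3).integral_comp' f
  have e1 : ∫ x, f x ^ 2 = 1 / 2 := by
    simp only [hf, mul_pow, integral_const_mul]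
    rw [e fun x => bb x ^ 2, ← hI, ha]; field_simp
  have e2 : ∫ x, ‖fderiv ℝ f x‖ ^ 2 = c ^ 2 * T / (2 * I) := by
    have e1 : ∀ x, ‖fderiv ℝ f x‖ ^ 2 = a ^ 2 * c ^ 2 * ‖fderiv ℝ bb (c • x)‖ ^ 2 := fun x => by
      rw [hf, fderiv_const_mul (by have := c1.differentiable (by simp); fun_prop), fderiv_comp_smul,
        smul_smul, norm_smul, mul_pow, Real.norm_eq_abs, sq_abs, mul_pow]
    simp only [e1, integral_const_mul]
    rw [e fun x => ‖fderiv ℝ bb x‖ ^ 2, ← hT, ha]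
    field_simp
  obtain ⟨A1, -⟩ := adm_smooth (5 / 3) (c2.of_le (by simp)) c3 fun x => by
    rw [hf]; exact mul_nonneg a0 bb.nonneg
  have b1 := integral_mono_ae (A1.2.1.const_mul (c / 2)) (ints A1).1
    ((Measure.ae_ne volume 0).mono fun x hx => by
      have h0 := norm_pos_iff.mpr hx
      rcases le_total 2 (c * ‖x‖) with h | h
      · simp [hf, bb.zero_of_le_dist (x := c • x) (by simpa [norm_smul, abs_of_pos c0, bb] using h)]
      · simp only
        rw [le_div_iff₀ h0]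
        nlinarith [sq_nonneg (f x)])
  have c4 := c2.continuous_fderiv (by simp)
  have b2 : ∫ x, ∑ j : Fin 3, ‖fderiv ℝ f x (EuclideanSpace.single j 1)‖ ^ 2 ≤
      ∫ x, 3 * ‖fderiv ℝ f x‖ ^ 2 := by
    refine integral_mono_of_nonneg (Eventually.of_forall fun x => by positivity)
      (((memLp_two_iff_integrable_sq_norm A1.2.2.2.1.1).mp A1.2.2.2.1).const_mul 3)
      (Eventually.of_forall fun x => ?_)
    refine (Finset.sum_le_card_nsmul _ _ (‖fderiv ℝ f x‖ ^ 2) fun j _ => pow_le_pow_left₀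
      (norm_nonneg _) (by simpa using (fderiv ℝ f x).le_opNorm (EuclideanSpace.single j 1)) 2).trans_eq
      (by simp)
  refine ⟨fun _ x => f (x 0), ⟨fun _ => ⟨Complex.ofRealCLM.contDiff.comp (by fun_prop),
    (c3.comp_homeomorph (Homeomorph.funUnique (Fin 1) E3)).comp_left (g := fun r : ℝ => (r : ℂ))
      rfl⟩, fun s σ x => by rw [Subsingleton.elim s 1]; simp, ?_⟩, ?_⟩
  · simp only [Complex.norm_real, Real.norm_eq_abs, sq_abs, e0 fun x => f x ^ 2, e1]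
    simp
  · have e3 : ∀ (x : Fin 1 → E3) v, ‖fderiv ℝ (fun x : Fin 1 → E3 => (f (x 0) : ℂ)) x
        (Pi.single 0 v)‖ = ‖fderiv ℝ f (x 0) v‖ := fun x v => by
      rw [HasFDerivAt.fderiv (f := fun x : Fin 1 → E3 => (f (x 0) : ℂ))
        (Complex.ofRealCLM.hasFDerivAt.comp x ((c2.differentiable (by simp) (x 0)).hasFDerivAt.comp
          x (hasFDerivAt_apply 0 x)))]
      simp
    have e4 : ∀ x : Fin 1 → E3, (-V (fun _ : Fin 1 => z) 0 (x 0) + 0 + 0) * ‖(f (x 0) : ℂ)‖ ^ 2 =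
        -z * (f (x 0) ^ 2 / ‖x 0‖) := fun x => by simp [V]; ring
    simp only [formQ, U, Fin.sum_univ_one, lt_irrefl, if_false, e3, e4, integral_const_mul,
      e0 fun x => f x ^ 2 / ‖x‖, e0 fun x => ∑ j : Fin 3,
        ‖fderiv ℝ f x (EuclideanSpace.single j 1)‖ ^ 2, Finset.sum_const]
    rw [integral_const_mul, e2] at b2
    rw [integral_const_mul, e1] at b1
    have b3 : 3 * (c ^ 2 * T / (2 * I)) ≤ z * c / 8 := by
      rw [← mul_div_assoc, div_le_iff₀ (by positivity)]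
      rw [sq]; nth_rewrite 1 [hc]
      linarith [mul_le_mul_of_nonneg_left h1 (mul_pos hz c0).le]
    have b4 : κ / 4 * z ^ 2 = z * c / 4 := by rw [hc]; ring
    rw [b4, Finset.card_univ, Fintype.card_fun, Fintype.card_fin, Fintype.card_fin, nsmul_eq_mul]
    push_cast
    linarith [mul_le_mul_of_nonneg_left b1 hz.le]

end Pool.Agent.H41.TF
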