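import Pool.Agent.H41.Rb1

set_option autoImplicit false

namespace Pool.Agent.H41.Rb

open Filter MeasureTheory Set Topology

lemma coef_hasSum (u : ℕ → ℝ → ℝ) (b : ℕ → ℝ) (hu : ∀ n, Continuous (u n))
    (hb : ∀ n x, |u n x| ≤ b n) (hs : Summable b) (k : ℤ) :
    HasSum (fun n => coef (u n) k) (coef (fun x => ∑' n, u n x) k) := by
  unfold coef
  apply intervalIntegral.hasSum_integral_of_dominated_convergence (fun n _ => b n)
  · intro n
    have : Continuous fun x : ℝ => (u n x : ℂ) * ex k x :=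
      (Complex.continuous_ofReal.comp (hu n)).mul (ex_cont _)
    exact this.aestronglyMeasurable
  · intro n
    refine Eventually.of_forall fun x _ => ?_
    have := ex_norm k x
    unfold ex at this
    rw [norm_mul, this, mul_one, Complex.norm_real]
    exact hb n x
  · exact Eventually.of_forall fun x _ => hs
  · exact intervalIntegrable_const
  · refine Eventually.of_forall fun x _ => ?_
    apply HasSum.mul_right
    have h1 : Summable fun n => u n x := Summable.of_norm_bounded hs (fun n => hb n x)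
    exact Complex.hasSum_ofReal.2 h1.hasSum

lemma coef_cos (c : ℝ) (p k : ℕ) (hk : 0 < k) :
    coef (fun x => c * Real.cos (2 * Real.pi * p * x)) k = if p = k then ((c / 2 : ℝ) : ℂ) else 0 := by
  have e : ∀ x : ℝ, ((c * Real.cos (2 * Real.pi * p * x) : ℝ) : ℂ) *
      Complex.exp (-(2 * Real.pi * Complex.I * ((k:ℤ):ℂ) * x)) =
      (c / 2 : ℂ) * ex ((k:ℤ) - p) x + (c / 2 : ℂ) * ex ((k:ℤ) + p) x := by
    intro x
    unfold ex
    push_cast
    rw [Complex.cos]
    have h1 : Complex.exp (-(2 * Real.pi * Complex.I * ((k:ℂ) - p) * x)) =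
        Complex.exp (2 * Real.pi * p * x * Complex.I) *
          Complex.exp (-(2 * Real.pi * Complex.I * k * x)) := by
      rw [← Complex.exp_add]; congr 1; ring
    have h2 : Complex.exp (-(2 * Real.pi * Complex.I * ((k:ℂ) + p) * x)) =
        Complex.exp (-(2 * Real.pi * p * x) * Complex.I) *
          Complex.exp (-(2 * Real.pi * Complex.I * k * x)) := by
      rw [← Complex.exp_add]; congr 1; ring
    rw [h1, h2]; ring
  unfold coef
  simp_rw [e]
  have c1 : Continuous fun x : ℝ => (c / 2 : ℂ) * ex ((k:ℤ) - p) x := continuous_const.mul (ex_cont _)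
  have c2 : Continuous fun x : ℝ => (c / 2 : ℂ) * ex ((k:ℤ) + p) x := continuous_const.mul (ex_cont _)
  rw [intervalIntegral.integral_add (c1.intervalIntegrable _ _) (c2.intervalIntegrable _ _),
    intervalIntegral.integral_const_mul, intervalIntegral.integral_const_mul]
  rw [int_ex ((k:ℤ) + p) (by omega) 0 1 ((k:ℤ) + p) (by simp)]
  split_ifs with h
  · subst h; simp [ex]
  · rw [int_ex ((k:ℤ) - p) (by omega) 0 1 ((k:ℤ) - p) (by simp)]; simp

/-- the lacunary function -/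
noncomputable def gg (a : ℝ) (x : ℝ) : ℝ := ∑' j : ℕ, a ^ j * Real.cos (2 * Real.pi * (2 ^ j : ℕ) * x)

lemma term_bd (a : ℝ) (ha : 0 ≤ a) (j : ℕ) (t : ℝ) : |a ^ j * Real.cos t| ≤ a ^ j := by
  rw [abs_mul, abs_of_nonneg (pow_nonneg ha j)]
  exact mul_le_of_le_one_right (pow_nonneg ha j) (Real.abs_cos_le_one t)

lemma gg_cont (a : ℝ) (ha : 0 ≤ a) (ha1 : a < 1) : Continuous (gg a) := by
  unfold gg
  exact continuous_tsum (fun j => by fun_prop) (summable_geometric_of_lt_one ha ha1)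
    (fun j x => term_bd a ha j _)

lemma gg_per (a : ℝ) : Function.Periodic (gg a) 1 := by
  intro x
  unfold gg
  congr 1; funext j
  congr 1
  have : 2 * Real.pi * ((2 ^ j : ℕ) : ℝ) * (x + 1) =
      2 * Real.pi * ((2 ^ j : ℕ) : ℝ) * x + ((2 ^ j : ℕ) : ℝ) * (2 * Real.pi) := by ring
  rw [this, Real.cos_add_nat_mul_two_pi]

lemma gg_bd (a : ℝ) (ha : 0 ≤ a) (ha1 : a < 1) (x : ℝ) : |gg a x| ≤ (1 - a)⁻¹ := by
  unfold gg
  rw [← tsum_geometric_of_lt_one ha ha1, ← Real.norm_eq_abs]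
  exact tsum_of_norm_bounded (summable_geometric_of_lt_one ha ha1).hasSum
    (fun j => term_bd a ha j _)

lemma coef_gg_dil (a : ℝ) (ha : 0 ≤ a) (ha1 : a < 1) (c : ℝ) (q k : ℕ) (hk : 0 < k) :
    HasSum (fun j : ℕ => if 2 ^ j * q = k then ((c * a ^ j / 2 : ℝ) : ℂ) else 0)
      (coef (fun x => c * gg a (q * x)) k) := by
  have h := coef_hasSum (fun j x => (c * a ^ j) * Real.cos (2 * Real.pi * (2 ^ j * q : ℕ) * x))
    (fun j => |c| * a ^ j) (fun j => by fun_prop)
    (fun j x => by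
      rw [mul_assoc, abs_mul]
      exact mul_le_mul_of_nonneg_left (term_bd a ha j _) (abs_nonneg c))
    ((summable_geometric_of_lt_one ha ha1).mul_left _) k
  simp_rw [coef_cos _ _ _ hk] at h
  convert h using 2
  funext x
  unfold gg
  rw [← tsum_mul_left]
  congr 1; funext j
  push_cast
  ring_nf

lemma coef_gg (a : ℝ) (ha : 0 ≤ a) (ha1 : a < 1) (k : ℕ) (hk : 0 < k) :
    HasSum (fun j : ℕ => if 2 ^ j = k then ((a ^ j / 2 : ℝ) : ℂ) else 0) (coef (gg a) k) := by
  have := coef_gg_dil a ha ha1 1 1 k hk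
  simpa using this

lemma coef_gg_pow (a : ℝ) (ha : 0 ≤ a) (ha1 : a < 1) (J : ℕ) :
    coef (gg a) ((2 ^ J : ℕ) : ℤ) = ((a ^ J / 2 : ℝ) : ℂ) := by
  have h := coef_gg a ha ha1 (2 ^ J) (by positivity)
  have h2 := hasSum_single (f := fun j : ℕ => if 2 ^ j = 2 ^ J then ((a ^ j / 2 : ℝ) : ℂ) else 0) J
    (fun j hj => by
      rw [if_neg]; intro h; exact hj (Nat.pow_right_injective le_rfl h))
  rw [h.unique h2]; simp

lemma coef_gg_zero (a : ℝ) (ha : 0 ≤ a) (ha1 : a < 1) (k : ℕ) (hk : 0 < k)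
    (h : ∀ j, 2 ^ j ≠ k) : coef (gg a) k = 0 := by
  have h1 := coef_gg a ha ha1 k hk
  simp only [h, if_false] at h1
  exact h1.unique hasSum_zero

lemma coef_gg_real (a : ℝ) (ha : 0 ≤ a) (ha1 : a < 1) (k : ℕ) (hk : 0 < k) :
    coef (gg a) k = ((‖coef (gg a) k‖ : ℝ) : ℂ) := by
  by_cases h : ∃ j, 2 ^ j = k
  · obtain ⟨j, rfl⟩ := h
    rw [coef_gg_pow a ha ha1, Complex.norm_real, Real.norm_eq_abs, abs_of_nonneg (by positivity)]
  · push Not at h
    rw [coef_gg_zero a ha ha1 k hk h]; simp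

lemma summ_gg (a : ℝ) (ha : 0 ≤ a) (ha1 : a < 1) (β : ℝ) (hβ : a * 2 ^ β < 1) :
    Summable (fun k : ℕ => ‖coef (gg a) ((k + 1 : ℕ) : ℤ)‖ * ((k + 1 : ℕ) : ℝ) ^ β) := by
  have hinj : Function.Injective (fun j : ℕ => 2 ^ j - 1) := by
    intro i j h
    simp only at h
    have h1 : 0 < 2 ^ i := by positivity
    have h2 : 0 < 2 ^ j := by positivity
    exact Nat.pow_right_injective le_rfl (show 2 ^ i = 2 ^ j by omega)
  rw [← hinj.summable_iff]
  · have hs := (summable_geometric_of_lt_one (r := a * 2 ^ β) (by positivity) hβ).mul_left (1 / 2)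
    refine hs.congr fun j => ?_
    have h1 : 0 < 2 ^ j := by positivity
    have h2 : 2 ^ j - 1 + 1 = 2 ^ j := by omega
    simp only [Function.comp, h2]
    rw [coef_gg_pow a ha ha1, Complex.norm_real, Real.norm_eq_abs, abs_of_nonneg (by positivity)]
    push_cast
    rw [mul_pow, ← Real.rpow_natCast_mul (by norm_num), ← Real.rpow_mul_natCast (by norm_num),
      mul_comm β]
    ring
  · intro k hk
    rw [coef_gg_zero a ha ha1 (k + 1) (by omega)]
    · simp
    · intro j hj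
      apply hk
      exact ⟨j, by simp only; omega⟩

lemma G_cont (δ : ℝ) (hδ : 0 < δ) (g : ℝ → ℝ) (hg : Continuous g) (M : ℝ) (hM : ∀ x, |g x| ≤ M) :
    Continuous (G δ g) ∧ ∀ k : ℤ, HasSum (fun n : ℕ => coef (fun x =>
      g (((n + 1 : ℕ) : ℝ) ^ 2 * x) / ((n + 1 : ℕ) : ℝ) ^ (1 + δ)) k) (coef (G δ g) k) := by
  have hs : Summable fun n : ℕ => M * (1 / ((n + 1 : ℕ) : ℝ) ^ (1 + δ)) := by
    apply Summable.mul_left
    exact (summable_nat_add_iff (f := fun n : ℕ => 1 / (n : ℝ) ^ (1 + δ)) 1).2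
      (Real.summable_one_div_nat_rpow.2 (by linarith))
  have hb : ∀ (n : ℕ) (x : ℝ), |g (((n + 1 : ℕ) : ℝ) ^ 2 * x) / ((n + 1 : ℕ) : ℝ) ^ (1 + δ)| ≤
      M * (1 / ((n + 1 : ℕ) : ℝ) ^ (1 + δ)) := by
    intro n x
    rw [abs_div, abs_of_pos (a := ((n + 1 : ℕ) : ℝ) ^ (1 + δ)) (by positivity), mul_one_div]
    gcongr
    exact hM _
  have hc : ∀ n : ℕ, Continuous fun x : ℝ =>
      g (((n + 1 : ℕ) : ℝ) ^ 2 * x) / ((n + 1 : ℕ) : ℝ) ^ (1 + δ) := fun n => by fun_prop
  exact ⟨continuous_tsum hc hs hb, fun k => coef_hasSum _ _ hc hb hs k⟩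

lemma coefG_ge (δ : ℝ) (hδ : 0 < δ) (a : ℝ) (ha : 0 ≤ a) (ha1 : a < 1) (J : ℕ) :
    a ^ J / 2 ≤ (coef (G δ (gg a)) ((2 ^ J : ℕ) : ℤ)).re := by
  have h := (G_cont δ hδ (gg a) (gg_cont a ha ha1) _ (gg_bd a ha ha1)).2 ((2 ^ J : ℕ) : ℤ)
  have h1 := Complex.hasSum_re h
  refine le_trans ?_ (le_hasSum h1 0 ?_)
  · simp only [zero_add, Nat.cast_one, one_pow, one_mul, Real.one_rpow, div_one]
    have := coef_gg_pow a ha ha1 J
    rw [show (fun x => gg a x) = gg a from rfl, this]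
    simp only [Complex.ofReal_re, le_refl]
  · intro n _
    have h2 := coef_gg_dil a ha ha1 (1 / ((n + 1 : ℕ) : ℝ) ^ (1 + δ)) ((n + 1) ^ 2) (2 ^ J)
      (by positivity)
    have h3 := Complex.hasSum_re h2
    have h4 : (fun x => gg a (((n + 1 : ℕ) : ℝ) ^ 2 * x) / ((n + 1 : ℕ) : ℝ) ^ (1 + δ)) =
        fun x => (1 / ((n + 1 : ℕ) : ℝ) ^ (1 + δ)) * gg a ((((n + 1) ^ 2 : ℕ) : ℝ) * x) := by
      funext x; push_cast; ring
    rw [h4]
    refine h3.nonneg fun j => ?_
    split_ifs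
    · rw [Complex.ofReal_re]; positivity
    · simp

lemma upper_ge (δ : ℝ) (hδ : 0 < δ) (α : ℝ) (hα : 0 < α) (s : ℝ) (hs : s < 2 - α) :
    (s : EReal) ≤ upperBox (G δ (gg (2 ^ (-α)))) := by
  set a : ℝ := 2 ^ (-α) with ha_def
  have ha : 0 < a := by positivity
  have ha1 : a < 1 := Real.rpow_lt_one_of_one_lt_of_neg (by norm_num) (by linarith)
  have hc := (G_cont δ hδ (gg a) (gg_cont a ha.le ha1) _ (gg_bd a ha.le ha1)).1
  unfold upperBox
  apply le_limsup_of_frequently_le'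
  rw [frequently_atTop]
  intro n
  obtain ⟨J0, hJ0⟩ := exists_nat_ge (1 / (2 - α - s))
  set J := J0 + n + 1 with hJ
  refine ⟨2 ^ J, ?_, ?_⟩
  · have := Nat.lt_two_pow_self (n := J); omega
  · have h1 := coef_le _ hc (2 ^ J) (by positivity)
    have h2 := coefG_ge δ hδ a ha.le ha1 J
    have h3 := (h2.trans (Complex.re_le_norm _)).trans h1
    rw [le_div_iff₀ (by positivity)] at h3
    have h4 := Real.log_le_log (by positivity) h3
    have hl : 0 < Real.log 2 := Real.log_pos (by norm_num)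
    have hJpos : (0:ℝ) < J := by have : 0 < J := by omega
                                 exact_mod_cast this
    have hla : Real.log a = -α * Real.log 2 := by rw [ha_def, Real.log_rpow (by norm_num)]
    rw [Real.log_mul (by positivity) (by positivity), Real.log_div (by positivity) (by norm_num),
      Real.log_pow, Real.log_pow, hla] at h4
    have h5 : Real.log ((2 ^ J : ℕ) : ℝ) = J * Real.log 2 := by push_cast; rw [Real.log_pow]
    rw [h5] at h4
    rw [EReal.coe_le_coe_iff, h5, le_div_iff₀ (by positivity)]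
    refine le_trans ?_ h4
    have h6 : 1 ≤ (2 - α - s) * J := by
      rw [div_le_iff₀ (by linarith)] at hJ0
      have : (J0:ℝ) ≤ J := by exact_mod_cast (show J0 ≤ J by omega)
      nlinarith
    push_cast
    nlinarith

theorem main (δ : ℝ) (hδ : 0 < δ) (s : ℝ) (hs : s < 2 - δ / 2) :
    ∃ g : ℝ → ℝ, Continuous g ∧ Function.Periodic g 1 ∧ CondH δ g ∧ CondNV δ g ∧
      (s : EReal) ≤ upperBox (G δ g) := by
  set η := (2 - δ / 2 - s) / 2 with hη
  have hη0 : 0 < η := by rw [hη]; linarith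
  set α := δ / 2 + η with hα
  have hα0 : 0 < α := by positivity
  set a : ℝ := 2 ^ (-α) with ha_def
  have ha : 0 < a := by positivity
  have ha1 : a < 1 := Real.rpow_lt_one_of_one_lt_of_neg (by norm_num) (by linarith)
  have hβ : ∀ β : ℝ, β < α → a * 2 ^ β < 1 := by
    intro β hβ
    rw [ha_def, ← Real.rpow_add (by norm_num)]
    exact Real.rpow_lt_one_of_one_lt_of_neg (by norm_num) (by linarith)
  refine ⟨gg a, gg_cont a ha.le ha1, gg_per a, ⟨η, hη0, summ_gg a ha.le ha1 _ (hβ _ (by linarith))⟩,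
    ?_, upper_ge δ hδ α hα0 s (by linarith)⟩
  have h1 := summ_gg a ha.le ha1 (δ / 2) (hβ _ (by linarith))
  have hinj : Function.Injective (fun m : ℕ => (m + 1) ^ 2 - 1) := by
    intro i j h
    simp only at h
    have h1 : 0 < (i + 1) ^ 2 := by positivity
    have h2 : 0 < (j + 1) ^ 2 := by positivity
    have h3 : (i + 1) ^ 2 = (j + 1) ^ 2 := by omega
    have := Nat.pow_left_injective (by norm_num) h3
    omega
  have h2 := h1.comp_injective hinj
  have h3 : Summable fun m : ℕ => ‖coef (gg a) (((m + 1) ^ 2 * 1 : ℕ) : ℤ)‖ *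
      (((m + 1) ^ 2 * 1 : ℕ) : ℝ) ^ (δ / 2) := by
    refine h2.congr fun m => ?_
    have h1 : 0 < (m + 1) ^ 2 := by positivity
    have : (m + 1) ^ 2 - 1 + 1 = (m + 1) ^ 2 * 1 := by omega
    simp only [Function.comp, this]
  refine ⟨1, one_pos, squarefree_one, _, ?_, (Complex.hasSum_ofReal.2 h3.hasSum).congr_fun ?_⟩
  · rw [Complex.ofReal_ne_zero]
    apply ne_of_gt
    refine h3.tsum_pos (fun m => by positivity) 0 ?_
    have := coef_gg_pow a ha.le ha1 0
    simp only [pow_zero] at this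
    simp only [zero_add, one_pow, mul_one]
    rw [this]
    simp
  · intro m
    rw [Complex.ofReal_mul, ← coef_gg_real a ha.le ha1 _ (by positivity)]

end Pool.Agent.H41.Rb
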