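import Mathlib

set_option autoImplicit false

namespace Pool.Agent.H41.Rb

open Filter

/-- The `k`-th Fourier coefficient `C_k = ∫_0^1 g(x) e^{-2πikx} dx` of a `1`-periodic real function. -/
noncomputable def coef (g : ℝ → ℝ) (k : ℤ) : ℂ :=
  ∫ x in (0 : ℝ)..1, (g x : ℂ) * Complex.exp (-(2 * Real.pi * Complex.I * k * x))

/-- `G_δ(x) = ∑_{n ≥ 1} g(n² x) / n^{1+δ}`. -/
noncomputable def G (δ : ℝ) (g : ℝ → ℝ) (x : ℝ) : ℝ :=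
  ∑' n : ℕ, g (((n + 1 : ℕ) : ℝ) ^ 2 * x) / ((n + 1 : ℕ) : ℝ) ^ (1 + δ)

/-- Condition (H): `∑_{k ≥ 1} |C_k| k^{(ε+δ)/2} < ∞` for some `ε > 0`. -/
def CondH (δ : ℝ) (g : ℝ → ℝ) : Prop :=
  ∃ ε : ℝ, 0 < ε ∧
    Summable (fun k : ℕ => ‖coef g ((k + 1 : ℕ) : ℤ)‖ * ((k + 1 : ℕ) : ℝ) ^ ((ε + δ) / 2))

/-- Condition (NV): for some positive square-free `d₀`,
`∑_{m ≥ 1} C_{m² d₀} (m² d₀)^{δ/2}` converges to a non-zero number. -/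
def CondNV (δ : ℝ) (g : ℝ → ℝ) : Prop :=
  ∃ d : ℕ, 0 < d ∧ Squarefree d ∧ ∃ s : ℂ, s ≠ 0 ∧
    HasSum (fun m : ℕ => coef g (((m + 1) ^ 2 * d : ℕ) : ℤ) *
      (((((m + 1) ^ 2 * d : ℕ) : ℝ) ^ (δ / 2) : ℝ) : ℂ)) s

/-- The closed grid squares `[i/N,(i+1)/N] × [j/N,(j+1)/N]` that meet the graph of `f` over `[0,1]`. -/
def squares (f : ℝ → ℝ) (N : ℕ) : Set (ℤ × ℤ) :=
  {p | ∃ x ∈ Set.Icc (0 : ℝ) 1, x ∈ Set.Icc ((p.1 : ℝ) / N) (((p.1 : ℝ) + 1) / N) ∧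
    f x ∈ Set.Icc ((p.2 : ℝ) / N) (((p.2 : ℝ) + 1) / N)}

/-- `A_N(f)`: the number of such squares. -/
noncomputable def A (f : ℝ → ℝ) (N : ℕ) : ℕ := (squares f N).ncard

/-- The upper box dimension of the graph of `f` over `[0,1]`:
`limsup_{N → ∞} log A_N(f) / log N`, taken in the extended reals. -/
noncomputable def upperBox (f : ℝ → ℝ) : EReal :=
  limsup (fun N : ℕ => ((Real.log (A f N) / Real.log N : ℝ) : EReal)) atTop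

end Pool.Agent.H41.Rb
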