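import Mathlib

namespace Pool.Agent.H41.Rel

open MeasureTheory FourierTransform SchwartzMap WithLp Filter
open scoped RealInnerProductSpace

theorem decay {E : Type} [NormedAddCommGroup E] [NormedSpace ℝ E] (f : 𝓢(E, ℂ)) (k : ℕ) :
    ∃ C : ℝ, 0 ≤ C ∧ ∀ x, ‖f x‖ ≤ C * (1 + ‖x‖) ^ (-(k : ℝ)) := by
  refine ⟨2 ^ k * (Finset.Iic (k, 0)).sup (fun m => SchwartzMap.seminorm ℝ m.1 m.2) f,
    by positivity, fun x => ?_⟩
  have := one_add_le_sup_seminorm_apply (𝕜 := ℝ) (m := (k, 0)) le_rfl le_rfl f x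
  rw [norm_iteratedFDeriv_zero] at this
  rw [Real.rpow_neg (by positivity), Real.rpow_natCast, ← div_eq_mul_inv,
    le_div_iff₀ (by positivity), mul_comm]
  exact this

section
variable {U Y E : Type} [NormedAddCommGroup U] [InnerProductSpace ℝ U] [FiniteDimensional ℝ U]
  [MeasurableSpace U] [BorelSpace U] [NormedAddCommGroup Y] [InnerProductSpace ℝ Y]
  [FiniteDimensional ℝ Y] [MeasurableSpace Y] [BorelSpace Y] [NormedAddCommGroup E]
  [InnerProductSpace ℝ E] [FiniteDimensional ℝ E] [MeasurableSpace E] [BorelSpace E]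

theorem sq_int (f : 𝓢(E, ℂ)) (k : ℕ) : Integrable fun x => ‖x‖ ^ k * ‖f x‖ ^ 2 := by
  have := f.continuous
  refine ((f.integrable_pow_mul volume k).const_mul (SchwartzMap.seminorm ℝ 0 0 f)).mono'
    (by fun_prop) (Eventually.of_forall fun x => ?_)
  rw [Real.norm_of_nonneg (by positivity)]
  nlinarith [mul_le_mul_of_nonneg_left (norm_le_seminorm ℝ f x)
    (by positivity : 0 ≤ ‖x‖ ^ k * ‖f x‖)]

variable (Φ : WithLp 2 (U × Y) ≃ₗᵢ[ℝ] E)

noncomputable def gl (z : U × Y) : E := Φ (toLp 2 z)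

theorem gl_mp : MeasurePreserving (gl Φ) (volume.prod volume) :=
  Φ.measurePreserving.comp (WithLp.volume_preserving_toLp U Y)

theorem gl_emb : MeasurableEmbedding (gl Φ) :=
  Φ.toHomeomorph.measurableEmbedding.comp
    (WithLp.homeomorphProd 2 U Y).symm.measurableEmbedding

omit [FiniteDimensional ℝ U] [MeasurableSpace U] [BorelSpace U] [FiniteDimensional ℝ Y]
  [MeasurableSpace Y] [BorelSpace Y] [FiniteDimensional ℝ E] [MeasurableSpace E] [BorelSpace E]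

theorem gl_cont : Continuous (gl Φ) := Φ.continuous.comp (WithLp.homeomorphProd 2 U Y).symm.continuous

theorem gl_inner (u k : U) (y l : Y) : ⟪gl Φ (u, y), gl Φ (k, l)⟫ = ⟪u, k⟫ + ⟪y, l⟫ := by
  simp [gl]

theorem gl_norm (u : U) (y : Y) : ‖u‖ ≤ ‖gl Φ (u, y)‖ ∧ ‖y‖ ≤ ‖gl Φ (u, y)‖ := by
  rw [gl, Φ.norm_map]
  exact ⟨WithLp.norm_fst_le U (toLp 2 (u, y)), WithLp.norm_snd_le U (toLp 2 (u, y))⟩

theorem slice1 (f : 𝓢(E, ℂ)) (y : Y) : ∃ g : 𝓢(U, ℂ), ∀ u, g u = f (gl Φ (u, y)) := by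
  let J : U →L[ℝ] E := Φ.toContinuousLinearEquiv.toContinuousLinearMap ∘L
    (prodContinuousLinearEquiv 2 ℝ U Y).symm.toContinuousLinearMap ∘L ContinuousLinearMap.inl ℝ U Y
  have e : ∀ u, gl Φ (u, y) = J u + gl Φ (0, y) := fun u => by
    simp only [gl, J, ← map_add]; simp [← map_add, ← toLp_add]
  refine ⟨compCLMOfAntilipschitz ℝ (g := fun u => J u + gl Φ (0, y)) (K := 1) (by fun_prop)
    (AntilipschitzWith.of_le_mul_dist fun a b => ?_) f, fun u => congrArg f (e u).symm⟩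
  rw [dist_add_right, dist_eq_norm, dist_eq_norm, ← map_sub]
  rw [NNReal.coe_one, one_mul]; exact (gl_norm Φ (a - b) 0).1

theorem slice2 (f : 𝓢(E, ℂ)) (u : U) : ∃ g : 𝓢(Y, ℂ), ∀ y, g y = f (gl Φ (u, y)) := by
  let J : Y →L[ℝ] E := Φ.toContinuousLinearEquiv.toContinuousLinearMap ∘L
    (prodContinuousLinearEquiv 2 ℝ U Y).symm.toContinuousLinearMap ∘L ContinuousLinearMap.inr ℝ U Y
  have e : ∀ y, gl Φ (u, y) = J y + gl Φ (u, 0) := fun y => by
    simp only [gl, J, ← map_add]; simp [← map_add, ← toLp_add]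
  refine ⟨compCLMOfAntilipschitz ℝ (g := fun y => J y + gl Φ (u, 0)) (K := 1) (by fun_prop)
    (AntilipschitzWith.of_le_mul_dist fun a b => ?_) f, fun u => congrArg f (e u).symm⟩
  rw [dist_add_right, dist_eq_norm, dist_eq_norm, ← map_sub]
  rw [NNReal.coe_one, one_mul]; exact (gl_norm Φ 0 (a - b)).2

end

section
variable {U Y E : Type} [NormedAddCommGroup U] [InnerProductSpace ℝ U] [FiniteDimensional ℝ U]
  [MeasurableSpace U] [BorelSpace U] [NormedAddCommGroup Y] [InnerProductSpace ℝ Y]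
  [FiniteDimensional ℝ Y] [MeasurableSpace Y] [BorelSpace Y] [NormedAddCommGroup E]
  [InnerProductSpace ℝ E] [FiniteDimensional ℝ E] [MeasurableSpace E] [BorelSpace E]
  (Φ : WithLp 2 (U × Y) ≃ₗᵢ[ℝ] E)

noncomputable def pft (f : 𝓢(E, ℂ)) (z : U × Y) : ℂ := ∫ y, 𝐞 (-⟪y, z.2⟫) • f (gl Φ (z.1, y))

omit [FiniteDimensional ℝ U] [MeasurableSpace U] [BorelSpace U] [FiniteDimensional ℝ E]
  [MeasurableSpace E] [BorelSpace E] in
theorem pft_cont (f : 𝓢(E, ℂ)) : Continuous (pft Φ f) := by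
  obtain ⟨C, hC, h⟩ := decay f (Module.finrank ℝ Y + 1)
  have h1 := f.continuous
  have h2 := gl_cont Φ
  have h3 := Real.continuous_fourierChar
  refine continuous_of_dominated (bound := fun y => C * (1 + ‖y‖) ^ (-((Module.finrank ℝ Y + 1 : ℕ) : ℝ)))
    (fun z => Continuous.aestronglyMeasurable (by fun_prop)) (fun z => Eventually.of_forall fun y => ?_)
    ((integrable_one_add_norm (by simp)).const_mul C) (Eventually.of_forall fun y => by fun_prop)
  rw [Circle.norm_smul]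
  refine (h _).trans (mul_le_mul_of_nonneg_left (Real.rpow_le_rpow_of_nonpos (by positivity) ?_
    (neg_nonpos.mpr (Nat.cast_nonneg _))) hC)
  linarith [(gl_norm Φ z.1 y).2]

theorem pft_schwartz (f : 𝓢(E, ℂ)) (l : Y) : ∃ φ : 𝓢(U, ℂ), (∀ u, φ u = pft Φ f (u, l)) ∧
    ∀ k, 𝓕 (fun u => φ u) k = 𝓕 (fun x => f x) (gl Φ (k, l)) := by
  obtain ⟨g, hg⟩ := slice1 Φ (𝓕 f) l
  have h1 := f.continuous
  have h2 := gl_cont Φ
  have h3 := Real.continuous_fourierChar
  have hI : ∀ c : U × Y → Circle, Continuous c →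
      Integrable (fun z => c z • f (gl Φ z)) (volume.prod volume) := fun c hc =>
    (((gl_mp Φ).integrable_comp_emb (gl_emb Φ)).mpr f.integrable.norm).mono'
      (Continuous.aestronglyMeasurable (by fun_prop))
      (Eventually.of_forall fun z => by simp [Circle.norm_smul])
  have h4 : 𝓕 (fun u => pft Φ f (u, l)) = g := by
    funext k
    rw [hg, fourier_coe, Real.fourier_eq, Real.fourier_eq, ← (gl_mp Φ).integral_comp (gl_emb Φ),
      integral_prod _ (hI (fun z => 𝐞 (-⟪gl Φ z, gl Φ (k, l)⟫)) (by fun_prop))]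
    refine integral_congr_ae (Eventually.of_forall fun u => ?_)
    simp only [pft, Circle.smul_def, ← integral_smul, gl_inner, neg_add, AddChar.map_add_eq_mul,
      Circle.coe_mul, mul_smul]
  have h5 : 𝓕⁻ (g : U → ℂ) = fun u => pft Φ f (u, l) := by
    rw [← h4]
    exact Continuous.fourierInv_fourier_eq ((pft_cont Φ f).comp (by fun_prop))
      (hI (fun z => 𝐞 (-⟪z.2, l⟫)) (by fun_prop)).integral_prod_left (h4 ▸ g.integrable)
  refine ⟨𝓕⁻ g, fun u => by rw [fourierInv_coe, h5], fun k => ?_⟩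
  exact (congrArg (fun g : 𝓢(U, ℂ) => g k) (FourierTransform.fourier_fourierInv_eq (F := 𝓢(U, ℂ)) g)).trans (hg k)

theorem kin_slice (f : 𝓢(E, ℂ)) {φ : Y → 𝓢(U, ℂ)}
    (hφ : ∀ l k, 𝓕 (fun u => φ l u) k = 𝓕 (fun x => f x) (gl Φ (k, l))) {m : U → ℝ} {F : E → ℝ}
    (hF : ∀ k l, F (gl Φ (k, l)) = m k) (hI : Integrable fun x => F x * ‖𝓕 (fun x => f x) x‖ ^ 2) :
    Integrable (fun l => ∫ k, m k * ‖𝓕 (fun u => φ l u) k‖ ^ 2) ∧
    ∫ l, ∫ k, m k * ‖𝓕 (fun u => φ l u) k‖ ^ 2 = ∫ x, F x * ‖𝓕 (fun x => f x) x‖ ^ 2 := by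
  have h := ((gl_mp Φ).integrable_comp_emb (gl_emb Φ)).mpr hI
  have h1 := h.integral_prod_right
  have h2 := integral_prod_symm _ h
  simp only [Function.comp_apply, hF, ← hφ] at h1
  refine ⟨h1, ?_⟩
  rw [← (gl_mp Φ).integral_comp (gl_emb Φ)]
  simp only [Function.comp_apply] at h2
  rw [h2]
  simp only [hF, hφ]

theorem pot_slice (f : 𝓢(E, ℂ)) {φ : Y → 𝓢(U, ℂ)} (hφ : ∀ l u, φ l u = pft Φ f (u, l))
    {m : U → ℝ} (hm : Measurable m) {F : E → ℝ}
    (hF : ∀ k l, F (gl Φ (k, l)) = m k) (hI : Integrable fun x => F x * ‖f x‖ ^ 2) :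
    Integrable (fun l => ∫ u, m u * ‖φ l u‖ ^ 2) ∧
    ∫ l, ∫ u, m u * ‖φ l u‖ ^ 2 = ∫ x, F x * ‖f x‖ ^ 2 := by
  have h := ((gl_mp Φ).integrable_comp_emb (gl_emb Φ)).mpr hI
  have key : ∀ u, Integrable (fun l => ‖pft Φ f (u, l)‖ ^ 2) ∧
      ∫ l, ‖pft Φ f (u, l)‖ ^ 2 = ∫ y, ‖f (gl Φ (u, y))‖ ^ 2 := by
    intro u
    obtain ⟨g, hg⟩ := slice2 Φ f u
    have e : ∀ l, pft Φ f (u, l) = 𝓕 g l := fun l => by
      simp only [pft, fourier_coe, Real.fourier_eq, hg]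
    simp only [e, ← hg]
    exact ⟨by simpa using sq_int (𝓕 g) 0, integral_norm_sq_fourier g⟩
  have hc := (pft_cont Φ f).measurable
  have h3 : Integrable (fun z : U × Y => m z.1 * ‖pft Φ f z‖ ^ 2) (volume.prod volume) := by
    rw [integrable_prod_iff (Measurable.aestronglyMeasurable (by fun_prop))]
    refine ⟨Eventually.of_forall fun u => (key u).1.const_mul (m u), ?_⟩
    have := h.integral_norm_prod_left
    simp only [Function.comp_apply, hF, norm_mul, integral_const_mul, norm_pow, norm_norm] at this ⊢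
    simpa only [(key _).2] using this
  simp only [hφ]
  refine ⟨h3.integral_prod_right, ?_⟩
  rw [← integral_prod_symm _ h3, integral_prod _ h3, ← (gl_mp Φ).integral_comp (gl_emb Φ)]
  have h4 := integral_prod _ h
  simp only [Function.comp_apply] at h4
  rw [h4]
  simp only [hF, integral_const_mul, (key _).2]

theorem sing (hU : 1 < Module.finrank ℝ U) (f : 𝓢(E, ℂ)) {a : Y → U} (ha : Measurable a)
    {F : E → ℝ} (hF : ∀ u y, F (gl Φ (u, y)) = ‖u - a y‖⁻¹) :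
    Integrable fun x => F x * ‖f x‖ ^ 2 := by
  rw [← (gl_mp Φ).integrable_comp_emb (gl_emb Φ)]
  obtain ⟨C, hC, h⟩ := decay f (Module.finrank ℝ Y + 1)
  have h0 : Integrable ((Metric.ball (0 : U) 1).indicator fun u => ‖u‖⁻¹) :=
    (integrableOn_ball_of_norm_le_rpow (C := 1) (α := 1) hU.le (by exact_mod_cast hU)
      (Eventually.of_forall fun u => by simp [Real.rpow_neg_one])
      (Measurable.aestronglyMeasurable (by fun_prop))).integrable_indicator measurableSet_ball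
  have hm0 : Measurable ((Metric.ball (0 : U) 1).indicator fun u => ‖u‖⁻¹) :=
    Measurable.indicator (by fun_prop) measurableSet_ball
  obtain ⟨g, hg⟩ : ∃ g, g = (Metric.ball (0 : U) 1).indicator fun u => ‖u‖⁻¹ := ⟨_, rfl⟩
  rw [← hg] at h0 hm0
  obtain ⟨w, hw⟩ : ∃ w : Y → ℝ, w = fun y => (1 + ‖y‖) ^ (-((Module.finrank ℝ Y + 1 : ℕ) : ℝ)) :=
    ⟨_, rfl⟩
  have hwi : Integrable w := hw ▸ integrable_one_add_norm (by simp)
  have hwm : Measurable w := by rw [hw]; fun_prop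
  have h1 : Integrable (fun z : U × Y => g (z.1 - a z.2) * w z.2) (volume.prod volume) := by
    rw [integrable_prod_iff' (Measurable.aestronglyMeasurable (by fun_prop))]
    refine ⟨Eventually.of_forall fun y => (h0.comp_sub_right (a y)).mul_const (w y), ?_⟩
    simp only [norm_mul, integral_mul_const, integral_sub_right_eq_self fun u => ‖g u‖]
    exact hwi.norm.const_mul _
  have h2 := ((gl_mp Φ).integrable_comp_emb (gl_emb Φ)).mpr (sq_int f 0)
  have h3 := f.continuous.measurable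
  have h4 := (gl_cont Φ).measurable
  have e : (fun x => F x * ‖f x‖ ^ 2) ∘ gl Φ = fun z => ‖z.1 - a z.2‖⁻¹ * ‖f (gl Φ z)‖ ^ 2 :=
    funext fun z => by rw [← hF]; rfl
  rw [e]
  refine ((h1.const_mul (SchwartzMap.seminorm ℝ 0 0 f * C)).add h2).mono'
    (Measurable.aestronglyMeasurable (by fun_prop)) (Eventually.of_forall fun z => ?_)
  simp only [Pi.add_apply, Function.comp_apply, pow_zero, one_mul]
  rw [Real.norm_of_nonneg (by positivity)]
  have h5 : ‖f (gl Φ z)‖ ^ 2 ≤ SchwartzMap.seminorm ℝ 0 0 f * C * w z.2 := by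
    rw [sq, mul_assoc]
    refine mul_le_mul (norm_le_seminorm ℝ f _) ((h _).trans ?_) (norm_nonneg _) (apply_nonneg _ _)
    rw [hw]
    refine mul_le_mul_of_nonneg_left (Real.rpow_le_rpow_of_nonpos (by positivity) ?_
      (neg_nonpos.mpr (Nat.cast_nonneg _))) hC
    linarith [(gl_norm Φ z.1 z.2).2]
  by_cases h6 : ‖z.1 - a z.2‖ < 1
  · rw [hg, Set.indicator_of_mem (by simpa using h6)]
    nlinarith [mul_le_mul_of_nonneg_left h5 (inv_nonneg.mpr (norm_nonneg (z.1 - a z.2))),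
      sq_nonneg ‖f (gl Φ z)‖]
  · rw [hg, Set.indicator_of_notMem (by simpa using h6)]
    nlinarith [inv_le_one_of_one_le₀ (not_lt.mp h6), sq_nonneg ‖f (gl Φ z)‖]

end

theorem exists_split {ι₁ ι : Type} [Fintype ι₁] [Fintype ι] [DecidableEq ι] {e : ι₁ → ι}
    (he : Function.Injective e) :
    ∃ Φ : WithLp 2 (EuclideanSpace ℝ ι₁ × EuclideanSpace ℝ {p // p ∉ Set.range e}) ≃ₗᵢ[ℝ]
      EuclideanSpace ℝ ι, ∀ u y, (∀ a, gl Φ (u, y) (e a) = u a) ∧ ∀ b, gl Φ (u, y) b.1 = y b := by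
  classical
  let ε : ι₁ ⊕ {p // p ∉ Set.range e} ≃ ι :=
    (Equiv.sumCongr (Equiv.ofInjective e he) (Equiv.refl _)).trans (Equiv.Set.sumCompl _)
  refine ⟨(PiLp.sumPiLpEquivProdLpPiLp 2 (fun _ => ℝ)).symm.trans
    (LinearIsometryEquiv.piLpCongrLeft 2 ℝ ℝ ε), fun u y => ⟨fun a => ?_, fun b => ?_⟩⟩
  · rw [show e a = ε (Sum.inl a) from rfl]
    simp [gl, PiLp.sumPiLpEquivProdLpPiLp]
    rfl
  · rw [show b.1 = ε (Sum.inr b) from rfl]
    simp [gl, PiLp.sumPiLpEquivProdLpPiLp]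
    rfl

end Pool.Agent.H41.Rel
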