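import Pool.Agent.H41.Rel1
import Pool.Agent.H41.Peps1

namespace Pool.Agent.H41.Rel

open MeasureTheory FourierTransform SchwartzMap WithLp Filter Function

abbrev EE (N : ℕ) : Type := EuclideanSpace ℝ (Fin N × Fin 3)

section
variable {N K q : ℕ}

noncomputable def mm (k : EE N) (i : Fin N) : ℝ :=
  2 * Real.pi * Real.sqrt (∑ c : Fin 3, (ofLp k (i, c)) ^ 2)

noncomputable def ee (x : EE N) (i j : Fin N) : ℝ :=
  1 / Real.sqrt (∑ c : Fin 3, (ofLp x (i, c) - ofLp x (j, c)) ^ 2)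

noncomputable def nn (x : EE N) (i : Fin N) (r : Fin 3 → ℝ) : ℝ :=
  1 / Real.sqrt (∑ c : Fin 3, (ofLp x (i, c) - r c) ^ 2)

noncomputable def rr (R : Fin K → Fin 3 → ℝ) : ℝ :=
  ∑ l : Fin K, ∑ m : Fin K, if l < m then 1 / Real.sqrt (∑ c : Fin 3, (R l c - R m c) ^ 2) else 0

noncomputable def VV (z : ℝ) (R : Fin K → Fin 3 → ℝ) (x : EE N) : ℝ :=
  (∑ i, ∑ j, if i < j then ee x i j else 0) - z * (∑ i, ∑ l, nn x i (R l)) + z ^ 2 * rr R

def Anti (ψ : (Fin N → Fin q) → 𝓢(EE N, ℂ)) : Prop :=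
  ∀ (π' : Equiv.Perm (Fin N)) (σ : Fin N → Fin q) (x : EE N),
    ψ (σ ∘ π') (toLp 2 (fun p : Fin N × Fin 3 => ofLp x (π' p.1, p.2)))
      = ((Equiv.Perm.sign π' : ℤ) : ℂ) * ψ σ x

noncomputable def QQ (α : ℝ) (T V : EE N → ℝ) (ψ : (Fin N → Fin q) → 𝓢(EE N, ℂ)) : ℝ :=
  (∑ σ, ∫ k, T k * ‖𝓕 (fun y => ψ σ y) k‖ ^ 2) + α * ∑ σ, ∫ x, V x * ‖ψ σ x‖ ^ 2

def Stab (q : ℕ) (α z : ℝ) : Prop :=
  ∀ N K : ℕ, ∀ R : Fin K → Fin 3 → ℝ, Injective R → ∀ ψ : (Fin N → Fin q) → 𝓢(EE N, ℂ),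
    Anti ψ → 0 ≤ QQ α (fun k => ∑ i, mm k i) (VV z R) ψ

noncomputable def TS (S : Finset (Fin N)) (k : EE N) : ℝ := ∑ i, if i ∈ S then mm k i else 0

noncomputable def VS (z : ℝ) (R : Fin K → Fin 3 → ℝ) (S : Finset (Fin N)) (x : EE N) : ℝ :=
  (∑ i, if i ∈ S then ∑ j, if j ∈ S then if i < j then ee x i j else 0 else 0 else 0) -
    z * (∑ i, if i ∈ S then ∑ l, nn x i (R l) else 0) + z ^ 2 * rr R

theorem mm_int (f : 𝓢(EE N, ℂ)) (i : Fin N) : Integrable fun k => mm k i * ‖f k‖ ^ 2 := by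
  have := f.continuous
  refine ((sq_int f 1).const_mul (2 * Real.pi)).mono'
    (Continuous.aestronglyMeasurable (by unfold mm; fun_prop)) (Eventually.of_forall fun k => ?_)
  rw [Real.norm_of_nonneg (by unfold mm; positivity), mm, pow_one, mul_assoc (2 * Real.pi)]
  gcongr
  rw [EuclideanSpace.norm_eq, Fintype.sum_prod_type]
  gcongr
  simpa using Finset.single_le_sum (f := fun i => ∑ c, ofLp k (i, c) ^ 2)
    (fun _ _ => by positivity) (Finset.mem_univ i)

theorem ee_int (f : 𝓢(EE N, ℂ)) {i j : Fin N} (h : i ≠ j) :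
    Integrable fun x => ee x i j * ‖f x‖ ^ 2 := by
  obtain ⟨Φ, hΦ⟩ := exists_split (e := fun c : Fin 3 => (i, c)) (Prod.mk_right_injective i)
  have hj : ∀ c, (j, c) ∉ Set.range fun c : Fin 3 => (i, c) := fun c ⟨_, h'⟩ =>
    h (congrArg Prod.fst h')
  refine sing Φ (by simp) f (a := fun y => toLp 2 fun c => y ⟨(j, c), hj c⟩) (by fun_prop)
    fun u y => ?_
  have := fun c => (hΦ u y).2 ⟨(j, c), hj c⟩
  simp only at this
  simp [ee, EuclideanSpace.norm_eq, (hΦ u y).1, this]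

theorem nn_int (f : 𝓢(EE N, ℂ)) (i : Fin N) (r : Fin 3 → ℝ) :
    Integrable fun x => nn x i r * ‖f x‖ ^ 2 := by
  obtain ⟨Φ, hΦ⟩ := exists_split (e := fun c : Fin 3 => (i, c)) (Prod.mk_right_injective i)
  refine sing Φ (by simp) f (a := fun _ => toLp 2 r) (by fun_prop) fun u y => ?_
  simp [nn, EuclideanSpace.norm_eq, (hΦ u y).1]

theorem TS_int (S : Finset (Fin N)) (f : 𝓢(EE N, ℂ)) : Integrable fun k => TS S k * ‖f k‖ ^ 2 := by
  simp only [TS, Finset.sum_mul]
  refine integrable_finsetSum _ fun i _ => ?_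
  split_ifs
  exacts [mm_int f i, by simp]

theorem VS_int (z : ℝ) (R : Fin K → Fin 3 → ℝ) (S : Finset (Fin N)) (f : 𝓢(EE N, ℂ)) :
    Integrable fun x => VS z R S x * ‖f x‖ ^ 2 := by
  simp only [VS, add_mul, sub_mul, mul_assoc z, Finset.sum_mul]
  refine ((integrable_finsetSum _ fun i _ => ?_).sub ((integrable_finsetSum _
    fun i _ => ?_).const_mul z)).add ((by simpa using sq_int f 0 : Integrable
      fun x => ‖f x‖ ^ 2).const_mul _)
  · split_ifs
    · simp only [Finset.sum_mul]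
      refine integrable_finsetSum _ fun j _ => ?_
      split_ifs with h1 h2
      exacts [ee_int f h2.ne, by simp, by simp]
    · simp
  · split_ifs
    · simp only [Finset.sum_mul]
      exact integrable_finsetSum _ fun l _ => nn_int f i _
    · simp

theorem VV_meas (z : ℝ) (R : Fin K → Fin 3 → ℝ) : Measurable (VV z R : EE N → ℝ) := by
  refine (Measurable.sub (Finset.measurable_sum _ fun i _ => Finset.measurable_sum _ fun j _ => ?_)
    (by unfold nn; fun_prop)).add_const _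
  unfold ee
  split_ifs <;> fun_prop

theorem sub_stab (hq : 0 < q) {α z : ℝ} (h : Stab q α z) {R : Fin K → Fin 3 → ℝ} (hR : Injective R)
    {ψ : (Fin N → Fin q) → 𝓢(EE N, ℂ)} (hψ : Anti ψ) (S : Finset (Fin N)) :
    0 ≤ QQ α (TS S) (VS z R S) ψ := by
  classical
  let e0 := S.orderEmbOfFin rfl
  have he0 : Injective e0 := e0.injective
  have hsum : ∀ F : Fin N → ℝ, (∑ i, if i ∈ S then F i else 0) = ∑ i, F (e0 i) := fun F => by
    rw [Finset.sum_ite_mem, Finset.univ_inter]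
    conv_lhs => rw [← Finset.map_orderEmbOfFin_univ S rfl]
    rw [Finset.sum_map]; rfl
  obtain ⟨Φ, hΦ⟩ := exists_split (e := Prod.map e0 (id : Fin 3 → Fin 3))
    (he0.prodMap injective_id)
  have hΦ1 : ∀ u y i c, gl Φ (u, y) (e0 i, c) = u (i, c) := fun u y i c => (hΦ u y).1 (i, c)
  choose φ h1 h2 using fun σ l => pft_schwartz Φ (ψ σ) l
  have hT := fun σ => kin_slice Φ (ψ σ) (h2 σ) (m := fun k => ∑ i, mm k i) (F := TS S)
    (fun k l => by simp only [TS, hsum, mm, hΦ1]) (TS_int S (𝓕 (ψ σ)))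
  have hV := fun σ => pot_slice Φ (ψ σ) (h1 σ) (m := VV z R) (VV_meas z R)
    (F := VS z R S) (fun k l => by
      simp only [VS, VV, hsum, ee, nn, hΦ1, OrderEmbedding.lt_iff_lt]) (VS_int z R S (ψ σ))
  have hs : ∀ F : (Fin N → Fin q) → ℝ, ∑ σ, F σ = ∑ s ∈ Finset.univ.filter
      (fun s : Fin N → Fin q => s ∘ e0 = fun _ => ⟨0, hq⟩), ∑ σ, F (extend e0 σ s) := fun F => by
    apply Complex.ofReal_injective
    push_cast
    convert Peps.sum_split he0 (fun _ => ⟨0, hq⟩) fun σ => (F σ : ℂ)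
  rw [QQ, Finset.mul_sum, ← Finset.sum_add_distrib, hs]
  refine Finset.sum_nonneg fun s _ => ?_
  have key : ∀ l, Anti fun σ => φ (extend e0 σ s) l := by
    intro l π σ u
    let π' := π.viaFintypeEmbedding e0.toEmbedding
    have a1 : ∀ i, π' (e0 i) = e0 (π i) := fun i =>
      π.viaFintypeEmbedding_apply_image e0.toEmbedding i
    have a2 : ∀ b, b ∉ Set.range e0 → π' b = b := fun b hb =>
      π.viaFintypeEmbedding_apply_notMem_range e0.toEmbedding hb
    have a3 : extend e0 (σ ∘ π) s = extend e0 σ s ∘ π' := by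
      funext b
      by_cases hb : ∃ i, e0 i = b
      · obtain ⟨i, rfl⟩ := hb
        simp only [comp_apply, a1, he0.extend_apply]
      · rw [comp_apply, a2 b hb, extend_apply' _ _ _ hb, extend_apply' _ _ _ hb]
    simp only [h1, pft, ← integral_const_mul]
    refine integral_congr_ae (Eventually.of_forall fun y => ?_)
    have a4 : gl Φ (toLp 2 fun p => ofLp u (π p.1, p.2), y) =
        toLp 2 fun p => ofLp (gl Φ (u, y)) (π' p.1, p.2) := by
      ext ⟨b, c⟩
      by_cases hb : ∃ i, e0 i = b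
      · obtain ⟨i, rfl⟩ := hb
        simp only [a1, hΦ1]
      · have hb' : (b, c) ∉ Set.range (Prod.map e0 (id : Fin 3 → Fin 3)) :=
          fun ⟨p, hp⟩ => hb ⟨p.1, congrArg Prod.fst hp⟩
        simp only [a2 b hb]
        exact ((hΦ _ y).2 ⟨_, hb'⟩).trans ((hΦ u y).2 ⟨_, hb'⟩).symm
    simp only [a3, a4, hψ π', π', Equiv.Perm.viaFintypeEmbedding_sign, mul_smul_comm]
  have h3 := integral_nonneg (μ := volume) (f := fun l => QQ α (fun k => ∑ i, mm k i) (VV z R)
    fun σ => φ (extend e0 σ s) l) fun l => h _ K R hR _ (key l)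
  simp only [QQ] at h3
  rw [integral_add (integrable_finsetSum _ fun σ _ => (hT _).1)
    ((integrable_finsetSum _ fun σ _ => (hV _).1).const_mul α), integral_const_mul,
    integral_finsetSum _ fun σ _ => (hT _).1, integral_finsetSum _ fun σ _ => (hV _).1] at h3
  simp only [(hT _).2, (hV _).2] at h3
  rwa [Finset.sum_add_distrib, ← Finset.mul_sum]

theorem avg (θ : ℝ) (A : Finset (Fin N)) :
    ∑ S : Finset (Fin N), θ ^ S.card * (1 - θ) ^ Sᶜ.card * (if A ⊆ S then 1 else 0) = θ ^ A.card := by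
  have h := Fintype.prod_add (fun _ : Fin N => θ) fun a => if a ∈ A then 0 else 1 - θ
  rw [Finset.prod_congr rfl (g := fun a => if a ∈ A then θ else 1) fun a _ => by
    split_ifs <;> ring, Finset.prod_ite_mem, Finset.univ_inter, Finset.prod_const] at h
  rw [h]
  refine Finset.sum_congr rfl fun S _ => ?_
  rw [Finset.prod_const, mul_assoc]
  congr 1
  split_ifs with hA
  · rw [mul_one, ← Finset.prod_const]
    exact Finset.prod_congr rfl fun a ha => (if_neg fun h => Finset.mem_compl.mp ha (hA h)).symm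
  · obtain ⟨a, h1, h2⟩ := Finset.not_subset.mp hA
    rw [mul_zero]
    symm
    exact Finset.prod_eq_zero (Finset.mem_compl.mpr h2) (by simp [h1])

theorem down (hq : 0 < q) {α z θ : ℝ} (h0 : 0 < θ) (h1 : θ ≤ 1) (h : Stab q α z) :
    Stab q (θ * α) (z / θ) := by
  intro N K R hR ψ hψ
  obtain ⟨p, hp⟩ : ∃ p : Finset (Fin N) → ℝ, ∀ S, p S = θ ^ S.card * (1 - θ) ^ Sᶜ.card :=
    ⟨_, fun _ => rfl⟩
  have a0 : ∑ S, p S = 1 := by simpa [hp] using avg θ (∅ : Finset (Fin N))
  have a1 : ∀ i (t : ℝ), ∑ S, p S * (if i ∈ S then t else 0) = θ * t := fun i t => by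
    have := avg θ {i}
    simp only [← hp, Finset.singleton_subset_iff, Finset.card_singleton, pow_one] at this
    rw [← this, Finset.sum_mul]
    exact Finset.sum_congr rfl fun S _ => by split_ifs <;> ring
  have a2 : ∀ i j (t : ℝ), ∑ S, p S * (if i ∈ S then if j ∈ S then if i < j then t else 0 else 0
      else 0) = θ ^ 2 * if i < j then t else 0 := fun i j t => by
    by_cases hij : i < j
    · have := avg θ {i, j}
      simp only [← hp, Finset.insert_subset_iff, Finset.singleton_subset_iff,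
        Finset.card_pair hij.ne] at this
      rw [← this, Finset.sum_mul]
      exact Finset.sum_congr rfl fun S _ => by
        by_cases h1 : i ∈ S <;> by_cases h2 : j ∈ S <;> simp [h1, h2]
    · simp [hij]
  have b1 : ∀ k, ∑ S, p S * TS S k = θ * ∑ i, mm k i := fun k => by
    simp only [TS, Finset.mul_sum]
    rw [Finset.sum_comm]; simp only [a1]
  have b2 : ∀ x, ∑ S, p S * VS z R S x = θ ^ 2 * VV (z / θ) R x := fun x => by
    have c1 : ∑ S, p S * (∑ i, if i ∈ S then ∑ j, if j ∈ S then if i < j then ee x i j else 0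
        else 0 else 0) = θ ^ 2 * ∑ i, ∑ j, if i < j then ee x i j else 0 := by
      simp only [Finset.mul_sum, ← a2]
      rw [Finset.sum_comm]
      refine Finset.sum_congr rfl fun i _ => ?_
      rw [Finset.sum_comm]
      refine Finset.sum_congr rfl fun S _ => ?_
      split_ifs <;> simp [Finset.mul_sum]
    have c2 : ∑ S, p S * (∑ i, if i ∈ S then ∑ l, nn x i (R l) else 0) =
        θ * ∑ i, ∑ l, nn x i (R l) := by
      rw [Finset.sum_congr rfl fun S _ => Finset.mul_sum _ _ _, Finset.sum_comm]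
      simp only [a1, ← Finset.mul_sum]
    simp only [VS, VV, mul_add, mul_sub, Finset.sum_add_distrib, Finset.sum_sub_distrib, c1,
      mul_left_comm _ z, ← Finset.mul_sum, c2, ← Finset.sum_mul, a0]
    field_simp
  have h2 : 0 ≤ ∑ S, p S * QQ α (TS S) (VS z R S) ψ := Finset.sum_nonneg fun S _ =>
    mul_nonneg (by rw [hp]; have := sub_nonneg.mpr h1; positivity) (sub_stab hq h hR hψ S)
  have h3 : ∀ (F : Finset (Fin N) → EE N → ℝ) (g : (Fin N → Fin q) → EE N → ℝ) (c : ℝ)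
      (G : EE N → ℝ), (∀ S σ, Integrable fun x => F S x * g σ x) →
      (∀ x, ∑ S, p S * F S x = c * G x) →
      ∑ S, p S * ∑ σ, ∫ x, F S x * g σ x = c * ∑ σ, ∫ x, G x * g σ x := by
    intro F g c G hI hG
    simp only [Finset.mul_sum, ← integral_const_mul]
    rw [Finset.sum_comm]
    refine Finset.sum_congr rfl fun σ _ => ?_
    rw [← integral_finsetSum _ fun S _ => (hI S σ).const_mul _]
    simp only [← mul_assoc, ← Finset.sum_mul, hG]
  simp only [QQ, mul_add, Finset.sum_add_distrib, mul_left_comm _ α, ← Finset.mul_sum] at h2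
  rw [h3 _ (fun σ k => ‖𝓕 (fun y => ψ σ y) k‖ ^ 2) _ _ (fun S σ => TS_int S (𝓕 (ψ σ))) b1,
    h3 _ _ _ _ (fun S σ => VS_int z R S (ψ σ)) b2] at h2
  refine nonneg_of_mul_nonneg_right (a := θ) ?_ h0
  rw [QQ]
  refine h2.trans_eq ?_
  ring

end

end Pool.Agent.H41.Rel
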