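import Pool.Agent.H41.Rel2

namespace Pool.Agent.H41.Rel

open MeasureTheory FourierTransform SchwartzMap WithLp Filter Function

theorem exists_bump : ∃ b : 𝓢(EE 1, ℂ), b 0 ≠ 0 ∧ ∀ x, 1 ≤ ‖x‖ → b x = 0 := by
  let f : ContDiffBump (0 : EE 1) := ⟨1 / 2, 1, by norm_num, by norm_num⟩
  refine ⟨HasCompactSupport.toSchwartzMap (f := fun x => (f x : ℂ))
    (f.hasCompactSupport.comp_left (g := fun r : ℝ => (r : ℂ)) rfl)
    (Complex.ofRealCLM.contDiff.comp f.contDiff), ?_, fun x hx => ?_⟩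
  · show (f 0 : ℂ) ≠ 0
    rw [f.one_of_mem_closedBall (Metric.mem_closedBall_self f.rIn_pos.le)]; simp
  · show (f x : ℂ) = 0
    rw [f.zero_of_le_dist (by simpa using hx)]; simp

theorem unstable {q : ℕ} (hq : 0 < q) {c : ℝ} (hc : 0 < c) :
    ∃ B : ℝ, ∀ α, B < α → 0 < α → ¬Stab q α (c / α) := by
  obtain ⟨b, hb0, hb⟩ := exists_bump
  have hI : Integrable fun x => ‖b x‖ ^ 2 := by simpa using sq_int b 0
  have hbc := b.continuous
  obtain ⟨M, hM⟩ : ∃ M, M = ∫ x, ‖b x‖ ^ 2 := ⟨_, rfl⟩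
  have hM0 : 0 < M := hM ▸ integral_pos_of_integrable_nonneg_nonzero (x := 0) (by fun_prop) hI
    (fun x => by positivity) (by simpa using hb0)
  obtain ⟨T, hT⟩ : ∃ T, T = ∫ k, (∑ i, mm k i) * ‖𝓕 (fun y => b y) k‖ ^ 2 := ⟨_, rfl⟩
  obtain ⟨K, hK⟩ := exists_nat_gt (7 * (T + 1) / (c * M))
  rw [div_lt_iff₀ (by positivity)] at hK
  let R : Fin K → Fin 3 → ℝ := fun l _ => 2 + 1 / ((l : ℕ) + 1)
  have hR : Injective R := fun l m h => by
    have h1 := congrFun h 0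
    simp only [R, add_right_inj, one_div, inv_inj, add_left_inj, Nat.cast_inj] at h1
    exact Fin.ext h1
  refine ⟨c ^ 2 * rr R * M, fun α h1 h0 h => ?_⟩
  have h2 := h 1 K R hR (fun _ => b) fun π σ x => by
    rw [Subsingleton.elim π 1]; simp
  have h3 : ∀ l, M / 7 ≤ ∫ x, nn x 0 (R l) * ‖b x‖ ^ 2 := fun l => by
    rw [hM, ← integral_div]
    refine integral_mono (hI.div_const 7) (nn_int b 0 _) fun x => ?_
    by_cases hx : 1 ≤ ‖x‖
    · simp [hb x hx]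
    have e1 : ∀ j, 1 ≤ (ofLp x (0, j) - R l j) ^ 2 ∧ (ofLp x (0, j) - R l j) ^ 2 ≤ 16 := fun j => by
      have e2 := abs_le.mp ((PiLp.norm_apply_le x (0, j)).trans (not_le.mp hx).le)
      have e3 : 0 ≤ 1 / (((l : ℕ) : ℝ) + 1) := by positivity
      have e4 : 1 / (((l : ℕ) : ℝ) + 1) ≤ 1 :=
        (div_le_one (by positivity)).mpr (le_add_of_nonneg_left (Nat.cast_nonneg _))
      simp only [R]
      constructor <;> nlinarith [e2.1, e2.2]
    simp only [nn]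
    rw [div_eq_mul_inv, mul_comm, ← one_div]
    refine mul_le_mul_of_nonneg_right (one_div_le_one_div_of_le (Real.sqrt_pos.mpr ?_)
      (Real.sqrt_le_iff.mpr ⟨by norm_num, ?_⟩)) (by positivity) <;> rw [Fin.sum_univ_three] <;>
      linarith [e1 0, e1 1, e1 2]
  have h4 : ∫ x, VV (c / α) R x * ‖b x‖ ^ 2 =
      (c / α) ^ 2 * rr R * M - c / α * ∑ l, ∫ x, nn x 0 (R l) * ‖b x‖ ^ 2 := by
    rw [hM, ← integral_const_mul, ← integral_finsetSum _ fun l _ => nn_int b 0 _,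
      ← integral_const_mul, ← integral_sub (hI.const_mul _)
        ((integrable_finsetSum _ fun l _ => nn_int b 0 _).const_mul _)]
    refine integral_congr_ae (Eventually.of_forall fun x => ?_)
    simp only [VV, Fin.sum_univ_one, lt_irrefl, if_false, ← Finset.sum_mul]
    ring
  have h5 := Finset.card_nsmul_le_sum Finset.univ _ _ fun l _ => h3 l
  simp only [QQ, Finset.sum_const, ← hT, h4, Finset.card_univ, Fintype.card_fin, nsmul_eq_mul,
    Fintype.card_fun, pow_one] at h2 h5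
  have h6 : c ^ 2 * rr R * M / α < 1 := (div_lt_one h0).mpr h1
  have h7 : (0 : ℝ) < q := by exact_mod_cast hq
  have h8 : 0 ≤ T + c ^ 2 * rr R * M / α - c * ∑ l, ∫ x, nn x 0 (R l) * ‖b x‖ ^ 2 := by
    refine nonneg_of_mul_nonneg_right (a := (q : ℝ)) (h2.trans_eq ?_) h7
    field_simp
    ring
  nlinarith [mul_le_mul_of_nonneg_left h5 hc.le]

theorem sharp {q : ℕ} (hq : 0 < q) {c : ℝ} (hc : 0 < c) :
    ∃ a : ℝ, ∀ α, 0 < α → α ≠ a → (Stab q α (c / α) ↔ α < a) := by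
  obtain ⟨B, hB⟩ := unstable hq hc
  have hb : BddAbove (insert 0 {α | 0 < α ∧ Stab q α (c / α)}) := by
    refine BddAbove.insert _ ⟨B, fun α h => not_lt.mp fun h' => hB α h' h.1 h.2⟩
  refine ⟨sSup (insert 0 {α | 0 < α ∧ Stab q α (c / α)}), fun α h0 h1 => ⟨fun h =>
    (le_csSup hb (Or.inr ⟨h0, h⟩)).lt_of_ne h1, fun h => ?_⟩⟩
  obtain ⟨γ, rfl | ⟨h2, h3⟩, h4⟩ := exists_lt_of_lt_csSup (Set.insert_nonempty _ _) h
  · exact absurd h4 h0.not_gt
  · have := down hq (div_pos h0 h2) ((div_le_one h2).mpr h4.le) h3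
    convert this using 1 <;> field_simp

end Pool.Agent.H41.Rel
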