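import Pool.Agent.H41.RestartDefs

set_option autoImplicit false

namespace Pool.Agent.H41.Restart

open scoped ENNReal
open Finset Filter Topology

variable {m : ℕ} {J : Type}

theorem DoneBy.mono {S : Sched m J} {p : J → ℝ} {j : J} {t t' : ℝ} (h : DoneBy S p j t)
    (ht : t ≤ t') : DoneBy S p j t' := by
  obtain ⟨i, s, h1, h2⟩ := h
  exact ⟨i, s, h1.trans ht, h2⟩

theorem not_done_nhds {S : Sched m J} {p : J → ℝ} {j : J} (hp : 0 < p j) {t : ℝ}
    (h : ¬ DoneBy S p j t) : ∀ᶠ τ in 𝓝 t, ¬ DoneBy S p j τ := by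
  have h1 : ∀ i, ∀ᶠ τ in 𝓝 t, ∀ s, S i (t - p j / 2) = some (j, s) → t < s + p j → τ < s + p j := by
    intro i
    cases hS : S i (t - p j / 2) with
    | none => simp
    | some a =>
      by_cases h2 : t < a.2 + p j
      · filter_upwards [Iio_mem_nhds h2] with τ hτ s hs _
        have : a.2 = s := by simpa using congrArg (Option.map Prod.snd) hs
        rw [← this]; exact hτ
      · refine Eventually.of_forall fun τ s hs h3 => ?_
        have : a.2 = s := by simpa using congrArg (Option.map Prod.snd) hs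
        exact absurd (this ▸ h3) h2
  filter_upwards [eventually_all.mpr h1, Iio_mem_nhds (show t < t + p j / 2 by linarith)]
    with τ h2 h3
  rintro ⟨i, s, h4, h5⟩
  have h6 : t < s + p j := by
    by_contra h7
    exact h ⟨i, s, not_lt.mp h7, h5⟩
  have h3' : τ < t + p j / 2 := h3
  have := h2 i s (h5 _ ⟨by linarith, by linarith⟩) h6
  linarith

theorem agree [Fintype J] {M : J → Finset (Fin m)} {A : (J → ℝ) → Sched m J} (hA : Online M A)
    {p p' : J → ℝ} (hp : ∀ j, 0 < p j) (hp' : ∀ j, 0 < p' j) (T : ℝ)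
    (h : ∀ j, p j = p' j ∨ (p j ≤ p' j ∧ ¬ DoneBy (A p) p j T)) :
    ∀ t ≤ T, ∀ i, A p i t = A p' i t := by
  by_contra hcon
  push Not at hcon
  set B : Set ℝ := {t | t ≤ T ∧ ∃ i, A p i t ≠ A p' i t} with hB
  have hne : B.Nonempty := by obtain ⟨t, h1, h2⟩ := hcon; exact ⟨t, h1, h2⟩
  have hneg : ∀ q : J → ℝ, (∀ j, 0 < q j) → ∀ i t, t < 0 → A q i t = none := by
    intro q hq i t ht
    cases hS : A q i t with
    | none => rfl
    | some a =>
      have := (hA.1 q hq).1 i t a.1 a.2 hS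
      linarith [this.2.1, this.2.2.1]
  have hbdd : BddBelow B := ⟨0, fun t ⟨_, i, hi⟩ => by
    by_contra h0
    exact hi (by rw [hneg p hp i t (not_le.mp h0), hneg p' hp' i t (not_le.mp h0)])⟩
  set t0 := sInf B with ht0
  have ht0T : t0 ≤ T := by obtain ⟨t, ht⟩ := hne; exact (csInf_le hbdd ht).trans ht.1
  have hbefore : ∀ t < t0, ∀ i, A p i t = A p' i t := by
    intro t ht i
    by_contra h1
    exact absurd (csInf_le hbdd ⟨by linarith, i, h1⟩) (not_le.mpr ht)
  have hdone : ∀ j, ∀ τ ≤ t0, DoneBy (A p) p j τ ↔ DoneBy (A p') p' j τ := by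
    intro j τ hτ
    have back : DoneBy (A p') p' j τ → p j ≤ p' j → DoneBy (A p) p j τ := by
      rintro ⟨i, s, h1, h2⟩ hle
      refine ⟨i, s, by linarith, fun t' ht' => ?_⟩
      rw [hbefore t' (by linarith [ht'.2]) i]
      exact h2 t' ⟨ht'.1, by linarith [ht'.2]⟩
    rcases h j with h1 | ⟨h1, h2⟩
    · refine ⟨?_, fun g => back g h1.le⟩
      rintro ⟨i, s, g1, g2⟩
      refine ⟨i, s, h1 ▸ g1, fun t' ht' => ?_⟩
      rw [← h1] at ht'
      rw [← hbefore t' (by linarith [ht'.2]) i]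
      exact g2 t' ht'
    · exact ⟨fun g => absurd (g.mono (hτ.trans ht0T)) h2,
        fun g => absurd ((back g h1).mono (hτ.trans ht0T)) h2⟩
  have hev : ∀ j, ∀ᶠ τ in 𝓝 t0, t0 ≤ τ → (DoneBy (A p) p j τ ↔ DoneBy (A p') p' j τ) := by
    intro j
    by_cases h1 : DoneBy (A p) p j t0
    · exact Eventually.of_forall fun τ hτ =>
        ⟨fun _ => ((hdone j t0 le_rfl).1 h1).mono hτ, fun _ => h1.mono hτ⟩
    · filter_upwards [not_done_nhds (hp j) h1,
        not_done_nhds (hp' j) (fun g => h1 ((hdone j t0 le_rfl).2 g))] with τ g1 g2 _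
      exact ⟨fun g => absurd g g1, fun g => absurd g g2⟩
  obtain ⟨ε, hε, h1⟩ := Metric.eventually_nhds_iff.mp (eventually_all.mpr hev)
  have h2 : t0 + ε ≤ t0 := by
    refine le_csInf hne fun t ⟨_, i, hi⟩ => ?_
    by_contra h3
    refine hi (hA.2 p p' hp hp' t (fun j τ hτ => ?_) i)
    rcases le_total τ t0 with h4 | h4
    · exact hdone j τ h4
    · refine h1 ?_ j h4
      rw [Real.dist_eq, abs_of_nonneg (by linarith)]
      linarith [not_le.mp h3]
  linarith

theorem runs_le {V : Type} (S : Sched m J) (i : Fin m) (F : Finset V) (job : V → J)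
    (hjob : Function.Injective job) (P : V → ℝ) (hP : ∀ v, 0 ≤ P v) (T c : ℝ) (hc : 0 ≤ c)
    (h : ∀ v ∈ F, ∃ s, T ≤ s ∧ s + P v ≤ T + c ∧
      ∀ t ∈ Set.Ico s (s + P v), S i t = some (job v, s)) : ∑ v ∈ F, P v ≤ c := by
  choose! s h1 h2 h3 using h
  have hd : (F : Set V).PairwiseDisjoint fun v => Set.Ico (s v) (s v + P v) := by
    intro u hu v hv huv
    refine Set.disjoint_left.mpr fun t g1 g2 => huv (hjob ?_)
    have := (h3 u hu t g1).symm.trans (h3 v hv t g2)
    simpa using congrArg (Option.map Prod.fst) this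
  have h4 := MeasureTheory.measure_biUnion_finset (μ := MeasureTheory.volume) hd
    fun v _ => measurableSet_Ico
  have h5 : MeasureTheory.volume (⋃ v ∈ F, Set.Ico (s v) (s v + P v)) ≤
      MeasureTheory.volume (Set.Ico T (T + c)) :=
    MeasureTheory.measure_mono (Set.iUnion₂_subset fun v hv => Set.Ico_subset_Ico (h1 v hv) (h2 v hv))
  rw [h4] at h5
  simp only [Real.volume_Ico, add_sub_cancel_left] at h5
  rw [← ENNReal.ofReal_sum_of_nonneg fun v _ => hP v] at h5
  exact (ENNReal.ofReal_le_ofReal_iff hc).mp h5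

section Sampling

variable {V : Type} [Fintype V] [DecidableEq V]

def wt (q : V → ℝ) (ω : V → Bool) : ℝ := ∏ v, if ω v then q v else 1 - q v

def ind (b : Bool) : ℝ := if b then 1 else 0

theorem ex_prod (q : V → ℝ) (S : Finset V) :
    ∑ ω : V → Bool, wt q ω * ∏ v ∈ S, ind (ω v) = ∏ v ∈ S, q v := by
  have h1 := Finset.prod_univ_sum (fun _ : V => (univ : Finset Bool))
    (fun v b => (if b then q v else 1 - q v) * if v ∈ S then ind b else 1)
  rw [Fintype.piFinset_univ] at h1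
  have h2 : ∀ ω : V → Bool, wt q ω * ∏ v ∈ S, ind (ω v) =
      ∏ v, (if ω v then q v else 1 - q v) * if v ∈ S then ind (ω v) else 1 := by
    intro ω
    rw [prod_mul_distrib, prod_ite_mem, univ_inter]; rfl
  simp only [h2]
  rw [← h1]
  have h3 : ∀ v, ∑ b : Bool, (if b then q v else 1 - q v) * (if v ∈ S then ind b else 1) =
      if v ∈ S then q v else 1 := by
    intro v
    by_cases h : v ∈ S <;> simp [h, ind]
  simp only [h3]
  rw [prod_ite_mem, univ_inter]

theorem ex0 (q : V → ℝ) : ∑ ω : V → Bool, wt q ω = 1 := by simpa using ex_prod q ∅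

theorem ex1 (q : V → ℝ) (u : V) : ∑ ω : V → Bool, wt q ω * ind (ω u) = q u := by
  simpa using ex_prod q {u}

theorem ex2 (q : V → ℝ) {u v : V} (h : u ≠ v) :
    ∑ ω : V → Bool, wt q ω * (ind (ω u) * ind (ω v)) = q u * q v := by
  simpa [prod_insert, h] using ex_prod q {u, v}

theorem ex3 (q : V → ℝ) {u v w : V} (h1 : u ≠ v) (h2 : u ≠ w) (h3 : v ≠ w) :
    ∑ ω : V → Bool, wt q ω * (ind (ω u) * (ind (ω v) * ind (ω w))) = q u * (q v * q w) := by
  simpa [prod_insert, h1, h2, h3] using ex_prod q {u, v, w}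

theorem exists_pos_of_ex (q : V → ℝ) (hq : ∀ v, 0 ≤ q v ∧ q v ≤ 1) (Φ : (V → Bool) → ℝ)
    (h : 0 < ∑ ω, wt q ω * Φ ω) : ∃ ω, 0 < Φ ω := by
  by_contra h1
  push Not at h1
  refine absurd h (not_lt.mpr (sum_nonpos fun ω _ => mul_nonpos_of_nonneg_of_nonpos ?_ (h1 ω)))
  exact prod_nonneg fun v _ => by split_ifs <;> linarith [hq v]

theorem ind_nonneg (b : Bool) : 0 ≤ ind b := by cases b <;> simp [ind]

/-- sampling with a given probability vector; y is the rescaled live weight -/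
theorem sample (Z : Finset V) (q : V → ℝ) (hq : ∀ v, 0 ≤ q v ∧ q v ≤ 1 / 16) (y d : V → V → ℝ)
    (hy0 : ∀ u v, 0 ≤ y u v) (hd0 : ∀ u v, 0 ≤ d u v) (hsym : ∀ u v, y u v = y v u)
    (hyZ : ∀ u v, u ∉ Z → y u v = 0)
    (hyd : ∀ u, y u u = 0) (hdd : ∀ u, d u u = 0) (hdis : ∀ u v, y u v = 0 ∨ d u v = 0)
    (hy1 : ∀ u v, y u v ≤ 1 / 2) (hrow : ∀ u, ∑ w, y u w * q w ≤ 1 / 16)
    (hdrow : ∀ u ∈ Z, ∑ w, d u w ≤ 2)
    (hbig : 1 / 128 * ∑ u ∈ Z, q u < 1 / 2 * ∑ u, ∑ v, y u v * (q u * q v)) :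
    ∃ Z' ⊆ Z, (∀ u ∈ Z', ∑ v ∈ Z', y u v ≤ 1 ∧ ∑ v ∈ Z', d u v ≤ 1) ∧
      1 / 128 * (Z'.card : ℝ) < ∑ u ∈ Z', ∑ v ∈ Z', y u v := by
  set z : V → V → V → ℝ := fun u v w => (if w = v then 0 else 2 * y u w) + d u w with hz
  have hz0 : ∀ u v w, 0 ≤ z u v w := fun u v w => by
    simp only [hz]; have := hy0 u w; have := hd0 u w; split_ifs <;> linarith
  obtain ⟨ω, hω⟩ := exists_pos_of_ex q (fun v => ⟨(hq v).1, by linarith [(hq v).2]⟩)
    (fun ω => ∑ u, ∑ v, y u v * (ind (ω u) * ind (ω v)) -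
      2 * ∑ u, ∑ v, ∑ w, y u v * z u v w * (ind (ω u) * (ind (ω v) * ind (ω w))) -
      1 / 128 * ∑ u ∈ Z, ind (ω u)) (by
    have e1 : ∑ ω : V → Bool, wt q ω * ∑ u, ∑ v, y u v * (ind (ω u) * ind (ω v)) =
        ∑ u, ∑ v, y u v * (q u * q v) := by
      simp only [mul_sum]
      rw [sum_comm]
      refine sum_congr rfl fun u _ => ?_
      rw [sum_comm]
      refine sum_congr rfl fun v _ => ?_
      by_cases h : u = v
      · subst h; simp [hyd]
      · rw [← ex2 q h, mul_sum]; exact sum_congr rfl fun ω _ => by ring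
    have e2 : ∑ ω : V → Bool, wt q ω *
        ∑ u, ∑ v, ∑ w, y u v * z u v w * (ind (ω u) * (ind (ω v) * ind (ω w))) =
        ∑ u, ∑ v, ∑ w, y u v * z u v w * (q u * (q v * q w)) := by
      simp only [mul_sum]
      rw [sum_comm]
      refine sum_congr rfl fun u _ => ?_
      rw [sum_comm]
      refine sum_congr rfl fun v _ => ?_
      rw [sum_comm]
      refine sum_congr rfl fun w _ => ?_
      by_cases h : u = v
      · subst h; simp [hyd]
      by_cases h2 : u = w
      · subst h2; simp [hz, hyd, hdd]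
      by_cases h3 : v = w
      · subst h3; rcases hdis u v with h4 | h4 <;> simp [hz, h4]
      rw [← ex3 q h h2 h3, mul_sum]; exact sum_congr rfl fun ω _ => by ring
    have e3 : ∑ ω : V → Bool, wt q ω * ∑ u ∈ Z, ind (ω u) = ∑ u ∈ Z, q u := by
      simp only [mul_sum]
      rw [sum_comm]
      exact sum_congr rfl fun u _ => ex1 q u
    have e4 : ∑ u, ∑ v, ∑ w, y u v * z u v w * (q u * (q v * q w)) ≤
        1 / 4 * ∑ u, ∑ v, y u v * (q u * q v) := by
      rw [mul_sum]
      refine sum_le_sum fun u _ => ?_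
      rw [mul_sum]
      refine sum_le_sum fun v _ => ?_
      by_cases hu : u ∈ Z
      · have g1 : ∑ w, z u v w * q w ≤ 1 / 4 := by
          calc _ ≤ ∑ w, (2 * (y u w * q w) + 1 / 16 * d u w) := by
                refine sum_le_sum fun w _ => ?_
                simp only [hz]
                have := mul_nonneg (hy0 u w) (hq w).1
                have := mul_le_mul_of_nonneg_left (hq w).2 (hd0 u w)
                split_ifs <;> nlinarith
            _ = 2 * ∑ w, y u w * q w + 1 / 16 * ∑ w, d u w := by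
                rw [sum_add_distrib, mul_sum, mul_sum]
            _ ≤ _ := by linarith [hrow u, hdrow u hu]
        have g2 : 0 ≤ y u v * (q u * q v) := mul_nonneg (hy0 u v) (mul_nonneg (hq u).1 (hq v).1)
        calc _ = y u v * (q u * q v) * ∑ w, z u v w * q w := by
              rw [mul_sum]; exact sum_congr rfl fun w _ => by ring
          _ ≤ _ := by nlinarith
      · simp [hyZ u v hu]
    have e5 : ∀ (a b c : (V → Bool) → ℝ), ∑ ω, wt q ω * (a ω - 2 * b ω - 1 / 128 * c ω) =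
        ∑ ω, wt q ω * a ω - 2 * ∑ ω, wt q ω * b ω - 1 / 128 * ∑ ω, wt q ω * c ω := by
      intro a b c
      rw [mul_sum, mul_sum, ← sum_sub_distrib, ← sum_sub_distrib]
      exact sum_congr rfl fun ω _ => by ring
    rw [e5, e1, e2, e3]
    linarith)
  set Z' := Z.filter fun u => ω u = true ∧ ∑ v, y u v * ind (ω v) ≤ 1 ∧ ∑ v, d u v * ind (ω v) ≤ 1
    with hZ'
  have hind : ∀ v ∈ Z', ind (ω v) = 1 := fun v hv => by simp [ind, (mem_filter.mp hv).2.1]
  have hsub : ∀ (g : V → ℝ), (∀ v, 0 ≤ g v) → ∑ v ∈ Z', g v ≤ ∑ v, g v * ind (ω v) := by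
    intro g hg
    calc _ = ∑ v ∈ Z', g v * ind (ω v) := sum_congr rfl fun v hv => by rw [hind v hv, mul_one]
      _ ≤ _ := sum_le_sum_of_subset_of_nonneg (subset_univ _) fun v _ _ =>
          mul_nonneg (hg v) (ind_nonneg _)
  refine ⟨Z', filter_subset _ _, fun u hu => ⟨(hsub _ (hy0 u)).trans (mem_filter.mp hu).2.2.1,
    (hsub _ (hd0 u)).trans (mem_filter.mp hu).2.2.2⟩, ?_⟩
  have f1 : (Z'.card : ℝ) ≤ ∑ u ∈ Z, ind (ω u) := by
    calc (Z'.card : ℝ) = ∑ u ∈ Z', ind (ω u) := by rw [sum_congr rfl hind]; simp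
      _ ≤ _ := sum_le_sum_of_subset_of_nonneg (filter_subset _ _) fun v _ _ => ind_nonneg _
  set b : V → V → ℝ := fun u v => ∑ w, z u v w * ind (ω w) with hb
  have hb0 : ∀ u v, 0 ≤ b u v := fun u v => sum_nonneg fun w _ => mul_nonneg (hz0 u v w) (ind_nonneg _)
  have hb1 : ∀ u v, u ∈ Z → ω u = true → u ∉ Z' → 1 ≤ b u v := by
    intro u v h1 h2 h3
    have e : b u v = 2 * (∑ w, y u w * ind (ω w) - y u v * ind (ω v)) + ∑ w, d u w * ind (ω w) := by
      simp only [hb, hz, add_mul, sum_add_distrib]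
      congr 1
      rw [← Finset.add_sum_erase _ _ (mem_univ v), ← Finset.add_sum_erase univ
        (fun w => y u w * ind (ω w)) (mem_univ v), if_pos rfl, add_sub_cancel_left, mul_sum,
        zero_mul, zero_add]
      exact sum_congr rfl fun w hw => by rw [if_neg (mem_erase.mp hw).1]; ring
    have g1 : y u v * ind (ω v) ≤ 1 / 2 := by
      have := hy1 u v
      cases ω v <;> simp [ind] <;> linarith
    have g2 : y u v * ind (ω v) ≤ ∑ w, y u w * ind (ω w) :=
      single_le_sum (f := fun w => y u w * ind (ω w))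
        (fun w _ => mul_nonneg (hy0 u w) (ind_nonneg _)) (mem_univ v)
    have g3 : 0 ≤ ∑ w, d u w * ind (ω w) := sum_nonneg fun w _ => mul_nonneg (hd0 u w) (ind_nonneg _)
    rw [e]
    by_contra g4
    exact h3 (mem_filter.mpr ⟨h1, h2, by linarith, by linarith⟩)
  have f2 : ∑ u, ∑ v, ∑ w, y u v * z u v w * (ind (ω u) * (ind (ω v) * ind (ω w))) =
      ∑ u, ∑ v, y u v * (ind (ω u) * ind (ω v)) * b u v :=
    sum_congr rfl fun u _ => sum_congr rfl fun v _ => by
      simp only [hb]; rw [mul_sum]; exact sum_congr rfl fun w _ => by ring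
  have f3 : ∑ u, ∑ v, y u v * (ind (ω u) * ind (ω v)) * b v u =
      ∑ u, ∑ v, y u v * (ind (ω u) * ind (ω v)) * b u v := by
    rw [sum_comm]
    exact sum_congr rfl fun u _ => sum_congr rfl fun v _ => by rw [hsym v u]; ring
  have f4 : ∑ u ∈ Z', ∑ v ∈ Z', y u v =
      ∑ u, ∑ v, if u ∈ Z' ∧ v ∈ Z' then y u v else 0 := by
    rw [← sum_subset (subset_univ Z') (fun u _ hu => by simp [hu])]
    refine sum_congr rfl fun u hu => ?_
    rw [← sum_subset (subset_univ Z') (fun v _ hv => by simp [hv])]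
    exact sum_congr rfl fun v hv => by simp [hu, hv]
  have f5 : ∑ u, ∑ v, y u v * (ind (ω u) * ind (ω v)) ≤
      ∑ u, ∑ v, (if u ∈ Z' ∧ v ∈ Z' then y u v else 0) +
      ∑ u, ∑ v, y u v * (ind (ω u) * ind (ω v)) * b u v +
      ∑ u, ∑ v, y u v * (ind (ω u) * ind (ω v)) * b v u := by
    simp only [← sum_add_distrib]
    refine sum_le_sum fun u _ => sum_le_sum fun v _ => ?_
    have g0 := hy0 u v
    have g1 := hb0 u v
    have g2 := hb0 v u
    by_cases hu : u ∈ Z
    swap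
    · simp [hyZ u v hu]
    by_cases hv : v ∈ Z
    swap
    · have : y u v = 0 := by rw [hsym, hyZ v u hv]
      simp [this]
    have g3 : 0 ≤ if u ∈ Z' ∧ v ∈ Z' then y u v else 0 := by split_ifs; exacts [g0, le_rfl]
    cases h1 : ω u
    · simpa [ind] using g3
    cases h2 : ω v
    · simpa [ind] using g3
    simp only [ind, if_true, mul_one]
    by_cases h3 : u ∈ Z'
    · by_cases h4 : v ∈ Z'
      · rw [if_pos ⟨h3, h4⟩]; nlinarith
      · rw [if_neg (fun h => h4 h.2)]; have := hb1 v u hv h2 h4; nlinarith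
    · rw [if_neg (fun h => h3 h.1)]; have := hb1 u v hu h1 h3; nlinarith
  rw [f2] at hω
  rw [f4]
  linarith

end Sampling

end Pool.Agent.H41.Restart
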