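import Pool.Agent.H41.RestartA

set_option autoImplicit false

namespace Pool.Agent.H41.Restart

open scoped ENNReal
open Finset Filter Topology

variable {m : ℕ}

open Classical in
noncomputable def cnd (P : Prop) (a : ℝ) : ℝ := if P then a else 0

theorem cnd_pos {P : Prop} (h : P) (a : ℝ) : cnd P a = a := if_pos h
theorem cnd_neg {P : Prop} (h : ¬ P) (a : ℝ) : cnd P a = 0 := if_neg h
theorem cnd_nonneg (P : Prop) {a : ℝ} (h : 0 ≤ a) : 0 ≤ cnd P a := by
  unfold cnd; split_ifs; exacts [h, le_rfl]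
theorem cnd_le (P : Prop) {a : ℝ} (h : 0 ≤ a) : cnd P a ≤ a := by
  unfold cnd; split_ifs; exacts [le_rfl, h]

noncomputable def elig (e : Sym2 (Fin m)) : Finset (Fin m) := univ.filter (· ∈ e)

structure St (A : (Sym2 (Fin m) → ℝ) → Sched m (Sym2 (Fin m))) (T δ : ℝ) (p : Sym2 (Fin m) → ℝ)
    (live : Sym2 (Fin m) → Prop) (Z : Finset (Fin m)) (Out : Fin m → Finset (Fin m)) : Prop where
  pos : ∀ e, 0 < p e
  liveZ : ∀ u v, live s(u, v) → u ∈ Z ∧ u ≠ v
  fresh : ∀ e, live e → ¬ DoneBy (A p) p e T ∧ ∀ i s, s < T → A p i T ≠ some (e, s)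
  row : ∀ u ∈ Z, ∑ v ∈ Z, cnd (live s(u, v)) (p s(u, v)) ≤ 1
  dead : ∀ u ∈ Z, ∑ v ∈ Z, cnd (¬ (live s(u, v) ∨ u = v)) (p s(u, v)) ≤ 1
  diag : ∀ u, p s(u, u) ≤ 1
  small : ∀ e, live e → p e ≤ δ
  big : 1 / 128 * (Z.card : ℝ) < ∑ u ∈ Z, ∑ v ∈ Z, cnd (live s(u, v)) (p s(u, v))
  cover : ∀ u v, v ∈ Out u ∨ u ∈ Out v
  outZ : ∀ u ∈ Z, Out u = Z
  outload : ∀ u ∉ Z, ∑ v ∈ Out u, p s(u, v) ≤ 3

variable {A : (Sym2 (Fin m) → ℝ) → Sched m (Sym2 (Fin m))} {T δ : ℝ} {p : Sym2 (Fin m) → ℝ}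
  {live : Sym2 (Fin m) → Prop} {Z : Finset (Fin m)} {Out : Fin m → Finset (Fin m)}

theorem St.load (h : St A T δ p live Z Out) (u : Fin m) : ∑ v ∈ Out u, p s(u, v) ≤ 3 := by
  by_cases hu : u ∈ Z
  · rw [h.outZ u hu]
    have h1 := h.row u hu
    have h2 := h.dead u hu
    have h3 : ∑ v ∈ Z, (if u = v then p s(u, v) else 0) ≤ 1 := by
      rw [sum_ite_eq, if_pos hu]; exact h.diag u
    refine le_trans ?_ (show _ ≤ (3 : ℝ) by linarith : ∑ v ∈ Z, cnd (live s(u, v)) (p s(u, v)) +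
      ∑ v ∈ Z, cnd (¬ (live s(u, v) ∨ u = v)) (p s(u, v)) +
      ∑ v ∈ Z, (if u = v then p s(u, v) else 0) ≤ 3)
    rw [← sum_add_distrib, ← sum_add_distrib]
    refine sum_le_sum fun v _ => ?_
    have := h.pos s(u, v)
    have a1 := cnd_nonneg (live s(u, v)) this.le
    have a2 := cnd_nonneg (¬ (live s(u, v) ∨ u = v)) this.le
    by_cases g2 : u = v
    · rw [if_pos g2]; linarith
    rw [if_neg g2]
    by_cases g1 : live s(u, v)
    · rw [cnd_pos g1]; linarith
    · rw [cnd_pos (show ¬ (live s(u, v) ∨ u = v) from fun g => g.elim g1 g2)]; linarith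
  · exact h.outload u hu

theorem job_inj (u : Fin m) : Function.Injective fun v : Fin m => s(u, v) :=
  fun _ _ h => Sym2.congr_right.mp h

theorem St.kill (hA : Online elig A) (h : St A T δ p live Z Out) (hδ : 0 ≤ δ) (c : ℝ) (hc : 0 ≤ c) :
    ∑ u ∈ Z, ∑ v ∈ Z, cnd (live s(u, v)) (p s(u, v)) ≤
      ∑ u ∈ Z, ∑ v ∈ Z, cnd (live s(u, v) ∧ ¬ DoneBy (A p) p s(u, v) (T + c) ∧
        ∀ i s, A p i (T + c) ≠ some (s(u, v), s)) (p s(u, v)) +
      2 * (c + δ) * Z.card := by
  classical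
  set W1 : Fin m → Fin m → Prop := fun u v => ∃ s, T ≤ s ∧ s + p s(u, v) ≤ T + c ∧
    ∀ t ∈ Set.Ico s (s + p s(u, v)), A p u t = some (s(u, v), s) with hW1
  set W2 : Fin m → Fin m → Prop := fun u v => live s(u, v) ∧ ∃ s, A p u (T + c) = some (s(u, v), s)
    with hW2
  set k : Fin m → Fin m → ℝ := fun u v =>
    (if W1 u v then p s(u, v) else 0) + (if W2 u v then p s(u, v) else 0) with hk
  have hk0 : ∀ u v, 0 ≤ k u v := fun u v => by
    have := h.pos s(u, v)
    simp only [hk]; split_ifs <;> linarith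
  have hk1 : ∀ u v, W1 u v ∨ W2 u v → p s(u, v) ≤ k u v := fun u v g => by
    have := h.pos s(u, v)
    simp only [hk]
    rcases g with g | g <;> rw [if_pos g] <;> split_ifs <;> linarith
  have hrow : ∀ u, ∑ v ∈ Z, k u v ≤ c + δ := by
    intro u
    simp only [hk]
    rw [sum_add_distrib, ← sum_filter, ← sum_filter]
    refine add_le_add (runs_le (A p) u _ _ (job_inj u) _ (fun v => (h.pos _).le) T c hc
      fun v hv => (mem_filter.mp hv).2) ?_
    rcases (Z.filter fun v => W2 u v).eq_empty_or_nonempty with g | ⟨v, hv⟩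
    · rw [g]; simpa using hδ
    · have : Z.filter (fun v => W2 u v) = {v} := by
        refine eq_singleton_iff_unique_mem.mpr ⟨hv, fun v' hv' => ?_⟩
        obtain ⟨s, hs⟩ := (mem_filter.mp hv).2.2
        obtain ⟨s', hs'⟩ := (mem_filter.mp hv').2.2
        have := hs'.symm.trans hs
        exact job_inj u (by simpa using congrArg (Option.map Prod.fst) this)
      rw [this, sum_singleton]
      exact h.small _ (mem_filter.mp hv).2.1
  have hval := (hA.1 p h.pos).1
  have hpt : ∀ u v, cnd (live s(u, v)) (p s(u, v)) ≤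
      cnd (live s(u, v) ∧ ¬ DoneBy (A p) p s(u, v) (T + c) ∧
        ∀ i s, A p i (T + c) ≠ some (s(u, v), s)) (p s(u, v)) + (k u v + k v u) := by
    intro u v
    have g0 := h.pos s(u, v)
    have g1 := hk0 u v
    have g2 := hk0 v u
    by_cases hl : live s(u, v)
    swap
    · rw [cnd_neg hl, cnd_neg (fun g => hl g.1)]; linarith
    rw [cnd_pos hl]
    by_cases g3 : live s(u, v) ∧ ¬ DoneBy (A p) p s(u, v) (T + c) ∧
        ∀ i s, A p i (T + c) ≠ some (s(u, v), s)
    · rw [cnd_pos g3]; linarith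
    rw [cnd_neg g3]
    have key : ∀ i, i ∈ elig s(u, v) → (∀ a b, s(a, b) = s(u, v) → a = i → W1 a b ∨ W2 a b) →
        p s(u, v) ≤ 0 + (k u v + k v u) := by
      intro i hi g
      simp only [elig, mem_filter, mem_univ, true_and, Sym2.mem_iff] at hi
      rcases hi with rfl | rfl
      · linarith [hk1 i v (g i v rfl rfl)]
      · have := hk1 i u (g i u Sym2.eq_swap rfl)
        rw [Sym2.eq_swap] at this
        linarith
    by_cases g4 : DoneBy (A p) p s(u, v) (T + c)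
    · obtain ⟨i, s, g5, g6⟩ := g4
      refine key i (hval i s _ s (g6 s ⟨le_rfl, by linarith⟩)).1 ?_
      rintro a b hab rfl
      refine Or.inl ⟨s, ?_, hab ▸ g5, hab ▸ g6⟩
      by_contra g7
      by_cases g8 : s + p s(u, v) ≤ T
      · exact (h.fresh _ hl).1 ⟨a, s, g8, g6⟩
      · exact (h.fresh _ hl).2 a s (not_le.mp g7) (g6 T ⟨(not_le.mp g7).le, not_le.mp g8⟩)
    · have : ∃ i s, A p i (T + c) = some (s(u, v), s) := by
        by_contra g5
        push Not at g5
        exact g3 ⟨hl, g4, g5⟩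
      obtain ⟨i, s, g5⟩ := this
      refine key i (hval i _ _ s g5).1 ?_
      rintro a b hab rfl
      exact Or.inr ⟨hab ▸ hl, s, hab ▸ g5⟩
  have hsum : ∑ u ∈ Z, ∑ v ∈ Z, k u v ≤ (c + δ) * Z.card :=
    (sum_le_sum fun u _ => hrow u).trans (by rw [sum_const, nsmul_eq_mul, mul_comm])
  have hswap : ∑ u ∈ Z, ∑ v ∈ Z, k v u = ∑ u ∈ Z, ∑ v ∈ Z, k u v := sum_comm
  refine (sum_le_sum fun u _ => sum_le_sum fun v _ => hpt u v).trans ?_
  simp only [sum_add_distrib]
  linarith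

theorem St.step (hA : Online elig A) (h : St A T δ p live Z Out) (hδ0 : 0 ≤ δ)
    (hδ : δ ≤ 1 / 131072) :
    ∃ p' live' Z' Out', St A (T + 1 / 1024) (65536 * δ) p' live' Z' Out' := by
  have hkill := h.kill hA hδ0 (1 / 1024) (by norm_num)
  classical
  obtain ⟨surv, hsurv⟩ : ∃ surv : Sym2 (Fin m) → Prop, surv = fun e => live e ∧
    ¬ DoneBy (A p) p e (T + 1 / 1024) ∧ ∀ i s, A p i (T + 1 / 1024) ≠ some (e, s) := ⟨_, rfl⟩
  have hs1 : ∀ e, surv e → live e := fun e g => by rw [hsurv] at g; exact g.1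
  have hs2 : ∀ e, surv e → ¬ DoneBy (A p) p e (T + 1 / 1024) := fun e g => by
    rw [hsurv] at g; exact g.2.1
  have hs3 : ∀ e, surv e → ∀ i s, A p i (T + 1 / 1024) ≠ some (e, s) := fun e g => by
    rw [hsurv] at g; exact g.2.2
  obtain ⟨x, hx⟩ : ∃ x : Fin m → Fin m → ℝ, ∀ u v, x u v = cnd (surv s(u, v)) (p s(u, v)) :=
    ⟨_, fun _ _ => rfl⟩
  replace hkill : ∑ u ∈ Z, ∑ v ∈ Z, cnd (live s(u, v)) (p s(u, v)) ≤
      ∑ u ∈ Z, ∑ v ∈ Z, x u v + 2 * (1 / 1024 + δ) * Z.card := by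
    simp only [hx, hsurv]; exact hkill
  clear hsurv
  have hx0 : ∀ u v, 0 ≤ x u v := fun u v => by rw [hx]; exact cnd_nonneg _ (h.pos _).le
  have hxsym : ∀ u v, x u v = x v u := fun u v => by rw [hx, hx, Sym2.eq_swap]
  have hxZ : ∀ u v, u ∉ Z → x u v = 0 := fun u v hu => by
    rw [hx]; exact cnd_neg (fun g => hu (h.liveZ u v (hs1 _ g)).1) _
  have hxδ : ∀ u v, x u v ≤ δ := fun u v => by
    rw [hx]
    by_cases g : surv s(u, v)
    · rw [cnd_pos g]; exact h.small _ (hs1 _ g)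
    · rw [cnd_neg g]; exact hδ0
  obtain ⟨w, hw⟩ : ∃ w : Fin m → ℝ, ∀ u, w u = ∑ v, x u v := ⟨_, fun _ => rfl⟩
  have hwZ : ∀ u, w u = ∑ v ∈ Z, x u v := fun u => (hw u).trans
    (sum_subset (subset_univ Z) fun v _ hv => by rw [hxsym, hxZ v u hv]).symm
  have hw0 : ∀ u, 0 ≤ w u := fun u => by rw [hw]; exact sum_nonneg fun v _ => hx0 u v
  have hw1 : ∀ u, w u ≤ 1 := by
    intro u
    by_cases hu : u ∈ Z
    · rw [hwZ]
      refine le_trans (sum_le_sum fun v _ => ?_) (h.row u hu)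
      rw [hx]
      by_cases g : surv s(u, v)
      · rw [cnd_pos g, cnd_pos (hs1 _ g)]
      · rw [cnd_neg g]; exact cnd_nonneg _ (h.pos _).le
    · simp [hw, hxZ u _ hu]
  have hX : 1 / 256 * (Z.card : ℝ) < ∑ u ∈ Z, w u := by
    have e : ∑ u ∈ Z, w u = ∑ u ∈ Z, ∑ v ∈ Z, x u v := sum_congr rfl fun u _ => hwZ u
    have := h.big
    have g : (0 : ℝ) ≤ Z.card := by positivity
    have g2 : δ * (Z.card : ℝ) ≤ 1 / 131072 * Z.card := mul_le_mul_of_nonneg_right hδ g
    rw [e]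
    linarith
  have hX2 : ∑ u, w u = ∑ u ∈ Z, w u :=
    (sum_subset (subset_univ Z) fun u _ hu => by simp [hw, hxZ u _ hu]).symm
  obtain ⟨q, hq⟩ : ∃ q : Fin m → ℝ, ∀ u, q u = max (w u) (1 / 256) / 16 := ⟨_, fun _ => rfl⟩
  have hq1 : ∀ u, 1 / 4096 ≤ q u := fun u => by
    simp only [hq]; linarith [le_max_right (w u) (1 / 256)]
  have hq2 : ∀ u, q u ≤ 1 / 16 := fun u => by
    simp only [hq]; linarith [max_le (hw1 u) (show (1 / 256 : ℝ) ≤ 1 by norm_num)]
  have hq0 : ∀ u, 0 < q u := fun u => by linarith [hq1 u]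
  have hqq1 : ∀ u v, 1 / 65536 ≤ 256 * (q u * q v) := fun u v => by
    nlinarith [hq1 u, hq1 v]
  have hqq2 : ∀ u v, 256 * (q u * q v) ≤ 1 := fun u v => by
    nlinarith [hq2 u, hq2 v, hq0 u, hq0 v]
  obtain ⟨y, hy⟩ : ∃ y : Fin m → Fin m → ℝ, ∀ u v, y u v = x u v / (256 * (q u * q v)) :=
    ⟨_, fun _ _ => rfl⟩
  have hyδ : ∀ u v, y u v ≤ 65536 * δ := fun u v => by
    simp only [hy]
    rw [div_le_iff₀ (by linarith [hqq1 u v])]
    nlinarith [hqq1 u v, hxδ u v]
  obtain ⟨d, hd⟩ : ∃ d : Fin m → Fin m → ℝ, ∀ u v,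
    d u v = cnd (v ∈ Z ∧ ¬ (surv s(u, v) ∨ u = v)) (p s(u, v)) := ⟨_, fun _ _ => rfl⟩
  obtain ⟨Z', hZ', h1, h2⟩ := sample Z q (fun v => ⟨(hq0 v).le, hq2 v⟩) y d
    (fun u v => by rw [hy]; exact div_nonneg (hx0 u v) (by linarith [hqq1 u v]))
    (fun u v => by rw [hd]; exact cnd_nonneg _ (h.pos _).le)
    (fun u v => by simp only [hy]; rw [hxsym, mul_comm (q u)])
    (fun u v hu => by simp only [hy]; rw [hxZ u v hu, zero_div])
    (fun u => by
      rw [hy, hx, cnd_neg (fun g => (h.liveZ u u (hs1 _ g)).2 rfl), zero_div])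
    (fun u => by rw [hd]; exact cnd_neg (fun g => g.2 (Or.inr rfl)) _)
    (fun u v => by
      by_cases g : surv s(u, v)
      · right; rw [hd]; exact cnd_neg (fun g' => g'.2 (Or.inl g)) _
      · left; rw [hy, hx, cnd_neg g, zero_div])
    (fun u v => by linarith [hyδ u v])
    (fun u => by
      have e : ∑ v, y u v * q v = w u / (256 * q u) := by
        simp only [hw, hy]
        rw [sum_div]
        refine sum_congr rfl fun v _ => ?_
        have := hq0 u
        have := hq0 v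
        field_simp
      rw [e, div_le_iff₀ (by linarith [hq0 u])]
      simp only [hq]
      linarith [le_max_left (w u) (1 / 256)])
    (fun u hu => by
      have e : ∑ v, d u v = ∑ v ∈ Z, d u v :=
        (sum_subset (subset_univ Z) fun v _ hv => by
          rw [hd]; exact cnd_neg (fun g => hv g.1) _).symm
      rw [e]
      refine le_trans ?_ (show _ ≤ (2 : ℝ) by linarith [h.row u hu, h.dead u hu] :
        ∑ v ∈ Z, cnd (live s(u, v)) (p s(u, v)) +
        ∑ v ∈ Z, cnd (¬ (live s(u, v) ∨ u = v)) (p s(u, v)) ≤ 2)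
      rw [← sum_add_distrib]
      refine sum_le_sum fun v _ => ?_
      have := h.pos s(u, v)
      rw [hd]
      have a1 := cnd_nonneg (live s(u, v)) this.le
      have a2 := cnd_nonneg (¬ (live s(u, v) ∨ u = v)) this.le
      have a3 := cnd_le (v ∈ Z ∧ ¬ (surv s(u, v) ∨ u = v)) this.le
      by_cases g1 : live s(u, v)
      · rw [cnd_pos g1]; linarith
      · by_cases g2 : u = v
        · rw [cnd_neg (fun g => g.2 (Or.inr g2))]; linarith
        · rw [cnd_pos (show ¬ (live s(u, v) ∨ u = v) from fun g => g.elim g1 g2)]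
          linarith)
    (by
      have e : ∑ u, ∑ v, y u v * (q u * q v) = 1 / 256 * ∑ u, w u := by
        rw [mul_sum]
        refine sum_congr rfl fun u _ => ?_
        simp only [hw, hy]
        rw [mul_sum]
        refine sum_congr rfl fun v _ => ?_
        have := hq0 u
        have := hq0 v
        field_simp
      have e2 : ∑ u ∈ Z, q u ≤ ∑ u ∈ Z, (1 / 16 * w u + 1 / 4096) := sum_le_sum fun u _ => by
        simp only [hq]
        linarith [max_le (show w u ≤ w u + 1 / 256 by linarith)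
          (show 1 / 256 ≤ w u + 1 / 256 by linarith [hw0 u])]
      rw [sum_add_distrib, ← mul_sum, sum_const, nsmul_eq_mul] at e2
      rw [e, hX2]
      have g : (0 : ℝ) ≤ Z.card := by positivity
      linarith)
  set Q : Sym2 (Fin m) → ℝ := Sym2.lift ⟨fun u v => 256 * (q u * q v), fun u v => by ring⟩ with hQ
  have hQ1 : ∀ e, 0 < Q e ∧ Q e ≤ 1 := fun e => by
    induction e using Sym2.ind with
    | _ u v => exact ⟨by linarith [hqq1 u v, show Q s(u, v) = 256 * (q u * q v) from rfl], hqq2 u v⟩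
  set live' : Sym2 (Fin m) → Prop := fun e => surv e ∧ ∀ v ∈ e, v ∈ Z' with hlive'
  set p' : Sym2 (Fin m) → ℝ := fun e => if live' e then p e / Q e else p e with hp'
  have hpos : ∀ e, 0 < p' e := fun e => by
    simp only [hp']; split_ifs; exacts [div_pos (h.pos e) (hQ1 e).1, h.pos e]
  have hle : ∀ e, p e ≤ p' e := fun e => by
    simp only [hp']; split_ifs
    · rw [le_div_iff₀ (hQ1 e).1]; nlinarith [h.pos e, (hQ1 e).2]
    · exact le_rfl
  have hagree := agree hA h.pos hpos (T + 1 / 1024) fun e => by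
    by_cases g : live' e
    · exact Or.inr ⟨hle e, hs2 _ g.1⟩
    · exact Or.inl (if_neg g).symm
  have hl : ∀ u ∈ Z', ∀ v ∈ Z', live' s(u, v) ↔ surv s(u, v) := fun u hu v hv =>
    ⟨fun g => g.1, fun g => ⟨g, fun a ha => by
      rcases Sym2.mem_iff.mp ha with rfl | rfl; exacts [hu, hv]⟩⟩
  have hyv : ∀ u ∈ Z', ∀ v ∈ Z', cnd (live' s(u, v)) (p' s(u, v)) = y u v := by
    intro u hu v hv
    simp only [hy, hx, hp']
    by_cases g : surv s(u, v)
    · rw [cnd_pos ((hl u hu v hv).2 g), if_pos ((hl u hu v hv).2 g), cnd_pos g]; rfl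
    · rw [cnd_neg (fun g' => g g'.1), cnd_neg g, zero_div]
  have hout : ∀ u ∉ Z', ∀ v, p' s(u, v) = p s(u, v) := fun u hu v =>
    if_neg fun g => hu (g.2 u (Sym2.mem_mk_left u v))
  refine ⟨p', live', Z', fun u => if u ∈ Z' then Z' else Out u, hpos,
    fun u v g => ⟨g.2 u (Sym2.mem_mk_left u v), (h.liveZ u v (hs1 _ g.1)).2⟩, fun e g => ⟨?_, ?_⟩,
    fun u hu => ?_, fun u hu => ?_, fun u => ?_, fun e g => ?_, ?_, fun u v => ?_,
    fun u hu => if_pos hu, fun u hu => ?_⟩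
  · rintro ⟨i, s, g1, g2⟩
    refine hs2 _ g.1 ⟨i, s, by linarith [hle e], fun t ht => ?_⟩
    rw [hagree t (by linarith [ht.2, hle e]) i]
    exact g2 t ⟨ht.1, by linarith [ht.2, hle e]⟩
  · intro i s _
    rw [← hagree _ le_rfl i]
    exact hs3 _ g.1 i s
  · rw [sum_congr rfl (hyv u hu)]; exact (h1 u hu).1
  · refine le_trans (le_of_eq (sum_congr rfl fun v hv => ?_)) (h1 u hu).2
    simp only [hd]
    by_cases g : surv s(u, v) ∨ u = v
    · rw [cnd_neg (not_not.mpr (g.imp_left (hl u hu v hv).2)), cnd_neg (fun g' => g'.2 g)]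
    · rw [cnd_pos (fun g' => g (g'.imp_left (hl u hu v hv).1)), cnd_pos ⟨hZ' hv, g⟩]
      exact if_neg fun g' => g (Or.inl g'.1)
  · rw [show p' s(u, u) = p s(u, u) from if_neg fun g => (h.liveZ u u (hs1 _ g.1)).2 rfl]
    exact h.diag u
  · induction e using Sym2.ind with
    | _ u v =>
      have := hyv u (g.2 u (Sym2.mem_mk_left u v)) v (g.2 v (Sym2.mem_mk_right u v))
      rw [cnd_pos g] at this
      rw [this]; exact hyδ u v
  · rw [sum_congr rfl fun u hu => sum_congr rfl (hyv u hu)]; exact h2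
  · have key : ∀ u v, u ∈ Z' → v ∉ Z' → u ∈ Out v := by
      intro u v hu hv
      by_cases g : v ∈ Z
      · rw [h.outZ v g]; exact hZ' hu
      · exact (h.cover u v).resolve_left (by rw [h.outZ u (hZ' hu)]; exact g)
    by_cases hu : u ∈ Z' <;> by_cases hv : v ∈ Z' <;> simp only [hu, hv, if_true, if_false]
    · exact Or.inl trivial
    · exact Or.inr (key u v hu hv)
    · exact Or.inl (key v u hv hu)
    · exact h.cover u v
  · rw [if_neg hu, sum_congr rfl fun v _ => hout u hu v]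
    exact h.load u

theorem init (hA : Online elig A) (hm : 2 ≤ m) :
    St A 0 (1 / m) (fun _ => 1 / m) (fun e => ¬ e.IsDiag) univ (fun _ => univ) := by
  have hm' : (2 : ℝ) ≤ m := by exact_mod_cast hm
  have hp : (0 : ℝ) < 1 / m := by positivity
  have hval := (hA.1 (fun _ => 1 / m) fun _ => hp).1
  have hrow : ∀ u : Fin m, ∑ v : Fin m, cnd (¬ s(u, v).IsDiag) (1 / m : ℝ) = 1 - 1 / m := by
    intro u
    have : ∀ v : Fin m, cnd (¬ s(u, v).IsDiag) (1 / m : ℝ) =
        1 / m - if u = v then (1 / m : ℝ) else 0 := fun v => by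
      by_cases g : u = v <;> simp [g, cnd]
    simp only [this, sum_sub_distrib, sum_ite_eq, mem_univ, if_true, sum_const, card_univ,
      Fintype.card_fin, nsmul_eq_mul]
    field_simp
  have h2 : (1 / m : ℝ) ≤ 1 / 2 := one_div_le_one_div_of_le (by norm_num) hm'
  refine ⟨fun _ => hp, fun u v g => ⟨mem_univ _, by simpa using g⟩, fun e _ => ⟨?_, ?_⟩,
    fun u _ => by rw [hrow]; linarith, fun u _ => ?_, fun _ => by linarith, fun _ _ => le_rfl, ?_,
    fun u v => Or.inl (mem_univ _), fun _ _ => rfl, fun u hu => absurd (mem_univ u) hu⟩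
  · rintro ⟨i, s, g1, g2⟩
    have := (hval i s e s (g2 s ⟨le_rfl, by linarith⟩)).2.1
    linarith
  · intro i s hs g
    linarith [(hval i 0 e s g).2.1]
  · rw [sum_eq_zero fun v _ => cnd_neg (by by_cases g : u = v <;> simp [g]) _]; norm_num
  · simp only [hrow, sum_const, card_univ, Fintype.card_fin, nsmul_eq_mul]
    nlinarith

theorem iter (hA : Online elig A) (L : ℕ) (hm : 2 ^ (16 * L + 1) ≤ m) :
    ∀ i ≤ L, ∃ p live Z Out, St A (i / 1024) (65536 ^ i / m) p live Z Out := by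
  have hm2 : 2 ≤ m := le_trans (Nat.le_self_pow (by omega) 2) hm
  have hm0 : (0 : ℝ) < m := by positivity
  intro i
  induction i with
  | zero => intro _; simpa using ⟨_, _, _, _, by simpa using init hA hm2⟩
  | succ i ih =>
    intro hi
    obtain ⟨p, live, Z, Out, h⟩ := ih (by omega)
    have h1 : (65536 : ℝ) ^ i / m ≤ 1 / 131072 := by
      rw [div_le_div_iff₀ hm0 (by norm_num), one_mul]
      have : 65536 ^ i * 131072 ≤ m := by
        calc 65536 ^ i * 131072 = 2 ^ (16 * (i + 1) + 1) := by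
              rw [show 65536 = 2 ^ 16 by norm_num, ← pow_mul]; ring
          _ ≤ 2 ^ (16 * L + 1) := Nat.pow_le_pow_right (by norm_num) (by omega)
          _ ≤ m := hm
      exact_mod_cast this
    obtain ⟨p', live', Z', Out', h'⟩ := h.step hA (by positivity) h1
    refine ⟨p', live', Z', Out', ?_⟩
    convert h' using 1
    · push_cast; ring
    · ring

theorem St.makespan_ge (h : St A T δ p live Z Out) : ENNReal.ofReal T ≤ makespan (A p) p := by
  have : ∃ e, live e := by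
    by_contra g
    push Not at g
    have h1 := h.big
    simp only [cnd_neg (g _), sum_const_zero] at h1
    have : (0 : ℝ) ≤ Z.card := by positivity
    linarith
  obtain ⟨e, he⟩ := this
  refine le_iInf₂ fun t ht => ENNReal.ofReal_le_ofReal ?_
  by_contra g
  exact (h.fresh e he).1 ((ht e).mono (not_le.mp g).le)

theorem St.opt_le (h : St A T δ p live Z Out) : opt elig p ≤ ENNReal.ofReal 3 := by
  have hex : ∀ e : Sym2 (Fin m), ∃ u v, e = s(u, v) ∧ v ∈ Out u := by
    intro e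
    induction e using Sym2.ind with
    | _ u v =>
      rcases h.cover u v with g | g
      · exact ⟨u, v, rfl, g⟩
      · exact ⟨v, u, Sym2.eq_swap, g⟩
  choose f g hfg hg using hex
  refine iInf₂_le_of_le f (fun e => ?_) (iSup_le fun u => ENNReal.ofReal_le_ofReal ?_)
  · simp only [elig, mem_filter, mem_univ, true_and]
    have := Sym2.mem_mk_left (f e) (g e)
    rwa [← hfg e] at this
  · refine le_trans ?_ (h.load u)
    rw [← sum_image (s := Out u) (g := fun v => s(u, v)) fun a _ b _ hab => job_inj u hab]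
    refine sum_le_sum_of_subset_of_nonneg (fun e he => ?_) fun e _ _ => (h.pos e).le
    have := (mem_filter.mp he).2
    exact mem_image.mpr ⟨g e, this ▸ hg e, this ▸ (hfg e).symm⟩

theorem lower (L : ℕ) (hm : 2 ^ (16 * L + 1) ≤ m) : ENNReal.ofReal (L / 3072) ≤ cstar m := by
  refine le_iInf₂ fun A hA => ?_
  have hne : ∀ e : Sym2 (Fin m), (elig e).Nonempty := fun e => by
    induction e using Sym2.ind with
    | _ u v => exact ⟨u, by simp [elig]⟩
  obtain ⟨p, live, Z, Out, h⟩ := iter (hA _ elig hne) L hm L le_rfl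
  refine le_iSup₂_of_le (Sym2 (Fin m)) inferInstance (le_iSup₂_of_le elig hne
    (le_iSup₂_of_le p h.pos (le_trans ?_ (ENNReal.div_le_div h.makespan_ge h.opt_le))))
  rw [← ENNReal.ofReal_div_of_pos (by norm_num)]
  exact le_of_eq (by congr 1; ring)

theorem main : ∃ κ : ℝ, 0 < κ ∧ ∀ᶠ m : ℕ in atTop, ENNReal.ofReal (κ * Real.log m) ≤ cstar m := by
  refine ⟨1 / 110592, by norm_num, ?_⟩
  filter_upwards [eventually_ge_atTop (2 ^ 17)] with m hm
  have hm0 : m ≠ 0 := by omega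
  set k := Nat.log 2 m with hk
  have h1 : 17 ≤ k := (Nat.le_log_iff_pow_le (by norm_num) hm0).mpr hm
  have h2 : 2 ^ k ≤ m := Nat.pow_log_le_self 2 hm0
  have h3 : m < 2 ^ (k + 1) := Nat.lt_pow_succ_log_self (by norm_num) m
  refine le_trans (ENNReal.ofReal_le_ofReal ?_) (lower ((k - 1) / 16)
    (le_trans (Nat.pow_le_pow_right (by norm_num) (by omega)) h2))
  have h4 : Real.log m ≤ (k + 1 : ℕ) := by
    calc Real.log m ≤ Real.log (2 ^ (k + 1)) :=
          Real.log_le_log (by positivity) (by exact_mod_cast h3.le)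
      _ = (k + 1 : ℕ) * Real.log 2 := by rw [Real.log_pow]
      _ ≤ _ := mul_le_of_le_one_right (by positivity) (by linarith [Real.log_two_lt_d9])
  have h5 : ((k + 1 : ℕ) : ℝ) ≤ 36 * (((k - 1) / 16 : ℕ) : ℝ) := by
    exact_mod_cast (by omega : k + 1 ≤ 36 * ((k - 1) / 16))
  linarith

end Pool.Agent.H41.Restart
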