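import Mathlib

set_option autoImplicit false

namespace Pool.Agent.H41.Restart

open scoped ENNReal

variable {m : ℕ} {J : Type}

/-- A schedule: `S i t = some (j, s)` says that at time t machine i runs job j and that this run
of j began at time s; `none` says that the machine is idle. -/
def Sched (m : ℕ) (J : Type) : Type := Fin m → ℝ → Option (J × ℝ)

/-- runs take place on eligible machines, start at times s ≥ 0 and are uninterrupted since their
start, and a job runs on at most one machine at a time -/
def Valid (M : J → Finset (Fin m)) (S : Sched m J) : Prop :=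
  (∀ i t j s, S i t = some (j, s) →
    i ∈ M j ∧ 0 ≤ s ∧ s ≤ t ∧ ∀ t' ∈ Set.Icc s t, S i t' = some (j, s)) ∧
  ∀ i i' t j s s', S i t = some (j, s) → S i' t = some (j, s') → i = i'

/-- job j has completed by time t: it had an uninterrupted run of length p j -/
def DoneBy (S : Sched m J) (p : J → ℝ) (j : J) (t : ℝ) : Prop :=
  ∃ i s, s + p j ≤ t ∧ ∀ t' ∈ Set.Ico s (s + p j), S i t' = some (j, s)

/-- A maps running times to schedules, and what it does at time t depends only on the completions
observed up to time t -/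
def Online (M : J → Finset (Fin m)) (A : (J → ℝ) → Sched m J) : Prop :=
  (∀ p, (∀ j, 0 < p j) → Valid M (A p)) ∧
  ∀ p p', (∀ j, 0 < p j) → (∀ j, 0 < p' j) → ∀ t,
    (∀ j, ∀ τ ≤ t, DoneBy (A p) p j τ ↔ DoneBy (A p') p' j τ) → ∀ i, A p i t = A p' i t

/-- the time at which the last job completes -/
noncomputable def makespan (S : Sched m J) (p : J → ℝ) : ℝ≥0∞ :=
  ⨅ t ∈ {t : ℝ | ∀ j, DoneBy S p j t}, ENNReal.ofReal t

/-- the optimal offline makespan: the least maximum load of an assignment to eligible machines -/
noncomputable def opt [Fintype J] (M : J → Finset (Fin m)) (p : J → ℝ) : ℝ≥0∞ :=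
  ⨅ f ∈ {f : J → Fin m | ∀ j, f j ∈ M j},
    ⨆ i, ENNReal.ofReal (∑ j ∈ Finset.univ.filter fun j => f j = i, p j)

/-- the optimal competitive ratio c*(m) of deterministic algorithms on m machines -/
noncomputable def cstar (m : ℕ) : ℝ≥0∞ :=
  ⨅ (A : ∀ (J : Type) [Fintype J], (J → Finset (Fin m)) → (J → ℝ) → Sched m J)
    (_ : ∀ (J : Type) [Fintype J] (M : J → Finset (Fin m)), (∀ j, (M j).Nonempty) →
      Online M (A J M)),
    ⨆ (J : Type) (_ : Fintype J) (M : J → Finset (Fin m)) (_ : ∀ j, (M j).Nonempty)
      (p : J → ℝ) (_ : ∀ j, 0 < p j), makespan (A J M p) p / opt M p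

end Pool.Agent.H41.Restart
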