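import Mathlib

set_option autoImplicit false

namespace Pool.Agent.H41.SC

open Finset
open scoped NNReal

def sf (n : ℕ) (a : ℕ → ℝ) : ℕ → ℝ := fun j => a (2 ^ n + j)

noncomputable def ip : ℕ → (ℕ → ℝ) → (ℕ → ℝ) → ℝ
  | 0, a, b => a 0 * b 0
  | n + 1, a, b => ip n a b + ip n (sf n a) (sf n b) +
      (3 / 4) ^ (n + 1) * ((∑ j ∈ range (2 ^ (n + 1)), a j) * ∑ j ∈ range (2 ^ (n + 1)), b j)

lemma sum_split (n : ℕ) (a : ℕ → ℝ) : ∑ j ∈ range (2 ^ (n + 1)), a j =
    ∑ j ∈ range (2 ^ n), a j + ∑ j ∈ range (2 ^ n), sf n a j := by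
  rw [pow_succ, mul_two, sum_range_add]; rfl

lemma ip_comm (n : ℕ) (a b : ℕ → ℝ) : ip n a b = ip n b a := by
  induction n generalizing a b with
  | zero => exact mul_comm _ _
  | succ n ih => rw [ip, ip, ih a, ih (sf n a), mul_comm (∑ j ∈ _, a j)]

lemma ip_lin (n : ℕ) (r : ℝ) (a a' b : ℕ → ℝ) :
    ip n (fun j => r * a j + a' j) b = r * ip n a b + ip n a' b := by
  induction n generalizing a a' b with
  | zero => simp [ip]; ring
  | succ n ih =>
    rw [ip, ip, ip, ih, show sf n (fun j => r * a j + a' j) = fun j => r * sf n a j + sf n a' j from rfl,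
      ih, sum_add_distrib, ← mul_sum]
    ring

lemma ip_congr (n : ℕ) {a a' : ℕ → ℝ} (h : ∀ j < 2 ^ n, a j = a' j) : ip n a a = ip n a' a' := by
  induction n generalizing a a' with
  | zero => simp [ip, h 0]
  | succ n ih =>
    rw [ip, ip, ih fun j hj => h j (by rw [pow_succ]; omega),
      ih (a := sf n a) (a' := sf n a') fun j hj => h _ (by rw [pow_succ]; omega),
      sum_congr rfl fun j hj => h j (mem_range.1 hj)]

lemma ip_ge (n : ℕ) (a : ℕ → ℝ) : ∑ j ∈ range (2 ^ n), a j ^ 2 ≤ ip n a a := by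
  induction n generalizing a with
  | zero => simp [ip, sq]
  | succ n ih =>
    rw [ip, sum_split]
    exact le_add_of_le_of_nonneg (add_le_add (ih a) (ih (sf n a)))
      (mul_nonneg (by positivity) (mul_self_nonneg _))

lemma ip_nn (n : ℕ) (a : ℕ → ℝ) : 0 ≤ ip n a a := le_trans (by positivity) (ip_ge n a)

lemma ip_top (n : ℕ) (a : ℕ → ℝ) : (3 / 4) ^ n * (∑ j ∈ range (2 ^ n), a j) ^ 2 ≤ ip n a a := by
  cases n with
  | zero => simp [ip, sq]
  | succ n => rw [ip, sq]; linarith [ip_nn n a, ip_nn n (sf n a)]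

lemma ip_l1 (n : ℕ) (a : ℕ → ℝ) :
    ip n a a ≤ (4 - 3 * (3 / 4) ^ n) * (∑ j ∈ range (2 ^ n), |a j|) ^ 2 := by
  induction n generalizing a with
  | zero => norm_num [ip, sq]
  | succ n ih =>
    have h1 := ih a
    have h2 := ih (sf n a)
    have h3 := sq_le_sq' (abs_le.1 (abs_sum_le_sum_abs a (range (2 ^ (n + 1))))).1
      (abs_le.1 (abs_sum_le_sum_abs a (range (2 ^ (n + 1))))).2
    rw [ip, ← sq, pow_succ (3 / 4 : ℝ)]
    rw [sum_split n fun j => |a j|] at h3 ⊢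
    have p1 : (3 / 4 : ℝ) ^ n ≤ 1 := pow_le_one₀ (by norm_num) (by norm_num)
    have p0 : (0 : ℝ) < (3 / 4) ^ n := by positivity
    have a1 : 0 ≤ ∑ j ∈ range (2 ^ n), |a j| := by positivity
    have a2 : 0 ≤ ∑ j ∈ range (2 ^ n), |sf n a j| := by positivity
    change _ ≤ (_ + ∑ j ∈ range (2 ^ n), |sf n a j|) ^ 2 at h3
    change _ ≤ _ * (_ + ∑ j ∈ range (2 ^ n), |sf n a j|) ^ 2
    nlinarith [mul_le_mul_of_nonneg_left h3 p0.le, mul_nonneg (mul_nonneg a1 a2) (sub_nonneg.2 p1),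
      mul_nonneg a1 a2]

noncomputable def bb : ℕ → ℝ
  | 0 => 1
  | n + 1 => bb n + (3 / 2) ^ (n + 1)

lemma bb_ge (n : ℕ) : (3 / 2) ^ n ≤ bb n := by
  induction n with
  | zero => simp [bb]
  | succ n ih => rw [bb]; linarith [pow_pos (show (0 : ℝ) < 3 / 2 by norm_num) n]

lemma ip_one (n : ℕ) (a : ℕ → ℝ) {b : ℕ → ℝ} (h : ∀ j < 2 ^ n, b j = 1) :
    ip n a b = bb n * ∑ j ∈ range (2 ^ n), a j := by
  induction n generalizing a b with
  | zero => simp [ip, bb, h 0]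
  | succ n ih =>
    rw [ip, ih _ fun j hj => h j (by rw [pow_succ]; omega),
      ih (b := sf n b) _ fun j hj => h _ (by rw [pow_succ]; omega),
      sum_congr rfl fun j hj => h j (mem_range.1 hj), sum_split n a, bb, sum_const, card_range,
      show (3 / 2 : ℝ) = 3 / 4 * 2 by norm_num, mul_pow]
    simp; ring

def pre (m : ℕ) (a : ℕ → ℝ) : ℕ → ℝ := fun j => if j < m then a j else 0

lemma ip_pre (n m : ℕ) (a : ℕ → ℝ) : ip n (pre m a) (pre m a) +
    7 * (3 / 4) ^ n * (∑ j ∈ range (2 ^ n), pre m a j) ^ 2 ≤ 43 * ip n a a := by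
  induction n generalizing m a with
  | zero => simp only [ip, pre, pow_zero, range_one, sum_singleton]; split_ifs <;> nlinarith
  | succ n ih =>
    have p0 : (0 : ℝ) < (3 / 4) ^ n := by positivity
    have n1 := ip_nn n a
    have n2 := ip_nn n (sf n a)
    have n3 := mul_nonneg p0.le (mul_self_nonneg (∑ j ∈ range (2 ^ (n + 1)), a j))
    rw [ip, ip, ← sq, sum_split n (pre m a), pow_succ (3 / 4 : ℝ)]
    rcases le_total m (2 ^ n) with h | h
    · have z : sf n (pre m a) = fun j => 0 * a j + 0 * a j := funext fun j => by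
        simp only [sf, pre]; rw [if_neg (by omega)]; ring
      have z2 : ip n (sf n (pre m a)) (sf n (pre m a)) = 0 := by
        have := ip_l1 n (sf n (pre m a))
        have := ip_nn n (sf n (pre m a))
        simp only [z] at *
        simp only [zero_mul, add_zero, abs_zero, sum_const_zero] at *
        linarith
      have := ih m a
      rw [z2, z]
      simp only [zero_mul, add_zero, sum_const_zero]
      nlinarith [mul_nonneg p0.le (sq_nonneg (∑ j ∈ range (2 ^ n), pre m a j))]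
    · have z : sf n (pre m a) = pre (m - 2 ^ n) (sf n a) := funext fun j => by
        simp only [sf, pre, Nat.lt_sub_iff_add_lt']
      have e : ∀ j < 2 ^ n, pre m a j = a j := fun j hj => if_pos (by omega)
      have := ih (m - 2 ^ n) (sf n a)
      have t := ip_top n a
      rw [z, ip_congr n e, sum_congr rfl fun j hj => e j (mem_range.1 hj)]
      nlinarith [mul_nonneg p0.le (sq_nonneg (6 * ∑ j ∈ range (2 ^ n), a j -
        ∑ j ∈ range (2 ^ n), pre (m - 2 ^ n) (sf n a) j))]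

def EE (n : ℕ) : Type := Fin (2 ^ n) → ℝ

instance (n : ℕ) : AddCommGroup (EE n) := inferInstanceAs (AddCommGroup (Fin (2 ^ n) → ℝ))
instance (n : ℕ) : Module ℝ (EE n) := inferInstanceAs (Module ℝ (Fin (2 ^ n) → ℝ))

def ex {n : ℕ} (a : EE n) : ℕ → ℝ := fun j => if h : j < 2 ^ n then a ⟨j, h⟩ else 0

lemma ex_val {n : ℕ} (a : EE n) (j : Fin (2 ^ n)) : ex a j = a j := dif_pos j.2

lemma ex_lin {n : ℕ} (r : ℝ) (a b : EE n) : ex (r • a + b) = fun j => r * ex a j + ex b j :=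
  funext fun j => by
    unfold ex; split_ifs
    · rfl
    · simp

@[reducible] noncomputable def core (n : ℕ) : InnerProductSpace.Core ℝ (EE n) where
  inner a b := ip n (ex a) (ex b)
  conj_inner_symm a b := ip_comm n _ _
  re_inner_nonneg a := ip_nn n _
  add_left a b c := by
    have := ex_lin 1 a b
    rw [one_smul] at this
    rw [this, ip_lin, one_mul]
  smul_left a b r := by
    have h := ip_lin n 1 (ex (0 : EE n)) (ex (0 : EE n)) (ex b)
    rw [← ex_lin, one_smul, add_zero] at h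
    rw [← add_zero (r • a), ex_lin, ip_lin]
    simp; linarith
  definite a h := funext fun j => by
    have := (single_le_sum (f := fun j => ex a j ^ 2) (fun _ _ => sq_nonneg _)
      (mem_range.2 j.2)).trans ((ip_ge n _).trans_eq h)
    rw [ex_val] at this
    exact pow_eq_zero_iff two_ne_zero |>.1 (le_antisymm this (sq_nonneg _))

noncomputable instance (n : ℕ) : NormedAddCommGroup (EE n) :=
  @InnerProductSpace.Core.toNormedAddCommGroup ℝ _ _ _ _ (core n)
noncomputable instance (n : ℕ) : InnerProductSpace ℝ (EE n) := InnerProductSpace.ofCore (core n).toCore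
instance (n : ℕ) : FiniteDimensional ℝ (EE n) :=
  inferInstanceAs (FiniteDimensional ℝ (Fin (2 ^ n) → ℝ))
instance (n : ℕ) : CompleteSpace (EE n) := FiniteDimensional.complete ℝ _

variable {n : ℕ}

lemma inner_ex (a b : EE n) : inner ℝ a b = ip n (ex a) (ex b) := rfl
lemma nsq (a : EE n) : ‖a‖ ^ 2 = ip n (ex a) (ex a) := (real_inner_self_eq_norm_sq a).symm

def pj (j : Fin (2 ^ n)) : EE n →ₗ[ℝ] ℝ := LinearMap.proj (φ := fun _ : Fin (2 ^ n) => ℝ) j
noncomputable def co (j : Fin (2 ^ n)) : EE n →L[ℝ] ℝ := LinearMap.toContinuousLinearMap (pj j)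

lemma ex_co (a : EE n) {j : ℕ} (h : j < 2 ^ n) : ex a j = co ⟨j, h⟩ a := dif_pos h
lemma ext_co {a b : EE n} (h : ∀ j, co j a = co j b) : a = b := funext h
lemma sum_co (a : EE n) (g : ℝ → ℝ) : ∑ j ∈ range (2 ^ n), g (ex a j) = ∑ j, g (co j a) := by
  rw [← Fin.sum_univ_eq_sum_range fun j => g (ex a j)]
  exact sum_congr rfl fun j _ => by rw [ex_co a j.2]

lemma norm_l1 (a : EE n) : ‖a‖ ≤ 2 * ∑ j, |co j a| := by
  refine le_of_sq_le_sq ?_ (by positivity) |> fun h => h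
  rw [nsq, mul_pow]
  refine (ip_l1 n _).trans ?_
  rw [sum_co a abs]
  nlinarith [pow_pos (show (0 : ℝ) < 3 / 4 by norm_num) n, sq_nonneg (∑ j, |co j a|)]

def fv (j : Fin (2 ^ n)) : EE n := fun i => if i = j then 1 else 0
def yv (n : ℕ) : EE n := fun _ => 1

lemma co_fv (i j : Fin (2 ^ n)) : co i (fv j) = if i = j then 1 else 0 := rfl
lemma co_yv (i : Fin (2 ^ n)) : co i (yv n) = 1 := rfl

lemma inner_y (a : EE n) : inner ℝ a (yv n) = bb n * ∑ j, co j a := by
  rw [inner_ex, ip_one n _ fun j hj => (ex_co _ hj).trans (co_yv _), ← sum_co a fun x => x]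

noncomputable def TL (d : ℕ → ℝ) : EE n →L[ℝ] EE n :=
  ∑ j : Fin (2 ^ n), d j • (co j).smulRight (fv j)

noncomputable def RL (r : ℕ → ℝ) : EE n →L[ℝ] EE n :=
  ∑ j : Fin (2 ^ n), r j • (innerSL ℝ (fv j)).smulRight (fv j)

lemma TL_ap (d : ℕ → ℝ) (a : EE n) (j : Fin (2 ^ n)) : co j (TL d a) = d j * co j a := by
  simp [TL, co_fv]

lemma RL_ap (r : ℕ → ℝ) (a : EE n) (j : Fin (2 ^ n)) :
    co j (RL r a) = r j * inner ℝ (fv j) a := by
  simp [RL, co_fv]

lemma TL_f (d : ℕ → ℝ) (j : Fin (2 ^ n)) : TL d (fv j) = d j • fv j := ext_co fun i => by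
  rw [TL_ap, map_smul, co_fv]; split_ifs with h <;> simp [h]

lemma TL_le {d : ℕ → ℝ} (h : Antitone d) (h0 : ∀ j, 0 ≤ d j) (h1 : d 0 ≤ 1) (a : EE n) :
    ‖TL d a‖ ≤ 7 * ‖a‖ := by
  let d' : ℕ → ℝ := fun j => if j < 2 ^ n then d j else 0
  have k : ∀ m, ‖TL (pre m 1) a‖ ≤ 7 * ‖a‖ := fun m => by
    refine le_of_sq_le_sq ?_ (by positivity) |> fun h => h
    have := ip_pre n m (ex a)
    rw [mul_pow, nsq, nsq, ip_congr n (a' := pre m (ex a)) fun j hj => by
      rw [ex_co _ hj, TL_ap, ← ex_co]; simp [pre]]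
    nlinarith [ip_nn n (ex a), mul_nonneg (pow_pos (show (0 : ℝ) < 3 / 4 by norm_num) n).le
      (sq_nonneg (∑ j ∈ range (2 ^ n), pre m (ex a) j))]
  have e : TL d a = ∑ m ∈ range (2 ^ n), (d' m - d' (m + 1)) • TL (pre (m + 1) 1) a := ext_co fun j => by
    simp only [map_sum, map_smul, smul_eq_mul, TL_ap, pre, ← mul_assoc, ← sum_mul, mul_ite,
      Pi.one_apply, mul_one, mul_zero]
    rw [← sum_filter, show (range (2 ^ n)).filter (fun m => (j : ℕ) < m + 1) = Ico (j : ℕ) (2 ^ n) by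
      ext; simp; omega, ← neg_neg (∑ m ∈ _, _), ← sum_neg_distrib]
    simp only [neg_sub]
    rw [sum_Ico_sub _ j.2.le]
    simp [d']
  have p : ∀ m ∈ range (2 ^ n), 0 ≤ d' m - d' (m + 1) := fun m hm => by
    simp only [d', mem_range.1 hm, if_true]
    split_ifs
    exacts [sub_nonneg.2 (h (Nat.le_succ m)), by simpa using h0 m]
  rw [e]
  refine (norm_sum_le_of_le _ fun m hm => (norm_smul_of_nonneg (p m hm) _).trans_le
    (mul_le_mul_of_nonneg_left (k _) (p m hm))).trans ?_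
  rw [← sum_mul, sum_range_sub']
  simpa [d'] using mul_le_of_le_one_left (by positivity) h1

lemma RL_le {r : ℕ → ℝ} (h : ∑ j ∈ range (2 ^ n), |r j| ≤ 1) (a : EE n) : ‖RL r a‖ ≤ 4 * ‖a‖ := by
  refine (norm_l1 _).trans ?_
  have : ∀ j : Fin (2 ^ n), |co j (RL r a)| ≤ |r j| * (2 * ‖a‖) := fun j => by
    rw [RL_ap, abs_mul]
    gcongr
    refine (abs_real_inner_le_norm _ _).trans (mul_le_mul_of_nonneg_right ((norm_l1 _).trans ?_)
      (norm_nonneg _))
    simp [co_fv, apply_ite abs]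
  have := sum_le_sum fun j (_ : j ∈ univ) => this j
  rw [← sum_mul, Fin.sum_univ_eq_sum_range fun j => |r j|] at this
  nlinarith [norm_nonneg a]

abbrev BB (n : ℕ) := WithLp 2 (EE n × EE n)

noncomputable def ee (l : ℕ → ℝ) (t : ℝ≥0) (j : ℕ) : ℝ := Real.exp (-(l j * t))
noncomputable def rr (l : ℕ → ℝ) (t : ℝ≥0) (j : ℕ) : ℝ := (-1) ^ j * (ee l t j - ee l t (j + 1))

noncomputable def SB (n : ℕ) (l : ℕ → ℝ) (t : ℝ≥0) : BB n →L[ℝ] BB n :=
  ((WithLp.prodContinuousLinearEquiv 2 ℝ (EE n) (EE n)).symm : EE n × EE n →L[ℝ] BB n) ∘L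
    ((TL (ee l t) ∘L WithLp.fstL 2 ℝ _ _ + RL (rr l t) ∘L WithLp.sndL 2 ℝ _ _).prod
      ((TL fun j => ee l t (j + 1)).adjoint ∘L WithLp.sndL 2 ℝ _ _))

lemma SB_ap (l : ℕ → ℝ) (t : ℝ≥0) (z : BB n) : SB n l t z = WithLp.toLp 2
    (TL (ee l t) z.fst + RL (rr l t) z.snd, (TL fun j => ee l t (j + 1)).adjoint z.snd) := rfl

lemma ee_add (l : ℕ → ℝ) (s t : ℝ≥0) (j : ℕ) : ee l (s + t) j = ee l s j * ee l t j := by
  simp [ee, ← Real.exp_add, mul_add, add_comm]

lemma SB_zero (l : ℕ → ℝ) (z : BB n) : SB n l 0 z = z := by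
  have : (TL fun _ => 1 : EE n →L[ℝ] EE n) = 1 := by ext a; exact ext_co fun j => by simp [TL_ap]
  have e : ee l 0 = fun _ => 1 := funext fun j => by simp [ee]
  rw [SB_ap, show RL (rr l 0) z.snd = 0 from ext_co fun j => by simp [RL_ap, rr, e]]
  simp only [e, this, ← ContinuousLinearMap.star_eq_adjoint, star_one, add_zero]
  rfl

lemma SB_add (l : ℕ → ℝ) (s t : ℝ≥0) (z : BB n) : SB n l (s + t) z = SB n l s (SB n l t z) := by
  simp only [SB_ap, WithLp.toLp_fst, WithLp.toLp_snd]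
  congr 2
  · refine ext_co fun j => ?_
    simp only [map_add, TL_ap, RL_ap, ContinuousLinearMap.adjoint_inner_right, TL_f,
      real_inner_smul_left, rr, ee_add]
    ring
  · refine ext_inner_left ℝ fun a => ?_
    simp only [ContinuousLinearMap.adjoint_inner_right]
    congr 1
    exact ext_co fun j => by simp only [TL_ap, ee_add]; ring

lemma SB_cont (l : ℕ → ℝ) (z : BB n) : Continuous fun t => SB n l t z := by
  simp only [SB_ap, TL, RL, ee, rr]
  fun_prop

lemma rr_sum {l : ℕ → ℝ} (h : Monotone l) (h0 : 0 ≤ l 0) (t : ℝ≥0) (m : ℕ) :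
    Antitone (ee l t) ∧ ee l t 0 ≤ 1 ∧ ∑ j ∈ range m, |rr l t j| ≤ 1 := by
  have a : Antitone (ee l t) := fun i j hij => Real.exp_le_exp.2
    (neg_le_neg (mul_le_mul_of_nonneg_right (h hij) t.2))
  have b : ee l t 0 ≤ 1 := Real.exp_le_one_iff.2 (neg_nonpos.2 (mul_nonneg h0 t.2))
  refine ⟨a, b, ?_⟩
  rw [sum_congr rfl (g := fun j => ee l t j - ee l t (j + 1)) fun j _ => by
    simp [rr, abs_mul, a (Nat.le_succ j)], sum_range_sub']
  exact (sub_le_self _ (Real.exp_pos _).le).trans b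

lemma SB_le {l : ℕ → ℝ} (h : Monotone l) (h0 : 0 ≤ l 0) (t : ℝ≥0) : ‖SB n l t‖ ≤ 18 := by
  refine ContinuousLinearMap.opNorm_le_bound _ (by norm_num) fun z => ?_
  obtain ⟨a, b, c⟩ := rr_sum h h0 t (2 ^ n)
  have h1 := TL_le a (fun _ => (Real.exp_pos _).le) b z.fst
  have h2 := RL_le c z.snd
  have h3 : ‖(TL fun j => ee l t (j + 1) : EE n →L[ℝ] EE n).adjoint‖ ≤ 7 := by
    rw [LinearIsometryEquiv.norm_map]
    exact ContinuousLinearMap.opNorm_le_bound _ (by norm_num) (TL_le (fun i j hij => a (by omega))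
      (fun _ => (Real.exp_pos _).le) ((a (by omega)).trans b))
  have h4 := ContinuousLinearMap.le_of_opNorm_le _ h3 z.snd
  have h5 := WithLp.norm_fst_le _ z
  have h6 := WithLp.norm_snd_le _ z
  have h7 := norm_add_le (TL (ee l t) z.fst) (RL (rr l t) z.snd)
  refine le_of_sq_le_sq ?_ (by positivity) |> fun h => h
  rw [WithLp.prod_norm_sq_eq_of_L2]
  have h8 := pow_le_pow_left₀ (norm_nonneg _) (h7.trans (by linarith : _ ≤ 11 * ‖z‖)) 2
  have h9 := pow_le_pow_left₀ (norm_nonneg _) (h4.trans (by linarith : _ ≤ 7 * ‖z‖)) 2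
  exact (add_le_add h8 h9).trans (by nlinarith [sq_nonneg ‖z‖])

noncomputable def Y1 (n : ℕ) : BB n := WithLp.toLp 2 (yv n, 0)
noncomputable def Y2 (n : ℕ) : BB n := WithLp.toLp 2 (0, yv n)

lemma Y_sq : ‖Y1 n‖ ^ 2 = bb n * 2 ^ n ∧ ‖Y2 n‖ ^ 2 = bb n * 2 ^ n := by
  have : ‖yv n‖ ^ 2 = bb n * 2 ^ n := by
    rw [← real_inner_self_eq_norm_sq, inner_y]; simp [co_yv]
  simp [Y1, Y2, this]

lemma Y_in (l : ℕ → ℝ) (t : ℝ≥0) :
    inner ℝ (Y1 n) (SB n l t (Y2 n)) = bb n ^ 2 * ∑ j ∈ range (2 ^ n), rr l t j := by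
  rw [← Fin.sum_univ_eq_sum_range, SB_ap, WithLp.prod_inner_apply]
  simp [Y1, Y2, real_inner_comm (RL _ _), inner_y, RL_ap, co_fv, ← sum_mul]
  ring

end Pool.Agent.H41.SC
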