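import Pool.Agent.H41.SCDefs

set_option autoImplicit false

namespace Pool.Agent.H41.SC

open MeasureTheory ProbabilityTheory Filter Set
open scoped NNReal ENNReal Topology

variable {Ω : Type} {m : MeasurableSpace Ω} {ℱ : Filtration ℝ≥0 m} {W : ℝ≥0 → Ω → ℝ}
  {P : Measure Ω}

instance : SFinite leb := by unfold leb; infer_instance

lemma leb_Ioc (a b : ℝ≥0) : leb (Ioc a b) = ENNReal.ofReal (b - a) := by
  rw [leb, Measure.map_apply measurable_real_toNNReal measurableSet_Ioc,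
    Measure.restrict_apply' measurableSet_Ioi, ← Real.volume_Ioc]
  congr 1
  ext s
  simp only [mem_inter_iff, mem_preimage, mem_Ioc, Real.lt_toNNReal_iff_coe_lt,
    Real.toNNReal_le_iff_le_coe, mem_Ioi, and_iff_left_iff_imp]
  exact fun h => a.2.trans_lt h.1

lemma IsFBM.prob (h : IsFBM ℱ W P) : IsProbabilityMeasure P :=
  h.brownian.isGaussianProcess.isProbabilityMeasure

lemma IsFBM.law (h : IsFBM ℱ W P) {r t : ℝ≥0} (hrt : r ≤ t) :
    HasLaw (W t - W r) (gaussianReal 0 (t - r)) P := by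
  convert h.brownian.hasLaw_sub t r using 2
  ext
  simp only [NNReal.coe_sub hrt, coe_nndist, Real.dist_eq]
  exact (abs_of_nonneg (sub_nonneg.2 (NNReal.coe_le_coe.2 hrt))).symm

lemma IsFBM.mem (h : IsFBM ℱ W P) (r t : ℝ≥0) : MemLp (fun ω => W t ω - W r ω) 2 P :=
  h.brownian.isGaussianProcess.hasGaussianLaw_sub.memLp_two

lemma IsFBM.sm (h : IsFBM ℱ W P) {r t c : ℝ≥0} (h1 : r ≤ c) (h2 : t ≤ c) :
    StronglyMeasurable[ℱ c] fun ω => W t ω - W r ω :=
  (((h.adapted t).mono (ℱ.mono h2) le_rfl).sub ((h.adapted r).mono (ℱ.mono h1) le_rfl)).stronglyMeasurable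

lemma IsFBM.z (h : IsFBM ℱ W P) {r t : ℝ≥0} (hrt : r ≤ t) {η : Ω → ℝ}
    (hη : StronglyMeasurable[ℱ r] η) : ∫ ω, η ω * (W t ω - W r ω) ∂P = 0 ∧
      ∫ ω, η ω * (W t ω - W r ω) ^ 2 ∂P = (∫ ω, η ω ∂P) * (t - r) := by
  have := h.prob
  have i : IndepFun η (W t - W r) P :=
    indep_of_indep_of_le_left (h.indep r t hrt) hη.measurable.comap_le
  have m1 := (hη.mono (ℱ.le r)).aestronglyMeasurable (μ := P)
  have l := h.law hrt
  have e : ∫ ω, (W t - W r) ω ∂P = 0 := by rw [l.integral_eq, integral_id_gaussianReal]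
  constructor
  · exact (i.integral_fun_mul_eq_mul_integral m1 l.aemeasurable.aestronglyMeasurable).trans
      (by rw [e, mul_zero])
  · refine ((i.comp measurable_id (measurable_id.pow_const 2)).integral_fun_mul_eq_mul_integral m1
      (l.aemeasurable.pow_const 2).aestronglyMeasurable).trans ?_
    have := l.variance_eq
    rw [variance_id_gaussianReal, variance_of_integral_eq_zero l.aemeasurable e,
      NNReal.coe_sub hrt] at this
    exact congrArg _ this

lemma IsFBM.int3 (h : IsFBM ℱ W P) {ζ : Ω → ℝ} (hm : StronglyMeasurable ζ) {C : ℝ}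
    (hC : ∀ ω, ‖ζ ω‖ ≤ C) (a b c d : ℝ≥0) :
    Integrable (fun ω => ζ ω * ((W b ω - W a ω) * (W d ω - W c ω))) P :=
  ((h.mem a b).integrable_mul (h.mem c d)).bdd_mul hm.aestronglyMeasurable (ae_of_all _ hC)

lemma IsFBM.pair (h : IsFBM ℱ W P) {a b c d : ℝ≥0} (hab : a ≤ b) (hcd : c ≤ d) (hac : a ≤ c)
    {ζ : Ω → ℝ} (hm : StronglyMeasurable[ℱ c] ζ) {C : ℝ} (hC : ∀ ω, ‖ζ ω‖ ≤ C) :
    ∫ ω, ζ ω * ((W b ω - W a ω) * (W d ω - W c ω)) ∂P =
      (∫ ω, ζ ω ∂P) * leb.real (Ioc a b ∩ Ioc c d) := by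
  have hm' := hm.mono (ℱ.le c)
  have k : ∀ {b d}, c ≤ b → b ≤ d → ∫ ω, ζ ω * ((W b ω - W c ω) * (W d ω - W c ω)) ∂P =
      (∫ ω, ζ ω ∂P) * (b - c) := fun {b d} h1 h2 => by
    rw [← (h.z h1 hm).2, ← add_zero (∫ ω, ζ ω * _ ^ 2 ∂P),
      ← (h.z h2 ((hm.mono (ℱ.mono h1)).mul (h.sm h1 le_rfl))).1, ← integral_add]
    · exact integral_congr_ae (ae_of_all _ fun ω => by simp only [Pi.mul_apply]; ring)
    · simpa only [sq] using h.int3 hm' hC c b c b
    · simpa only [Pi.mul_apply, mul_assoc] using h.int3 hm' hC c b b d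
  rw [Ioc_inter_Ioc, Measure.real, leb_Ioc, ENNReal.toReal_ofReal', sup_eq_right.2 hac]
  rcases le_total b c with h1 | h1
  · rw [inf_eq_left.2 (h1.trans hcd), max_eq_right (by simpa using h1), mul_zero,
      ← (h.z hcd (hm.mul (h.sm hac h1))).1]
    simp only [Pi.mul_apply, mul_assoc]
  · have : ∫ ω, ζ ω * ((W b ω - W a ω) * (W d ω - W c ω)) ∂P =
        ∫ ω, ζ ω * ((W b ω - W c ω) * (W d ω - W c ω)) ∂P := by
      rw [← add_zero (∫ ω, ζ ω * ((W b ω - W c ω) * _) ∂P), ← (h.z hcd (hm.mul (h.sm hac le_rfl))).1,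
        ← integral_add (h.int3 hm' hC _ _ _ _)
          (by simpa only [Pi.mul_apply, mul_assoc] using h.int3 hm' hC a c c d)]
      exact integral_congr_ae (ae_of_all _ fun ω => by simp only [Pi.mul_apply]; ring)
    rw [this]
    rcases le_total b d with h2 | h2
    · rw [k h1 h2, inf_eq_left.2 h2, max_eq_left (by simpa using h1)]
    · rw [inf_eq_right.2 h2, max_eq_left (by simpa using hcd), ← k hcd h2]
      simp only [mul_comm (W d _ - W c _)]

section gen
variable {X X' : Type} [NormedAddCommGroup X] [NormedSpace ℝ X] [NormedAddCommGroup X']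
  [NormedSpace ℝ X']

lemma Elem.val_m (H : Elem ℱ X) : StronglyMeasurable H.val :=
  Finset.stronglyMeasurable_fun_sum _ fun i _ =>
    (((H.meas i).mono (ℱ.le _)).comp_measurable measurable_snd).indicator
      (measurable_fst (measurableSet_Ioc (a := H.a i) (b := H.b i)))

lemma Elem.prog (H : Elem ℱ X) : IsStronglyProgressive ℱ fun s ω => H.val (s, ω) :=
  IsStronglyProgressive.finsetSum fun i _ t => by
    by_cases h : H.a i ≤ t
    · let := ℱ t
      exact (((H.meas i).mono (ℱ.mono h)).comp_measurable measurable_snd).indicator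
        (measurable_fst (measurable_subtype_coe (measurableSet_Ioc (a := H.a i) (b := H.b i))))
    · have : (fun p : Iic t × Ω => (Ioc (H.a i) (H.b i)).indicator (fun _ => H.ξ i p.2) p.1) =
          fun _ => 0 := funext fun p => indicator_of_notMem (fun h' => h (h'.1.le.trans p.1.2)) _
      rw [this]
      exact @stronglyMeasurable_const _ _ (_) _ _

lemma Elem.int_mem (h : IsFBM ℱ W P) (H : Elem ℱ X) : MemLp (H.int W) 2 P :=
  memLp_finsetSum _ fun i _ => by
    obtain ⟨C, hC⟩ := H.bdd i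
    exact (memLp_top_of_bound ((H.meas i).mono (ℱ.le _)).aestronglyMeasurable C
      (ae_of_all _ hC)).smul (h.mem _ _)

def Elem.add (H K : Elem ℱ X) : Elem ℱ X where
  ι := H.ι ⊕ K.ι
  a := Sum.elim H.a K.a
  b := Sum.elim H.b K.b
  ξ := Sum.elim H.ξ K.ξ
  le := Sum.rec H.le K.le
  meas := Sum.rec H.meas K.meas
  bdd := Sum.rec H.bdd K.bdd

def Elem.map (H : Elem ℱ X) (L : X →L[ℝ] X') : Elem ℱ X' where
  ι := H.ι
  a := H.a
  b := H.b
  ξ i ω := L (H.ξ i ω)
  le := H.le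
  meas i := L.continuous.comp_stronglyMeasurable (H.meas i)
  bdd i := (H.bdd i).elim fun C h => ⟨‖L‖ * C, fun ω => L.le_opNorm_of_le (h ω)⟩

lemma add_val (H K : Elem ℱ X) : (H.add K).val = H.val + K.val :=
  funext fun _ => Fintype.sum_sum_type _
lemma add_int (H K : Elem ℱ X) : (H.add K).int W = H.int W + K.int W :=
  funext fun _ => Fintype.sum_sum_type _
lemma map_val (H : Elem ℱ X) (L : X →L[ℝ] X') : (H.map L).val = fun p => L (H.val p) :=
  funext fun p => by
    rw [Elem.val, Elem.val, map_sum]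
    exact Finset.sum_congr rfl fun i _ => by
      by_cases h : p.1 ∈ Ioc (H.a i) (H.b i) <;> simp [Elem.map, h]
lemma map_int (H : Elem ℱ X) (L : X →L[ℝ] X') : (H.map L).int W = fun p => L (H.int W p) :=
  funext fun p => by simp [Elem.int, Elem.map]; rfl

lemma bound_le [IsProbabilityMeasure P] {f : ℝ≥0 × Ω → X} {a b : ℝ≥0} {η : ℝ} (hη : 0 ≤ η)
    (h : ∀ p, ‖f p‖ ≤ (Ioc a b).indicator (fun _ => η) p.1) :
    eLpNorm f 2 (leb.prod P) ≤ ENNReal.ofReal (η * √b) := by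
  refine (eLpNorm_mono_real (g := (Ioc a b ×ˢ univ).indicator fun _ => η) fun p => ?_).trans ?_
  · simpa [indicator] using h p
  rw [eLpNorm_indicator_const (measurableSet_Ioc.prod MeasurableSet.univ) (by simp) (by simp),
    Measure.prod_prod, leb_Ioc, measure_univ, mul_one, ENNReal.ofReal_mul hη, Real.enorm_of_nonneg hη,
    Real.sqrt_eq_rpow, ← ENNReal.ofReal_rpow_of_nonneg b.coe_nonneg (by norm_num)]
  have : (1 / (2 : ℝ≥0∞).toReal) = 1 / 2 := by simp
  rw [this]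
  gcongr
  simp

end gen

variable {X : Type} [NormedAddCommGroup X] [InnerProductSpace ℝ X]

theorem iso (h : IsFBM ℱ W P) (H : Elem ℱ X) :
    eLpNorm (H.int W) 2 P = eLpNorm H.val 2 (leb.prod P) := by
  have := h.prob
  choose C hC using H.bdd
  have ms := fun i => (H.meas i).mono (ℱ.le _)
  have b : ∀ i j ω, ‖inner ℝ (H.ξ i ω) (H.ξ j ω)‖ ≤ C i * C j := fun i j ω =>
    (norm_inner_le_norm _ _).trans (mul_le_mul (hC i ω) (hC j ω) (norm_nonneg _)
      ((norm_nonneg _).trans (hC i ω)))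
  have v : MemLp H.val 2 (leb.prod P) := memLp_finsetSum _ fun i _ =>
    ⟨(((ms i).comp_measurable measurable_snd).indicator (measurable_fst (measurableSet_Ioc (a := H.a i)
      (b := H.b i)))).aestronglyMeasurable, (bound_le (a := H.a i) (b := H.b i) (abs_nonneg (C i))
        fun p => by
          by_cases h : p.1 ∈ Ioc (H.a i) (H.b i) <;> simp [h, (hC i _).trans (le_abs_self _)]).trans_lt
        ENNReal.ofReal_lt_top⟩
  rw [(H.int_mem h).eLpNorm_eq_integral_rpow_norm (by simp) (by simp),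
    v.eLpNorm_eq_integral_rpow_norm (by simp) (by simp)]
  congr 2
  simp only [ENNReal.toReal_ofNat, Real.rpow_ofNat, ← real_inner_self_eq_norm_sq, Elem.int, Elem.val,
    sum_inner, inner_sum]
  have e : ∀ i j (p : ℝ≥0 × Ω), inner ℝ ((Ioc (H.a i) (H.b i)).indicator (fun _ => H.ξ i p.2) p.1)
      ((Ioc (H.a j) (H.b j)).indicator (fun _ => H.ξ j p.2) p.1) =
      (Ioc (H.a i) (H.b i) ∩ Ioc (H.a j) (H.b j)).indicator 1 p.1 * inner ℝ (H.ξ i p.2) (H.ξ j p.2) :=
    fun i j p => by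
      by_cases h1 : p.1 ∈ Ioc (H.a i) (H.b i) <;> by_cases h2 : p.1 ∈ Ioc (H.a j) (H.b j) <;>
        simp only [indicator, h1, h2, mem_inter_iff] <;> simp
  have e' : ∀ i j ω, inner ℝ ((W (H.b i) ω - W (H.a i) ω) • H.ξ i ω) ((W (H.b j) ω - W (H.a j) ω) •
      H.ξ j ω) = inner ℝ (H.ξ i ω) (H.ξ j ω) * ((W (H.b i) ω - W (H.a i) ω) *
        (W (H.b j) ω - W (H.a j) ω)) := fun i j ω => by
    rw [real_inner_smul_left, real_inner_smul_right]; ring
  have i1 := fun i j => h.int3 ((ms i).inner (𝕜 := ℝ) (ms j)) (b i j) (H.a i) (H.b i) (H.a j) (H.b j)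
  have i2 : ∀ i j, Integrable (fun p : ℝ≥0 × Ω => (Ioc (H.a i) (H.b i) ∩ Ioc (H.a j) (H.b j)).indicator
      (1 : ℝ≥0 → ℝ) p.1 * inner ℝ (H.ξ i p.2) (H.ξ j p.2)) (leb.prod P) := fun i j =>
    Integrable.mul_prod ((integrable_indicator_iff (measurableSet_Ioc.inter measurableSet_Ioc)).2
      (integrableOn_const (by rw [Ioc_inter_Ioc, leb_Ioc]; simp)))
      (Integrable.of_bound ((ms i).inner (ms j)).aestronglyMeasurable _ (ae_of_all _ (b i j)))
  simp only [e, e']
  rw [integral_finsetSum _ fun j _ => integrable_finsetSum _ fun i _ => i1 i j,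
    integral_finsetSum _ fun j _ => integrable_finsetSum _ fun i _ => i2 i j]
  refine Finset.sum_congr rfl fun j _ => ?_
  rw [integral_finsetSum _ fun i _ => i1 i j, integral_finsetSum _ fun i _ => i2 i j]
  refine Finset.sum_congr rfl fun i _ => ?_
  rw [integral_prod_mul (f := (Ioc (H.a i) (H.b i) ∩ Ioc (H.a j) (H.b j)).indicator 1)
    (g := fun ω => inner ℝ (H.ξ i ω) (H.ξ j ω)),
    integral_indicator_one (measurableSet_Ioc.inter measurableSet_Ioc), mul_comm]
  rcases le_total (H.a i) (H.a j) with h1 | h1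
  · exact h.pair (H.le i) (H.le j) h1 (((H.meas i).mono (ℱ.mono h1)).inner (H.meas j)) (b i j)
  · rw [inter_comm, ← h.pair (H.le j) (H.le i) h1 ((H.meas i).inner ((H.meas j).mono (ℱ.mono h1)))
      (b i j)]
    simp only [mul_comm (W (H.b i) _ - _)]

lemma iso_sub (h : IsFBM ℱ W P) (H K : Elem ℱ X) :
    eLpNorm (H.int W - K.int W) 2 P = eLpNorm (H.val - K.val) 2 (leb.prod P) := by
  have := iso h (H.add (K.map (-1)))
  rw [add_int, add_val, map_int, map_val] at this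
  simpa [sub_eq_add_neg, Pi.neg_def] using this

lemma close (h : IsFBM ℱ W P) {φ : ℝ≥0 → Ω → X} {Y : Ω → X} (hI : IsIto ℱ W P φ Y) (L : X →L[ℝ] ℝ)
    (hφ : AEStronglyMeasurable (Function.uncurry φ) (leb.prod P)) (K : Elem ℱ ℝ) :
    eLpNorm ((fun ω => L (Y ω)) - K.int W) 2 P ≤
      eLpNorm ((fun p => L (Function.uncurry φ p)) - K.val) 2 (leb.prod P) := by
  obtain ⟨hY, H, h1, h2⟩ := hI
  have t := ((ENNReal.Tendsto.const_mul (a := ‖L‖₊) h2 (by simp)).add
    (ENNReal.Tendsto.const_mul (a := ‖L‖₊) h1 (by simp))).add_const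
    (eLpNorm ((fun p => L (Function.uncurry φ p)) - K.val) 2 (leb.prod P))
  simp only [mul_zero, zero_add] at t
  refine ge_of_tendsto' t fun k => ?_
  have a := (((H k).map L).int_mem h).1
  have b := ((H k).map L).val_m.aestronglyMeasurable (μ := leb.prod P)
  have c := L.continuous.comp_aestronglyMeasurable hφ
  rw [← sub_add_sub_cancel _ (((H k).map L).int W), add_assoc]
  refine (eLpNorm_add_le ((L.continuous.comp_aestronglyMeasurable hY).sub a)
    (a.sub (K.int_mem h).1) one_le_two).trans (add_le_add ?_ ?_)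
  · rw [map_int]
    exact eLpNorm_le_nnreal_smul_eLpNorm_of_ae_le_mul (ae_of_all _ fun ω => by
      simpa using L.le_opNNNorm (Y ω - (H k).int W ω)) 2
  · rw [iso_sub h, ← sub_add_sub_cancel _ (fun p => L (Function.uncurry φ p))]
    refine (eLpNorm_add_le (b.sub c) (c.sub K.val_m.aestronglyMeasurable) one_le_two).trans
      (add_le_add ?_ le_rfl)
    rw [map_val, eLpNorm_sub_comm]
    exact eLpNorm_le_nnreal_smul_eLpNorm_of_ae_le_mul (ae_of_all _ fun p => by
      simpa using L.le_opNNNorm (Function.uncurry φ p - (H k).val p)) 2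

/-- Approximable by elementary processes. -/
def Ap (ℱ : Filtration ℝ≥0 m) (P : Measure Ω) (f : ℝ≥0 × Ω → X) : Prop :=
  AEStronglyMeasurable f (leb.prod P) ∧
    ∀ ε : ℝ≥0∞, 0 < ε → ∃ H : Elem ℱ X, eLpNorm (f - H.val) 2 (leb.prod P) ≤ ε

lemma exists_ito [CompleteSpace X] (h : IsFBM ℱ W P) {φ : ℝ≥0 → Ω → X}
    (hφ : Ap ℱ P (Function.uncurry φ)) : ∃ Y, IsIto ℱ W P φ Y := by
  choose H hH using fun k : ℕ => hφ.2 (2⁻¹ ^ k) (ENNReal.pow_pos (by simp) k)
  obtain ⟨Y, h1, h2⟩ := Lp.cauchy_complete_eLpNorm one_le_two (fun k => (H k).int_mem h)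
    (B := fun k => 3 * 2⁻¹ ^ k) (by
      rw [ENNReal.tsum_mul_left, ENNReal.tsum_geometric]; simp [ENNReal.mul_eq_top]) fun N i j hi hj => by
      rw [iso_sub h, ← sub_add_sub_cancel _ (Function.uncurry φ)]
      refine ((eLpNorm_add_le ((H i).val_m.aestronglyMeasurable.sub hφ.1)
        (hφ.1.sub (H j).val_m.aestronglyMeasurable) one_le_two).trans (add_le_add
        ((eLpNorm_sub_comm _ _ _ _).trans_le ((hH i).trans (pow_le_pow_right_of_le_one' (by simp) hi)))
        ((hH j).trans (pow_le_pow_right_of_le_one' (by simp) hj)))).trans_lt ?_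
      rw [← two_mul]
      exact ENNReal.mul_lt_mul_left (by simp) (by simp) (by norm_num)
  refine ⟨Y, h1.1, H, tendsto_of_tendsto_of_tendsto_of_le_of_le tendsto_const_nhds
    (ENNReal.tendsto_pow_atTop_nhds_zero_of_lt_one (by simp)) (fun _ => zero_le) hH, ?_⟩
  simpa only [eLpNorm_sub_comm Y] using h2

lemma Ap.lim {f : ℝ≥0 × Ω → X} (hf : AEStronglyMeasurable f (leb.prod P))
    (h : ∀ ε : ℝ≥0∞, 0 < ε → ∃ g, Ap ℱ P g ∧ eLpNorm (f - g) 2 (leb.prod P) ≤ ε) : Ap ℱ P f :=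
  ⟨hf, fun ε hε => by
    obtain ⟨g, h1, h2⟩ := h (ε / 2) (ENNReal.half_pos hε.ne')
    obtain ⟨H, h3⟩ := h1.2 (ε / 2) (ENNReal.half_pos hε.ne')
    refine ⟨H, ?_⟩
    rw [← sub_add_sub_cancel _ g, ← ENNReal.add_halves ε]
    exact (eLpNorm_add_le (hf.sub h1.1) (h1.1.sub H.val_m.aestronglyMeasurable) one_le_two).trans
      (add_le_add h2 h3)⟩

def Elem.zero : Elem ℱ X := ⟨Empty, nofun, nofun, nofun, nofun, nofun, nofun⟩

lemma zero_val : (Elem.zero : Elem ℱ X).val = 0 := funext fun _ => rfl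

def Elem.one {a b : ℝ≥0} (ξ : Ω → X) (h : a ≤ b) (h1 : StronglyMeasurable[ℱ a] ξ)
    (h2 : ∃ C, ∀ ω, ‖ξ ω‖ ≤ C) : Elem ℱ X :=
  ⟨Unit, fun _ => a, fun _ => b, fun _ => ξ, fun _ => h, fun _ => h1, fun _ => h2⟩

lemma one_val {a b : ℝ≥0} (ξ : Ω → X) (h : a ≤ b) (h1 : StronglyMeasurable[ℱ a] ξ)
    (h2 : ∃ C, ∀ ω, ‖ξ ω‖ ≤ C) (p : ℝ≥0 × Ω) :
    (Elem.one ξ h h1 h2).val p = (Ioc a b).indicator (fun _ => ξ p.2) p.1 :=
  Fintype.sum_unique (ι := Unit) _

lemma Ap.sum {ι : Type} (s : Finset ι) {f : ι → ℝ≥0 × Ω → X} (h : ∀ i, Ap ℱ P (f i)) :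
    Ap ℱ P (∑ i ∈ s, f i) := by
  classical
  induction s using Finset.induction_on with
  | empty => exact ⟨aestronglyMeasurable_zero, fun ε _ => ⟨Elem.zero, by simp [zero_val]⟩⟩
  | insert i s hi ih =>
    rw [Finset.sum_insert hi]
    refine ⟨(h i).1.add ih.1, fun ε hε => ?_⟩
    obtain ⟨H, h1⟩ := (h i).2 (ε / 2) (ENNReal.half_pos hε.ne')
    obtain ⟨K, h2⟩ := ih.2 (ε / 2) (ENNReal.half_pos hε.ne')
    refine ⟨H.add K, ?_⟩
    rw [add_val, add_sub_add_comm, ← ENNReal.add_halves ε]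
    exact (eLpNorm_add_le ((h i).1.sub H.val_m.aestronglyMeasurable)
      (ih.1.sub K.val_m.aestronglyMeasurable) one_le_two).trans (add_le_add h1 h2)

lemma Ap.piece [IsProbabilityMeasure P] (a b : ℝ≥0) {ζ : Ω → ℝ} (hζ : StronglyMeasurable[ℱ a] ζ)
    {C : ℝ} (hC : ∀ ω, ‖ζ ω‖ ≤ C) {F : ℝ≥0 → X} (hF : Continuous F) :
    Ap ℱ P fun p => (Ioc a b).indicator (fun s => ζ p.2 • F s) p.1 := by
  refine ⟨(((hζ.mono (ℱ.le _)).comp_measurable measurable_snd).smul
    (hF.stronglyMeasurable.comp_measurable measurable_fst)).indicator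
      (measurable_fst (measurableSet_Ioc (a := a) (b := b))) |>.aestronglyMeasurable, fun ε hε => ?_⟩
  obtain ⟨η, η0, hη⟩ : ∃ η : ℝ, 0 < η ∧ ENNReal.ofReal (|C| * η * √b) ≤ ε := by
    have : Tendsto (fun η : ℝ => ENNReal.ofReal (|C| * η * √b)) (𝓝[>] 0) (𝓝 0) := by
      simpa [Function.comp_def] using (ENNReal.continuous_ofReal.comp (by fun_prop : Continuous fun η : ℝ =>
        |C| * η * √b)).continuousWithinAt (s := Ioi 0) (x := 0) |>.tendsto
    exact (Filter.Eventually.and (f := 𝓝[>] (0 : ℝ)) self_mem_nhdsWithin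
      (this.eventually (ge_mem_nhds hε))).exists
  obtain ⟨δ, δ0, hδ⟩ := Metric.uniformContinuousOn_iff_le.1
    ((isCompact_Icc (a := 0) (b := b)).uniformContinuousOn_of_continuous hF.continuousOn) η η0
  lift δ to ℝ≥0 using δ0.le
  have k : ∀ n : ℕ, ∃ H : Elem ℱ X, ∀ p : ℝ≥0 × Ω, ‖(Ioc a (min b (a + n * δ))).indicator
      (fun s => ζ p.2 • F s) p.1 - H.val p‖ ≤
      (Ioc a (min b (a + n * δ))).indicator (fun _ => |C| * η) p.1 := fun n => by
    induction n with
    | zero => exact ⟨Elem.zero, fun p => by simp [zero_val]⟩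
    | succ n ih =>
      obtain ⟨H, hH⟩ := ih
      by_cases hb : b ≤ a + n * δ
      · refine ⟨H, ?_⟩
        rwa [min_eq_left (hb.trans (by gcongr; simp)), ← min_eq_left hb]
      have h1 : a + n * δ ≤ min b (a + (n + 1 : ℕ) * δ) := le_min (not_le.1 hb).le (by gcongr; simp)
      refine ⟨H.add (Elem.one (fun ω => ζ ω • F (a + n * δ)) h1
        ((hζ.mono (ℱ.mono le_self_add)).smul_const _)
        ⟨C * ‖F (a + n * δ)‖, fun ω => (norm_smul_le _ _).trans (by gcongr; exact hC ω)⟩),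
        fun p => ?_⟩
      have h2 := hH p
      rw [min_eq_right (not_le.1 hb).le] at h2
      rw [add_val, Pi.add_apply, one_val,
        ← Ioc_union_Ioc_eq_Ioc le_self_add h1, indicator_union_of_disjoint (Ioc_disjoint_Ioc_of_le le_rfl),
        indicator_union_of_disjoint (Ioc_disjoint_Ioc_of_le le_rfl), add_sub_add_comm]
      refine (norm_add_le _ _).trans (add_le_add h2 ?_)
      by_cases h3 : p.1 ∈ Ioc (a + n * δ) (min b (a + (n + 1 : ℕ) * δ))
      · simp only [indicator_of_mem h3, ← smul_sub, norm_smul, ← dist_eq_norm]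
        refine mul_le_mul ((hC _).trans (le_abs_self C)) (hδ _ ⟨zero_le, h3.2.trans (min_le_left _ _)⟩ _
          ⟨zero_le, (not_le.1 hb).le⟩ ?_) dist_nonneg (abs_nonneg C)
        have h4 : ((a + n * δ : ℝ≥0) : ℝ) < p.1 := h3.1
        have h5 : (p.1 : ℝ) ≤ (a + (n + 1 : ℕ) * δ : ℝ≥0) := h3.2.trans (min_le_right _ _)
        rw [NNReal.dist_eq, abs_le]
        push_cast at *
        constructor <;> linarith
      · simp only [indicator_of_notMem h3]; simp
  obtain ⟨n, hn⟩ := Archimedean.arch b (show 0 < δ from δ0)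
  obtain ⟨H, hH⟩ := k n
  rw [min_eq_left (hn.trans (by simp))] at hH
  exact ⟨H, (bound_le (by positivity) hH).trans hη⟩

end Pool.Agent.H41.SC
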