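import Pool.Agent.H41.SC1
import Pool.Agent.H41.SC2

set_option autoImplicit false

namespace Pool.Agent.H41.SC

open MeasureTheory ProbabilityTheory Filter Set
open scoped NNReal ENNReal Topology

variable {Ω : Type} {m : MeasurableSpace Ω} {ℱ : Filtration ℝ≥0 m} {W : ℝ≥0 → Ω → ℝ}
  {P : Measure Ω}

noncomputable def ta (a : ℝ≥0) (j : ℕ) : ℝ≥0 := a / (16 * 128 ^ j)

noncomputable def la (a : ℝ≥0) (j : ℕ) : ℝ := 128 ^ j / a

noncomputable def V (a : ℝ≥0) : ℕ → Finset ℝ≥0
  | 0 => {a}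
  | k + 1 => (V a k).image (· + ta a (2 * k)) ∪ (V a k).image (· + ta a (2 * k + 1))

noncomputable def jj (x : ℝ) (k : ℕ) : ℕ := 2 * k + if 0 ≤ x then 0 else 1

noncomputable def sg (W : ℝ≥0 → Ω → ℝ) (a h : ℝ≥0) (ω : Ω) : ℕ → ℝ≥0
  | 0 => a
  | k + 1 => sg W a h ω k + ta a (jj (W (sg W a h ω k + h) ω - W (sg W a h ω k) ω) k)

variable {a h : ℝ≥0} {L : ℕ}

lemma ta_succ (j : ℕ) : ta a j = 128 * ta a (j + 1) := by
  unfold ta; rw [pow_succ]; field_simp

lemma ta_anti : Antitone (ta a) := antitone_nat_of_succ_le fun j => by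
  rw [ta_succ j]; exact le_mul_of_one_le_left zero_le (by norm_num)

lemma jj_le (x : ℝ) (k : ℕ) : 2 * k ≤ jj x k ∧ jj x k ≤ 2 * k + 1 := by
  unfold jj; split_ifs <;> omega

lemma la_mono : Monotone (la a) ∧ 0 ≤ la a 0 :=
  ⟨fun i j h => by unfold la; gcongr; norm_num, by unfold la; positivity⟩

lemma sg_mem (ω : Ω) (k : ℕ) : sg W a h ω k ∈ V a k := by
  induction k with
  | zero => simp [sg, V]
  | succ k ih =>
    rw [sg, V, jj, Finset.mem_union]
    split_ifs
    · exact .inl (Finset.mem_image_of_mem _ ih)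
    · exact .inr (Finset.mem_image_of_mem _ ih)

lemma sg_mono (ω : Ω) : Monotone (sg W a h ω) := monotone_nat_of_le_succ fun _ => le_self_add

lemma sg_pot (ω : Ω) {k l : ℕ} (hk : k ≤ l) : sg W a h ω l ≤ sg W a h ω k + 2 * ta a (2 * k) := by
  refine le_self_add.trans (antitone_nat_of_succ_le
    (f := fun k => sg W a h ω k + 2 * ta a (2 * k)) (fun k => ?_) hk)
  rw [sg, add_assoc, two_mul (ta a (2 * k))]
  gcongr
  · exact ta_anti (jj_le _ _).1
  · rw [ta_succ (2 * k)]
    exact mul_le_mul' (by norm_num) (ta_anti (by omega))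

lemma sg_step (hh : h ≤ ta a (2 * L)) (ω : Ω) {k l : ℕ} (h1 : k < l) (h2 : k < L) :
    sg W a h ω k + h ≤ sg W a h ω l :=
  le_trans (add_le_add le_rfl (hh.trans (ta_anti ((jj_le _ _).2.trans (by omega)))))
    (sg_mono ω (Nat.succ_le_of_lt h1))

lemma sg_meas (hW : IsFBM ℱ W P) (k : ℕ) (hh : h ≤ ta a (2 * k)) (s : ℝ≥0) :
    MeasurableSet[ℱ s] {ω | sg W a h ω k = s} := by
  induction k generalizing s with
  | zero => exact @MeasurableSet.const _ (ℱ s) (a = s)
  | succ k ih =>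
    have : {ω | sg W a h ω (k + 1) = s} = ⋃ r ∈ V a k, {ω | sg W a h ω k = r} ∩
        (fun ω => jj (W (r + h) ω - W r ω) k) ⁻¹' {j | r + ta a j = s} := by
      ext ω
      simp only [mem_ofPred_eq, mem_iUnion, mem_inter_iff, mem_preimage, exists_prop]
      exact ⟨fun e => ⟨_, sg_mem ω k, rfl, e⟩, fun ⟨r, _, e1, e2⟩ => by rw [sg, e1, e2]⟩
    rw [this]
    refine Finset.measurableSet_biUnion _ fun r _ => ?_
    by_cases hr : r + h ≤ s
    · refine (ℱ.mono (le_self_add.trans hr) _ (ih (hh.trans (ta_anti (by omega))) r)).inter ?_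
      have j : Measurable fun x => jj x k :=
        (Measurable.ite measurableSet_Ici measurable_const measurable_const).const_add _
      exact (j.comp (hW.sm (le_self_add.trans hr) hr).measurable) MeasurableSet.of_discrete
    · convert @MeasurableSet.empty _ (ℱ s)
      refine eq_empty_of_forall_notMem fun ω e => hr ?_
      rw [← show _ = s from e.2]
      exact add_le_add le_rfl (hh.trans (ta_anti ((jj_le _ _).2.trans (by omega))))

open Classical in
noncomputable def blk (hW : IsFBM ℱ W P) (hh : h ≤ ta a (2 * L)) (c : ℝ≥0 → ℝ) : Elem ℱ ℝ where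
  ι := Fin L × {s // s ∈ (Finset.range L).biUnion (V a)}
  a i := i.2
  b i := i.2 + h
  ξ i ω := if sg W a h ω i.1 = i.2 then c i.2 else 0
  le _ := le_self_add
  meas i := StronglyMeasurable.ite (sg_meas hW _ (hh.trans (ta_anti (by omega))) _)
    stronglyMeasurable_const stronglyMeasurable_const
  bdd i := ⟨‖c i.2‖, fun ω => by split_ifs <;> simp⟩

open Classical in
lemma blk_sum (c : ℝ≥0 → ℝ) (F : ℝ≥0 → ℝ → ℝ) (hF : ∀ s, F s 0 = 0) (ω : Ω) :
    ∑ i : Fin L × {s // s ∈ (Finset.range L).biUnion (V a)},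
      F i.2 (if sg W a h ω i.1 = i.2 then c i.2 else 0) =
      ∑ k ∈ Finset.range L, F (sg W a h ω k) (c (sg W a h ω k)) := by
  rw [Fintype.sum_prod_type, ← Fin.sum_univ_eq_sum_range fun k => F (sg W a h ω k) (c (sg W a h ω k))]
  refine Finset.sum_congr rfl fun k _ => ?_
  rw [Finset.sum_eq_single ⟨sg W a h ω k, Finset.mem_biUnion.2 ⟨k, by simp, sg_mem ω k⟩⟩
    (fun s _ e => by rw [if_neg fun e' => e (Subtype.ext e'.symm), hF]) (by simp), if_pos rfl]

variable (hW : IsFBM ℱ W P) (hh : h ≤ ta a (2 * L))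

lemma blk_int (c : ℝ≥0 → ℝ) (ω : Ω) : (blk hW hh c).int W ω = ∑ k ∈ Finset.range L,
    (W (sg W a h ω k + h) ω - W (sg W a h ω k) ω) * c (sg W a h ω k) :=
  blk_sum c (fun s x => (W (s + h) ω - W s ω) * x) (by simp) ω

lemma blk_val (c : ℝ≥0 → ℝ) (p : ℝ≥0 × Ω) : (blk hW hh c).val p = ∑ k ∈ Finset.range L,
    (Ioc (sg W a h p.2 k) (sg W a h p.2 k + h)).indicator (fun _ => c (sg W a h p.2 k)) p.1 :=
  blk_sum c (fun s x => (Ioc s (s + h)).indicator (fun _ => x) p.1) (by simp) p.2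

lemma val_cases (p : ℝ≥0 × Ω) : (∀ c, (blk hW hh c).val p = 0) ∨ ∃ k < L,
    p.1 ∈ Ioc (sg W a h p.2 k) (sg W a h p.2 k + h) ∧
      ∀ c, (blk hW hh c).val p = c (sg W a h p.2 k) := by
  by_cases e : ∃ k < L, p.1 ∈ Ioc (sg W a h p.2 k) (sg W a h p.2 k + h)
  · obtain ⟨k, h1, h2⟩ := e
    refine .inr ⟨k, h1, h2, fun c => ?_⟩
    rw [blk_val, Finset.sum_eq_single_of_mem k (by simpa using h1), indicator_of_mem h2]
    refine fun l hl e => indicator_of_notMem (fun h3 => ?_) _
    rcases e.lt_or_gt with e | e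
    · exact h2.1.not_ge (h3.2.trans (sg_step hh _ e (by simpa using hl)))
    · exact h3.1.not_ge (h2.2.trans (sg_step hh _ e h1))
  · exact .inl fun c => by
      rw [blk_val]
      exact Finset.sum_eq_zero fun k hk => indicator_of_notMem (fun h3 => e ⟨k, by simpa using hk, h3⟩) _

lemma blk_norm : eLpNorm (blk hW hh 1).val 2 (leb.prod P) ≤ ENNReal.ofReal √(L * h) := by
  have := hW.prob
  refine (eLpNorm_mono (g := (Function.support (blk hW hh 1).val).indicator fun _ => (1 : ℝ))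
    fun p => ?_).trans ((eLpNorm_indicator_const_le _ _).trans ?_)
  · rcases val_cases hW hh p with e | ⟨k, -, -, e⟩ <;> simp [indicator, e]
  rw [Real.sqrt_eq_rpow, ← ENNReal.ofReal_rpow_of_nonneg (by positivity) (by norm_num), enorm_one,
    one_mul, ENNReal.toReal_ofNat]
  gcongr
  rw [Measure.prod_apply_symm (blk hW hh 1).val_m.measurableSet_support]
  refine (lintegral_mono (g := fun _ => ENNReal.ofReal (L * h)) fun ω => ?_).trans (by simp)
  refine (measure_mono (t := ⋃ k ∈ Finset.range L, Ioc (sg W a h ω k) (sg W a h ω k + h))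
    fun s hs => ?_).trans ((measure_biUnion_finset_le _ _).trans ?_)
  · rcases val_cases hW hh (s, ω) with e | ⟨k, h1, h2, -⟩
    · exact (hs (e 1)).elim
    · exact mem_biUnion (by simpa using h1) h2
  · simp [leb_Ioc, ENNReal.ofReal_mul]

lemma blk_supp {p : ℝ≥0 × Ω} (e : (blk hW hh 1).val p ≠ 0) : p.1 ≠ 0 ∧ p.1 ≤ 2 * a := by
  rcases val_cases hW hh p with e' | ⟨k, h1, h2, -⟩
  · exact (e (e' 1)).elim
  refine ⟨(zero_le.trans_lt h2.1).ne', h2.2.trans ((sg_step hh _ h1 h1).trans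
    ((sg_pot _ (Nat.zero_le _)).trans ?_))⟩
  rw [sg, two_mul a, ta]
  gcongr
  rw [mul_div_assoc', div_le_iff₀ (by positivity), mul_comm]
  gcongr
  norm_num

lemma psi {j J : ℕ} (hj : j < J) (ha : 0 < a) {t : ℝ≥0} (h1 : ta a j ≤ t) (h2 : t ≤ 2 * ta a j) :
    1 / 2 ≤ (-1) ^ j * ∑ i ∈ Finset.range J, rr (la a) t i := by
  obtain ⟨-, -, s⟩ := rr_sum (la_mono (a := a)).1 la_mono.2 t J
  have e : la a j * ta a j = 1 / 16 := by
    simp only [la, ta]; push_cast; field_simp
  have e' : la a (j + 1) = 128 * la a j := by simp only [la]; ring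
  have l0 : 0 ≤ la a j := by unfold la; positivity
  have h1' : (ta a j : ℝ) ≤ t := h1
  have h2' : (t : ℝ) ≤ 2 * ta a j := h2
  have k1 : 7 / 8 ≤ ee (la a) t j := by
    have := Real.add_one_le_exp (-(la a j * t))
    unfold ee; nlinarith
  have k2 : ee (la a) t (j + 1) ≤ 1 / 8 := by
    have := Real.add_one_le_exp (la a (j + 1) * t)
    rw [ee, Real.exp_neg, inv_le_comm₀ (Real.exp_pos _) (by norm_num)]
    rw [e'] at this ⊢
    nlinarith
  have u : |(-1 : ℝ) ^ j| = 1 := by simp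
  have k3 : (-1) ^ j * rr (la a) t j = ee (la a) t j - ee (la a) t (j + 1) := by
    rw [rr, ← mul_assoc, ← mul_pow]; simp
  have k4 := (le_abs_self _).trans_eq (abs_mul ((-1) ^ j) (rr (la a) t j))
  rw [← Finset.add_sum_erase _ _ (Finset.mem_range.2 hj)] at s ⊢
  have k5 := (neg_abs_le ((-1) ^ j * ∑ i ∈ (Finset.range J).erase j, rr (la a) t i))
  have k6 := Finset.abs_sum_le_sum_abs (rr (la a) t) ((Finset.range J).erase j)
  rw [abs_mul, u] at k5
  rw [u] at k4
  rw [mul_add]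
  linarith

lemma term (ha : 0 < a) (ω : Ω) {k : ℕ} (hk : k < L) :
    |W (sg W a h ω k + h) ω - W (sg W a h ω k) ω| / 2 ≤ (W (sg W a h ω k + h) ω - W (sg W a h ω k) ω) *
      ∑ i ∈ Finset.range (2 * L), rr (la a) (sg W a h ω L - sg W a h ω k) i := by
  set x := W (sg W a h ω k + h) ω - W (sg W a h ω k) ω with hx
  have e : sg W a h ω (k + 1) = sg W a h ω k + ta a (jj x k) := rfl
  have := psi (j := jj x k) (J := 2 * L) (t := sg W a h ω L - sg W a h ω k)
    ((jj_le x k).2.trans_lt (by omega)) ha (le_tsub_of_add_le_left (e ▸ sg_mono ω hk)) (by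
      rw [tsub_le_iff_left]
      refine (sg_pot ω (Nat.succ_le_of_lt hk)).trans ?_
      rw [e, add_assoc, two_mul (ta a (jj x k))]
      gcongr
      rw [ta_succ (jj x k)]
      exact mul_le_mul' (by norm_num) (ta_anti (by have := (jj_le x k).2; omega)))
  unfold jj at this
  split_ifs at this with h0
  · rw [abs_of_nonneg h0]
    simp only [add_zero, even_two, Even.mul_right, Even.neg_pow, one_pow, one_mul] at this
    nlinarith
  · rw [abs_of_neg (not_le.1 h0)]
    simp only [pow_succ, even_two, Even.mul_right, Even.neg_pow, one_pow, one_mul] at this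
    nlinarith

noncomputable def q0 : ℝ := (gaussianReal 0 1).real (Ioo (-1) 1)

lemma q0_lt : q0 < 1 := by
  refine lt_of_le_of_ne measureReal_le_one fun e => ?_
  have : gaussianReal 0 1 (Ioo (-1) 1)ᶜ = 0 :=
    (prob_compl_eq_zero_iff measurableSet_Ioo).2 ((ENNReal.toReal_eq_one_iff _).1 e)
  have := measure_mono_null (s := Ici 1) (fun x (hx : 1 ≤ x) h => h.2.not_ge hx)
    (gaussianReal_absolutelyContinuous' 0 one_ne_zero this)
  simp at this

include hW in
lemma small {η : ℝ≥0} (hη : 0 < η) (s : ℝ≥0) :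
    P.real {ω | |W (s + η ^ 2) ω - W s ω| < η} = q0 := by
  have l := hW.law (le_self_add : s ≤ s + η ^ 2)
  have e := gaussianReal_map_const_mul (μ := 0) (v := 1) η
  rw [mul_zero, mul_one, show NNReal.mk _ _ = s + η ^ 2 - s by ext; simp] at e
  refine (l.measureReal_eq (p := fun x => |x| < η) (measurableSet_lt (by fun_prop) (by fun_prop))).trans ?_
  rw [← e, map_measureReal_apply (by fun_prop) (measurableSet_lt (by fun_prop) (by fun_prop)), q0]
  congr 1
  ext x
  simp [abs_mul, ← abs_lt, hη]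

include hW in
lemma count {η : ℝ≥0} (hη : 0 < η) (hh : η ^ 2 ≤ ta a (2 * L)) (q : ℝ) :
    q * L * P.real {ω | q * L ≤ ∑ k ∈ Finset.range L, if |W (sg W a (η ^ 2) ω k + η ^ 2) ω -
      W (sg W a (η ^ 2) ω k) ω| < η then (1 : ℝ) else 0} ≤ q0 * L := by
  have := hW.prob
  let E := fun k => {ω | |W (sg W a (η ^ 2) ω k + η ^ 2) ω - W (sg W a (η ^ 2) ω k) ω| < η}
  have e : ∀ k, E k = ⋃ s ∈ V a k, {ω | sg W a (η ^ 2) ω k = s} ∩
      {ω | |W (s + η ^ 2) ω - W s ω| < η} := fun k => by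
    ext ω
    simp only [E, mem_ofPred_eq, mem_iUnion, mem_inter_iff, exists_prop]
    exact ⟨fun e => ⟨_, sg_mem ω k, rfl, e⟩, fun ⟨r, _, e1, e2⟩ => by rwa [e1]⟩
  have m1 : ∀ k ∈ Finset.range L, ∀ s, MeasurableSet[ℱ s] {ω | sg W a (η ^ 2) ω k = s} :=
    fun k hk => sg_meas hW k (hh.trans (ta_anti (by simp at hk; omega)))
  have mm : MeasurableSet {x : ℝ | |x| < η} := measurableSet_lt (by fun_prop) (by fun_prop)
  have i : ∀ k ∈ Finset.range L, MeasurableSet (E k) := fun k hk => by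
    rw [e]
    exact Finset.measurableSet_biUnion _ fun s _ => (ℱ.le _ _ (m1 k hk s)).inter
      (((hW.sm le_self_add le_rfl).mono (ℱ.le _)).measurable mm)
  have i' : ∀ k ∈ Finset.range L, Integrable ((E k).indicator (1 : Ω → ℝ)) P := fun k hk =>
    (integrable_const 1).indicator (i k hk)
  refine (mul_meas_ge_le_integral_of_nonneg (f := fun ω => ∑ k ∈ Finset.range L, (E k).indicator 1 ω)
    (ae_of_all _ fun ω => Finset.sum_nonneg fun k _ => indicator_nonneg (fun _ _ => zero_le_one) _)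
    (integrable_finsetSum _ i') _).trans ?_
  rw [integral_finsetSum _ i', mul_comm, ← nsmul_eq_mul, ← Finset.card_range L]
  nth_rw 1 [Finset.card_range]
  refine Finset.sum_le_card_nsmul _ _ _ fun k hk => ?_
  rw [integral_indicator_one (i k hk), e]
  refine (measureReal_biUnion_finset_le _ _).trans ?_
  have : ∀ s ∈ V a k, P.real ({ω | sg W a (η ^ 2) ω k = s} ∩ {ω | |W (s + η ^ 2) ω - W s ω| < η}) =
      P.real ((fun ω => sg W a (η ^ 2) ω k) ⁻¹' {s}) * q0 := fun s _ => by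
    rw [← small hW hη s]
    exact (congrArg ENNReal.toReal ((Indep_iff _ _ _).1 (hW.indep s _ le_self_add) _ _ (m1 k hk s)
      ⟨_, mm, rfl⟩)).trans ENNReal.toReal_mul
  rw [Finset.sum_congr rfl this, ← Finset.sum_mul,
    sum_measureReal_preimage_singleton _ fun s _ => ℱ.le _ _ (m1 k hk s)]
  exact mul_le_of_le_one_left measureReal_nonneg measureReal_le_one

end Pool.Agent.H41.SC
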