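import Pool.Agent.H41.SC3

set_option autoImplicit false

namespace Pool.Agent.H41.SC

open MeasureTheory ProbabilityTheory Filter Set
open scoped NNReal ENNReal Topology

variable {Ω : Type} {m : MeasurableSpace Ω} {ℱ : Filtration ℝ≥0 m} {W : ℝ≥0 → Ω → ℝ}
  {P : Measure Ω} {X : Type} [NormedAddCommGroup X] [InnerProductSpace ℝ X]

lemma tsum_le {α : Type} [MeasurableSpace α] {μ : Measure α} {f : ℕ → α → X} {g : α → X}
    (hf : ∀ n, AEStronglyMeasurable (f n) μ) (h : ∀ p, HasSum (f · p) (g p)) :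
    AEStronglyMeasurable g μ ∧ eLpNorm g 2 μ ≤ ∑' n, eLpNorm (f n) 2 μ := by
  have a : ∀ N, AEStronglyMeasurable (∑ n ∈ Finset.range N, f n) μ := fun N =>
    Finset.aestronglyMeasurable_sum _ fun n _ => hf n
  have b : ∀ᵐ p ∂μ, Tendsto (fun N => (∑ n ∈ Finset.range N, f n) p) atTop (𝓝 (g p)) :=
    ae_of_all _ fun p => by simpa using (h p).tendsto_sum_nat
  exact ⟨aestronglyMeasurable_of_tendsto_ae atTop a b, Lp.eLpNorm_le_of_ae_tendsto
    (.of_forall fun N => (eLpNorm_sum_le (fun n _ => hf n) one_le_two).trans (ENNReal.sum_le_tsum _)) a b⟩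

lemma Ap.tsum {f : ℕ → ℝ≥0 × Ω → X} {g : ℝ≥0 × Ω → X} (hf : ∀ n, Ap ℱ P (f n))
    (h : ∀ p, HasSum (f · p) (g p)) (hs : ∑' n, eLpNorm (f n) 2 (leb.prod P) ≠ ∞) : Ap ℱ P g :=
  Ap.lim (tsum_le (fun n => (hf n).1) h).1 fun ε hε => by
    obtain ⟨N, hN⟩ := ((ENNReal.tendsto_sum_nat_add _ hs).eventually (ge_mem_nhds hε)).exists
    exact ⟨_, Ap.sum (Finset.range N) hf, (tsum_le (f := fun n => f (n + N)) (fun n => (hf _).1)
      fun p => by simpa using (hasSum_nat_add_iff' N).2 (h p)).2.trans hN⟩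

lemma Ap.elem [IsProbabilityMeasure P] (H : Elem ℱ ℝ) {F : ℝ≥0 → X} (hF : Continuous F) (t : ℝ≥0) :
    Ap ℱ P fun p => (Iic t).indicator (fun s => H.val p • F s) p.1 := by
  choose C hC using H.bdd
  convert Ap.sum (P := P) Finset.univ fun i => Ap.piece (H.a i) (min (H.b i) t) (H.meas i) (hC i) hF using 1
  funext p
  rw [Finset.sum_apply, Elem.val]
  by_cases h : p.1 ≤ t
  · rw [indicator_of_mem (by exact h), Finset.sum_smul]
    exact Finset.sum_congr rfl fun i _ => by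
      by_cases h' : p.1 ∈ Ioc (H.a i) (H.b i)
      · rw [indicator_of_mem h', indicator_of_mem (by exact ⟨h'.1, le_min h'.2 h⟩)]
      · rw [indicator_of_notMem h', zero_smul,
          indicator_of_notMem fun e => h' ⟨e.1, e.2.trans (min_le_left _ _)⟩]
  · rw [indicator_of_notMem (by exact h)]
    exact (Finset.sum_eq_zero fun i _ => indicator_of_notMem
      (fun e => h (e.2.trans (min_le_right _ _))) _).symm

lemma cheb {f : Ω → ℝ} (hf : AEStronglyMeasurable f P) {C : ℝ} (h0 : 0 ≤ C)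
    (h : eLpNorm f 2 P ≤ ENNReal.ofReal C) : P.real {ω | 1 ≤ |f ω|} ≤ C ^ 2 := by
  have := meas_ge_le_mul_pow_eLpNorm_enorm P (p := 2) (by simp) (by simp) hf (ε := 1) (by simp) (by simp)
  simp only [inv_one, one_pow, one_mul, ENNReal.toReal_ofNat, ENNReal.rpow_ofNat,
    Real.enorm_eq_ofReal_abs, ENNReal.one_le_ofReal] at this
  exact ENNReal.toReal_le_of_le_ofReal (by positivity) (this.trans (by
    exact (pow_le_pow_left' h 2).trans_eq (ENNReal.ofReal_pow h0 2).symm))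

noncomputable def ps (a : ℝ≥0) (L : ℕ) (t : ℝ≥0) : ℝ := ∑ i ∈ Finset.range (2 * L), rr (la a) t i

lemma ps_cont (a : ℝ≥0) (L : ℕ) : Continuous (ps a L) := by
  unfold ps rr ee; fun_prop

lemma sg_le {a h : ℝ≥0} (ω : Ω) (k : ℕ) : sg W a h ω k ≤ 2 * a := by
  refine (sg_pot _ (Nat.zero_le _)).trans ?_
  rw [sg, two_mul a, ta]
  gcongr
  rw [mul_div_assoc', div_le_iff₀ (by positivity), mul_comm]
  gcongr
  norm_num

lemma bad (hW : IsFBM ℱ W P) {a η T : ℝ≥0} {L : ℕ} (hh : η ^ 2 ≤ ta a (2 * L)) (ha : 0 < a)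
    (hη : 0 < η) (hL : 0 < L) (haT : 2 * a ≤ T) (Λ : X →L[ℝ] ℝ) {φ : ℝ≥0 → ℝ≥0 → Ω → X} {u : ℝ≥0 → Ω → X}
    (hu : ∀ t ≤ T, IsIto ℱ W P (φ t) (u t))
    (hm : ∀ t, AEStronglyMeasurable (Function.uncurry (φ t)) (leb.prod P)) {c ε q : ℝ} (c0 : 0 ≤ c)
    (ε0 : 0 ≤ ε) (hq : 0 < q)
    (hφ : ∀ t p, Λ (Function.uncurry (φ t) p) = (blk hW hh 1).val p * (c * ps a L (t - p.1)))
    (hΨ : ∀ x ∈ Icc 0 T, ∀ y ∈ Icc 0 T, dist x y ≤ (η ^ 2 : ℝ≥0) → dist (ps a L x) (ps a L y) ≤ ε) :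
    P.real {ω | ∀ t ∈ V a L, t ≤ T → Λ (u t ω) < c * η * L * (1 - q) / 2 - 1} ≤
      q0 / q + (V a L).card * (c * ε * √(L * (η ^ 2 : ℝ≥0))) ^ 2 := by
  classical
  have := hW.prob
  let K := fun t => blk hW hh fun s => c * ps a L (t - s)
  refine (measureReal_mono (s₂ := {ω | q * L ≤ ∑ k ∈ Finset.range L,
    if |W (sg W a (η ^ 2) ω k + η ^ 2) ω - W (sg W a (η ^ 2) ω k) ω| < η then (1 : ℝ) else 0} ∪
    ⋃ t ∈ (V a L).filter (· ≤ T), {ω | 1 ≤ |((fun ω => Λ (u t ω)) - (K t).int W) ω|})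
    fun ω hω => ?_).trans ((measureReal_union_le _ _).trans (add_le_add ?_
      ((measureReal_biUnion_finset_le _ _).trans ((Finset.sum_le_card_nsmul _ _
        ((c * ε * √(L * (η ^ 2 : ℝ≥0))) ^ 2) fun t ht => ?_).trans ?_))))
  · refine or_iff_not_imp_left.2 fun h => mem_biUnion (x := sg W a (η ^ 2) ω L)
      (by simp [sg_mem, (sg_le _ _).trans haT]) ?_
    have h1 := hω _ (sg_mem (W := W) (h := η ^ 2) ω L) ((sg_le _ _).trans haT)
    have h2 : ∑ k ∈ Finset.range L, c * η / 2 * (1 - if |W (sg W a (η ^ 2) ω k + η ^ 2) ω -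
        W (sg W a (η ^ 2) ω k) ω| < η then (1 : ℝ) else 0) ≤ (K (sg W a (η ^ 2) ω L)).int W ω := by
      rw [blk_int]
      refine Finset.sum_le_sum fun k hk => ?_
      have := mul_le_mul_of_nonneg_left (term (W := W) (h := η ^ 2) ha ω (Finset.mem_range.1 hk)) c0
      rw [mul_left_comm _ c, ps]
      refine le_trans ?_ this
      split_ifs with e
      · simp only [sub_self, mul_zero]; positivity
      · rw [sub_zero, mul_one, mul_div_assoc]; gcongr; exact not_lt.1 e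
    rw [← Finset.mul_sum, Finset.sum_sub_distrib] at h2
    simp only [mem_ofPred_eq, not_le, Finset.sum_const, Finset.card_range, nsmul_eq_mul, mul_one,
      Pi.sub_apply] at h h2 ⊢
    refine le_abs'.2 (.inl ?_)
    have := mul_le_mul_of_nonneg_left h.le (by positivity : 0 ≤ c * η / 2)
    linarith
  · have := count hW hη hh q (a := a)
    rw [le_div_iff₀ hq]
    refine le_of_mul_le_mul_right ?_ (Nat.cast_pos.2 hL : (0 : ℝ) < L)
    linarith
  · have ht := (Finset.mem_filter.1 ht).2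
    refine cheb ((Λ.continuous.comp_aestronglyMeasurable (hu t ht).1).sub ((K t).int_mem hW).1)
      (by positivity) ((close hW (hu t ht) Λ (hm t) _).trans
      ((eLpNorm_le_mul_eLpNorm_of_ae_le_mul (c := c * ε) (g := (blk hW hh 1).val)
        (ae_of_all _ fun p => ?_) 2).trans ?_))
    · rw [Pi.sub_apply, hφ]
      rcases val_cases hW hh p with e | ⟨k, -, h2, e⟩
      · simp [K, e]
      · simp only [K, e, Pi.one_apply, one_mul, norm_one, mul_one, ← mul_sub, norm_mul,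
          Real.norm_of_nonneg c0, ← dist_eq_norm]
        gcongr
        refine hΨ _ ⟨zero_le, tsub_le_self.trans ht⟩ _ ⟨zero_le, tsub_le_self.trans ht⟩ ?_
        have h3 : (sg W a (η ^ 2) p.2 k : ℝ) < p.1 := h2.1
        have h4 : (p.1 : ℝ) ≤ sg W a (η ^ 2) p.2 k + (η ^ 2 : ℝ≥0) := h2.2
        rw [NNReal.dist_eq, NNReal.coe_sub_def, NNReal.coe_sub_def]
        refine (abs_max_sub_max_le_abs _ _ _).trans (abs_le.2 ⟨?_, ?_⟩) <;> linarith
    · exact (mul_le_mul' le_rfl (blk_norm hW hh)).trans_eq (ENNReal.ofReal_mul (by positivity)).symm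
  · rw [nsmul_eq_mul]
    gcongr
    exact Finset.filter_subset _ _

noncomputable abbrev XX := lp (fun n : ℕ => BB (2 * n + 1)) 2

noncomputable def SS (a : ℕ → ℝ≥0) (t : ℝ≥0) : XX →L[ℝ] XX :=
  lp.mapCLM 2 (fun n => SB (2 * n + 1) (la (a n)) t) (K := 18) (by norm_num)
    fun _ => SB_le la_mono.1 la_mono.2 t

lemma SS_le (a : ℕ → ℝ≥0) (t : ℝ≥0) : ‖SS a t‖ ≤ 18 := lp.norm_mapCLM_le ..

lemma SS_ap (a : ℕ → ℝ≥0) (t : ℝ≥0) (x : XX) (n : ℕ) :
    SS a t x n = SB (2 * n + 1) (la (a n)) t (x n) := rfl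

lemma SS_single (a : ℕ → ℝ≥0) (t : ℝ≥0) (n : ℕ) (v : BB (2 * n + 1)) :
    SS a t (lp.single 2 n v) = lp.single 2 n (SB (2 * n + 1) (la (a n)) t v) := by
  refine lp.ext (funext fun k => ?_)
  rw [SS_ap]
  by_cases h : k = n
  · subst h; rw [lp.single_apply_self, lp.single_apply_self]
  · rw [lp.single_apply_ne _ _ _ h, lp.single_apply_ne _ _ _ h, map_zero]

lemma SS_cont (a : ℕ → ℝ≥0) (x : XX) : Continuous fun t => SS a t x := by
  refine TendstoUniformly.continuous (p := atTop) (F := fun (s : Finset ℕ) t =>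
    SS a t (∑ i ∈ s, lp.single 2 i (x i))) (Metric.tendstoUniformly_iff.2 fun ε hε => ?_)
    (.of_forall fun s => ?_)
  · filter_upwards [Metric.tendsto_nhds.1 (lp.hasSum_single (by simp) x) (ε / 18) (by positivity)]
      with s hs t
    refine ((SS a t).dist_le_opNorm _ _).trans_lt ?_
    rw [dist_comm] at hs
    nlinarith [SS_le a t, dist_nonneg (x := x) (y := ∑ i ∈ s, lp.single 2 i (x i))]
  · simp only [map_sum, SS_single]
    exact continuous_finsetSum _ fun i _ => (lp.isometry_single i).continuous.comp (SB_cont _ _)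

lemma alg {y b δ w M s η : ℝ} (hy : y ^ 2 = b * (2 * w ^ 2)) (y0 : 0 ≤ y) (hb : 1 ≤ b) (hw : 1 ≤ w)
    (hη : 0 < η) (hM : 0 ≤ M) (h : 4 * (M + 1) * w < δ * b * s) :
    1 ≤ y ∧ y * M < δ / (y * w * η) * b ^ 2 * η * w ^ 2 * s / 2 - 1 := by
  have y1 : 1 ≤ y := by nlinarith [mul_le_mul hb (one_le_pow₀ hw (n := 2)) zero_le_one (by linarith)]
  refine ⟨y1, ?_⟩
  have : δ / (y * w * η) * b ^ 2 * η * w ^ 2 * s / 2 = δ * b ^ 2 * w * s / (2 * y) := by
    field_simp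
  rw [this, lt_sub_iff_add_lt, lt_div_iff₀ (by positivity)]
  have := mul_lt_mul_of_pos_left h (by positivity : 0 < b * w)
  nlinarith

end Pool.Agent.H41.SC
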