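import Mathlib

set_option autoImplicit false

namespace Pool.Agent.H41.SC

open MeasureTheory ProbabilityTheory Filter
open scoped NNReal Topology

variable {Ω : Type} {m : MeasurableSpace Ω}

/-- `W` is a standard real `(ℱ t)`-Brownian motion: a Brownian motion, adapted, with increments
after time `s` independent of `ℱ s`. -/
structure IsFBM (ℱ : Filtration ℝ≥0 m) (W : ℝ≥0 → Ω → ℝ) (P : Measure Ω) : Prop where
  brownian : IsBrownianReal W P
  adapted : Adapted ℱ W
  indep : ∀ s t, s ≤ t → Indep (ℱ s) (MeasurableSpace.comap (W t - W s) inferInstance) P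

/-- Lebesgue measure on the time axis `[0, ∞)`. -/
noncomputable def leb : Measure ℝ≥0 := (volume.restrict (Set.Ioi (0 : ℝ))).map Real.toNNReal

/-- Elementary processes `∑ i, 1_{(a i, b i]} ξ i` with `ξ i` bounded and `ℱ (a i)`-measurable. -/
structure Elem (ℱ : Filtration ℝ≥0 m) (X : Type) [NormedAddCommGroup X] where
  ι : Type
  [fin : Fintype ι]
  a : ι → ℝ≥0
  b : ι → ℝ≥0
  ξ : ι → Ω → X
  le : ∀ i, a i ≤ b i
  meas : ∀ i, StronglyMeasurable[ℱ (a i)] (ξ i)
  bdd : ∀ i, ∃ C, ∀ ω, ‖ξ i ω‖ ≤ C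

attribute [instance] Elem.fin

variable {ℱ : Filtration ℝ≥0 m} {X : Type} [NormedAddCommGroup X] [NormedSpace ℝ X]

/-- The value of an elementary process at time `p.1` and sample point `p.2`. -/
noncomputable def Elem.val (H : Elem ℱ X) (p : ℝ≥0 × Ω) : X :=
  ∑ i, (Set.Ioc (H.a i) (H.b i)).indicator (fun _ => H.ξ i p.2) p.1

/-- The elementary stochastic integral. -/
noncomputable def Elem.int (H : Elem ℱ X) (W : ℝ≥0 → Ω → ℝ) (ω : Ω) : X :=
  ∑ i, (W (H.b i) ω - W (H.a i) ω) • H.ξ i ω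

/-- `Y` is the Ito integral `∫₀^∞ φ dW`: the `L²(Ω)` limit of the elementary integrals of
elementary processes converging to `φ` in `L²([0,∞) × Ω)`. -/
def IsIto (ℱ : Filtration ℝ≥0 m) (W : ℝ≥0 → Ω → ℝ) (P : Measure Ω) (φ : ℝ≥0 → Ω → X)
    (Y : Ω → X) : Prop :=
  AEStronglyMeasurable Y P ∧ ∃ H : ℕ → Elem ℱ X,
    Tendsto (fun k => eLpNorm (Function.uncurry φ - (H k).val) 2 (leb.prod P)) atTop (𝓝 0) ∧
    Tendsto (fun k => eLpNorm (Y - (H k).int W) 2 P) atTop (𝓝 0)

end Pool.Agent.H41.SC
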