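import Mathlib

set_option autoImplicit false

namespace Pool.Agent.H41.SPk

open Finset

abbrev V : Type := (i : ℕ) × Fin (i + 1)

def G : SimpleGraph V where
  Adj u v := u.1 = v.1 + 1 ∨ v.1 = u.1 + 1
  symm := ⟨fun _ _ h => h.symm⟩
  loopless := ⟨fun _ h => by rcases h with h | h <;> omega⟩

def lv (N : ℕ) : Finset V := (range N).sigma fun _ => univ

lemma mem_lv {N : ℕ} {u : V} : u ∈ lv N ↔ u.1 < N := by
  simp [lv]

lemma conn : G.Connected := by
  have h : ∀ n : ℕ, ∀ j : Fin (n + 1), G.Reachable (⟨0, 0⟩ : V) ⟨n, j⟩ := by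
    intro n
    induction n with
    | zero => intro j; have : j = 0 := Fin.ext (by omega); subst this; rfl
    | succ n ih =>
      intro j
      exact (ih 0).trans (SimpleGraph.Adj.reachable (Or.inr rfl))
  refine { preconnected := fun u v => ?_, nonempty := ⟨⟨0, 0⟩⟩ }
  exact (h u.1 u.2).symm.trans (h v.1 v.2)

lemma locfin (v : V) : (G.neighborSet v).Finite := by
  refine (lv (v.1 + 2)).finite_toSet.subset fun u hu => ?_
  have : v.1 = u.1 + 1 ∨ u.1 = v.1 + 1 := hu
  simp only [Finset.mem_coe, mem_lv]; omega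

/-- the edge from level `i` to level `i+1` -/
def edg (q : (i : ℕ) × (Fin (i + 1) × Fin (i + 2))) : {p : V × V // G.Adj p.1 p.2} :=
  ⟨(⟨q.1, q.2.1⟩, ⟨q.1 + 1, q.2.2⟩), Or.inr rfl⟩

lemma edg_inj : Function.Injective edg := by
  rintro ⟨i, a, b⟩ ⟨j, c, d⟩ h
  have h1 : (⟨i, a⟩ : V) = ⟨j, c⟩ := congrArg (fun p => p.1.1) h
  have h2 : (⟨i + 1, b⟩ : V) = ⟨j + 1, d⟩ := congrArg (fun p => p.1.2) h
  have hij : i = j := congrArg Sigma.fst h1
  subst hij
  have e1 : a = c := by simpa using h1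
  have e2 : b = d := by simpa using h2
  rw [e1, e2]

lemma trans_G (f : V → ℝ) (hf : (Function.support f).Finite) (h0 : f ⟨0, 0⟩ = 1) :
    (1 : ℝ) ≤ ∑' p : {p : V × V // G.Adj p.1 p.2}, (f p.1.1 - f p.1.2) ^ 2 := by
  classical
  obtain ⟨N, hN⟩ : ∃ N : ℕ, ∀ u : V, N ≤ u.1 → f u = 0 := by
    obtain ⟨N, hN⟩ := (hf.image (fun u : V => u.1)).bddAbove
    refine ⟨N + 1, fun u hu => ?_⟩
    by_contra h
    have := hN ⟨u, h, rfl⟩
    simp at this; omega
  have hsum : Summable fun p : {p : V × V // G.Adj p.1 p.2} => (f p.1.1 - f p.1.2) ^ 2 := by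
    apply summable_of_hasFiniteSupport
    have hfin : ((fun p : {p : V × V // G.Adj p.1 p.2} => p.1) ⁻¹'
        ((lv (N + 1) ×ˢ lv (N + 1) : Finset (V × V)) : Set (V × V))).Finite :=
      Set.Finite.preimage Subtype.val_injective.injOn (Finset.finite_toSet _)
    refine hfin.subset fun p hp => ?_
    have ha : p.1.1.1 = p.1.2.1 + 1 ∨ p.1.2.1 = p.1.1.1 + 1 := p.2
    simp only [Set.mem_preimage, Finset.mem_coe, Finset.mem_product, mem_lv]
    by_contra hc
    have h1 : N ≤ p.1.1.1 := by omega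
    have h2 : N ≤ p.1.2.1 := by omega
    exact hp (by simp [hN _ h1, hN _ h2])
  set m : ℕ → ℝ := fun i => (∑ j : Fin (i + 1), f ⟨i, j⟩) / (i + 1) - 1 / (2 * ((i : ℝ) + 1))
    with hm
  have key : ∀ i : ℕ, 2 * (m i - m (i + 1)) ≤
      ∑ q : Fin (i + 1) × Fin (i + 2), (f ⟨i, q.1⟩ - f ⟨i + 1, q.2⟩) ^ 2 := by
    intro i
    set t : ℝ := 1 / (((i : ℝ) + 1) * (i + 2)) with ht
    have h1 : ∑ q : Fin (i + 1) × Fin (i + 2), (2 * t * (f ⟨i, q.1⟩ - f ⟨i + 1, q.2⟩) - t ^ 2) ≤
        ∑ q : Fin (i + 1) × Fin (i + 2), (f ⟨i, q.1⟩ - f ⟨i + 1, q.2⟩) ^ 2 :=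
      Finset.sum_le_sum fun q _ => by nlinarith [sq_nonneg (f ⟨i, q.1⟩ - f ⟨i + 1, q.2⟩ - t)]
    refine le_trans (le_of_eq ?_) h1
    rw [Finset.sum_sub_distrib, ← Finset.mul_sum, Finset.sum_sub_distrib, Fintype.sum_prod_type,
      Fintype.sum_prod_type]
    simp only [Finset.sum_const, Finset.card_univ, Fintype.card_fin, nsmul_eq_mul,
      Fintype.card_prod, ← Finset.mul_sum, hm, ht]
    push_cast
    have : (i : ℝ) + 1 ≠ 0 := by positivity
    have : (i : ℝ) + 2 ≠ 0 := by positivity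
    have : (i : ℝ) + 1 + 1 ≠ 0 := by positivity
    field_simp
    ring
  let s : Finset ((i : ℕ) × (Fin (i + 1) × Fin (i + 2))) := (range N).sigma fun _ => univ
  have h2 := hsum.sum_le_tsum (s.map ⟨edg, edg_inj⟩) (fun _ _ => sq_nonneg _)
  refine le_trans ?_ h2
  rw [Finset.sum_map, Finset.sum_sigma]
  have h3 : ∑ i ∈ range N, 2 * (m i - m (i + 1)) = 2 * (m 0 - m N) := by
    rw [← Finset.mul_sum, Finset.sum_range_sub']
  have h4 : m 0 = 1 / 2 := by
    simp only [hm]; simp [h0]; norm_num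
  have h5 : m N ≤ 0 := by
    simp only [hm]
    rw [Finset.sum_eq_zero (fun j _ => hN _ le_rfl)]
    simp; positivity
  calc (1 : ℝ) ≤ 2 * (m 0 - m N) := by linarith
    _ = ∑ i ∈ range N, 2 * (m i - m (i + 1)) := h3.symm
    _ ≤ _ := Finset.sum_le_sum fun i _ => key i

/-- kissing bound: a ball touches at most 125 balls that are at least as large. -/
lemma kiss {W : Type} (x : W → EuclideanSpace ℝ (Fin 3)) (r : W → ℝ) (hr : ∀ v, 0 < r v)
    (hd : ∀ u v, u ≠ v → r u + r v ≤ dist (x u) (x v)) (u : W) (s : Finset W)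
    (hs : ∀ v ∈ s, r u ≤ r v ∧ dist (x u) (x v) = r u + r v) : s.card ≤ 125 := by
  classical
  let c : W → EuclideanSpace ℝ (Fin 3) := fun v => (2 / (r u + r v)) • (x v - x u)
  have hn : ∀ v ∈ s, ‖x v - x u‖ = r u + r v := fun v hv => by
    rw [← (hs v hv).2, dist_comm, dist_eq_norm]
  have hc : ∀ v ∈ s, ‖c v‖ = 2 := fun v hv => by
    have := hr u; have := hr v
    simp only [c, norm_smul, hn v hv, Real.norm_eq_abs]
    rw [abs_of_pos (by positivity)]; field_simp
  have hx : ∀ v ∈ s, ‖(x v - x u) - r u • c v‖ = r v - r u := fun v hv => by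
    have := hr u; have := hr v
    have e : (x v - x u) - r u • c v = ((r v - r u) / (r u + r v)) • (x v - x u) := by
      simp only [c, smul_smul]
      have : (r v - r u) / (r u + r v) = 1 - r u * (2 / (r u + r v)) := by field_simp; ring
      rw [this, sub_smul, one_smul]
    have h1 := (hs v hv).1
    rw [e, norm_smul, hn v hv, Real.norm_eq_abs, abs_of_nonneg (by apply div_nonneg <;> linarith)]
    field_simp
  have hsep : ∀ v ∈ s, ∀ w ∈ s, v ≠ w → 1 ≤ ‖c v - c w‖ := fun v hv w hw hvw => by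
    have h1 := hd v w hvw
    rw [dist_eq_norm] at h1
    have e : x v - x w = ((x v - x u) - r u • c v) - ((x w - x u) - r u • c w) + r u • (c v - c w) := by
      rw [smul_sub]; abel
    have h2 : ‖x v - x w‖ ≤ (r v - r u) + (r w - r u) + r u * ‖c v - c w‖ := by
      rw [e]
      refine (norm_add_le _ _).trans ?_
      rw [norm_smul, Real.norm_eq_abs, abs_of_pos (hr u)]
      have := norm_sub_le ((x v - x u) - r u • c v) ((x w - x u) - r u • c w)
      rw [hx v hv, hx w hw] at this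
      linarith
    have := hr u
    nlinarith
  have hinj : Set.InjOn c s := fun v hv w hw h => by
    by_contra hne
    have := hsep v hv w hw hne
    rw [h, sub_self, norm_zero] at this; linarith
  have := Besicovitch.card_le_of_separated (s.image c)
    (by intro y hy; obtain ⟨v, hv, rfl⟩ := Finset.mem_image.1 hy; exact (hc v hv).le)
    (by
      intro y hy z hz hyz
      obtain ⟨v, hv, rfl⟩ := Finset.mem_image.1 hy
      obtain ⟨w, hw, rfl⟩ := Finset.mem_image.1 hz
      exact hsep v hv w hw (fun h => hyz (by rw [h])))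
  rw [Finset.card_image_of_injOn hinj] at this
  simpa using this

noncomputable def hh (n : ℕ) : ℝ := ∑ i ∈ range n, (1 / ((i : ℝ) + 1))

lemma hh_succ (n : ℕ) : hh (n + 1) = hh n + 1 / ((n : ℝ) + 1) := by
  simp [hh, Finset.sum_range_succ]

lemma hh_nonneg (n : ℕ) : 0 ≤ hh n := Finset.sum_nonneg fun _ _ => by positivity

noncomputable def wt (N : ℕ) (u : V) : ℝ := if u.1 < N + 1 then 4 / ((u.1 : ℝ) + 1) ^ 2 else 0

lemma wt_nonneg (N : ℕ) (u : V) : 0 ≤ wt N u := by
  unfold wt; split_ifs <;> positivity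

lemma sum_wt (N : ℕ) (T : Finset V) : ∑ u ∈ T, wt N u ≤ 4 * hh (N + 1) := by
  classical
  have h1 : ∑ u ∈ T, wt N u ≤ ∑ u ∈ lv (N + 1), wt N u := by
    rw [← Finset.sum_filter_of_ne (s := T) (p := fun u => u ∈ lv (N + 1))]
    · exact Finset.sum_le_sum_of_subset_of_nonneg (fun u hu => (Finset.mem_filter.1 hu).2)
        fun u _ _ => wt_nonneg N u
    · intro u _ h
      rw [mem_lv]; by_contra hc; exact h (by simp [wt, hc])
  refine h1.trans (le_of_eq ?_)
  rw [lv, Finset.sum_sigma, hh, Finset.mul_sum]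
  refine Finset.sum_congr rfl fun i hi => ?_
  have hi' := Finset.mem_range.1 hi
  simp only [wt, hi', if_true, Finset.sum_const, Finset.card_univ, Fintype.card_fin, nsmul_eq_mul]
  push_cast; field_simp

lemma step (N : ℕ) (u v : V) (h : G.Adj u v) :
    (hh (min u.1 N) - hh (min v.1 N)) ^ 2 ≤ wt N u := by
  have ha : u.1 = v.1 + 1 ∨ v.1 = u.1 + 1 := h
  unfold wt
  split_ifs with hu
  · rcases ha with ha | ha
    · rw [min_eq_left (by omega : u.1 ≤ N), min_eq_left (by omega : v.1 ≤ N), ha, hh_succ]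
      push_cast
      have : (0 : ℝ) ≤ v.1 := by positivity
      rw [add_sub_cancel_left, div_pow, div_le_div_iff₀ (by positivity) (by positivity)]
      nlinarith
    · by_cases hv : v.1 ≤ N
      · rw [min_eq_left (by omega : u.1 ≤ N), min_eq_left hv, ha, hh_succ]
        have : (0 : ℝ) ≤ u.1 := by positivity
        have e : hh u.1 - (hh u.1 + 1 / ((u.1 : ℝ) + 1)) = -(1 / ((u.1 : ℝ) + 1)) := by ring
        rw [e, neg_sq, div_pow, div_le_div_iff₀ (by positivity) (by positivity)]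
        nlinarith
      · rw [min_eq_right (by omega : N ≤ u.1), min_eq_right (by omega : N ≤ v.1), sub_self]
        simp; positivity
  · rw [min_eq_right (by omega : N ≤ u.1), min_eq_right (by omega : N ≤ v.1), sub_self]
    simp

lemma fib {α : Type} (s : Finset α) (π : α → V) (N : ℕ)
    (h : ∀ u, (s.filter fun p => π p = u).card ≤ 125) :
    ∑ p ∈ s, wt N (π p) ≤ 500 * hh (N + 1) := by
  classical
  rw [Finset.sum_comp (fun u => wt N u) π]
  calc _ ≤ ∑ u ∈ s.image π, 125 * wt N u := by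
        refine Finset.sum_le_sum fun u _ => ?_
        rw [nsmul_eq_mul]
        refine mul_le_mul_of_nonneg_right ?_ (wt_nonneg N u)
        exact_mod_cast h u
    _ ≤ _ := by
        rw [← Finset.mul_sum]
        have := sum_wt N (s.image π)
        linarith

lemma energy (H : G.Subgraph) (x : H.verts → EuclideanSpace ℝ (Fin 3)) (r : H.verts → ℝ)
    (hr : ∀ v, 0 < r v) (hd : ∀ u v, u ≠ v → r u + r v ≤ dist (x u) (x v))
    (ha : ∀ u v, u ≠ v → (H.coe.Adj u v ↔ dist (x u) (x v) = r u + r v)) (N : ℕ)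
    (s : Finset {p : H.verts × H.verts // H.coe.Adj p.1 p.2}) :
    ∑ p ∈ s, (hh (min p.1.1.1.1 N) - hh (min p.1.2.1.1 N)) ^ 2 ≤ 1000 * hh (N + 1) := by
  classical
  have hG : ∀ p : {p : H.verts × H.verts // H.coe.Adj p.1 p.2}, G.Adj p.1.1.1 p.1.2.1 :=
    fun p => H.adj_sub p.2
  rw [← Finset.sum_filter_add_sum_filter_not s (fun p => r p.1.1 ≤ r p.1.2)]
  have h1 : ∑ p ∈ s.filter (fun p => r p.1.1 ≤ r p.1.2),
      (hh (min p.1.1.1.1 N) - hh (min p.1.2.1.1 N)) ^ 2 ≤ 500 * hh (N + 1) := by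
    refine le_trans (Finset.sum_le_sum fun p _ => step N _ _ (hG p)) ?_
    refine fib _ (fun p : {p : H.verts × H.verts // H.coe.Adj p.1 p.2} => p.1.1.1) N fun u => ?_
    set t := (s.filter (fun p => r p.1.1 ≤ r p.1.2)).filter fun p => p.1.1.1 = u with ht
    rcases t.eq_empty_or_nonempty with h | ⟨p0, hp0⟩
    · rw [h]; simp
    · have hall : ∀ p ∈ t, p.1.1 = p0.1.1 := fun p hp =>
        Subtype.ext ((Finset.mem_filter.1 hp).2.trans (Finset.mem_filter.1 hp0).2.symm)
      have hinj : Set.InjOn (fun p : {p : H.verts × H.verts // H.coe.Adj p.1 p.2} => p.1.2) t :=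
        fun p hp q hq h => Subtype.ext (Prod.ext ((hall p hp).trans (hall q hq).symm) h)
      rw [← Finset.card_image_of_injOn hinj]
      refine kiss x r hr hd p0.1.1 _ fun v hv => ?_
      obtain ⟨p, hp, rfl⟩ := Finset.mem_image.1 hv
      rw [← hall p hp]
      exact ⟨(Finset.mem_filter.1 (Finset.mem_filter.1 hp).1).2, (ha _ _ p.2.ne).1 p.2⟩
  have h2 : ∑ p ∈ s.filter (fun p => ¬ r p.1.1 ≤ r p.1.2),
      (hh (min p.1.1.1.1 N) - hh (min p.1.2.1.1 N)) ^ 2 ≤ 500 * hh (N + 1) := by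
    refine le_trans (Finset.sum_le_sum fun p _ => ?_)
      (fib (s.filter (fun p : {p : H.verts × H.verts // H.coe.Adj p.1 p.2} => ¬ r p.1.1 ≤ r p.1.2))
        (fun p : {p : H.verts × H.verts // H.coe.Adj p.1 p.2} => p.1.2.1) N fun u => ?_)
    · have := step N _ _ (hG p).symm
      rw [← neg_sub, neg_sq]; exact this
    set t := (s.filter (fun p => ¬ r p.1.1 ≤ r p.1.2)).filter fun p => p.1.2.1 = u with ht
    rcases t.eq_empty_or_nonempty with h | ⟨p0, hp0⟩
    · rw [h]; simp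
    · have hall : ∀ p ∈ t, p.1.2 = p0.1.2 := fun p hp =>
        Subtype.ext ((Finset.mem_filter.1 hp).2.trans (Finset.mem_filter.1 hp0).2.symm)
      have hinj : Set.InjOn (fun p : {p : H.verts × H.verts // H.coe.Adj p.1 p.2} => p.1.1) t :=
        fun p hp q hq h => Subtype.ext (Prod.ext h ((hall p hp).trans (hall q hq).symm))
      rw [← Finset.card_image_of_injOn hinj]
      refine kiss x r hr hd p0.1.2 _ fun v hv => ?_
      obtain ⟨p, hp, rfl⟩ := Finset.mem_image.1 hv
      rw [← hall p hp]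
      exact ⟨(not_le.1 (Finset.mem_filter.1 (Finset.mem_filter.1 hp).1).2).le,
        (ha _ _ p.2.ne.symm).1 p.2.symm⟩
  linarith

lemma recur (H : G.Subgraph) (x : H.verts → EuclideanSpace ℝ (Fin 3)) (r : H.verts → ℝ)
    (hr : ∀ v, 0 < r v) (hd : ∀ u v, u ≠ v → r u + r v ≤ dist (x u) (x v))
    (ha : ∀ u v, u ≠ v → (H.coe.Adj u v ↔ dist (x u) (x v) = r u + r v))
    (o : H.verts) (c : ℝ) (hc : 0 < c) :
    ∃ f : H.verts → ℝ, (Function.support f).Finite ∧ f o = 1 ∧
      ∑' p : {p : H.verts × H.verts // H.coe.Adj p.1 p.2}, (f p.1.1 - f p.1.2) ^ 2 < c := by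
  set L := o.1.1 with hL
  have ht : Filter.Tendsto hh Filter.atTop Filter.atTop :=
    Real.tendsto_sum_range_one_div_nat_succ_atTop
  obtain ⟨N, hN1, hN2⟩ := ((ht.eventually_ge_atTop (hh L + (hh L + 1 + 3000 / c))).and
    (Filter.eventually_ge_atTop L)).exists
  set S := hh N - hh L with hS
  have hL0 := hh_nonneg L
  have hc' : 0 < 3000 / c := by positivity
  have hS1 : hh L + 1 ≤ S := by linarith
  have hS2 : 3000 / c ≤ S := by linarith
  have hS0 : 0 < S := by linarith
  refine ⟨fun v => (hh N - hh (min v.1.1 N)) / S, ?_, ?_, ?_⟩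
  · have hfin : ((fun v : H.verts => v.1) ⁻¹' ((lv N : Finset V) : Set V)).Finite :=
      Set.Finite.preimage Subtype.val_injective.injOn (Finset.finite_toSet _)
    refine hfin.subset fun v hv => ?_
    simp only [Set.mem_preimage, Finset.mem_coe, mem_lv]
    by_contra h
    exact hv (by simp [min_eq_right (not_lt.1 h)])
  · show (hh N - hh (min L N)) / S = 1
    rw [min_eq_left hN2, div_self hS0.ne']
  · have hb : 1000 * hh (N + 1) / S ^ 2 < c := by
      have h1 : hh (N + 1) ≤ 2 * S := by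
        rw [hh_succ]
        have : 1 / ((N : ℝ) + 1) ≤ 1 := by
          rw [div_le_one (by positivity)]; have : (0 : ℝ) ≤ N := by positivity
          linarith
        linarith
      rw [div_lt_iff₀ (by positivity)]
      rw [div_le_iff₀ hc] at hS2
      nlinarith
    refine lt_of_le_of_lt (tsum_le_of_sum_le' ?_ fun s => ?_) hb
    · have := hh_nonneg (N + 1); positivity
    · rw [le_div_iff₀ (by positivity), Finset.sum_mul]
      refine le_trans (le_of_eq (Finset.sum_congr rfl fun p _ => ?_)) (energy H x r hr hd ha N s)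
      field_simp; ring

end Pool.Agent.H41.SPk
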