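import Pool.Agent.H41.SearchDefs

set_option autoImplicit false

namespace Pool.Agent.H41.Search

open scoped ENNReal
open Finset

theorem len_succ (y : ℕ → ℝ) (i : ℕ) : len y (i + 1) = len y i + |y (i + 1) - y i| := by
  simp [len, sum_range_succ]

theorem len_nonneg (y : ℕ → ℝ) (i : ℕ) : 0 ≤ len y i := sum_nonneg fun _ _ => abs_nonneg _

theorem passes_nonneg {y : ℕ → ℝ} {h t : ℝ} (ht : t ∈ passes y h) : 0 ≤ t := by
  obtain ⟨i, -, rfl⟩ := ht
  exact add_nonneg (len_nonneg y i) (abs_nonneg _)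

theorem nthPass_le {y : ℕ → ℝ} {h : ℝ} {g : ℕ → ℝ} (hg : StrictMono g) (hp : ∀ n, g n ∈ passes y h)
    (n : ℕ) : nthPass y h n ≤ ENNReal.ofReal (g n) := by
  refine iInf₂_le (g n) ?_
  have h1 : (((range (n + 1)).image g : Finset ℝ) : Set ℝ) ⊆ passes y h ∩ Set.Iic (g n) := by
    intro t ht
    simp only [coe_image, coe_range, Set.mem_image, Set.mem_Iio] at ht
    obtain ⟨j, hj, rfl⟩ := ht
    exact ⟨hp j, hg.monotone (by omega)⟩
  have h2 := Set.encard_le_encard h1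
  rw [Set.encard_coe_eq_coe_finsetCard, card_image_of_injective _ hg.injective, card_range] at h2
  exact_mod_cast h2

theorem le_nthPass {y : ℕ → ℝ} {h : ℝ} {g : ℕ → ℝ} (hg : Monotone g)
    (hp : passes y h ⊆ Set.range g) (n : ℕ) : ENNReal.ofReal (g n) ≤ nthPass y h n := by
  refine le_iInf₂ fun t ht => ENNReal.ofReal_le_ofReal ?_
  by_contra hlt
  push Not at hlt
  have h1 : passes y h ∩ Set.Iic t ⊆ (((range n).image g : Finset ℝ) : Set ℝ) := by
    rintro s ⟨hs, hst⟩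
    obtain ⟨j, rfl⟩ := hp hs
    simp only [coe_image, coe_range, Set.mem_image, Set.mem_Iio]
    refine ⟨j, ?_, rfl⟩
    by_contra h2
    have := hg (show n ≤ j by omega)
    have hst' : g j ≤ t := hst
    linarith
  have h2 := Set.encard_le_encard h1
  rw [Set.encard_coe_eq_coe_finsetCard] at h2
  have h3 : ((range n).image g).card ≤ n := card_image_le.trans (by simp)
  have h4 : (n : ℕ∞) + 1 ≤ n := le_trans ht (h2.trans (by exact_mod_cast h3))
  have h5 : n + 1 ≤ n := by exact_mod_cast h4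
  omega

/-- an increasing sequence of passes starting at a, with weighted sum at most M -/
def Bd (p : ℝ) (y : ℕ → ℝ) (h a M : ℝ) : Prop :=
  ∃ g : ℕ → ℝ, StrictMono g ∧ (∀ n, g n ∈ passes y h) ∧ a ≤ g 0 ∧
    ∀ N, ∑ n ∈ range N, p * (1 - p) ^ n * g n ≤ M

theorem Bd.cons {p : ℝ} (hp0 : 0 ≤ p) (hp1 : p ≤ 1) {y : ℕ → ℝ} {h a M b : ℝ} (H : Bd p y h a M)
    (hb : b ∈ passes y h) (hba : b < a) : Bd p y h b (p * b + (1 - p) * M) := by
  obtain ⟨g, h1, h2, h3, h4⟩ := H
  refine ⟨fun n => Nat.casesOn n b g, strictMono_nat_of_lt_succ fun n => ?_, fun n => ?_, le_rfl,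
    fun N => ?_⟩
  · cases n with
    | zero => exact hba.trans_le h3
    | succ n => exact h1 (Nat.lt_succ_self n)
  · cases n with
    | zero => exact hb
    | succ n => exact h2 n
  · cases N with
    | zero =>
      have := h4 0
      simp only [range_zero, sum_empty] at this ⊢
      have := passes_nonneg hb
      have : 0 ≤ 1 - p := by linarith
      positivity
    | succ N =>
      rw [sum_range_succ']
      have h5 := mul_le_mul_of_nonneg_left (h4 N) (show 0 ≤ 1 - p by linarith)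
      rw [mul_sum] at h5
      have h6 : ∑ n ∈ range N, p * (1 - p) ^ (n + 1) * g n =
          ∑ n ∈ range N, (1 - p) * (p * (1 - p) ^ n * g n) := sum_congr rfl fun n _ => by ring
      show ∑ n ∈ range N, p * (1 - p) ^ (n + 1) * g n + p * (1 - p) ^ 0 * b ≤ _
      simp only [pow_zero, mul_one]
      linarith

theorem Bd.expTime_le {p : ℝ} (hp0 : 0 ≤ p) (hp1 : p ≤ 1) {y : ℕ → ℝ} {h a M : ℝ}
    (H : Bd p y h a M) : expTime p y h ≤ ENNReal.ofReal M := by
  obtain ⟨g, h1, h2, -, h4⟩ := H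
  have hw : ∀ n, 0 ≤ p * (1 - p) ^ n := fun n => mul_nonneg hp0 (pow_nonneg (by linarith) n)
  refine ENNReal.tsum_le_of_sum_range_le fun N => ?_
  calc _ ≤ ∑ n ∈ range N, ENNReal.ofReal (p * (1 - p) ^ n * g n) := by
        refine sum_le_sum fun n _ => ?_
        rw [ENNReal.ofReal_mul (hw n)]
        gcongr
        exact nthPass_le h1 h2 n
    _ = ENNReal.ofReal (∑ n ∈ range N, p * (1 - p) ^ n * g n) :=
        (ENNReal.ofReal_sum_of_nonneg fun n _ => mul_nonneg (hw n) (passes_nonneg (h2 n))).symm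
    _ ≤ _ := ENNReal.ofReal_le_ofReal (h4 N)

theorem sum_le_expTime {p : ℝ} (hp0 : 0 ≤ p) (hp1 : p ≤ 1) {y : ℕ → ℝ} {h : ℝ} {g : ℕ → ℝ}
    (hg : Monotone g) (hp : passes y h ⊆ Set.range g) (N : ℕ) :
    ENNReal.ofReal (∑ n ∈ range N, p * (1 - p) ^ n * g n) ≤ expTime p y h := by
  have hw : ∀ n, 0 ≤ p * (1 - p) ^ n := fun n => mul_nonneg hp0 (pow_nonneg (by linarith) n)
  calc _ ≤ ∑ n ∈ range N, ENNReal.ofReal (p * (1 - p) ^ n * g n) := by
        induction N with
        | zero => simp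
        | succ N ih =>
          rw [sum_range_succ, sum_range_succ]
          exact ENNReal.ofReal_add_le.trans (by gcongr)
    _ ≤ ∑ n ∈ range N, ENNReal.ofReal (p * (1 - p) ^ n) * nthPass y h n := by
        refine sum_le_sum fun n _ => ?_
        rw [ENNReal.ofReal_mul (hw n)]
        gcongr
        exact le_nthPass hg hp n
    _ ≤ _ := ENNReal.sum_le_tsum _

theorem CR_le {p C : ℝ} (hp0 : 0 ≤ p) {y : ℕ → ℝ}
    (H : ∀ h, 1 ≤ |h| → ∃ M, p * M ≤ C * |h| ∧ expTime p y h ≤ ENNReal.ofReal M) (hC : 0 ≤ C) :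
    CR p y ≤ ENNReal.ofReal C := by
  refine iSup₂_le fun h hh => ?_
  obtain ⟨M, h1, h2⟩ := H h hh
  refine ENNReal.div_le_of_le_mul ?_
  rw [← ENNReal.ofReal_mul hC]
  calc _ ≤ ENNReal.ofReal p * ENNReal.ofReal M := by gcongr
    _ = ENNReal.ofReal (p * M) := (ENNReal.ofReal_mul hp0).symm
    _ ≤ _ := ENNReal.ofReal_le_ofReal h1

theorem le_of_CR {p C : ℝ} (hp0 : 0 ≤ p) (hC : 0 ≤ C) {y : ℕ → ℝ} (H : CR p y ≤ ENNReal.ofReal C)
    {h M : ℝ} (hh : 1 ≤ |h|) (hM : ENNReal.ofReal M ≤ expTime p y h) : p * M ≤ C * |h| := by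
  have h1 : ENNReal.ofReal p * expTime p y h / ENNReal.ofReal |h| ≤ ENNReal.ofReal C :=
    le_trans (le_iSup₂_of_le (f := fun h (_ : h ∈ {h : ℝ | 1 ≤ |h|}) =>
      ENNReal.ofReal p * expTime p y h / ENNReal.ofReal |h|) h hh le_rfl) H
  rw [ENNReal.div_le_iff (by simp; intro h0; simp [h0] at hh; linarith) ENNReal.ofReal_ne_top,
    ← ENNReal.ofReal_mul hC] at h1
  have h2 : ENNReal.ofReal (p * M) ≤ ENNReal.ofReal (C * |h|) := by
    rw [ENNReal.ofReal_mul hp0]
    exact le_trans (by gcongr) h1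
  exact (ENNReal.ofReal_le_ofReal_iff (by positivity)).mp h2

theorem exists_dyadic (a d : ℝ) (ha : 0 < a) (hd : a < d) :
    ∃ k : ℕ, a * 2 ^ k < d ∧ d ≤ a * 2 ^ (k + 1) := by
  have hex : ∃ k : ℕ, d ≤ a * 2 ^ (k + 1) := by
    obtain ⟨k, hk⟩ := pow_unbounded_of_one_lt (d / a) (one_lt_two (α := ℝ))
    refine ⟨k, ?_⟩
    rw [div_lt_iff₀ ha] at hk
    have : (0 : ℝ) < 2 ^ k := by positivity
    rw [pow_succ]; nlinarith
  classical
  refine ⟨Nat.find hex, ?_, Nat.find_spec hex⟩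
  cases h : Nat.find hex with
  | zero => simpa using hd
  | succ k => exact not_le.mp (Nat.find_min hex (by omega))

end Pool.Agent.H41.Search
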