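import Pool.Agent.H41.SearchA

set_option autoImplicit false

namespace Pool.Agent.H41.Search

open scoped ENNReal
open Finset

/-- the pattern 3, 2, 4, -4, -3, -6 -/
def pat (r : ℕ) : ℝ :=
  if r = 0 then 3 else if r = 1 then 2 else if r = 2 then 4 else if r = 3 then -4 else
    if r = 4 then -3 else -6

noncomputable def u (m : ℕ) : ℝ := 2 ^ m / 4

/-- the non-monotone trajectory -/
noncomputable def X : ℕ → ℝ
  | 0 => 0
  | i + 1 => pat (i % 6) * u (i / 6)

theorem u_pos (m : ℕ) : 0 < u m := by unfold u; positivity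
theorem u_succ (m : ℕ) : u (m + 1) = 2 * u m := by unfold u; ring
theorem u_add (m j : ℕ) : u (m + j) = 2 ^ j * u m := by unfold u; ring

theorem X_eq (m r : ℕ) (hr : r < 6) : X (6 * m + r + 1) = pat r * u m := by
  rw [X, show (6 * m + r) % 6 = r by omega, show (6 * m + r) / 6 = m by omega]

theorem X1 (m : ℕ) : X (6 * m + 1) = 3 * u m := by simpa [pat] using X_eq m 0 (by omega)
theorem X2 (m : ℕ) : X (6 * m + 2) = 2 * u m := by simpa [pat] using X_eq m 1 (by omega)
theorem X3 (m : ℕ) : X (6 * m + 3) = 4 * u m := by simpa [pat] using X_eq m 2 (by omega)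
theorem X4 (m : ℕ) : X (6 * m + 4) = -4 * u m := by simpa [pat] using X_eq m 3 (by omega)
theorem X5 (m : ℕ) : X (6 * m + 5) = -3 * u m := by simpa [pat] using X_eq m 4 (by omega)
theorem X6 (m : ℕ) : X (6 * m + 6) = -6 * u m := by simpa [pat] using X_eq m 5 (by omega)
theorem X7 (m : ℕ) : X (6 * m + 7) = 6 * u m := by
  rw [show 6 * m + 7 = 6 * (m + 1) + 1 by ring, X1, u_succ]; ring
theorem X8 (m : ℕ) : X (6 * m + 8) = 4 * u m := by
  rw [show 6 * m + 8 = 6 * (m + 1) + 2 by ring, X2, u_succ]; ring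

theorem len_step (m : ℕ) (h : len X (6 * m + 1) = 27 * u m - 6) :
    len X (6 * m + 2) = 28 * u m - 6 ∧ len X (6 * m + 3) = 30 * u m - 6 ∧
    len X (6 * m + 4) = 38 * u m - 6 ∧ len X (6 * m + 5) = 39 * u m - 6 ∧
    len X (6 * m + 6) = 42 * u m - 6 ∧ len X (6 * m + 7) = 54 * u m - 6 := by
  have hu := u_pos m
  have h2 : len X (6 * m + 2) = 28 * u m - 6 := by
    rw [len_succ, h, X1, X2, abs_of_neg (by linarith)]; ring
  have h3 : len X (6 * m + 3) = 30 * u m - 6 := by
    rw [len_succ, h2, X2, X3, abs_of_pos (by linarith)]; ring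
  have h4 : len X (6 * m + 4) = 38 * u m - 6 := by
    rw [len_succ, h3, X3, X4, abs_of_neg (by linarith)]; ring
  have h5 : len X (6 * m + 5) = 39 * u m - 6 := by
    rw [len_succ, h4, X4, X5, abs_of_pos (by linarith)]; ring
  have h6 : len X (6 * m + 6) = 42 * u m - 6 := by
    rw [len_succ, h5, X5, X6, abs_of_neg (by linarith)]; ring
  have h7 : len X (6 * m + 7) = 54 * u m - 6 := by
    rw [len_succ, h6, X6, X7, abs_of_pos (by linarith)]; ring
  exact ⟨h2, h3, h4, h5, h6, h7⟩

theorem len1 (m : ℕ) : len X (6 * m + 1) = 27 * u m - 6 := by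
  induction m with
  | zero =>
    have := X1 0
    simp only [mul_zero, zero_add] at this
    simp only [len, mul_zero, zero_add, range_one, sum_singleton, this, X, u, pat]
    norm_num
  | succ m ih =>
    rw [show 6 * (m + 1) + 1 = 6 * m + 7 by ring, (len_step m ih).2.2.2.2.2, u_succ]; ring

theorem P1 (m : ℕ) (h : ℝ) (h1 : 2 * u m ≤ h) (h2 : h ≤ 3 * u m) : 30 * u m - 6 - h ∈ passes X h := by
  refine ⟨6 * m + 1, ?_, ?_⟩
  · rw [X1, X2]; exact Set.mem_uIcc_of_ge h1 h2
  · rw [len1, X1, abs_of_nonpos (by linarith)]; ring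

theorem P2 (m : ℕ) (h : ℝ) (h1 : 2 * u m ≤ h) (h2 : h ≤ 4 * u m) : 26 * u m - 6 + h ∈ passes X h := by
  refine ⟨6 * m + 2, ?_, ?_⟩
  · rw [X2, X3]; exact Set.mem_uIcc_of_le h1 h2
  · rw [(len_step m (len1 m)).1, X2, abs_of_nonneg (by linarith)]; ring

theorem P3 (m : ℕ) (h : ℝ) (h1 : -4 * u m ≤ h) (h2 : h ≤ 4 * u m) :
    34 * u m - 6 - h ∈ passes X h := by
  refine ⟨6 * m + 3, ?_, ?_⟩
  · rw [X3, X4]; exact Set.mem_uIcc_of_ge h1 h2
  · rw [(len_step m (len1 m)).2.1, X3, abs_of_nonpos (by linarith)]; ring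

theorem P4 (m : ℕ) (h : ℝ) (h1 : -4 * u m ≤ h) (h2 : h ≤ -3 * u m) :
    42 * u m - 6 + h ∈ passes X h := by
  refine ⟨6 * m + 4, ?_, ?_⟩
  · rw [X4, X5]; exact Set.mem_uIcc_of_le h1 h2
  · rw [(len_step m (len1 m)).2.2.1, X4, abs_of_nonneg (by linarith)]; ring

theorem P5 (m : ℕ) (h : ℝ) (h1 : -6 * u m ≤ h) (h2 : h ≤ -3 * u m) :
    36 * u m - 6 - h ∈ passes X h := by
  refine ⟨6 * m + 5, ?_, ?_⟩
  · rw [X5, X6]; exact Set.mem_uIcc_of_ge h1 h2
  · rw [(len_step m (len1 m)).2.2.2.1, X5, abs_of_nonpos (by linarith)]; ring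

theorem P0 (m : ℕ) (h : ℝ) (h1 : -6 * u m ≤ h) (h2 : h ≤ 6 * u m) :
    48 * u m - 6 + h ∈ passes X h := by
  refine ⟨6 * m + 6, ?_, ?_⟩
  · rw [X6, X7]; exact Set.mem_uIcc_of_le h1 h2
  · rw [(len_step m (len1 m)).2.2.2.2.1, X6, abs_of_nonneg (by linarith)]; ring

theorem tail (k : ℕ) (h : ℝ) (h1 : -4 * u k ≤ h) (h2 : h < 4 * u k) :
    Bd (1 / 2) X h (34 * u k - 6 - h) (58 * u k - h / 3) := by
  set g : ℕ → ℝ := fun n =>
    if n % 2 = 0 then 34 * u (k + n / 2) - 6 - h else 48 * u (k + n / 2) - 6 + h with hg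
  have ge : ∀ j, g (2 * j) = 34 * u (k + j) - 6 - h := fun j => by
    simp only [hg]; rw [if_pos (by omega), show 2 * j / 2 = j by omega]
  have go : ∀ j, g (2 * j + 1) = 48 * u (k + j) - 6 + h := fun j => by
    simp only [hg]; rw [if_neg (by omega), show (2 * j + 1) / 2 = j by omega]
  have hu : ∀ j, u k ≤ u (k + j) := fun j => by
    rw [u_add]
    have := u_pos k
    have : (1 : ℝ) ≤ 2 ^ j := one_le_pow₀ (by norm_num)
    nlinarith
  have huk := u_pos k
  have hmem : ∀ n, g n ∈ passes X h := by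
    intro n
    obtain ⟨j, rfl | rfl⟩ := Nat.even_or_odd' n
    · rw [ge]; exact P3 _ _ (by linarith [hu j]) (by linarith [hu j])
    · rw [go]; exact P0 _ _ (by linarith [hu j]) (by linarith [hu j])
  refine ⟨g, strictMono_nat_of_lt_succ fun n => ?_, hmem, ?_, fun N => ?_⟩
  · obtain ⟨j, rfl | rfl⟩ := Nat.even_or_odd' n
    · rw [ge, go]; linarith [hu j]
    · rw [go, show 2 * j + 1 + 1 = 2 * (j + 1) by ring, ge, ← add_assoc, u_succ]; linarith [hu j]
  · have := ge 0
    simp only [mul_zero, add_zero] at this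
    rw [this]
  · have key : ∀ m, ∑ n ∈ range (2 * m), 1 / 2 * (1 - 1 / 2) ^ n * g n ≤
        58 * u k * (1 - (1 / 2) ^ m) - h / 3 * (1 - (1 / 4) ^ m) := by
      intro m
      induction m with
      | zero => simp
      | succ m ih =>
        rw [show 2 * (m + 1) = 2 * m + 1 + 1 by ring, sum_range_succ, sum_range_succ, ge, go, u_add]
        have e1 : (1 - 1 / 2 : ℝ) ^ (2 * m) = (1 / 4) ^ m := by rw [pow_mul]; norm_num
        have e2 : (1 / 4 : ℝ) ^ m * 2 ^ m = (1 / 2) ^ m := by rw [← mul_pow]; norm_num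
        have e3 : (0 : ℝ) < (1 / 4) ^ m := by positivity
        rw [pow_succ (1 - 1 / 2 : ℝ), e1, pow_succ (1 / 2 : ℝ), pow_succ (1 / 4 : ℝ), ← e2]
        rw [← e2] at ih
        nlinarith
    have h3 : ∑ n ∈ range N, 1 / 2 * (1 - 1 / 2) ^ n * g n ≤
        ∑ n ∈ range (2 * N), 1 / 2 * (1 - 1 / 2) ^ n * g n :=
      sum_le_sum_of_subset_of_nonneg (range_mono (by omega)) fun n _ _ =>
        mul_nonneg (by positivity) (passes_nonneg (hmem n))
    have e2 : (1 / 4 : ℝ) ^ N ≤ (1 / 2) ^ N := pow_le_pow_left₀ (by norm_num) (by norm_num) N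
    have e3 : (0 : ℝ) < (1 / 4) ^ N := by positivity
    have h4 := key N
    nlinarith

theorem X_CR : CR (1 / 2) X ≤ ENNReal.ofReal (23 / 3) := by
  have a0 : (0 : ℝ) ≤ 1 / 2 := by norm_num
  have a1 : (1 / 2 : ℝ) ≤ 1 := by norm_num
  refine CR_le a0 (fun h hh => ?_) (by norm_num)
  rcases le_total 0 h with hs | hs
  · rw [abs_of_nonneg hs] at hh ⊢
    obtain ⟨k, k1, k2⟩ := exists_dyadic (1 / 2) h (by norm_num) (by linarith)
    have k1' : 2 * u k < h := by unfold u; linarith
    have k2' : h ≤ 4 * u k := by unfold u; rw [pow_succ] at k2; linarith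
    have hu := u_pos k
    rcases k2'.eq_or_lt with k3 | k3
    · have t := tail (k + 1) h (by rw [u_succ]; linarith) (by rw [u_succ]; linarith)
      rw [u_succ] at t
      have t2 := (t.cons a0 a1 (P0 k h (by linarith) (by linarith)) (by linarith)).cons a0 a1
        (P2 k h (by linarith) (by linarith)) (by linarith)
      exact ⟨_, by linarith, t2.expTime_le a0 a1⟩
    · have t := (tail k h (by linarith) k3).cons a0 a1 (P2 k h (by linarith) (by linarith))
        (by linarith)
      rcases lt_or_ge h (3 * u k) with k4 | k4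
      · cases k with
        | zero => unfold u at k4; norm_num at k4; linarith
        | succ k =>
          have t2 := (t.cons a0 a1 (P1 _ h (by linarith) (by linarith)) (by linarith)).cons a0 a1
            (P0 k h (by rw [u_succ] at *; linarith) (by rw [u_succ] at *; linarith))
            (by rw [u_succ] at *; linarith)
          refine ⟨_, ?_, t2.expTime_le a0 a1⟩
          rw [u_succ] at *; linarith
      · exact ⟨_, by linarith, t.expTime_le a0 a1⟩
  · rw [abs_of_nonpos hs] at hh ⊢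
    obtain ⟨k, k1, k2⟩ := exists_dyadic (3 / 4) (-h) (by norm_num) (by linarith)
    have k1' : 3 * u k < -h := by unfold u; linarith
    have k2' : -h ≤ 6 * u k := by unfold u; rw [pow_succ] at k2; linarith
    have hu := u_pos k
    have t := tail (k + 1) h (by rw [u_succ]; linarith) (by rw [u_succ]; linarith)
    rw [u_succ] at t
    rcases k2'.eq_or_lt with k3 | k3
    · have t2 := t.cons a0 a1 (P5 k h (by linarith) (by linarith)) (by linarith)
      exact ⟨_, by linarith, t2.expTime_le a0 a1⟩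
    · have t2 := (t.cons a0 a1 (P0 k h (by linarith) (by linarith)) (by linarith)).cons a0 a1
        (P5 k h (by linarith) (by linarith)) (by linarith)
      rcases lt_or_ge (-h) (4 * u k) with k4 | k4
      · have t3 := (t2.cons a0 a1 (P4 k h (by linarith) (by linarith)) (by linarith)).cons a0 a1
          (P3 k h (by linarith) (by linarith)) (by linarith)
        exact ⟨_, by linarith, t3.expTime_le a0 a1⟩
      · exact ⟨_, by linarith, t2.expTime_le a0 a1⟩

theorem X_traj : IsTraj X := by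
  refine ⟨rfl, ?_, fun i => ?_, fun hs => ?_⟩
  · have := X1 0
    simp only [mul_zero, zero_add] at this
    rw [this]; exact (mul_pos (by norm_num) (u_pos 0)).ne'
  · cases i with
    | zero =>
      have h1 := X1 0
      have h2 := X2 0
      simp only [mul_zero, zero_add] at h1 h2 ⊢
      rw [h1, h2, X]
      nlinarith [u_pos 0]
    | succ i =>
      obtain ⟨m, r, hr, rfl⟩ : ∃ m r, r < 6 ∧ i = 6 * m + r := ⟨i / 6, i % 6, by omega, by omega⟩
      have hu := u_pos m
      have hu2 := mul_pos hu hu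
      interval_cases r
      · rw [X1, X2, X3]; nlinarith
      · rw [X2, X3, X4]; nlinarith
      · rw [X3, X4, X5]; nlinarith
      · rw [X4, X5, X6]; nlinarith
      · rw [X5, X6, X7]; nlinarith
      · rw [X6, X7, X8]; nlinarith
  · obtain ⟨m, hm⟩ := pow_unbounded_of_one_lt (∑' i, |X (i + 1) - X i| + 6) (one_lt_two (α := ℝ))
    have h1 : len X (6 * m + 1) ≤ ∑' i, |X (i + 1) - X i| :=
      hs.sum_le_tsum _ fun _ _ => abs_nonneg _
    rw [len1, u] at h1
    have : (0 : ℝ) < 2 ^ m := by positivity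
    linarith

end Pool.Agent.H41.Search
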