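import Pool.Agent.H41.SearchB

set_option autoImplicit false

namespace Pool.Agent.H41.Search

open scoped ENNReal
open Finset

theorem no_pos_sol (U : ℕ → ℝ) (hU : ∀ i, 0 < U i)
    (h : ∀ i, 35 / 4 * U (i + 2) - 93 / 4 * U (i + 1) + 31 / 2 * U i ≤ 0) : False := by
  have key : ∀ i : ℕ, U (i + 1) / U i ≤ U 1 / U 0 - i / 250 := by
    intro i
    induction i with
    | zero => simp
    | succ i ih =>
      have h1 := hU i
      have h2 := hU (i + 1)
      have h3 := h i
      have h4 : U (i + 2) / U (i + 1) ≤ U (i + 1) / U i - 1 / 250 := by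
        rw [div_le_iff₀ h2]
        set ρ := U (i + 1) / U i with hρ
        have h5 : U (i + 1) = ρ * U i := by rw [hρ]; field_simp
        rw [h5] at h3 ⊢
        nlinarith [mul_nonneg h1.le (sq_nonneg (ρ - 133 / 100))]
      push_cast
      linarith
  obtain ⟨n, hn⟩ := exists_nat_gt (250 * (U 1 / U 0))
  have h1 := key n
  have h2 := div_pos (hU (n + 1)) (hU n)
  linarith

section
variable {y : ℕ → ℝ} {s : ℝ} {x : ℕ → ℝ}

theorem x_mono (hx : ∀ i, x i < x (i + 2)) (i n : ℕ) : x i ≤ x (i + 2 * n) := by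
  induction n with
  | zero => simp
  | succ n ih => exact ih.trans (hx _).le

theorem len_cyc (hy0 : y 0 = 0) (hs : s = 1 ∨ s = -1) (hpos : ∀ i, 0 < x i)
    (hy : ∀ i, y (i + 1) = s * (-1) ^ i * x i) (j : ℕ) :
    len y (j + 1) = 2 * ∑ i ∈ range (j + 1), x i - x j := by
  have habs : |s| = 1 := by rcases hs with rfl | rfl <;> simp
  induction j with
  | zero => simp [len, hy, hy0, abs_mul, habs, abs_of_pos (hpos 0)]; ring
  | succ j ih =>
    rw [len_succ, ih, hy, hy, sum_range_succ _ (j + 1)]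
    have : s * (-1) ^ (j + 1) * x (j + 1) - s * (-1) ^ j * x j =
        s * (-1) ^ (j + 1) * (x (j + 1) + x j) := by ring
    rw [this, abs_mul, abs_mul, habs, abs_pow, abs_of_pos (add_pos (hpos _) (hpos _))]
    simp; ring

/-- a leg that passes over h has an end on the side of h, at least as far as h -/
theorem leg_cases (hs : s = 1 ∨ s = -1) (hpos : ∀ i, 0 < x i)
    (hy : ∀ i, y (i + 1) = s * (-1) ^ i * x i) (i : ℕ) (d : ℝ) (hd : 0 < d) (j : ℕ)
    (hj : s * (-1) ^ i * d ∈ Set.uIcc (y (j + 1)) (y (j + 2))) :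
    ((i + j) % 2 = 0 ∧ d ≤ x j ∧ |s * (-1) ^ i * d - y (j + 1)| = x j - d) ∨
    ((i + j) % 2 = 1 ∧ d ≤ x (j + 1) ∧ |s * (-1) ^ i * d - y (j + 1)| = x j + d) := by
  rw [hy, hy, Set.mem_uIcc] at hj
  rw [hy]
  have h1 := hpos j
  have h2 := hpos (j + 1)
  rcases Nat.even_or_odd i with hi | hi <;> rcases Nat.even_or_odd j with hj' | hj' <;>
    rcases hs with rfl | rfl <;>
    simp only [pow_succ, hi.neg_one_pow, hj'.neg_one_pow] at hj ⊢ <;>
    obtain ⟨a, ha⟩ := hi <;> obtain ⟨b, hb⟩ := hj' <;>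
    first
      | (left; have h3 : d ≤ x j := by rcases hj with h | h <;> linarith [h.1, h.2]
         refine ⟨by omega, h3, ?_⟩
         first
          | (rw [abs_of_nonpos (by linarith)]; ring)
          | (rw [abs_of_nonneg (by linarith)]; ring))
      | (right; have h3 : d ≤ x (j + 1) := by rcases hj with h | h <;> linarith [h.1, h.2]
         refine ⟨by omega, h3, ?_⟩
         first
          | (rw [abs_of_nonpos (by linarith)]; ring)
          | (rw [abs_of_nonneg (by linarith)]; ring))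

theorem leg_zero (hy0 : y 0 = 0) (hs : s = 1 ∨ s = -1) (hpos : ∀ i, 0 < x i)
    (hy : ∀ i, y (i + 1) = s * (-1) ^ i * x i) (i : ℕ) (d : ℝ) (hd : 0 < d)
    (hj : s * (-1) ^ i * d ∈ Set.uIcc (y 0) (y 1)) : i % 2 = 0 ∧ d ≤ x 0 := by
  rw [hy0, hy, Set.mem_uIcc] at hj
  have h1 := hpos 0
  rcases Nat.even_or_odd i with hi | hi <;> rcases hs with rfl | rfl <;>
    simp only [hi.neg_one_pow, pow_zero] at hj <;> obtain ⟨a, ha⟩ := hi <;>
    first
      | exact ⟨by omega, by rcases hj with h | h <;> linarith [h.1, h.2]⟩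
      | (exfalso; rcases hj with h | h <;> linarith [h.1, h.2])

theorem abs_pt (hs : s = 1 ∨ s = -1) (i : ℕ) (d : ℝ) (hd : 0 < d) : |s * (-1) ^ i * d| = d := by
  rcases hs with rfl | rfl <;> simp [abs_mul, abs_of_pos hd]

theorem unbounded (hy0 : y 0 = 0) (hs : s = 1 ∨ s = -1) (hpos : ∀ i, 0 < x i)
    (hy : ∀ i, y (i + 1) = s * (-1) ^ i * x i) {C : ℝ} (hC : 0 ≤ C)
    (H : CR (1 / 2) y ≤ ENNReal.ofReal C) (i : ℕ) : ∃ j, (i + j) % 2 = 0 ∧ 1 ≤ x j := by
  by_contra hcon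
  push Not at hcon
  have hemp : passes y (s * (-1) ^ i * 1) = ∅ := by
    rw [Set.eq_empty_iff_forall_notMem]
    rintro t ⟨j, hj, -⟩
    cases j with
    | zero =>
      obtain ⟨h1, h2⟩ := leg_zero hy0 hs hpos hy i 1 one_pos hj
      exact absurd (hcon 0 h1) (not_lt.mpr h2)
    | succ j =>
      rcases leg_cases hs hpos hy i 1 one_pos j hj with ⟨h1, h2, -⟩ | ⟨h1, h2, -⟩
      · exact absurd (hcon j h1) (not_lt.mpr h2)
      · exact absurd (hcon (j + 1) (by omega)) (not_lt.mpr h2)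
  have h1 := sum_le_expTime (p := 1 / 2) (by norm_num) (by norm_num) (y := y)
    (h := s * (-1) ^ i * 1) (g := fun _ => 4 * C + 4) monotone_const (by rw [hemp]; simp) 1
  have h2 := le_of_CR (by norm_num) hC H (by rw [abs_pt hs i 1 one_pos]) h1
  rw [abs_pt hs i 1 one_pos] at h2
  simp at h2
  linarith

theorem partial_bound (hy0 : y 0 = 0) (hs : s = 1 ∨ s = -1) (hpos : ∀ i, 0 < x i)
    (hx : ∀ i, x i < x (i + 2)) (hy : ∀ i, y (i + 1) = s * (-1) ^ i * x i)
    (H : CR (1 / 2) y ≤ ENNReal.ofReal (77 / 10)) (i : ℕ) (hi : 1 ≤ x i) (N : ℕ) :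
    ∑ n ∈ range N, (1 / 2) ^ n * ∑ j ∈ range (i + 2 + n), x j ≤ 31 / 2 * x i := by
  set d := min (x i * (155 / 154)) (x (i + 2)) with hd
  have hd1 : x i < d := lt_min (by linarith) (hx i)
  have hd2 : d ≤ x (i + 2) := min_le_right _ _
  have hd3 : d ≤ x i * (155 / 154) := min_le_left _ _
  have hd0 : 0 < d := by linarith
  set g : ℕ → ℝ := fun n => 2 * ∑ j ∈ range (i + 2 + n), x j + (-1) ^ n * d with hg
  have hmono : Monotone g := by
    refine monotone_nat_of_le_succ fun n => ?_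
    simp only [hg]
    rw [← add_assoc, sum_range_succ]
    have h1 := hpos (i + 2 + n)
    rcases Nat.even_or_odd n with hn | hn
    · rw [pow_succ, hn.neg_one_pow]
      obtain ⟨a, rfl⟩ := hn
      have := x_mono hx (i + 2) a
      rw [two_mul] at this
      linarith
    · rw [pow_succ, hn.neg_one_pow]; linarith
  have hfar : ∀ j, (i + j) % 2 = 0 → d ≤ x j → i + 2 ≤ j := by
    intro j h1 h2
    by_contra h3
    obtain ⟨a, ha⟩ : ∃ a, i = j + 2 * a := ⟨(i - j) / 2, by omega⟩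
    have := x_mono hx j a
    rw [← ha] at this
    linarith
  have hsub : passes y (s * (-1) ^ i * d) ⊆ Set.range g := by
    rintro t ⟨j, hj, rfl⟩
    cases j with
    | zero =>
      obtain ⟨h1, h2⟩ := leg_zero hy0 hs hpos hy i d hd0 hj
      have := hfar 0 h1 h2
      omega
    | succ j =>
      rw [len_cyc hy0 hs hpos hy]
      rcases leg_cases hs hpos hy i d hd0 j hj with ⟨h1, h2, h3⟩ | ⟨h1, h2, h3⟩
      · have h4 := hfar j h1 h2
        refine ⟨j - i - 1, ?_⟩
        simp only [hg]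
        rw [h3, show i + 2 + (j - i - 1) = j + 1 by omega,
          Odd.neg_one_pow ⟨(j - i - 2) / 2, by omega⟩]
        ring
      · have h4 := hfar (j + 1) (by omega) h2
        refine ⟨j - i - 1, ?_⟩
        simp only [hg]
        rw [h3, show i + 2 + (j - i - 1) = j + 1 by omega,
          Even.neg_one_pow ⟨(j - i - 1) / 2, by omega⟩]
        ring
  have h1 := sum_le_expTime (p := 1 / 2) (by norm_num) (by norm_num) hmono hsub N
  have h2 := le_of_CR (by norm_num) (by norm_num) H (by rw [abs_pt hs i d hd0]; linarith) h1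
  rw [abs_pt hs i d hd0] at h2
  have h3 : ∑ n ∈ range N, 1 / 2 * (1 - 1 / 2) ^ n * g n =
      ∑ n ∈ range N, (1 / 2) ^ n * ∑ j ∈ range (i + 2 + n), x j + d / 3 * (1 - (-1 / 2) ^ N) := by
    clear h1 h2
    induction N with
    | zero => simp
    | succ N ih =>
      rw [sum_range_succ, ih, sum_range_succ]
      simp only [hg]
      have e : (-1 / 2 : ℝ) ^ N = (1 / 2) ^ N * (-1) ^ N := by rw [← mul_pow]; norm_num
      rw [pow_succ (-1 / 2 : ℝ), e]
      norm_num
      ring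
  have h4 : (-1 / 2 : ℝ) ^ N ≤ 1 := by
    have := abs_le.mp (show |(-1 / 2 : ℝ) ^ N| ≤ 1 by
      rw [abs_pow]; exact pow_le_one₀ (abs_nonneg _) (by norm_num [abs_div]))
    exact this.2
  rw [h3] at h2
  nlinarith

theorem cyc_lower (hY : IsCyclicMonotone y) : ENNReal.ofReal (77 / 10) ≤ CR (1 / 2) y := by
  obtain ⟨⟨hy0, -⟩, s, x, hs, hpos, hx, hy⟩ := hY
  by_contra hlt
  have H : CR (1 / 2) y ≤ ENNReal.ofReal (77 / 10) := (not_le.mp hlt).le
  obtain ⟨j0, h1, h2⟩ := unbounded hy0 hs hpos hy (by norm_num) H 0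
  obtain ⟨j1, h3, h4⟩ := unbounded hy0 hs hpos hy (by norm_num) H 1
  have hbig : ∀ i, j0 + j1 ≤ i → 1 ≤ x i := by
    intro i hi
    rcases Nat.mod_two_eq_zero_or_one i with h | h
    · obtain ⟨a, ha⟩ : ∃ a, i = j0 + 2 * a := ⟨(i - j0) / 2, by omega⟩
      rw [ha]; exact h2.trans (x_mono hx j0 a)
    · obtain ⟨a, ha⟩ : ∃ a, i = j1 + 2 * a := ⟨(i - j1) / 2, by omega⟩
      rw [ha]; exact h4.trans (x_mono hx j1 a)
  set i0 := j0 + j1
  set S : ℕ → ℝ := fun m => ∑ j ∈ range m, x j with hS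
  have hS0 : ∀ m, 0 ≤ S m := fun m => sum_nonneg fun j _ => (hpos j).le
  have hnn : ∀ m n : ℕ, 0 ≤ (1 / 2 : ℝ) ^ n * S (m + n) := fun m n =>
    mul_nonneg (by positivity) (hS0 _)
  have hsum : ∀ i, Summable fun n : ℕ => (1 / 2 : ℝ) ^ n * S (i0 + i + 2 + n) := fun i =>
    summable_of_sum_range_le (hnn _) (partial_bound hy0 hs hpos hx hy H _ (hbig _ (by omega)))
  set U : ℕ → ℝ := fun i => ∑' n : ℕ, (1 / 2 : ℝ) ^ n * S (i0 + i + 2 + n) with hU
  have hle : ∀ i, U i ≤ 31 / 2 * x (i0 + i) := fun i =>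
    (hsum i).tsum_le_of_sum_range_le (partial_bound hy0 hs hpos hx hy H _ (hbig _ (by omega)))
  have hrec : ∀ i, U i = S (i0 + i + 2) + 1 / 2 * U (i + 1) := by
    intro i
    simp only [hU]
    rw [(hsum i).tsum_eq_zero_add, ← tsum_mul_left]
    simp only [pow_zero, one_mul, add_zero]
    congr 1
    refine tsum_congr fun n => ?_
    rw [show i0 + i + 2 + (n + 1) = i0 + (i + 1) + 2 + n by ring]; ring
  have hU0 : ∀ i, 0 ≤ U i := fun i => tsum_nonneg (hnn _)
  refine no_pos_sol U (fun i => ?_) fun i => ?_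
  · rw [hrec]
    have : 0 < S (i0 + i + 2) := sum_pos (fun j _ => hpos j) ⟨0, by simp⟩
    linarith [hU0 (i + 1)]
  · have e1 := hrec i
    have e2 := hrec (i + 1)
    have e3 := hle (i + 2)
    have e4 : S (i0 + (i + 1) + 2) = S (i0 + i + 2) + x (i0 + (i + 2)) := by
      simp only [hS]
      rw [show i0 + (i + 1) + 2 = (i0 + i + 2) + 1 by ring, sum_range_succ]; rfl
    linarith

end

theorem main : CR (1 / 2) X < ⨅ Y ∈ {Y | IsCyclicMonotone Y}, CR (1 / 2) Y :=
  lt_of_le_of_lt X_CR (lt_of_lt_of_le ((ENNReal.ofReal_lt_ofReal_iff (by norm_num)).mpr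
    (show (23 / 3 : ℝ) < 77 / 10 by norm_num)) (le_iInf₂ fun _ hY => cyc_lower hY))

end Pool.Agent.H41.Search
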