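import Mathlib

set_option autoImplicit false

namespace Pool.Agent.H41.Search

open scoped ENNReal

/-- the turning points y 0 = 0, y 1, y 2, ... describe a trajectory -/
def IsTraj (y : ℕ → ℝ) : Prop :=
  y 0 = 0 ∧ y 1 ≠ 0 ∧ (∀ i, (y (i + 2) - y (i + 1)) * (y (i + 1) - y i) < 0) ∧
    ¬ Summable fun i => |y (i + 1) - y i|

/-- cyclic monotone trajectory: turning points x 0, -x 1, x 2, ... or the mirror image -/
def IsCyclicMonotone (y : ℕ → ℝ) : Prop :=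
  IsTraj y ∧ ∃ (s : ℝ) (x : ℕ → ℝ), (s = 1 ∨ s = -1) ∧ (∀ i, 0 < x i) ∧ (∀ i, x i < x (i + 2)) ∧
    ∀ i, y (i + 1) = s * (-1) ^ i * x i

/-- the time at which the searcher is at the turning point y i -/
def len (y : ℕ → ℝ) (i : ℕ) : ℝ := ∑ j ∈ Finset.range i, |y (j + 1) - y j|

/-- the set of times at which the searcher is at the point h -/
def passes (y : ℕ → ℝ) (h : ℝ) : Set ℝ :=
  {t | ∃ i, h ∈ Set.uIcc (y i) (y (i + 1)) ∧ t = len y i + |h - y i|}

/-- the time of pass number n + 1 over h (infinite if there is no such pass) -/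
noncomputable def nthPass (y : ℕ → ℝ) (h : ℝ) (n : ℕ) : ℝ≥0∞ :=
  ⨅ t ∈ {t : ℝ | (n : ℕ∞) + 1 ≤ (passes y h ∩ Set.Iic t).encard}, ENNReal.ofReal t

/-- the expected time of the first detection -/
noncomputable def expTime (p : ℝ) (y : ℕ → ℝ) (h : ℝ) : ℝ≥0∞ :=
  ∑' n : ℕ, ENNReal.ofReal (p * (1 - p) ^ n) * nthPass y h n

/-- the competitive ratio -/
noncomputable def CR (p : ℝ) (y : ℕ → ℝ) : ℝ≥0∞ :=
  ⨆ h ∈ {h : ℝ | 1 ≤ |h|}, ENNReal.ofReal p * expTime p y h / ENNReal.ofReal |h|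

end Pool.Agent.H41.Search
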