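import Pool.Agent.H41.SgDefs

set_option autoImplicit false

namespace Pool.Agent.H41.Sg

open Finset Filter Topology

/-- The reals with the group norm `√|x|`. -/
def R2 : Type := ℝ

instance : AddCommGroup R2 := inferInstanceAs (AddCommGroup ℝ)

def val (x : R2) : ℝ := x
def mk (x : ℝ) : R2 := x

theorem sqrt_abs_add (x y : ℝ) : √|x + y| ≤ √|x| + √|y| := by
  apply Real.sqrt_le_iff.2 ⟨by positivity, ?_⟩
  have h1 := Real.sq_sqrt (abs_nonneg x)
  have h2 := Real.sq_sqrt (abs_nonneg y)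
  have h3 := abs_add_le x y
  nlinarith [mul_nonneg (Real.sqrt_nonneg |x|) (Real.sqrt_nonneg |y|)]

noncomputable instance : NormedAddCommGroup R2 :=
  AddGroupNorm.toNormedAddCommGroup
    { toFun := fun x => √|val x|
      map_zero' := by change √|(0 : ℝ)| = 0; simp
      add_le' := fun x y => sqrt_abs_add (val x) (val y)
      neg' := fun x => by change √|-(val x)| = _; rw [abs_neg]
      eq_zero_of_map_eq_zero' := fun x h => by
        have : |val x| ≤ 0 := Real.sqrt_eq_zero'.1 h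
        have h2 : val x = 0 := abs_nonpos_iff.1 this
        exact h2 }

theorem norm_R2 (x : R2) : ‖x‖ = √|val x| := rfl

theorem val_add (x y : R2) : val (x + y) = val x + val y := rfl
theorem val_sub (x y : R2) : val (x - y) = val x - val y := rfl
theorem val_zero : val 0 = 0 := rfl
theorem val_mk (x : ℝ) : val (mk x) = x := rfl

theorem abs_val (x : R2) : |val x| = ‖x‖ ^ 2 := by
  rw [norm_R2, Real.sq_sqrt (abs_nonneg _)]

instance : CompleteSpace R2 := by
  apply Metric.complete_of_cauchySeq_tendsto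
  intro u hu
  have h1 : CauchySeq fun n => val (u n) := by
    rw [Metric.cauchySeq_iff] at hu ⊢
    intro ε hε
    obtain ⟨N, hN⟩ := hu (√ε) (Real.sqrt_pos.2 hε)
    refine ⟨N, fun m hm n hn => ?_⟩
    have := hN m hm n hn
    rw [dist_eq_norm, norm_R2, val_sub] at this
    rw [Real.dist_eq]
    exact (Real.sqrt_lt_sqrt_iff (abs_nonneg _)).1 this
  obtain ⟨l, hl⟩ := cauchySeq_tendsto_of_complete h1
  refine ⟨mk l, ?_⟩
  rw [tendsto_iff_norm_sub_tendsto_zero]
  have h2 : Tendsto (fun n => √|val (u n) - l|) atTop (𝓝 (√|l - l|)) :=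
    ((hl.sub_const l).abs).sqrt
  rw [sub_self, abs_zero, Real.sqrt_zero] at h2
  exact h2

/-- Atoms. -/
structure At where
  k : ℕ
  g : ℕ →₀ ℝ
  hc : g.support.card ≤ 2 ^ k
  hb : ∀ n, |g n| ≤ (k + 1) / 2 ^ k
  hs : k ≠ 0 → ∑ n ∈ g.support, g n = 0

noncomputable instance : DecidableEq At := Classical.decEq _

theorem ratio_anti {j k : ℕ} (h : j ≤ k) : ((k : ℝ) + 1) / 2 ^ k ≤ (j + 1) / 2 ^ j := by
  induction k, h using Nat.le_induction with
  | base => exact le_rfl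
  | succ k _ ih =>
    refine le_trans ?_ ih
    rw [div_le_div_iff₀ (by positivity) (by positivity), pow_succ]
    push_cast
    have : (0 : ℝ) < 2 ^ k := by positivity
    have : (0 : ℝ) ≤ k := by positivity
    nlinarith

theorem At.le_one (a : At) (n : ℕ) : |a.g n| ≤ 1 :=
  (a.hb n).trans ((ratio_anti (Nat.zero_le a.k)).trans (by simp))

abbrev Y : Type := lp (fun _ : At => R2) 1

theorem Y.summable (c : Y) : Summable fun a => ‖c a‖ := by
  simpa using (lp.memℓp c).summable (by simp)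

theorem Y.norm_eq (c : Y) : ‖c‖ = ∑' a, ‖c a‖ := by
  simpa using lp.norm_eq_tsum_rpow (by simp) c

theorem Y.abs_le (c : Y) (a : At) : |val (c a)| ≤ ‖c‖ * ‖c a‖ := by
  rw [abs_val, sq]
  exact mul_le_mul_of_nonneg_right (lp.norm_apply_le_norm (by simp) c a) (norm_nonneg _)

theorem Y.summable_mul (c : Y) (w : At → ℝ) (M : ℝ) (hw : ∀ a, |w a| ≤ M) :
    Summable fun a => val (c a) * w a := by
  refine Summable.of_norm_bounded ((Y.summable c).mul_left (‖c‖ * M)) fun a => ?_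
  rw [Real.norm_eq_abs, abs_mul]
  calc _ ≤ (‖c‖ * ‖c a‖) * M := mul_le_mul (Y.abs_le c a) (hw a) (abs_nonneg _) (by positivity)
    _ = _ := by ring

theorem Y.tsum_le (c : Y) (w : At → ℝ) (M : ℝ) (hw : ∀ a, |w a| ≤ M) :
    |∑' a, val (c a) * w a| ≤ M * ‖c‖ ^ 2 := by
  have h := tsum_of_norm_bounded (f := fun a => val (c a) * w a)
    ((Y.summable c).hasSum.mul_left (‖c‖ * M)) fun a => by
      rw [Real.norm_eq_abs, abs_mul]
      calc _ ≤ (‖c‖ * ‖c a‖) * M :=
            mul_le_mul (Y.abs_le c a) (hw a) (abs_nonneg _) (by positivity)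
        _ = _ := by ring
  rw [← Y.norm_eq, Real.norm_eq_abs] at h
  exact h.trans (le_of_eq (by ring))

/-- The synthesis map. -/
noncomputable def T : Y →+ (ℕ → ℝ) where
  toFun c n := ∑' a, val (c a) * a.g n
  map_zero' := by funext n; simp [val_zero]
  map_add' c d := by
    funext n
    simp only [lp.coeFn_add, Pi.add_apply, val_add, add_mul]
    exact (Y.summable_mul c _ 1 fun a => a.le_one n).tsum_add
      (Y.summable_mul d _ 1 fun a => a.le_one n)

theorem T_apply (c : Y) (n : ℕ) : T c n = ∑' a, val (c a) * a.g n := rfl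

theorem T_sum (c : Y) (F : Finset ℕ) (w : ℕ → ℝ) :
    ∑ n ∈ F, w n * T c n = ∑' a, val (c a) * ∑ n ∈ F, w n * a.g n := by
  simp only [T_apply, ← tsum_mul_left, Finset.mul_sum]
  rw [← Summable.tsum_finsetSum]
  · exact tsum_congr fun a => Finset.sum_congr rfl fun n _ => by ring
  · exact fun n _ => (Y.summable_mul c _ 1 fun a => a.le_one n).mul_left _

noncomputable def sm (t : ℝ) (c : Y) : Y :=
  ⟨fun a => mk (t * val (c a)), memℓp_gen (by
    have := (Y.summable c).mul_left (√|t|)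
    simpa [norm_R2, val_mk, abs_mul, Real.sqrt_mul (abs_nonneg t)] using this)⟩

theorem sm_norm (t : ℝ) (c : Y) : ‖sm t c‖ = √|t| * ‖c‖ := by
  rw [Y.norm_eq, Y.norm_eq, ← tsum_mul_left]
  refine tsum_congr fun a => ?_
  change √|t * val (c a)| = _
  rw [abs_mul, Real.sqrt_mul (abs_nonneg t), norm_R2]

theorem T_sm (t : ℝ) (c : Y) : T (sm t c) = t • T c := by
  funext n
  simp only [T_apply, Pi.smul_apply, smul_eq_mul, ← tsum_mul_left]
  exact tsum_congr fun a => by change t * val (c a) * _ = _; ring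

theorem T_single (a : At) (r : R2) : T (lp.single 1 a r) = val r • ⇑a.g := by
  funext n
  rw [T_apply, tsum_eq_single a]
  · simp
  · intro b hb
    rw [lp.single_apply_ne _ _ _ hb, val_zero, zero_mul]

/-- The space of representable sequences. -/
def XX : Submodule ℝ (ℕ → ℝ) where
  carrier := Set.range T
  add_mem' := by rintro _ _ ⟨c, rfl⟩ ⟨d, rfl⟩; exact ⟨c + d, map_add _ _ _⟩
  zero_mem' := ⟨0, map_zero _⟩
  smul_mem' := by rintro t _ ⟨c, rfl⟩; exact ⟨sm t c, T_sm t c⟩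

/-- The group norm. -/
noncomputable def D (f : XX) : ℝ := sInf {r | ∃ c : Y, T c = f.1 ∧ ‖c‖ = r}

theorem D_bdd (f : XX) : BddBelow {r | ∃ c : Y, T c = f.1 ∧ ‖c‖ = r} :=
  ⟨0, by rintro _ ⟨c, _, rfl⟩; exact norm_nonneg _⟩

theorem D_ne (f : XX) : {r | ∃ c : Y, T c = f.1 ∧ ‖c‖ = r}.Nonempty := by
  obtain ⟨c, hc⟩ := f.2
  exact ⟨_, c, hc, rfl⟩

theorem D_le {f : XX} {c : Y} (h : T c = f.1) : D f ≤ ‖c‖ := csInf_le (D_bdd f) ⟨c, h, rfl⟩

theorem le_D {f : XX} {r : ℝ} (h : ∀ c : Y, T c = f.1 → r ≤ ‖c‖) : r ≤ D f :=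
  le_csInf (D_ne f) (by rintro _ ⟨c, hc, rfl⟩; exact h c hc)

theorem D_nonneg (f : XX) : 0 ≤ D f := le_D fun _ _ => norm_nonneg _

theorem exists_lt {f : XX} {r : ℝ} (h : D f < r) : ∃ c : Y, T c = f.1 ∧ ‖c‖ < r := by
  obtain ⟨_, ⟨c, hc, rfl⟩, h2⟩ := exists_lt_of_csInf_lt (D_ne f) h
  exact ⟨c, hc, h2⟩

theorem le_mul_D {f : XX} {r M : ℝ} (hM : 0 < M) (h : ∀ c : Y, T c = f.1 → r ≤ M * ‖c‖) :
    r ≤ M * D f := by
  rw [← div_le_iff₀' hM]
  exact le_D fun c hc => (div_le_iff₀' hM).2 (h c hc)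

theorem le_mul_D_sq {f : XX} {r M : ℝ} (hM : 0 < M)
    (h : ∀ c : Y, T c = f.1 → r ≤ M * ‖c‖ ^ 2) : r ≤ M * D f ^ 2 := by
  rw [← div_le_iff₀' hM]
  have : √(r / M) ≤ D f := le_D fun c hc =>
    Real.sqrt_le_iff.2 ⟨norm_nonneg _, (div_le_iff₀' hM).2 (h c hc)⟩
  exact (Real.sqrt_le_iff.1 this).2

theorem D_add (f g : XX) : D (f + g) ≤ D f + D g := by
  have : D (f + g) - D f ≤ D g := le_D fun d hd => by
    have : D (f + g) - ‖d‖ ≤ D f := le_D fun c hc => by
      have := (D_le (f := f + g) (c := c + d) (by rw [map_add, hc, hd]; rfl)).trans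
        (norm_add_le c d)
      linarith
    linarith
  linarith

theorem D_zero : D 0 = 0 :=
  le_antisymm ((D_le (c := 0) (by simp)).trans (by simp)) (D_nonneg _)

theorem D_smul_le (t : ℝ) (f : XX) : D (t • f) ≤ √|t| * D f := by
  rcases eq_or_ne t 0 with rfl | ht
  · simp [D_zero]
  · refine le_mul_D (Real.sqrt_pos.2 (abs_pos.2 ht)) fun c hc => ?_
    rw [← sm_norm]
    exact D_le (by rw [T_sm, hc]; rfl)

theorem D_smul (t : ℝ) (f : XX) : D (t • f) = √|t| * D f := by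
  refine le_antisymm (D_smul_le t f) ?_
  rcases eq_or_ne t 0 with rfl | ht
  · simp [D_zero]
  · have h := D_smul_le t⁻¹ (t • f)
    rw [smul_smul, inv_mul_cancel₀ ht, one_smul, abs_inv, Real.sqrt_inv] at h
    have h0 : 0 < √|t| := Real.sqrt_pos.2 (abs_pos.2 ht)
    rwa [← div_eq_inv_mul, le_div_iff₀' h0] at h

theorem D_neg (f : XX) : D (-f) = D f := by
  have := D_smul (-1) f
  have e : (-1 : ℝ) • f = -f := Subtype.ext (by simp)
  rw [e] at this
  simpa using this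

theorem D_sub (f g : XX) : D (f - g) ≤ D f + D g := by
  rw [sub_eq_add_neg, ← D_neg g]; exact D_add _ _

theorem D_sum {ι : Type} (s : Finset ι) (f : ι → XX) : D (∑ i ∈ s, f i) ≤ ∑ i ∈ s, D (f i) :=
  Finset.le_sum_of_subadditive D D_zero.le D_add s f

theorem coord_le (f : XX) (n : ℕ) : |f.1 n| ≤ D f ^ 2 := by
  have := le_mul_D_sq (f := f) (r := |f.1 n|) one_pos fun c hc => by
    rw [← hc, T_apply]; exact Y.tsum_le c _ 1 fun a => a.le_one n
  simpa using this

/-- An atom as an element of the space. -/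
noncomputable def atom (a : At) : XX :=
  ⟨a.g, lp.single 1 a (mk 1), by rw [T_single, val_mk, one_smul]⟩

theorem atom_val (a : At) : (atom a).1 = a.g := rfl

theorem D_atom (a : At) : D (atom a) ≤ 1 := by
  refine (D_le (c := lp.single 1 a (mk 1)) (by rw [T_single, val_mk, one_smul]; rfl)).trans ?_
  rw [lp.norm_single (by simp), norm_R2, val_mk]; simp

theorem complete : Cg.NComplete fun f : XX => D f ^ 2 := by
  intro u hu
  have h1 : ∀ k : ℕ, ∃ n₀, ∀ i ≥ n₀, ∀ j ≥ n₀, D (u i - u j) < (1 / 2) ^ k := by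
    intro k
    obtain ⟨n₀, h⟩ := hu (((1 / 2) ^ k) ^ 2) (by positivity)
    exact ⟨n₀, fun i hi j hj => lt_of_pow_lt_pow_left₀ 2 (by positivity) (h i hi j hj)⟩
  choose ν hν using h1
  let μ : ℕ → ℕ := fun k => (range (k + 1)).sup ν
  have hμ : ∀ k l, k ≤ l → ν k ≤ μ l := fun k l h =>
    Finset.le_sup (f := ν) (Finset.mem_range.2 (by omega))
  have h2 : ∀ k, ∃ c : Y, T c = (u (μ (k + 1)) - u (μ k)).1 ∧ ‖c‖ < (1 / 2) ^ k := fun k =>
    exists_lt (hν k _ (hμ k _ (by omega)) _ (hμ k _ le_rfl))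
  choose c hc hcn using h2
  have hs : Summable c :=
    Summable.of_norm_bounded summable_geometric_two fun k => (hcn k).le
  have hT : ∀ k, T (∑ i ∈ range k, c i) = (u (μ k) - u (μ 0)).1 := by
    intro k
    induction k with
    | zero => simp
    | succ k ih => rw [Finset.sum_range_succ, map_add, ih, hc]; simp
  refine ⟨u (μ 0) + ⟨T (∑' i, c i), _, rfl⟩, fun ε hε => ?_⟩
  have h3 : Tendsto (fun k => (1 / 2 : ℝ) ^ k + ‖∑ i ∈ range k, c i - ∑' i, c i‖) atTop
      (𝓝 (0 + 0)) :=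
    (tendsto_pow_atTop_nhds_zero_of_lt_one (by norm_num) (by norm_num)).add
      (tendsto_iff_norm_sub_tendsto_zero.1 hs.hasSum.tendsto_sum_nat)
  obtain ⟨k, hk⟩ := (h3.eventually (gt_mem_nhds
    (show (0 : ℝ) + 0 < √ε by simpa using Real.sqrt_pos.2 hε))).exists
  refine ⟨ν k, fun i hi => ?_⟩
  have h4 := hν k i hi _ (hμ k k le_rfl)
  have h5 : D (u (μ k) - (u (μ 0) + ⟨T (∑' i, c i), _, rfl⟩)) ≤
      ‖∑ i ∈ range k, c i - ∑' i, c i‖ := D_le (by rw [map_sub, hT]; simp [sub_sub])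
  have h6 := D_add (u i - u (μ k)) (u (μ k) - (u (μ 0) + ⟨T (∑' i, c i), _, rfl⟩))
  rw [sub_add_sub_cancel] at h6
  exact (Real.lt_sqrt (D_nonneg _)).1 (by linarith)

end Pool.Agent.H41.Sg
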