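import Pool.Agent.H41.Sg1

set_option autoImplicit false

namespace Pool.Agent.H41.Sg

open Finset Filter Topology

theorem At.sum_le (a : At) (F : Finset ℕ) :
    ∑ n ∈ F, |a.g n| ≤ (min F.card (2 ^ a.k) : ℕ) * ((a.k + 1) / 2 ^ a.k) := by
  have : ∑ n ∈ F, |a.g n| = ∑ n ∈ F ∩ a.g.support, |a.g n| := by
    symm
    apply Finset.sum_subset Finset.inter_subset_left
    intro n hn hn'
    have : n ∉ a.g.support := fun h => hn' (Finset.mem_inter.2 ⟨hn, h⟩)
    simp [Finsupp.notMem_support_iff.1 this]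
  rw [this]
  refine (Finset.sum_le_card_nsmul _ _ _ fun n _ => a.hb n).trans ?_
  rw [nsmul_eq_mul]
  gcongr
  exact le_min (Finset.card_le_card Finset.inter_subset_left)
    ((Finset.card_le_card Finset.inter_subset_right).trans a.hc)

theorem At.sum_le1 (a : At) (F : Finset ℕ) : ∑ n ∈ F, |a.g n| ≤ a.k + 1 := by
  refine (a.sum_le F).trans ?_
  have : ((min F.card (2 ^ a.k) : ℕ) : ℝ) ≤ 2 ^ a.k := by exact_mod_cast min_le_right _ _
  calc _ ≤ (2 : ℝ) ^ a.k * ((a.k + 1) / 2 ^ a.k) := by gcongr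
    _ = _ := by field_simp

theorem At.sum_le2 (a : At) (F : Finset ℕ) :
    ∑ n ∈ F, |a.g n| ≤ F.card * ((a.k + 1) / 2 ^ a.k) := by
  refine (a.sum_le F).trans ?_
  gcongr
  exact min_le_left _ _

theorem At.sum_le3 (a : At) (F : Finset ℕ) (j : ℕ) (hF : F.card ≤ 2 ^ j) :
    ∑ n ∈ F, |a.g n| ≤ j + 1 := by
  rcases le_total a.k j with h | h
  · refine (a.sum_le1 F).trans ?_
    have : (a.k : ℝ) ≤ j := by exact_mod_cast h
    linarith
  · have h1 : (F.card : ℝ) ≤ 2 ^ j := by exact_mod_cast hF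
    calc _ ≤ F.card * ((a.k + 1) / 2 ^ a.k : ℝ) := a.sum_le2 F
      _ ≤ 2 ^ j * ((j + 1) / 2 ^ j : ℝ) :=
          mul_le_mul h1 (ratio_anti h) (by positivity) (by positivity)
      _ = _ := by field_simp

/-- Marcinkiewicz-type lower bound. -/
theorem sum_abs_le (f : XX) (F : Finset ℕ) (j : ℕ) (hF : F.card ≤ 2 ^ j) :
    ∑ n ∈ F, |f.1 n| ≤ (j + 1) * D f ^ 2 := by
  refine le_mul_D_sq (by positivity) fun c hc => ?_
  have e : ∑ n ∈ F, |f.1 n| = ∑ n ∈ F, (if 0 ≤ f.1 n then 1 else -1) * T c n := by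
    refine Finset.sum_congr rfl fun n _ => ?_
    rw [hc]
    split_ifs with h
    · rw [abs_of_nonneg h, one_mul]
    · rw [abs_of_neg (not_le.1 h)]; ring
  rw [e, T_sum]
  refine (le_abs_self _).trans (Y.tsum_le c _ _ fun a => ?_)
  refine (Finset.abs_sum_le_sum_abs _ _).trans (le_trans (le_of_eq ?_) (a.sum_le3 F j hF))
  refine Finset.sum_congr rfl fun n _ => ?_
  rw [abs_mul]; split_ifs <;> simp

noncomputable def ww (j : ℕ) : ℝ := (j + 1) / 2 ^ j

theorem ww_nonneg (j : ℕ) : 0 ≤ ww j := by unfold ww; positivity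

theorem ww_le (j : ℕ) : ww j ≤ 1 := (ratio_anti (Nat.zero_le j)).trans (by simp)

theorem ww_range (n : ℕ) : ∑ j ∈ range n, ww j = 4 - (2 * n + 4) / 2 ^ n := by
  induction n with
  | zero => simp
  | succ n ih => rw [Finset.sum_range_succ, ih, ww]; push_cast; field_simp; ring

theorem ww_sum (s : Finset ℕ) : ∑ j ∈ s, ww j ≤ 4 := by
  calc _ ≤ ∑ j ∈ range (s.sup id + 1), ww j :=
        Finset.sum_le_sum_of_subset_of_nonneg (fun k hk => Finset.mem_range.2
          (Nat.lt_succ_of_le (Finset.le_sup (f := id) hk))) fun j _ _ => ww_nonneg j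
    _ ≤ 4 := by rw [ww_range]; apply sub_le_self; positivity

theorem ww_dist (s : Finset ℕ) (k : ℕ) : ∑ K ∈ s, ww (K - k + (k - K)) ≤ 8 := by
  rw [← Finset.sum_filter_add_sum_filter_not s (fun K => K ≤ k)]
  have h1 := ww_sum ((s.filter fun K => K ≤ k).image fun K => K - k + (k - K))
  have h2 := ww_sum ((s.filter fun K => ¬K ≤ k).image fun K => K - k + (k - K))
  rw [Finset.sum_image] at h1 h2
  · linarith
  · intro x hx y hy h
    simp only [Finset.coe_filter, Set.mem_ofPred_eq] at hx hy h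
    omega
  · intro x hx y hy h
    simp only [Finset.coe_filter, Set.mem_ofPred_eq] at hx hy h
    omega

theorem one_scale (c : Y) (E : Finset ℕ) (hc : ∀ n, T c n = if n ∈ E then 1 else 0) (K : ℕ)
    (hK : E.card ≤ 2 ^ K) : (E.card : ℝ) ≤ ‖c‖ ^ 2 +
      2 * ‖c‖ * (K + 1) * ∑' a, ‖c a‖ * ww (K - a.k + (a.k - K)) := by
  have hsw : Summable fun a => ‖c a‖ * ww (K - a.k + (a.k - K)) :=
    (Y.summable c).of_nonneg_of_le (fun a => mul_nonneg (norm_nonneg _) (ww_nonneg _))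
      fun a => mul_le_of_le_one_right (norm_nonneg _) (ww_le _)
  rcases (norm_nonneg c).eq_or_lt with h0 | hΓ
  · have : c = 0 := norm_eq_zero.1 h0.symm
    subst this
    have : E = ∅ := Finset.eq_empty_of_forall_notMem fun n hn => by
      have := hc n
      simp [hn] at this
    simp [this]
  have hfin : {a : At | a.k ≤ K ∧ ‖c‖ / 2 ^ (K - a.k) < ‖c a‖}.Finite := by
    have h1 := (Y.summable c).tendsto_cofinite_zero.eventually
      (gt_mem_nhds (show (0 : ℝ) < ‖c‖ / 2 ^ K by positivity))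
    refine (Filter.eventually_cofinite.1 h1).subset fun a ha => ?_
    have : ‖c‖ / 2 ^ K ≤ ‖c‖ / 2 ^ (K - a.k) := by
      gcongr
      · norm_num
      · omega
    simp only [Set.mem_ofPred_eq, not_lt]
    linarith [ha.2]
  set G := hfin.toFinset with hG
  have hGm : ∀ a, a ∈ G ↔ a.k ≤ K ∧ ‖c‖ / 2 ^ (K - a.k) < ‖c a‖ := fun a => by simp [hG]
  set F := E ∪ G.biUnion fun a => a.g.support with hF
  have hFc : (F.card : ℝ) ≤ 2 * 2 ^ K := by
    have h1 : F.card ≤ E.card + ∑ a ∈ G, 2 ^ a.k :=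
      (Finset.card_union_le _ _).trans (Nat.add_le_add_left
        (Finset.card_biUnion_le.trans (Finset.sum_le_sum fun a _ => a.hc)) _)
    have h2 : ∑ a ∈ G, (2 : ℝ) ^ a.k ≤ ∑ a ∈ G, 2 ^ K / ‖c‖ * ‖c a‖ := by
      refine Finset.sum_le_sum fun a ha => ?_
      obtain ⟨e1, e2⟩ := (hGm a).1 ha
      have e3 : (2 : ℝ) ^ K = 2 ^ a.k * 2 ^ (K - a.k) := by rw [← pow_add]; congr 1; omega
      calc (2 : ℝ) ^ a.k = 2 ^ K / ‖c‖ * (‖c‖ / 2 ^ (K - a.k)) := by rw [e3]; field_simp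
        _ ≤ _ := by gcongr
    have h3 : ∑ a ∈ G, ‖c a‖ ≤ ‖c‖ := by
      rw [Y.norm_eq]; exact (Y.summable c).sum_le_tsum _ fun a _ => norm_nonneg _
    rw [← Finset.mul_sum] at h2
    have h4 : 2 ^ K / ‖c‖ * ∑ a ∈ G, ‖c a‖ ≤ 2 ^ K := by
      calc _ ≤ 2 ^ K / ‖c‖ * ‖c‖ := by gcongr
        _ = _ := by field_simp
    have h1' : (F.card : ℝ) ≤ E.card + ∑ a ∈ G, (2 : ℝ) ^ a.k := by exact_mod_cast h1
    have hK' : (E.card : ℝ) ≤ 2 ^ K := by exact_mod_cast hK
    linarith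
  have e : (E.card : ℝ) = ∑' a, val (c a) * ∑ n ∈ F, 1 * a.g n := by
    rw [← T_sum]
    simp only [hc, one_mul]
    rw [← Finset.sum_filter, Finset.filter_mem_eq_inter,
      Finset.inter_eq_right.2 Finset.subset_union_left]
    simp
  have hb : ∀ a : At, ‖val (c a) * ∑ n ∈ F, 1 * a.g n‖ ≤
      ‖c‖ * ‖c a‖ + 2 * ‖c‖ * (K + 1) * (‖c a‖ * ww (K - a.k + (a.k - K))) := by
    intro a
    have p1 : 0 ≤ ‖c‖ * ‖c a‖ := by positivity
    have p2 : 0 ≤ 2 * ‖c‖ * (K + 1) * (‖c a‖ * ww (K - a.k + (a.k - K))) := by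
      have := ww_nonneg (K - a.k + (a.k - K)); positivity
    simp only [one_mul, Real.norm_eq_abs, abs_mul]
    have q := Finset.abs_sum_le_sum_abs a.g F
    rcases eq_or_ne a.k 0 with h0 | h0
    · have := q.trans (a.sum_le1 F)
      rw [h0] at this
      have : |val (c a)| * |∑ n ∈ F, a.g n| ≤ ‖c‖ * ‖c a‖ * 1 :=
        mul_le_mul (Y.abs_le c a) (by simpa using this) (abs_nonneg _) p1
      linarith
    by_cases haG : a ∈ G
    · have : ∑ n ∈ F, a.g n = 0 := by
        rw [← a.hs h0]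
        symm
        apply Finset.sum_subset
        · exact (Finset.subset_biUnion_of_mem (fun a : At => a.g.support) haG).trans
            Finset.subset_union_right
        · intro n _ hn; exact Finsupp.notMem_support_iff.1 hn
      rw [this, abs_zero, mul_zero]; linarith
    refine le_trans ?_ (le_add_of_nonneg_left p1)
    rcases le_or_gt a.k K with h | h
    · have h1 : ‖c a‖ ≤ ‖c‖ / 2 ^ (K - a.k) := by
        by_contra h2; exact haG ((hGm a).2 ⟨h, not_le.1 h2⟩)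
      have h2 : (a.k : ℝ) ≤ K := by exact_mod_cast h
      rw [show K - a.k + (a.k - K) = K - a.k by omega, abs_val, ww]
      have h3 : (0 : ℝ) ≤ ((K - a.k : ℕ) : ℝ) := by positivity
      calc ‖c a‖ ^ 2 * |∑ n ∈ F, a.g n| ≤ (‖c a‖ * (‖c‖ / 2 ^ (K - a.k))) * (K + 1) := by
            rw [sq]; gcongr; linarith [q.trans (a.sum_le1 F)]
        _ = 1 * ‖c‖ * (K + 1) * (‖c a‖ * (1 / 2 ^ (K - a.k))) := by ring
        _ ≤ _ := by gcongr <;> linarith
    · obtain ⟨j, hj⟩ : ∃ j, a.k = K + j := ⟨a.k - K, by omega⟩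
      have h3 := q.trans (a.sum_le2 F)
      rw [show K - a.k + (a.k - K) = j by omega, ww]
      rw [hj] at h3
      have h4 : ((K + j : ℕ) : ℝ) + 1 ≤ (K + 1) * (j + 1) := by
        push_cast
        have : (0 : ℝ) ≤ K * j := by positivity
        nlinarith
      calc _ ≤ (‖c‖ * ‖c a‖) * ((2 * 2 ^ K) * (((K + 1) * (j + 1)) / 2 ^ (K + j))) := by
            refine mul_le_mul (Y.abs_le c a) (h3.trans ?_) (abs_nonneg _) p1
            gcongr
        _ = _ := by rw [pow_add]; field_simp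
  have h := tsum_of_norm_bounded
    (((Y.summable c).hasSum.mul_left ‖c‖).add (hsw.hasSum.mul_left (2 * ‖c‖ * (K + 1)))) hb
  rw [← e, ← Y.norm_eq, Real.norm_eq_abs] at h
  exact (le_abs_self _).trans (h.trans (le_of_eq (by ring)))

theorem card_le (c : Y) (E : Finset ℕ) (hc : ∀ n, T c n = if n ∈ E then 1 else 0) :
    (E.card : ℝ) ≤ ‖c‖ ^ 2 := by
  by_contra hlt
  have hη : 0 < (E.card : ℝ) - ‖c‖ ^ 2 := by linarith [not_le.1 hlt]
  set η := (E.card : ℝ) - ‖c‖ ^ 2 with hηd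
  have hsw : ∀ K, Summable fun a : At => ‖c a‖ * ww (K - a.k + (a.k - K)) := fun K =>
    (Y.summable c).of_nonneg_of_le (fun a => mul_nonneg (norm_nonneg _) (ww_nonneg _))
      fun a => mul_le_of_le_one_right (norm_nonneg _) (ww_le _)
  have h1 : ∀ i : ℕ, η * (1 / ((i + (E.card + 1) : ℕ) : ℝ)) ≤
      2 * ‖c‖ * ∑' a : At, ‖c a‖ * ww ((i + E.card) - a.k + (a.k - (i + E.card))) := by
    intro i
    have := one_scale c E hc (i + E.card)
      ((Nat.le_add_left _ _).trans Nat.lt_two_pow_self.le)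
    rw [mul_one_div, div_le_iff₀ (by positivity)]
    push_cast at this ⊢
    linarith
  have h2 : Summable fun i : ℕ => η * (1 / ((i + (E.card + 1) : ℕ) : ℝ)) := by
    apply summable_of_sum_range_le (c := 2 * ‖c‖ * (8 * ‖c‖)) (fun i => by positivity)
    intro n
    refine (Finset.sum_le_sum fun i _ => h1 i).trans ?_
    rw [← Finset.mul_sum, ← Summable.tsum_finsetSum fun i _ => hsw _]
    gcongr
    rw [Y.norm_eq, ← tsum_mul_left]
    refine Summable.tsum_le_tsum (fun a => ?_) (summable_sum fun i _ => hsw _)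
      ((Y.summable c).mul_left _)
    rw [← Finset.mul_sum, mul_comm]
    gcongr
    have := ww_dist ((range n).image (· + E.card)) a.k
    rwa [Finset.sum_image fun x _ y _ h => by simpa using h] at this
  have h3 := (summable_mul_left_iff hη.ne').1 h2
  exact Real.not_summable_one_div_natCast
    ((summable_nat_add_iff (f := fun n : ℕ => 1 / (n : ℝ)) (E.card + 1)).1 h3)

end Pool.Agent.H41.Sg
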