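import Pool.Agent.H41.Sg2

set_option autoImplicit false

namespace Pool.Agent.H41.Sg

open Finset Filter Topology Pool.Agent.H41.Cg

noncomputable def e0 (n : ℕ) : At where
  k := 0
  g := Finsupp.single n 1
  hc := by simp
  hb := fun j => by rw [Finsupp.single_apply]; split_ifs <;> simp
  hs := fun h => absurd rfl h

noncomputable def xx (n : ℕ) : XX := atom (e0 n)

noncomputable def xs (n : ℕ) : XX →ₗ[ℝ] ℝ := (LinearMap.proj n).comp XX.subtype

theorem xs_apply (n : ℕ) (f : XX) : xs n f = f.1 n := rfl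

theorem biorth (i j : ℕ) : xs i (xx j) = if i = j then 1 else 0 := by
  change (Finsupp.single j (1 : ℝ)) i = _
  simp [Finsupp.single_apply, eq_comm]

theorem ext' {f g : XX} (h : ∀ n, xs n f = xs n g) : f = g := Subtype.ext (funext h)

theorem coef' (A : Finset ℕ) (c : ℕ → ℝ) (i : ℕ) :
    xs i (comb xx A c) = if i ∈ A then c i else 0 := by
  simp [comb, map_sum, biorth]

theorem zero_sum (v : XX) (S : Finset ℕ) (k : ℕ) (hk : k ≠ 0) (hS : S.card ≤ 2 ^ k)
    (h0 : ∀ n ∉ S, xs n v = 0) (t : ℝ) (ht : ∀ n, |xs n v| ≤ t) (hs : ∑ n ∈ S, xs n v = 0) :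
    D v ^ 2 ≤ t * 2 ^ k / (k + 1) := by
  rcases ((abs_nonneg _).trans (ht 0)).eq_or_lt with h | h
  · have : v = 0 := ext' fun n => by
      have := ht n
      rw [← h] at this
      rw [abs_nonpos_iff.1 this, map_zero]
    rw [this, D_zero, ← h]; simp
  set r := t * 2 ^ k / (k + 1) with hr
  have hr0 : 0 < r := by positivity
  let g : ℕ →₀ ℝ := Finsupp.onFinset S (fun n => xs n v / r)
    fun n hn => by by_contra h'; exact hn (by rw [h0 n h', zero_div])
  have hg : ∀ n, g n = xs n v / r := fun n => rfl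
  have hgs : g.support ⊆ S := Finsupp.support_onFinset_subset
  let a : At := ⟨k, g, (Finset.card_le_card hgs).trans hS, fun n => by
      rw [hg, abs_div, abs_of_pos hr0, div_le_iff₀ hr0]
      refine (ht n).trans (le_of_eq ?_)
      rw [hr]; field_simp, fun _ => by
      rw [Finset.sum_subset hgs fun n _ hn => Finsupp.notMem_support_iff.1 hn]
      simp only [hg]
      rw [← Finset.sum_div, hs, zero_div]⟩
  have e : v = r • atom a := Subtype.ext (funext fun n => by
    change xs n v = r * (xs n v / r)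
    field_simp)
  have h1 : D v ≤ √r := by
    rw [e, D_smul, abs_of_pos hr0]
    exact mul_le_of_le_one_right (Real.sqrt_nonneg _) (D_atom a)
  calc D v ^ 2 ≤ √r ^ 2 := by gcongr; exact D_nonneg _
    _ = r := Real.sq_sqrt hr0.le

/-- Transport of the coefficients on `P` along `π`. -/
noncomputable def U (π : ℕ → ℕ) (P : Finset ℕ) : (ℕ → ℝ) →ₗ[ℝ] XX :=
  ∑ n ∈ P, (LinearMap.proj n : (ℕ → ℝ) →ₗ[ℝ] ℝ).smulRight (xx n - xx (π n))

theorem U_apply (π : ℕ → ℕ) (P : Finset ℕ) (v : ℕ → ℝ) :
    U π P v = ∑ n ∈ P, v n • (xx n - xx (π n)) := by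
  simp [U, LinearMap.sum_apply]

theorem U_coef (π : ℕ → ℕ) (P : Finset ℕ) (v : ℕ → ℝ) (i : ℕ) :
    xs i (U π P v) = (if i ∈ P then v i else 0) - ∑ n ∈ P, if i = π n then v n else 0 := by
  rw [U_apply]
  simp [map_sum, biorth, mul_sub, Finset.sum_sub_distrib]

theorem U_bound (π : ℕ → ℕ) (P : Finset ℕ) (v : ℕ → ℝ) (hinj : Set.InjOn π P)
    (hout : ∀ n ∈ P, π n ∉ P) (k : ℕ) (hP : P.card ≤ 2 ^ k) (t : ℝ) (ht0 : 0 ≤ t)
    (ht : ∀ n ∈ P, |v n| ≤ t) : D (U π P v) ^ 2 ≤ t * 2 ^ (k + 1) / (k + 1) := by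
  have h := zero_sum (U π P v) (P ∪ P.image π) (k + 1) (by omega)
    ((Finset.card_union_le _ _).trans (by
      have := Finset.card_image_le (s := P) (f := π); rw [pow_succ]; omega))
    (fun n hn => by
      rw [Finset.mem_union, not_or] at hn
      rw [U_coef, if_neg hn.1, Finset.sum_eq_zero, sub_zero]
      exact fun j hj => if_neg fun (h : n = π j) => hn.2 (h ▸ Finset.mem_image_of_mem π hj)) t
    (fun n => by
      rw [U_coef]
      by_cases hn : n ∈ P
      · rw [if_pos hn, Finset.sum_eq_zero, sub_zero]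
        · exact ht n hn
        · exact fun j hj => if_neg fun (h : n = π j) => hout j hj (h ▸ hn)
      · rw [if_neg hn, zero_sub, abs_neg]
        by_cases h2 : ∃ j ∈ P, n = π j
        · obtain ⟨j, hj, rfl⟩ := h2
          rw [Finset.sum_eq_single_of_mem j hj, if_pos rfl]
          · exact ht j hj
          · exact fun l hl hne => if_neg fun h => hne (hinj hl hj h.symm)
        · rw [Finset.sum_eq_zero, abs_zero]
          · exact ht0
          · exact fun j hj => if_neg fun h => h2 ⟨j, hj, h⟩)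
    (by
      simp only [U_coef, Finset.sum_sub_distrib]
      rw [Finset.sum_comm, ← Finset.sum_filter, Finset.filter_mem_eq_inter,
        Finset.inter_eq_right.2 Finset.subset_union_left, sub_eq_zero]
      refine Finset.sum_congr rfl fun n hn => ?_
      rw [Finset.sum_ite_eq', if_pos (Finset.mem_union_right _ (Finset.mem_image_of_mem π hn))])
  refine h.trans ?_
  push_cast
  gcongr
  linarith

theorem T_fin (c : Y) (s : Finset At) :
    T (∑ a ∈ s, lp.single 1 a (c a)) = ∑ a ∈ s, val (c a) • ⇑a.g := by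
  simp only [map_sum, T_single]

theorem tail_small (c : Y) {ε : ℝ} (hε : 0 < ε) :
    ∃ s : Finset At, ‖c - ∑ a ∈ s, lp.single 1 a (c a)‖ < ε := by
  have h := tendsto_iff_norm_sub_tendsto_zero.1 (lp.hasSum_single (by simp) c)
  obtain ⟨s, hs⟩ := (h.eventually (gt_mem_nhds hε)).exists
  exact ⟨s, by rwa [norm_sub_rev]⟩

theorem U_bdd (π : ℕ → ℕ) (P : Finset ℕ) (hinj : Set.InjOn π P)
    (hout : ∀ n ∈ P, π n ∉ P) (g : XX) : D (U π P g.1) ≤ 2 * D g := by
  refine le_mul_D two_pos fun c hc => le_of_forall_pos_le_add fun ε hε => ?_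
  obtain ⟨s, hs⟩ := tail_small c (show 0 < ε / (2 * P.card + 1) by positivity)
  set d := c - ∑ a ∈ s, lp.single 1 a (c a) with hd
  have e : U π P g.1 = ∑ a ∈ s, val (c a) • U π P a.g + U π P (T d) := by
    rw [hd, map_sub, map_sub, T_fin, hc, map_sum]
    simp only [map_smul]
    abel
  have h1 : ∀ a : At, D (U π P a.g) ≤ 2 := by
    intro a
    have e1 : U π P a.g = U π (P ∩ a.g.support) a.g := by
      rw [U_apply, U_apply]
      symm
      apply Finset.sum_subset Finset.inter_subset_left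
      intro n hn hn'
      have : n ∉ a.g.support := fun h => hn' (Finset.mem_inter.2 ⟨hn, h⟩)
      rw [Finsupp.notMem_support_iff.1 this, zero_smul]
    have := U_bound π (P ∩ a.g.support) a.g (hinj.mono (by simp))
      (fun n hn h => hout n (Finset.mem_inter.1 hn).1 (Finset.mem_inter.1 h).1) a.k
      ((Finset.card_le_card Finset.inter_subset_right).trans a.hc) _ (by positivity)
      fun n _ => a.hb n
    rw [← e1, show ((a.k : ℝ) + 1) / 2 ^ a.k * 2 ^ (a.k + 1) / (a.k + 1) = 2 by
      field_simp; ring] at this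
    nlinarith [D_nonneg (U π P a.g)]
  have h2 : D (∑ a ∈ s, val (c a) • U π P a.g) ≤ 2 * ‖c‖ := by
    refine (D_sum _ _).trans ?_
    calc _ ≤ ∑ a ∈ s, 2 * ‖c a‖ := Finset.sum_le_sum fun a _ => by
            rw [D_smul, ← norm_R2, mul_comm]; gcongr; exact h1 a
      _ ≤ _ := by
            rw [← Finset.mul_sum, Y.norm_eq]
            gcongr
            exact (Y.summable c).sum_le_tsum _ fun a _ => norm_nonneg _
  have h3 : D (U π P (T d)) ≤ P.card * (2 * ‖d‖) := by
    rw [U_apply]
    refine (D_sum _ _).trans ((Finset.sum_le_card_nsmul _ _ (2 * ‖d‖) fun n _ => ?_).trans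
      (by rw [nsmul_eq_mul]))
    rw [D_smul, mul_comm]
    have q1 : D (xx n - xx (π n)) ≤ 2 :=
      (D_sub _ _).trans (by linarith [D_atom (e0 n), D_atom (e0 (π n)), show xx n = atom (e0 n)
        from rfl, (show D (xx n) ≤ 1 from D_atom _), (show D (xx (π n)) ≤ 1 from D_atom _)])
    have q2 : √|T d n| ≤ ‖d‖ := Real.sqrt_le_iff.2 ⟨norm_nonneg _, by
      rw [T_apply]; simpa using Y.tsum_le d _ 1 fun a => a.le_one n⟩
    gcongr
  have h4 : P.card * (2 * ‖d‖) ≤ ε := by
    rw [lt_div_iff₀ (by positivity)] at hs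
    nlinarith [norm_nonneg d]
  rw [e]
  linarith [D_add (∑ a ∈ s, val (c a) • U π P a.g) (U π P (T d))]

theorem semi : SemiGreedy (fun f : XX => D f ^ 2) xx xs := by
  refine ⟨25, fun f A hG B b hB => ?_⟩
  set g := f - comb xx B b with hg
  set P := B \ A with hP
  have hcd : P.card ≤ (A \ B).card := by
    have h1 := Finset.card_sdiff_add_card_inter A B
    have h2 := Finset.card_sdiff_add_card_inter B A
    rw [Finset.inter_comm, ← hP] at h2
    omega
  obtain ⟨π, hπ, hinj⟩ := Set.Finite.exists_injOn_of_encard_le (s := (P : Set ℕ))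
    (t := ((A \ B : Finset ℕ) : Set ℕ)) P.finite_toSet (by
      rw [Set.encard_coe_eq_coe_finsetCard, Set.encard_coe_eq_coe_finsetCard]
      exact_mod_cast hcd)
  have hπ' : ∀ n ∈ P, π n ∈ A ∧ π n ∉ B := fun n hn => Finset.mem_sdiff.1 (hπ hn)
  have hout : ∀ n ∈ P, π n ∉ P := fun n hn h => (Finset.mem_sdiff.1 h).2 (hπ' n hn).1
  have hoff : ∀ n ∉ B, xs n g = xs n f := fun n hn => by
    rw [hg, map_sub, coef', if_neg hn, sub_zero]
  have hUf : D (U π P f.1) ≤ 2 * D g := by
    rcases P.eq_empty_or_nonempty with h | h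
    · rw [h, U_apply, Finset.sum_empty, D_zero]; linarith [D_nonneg g]
    have hs : 0 < P.card := Finset.card_pos.2 h
    have hs' : (0 : ℝ) < P.card := by exact_mod_cast hs
    set j := Nat.clog 2 P.card with hj
    have j1 : P.card ≤ 2 ^ j := Nat.le_pow_clog (by norm_num) _
    have j2 : 2 ^ j ≤ 2 * P.card := by
      rcases Nat.eq_zero_or_pos j with h0 | h0
      · rw [h0]; omega
      · have := (Nat.lt_clog_iff_pow_lt (b := 2) (by norm_num) (x := P.card) (y := j - 1)).1
          (by omega)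
        rw [show j = j - 1 + 1 by omega, pow_succ]; omega
    have j2' : (2 : ℝ) ^ j ≤ 2 * P.card := by exact_mod_cast j2
    have hc : (P.image π).card = P.card := Finset.card_image_of_injOn hinj
    have hm := sum_abs_le g (P.image π) j (hc ▸ j1)
    have hb := U_bound π P f.1 hinj hout j j1 ((j + 1) * D g ^ 2 / P.card) (by positivity)
      fun n hn => by
        rw [le_div_iff₀' hs', ← hc, ← nsmul_eq_mul]
        refine (Finset.card_nsmul_le_sum _ _ _ fun i hi => ?_).trans hm
        obtain ⟨l, hl, rfl⟩ := Finset.mem_image.1 hi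
        have := hG (π l) (hπ' l hl).1 n (Finset.mem_sdiff.1 hn).2
        rw [← xs_apply, ← xs_apply, hoff _ (hπ' l hl).2]
        exact this
    have : D (U π P f.1) ^ 2 ≤ (2 * D g) ^ 2 := by
      refine hb.trans ?_
      calc _ = D g ^ 2 * 2 * 2 ^ j / P.card := by field_simp; ring
        _ ≤ D g ^ 2 * 2 * (2 * P.card) / P.card := by gcongr
        _ = _ := by field_simp
    exact le_of_sq_le_sq this (by linarith [D_nonneg g]) 
  set h := g + U π P f.1 - U π P g.1 with hh
  have hD : D h ≤ 5 * D g := by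
    have := D_sub (g + U π P f.1) (U π P g.1)
    linarith [D_add g (U π P f.1), U_bdd π P hinj hout g]
  refine ciInf_le_of_le ⟨0, by rintro _ ⟨c, rfl⟩; positivity⟩ (fun n => xs n f - xs n h) ?_
  have e : (f - comb xx A fun n => xs n f - xs n h) = h := ext' fun n => by
    rw [map_sub, coef']
    split_ifs with hn
    · ring
    · have z : ∀ v : ℕ → ℝ, (∑ l ∈ P, if n = π l then v l else 0) = 0 := fun v =>
        Finset.sum_eq_zero fun l hl => if_neg fun (h : n = π l) => hn (h ▸ (hπ' l hl).1)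
      rw [hh, map_sub, map_add, U_coef, U_coef, z, z]
      by_cases hB : n ∈ B
      · have : n ∈ P := Finset.mem_sdiff.2 ⟨hB, hn⟩
        simp only [if_pos this, xs_apply]; ring
      · have : n ∉ P := fun h => hB (Finset.mem_sdiff.1 h).1
        simp only [if_neg this, hoff n hB]; ring
  simp only [e]
  nlinarith [D_nonneg h, D_nonneg g]

theorem not_almost : ¬AlmostGreedy (fun f : XX => D f ^ 2) xx xs := by
  rintro ⟨C, hC⟩
  obtain ⟨k, hk⟩ := exists_nat_gt (2 * |C|)
  set E := range (2 ^ k) with hE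
  have hmem : ∀ n, n ∈ E ↔ n < 2 ^ k := fun n => Finset.mem_range
  set π : ℕ → ℕ := fun n => n + 2 ^ k with hπ
  have hinj : Set.InjOn π E := fun x _ y _ h => by simpa [hπ] using h
  set f := U π E fun _ => 1 with hf
  set A := E.image π with hA
  have hAm : ∀ n, n ∈ A ↔ 2 ^ k ≤ n ∧ n < 2 ^ k + 2 ^ k := by
    intro n
    simp only [hA, Finset.mem_image, hmem, hπ]
    exact ⟨fun ⟨a, h1, h2⟩ => by omega, fun h => ⟨n - 2 ^ k, by omega, by omega⟩⟩
  have hc : ∀ n, xs n f = (if n ∈ E then 1 else 0) - if n ∈ A then 1 else 0 := by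
    intro n
    rw [hf, U_coef]
    congr 1
    split_ifs with h
    · obtain ⟨l, hl, rfl⟩ := Finset.mem_image.1 h
      rw [Finset.sum_eq_single_of_mem l hl, if_pos rfl]
      exact fun j hj hne => if_neg fun h => hne (hinj hj hl h.symm)
    · exact Finset.sum_eq_zero fun l hl => if_neg fun (h' : n = π l) =>
        h (h' ▸ Finset.mem_image_of_mem π hl)
  have hEA : ∀ n ∈ A, n ∉ E := fun n hn h => by
    have := (hAm n).1 hn; have := (hmem n).1 h; omega
  have h := hC f A (fun n hn j hj => by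
    change ‖xs j f‖ ≤ ‖xs n f‖
    rw [hc, hc, if_pos hn, if_neg (hEA n hn), if_neg hj]
    split_ifs <;> simp) ∅ (by simp)
  have hb := U_bound π E (fun _ => 1) hinj
    (fun n hn => hEA _ (Finset.mem_image_of_mem π hn)) k (by simp [hE]) 1 zero_le_one (by simp)
  have hl : (2 : ℝ) ^ k ≤ 1 * D (f - comb xx A fun n => xs n f) ^ 2 := by
    refine le_mul_D_sq one_pos fun c hc' => ?_
    have := card_le c E fun n => by
      rw [hc', ← xs_apply, map_sub, coef', hc]
      by_cases hn : n ∈ A
      · simp [hn, hEA n hn]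
      · simp [hn]
    simpa [hE] using this
  simp only [comb, Finset.sum_empty, sub_zero] at h
  simp only [comb] at hl
  rw [← hf] at hb
  have h2 : (2 : ℝ) ^ k ≤ |C| * (1 * 2 ^ (k + 1) / (k + 1)) := by
    calc _ ≤ C * D f ^ 2 := by linarith
      _ ≤ |C| * D f ^ 2 := by gcongr; exact le_abs_self C
      _ ≤ _ := by gcongr
  rw [← mul_div_assoc, le_div_iff₀ (by positivity), pow_succ] at h2
  have : (0 : ℝ) < 2 ^ k := by positivity
  nlinarith

theorem pnorm : IsPNorm ℝ (1 / 2) fun f : XX => D f ^ 2 where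
  nonneg := fun f => by positivity
  eq_zero := fun f h => ext' fun n => by
    have := coord_le f n
    rw [h] at this
    rw [map_zero, xs_apply, abs_nonpos_iff.1 this]
  smul := fun c f => by
    rw [D_smul, mul_pow, Real.sq_sqrt (abs_nonneg _), Real.norm_eq_abs]
  tri := fun f g => by
    simp only [← Real.sqrt_eq_rpow, Real.sqrt_sq (D_nonneg _)]
    exact D_add f g

theorem basis : QMBasis (fun f : XX => D f ^ 2) xx xs where
  biorth := biorth
  dense := fun f ε hε => by
    obtain ⟨c, hc⟩ := f.2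
    obtain ⟨s, hs⟩ := tail_small c (Real.sqrt_pos.2 hε)
    refine ⟨s.biUnion fun a => a.g.support, ∑ a ∈ s, val (c a) • ⇑a.g, ?_⟩
    refine (Real.lt_sqrt (D_nonneg _)).1 (lt_of_le_of_lt (D_le ?_) hs)
    funext n
    rw [← xs_apply, map_sub, map_sub, coef', T_fin, hc, xs_apply, Pi.sub_apply]
    split_ifs with h
    · rfl
    · congr 1
      rw [Finset.sum_apply]
      refine Finset.sum_eq_zero fun a ha => ?_
      have : n ∉ a.g.support := fun h' => h (Finset.mem_biUnion.2 ⟨a, ha, h'⟩)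
      simp [Finsupp.notMem_support_iff.1 this]
  total := fun f h => ext' fun n => by rw [h, map_zero]
  bdd := ⟨1, fun n => ⟨pow_le_one₀ (D_nonneg _) (D_atom _), fun f => by
    rw [one_mul]; exact coord_le f n⟩⟩

theorem main : ∃ (X : Type) (_ : AddCommGroup X) (_ : Module ℝ X) (N : X → ℝ) (x : ℕ → X)
    (xs : ℕ → X →ₗ[ℝ] ℝ), IsPNorm ℝ (1 / 2) N ∧ NComplete N ∧ QMBasis N x xs ∧
    SemiGreedy N x xs ∧ ¬AlmostGreedy N x xs :=
  ⟨XX, inferInstance, inferInstance, _, xx, xs, pnorm, complete, basis, semi, not_almost⟩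

end Pool.Agent.H41.Sg
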