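import Pool.Agent.H41.CgDefs

set_option autoImplicit false

namespace Pool.Agent.H41.Cg

variable {X : Type} [AddCommGroup X] [Module ℝ X]

/-- Every `N`-Cauchy sequence converges for `N`. -/
def NComplete (N : X → ℝ) : Prop :=
  ∀ u : ℕ → X, (∀ ε > 0, ∃ n₀, ∀ i ≥ n₀, ∀ j ≥ n₀, N (u i - u j) < ε) →
    ∃ f, ∀ ε > 0, ∃ n₀, ∀ i ≥ n₀, N (u i - f) < ε

/-- A semi-normalized Markushevich basis of the quasi-normed space `(X, N)`. -/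
structure QMBasis (N : X → ℝ) (x : ℕ → X) (xs : ℕ → X →ₗ[ℝ] ℝ) : Prop where
  biorth : ∀ i j, xs i (x j) = if i = j then 1 else 0
  dense : ∀ f, ∀ ε > 0, ∃ (A : Finset ℕ) (c : ℕ → ℝ), N (f - comb x A c) < ε
  total : ∀ f, (∀ n, xs n f = 0) → f = 0
  bdd : ∃ M : ℝ, ∀ n, N (x n) ≤ M ∧ ∀ f, |xs n f| ≤ M * N f

/-- Semi-greedy basis. -/
def SemiGreedy (N : X → ℝ) (x : ℕ → X) (xs : ℕ → X →ₗ[ℝ] ℝ) : Prop :=
  ∃ C : ℝ, ∀ (f : X) (A : Finset ℕ), Greedy (fun n => ⇑(xs n)) A f →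
    ∀ (B : Finset ℕ) (b : ℕ → ℝ), B.card ≤ A.card →
      (⨅ c : ℕ → ℝ, N (f - comb x A c)) ≤ C * N (f - comb x B b)

/-- Almost greedy basis. -/
def AlmostGreedy (N : X → ℝ) (x : ℕ → X) (xs : ℕ → X →ₗ[ℝ] ℝ) : Prop :=
  ∃ C : ℝ, ∀ (f : X) (A : Finset ℕ), Greedy (fun n => ⇑(xs n)) A f →
    ∀ B : Finset ℕ, B.card ≤ A.card →
      N (f - comb x A fun n => xs n f) ≤ C * N (f - comb x B fun n => xs n f)

end Pool.Agent.H41.Cg
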