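import Pool.Agent.H41.SpamDefs

set_option autoImplicit false

namespace Pool.Agent.H41.Spam

open scoped NNReal ENNReal
open MeasureTheory

theorem exists_fix (F : (ℕ → Bool) → ℕ → Bool)
    (hF : ∀ g g' n, (∀ j < n, g j = g' j) → F g n = F g' n) : ∃ g : ℕ → Bool, ∀ n, g n = F g n := by
  let g : ℕ → Bool := fun i => Nat.strongRecOn i
    (fun n ih => F (fun j => if h : j < n then ih j h else false) n)
  refine ⟨g, fun n => ?_⟩
  have : g n = F (fun j => if j < n then g j else false) n := by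
    simp only [g]
    rw [Nat.strongRecOn_eq]
    rfl
  rw [this]
  exact hF _ _ _ fun j hj => by simp [hj]

theorem cost_congr (A : List (ℕ × Bool) → ℕ → ℝ≥0) (time : ℕ → ℕ) (g g' err : ℕ → Bool) (n : ℕ)
    (h : ∀ j < n, g j = g' j) : cost A time g err n = cost A time g' err n := by
  unfold cost hist
  congr 1
  refine List.map_congr_left fun j hj => ?_
  rw [h j (List.mem_range.mp hj)]

theorem measurable_cost {Ω : Type*} [MeasurableSpace Ω] (err : Ω → ℕ → Bool)
    (herr : ∀ i, Measurable fun ω => err ω i) (A : Ω → List (ℕ × Bool) → ℕ → ℝ≥0)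
    (hA : ∀ h t, Measurable fun ω => A ω h t) (time : ℕ → ℕ) (g : ℕ → Bool) (n : ℕ) :
    Measurable fun ω => cost (A ω) time g (err ω) n := by
  let _ : MeasurableSpace (List (ℕ × Bool)) := ⊤
  have : DiscreteMeasurableSpace (List (ℕ × Bool)) := ⟨fun _ => trivial⟩
  have h1 : ∀ n, Measurable fun ω => hist time g (err ω) n := by
    intro n
    induction n with
    | zero => simp [hist]
    | succ n ih =>
      have : (fun ω => hist time g (err ω) (n + 1)) =
          (fun p : List (ℕ × Bool) × Bool => p.1 ++ [(time n, xor (g n) p.2)]) ∘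
            fun ω => (hist time g (err ω) n, err ω n) := by
        funext ω; simp [hist, List.range_succ]
      rw [this]
      exact (measurable_of_countable _).comp (ih.prodMk (herr n))
  have h2 : Measurable fun p : Ω × List (ℕ × Bool) => A p.1 p.2 (time n) :=
    measurable_from_prod_countable_left fun h => hA h (time n)
  exact h2.comp (measurable_id.prodMk (h1 n))

theorem main {Ω : Type*} [MeasurableSpace Ω] (μ : Measure Ω) [IsProbabilityMeasure μ]
    (err : Ω → ℕ → Bool) (herr : ∀ i, Measurable fun ω => err ω i)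
    (A : Ω → List (ℕ × Bool) → ℕ → ℝ≥0) (hA : ∀ h t, Measurable fun ω => A ω h t)
    (c : ℝ≥0) (L : ℕ) (hL : 1 ≤ L) (N : ℕ) (hN : c ^ 3 * (c + 1) ^ 2 * L < N) (time : ℕ → ℕ) :
    ∃ good : ℕ → Bool,
      (c : ℝ≥0∞) * ((∫⁻ ω, (rateT L N (A ω) time good (err ω) : ℝ≥0∞) ∂μ) ^ (2 / 3 : ℝ) +
        (rateP L N good : ℝ≥0∞)) < ∫⁻ ω, (rateC L N (A ω) time good (err ω) : ℝ≥0∞) ∂μ := by
  classical
  set a : (ℕ → Bool) → ℕ → ℝ≥0∞ := fun g n => ∫⁻ ω, (cost (A ω) time g (err ω) n : ℝ≥0∞) ∂μ with ha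
  obtain ⟨g, hg⟩ := exists_fix (fun g n => decide (((c + 1 : ℝ≥0) : ℝ≥0∞) < a g n)) (by
    intro g g' n h
    simp only [ha, cost_congr _ time g g' _ n h])
  refine ⟨g, ?_⟩
  have hL0 : (L : ℝ≥0) ≠ 0 := by exact_mod_cast (by omega : L ≠ 0)
  have hm : ∀ n, Measurable fun ω => (cost (A ω) time g (err ω) n : ℝ≥0∞) := fun n =>
    (measurable_cost err herr A hA time g n).coe_nnreal_ennreal
  have hT : ∫⁻ ω, (rateT L N (A ω) time g (err ω) : ℝ≥0∞) ∂μ ≤ (((c + 1) * N / L : ℝ≥0) : ℝ≥0∞) := by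
    simp only [rateT, ENNReal.ofNNReal_finsetSum, div_eq_mul_inv, ENNReal.coe_mul,
      ENNReal.coe_inv hL0]
    rw [lintegral_mul_const' _ _ (by simpa using (by omega : L ≠ 0)), lintegral_finsetSum]
    · gcongr
      calc _ ≤ ∑ i ∈ Finset.range N, ((c + 1 : ℝ≥0) : ℝ≥0∞) := by
            refine Finset.sum_le_sum fun i _ => ?_
            by_cases h : g i = true
            · simp [h]
            · have h2 := hg i
              simp only [h, Bool.false_eq_true, if_false]
              rw [Bool.not_eq_true] at h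
              rw [h] at h2
              have h3 : ¬ (((c + 1 : ℝ≥0) : ℝ≥0∞) < a g i) := of_decide_eq_false h2.symm
              exact not_lt.mp h3
        _ = _ := by simp [mul_comm, mul_add]
    · intro i _
      by_cases h : g i = true
      · simp [h]
      · simpa [h] using hm i
  have hC : ((N / L + c * rateP L N g : ℝ≥0) : ℝ≥0∞) ≤
      ∫⁻ ω, (rateC L N (A ω) time g (err ω) : ℝ≥0∞) ∂μ := by
    have e : (N / L + c * rateP L N g : ℝ≥0) =
        (∑ i ∈ Finset.range N, if g i then c + 1 else 1) / L := by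
      rw [rateP, ← mul_div_assoc, ← add_div, Finset.mul_sum]
      congr 1
      rw [show (N : ℝ≥0) = ∑ i ∈ Finset.range N, 1 by simp, ← Finset.sum_add_distrib]
      refine Finset.sum_congr rfl fun i _ => ?_
      by_cases h : g i = true <;> simp [h, add_comm]
    rw [e]
    simp only [rateC, ENNReal.ofNNReal_finsetSum, div_eq_mul_inv, ENNReal.coe_mul, ENNReal.coe_inv hL0]
    rw [lintegral_mul_const' _ _ (by simpa using (by omega : L ≠ 0)), lintegral_finsetSum]
    · gcongr with i hi
      by_cases h : g i = true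
      · have h2 := hg i
        rw [h] at h2
        have h3 : (((c + 1 : ℝ≥0) : ℝ≥0∞) < a g i) := of_decide_eq_true h2.symm
        simp only [h, if_true]
        exact h3.le
      · simp [h]
    · intro i _
      by_cases h : g i = true
      · simpa [h] using hm i
      · simp [h]
  refine lt_of_le_of_lt (b := ((c * (((c + 1) * N / L) ^ (2 / 3 : ℝ) + rateP L N g) : ℝ≥0) : ℝ≥0∞))
    ?_ (lt_of_lt_of_le ?_ hC)
  · rw [ENNReal.coe_mul, ENNReal.coe_add, ENNReal.coe_rpow_of_nonneg _ (by norm_num)]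
    gcongr
  · rw [ENNReal.coe_lt_coe, mul_add]
    gcongr
    set x : ℝ≥0 := N / L with hx
    have hx1 : c ^ 3 * (c + 1) ^ 2 < x := by
      rw [hx, lt_div_iff₀ (pos_iff_ne_zero.mpr hL0)]; exact hN
    have hx0 : 0 < x := lt_of_le_of_lt (by positivity) hx1
    rw [mul_div_assoc, ← hx]
    refine lt_of_pow_lt_pow_left₀ 3 (by positivity) ?_
    rw [mul_pow, ← NNReal.rpow_natCast (((c + 1) * x) ^ (2 / 3 : ℝ)), ← NNReal.rpow_mul]
    norm_num
    calc c ^ 3 * ((c + 1) * x) ^ 2 = (c ^ 3 * (c + 1) ^ 2) * x ^ 2 := by ring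
      _ < x * x ^ 2 := by gcongr
      _ = x ^ 3 := by ring

end Pool.Agent.H41.Spam
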