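import Mathlib

set_option autoImplicit false

namespace Pool.Agent.H41.Spam

open scoped NNReal ENNReal

/-- What the algorithm has seen before post number i: the time steps and the classifier labels
(true = legitimate) of posts 0, ..., i-1. Post j occurs at step `time j`, comes from a good ID iff
`good j`, and is misclassified iff `err j`. -/
def hist (time : ℕ → ℕ) (good err : ℕ → Bool) (i : ℕ) : List (ℕ × Bool) :=
  (List.range i).map fun j => (time j, xor (good j) (err j))

/-- The cost that the algorithm `A` (with its random choices fixed) sets for post number i. -/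
def cost (A : List (ℕ × Bool) → ℕ → ℝ≥0) (time : ℕ → ℕ) (good err : ℕ → Bool) (i : ℕ) : ℝ≥0 :=
  A (hist time good err i) (time i)

/-- T: total resource paid by bad IDs on posts 0, ..., N-1, divided by L. -/
noncomputable def rateT (L N : ℕ) (A : List (ℕ × Bool) → ℕ → ℝ≥0) (time : ℕ → ℕ)
    (good err : ℕ → Bool) : ℝ≥0 :=
  (∑ i ∈ Finset.range N, if good i then 0 else cost A time good err i) / (L : ℝ≥0)

/-- P_G: number of posts by good IDs, divided by L. -/
noncomputable def rateP (L N : ℕ) (good : ℕ → Bool) : ℝ≥0 :=
  (∑ i ∈ Finset.range N, if good i then 1 else 0) / (L : ℝ≥0)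

/-- C: number of published spam posts plus total cost paid on legitimate posts, divided by L. -/
noncomputable def rateC (L N : ℕ) (A : List (ℕ × Bool) → ℕ → ℝ≥0) (time : ℕ → ℕ)
    (good err : ℕ → Bool) : ℝ≥0 :=
  (∑ i ∈ Finset.range N, if good i then cost A time good err i else 1) / (L : ℝ≥0)

end Pool.Agent.H41.Spam
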