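import Pool.Agent.H41.StabDefs

set_option autoImplicit false

namespace Pool.Agent.H41.Stab

/-- generators XZZXI, IXZZX, XIXZZ, ZXIXZ of the five-qubit code -/
def G : (Fin 4 → ZMod 2) →ₗ[ZMod 2] (Fin 5 → ZMod 2 × ZMod 2) where
  toFun x := ![(x 0 + x 2, x 3), (x 1 + x 3, x 0), (x 2, x 0 + x 1), (x 0 + x 3, x 1 + x 2),
    (x 1, x 2 + x 3)]
  map_add' x y := by
    funext i; fin_cases i <;> simp <;> (try constructor) <;> ring
  map_smul' c x := by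
    funext i; fin_cases i <;> simp <;> (try constructor) <;> ring

theorem all4 (P : (Fin 4 → ZMod 2) → Prop) (h : ∀ a b c d, P ![a, b, c, d]) (x) : P x := by
  have : x = ![x 0, x 1, x 2, x 3] := by funext i; fin_cases i <;> rfl
  rw [this]; exact h _ _ _ _

theorem all5 (P : (Fin 5 → ZMod 2 × ZMod 2) → Prop) (h : ∀ a b c d e, P ![a, b, c, d, e]) (x) :
    P x := by
  have : x = ![x 0, x 1, x 2, x 3, x 4] := by funext i; fin_cases i <;> rfl
  rw [this]; exact h _ _ _ _ _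

theorem G_wt (x : Fin 4 → ZMod 2) : x ≠ 0 → hammingNorm (G x) = 4 := by
  revert x
  refine all4 _ ?_
  decide +kernel

theorem G_inj : Function.Injective G := by
  rw [injective_iff_map_eq_zero]
  intro x hx
  by_contra h
  have := G_wt x h
  rw [hx] at this
  simp at this

theorem G_symp (x y : Fin 4 → ZMod 2) : symp (G x) (G y) = 0 := by
  revert x
  refine all4 _ ?_
  revert y
  refine all4 _ ?_
  decide +kernel

theorem dual_wt (u : Fin 5 → ZMod 2 × ZMod 2) :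
    symp u (G ![1, 0, 0, 0]) = 0 → symp u (G ![0, 1, 0, 0]) = 0 → symp u (G ![0, 0, 1, 0]) = 0 →
      symp u (G ![0, 0, 0, 1]) = 0 → u ≠ 0 → 3 ≤ hammingNorm u := by
  revert u
  refine all5 _ ?_
  decide +kernel

def C5 : Submodule (ZMod 2) (Fin 5 → ZMod 2 × ZMod 2) := LinearMap.range G

theorem stab : IsStab C5 := by
  rintro _ ⟨x, rfl⟩ _ ⟨y, rfl⟩
  exact G_symp x y

def allX : Fin 5 → ZMod 2 × ZMod 2 := fun _ => (1, 0)

theorem allX_dual : allX ∈ dual C5 := by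
  rintro _ ⟨y, rfl⟩
  revert y
  refine all4 _ ?_
  decide +kernel

theorem allX_not : allX ∉ C5 := by
  rintro ⟨y, hy⟩
  revert y
  refine all4 _ ?_
  decide +kernel

theorem dist5 : 2 < codeDist C5 := by
  unfold codeDist
  rw [if_neg (fun h => allX_not (by have := allX_dual; rwa [← h] at this))]
  refine le_csInf (s := {w | ∃ u ∈ dual C5, u ∉ C5 ∧ hammingNorm u = w}) (a := 3)
    ⟨_, allX, allX_dual, allX_not, rfl⟩ ?_
  rintro _ ⟨u, hu, hu2, rfl⟩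
  exact dual_wt u (hu _ ⟨_, rfl⟩) (hu _ ⟨_, rfl⟩) (hu _ ⟨_, rfl⟩) (hu _ ⟨_, rfl⟩)
    (fun h => hu2 (h ▸ C5.zero_mem))

noncomputable def e : (Fin 4 → ZMod 2) ≃ₗ[ZMod 2] C5 := LinearEquiv.ofInjective G G_inj

def tau : (Fin 4 → ZMod 2) ≃ₗ[ZMod 2] (Fin 4 → ZMod 2) :=
  LinearEquiv.funCongrLeft (ZMod 2) (ZMod 2) (Equiv.swap 0 1)

noncomputable def f : C5 ≃ₗ[ZMod 2] C5 := e.symm.trans (tau.trans e)

theorem f_e (x : Fin 4 → ZMod 2) : (f (e x) : Fin 5 → ZMod 2 × ZMod 2) = G (tau x) := by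
  show (e (tau (e.symm (e x))) : Fin 5 → ZMod 2 × ZMod 2) = _
  rw [LinearEquiv.symm_apply_apply]
  rfl

theorem e_val (x : Fin 4 → ZMod 2) : (e x : Fin 5 → ZMod 2 × ZMod 2) = G x := rfl

theorem f_wt (c : C5) : hammingNorm (f c : Fin 5 → ZMod 2 × ZMod 2) =
    hammingNorm (c : Fin 5 → ZMod 2 × ZMod 2) := by
  obtain ⟨x, rfl⟩ := e.surjective c
  rw [f_e, e_val]
  by_cases h : x = 0
  · simp [h]
  · rw [G_wt x h, G_wt _ (by simpa using h)]

theorem kern : ∀ j : Fin 5, ∃ a b c d : ZMod 2,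
    G ![a, b, c, d] j = 0 ∧ G ![b, a, c, d] 0 ≠ 0 := by
  decide +kernel

theorem f_not : ¬ ∃ (π : Equiv.Perm (Fin 5))
    (g : Fin 5 → (ZMod 2 × ZMod 2) ≃ₗ[ZMod 2] (ZMod 2 × ZMod 2)),
    ∀ c : C5, ∀ i, (f c : Fin 5 → ZMod 2 × ZMod 2) i = g i ((c : Fin 5 → ZMod 2 × ZMod 2) (π.symm i)) := by
  rintro ⟨π, g, h⟩
  obtain ⟨a, b, c, d, h1, h2⟩ := kern (π.symm 0)
  have h3 := h (e ![a, b, c, d]) 0
  rw [f_e, e_val, h1, map_zero] at h3
  apply h2
  have : tau ![a, b, c, d] = ![b, a, c, d] := by funext i; fin_cases i <;> rfl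
  rw [← this, h3]

open Classical in
noncomputable def F (u : Fin 5 → ZMod 2 × ZMod 2) : Fin 5 → ZMod 2 × ZMod 2 :=
  if h : u ∈ C5 then f ⟨u, h⟩ else 0

theorem F_eq (u : Fin 5 → ZMod 2 × ZMod 2) (h : u ∈ C5) : F u = f ⟨u, h⟩ := by simp [F, h]

theorem F_iso : IsIsometry C5 C5 F := by
  refine ⟨⟨fun u h => ?_, fun u h v h' huv => ?_, fun u h => ?_⟩, fun a ha b hb => ?_,
    fun r a ha => ?_, fun c hc => ?_⟩
  · rw [F_eq u h]; exact (f ⟨u, h⟩).2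
  · rw [F_eq u h, F_eq v h'] at huv
    exact congrArg Subtype.val (f.injective (Subtype.ext huv))
  · refine ⟨f.symm ⟨u, h⟩, (f.symm ⟨u, h⟩).2, ?_⟩
    rw [F_eq _ (f.symm ⟨u, h⟩).2]; simp
  · rw [F_eq a ha, F_eq b hb, F_eq _ (C5.add_mem ha hb), ← Submodule.coe_add, ← map_add]; rfl
  · rw [F_eq a ha, F_eq _ (C5.smul_mem r ha), ← Submodule.coe_smul, ← map_smul]; rfl
  · rw [F_eq c hc]; exact f_wt ⟨c, hc⟩

theorem F_not : ¬ Extends C5 F := by
  rintro ⟨π, g, h⟩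
  refine f_not ⟨π, g, fun c i => ?_⟩
  have := h c c.2 i
  rw [F_eq _ c.2] at this
  exact this

end Pool.Agent.H41.Stab
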