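import Mathlib

set_option autoImplicit false

namespace Pool.Agent.H41.Stab

variable {q n : ℕ}

/-- the symplectic form on (F_q^2)^n -/
def symp (u v : Fin n → ZMod q × ZMod q) : ZMod q :=
  ∑ i, ((u i).1 * (v i).2 - (v i).1 * (u i).2)

/-- the symplectic dual -/
def dual (C : Submodule (ZMod q) (Fin n → ZMod q × ZMod q)) : Set (Fin n → ZMod q × ZMod q) :=
  {u | ∀ c ∈ C, symp u c = 0}

/-- stabilizer code: a subspace contained in its symplectic dual -/
def IsStab (C : Submodule (ZMod q) (Fin n → ZMod q × ZMod q)) : Prop :=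
  (C : Set (Fin n → ZMod q × ZMod q)) ⊆ dual C

open Classical in
/-- the distance of a stabilizer code; the weight is the number of nonzero coordinates -/
noncomputable def codeDist (C : Submodule (ZMod q) (Fin n → ZMod q × ZMod q)) : ℕ :=
  if (C : Set (Fin n → ZMod q × ZMod q)) = dual C then
    sInf {w | ∃ u ∈ C, u ≠ 0 ∧ hammingNorm u = w}
  else sInf {w | ∃ u ∈ dual C, u ∉ C ∧ hammingNorm u = w}

/-- f restricts to a weight-preserving linear bijection from C onto D -/
def IsIsometry (C D : Submodule (ZMod q) (Fin n → ZMod q × ZMod q))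
    (f : (Fin n → ZMod q × ZMod q) → (Fin n → ZMod q × ZMod q)) : Prop :=
  Set.BijOn f C D ∧ (∀ a ∈ C, ∀ b ∈ C, f (a + b) = f a + f b) ∧
    (∀ r : ZMod q, ∀ a ∈ C, f (r • a) = r • f a) ∧ ∀ c ∈ C, hammingNorm (f c) = hammingNorm c

/-- the group GL(2, q), as linear automorphisms of F_q^2 -/
def GL2 (q : ℕ) : Type := (ZMod q × ZMod q) ≃ₗ[ZMod q] (ZMod q × ZMod q)

/-- the action of GL(2, q) on F_q^2 -/
def GL2.app (g : GL2 q) (x : ZMod q × ZMod q) : ZMod q × ZMod q :=
  (show (ZMod q × ZMod q) ≃ₗ[ZMod q] (ZMod q × ZMod q) from g) x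

/-- some monomial transformation agrees with f on C -/
def Extends (C : Submodule (ZMod q) (Fin n → ZMod q × ZMod q))
    (f : (Fin n → ZMod q × ZMod q) → (Fin n → ZMod q × ZMod q)) : Prop :=
  ∃ (π : Equiv.Perm (Fin n)) (g : Fin n → GL2 q), ∀ c ∈ C, ∀ i, f c i = (g i).app (c (π.symm i))

end Pool.Agent.H41.Stab
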