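import Pool.Agent.H41.TFDefs

namespace Pool.Agent.H41.TF

open MeasureTheory Filter Metric ContinuousLinearMap
open scoped ENNReal NNReal Convolution Topology

theorem cs {f w : E3 → ℝ≥0∞} (hf : AEMeasurable f) (hw : AEMeasurable w) (h : ∫⁻ x, w x = 1) :
    (∫⁻ x, f x * w x) ^ 2 ≤ ∫⁻ x, f x ^ 2 * w x := by
  have h1 := ENNReal.lintegral_mul_norm_pow_le (μ := volume) (f := fun x => f x ^ 2 * w x)
    (by fun_prop) hw (p := 1 / 2) (q := 1 / 2) (by norm_num) (by norm_num) (by norm_num)
  have e : ∀ a : ℝ≥0∞, (a ^ 2) ^ (1 / 2 : ℝ) = a := fun a => by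
    rw [← ENNReal.rpow_natCast, ← ENNReal.rpow_mul]; norm_num
  have e' : ∀ a : ℝ≥0∞, (a ^ (1 / 2 : ℝ)) ^ 2 = a := fun a => by
    rw [← ENNReal.rpow_natCast, ← ENNReal.rpow_mul]; norm_num
  simp only [← ENNReal.mul_rpow_of_nonneg _ _ (by norm_num : (0 : ℝ) ≤ 1 / 2), mul_assoc, ← sq,
    ← mul_pow, e, h, mul_one] at h1
  exact (pow_le_pow_left' h1 2).trans_eq (e' _)

theorem sob : ∃ C : ℝ≥0, ∀ (u : E3 → ℝ) (G : E3 → E3 →L[ℝ] ℝ), HasCompactSupport u →
    LocallyIntegrable u → LocallyIntegrable G → WeakDeriv u G →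
    eLpNorm u 6 ≤ C * eLpNorm G 2 := by
  refine ⟨SNormLESNormFDerivOfEqConst ℝ (volume : Measure E3) 2, fun u G hc hu hG h => ?_⟩
  let φ : ℕ → ContDiffBump (0 : E3) := fun n =>
    ⟨1 / ((n : ℝ) + 1) / 2, 1 / ((n : ℝ) + 1), by positivity, half_lt_self (by positivity)⟩
  have h1 := ContDiffBump.ae_convolution_tendsto_right_of_locallyIntegrable (μ := volume) (φ := φ)
    (K := 2) tendsto_one_div_add_atTop_nhds_zero_nat
    (Eventually.of_forall fun n => le_of_eq (by simp only [φ]; ring)) hu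
  have key : ∀ η : E3 → ℝ, ContDiff ℝ (⊤ : ℕ∞) η → HasCompactSupport η → (∀ x, 0 ≤ η x) →
      ∫ x, η x = 1 → eLpNorm (u ⋆[lsmul ℝ ℝ] η) 6 ≤
        SNormLESNormFDerivOfEqConst ℝ (volume : Measure E3) 2 * eLpNorm G 2 := by
    intro η h2 h3 h4 h5
    have h6 : ContDiff ℝ 1 η := h2.of_le (by simp)
    have h7 := h6.continuous
    have h8 := h6.continuous_fderiv one_ne_zero
    refine (eLpNorm_le_eLpNorm_fderiv_of_eq volume (h3.contDiff_convolution_right _ hu h6)
      (hc.convolution _ h3) (p := 2) (p' := 6) (by norm_num) (by simp)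
      (by simp; norm_num)).trans (mul_le_mul_right ?_ _)
    have hw : ∀ x, ∫⁻ t, ENNReal.ofReal (η (x - t)) = 1 := fun x => by
      rw [lintegral_sub_left_eq_self (fun t => ENNReal.ofReal (η t)), ← ofReal_integral_eq_lintegral_ofReal
        (h7.integrable_of_hasCompactSupport h3) (Eventually.of_forall h4), h5, ENNReal.ofReal_one]
    have hw' : ∀ t, ∫⁻ x, ENNReal.ofReal (η (x - t)) = 1 := fun t => by
      rw [lintegral_sub_right_eq_self (fun t => ENNReal.ofReal (η t)), ← hw 0,
        lintegral_sub_left_eq_self (fun t => ENNReal.ofReal (η t))]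
    have hm := hG.aestronglyMeasurable.enorm
    have h9 : ∀ x, ‖fderiv ℝ (u ⋆[lsmul ℝ ℝ] η) x‖ₑ ≤
        ∫⁻ t, ‖G t‖ₑ * ENNReal.ofReal (η (x - t)) := fun x => by
      have c1 : HasCompactSupport fun t => η (x - t) := h3.comp_homeomorph (Homeomorph.subLeft x)
      have i1 := hG.integrable_smul_left_of_hasCompactSupport (g := fun t => η (x - t))
        (by fun_prop) c1
      have e : fderiv ℝ (u ⋆[lsmul ℝ ℝ] η) x = ∫ t, η (x - t) • G t := by
        ext v
        rw [(h3.hasFDerivAt_convolution_right _ hu h6 x).fderiv,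
          convolution_precompR_apply _ hu (h3.fderiv ℝ) h8, integral_apply i1, convolution_def]
        have h10 := h (fun t => η (x - t)) (by fun_prop) c1 v
        have e1 : ∀ t, fderiv ℝ (fun t => η (x - t)) t v = -fderiv ℝ η (x - t) v := fun t => by
          rw [HasFDerivAt.fderiv (f := fun t => η (x - t))
            (((h6.differentiable one_ne_zero) (x - t)).hasFDerivAt.comp t
            ((hasFDerivAt_id t).const_sub x))]
          simp
        simp only [e1] at h10
        rw [integral_add] at h10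
        · simp only [mul_neg, integral_neg] at h10
          simp only [lsmul_apply, smul_eq_mul, smul_apply, mul_comm (η _)]
          linarith
        · exact hu.integrable_smul_right_of_hasCompactSupport (by fun_prop)
            (((h3.fderiv_apply ℝ v).comp_homeomorph (Homeomorph.subLeft x)).neg)
        · simpa [mul_comm] using i1.apply_continuousLinearMap v
      rw [e]
      refine (enorm_integral_le_lintegral_enorm _).trans_eq (lintegral_congr fun t => ?_)
      rw [enorm_smul, mul_comm, Real.enorm_of_nonneg (h4 _)]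
    rw [eLpNorm_eq_lintegral_rpow_enorm_toReal (by simp) (by simp),
      eLpNorm_eq_lintegral_rpow_enorm_toReal (by simp) (by simp)]
    refine ENNReal.rpow_le_rpow ?_ (by simp)
    simp only [ENNReal.coe_ofNat, ENNReal.toReal_ofNat, ENNReal.rpow_ofNat]
    refine (lintegral_mono fun x => (pow_le_pow_left' (h9 x) 2).trans
      (cs hm (by fun_prop) (hw x))).trans_eq ?_
    rw [lintegral_lintegral_swap ((hm.pow_const 2).comp_snd.mul
      (Measurable.aemeasurable (by fun_prop)))]
    refine lintegral_congr fun t => ?_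
    rw [lintegral_const_mul _ (by fun_prop), hw', mul_one]
  refine Lp.eLpNorm_le_of_ae_tendsto (u := atTop) (f := fun n => u ⋆[lsmul ℝ ℝ] (φ n).normed volume)
    (Eventually.of_forall fun n => key _ (φ n).contDiff_normed (φ n).hasCompactSupport_normed
      (φ n).nonneg_normed (φ n).integral_normed)
    (fun n => ((φ n).hasCompactSupport_normed.continuous_convolution_right _ hu
      (φ n).continuous_normed).aestronglyMeasurable) ?_
  filter_upwards [h1] with x hx
  convert hx using 2 with n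
  rw [convolution_lsmul_swap, convolution_def]
  simp [mul_comm]

theorem loc : ∃ C : ℝ≥0, ∀ (ψ : E3 → ℝ) (g : E3 → E3 →L[ℝ] ℝ), MemLp ψ 2 → MemLp g 2 →
    WeakDeriv ψ g → ∀ y, (∫⁻ x in closedBall y (1 / 4), (‖ψ x‖ₑ ^ 2) ^ 3) ^ (1 / 3 : ℝ) ≤
      C * ∫⁻ x in closedBall y (1 / 2), (‖g x‖ₑ ^ 2 + ‖ψ x‖ₑ ^ 2) := by
  obtain ⟨C, hC⟩ := sob
  let b : ContDiffBump (0 : E3) := ⟨1 / 4, 1 / 2, by norm_num, by norm_num⟩
  have hb : ContDiff ℝ (⊤ : ℕ∞) b := b.contDiff
  have hb' := hb.continuous_fderiv (by simp)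
  obtain ⟨K, hK⟩ := (b.hasCompactSupport.fderiv ℝ).exists_bound_of_continuous hb'
  have K0 : 0 ≤ K := (norm_nonneg _).trans (hK 0)
  refine ⟨C ^ 2 * (2 + 2 * K ^ 2).toNNReal, fun ψ g hψ hg h y => ?_⟩
  obtain ⟨χ, hχ⟩ : ∃ χ : E3 → ℝ, χ = fun x => b (x - y) := ⟨_, rfl⟩
  have c1 : HasCompactSupport χ := hχ ▸ b.hasCompactSupport.comp_homeomorph (Homeomorph.subRight y)
  have c2 : ContDiff ℝ (⊤ : ℕ∞) χ := by rw [hχ]; fun_prop
  have c3 : ∀ x, fderiv ℝ χ x = fderiv ℝ b (x - y) := fun x => by rw [hχ, fderiv_comp_sub]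
  have l1 := hψ.locallyIntegrable one_le_two
  have l2 := hg.locallyIntegrable one_le_two
  have h1 := hC (fun x => χ x * ψ x) (fun x => χ x • g x + ψ x • fderiv ℝ χ x) c1.mul_right
    (l1.integrable_smul_left_of_hasCompactSupport c2.continuous c1).locallyIntegrable
    ((l2.integrable_smul_left_of_hasCompactSupport c2.continuous c1).add
      (l1.integrable_smul_right_of_hasCompactSupport (c2.continuous_fderiv (by simp))
        (c1.fderiv ℝ))).locallyIntegrable fun φ h1 h2 v => by
      rw [← h (fun x => χ x * φ x) (c2.mul h1) c1.mul_right v]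
      refine integral_congr_ae (Eventually.of_forall fun x => ?_)
      simp only [fderiv_fun_mul (c2.differentiable (by simp) x) (h1.differentiable (by simp) x),
        add_apply, smul_apply, smul_eq_mul]
      ring
  rw [eLpNorm_eq_lintegral_rpow_enorm_toReal (by simp) (by simp),
    eLpNorm_eq_lintegral_rpow_enorm_toReal (by simp) (by simp)] at h1
  have h2 := pow_le_pow_left' h1 2
  rw [mul_pow, ← ENNReal.rpow_natCast, ← ENNReal.rpow_natCast (_ ^ _), ← ENNReal.rpow_mul,
    ← ENNReal.rpow_mul] at h2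
  norm_num at h2
  rw [ENNReal.coe_mul, ENNReal.coe_pow, mul_assoc, ← lintegral_const_mul' _ _ ENNReal.coe_ne_top,
    ← lintegral_indicator measurableSet_closedBall, ← lintegral_indicator measurableSet_closedBall]
  refine le_trans ?_ (h2.trans (mul_le_mul_right (lintegral_mono fun x => ?_) _))
  · refine ENNReal.rpow_le_rpow (lintegral_mono fun x => ?_) (by norm_num)
    refine Set.indicator_apply_le' (fun hx => le_of_eq ?_) fun _ => zero_le
    have : χ x = 1 := by
      rw [hχ]; exact b.one_of_mem_closedBall (by simpa [dist_eq_norm, b] using hx)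
    rw [this, ← pow_mul]; simp
  · by_cases hx : x ∈ closedBall y (1 / 2)
    · rw [Set.indicator_of_mem hx, ← ofReal_norm, ← ofReal_norm, ← ofReal_norm,
        ← ENNReal.ofReal_pow (norm_nonneg _), ← ENNReal.ofReal_pow (norm_nonneg _),
        ← ENNReal.ofReal_pow (norm_nonneg _), ← ENNReal.ofReal_add (by positivity) (by positivity)]
      refine (ENNReal.ofReal_le_ofReal ?_).trans_eq (ENNReal.ofReal_mul (by positivity))
      have h3 : ‖χ x • g x + ψ x • fderiv ℝ χ x‖ ≤ ‖g x‖ + ‖ψ x‖ * K := by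
        refine (norm_add_le _ _).trans (add_le_add ?_ ?_) <;> rw [norm_smul]
        · rw [hχ, Real.norm_of_nonneg b.nonneg]
          exact mul_le_of_le_one_left (norm_nonneg _) b.le_one
        · rw [c3]; exact mul_le_mul_of_nonneg_left (hK _) (norm_nonneg _)
      nlinarith [pow_le_pow_left₀ (norm_nonneg _) h3 2, sq_nonneg (‖g x‖ - ‖ψ x‖ * K),
        sq_nonneg (‖g x‖ * K), sq_nonneg ‖ψ x‖]
    · have h3 : x - y ∉ tsupport b := by
        rw [b.tsupport_eq]; simpa [dist_eq_norm, b] using hx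
      have h4 : χ x = 0 := by rw [hχ]; exact image_eq_zero_of_notMem_tsupport h3
      rw [c3, fderiv_of_notMem_tsupport ℝ h3, h4, zero_smul, smul_zero, add_zero, ← ofReal_norm,
        norm_zero, ENNReal.ofReal_zero, zero_pow two_ne_zero]
      exact zero_le

end Pool.Agent.H41.TF

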