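import Pool.Agent.H41.TF1

namespace Pool.Agent.H41.TF

open MeasureTheory Filter Metric
open scoped ENNReal NNReal

theorem avg {f : E3 → ℝ≥0∞} (hf : AEMeasurable f) (s : ℝ) :
    ∫⁻ y, ∫⁻ x in closedBall y s, f x = volume (closedBall (0 : E3) s) * ∫⁻ x, f x := by
  have hm : MeasurableSet {z : E3 × E3 | dist z.2 z.1 ≤ s} :=
    measurableSet_le (by fun_prop) measurable_const
  have e : ∀ y, ∫⁻ x in closedBall y s, f x =
      ∫⁻ x, {z : E3 × E3 | dist z.2 z.1 ≤ s}.indicator (fun z => f z.2) (y, x) := fun y => by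
    rw [← lintegral_indicator measurableSet_closedBall]; rfl
  simp only [e]
  rw [lintegral_lintegral_swap (f := fun y x => {z : E3 × E3 | dist z.2 z.1 ≤ s}.indicator
    (fun z => f z.2) (y, x)) (hf.comp_snd.indicator hm), ← lintegral_const_mul'' _ hf]
  refine lintegral_congr fun x => ?_
  rw [← Measure.addHaar_closedBall_center volume x, mul_comm, ← setLIntegral_const,
    ← lintegral_indicator measurableSet_closedBall]
  refine lintegral_congr fun y => ?_
  simp only [Set.indicator, Set.mem_ofPred_eq, mem_closedBall, dist_comm]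

noncomputable def Phi (r : E3 → ℝ≥0∞) (y : E3) : ℝ≥0∞ := ∫⁻ x, r x * ENNReal.ofReal ‖y - x‖⁻¹

theorem Phi_meas {r : E3 → ℝ≥0∞} (hr : AEMeasurable r) : AEMeasurable (Phi r) :=
  AEMeasurable.lintegral_prod_right' (f := fun z : E3 × E3 => r z.2 * ENNReal.ofReal ‖z.1 - z.2‖⁻¹)
    (hr.comp_snd.mul (Measurable.aemeasurable (by fun_prop)))

def Loc (C : ℝ≥0) (r t : E3 → ℝ≥0∞) : Prop := AEMeasurable r ∧ AEMeasurable t ∧
  ∀ y, (∫⁻ x in closedBall y (1 / 4), r x ^ 3) ^ (1 / 3 : ℝ) ≤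
    C * ∫⁻ x in closedBall y (1 / 2), (t x + r x)

theorem hol {C : ℝ≥0} {r t f : E3 → ℝ≥0∞} (h : Loc C r t) (hf : AEMeasurable f) (y : E3) :
    ∫⁻ x in closedBall y (1 / 4), r x * f x ^ (2 / 3 : ℝ) ≤
      C * (∫⁻ x in closedBall y (1 / 2), (t x + r x)) *
        (∫⁻ x in closedBall y (1 / 4), f x) ^ (2 / 3 : ℝ) := by
  have h1 := ENNReal.lintegral_mul_norm_pow_le (μ := volume.restrict (closedBall y (1 / 4)))
    (h.1.pow_const 3).restrict hf.restrict (p := 1 / 3) (q := 2 / 3) (by norm_num) (by norm_num)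
    (by norm_num)
  have e : ∀ a : ℝ≥0∞, (a ^ 3) ^ (1 / 3 : ℝ) = a := fun a => by
    rw [← ENNReal.rpow_natCast, ← ENNReal.rpow_mul]; norm_num
  simp only [e] at h1
  exact h1.trans (mul_le_mul_left (h.2.2 y) _)

theorem coul (C : ℝ≥0) : ∃ K : ℝ≥0∞, K ≠ ∞ ∧ ∀ r t, Loc C r t → ∀ y,
    Phi r y ≤ K * ∫⁻ x, (t x + r x) := by
  have e : ∀ a : ℝ≥0∞, (a ^ (3 / 2 : ℝ)) ^ (2 / 3 : ℝ) = a := fun a => by
    rw [← ENNReal.rpow_mul]; norm_num
  obtain ⟨w, hw⟩ : ∃ w : E3 → ℝ≥0∞, w = (closedBall 0 (1 / 4)).indicator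
    fun x => ENNReal.ofReal ‖x‖⁻¹ ^ (3 / 2 : ℝ) := ⟨_, rfl⟩
  have h1 : ∫⁻ x, w x ≠ ∞ := by
    have := (integrableOn_ball_of_norm_le_rpow (μ := volume) (f := fun x : E3 => ‖x‖⁻¹ ^ (3 / 2 : ℝ))
      (C := 1) (α := 3 / 2) (r := 1) (by simp) (by norm_num)
      (Eventually.of_forall fun x => by
        rw [Real.norm_of_nonneg (by positivity), one_mul, Real.rpow_neg (norm_nonneg _),
          Real.inv_rpow (norm_nonneg _)])
      (Measurable.aestronglyMeasurable (by fun_prop))).mono_set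
      (closedBall_subset_ball (by norm_num : (1 / 4 : ℝ) < 1))
    rw [hw, lintegral_indicator measurableSet_closedBall]
    simp only [ENNReal.ofReal_rpow_of_nonneg (inv_nonneg.mpr (norm_nonneg _))
      (by norm_num : (0 : ℝ) ≤ 3 / 2)]
    exact this.lintegral_lt_top.ne
  refine ⟨C * (∫⁻ x, w x) ^ (2 / 3 : ℝ) + 4, by finiteness, fun r t h y => ?_⟩
  rw [Phi, ← lintegral_add_compl _ (measurableSet_closedBall (x := y) (ε := 1 / 4)), add_mul]
  refine add_le_add ?_ ?_
  · have h2 := hol h (f := fun x => ENNReal.ofReal ‖y - x‖⁻¹ ^ (3 / 2 : ℝ)) (by fun_prop) y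
    simp only [e] at h2
    refine h2.trans ?_
    rw [mul_right_comm]
    refine mul_le_mul' (mul_le_mul_right (ENNReal.rpow_le_rpow ?_ (by norm_num)) _)
      (setLIntegral_le_lintegral _ _)
    rw [← lintegral_sub_left_eq_self w y, ← lintegral_indicator measurableSet_closedBall, hw]
    refine lintegral_mono fun x => le_of_eq ?_
    simp only [Set.indicator, mem_closedBall, dist_eq_norm', zero_sub, norm_neg]
  · rw [← lintegral_const_mul' _ _ (by simp)]
    refine (setLIntegral_mono' measurableSet_closedBall.compl fun x hx => ?_).trans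
      (setLIntegral_le_lintegral _ _)
    rw [mul_comm]
    refine mul_le_mul' (ENNReal.ofReal_le_of_le_toReal ?_) le_add_self
    simp only [Set.mem_compl_iff, mem_closedBall, not_le, dist_eq_norm'] at hx
    rw [inv_le_comm₀ (by linarith) (by simp)]
    norm_num
    exact hx.le

theorem tail (C : ℝ≥0) {s δ : ℝ≥0∞} (hs : s ≠ 0) (hs' : s ≠ ∞) (hδ : δ ≠ 0) :
    ∃ M : ℝ≥0∞, M ≠ ∞ ∧ ∀ r t h, Loc C r t → AEMeasurable h →
    (∀ x, h x ≤ r x ∧ (h x ≠ 0 → s ≤ r x)) →
    ∫⁻ x, h x ≤ δ * (∫⁻ x, (t x + r x)) + M * ∫⁻ x, r x * Phi r x := by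
  obtain ⟨v, hv⟩ : ∃ v, v = volume (closedBall (0 : E3) (1 / 2)) := ⟨_, rfl⟩
  obtain ⟨v', hv'⟩ : ∃ v, v = volume (closedBall (0 : E3) (1 / 4)) := ⟨_, rfl⟩
  have a1 : v ≠ ∞ := hv ▸ measure_closedBall_lt_top.ne
  have a2 : v' ≠ ∞ := hv' ▸ measure_closedBall_lt_top.ne
  have a3 : v' ≠ 0 := hv' ▸ (measure_closedBall_pos _ _ (by norm_num)).ne'
  obtain ⟨η, h0, hη⟩ := ENNReal.exists_nnreal_pos_mul_lt (a := v'⁻¹ * C * v) (by finiteness) hδ
  obtain ⟨m, hm⟩ : ∃ m : ℝ≥0∞, m = s * η ^ (3 / 2 : ℝ) := ⟨_, rfl⟩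
  have a4 : m ≠ 0 := by rw [hm]; simp [hs, h0.ne']
  have a5 : m ≠ ∞ := by rw [hm]; finiteness
  refine ⟨v'⁻¹ * m⁻¹ * v, by finiteness, fun r t h H hh h1 => ?_⟩
  have b1 : ∀ y, ∫⁻ x in closedBall y (1 / 4), h x ≤
      C * η * (∫⁻ x in closedBall y (1 / 2), (t x + r x)) +
        m⁻¹ * ∫⁻ x in closedBall y (1 / 2), r x * Phi r x := fun y => by
    have c1 : ∫⁻ x in closedBall y (1 / 4), r x ≤ ∫⁻ x in closedBall y (1 / 2), r x :=
      lintegral_mono_set (closedBall_subset_closedBall (by norm_num))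
    rcases le_total (∫⁻ x in closedBall y (1 / 2), r x) m with c2 | c2
    · refine le_add_right ((lintegral_mono fun x => ?_).trans
        ((hol H (f := fun x => s⁻¹ * r x) (H.1.const_mul _) y).trans ?_))
      · by_cases c3 : h x = 0
        · simp [c3]
        refine (h1 x).1.trans (le_mul_of_one_le_right' (ENNReal.one_le_rpow ?_ (by norm_num)))
        rw [← ENNReal.inv_mul_cancel hs hs']
        exact mul_le_mul_right ((h1 x).2 c3) _
      · rw [mul_right_comm, lintegral_const_mul' _ _ (by finiteness)]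
        gcongr
        refine (ENNReal.rpow_le_rpow (mul_le_mul_right (c1.trans c2) _) (by norm_num)).trans_eq ?_
        rw [hm, ← mul_assoc, ENNReal.inv_mul_cancel hs hs', one_mul, ← ENNReal.rpow_mul]
        norm_num
    · refine le_add_left (((lintegral_mono fun x => (h1 x).1).trans c1).trans ?_)
      rw [← lintegral_const_mul' _ _ (by finiteness)]
      refine setLIntegral_mono' measurableSet_closedBall fun x hx => ?_
      rw [mul_left_comm]
      refine le_mul_of_one_le_right' ?_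
      rw [← ENNReal.inv_mul_cancel a4 a5]
      refine mul_le_mul_right (c2.trans ?_) _
      rw [← lintegral_indicator measurableSet_closedBall]
      refine lintegral_mono_ae ?_
      filter_upwards [Measure.ae_ne volume x] with x' hx'
      refine Set.indicator_apply_le' (fun h2 => le_mul_of_one_le_right' ?_) fun _ => zero_le
      rw [ENNReal.one_le_ofReal, one_le_inv₀ (norm_pos_iff.mpr (sub_ne_zero.mpr hx'.symm)),
        ← dist_eq_norm]
      linarith [dist_triangle_right x x' y, mem_closedBall.mp hx, mem_closedBall.mp h2]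
  have b2 := lintegral_mono (μ := volume) b1
  have m1 : AEMeasurable fun x => t x + r x := H.2.1.add H.1
  have m2 : AEMeasurable fun x => r x * Phi r x := H.1.mul (Phi_meas H.1)
  rw [avg hh, lintegral_add_left', lintegral_const_mul' _ _ (by finiteness),
    lintegral_const_mul' _ _ (by finiteness), avg m1, avg m2, ← hv, ← hv'] at b2
  · have b3 := mul_le_mul_right b2 v'⁻¹
    rw [← mul_assoc, ENNReal.inv_mul_cancel a3 a2, one_mul] at b3
    refine b3.trans ?_
    rw [mul_add]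
    refine add_le_add ((le_of_eq ?_).trans (mul_le_mul_left hη.le _)) (le_of_eq ?_) <;> ring
  · refine AEMeasurable.const_mul ?_ _
    have hm : MeasurableSet {z : E3 × E3 | dist z.2 z.1 ≤ 1 / 2} :=
      measurableSet_le (by fun_prop) measurable_const
    simp only [← lintegral_indicator measurableSet_closedBall]
    exact (m1.comp_snd.indicator hm).lintegral_prod_right'

end Pool.Agent.H41.TF
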