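import Pool.Agent.H41.TF2

namespace Pool.Agent.H41.TF

open MeasureTheory Filter Metric
open scoped ENNReal NNReal

noncomputable def cut (s t : ℝ) : ℝ := if s < t then t else 0

theorem cut_int {ρ : E3 → ℝ} (h : Integrable ρ) (s : ℝ) : Integrable fun x => cut s (ρ x) :=
  h.norm.mono' (Measurable.comp_aemeasurable (g := cut s)
    (Measurable.ite measurableSet_Ioi measurable_id measurable_const)
      h.aemeasurable).aestronglyMeasurable
    (Eventually.of_forall fun x => by unfold cut; split_ifs <;> simp)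

theorem key : ∃ K : ℝ, 0 < K ∧ ∀ s δ : ℝ, 0 < s → 0 < δ → ∃ M : ℝ, 0 < M ∧ ∀ p ρ g, Adm p ρ g →
    (∀ y, Integrable (fun x => ρ x / ‖y - x‖) ∧
      ∫ x, ρ x / ‖y - x‖ ≤ K * ((∫ x, ‖g x‖ ^ 2) + ∫ x, ρ x)) ∧ 0 ≤ D ρ ∧
    D ρ ≤ K * ((∫ x, ‖g x‖ ^ 2) + ∫ x, ρ x) * ∫ x, ρ x ∧
    ∫ x, cut s (ρ x) ≤ δ * ((∫ x, ‖g x‖ ^ 2) + ∫ x, ρ x) + M * D ρ := by
  obtain ⟨C, hC⟩ := loc
  obtain ⟨K, hK, h1⟩ := coul C
  refine ⟨K.toReal + 1, by positivity, fun s δ hs hδ => ?_⟩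
  obtain ⟨M, hM, h2⟩ := tail C (s := ENNReal.ofReal s) (δ := ENNReal.ofReal δ) (by simpa)
    (by simp) (by simpa)
  refine ⟨2 * M.toReal + 1, by positivity, fun p ρ g ⟨a1, a2, _, a4, a5⟩ => ?_⟩
  have i1 : Integrable fun x => ‖g x‖ ^ 2 := (memLp_two_iff_integrable_sq_norm a4.1).mp a4
  have m1 := a2.aemeasurable
  have H : Loc C (fun x => ENNReal.ofReal (ρ x)) fun x => ‖g x‖ₑ ^ 2 := by
    refine ⟨by fun_prop, a4.1.enorm.pow_const 2, fun y => ?_⟩
    have := hC _ g ((memLp_two_iff_integrable_sq (AEMeasurable.aestronglyMeasurable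
      (by fun_prop))).mpr (by simpa only [Real.sq_sqrt (a1 _)] using a2)) a4 a5 y
    simpa only [Real.enorm_of_nonneg (Real.sqrt_nonneg _),
      ← ENNReal.ofReal_pow (Real.sqrt_nonneg _), Real.sq_sqrt (a1 _)] using this
  obtain ⟨l, hl⟩ : ∃ l, l = ∫ x, ρ x := ⟨_, rfl⟩
  obtain ⟨T, hT⟩ : ∃ T, T = ∫ x, ‖g x‖ ^ 2 := ⟨_, rfl⟩
  have l0 : 0 ≤ l := hl ▸ integral_nonneg a1
  have T0 : 0 ≤ T := hT ▸ integral_nonneg fun x => by positivity
  have e1 : ∫⁻ x, ENNReal.ofReal (ρ x) = ENNReal.ofReal l := by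
    rw [hl, ofReal_integral_eq_lintegral_ofReal a2 (Eventually.of_forall a1)]
  have e2 : ∫⁻ x, (‖g x‖ₑ ^ 2 + ENNReal.ofReal (ρ x)) = ENNReal.ofReal (T + l) := by
    rw [lintegral_add_left' H.2.1, e1, ENNReal.ofReal_add T0 l0, hT,
      ofReal_integral_eq_lintegral_ofReal i1 (Eventually.of_forall fun x => by positivity)]
    simp only [ENNReal.ofReal_pow (norm_nonneg _), ofReal_norm]
  have b1 := h1 _ _ H
  have b2 := h2 _ _ (fun x => ENNReal.ofReal (cut s (ρ x))) H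
    (cut_int a2 s).aemeasurable.ennreal_ofReal fun x => by
      unfold cut
      split_ifs with h
      exacts [⟨le_rfl, fun _ => ENNReal.ofReal_le_ofReal h.le⟩, by simp]
  rw [e2] at b1 b2
  obtain ⟨P, hP⟩ : ∃ P, P = Phi fun x => ENNReal.ofReal (ρ x) := ⟨_, rfl⟩
  have mP : AEMeasurable P := hP ▸ Phi_meas H.1
  rw [← hP] at b1 b2
  have f1 : ∀ y, P y ≠ ∞ := fun y => ne_top_of_le_ne_top (by finiteness) (b1 y)
  have n1 : ∀ y x, 0 ≤ ρ x / ‖y - x‖ := fun y x => div_nonneg (a1 x) (norm_nonneg _)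
  have e3 : ∀ y, ∫⁻ x, ENNReal.ofReal (ρ x / ‖y - x‖) = P y := fun y => by
    simp only [hP, Phi, div_eq_mul_inv, ENNReal.ofReal_mul (a1 _)]
  have m2 : ∀ y, AEStronglyMeasurable fun x => ρ x / ‖y - x‖ := fun y =>
    (m1.div (Measurable.aemeasurable (by fun_prop))).aestronglyMeasurable
  have e4 : ∀ y, ∫ x, ρ x / ‖y - x‖ = (P y).toReal := fun y => by
    rw [integral_eq_lintegral_of_nonneg_ae (Eventually.of_forall (n1 y)) (m2 y), e3]
  have e5 : 2 * D ρ = (∫⁻ x, ENNReal.ofReal (ρ x) * P x).toReal := by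
    simp only [D, mul_div_assoc, integral_const_mul, e4]
    rw [integral_eq_lintegral_of_nonneg_ae (Eventually.of_forall fun x =>
      mul_nonneg (a1 x) ENNReal.toReal_nonneg) (m1.mul mP.ennreal_toReal).aestronglyMeasurable]
    simp only [ENNReal.ofReal_mul (a1 _), ENNReal.ofReal_toReal (f1 _)]
    ring
  have b3 : ∫⁻ x, ENNReal.ofReal (ρ x) * P x ≤ ENNReal.ofReal l * (K * ENNReal.ofReal (T + l)) := by
    rw [← e1, ← lintegral_mul_const'' _ H.1]
    exact lintegral_mono fun x => mul_le_mul_right (b1 x) _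
  have f2 := ne_top_of_le_ne_top (by finiteness) b3
  have b4 := ENNReal.toReal_mono (by finiteness) b3
  have b5 := ENNReal.toReal_mono (by finiteness) b2
  have D0 : 0 ≤ 2 * D ρ := e5 ▸ ENNReal.toReal_nonneg
  rw [← integral_eq_lintegral_of_nonneg_ae (Eventually.of_forall fun x => by
    unfold cut; split_ifs; exacts [a1 x, le_rfl]) (cut_int a2 s).1,
    ENNReal.toReal_add (by finiteness) (by finiteness)] at b5
  simp only [ENNReal.toReal_mul, ← e5, ENNReal.toReal_ofReal l0, ENNReal.toReal_ofReal hδ.le,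
    ENNReal.toReal_ofReal (add_nonneg T0 l0)] at b4 b5
  rw [← hl, ← hT]
  have K0 : 0 ≤ K.toReal := ENNReal.toReal_nonneg
  refine ⟨fun y => ⟨⟨m2 y, (hasFiniteIntegral_iff_ofReal (Eventually.of_forall (n1 y))).mpr
    (e3 y ▸ (f1 y).lt_top)⟩, ?_⟩, by linarith, ?_, by nlinarith⟩
  · have := ENNReal.toReal_mono (by finiteness) (b1 y)
    rw [ENNReal.toReal_mul, ENNReal.toReal_ofReal (add_nonneg T0 l0)] at this
    rw [e4]; nlinarith
  · nlinarith [mul_nonneg (add_nonneg T0 l0) l0]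

end Pool.Agent.H41.TF
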