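import Pool.Agent.H41.TF3

namespace Pool.Agent.H41.TF

open MeasureTheory Filter Metric
open scoped ENNReal NNReal Topology

variable {p A γ C : ℝ} {k : ℕ} {z : Fin k → ℝ} {R : Fin k → E3} {ρ : E3 → ℝ}
  {g : E3 → E3 →L[ℝ] ℝ}

theorem alpha_pos (hp : 4 / 3 < p) (hγ : 0 < γ) (hC : 0 < C) : 0 < alpha p γ C := by
  have : 0 < p - 1 := by linarith
  have : 0 < 3 * p - 4 := by linarith
  have : 0 < p := by linarith
  unfold alpha rho0; positivity

theorem J_ge (hp : 4 / 3 < p) (hγ : 0 < γ) (hC : 0 < C) {t : ℝ} (ht : 0 ≤ t) :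
    0 ≤ J p γ C t + alpha p γ C * t := by
  have h1 : 0 < p - 1 := by linarith
  have h2 : 0 < p := by linarith
  have h3 : 0 < C * p / (4 * γ * (p - 1)) := by positivity
  have h4 : 0 < rho0 p γ C := Real.rpow_pos_of_pos h3 _
  obtain ⟨σ, hσ⟩ : ∃ σ, σ = rho0 p γ C ^ (1 / 3 : ℝ) := ⟨_, rfl⟩
  have h5 : 0 < σ := hσ ▸ Real.rpow_pos_of_pos h4 _
  have h6 : σ ^ (3 * (p - 1)) = σ * (C * p / (4 * γ * (p - 1))) := by
    rw [show 3 * (p - 1) = 1 + 3 * (p - 4 / 3) by ring, Real.rpow_add h5, Real.rpow_one, hσ, rho0,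
      ← Real.rpow_mul h3.le, ← Real.rpow_mul h3.le, show 1 / (p - 4 / 3) * (1 / 3) *
        (3 * (p - 4 / 3)) = 1 by
        have := mul_inv_cancel₀ (by linarith : p - 4 / 3 ≠ 0)
        linear_combination this, Real.rpow_one]
  obtain ⟨u, hu⟩ : ∃ u, u = t ^ (1 / 3 : ℝ) / σ := ⟨_, rfl⟩
  have h7 : 0 ≤ u := by rw [hu]; positivity
  have h8 : t ^ (1 / 3 : ℝ) = σ * u := by rw [hu]; field_simp
  have h9 : t ^ (4 / 3 : ℝ) = t * (σ * u) := by
    rw [← h8, show (4 / 3 : ℝ) = 1 + 1 / 3 by norm_num, Real.rpow_add' ht (by norm_num),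
      Real.rpow_one]
  have h10 : t ^ p = t * (σ * (C * p / (4 * γ * (p - 1))) * u ^ (3 * (p - 1))) := by
    rw [← h6, ← Real.mul_rpow h5.le h7, ← h8, ← Real.rpow_mul ht,
      show 1 / 3 * (3 * (p - 1)) = p - 1 by ring, mul_comm, ← Real.rpow_add_one' ht (by linarith),
      sub_add_cancel]
  have h11 := one_add_mul_self_le_rpow_one_add (s := u - 1) (by linarith) (p := 3 * (p - 1))
    (by linarith)
  rw [add_sub_cancel] at h11
  rw [J, alpha, ← hσ, h9, h10]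
  refine (mul_nonneg (a := t * σ * C / (4 * (p - 1))) (by positivity)
    (sub_nonneg.mpr h11)).trans_eq ?_
  field_simp
  ring

theorem J_small (hp : 4 / 3 < p) (hγ : 0 < γ) (hC : 0 < C) {ε : ℝ} (hε : 0 < ε) :
    ∃ s, 0 < s ∧ ∀ t, 0 ≤ t → t ≤ s → -(ε * t) ≤ J p γ C t := by
  refine ⟨(ε / C) ^ 3, by positivity, fun t h0 h1 => ?_⟩
  have h2 : t ^ (1 / 3 : ℝ) ≤ ε / C := by
    refine (Real.rpow_le_rpow h0 h1 (by norm_num)).trans_eq ?_
    rw [← Real.rpow_natCast, ← Real.rpow_mul (by positivity)]; norm_num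
  have h3 : 0 ≤ γ / p * t ^ p := by have : 0 < p := by linarith
                                    positivity
  rw [J, show (4 / 3 : ℝ) = 1 + 1 / 3 by norm_num, Real.rpow_add' h0 (by norm_num), Real.rpow_one]
  rw [le_div_iff₀ hC] at h2
  nlinarith [mul_le_mul_of_nonneg_left h2 h0, mul_nonneg hε.le h0]

theorem J_int (hp : 4 / 3 < p) (h : Adm p ρ g) (a : ℝ) :
    Integrable fun x => J p γ C (ρ x) + a * ρ x := by
  obtain ⟨a1, a2, a3, -⟩ := h
  have h1 : Integrable fun x => ρ x ^ p := by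
    have := a3.integrable_norm_rpow (by simp; linarith) (by simp)
    simpa only [Real.norm_of_nonneg (a1 _), ENNReal.toReal_ofReal (by linarith : 0 ≤ p)] using this
  have m1 := a2.aemeasurable
  refine ((h1.const_mul _).sub (((a2.add h1).mono' (AEMeasurable.aestronglyMeasurable (by fun_prop))
    (Eventually.of_forall fun x => ?_)).const_mul _)).add (a2.const_mul a)
  have := a1 x
  rw [Real.norm_of_nonneg (by positivity), Pi.add_apply]
  rcases le_total (ρ x) 1 with h | h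
  · exact (Real.rpow_le_self_of_le_one this h (by norm_num)).trans
      (le_add_of_nonneg_right (by positivity))
  · exact (Real.rpow_le_rpow_of_exponent_le h hp.le).trans (le_add_of_nonneg_left this)

theorem J_low (hp : 4 / 3 < p) (h : Adm p ρ g) {a c d s : ℝ}
    (H : ∀ t, 0 ≤ t → c * t - d * cut s t ≤ J p γ C t + a * t) :
    c * (∫ x, ρ x) - d * ∫ x, cut s (ρ x) ≤ ∫ x, (J p γ C (ρ x) + a * ρ x) := by
  have h1 := h.2.1.const_mul c
  have h2 := (cut_int h.2.1 s).const_mul d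
  rw [← integral_const_mul, ← integral_const_mul, ← integral_sub h1 h2]
  exact integral_mono (h1.sub h2) (J_int hp h a) fun x => H _ (h.1 x)

theorem V_le (hz : ∀ j, 0 < z j) {B : ℝ}
    (H : ∀ y, Integrable (fun x => ρ x / ‖y - x‖) ∧ ∫ x, ρ x / ‖y - x‖ ≤ B) :
    ∫ x, V z R x * ρ x ≤ (∑ j, z j) * B := by
  have e : ∀ x, V z R x * ρ x = ∑ j, z j * (ρ x / ‖R j - x‖) := fun x => by
    rw [V, Finset.sum_mul]
    exact Finset.sum_congr rfl fun j _ => by rw [norm_sub_rev]; ring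
  simp only [e]
  rw [integral_finsetSum _ fun j _ => (H _).1.const_mul _, Finset.sum_mul]
  exact Finset.sum_le_sum fun j _ => by
    rw [integral_const_mul]; exact mul_le_mul_of_nonneg_left (H _).2 (hz j).le

theorem low1 (hp : 4 / 3 < p) (hA : 0 < A) (hγ : 0 < γ) (hC : 0 < C) :
    ∃ c Z : ℝ, 0 < c ∧ 0 < Z ∧ ∀ (k : ℕ) (z : Fin k → ℝ) (R : Fin k → E3), (∀ j, 0 < z j) →
    ∑ j, z j ≤ Z → ∀ ρ g, Adm p ρ g →
    U z R + c * ∫ x, ρ x ≤ energy p A γ C (alpha p γ C) z R ρ g := by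
  obtain ⟨K, hK, h1⟩ := key
  have hα := alpha_pos hp hγ hC
  obtain ⟨s, hs, h2⟩ := J_small hp hγ hC (half_pos hα)
  obtain ⟨M, hM, h3⟩ := h1 s (1 / 2) hs (by norm_num)
  obtain ⟨c, hc, c1, c2, c3⟩ : ∃ c, 0 < c ∧ c ≤ alpha p γ C / 2 ∧ c ≤ A ∧ c * M ≤ 1 :=
    ⟨min (alpha p γ C / 2) (min A (1 / M)), by positivity, min_le_left _ _,
      (min_le_right _ _).trans (min_le_left _ _),
      (le_div_iff₀ hM).mp ((min_le_right _ _).trans (min_le_right _ _))⟩
  refine ⟨c / 4, c / 4 / K, by positivity, by positivity, fun k z R hz hZ ρ g h => ?_⟩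
  obtain ⟨b1, b2, -, b3⟩ := h3 p ρ g h
  have b4 := V_le (R := R) hz b1
  have b5 := J_low (γ := γ) (C := C) (a := alpha p γ C) (c := c) (d := c) (s := s) hp h
    fun t ht => by
      unfold cut
      split_ifs with h
      · simpa using J_ge hp hγ hC ht
      · nlinarith [h2 t ht (not_lt.mp h)]
  have l0 : 0 ≤ ∫ x, ρ x := integral_nonneg h.1
  have T0 : 0 ≤ ∫ x, ‖g x‖ ^ 2 := integral_nonneg fun x => by positivity
  rw [le_div_iff₀ hK] at hZ
  rw [energy]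
  nlinarith [mul_le_mul_of_nonneg_left b3 hc.le, mul_le_mul_of_nonneg_right c2 T0,
    mul_le_mul_of_nonneg_right c3 b2, mul_le_mul_of_nonneg_right hZ (add_nonneg T0 l0),
    mul_nonneg hc.le T0]

theorem low2 (hp : 4 / 3 < p) (hA : 0 < A) (hγ : 0 < γ) (hC : 0 < C) {η : ℝ} (hη : 0 < η) :
    ∃ l Z : ℝ, 0 < l ∧ 0 < Z ∧ ∀ (k : ℕ) (z : Fin k → ℝ) (R : Fin k → E3), (∀ j, 0 < z j) →
    ∑ j, z j ≤ Z → ∀ ρ g, Adm p ρ g → ∫ x, ρ x ≤ l →
    U z R - η * ∫ x, ρ x ≤ energy p A γ C 0 z R ρ g := by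
  obtain ⟨K, hK, h1⟩ := key
  have hα := alpha_pos hp hγ hC
  obtain ⟨δ, hδ, c1, c2⟩ : ∃ δ, 0 < δ ∧ 4 * δ ≤ η ∧ 4 * δ ≤ A :=
    ⟨min η A / 4, by positivity, by linarith [min_le_left η A], by linarith [min_le_right η A]⟩
  obtain ⟨s, hs, h2⟩ := J_small hp hγ hC hδ
  obtain ⟨M, hM, h3⟩ := h1 s (δ / alpha p γ C) hs (by positivity)
  refine ⟨δ / (alpha p γ C * M * K), δ / K, by positivity, by positivity,
    fun k z R hz hZ ρ g h hl => ?_⟩
  obtain ⟨b1, b2, b6, b3⟩ := h3 p ρ g h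
  have b4 := V_le (R := R) hz b1
  have b5 := J_low (γ := γ) (C := C) (a := 0) (c := -δ) (d := alpha p γ C) (s := s) hp h
    fun t ht => by
      unfold cut
      split_ifs with h
      · nlinarith [J_ge hp hγ hC ht]
      · nlinarith [h2 t ht (not_lt.mp h)]
  have l0 : 0 ≤ ∫ x, ρ x := integral_nonneg h.1
  have T0 : 0 ≤ ∫ x, ‖g x‖ ^ 2 := integral_nonneg fun x => by positivity
  rw [le_div_iff₀ (by positivity)] at hZ hl
  have b7 := mul_le_mul_of_nonneg_left b3 hα.le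
  rw [mul_add, ← mul_assoc, mul_div_cancel₀ _ hα.ne'] at b7
  rw [energy]
  nlinarith [mul_le_mul_of_nonneg_right c2 T0, mul_le_mul_of_nonneg_right c1 l0,
    mul_le_mul_of_nonneg_left b6 (mul_pos hα hM).le, mul_nonneg hδ.le T0,
    mul_le_mul_of_nonneg_right hZ (add_nonneg T0 l0),
    mul_le_mul_of_nonneg_right hl (add_nonneg T0 l0)]

end Pool.Agent.H41.TF
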