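import Pool.Agent.H41.TF4

namespace Pool.Agent.H41.TF

open MeasureTheory Filter Metric
open scoped ENNReal NNReal Topology

variable {p A γ C : ℝ}

theorem adm_smooth (p : ℝ) {ψ : E3 → ℝ} (h1 : ContDiff ℝ 1 ψ) (h2 : HasCompactSupport ψ)
    (h3 : ∀ x, 0 ≤ ψ x) :
    Adm p (fun x => ψ x ^ 2) (fderiv ℝ ψ) ∧ MemLp (fun x => √(ψ x ^ 2)) 6 := by
  have c1 := h1.continuous
  have c2 := h1.continuous_fderiv one_ne_zero
  have c3 : HasCompactSupport fun x => ψ x ^ 2 := h2.comp_left (g := fun t => t ^ 2) (by simp)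
  simp only [Adm, Real.sqrt_sq (h3 _)]
  refine ⟨⟨fun x => by positivity, (c1.pow 2).integrable_of_hasCompactSupport c3,
    (c1.pow 2).memLp_of_hasCompactSupport c3, c2.memLp_of_hasCompactSupport (h2.fderiv ℝ),
    fun φ a1 a2 v => ?_⟩, c1.memLp_of_hasCompactSupport h2⟩
  have c4 := a1.continuous
  have c5 := a1.continuous_fderiv (by simp)
  have i1 : Integrable fun x => fderiv ℝ ψ x v * φ x :=
    Continuous.integrable_of_hasCompactSupport (by fun_prop) a2.mul_left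
  have i2 : Integrable fun x => ψ x * fderiv ℝ φ x v :=
    Continuous.integrable_of_hasCompactSupport (by fun_prop) h2.mul_right
  rw [integral_add i2 i1, integral_mul_fderiv_eq_neg_fderiv_mul_of_integrable i1 i2
    (Continuous.integrable_of_hasCompactSupport (by fun_prop) h2.mul_right)
    (fun x _ => h1.differentiable one_ne_zero x) fun x _ => a1.differentiable (by simp) x,
    neg_add_cancel]

noncomputable def bb : ContDiffBump (0 : E3) := ⟨1, 2, by norm_num, by norm_num⟩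

theorem bb_pos {q : ℝ} (hq : 0 < q) : Integrable (fun x => (bb x ^ 2) ^ q) ∧
    0 < ∫ x, (bb x ^ 2) ^ q := by
  have c1 := bb.continuous
  have c2 : Continuous fun x => (bb x ^ 2) ^ q := (c1.pow 2).rpow_const fun _ => Or.inr hq.le
  have c3 : HasCompactSupport fun x => (bb x ^ 2) ^ q :=
    bb.hasCompactSupport.comp_left (g := fun t => (t ^ 2) ^ q) (by simp [hq.ne'])
  refine ⟨c2.integrable_of_hasCompactSupport c3, c2.integral_pos_of_hasCompactSupport_nonneg_nonzero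
    c3 (fun x => by positivity) (x := 0) ?_⟩
  rw [bb.one_of_mem_closedBall (mem_closedBall_self bb.rIn_pos.le)]; simp

theorem trial (p : ℝ) {a c : ℝ} (ha : 0 ≤ a) (hc : 0 < c) : ∃ ρ g, Adm p ρ g ∧
    MemLp (fun x => √(ρ x)) 6 ∧ ∫ x, ‖g x‖ ^ 2 = a ^ 2 / c * ∫ x, ‖fderiv ℝ bb x‖ ^ 2 ∧
    ∀ q : ℝ, 0 < q → Integrable (fun x => ρ x ^ q) ∧
      ∫ x, ρ x ^ q = (a ^ 2) ^ q / c ^ 3 * ∫ x, (bb x ^ 2) ^ q := by
  have c1 : ContDiff ℝ 1 bb := bb.contDiff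
  obtain ⟨h1, h2⟩ := adm_smooth p (ψ := fun x => a * bb (c • x)) (by fun_prop)
    (bb.hasCompactSupport.comp_smul hc.ne').mul_left fun x => mul_nonneg ha bb.nonneg
  have e : ∀ f : E3 → ℝ, ∫ x, f (c • x) = (c ^ 3)⁻¹ * ∫ x, f x := fun f => by
    rw [Measure.integral_comp_smul, abs_of_pos (by positivity)]; simp
  refine ⟨_, _, h1, h2, ?_, fun q hq => ?_⟩
  · have e1 : ∀ x, ‖fderiv ℝ (fun x => a * bb (c • x)) x‖ ^ 2 =
        (a * c) ^ 2 * ‖fderiv ℝ bb (c • x)‖ ^ 2 := fun x => by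
      rw [fderiv_const_mul (by have := c1.differentiable one_ne_zero; fun_prop), fderiv_comp_smul,
        smul_smul, norm_smul, mul_pow, Real.norm_eq_abs, sq_abs]
    simp only [e1, integral_const_mul]
    rw [e fun x => ‖fderiv ℝ bb x‖ ^ 2]
    field_simp
  · simp only [mul_pow, Real.mul_rpow (sq_nonneg _) (sq_nonneg _), integral_const_mul]
    refine ⟨((bb_pos hq).1.comp_smul hc.ne').const_mul _, ?_⟩
    rw [e fun x => (bb x ^ 2) ^ q]
    ring

theorem mass (p : ℝ) {l : ℝ} (hl : 0 ≤ l) :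
    ∃ ρ g, Adm p ρ g ∧ MemLp (fun x => √(ρ x)) 6 ∧ ∫ x, ρ x = l := by
  have h0 := (bb_pos one_pos).2
  obtain ⟨ρ, g, h1, h2, -, h3⟩ := trial p (Real.sqrt_nonneg (l / ∫ x, (bb x ^ 2) ^ (1 : ℝ))) one_pos
  refine ⟨ρ, g, h1, h2, ?_⟩
  have := (h3 1 one_pos).2
  rw [Real.sq_sqrt (by positivity), Real.rpow_one, one_pow, div_one, div_mul_cancel₀ _ h0.ne'] at this
  simpa using this

theorem neg (hp : 4 / 3 < p) (hC : 0 < C) : ∃ ρ g, Adm p ρ g ∧
    MemLp (fun x => √(ρ x)) 6 ∧ 0 < ∫ x, ρ x ∧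
    A * (∫ x, ‖g x‖ ^ 2) + (∫ x, (J p γ C (ρ x) + 0 * ρ x)) + D ρ < 0 := by
  obtain ⟨K, hK, h1⟩ := key
  obtain ⟨M, -, h2⟩ := h1 1 1 one_pos one_pos
  obtain ⟨T, hT⟩ : ∃ T, T = ∫ x, ‖fderiv ℝ bb x‖ ^ 2 := ⟨_, rfl⟩
  obtain ⟨I, hI⟩ : ∃ I : ℝ → ℝ, ∀ q, I q = ∫ x, (bb x ^ 2) ^ q := ⟨_, fun _ => rfl⟩
  have I0 : ∀ q, 0 < q → 0 < I q := fun q hq => hI q ▸ (bb_pos hq).2
  have h3 : ContinuousAt (fun τ : ℝ => A * τ ^ 2 * T + γ / p * τ ^ (30 * p - 40) * I p +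
      K * (τ ^ 14 * T + τ ^ 2 * I 1) * I 1) 0 := by
    have := Real.continuousAt_rpow_const 0 (30 * p - 40) (Or.inr (by linarith))
    fun_prop
  have h4 := h3.eventually_lt (continuousAt_const (y := 3 * C / 4 * I (4 / 3))) (by
    have := I0 (4 / 3) (by norm_num)
    simp [Real.zero_rpow (by linarith : 30 * p - 40 ≠ 0), this, hC])
  obtain ⟨τ, h5, h6⟩ := ((h4.filter_mono nhdsWithin_le_nhds).and
    (self_mem_nhdsWithin (s := Set.Ioi 0))).exists
  replace h6 : 0 < τ := h6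
  obtain ⟨ρ, g, a1, a2, a3, a4⟩ := trial p (pow_pos h6 15).le (pow_pos h6 6)
  have b1 := (h2 p ρ g a1).2.2.1
  have b2 := a4 p (by linarith)
  have b3 := a4 (4 / 3) (by norm_num)
  have b4 := (a4 1 one_pos).2
  simp only [← hI, ← hT] at a3 b2 b3 b4
  simp only [Real.rpow_one] at b4
  have e1 : ((τ ^ 15) ^ 2) ^ p = τ ^ (30 * p - 40) * τ ^ 40 := by
    rw [← pow_mul, ← Real.rpow_natCast, ← Real.rpow_mul h6.le, ← Real.rpow_natCast,
      ← Real.rpow_add h6]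
    norm_num
  have e2 : ((τ ^ 15) ^ 2) ^ (4 / 3 : ℝ) = τ ^ 40 := by
    rw [← pow_mul, ← Real.rpow_natCast, ← Real.rpow_mul h6.le, ← Real.rpow_natCast]
    norm_num
  refine ⟨ρ, g, a1, a2, by rw [b4]; have := I0 1 one_pos; positivity, ?_⟩
  simp only [zero_mul, add_zero, J]
  rw [integral_sub (b2.1.const_mul _) (b3.1.const_mul _), integral_const_mul, integral_const_mul,
    b2.2, b3.2, e1, e2, a3]
  rw [a3, b4] at b1
  have b5 := mul_lt_mul_of_pos_left h5 (pow_pos h6 22)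
  refine (add_le_add_right b1 _).trans_lt (sub_neg.mpr b5 |>.trans_eq' ?_)
  field_simp
  ring

end Pool.Agent.H41.TF
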