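import Pool.Agent.H41.TF5

namespace Pool.Agent.H41.TF

open MeasureTheory Filter

variable {p A γ C : ℝ}

theorem zero_adm (hp : 4 / 3 < p) (a : ℝ) {k : ℕ} (z : Fin k → ℝ) (R : Fin k → E3) :
    Adm p (fun _ => 0) (fun _ => 0) ∧ U z R = energy p A γ C a z R (fun _ => 0) fun _ => 0 :=
  ⟨⟨fun _ => le_rfl, integrable_zero _ _ _, MemLp.zero',
    continuous_const.memLp_of_hasCompactSupport HasCompactSupport.zero, fun φ _ _ v => by simp⟩, by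
    simp [energy, J, D, Real.zero_rpow (by linarith : p ≠ 0)]⟩

theorem grow (hp : 4 / 3 < p) (hA : 0 < A) (hγ : 0 < γ) (hC : 0 < C) :
    ∃ Z c : ℝ, 0 < Z ∧ 0 < c ∧ ∀ (k : ℕ) (z : Fin k → ℝ) (R : Fin k → E3), (∀ j, 0 < z j) →
    ∑ j, z j ≤ Z → ∀ l, 0 ≤ l → Ealpha p A γ C z R 0 + c * l ≤ Ealpha p A γ C z R l := by
  obtain ⟨c, Z, hc, hZ, h⟩ := low1 hp hA hγ hC
  refine ⟨Z, c, hZ, hc, fun k z R h1 h2 l hl => ?_⟩
  obtain ⟨ρ, g, a1, -, a2⟩ := mass p hl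
  have h3 : Ealpha p A γ C z R 0 ≤ U z R := csInf_le ⟨U z R, by
    rintro _ ⟨ρ, g, b1, b2, rfl⟩
    simpa [b2] using h k z R h1 h2 ρ g b1⟩ ⟨_, _, (zero_adm (A := A) (γ := γ) (C := C) hp 0 z R).1,
      by simp, (zero_adm hp _ z R).2⟩
  refine (add_le_add_left h3 _).trans (le_csInf ⟨_, ρ, g, a1, a2, rfl⟩ ?_)
  rintro _ ⟨ρ, g, b1, rfl, rfl⟩
  exact h k z R h1 h2 ρ g b1

theorem nonconvex (hp : 4 / 3 < p) (hA : 0 < A) (hγ : 0 < γ) (hC : 0 < C) :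
    ∃ Z : ℝ, 0 < Z ∧ ∀ (k : ℕ) (z : Fin k → ℝ) (R : Fin k → E3), (∀ j, 0 < z j) →
    ∑ j, z j ≤ Z → ¬ConvexOn ℝ (Set.Ici 0) (Ezero p A γ C z R) := by
  obtain ⟨c, Z, hc, hZ, h⟩ := low1 hp hA hγ hC
  obtain ⟨ρ, g, a1, a2, a3, a4⟩ := neg (A := A) (γ := γ) hp hC
  obtain ⟨l, hl⟩ : ∃ l, l = ∫ x, ρ x := ⟨_, rfl⟩
  obtain ⟨e, he⟩ : ∃ e, e = A * (∫ x, ‖g x‖ ^ 2) + (∫ x, (J p γ C (ρ x) + 0 * ρ x)) + D ρ :=
    ⟨_, rfl⟩
  rw [← hl] at a3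
  rw [← he] at a4
  obtain ⟨l', Z', hl', hZ', h'⟩ := low2 hp hA hγ hC (η := -e / 2 / l)
    (div_pos (by linarith) a3)
  refine ⟨min Z Z', lt_min hZ hZ', fun k z R h1 h2 H => ?_⟩
  have b1 : ∀ m ρ g, Adm p ρ g → MemLp (fun x => √(ρ x)) 6 → ∫ x, ρ x = m →
      Ezero p A γ C z R m ≤ energy p A γ C 0 z R ρ g := fun m ρ g b1 b2 b3 => by
    refine csInf_le ⟨U z R + c * m - alpha p γ C * m, ?_⟩ ⟨ρ, g, b1, b2, b3, rfl⟩
    rintro _ ⟨ρ, g, b1, -, rfl, rfl⟩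
    have b4 := h k z R h1 (h2.trans (min_le_left _ _)) ρ g b1
    have b5 := J_int (γ := γ) (C := C) hp b1 0
    simp only [energy, zero_mul, add_zero] at b4 b5 ⊢
    rw [integral_add b5 (b1.2.1.const_mul _), integral_const_mul] at b4
    linarith
  have b2 := b1 0 _ _ (zero_adm (A := A) (γ := γ) (C := C) hp 0 z R).1 (by simp) (by simp)
  rw [← (zero_adm hp _ z R).2] at b2
  have b3 := b1 l ρ g a1 a2 hl.symm
  have b4 : 0 ≤ ∫ x, V z R x * ρ x := integral_nonneg fun x => mul_nonneg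
    (Finset.sum_nonneg fun j _ => div_nonneg (h1 j).le (norm_nonneg _)) (a1.1 x)
  obtain ⟨t, t0, t1, t2⟩ : ∃ t, 0 < t ∧ t ≤ 1 ∧ t * l ≤ l' :=
    ⟨min 1 (l' / l), by positivity, min_le_left _ _, (le_div_iff₀ a3).mp (min_le_right _ _)⟩
  have b5 := H.2 (x := l) (y := 0) a3.le Set.self_mem_Ici t0.le (sub_nonneg.mpr t1) (add_sub_cancel _ _)
  simp only [smul_eq_mul, mul_zero, add_zero] at b5
  obtain ⟨ρ', g', c1, c2, c3⟩ := mass p (mul_pos t0 a3).le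
  have b6 : U z R - -e / 2 / l * (t * l) ≤ Ezero p A γ C z R (t * l) := by
    refine le_csInf ⟨_, ρ', g', c1, c2, c3, rfl⟩ ?_
    rintro _ ⟨ρ, g, b1, -, b7, rfl⟩
    exact b7 ▸ h' k z R h1 (h2.trans (min_le_right _ _)) ρ g b1 (b7 ▸ t2)
  rw [mul_left_comm, div_mul_cancel₀ _ a3.ne'] at b6
  rw [energy] at b3
  nlinarith [mul_le_mul_of_nonneg_left b2 (sub_nonneg.mpr t1), mul_pos t0 (neg_pos.mpr a4),
    mul_le_mul_of_nonneg_left (show Ezero p A γ C z R l ≤ U z R + e by linarith) t0.le]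

end Pool.Agent.H41.TF
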