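import Mathlib

namespace Pool.Agent.H41.TF

open MeasureTheory

/-- Euclidean `ℝ³`. -/
abbrev E3 : Type := EuclideanSpace ℝ (Fin 3)

/-- `g` is the weak (distributional) derivative of `ψ`; `g x` is a linear form on `ℝ³`, whose
operator norm is the Euclidean length of the gradient. -/
def WeakDeriv (ψ : E3 → ℝ) (g : E3 → E3 →L[ℝ] ℝ) : Prop :=
  ∀ φ : E3 → ℝ, ContDiff ℝ (⊤ : ℕ∞) φ → HasCompactSupport φ → ∀ v : E3,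
    ∫ x, (ψ x * fderiv ℝ φ x v + g x v * φ x) = 0

/-- The class `G_p`: `ρ ≥ 0`, `ρ ∈ L¹ ∩ L^p`, and `g = ∇ρ^{1/2} ∈ L²`. -/
def Adm (p : ℝ) (ρ : E3 → ℝ) (g : E3 → E3 →L[ℝ] ℝ) : Prop :=
  (∀ x, 0 ≤ ρ x) ∧ Integrable ρ ∧ MemLp ρ (ENNReal.ofReal p) ∧ MemLp g 2 ∧
    WeakDeriv (fun x => √(ρ x)) g

/-- `J(t) = (γ/p) t^p - (3 C_e/4) t^{4/3}`. -/
noncomputable def J (p γ C t : ℝ) : ℝ := γ / p * t ^ p - 3 * C / 4 * t ^ (4 / 3 : ℝ)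

/-- `ρ₀`, the positive number with `ρ₀^{p-4/3} = C_e p / (4γ(p-1))`. -/
noncomputable def rho0 (p γ C : ℝ) : ℝ := (C * p / (4 * γ * (p - 1))) ^ (1 / (p - 4 / 3))

/-- `α = (3p-4) ρ₀^{1/3} C_e / (4(p-1))`. -/
noncomputable def alpha (p γ C : ℝ) : ℝ :=
  (3 * p - 4) / (4 * (p - 1)) * rho0 p γ C ^ (1 / 3 : ℝ) * C

/-- `D(ρ,ρ)`. -/
noncomputable def D (ρ : E3 → ℝ) : ℝ := 1 / 2 * ∫ x, ∫ y, ρ x * ρ y / ‖x - y‖

variable {k : ℕ}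

/-- The nuclear potential. -/
noncomputable def V (z : Fin k → ℝ) (R : Fin k → E3) (x : E3) : ℝ := ∑ j, z j / ‖x - R j‖

/-- The repulsion of the nuclei. -/
noncomputable def U (z : Fin k → ℝ) (R : Fin k → E3) : ℝ :=
  ∑ i, ∑ j, if i < j then z i * z j / ‖R i - R j‖ else 0

/-- The TFDW functional with `J(ρ) + a ρ` in place of `J(ρ)`; `g = ∇ρ^{1/2}`. -/
noncomputable def energy (p A γ C a : ℝ) (z : Fin k → ℝ) (R : Fin k → E3) (ρ : E3 → ℝ)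
    (g : E3 → E3 →L[ℝ] ℝ) : ℝ :=
  A * (∫ x, ‖g x‖ ^ 2) + (∫ x, (J p γ C (ρ x) + a * ρ x)) - (∫ x, V z R x * ρ x) + D ρ + U z R

/-- `E_α(λ)`: the infimum of the shifted functional over `ρ ∈ G_p` with `∫ ρ = λ`. -/
noncomputable def Ealpha (p A γ C : ℝ) (z : Fin k → ℝ) (R : Fin k → E3) (l : ℝ) : ℝ :=
  sInf {e | ∃ ρ g, Adm p ρ g ∧ ∫ x, ρ x = l ∧ e = energy p A γ C (alpha p γ C) z R ρ g}

/-- `E(λ)`: the infimum of the unshifted functional over `ρ ∈ G_p` with `ρ^{1/2} ∈ L⁶` and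
`∫ ρ = λ`. -/
noncomputable def Ezero (p A γ C : ℝ) (z : Fin k → ℝ) (R : Fin k → E3) (l : ℝ) : ℝ :=
  sInf {e | ∃ ρ g, Adm p ρ g ∧ MemLp (fun x => √(ρ x)) 6 ∧ ∫ x, ρ x = l ∧
    e = energy p A γ C 0 z R ρ g}

end Pool.Agent.H41.TF
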