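import Pool.Agent.H41.Tc1

set_option autoImplicit false

namespace Pool.Agent.H41.Tc

open MeasureTheory Set Filter Topology
open scoped InnerProductSpace ComplexConjugate
open Pool.Agent.H41.Rb (ex ex_cont ex_norm int_ex)

lemma K_mul {y u : ℝ} (hy : y ∈ J) (hu : u ∈ J) :
    K y u * u = u - (Ici y).indicator (fun _ => y) u := by
  have hy0 : 0 < y := by linarith [hy.1]
  have hu0 : 0 < u := by linarith [hu.1]
  unfold K
  by_cases h : y ≤ u
  · rw [indicator_of_mem (show u ∈ Ici y from h)]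
    have : ⌊u / y⌋ = 1 := by
      rw [Int.floor_eq_iff]
      constructor
      · push_cast; rw [le_div_iff₀ hy0]; linarith
      · push_cast; rw [div_lt_iff₀ hy0]; linarith [hy.1, hu.2]
    unfold Int.fract
    rw [this]; push_cast; field_simp
  · rw [indicator_of_notMem (show u ∉ Ici y from h)]
    push Not at h
    have : Int.fract (u / y) = u / y := by
      rw [Int.fract_eq_self]
      exact ⟨by positivity, by rw [div_lt_one hy0]; exact h⟩
    rw [this]; field_simp; ring

lemma T_el (T : H →L[ℂ] H) (hT : IsT T) (c : ℝ → ℂ) (hc : Continuous c) :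
    ∀ᵐ y ∂μ01, y ∈ Ioc (3 / 4 : ℝ) 1 →
      T (el (fun u => (u : ℂ) * c u) (Complex.continuous_ofReal.mul hc)) y =
        (∫ u in (3 / 4 : ℝ)..1, (u : ℂ) * c u) - y * ∫ u in y..1, c u := by
  filter_upwards [hT (el (fun u => (u : ℂ) * c u) (Complex.continuous_ofReal.mul hc))] with y h hy
  rw [h]
  have hyJ : y ∈ J := Ioc_subset_Icc_self hy
  have h1 : ∫ u, (K y u : ℂ) * el (fun u => (u : ℂ) * c u) (Complex.continuous_ofReal.mul hc) u ∂μ01 =
      ∫ u, J.indicator (fun u => (u : ℂ) * c u - (Ici y).indicator (fun u => (y : ℂ) * c u) u) u ∂μ01 := by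
    apply integral_congr_ae
    filter_upwards [el_ae (fun u => (u : ℂ) * c u) (Complex.continuous_ofReal.mul hc)] with u hu
    rw [hu]
    by_cases huJ : u ∈ J
    · rw [indicator_of_mem huJ, indicator_of_mem huJ, ← mul_assoc, ← Complex.ofReal_mul,
        K_mul hyJ huJ]
      by_cases h2 : u ∈ Ici y
      · rw [indicator_of_mem h2, indicator_of_mem h2]; push_cast; ring
      · rw [indicator_of_notMem h2, indicator_of_notMem h2]; push_cast; ring
    · rw [indicator_of_notMem huJ, indicator_of_notMem huJ, mul_zero]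
  have hc1 : Continuous fun u : ℝ => (u : ℂ) * c u := Complex.continuous_ofReal.mul hc
  have hc2 : Continuous fun u : ℝ => (y : ℂ) * c u := continuous_const.mul hc
  rw [h1, int_ind, intervalIntegral.integral_sub (hc1.intervalIntegrable _ _)]
  · congr 1
    rw [intervalIntegral.integral_of_le (by norm_num), setIntegral_indicator measurableSet_Ici,
      ← intervalIntegral.integral_const_mul, intervalIntegral.integral_of_le hy.2,
      ← integral_Icc_eq_integral_Ioc]
    congr 2
    ext u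
    simp only [mem_inter_iff, mem_Ioc, mem_Ici, mem_Icc]
    constructor
    · rintro ⟨⟨_, h2⟩, h3⟩; exact ⟨h3, h2⟩
    · rintro ⟨h2, h3⟩; exact ⟨⟨lt_of_lt_of_le hy.1 h2, h3⟩, h2⟩
  · rw [intervalIntegrable_iff]
    exact (intervalIntegrable_iff.1 (hc2.intervalIntegrable _ _)).indicator measurableSet_Ici

lemma ex_deriv (n : ℤ) (x : ℝ) :
    HasDerivAt (ex n) (-(2 * Real.pi * Complex.I * n) * ex n x) x := by
  have h1 : HasDerivAt (fun x : ℝ => -(2 * Real.pi * Complex.I * n * (x : ℂ)))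
      (-(2 * Real.pi * Complex.I * n)) x := by
    have := ((Complex.ofRealCLM.hasDerivAt (x := x)).const_mul (2 * Real.pi * Complex.I * n : ℂ)).neg
    exact this.congr_deriv (by simp)
  exact h1.cexp.congr_deriv (mul_comm _ _)

lemma ex_int (n m : ℤ) (x : ℝ) (h : (n : ℝ) * x = m) : ex n x = 1 := by
  unfold ex
  have h' : (n : ℂ) * x = m := by exact_mod_cast h
  rw [Complex.exp_eq_one_iff]
  refine ⟨-m, ?_⟩
  push_cast
  linear_combination (-(2 * Real.pi * Complex.I)) * h'

noncomputable def cc (k : ℤ) (u : ℝ) : ℂ := E k u + E (-k) u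
noncomputable def lam (k : ℤ) : ℂ := 8 * Real.pi * Complex.I * k
noncomputable def SS (k : ℤ) (u : ℝ) : ℂ := (E (-k) u - E k u) / lam k

lemma cc_cont (k : ℤ) : Continuous (cc k) := (E_cont _).add (E_cont _)

lemma lam_ne {k : ℤ} (hk : k ≠ 0) : lam k ≠ 0 := by simp [lam, hk, Real.pi_ne_zero]

lemma E_deriv (n : ℤ) (x : ℝ) : HasDerivAt (E n) (-lam n * E n x) x := by
  have := (ex_deriv (4 * n) x).const_mul (2 : ℂ)
  refine this.congr_deriv ?_
  unfold lam E; push_cast; ring

lemma lam_neg (k : ℤ) : lam (-k) = -lam k := by unfold lam; push_cast; ring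

lemma SS_deriv {k : ℤ} (hk : k ≠ 0) (x : ℝ) : HasDerivAt (SS k) (cc k x) x := by
  have := ((E_deriv (-k) x).sub (E_deriv k x)).div_const (lam k)
  refine this.congr_deriv ?_
  have := lam_ne hk
  rw [lam_neg]; unfold cc; field_simp; ring

lemma RR_deriv {k : ℤ} (hk : k ≠ 0) (x : ℝ) :
    HasDerivAt (fun u : ℝ => (u : ℂ) * SS k u - cc k u / lam k ^ 2) ((x : ℂ) * cc k x) x := by
  have h1 := (Complex.ofRealCLM.hasDerivAt (x := x)).mul (SS_deriv hk x)
  have h2 := ((E_deriv k x).add (E_deriv (-k) x)).div_const (lam k ^ 2)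
  refine (h1.sub h2).congr_deriv ?_
  have := lam_ne hk
  rw [lam_neg]; unfold SS; simp only [Complex.ofRealCLM_apply, Complex.ofReal_one]
  field_simp; ring

lemma E_one (n : ℤ) : E n 1 = 2 := by
  unfold E; rw [ex_int _ (4 * n) _ (by simp)]; simp

lemma E_34 (n : ℤ) : E n (3 / 4) = 2 := by
  unfold E; rw [ex_int _ (3 * n) _ (by push_cast; ring)]; simp

noncomputable def ww (y : ℝ) : ℂ := (((max y (3 / 4))⁻¹ : ℝ) : ℂ)

lemma ww_cont : Continuous ww := by
  unfold ww
  apply Complex.continuous_ofReal.comp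
  apply Continuous.inv₀ (by fun_prop)
  intro x
  have := le_max_right x (3 / 4 : ℝ)
  linarith

noncomputable def phi (k : ℤ) : H :=
  el (fun u => (u : ℂ) * cc k u) (Complex.continuous_ofReal.mul (cc_cont k))
noncomputable def psi (k : ℤ) : H := el (fun y => ww y * E (-k) y) (ww_cont.mul (E_cont _))

lemma key (T : H →L[ℂ] H) (hT : IsT T) {k : ℤ} (hk : k ≠ 0) :
    ⟪psi k, T (phi k)⟫_ℂ = 1 / lam k := by
  unfold psi phi
  rw [inner_el _ _ _ (fun y => (y : ℂ) * SS k y)]
  · have h1 : ∫ x in (3 / 4 : ℝ)..1, conj (ww x * E (-k) x) * ((x : ℂ) * SS k x) =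
        ∫ x in (3 / 4 : ℝ)..1, (4 / lam k) * (ex (4 * 0) x - ex (4 * (2 * k)) x) := by
      apply intervalIntegral.integral_congr
      intro x hx
      rw [uIcc_of_le (by norm_num)] at hx
      have hx0 : (x : ℂ) ≠ 0 := by
        rw [Complex.ofReal_ne_zero]; linarith [hx.1]
      simp only [ww, max_eq_left hx.1, map_mul, Complex.conj_ofReal, E, SS, ex_conj, map_ofNat]
      rw [show 4 * (0:ℤ) = -(4 * -k) + 4 * -k by ring, show 4 * (2 * k) = -(4 * -k) + 4 * k by ring,
        ← ex_mul, ← ex_mul]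
      have := lam_ne hk
      push_cast
      field_simp
      ring
    rw [h1, intervalIntegral.integral_const_mul, intervalIntegral.integral_sub
      ((ex_cont _).intervalIntegrable _ _) ((ex_cont _).intervalIntegrable _ _), int_ex4, int_ex4,
      if_pos rfl, if_neg (by omega)]
    ring
  · filter_upwards [T_el T hT (cc k) (cc_cont k)] with y h hy
    rw [h hy, intervalIntegral.integral_eq_sub_of_hasDerivAt (fun x _ => RR_deriv hk x)
      ((Complex.continuous_ofReal.mul (cc_cont k)).intervalIntegrable _ _),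
      intervalIntegral.integral_eq_sub_of_hasDerivAt (fun x _ => SS_deriv hk x)
      ((cc_cont k).intervalIntegrable _ _)]
    simp only [SS, cc, E_one, E_34]
    ring

lemma cs (s : Finset ℕ) (a b : ℕ → ℝ) (A B : ℝ) (hA : 0 ≤ A) (hB : 0 ≤ B)
    (ha : ∑ k ∈ s, a k ^ 2 ≤ A ^ 2) (hb : ∑ k ∈ s, b k ^ 2 ≤ B ^ 2) :
    ∑ k ∈ s, a k * b k ≤ A * B := by
  refine (abs_le_of_sq_le_sq' ?_ (mul_nonneg hA hB)).2
  refine (Finset.sum_mul_sq_le_sq_mul_sq s a b).trans ?_
  rw [mul_pow]
  exact mul_le_mul ha hb (Finset.sum_nonneg fun _ _ => sq_nonneg _) (sq_nonneg _)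

theorem not_summable (T : H →L[ℂ] H) (hT : IsT T) {ι : Type*} (b : HilbertBasis ι ℂ H) :
    ¬ Summable fun i => ‖T (b i)‖ := by
  intro hs
  have hpos : Function.Injective fun k : ℕ => (k : ℤ) + 1 := fun a b h => by simpa using h
  have hneg : Function.Injective fun k : ℕ => -((k : ℤ) + 1) := fun a b h => by simpa using h
  have hu : ∀ x ∈ J, ‖(x : ℂ)‖ ≤ 1 := by
    intro x hx
    rw [Complex.norm_real, Real.norm_eq_abs, abs_le]
    constructor <;> linarith [hx.1, hx.2]
  have hw : ∀ x ∈ J, ‖ww x‖ ≤ 4 / 3 := by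
    intro x hx
    rw [ww, max_eq_left hx.1, Complex.norm_real, Real.norm_eq_abs,
      abs_of_pos (inv_pos.2 (by linarith [hx.1]))]
    rw [inv_le_comm₀ (by linarith [hx.1]) (by norm_num)]
    linarith [hx.1]
  have hN : ∀ N : ℕ, ‖∑ k ∈ Finset.range N, 1 / lam ((k : ℤ) + 1)‖ ≤ ∑' i, 8 / 3 * ‖T (b i)‖ := by
    intro N
    have h1 : ∀ k : ℕ, HasSum (fun i => ⟪b i, phi (k + 1)⟫_ℂ * ⟪psi (k + 1), T (b i)⟫_ℂ)
        (1 / lam ((k : ℤ) + 1)) := by
      intro k
      rw [← key T hT (by omega)]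
      have := (b.hasSum_repr (phi (k + 1))).mapL ((innerSL ℂ (psi (k + 1))).comp T)
      simpa [b.repr_apply_apply] using this
    have h2 := hasSum_sum (s := Finset.range N) (fun k _ => h1 k)
    refine h2.norm_le_of_bounded (hs.mul_left _).hasSum fun i => ?_
    refine (norm_sum_le _ _).trans ?_
    have h3 : ∀ k : ℕ, ‖⟪b i, phi (k + 1)⟫_ℂ * ⟪psi (k + 1), T (b i)⟫_ℂ‖ ≤
        ‖⟪el (fun x => (x : ℂ) * E ((k : ℤ) + 1) x) (Complex.continuous_ofReal.mul (E_cont _)), b i⟫_ℂ‖ *
          ‖⟪psi (k + 1), T (b i)⟫_ℂ‖ +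
        ‖⟪el (fun x => (x : ℂ) * E (-((k : ℤ) + 1)) x) (Complex.continuous_ofReal.mul (E_cont _)), b i⟫_ℂ‖ *
          ‖⟪psi (k + 1), T (b i)⟫_ℂ‖ := by
      intro k
      rw [norm_mul, ← add_mul, norm_inner_symm]
      apply mul_le_mul_of_nonneg_right _ (norm_nonneg _)
      refine le_trans (le_of_eq ?_) (norm_add_le _ _)
      rw [← inner_add_left, ← el_add]
      unfold phi cc
      simp only [mul_add]
    refine (Finset.sum_le_sum fun k _ => h3 k).trans ?_
    rw [Finset.sum_add_distrib]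
    have hb1 : ‖b i‖ = 1 := b.orthonormal.1 i
    have B1 := bessel _ Complex.continuous_ofReal 1 zero_le_one hu _ hpos (b i) (Finset.range N)
    have B2 := bessel _ Complex.continuous_ofReal 1 zero_le_one hu _ hneg (b i) (Finset.range N)
    have B3 := bessel _ ww_cont (4 / 3) (by norm_num) hw _ hneg (T (b i)) (Finset.range N)
    rw [hb1] at B1 B2
    have C1 := cs _ _ _ _ _ (by norm_num) (by positivity) B1 B3
    have C2 := cs _ _ _ _ _ (by norm_num) (by positivity) B2 B3
    unfold psi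
    linarith
  have h4 : ∀ N : ℕ, ‖∑ k ∈ Finset.range N, 1 / lam ((k : ℤ) + 1)‖ =
      (1 / (8 * Real.pi)) * ∑ k ∈ Finset.range N, 1 / ((k : ℝ) + 1) := by
    intro N
    have : ∑ k ∈ Finset.range N, 1 / lam ((k : ℤ) + 1) =
        (1 / Complex.I) * (((1 / (8 * Real.pi)) * ∑ k ∈ Finset.range N, 1 / ((k : ℝ) + 1) : ℝ) : ℂ) := by
      push_cast
      rw [Finset.mul_sum, Finset.mul_sum]
      apply Finset.sum_congr rfl
      intro k _
      unfold lam; push_cast
      field_simp
    rw [this, norm_mul, Complex.norm_real, Real.norm_eq_abs, abs_of_nonneg (by positivity)]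
    simp
  have h5 := Real.tendsto_sum_range_one_div_nat_succ_atTop.const_mul_atTop
    (show (0:ℝ) < 1 / (8 * Real.pi) by positivity)
  obtain ⟨N, hN'⟩ := (h5.eventually_gt_atTop (∑' i, 8 / 3 * ‖T (b i)‖)).exists
  have := hN N
  rw [h4] at this
  linarith

end Pool.Agent.H41.Tc
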