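import Mathlib

set_option autoImplicit false

namespace Pool.Agent.H41.Tc

open MeasureTheory

/-- Lebesgue measure on `[0,1]`. -/
noncomputable abbrev μ01 : Measure ℝ := volume.restrict (Set.Icc (0 : ℝ) 1)

/-- The complex Hilbert space `L²([0,1])`. -/
abbrev H : Type := Lp ℂ 2 μ01

/-- Bounded linear operators on a complex Hilbert space `E`. -/
abbrev Op (E : Type) [NormedAddCommGroup E] [InnerProductSpace ℂ E] : Type := E →L[ℂ] E

/-- `∑ᵢ ‖T bᵢ‖ = ∞` for every orthonormal (Hilbert) basis `(bᵢ)` of `E`. -/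
def BasisDiverge {E : Type} [NormedAddCommGroup E] [InnerProductSpace ℂ E] (T : Op E) : Prop :=
  ∀ (ι : Type) (b : HilbertBasis ι ℂ E), ¬ Summable fun i => ‖T (b i)‖

/-- The singular values of `T` are not summable: whenever `(bᵢ)` is an orthonormal basis of `E`
with `T* T bᵢ = σᵢ² bᵢ` and `σᵢ ≥ 0`, the family `(σᵢ)` is not summable. -/
def SingDiverge {E : Type} [NormedAddCommGroup E] [InnerProductSpace ℂ E] [CompleteSpace E]
    (T : Op E) : Prop :=
  ∀ (ι : Type) (b : HilbertBasis ι ℂ E) (σ : ι → ℝ), (∀ i, 0 ≤ σ i) →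
    (∀ i, (ContinuousLinearMap.adjoint T) (T (b i)) = ((σ i : ℂ) ^ 2) • b i) → ¬ Summable σ

/-- The kernel `K(y,u) = {u/y} / (u/y)`. -/
noncomputable def K (y u : ℝ) : ℝ := Int.fract (u / y) / (u / y)

/-- `T` is the integral operator `(T h)(y) = ∫_0^1 K(y,u) h(u) du` on `L²([0,1])`. -/
def IsT (T : Op H) : Prop :=
  ∀ h : H, (T h : ℝ → ℂ) =ᵐ[μ01] fun y => ∫ u, (K y u : ℂ) * h u ∂μ01

end Pool.Agent.H41.Tc
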