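import Pool.Agent.H41.TcfDefs

set_option autoImplicit false

namespace Pool.Agent.H41.Tcf

open MeasureTheory Finset

lemma of_finsets (N : ℕ) (hN : 0 < N) (A : Fin (N + 1) → Finset (Fin (N + 1) × Fin N))
    (hA : ∀ i, (A i).card = N) :
    (fun p : E (N + 1) => ((A p.1.1 ∩ A p.1.2).card : ℝ) / N) ∈ TCF (N + 1) := by
  have : Nonempty (Fin N) := ⟨⟨0, hN⟩⟩
  have hN' : (0 : ℝ) < N := by exact_mod_cast hN
  have key : ∀ s : Finset (Fin (N + 1) × Fin N),
      (PMF.uniformOfFintype (Fin (N + 1) × Fin N)).toMeasure.real s = s.card / ((N + 1) * N) := by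
    intro s
    rw [measureReal_def, PMF.toMeasure_uniformOfFintype_apply _ MeasurableSet.of_discrete]
    simp [ENNReal.toReal_add]
  refine ⟨Fin (N + 1) × Fin N, inferInstance, (PMF.uniformOfFintype _).toMeasure, inferInstance,
    fun i => A i, fun _ => MeasurableSet.of_discrete, fun i => ?_, fun p => ?_⟩
  · rw [key, hA]; push_cast; field_simp
  · rw [← Finset.coe_inter, key]; push_cast; field_simp

noncomputable def star (N : ℕ) : E (N + 1) → ℝ := fun p => if p.1.2 = Fin.last N then 1 / 2 else 0

def row (N : ℕ) (i : Fin (N + 1)) : Finset (Fin (N + 1) × Fin N) := univ.filter fun q => q.1 = i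

lemma card_row (N : ℕ) (i : Fin (N + 1)) : (row N i).card = N := by
  have : row N i = {i} ×ˢ univ := by
    ext q; simp only [row, mem_filter, mem_univ, true_and, mem_product, mem_singleton, and_true]
  rw [this]; simp

lemma mem0 (N : ℕ) (hN : 0 < N) : (fun p => 2 / N * star N p) ∈ TCF (N + 1) := by
  have hN' : (0 : ℝ) < N := by exact_mod_cast hN
  let A : Fin (N + 1) → Finset (Fin (N + 1) × Fin N) := fun i => Fin.lastCases (row N (Fin.last N))
    (fun j => insert (Fin.last N, j) ((row N j.castSucc).erase (j.castSucc, j))) i
  have := of_finsets N hN A (by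
    intro i
    induction i using Fin.lastCases with
    | last => simp [A, card_row]
    | cast j =>
      simp only [A, Fin.lastCases_castSucc]
      rw [card_insert_of_notMem (by simp [row, (Fin.castSucc_lt_last j).ne']),
        card_erase_of_mem (by simp [row]), card_row]; omega)
  convert this using 2 with p
  obtain ⟨⟨i, j⟩, h⟩ := p
  induction i using Fin.lastCases with
  | last => exact absurd h (not_lt.2 (Fin.le_last _))
  | cast i =>
    induction j using Fin.lastCases with
    | last =>
      have : A i.castSucc ∩ A (Fin.last N) = {(Fin.last N, i)} := by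
        ext q
        simp only [A, Fin.lastCases_castSucc, Fin.lastCases_last, row, mem_inter, mem_insert,
          mem_erase, mem_filter, mem_univ, true_and, mem_singleton]
        constructor
        · rintro ⟨h1 | h1, h2⟩
          · exact h1
          · exact absurd (h1.2.symm.trans h2) (Fin.castSucc_lt_last i).ne
        · rintro rfl; simp
      simp only [star, this]; simp; field_simp
    | cast j =>
      have hij : i ≠ j := fun e => by subst e; exact lt_irrefl _ h
      have : A i.castSucc ∩ A j.castSucc = ∅ := by
        ext q
        simp only [A, Fin.lastCases_castSucc, row, mem_inter, mem_insert,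
          mem_erase, mem_filter, mem_univ, true_and, notMem_empty, iff_false]
        rintro ⟨h1 | h1, h2 | h2⟩
        · exact hij (Prod.mk.inj (h1.symm.trans h2)).2
        · rw [h1] at h2; exact (Fin.castSucc_lt_last j).ne h2.2.symm
        · rw [h2] at h1; exact (Fin.castSucc_lt_last i).ne h1.2.symm
        · exact hij (Fin.castSucc_injective _ (h1.2.symm.trans h2.2))
      simp [star, this, (Fin.castSucc_lt_last j).ne]

lemma mem1 (N : ℕ) (hN : 2 ≤ N) : (fun p => 1 - 2 / N * (1 - star N p)) ∈ TCF (N + 1) := by
  have hN' : (0 : ℝ) < N := by exact_mod_cast (by omega : 0 < N)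
  let A : Fin (N + 1) → Finset (Fin (N + 1) × Fin N) := fun i => Fin.lastCases (row N (Fin.last N))
    (fun j => insert (j.castSucc, j) ((row N (Fin.last N)).erase (Fin.last N, j))) i
  have := of_finsets N (by omega) A (by
    intro i
    induction i using Fin.lastCases with
    | last => simp [A, card_row]
    | cast j =>
      simp only [A, Fin.lastCases_castSucc]
      rw [card_insert_of_notMem (by simp [row, (Fin.castSucc_lt_last j).ne]),
        card_erase_of_mem (by simp [row]), card_row]; omega)
  convert this using 2 with p
  obtain ⟨⟨i, j⟩, h⟩ := p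
  induction i using Fin.lastCases with
  | last => exact absurd h (not_lt.2 (Fin.le_last _))
  | cast i =>
    induction j using Fin.lastCases with
    | last =>
      have : A i.castSucc ∩ A (Fin.last N) = (row N (Fin.last N)).erase (Fin.last N, i) := by
        ext q
        simp only [A, Fin.lastCases_castSucc, Fin.lastCases_last, row, mem_inter, mem_insert,
          mem_erase, mem_filter, mem_univ, true_and]
        constructor
        · rintro ⟨h1 | h1, h2⟩
          · rw [h1] at h2; exact absurd h2 (Fin.castSucc_lt_last i).ne
          · exact h1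
        · exact fun h1 => ⟨Or.inr h1, h1.2⟩
      simp only [star, this]
      rw [card_erase_of_mem (by simp [row]), card_row, Nat.cast_sub (by omega)]
      simp; field_simp; ring
    | cast j =>
      have hij : i ≠ j := fun e => by subst e; exact lt_irrefl _ h
      have : A i.castSucc ∩ A j.castSucc =
          ((row N (Fin.last N)).erase (Fin.last N, i)).erase (Fin.last N, j) := by
        ext q
        simp only [A, Fin.lastCases_castSucc, row, mem_inter, mem_insert,
          mem_erase, mem_filter, mem_univ, true_and]
        constructor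
        · rintro ⟨h1 | h1, h2 | h2⟩
          · exact absurd (Prod.mk.inj (h1.symm.trans h2)).2 hij
          · rw [h1] at h2; exact absurd h2.2 (Fin.castSucc_lt_last i).ne
          · rw [h2] at h1; exact absurd h1.2 (Fin.castSucc_lt_last j).ne
          · exact ⟨h2.1, h1⟩
        · exact fun h1 => ⟨Or.inr h1.2, Or.inr ⟨h1.1, h1.2.2⟩⟩
      simp only [star, this]
      rw [card_erase_of_mem (by simp [row, hij.symm]), card_erase_of_mem (by simp [row]), card_row,
        Nat.sub_sub, Nat.cast_sub (by omega)]
      simp [(Fin.castSucc_lt_last j).ne]; field_simp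

lemma star_mem (N : ℕ) (hN : 2 ≤ N) : star N ∈ Spindle (N + 1) := by
  have hN' : (0 : ℝ) < 2 / N := by
    have : (0 : ℝ) < N := by exact_mod_cast (by omega : 0 < N)
    positivity
  rintro c β ⟨hv, -⟩ (h | h)
  · have := hv _ (mem0 N (by omega))
    simp only [mul_zero, sum_const_zero] at h
    simp only [mul_left_comm _ (2 / (N : ℝ)), ← mul_sum] at this
    subst h
    nlinarith
  · have := hv _ (mem1 N hN)
    have e : ∑ p, c p * (1 - 2 / N * (1 - star N p)) =
        ∑ p, c p * 1 - 2 / N * (∑ p, c p * 1 - ∑ p, c p * star N p) := by
      rw [← sum_sub_distrib, mul_sum, ← sum_sub_distrib]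
      exact sum_congr rfl fun p _ => by ring
    rw [e, h] at this
    nlinarith

lemma star_not (N : ℕ) (hN : 5 ≤ N) : star N ∉ PSD (N + 1) := by
  intro h
  have h1 := Matrix.PosSemidef.dotProduct_mulVec_nonneg h
    (fun i => Fin.lastCases (-2) (fun _ => 1) i)
  have a : ∀ i j : Fin N, X (star N) i.castSucc j.castSucc = if i = j then 1 else 0 := by
    intro i j
    simp only [X, star, (Fin.castSucc_lt_last _).ne, if_false, Fin.castSucc_lt_castSucc_iff]
    rcases lt_trichotomy i j with h | h | h
    · simp [h, h.ne]
    · simp [h]
    · simp [h, h.ne', not_lt.2 h.le]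
  have b : ∀ i : Fin N, X (star N) i.castSucc (Fin.last N) = 1 / 2 := by
    intro i; simp [X, star, Fin.castSucc_lt_last]
  have c : ∀ i : Fin N, X (star N) (Fin.last N) i.castSucc = 1 / 2 := by
    intro i; simp [X, star, Fin.castSucc_lt_last, not_lt.2 (Fin.castSucc_lt_last i).le]
  have d : X (star N) (Fin.last N) (Fin.last N) = 1 := by simp [X]
  simp only [dotProduct, Matrix.mulVec, Fin.sum_univ_castSucc, Pi.star_apply, star_trivial,
    Fin.lastCases_castSucc, Fin.lastCases_last, a, b, c, d] at h1
  simp at h1
  have : (5 : ℝ) ≤ N := by exact_mod_cast hN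
  linarith

end Pool.Agent.H41.Tcf
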