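import Mathlib

set_option autoImplicit false

namespace Pool.Agent.H41.Tcf

open MeasureTheory

/-- pairs `i < j`. -/
abbrev E (n : ℕ) : Type := {p : Fin n × Fin n // p.1 < p.2}

/-- the polytope of tail correlation functions on `n` points. -/
def TCF (n : ℕ) : Set (E n → ℝ) :=
  {χ | ∃ (Ω : Type) (_ : MeasurableSpace Ω) (P : Measure Ω) (_ : IsProbabilityMeasure P)
    (A : Fin n → Set Ω), (∀ i, MeasurableSet (A i)) ∧ (∀ i, P.real (A i) = 1 / n) ∧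
      ∀ p : E n, χ p = n * P.real (A p.1.1 ∩ A p.1.2)}

/-- `∑ c_p x_p ≤ β` is a facet-defining inequality of `TCF n`. -/
def IsFacetIneq (n : ℕ) (c : E n → ℝ) (β : ℝ) : Prop :=
  (∀ x ∈ TCF n, ∑ p, c p * x p ≤ β) ∧ {x ∈ TCF n | ∑ p, c p * x p = β}.Nonempty ∧
    Module.finrank ℝ (vectorSpan ℝ {x ∈ TCF n | ∑ p, c p * x p = β}) + 1 =
      Module.finrank ℝ (vectorSpan ℝ (TCF n))

/-- `TCF_n(v₀, v₁)`: cut out by the facets containing `v₀ = 0` or `v₁ = 1`. -/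
def Spindle (n : ℕ) : Set (E n → ℝ) :=
  {x | ∀ c β, IsFacetIneq n c β →
    (∑ p, c p * (0 : ℝ) = β ∨ ∑ p, c p * (1 : ℝ) = β) → ∑ p, c p * x p ≤ β}

/-- the symmetric matrix with unit diagonal and off-diagonal entries `x`. -/
def X {n : ℕ} (x : E n → ℝ) : Matrix (Fin n) (Fin n) ℝ := fun i j =>
  if h : i < j then x ⟨(i, j), h⟩ else if h' : j < i then x ⟨(j, i), h'⟩ else 1

def PSD (n : ℕ) : Set (E n → ℝ) := {x | (X x).PosSemidef}

end Pool.Agent.H41.Tcf
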