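import Pool.Agent.H41.TrDefs
import Pool.Agent.H41.Db6

set_option autoImplicit false
open MeasureTheory Complex Set Filter Topology Metric
open Finset (range)
open scoped ComplexConjugate

namespace Pool.Agent.H41.Tr
open Pool.Agent.H41.Db

noncomputable def ev (N : ℕ) (a : ℕ → ℝ) (z : ℂ) : ℂ := ∑ m ∈ range N, (a m : ℂ) * z ^ m

noncomputable def DK (N : ℕ) (z : ℂ) : ℂ := ev N (fun _ => 1) z

@[fun_prop] theorem ev_cont (N : ℕ) (a : ℕ → ℝ) : Continuous (ev N a) := by unfold ev; fun_prop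
@[fun_prop] theorem DK_cont (N : ℕ) : Continuous (DK N) := ev_cont _ _

theorem ev_mul {M : ℕ} (M0 : 0 < M) (L : ℕ) (g h : ℕ → ℝ) (z : ℂ) :
    ev (M * L) (fun m => g (m % M) * h (m / M)) z = ev M g z * ev L h (z ^ M) := by
  induction L with
  | zero => simp [ev]
  | succ L ih =>
    unfold ev at *
    rw [Nat.mul_succ, Finset.sum_range_add, ih, Finset.sum_range_succ, mul_add, Finset.sum_mul _ _ ((h L : ℂ) * _)]
    refine congrArg _ (Finset.sum_congr rfl fun r hr => ?_)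
    have hr' := Finset.mem_range.1 hr
    beta_reduce
    rw [Nat.mul_add_mod, Nat.mod_eq_of_lt hr', Nat.mul_add_div M0, Nat.div_eq_of_lt hr', add_zero,
      pow_add, pow_mul]
    push_cast; ring

theorem rs (k : ℕ) : ∃ f g : ℕ → ℝ, (∀ m, f m = 1 ∨ f m = -1) ∧ (∀ m, g m = 1 ∨ g m = -1) ∧
    ∀ z : ℂ, ‖z‖ = 1 → ‖ev (2 ^ k) f z‖ ^ 2 + ‖ev (2 ^ k) g z‖ ^ 2 = 2 * 2 ^ k := by
  induction k with
  | zero => exact ⟨fun _ => 1, fun _ => 1, by simp, by simp, fun z _ => by norm_num [ev]⟩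
  | succ k ih =>
    obtain ⟨f, g, hf, hg, h⟩ := ih
    have e : ∀ (c : ℝ) z, ev (2 ^ (k + 1)) (fun m => if m < 2 ^ k then f m else c * g (m - 2 ^ k)) z =
        ev (2 ^ k) f z + c * (z ^ 2 ^ k * ev (2 ^ k) g z) := fun c z => by
      unfold ev
      rw [pow_succ, mul_two, Finset.sum_range_add, Finset.mul_sum, Finset.mul_sum]
      congr 1 <;> refine Finset.sum_congr rfl fun r hr => ?_ <;> beta_reduce
      · rw [if_pos (Finset.mem_range.1 hr)]
      · rw [if_neg (by omega), Nat.add_sub_cancel_left, pow_add]; push_cast; ring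
    refine ⟨fun m => if m < 2 ^ k then f m else 1 * g (m - 2 ^ k),
      fun m => if m < 2 ^ k then f m else -1 * g (m - 2 ^ k), fun m => ?_, fun m => ?_,
      fun z hz => ?_⟩
    · beta_reduce
      split_ifs
      · exact hf m
      · simpa using hg _
    · beta_reduce
      split_ifs
      · exact hf m
      · rcases hg (m - 2 ^ k) with h | h <;> simp [h]
    · have h1 := parallelogram_law_with_norm ℝ (ev (2 ^ k) f z) (z ^ 2 ^ k * ev (2 ^ k) g z)
      have h2 := h z hz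
      rw [norm_mul, norm_pow, hz, one_pow, one_mul] at h1
      rw [e, e]
      push_cast
      rw [one_mul, neg_one_mul, ← sub_eq_add_neg, pow_succ (2 : ℝ) k]
      linarith

theorem DK_le (m : ℕ) {z : ℂ} (hz : ‖z‖ = 1) : ‖DK m z‖ ≤ m ∧ ‖DK m z‖ * ‖1 - z‖ ≤ 2 ∧
    ‖DK m z - m‖ ≤ m * (m * ‖1 - z‖) / 2 := by
  have e : DK m z = ∑ i ∈ range m, z ^ i := by simp [DK, ev]
  have h1 : ∀ i : ℕ, ‖z ^ i - 1‖ ≤ i * ‖1 - z‖ := fun i => by
    rw [← geom_sum_mul, norm_mul, norm_sub_rev]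
    refine mul_le_mul_of_nonneg_right ((norm_sum_le _ _).trans ?_) (norm_nonneg _)
    simp [hz]
  rw [e]
  refine ⟨(norm_sum_le _ _).trans (by simp [hz]), ?_, ?_⟩
  · rw [norm_sub_rev, ← norm_mul, geom_sum_mul]
    refine (norm_sub_le _ _).trans ?_
    simp [hz]; norm_num
  · clear e
    induction m with
    | zero => simp
    | succ m ih =>
      rw [Finset.sum_range_succ]
      push_cast
      rw [add_sub_add_comm]
      have : (0 : ℝ) ≤ ‖1 - z‖ := norm_nonneg _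
      linarith [norm_add_le (∑ i ∈ range m, z ^ i - m) (z ^ m - 1), h1 m]

def SS (n : ℕ) : Set ℤ := {s | -(n : ℤ) < s ∧ s < n}

theorem DK_sq (m : ℕ) : (fun x => ((‖DK m (ee 1 x)‖ ^ 2 : ℝ) : ℂ)) ∈ TP (SS m) ∧
    ∫ x, ‖DK m (ee 1 x)‖ ^ 2 = m := by
  have e : ∀ x, ((‖DK m (ee 1 x)‖ ^ 2 : ℝ) : ℂ) =
      ∑ i ∈ range m, ∑ j ∈ range m, ee ((i : ℤ) + -(j : ℤ)) x := fun x => by
    rw [← normSq_eq_norm_sq, ← mul_conj]
    simp only [DK, ev, ofReal_one, one_mul, map_sum, Finset.sum_mul_sum, ← ee_pow, ee_add, ee_neg]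
  constructor
  · simp only [e]
    have : (fun x => ∑ i ∈ range m, ∑ j ∈ range m, ee ((i : ℤ) + -(j : ℤ)) x) =
        ∑ i ∈ range m, ∑ j ∈ range m, ee ((i : ℤ) + -(j : ℤ)) := by funext x; simp
    rw [this]
    refine Submodule.sum_mem _ fun i hi => Submodule.sum_mem _ fun j hj => ee_mem ?_
    have := Finset.mem_range.1 hi
    have := Finset.mem_range.1 hj
    exact ⟨by omega, by omega⟩
  · apply Complex.ofReal_injective
    rw [← integral_complex_ofReal]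
    simp only [e]
    rw [integral_finsetSum _ fun i _ => intg (by fun_prop)]
    have : ∀ i ∈ range m, ∫ x, ∑ j ∈ range m, ee ((i : ℤ) + -(j : ℤ)) x = 1 := fun i hi => by
      rw [integral_finsetSum _ fun i _ => intg (by fun_prop)]
      simp only [int_ee, add_neg_eq_zero, Nat.cast_inj]
      simpa using hi
    rw [Finset.sum_congr rfl this]; simp

variable {p : ℝ}

theorem maj (p0 : 0 < p) (p2 : p < 2) (k : ℕ) : ∃ V : X → ℝ,
    (fun x => (V x : ℂ)) ∈ TP (SS (2 ^ k)) ∧ (∀ x, ‖DK (2 ^ k) (ee 1 x)‖ ^ p ≤ V x) ∧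
    ∫ x, V x ≤ 64 * (k + 1) * (2 ^ k) ^ max (p - 1) 0 := by
  refine ⟨fun x => ∑ j ∈ range (k + 1), 64 * ((2 : ℝ) ^ j) ^ (p - 2) * ‖DK (2 ^ j) (ee 1 x)‖ ^ 2,
    ?_, fun x => ?_, ?_⟩
  · have : (fun x => ((∑ j ∈ range (k + 1),
        64 * ((2 : ℝ) ^ j) ^ (p - 2) * ‖DK (2 ^ j) (ee 1 x)‖ ^ 2 : ℝ) : ℂ)) =
        ∑ j ∈ range (k + 1), fun x => ((64 * ((2 : ℝ) ^ j) ^ (p - 2) : ℝ) : ℂ) *
          ((‖DK (2 ^ j) (ee 1 x)‖ ^ 2 : ℝ) : ℂ) := by
      funext x; simp only [Finset.sum_apply, ofReal_sum, ofReal_mul]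
    rw [this]
    refine Submodule.sum_mem _ fun j hj => TP_cmul _ (TP_mono (fun s hs => ?_) (DK_sq _).1)
    have : 2 ^ j ≤ 2 ^ k := Nat.pow_le_pow_right two_pos (by simpa [Nat.lt_succ_iff] using hj)
    obtain ⟨h1, h2⟩ := hs
    exact ⟨by omega, by omega⟩
  · have hz := norm_ee 1 x
    beta_reduce
    generalize ee 1 x = z at hz
    obtain ⟨j, j1, j2, j3⟩ : ∃ j ≤ k, (j = 0 ∨ 2 ^ j * ‖1 - z‖ ≤ 1) ∧
        (j = k ∨ 1 < 2 ^ (j + 1) * ‖1 - z‖) := by
      induction k with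
      | zero => exact ⟨0, le_rfl, Or.inl rfl, Or.inl rfl⟩
      | succ k ih =>
        obtain ⟨j, j1, j2, j3⟩ := ih
        by_cases h : 1 < 2 ^ (j + 1) * ‖1 - z‖
        · exact ⟨j, by omega, j2, Or.inr h⟩
        · obtain rfl := j3.resolve_right h
          exact ⟨j + 1, le_rfl, Or.inr (not_lt.1 h), Or.inl rfl⟩
    have t0 : (0 : ℝ) < 2 ^ j := by positivity
    have h1 : ‖DK (2 ^ k) z‖ ≤ 4 * 2 ^ j := by
      obtain ⟨b1, b2, -⟩ := DK_le (2 ^ k) hz
      rcases j3 with rfl | h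
      · push_cast at b1; linarith
      · rw [pow_succ] at h
        nlinarith [norm_nonneg (DK (2 ^ k) z), mul_le_mul_of_nonneg_left b2 t0.le]
    have h2 : 2 ^ j ≤ 2 * ‖DK (2 ^ j) z‖ := by
      rcases j2 with rfl | h
      · simp [DK, ev]
      · obtain ⟨-, -, b⟩ := DK_le (2 ^ j) hz
        have := norm_sub_norm_le ((2 ^ j : ℕ) : ℂ) (DK (2 ^ j) z)
        rw [norm_sub_rev, Complex.norm_natCast] at this
        push_cast at b this
        nlinarith
    refine le_trans ?_ (Finset.single_le_sum (f := fun j => 64 * ((2 : ℝ) ^ j) ^ (p - 2) *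
      ‖DK (2 ^ j) z‖ ^ 2) (fun i _ => by positivity) (Finset.mem_range.2 (Nat.lt_succ_of_le j1)))
    refine (Real.rpow_le_rpow (norm_nonneg _) h1 p0.le).trans ?_
    have h3 : (4 : ℝ) ^ p ≤ 16 := by
      simpa [show (4 : ℝ) ^ (2 : ℝ) = 16 by norm_num] using
        Real.rpow_le_rpow_of_exponent_le (x := 4) (by norm_num) p2.le
    have h4 : ((2 : ℝ) ^ j) ^ p = ((2 : ℝ) ^ j) ^ (p - 2) * (2 ^ j) ^ 2 := by
      rw [← Real.rpow_two, ← Real.rpow_add t0]; congr 1; ring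
    have h5 := Real.rpow_nonneg t0.le (p - 2)
    rw [Real.mul_rpow (by norm_num) t0.le, h4]
    have h6 : ((2 : ℝ) ^ j) ^ 2 ≤ 4 * ‖DK (2 ^ j) z‖ ^ 2 := by nlinarith
    nlinarith [mul_le_mul_of_nonneg_left h6 h5, mul_nonneg h5 (sq_nonneg ((2 : ℝ) ^ j))]
  · rw [integral_finsetSum _ fun i _ => intg (by fun_prop)]
    refine (Finset.sum_le_card_nsmul _ _ (64 * (2 ^ k) ^ max (p - 1) 0) fun j hj => ?_).trans
      (le_of_eq (by simp; ring))
    have t0 : (0 : ℝ) < 2 ^ j := by positivity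
    rw [integral_const_mul, (DK_sq _).2, mul_assoc]
    push_cast
    rw [← Real.rpow_add_one t0.ne', show p - 2 + 1 = p - 1 by ring]
    refine mul_le_mul_of_nonneg_left ((Real.rpow_le_rpow_of_exponent_le (one_le_pow₀ one_le_two)
      (le_max_left _ 0)).trans (Real.rpow_le_rpow t0.le ?_ (le_max_right _ _))) (by norm_num)
    exact pow_le_pow_right₀ one_le_two (by simpa [Nat.lt_succ_iff] using hj)

theorem facc {n : ℕ} {f g : X → ℂ} (hf : f ∈ TP (SS n)) (hg : g ∈ TP univ) :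
    ∫ x, f x * g (n • x) = (∫ x, f x) * ∫ x, g x := by
  have hfc := TP_cont hf
  refine TP_ind (p := fun g => ∫ x, f x * g (n • x) = (∫ x, f x) * ∫ x, g x) ?_ ?_ ?_ ?_ hg
  · intro j _
    by_cases h : j = 0
    · subst h; simp [ee_zero]
    · rw [int_ee, if_neg h, mul_zero]
      have : -(j * n) ∉ SS n := by
        rintro ⟨h1, h2⟩
        rcases lt_or_gt_of_ne h with h | h <;> nlinarith
      have h2 := coef_zero hf this
      simpa [coef, ee_nsmul] using h2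
  · simp
  · intro a b ha hb h1 h2
    have ha' := TP_cont ha
    have hb' := TP_cont hb
    simp only [Pi.add_apply, mul_add]
    rw [int_add, int_add ha' hb', h1, h2]
    · ring
    all_goals fun_prop
  · intro c a _ h1
    simp only [Pi.smul_apply, smul_eq_mul, mul_left_comm _ c]
    rw [integral_const_mul, integral_const_mul, h1]; ring

theorem facn {n L : ℕ} {f g : X → ℝ} (hf : (fun x => (f x : ℂ)) ∈ TP (SS n))
    (hg : (fun x => (g x : ℂ)) ∈ TP (SS L)) :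
    (fun x => ((f x * g (n • x) : ℝ) : ℂ)) ∈ TP (SS (n * L)) ∧
      ∫ x, f x * g (n • x) = (∫ x, f x) * ∫ x, g x := by
  constructor
  · simp only [ofReal_mul]
    refine TP_mul (T := {t | ∃ s ∈ SS L, t = s * n}) ?_ hf
      (TP_dil n (S := SS L) (T := {t | ∃ s ∈ SS L, t = s * n}) (fun s hs => ⟨s, hs, rfl⟩) hg)
    rintro s ⟨h1, h2⟩ _ ⟨t, ⟨h3, h4⟩, rfl⟩
    constructor <;> push_cast <;> nlinarith
  apply Complex.ofReal_injective
  rw [ofReal_mul, ← integral_complex_ofReal, ← integral_complex_ofReal, ← integral_complex_ofReal]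
  simp only [ofReal_mul]
  exact facc hf (TP_mono (subset_univ _) hg)

end Pool.Agent.H41.Tr
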