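import Pool.Agent.H41.Tr1

set_option autoImplicit false
open MeasureTheory Complex Set Filter Topology Metric
open Finset (range)
open scoped ComplexConjugate

namespace Pool.Agent.H41.Tr
open Pool.Agent.H41.Db

variable {p : ℝ}

theorem add4 (p0 : 0 < p) (p2 : p < 2) {a b c : ℝ} (a0 : 0 ≤ a) (b0 : 0 ≤ b) (c0 : 0 ≤ c)
    (h : c ≤ a + b) : c ^ p ≤ 4 * (a ^ p + b ^ p) := by
  have h1 : (2 : ℝ) ^ p ≤ 4 := by
    simpa [show (2 : ℝ) ^ (2 : ℝ) = 4 by norm_num] using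
      Real.rpow_le_rpow_of_exponent_le (x := 2) (by norm_num) p2.le
  have ha := Real.rpow_nonneg a0 p
  have hb := Real.rpow_nonneg b0 p
  rcases le_total a b with h2 | h2
  · refine (Real.rpow_le_rpow c0 (show c ≤ 2 * b by linarith) p0.le).trans ?_
    rw [Real.mul_rpow (by norm_num) b0]; nlinarith
  · refine (Real.rpow_le_rpow c0 (show c ≤ 2 * a by linarith) p0.le).trans ?_
    rw [Real.mul_rpow (by norm_num) a0]; nlinarith

theorem sq_rp {y : ℝ} (y0 : 0 ≤ y) (p : ℝ) : y ^ p = (y ^ 2) ^ (p / 2) := by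
  rw [← Real.rpow_two, ← Real.rpow_mul y0]; congr 1; ring

theorem kp (p0 : 0 < p) {u : X → ℂ} (ku : Continuous u) : Continuous fun x => ‖u x‖ ^ p :=
  ku.norm.rpow_const fun _ => Or.inr p0.le

theorem pick (p0 : 0 < p) (p2 : p < 2) (k : ℕ) {ω : X → ℝ} (kω : Continuous ω) (ω0 : ∀ x, 0 ≤ ω x)
    (M : ℕ) : ∃ h : ℕ → ℝ, (∀ m, h m = 1 ∨ h m = -1) ∧
      (∀ x, ‖ev (2 ^ k) h (ee 1 x)‖ ^ p ≤ 2 * (2 ^ k) ^ (p / 2)) ∧
      (2 ^ k) ^ (p / 2) / 16 * ∫ x, ω x ≤ ∫ x, ω x *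
        ‖(DK (2 ^ k) (ee 1 (M • x)) + ev (2 ^ k) h (ee 1 (M • x))) / 2‖ ^ p := by
  obtain ⟨f, g, hf, hg, h⟩ := rs k
  have L0 : (0 : ℝ) < 2 ^ k := by positivity
  have ng : ∀ (f : ℕ → ℝ) z, ev (2 ^ k) (fun m => -f m) z = -ev (2 ^ k) f z := fun f z => by
    simp [ev]
  have ns : ∀ f : ℕ → ℝ, (∀ m, f m = 1 ∨ f m = -1) → ∀ m, -f m = 1 ∨ -f m = -1 := fun f hf m => by
    rcases hf m with h | h <;> simp [h]
  have up : ∀ y : ℝ, 0 ≤ y → y ^ 2 ≤ 2 * 2 ^ k → y ^ p ≤ 2 * (2 ^ k) ^ (p / 2) := fun y y0 hy => by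
    rw [sq_rp y0]
    refine (Real.rpow_le_rpow (by positivity) hy (by positivity)).trans ?_
    rw [Real.mul_rpow (by norm_num) L0.le]
    refine mul_le_mul_of_nonneg_right ?_ (by positivity)
    simpa using Real.rpow_le_rpow_of_exponent_le (x := 2) (by norm_num) (show p / 2 ≤ 1 by linarith)
  have lo : ∀ y : ℝ, 0 ≤ y → 2 ^ k / 4 ≤ y ^ 2 → (2 ^ k) ^ (p / 2) / 4 ≤ y ^ p := fun y y0 hy => by
    rw [sq_rp y0]
    refine le_trans ?_ (Real.rpow_le_rpow (by positivity) hy (by positivity))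
    rw [Real.div_rpow L0.le (by norm_num)]
    refine div_le_div_of_nonneg_left (by positivity) (by positivity) ?_
    simpa using Real.rpow_le_rpow_of_exponent_le (x := 4) (by norm_num) (show p / 2 ≤ 1 by linarith)
  have uf : ∀ x, ‖ev (2 ^ k) f (ee 1 x)‖ ^ p ≤ 2 * (2 ^ k) ^ (p / 2) := fun x =>
    up _ (norm_nonneg _) (by nlinarith [h _ (norm_ee 1 x)])
  have ug : ∀ x, ‖ev (2 ^ k) g (ee 1 x)‖ ^ p ≤ 2 * (2 ^ k) ^ (p / 2) := fun x =>
    up _ (norm_nonneg _) (by nlinarith [h _ (norm_ee 1 x)])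
  by_contra! H
  have H1 := H f hf uf
  have H2 := H _ (ns f hf) (by simpa only [ng, norm_neg] using uf)
  have H3 := H g hg ug
  have H4 := H _ (ns g hg) (by simpa only [ng, norm_neg] using ug)
  have kk : ∀ f : ℕ → ℝ, Continuous fun x => ω x *
      ‖(DK (2 ^ k) (ee 1 (M • x)) + ev (2 ^ k) f (ee 1 (M • x))) / 2‖ ^ p := fun f =>
    kω.mul (kp p0 (by fun_prop))
  have H5 := int_mono (f := fun x => (2 ^ k) ^ (p / 2) / 4 * ω x) (by fun_prop)
    (((kk f).add (kk fun m => -f m)).add ((kk g).add (kk fun m => -g m))) fun x => by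
      have h1 := h _ (norm_ee 1 (M • x))
      simp only [Pi.add_apply, ← mul_add, ng, ← sub_eq_add_neg, norm_div, Complex.norm_ofNat]
      rw [mul_comm]
      refine mul_le_mul_of_nonneg_left ?_ (ω0 x)
      generalize DK (2 ^ k) (ee 1 (M • x)) = D
      generalize ev (2 ^ k) f (ee 1 (M • x)) = P at h1 ⊢
      generalize ev (2 ^ k) g (ee 1 (M • x)) = Q at h1 ⊢
      have h2 := parallelogram_law_with_norm ℝ D P
      have h3 := parallelogram_law_with_norm ℝ D Q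
      have r : ∀ w : ℂ, 0 ≤ (‖w‖ / 2) ^ p := fun w => by positivity
      by_contra! h4
      have n : ∀ w : ℂ, (‖w‖ / 2) ^ p < (2 ^ k) ^ (p / 2) / 4 → (‖w‖ / 2) ^ 2 < 2 ^ k / 4 :=
        fun w hw => not_le.1 fun h => hw.not_ge (lo _ (by positivity) h)
      have := n (D + P) (by linarith [r (D - P), r (D + Q), r (D - Q)])
      have := n (D - P) (by linarith [r (D + P), r (D + Q), r (D - Q)])
      have := n (D + Q) (by linarith [r (D - P), r (D + P), r (D - Q)])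
      have := n (D - Q) (by linarith [r (D - P), r (D + Q), r (D + P)])
      nlinarith [sq_nonneg ‖D‖]
  simp only [Pi.add_apply] at H5
  rw [int_add (by exact (kk f).add (kk _)) (by exact (kk g).add (kk _)), int_add (kk f) (kk _),
    int_add (kk g) (kk _), integral_const_mul] at H5
  linarith

theorem main (p0 : 0 < p) (p2 : p < 2) (k : ℕ) {δ : ℝ}
    (hδ : 64 * (k + 1) * (2 ^ k) ^ max (p - 1) 0 ≤ δ) (d : ℕ) : ∃ a u : ℕ → ℝ,
    (∀ m, (a m = 1 ∧ u m = 1) ∨ (a m ≤ -1 ∧ u m = 0)) ∧ ∃ G H : X → ℝ,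
    (fun x => (G x : ℂ)) ∈ TP (SS ((2 ^ k) ^ d)) ∧ (fun x => (H x : ℂ)) ∈ TP (SS ((2 ^ k) ^ d)) ∧
    (∀ x, ‖DK ((2 ^ k) ^ d) (ee 1 x)‖ ^ p ≤ G x) ∧ (∀ x, ‖ev ((2 ^ k) ^ d) a (ee 1 x)‖ ^ p ≤ H x) ∧
    ∫ x, G x ≤ δ ^ d ∧ (∫ x, H x) * δ ≤ 20 ^ d * ((2 * (2 ^ k) ^ (p / 2) + δ) * δ ^ d) ∧
    ((2 ^ k) ^ (p / 2) / 16) ^ d ≤ ∫ x, ‖ev ((2 ^ k) ^ d) u (ee 1 x)‖ ^ p := by
  obtain ⟨V, hV, V1, V2⟩ := maj p0 p2 k
  replace V2 := V2.trans hδ
  have V0 : ∀ x, 0 ≤ V x := fun x => le_trans (by positivity) (V1 x)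
  have δ0 : 0 ≤ δ := (integral_nonneg V0).trans V2
  set l : ℝ := (2 ^ k) ^ (p / 2) with hl
  have l0 : 0 ≤ l := by positivity
  induction d with
  | zero =>
    have : (fun _ : X => ((1 : ℝ) : ℂ)) ∈ TP (SS 1) := const_mem (S := SS 1) ⟨by simp, by simp⟩ _
    exact ⟨fun _ => 1, fun _ => 1, by simp, fun _ => 1, fun _ => 1, this, this, by simp [DK, ev],
      by simp [ev], by simp, by simpa using l0, by simp [ev]⟩
  | succ d ih =>
    obtain ⟨a, u, hr, G, H, hG, hH, G1, H1, G2, H2, U1⟩ := ih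
    rw [pow_succ (2 ^ k) d]
    have M0 : 0 < (2 ^ k) ^ d := by positivity
    generalize (2 ^ k) ^ d = M at *
    obtain ⟨h, h1, h2, h3⟩ := pick p0 p2 k (kp p0 (u := fun x => ev M u (ee 1 x)) (by fun_prop))
      (fun x => by positivity) M
    have ez : ∀ x, ee 1 x ^ M = ee 1 (M • x) := fun x => by rw [ee_nsmul, one_mul, ee_pow]
    have G0 : ∀ x, 0 ≤ G x := fun x => le_trans (by positivity) (G1 x)
    have H0 : ∀ x, 0 ≤ H x := fun x => le_trans (by positivity) (H1 x)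
    have z0 : (0 : ℤ) ∈ SS (2 ^ k) := ⟨by simp, by simp⟩
    obtain ⟨t1, i1⟩ := facn hG hV
    obtain ⟨t2, i2⟩ := facn hH hV
    obtain ⟨t3, i3⟩ := facn hG (g := fun x => 2 * l + V x) (by
      simpa only [ofReal_add] using TP_add (const_mem z0 _) hV)
    have eD : ∀ x, DK (M * 2 ^ k) (ee 1 x) = DK M (ee 1 x) * DK (2 ^ k) (ee 1 (M • x)) := fun x => by
      simpa [DK, ez] using ev_mul M0 (2 ^ k) (fun _ => 1) (fun _ => 1) (ee 1 x)
    have eA : ∀ x, ev (M * 2 ^ k) (fun m => a (m % M) * 1 + 1 * (h (m / M) - 1)) (ee 1 x) =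
        ev M a (ee 1 x) * DK (2 ^ k) (ee 1 (M • x)) +
          DK M (ee 1 x) * (ev (2 ^ k) h (ee 1 (M • x)) - DK (2 ^ k) (ee 1 (M • x))) := fun x => by
      have e1 := ev_mul M0 (2 ^ k) a (fun _ => 1) (ee 1 x)
      have e2 := ev_mul M0 (2 ^ k) (fun _ => 1) (fun s => h s - 1) (ee 1 x)
      have e3 : ∀ z, ev (2 ^ k) (fun s => h s - 1) z = ev (2 ^ k) h z - DK (2 ^ k) z := fun z => by
        simp [DK, ev, sub_mul]
      rw [e3] at e2
      rw [← ez, DK, DK, ← e1, ← DK, ← DK, DK, ← e2]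
      simp only [ev, ofReal_add, add_mul, Finset.sum_add_distrib]
    have eU : ∀ x, ev (M * 2 ^ k) (fun m => u (m % M) * ((1 + h (m / M)) / 2)) (ee 1 x) =
        ev M u (ee 1 x) * ((DK (2 ^ k) (ee 1 (M • x)) + ev (2 ^ k) h (ee 1 (M • x))) / 2) :=
      fun x => by
        rw [ev_mul M0 (2 ^ k) u (fun s => (1 + h s) / 2), ez]
        congr 1
        simp only [DK, ev, ← Finset.sum_add_distrib, Finset.sum_div]
        exact Finset.sum_congr rfl fun _ _ => by push_cast; ring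
    refine ⟨fun m => a (m % M) * 1 + 1 * (h (m / M) - 1), fun m => u (m % M) * ((1 + h (m / M)) / 2),
      fun m => ?_, fun x => G x * V (M • x),
      fun x => 4 * (H x * V (M • x)) + 16 * (G x * (2 * l + V (M • x))), t1, ?_, fun x => ?_,
      fun x => ?_, ?_, ?_, ?_⟩
    · rcases hr (m % M) with ⟨b1, b2⟩ | ⟨b1, b2⟩ <;> rcases h1 (m / M) with b3 | b3 <;>
        simp only [b2, b3] <;> norm_num <;> linarith
    · simpa only [ofReal_add, ofReal_mul, ofReal_ofNat] using TP_add (TP_cmul 4 t2) (TP_cmul 16 t3)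
    · rw [eD, norm_mul, Real.mul_rpow (norm_nonneg _) (norm_nonneg _)]
      exact mul_le_mul (G1 x) (V1 _) (by positivity) (G0 x)
    · rw [eA]
      refine (add4 p0 p2 (norm_nonneg _) (norm_nonneg _) (norm_nonneg _) (norm_add_le _ _)).trans ?_
      rw [norm_mul, norm_mul, Real.mul_rpow (norm_nonneg _) (norm_nonneg _),
        Real.mul_rpow (norm_nonneg _) (norm_nonneg _)]
      have b1 := mul_le_mul (H1 x) (V1 (M • x)) (by positivity) (H0 x)
      have b2 := mul_le_mul (G1 x) ((add4 p0 p2 (norm_nonneg _) (norm_nonneg _) (norm_nonneg _)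
        (norm_sub_le _ _)).trans (mul_le_mul_of_nonneg_left (add_le_add (h2 (M • x)) (V1 (M • x)))
          (by norm_num))) (by positivity) (G0 x)
      linarith
    · rw [i1, pow_succ]
      exact mul_le_mul G2 V2 (integral_nonneg V0) (by positivity)
    · rw [int_add (by exact continuous_const.mul (re_cont t2)) (by
        exact continuous_const.mul (re_cont t3)), integral_const_mul, integral_const_mul, i2, i3,
        int_add continuous_const (re_cont hV)]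
      simp only [integral_const, probReal_univ, one_smul]
      have b1 := mul_le_mul_of_nonneg_left V2 (integral_nonneg (μ := volume) H0)
      have b2 := mul_le_mul G2 (add_le_add_right V2 (2 * l))
        (add_nonneg (by positivity) (integral_nonneg V0)) (by positivity)
      have b3 : (1 : ℝ) ≤ 20 ^ d := one_le_pow₀ (by norm_num)
      have b4 : 0 ≤ (2 * l + δ) * δ ^ d := by positivity
      rw [pow_succ, pow_succ]
      nlinarith [mul_le_mul_of_nonneg_right (b1.trans H2) δ0, mul_le_mul_of_nonneg_right b2 δ0,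
        mul_le_mul_of_nonneg_right b3 (mul_nonneg b4 δ0)]
    · simp only [eU, norm_mul, Real.mul_rpow (norm_nonneg _) (norm_nonneg _)]
      refine le_trans ?_ h3
      rw [pow_succ']
      exact mul_le_mul_of_nonneg_left U1 (by positivity)

end Pool.Agent.H41.Tr
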