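import Pool.Agent.H41.Tr2

set_option autoImplicit false
open MeasureTheory Complex Set Filter Topology Metric
open Finset (range)
open scoped ComplexConjugate

namespace Pool.Agent.H41.Tr
open Pool.Agent.H41.Db

variable {p : ℝ}

noncomputable def II (p : ℝ) (n : ℕ) (a : ℕ → ℂ) : ℝ :=
  ∫ x, ‖∑ j ∈ range (n + 1), a j * ee 1 x ^ j‖ ^ p

theorem II_nonneg (p : ℝ) (n : ℕ) (a : ℕ → ℂ) : 0 ≤ II p n a := integral_nonneg fun _ => by positivity

theorem circ (φ : ℂ → ℝ) :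
    ∫ θ in (0 : ℝ)..2 * Real.pi, φ (exp (θ * I)) = 2 * Real.pi * ∫ x, φ (ee 1 x) := by
  have hp : (0 : ℝ) < 2 * Real.pi := by positivity
  have := intervalIntegral.integral_comp_div (a := 0) (b := 2 * Real.pi)
    (fun t : ℝ => φ (ee 1 (t : X))) hp.ne'
  simp only [ee_theta] at this
  rw [this, ← UnitAddCircle.intervalIntegral_preimage 0, smul_eq_mul, div_self hp.ne']
  simp

theorem ratio_eq (p : ℝ) (n : ℕ) (a : ℕ → ℂ) :
    ratio p n a = (II p n (fun j => trunc (a j)) / II p n a) ^ (1 / p) := by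
  have hp : (0 : ℝ) < 2 * Real.pi := by positivity
  rw [ratio, Lp, Lp, circ fun z => ‖∑ j ∈ range (n + 1), trunc (a j) * z ^ j‖ ^ p,
    circ fun z => ‖∑ j ∈ range (n + 1), a j * z ^ j‖ ^ p, ← II, ← II,
    ← Real.div_rpow (mul_nonneg hp.le (II_nonneg _ _ _)) (mul_nonneg hp.le (II_nonneg _ _ _)),
    mul_div_mul_left _ _ hp.ne']

theorem pars (N : ℕ) (a : ℕ → ℂ) :
    ∫ x, ‖∑ j ∈ range N, a j * ee 1 x ^ j‖ ^ 2 = ∑ j ∈ range N, ‖a j‖ ^ 2 := by
  have e : ∀ x, ((‖∑ j ∈ range N, a j * ee 1 x ^ j‖ ^ 2 : ℝ) : ℂ) =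
      ∑ i ∈ range N, ∑ j ∈ range N, a i * conj (a j) * ee ((i : ℤ) + -(j : ℤ)) x := fun x => by
    rw [← normSq_eq_norm_sq, ← mul_conj]
    simp only [map_sum, Finset.sum_mul_sum, ← ee_pow, ee_add, ee_neg, map_mul]
    exact Finset.sum_congr rfl fun _ _ => Finset.sum_congr rfl fun _ _ => by ring
  apply Complex.ofReal_injective
  rw [← integral_complex_ofReal]
  simp only [e]
  rw [integral_finsetSum _ fun i _ => intg (by fun_prop), ofReal_sum]
  refine Finset.sum_congr rfl fun i hi => ?_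
  rw [integral_finsetSum _ fun i _ => intg (by fun_prop)]
  simp only [integral_const_mul, int_ee, add_neg_eq_zero, Nat.cast_inj, mul_ite, mul_one, mul_zero]
  rw [Finset.sum_ite_eq, if_pos hi, mul_conj, normSq_eq_norm_sq]

theorem low (p0 : 0 < p) (p2 : p < 2) (n : ℕ) (a : ℕ → ℂ) :
    ∑ j ∈ range (n + 1), ‖a j‖ ^ 2 ≤
      ((n + 1) * ∑ j ∈ range (n + 1), ‖a j‖ ^ 2) ^ (1 - p / 2) * II p n a := by
  nth_rewrite 1 [← pars]
  rw [II, ← integral_const_mul]
  refine int_mono (by fun_prop) (continuous_const.mul (kp p0 (by fun_prop))) fun x => ?_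
  have h1 : ‖∑ j ∈ range (n + 1), a j * ee 1 x ^ j‖ ^ 2 ≤ (n + 1) * ∑ j ∈ range (n + 1), ‖a j‖ ^ 2 := by
    refine le_trans (pow_le_pow_left₀ (norm_nonneg _) ((norm_sum_le _ _).trans (le_of_eq ?_)) 2)
      ((sq_sum_le_card_mul_sum_sq (s := range (n + 1)) (f := fun j => ‖a j‖)).trans
        (le_of_eq (by simp)))
    simp [norm_ee]
  generalize ∑ j ∈ range (n + 1), a j * ee 1 x ^ j = w at h1
  rw [sq_rp (norm_nonneg w)]
  refine le_trans (le_of_eq ?_) (mul_le_mul_of_nonneg_right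
    (Real.rpow_le_rpow (by positivity) h1 (by linarith)) (by positivity))
  rw [← Real.rpow_add' (by positivity) (by norm_num)]; simp

theorem E_pos {n : ℕ} {a : ℕ → ℂ} (ha : ∃ j ≤ n, a j ≠ 0) : 0 < ∑ j ∈ range (n + 1), ‖a j‖ ^ 2 := by
  obtain ⟨j, h1, h2⟩ := ha
  exact Finset.sum_pos' (fun _ _ => by positivity)
    ⟨j, Finset.mem_range.2 (Nat.lt_succ_of_le h1), by positivity⟩

theorem II_pos (p0 : 0 < p) (p2 : p < 2) {n : ℕ} {a : ℕ → ℂ} (ha : ∃ j ≤ n, a j ≠ 0) :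
    0 < II p n a :=
  pos_of_mul_pos_right ((E_pos ha).trans_le (low p0 p2 n a)) (by positivity)

theorem upper (p0 : 0 < p) (p2 : p < 2) {n : ℕ} {a : ℕ → ℂ} (ha : ∃ j ≤ n, a j ≠ 0) :
    ratio p n a ≤ ((n : ℝ) + 1) ^ (1 / p - 1 / 2) := by
  have E0 := E_pos ha
  have h1 := low p0 p2 n a
  have h2 : ∑ j ∈ range (n + 1), ‖trunc (a j)‖ ^ 2 ≤ ∑ j ∈ range (n + 1), ‖a j‖ ^ 2 :=
    Finset.sum_le_sum fun j _ => pow_le_pow_left₀ (norm_nonneg _) (by
      unfold trunc
      split_ifs with h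
      · rfl
      · rw [norm_div, Complex.norm_real, norm_norm, div_self (by linarith [not_lt.1 h])]
        exact not_lt.1 h) 2
  rw [← pars (n + 1) fun j => trunc (a j)] at h2
  generalize ∑ j ∈ range (n + 1), ‖a j‖ ^ 2 = E at *
  have h3 : II p n (fun j => trunc (a j)) ≤ E ^ (p / 2) := by
    have h4 := int_mono (kp p0 (u := fun x => ∑ j ∈ range (n + 1), trunc (a j) * ee 1 x ^ j)
      (by fun_prop)) (g := fun x => E ^ (p / 2) * (1 - p / 2) + E ^ (p / 2) * (p / 2) / E *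
        ‖∑ j ∈ range (n + 1), trunc (a j) * ee 1 x ^ j‖ ^ 2) (by fun_prop) fun x => by
        generalize ∑ j ∈ range (n + 1), trunc (a j) * ee 1 x ^ j = w
        have h5 := rpow_one_add_le_one_add_mul_self (s := ‖w‖ ^ 2 / E - 1) (p := p / 2)
          (by linarith [show 0 ≤ ‖w‖ ^ 2 / E by positivity]) (by linarith) (by linarith)
        rw [add_sub_cancel, Real.div_rpow (by positivity) E0.le, div_le_iff₀ (by positivity)] at h5
        rw [sq_rp (norm_nonneg w)]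
        exact h5.trans (le_of_eq (by ring))
    rw [int_add continuous_const (by fun_prop), integral_const_mul (E ^ (p / 2) * (p / 2) / E)] at h4
    simp only [integral_const, probReal_univ, one_smul] at h4
    refine h4.trans ((add_le_add_right (mul_le_mul_of_nonneg_left h2 (by positivity)) _).trans
      (le_of_eq ?_))
    field_simp; ring
  have I0 := II_pos p0 p2 ha
  rw [ratio_eq, show 1 / p - 1 / 2 = (1 - p / 2) * (1 / p) by field_simp,
    Real.rpow_mul (by positivity)]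
  refine Real.rpow_le_rpow (div_nonneg (II_nonneg _ _ _) I0.le) ?_ (by positivity)
  rw [div_le_iff₀ I0]
  refine h3.trans (le_of_mul_le_mul_left ?_ (Real.rpow_pos_of_pos E0 (1 - p / 2)))
  rw [← Real.rpow_add E0, sub_add_cancel, Real.rpow_one, ← mul_assoc, mul_comm (E ^ _),
    ← Real.mul_rpow (by positivity) E0.le]
  exact h1

theorem key (p0 : 0 < p) (p2 : p < 2) (k d n : ℕ) (hn : (2 ^ k) ^ (d + 1) ≤ n + 1) {R : ℝ}
    (R1 : 128 ≤ R) (hR : 64 * (k + 1) * (2 ^ k) ^ max (p - 1) 0 * R ≤ (2 ^ k) ^ (p / 2)) :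
    ∃ a : ℕ → ℝ, (∃ j ≤ n, a j ≠ 0) ∧ R ^ d * II p n (fun j => a j) ≤
      24 * 320 ^ (d + 1) * II p n fun j => trunc (a j) := by
  obtain ⟨a, u, hr, G, H, hG, hH, G1, H1, G2, H2, U1⟩ := main p0 p2 k le_rfl (d + 1)
  have δ0 : (0 : ℝ) < 64 * (k + 1) * (2 ^ k) ^ max (p - 1) 0 := by positivity
  have N0 : 0 < (2 ^ k) ^ (d + 1) := by positivity
  generalize 64 * (k + 1) * (2 ^ k : ℝ) ^ max (p - 1) 0 = δ at *
  generalize (2 ^ k : ℝ) ^ (p / 2) = l at *
  generalize (2 ^ k) ^ (d + 1) = N at *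
  have pad : ∀ (c b : ℕ → ℂ) (z : ℂ), (∀ j < N, c j = b j) → (∀ j, N ≤ j → c j = 0) →
      ∑ j ∈ range (n + 1), c j * z ^ j = ∑ j ∈ range N, b j * z ^ j := fun c b z h1 h2 => by
    rw [← Finset.sum_subset (Finset.range_subset_range.2 hn) fun j _ hj => by
      rw [h2 j (by simpa using hj), zero_mul]]
    exact Finset.sum_congr rfl fun j hj => by rw [h1 j (Finset.mem_range.1 hj)]
  refine ⟨fun j => if j < N then a j else 0, ⟨0, by simp, ?_⟩, ?_⟩
  · rcases hr 0 with h | h <;> simp only [if_pos N0] <;> linarith [h.1]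
  have e1 : II p n (fun j => ((if j < N then a j else 0 : ℝ) : ℂ)) = ∫ x, ‖ev N a (ee 1 x)‖ ^ p := by
    simp only [II, ev]
    congr 1; funext x
    rw [pad _ (fun j => a j) _ (fun j hj => by simp [hj]) fun j hj => by simp [hj.not_gt]]
  have e2 : II p n (fun j => trunc ((if j < N then a j else 0 : ℝ) : ℂ)) =
      ∫ x, ‖2 * ev N u (ee 1 x) - DK N (ee 1 x)‖ ^ p := by
    simp only [II, DK, ev]
    congr 1; funext x
    rw [pad _ (fun j => 2 * u j - 1) _ (fun j hj => ?_) fun j hj => by simp [hj.not_gt, trunc]]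
    · simp [sub_mul, Finset.mul_sum, mul_assoc]
    · rw [if_pos hj, trunc, Complex.norm_real]
      rcases hr j with ⟨h1, h2⟩ | ⟨h1, h2⟩
      · norm_num [h1, h2]
      · have : (a j : ℂ) ≠ 0 := by exact_mod_cast (show a j ≠ 0 by linarith)
        rw [Real.norm_of_nonpos (by linarith), if_neg (by linarith), h2]
        push_cast; field_simp; ring
  rw [e1, e2]
  have k1 := kp p0 (u := fun x => 2 * ev N u (ee 1 x) - DK N (ee 1 x)) (by fun_prop)
  have b1 := int_mono (kp p0 (u := fun x => ev N a (ee 1 x)) (by fun_prop)) (re_cont hH) H1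
  have b2 := int_mono (kp p0 (u := fun x => ev N u (ee 1 x)) (by fun_prop))
    (g := fun x => 4 * (‖2 * ev N u (ee 1 x) - DK N (ee 1 x)‖ ^ p + G x))
    (continuous_const.mul (k1.add (re_cont hG))) fun x => by
      refine (add4 p0 p2 (norm_nonneg (2 * ev N u (ee 1 x) - DK N (ee 1 x)))
        (norm_nonneg (DK N (ee 1 x))) (norm_nonneg _) ?_).trans (by linarith [G1 x])
      have := norm_sub_norm_le (2 * ev N u (ee 1 x)) (DK N (ee 1 x))
      rw [norm_mul, Complex.norm_ofNat] at this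
      linarith [norm_nonneg (ev N u (ee 1 x))]
  rw [integral_const_mul, int_add k1 (re_cont hG)] at b2
  have b3 : δ ≤ l / 16 * (1 / 8) := by nlinarith
  have l0 : 0 < l := by linarith
  have b4 : δ ^ (d + 1) ≤ (l / 16) ^ (d + 1) * (1 / 8) := by
    refine (pow_le_pow_left₀ δ0.le b3 _).trans ?_
    rw [mul_pow]
    exact mul_le_mul_of_nonneg_left (pow_le_of_le_one (by norm_num) (by norm_num) (by omega))
      (by positivity)
  have b5 : ∫ x, H x ≤ 20 ^ (d + 1) * (3 * l * δ ^ d) := by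
    refine le_of_mul_le_mul_right (H2.trans ?_) δ0
    rw [mul_assoc (20 ^ (d + 1)), mul_assoc (3 * l), ← pow_succ]
    gcongr; linarith
  have b6 : R ^ d * δ ^ d ≤ l ^ d := by
    rw [← mul_pow]; exact pow_le_pow_left₀ (by positivity) (by linarith) _
  have b7 : (320 : ℝ) ^ (d + 1) * (l / 16) ^ (d + 1) = 20 ^ (d + 1) * (l * l ^ d) := by
    rw [← mul_pow, ← pow_succ', ← mul_pow]; congr 1; ring
  have b8 := mul_le_mul_of_nonneg_left (b1.trans b5) (show 0 ≤ R ^ d by positivity)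
  have b9 := mul_le_mul_of_nonneg_left b6 (show 0 ≤ 20 ^ (d + 1) * (3 * l) by positivity)
  have b10 : (l / 16) ^ (d + 1) ≤ 8 * ∫ x, ‖2 * ev N u (ee 1 x) - DK N (ee 1 x)‖ ^ p := by linarith
  nlinarith [mul_le_mul_of_nonneg_left b10 (show (0 : ℝ) ≤ 320 ^ (d + 1) by positivity)]

theorem ev_small (j : ℕ) {η : ℝ} (hη : 0 < η) (C : ℝ) :
    ∀ᶠ k : ℕ in atTop, C * ((k : ℝ) + 1) ^ j ≤ ((2 : ℝ) ^ k) ^ η := by
  have r1 : 1 < (2 : ℝ) ^ η := Real.one_lt_rpow (by norm_num) hη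
  have h := ((tendsto_pow_const_div_const_pow_of_one_lt j r1).comp
    (tendsto_add_atTop_nat 1)).const_mul (C * 2 ^ η)
  rw [mul_zero] at h
  filter_upwards [h.eventually (eventually_le_nhds one_pos)] with k hk
  rw [← Real.rpow_pow_comm zero_le_two]
  simp only [Function.comp, Nat.cast_add, Nat.cast_one] at hk
  rw [← mul_div_assoc, div_le_one (by positivity), pow_succ] at hk
  exact le_of_mul_le_mul_right (by linarith) (zero_lt_one.trans r1)

theorem lower (p0 : 0 < p) (p2 : p < 2) {β : ℝ} (hβ : β < min (1 / 2) (1 / p - 1 / 2)) :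
    ∀ᶠ n : ℕ in atTop, ∃ a : ℕ → ℝ, (∃ j ≤ n, a j ≠ 0) ∧ (n : ℝ) ^ β ≤ ratio p n fun j => a j := by
  wlog β0 : 0 ≤ β generalizing β
  · filter_upwards [this (β := 0) (lt_min (by norm_num) (by
      rw [sub_pos]; exact one_div_lt_one_div_of_lt p0 p2)) le_rfl, eventually_ge_atTop 1]
      with n ⟨a, h1, h2⟩ hn
    exact ⟨a, h1, (Real.rpow_le_rpow_of_exponent_le (by exact_mod_cast hn) (not_le.1 β0).le).trans h2⟩
  set μ := p / 2 - max (p - 1) 0 with hμ
  have h1 : β * p < μ := by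
    have b1 := mul_lt_mul_of_pos_right (lt_min_iff.1 hβ).1 p0
    have b2 := mul_lt_mul_of_pos_right (lt_min_iff.1 hβ).2 p0
    rw [sub_mul, one_div_mul_cancel p0.ne'] at b2
    rw [hμ]; cases max_cases (p - 1) 0 <;> linarith
  have γ0 : 0 ≤ β * p := by positivity
  obtain ⟨d, hd⟩ := exists_nat_gt (β * p / (μ - β * p))
  rw [div_lt_iff₀ (by linarith)] at hd
  obtain ⟨k0, hk⟩ := eventually_atTop.1 ((ev_small 1 (η := μ) (by linarith) 8192).and
    (ev_small d (η := μ * d - β * p * (d + 1)) (by linarith)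
      (24 * 320 ^ (d + 1) * 64 ^ d * 2 ^ (β * p * (d + 1)))))
  have B1 : 1 < 2 ^ (d + 1) := Nat.one_lt_two_pow (by omega)
  filter_upwards [eventually_ge_atTop ((2 ^ (d + 1)) ^ k0)] with n hn
  obtain ⟨c1, c2⟩ := hk _ (Nat.le_log_of_pow_le B1 (hn.trans n.le_succ))
  have c3 := Nat.pow_log_le_self (2 ^ (d + 1)) n.succ_ne_zero
  have c4 := Nat.lt_pow_succ_log_self B1 (n + 1)
  generalize Nat.log (2 ^ (d + 1)) (n + 1) = k at *
  have L0 : (0 : ℝ) < 2 ^ k := by positivity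
  rw [pow_one] at c1
  obtain ⟨a, h2, h3⟩ := key p0 p2 k d n (by rwa [← pow_mul, mul_comm, pow_mul])
    (R := (2 ^ k) ^ μ / (64 * (k + 1))) (by rw [le_div_iff₀ (by positivity)]; linarith) (by
      rw [show p / 2 = max (p - 1) 0 + μ by linarith, Real.rpow_add L0]
      exact le_of_eq (by field_simp))
  refine ⟨a, h2, ?_⟩
  have I0 := II_pos p0 p2 (a := fun j => (a j : ℂ)) (by simpa using h2)
  rw [ratio_eq, show β = β * p * (1 / p) by field_simp, Real.rpow_mul (by positivity)]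
  refine Real.rpow_le_rpow (by positivity) ?_ (by positivity)
  rw [le_div_iff₀ I0]
  refine le_of_mul_le_mul_left (le_trans ?_ h3) (by positivity)
  rw [← mul_assoc]
  refine mul_le_mul_of_nonneg_right ?_ I0.le
  have c5 : (n : ℝ) ≤ (2 * 2 ^ k) ^ (d + 1) := by
    rw [← pow_succ', ← pow_mul, mul_comm, pow_mul]
    exact_mod_cast (n.le_succ.trans c4.le)
  have c6 := Real.rpow_le_rpow (by positivity) c5 γ0
  rw [← Real.rpow_natCast, ← Real.rpow_mul (by positivity), Real.mul_rpow zero_le_two L0.le,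
    mul_comm ((d + 1 : ℕ) : ℝ), Nat.cast_succ] at c6
  rw [div_pow, le_div_iff₀ (by positivity), ← Real.rpow_mul_natCast L0.le, mul_pow,
    show μ * d = μ * d - β * p * (d + 1) + β * p * (d + 1) by ring, Real.rpow_add L0]
  have c7 := mul_le_mul_of_nonneg_right c2 (Real.rpow_nonneg L0.le (β * p * (d + 1)))
  have c8 := mul_le_mul_of_nonneg_left c6
    (show 0 ≤ 24 * 320 ^ (d + 1) * (64 ^ d * ((k : ℝ) + 1) ^ d) by positivity)
  linarith

theorem unbdd (p0 : 0 < p) (p2 : p < 2) (c : ℝ) :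
    ∃ (n : ℕ) (a : ℕ → ℝ), (∃ j ≤ n, a j ≠ 0) ∧ c < ratio p n fun j => a j := by
  obtain ⟨β, β0, β1⟩ := exists_between (lt_min (show (0 : ℝ) < 1 / 2 by norm_num)
    (sub_pos.2 (one_div_lt_one_div_of_lt p0 p2)))
  obtain ⟨n, ⟨a, h1, h2⟩, h3⟩ := ((lower p0 p2 β1).and (((tendsto_rpow_atTop β0).comp
    tendsto_natCast_atTop_atTop).eventually_gt_atTop c)).exists
  exact ⟨n, a, h1, h3.trans_le h2⟩

end Pool.Agent.H41.Tr
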