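import Pool.Agent.H41.TrDefs

set_option autoImplicit false

namespace Pool.Agent.H41.Tr

/-- `N^{real}_{n,p}`: supremum of the ratio over nonzero real polynomials of degree `≤ n`. -/
noncomputable def Nreal (p : ℝ) (n : ℕ) : ℝ :=
  sSup {r | ∃ a : ℕ → ℝ, (∃ j ≤ n, a j ≠ 0) ∧ r = ratio p n fun j => (a j : ℂ)}

/-- `N^{comp}_{n,p}`: supremum of the ratio over nonzero complex polynomials of degree `≤ n`. -/
noncomputable def Ncomp (p : ℝ) (n : ℕ) : ℝ :=
  sSup {r | ∃ a : ℕ → ℂ, (∃ j ≤ n, a j ≠ 0) ∧ r = ratio p n a}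

end Pool.Agent.H41.Tr
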