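import Pool.Agent.H41.Tr3
import Pool.Agent.H41.TrDefs2

set_option autoImplicit false
open Filter

namespace Pool.Agent.H41.Tr

theorem growth {p : ℝ} (p0 : 0 < p) (p2 : p < 2) {ε : ℝ} (hε : 0 < ε) :
    ∀ᶠ n : ℕ in atTop, (n : ℝ) ^ (min (1 / 2) (1 / p - 1 / 2) - ε) ≤ Nreal p n ∧
      Nreal p n ≤ Ncomp p n ∧ Ncomp p n ≤ ((n : ℝ) + 1) ^ (1 / p - 1 / 2) := by
  filter_upwards [lower p0 p2 (sub_lt_self _ hε)] with n ⟨a, h1, h2⟩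
  have sub : {r | ∃ a : ℕ → ℝ, (∃ j ≤ n, a j ≠ 0) ∧ r = ratio p n fun j => (a j : ℂ)} ⊆
      {r | ∃ a : ℕ → ℂ, (∃ j ≤ n, a j ≠ 0) ∧ r = ratio p n a} := by
    rintro r ⟨a, h1, rfl⟩
    exact ⟨_, by simpa using h1, rfl⟩
  have ub : ∀ r ∈ {r | ∃ a : ℕ → ℂ, (∃ j ≤ n, a j ≠ 0) ∧ r = ratio p n a},
      r ≤ ((n : ℝ) + 1) ^ (1 / p - 1 / 2) := by
    rintro r ⟨a, h1, rfl⟩
    exact upper p0 p2 h1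
  have bd : BddAbove {r | ∃ a : ℕ → ℂ, (∃ j ≤ n, a j ≠ 0) ∧ r = ratio p n a} := ⟨_, ub⟩
  exact ⟨h2.trans (le_csSup (bd.mono sub) ⟨a, h1, rfl⟩), csSup_le_csSup bd ⟨_, a, h1, rfl⟩ sub,
    csSup_le ⟨_, sub ⟨a, h1, rfl⟩⟩ ub⟩

end Pool.Agent.H41.Tr
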