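import Mathlib

set_option autoImplicit false

namespace Pool.Agent.H41.Tr

/-- A coefficient pulled radially into the closed unit disc. -/
noncomputable def trunc (a : ℂ) : ℂ := if ‖a‖ < 1 then a else a / (‖a‖ : ℂ)

/-- The `L_p` norm (arc length) on the unit circle of the polynomial `∑_{j ≤ n} a_j z^j`. -/
noncomputable def Lp (p : ℝ) (n : ℕ) (a : ℕ → ℂ) : ℝ :=
  (∫ θ in (0 : ℝ)..2 * Real.pi,
    ‖∑ j ∈ Finset.range (n + 1), a j * Complex.exp (θ * Complex.I) ^ j‖ ^ p) ^ (1 / p)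

/-- The ratio `‖S_n P‖_p / ‖P‖_p` for `P = ∑_{j ≤ n} a_j z^j`. -/
noncomputable def ratio (p : ℝ) (n : ℕ) (a : ℕ → ℂ) : ℝ :=
  Lp p n (fun j => trunc (a j)) / Lp p n a

end Pool.Agent.H41.Tr
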