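import Pool.Agent.H41.TranspDefs

set_option autoImplicit false

namespace Pool.Agent.H41.Transp

open scoped ENNReal
open Finset

def Star (m : ℕ) : Type := Option (Fin m)

def sd {m : ℕ} : Option (Fin m) → Option (Fin m) → ℝ
  | none, none => 0
  | none, some _ => 1
  | some _, none => 1
  | some i, some j => if i = j then 0 else 2

noncomputable instance (m : ℕ) : MetricSpace (Star m) where
  dist := sd
  dist_self x := by cases x <;> simp [sd]
  dist_comm x y := by cases x <;> cases y <;> simp [sd, eq_comm]
  dist_triangle x y z := by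
    cases x <;> cases y <;> cases z <;> simp only [sd] <;> (try split_ifs) <;> (try simp_all) <;>
      norm_num
  eq_of_dist_eq_zero {x y} h := by
    cases x <;> cases y <;> simp only [sd] at h <;> (try split_ifs at h) <;> (try simp_all) <;> rfl

variable {m : ℕ}

def leaf (i : Fin m) : Star m := some i
def centre : Star m := none

theorem dist_leaf (i j : Fin m) : dist (leaf i) (leaf j) = if i = j then 0 else 2 := rfl
theorem dist_centre (i : Fin m) : dist (leaf i) (centre : Star m) = 1 := rfl

theorem sum_load {N : Type} (A : List N → N → Fin m) (r : List N) :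
    ∑ i, load A i r = r.length := by
  induction r with
  | nil => simp [load]
  | cons x h ih => simp [load, sum_add_distrib, ih]

theorem cost_centre (A : List (Star m) → Star m → Fin m) (D : ℕ) :
    cost leaf A (List.replicate D centre) = D := by
  induction D with
  | zero => simp [cost]
  | succ D ih => rw [List.replicate_succ, cost, ih, dist_centre]; push_cast; ring

theorem cost_phase (A : List (Star m) → Star m → Fin m) (H : Finset (Fin m)) (r : List (Star m))
    (l : List (Fin m)) (hl : ∀ i ∈ l, i ∈ H) :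
    cost leaf A r + 2 * l.length + 2 * ((∑ i ∈ H, load A i r : ℕ) : ℝ) ≤
      cost leaf A (l.map leaf ++ r) + 2 * ((∑ i ∈ H, load A i (l.map leaf ++ r) : ℕ) : ℝ) := by
  induction l with
  | nil => simp
  | cons x l ih =>
    have h1 := ih fun i hi => hl i (List.mem_cons_of_mem _ hi)
    have hx := hl x List.mem_cons_self
    simp only [List.map_cons, List.cons_append, cost, load, List.length_cons, dist_leaf,
      sum_add_distrib, sum_ite_eq]
    push_cast at h1 ⊢
    by_cases h : A (List.map leaf l ++ r) (leaf x) = x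
    · rw [h]; simp only [hx, if_true]; linarith
    · rw [if_neg h]; split_ifs <;> linarith

theorem exists_half (R : Finset (Fin m)) (x : Fin m → ℕ) :
    ∃ R' ⊆ R, R'.card = R.card / 2 ∧ 2 * ∑ i ∈ R', x i ≤ ∑ i ∈ R, x i := by
  obtain ⟨S, hS, hc⟩ := exists_subset_card_eq (s := R) (n := R.card / 2) (by omega)
  obtain ⟨T, hT, hc'⟩ := exists_subset_card_eq (s := R \ S) (n := R.card / 2)
    (by rw [card_sdiff_of_subset hS]; omega)
  have h1 := sum_sdiff hS (f := x)
  have h2 := sum_le_sum_of_subset hT (f := x)
  rcases le_total (∑ i ∈ S, x i) (∑ i ∈ T, x i) with h | h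
  · exact ⟨S, hS, hc, by omega⟩
  · exact ⟨T, hT.trans sdiff_subset, hc', by omega⟩

theorem exists_list (H : Finset (Fin m)) (a : Fin m → ℕ) :
    ∃ l : List (Fin m), (∀ i, l.count i = if i ∈ H then a i else 0) ∧ l.length = ∑ i ∈ H, a i := by
  induction H using Finset.induction_on with
  | empty => exact ⟨[], by simp⟩
  | insert j H hj ih =>
    obtain ⟨l, h1, h2⟩ := ih
    refine ⟨List.replicate (a j) j ++ l, fun i => ?_, by simp [h2, sum_insert hj]⟩
    rw [List.count_append, List.count_replicate, h1]
    by_cases h : i = j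
    · subst h; simp [hj]
    · simp [h, Ne.symm h]

theorem phases (a c : Fin m → ℕ) (t α k : ℕ) (hc : ∀ i, c i ≤ a i + t) (hα : ∀ i, α ≤ a i)
    (hk : 4 * t * m ≤ α * (m / 2 ^ k)) (A : List (Star m) → Star m → Fin m)
    (hA : ∀ r : List (Star m), r.length ≤ ∑ i, a i → ∀ i, load A i r ≤ c i) :
    ∀ j ≤ k, ∃ (R : Finset (Fin m)) (l : List (Fin m)), R.card = m / 2 ^ j ∧
      (∀ i, l.count i = if i ∈ R then 0 else a i) ∧ l.length = ∑ i ∈ Rᶜ, a i ∧
      ((4 * t * m + j * (t * m) : ℕ) : ℝ) ≤
        cost leaf A (l.map leaf ++ List.replicate (4 * t * m) centre) := by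
  have hroom : ∀ j ≤ k, ∀ R : Finset (Fin m), R.card = m / 2 ^ j → 4 * t * m ≤ ∑ i ∈ R, a i := by
    intro j hj R hR
    calc _ ≤ α * (m / 2 ^ j) := hk.trans (Nat.mul_le_mul_left _
            (Nat.div_le_div_left (Nat.pow_le_pow_right (by norm_num) hj) (by positivity)))
      _ = ∑ i ∈ R, α := by rw [sum_const, hR, smul_eq_mul, mul_comm]
      _ ≤ _ := sum_le_sum fun i _ => hα i
  intro j
  induction j with
  | zero => intro _; exact ⟨univ, [], by simp, by simp, by simp, by simp [cost_centre]⟩
  | succ j ih =>
    intro hj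
    obtain ⟨R, l, h1, h2, h3, h4⟩ := ih (by omega)
    set r := l.map leaf ++ List.replicate (4 * t * m) centre with hr
    have hlen : r.length = ∑ i ∈ Rᶜ, a i + 4 * t * m := by simp [hr, h3]
    have hsplit : ∀ (S : Finset (Fin m)) (x : Fin m → ℕ), ∑ i ∈ S, x i + ∑ i ∈ Sᶜ, x i = ∑ i, x i :=
      fun S x => sum_add_sum_compl S x
    have hcap : ∀ (S : Finset (Fin m)) (r : List (Star m)), r.length ≤ ∑ i, a i →
        ∑ i ∈ S, load A i r ≤ ∑ i ∈ S, a i + t * m := by
      intro S r h
      calc _ ≤ ∑ i ∈ S, (a i + t) := sum_le_sum fun i _ => (hA r h i).trans (hc i)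
        _ = ∑ i ∈ S, a i + t * S.card := by rw [sum_add_distrib, sum_const, smul_eq_mul, mul_comm]
        _ ≤ _ := by
          have : S.card ≤ m := (card_le_univ S).trans (by simp)
          gcongr
    have hle : r.length ≤ ∑ i, a i := by
      have := hroom j (by omega) R h1
      have := hsplit R a
      omega
    have hload : 3 * (t * m) ≤ ∑ i ∈ R, load A i r := by
      have g1 := hcap Rᶜ r hle
      have g2 := hsplit R fun i => load A i r
      rw [sum_load] at g2
      have : 4 * t * m = 4 * (t * m) := by ring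
      omega
    obtain ⟨R', g1, g2, g3⟩ := exists_half R fun i => load A i r
    obtain ⟨l', g4, g5⟩ := exists_list (R \ R') a
    have hc' : R'.card = m / 2 ^ (j + 1) := by rw [g2, h1, Nat.div_div_eq_div_mul, pow_succ]
    have hsum : ∑ i ∈ R'ᶜ, a i = ∑ i ∈ R \ R', a i + ∑ i ∈ Rᶜ, a i := by
      have e1 := hsplit R a
      have e2 := hsplit R' a
      have e3 := sum_sdiff g1 (f := a)
      omega
    refine ⟨R', l' ++ l, hc', fun i => ?_, by simp [g5, h3, hsum], ?_⟩
    · rw [List.count_append, g4, h2]
      by_cases e1 : i ∈ R' <;> by_cases e2 : i ∈ R <;> simp [e1, e2]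
      exact absurd (g1 e1) e2
    · rw [List.map_append, List.append_assoc, ← hr]
      have e1 := cost_phase A (R \ R') r l' fun i hi => by
        have := List.count_pos_iff.mpr hi
        rw [g4] at this
        by_contra h
        simp [h] at this
      have e2 := hcap (R \ R') (l'.map leaf ++ r) (by
        have := hroom (j + 1) hj R' hc'
        have := hsplit R' a
        simp only [List.length_append, List.length_map]
        omega)
      have e3 := sum_sdiff g1 (f := fun i => load A i r)
      have e4 : 2 * ∑ i ∈ R \ R', load A i (l'.map leaf ++ r) + t * m ≤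
          2 * l'.length + 2 * ∑ i ∈ R \ R', load A i r := by omega
      have e5 : 2 * ((∑ i ∈ R \ R', load A i (l'.map leaf ++ r) : ℕ) : ℝ) + ((t * m : ℕ) : ℝ) ≤
          2 * l'.length + 2 * ((∑ i ∈ R \ R', load A i r : ℕ) : ℝ) := by exact_mod_cast e4
      have e6 : ((4 * t * m + (j + 1) * (t * m) : ℕ) : ℝ) =
          ((4 * t * m + j * (t * m) : ℕ) : ℝ) + ((t * m : ℕ) : ℝ) := by push_cast; ring
      linarith

theorem zip_leaf (l : List (Fin m)) :
    (List.zipWith (fun i x => dist (leaf i) x) l (l.map leaf)).sum = 0 := by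
  induction l with
  | nil => simp
  | cons x l ih => simp [ih]

theorem zip_centre (l : List (Fin m)) :
    (List.zipWith (fun i x => dist (leaf i) x) l (List.replicate l.length centre)).sum =
      l.length := by
  induction l with
  | nil => simp
  | cons x l ih => simp [List.replicate_succ, ih, dist_centre]; ring

theorem main (a c : Fin m → ℕ) (t α k : ℕ) (hm : 0 < m) (ht : 0 < t) (hc : ∀ i, c i ≤ a i + t)
    (hα : ∀ i, α ≤ a i) (hk : 4 * t * m ≤ α * (m / 2 ^ k)) :
    ENNReal.ofReal (1 + k / 4) ≤ Rstar a c := by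
  refine le_iInf₂ fun A hA => ?_
  obtain ⟨R, l, h1, h2, h3, h4⟩ := phases a c t α k hc hα hk (A (Star m) leaf)
    (hA (Star m) leaf) k le_rfl
  have hroom : 4 * t * m ≤ ∑ i ∈ R, a i := by
    calc _ ≤ α * (m / 2 ^ k) := hk
      _ = ∑ i ∈ R, α := by rw [sum_const, h1, smul_eq_mul, mul_comm]
      _ ≤ _ := sum_le_sum fun i _ => hα i
  set r := l.map leaf ++ List.replicate (4 * t * m) centre with hr
  have hle : r.length ≤ ∑ i, a i := by
    have := sum_add_sum_compl R a
    simp only [hr, List.length_append, List.length_map, List.length_replicate]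
    omega
  refine le_iSup₂_of_le (Star m) inferInstance (le_iSup_of_le leaf (le_iSup₂_of_le r hle ?_))
  obtain ⟨l', g4, g5⟩ := exists_list R a
  have hD : (l'.take (4 * t * m)).length = 4 * t * m := by rw [List.length_take]; omega
  have hopt : opt leaf a r ≤ ((4 * t * m : ℕ) : ℝ) := by
    refine csInf_le ⟨0, ?_⟩ ⟨l ++ l'.take (4 * t * m), by simp [hr]; omega, fun i => ?_, ?_⟩
    · rintro _ ⟨φ, -, -, rfl⟩
      refine List.sum_nonneg fun w hw => ?_
      obtain ⟨j, hj, rfl⟩ := List.mem_iff_getElem.mp hw
      simp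
    · have := (List.take_sublist (4 * t * m) l').count_le i
      rw [List.count_append, h2]
      rw [g4] at this
      split_ifs at this ⊢ <;> omega
    · rw [hr, List.zipWith_append (by simp), List.sum_append, zip_leaf, zero_add]
      have := zip_centre (l'.take (4 * t * m))
      rw [hD] at this
      exact this.symm
  have hpos : (0 : ℝ) < ((4 * t * m : ℕ) : ℝ) := by positivity
  calc ENNReal.ofReal (1 + k / 4)
      = ENNReal.ofReal ((4 * t * m + k * (t * m) : ℕ) : ℝ) / ENNReal.ofReal ((4 * t * m : ℕ) : ℝ) := by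
        rw [← ENNReal.ofReal_div_of_pos hpos]
        congr 1
        have : (t : ℝ) ≠ 0 := by positivity
        have : (m : ℝ) ≠ 0 := by positivity
        push_cast
        field_simp
    _ ≤ _ := ENNReal.div_le_div (ENNReal.ofReal_le_ofReal h4) (ENNReal.ofReal_le_ofReal hopt)

end Pool.Agent.H41.Transp
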