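import Mathlib

set_option autoImplicit false

namespace Pool.Agent.H41.Transp

open scoped ENNReal

variable {m : ℕ} {N : Type} [MetricSpace N]

/- A deterministic online algorithm is a function `A h x`: the site chosen for the request x when
the earlier requests are h. Request sequences are listed from the most recent one to the first. -/

/-- the number of requests that A assigns to site i -/
def load (A : List N → N → Fin m) (i : Fin m) : List N → ℕ
  | [] => 0
  | x :: h => load A i h + if A h x = i then 1 else 0

/-- the total cost of A -/
noncomputable def cost (s : Fin m → N) (A : List N → N → Fin m) : List N → ℝ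
  | [] => 0
  | x :: h => cost s A h + dist (s (A h x)) x

/-- the least cost of an offline assignment using at most a i servers at site i -/
noncomputable def opt (s : Fin m → N) (a : Fin m → ℕ) (r : List N) : ℝ :=
  sInf {w | ∃ φ : List (Fin m), φ.length = r.length ∧ (∀ i, φ.count i ≤ a i) ∧
    w = (List.zipWith (fun i x => dist (s i) x) φ r).sum}

/-- the optimal weak competitive ratio R*(a, c) -/
noncomputable def Rstar (a c : Fin m → ℕ) : ℝ≥0∞ :=
  ⨅ (A : ∀ (N : Type) [MetricSpace N], (Fin m → N) → List N → N → Fin m)
    (_ : ∀ (N : Type) [MetricSpace N] (s : Fin m → N) (r : List N), r.length ≤ ∑ i, a i →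
      ∀ i, load (A N s) i r ≤ c i),
    ⨆ (N : Type) (_ : MetricSpace N) (s : Fin m → N) (r : List N) (_ : r.length ≤ ∑ i, a i),
      ENNReal.ofReal (cost s (A N s) r) / ENNReal.ofReal (opt s a r)

end Pool.Agent.H41.Transp
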