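import Mathlib

set_option autoImplicit false

namespace Pool.Agent.H41.Wc
open Set Topology Filter Function

def WC {X Y : Type} [TopologicalSpace X] [TopologicalSpace Y] (f : X → Y) : Prop :=
  ∀ K : Set Y, IsCompact K → IsConnected K →
    ∃ C : Set X, IsCompact C ∧ IsConnected C ∧ f '' C = K

section basic
variable {X Y T : Type} [TopologicalSpace X] [TopologicalSpace Y] [TopologicalSpace T]

lemma WC.of_monotone [CompactSpace X] [T2Space Y] {f : X → Y} (hf : Continuous f)
    (hs : Surjective f) (h : ∀ x, IsPreconnected (f ⁻¹' {f x})) : WC f := by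
  intro K hK hc
  have h' : ∀ y, IsConnected (f ⁻¹' {y}) := by
    intro y
    obtain ⟨x, rfl⟩ := hs y
    exact ⟨⟨x, rfl⟩, h x⟩
  exact ⟨f ⁻¹' K, (hK.isClosed.preimage hf).isCompact,
    (hf.isClosedMap.isQuotientMap hf hs).isCoinducing.isConnected_preimage_of_isClosed h'
      hK.isClosed hc, image_preimage_eq K hs⟩

lemma WC.of_comp {f : X → Y} {j : T → X} (hj : Continuous j) (h : WC (f ∘ j)) : WC f := by
  intro K hK hc
  obtain ⟨C, h1, h2, h3⟩ := h K hK hc
  exact ⟨j '' C, h1.image hj, h2.image _ hj.continuousOn, by rw [← image_comp, h3]⟩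

lemma WC.comp {f : X → Y} {j : T → X} (hf : WC f) (hj : WC j) : WC (f ∘ j) := by
  intro K hK hc
  obtain ⟨C, h1, h2, h3⟩ := hf K hK hc
  obtain ⟨D, k1, k2, k3⟩ := hj C h1 h2
  exact ⟨D, k1, k2, by rw [image_comp, k3, h3]⟩

lemma WC.surj {f : X → Y} (hf : WC f) : Surjective f := by
  intro y
  obtain ⟨C, -, -, h⟩ := hf {y} isCompact_singleton isConnected_singleton
  have : y ∈ f '' C := by rw [h]; rfl
  obtain ⟨x, -, hx⟩ := this
  exact ⟨x, hx⟩

lemma nested_conn [CompactSpace X] [T2Space X] (S : ℕ → Set X) (ha : Antitone S)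
    (hc : ∀ j, IsClosed (S j)) (hn : ∀ j, IsConnected (S j)) : IsConnected (⋂ j, S j) := by
  refine ⟨IsCompact.nonempty_iInter_of_sequence_nonempty_isCompact_isClosed S
    (fun i => ha (Nat.le_succ i)) (fun i => (hn i).1) (hc 0).isCompact hc, ?_⟩
  rw [isPreconnected_iff_subset_of_fully_disjoint_closed (isClosed_iInter hc)]
  intro u v hu hv huv hd
  obtain ⟨U, W, hU, hW, uU, vW, hUW⟩ := normal_separation hu hv hd
  obtain ⟨j, hj⟩ := exists_subset_nhds_of_isCompact' (V := S) ha.directed_ge
    (fun i => (hc i).isCompact) hc (U := U ∪ W)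
    (fun x hx => (hU.union hW).mem_nhds (union_subset_union uU vW (huv hx)))
  rcases (hn j).isPreconnected.subset_or_subset hU hW hUW hj with h | h
  · left
    intro x hx
    rcases huv hx with h1 | h1
    · exact h1
    · exact (Set.disjoint_left.1 hUW (h (mem_iInter.1 hx j)) (vW h1)).elim
  · right
    intro x hx
    rcases huv hx with h1 | h1
    · exact (Set.disjoint_left.1 hUW (uU h1) (h (mem_iInter.1 hx j))).elim
    · exact h1

end basic

section lim
variable {Z : Type} [TopologicalSpace Z] [CompactSpace Z] [T2Space Z] {φ : Z → Z}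

lemma iter_eq {x : ℕ → Z} {j : ℕ} (h : ∀ i < j, x i = φ (x (i + 1))) (d i : ℕ) (hi : i + d ≤ j) :
    φ^[d] (x (i + d)) = x i := by
  induction d generalizing i with
  | zero => rfl
  | succ d ih =>
    rw [iterate_succ_apply', h i (by omega), ← ih (i + 1) (by omega)]
    congr 3; omega

lemma lim_conn (hφ : Continuous φ) (K : ℕ → Set Z) (hK : ∀ j, IsCompact (K j))
    (hc : ∀ j, IsConnected (K j)) (hm : ∀ j, MapsTo φ (K (j + 1)) (K j)) :
    IsConnected {x : ℕ → Z | (∀ i, x i ∈ K i) ∧ ∀ i, x i = φ (x (i + 1))} := by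
  let S : ℕ → Set (ℕ → Z) := fun j => {x | (∀ i, x i ∈ K i) ∧ ∀ i < j, x i = φ (x (i + 1))}
  have e : {x : ℕ → Z | (∀ i, x i ∈ K i) ∧ ∀ i, x i = φ (x (i + 1))} = ⋂ j, S j := by
    ext x
    simp only [S, mem_iInter, Set.mem_ofPred_eq]
    exact ⟨fun h j => ⟨h.1, fun i _ => h.2 i⟩,
      fun h => ⟨(h 0).1, fun i => (h (i + 1)).2 i (Nat.lt_succ_self i)⟩⟩
  rw [e]
  refine nested_conn S (fun i j hij x hx => ⟨hx.1, fun k hk => hx.2 k (hk.trans_le hij)⟩)
    (fun j => ?_) fun j => ?_
  · have : S j = (⋂ i, (fun x : ℕ → Z => x i) ⁻¹' K i) ∩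
        ⋂ i, ⋂ _ : i < j, {x : ℕ → Z | x i = φ (x (i + 1))} := by
      ext x; simp [S]
    rw [this]
    exact (isClosed_iInter fun i => (hK i).isClosed.preimage (continuous_apply i)).inter
      (isClosed_iInter fun i => isClosed_iInter fun _ =>
        isClosed_eq (continuous_apply i) (hφ.comp (continuous_apply _)))
  · have mem : ∀ d i z, z ∈ K (i + d) → φ^[d] z ∈ K i := by
      intro d
      induction d with
      | zero => intro i z hz; exact hz
      | succ d ih =>
        intro i z hz
        rw [iterate_succ_apply']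
        exact hm i (ih (i + 1) z (by rwa [show i + 1 + d = i + (d + 1) by omega]))
    let m : (ℕ → Z) → ℕ → Z := fun x i => if i ≤ j then φ^[j - i] (x j) else x i
    have mc : Continuous m := continuous_pi fun i => by
      by_cases h : i ≤ j
      · simp only [m, if_pos h]; exact (hφ.iterate _).comp (continuous_apply j)
      · simp only [m, if_neg h]; exact continuous_apply i
    have : S j = m '' (Set.pi univ K) := by
      refine Subset.antisymm (fun x hx => ⟨x, fun i _ => hx.1 i, funext fun i => ?_⟩) ?_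
      · by_cases h : i ≤ j
        · simp only [m, if_pos h]
          have := iter_eq hx.2 (j - i) i (by omega)
          rwa [show i + (j - i) = j by omega] at this
        · simp only [m, if_neg h]
      · rintro _ ⟨x, hx, rfl⟩
        refine ⟨fun i => ?_, fun i hi => ?_⟩
        · by_cases h : i ≤ j
          · simp only [m, if_pos h]
            exact mem _ _ _ (by rw [show i + (j - i) = j by omega]; exact hx j trivial)
          · simp only [m, if_neg h]; exact hx i trivial
        · simp only [m, if_pos hi.le, if_pos (Nat.succ_le_of_lt hi)]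
          rw [← iterate_succ_apply' φ]
          congr 1; omega
    rw [this]
    exact (isConnected_univ_pi.2 hc).image _ mc.continuousOn

theorem lim_main [SecondCountableTopology Z] [ConnectedSpace Z] {Y : Type} [TopologicalSpace Y]
    (g : Z → Z) (α : Z → Y) (hφ : Continuous φ) (hg : Continuous g) (hα : Continuous α)
    (wφ : WC φ) (wα : WC α) (comm : ∀ z, φ (g z) = g (φ z)) (nofix : ∀ z, g z ≠ z)
    (fac : ∀ z z', α z = α z' → φ z = φ z') :
    ∃ (M : Type) (_ : MetricSpace M) (_ : CompactSpace M) (_ : ConnectedSpace M),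
      (∀ ε : ℝ, 0 < ε → ∃ f : M → Y, Continuous f ∧ Surjective f ∧
        (∀ y, Metric.diam (f ⁻¹' {y}) < ε) ∧ WC f) ∧
      ∃ G : M → M, Continuous G ∧ ∀ x, G x ≠ x := by
  let L : Set (ℕ → Z) := {x | ∀ i, x i = φ (x (i + 1))}
  have Lc : IsClosed L := by
    have : L = ⋂ i, {x : ℕ → Z | x i = φ (x (i + 1))} := by ext x; simp [L]
    rw [this]
    exact isClosed_iInter fun i =>
      isClosed_eq (continuous_apply i) (hφ.comp (continuous_apply _))
  have hC : CompactSpace L := isCompact_iff_compactSpace.1 Lc.isCompact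
  have hN : ConnectedSpace L := by
    have := lim_conn hφ (fun _ => univ) (fun _ => isCompact_univ) (fun _ => isConnected_univ)
      (fun _ => mapsTo_univ _ _)
    simp only [mem_univ, implies_true, true_and] at this
    exact isConnected_iff_connectedSpace.1 this
  have pc : ∀ k, Continuous fun x : L => x.1 k := fun k =>
    (continuous_apply k).comp continuous_subtype_val
  have w0 : WC fun x : L => x.1 0 := by
    intro K0 h1 h2
    choose nx n1 n2 n3 using wφ
    let K : ℕ → {K : Set Z // IsCompact K ∧ IsConnected K} := fun j =>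
      Nat.rec ⟨K0, h1, h2⟩ (fun _ A => ⟨nx A.1 A.2.1 A.2.2, n1 _ _ _, n2 _ _ _⟩) j
    have hK : ∀ j, φ '' (K (j + 1)).1 = (K j).1 := fun j => n3 _ _ _
    have hc := lim_conn hφ (fun j => (K j).1) (fun j => (K j).2.1) (fun j => (K j).2.2)
      (fun j z hz => by rw [← hK j]; exact mem_image_of_mem _ hz)
    refine ⟨{x : L | ∀ i, x.1 i ∈ (K i).1}, ?_, ?_, ?_⟩
    · have : {x : L | ∀ i, x.1 i ∈ (K i).1} = ⋂ i, (fun x : L => x.1 i) ⁻¹' (K i).1 := by
        ext x; simp
      rw [this]
      exact (isClosed_iInter fun i => (K i).2.1.isClosed.preimage (pc i)).isCompact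
    · have e : Subtype.val '' {x : L | ∀ i, x.1 i ∈ (K i).1} =
          {x : ℕ → Z | (∀ i, x i ∈ (K i).1) ∧ ∀ i, x i = φ (x (i + 1))} := by
        ext x
        exact ⟨by rintro ⟨y, hy, rfl⟩; exact ⟨hy, y.2⟩, fun h => ⟨⟨x, h.2⟩, h.1, rfl⟩⟩
      rw [← e] at hc
      exact ⟨hc.1.of_image, IsInducing.subtypeVal.isPreconnected_image.1 hc.2⟩
    · refine Subset.antisymm (by rintro _ ⟨x, hx, rfl⟩; exact hx 0) fun y hy => ?_
      have : ∀ j, ∀ z : (K j).1, ∃ z' : (K (j + 1)).1, φ z' = z := by
        intro j z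
        have hz : z.1 ∈ φ '' (K (j + 1)).1 := by rw [hK]; exact z.2
        obtain ⟨z', h1, h2⟩ := hz
        exact ⟨⟨z', h1⟩, h2⟩
      choose s hs using this
      let x : ∀ j, (K j).1 := fun j => Nat.rec (motive := fun j => (K j).1) ⟨y, hy⟩ s j
      exact ⟨⟨fun j => (x j).1, fun j => (hs j (x j)).symm⟩, fun j => (x j).2, rfl⟩
  have wk : ∀ k, WC fun x : L => x.1 k := by
    intro k
    let sh : L → L := fun x => ⟨fun j => φ^[k] (x.1 j), fun j => by
      change φ^[k] (x.1 j) = φ (φ^[k] (x.1 (j + 1)))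
      rw [x.2 j, ← iterate_succ_apply, iterate_succ_apply']⟩
    have shc : Continuous sh :=
      (continuous_pi fun j => (hφ.iterate k).comp (pc j)).subtype_mk _
    refine WC.of_comp shc ?_
    have : (fun x : L => x.1 k) ∘ sh = fun x : L => x.1 0 := by
      funext x
      have := iter_eq (j := k) (fun i _ => x.2 i) k 0 (by omega)
      rwa [zero_add] at this
    rw [this]; exact w0
  letI hM : MetricSpace L := TopologicalSpace.metrizableSpaceMetric L
  refine ⟨L, hM, hC, hN, fun ε hε => ?_, fun x => ⟨fun j => g (x.1 j), fun j => by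
    rw [comm, ← x.2 j]⟩, (continuous_pi fun j => hg.comp (pc j)).subtype_mk _, fun x h => ?_⟩
  · obtain ⟨k, hk⟩ := exists_subset_nhds_of_isCompact' (ι := ℕ)
      (V := fun k => {p : L × L | p.1.1 k = p.2.1 k})
      (Antitone.directed_ge (antitone_nat_of_succ_le fun k p hp => by
        change p.1.1 k = p.2.1 k
        rw [p.1.2 k, p.2.2 k, show p.1.1 (k + 1) = p.2.1 (k + 1) from hp]))
      (fun k => (isClosed_eq ((pc k).comp continuous_fst) ((pc k).comp continuous_snd)).isCompact)
      (fun k => isClosed_eq ((pc k).comp continuous_fst) ((pc k).comp continuous_snd))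
      (U := {p : L × L | dist p.1 p.2 < ε / 2}) (by
        intro p hp
        have : p.1 = p.2 := Subtype.ext (funext fun k => mem_iInter.1 hp k)
        refine (isOpen_lt continuous_dist continuous_const).mem_nhds ?_
        change dist p.1 p.2 < ε / 2
        rw [this, dist_self]; positivity)
    have w := wα.comp (wk (k + 1))
    refine ⟨_, hα.comp (pc (k + 1)), w.surj, fun y => ?_, w⟩
    refine lt_of_le_of_lt (Metric.diam_le_of_forall_dist_le (C := ε / 2) (by positivity)
      fun a ha b hb => le_of_lt (hk (a := (a, b)) ?_)) (by linarith)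
    change a.1 k = b.1 k
    rw [a.2 k, b.2 k]
    exact fac _ _ ((mem_singleton_iff.1 ha).trans (mem_singleton_iff.1 hb).symm)
  · exact nofix _ (congrFun (congrArg Subtype.val h) 0)

end lim

end Pool.Agent.H41.Wc
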