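import Pool.Agent.H41.Att5
import Pool.Agent.H41.Wc1

set_option autoImplicit false

namespace Pool.Agent.H41.Wc
open Set Topology Filter Function Metric Complex Pool.Agent.H41.Att

noncomputable def ev (A : ℝ) (B : ℝ × ℂ) : V := ((A : ℂ) + (B.1 : ℂ) * I, B.2)

noncomputable def aa (y : V) : ℝ × ℂ := (y.1.im, y.2)

lemma ev_smul (c A : ℝ) (B : ℝ × ℂ) : c • ev A B = ev (c * A) (c • B) := by
  refine Prod.ext ?_ rfl
  simp [ev]; ring

lemma aa_ev (A : ℝ) (B : ℝ × ℂ) : aa (ev A B) = B := by simp [aa, ev]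

lemma re_ev (A : ℝ) (B : ℝ × ℂ) : (ev A B).1.re = A := by simp [ev]

lemma ev_eta (y : V) : ev y.1.re (aa y) = y := by simp [aa, ev]

lemma ev_inj {A A' : ℝ} {B B' : ℝ × ℂ} (h : ev A B = ev A' B') : A = A' ∧ B = B' :=
  ⟨by rw [← re_ev A B, h, re_ev], by rw [← aa_ev A B, h, aa_ev]⟩

lemma aa_cont : Continuous aa := by unfold aa; fun_prop

noncomputable def bv (u : ℝ × ℂ) : V := ev (1 - 2 * ‖u‖) ((1 - ‖u‖) • u)

lemma bv_ne (u : ℝ × ℂ) : bv u ≠ 0 := by
  intro h
  have h0 : (0 : V) = ev 0 0 := Prod.ext (by simp [ev]) rfl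
  rw [bv, h0] at h
  obtain ⟨h1, h2⟩ := ev_inj h
  rcases smul_eq_zero.1 h2 with h3 | h3
  · linarith
  · rw [h3] at h1; simp at h1

lemma bv_cont : Continuous bv := by unfold bv ev; fun_prop

noncomputable def nz (v : V) (h : v ≠ 0) : P := ⟨‖v‖⁻¹ • v, by simp [norm_smul, h]⟩

noncomputable def bb (u : ℝ × ℂ) : P := nz (bv u) (bv_ne u)

lemma bb_cont : Continuous bb :=
  ((bv_cont.norm.inv₀ fun u => norm_ne_zero_iff.2 (bv_ne u)).smul bv_cont).subtype_mk _

lemma bb_of_smul {u : ℝ × ℂ} {y : P} {c : ℝ} (hc : 0 < c) (h : bv u = c • (y : V)) : bb u = y := by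
  apply Subtype.ext
  change ‖bv u‖⁻¹ • bv u = y
  rw [h, norm_smul, P_norm, Real.norm_of_nonneg hc.le, mul_one, smul_smul,
    inv_mul_cancel₀ hc.ne', one_smul]

lemma bb_zero : bb 0 = y0 := bb_of_smul one_pos (by simp [bv, ev, y0])

lemma bb_bd {u u' : ℝ × ℂ} (h : ‖u‖ = 1) (h' : ‖u'‖ = 1) : bb u = bb u' := by
  have : bv u = bv u' := by simp [bv, h, h']
  simp only [bb, this]

lemma bb_fib {u u' : ℝ × ℂ} (h : ‖u‖ ≤ 1) (h' : ‖u'‖ ≤ 1) (e : bb u = bb u') :
    u = u' ∨ (‖u‖ = 1 ∧ ‖u'‖ = 1) := by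
  have e1 : ‖bv u‖⁻¹ • bv u = ‖bv u'‖⁻¹ • bv u' := congrArg Subtype.val e
  have p1 : 0 < ‖bv u‖⁻¹ := inv_pos.2 (norm_pos_iff.2 (bv_ne u))
  have p2 : 0 < ‖bv u'‖⁻¹ := inv_pos.2 (norm_pos_iff.2 (bv_ne u'))
  generalize ‖bv u‖⁻¹ = c at e1 p1
  generalize ‖bv u'‖⁻¹ = c' at e1 p2
  rw [bv, bv, ev_smul, ev_smul] at e1
  obtain ⟨a1, a2⟩ := ev_inj e1
  rw [smul_smul, smul_smul] at a2
  have a3 := congrArg norm a2
  rw [norm_smul, norm_smul, Real.norm_of_nonneg (mul_nonneg p1.le (by linarith)),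
    Real.norm_of_nonneg (mul_nonneg p2.le (by linarith))] at a3
  have r0 := norm_nonneg u
  have r0' := norm_nonneg u'
  set r := ‖u‖
  set r' := ‖u'‖
  have k : c * c' * ((r' - r) * ((1 - r) * (1 - r') + r * r')) = 0 := by
    linear_combination (c' * ((1 - r') * r')) * a1 - (c' * (1 - 2 * r')) * a3
  have hr : r = r' := by
    rcases mul_eq_zero.1 ((mul_eq_zero.1 k).resolve_left (by positivity)) with k1 | k1
    · linarith
    · have m1 : 0 ≤ (1 - r) * (1 - r') := mul_nonneg (by linarith) (by linarith)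
      have m2 : 0 ≤ r * r' := mul_nonneg r0 r0'
      have m3 : (1 - r) * (1 - r') = 0 := by linarith
      have m4 : r * r' = 0 := by linarith
      rcases mul_eq_zero.1 m3 with m5 | m5
      · have : r = 1 := by linarith
        have : r' = 0 := by rw [this] at m4; linarith
        nlinarith
      · have : r' = 1 := by linarith
        have : r = 0 := by rw [this] at m4; linarith
        nlinarith
  by_cases h1 : r = 1
  · exact Or.inr ⟨h1, hr ▸ h1⟩
  · left
    rw [← hr] at a1 a2 a3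
    have hc : c = c' := by
      by_cases h2 : r = 1 / 2
      · rw [h2] at a3; linarith
      · exact mul_right_cancel₀ (fun h3 : 1 - 2 * r = 0 => h2 (by linarith)) a1
    rw [← hc] at a2
    exact smul_right_injective _ (mul_ne_zero p1.ne' fun h3 => h1 (by linarith)) a2

lemma bb_surj (y : P) : ∃ u : ℝ × ℂ, ‖u‖ ≤ 1 ∧ bb u = y := by
  have e := ev_eta (y : V)
  set A := (y : V).1.re
  set B := aa (y : V)
  by_cases hB : B = 0
  · have hA : A ≠ 0 := by
      intro h
      apply P_ne y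
      rw [← e, h, hB]; simp [ev]
    rcases lt_or_gt_of_ne hA with h | h
    · refine ⟨(1, 0), by simp [Prod.norm_def], bb_of_smul (c := -A⁻¹) (by simpa using h) ?_⟩
      have : ‖((1, 0) : ℝ × ℂ)‖ = 1 := by simp [Prod.norm_def]
      rw [← e, ev_smul, hB, bv, this]
      congr 1
      · field_simp; ring
      · simp
    · refine ⟨0, by simp, bb_of_smul (c := A⁻¹) (inv_pos.2 h) ?_⟩
      rw [← e, ev_smul, hB, bv]
      congr 1
      · simp [hA]
      · simp
  · have hp : 0 < ‖B‖ := norm_pos_iff.2 hB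
    have hc : Continuous fun r : ℝ => (1 - 2 * r) * ‖B‖ - A * (r * (1 - r)) := by fun_prop
    obtain ⟨r, ⟨r0, r1⟩, hr⟩ := intermediate_value_Ioo' zero_le_one hc.continuousOn
      (show (0 : ℝ) ∈ Ioo _ _ from ⟨by simp; linarith, by simpa using hp⟩)
    have hn : ‖(r / ‖B‖) • B‖ = r := by
      rw [norm_smul, Real.norm_of_nonneg (by positivity)]; field_simp
    have r2 : 0 < 1 - r := by linarith
    refine ⟨(r / ‖B‖) • B, by rw [hn]; exact r1.le,
      bb_of_smul (c := r * (1 - r) / ‖B‖) (by positivity) ?_⟩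
    rw [← e, ev_smul, bv, hn, smul_smul]
    congr 1
    · simp only at hr
      field_simp; linarith
    · congr 1; ring

abbrev D3 := closedBall (0 : ℝ × ℂ) 1
abbrev D2 := closedBall (0 : ℂ) 1
abbrev ZZ := P × D2

lemma D3_norm (u : D3) : ‖(u : ℝ × ℂ)‖ ≤ 1 := mem_closedBall_zero_iff.1 u.2
lemma D2_norm (u : D2) : ‖(u : ℂ)‖ ≤ 1 := mem_closedBall_zero_iff.1 u.2

instance : ConnectedSpace P := isConnected_iff_connectedSpace.1
  (isConnected_sphere (by rw [← Module.finrank_eq_rank]; simp) _ zero_le_one)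

instance : ConnectedSpace D2 := isConnected_iff_connectedSpace.1
  ((convex_closedBall _ _).isConnected ⟨0, by simp⟩)

lemma wc_bb : WC (fun x : D3 × D2 => ((bb x.1, x.2) : ZZ)) := by
  refine WC.of_monotone (((bb_cont.comp continuous_subtype_val).comp continuous_fst).prodMk
    continuous_snd) (fun z => ?_) fun x => ?_
  · obtain ⟨u, h1, h2⟩ := bb_surj z.1
    exact ⟨(⟨u, by simpa using h1⟩, z.2), Prod.ext h2 rfl⟩
  · by_cases h : ‖(x.1 : ℝ × ℂ)‖ = 1
    · have : (fun x : D3 × D2 => ((bb x.1, x.2) : ZZ)) ⁻¹' {(bb x.1, x.2)} =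
          {u : D3 | ‖(u : ℝ × ℂ)‖ = 1} ×ˢ {x.2} := by
        ext x'
        simp only [mem_preimage, mem_singleton_iff, Prod.mk.injEq, mem_prod, Set.mem_ofPred_eq]
        refine and_congr_left fun _ => ⟨fun e => ?_, fun e => bb_bd e h⟩
        rcases bb_fib (D3_norm _) (D3_norm _) e with e1 | e1
        · rw [e1]; exact h
        · exact e1.1
      rw [this]
      refine IsPreconnected.prod ?_ isPreconnected_singleton
      rw [← IsInducing.subtypeVal.isPreconnected_image]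
      have : Subtype.val '' {u : D3 | ‖(u : ℝ × ℂ)‖ = 1} = sphere (0 : ℝ × ℂ) 1 := by
        ext u
        exact ⟨by rintro ⟨v, hv, rfl⟩; simpa using hv,
          fun hu => ⟨⟨u, sphere_subset_closedBall hu⟩, by simpa using hu, rfl⟩⟩
      rw [this]
      exact isPreconnected_sphere (by rw [← Module.finrank_eq_rank]; simp) _ _
    · refine Set.Subsingleton.isPreconnected fun a ha b hb => ?_
      have k : ∀ a ∈ (fun x : D3 × D2 => ((bb x.1, x.2) : ZZ)) ⁻¹' {(bb x.1, x.2)}, a = x := by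
        intro a ha
        simp only [mem_preimage, mem_singleton_iff, Prod.mk.injEq] at ha
        rcases bb_fib (D3_norm _) (D3_norm _) ha.1 with e1 | e1
        · exact Prod.ext (Subtype.ext e1) ha.2
        · exact (h e1.2).elim
      rw [k a ha, k b hb]

noncomputable def ss (u : D3) : P := ⟨ev (Real.sqrt (1 - (u : ℝ × ℂ).1 ^ 2)) u, by
  have h := D3_norm u
  have h1 : |(u : ℝ × ℂ).1| ≤ 1 := (norm_fst_le (u : ℝ × ℂ)).trans h
  have h2 : ‖(u : ℝ × ℂ).2‖ ≤ 1 := (norm_snd_le (u : ℝ × ℂ)).trans h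
  have h3 : 0 ≤ 1 - (u : ℝ × ℂ).1 ^ 2 := by
    have := abs_le.1 h1; nlinarith [this.1, this.2]
  rw [mem_sphere_zero_iff_norm, ev, Prod.norm_def]
  simp only
  rw [norm_add_mul_I, Real.sq_sqrt h3]
  simp [h2]⟩

lemma ss_cont : Continuous ss := by
  refine Continuous.subtype_mk ?_ _
  unfold ev; fun_prop

end Pool.Agent.H41.Wc
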