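import Pool.Agent.H41.Wc2

set_option autoImplicit false

namespace Pool.Agent.H41.Wc
open Set Topology Filter Function Metric Complex Pool.Agent.H41.Att ComplexConjugate

abbrev WW := V × ℂ

noncomputable def om : ℂ := -conj ze

lemma om_norm : ‖om‖ = 1 := by simp [om, ze_norm]

lemma om_re : om.re = 1 / 2 := by simp [om, ze]; norm_num

lemma om_im : om.im = Real.sqrt 3 / 2 := by simp [om, ze]

lemma om_six : om ^ 6 = 1 := by
  have : om ^ 6 = (conj ze ^ 2) ^ 3 := by unfold om; ring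
  rw [this, ze_sq, ze_cube]

noncomputable def GW : WW →+ WW :=
  AddMonoidHom.mk' (fun x => (gV x.1, om * x.2)) (by
    intro a b
    refine Prod.ext (Prod.ext ?_ ?_) ?_ <;> simp [gV] <;> ring)

lemma GW_apply (x : WW) : GW x = (gV x.1, om * x.2) := rfl

lemma GW_cont : Continuous GW := by
  change Continuous fun x : WW => (gV x.1, om * x.2)
  unfold gV; fun_prop

lemma GW_six (x : WW) : GW (GW (GW (GW (GW (GW x))))) = x := by
  have h1 := ze_cube
  have h2 := om_six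
  refine Prod.ext (Prod.ext ?_ ?_) ?_
  · simp only [GW_apply, gV]; linear_combination (x.1.1 * (ze ^ 3 + 1)) * h1
  · simp [GW_apply, gV]
  · simp only [GW_apply]; linear_combination x.2 * h2

def emb (z : ZZ) : WW := (z.1, z.2)

lemma emb_inj : Injective emb := fun _ _ h =>
  Prod.ext (Subtype.ext (congrArg Prod.fst h)) (Subtype.ext (congrArg Prod.snd h))

noncomputable def GZ (z : ZZ) : ZZ :=
  (gP z.1, ⟨om * z.2, by
    rw [mem_closedBall_zero_iff, norm_mul, om_norm, one_mul]; exact D2_norm _⟩)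

lemma emb_GZ (z : ZZ) : emb (GZ z) = GW (emb z) := rfl

lemma GZ_cont : Continuous GZ := by
  refine Continuous.prodMk (Continuous.subtype_mk ?_ _) (Continuous.subtype_mk ?_ _)
  · unfold gV; fun_prop
  · fun_prop

lemma GZ_six (z : ZZ) : GZ (GZ (GZ (GZ (GZ (GZ z))))) = z :=
  emb_inj (by simp only [emb_GZ, GW_six])

lemma GZ_ne (z : ZZ) : GZ z ≠ z := fun h =>
  P_ne _ (gV_fix (congrArg (fun x : ZZ => (x.1 : V)) h))

noncomputable def base (z : ZZ) : WW := (HH z.1 0, 0)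

lemma base_GZ (z : ZZ) : base (GZ z) = GW (base z) := by
  simp only [base, GZ, GW_apply, HH_equiv, mul_zero]; rfl

noncomputable def lam (w : ℂ) : ℝ := cl (2 - 100 * ‖w - 19 / 20‖)

noncomputable def phi0 (z : ZZ) : WW :=
  ((HH z.1 (cl (50 * ((z.2 : ℂ).re - 9 / 10))) : V) + bb (lam z.2 • aa z.1) - y0,
    (lam z.2 * 100) • ((z.2 : ℂ) - 19 / 20))

lemma re_le_norm' (w : ℂ) : |w.re - 19 / 20| ≤ ‖w - 19 / 20‖ := by
  have := abs_re_le_norm (w - 19 / 20)
  simpa using this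

lemma phi0_far (z : ZZ) (h : lam z.2 = 0) :
    phi0 z = ((HH z.1 (cl (50 * ((z.2 : ℂ).re - 9 / 10))) : V), 0) := by
  simp [phi0, h, bb_zero]

lemma phi0_near (z : ZZ) (h : 23 / 25 ≤ (z.2 : ℂ).re) :
    phi0 z = ((bb (lam z.2 • aa z.1) : V), (lam z.2 * 100) • ((z.2 : ℂ) - 19 / 20)) := by
  rw [phi0, cl_one (by linarith), HH_one]; simp

lemma phi0_mem (z : ZZ) : ∃ z', emb z' = phi0 z := by
  by_cases h : 2 ≤ 100 * ‖(z.2 : ℂ) - 19 / 20‖
  · rw [phi0_far z (cl_zero (by linarith))]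
    exact ⟨(_, ⟨0, by simp⟩), rfl⟩
  · have h1 := (abs_le.1 (re_le_norm' z.2)).1
    rw [phi0_near z (by linarith)]
    refine ⟨(_, ⟨_, ?_⟩), rfl⟩
    have l0 := cl_nonneg (2 - 100 * ‖(z.2 : ℂ) - 19 / 20‖)
    have l1 := cl_le_one (2 - 100 * ‖(z.2 : ℂ) - 19 / 20‖)
    have l2 : cl (2 - 100 * ‖(z.2 : ℂ) - 19 / 20‖) ≤ 2 - 100 * ‖(z.2 : ℂ) - 19 / 20‖ :=
      max_le (by linarith) (min_le_right _ _)
    rw [mem_closedBall_zero_iff, norm_smul, lam, Real.norm_of_nonneg (by positivity)]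
    have n0 := norm_nonneg ((z.2 : ℂ) - 19 / 20)
    set d := ‖(z.2 : ℂ) - 19 / 20‖
    nlinarith [mul_le_mul_of_nonneg_right l2 n0, sq_nonneg (100 * d - 1)]

noncomputable def psi (z : ZZ) : WW := phi0 z - base z

lemma psi_zero (z : ZZ) (h : (z.2 : ℂ).re ≤ 9 / 10) : psi z = 0 := by
  have h1 := (abs_le.1 (re_le_norm' z.2)).1
  rw [psi, phi0_far z (cl_zero (by linarith)), cl_zero (by linarith), base, sub_self]

lemma base_cont : Continuous base :=
  (continuous_subtype_val.comp (HH_comp continuous_fst continuous_const)).prodMk continuous_const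

lemma phi0_cont : Continuous phi0 := by
  have h1 : Continuous fun z : ZZ => lam z.2 := by unfold lam; fun_prop
  have h2 : Continuous fun z : ZZ => (HH z.1 (cl (50 * ((z.2 : ℂ).re - 9 / 10))) : V) :=
    continuous_subtype_val.comp (HH_comp continuous_fst (by fun_prop))
  have h3 : Continuous fun z : ZZ => (bb (lam z.2 • aa z.1) : V) :=
    continuous_subtype_val.comp (bb_cont.comp
      (h1.smul (aa_cont.comp (continuous_subtype_val.comp continuous_fst))))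
  exact ((h2.add h3).sub continuous_const).prodMk ((h1.mul continuous_const).smul (by fun_prop))

noncomputable def phiW (z : ZZ) : WW :=
  base z + psi z + GW (psi (GZ (GZ (GZ (GZ (GZ z)))))) + GW (GW (psi (GZ (GZ (GZ (GZ z))))))
    + GW (GW (GW (psi (GZ (GZ (GZ z)))))) + GW (GW (GW (GW (psi (GZ (GZ z))))))
    + GW (GW (GW (GW (GW (psi (GZ z))))))

lemma phiW_cont : Continuous phiW := by
  have h1 : Continuous psi := phi0_cont.sub base_cont
  have h2 := GZ_cont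
  have h3 := GW_cont
  have h4 := base_cont
  unfold phiW
  fun_prop

lemma phiW_GZ (z : ZZ) : phiW (GZ z) = GW (phiW z) := by
  simp only [phiW, map_add, GZ_six, GW_six, base_GZ]
  abel

lemma phiW_cap (z : ZZ) (h : 9 / 10 < (z.2 : ℂ).re) : phiW z = phi0 z := by
  have hn : (z.2 : ℂ).re ^ 2 + (z.2 : ℂ).im ^ 2 ≤ 1 := by
    have := D2_norm z.2
    have h2 : ‖(z.2 : ℂ)‖ ^ 2 ≤ 1 := by nlinarith [norm_nonneg (z.2 : ℂ)]
    rwa [← normSq_eq_norm_sq, normSq_apply, ← sq, ← sq] at h2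
  have s3 : Real.sqrt 3 * Real.sqrt 3 = 3 := Real.mul_self_sqrt (by norm_num)
  have x1 : (z.2 : ℂ).re ≤ 1 := by nlinarith
  have t2 : (Real.sqrt 3 * (z.2 : ℂ).im) ^ 2 ≤ (4 / 5) ^ 2 := by
    rw [mul_pow, sq (Real.sqrt 3), s3]; nlinarith
  obtain ⟨t3, t4⟩ := abs_le.1 (abs_le_of_sq_le_sq t2 (by norm_num))
  have e : ∀ z : ZZ, ((GZ z).2 : ℂ).re = (z.2 : ℂ).re / 2 - Real.sqrt 3 * (z.2 : ℂ).im / 2 ∧
      Real.sqrt 3 * ((GZ z).2 : ℂ).im = 3 * (z.2 : ℂ).re / 2 + Real.sqrt 3 * (z.2 : ℂ).im / 2 := by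
    intro z
    change (om * z.2).re = _ ∧ Real.sqrt 3 * (om * z.2).im = _
    rw [mul_re, mul_im, om_re, om_im]
    constructor
    · ring
    · linear_combination ((z.2 : ℂ).re / 2) * s3
  obtain ⟨a1, b1⟩ := e z
  obtain ⟨a2, b2⟩ := e (GZ z)
  obtain ⟨a3, b3⟩ := e (GZ (GZ z))
  obtain ⟨a4, b4⟩ := e (GZ (GZ (GZ z)))
  obtain ⟨a5, -⟩ := e (GZ (GZ (GZ (GZ z))))
  rw [phiW, psi_zero (GZ z) (by linarith), psi_zero (GZ (GZ z)) (by linarith),
    psi_zero (GZ (GZ (GZ z))) (by linarith), psi_zero (GZ (GZ (GZ (GZ z)))) (by linarith),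
    psi_zero (GZ (GZ (GZ (GZ (GZ z))))) (by linarith)]
  simp [psi]

lemma phiW_mem (z : ZZ) : ∃ z', emb z' = phiW z := by
  have st : ∀ z, (∃ z', emb z' = phiW z) → ∃ z', emb z' = phiW (GZ z) := by
    rintro z ⟨z', h⟩
    exact ⟨GZ z', by rw [emb_GZ, h, phiW_GZ]⟩
  have cp : ∀ z : ZZ, ¬ (z.2 : ℂ).re ≤ 9 / 10 → ∃ z', emb z' = phiW z := fun z h => by
    rw [phiW_cap z (not_le.1 h)]; exact phi0_mem z
  by_cases h0 : (z.2 : ℂ).re ≤ 9 / 10
  swap; · exact cp z h0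
  by_cases h1 : ((GZ z).2 : ℂ).re ≤ 9 / 10
  swap; · rw [← GZ_six z]; exact st _ (st _ (st _ (st _ (st _ (cp _ h1)))))
  by_cases h2 : ((GZ (GZ z)).2 : ℂ).re ≤ 9 / 10
  swap; · rw [← GZ_six z]; exact st _ (st _ (st _ (st _ (cp _ h2))))
  by_cases h3 : ((GZ (GZ (GZ z))).2 : ℂ).re ≤ 9 / 10
  swap; · rw [← GZ_six z]; exact st _ (st _ (st _ (cp _ h3)))
  by_cases h4 : ((GZ (GZ (GZ (GZ z)))).2 : ℂ).re ≤ 9 / 10
  swap; · rw [← GZ_six z]; exact st _ (st _ (cp _ h4))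
  by_cases h5 : ((GZ (GZ (GZ (GZ (GZ z))))).2 : ℂ).re ≤ 9 / 10
  swap; · rw [← GZ_six z]; exact st _ (cp _ h5)
  rw [phiW, psi_zero _ h0, psi_zero _ h1, psi_zero _ h2, psi_zero _ h3, psi_zero _ h4,
    psi_zero _ h5]
  exact ⟨(HH z.1 0, ⟨0, by simp⟩), by simp [emb, base]⟩

noncomputable def phi (z : ZZ) : ZZ :=
  (⟨(phiW z).1, by obtain ⟨z', h⟩ := phiW_mem z; rw [← h]; exact z'.1.2⟩,
    ⟨(phiW z).2, by obtain ⟨z', h⟩ := phiW_mem z; rw [← h]; exact z'.2.2⟩)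

lemma emb_phi (z : ZZ) : emb (phi z) = phiW z := rfl

lemma phi_cont : Continuous phi :=
  ((continuous_fst.comp phiW_cont).subtype_mk _).prodMk
    ((continuous_snd.comp phiW_cont).subtype_mk _)

lemma phi_comm (z : ZZ) : phi (GZ z) = GZ (phi z) :=
  emb_inj (by rw [emb_phi, emb_GZ, emb_phi, phiW_GZ])

lemma phi_cap (z : ZZ) (h : 49 / 50 ≤ (z.2 : ℂ).re) : phiW z = ((y0 : V), 0) := by
  have h1 := (abs_le.1 (re_le_norm' z.2)).2
  rw [phiW_cap z (by linarith), phi0_far z (cl_zero (by linarith)), cl_one (by linarith), HH_one]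

lemma wc_phi : WC phi := by
  let j : D3 × D2 → ZZ := fun x => (ss x.1, ⟨19 / 20 + x.2 / 100, by
    rw [mem_closedBall_zero_iff]
    refine (norm_add_le _ _).trans ?_
    have := D2_norm x.2
    rw [norm_div, norm_div]
    simp only [Complex.norm_ofNat]
    linarith⟩)
  have jc : Continuous j := (ss_cont.comp continuous_fst).prodMk (Continuous.subtype_mk
    (by fun_prop) _)
  refine WC.of_comp jc ?_
  have : phi ∘ j = fun x : D3 × D2 => ((bb x.1, x.2) : ZZ) := by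
    funext x
    apply emb_inj
    have n1 := D2_norm x.2
    have r1 := (abs_le.1 ((abs_re_le_norm (x.2 : ℂ)).trans n1)).1
    have e1 : ((j x).2 : ℂ).re = 19 / 20 + (x.2 : ℂ).re / 100 := by simp [j]
    have e2 : ((j x).2 : ℂ) - 19 / 20 = x.2 / 100 := by simp [j]
    have e3 : lam (j x).2 = 1 := by
      rw [lam, e2, norm_div]
      simp only [Complex.norm_ofNat]
      exact cl_one (by linarith)
    have e4 : aa (j x).1 = x.1 := aa_ev _ _
    rw [comp_apply, emb_phi, phiW_cap _ (by linarith), phi0_near _ (by linarith), e3, e2, e4,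
      one_smul]
    refine Prod.ext rfl ?_
    simp [emb]; ring
  rw [this]; exact wc_bb

end Pool.Agent.H41.Wc
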