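import Pool.Agent.H41.Wc3

set_option autoImplicit false

namespace Pool.Agent.H41.Wc
open Set Topology Filter Function Metric Complex Pool.Agent.H41.Att

noncomputable def pg (x : V × ℝ) : ℝ :=
  (Real.sqrt (‖x.1‖ ^ 2 + 99 / 2500 * x.2 ^ 2) - 49 / 50 * ‖x.1‖) / (99 / 2500)

lemma pg_cont : Continuous pg := by unfold pg; fun_prop

lemma pg_zero : pg 0 = 0 := by simp [pg]

lemma pg_smul {c : ℝ} (hc : 0 ≤ c) (x : V × ℝ) : pg (c • x) = c * pg x := by
  have : ‖(c • x).1‖ ^ 2 + 99 / 2500 * (c • x).2 ^ 2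
      = c ^ 2 * (‖x.1‖ ^ 2 + 99 / 2500 * x.2 ^ 2) := by
    rw [Prod.smul_fst, Prod.smul_snd, norm_smul, Real.norm_of_nonneg hc, smul_eq_mul]; ring
  rw [pg, this, Real.sqrt_mul (sq_nonneg c), Real.sqrt_sq hc, Prod.smul_fst, norm_smul,
    Real.norm_of_nonneg hc, pg]
  ring

lemma pg_pos {x : V × ℝ} (hx : x ≠ 0) : 0 < pg x := by
  refine div_pos (sub_pos.2 (Real.lt_sqrt_of_sq_lt ?_)) (by norm_num)
  by_cases h : x.1 = 0
  · have : x.2 ≠ 0 := fun h2 => hx (Prod.ext h h2)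
    rw [h]; simp; positivity
  · have := norm_pos_iff.2 h
    nlinarith [sq_nonneg x.2]

lemma pg_nonneg (x : V × ℝ) : 0 ≤ pg x := by
  by_cases h : x = 0
  · rw [h, pg_zero]
  · exact (pg_pos h).le

lemma pg_le_iff (x : V × ℝ) : pg x ≤ 1 ↔ (‖x.1‖ - 49 / 50) ^ 2 + x.2 ^ 2 ≤ 1 := by
  have := norm_nonneg x.1
  rw [pg, div_le_one (by norm_num), sub_le_iff_le_add, Real.sqrt_le_left (by positivity)]
  constructor <;> intro h <;> nlinarith

abbrev E5 := EuclideanSpace ℝ (Fin 5)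

noncomputable def LL5 : (V × ℝ) ≃L[ℝ] E5 := ContinuousLinearEquiv.ofFinrankEq (by simp)

noncomputable def RR (x : V × ℝ) : E5 := (pg x / ‖LL5 x‖) • LL5 x

lemma LL5_ne {x : V × ℝ} (hx : x ≠ 0) : 0 < ‖LL5 x‖ := by
  simpa using hx

lemma RR_norm (x : V × ℝ) : ‖RR x‖ = pg x := by
  by_cases h : x = 0
  · rw [h, pg_zero, RR]; simp
  · have := LL5_ne h
    rw [RR, norm_smul, Real.norm_of_nonneg (div_nonneg (pg_nonneg x) this.le)]
    field_simp

lemma RR_cont : Continuous RR := by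
  refine continuous_iff_continuousAt.2 fun x => ?_
  by_cases h : x = 0
  · have h0 : RR 0 = 0 := by simp [RR]
    rw [h, ContinuousAt, h0, tendsto_zero_iff_norm_tendsto_zero]
    simp only [RR_norm]
    have := pg_cont.tendsto 0
    rwa [pg_zero] at this
  · exact (pg_cont.continuousAt.div LL5.continuous.norm.continuousAt (LL5_ne h).ne').smul
      LL5.continuous.continuousAt

lemma RR_inj : Injective RR := by
  intro x y h
  have h1 : pg x = pg y := by rw [← RR_norm, h, RR_norm]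
  by_cases hx : x = 0
  · by_contra hy
    have := pg_pos (x := y) (fun e => hy (hx.trans e.symm))
    rw [hx, pg_zero] at h1; linarith
  have px := pg_pos hx
  have hy : y ≠ 0 := fun e => by rw [e, pg_zero] at h1; linarith
  have nx := LL5_ne hx
  have ny := LL5_ne hy
  have h2 : (pg x / ‖LL5 x‖) • x = (pg y / ‖LL5 y‖) • y :=
    LL5.injective (by rw [map_smul, map_smul]; exact h)
  have h3 := congrArg pg h2
  rw [pg_smul (by positivity), pg_smul (div_nonneg (pg_nonneg _) ny.le), ← h1] at h3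
  have h4 := mul_right_cancel₀ px.ne' h3
  rw [← h1, ← h4] at h2
  exact smul_right_injective _ (by positivity) h2

lemma RR_surj (v : E5) : ∃ x, RR x = v := by
  by_cases h : v = 0
  · exact ⟨0, by simp [RR, h]⟩
  have hx : LL5.symm v ≠ 0 := by simpa using h
  have p := pg_pos hx
  have n : 0 < ‖v‖ := norm_pos_iff.2 h
  refine ⟨(‖v‖ / pg (LL5.symm v)) • LL5.symm v, ?_⟩
  rw [RR, pg_smul (by positivity), map_smul, LL5.apply_symm_apply, norm_smul,
    Real.norm_of_nonneg (by positivity), smul_smul]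
  have : ‖v‖ / pg (LL5.symm v) * pg (LL5.symm v) / (‖v‖ / pg (LL5.symm v) * ‖v‖) *
      (‖v‖ / pg (LL5.symm v)) = 1 := by field_simp
  rw [this, one_smul]

noncomputable def al0 (z : ZZ) : V × ℝ :=
  (max (49 / 50 - (z.2 : ℂ).re) 0 • (z.1 : V), (z.2 : ℂ).im)

lemma al0_norm (z : ZZ) : ‖(al0 z).1‖ = max (49 / 50 - (z.2 : ℂ).re) 0 := by
  rw [al0, norm_smul, P_norm, mul_one, Real.norm_of_nonneg (le_max_right _ _)]

lemma D2_sq (w : D2) : (w : ℂ).re ^ 2 + (w : ℂ).im ^ 2 ≤ 1 := by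
  have := D2_norm w
  have h2 : ‖(w : ℂ)‖ ^ 2 ≤ 1 := by nlinarith [norm_nonneg (w : ℂ)]
  rwa [← normSq_eq_norm_sq, normSq_apply, ← sq, ← sq] at h2

lemma al0_le (z : ZZ) : pg (al0 z) ≤ 1 := by
  rw [pg_le_iff, al0_norm]
  have := D2_sq z.2
  change _ + (z.2 : ℂ).im ^ 2 ≤ 1
  rcases le_total (49 / 50 - (z.2 : ℂ).re) 0 with h | h
  · rw [max_eq_right h]; nlinarith
  · rw [max_eq_left h]; nlinarith

noncomputable def al (z : ZZ) : closedBall (0 : E5) 1 :=
  ⟨RR (al0 z), by rw [mem_closedBall_zero_iff, RR_norm]; exact al0_le z⟩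

lemma al_cont : Continuous al :=
  (RR_cont.comp (by unfold al0; fun_prop)).subtype_mk _

lemma al_iff (z z' : ZZ) : al z = al z' ↔ z = z' ∨
    (49 / 50 ≤ (z.2 : ℂ).re ∧ 49 / 50 ≤ (z'.2 : ℂ).re ∧ (z.2 : ℂ).im = (z'.2 : ℂ).im) := by
  constructor
  · intro h
    have h1 : al0 z = al0 z' := RR_inj (congrArg Subtype.val h)
    have h2 : max (49 / 50 - (z.2 : ℂ).re) 0 = max (49 / 50 - (z'.2 : ℂ).re) 0 := by
      rw [← al0_norm, h1, al0_norm]
    have h3 : (z.2 : ℂ).im = (z'.2 : ℂ).im := congrArg Prod.snd h1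
    have h4 : max (49 / 50 - (z.2 : ℂ).re) 0 • (z.1 : V) =
        max (49 / 50 - (z'.2 : ℂ).re) 0 • (z'.1 : V) := congrArg Prod.fst h1
    by_cases h5 : 49 / 50 ≤ (z.2 : ℂ).re
    · refine Or.inr ⟨h5, ?_, h3⟩
      rw [max_eq_right (by linarith)] at h2
      linarith [le_max_left (49 / 50 - (z'.2 : ℂ).re) 0]
    · left
      have p : 0 < max (49 / 50 - (z.2 : ℂ).re) 0 := lt_max_of_lt_left (by linarith)
      rw [← h2] at h4
      have h6 : 0 < 49 / 50 - (z'.2 : ℂ).re := by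
        rw [h2] at p
        rcases lt_max_iff.1 p with q | q
        · exact q
        · exact (lt_irrefl _ q).elim
      rw [max_eq_left (by linarith), max_eq_left h6.le] at h2
      exact Prod.ext (Subtype.ext (smul_right_injective _ p.ne' h4))
        (Subtype.ext (Complex.ext (by linarith) h3))
  · rintro (h | ⟨h1, h2, h3⟩)
    · rw [h]
    · apply Subtype.ext
      change RR (al0 z) = RR (al0 z')
      rw [al0, al0, max_eq_right (by linarith), max_eq_right (by linarith), zero_smul, zero_smul,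
        h3]

lemma al_fac (z z' : ZZ) (h : al z = al z') : phi z = phi z' := by
  rcases (al_iff z z').1 h with h | ⟨h1, h2, -⟩
  · rw [h]
  · exact emb_inj (by rw [emb_phi, emb_phi, phi_cap z h1, phi_cap z' h2])

lemma al_surj : Surjective al := by
  intro v
  obtain ⟨x, hx⟩ := RR_surj v.1
  have h1 : pg x ≤ 1 := by rw [← RR_norm, hx]; exact mem_closedBall_zero_iff.1 v.2
  rw [pg_le_iff] at h1
  obtain ⟨y, hy⟩ : ∃ y : P, ‖x.1‖ • (y : V) = x.1 := by
    by_cases h : x.1 = 0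
    · exact ⟨y0, by simp [h]⟩
    · refine ⟨nz x.1 h, ?_⟩
      change ‖x.1‖ • ‖x.1‖⁻¹ • x.1 = x.1
      rw [smul_smul, mul_inv_cancel₀ (norm_ne_zero_iff.2 h), one_smul]
  refine ⟨(y, ⟨⟨49 / 50 - ‖x.1‖, x.2⟩, ?_⟩), Subtype.ext ?_⟩
  · rw [mem_closedBall_zero_iff, ← sq_le_one_iff₀ (norm_nonneg _), ← normSq_eq_norm_sq,
      normSq_mk]
    nlinarith
  · change RR _ = v.1
    rw [← hx]
    congr 1
    refine Prod.ext ?_ rfl
    change max (49 / 50 - (49 / 50 - ‖x.1‖)) 0 • (y : V) = x.1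
    rw [sub_sub_cancel, max_eq_left (norm_nonneg _), hy]

lemma wc_al : WC al := by
  refine WC.of_monotone al_cont al_surj fun z => ?_
  by_cases h : 49 / 50 ≤ (z.2 : ℂ).re
  · have : al ⁻¹' {al z} =
        univ ×ˢ {w : D2 | 49 / 50 ≤ (w : ℂ).re ∧ (w : ℂ).im = (z.2 : ℂ).im} := by
      ext z'
      simp only [mem_preimage, mem_singleton_iff, mem_prod, mem_univ, true_and,
        Set.mem_ofPred_eq, al_iff]
      refine ⟨?_, fun k => Or.inr ⟨k.1, h, k.2⟩⟩
      rintro (k | k)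
      · rw [k]; exact ⟨h, rfl⟩
      · exact ⟨k.1, k.2.2⟩
    rw [this]
    refine isPreconnected_univ.prod ?_
    rw [← IsInducing.subtypeVal.isPreconnected_image]
    have : Subtype.val '' {w : D2 | 49 / 50 ≤ (w : ℂ).re ∧ (w : ℂ).im = (z.2 : ℂ).im} =
        closedBall 0 1 ∩ ({w : ℂ | 49 / 50 ≤ w.re} ∩ ({w : ℂ | w.im ≤ (z.2 : ℂ).im} ∩
          {w : ℂ | (z.2 : ℂ).im ≤ w.im})) := by
      ext w
      exact ⟨by rintro ⟨v, hv, rfl⟩; exact ⟨v.2, hv.1, hv.2.le, hv.2.ge⟩,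
        fun hw => ⟨⟨w, hw.1⟩, ⟨hw.2.1, le_antisymm hw.2.2.1 hw.2.2.2⟩, rfl⟩⟩
    rw [this]
    exact ((convex_closedBall _ _).inter ((convex_halfSpace_re_ge _).inter
      ((convex_halfSpace_im_le _).inter (convex_halfSpace_im_ge _)))).isPreconnected
  · refine Set.Subsingleton.isPreconnected fun a ha b hb => ?_
    have k : ∀ a ∈ al ⁻¹' {al z}, a = z := by
      intro a ha
      rcases (al_iff a z).1 ha with e | e
      · exact e
      · exact (h e.2.1).elim
    rw [k a ha, k b hb]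

theorem main : ∃ (M : Type) (_ : MetricSpace M) (_ : CompactSpace M) (_ : ConnectedSpace M),
    (∀ ε : ℝ, 0 < ε → ∃ f : M → closedBall (0 : E5) 1, Continuous f ∧ Surjective f ∧
      (∀ y, Metric.diam (f ⁻¹' {y}) < ε) ∧ WC f) ∧
    ∃ G : M → M, Continuous G ∧ ∀ x, G x ≠ x :=
  lim_main GZ al phi_cont GZ_cont al_cont wc_phi wc_al phi_comm GZ_ne al_fac

end Pool.Agent.H41.Wc
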