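import Pool.Agent.H41.WncDefs

set_option autoImplicit false

namespace Pool.Agent.H41.Wnc

open Metric NormedSpace Filter Set Bornology
open scoped ENNReal NNReal Topology

variable {X : Type*} [NormedAddCommGroup X] [NormedSpace ℂ X] {ι : Type*}

lemma wlim {K : Set X} (hK : WCompact K) (U : Ultrafilter ι) (u : ι → X) (hu : ∀ i, u i ∈ K) :
    ∃ y ∈ K, ∀ φ : StrongDual ℂ X, Tendsto (fun i => φ (u i)) U (𝓝 (φ y)) := by
  obtain ⟨_, ⟨y, hy, rfl⟩, h⟩ := hK.ultrafilter_le_nhds' (U.map fun i => toWeakSpace ℂ X (u i))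
    (Ultrafilter.mem_map.2 (univ_mem' fun i => mem_image_of_mem _ (hu i)))
  exact ⟨y, hy, fun φ => ((WeakBilin.eval_continuous (topDualPairing ℂ X).flip φ).tendsto _).comp h⟩

lemma dlim (U : Ultrafilter ι) (φ : ι → StrongDual ℂ X) {r : ℝ} (h : ∀ i, ‖φ i‖ ≤ r) :
    ∃ ψ : StrongDual ℂ X, ‖ψ‖ ≤ r ∧ ∀ x, Tendsto (fun i => φ i x) U (𝓝 (ψ x)) := by
  obtain ⟨ψ, h1, h2⟩ := (WeakDual.isCompact_closedBall (0 : StrongDual ℂ X) r).ultrafilter_le_nhds'
    (U.map fun i => StrongDual.toWeakDual (φ i)) (Ultrafilter.mem_map.2 (univ_mem' fun i => by simpa using h i))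
  exact ⟨WeakDual.toStrongDual ψ, by simpa using h1, fun x =>
    ((WeakDual.eval_continuous x).tendsto _).comp h2⟩

lemma dX_le {z : WeakDual ℂ (StrongDual ℂ X)} {c : ℝ≥0} (g : X)
    (h : ∀ φ, ‖z φ - φ g‖ ≤ c * ‖φ‖) : dX z ≤ c := by
  refine (infEDist_le_edist_of_mem (mem_range_self g)).trans ?_
  rw [edist_eq_enorm_sub, enorm_le_coe]
  exact ContinuousLinearMap.opNorm_le_bound _ c.2 h

lemma clos {f : ι → X} {S : Set ι} {z : WeakDual ℂ (StrongDual ℂ X)}
    (hz : z ∈ closure (jw '' (f '' S))) : ∃ U : Ultrafilter ι, S ∈ U ∧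
      ∀ φ : StrongDual ℂ X, Tendsto (fun i => φ (f i)) U (𝓝 (z φ)) := by
  rw [image_image, mem_closure_iff_clusterPt, ← map_principal] at hz
  obtain ⟨U, h1, h2⟩ := mapClusterPt_iff_ultrafilter.1 hz
  exact ⟨U, le_principal_iff.1 h1, fun φ => ((WeakDual.eval_continuous φ).tendsto _).comp h2⟩

lemma avg {U : Filter ι} [U.NeBot] {h : ι → X} {c C : ℝ} (C0 : 0 ≤ C) (Inv : ℕ → X → Prop) (h0 : Inv 0 0)
    (h1 : ∀ N s, Inv N s → ∀ᶠ i in U, Inv (N + 1) (s + h i))
    (h2 : ∀ N s, Inv N s → ‖s‖ ≤ c * N + C * √N + C) {φ : StrongDual ℂ X} {z : ℂ}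
    (hz : Tendsto (fun i => φ (h i)) U (𝓝 z)) : ‖z‖ ≤ c * ‖φ‖ := by
  have k : ∀ η > 0, ∀ N : ℕ, ∃ s, Inv N s ∧ ‖φ s - N * z‖ ≤ N * η := fun η hη N => by
    induction N with
    | zero => exact ⟨0, h0, by simp⟩
    | succ N ih =>
      obtain ⟨s, h3, h4⟩ := ih
      obtain ⟨i, h5, h6⟩ := ((h1 N s h3).and (Metric.tendsto_nhds.1 hz η hη)).exists
      refine ⟨_, h5, ?_⟩
      rw [map_add, Nat.cast_succ, Nat.cast_succ, add_mul, add_mul, one_mul, one_mul, add_sub_add_comm]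
      exact (norm_add_le _ _).trans (add_le_add h4 (dist_eq_norm _ z ▸ h6.le))
  have t := (tendsto_const_div_atTop_nhds_zero_nat (1 + 2 * C * ‖φ‖)).const_add (c * ‖φ‖)
  rw [add_zero] at t
  refine ge_of_tendsto t ((eventually_ge_atTop 1).mono fun m hm => ?_)
  have m1 : (1 : ℝ) ≤ m := by exact_mod_cast hm
  obtain ⟨s, h3, h4⟩ := k (1 / m) (by positivity) (m ^ 2)
  have h5 := φ.le_opNorm_of_le (h2 _ s h3)
  have h6 := norm_sub_norm_le ((m ^ 2 : ℕ) * z) (φ s)
  rw [norm_sub_rev, norm_mul, Complex.norm_natCast] at h6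
  push_cast at *
  rw [Real.sqrt_sq (by positivity)] at h5
  rw [show (m : ℝ) ^ 2 * (1 / m) = m by field_simp] at h4
  rw [← sub_le_iff_le_add', le_div_iff₀ (by positivity)]
  refine le_of_mul_le_mul_right ?_ (by positivity : (0 : ℝ) < m)
  nlinarith [mul_le_mul_of_nonneg_left m1 (mul_nonneg C0 (norm_nonneg φ))]

lemma le_om {A : Set X} {r : ℝ} (h : ∀ K, WCompact K → ∀ δ < r,
    (∀ a ∈ A, ∃ y ∈ K, ‖a - y‖ ≤ δ) → False) : ENNReal.ofReal r ≤ om A :=
  le_iInf₂ fun K hK => not_lt.1 fun e => by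
    obtain ⟨δ, h0, h1, h2⟩ := ENNReal.lt_iff_exists_real_btwn.1 e
    refine h K hK δ ((ENNReal.ofReal_lt_ofReal_iff_of_nonneg h0).1 h2) fun a ha => ?_
    obtain ⟨y, hy, h3⟩ := infEDist_lt_iff.1 ((le_iSup₂_of_le a ha le_rfl).trans_lt h1)
    exact ⟨y, hy, dist_eq_norm a y ▸ (edist_lt_ofReal.1 h3).le⟩

theorem gen {T : Type*} (ev : T → StrongDual ℂ X) (h1 : ∀ t, ‖ev t‖ ≤ 1)
    (h2 : ∀ x (c : ℝ), 0 ≤ c → (∀ t, ‖ev t x‖ ≤ c) → ‖x‖ ≤ c) (n D : ℕ) (ψ : ℕ → ℕ → X)
    (hψ : ∀ p q t, ‖ev t (ψ p q)‖ ≤ 1)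
    (h0 : ∀ t, ∃ s : Finset ℕ, s.card ≤ D ∧ ∀ p q, (∀ b ∈ s, b ∉ Ioc p q) → ev t (ψ p q) = 0)
    (hB : ∀ B : Finset ℕ, B.card ≤ n → ∃ t, ∀ p q,
      ev t (ψ p q) = if ∃ b ∈ B, b ∈ Finset.Ioc p q then 1 else 0) :
    ∃ A : Set X, IsBounded A ∧ wk A ≤ 1 ∧ ENNReal.ofReal (n / 2) ≤ om A := by
  let f := fun a : ℕ → ℕ => ∑ j ∈ Finset.range n, ψ (a (j + 1)) (a j)
  have sb : ∀ (a : ℕ → ℕ) k t, ‖ev t (∑ j ∈ Finset.range k, ψ (a (j + 1)) (a j))‖ ≤ k := fun a k t => by
    rw [map_sum]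
    exact (norm_sum_le _ _).trans ((Finset.sum_le_card_nsmul _ _ 1 fun j _ => hψ ..).trans (by simp))
  refine ⟨f '' {a | Antitone a ∧ a n = 0}, isBounded_iff_forall_norm_le.2 ⟨n, ?_⟩,
    iSup₂_le fun z hz => ?_, le_om fun K hK δ hδ h => ?_⟩
  · rintro _ ⟨a, -, rfl⟩
    exact h2 _ _ n.cast_nonneg (sb a n)
  · obtain ⟨U, hS, hU⟩ := clos hz
    have ex : ∃ k, ∃ c, ∀ᶠ a in U, (a : ℕ → ℕ) k = c := ⟨n, 0, mem_of_superset hS fun a h => h.2⟩
    classical
    obtain ⟨k, hk, ⟨c, hc⟩, hm⟩ : ∃ k ≤ n, (∃ c, ∀ᶠ a in U, (a : ℕ → ℕ) k = c) ∧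
        ∀ j < k, ∀ c, ∀ᶠ a in U, c < (a : ℕ → ℕ) j := by
      refine ⟨Nat.find ex, Nat.find_min' ex ⟨0, mem_of_superset hS fun a h => h.2⟩, Nat.find_spec ex,
        fun j hj c => ?_⟩
      have : ∀ᶠ a in U, ∀ i ∈ Finset.range (c + 1), (a : ℕ → ℕ) j ≠ i :=
        (eventually_all_finset _).2 fun i _ => Ultrafilter.eventually_not.2 fun e =>
          Nat.find_min ex hj ⟨i, e⟩
      exact this.mono fun a h => not_le.1 fun e => h _ (by simpa using Nat.lt_succ_of_le e) rfl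
    have hj : ∀ j, ∃ d, k ≤ j → ∀ᶠ a in U, (a : ℕ → ℕ) j = d := fun j => by
      by_cases e : k ≤ j
      · obtain ⟨d, -, hd⟩ := (Ultrafilter.eventually_exists_mem_iff (finite_Iic c)
          (P := fun d (a : ℕ → ℕ) => a j = d) (f := U)).1
          (by filter_upwards [hS, hc] with a h h' using ⟨_, (h.1 e).trans_eq h', rfl⟩)
        exact ⟨d, fun _ => hd⟩
      · exact ⟨0, fun h => (e h).elim⟩
    choose d hd using hj
    choose act hD h0 using h0
    let g := ∑ j ∈ Finset.Ico k n, ψ (d (j + 1)) (d j)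
    refine dX_le (c := 1) g fun φ => avg (U := U) (h := fun a => f a - g) (C := n * D) (by positivity)
      (fun N s => ∃ c, ∀ t, ‖ev t s‖ ≤ N + n * ((act t).filter (· ≤ c)).card)
      ⟨0, fun t => by simp only [map_zero, norm_zero]; positivity⟩ ?_ ?_
      (by simpa using (hU φ).sub_const (φ g))
    · rintro N s ⟨c, hc⟩
      have e1 : ∀ᶠ a in U, ∀ j ∈ Finset.Icc k n, (a : ℕ → ℕ) j = d j :=
        (eventually_all_finset _).2 fun j hj => hd j (Finset.mem_Icc.1 hj).1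
      have e2 : ∀ᶠ a in U, ∀ j ∈ Finset.range k, c < (a : ℕ → ℕ) j :=
        (eventually_all_finset _).2 fun j hj => hm j (Finset.mem_range.1 hj) c
      filter_upwards [hS, e1, e2] with a ha e1 e2
      refine ⟨max c (a 0), fun t => ?_⟩
      have e3 : f a - g = ∑ j ∈ Finset.range k, ψ (a (j + 1)) (a j) := by
        rw [sub_eq_iff_eq_add]
        refine (Finset.sum_range_add_sum_Ico _ hk).symm.trans (congrArg _ (Finset.sum_congr rfl
          fun j hj => ?_))
        rw [Finset.mem_Ico] at hj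
        rw [e1 j (Finset.mem_Icc.2 (by omega)), e1 _ (Finset.mem_Icc.2 (by omega))]
      rw [map_add, e3]
      refine (norm_add_le _ _).trans ?_
      have m := Finset.monotone_filter_right (act t) (p := (· ≤ c)) (q := (· ≤ max c (a 0)))
        fun b _ h => le_max_of_le_left h
      have := hc t
      by_cases e : ∃ b ∈ act t, c < b ∧ b ≤ a 0
      · obtain ⟨b, b1, b2, b3⟩ := e
        have h3 : ((act t).filter (· ≤ c)).card + 1 ≤ ((act t).filter (· ≤ max c (a 0))).card :=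
          Finset.card_lt_card ⟨m, fun e => by simpa [b1, b3, b2.not_ge] using @e b⟩
        have h4 := (sb a k t).trans (Nat.cast_le.2 hk)
        have h5 := mul_le_mul_of_nonneg_left (Nat.cast_le (α := ℝ).2 h3) n.cast_nonneg
        push_cast at *
        linarith
      · have h3 : ‖ev t (∑ j ∈ Finset.range k, ψ (a (j + 1)) (a j))‖ ≤ 1 := by
          cases k with
          | zero => simp
          | succ k =>
            rw [Finset.sum_range_succ, map_add, map_sum, Finset.sum_eq_zero fun j hj => h0 t _ _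
              fun b b1 b2 => e ⟨b, b1, (e2 _ (by simpa using hj)).trans b2.1,
                b2.2.trans (ha.1 zero_le)⟩, zero_add]
            exact hψ ..
        have h5 := mul_le_mul_of_nonneg_left (Nat.cast_le (α := ℝ).2 (Finset.card_le_card m))
          n.cast_nonneg
        push_cast at *
        linarith
    · rintro N s ⟨c, hc⟩
      refine h2 _ _ (by positivity) fun t => (hc t).trans ?_
      have := mul_le_mul_of_nonneg_left (Nat.cast_le (α := ℝ).2
        ((Finset.card_filter_le (act t) (· ≤ c)).trans (hD t))) n.cast_nonneg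
      have : (0 : ℝ) ≤ n * D * √N := by positivity
      push_cast
      linarith
  · let U := hyperfilter ℕ
    have hU : ∀ c : ℕ, ∀ᶠ m : ℕ in U, c < m := fun c => Nat.hyperfilter_le_atTop (eventually_gt_atTop c)
    obtain ⟨y0, hy0, -⟩ := h (f 0) ⟨0, ⟨antitone_const, rfl⟩, rfl⟩
    have : ∀ a, ∃ y : K, Antitone a → a n = 0 → ‖f a - y‖ ≤ δ := fun a => by
      by_cases e : Antitone a ∧ a n = 0
      · obtain ⟨y, hy, h⟩ := h _ ⟨a, e, rfl⟩
        exact ⟨⟨y, hy⟩, fun _ _ => h⟩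
      · exact ⟨⟨y0, hy0⟩, fun h h' => (e ⟨h, h'⟩).elim⟩
    choose g hg using this
    choose L1 hL1 hL2 using fun u : ℕ → K => wlim hK U (fun m => u m) fun m => (u m).2
    choose L3 hL3 hL4 using fun u : ℕ → {φ : StrongDual ℂ X // ‖φ‖ ≤ 1} =>
      dlim U (fun m => (u m).1) fun m => (u m).2
    have : ∀ B : Finset ℕ, ∃ t, B.card ≤ n → ∀ p q,
        ev t (ψ p q) = if ∃ b ∈ B, b ∈ Finset.Ioc p q then 1 else 0 := fun B => by
      by_cases e : B.card ≤ n
      · exact (hB B e).imp fun t h _ => h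
      · exact (hB ∅ (by simp)).imp fun t _ h => (e h).elim
    choose tB htB using this
    let up := fun r m (a : ℕ → ℕ) j => if j ≤ r then m else a j
    have ua : ∀ r m a, Antitone a → a (r + 1) ≤ m → Antitone (up r m a) := fun r m a h h' =>
      antitone_nat_of_succ_le fun j => by
        simp only [up]
        split_ifs with h3 h4 h4
        exacts [le_rfl, by omega, (show j = r by omega) ▸ h', h j.le_succ]
    let gg : ℕ → (ℕ → ℕ) → K := fun r => Nat.rec g (fun r G a => ⟨L1 fun m => G (up r m a), hL1 _⟩) r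
    let ph : ℕ → Finset ℕ → {φ : StrongDual ℂ X // ‖φ‖ ≤ 1} := fun r =>
      Nat.rec (fun B => ⟨ev (tB B), h1 _⟩) (fun _ G B => ⟨L3 fun m => G (insert m B), hL3 _⟩) r
    have s1 : ∀ (r : ℕ) (a : ℕ → ℕ) (φ : StrongDual ℂ X) (v : ℂ),
        (∀ᶠ m : ℕ in U, ‖v - φ (gg r (up r m a)).1‖ ≤ δ) → ‖v - φ (gg (r + 1) a).1‖ ≤ δ := fun r a φ v h =>
      le_of_tendsto ((hL2 (fun m => gg r (up r m a)) φ).const_sub v).norm h
    have s2 : ∀ r B x (v : ℂ), (∀ᶠ m : ℕ in U, ‖v - (ph r (insert m B)).1 x‖ ≤ δ) →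
        ‖v - (ph (r + 1) B).1 x‖ ≤ δ := fun r B x v h =>
      le_of_tendsto ((hL4 (fun m => ph r (insert m B)) x).const_sub v).norm h
    have s0 : ∀ a B, Antitone a → a n = 0 → ‖ev (tB B) (f a) - (ph 0 B).1 (g a)‖ ≤ δ := fun a B h h' =>
      (congrArg norm (map_sub (ev (tB B)) _ _)).symm.trans_le
        (((ev _).le_of_opNorm_le (h1 _) _).trans ((one_mul _).trans_le (hg a h h')))
    have a1 : ∀ a, Antitone a → a n = 0 → ∀ r B, B.card + r ≤ n → (∀ b ∈ B, a 0 < b) →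
        ‖0 - (ph r B).1 (g a)‖ ≤ δ := fun a h h' r => by
      induction r with
      | zero =>
        intro B h3 h4
        convert s0 a B h h'
        rw [map_sum]
        exact (Finset.sum_eq_zero fun j _ => (htB B h3 _ _).trans (if_neg fun ⟨b, h5, h6⟩ =>
          (h4 b h5).not_ge ((Finset.mem_Ioc.1 h6).2.trans (h zero_le)))).symm
      | succ r ih =>
        exact fun B h3 h4 => s2 _ _ _ _ ((hU (a 0)).mono fun m hm => ih _
          (by have := Finset.card_insert_le m B; omega) (by simpa [hm] using h4))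
    have a2 : ∀ r ≤ n, ∀ a, Antitone a → a n = 0 → ‖0 - (ph n ∅).1 (gg r a).1‖ ≤ δ := fun r => by
      induction r with
      | zero => exact fun _ a h h' => a1 a h h' n ∅ (by simp) (by simp)
      | succ r ih =>
        exact fun hr a h h' => s1 _ _ _ _ ((hU (a (r + 1))).mono fun m hm =>
          ih (by omega) _ (ua r m a h hm.le) ((if_neg (by omega)).trans h'))
    have a3 : ∀ r ≤ n, ∀ a B, Antitone a → a n = 0 → B.card + r ≤ n → (∀ j, r ≤ j → j < n →
        ∃ b ∈ B, b ∈ Finset.Ioc (a (j + 1)) (a j)) → ‖n - (ph r B).1 (gg r a).1‖ ≤ δ := fun r => by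
      induction r with
      | zero =>
        intro _ a B h h' h3 h4
        have := s0 a B h h'
        rw [map_sum, Finset.sum_congr rfl fun j hj => (htB B h3 _ _).trans
          (if_pos (h4 j zero_le (Finset.mem_range.1 hj)))] at this
        rwa [Finset.sum_const, Finset.card_range, nsmul_one] at this
      | succ r ih =>
        refine fun hr a B h h' h3 h4 => s2 _ _ _ _ ((hU (a (r + 1))).mono fun b hb => s1 _ _ _ _
          ((hU b).mono fun m hm => ih (by omega) _ _ (ua r m a h (hb.trans hm).le)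
            ((if_neg (by omega)).trans h') (by have := Finset.card_insert_le b B; omega)
            fun j h5 h6 => ?_))
        rcases h5.eq_or_lt with rfl | h5
        · exact ⟨b, by simp, by simp [up, hb, hm.le]⟩
        · obtain ⟨b', h7, h8⟩ := h4 j h5 h6
          exact ⟨b', by simp [h7], by simpa [up, h5.not_ge, h5.not_gt] using h8⟩
    have b1 := a2 n le_rfl 0 antitone_const rfl
    have b2 := a3 n le_rfl 0 ∅ antitone_const rfl (by simp) fun j h h' => (h'.not_ge h).elim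
    have b3 := norm_sub_le_norm_sub_add_norm_sub (n : ℂ) ((ph n ∅).1 (gg n 0).1) 0
    rw [norm_sub_rev] at b1
    rw [sub_zero, Complex.norm_natCast] at b3
    linarith

end Pool.Agent.H41.Wnc
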