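import Pool.Agent.H41.Wnc1

set_option autoImplicit false

namespace Pool.Agent.H41.Wnc

open Set

noncomputable def rho (m : ℕ) (x : ℝ) : ℝ := 3 * (2 ^ (m + 1) * x) - 4
noncomputable def bump (y : ℝ) : ℝ := max 0 (min 1 (min (y + 1) (2 - y)))
noncomputable def fz : ℕ → ℕ → ℝ → ℝ
  | 0, _, _ => 0
  | n + 1, b, x => bump (rho b x) + ∑ m ∈ Finset.range b, fz n b (rho m x)

lemma fz_cont (n b : ℕ) : Continuous (fz n b) := by
  induction n with
  | zero => exact continuous_const
  | succ n ih =>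
    change Continuous fun x => bump (rho b x) + ∑ m ∈ Finset.range b, fz n b (rho m x)
    unfold bump rho; fun_prop

lemma bump_out {y : ℝ} (h : y ∉ Ioo (-1) 2) : bump y = 0 := by
  rw [mem_Ioo, not_and_or, not_lt, not_lt] at h
  refine max_eq_left (min_le_of_right_le ?_)
  rcases h with h | h
  · exact min_le_of_left_le (by linarith)
  · exact min_le_of_right_le (by linarith)

lemma rho_in {m : ℕ} {x : ℝ} (h : rho m x ∈ Ioo (-1) 2) : x ∈ Ioo 0 1 := by
  have : (2 : ℝ) ≤ 2 ^ (m + 1) := le_self_pow₀ one_le_two (by omega)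
  obtain ⟨h1, h2⟩ := h
  unfold rho at *
  constructor <;> nlinarith

lemma rho_inj {m k : ℕ} {x : ℝ} (h : rho m x ∈ Ioo (-1) 2) (h' : rho k x ∈ Ioo (-1) 2) : m = k := by
  wlog e : m < k generalizing m k
  · exact (not_lt.1 e).eq_or_lt.elim Eq.symm fun e => (this h' h e).symm
  have : (2 : ℝ) ^ (m + 1 + 1) ≤ 2 ^ (k + 1) := pow_le_pow_right₀ one_le_two (by omega)
  have := (rho_in h).1
  obtain ⟨h1, -⟩ := h
  obtain ⟨-, h2⟩ := h'
  unfold rho at *
  rw [pow_succ _ (m + 1)] at *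
  nlinarith

lemma fz_out (n b : ℕ) {x : ℝ} (h : x ∉ Ioo 0 1) : fz n b x = 0 := by
  induction n generalizing x with
  | zero => rfl
  | succ n ih =>
    rw [fz, bump_out fun e => h (rho_in e), zero_add]
    exact Finset.sum_eq_zero fun m _ => ih fun e => h (rho_in (m := m) ⟨by linarith [e.1], by linarith [e.2]⟩)

lemma fz_in {n b m : ℕ} {x : ℝ} (h : rho m x ∈ Ioo (-1) 2) : fz (n + 1) b x =
    (if b = m then bump (rho m x) else 0) + if m < b then fz n b (rho m x) else 0 := by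
  rw [fz, Finset.sum_eq_ite m fun k _ e => fz_out _ _ fun e' =>
    e (rho_inj ⟨by linarith [e'.1], by linarith [e'.2]⟩ h)]
  congr 1
  · split_ifs with e
    · rw [e]
    · exact bump_out fun e' => e (rho_inj e' h)
  · simp

lemma fz_card (n : ℕ) (x : ℝ) : ∃ s : Finset ℕ, s.card ≤ n ∧ ∀ b ∉ s, fz n b x = 0 := by
  induction n generalizing x with
  | zero => exact ⟨∅, le_rfl, fun _ _ => rfl⟩
  | succ n ih =>
    by_cases h : ∃ m, rho m x ∈ Ioo (-1) 2
    · obtain ⟨m, h⟩ := h
      obtain ⟨s, h1, h2⟩ := ih (rho m x)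
      refine ⟨insert m s, (Finset.card_insert_le _ _).trans (by omega), fun b hb => ?_⟩
      rw [Finset.mem_insert, not_or] at hb
      simp [fz_in h, hb.1, h2 b hb.2]
    · refine ⟨∅, by simp, fun b _ => ?_⟩
      rw [fz, bump_out fun e => h ⟨b, e⟩, zero_add]
      exact Finset.sum_eq_zero fun m _ => fz_out _ _ fun e =>
        h ⟨m, by linarith [e.1], by linarith [e.2]⟩

lemma fz_real (n : ℕ) (B : Finset ℕ) (h : B.card ≤ n) :
    ∃ x ∈ Icc (0 : ℝ) 1, ∀ b, fz n b x = if b ∈ B then 1 else 0 := by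
  induction n generalizing B with
  | zero => exact ⟨0, by simp, fun b => by simp [fz, Finset.card_eq_zero.1 (Nat.le_zero.1 h)]⟩
  | succ n ih =>
    rcases B.eq_empty_or_nonempty with rfl | hB
    · exact ⟨0, by simp, fun b => by simp [fz_out]⟩
    obtain ⟨m, h1, h2⟩ := B.exists_min_image id hB
    obtain ⟨y, h3, h4⟩ := ih (B.erase m) (by rw [Finset.card_erase_of_mem h1]; omega)
    have e : rho m ((y + 4) / 3 / 2 ^ (m + 1)) = y := by unfold rho; field_simp; ring
    have i : rho m ((y + 4) / 3 / 2 ^ (m + 1)) ∈ Ioo (-1) 2 :=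
      e.symm ▸ ⟨by linarith [h3.1], by linarith [h3.2]⟩
    refine ⟨_, Ioo_subset_Icc_self (rho_in i), fun b => ?_⟩
    have u : bump y = 1 := by
      rw [bump, min_eq_left (le_min (by linarith [h3.1]) (by linarith [h3.2]))]; simp
    rw [fz_in i, e, h4, u]
    rcases lt_trichotomy b m with c | rfl | c
    · simp [c.ne, c.not_gt, show b ∉ B from fun e => c.not_ge (h2 b e)]
    · simp [h1]
    · simp [c.ne', c]

end Pool.Agent.H41.Wnc
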