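import Pool.Agent.H41.WncDefs

set_option autoImplicit false

namespace Pool.Agent.H41.Wnc

variable (H : Type*) [NormedAddCommGroup H] [InnerProductSpace ℂ H]

/-- The space `K(H)` of compact operators on `H`, with the operator norm. -/
def KH : Type _ := compactOperator (RingHom.id ℂ) H H

noncomputable instance : NormedAddCommGroup (KH H) :=
  inferInstanceAs (NormedAddCommGroup (compactOperator (RingHom.id ℂ) H H))

noncomputable instance : NormedSpace ℂ (KH H) :=
  inferInstanceAs (NormedSpace ℂ (compactOperator (RingHom.id ℂ) H H))

end Pool.Agent.H41.Wnc
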