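import Pool.Agent.H41.Wnc1
import Pool.Agent.H41.WncKDefs

set_option autoImplicit false

namespace Pool.Agent.H41.Wnc

open Metric NormedSpace Filter Set Bornology InnerProductSpace
open scoped ENNReal NNReal Topology

section
variable {X : Type*} [NormedAddCommGroup X] [NormedSpace ℂ X] {ι : Type*} {A : Set X}

lemma wck_le (hA : IsBounded A) : wck A ≤ wk A := iSup₂_le fun x hx => by
  obtain ⟨R, hR⟩ := isBounded_iff_forall_norm_le.1 hA
  obtain ⟨z, -, hz⟩ := (WeakDual.isCompact_closedBall (0 : StrongDual ℂ (StrongDual ℂ X))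
    R).exists_mapClusterPt (f := atTop) (u := fun n => jw (x n)) (le_principal_iff.2 (mem_map.2
      (univ_mem' fun n => mem_closedBall_zero_iff.2 ((double_dual_bound ℂ X _).trans (hR _ (hx n))))))
  exact iInf₂_le_of_le z hz (le_iSup₂_of_le z (mem_closure_iff_clusterPt.2 (hz.clusterPt.mono
    (le_principal_iff.2 (mem_map.2 (univ_mem' fun n => mem_image_of_mem _ (hx n)))))) le_rfl)

lemma wk_le : wk A ≤ om A := iSup₂_le fun z hz => le_iInf₂ fun K hK => not_lt.1 fun e => by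
  obtain ⟨r, h1, h2⟩ := ENNReal.lt_iff_exists_nnreal_btwn.1 e
  have : ∀ a : A, ∃ y ∈ K, edist a.1 y < r := fun a =>
    infEDist_lt_iff.1 ((le_iSup₂_of_le a.1 a.2 le_rfl).trans_lt h1)
  choose y h3 h4 using this
  obtain ⟨U, -, hU⟩ := clos (f := ((↑) : A → X)) (S := univ) (by simpa using hz)
  obtain ⟨g, -, hg⟩ := wlim hK U y h3
  refine h2.not_ge (dX_le g fun φ => le_of_tendsto' ((hU φ).sub (hg φ)).norm fun a => ?_)
  rw [← map_sub, mul_comm]
  exact φ.le_opNorm_of_le (dist_eq_norm a.1 _ ▸ (edist_lt_coe.1 (h4 a)).le)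

lemma le_wck {U : Filter ι} [U.NeBot] {f : ι → X} (hf : ∀ᶠ i in U, f i ∈ A) {φ : ℕ → StrongDual ℂ X}
    (h1 : ∀ m, ‖φ m‖ ≤ 1) (h2 : ∀ g, Tendsto (fun m => φ m g) atTop (𝓝 0)) {r : ℝ}
    (h3 : ∀ m, ∀ᶠ i in U, r ≤ ‖φ m (f i)‖) : ENNReal.ofReal r ≤ wck A := by
  choose i h4 h5 using fun j => (hf.and ((eventually_all_finset (Finset.range j)).2
    fun m _ => h3 m)).exists
  refine le_iSup₂_of_le (fun j => f (i j)) h4 (le_iInf₂ fun z hz => le_infEDist.2 ?_)
  rintro _ ⟨g, rfl⟩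
  obtain ⟨V, hV, hz⟩ := mapClusterPt_iff_ultrafilter.1 hz
  rw [edist_dist, dist_eq_norm]
  refine ENNReal.ofReal_le_ofReal (le_of_tendsto' (by simpa using (h2 g).norm.const_sub r) fun m => ?_)
  have h6 : r ≤ ‖z (φ m)‖ := ge_of_tendsto (((WeakDual.eval_continuous (φ m)).tendsto _).comp hz).norm
    (((eventually_gt_atTop m).filter_mono hV).mono fun j hj => h5 j m (Finset.mem_range.2 hj))
  have h7 := (WeakDual.toStrongDual z - inclusionInDoubleDual ℂ X g).unit_le_opNorm _ (h1 m)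
  have h8 := norm_sub_norm_le (z (φ m)) (φ m g)
  exact (sub_le_sub_right h6 _).trans (h8.trans h7)

end

variable {H : Type*} [NormedAddCommGroup H] [InnerProductSpace ℂ H]

lemma QW {W : H →L[ℂ] H} (hW : IsCompactOperator W) {Q : ℕ → H →L[ℂ] H} (h1 : ∀ n, ‖Q n‖ ≤ 1)
    (h2 : ∀ x, Tendsto (Q · x) atTop (𝓝 0)) : Tendsto (fun n => ‖Q n * W‖) atTop (𝓝 0) := by
  obtain ⟨K, hK, h3⟩ := hW.image_closedBall_subset_compact (f := W.toLinearMap) 1
  refine (tendsto_iff_ultrafilter _ _ _).2 fun U hU => tendsto_order.2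
    ⟨fun a ha => .of_forall fun n => ha.trans_le (norm_nonneg _), fun a ha => ?_⟩
  have : ∀ n, ∃ x, ‖x‖ ≤ 1 ∧ ‖Q n * W‖ - a / 2 < ‖(Q n * W) x‖ := fun n =>
    ((Q n * W).exists_lt_apply_of_lt_opNorm (by linarith)).imp fun x h => ⟨h.1.le, h.2⟩
  choose x h4 h5 using this
  obtain ⟨y, -, hy⟩ := hK.ultrafilter_le_nhds' (U.map fun n => W (x n))
    (Ultrafilter.mem_map.2 (univ_mem' fun n => h3 ⟨x n, by simpa using h4 n, rfl⟩))
  have t := ((tendsto_iff_norm_sub_tendsto_zero.1 (show Tendsto (fun n => W (x n)) U (𝓝 y) from hy)).add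
    ((h2 y).mono_left hU).norm).eventually (gt_mem_nhds (a := a / 2) (by simpa using ha))
  refine t.mono fun n hn => ?_
  have := norm_add_le (Q n (W (x n) - y)) (Q n y)
  rw [← map_add, sub_add_cancel] at this
  have h6 := (Q n).le_of_opNorm_le (h1 n) (W (x n) - y)
  have h7 : _ < ‖Q n (W (x n))‖ := h5 n
  linarith

abbrev CO (H : Type*) [NormedAddCommGroup H] [InnerProductSpace ℂ H] :=
  compactOperator (RingHom.id ℂ) H H

noncomputable def inc : KH H →L[ℂ] H →L[ℂ] H := (CO H).subtypeL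

lemma inc_n (T : KH H) : ‖inc T‖ = ‖T‖ := rfl

lemma r1 (x y : H) : rankOne ℂ x y ∈ CO H :=
  (isCompactOperator_of_locallyCompactSpace_dom (innerSL ℂ y)).clm_comp
    (ContinuousLinearMap.toSpanSingleton ℂ x)

def mkK (T : H →L[ℂ] H) (h : T ∈ CO H) : KH H := ⟨T, h⟩

noncomputable def vf (x y : H) : StrongDual ℂ (KH H) :=
  innerSL ℂ x ∘L ContinuousLinearMap.apply ℂ H y ∘L inc

lemma vf_ap (x y : H) (T : KH H) : vf x y T = inner ℂ x (inc T y) := rfl

lemma in_le {x y : H} (hx : ‖x‖ ≤ 1) (hy : ‖y‖ ≤ 1) (T : H →L[ℂ] H) : ‖inner ℂ x (T y)‖ ≤ ‖T‖ :=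
  (norm_inner_le_norm x (T y)).trans ((mul_le_mul hx (T.unit_le_opNorm y hy) (norm_nonneg _)
    zero_le_one).trans_eq (one_mul _))

lemma vf_le {x y : H} (hx : ‖x‖ ≤ 1) (hy : ‖y‖ ≤ 1) : ‖vf x y‖ ≤ 1 :=
  ContinuousLinearMap.opNorm_le_bound _ zero_le_one fun _ => (in_le hx hy _).trans_eq (one_mul _).symm

def OK {Y : Type} (c : Y → ℕ → Bool) (D k : ℕ) (e : Finset Y) : Prop :=
  e.card = D ∧ ∀ y ∈ e, ∀ y' ∈ e, ∀ i < k, c y i = c y' i

variable {Y : Type} {c : Y → ℕ → Bool} {D : ℕ}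

lemma ok_ex {Z : Set Y} (hZ : Z.Infinite) (k : ℕ) :
    ∃ z : ℕ → Y, (∀ i, z i ∈ Z) ∧ ∃ e, OK c D k e ∧ ∀ y ∈ e, ∃ i < D, z i = y := by
  classical
  have := hZ.to_subtype
  obtain ⟨b, hb⟩ := Finite.exists_infinite_fiber fun (y : Z) (i : Fin k) => c y i
  let z := @Infinite.natEmbedding _ hb
  have inj : Function.Injective fun i => (z i).1.1 :=
    Subtype.val_injective.comp (Subtype.val_injective.comp z.injective)
  refine ⟨fun i => (z i).1.1, fun i => (z i).1.2, (Finset.range D).image fun i => (z i).1.1,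
    ⟨by rw [Finset.card_image_of_injective _ inj, Finset.card_range], ?_⟩, by simp⟩
  simp only [Finset.forall_mem_image]
  exact fun i _ j _ l hl => congrFun ((z i).2.trans (z j).2.symm) ⟨l, hl⟩

lemma comb [Uncountable Y] (sel : ℕ → (ℕ → Finset Y) → ℕ → Y)
    (hs : ∀ k E, (∀ j < k, OK c D k (E j)) → ∀ j < k, sel k E j ∈ E j) :
    ∃ p : ℕ → ℕ × Y, (∀ i, i ≤ (p i).1) ∧ ∀ m, ∃ k E, (∀ j < k, OK c D k (E j)) ∧
      ∀ i < m, (p i).1 < k ∧ sel k E (p i).1 = (p i).2 := by
  classical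
  let Dm := fun t : Finset (ℕ × Y) => ∀ J : Set ℕ, J.Infinite → ∃ (s : ℕ) (C : Finset ℕ), ↑C ⊆ J ∧
    ∀ k ≥ s, ∃ E0 : ℕ → Finset Y, (∀ j ∈ C, OK c D k (E0 j)) ∧ ∀ E, (∀ j < k, OK c D k (E j)) →
      (∀ j ∈ C, E j = E0 j) → ∃ p ∈ t, sel k E p.1 ≠ p.2
  have h0 : ¬ Dm ∅ := fun h => by
    obtain ⟨s, C, -, h⟩ := h univ infinite_univ
    obtain ⟨E0, h1, h2⟩ := h s le_rfl
    obtain ⟨-, -, e, h3, -⟩ := ok_ex (c := c) (D := D) infinite_univ s
    simpa using h2 (fun j => if j ∈ C then E0 j else e)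
      (fun j _ => by split_ifs with h; exacts [h1 j h, h3]) fun j h => if_pos h
  have h1 : ∀ t b, ¬ Dm t → ∃ p : ℕ × Y, b ≤ p.1 ∧ ¬ Dm (insert p t) := fun t b ht => by
    by_contra! h
    refine ht fun J hJ => ?_
    obtain ⟨j, hj, hb⟩ := hJ.exists_gt b
    let e := (hJ.sdiff (finite_singleton j)).natEmbedding _
    have ei : Function.Injective fun n => (e n).1 := Subtype.val_injective.comp e.injective
    choose! s C hC E0 h1 h2 using fun y i => h (j, y) hb.le (range fun n => (e (Nat.pair i n)).1)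
      (infinite_range_of_injective fun n m h => (Nat.pair_eq_pair.1 (ei h)).2)
    obtain ⟨d, hd⟩ : ∃ d, ((fun y (i : Fin D) => (s y i, C y i)) ⁻¹' {d}).Infinite := by
      by_contra! h
      exact not_countable_univ ((countable_iUnion fun d => (h d).countable).mono fun y _ =>
        mem_iUnion.2 ⟨fun i : Fin D => (s y i, C y i), rfl⟩)
    have hc : ∀ y ∈ (fun y (i : Fin D) => (s y i, C y i)) ⁻¹' {d}, ∀ i : Fin D,
      s y i = (d i).1 ∧ C y i = (d i).2 := fun y hy i => Prod.ext_iff.1 (congrFun hy i)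
    obtain ⟨y0, hy0⟩ := hd.nonempty
    refine ⟨j + 1 + ∑ i, (d i).1, insert j (Finset.univ.biUnion fun i => (d i).2), fun l hl => ?_,
      fun k hk => ?_⟩
    · simp only [Finset.coe_insert, mem_insert_iff, Finset.mem_coe, Finset.mem_biUnion] at hl
      rcases hl with rfl | ⟨i, -, hl⟩
      · exact hj
      · obtain ⟨n, rfl⟩ := hC y0 i ((hc y0 hy0 i).2 ▸ hl)
        exact (e _).2.1
    obtain ⟨z, hz, e0, h3, h4⟩ := ok_ex (c := c) (D := D) hd k
    let ix := fun l => (Function.invFun (fun n => (e n).1) l).unpair.1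
    let F := fun l => if l = j then e0 else E0 (z (ix l)) (ix l) k l
    have hk' : ∀ i : Fin D, k ≥ s (z i) i := fun i => (hc _ (hz i) i).1.trans_le
      ((Finset.single_le_sum (f := fun i => (d i).1) (fun _ _ => zero_le) (Finset.mem_univ i)).trans
        (le_add_self.trans hk))
    have hF : ∀ i : Fin D, ∀ l ∈ C (z i) i, F l = E0 (z i) i k l := fun i l hl => by
      obtain ⟨n, rfl⟩ := hC _ _ hl
      simp only [F, ix, Function.leftInverse_invFun ei _, Nat.unpair_pair]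
      exact if_neg (e _).2.2
    refine ⟨F, fun l hl => ?_, fun E h5 h6 => ?_⟩
    · rcases Finset.mem_insert.1 hl with rfl | hl
      · simpa only [F, if_pos] using h3
      · obtain ⟨i, -, hl⟩ := Finset.mem_biUnion.1 hl
        rw [← (hc _ (hz i) i).2] at hl
        exact hF i l hl ▸ h1 _ _ k (hk' i) l hl
    · obtain ⟨i, hi, h7⟩ := h4 _ ((h6 j (by simp)).trans (if_pos rfl) ▸ hs k E h5 j (by omega))
      obtain ⟨p, h8, h9⟩ := h2 _ _ k (hk' ⟨i, hi⟩) E h5 fun l hl => (h6 l (Finset.mem_insert_of_mem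
        (Finset.mem_biUnion.2 ⟨⟨i, hi⟩, by simp, (hc _ (hz i) ⟨i, hi⟩).2 ▸ hl⟩))).trans (hF ⟨i, hi⟩ l hl)
      exact ⟨p, (Finset.mem_insert.1 h8).resolve_left fun e => h9 (e ▸ h7.symm), h9⟩
  choose! q h2 h3 using h1
  let t : ℕ → Finset (ℕ × Y) := Nat.rec ∅ fun m t => insert (q t m) t
  have h4 : ∀ m, ¬ Dm (t m) := Nat.rec h0 fun m h => h3 _ m h
  have h5 : Monotone t := monotone_nat_of_le_succ fun m => Finset.subset_insert _ _
  refine ⟨fun m => q (t m) m, fun m => h2 _ m (h4 m), fun m => ?_⟩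
  by_contra! h
  refine h4 m fun J _ => ⟨∑ i ∈ Finset.range m, ((q (t i) i).1 + 1), ∅, by simp, fun k hk =>
    ⟨fun _ => ∅, by simp, fun E hE _ => ?_⟩⟩
  obtain ⟨i, hi, h6⟩ := h k E hE
  exact ⟨_, h5 (Nat.succ_le_of_lt hi) (Finset.mem_insert_self _ _), h6 (Nat.lt_of_succ_le
    ((Finset.single_le_sum (f := fun i => (q (t i) i).1 + 1) (fun _ _ => zero_le)
      (Finset.mem_range.2 hi)).trans hk))⟩

section
variable {u : ℕ → H} {w : ℕ × Y → H}

noncomputable def TF (u : ℕ → H) (w : ℕ × Y → H) (F : Finset (ℕ × Y)) : KH H :=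
  ∑ p ∈ F, mkK (rankOne ℂ (u p.1) (w p)) (r1 _ _)

lemma TF_ap (F : Finset (ℕ × Y)) (x y : H) :
    inner ℂ x (inc (TF u w F) y) = ∑ p ∈ F, inner ℂ (w p) y * inner ℂ x (u p.1) := by
  rw [TF, map_sum, sum_apply, inner_sum]
  exact Finset.sum_congr rfl fun p _ => inner_smul_right ..

lemma TF_le (hu : Orthonormal ℂ u) (hw : Orthonormal ℂ w) {F : Finset (ℕ × Y)} {m : ℕ}
    (h : ∀ j, (F.filter (·.1 = j)).card ≤ m) : ‖TF u w F‖ ≤ √m := by
  refine ContinuousLinearMap.opNorm_le_of_re_inner_le (T := inc _) (by positivity) fun x y hx hy => ?_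
  refine (RCLike.re_le_norm _).trans ?_
  rw [norm_inner_symm, TF_ap]
  refine (norm_sum_le _ _).trans (Real.le_sqrt_of_sq_le ?_)
  simp only [norm_mul, norm_inner_symm y]
  refine (Finset.sum_mul_sq_le_sq_mul_sq ..).trans ((mul_le_mul (hw.sum_inner_products_le x) ?_
    (by positivity) (by positivity)).trans_eq (b := ‖x‖ ^ 2 * (m * ‖y‖ ^ 2)) (by simp [hx, hy]))
  rw [← Finset.sum_fiberwise_of_maps_to fun p hp => Finset.mem_image_of_mem Prod.fst hp]
  refine (Finset.sum_le_sum fun j _ => ?_).trans ((Finset.mul_sum ..).symm.trans_le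
    (mul_le_mul_of_nonneg_left (hu.sum_inner_products_le y) m.cast_nonneg))
  rw [Finset.sum_congr rfl fun p hp => by rw [(Finset.mem_filter.1 hp).2], Finset.sum_const,
    nsmul_eq_mul]
  gcongr
  exact h j

theorem nonsep [Uncountable Y] (hc : Function.Injective c) (hu : Orthonormal ℂ u)
    (hw : Orthonormal ℂ w) (D : ℕ) :
    ∃ A : Set (KH H), IsBounded A ∧ wk A ≤ 1 ∧ ENNReal.ofReal √D ≤ om A := by
  classical
  let FF := fun G : ℕ × (ℕ → Finset Y) => (Finset.range G.1).biUnion fun j => {j} ×ˢ G.2 j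
  have m : ∀ G p, p ∈ FF G ↔ p.1 < G.1 ∧ p.2 ∈ G.2 p.1 := fun G p => by
    simp only [FF, Finset.mem_biUnion, Finset.mem_range, Finset.mem_product, Finset.mem_singleton]
    exact ⟨fun ⟨j, h1, h2, h3⟩ => h2 ▸ ⟨h1, h3⟩, fun h => ⟨_, h.1, rfl, h.2⟩⟩
  have cd : ∀ G : ℕ × (ℕ → Finset Y), (∀ j < G.1, OK c D G.1 (G.2 j)) → ∀ j,
      ((FF G).filter (·.1 = j)).card ≤ D := fun G h j => by
    by_cases e : j < G.1
    · refine (Finset.card_le_card_of_injOn Prod.snd (fun p hp => ?_) fun p hp q hq e => ?_).trans_eq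
        (h j e).1
      · simp only [Finset.coe_filter, m, mem_ofPred_eq] at hp
        exact hp.2 ▸ hp.1.2
      · simp only [Finset.coe_filter, mem_ofPred_eq] at hp hq
        exact Prod.ext (hp.2.trans hq.2.symm) e
    · exact (Finset.card_eq_zero.2 (Finset.filter_eq_empty_iff.2 fun p hp (e' : p.1 = j) =>
        e (e' ▸ ((m G p).1 hp).1))).trans_le zero_le
  refine ⟨(fun G => TF u w (FF G)) '' {G | ∀ j < G.1, OK c D G.1 (G.2 j)},
    isBounded_iff_forall_norm_le.2 ⟨√D, ?_⟩, iSup₂_le fun z hz => ?_, le_om fun K hK δ hδ h => ?_⟩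
  · rintro _ ⟨G, h, rfl⟩
    exact TF_le hu hw (cd G h)
  · obtain ⟨U, hS, hU⟩ := clos hz
    let S := {p | ∀ᶠ G in U, p ∈ FF G}
    obtain ⟨g, hg⟩ : ∃ g, ∀ᶠ G in U, ‖TF u w ((FF G).filter (· ∈ S)) - g‖ ≤ 1 := by
      by_cases e : ∃ k, ∀ᶠ G : ℕ × (ℕ → Finset Y) in U, G.1 = k
      · obtain ⟨k, e⟩ := e
        have f : S.Finite := by
          by_contra f
          obtain ⟨t, h1, h2⟩ := Set.Infinite.exists_subset_card_eq f (D * k + 1)
          obtain ⟨G, ⟨h3, h4⟩, h5⟩ := ((e.and hS).and ((eventually_all_finset t).2 h1)).exists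
          have := (Finset.card_le_card h5).trans (Finset.card_le_mul_card_image_of_maps_to
            (t := Finset.range k) (f := Prod.fst) (fun p hp => by simpa [h3] using ((m G p).1 hp).1) D
              fun j _ => cd G h4 j)
          simp [h2] at this
        refine ⟨TF u w f.toFinset, ((eventually_all_finite f).2 fun p h => h).mono fun G h => ?_⟩
        rw [show (FF G).filter (· ∈ S) = f.toFinset by ext p; simpa using h p]
        simp
      · refine ⟨0, .of_forall fun G => ?_⟩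
        rw [sub_zero]
        refine (TF_le hu hw (m := 1) fun j => Finset.card_le_one.2 fun p hp q hq => ?_).trans (by simp)
        simp only [Finset.mem_filter] at hp hq
        have e1 := hp.2.trans hq.2.symm
        refine Prod.ext e1 (hc (funext fun i => ?_))
        obtain ⟨G, ⟨h1, h2, h3⟩, h4⟩ := ((Eventually.and hS (hp.1.2.and hq.1.2)).and
          ((eventually_all_finset (Finset.range (i + 1))).2 fun k _ =>
            Ultrafilter.eventually_not.2 fun h => e ⟨k, h⟩)).exists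
        rw [m] at h2 h3
        exact (h1 _ h2.1).2 _ h2.2 _ (e1 ▸ h3.2) i (not_le.1 fun h =>
          h4 _ (Finset.mem_range_succ_iff.2 h) rfl)
    refine dX_le (c := 1) g fun φ => avg (U := U) (h := fun G => TF u w (FF G) - g) (C := √D)
      (by positivity) (fun N s => ∃ F, (∀ p ∈ F, p ∉ S) ∧ (∀ j, (F.filter (·.1 = j)).card ≤ N * D) ∧
        ‖s - TF u w F‖ ≤ N) ⟨∅, by simp [TF]⟩ ?_ ?_ (by simpa using (hU φ).sub_const (φ g))
    · rintro N s ⟨F, h1, h2, h3⟩
      filter_upwards [hS, hg, (eventually_all_finset F).2 fun p hp =>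
        Ultrafilter.eventually_not.2 (h1 p hp)] with G h4 h5 h6
      refine ⟨F ∪ (FF G).filter (· ∉ S), fun p hp => (Finset.mem_union.1 hp).elim (h1 p)
        fun h => (Finset.mem_filter.1 h).2, fun j => ?_, ?_⟩
      · rw [Finset.filter_union, add_one_mul, Finset.filter_comm]
        exact (Finset.card_union_le _ _).trans (add_le_add (h2 j)
          ((Finset.card_filter_le _ _).trans (cd G h4 j)))
      · have : s + (TF u w (FF G) - g) - TF u w (F ∪ (FF G).filter (· ∉ S)) =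
            s - TF u w F + (TF u w ((FF G).filter (· ∈ S)) - g) := by
          unfold TF
          rw [Finset.sum_union (Finset.disjoint_left.2 fun p hp h => h6 p hp (Finset.mem_filter.1 h).1),
            ← Finset.sum_filter_add_sum_filter_not (FF G) (· ∈ S)]
          abel
        rw [this, Nat.cast_succ]
        exact (norm_add_le _ _).trans (add_le_add h3 h5)
    · rintro N s ⟨F, -, h2, h3⟩
      have := TF_le hu hw h2
      rw [Nat.cast_mul, Real.sqrt_mul' _ D.cast_nonneg] at this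
      have h4 := norm_le_norm_add_norm_sub' s (TF u w F)
      have := Real.sqrt_nonneg D
      push_cast
      linarith
  · have ok : ∀ k, ∃ e, OK c D k e := fun k => by
      obtain ⟨-, -, e, h, -⟩ := ok_ex (c := c) (D := D) infinite_univ k
      exact ⟨e, h⟩
    choose! g h1 h2 using fun G hG => h _ ⟨G, hG, rfl⟩
    have δ0 : 0 ≤ δ := (norm_nonneg _).trans (h2 (0, fun _ => ∅) (by simp))
    have D0 : 0 < √D := δ0.trans_lt hδ
    have : ∀ k E j, ∃ y, (∀ j < k, OK c D k (E j)) → j < k →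
        y ∈ E j ∧ 1 - δ / √D ≤ ‖vf (u j) (w (j, y)) (g (k, E))‖ := fun k E j => by
      by_contra! h3
      obtain ⟨y0⟩ : Nonempty Y := inferInstance
      obtain ⟨h4, h5, -⟩ := h3 y0
      have h6 : ‖∑ y ∈ E j, w (j, y)‖ ≤ √D := Real.le_sqrt_of_sq_le (by
        have := (hw.comp (fun y => (j, y)) (Prod.mk_right_injective j)).inner_sum 1 1 (E j)
        simp only [Pi.one_apply, one_smul, Function.comp, inner_self_eq_norm_sq_to_K, map_one, mul_one,
          Finset.sum_const, (h4 j h5).1, nsmul_one] at this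
        exact (Complex.ofReal_injective (by push_cast; exact this)).le)
      have h7 := (norm_inner_le_norm (𝕜 := ℂ) (u j) _).trans (mul_le_mul (hu.1 j).le
        ((inc (TF u w (FF (k, E)) - g (k, E))).le_of_opNorm_le_of_le (h2 (k, E) h4) h6)
        (norm_nonneg _) zero_le_one)
      have h8 : ∀ y ∈ E j, δ / √D < (inner ℂ (u j)
          (inc (TF u w (FF (k, E)) - g (k, E)) (w (j, y)))).re := fun y hy => by
        rw [map_sub, sub_apply, inner_sub_right, TF_ap,
          Finset.sum_eq_single_of_mem (j, y) ((m _ _).2 ⟨h5, hy⟩) fun p _ e => by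
            rw [hw.2 e, zero_mul]]
        have := ((h3 y).2.2 hy).trans_le' (Complex.re_le_norm _)
        simp only [inner_self_eq_norm_sq_to_K, hu.1 j, hw.1 (j, y), vf_ap] at this ⊢
        simpa [lt_sub_comm] using this
      have h9 := Finset.sum_lt_sum_of_nonempty (Finset.card_pos.1 ((h4 j h5).1 ▸ (by simpa using D0))) h8
      rw [← Complex.re_sum, ← inner_sum, ← map_sum, Finset.sum_const, (h4 j h5).1, nsmul_eq_mul] at h9
      have := (h9.trans_le (Complex.re_le_norm _)).trans_le h7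
      rw [mul_div_assoc', mul_comm, mul_div_assoc, Real.div_sqrt, one_mul] at this
      exact this.false
    choose sel hs using this
    obtain ⟨p, h3, h4⟩ := comb sel fun k E h j hj => (hs k E j h hj).1
    choose k E h5 h6 using h4
    obtain ⟨S, -, hS⟩ := wlim hK (hyperfilter ℕ) (fun m => g (k m, E m)) fun m => h1 _ (h5 m)
    have h7 := QW S.2 (Q := fun i => rankOne ℂ (u (p i).1) (u (p i).1)) (fun i => by simp [hu.1])
      fun x => tendsto_zero_iff_norm_tendsto_zero.2 (by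
        have := ((hu.inner_products_summable x).tendsto_atTop_zero.comp
          (tendsto_atTop_mono h3 tendsto_id)).sqrt
        simpa [norm_smul, hu.1, Function.comp_def] using this)
    refine (sub_pos.2 ((div_lt_one D0).2 hδ)).not_ge (ge_of_tendsto' h7 fun i => ?_)
    refine (ge_of_tendsto (hS (vf (u (p i).1) (w (p i)))).norm (((eventually_gt_atTop i).filter_mono
      Nat.hyperfilter_le_atTop).mono fun m hm => ?_)).trans ?_
    · have := (hs (k m) (E m) _ (h5 m) (h6 m i hm).1).2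
      rwa [(h6 m i hm).2] at this
    · refine le_trans (le_of_eq ?_) (in_le (hu.1 (p i).1).le (hw.1 (p i)).le _)
      simp [vf_ap, hu.1]
      rfl

end

end Pool.Agent.H41.Wnc
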