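import Pool.Agent.H41.Wnc3

set_option autoImplicit false

namespace Pool.Agent.H41.Wnc

open Metric NormedSpace Filter Set Bornology InnerProductSpace
open scoped ENNReal NNReal Topology

variable {H : Type*} [NormedAddCommGroup H] [InnerProductSpace ℂ H] [CompleteSpace H] {ι : Type*}

lemma wot (U : Ultrafilter ι) (T : ι → H →L[ℂ] H) {R : ℝ} (h : ∀ i, ‖T i‖ ≤ R) :
    ∃ W : H →L[ℂ] H, ∀ x y, Tendsto (fun i => inner ℂ x (T i y)) U (𝓝 (inner ℂ x (W y))) := by
  choose ψ h1 h2 using fun y => dlim U (fun i => innerSL ℂ (T i y)) (r := R * ‖y‖)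
    fun i => (innerSL_apply_norm ℂ _).trans_le ((T i).le_of_opNorm_le (h i) y)
  have k : ∀ x y, Tendsto (fun i => inner ℂ x (T i y)) U (𝓝 (inner ℂ x ((toDual ℂ H).symm (ψ y)))) :=
    fun x y => by
      have := (h2 y x).star
      rw [← toDual_symm_apply (𝕜 := ℂ)] at this
      simpa only [innerSL_apply_apply, RCLike.star_def, inner_conj_symm] using this
  exact ⟨LinearMap.mkContinuous ⟨⟨fun y => (toDual ℂ H).symm (ψ y), fun y z => ext_inner_left ℂ fun x =>
    tendsto_nhds_unique (k x _) (by simpa [inner_add_right] using (k x y).add (k x z))⟩,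
    fun r y => ext_inner_left ℂ fun x => tendsto_nhds_unique (k x _)
      (by simpa [inner_smul_right] using (k x y).const_mul r)⟩ R fun y => by simpa using h1 y, k⟩

lemma orth {P D a : H →L[ℂ] H} (v : H →L[ℂ] H) (hP : star P = P) (hD : P * D = 0) (ha : P * a = a) :
    ‖a + D * v‖ ^ 2 ≤ ‖a‖ ^ 2 + ‖D * v‖ ^ 2 := by
  have h : star a * (D * v) = 0 := by
    rw [← ha, star_mul, hP, mul_assoc, ← mul_assoc P, hD, zero_mul, mul_zero]
  have h' : star (D * v) * a = 0 := by simpa using congrArg star h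
  simp only [sq, ← CStarRing.norm_star_mul_self]
  rw [star_add, add_mul, mul_add, mul_add, h, h', add_zero, zero_add]
  exact norm_add_le _ _

variable (e : HilbertBasis ℕ ℂ H)

noncomputable def PP (B : Finset ℕ) : H →L[ℂ] H := ∑ p ∈ B, rankOne ℂ (e p) (e p)

lemma PP_ap (B : Finset ℕ) (x : H) : PP e B x = ∑ p ∈ B, inner ℂ (e p) x • e p := by
  simp [PP]

lemma PP_star (B : Finset ℕ) : star (PP e B) = PP e B := by
  simp [PP, ContinuousLinearMap.star_eq_adjoint]

lemma PP_in (B : Finset ℕ) (x y : H) : inner ℂ (PP e B x) y = inner ℂ x (PP e B y) := by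
  rw [← ContinuousLinearMap.adjoint_inner_right, ← ContinuousLinearMap.star_eq_adjoint, PP_star]

lemma PP_e (B : Finset ℕ) (q : ℕ) : PP e B (e q) = if q ∈ B then e q else 0 := by
  simp [PP_ap, orthonormal_iff_ite.1 e.orthonormal]

lemma PP_mul (B C : Finset ℕ) : PP e B * PP e C = PP e (C ∩ B) := by
  ext x
  simp [PP_ap e C, PP_e, PP_ap e (C ∩ B)]

lemma PP_sp (B : Finset ℕ) : IsStarProjection (PP e B) :=
  ⟨(PP_mul ..).trans (by simp), PP_star e B⟩

lemma PP_c (B : Finset ℕ) (S T : H →L[ℂ] H) : S * PP e B * T ∈ CO H :=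
  (IsCompactOperator.clm_comp (Submodule.sum_mem (CO H) fun _ _ => r1 _ _) S).comp_clm T

lemma ent (B C : Finset ℕ) (T : H →L[ℂ] H) (p q : ℕ) : inner ℂ (e p) ((PP e B * T * PP e C) (e q)) =
    if p ∈ B ∧ q ∈ C then inner ℂ (e p) (T (e q)) else 0 := by
  simp only [mul_apply_eq_comp, ← PP_in, PP_e]
  by_cases h : p ∈ B <;> by_cases h' : q ∈ C <;> simp [h, h']

lemma ent0 {T : H →L[ℂ] H} (h : ∀ p q, inner ℂ (e p) (T (e q)) = 0) : T = 0 := by
  have k : ∀ q, T (e q) = 0 := fun q => (e.hasSum_repr _).unique (by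
    simp [e.repr_apply_apply, h])
  ext x
  exact ((e.hasSum_repr x).mapL T).unique (by simp [k])

lemma corner {U : Filter ι} {T : ι → H →L[ℂ] H} {W : H →L[ℂ] H} (B : Finset ℕ)
    (h : ∀ p q, Tendsto (fun i => inner ℂ (e p) (T i (e q))) U (𝓝 (inner ℂ (e p) (W (e q))))) :
    Tendsto (fun i => PP e B * T i * PP e B) U (𝓝 (PP e B * W * PP e B)) := by
  have k : ∀ T : H →L[ℂ] H, PP e B * T * PP e B =
      ∑ p ∈ B, ∑ q ∈ B, inner ℂ (e p) (T (e q)) • rankOne ℂ (e p) (e q) := fun T => by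
    ext x
    simp [PP_ap, Finset.smul_sum, smul_smul, mul_comm, Finset.sum_comm (s := B) (t := B)
      (f := fun p q => (inner ℂ (e p) (T (e q)) * inner ℂ (e q) x) • e p)]
  simp only [k]
  exact tendsto_finsetSum _ fun p _ => tendsto_finsetSum _ fun q _ => (h p q).smul_const _

lemma Q_t {W : H →L[ℂ] H} (hW : W ∈ CO H) :
    Tendsto (fun n => ‖(1 - PP e (.range n)) * W‖) atTop (𝓝 0) :=
  QW hW (fun n => (PP_sp e _).one_sub.norm_le) fun x => by
    simpa [PP_ap, e.repr_apply_apply] using (e.hasSum_repr x).tendsto_sum_nat.const_sub x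

lemma approx {W : H →L[ℂ] H} (hW : W ∈ CO H) {c : ℝ} (hc : 0 < c) :
    ∀ᶠ n in atTop, ‖W - PP e (.range n) * W * PP e (.range n)‖ ≤ c := by
  have t := (Q_t e hW).add (Q_t e (W := star W * W) (IsCompactOperator.clm_comp hW (star W))).sqrt
  rw [Real.sqrt_zero, add_zero] at t
  refine (t.eventually (ge_mem_nhds hc)).mono fun n h => le_trans ?_ h
  have s := PP_sp e (.range n)
  rw [show W - PP e (.range n) * W * PP e (.range n) = (1 - PP e (.range n)) * W +
    PP e (.range n) * (W * (1 - PP e (.range n))) by noncomm_ring]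
  refine (norm_add_le _ _).trans (add_le_add le_rfl ((norm_mul_le _ _).trans
    ((mul_le_of_le_one_left (norm_nonneg _) s.norm_le).trans (Real.le_sqrt_of_sq_le ?_))))
  rw [sq, ← CStarRing.norm_star_mul_self, star_mul, s.one_sub.isSelfAdjoint.star_eq, ← mul_assoc,
    mul_assoc _ (star W)]
  exact (norm_mul_le _ _).trans (mul_le_of_le_one_right (norm_nonneg _) s.one_sub.norm_le)

lemma wnull {U : Filter ι} [U.NeBot] {W : ι → KH H} {R : ℝ} (hR : ∀ i, ‖W i‖ ≤ R)
    (h : ∀ p q, Tendsto (fun i => inner ℂ (e p) (inc (W i) (e q))) U (𝓝 0))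
    {φ : StrongDual ℂ (KH H)} {z : ℂ} (hz : Tendsto (fun i => φ (W i)) U (𝓝 z)) : z = 0 := by
  obtain ⟨i0⟩ := U.nonempty_of_neBot
  have R0 := (norm_nonneg _).trans (hR i0)
  refine norm_le_zero_iff.1 (le_of_forall_pos_le_add fun ε hε => ?_)
  have c0 : 0 < ε / (‖φ‖ + 1) := by positivity
  refine (avg (c := ε / (‖φ‖ + 1)) (C := 2 * R) (by positivity) (fun N s => ∃ n a b,
    PP e (.range n) * a = a ∧ PP e (.range n) * b = b ∧ ‖a‖ ^ 2 ≤ N * R ^ 2 ∧ ‖b‖ ^ 2 ≤ N * R ^ 2 ∧
    ‖inc s - a - star b‖ ≤ ε / (‖φ‖ + 1) * N) ⟨0, 0, 0, by simp⟩ ?_ ?_ hz).trans ?_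
  · rintro N s ⟨n, a, b, h1, h2, h3, h4, h5⟩
    have t := (corner e (W := 0) (.range n) (by simpa using h)).norm
    simp only [mul_zero, zero_mul, norm_zero] at t
    refine (t.eventually (ge_mem_nhds (half_pos c0))).mono fun i hi => ?_
    obtain ⟨m, h6, hm⟩ := ((approx e (W i).2 (half_pos c0)).and (eventually_ge_atTop n)).exists
    have e1 : PP e (.range m) = PP e (.range n) + PP e (.Ico n m) :=
      (Finset.sum_range_add_sum_Ico _ hm).symm
    have e2 : PP e (.range n) * PP e (.Ico n m) = 0 := by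
      rw [PP_mul, Finset.disjoint_iff_inter_eq_empty.1 (by simp [Finset.disjoint_left]; omega)]; rfl
    have e3 : ∀ a v, PP e (.range n) * a = a →
        PP e (.range m) * (a + PP e (.Ico n m) * v) = a + PP e (.Ico n m) * v := fun a v h => by
      rw [mul_add, ← mul_assoc, PP_mul, ← h, ← mul_assoc, PP_mul, Finset.inter_eq_left.2
        (Finset.range_mono hm), Finset.inter_eq_left.2 fun x => by simp]
    have e4 : ∀ a (v : H →L[ℂ] H) B, PP e (.range n) * a = a → ‖a‖ ^ 2 ≤ N * R ^ 2 → ‖v‖ ≤ R →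
        ‖a + PP e (.Ico n m) * (v * PP e B)‖ ^ 2 ≤ (N + 1 : ℕ) * R ^ 2 := fun a v B h h' h'' => by
      refine (orth _ (PP_star ..) e2 h).trans ?_
      rw [Nat.cast_succ, add_one_mul]
      gcongr
      exact (norm_mul_le _ _).trans ((mul_le_of_le_one_left (norm_nonneg _) (PP_sp ..).norm_le).trans
        ((norm_mul_le _ _).trans ((mul_le_of_le_one_right (norm_nonneg _) (PP_sp ..).norm_le).trans h'')))
    refine ⟨m, _, _, e3 a _ h1, e3 b _ h2, e4 a (inc (W i)) (.range m) h1 h3 (hR i),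
      e4 b (star (inc (W i))) (.range n) h2 h4 ((norm_star _).trans_le (hR i)), ?_⟩
    have : inc (s + W i) - (a + PP e (.Ico n m) * (inc (W i) * PP e (.range m))) -
        star (b + PP e (.Ico n m) * (star (inc (W i)) * PP e (.range n))) = inc s - a - star b +
        (inc (W i) - PP e (.range m) * inc (W i) * PP e (.range m) +
          PP e (.range n) * inc (W i) * PP e (.range n)) := by
      simp only [map_add, star_add, star_mul, star_star, PP_star, e1]
      noncomm_ring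
    rw [this, Nat.cast_succ, mul_add_one]
    exact (norm_add_le _ _).trans (add_le_add h5 ((norm_add_le _ _).trans
      ((add_le_add h6 hi).trans_eq (add_halves _))))
  · rintro N s ⟨n, a, b, -, -, h3, h4, h5⟩
    have k : ∀ a : H →L[ℂ] H, ‖a‖ ^ 2 ≤ N * R ^ 2 → ‖a‖ ≤ R * √N := fun a h =>
      (Real.le_sqrt_of_sq_le h).trans_eq (by rw [Real.sqrt_mul' _ (sq_nonneg R), Real.sqrt_sq R0, mul_comm])
    have h1 := norm_le_norm_add_norm_sub' (inc s) a
    have h2 := norm_le_norm_add_norm_sub' (inc s - a) (star b)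
    rw [norm_star] at h2
    rw [inc_n] at h1
    linarith [k a h3, k b h4]
  · rw [zero_add, div_mul_eq_mul_div, div_le_iff₀ (by positivity)]
    gcongr
    simp

noncomputable def ll (t : ℝ) (T : H →L[ℂ] H) : ℕ → ℕ
  | 0 => 0
  | k + 1 => if t < ‖PP e (.Ico (ll t T k) (k + 1)) * T * PP e (.Ico (ll t T k) (k + 1))‖ then k + 1
      else ll t T k

variable (t : ℝ) (T : H →L[ℂ] H)

lemma ll_le (k : ℕ) : ll e t T k ≤ k := by
  induction k with
  | zero => rfl
  | succ k ih => rw [ll]; split_ifs <;> omega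

lemma ll_mono : Monotone (ll e t T) := monotone_nat_of_le_succ fun k => by
  have := ll_le e t T k
  rw [ll]; split_ifs <;> omega

noncomputable def BL (k s : ℕ) : Finset ℕ := (Finset.range k).filter fun p => ll e t T (p + 1) = s ∧ s ≤ p

noncomputable def RR (k : ℕ) : H →L[ℂ] H :=
  ∑ s ∈ .range k, PP e (BL e t T k s) * T * PP e (BL e t T k s)

lemma RR_le (ht : 0 ≤ t) (k : ℕ) : ‖RR e t T k‖ ≤ t := by
  have b : ∀ s, ‖PP e (BL e t T k s) * T * PP e (BL e t T k s)‖ ≤ t := fun s => by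
    rcases (BL e t T k s).eq_empty_or_nonempty with h | h
    · simpa [h, PP]
    obtain ⟨p, h1, h2⟩ := Finset.exists_max_image _ id h
    obtain ⟨h3, h4⟩ := (Finset.mem_filter.1 h1).2
    rw [ll] at h3
    split_ifs at h3 with h5
    · omega
    have u : BL e t T k s ⊆ .Ico s (p + 1) := fun q hq =>
      Finset.mem_Ico.2 ⟨(Finset.mem_filter.1 hq).2.2, Nat.lt_succ_of_le (h2 q hq)⟩
    rw [h3, not_lt] at h5
    nth_rw 2 [← Finset.inter_eq_left.2 u]
    nth_rw 1 [← Finset.inter_eq_right.2 u]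
    rw [← PP_mul, ← PP_mul, mul_assoc, mul_assoc, ← mul_assoc T, ← mul_assoc (PP e (.Ico _ _)),
      ← mul_assoc (PP e (.Ico _ _))]
    exact (norm_mul_le _ _).trans ((mul_le_of_le_one_left (norm_nonneg _) (PP_sp ..).norm_le).trans
        ((norm_mul_le _ _).trans ((mul_le_of_le_one_right (norm_nonneg _) (PP_sp ..).norm_le).trans h5)))
  have s : ∀ x : H, ‖x‖ = 1 → ∑ s ∈ .range k, ‖PP e (BL e t T k s) x‖ ^ 2 ≤ 1 := fun x hx => by
    have : ∀ B, ‖PP e B x‖ ^ 2 = ∑ p ∈ B, ‖inner ℂ (e p) x‖ ^ 2 := fun B => by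
      have := e.orthonormal.inner_sum (fun p => inner ℂ (e p) x) (fun p => inner ℂ (e p) x) B
      simp only [← PP_ap, inner_self_eq_norm_sq_to_K, RCLike.conj_mul] at this
      exact Complex.ofReal_injective (by push_cast; exact this)
    simp only [this]
    rw [← Finset.sum_biUnion (t := BL e t T k) fun s _ s' _ h => Finset.disjoint_filter.2 fun p _ h1 h2 =>
      h (h1.1.symm.trans h2.1)]
    exact (e.orthonormal.sum_inner_products_le x).trans_eq (by simp [hx])
  refine ContinuousLinearMap.opNorm_le_of_re_inner_le ht fun x y hx hy =>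
    (RCLike.re_le_norm _).trans ?_
  rw [RR, sum_apply, sum_inner]
  refine (norm_sum_le _ _).trans ((Finset.sum_le_sum (g := fun s => t / 2 *
    (‖PP e (BL e t T k s) x‖ ^ 2 + ‖PP e (BL e t T k s) y‖ ^ 2)) fun s _ => ?_).trans ?_)
  · have i := (PP_sp e (BL e t T k s)).isIdempotentElem.eq
    have : PP e (BL e t T k s) * T * PP e (BL e t T k s) = PP e (BL e t T k s) *
        (PP e (BL e t T k s) * T * PP e (BL e t T k s)) * PP e (BL e t T k s) := by
      rw [← mul_assoc, ← mul_assoc, i, mul_assoc (_ * T), i]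
    rw [this, mul_apply_eq_comp, mul_apply_eq_comp, PP_in]
    refine (norm_inner_le_norm _ _).trans ((mul_le_mul_of_nonneg_right
      (ContinuousLinearMap.le_of_opNorm_le _ (b s) _) (norm_nonneg _)).trans ?_)
    nlinarith [mul_nonneg ht (sq_nonneg (‖PP e (BL e t T k s) x‖ - ‖PP e (BL e t T k s) y‖))]
  · rw [← Finset.mul_sum, Finset.sum_add_distrib]
    nlinarith [s x hx, s y hy]

lemma RR_ent {k s p q : ℕ} (h1 : ll e t T (p + 1) = s) (h2 : ll e t T (q + 1) = s) (h3 : s ≤ p)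
    (h4 : s ≤ q) : inner ℂ (e p) ((PP e (.range k) * T * PP e (.range k) - RR e t T k) (e q)) = 0 := by
  rw [sub_apply, inner_sub_right, RR, sum_apply, inner_sum, sub_eq_zero, ent,
    Finset.sum_eq_ite s fun s' _ h => by rw [ent, if_neg fun e => h ((Finset.mem_filter.1 e.1).2.1.symm.trans h1)]]
  simp only [ent, BL, Finset.mem_filter, Finset.mem_range, h1, h2, h3, h4, and_true]
  split_ifs with a b
  exacts [rfl, by omega, rfl, rfl]

lemma Q_in (B : Finset ℕ) (x y : H) : inner ℂ ((1 - PP e B) x) y = inner ℂ x ((1 - PP e B) y) := by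
  simp [inner_sub_left, inner_sub_right, PP_in]

lemma fin {A : Set (KH H)} {R r t : ℝ} (hR : ∀ T ∈ A, ‖T‖ ≤ R) (h1 : wck A < ENNReal.ofReal r)
    (h2 : r < t) (U : Ultrafilter A) {d : ℕ → ℕ} (hd : ∀ j, ∀ᶠ a : A in U, ll e t (inc a.1) j = d j) :
    ∃ n, ∀ j ≥ n, d (j + 1) = d j := by
  by_contra! hn
  obtain ⟨W, hW⟩ := wot U (fun a => inc a.1) fun a => hR _ a.2
  have : ∀ m, ∃ x y : H, ‖x‖ ≤ 1 ∧ ‖y‖ ≤ 1 ∧ (1 - PP e (.range m)) x = x ∧
      r < ‖inner ℂ x (W y)‖ := fun m => by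
    obtain ⟨i, hi, h4⟩ := hn m
    obtain ⟨j, hj, h5⟩ := hn (i + 1)
    have h6 : i + 1 ≤ d j := by
      obtain ⟨a, ⟨h6, h7⟩, h8⟩ := (((hd i).and (hd (i + 1))).and (hd j)).exists
      refine h8 ▸ le_trans ?_ (ll_mono _ _ _ hj)
      rw [ll] at h7 ⊢
      split_ifs at h7 ⊢ <;> omega
    obtain ⟨x, h7, h8⟩ := ContinuousLinearMap.exists_lt_apply_of_lt_opNorm _ (h2.trans_le
      (ge_of_tendsto (corner e (.Ico (d j) (j + 1)) fun p q => hW _ _).norm
        (((hd j).and (hd (j + 1))).mono fun a h => by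
          have h7 := h.2
          rw [ll, h.1] at h7
          split_ifs at h7 with h8
          exacts [h8.le, (h5 h7.symm).elim])))
    obtain ⟨φ, h9, h10⟩ := exists_dual_vector'' ℂ
      ((PP e (.Ico (d j) (j + 1)) * W * PP e (.Ico (d j) (j + 1))) x)
    have s := (PP_sp e (.Ico (d j) (j + 1))).norm_le
    refine ⟨PP e (.Ico (d j) (j + 1)) ((toDual ℂ H).symm φ), PP e (.Ico (d j) (j + 1)) x,
      (ContinuousLinearMap.unit_le_opNorm _ _ (by simpa using h9)).trans s,
      (ContinuousLinearMap.unit_le_opNorm _ _ h7.le).trans s, ?_, ?_⟩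
    · rw [sub_apply, ← mul_apply_eq_comp (PP ..), PP_mul,
        Finset.disjoint_iff_inter_eq_empty.1 (by simp [Finset.disjoint_left]; omega)]
      simp [PP]
    · rw [PP_in, toDual_symm_apply]
      exact h8.trans_eq ((congrArg norm h10).trans (by simp)).symm
  choose x y h4 h5 h6 h7 using this
  refine h1.not_ge (le_wck (U := (U : Filter A)) (f := fun a : A => a.1) (.of_forall fun a => a.2) (fun m => vf_le (h4 m) (h5 m))
    (fun g => squeeze_zero_norm (fun m => ?_) (Q_t e g.2)) fun m =>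
    (hW (x m) (y m)).norm.eventually (le_mem_nhds (h7 m)))
  refine le_trans (le_of_eq ?_) (in_le (h4 m) (h5 m) _)
  rw [vf_ap, mul_apply_eq_comp, ← Q_in, h6]
  rfl

lemma lim {A : Set (KH H)} {R R' r t : ℝ} (hR : ∀ T ∈ A, ‖T‖ ≤ R) (h1 : wck A < ENNReal.ofReal r)
    (h2 : r < t) {S : KH H → KH H} (hb : ∀ T ∈ A, ‖S T‖ ≤ R') (hS : ∀ T, ∃ k, inc (S T) =
      PP e (.range k) * inc T * PP e (.range k) - RR e t (inc T) k) (U : Ultrafilter A) :
    ∃ g, ∀ (φ : StrongDual ℂ (KH H)) z, Tendsto (fun a : A => φ (S a)) U (𝓝 z) → φ g = z := by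
  have : ∀ j, ∃ d, ∀ᶠ a : A in U, ll e t (inc a.1) j = d := fun j =>
    ((Ultrafilter.eventually_exists_mem_iff (finite_Iic j)).1
      (.of_forall fun a => ⟨_, ll_le .., rfl⟩)).imp fun _ h => h.2
  choose d hd using this
  obtain ⟨n, hn⟩ := fin e hR h1 h2 U hd
  obtain ⟨W, hW⟩ := wot U (fun a => inc (S a)) fun a => hb _ a.2
  have h4 : ∀ p ≥ n, d (p + 1) = d n := Nat.le_induction (hn n le_rfl) fun p hp h =>
    (hn _ (by omega)).trans h
  have h5 : d n ≤ n := by
    obtain ⟨a, h⟩ := (hd n).exists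
    exact h ▸ ll_le ..
  have h6 : (1 - PP e (.range n)) * W * (1 - PP e (.range n)) = 0 := ent0 e fun p q => by
    rw [mul_apply_eq_comp, mul_apply_eq_comp, ← Q_in, sub_apply, sub_apply, PP_e, PP_e]
    by_cases hp : p < n
    · simp [hp]
    by_cases hq : q < n
    · simp [hq]
    simp only [Finset.mem_range, hp, hq, if_false, sub_zero, one_apply_eq_self]
    refine tendsto_nhds_unique (hW _ _) (tendsto_const_nhds.congr' ?_)
    filter_upwards [hd (p + 1), hd (q + 1)] with a h7 h8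
    obtain ⟨k, hk⟩ := hS a
    rw [hk, RR_ent e t _ (h7.trans (h4 p (by omega))) (h8.trans (h4 q (by omega))) (by omega) (by omega)]
  have h7 : W ∈ CO H := by
    rw [show W = 1 * PP e (.range n) * W + (1 - PP e (.range n)) * W * PP e (.range n) * 1 +
      (1 - PP e (.range n)) * W * (1 - PP e (.range n)) by noncomm_ring, h6, add_zero]
    exact add_mem (PP_c ..) (PP_c ..)
  refine ⟨mkK W h7, fun φ z hz => (sub_eq_zero.1 (wnull e (U := U)
    (W := fun a : A => S a - mkK W h7) (fun a => norm_sub_le_of_le (hb _ a.2) le_rfl)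
    (fun p q => ?_) (φ := φ) (by simpa using hz.sub_const _))).symm⟩
  simp only [map_sub, sub_apply, inner_sub_right]
  exact tendsto_sub_nhds_zero_iff.2 (hW (e p) (e q))

lemma om_le {X : Type*} [NormedAddCommGroup X] [NormedSpace ℂ X] {A : Set X} {S : X → X} {u R : ℝ}
    (hS : ∀ T, ‖T - S T‖ ≤ u) (hb : ∀ T ∈ A, ‖S T‖ ≤ R) (h : ∀ U : Ultrafilter A,
      ∃ g, ∀ (φ : StrongDual ℂ X) z, Tendsto (fun a : A => φ (S a)) U (𝓝 z) → φ g = z) :
    om A ≤ ENNReal.ofReal u := by
  refine iInf₂_le_of_le (toWeakSpace ℂ X ⁻¹' closure (toWeakSpace ℂ X '' (S '' A))) ?_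
    (iSup₂_le fun T hT => le_trans (b := edist T (S T)) (infEDist_le_edist_of_mem
      (mem_preimage.2 (subset_closure (mem_image_of_mem _ (mem_image_of_mem S hT))))) (by
        rw [edist_dist, dist_eq_norm]; exact ENNReal.ofReal_le_ofReal (hS T)))
  rw [WCompact, image_preimage_eq _ (toWeakSpace ℂ _).surjective]
  refine isCompact_closure_of_isBounded ℂ _ _ (by
    rw [preimage_image_eq _ (toWeakSpace ℂ _).injective]
    exact isBounded_iff_forall_norm_le.2 ⟨_, forall_mem_image.2 hb⟩) fun z hz => ?_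
  obtain ⟨U, -, hU⟩ := clos (f := fun a : A => S a) (S := univ) (z := z) (by
    rw [image_image] at hz
    rwa [image_univ, ← image_eq_range])
  obtain ⟨g, hg⟩ := h U
  exact ⟨toWeakSpace ℂ X g, DFunLike.ext _ _ fun φ => hg φ _ (hU φ)⟩

include e in
theorem sep {A : Set (KH H)} (hA : IsBounded A) : om A ≤ wck A := not_lt.1 fun h => by
  obtain ⟨r, r0, h1, h⟩ := ENNReal.lt_iff_exists_real_btwn.1 h
  obtain ⟨t, t0, h2, h⟩ := ENNReal.lt_iff_exists_real_btwn.1 h
  obtain ⟨u, -, h3, h⟩ := ENNReal.lt_iff_exists_real_btwn.1 h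
  rw [ENNReal.ofReal_lt_ofReal_iff_of_nonneg (by assumption)] at h2 h3
  obtain ⟨R, hR⟩ := isBounded_iff_forall_norm_le.1 hA
  choose k hk using fun T : KH H => (approx e T.2 (sub_pos.2 h3)).exists
  let S : KH H → KH H := fun T => mkK (PP e (.range (k T)) * inc T * PP e (.range (k T)) -
    RR e t (inc T) (k T)) (sub_mem (by simpa using PP_c e _ (_ * inc T) 1)
      (Submodule.sum_mem _ fun _ _ => by simpa using PP_c e _ (_ * inc T) 1))
  have hS : ∀ T, ‖T - S T‖ ≤ u := fun T => by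
    have := norm_add_le_of_le (hk T) (RR_le e t (inc T) t0 (k T))
    rwa [sub_add_cancel, sub_add] at this
  have hb : ∀ T ∈ A, ‖S T‖ ≤ R + u := fun T hT =>
    (norm_le_norm_add_norm_sub T (S T)).trans (add_le_add (hR T hT) (hS T))
  exact h.not_ge (om_le hS hb (lim e hR h1 h2 hb fun T => ⟨k T, rfl⟩))

end Pool.Agent.H41.Wnc
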