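import Mathlib

set_option autoImplicit false

namespace Pool.Agent.H41.Wnc

open Metric NormedSpace Filter
open scoped ENNReal

/-- The excess `d̂(A, B) = sup_{a ∈ A} dist(a, B)`. -/
noncomputable def dhat {Y : Type*} [PseudoEMetricSpace Y] (A B : Set Y) : ℝ≥0∞ :=
  ⨆ a ∈ A, infEDist a B

variable {X : Type*} [NormedAddCommGroup X] [NormedSpace ℂ X]

/-- `K` is weakly compact. -/
def WCompact (K : Set X) : Prop := IsCompact (toWeakSpace ℂ X '' K)

/-- The De Blasi measure `ω(A)`. -/
noncomputable def om (A : Set X) : ℝ≥0∞ := ⨅ (K : Set X) (_ : WCompact K), dhat A K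

/-- The canonical embedding into the bidual carrying the weak* topology. -/
noncomputable def jw (x : X) : WeakDual ℂ (StrongDual ℂ X) :=
  StrongDual.toWeakDual (inclusionInDoubleDual ℂ X x)

/-- Norm distance of an element of the bidual to the canonical copy of `X`. -/
noncomputable def dX (z : WeakDual ℂ (StrongDual ℂ X)) : ℝ≥0∞ :=
  infEDist (WeakDual.toStrongDual z) (Set.range (inclusionInDoubleDual ℂ X))

/-- `wk(A)`: the excess over `X` of the weak* closure of `A` in the bidual. -/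
noncomputable def wk (A : Set X) : ℝ≥0∞ := ⨆ z ∈ closure (jw '' A), dX z

/-- `wck(A)`: the supremum over sequences in `A` of the distance of the set of weak* cluster
points to `X`. -/
noncomputable def wck (A : Set X) : ℝ≥0∞ :=
  ⨆ (x : ℕ → X) (_ : ∀ n, x n ∈ A),
    ⨅ (z : WeakDual ℂ (StrongDual ℂ X)) (_ : MapClusterPt z atTop fun n => jw (x n)), dX z

/-- The axioms of a JB*-triple product on a complex normed space. -/
structure IsJBTriple {E : Type*} [NormedAddCommGroup E] [NormedSpace ℂ E]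
    (tp : E → E → E → E) : Prop where
  cont : Continuous fun p : E × E × E => tp p.1 p.2.1 p.2.2
  add₁ : ∀ a a' b c, tp (a + a') b c = tp a b c + tp a' b c
  smul₁ : ∀ (r : ℂ) a b c, tp (r • a) b c = r • tp a b c
  add₂ : ∀ a b b' c, tp a (b + b') c = tp a b c + tp a b' c
  smul₂ : ∀ (r : ℂ) a b c, tp a (r • b) c = star r • tp a b c
  symm : ∀ a b c, tp a b c = tp c b a
  jordan : ∀ a b x y z,
    tp x y (tp a b z) = tp (tp x y a) b z - tp a (tp y x b) z + tp a b (tp x y z)
  herm : ∀ a, ∃ L : E →L[ℂ] E, (∀ x, L x = tp a a x) ∧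
    (∀ t : ℝ, ‖NormedSpace.exp ((Complex.I * t) • L)‖ = 1) ∧
    ∀ z ∈ spectrum ℂ L, z.im = 0 ∧ 0 ≤ z.re
  cube : ∀ a, ‖tp a a a‖ = ‖a‖ ^ 3

end Pool.Agent.H41.Wnc
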